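import Pool.Agent.Work.MP_e9e200_al.Stmts
import Pool.Agent.Work.MP_e9e200_al.O3.Defs

/-! Bundle of small proof modules (one section per former module). -/

section

/-! Project MP_e9e200_al, item Core: the main lemma. -/

set_option autoImplicit false

namespace Pool.Agent.Work.MP_e9e200_al

namespace Cor

section

variable {G : Type} [Group G] (A : Subgroup G) {k : Type} [Field k] (χ : ℕ → G → ℝ)

/-- functions which are invariant under `A` and vanish if one of the first `i` characters is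
large -/
def J (i : ℕ) : AddSubgroup (G → k) where
  carrier := {f | (∀ a ∈ A, ∀ x, f (x * a) = f x) ∧
    ∃ C : ℝ, ∀ x, (∃ j < i, C ≤ χ j x) → f x = 0}
  zero_mem' := ⟨fun _ _ _ => rfl, 0, fun _ _ => rfl⟩
  add_mem' := by
    rintro f g ⟨hf1, C, hf2⟩ ⟨hg1, D, hg2⟩
    refine ⟨fun a ha x => by simp [hf1 a ha x, hg1 a ha x], max C D, ?_⟩
    rintro x ⟨j, hj, hx⟩
    simp [hf2 x ⟨j, hj, (le_max_left _ _).trans hx⟩, hg2 x ⟨j, hj, (le_max_right _ _).trans hx⟩]
  neg_mem' := by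
    rintro f ⟨hf1, C, hf2⟩
    exact ⟨fun a ha x => by simp [hf1 a ha x], C, fun x hx => by simp [hf2 x hx]⟩

/-- conjugation by `x⁻¹` -/
def cj [hn : A.Normal] (x : G) (a : A) : A :=
  ⟨x⁻¹ * a * x, by simpa using hn.conj_mem a a.2 x⁻¹⟩

variable {S : Submonoid G}

/-- the element `a - 1` of the monoid ring -/
noncomputable def e (hAS : ∀ a ∈ A, a ∈ S) (a : A) : MonoidAlgebra ℤ S :=
  MonoidAlgebra.of ℤ S ⟨a, hAS a a.2⟩ - 1

theorem e_comm (hab : ∀ a ∈ A, ∀ b ∈ A, a * b = b * a) (hAS : ∀ a ∈ A, a ∈ S) (a b : A) :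
    e A hAS a * e A hAS b = e A hAS b * e A hAS a := by
  have h : MonoidAlgebra.of ℤ S ⟨a, hAS a a.2⟩ * MonoidAlgebra.of ℤ S ⟨b, hAS b b.2⟩ =
      MonoidAlgebra.of ℤ S ⟨b, hAS b b.2⟩ * MonoidAlgebra.of ℤ S ⟨a, hAS a a.2⟩ := by
    rw [← map_mul, ← map_mul]
    congr 1
    exact Subtype.ext (hab a a.2 b b.2)
  unfold e
  generalize MonoidAlgebra.of ℤ S ⟨a, hAS a a.2⟩ = X at h ⊢
  generalize MonoidAlgebra.of ℤ S ⟨b, hAS b b.2⟩ = Z at h ⊢
  have h1 : (X - 1) * (Z - 1) = X * Z - X - Z + 1 := by noncomm_ring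
  have h2 : (Z - 1) * (X - 1) = Z * X - X - Z + 1 := by noncomm_ring
  rw [h1, h2, h]

theorem smul_good {K : Type} [AddCommGroup K] [Module (MonoidAlgebra ℤ S) K]
    (v : K →+ (G → k)) (hv : ∀ (s : S) (p : K) (x : G),
      v (MonoidAlgebra.of ℤ S s • p) x = v p (x * s)) (P : G → Prop)
    (hP : ∀ (s : S) (x : G), P x → P (x * s)) (p : K) (hp : ∀ x, P x → v p x = 0)
    (r : MonoidAlgebra ℤ S) : ∀ x, P x → v (r • p) x = 0 := by
  induction r using MonoidAlgebra.induction_on with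
  | of s =>
    intro x hx
    have h := hv s p x
    rw [h]
    exact hp _ (hP s x hx)
  | add r r' h h' =>
    intro x hx
    rw [add_smul, map_add, Pi.add_apply, h x hx, h' x hx, add_zero]
  | smul n r h =>
    intro x hx
    rw [smul_assoc, map_zsmul, Pi.smul_apply, h x hx, smul_zero]

end

theorem aux (h1 : StUnshift) (h3 : StTwist) (h4 : StKos) {G : Type} [Group G] (A : Subgroup G)
    [A.Normal] (hab : ∀ a ∈ A, ∀ b ∈ A, a * b = b * a) (S : Submonoid G)
    (hAS : ∀ a ∈ A, a ∈ S) {k : Type} [Field k] (m : ℕ) (χ : ℕ → G → ℝ) (y Y : ℕ → G → k)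
    (b : ℕ → A) (hm : 1 ≤ m) (hχ : ∀ i < m, ∀ x g, χ i (x * g) = χ i x + χ i g)
    (hS : ∀ s ∈ S, 0 ≤ ∑ i ∈ Finset.range m, χ i s)
    (hub : ∀ C : ℝ, ∃ x, C ≤ ∑ i ∈ Finset.range m, χ i x)
    (hY1 : ∀ i < m, ∀ a ∈ A, ∀ x, Y i (a * x) = y i a + Y i x)
    (hY2 : ∀ i < m, ∀ g, ∃ C : ℝ, ∀ x, C ≤ χ i x → Y i (x * g) = Y i x)
    (hy0 : ∀ i < m, ∀ j < i, y i (b j) = 0) (hy1 : ∀ i < m, y i (b i) ≠ 0) :
    ∀ (j i : ℕ), i + j = m → ∀ (K : Type) [AddCommGroup K] [Module (MonoidAlgebra ℤ S) K],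
      IsFP (MonoidAlgebra ℤ S) K j → ∀ (v : K →+ (G → k)) (z : (Fin i → A) → K),
      (∀ (s : S) (p : K) (x : G), v (MonoidAlgebra.of ℤ S s • p) x = v p (x * s)) →
      (∀ p, v p ∈ J A χ i) →
      (∀ c : Fin (i + 1) → A, ∑ j : Fin (i + 1),
        (-1 : ℤ) ^ (j : ℕ) • (e A hAS (c j) • z (fun l => c (j.succAbove l))) = 0) →
      (∀ x : G, v (z (fun l => cj A x (b l))) x ≠ 0) → False := by
  intro j
  induction j with
  | zero =>
    intro i hi K _ _ hK v z hv hJ _ hne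
    obtain rfl : i = m := hi
    obtain ⟨T, hT⟩ := ((h1 _ K 0).1 hK).fg_top
    choose! C hC using fun t : K => (hJ t).2
    obtain ⟨D, hD⟩ := (T.image C).exists_le
    obtain ⟨x, hx⟩ := hub (i * D)
    have hall : ∀ p ∈ Submodule.span (MonoidAlgebra ℤ S) (T : Set K),
        ∀ x, i * D ≤ ∑ l ∈ Finset.range i, χ l x → v p x = 0 := by
      intro p hp
      induction hp using Submodule.span_induction with
      | mem t ht =>
        intro x hx
        refine hC t x ?_
        by_contra hcon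
        push Not at hcon
        have h5 : ∑ l ∈ Finset.range i, χ l x < ∑ l ∈ Finset.range i, D := by
          refine Finset.sum_lt_sum_of_nonempty (Finset.nonempty_range_iff.mpr (by omega)) ?_
          intro l hl
          exact (hcon l (Finset.mem_range.mp hl)).trans_le
            (hD _ (Finset.mem_image_of_mem C ht))
        rw [Finset.sum_const, Finset.card_range, nsmul_eq_mul] at h5
        exact absurd hx (not_le.mpr h5)
      | zero => intro x _; simp
      | add p q _ _ hp hq => intro x hx; rw [map_add, Pi.add_apply, hp x hx, hq x hx, add_zero]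
      | smul r p _ hp =>
        refine smul_good v hv (fun x => i * D ≤ ∑ l ∈ Finset.range i, χ l x) ?_ p hp r
        intro s x hx
        have h6 : ∑ l ∈ Finset.range i, χ l (x * s) =
            ∑ l ∈ Finset.range i, χ l x + ∑ l ∈ Finset.range i, χ l s := by
          rw [← Finset.sum_add_distrib]
          exact Finset.sum_congr rfl fun l hl => hχ l (Finset.mem_range.mp hl) x s
        show i * D ≤ ∑ l ∈ Finset.range i, χ l (x * s)
        rw [h6]
        linarith [hS s s.2]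
    exact hne x (hall _ (by rw [hT]; trivial) x hx)
  | succ j ih =>
    intro i hi K _ _ hK v z hv hJ hz hne
    have him : i < m := by omega
    obtain ⟨F, f, hFp, _, hfs, hker⟩ := (h1 _ K j).2 hK
    -- the twisted lift
    let v' : F →+ (G → k) := v.comp f.toAddMonoidHom
    have hv'd : ∀ p, v' p = v (f p) := fun p => rfl
    let δ : S → G → k := fun s x => Y i (x * s) - Y i x
    have hδa : ∀ (s : S) (a : G), a ∈ A → ∀ x, δ s (x * a) = δ s x := by
      intro s a ha x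
      have h5 : x * a = (x * a * x⁻¹) * x := by group
      have h6 : x * a * x⁻¹ ∈ A := (inferInstance : A.Normal).conj_mem a ha x
      show Y i (x * a * s) - Y i (x * a) = Y i (x * s) - Y i x
      rw [h5, mul_assoc (x * a * x⁻¹) x (s : G), hY1 i him _ h6, hY1 i him _ h6]
      ring
    obtain ⟨u, hu, huJ⟩ := h3 S F hFp v' δ (J A χ (i + 1)) (by
        intro s p x
        rw [hv'd, hv'd, map_smul, hv]) (by
        intro s t x
        show Y i (x * ((s * t : S) : G)) - Y i x = _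
        rw [Submonoid.coe_mul, ← mul_assoc]
        show _ = (Y i (x * s) - Y i x) + (Y i (x * s * t) - Y i (x * s))
        ring) (by
        intro s p
        obtain ⟨ha, C, hC⟩ := hJ (f p)
        obtain ⟨C', hC'⟩ := hY2 i him s
        refine ⟨fun a haA x => ?_, max C' (C + ∑ l ∈ Finset.range m, |χ l s|), ?_⟩
        · have h5 : x * a * s = x * s * ((s : G)⁻¹ * a * s) := by group
          have h6 : (s : G)⁻¹ * a * s ∈ A := by
            simpa using (inferInstance : A.Normal).conj_mem a haA (s : G)⁻¹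
          show δ s (x * a) * v (f p) (x * a * s) = δ s x * v (f p) (x * s)
          rw [hδa s a haA x, h5, ha _ h6]
        · rintro x ⟨l, hl, hx⟩
          show δ s x * v (f p) (x * s) = 0
          rcases Nat.lt_succ_iff_lt_or_eq.mp hl with hl | rfl
          · have h5 : |χ l s| ≤ ∑ l ∈ Finset.range m, |χ l s| :=
              Finset.single_le_sum (f := fun l => |χ l s|) (fun _ _ => abs_nonneg _)
                (Finset.mem_range.mpr (by omega))
            have h6 := (le_max_right C' (C + ∑ l ∈ Finset.range m, |χ l s|)).trans hx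
            have h7 := neg_abs_le (χ l s)
            rw [hC (x * s) ⟨l, hl, by rw [hχ l (by omega)]; linarith⟩, mul_zero]
          · have h6 := (le_max_left C' (C + ∑ l ∈ Finset.range m, |χ l s|)).trans hx
            have h7 : δ s x = 0 := by
              show Y l (x * s) - Y l x = 0
              rw [hC' x h6, sub_self]
            rw [h7, zero_mul])
    obtain ⟨κ, z', hκ, hz', hz''⟩ := h4 (MonoidAlgebra ℤ S) A (e A hAS)
      (e_comm A hab hAS) F K f hfs i z hz
    refine ih (i + 1) (by omega) (LinearMap.ker f) hker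
      (u.comp (LinearMap.ker f).subtype.toAddMonoidHom) z' ?_ ?_ hz'' ?_
    · intro s p x
      show u (MonoidAlgebra.of ℤ S s • (p : F)) x = u (p : F) (x * s)
      rw [hu, hv'd, LinearMap.mem_ker.mp p.2, map_zero]
      simp
    · intro p
      exact huJ _
    · intro x
      show u (z' (fun l => cj A x (b l)) : F) x ≠ 0
      have key : ∀ (a : A) (p : F), u (e A hAS (cj A x a) • p) x = y i a * v (f p) x := by
        intro a p
        obtain ⟨hua, -⟩ := huJ p
        obtain ⟨hva, -⟩ := hJ (f p)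
        have h5 : x * (cj A x a : G) = a * x := by
          show x * (x⁻¹ * a * x) = a * x
          group
        unfold e
        rw [sub_smul, one_smul, map_sub, Pi.sub_apply, hu]
        show u p (x * (cj A x a : G)) + (Y i (x * (cj A x a : G)) - Y i x) *
          v' p (x * (cj A x a : G)) - u p x = _
        rw [hua _ (cj A x a).2, hv'd, hva _ (cj A x a).2, h5, hY1 i him _ a.2]
        ring
      rw [hz', map_sum, Finset.sum_apply, Fin.sum_univ_castSucc, Finset.sum_eq_zero, zero_add]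
      · rw [map_zsmul, Pi.smul_apply, key, hκ]
        have h6 : (fun l : Fin i => cj A x (b ((Fin.last i).succAbove l : Fin (i + 1)))) =
            fun l : Fin i => cj A x (b l) := by
          funext l
          rw [Fin.succAbove_last, Fin.val_castSucc]
        rw [h6, Fin.val_last]
        have h7 := hne x
        have h8 := hy1 i him
        rcases Nat.even_or_odd i with h9 | h9
        · rw [h9.neg_one_pow, one_smul]
          exact mul_ne_zero h8 h7
        · rw [h9.neg_one_pow, neg_smul, one_smul]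
          exact neg_ne_zero.mpr (mul_ne_zero h8 h7)
      · intro l _
        rw [map_zsmul, Pi.smul_apply, key, Fin.val_castSucc, hy0 i him l l.2, zero_mul, smul_zero]

end Cor

open Cor in
theorem I_Core (h1 : StUnshift) (h3 : StTwist) (h4 : StKos) : StCore := by
  intro G _ A _ hab S hAS k _ m χ y Y b hm hχ hS hub hY1 hY2 hb hy0 hy1 hfp
  classical
  let b' : ℕ → A := fun i => if h : i < m then ⟨b i, hb i h⟩ else 1
  have hb' : ∀ i < m, (b' i : G) = b i := by
    intro i hi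
    simp only [b', dif_pos hi]
  have hof : ∀ (s : S) (p : Triv S), MonoidAlgebra.of ℤ S s • p = p := by
    intro s p
    show (aug S (MonoidAlgebra.of ℤ S s)) * (show ℤ from p) = p
    have : aug S (MonoidAlgebra.of ℤ S s) = 1 := by
      simp [aug]
    rw [this, one_mul]
  let v : Triv S →+ (G → k) :=
    { toFun := fun n _ => ((show ℤ from n : ℤ) : k)
      map_zero' := by funext x; exact Int.cast_zero
      map_add' := by intro a c; funext x; exact Int.cast_add _ _ }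
  refine aux h1 h3 h4 A hab S hAS m χ y Y b' hm hχ hS hub hY1 hY2 ?_ ?_ m 0 (by omega)
    (Triv S) hfp v (fun _ => (show Triv S from (1 : ℤ))) ?_ ?_ ?_ ?_
  · intro i hi j hj
    rw [hb' j (by omega)]; exact hy0 i hi j hj
  · intro i hi
    rw [hb' i hi]; exact hy1 i hi
  · intro s p x
    rw [hof]
    rfl
  · intro p
    exact ⟨fun _ _ _ => rfl, 0, fun x ⟨j, hj, _⟩ => absurd hj (Nat.not_lt_zero j)⟩
  · intro c
    rw [Fin.sum_univ_one]
    unfold e
    rw [sub_smul, hof, one_smul, sub_self, smul_zero]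
  · intro x
    show (((1 : ℤ) : k)) ≠ 0
    simp

end Pool.Agent.Work.MP_e9e200_al

end

section

/-! Project MP_e9e200_al, item Glue: the two parts of the main result. -/

set_option autoImplicit false

namespace Pool.Agent.Work.MP_e9e200_al

namespace Glue

variable {G : Type} [Group G]

theorem char_mul (χ : Additive G →+ ℝ) (x g : G) :
    χ (Additive.ofMul (x * g)) = χ (Additive.ofMul x) + χ (Additive.ofMul g) := by
  rw [ofMul_mul, map_add]

/-- characters vanish on the derived group -/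
theorem char_comm (χ : Additive G →+ ℝ) {a : G} (ha : a ∈ commutator G) :
    χ (Additive.ofMul a) = 0 := by
  let f : G →* Multiplicative ℝ :=
    { toFun := fun g => Multiplicative.ofAdd (χ (Additive.ofMul g))
      map_one' := by simp
      map_mul' := by intro x y; rw [char_mul]; rfl }
  have h := Abelianization.commutator_subset_ker f ha
  have h2 : f a = 1 := h
  exact congrArg Multiplicative.toAdd h2

theorem unbounded (χ : Additive G →+ ℝ) (h : χ ≠ 0) (C : ℝ) : ∃ x : G, C ≤ χ (Additive.ofMul x) := by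
  obtain ⟨g, hg⟩ : ∃ g : G, 0 < χ (Additive.ofMul g) := by
    by_contra hcon
    push Not at hcon
    apply h
    refine AddMonoidHom.ext fun g => ?_
    have h1 : χ g ≤ 0 := hcon (Additive.toMul g)
    have h2 : χ (-g) ≤ 0 := hcon (Additive.toMul (-g))
    rw [map_neg] at h2
    rw [AddMonoidHom.zero_apply]
    linarith
  obtain ⟨N, hN⟩ := exists_nat_ge (C / χ (Additive.ofMul g))
  refine ⟨g ^ N, ?_⟩
  rw [ofMul_pow, map_nsmul, nsmul_eq_mul]
  rw [div_le_iff₀ hg] at hN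
  exact hN

theorem kfg_smul {k : Type} [Field k] {χ : Additive G →+ ℝ} {c : ℝ} (hc : 0 < c)
    (h : KFG G k (c • χ)) : KFG G k χ := by
  obtain ⟨V, hV, h⟩ := h
  refine ⟨V, hV, fun y hy1 hy2 => h y hy1 fun g hg v hv => hy2 g ?_ v hv⟩
  have h1 : (c • χ) (Additive.ofMul g) = c * χ (Additive.ofMul g) := rfl
  rw [h1] at hg
  exact nonneg_of_mul_nonneg_right hg hc

theorem seq {k : Type} [Field k] (Q : ℕ → (G → k) → Prop) (n : ℕ)
    (h : ∀ i < n, ∀ W : Finset G, (∀ w ∈ W, w ∈ commutator G) →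
      ∃ y : G → k, Q i y ∧ (∀ w ∈ W, y w = 0) ∧ ∃ b ∈ commutator G, y b ≠ 0) :
    ∃ (y : ℕ → G → k) (b : ℕ → G), ∀ i < n, Q i (y i) ∧ b i ∈ commutator G ∧ y i (b i) ≠ 0 ∧
      ∀ j < i, y i (b j) = 0 := by
  classical
  induction n with
  | zero => exact ⟨fun _ _ => 0, fun _ => 1, fun i hi => absurd hi (Nat.not_lt_zero i)⟩
  | succ n ih =>
    obtain ⟨y, b, hyb⟩ := ih fun i hi => h i (by omega)
    obtain ⟨y0, hQ, h0, b0, hb0, hb1⟩ := h n (Nat.lt_succ_self n) ((Finset.range n).image b) (by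
      intro w hw
      obtain ⟨i, hi, rfl⟩ := Finset.mem_image.mp hw
      exact (hyb i (Finset.mem_range.mp hi)).2.1)
    refine ⟨Function.update y n y0, Function.update b n b0, fun i hi => ?_⟩
    rcases Nat.lt_succ_iff_lt_or_eq.mp hi with hi | rfl
    · rw [Function.update_of_ne hi.ne, Function.update_of_ne hi.ne]
      obtain ⟨h1, h2, h3, h4⟩ := hyb i hi
      refine ⟨h1, h2, h3, fun j hj => ?_⟩
      rw [Function.update_of_ne (by omega)]
      exact h4 j hj
    · rw [Function.update_self, Function.update_self]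
      refine ⟨hQ, hb0, hb1, fun j hj => ?_⟩
      rw [Function.update_of_ne hj.ne]
      exact h0 _ (Finset.mem_image_of_mem b (Finset.mem_range.mpr hj))

end Glue

open Glue in
theorem I_Main2 (hC : StCore) (hMono : StMono) (hY : StY) (hConv : StConv) : StMain2 := by
  intro m G _ _ hm hmet _ k _ v hv
  classical
  obtain ⟨hv0, s, hcard, hs, hconv⟩ := hv
  obtain ⟨n, hn1, hn2, w, c, hwc, hsum⟩ := hConv _ s v hv0 hconv
  refine ⟨hv0, fun hfp => ?_⟩
  have hfpn := hMono _ _ m n (by omega) hfp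
  -- the characters
  have hX0 : ∀ i < n, c i • w i ≠ 0 := by
    intro i hi
    obtain ⟨χ, hχ, d, hd, hw⟩ := hs _ (hwc i hi).1
    rw [hw, smul_smul]
    exact smul_ne_zero (mul_pos (hwc i hi).2 hd).ne' hχ.1
  have hXK : ∀ i < n, ¬ KFG G k (c i • w i) := by
    intro i hi h
    obtain ⟨χ, hχ, d, hd, hw⟩ := hs _ (hwc i hi).1
    rw [hw, smul_smul] at h
    exact hχ.2 (kfg_smul (mul_pos (hwc i hi).2 hd) h)
  choose! V hV hVY using fun i (hi : i < n) => hY G hmet k (c i • w i) (hX0 i hi)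
  obtain ⟨y, b, hyb⟩ := seq (k := k) (fun i y =>
      (∀ a ∈ commutator G, ∀ b ∈ commutator G, y (a * b) = y a + y b) ∧
      (∀ g, 0 ≤ (c i • w i) (Additive.ofMul g) → ∀ v ∈ V i, y (g * v * g⁻¹) = 0)) n (by
    intro i hi W hW
    by_contra hcon
    push Not at hcon
    refine hXK i hi ⟨V i ∪ W, ?_, ?_⟩
    · intro x hx
      rcases Finset.mem_union.mp hx with hx | hx
      · exact hV i hi x hx
      · exact hW x hx
    · intro y hy1 hy2
      refine hcon y ⟨hy1, fun g hg v hv => hy2 g hg v (Finset.mem_union_left _ hv)⟩ ?_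
      intro x hx
      have h := hy2 1 (by simp) x (Finset.mem_union_right _ hx)
      simpa using h)
  choose! Y hY1 hY2 using fun i (hi : i < n) => hVY i hi (y i) (hyb i hi).1.1 (hyb i hi).1.2
  have hval : ∀ g : G, v (Additive.ofMul g) =
      ∑ i ∈ Finset.range n, (c i • w i) (Additive.ofMul g) := by
    intro g
    conv_lhs => rw [hsum]
    rw [AddMonoidHom.finsetSum_apply]
  refine hC (commutator G) hmet (Gmon v) ?_ n (fun i g => (c i • w i) (Additive.ofMul g)) y Y b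
    hn1 ?_ ?_ ?_ hY1 hY2 (fun i hi => (hyb i hi).2.1) (fun i hi j hj => (hyb i hi).2.2.2 j hj)
    (fun i hi => (hyb i hi).2.2.1) hfpn
  · intro a ha
    show 0 ≤ v (Additive.ofMul a)
    rw [char_comm v ha]
  · intro i _ x g
    exact char_mul _ x g
  · intro s hs
    have h : 0 ≤ v (Additive.ofMul s) := hs
    rwa [hval] at h
  · intro C
    obtain ⟨x, hx⟩ := unbounded v hv0 C
    refine ⟨x, ?_⟩
    rwa [hval] at hx

theorem I_Main1 (h2 : StMain2) (hGen : StGen) (hSig : StSig1) : StMain1 := by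
  intro m G _ _ hm hmet hfp p r hp hexp v hv
  have : Fact p.Prime := ⟨hp⟩
  refine h2 m G hm hmet hfp (ZMod p) ?_
  obtain ⟨hv0, s, hcard, hs, hconv⟩ := hv
  refine ⟨hv0, s, hcard, fun w hw => ?_, hconv⟩
  obtain ⟨χ, ⟨hχ0, hχ⟩, d, hd, hwd⟩ := hs w hw
  refine ⟨χ, ⟨hχ0, fun hK => hχ ?_⟩, d, hd, hwd⟩
  obtain ⟨V, hV, hcl⟩ := hGen G hmet p r hexp χ hK
  exact hSig G hmet χ hχ0 V hV hcl

end Pool.Agent.Work.MP_e9e200_al

end

section

/-!
# Item NC: the derived group is the normal closure of a finite set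
-/

set_option autoImplicit false

open scoped commutatorElement

namespace Pool.Agent.Work.MP_e9e200_al

namespace NC

theorem comm_step {G Q : Type} [Group G] [Group Q] (π : G →* Q) {X : Set G}
    (hX : Subgroup.closure X = ⊤) (h : ∀ x ∈ X, ∀ y ∈ X, π x * π y = π y * π x) (a b : G) :
    π a * π b = π b * π a := by
  have h1 : ∀ x ∈ X, ∀ b : G, π b * π x = π x * π b := by
    intro x hx b
    have hle : Subgroup.closure X ≤ (Subgroup.centralizer {π x}).comap π := by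
      rw [Subgroup.closure_le]
      intro y hy
      show π y ∈ Subgroup.centralizer {π x}
      rw [Subgroup.mem_centralizer_singleton_iff]
      exact h y hy x hx
    rw [hX] at hle
    have h2 : π b ∈ Subgroup.centralizer {π x} := hle (Subgroup.mem_top b)
    rwa [Subgroup.mem_centralizer_singleton_iff] at h2
  have hle : Subgroup.closure X ≤ (Subgroup.centralizer {π b}).comap π := by
    rw [Subgroup.closure_le]
    intro y hy
    show π y ∈ Subgroup.centralizer {π b}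
    rw [Subgroup.mem_centralizer_singleton_iff]
    exact (h1 y hy b).symm
  rw [hX] at hle
  have h2 : π a ∈ Subgroup.centralizer {π b} := hle (Subgroup.mem_top a)
  rwa [Subgroup.mem_centralizer_singleton_iff] at h2

end NC

theorem I_NC : StNC := by
  classical
  intro G _ _
  obtain ⟨X, hX⟩ := Group.FG.out (G := G)
  refine ⟨(X ×ˢ X).image (fun p => ⁅p.1, p.2⁆), ?_, ?_⟩
  · intro v hv
    obtain ⟨p, _, rfl⟩ := Finset.mem_image.1 hv
    exact Subgroup.commutator_mem_commutator (Subgroup.mem_top _) (Subgroup.mem_top _)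
  · rw [commutator_def, Subgroup.commutator_le]
    intro a _ b _
    set N := Subgroup.normalClosure
      (((X ×ˢ X).image (fun p : G × G => ⁅p.1, p.2⁆) : Finset G) : Set G) with hN
    have key := NC.comm_step (QuotientGroup.mk' N) hX (by
      intro x hx y hy
      have hm : ⁅x, y⁆ ∈ N := by
        rw [hN]
        apply Subgroup.subset_normalClosure
        rw [Finset.mem_coe, Finset.mem_image]
        exact ⟨(x, y), Finset.mem_product.2 ⟨hx, hy⟩, rfl⟩
      have h1 : QuotientGroup.mk' N ⁅x, y⁆ = 1 := by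
        rw [QuotientGroup.mk'_apply, QuotientGroup.eq_one_iff]
        exact hm
      rw [map_commutatorElement, commutatorElement_eq_one_iff_mul_comm] at h1
      exact h1) a b
    rw [← QuotientGroup.eq_one_iff, ← QuotientGroup.mk'_apply, map_commutatorElement,
      commutatorElement_eq_one_iff_mul_comm]
    exact key

end Pool.Agent.Work.MP_e9e200_al

end

section

/-!
# Project O3: statements of the block T (maps of cubes into wedges of spheres)

Each `def StXXX : Prop` is to be proved as `theorem I_XXX : StXXX` in `O3/P_XXX.lean`.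
-/

set_option autoImplicit false

namespace Pool.Agent.Work.MP_e9e200_al.O3

open Set Metric Topology OnePoint

/-! ### T1. Topology of wedges, compact supports -/

/-- OPC: continuity of a map to a wedge at a point -/
def StOPC : Prop := ∀ (Z : Type) [TopologicalSpace Z] (k n : ℕ) (w : Z → W k n) (z : Z),
  (w z = ∞ → (ContinuousAt w z ↔ ∀ R : ℝ, ∀ᶠ z' in 𝓝 z, ∀ (a : Fin k) (y : E n),
    w z' = ((a, y) : Fin k × E n) → R ≤ ‖y‖)) ∧
  ∀ (a : Fin k) (y : E n), w z = ((a, y) : Fin k × E n) → (ContinuousAt w z ↔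
    ∀ ε : ℝ, 0 < ε → ∀ᶠ z' in 𝓝 z, ∃ y' : E n, w z' = ((a, y') : Fin k × E n) ∧ ‖y' - y‖ < ε)

/-- PHI: the maps `phi` and `psi` are inverse homeomorphisms -/
def StPHI : Prop := ∀ n : ℕ, (∀ y : E n, ‖phi y‖ < 1 ∧ psi (phi y) = y ∧
    ‖phi y‖ = ‖y‖ / (1 + ‖y‖)) ∧
  (∀ x : E n, ‖x‖ < 1 → phi (psi x) = x ∧ ‖psi x‖ = ‖x‖ / (1 - ‖x‖)) ∧
  Continuous (phi : E n → E n) ∧ ContinuousOn (psi : E n → E n) (ball 0 1)

/-- HO: homotopy with compact support is an equivalence relation, and it is enough to have a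
homotopy over `[0,1]` -/
def StHO : Prop := ∀ (n : ℕ) (Z : Type) [TopologicalSpace Z] (z : Z),
  (∀ f : E n → Z, CS z f → Ho z f f) ∧ (∀ f g : E n → Z, Ho z f g → Ho z g f) ∧
  (∀ f g h : E n → Z, Ho z f g → Ho z g h → Ho z f h) ∧
  (∀ f g : E n → Z, Ho z f g → CS z f ∧ CS z g) ∧
  ∀ (H : ℝ × E n → Z) (r : ℝ), ContinuousOn H (Icc 0 1 ×ˢ univ) →
    (∀ t ∈ Icc (0 : ℝ) 1, ∀ x, r ≤ ‖x‖ → H (t, x) = z) →
    Ho z (fun x => H (0, x)) (fun x => H (1, x))

/-- GLUE: the union of maps with disjoint supports -/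
def StGLUE : Prop := ∀ (V Z : Type) [TopologicalSpace V] [TopologicalSpace Z] [T1Space Z] (z : Z)
  (f g u : V → Z), Continuous f → Continuous g → (∀ x, f x = z ∨ g x = z) →
  (∀ x, u x = f x ∨ f x = z) → (∀ x, u x = g x ∨ g x = z) → (∀ x, f x = z → g x = z → u x = z) →
  Continuous u

/-- HGLUE: homotopies of maps with disjoint supports -/
def StHGLUE : Prop := ∀ (n : ℕ) (Z : Type) [TopologicalSpace Z] [T1Space Z] (z : Z) (r : ℕ)
  (H : Fin r → ℝ × E n → Z), (∀ i, Continuous (H i)) →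
  (∃ ρ : ℝ, ∀ i t x, ρ ≤ ‖x‖ → H i (t, x) = z) →
  (∀ i j, i ≠ j → ∀ p, H i p = z ∨ H j p = z) → ∀ f g : E n → Z,
  (∀ x, (∀ i, H i (0, x) = z) → f x = z) → (∀ i x, H i (0, x) = z ∨ f x = H i (0, x)) →
  (∀ x, (∀ i, H i (1, x) = z) → g x = z) → (∀ i x, H i (1, x) = z ∨ g x = H i (1, x)) →
  Ho z f g

/-! ### T2. The degree -/

/-- the total orientation of the slice `t` of a labelling of `ℤ × ℤ^n` -/
noncomputable def slc {n : ℕ} (K : (Fin (n + 1) → (ℤ × (Fin n → ℤ))) → ℤ) (t : ℤ) : ℤ :=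
  ∑ᶠ p : Fin n → ℤ, ∑ σ : Equiv.Perm (Fin n),
    (Equiv.Perm.sign σ : ℤ) * K (fun i => (t, vx p σ i))

/-- STOK: discrete Stokes theorem for closed cochains with bounded support -/
def StSTOK : Prop := ∀ (n : ℕ) (K : (Fin (n + 1) → (ℤ × (Fin n → ℤ))) → ℤ) (M t : ℤ),
  (∀ v, (∃ i j, M ≤ |(v i).2 j|) → K v = 0) →
  (∀ v : Fin (n + 2) → (ℤ × (Fin n → ℤ)), (∀ i, (v i).1 = t ∨ (v i).1 = t + 1) →
    (∀ i j l, |(v i).2 l - (v j).2 l| ≤ 1) →
    ∑ i : Fin (n + 2), (-1) ^ (i : ℕ) * K (fun j => v (i.succAbove j)) = 0) →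
  slc K t = slc K (t + 1)

/-- CLOSE: the orientation is a closed cochain on small simplices -/
def StCLOSE : Prop := ∀ (V : Type) [MetricSpace V] (k n : ℕ) (a : Fin k) (H : V → W k n)
  (C : Set V), IsCompact C → ContinuousOn H C → ∃ δ : ℝ, 0 < δ ∧ ∀ v : Fin (n + 2) → V,
    (∀ i, v i ∈ C) → (∀ i j, dist (v i) (v j) ≤ δ) →
    ∑ i : Fin (n + 2), (-1) ^ (i : ℕ) * kap a (fun j => H (v (i.succAbove j))) = 0

/-- DSTB: the sums over all simplices do not depend on the mesh, and are invariant under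
homotopies (uses STOK, CLOSE) -/
def StDSTB : Prop := ∀ (k n : ℕ) (a : Fin k) (f g : E n → W k n), Ho ∞ f g →
  ∃ N₀ : ℕ, ∀ N N' : ℕ, N₀ ≤ N → N₀ ≤ N' → SN a f N = SN a g N'

/-- DEG: the degree is the sum over all simplices of a fine mesh, and is a homotopy invariant
(uses DSTB, HO) -/
def StDEG : Prop := ∀ (k n : ℕ) (a : Fin k),
  (∀ f : E n → W k n, CS ∞ f → ∀ᶠ N : ℕ in Filter.atTop, SN a f N = deg a f) ∧
  ∀ f g : E n → W k n, Ho ∞ f g → deg a f = deg a g

/-- DADD: additivity of the degree for disjoint supports (uses DEG, GLUE) -/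
def StDADD : Prop := ∀ (k n : ℕ) (a : Fin k) (f g u : E n → W k n), CS ∞ f → CS ∞ g →
  (∀ x, f x = ∞ ∨ g x = ∞) → (∀ x, u x = f x ∨ f x = ∞) → (∀ x, u x = g x ∨ g x = ∞) →
  (∀ x, f x = ∞ → g x = ∞ → u x = ∞) → CS ∞ u ∧ deg a u = deg a f + deg a g

/-- DNRM: the degree of a map which preserves the signs of the coordinates (uses DEG) -/
def StDNRM : Prop := ∀ (k n : ℕ) (a : Fin k) (u : E n → W k n) (c : E n), CS ∞ u →
  (∀ x b y, u x = ((b, y) : Fin k × E n) → b = a ∧ ∀ i, 0 ≤ y i ↔ c i ≤ x i) → u c ≠ ∞ →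
  deg a u = 1

/-- DPR: the degree over `a` only depends on the projection, and it is zero if `a` is not hit -/
def StDPR : Prop := ∀ (k n : ℕ) (a : Fin k), Continuous (pr a : W k n → W 1 n) ∧
  (∀ f : E n → W k n, deg a f = deg 0 (fun x => pr a (f x))) ∧
  (∀ f : E n → W k n, (∀ x b y, f x = ((b, y) : Fin k × E n) → b ≠ a) → deg a f = 0) ∧
  (∀ b : Fin k, CS ∞ (io b : E n → W k n) ∧ Lo ∞ (io b : E n → W k n))

/-- DIO: degrees of the inclusions (uses DNRM, DPR) -/
def StDIO : Prop := ∀ (k n : ℕ) (a b : Fin k),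
  deg a (io b : E n → W k n) = if a = b then 1 else 0

/-! ### T3. Homotopy groups -/

/-- CL1: the class of a map with compact support is well defined -/
def StCL1 : Prop := ∀ (n : ℕ) (Z : Type) [TopologicalSpace Z] (z : Z) (f g : E n → Z),
  CS z f → CS z g → (cl z f = cl z g ↔ Ho z f g)

/-- CL2: every class is the class of a map of the unit cube; the class of a constant map (uses
CL1) -/
def StCL2 : Prop := ∀ (n : ℕ) (Z : Type) [TopologicalSpace Z] (z : Z),
  (∀ α : HomotopyGroup (Fin (n + 1)) Z z, ∃ f : E (n + 1) → Z, Lo z f ∧ cl z f = α) ∧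
  cl z (fun _ : E (n + 1) => z) = (1 : HomotopyGroup (Fin (n + 1)) Z z)

/-- CL3: splitting along a hyperplane (uses CL1) -/
def StCL3 : Prop := ∀ (n : ℕ) (Z : Type) [TopologicalSpace Z] (z : Z) (f f₁ f₂ : E (n + 1) → Z)
  (i : Fin (n + 1)) (c : ℝ), CS z f → (∀ x, x i = c → f x = z) →
  (∀ x, x i ≤ c → f₁ x = f x ∧ f₂ x = z) → (∀ x, c ≤ x i → f₂ x = f x ∧ f₁ x = z) →
  CS z f₁ ∧ CS z f₂ ∧ cl z f = cl z f₂ * cl z f₁

/-- CL4: the class of the reflected map (uses CL1) -/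
def StCL4 : Prop := ∀ (n : ℕ) (Z : Type) [TopologicalSpace Z] (z : Z) (f : E (n + 1) → Z)
  (i : Fin (n + 1)), CS z f → cl z (fun x => f (mir i x)) = (cl z f)⁻¹

/-- CL5: the induced homomorphism (uses CL1, CL2, CL3) -/
def StCL5 : Prop := ∀ (n : ℕ) (Z Z' : Type) [TopologicalSpace Z] [TopologicalSpace Z'] (z : Z)
  (z' : Z') (φ : Z → Z'), Continuous φ → φ z = z' →
  ∃ Φ : HomotopyGroup (Fin (n + 1)) Z z →* HomotopyGroup (Fin (n + 1)) Z' z',
    ∀ f : E (n + 1) → Z, CS z f → Φ (cl z f) = cl z' (fun x => φ (f x))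

/-! ### T4. The Pontryagin-Thom construction -/

/-- disjoint linear pieces -/
structure Pcs (k n r : ℕ) where
  a : Fin r → Fin k
  c : Fin r → E n
  L : Fin r → (E n ≃L[ℝ] E n)
  dis : ∀ i j, i ≠ j → ∀ x, ‖L i (x - c i)‖ < 1 → 1 ≤ ‖L j (x - c j)‖

/-- `f` is the union of the pieces -/
def Pcs.Un {k n r : ℕ} (P : Pcs k n r) (f : E n → W k n) : Prop :=
  (∀ i x, ‖P.L i (x - P.c i)‖ < 1 → f x = ((P.a i, psi (P.L i (x - P.c i))) : Fin k × E n)) ∧
  ∀ x, (∀ i, 1 ≤ ‖P.L i (x - P.c i)‖) → f x = ∞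

/-- SMO: smooth approximation near the preimage of the unit ball -/
def StSMO : Prop := ∀ (k n : ℕ) (f : E n → W k n), CS ∞ f → ∃ f' : E n → W k n, Ho ∞ f f' ∧
  ∀ x b y, f' x = ((b, y) : Fin k × E n) → ‖y‖ < 1 → ∃ (u : E n → E n) (U : Set (E n)),
    IsOpen U ∧ x ∈ U ∧ ContDiff ℝ 1 u ∧ ∀ x' ∈ U, f' x' = ((b, u x') : Fin k × E n)

/-- REG: a regular value (uses the theorem of Sard) -/
def StREG : Prop := ∀ (k n : ℕ) (f : E n → W k n), CS ∞ f →
  (∀ x b y, f x = ((b, y) : Fin k × E n) → ‖y‖ < 1 → ∃ (u : E n → E n) (U : Set (E n)),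
    IsOpen U ∧ x ∈ U ∧ ContDiff ℝ 1 u ∧ ∀ x' ∈ U, f x' = ((b, u x') : Fin k × E n)) →
  ∃ y₀ : E n, ‖y₀‖ < 1 ∧ (∀ x b, f x = ((b, y₀) : Fin k × E n) → ∃ (u : E n → E n)
    (U : Set (E n)), IsOpen U ∧ x ∈ U ∧ (∀ x' ∈ U, f x' = ((b, u x') : Fin k × E n)) ∧
    ∃ L : E n ≃L[ℝ] E n, HasFDerivAt u (L : E n →L[ℝ] E n) x)

/-- LINZ: linearization near the finitely many preimages of a regular value -/
def StLINZ : Prop := ∀ (k n : ℕ) (f : E n → W k n) (y₀ : E n), CS ∞ f →
  (∀ x b, f x = ((b, y₀) : Fin k × E n) → ∃ (u : E n → E n)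
    (U : Set (E n)), IsOpen U ∧ x ∈ U ∧ (∀ x' ∈ U, f x' = ((b, u x') : Fin k × E n)) ∧
    ∃ L : E n ≃L[ℝ] E n, HasFDerivAt u (L : E n →L[ℝ] E n) x) →
  ∃ (f' : E n → W k n) (ε : ℝ) (r : ℕ) (a : Fin r → Fin k) (c : Fin r → E n)
    (L : Fin r → (E n ≃L[ℝ] E n)), Ho ∞ f f' ∧ 0 < ε ∧
    (∀ i j, i ≠ j → ∀ x, ‖L i (x - c i)‖ < ε → ε ≤ ‖L j (x - c j)‖) ∧
    (∀ i x, ‖L i (x - c i)‖ < ε → f' x = ((a i, y₀ + L i (x - c i)) : Fin k × E n)) ∧
    ∀ x b y, f' x = ((b, y) : Fin k × E n) → ‖y - y₀‖ < ε → ∃ i, ‖L i (x - c i)‖ < ε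

/-- EXPD: expansion (uses LINZ only through its conclusion) -/
def StEXPD : Prop := ∀ (k n : ℕ) (f : E n → W k n) (y₀ : E n) (ε : ℝ) (r : ℕ)
  (a : Fin r → Fin k) (c : Fin r → E n) (L : Fin r → (E n ≃L[ℝ] E n)), CS ∞ f → 0 < ε →
  (∀ i j, i ≠ j → ∀ x, ‖L i (x - c i)‖ < ε → ε ≤ ‖L j (x - c j)‖) →
  (∀ i x, ‖L i (x - c i)‖ < ε → f x = ((a i, y₀ + L i (x - c i)) : Fin k × E n)) →
  (∀ x b y, f x = ((b, y) : Fin k × E n) → ‖y - y₀‖ < ε → ∃ i, ‖L i (x - c i)‖ < ε) →
  ∃ (P : Pcs k n r) (g : E n → W k n), P.Un g ∧ Ho ∞ f g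

/-- the subgroup generated by the inclusions of the spheres -/
noncomputable def Gio (k n : ℕ) : Subgroup (HomotopyGroup (Fin (n + 1)) (W k (n + 1)) ∞) :=
  Subgroup.closure (Set.range fun a : Fin k => cl ∞ (io a))

/-- PSP: a disjoint union of pieces is a product of pieces (uses CL3, HGLUE) -/
def StPSP : Prop := ∀ (k n r : ℕ) (P : Pcs k (n + 1) r) (g : E (n + 1) → W k (n + 1)), P.Un g →
  cl ∞ g ∈ Subgroup.closure {α : HomotopyGroup (Fin (n + 1)) (W k (n + 1)) ∞ |
    ∃ (a : Fin k) (c : E (n + 1)) (L : E (n + 1) ≃L[ℝ] E (n + 1)),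
      α = cl ∞ (pc a c (L : E (n + 1) →L[ℝ] E (n + 1)))}

/-- GLP: paths in the general linear group -/
def StGLP : Prop := ∀ (n : ℕ) (L : E (n + 1) ≃L[ℝ] E (n + 1)), ∃ (Λ : ℝ → (E (n + 1) →L[ℝ] E (n + 1)))
  (δ : ℝ), Continuous Λ ∧ 0 < δ ∧ (∀ t x, δ * ‖x‖ ≤ ‖Λ t x‖) ∧
  Λ 0 = (L : E (n + 1) →L[ℝ] E (n + 1)) ∧ ((∀ x, Λ 1 x = x) ∨ ∀ x, Λ 1 x = mir 0 x)

/-- PIO: the class of a piece (uses CL1, CL4, GLP) -/
def StPIO : Prop := ∀ (k n : ℕ) (a : Fin k) (c : E (n + 1)) (L : E (n + 1) ≃L[ℝ] E (n + 1)),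
  cl ∞ (pc a c (L : E (n + 1) →L[ℝ] E (n + 1))) ∈ Gio k n

/-- PT: the homotopy group is generated by the inclusions of the spheres (uses SMO, REG, LINZ,
EXPD, PSP, PIO, CL1, HO) -/
def StPT : Prop := ∀ (k n : ℕ) (f : E (n + 1) → W k (n + 1)), CS ∞ f → cl ∞ f ∈ Gio k n

/-- U2G: additive homotopy invariants are determined by the degrees (uses PT, CL1, CL2, CL3, DEG,
DADD, DIO, GLUE) -/
def StU2G : Prop := ∀ (k n : ℕ) (M : Type) [AddCommGroup M] (δ : (E (n + 1) → W k (n + 1)) → M),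
  (∀ f g, Ho ∞ f g → δ f = δ g) →
  (∀ f f₁ f₂ : E (n + 1) → W k (n + 1), CS ∞ f → (∀ x, x 0 = 0 → f x = ∞) →
    (∀ x, x 0 ≤ 0 → f₁ x = f x ∧ f₂ x = ∞) → (∀ x, 0 ≤ x 0 → f₂ x = f x ∧ f₁ x = ∞) →
    δ f = δ f₁ + δ f₂) → ∀ f, CS ∞ f → δ f = ∑ a : Fin k, deg a f • δ (io a)

/-- U2: the degree of a composition (uses U2G, DEG, DADD, HO) -/
def StU2 : Prop := ∀ (k l n : ℕ) (b : Fin l) (Φ : W k (n + 1) → W l (n + 1)), Continuous Φ →
  Φ ∞ = ∞ → ∀ f, CS ∞ f → deg b (fun x => Φ (f x)) =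
    ∑ a : Fin k, deg a f * deg b (fun x => Φ (io a x))

/-- U1: maps of degree zero are null homotopic in dimension at least two (uses PT, CL1, CL2, CL5,
DEG, DADD, DIO) -/
def StU1 : Prop := ∀ (k n : ℕ) (f : E (n + 2) → W k (n + 2)), CS ∞ f → (∀ a, deg a f = 0) →
  Ho ∞ f (fun _ => ∞)

/-- HOMD: the degree is a homomorphism (uses CL1, CL2, CL3, DEG, DADD) -/
def StHOMD : Prop := ∀ (k n : ℕ) (a : Fin k),
  ∃ Δ : HomotopyGroup (Fin (n + 1)) (W k (n + 1)) ∞ →* Multiplicative ℤ,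
    ∀ f, CS ∞ f → Δ (cl ∞ f) = Multiplicative.ofAdd (deg a f)

/-- RLZ: maps with given degrees (uses HOMD, DIO, CL2) -/
def StRLZ : Prop := ∀ (k n : ℕ) (z : Fin k → ℤ), ∃ f : E (n + 1) → W k (n + 1), Lo ∞ f ∧
  ∀ a, deg a f = z a

/-! ### T5. Suspension -/

/-- COMB: continuity of the suspension coordinates (uses OPC) -/
def StCOMB : Prop := ∀ (Z : Type) [TopologicalSpace Z] (k n : ℕ) (w : Z → W k n) (τ : Z → ℝ),
  Continuous τ → ContinuousOn w {z | |τ z| < 1} → Continuous (fun z => comb (w z) (τ z))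

/-- SUSC: suspensions of maps and homotopies (uses COMB, HO) -/
def StSUSC : Prop := ∀ (k n : ℕ),
  (∀ g : E (n + 1) → W k n, ContinuousOn g (sphere 0 1) → Lo ∞ (Sus g)) ∧
  ∀ g : ℝ × E (n + 1) → W k n, ContinuousOn g (Icc 0 1 ×ˢ sphere 0 1) →
    Ho ∞ (Sus fun x => g (0, x)) (Sus fun x => g (1, x))

/-- SUS0: the suspension of a map which extends to the ball (uses COMB, HO) -/
def StSUS0 : Prop := ∀ (k n : ℕ) (g : E (n + 1) → W k n), ContinuousOn g (closedBall 0 1) →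
  Ho ∞ (Sus g) (fun _ => ∞)

/-- FACC: the suspension of a map of a face (uses COMB, HO, SUSC) -/
def StFACC : Prop := ∀ (k n : ℕ) (f : E n → W k n), Lo ∞ f →
  ContinuousOn (fac ∞ f) (sphere 0 1) ∧
  Ho ∞ (Sus (fac ∞ f)) (fun x => comb (f (fun i => x i.succ)) (2 * x 0 - 1))

/-- SUSP: the degree of the suspension (uses U2G, FACC, DADD, DEG, DNRM, DPR, DIO, COMB, HO) -/
def StSUSP : Prop := ∀ (k n : ℕ) (a : Fin k) (f : E (n + 1) → W k (n + 1)), Lo ∞ f →
  deg a (Sus (fac ∞ f)) = deg a f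

/-- SPH: every map of the sphere is homotopic to a map which is constant on all faces but one -/
def StSPH : Prop := ∀ (n : ℕ) (Z : Type) [TopologicalSpace Z] (g : E (n + 1) → Z),
  ContinuousOn g (sphere 0 1) → ∃ (z : Z) (F : E n → Z) (H : ℝ × E (n + 1) → Z), Lo z F ∧
    z ∈ g '' sphere 0 1 ∧ (∀ x, F x ∈ g '' sphere 0 1) ∧
    ContinuousOn H (Icc 0 1 ×ˢ sphere 0 1) ∧ (∀ x ∈ sphere (0 : E (n + 1)) 1, H (0, x) = g x) ∧
    (∀ x ∈ sphere (0 : E (n + 1)) 1, H (1, x) = fac z F x) ∧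
    ∀ t ∈ Icc (0 : ℝ) 1, ∀ x ∈ sphere (0 : E (n + 1)) 1, H (t, x) ∈ g '' sphere 0 1

end Pool.Agent.Work.MP_e9e200_al.O3

end

section

set_option autoImplicit false

namespace Pool.Agent.Work.MP_e9e200_al

theorem I_Unsh : StUnshift := by
  intro R _ M _ _ j
  constructor
  · rintro ⟨P, d, ε, hproj, hfin, hsurj, hex0, hex⟩
    haveI := hfin 0 (Nat.zero_le _)
    exact Module.Finite.of_surjective ε hsurj
  · rintro ⟨P, d, ε, hproj, hfin, hsurj, hex0, hex⟩
    refine ⟨P 0, ε, hproj 0, hfin 0 (Nat.zero_le _), hsurj, ?_⟩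
    have hmem : ∀ x : P 1, d 0 x ∈ LinearMap.ker ε := fun x =>
      LinearMap.mem_ker.2 ((hex0 (d 0 x)).2 ⟨x, rfl⟩)
    refine ⟨fun i => P (i + 1), fun i => d (i + 1), (d 0).codRestrict (LinearMap.ker ε) hmem,
      fun i => hproj (i + 1), fun i hi => hfin (i + 1) (by omega), ?_, ?_,
      fun i => hex (i + 1)⟩
    · rintro ⟨y, hy⟩
      obtain ⟨x, hx⟩ := (hex0 y).1 (LinearMap.mem_ker.1 hy)
      exact ⟨x, Subtype.ext hx⟩
    · intro x
      constructor
      · intro hx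
        exact (hex 0 x).1 (congrArg Subtype.val hx)
      · intro hx
        exact Subtype.ext ((hex 0 x).2 hx)

theorem I_Mono : StMono := by
  intro R _ M _ _ m n hnm h
  obtain ⟨P, d, ε, hproj, hfin, hsurj, hex0, hex⟩ := h
  exact ⟨P, d, ε, hproj, fun i hi => hfin i (hi.trans hnm), hsurj, hex0, hex⟩

end Pool.Agent.Work.MP_e9e200_al

end
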