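import Mathlib
import Pool.Agent.Work.MP_e9e200_al.Stmts

/-! Bundle of small proof modules (one section per former module). -/

section

/-!
# The invariant `Σ^2` of metabelian groups: definitions

Project HS (homotopical half of Bieri's conjecture).  `G` is a group with a homomorphism `pr` onto
an abelian group `Q` with abelian kernel; `Q` is mapped to a Euclidean space.  A local system is a
function `c : Q → G → H` with values in a group `H`; `c q x` is the holonomy of the edge from `q`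
to `q * pr x` with the label `x`.
-/

set_option autoImplicit false

namespace Pool.Agent.Work.MP_e9e200_al.HS

/-- Euclidean space -/
abbrev Eu (n : ℕ) := EuclideanSpace ℝ (Fin n)

/-- a group `G` with a homomorphism `pr` to the abelian group `Q` with abelian kernel, a section
`sec`, a homomorphism `pos` to a Euclidean space with finite balls and coarsely dense image (`rd`
is rounding, with error at most `a`), and a vector `nu` which represents a character -/
structure Loc (G Q : Type) [Group G] [CommGroup Q] (n : ℕ) where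
  pr : G →* Q
  sec : Q → G
  pos : Q → Eu n
  rd : Eu n → Q
  a : ℝ
  nu : Eu n
  pr_sec : ∀ q, pr (sec q) = q
  sec_one : sec 1 = 1
  comm : ∀ x y, pr x = 1 → pr y = 1 → x * y = y * x
  pos_mul : ∀ p q, pos (p * q) = pos p + pos q
  a_pos : 0 < a
  rd_spec : ∀ x, ‖pos (rd x) - x‖ ≤ a
  fin : ∀ R : ℝ, {q | ‖pos q‖ ≤ R}.Finite

namespace Loc

variable {G Q : Type} [Group G] [CommGroup Q] {n : ℕ} (S : Loc G Q n)

/-- the character -/
noncomputable def v (q : Q) : ℝ := inner ℝ S.nu (S.pos q)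

/-- the direction of the character (zero if the character is zero) -/
noncomputable def nuh : Eu n := ‖S.nu‖⁻¹ • S.nu

/-- rounding upwards -/
noncomputable def up (x : Eu n) : Q := S.rd (x + S.a • S.nuh)

/-- the half space -/
def half : Set Q := {q | 0 ≤ S.v q}

/-- the intersection of a ball with the half space -/
def ball (c : Q) (R : ℝ) : Set Q := {q | 0 ≤ S.v q ∧ ‖S.pos q - S.pos c‖ ≤ R}

/-- the points of the straight path with `J` steps from `b` to `p` -/
noncomputable def st (b p : Q) (J j : ℕ) : Q :=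
  if j = 0 then b else if J ≤ j then p
  else S.up (S.pos b + ((j : ℝ) / (J : ℝ)) • (S.pos p - S.pos b))

/-- the letters of length at most `l` -/
def Lt (l : ℝ) : Set G := {x | ∃ q, ‖S.pos q‖ ≤ l ∧ (x = S.sec q ∨ x = (S.sec q)⁻¹)}

/-- the alphabet of the paths -/
def B (T : Set G) : Set G := S.Lt (12 * S.a) ∪ T

/-- the subgroup generated by the conjugates of `T` by the sections of all `f` with `P f` -/
def cl (T : Set G) (P : Q → Prop) : Subgroup G :=
  Subgroup.closure {g | ∃ f, P f ∧ ∃ t ∈ T, g = S.sec f * t * (S.sec f)⁻¹}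

/-- the elements of `T` can be moved in the direction `w` -/
def Mov (T : Set G) (w : Eu n) : Prop := ∃ D δ : ℝ, 0 < δ ∧
  ∀ t ∈ T, t ∈ S.cl T (fun f => ‖S.pos f‖ ≤ D ∧ δ ≤ inner ℝ (S.pos f) w)

/-- `T` is a finite symmetric subset of the kernel which contains all products of four letters in
the kernel and generates the kernel as a normal subgroup -/
structure TOK (T : Set G) : Prop where
  fin : T.Finite
  ker : ∀ t ∈ T, S.pr t = 1
  inv : ∀ t ∈ T, t⁻¹ ∈ T
  four : ∀ x ∈ S.Lt (16 * S.a), ∀ y ∈ S.Lt (16 * S.a), ∀ z ∈ S.Lt (16 * S.a),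
    ∀ w ∈ S.Lt (16 * S.a), S.pr (x * y * z * w) = 1 → x * y * z * w ∈ T
  gen : ∀ g, S.pr g = 1 → g ∈ S.cl T (fun _ => True)

/-- the direction `z` is bad: a vector near the cone of `-z` and `nu` is not movable -/
def Bad (T : Set G) (ρ : ℝ) (z : Eu n) : Prop := ∃ γ : Eu n, ‖γ‖ = 1 ∧ ¬ S.Mov T γ ∧
  ∃ α β : ℝ, 0 ≤ α ∧ 0 ≤ β ∧ ‖γ - (β • S.nuh - α • z)‖ ≤ ρ

/-- there is no relation `a₁ w₁ + a₂ w₂ = b nu` between two unit vectors which are not movable -/
def NoRel (T : Set G) : Prop := ∀ w₁ w₂ : Eu n, ‖w₁‖ = 1 → ‖w₂‖ = 1 → ¬ S.Mov T w₁ →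
  ¬ S.Mov T w₂ → ∀ a₁ a₂ b : ℝ, 0 ≤ a₁ → 0 ≤ a₂ → 0 ≤ b → 0 < a₁ + a₂ →
    a₁ • w₁ + a₂ • w₂ ≠ b • S.nu

/-- the local system `c` is flat on the triangles with labels in `X` in the half space -/
def Flat {H : Type} [Group H] (X : Set G) (c : Q → G → H) : Prop :=
  ∀ q x y, x ∈ X → y ∈ X → x * y ∈ X → 0 ≤ S.v q → 0 ≤ S.v (q * S.pr x) →
    0 ≤ S.v (q * S.pr x * S.pr y) → c q (x * y) = c q x * c (q * S.pr x) y

/-- `Pth S c B K p q h`: there is a path from `p` to `q` with labels in `B` and all vertices in `K`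
and the holonomy `h` -/
inductive Pth {H : Type} [Group H] (c : Q → G → H) (B : Set G) (K : Set Q) : Q → Q → H → Prop
  | nil (q : Q) : q ∈ K → Pth c B K q q 1
  | snoc {p q : Q} {h : H} (x : G) : Pth c B K p q h → x ∈ B → q * S.pr x ∈ K →
      Pth c B K p (q * S.pr x) (h * c q x)

/-- the holonomies of closed paths in `K` commute -/
def CommOn {H : Type} [Group H] (c : Q → G → H) (B : Set G) (K : Set Q) : Prop :=
  ∀ b h h', S.Pth c B K b b h → S.Pth c B K b b h' → h * h' = h' * h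

/-- the holonomies of closed paths in balls of radius `R` commute -/
def Comm {H : Type} [Group H] (c : Q → G → H) (T : Set G) (R : ℝ) : Prop :=
  ∀ b, 0 ≤ S.v b → S.CommOn c (S.B T) (S.ball b R)

/-- the holonomy of the first `j` steps of the straight path from `b` to `p` -/
noncomputable def hs {H : Type} [Group H] (c : Q → G → H) (b p : Q) (J : ℕ) : ℕ → H
  | 0 => 1
  | j + 1 => hs c b p J j * c (S.st b p J j) (S.sec ((S.st b p J j)⁻¹ * S.st b p J (j + 1)))

/-- the loop which goes straight from `b` to `p`, then through `t`, and straight back -/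
noncomputable def tau {H : Type} [Group H] (c : Q → G → H) (b : Q) (J : ℕ) (p : Q) (t : G) : H :=
  S.hs c b p J J * c p t * (S.hs c b p J J)⁻¹

/-- the holonomy of a word -/
def hol {H : Type} [Group H] (c : Q → G → H) : Q → List G → H
  | _, [] => 1
  | q, x :: w => c q x * hol c (q * S.pr x) w

end Loc

/-! ### Words in the half space of the group -/

/-- the word `w` over `X` is a path which starts at `g` and stays in the half space `χ ≥ 0` -/
def Ok {G : Type} [Group G] (χ : Additive G →+ ℝ) (X : Set G) : G → List G → Prop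
  | g, [] => 0 ≤ χ (Additive.ofMul g)
  | g, x :: w => 0 ≤ χ (Additive.ofMul g) ∧ x ∈ X ∧ Ok χ X (g * x) w

/-- homotopy of edge paths in the complex with the vertices `χ ≥ 0`, the edges `g, g x` and the
triangles `g, g x, g x y` (`x`, `y` and `x y` in `X`) -/
inductive Hpy {G : Type} [Group G] (χ : Additive G →+ ℝ) (X : Set G) :
    G → List G → List G → Prop
  | refl (g : G) (w : List G) : Hpy χ X g w w
  | symm {g : G} {w w' : List G} : Hpy χ X g w w' → Hpy χ X g w' w
  | trans {g : G} {w w' w'' : List G} : Hpy χ X g w w' → Hpy χ X g w' w'' → Hpy χ X g w w''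
  | cons {g : G} (x : G) {w w' : List G} : Hpy χ X (g * x) w w' → Hpy χ X g (x :: w) (x :: w')
  | one (g : G) (w : List G) : 1 ∈ X → Hpy χ X g (1 :: w) w
  | tri (g x y : G) (w : List G) : x ∈ X → y ∈ X → x * y ∈ X → 0 ≤ χ (Additive.ofMul g) →
      0 ≤ χ (Additive.ofMul (g * x)) → 0 ≤ χ (Additive.ofMul (g * x * y)) →
      Hpy χ X g (x :: y :: w) ((x * y) :: w)

/-- the half space `χ ≥ 0` of the Cayley graph is connected -/
def Con {G : Type} [Group G] (χ : Additive G →+ ℝ) (X : Set G) : Prop :=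
  ∀ g h : G, 0 ≤ χ (Additive.ofMul g) → 0 ≤ χ (Additive.ofMul h) →
    ∃ w, Ok χ X g w ∧ g * w.prod = h

/-- every closed edge path in the half space is null homotopic -/
def Sic {G : Type} [Group G] (χ : Additive G →+ ℝ) (X : Set G) : Prop :=
  ∀ (g : G) (w : List G), Ok χ X g w → w.prod = 1 → Hpy χ X g w []

end Pool.Agent.Work.MP_e9e200_al.HS

end

section

/-!
# Project O3A: an explicit model of the free `G`-CW-complex with given attaching maps

The set of points is fixed: `(n, (g, b), y)` with a base cell `b : B n` of dimension `n`, `g : G`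
and a point `y` of the open unit ball of `ℝ^n` (maximum norm).  The attaching maps `ψ n b` of the
base cells are maps from the unit sphere of `ℝ^n` to the set of points of dimension `< n`.
-/

set_option autoImplicit false

namespace Pool.Agent.Work.MP_e9e200_al.O3A

open Set Metric Topology

noncomputable section

/-- the space `ℝ^n` with the maximum norm -/
abbrev E (n : ℕ) : Type := Fin n → ℝ

/-- the points of the complex -/
def Pt (G : Type) (B : ℕ → Type) : Type := Σ n : ℕ, (G × B n) × ball (0 : E n) 1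

namespace Pt

variable {G : Type} {B : ℕ → Type}

/-- the dimension of the open cell which contains the point -/
def dim (p : Pt G B) : ℕ := p.1

/-- the group element of the open cell which contains the point -/
def gr (p : Pt G B) : G := p.2.1.1

end Pt

/-- the point `y` of the open ball in the cell `c` -/
def mk {G : Type} {B : ℕ → Type} (n : ℕ) (c : G × B n) (y : E n) (h : y ∈ ball (0 : E n) 1) :
    Pt G B := ⟨n, c, ⟨y, h⟩⟩

/-- the centre of the cell `c` -/
def ctr {G : Type} {B : ℕ → Type} (n : ℕ) (c : G × B n) : Pt G B :=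
  mk n c 0 (by simp)

instance {G : Type} [Group G] {B : ℕ → Type} : MulAction G (Pt G B) where
  smul g p := ⟨p.1, (g * p.2.1.1, p.2.1.2), p.2.2⟩
  one_smul p := by
    show (⟨p.1, (1 * p.2.1.1, p.2.1.2), p.2.2⟩ : Σ n : ℕ, (G × B n) × ball (0 : E n) 1) = p
    rw [one_mul]
    rfl
  mul_smul g h p := by
    show (⟨p.1, (g * h * p.2.1.1, p.2.1.2), p.2.2⟩ : Σ n : ℕ, (G × B n) × ball (0 : E n) 1) =
      ⟨p.1, (g * (h * p.2.1.1), p.2.1.2), p.2.2⟩
    rw [mul_assoc]

/-- the attaching maps of the base cells -/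
abbrev Atl (G : Type) (B : ℕ → Type) : Type := ∀ n, B n → E n → Pt G B

variable {G : Type} [Group G] {B : ℕ → Type}

open scoped Classical in
/-- the characteristic map of the cell `c` -/
def Ph (ψ : Atl G B) (n : ℕ) (c : G × B n) (y : E n) : Pt G B :=
  if h : y ∈ ball (0 : E n) 1 then mk n c y h else c.1 • ψ n c.2 y

/-- the set of points with the topology given by the cells of dimension `< N` -/
def Sp (_ψ : Atl G B) (_N : ℕ∞) : Type := Pt G B

instance (ψ : Atl G B) (N : ℕ∞) : MulAction G (Sp ψ N) :=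
  inferInstanceAs (MulAction G (Pt G B))

/-- a point of the set `Pt G B` as a point of the space `Sp ψ N` -/
def pt (ψ : Atl G B) (N : ℕ∞) (p : Pt G B) : Sp ψ N := p

/-- a subset of `Pt G B` as a subset of the space `Sp ψ N` -/
def st (ψ : Atl G B) (N : ℕ∞) (A : Set (Pt G B)) : Set (Sp ψ N) := A

instance (ψ : Atl G B) (N : ℕ∞) : TopologicalSpace (Sp ψ N) :=
  ⨆ (n : ℕ) (_ : (n : ℕ∞) < N) (c : G × B n),
    TopologicalSpace.coinduced
      (fun y : closedBall (0 : E n) 1 => pt ψ N (Ph ψ n c y)) inferInstance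

/-- the points of dimension less than `N` -/
def Lt (N : ℕ∞) : Set (Pt G B) := {p | (p.dim : ℕ∞) < N}

/-- the open cell `c` -/
def oc (n : ℕ) (c : G × B n) : Set (Pt G B) := {p | ∃ y, ∃ h : y ∈ ball (0 : E n) 1, p = mk n c y h}

/-- the attaching maps of the cells of dimension less than `N` are continuous maps to the skeleta of
smaller dimension -/
def Gd (ψ : Atl G B) (N : ℕ∞) : Prop := ∀ n : ℕ, (n : ℕ∞) < N → ∀ b : B n,
  (∀ y ∈ sphere (0 : E n) 1, (ψ n b y).dim < n) ∧
  ContinuousOn (fun y => pt ψ n (ψ n b y)) (sphere 0 1)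

/-- the half space: the cells `(g, b)` with `χ g ≥ 0` -/
def Pp (χ : Additive G →+ ℝ) : Set (Pt G B) := {p | 0 ≤ χ (Additive.ofMul p.gr)}

end

end Pool.Agent.Work.MP_e9e200_al.O3A

end

section

/-!
# Sigma invariants of metabelian groups: the mixed theorem, statements of the items

All but one of the characters belong to a field `k`, the last one is arbitrary.
-/

set_option autoImplicit false

namespace Pool.Agent.Work.MP_e9e200_al

/-- 11: lifting a cocycle to the twisted module, vector valued form -/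
def StTwist2 : Prop := ∀ {G : Type} [Group G] (S : Submonoid G) {k : Type} [Field k] {M : Type}
  [AddCommGroup M] [Module k M] (P : Type) [AddCommGroup P] [Module (MonoidAlgebra ℤ S) P],
  Module.Projective (MonoidAlgebra ℤ S) P →
  ∀ (v : P →+ (G → k)) (δ : S → G → M) (J : AddSubgroup (G → M)),
  (∀ (s : S) (p : P) (x : G), v (MonoidAlgebra.of ℤ S s • p) x = v p (x * s)) →
  (∀ (s t : S) (x : G), δ (s * t) x = δ s x + δ t (x * s)) →
  (∀ (s : S) (p : P), (fun x : G => v p (x * s) • δ s x) ∈ J) →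
  ∃ u : P →+ (G → M), (∀ (s : S) (p : P) (x : G),
    u (MonoidAlgebra.of ℤ S s • p) x = u p (x * s) + v p (x * s) • δ s x) ∧ ∀ p, u p ∈ J

/-- 12: from a homomorphism to a coarsely constant function, general target -/
def StYg : Prop := ∀ (G : Type) [Group G] [Group.FG G], Metab G → ∀ (χ : Additive G →+ ℝ), χ ≠ 0 →
  ∃ V : Finset G, (∀ v ∈ V, v ∈ commutator G) ∧ ∀ (M : Type) [AddCommGroup M] (y : G → M),
    (∀ a ∈ commutator G, ∀ b ∈ commutator G, y (a * b) = y a + y b) →
    (∀ g, 0 ≤ χ (Additive.ofMul g) → ∀ v ∈ V, y (g * v * g⁻¹) = 0) →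
    ∃ Y : G → M, (∀ a ∈ commutator G, ∀ x, Y (a * x) = y a + Y x) ∧
      ∀ g, ∃ C : ℝ, ∀ x, C ≤ χ (Additive.ofMul x) → Y (x * g) = Y x

/-- 13: characters which are not positive multiples of each other -/
def StSep : Prop := ∀ (G : Type) [Group G] (χ ψ : Additive G →+ ℝ), χ ≠ 0 →
  (∃ c : ℝ, 0 < c ∧ χ = c • ψ) ∨
    ∃ h : G, 0 < χ (Additive.ofMul h) ∧ ψ (Additive.ofMul h) ≤ 0

/-- 14: a functional which kills a half space and a finite set but not the subgroup `B` -/
def StCh : Prop := ∀ (G : Type) [Group G] (k : Type) [Field k] (ψ : Additive G →+ ℝ) (h : G)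
  (B : Set G), ψ (Additive.ofMul h) ≤ 0 → (∀ b ∈ B, b ∈ commutator G) →
  (∀ a ∈ commutator G, ∃ N0 : ℕ, ∀ N : ℕ, N0 ≤ N → h ^ N * a * (h ^ N)⁻¹ ∈ B) →
  ¬ KFG G k ψ → ∀ V W : Finset G, (∀ v ∈ V, v ∈ commutator G) → (∀ w ∈ W, w ∈ commutator G) →
  ∃ y : G → k, (∀ a ∈ commutator G, ∀ b ∈ commutator G, y (a * b) = y a + y b) ∧
    (∀ g, 0 ≤ ψ (Additive.ofMul g) → ∀ v ∈ V, y (g * v * g⁻¹) = 0) ∧
    (∀ w ∈ W, y w = 0) ∧ ∃ b ∈ B, y b ≠ 0

/-- 15: the quotient of the derived group -/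
def StQuot : Prop := ∀ (G : Type) [Group G] [Group.FG G], Metab G → ∀ χ ∈ SigC G 1,
  ∀ V0 : Finset G, (∀ v ∈ V0, v ∈ commutator G) →
  ∃ (M : Type) (_ : AddCommGroup M) (y : G → M),
    (∀ a ∈ commutator G, ∀ b ∈ commutator G, y (a * b) = y a + y b) ∧
    (∀ g, 0 ≤ χ (Additive.ofMul g) → ∀ v ∈ V0, y (g * v * g⁻¹) = 0) ∧
    (y '' (commutator G : Set G)).Infinite ∧
    ∀ h : G, 0 < χ (Additive.ofMul h) → ∀ a ∈ commutator G,
      ∃ N0 : ℕ, ∀ N : ℕ, N0 ≤ N → y (h ^ N * a * (h ^ N)⁻¹) = 0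

/-- 16: convex combinations with an exceptional element -/
def StConv2 : Prop := ∀ (E : Type) [AddCommGroup E] [Module ℝ E] [DecidableEq E] (s : Finset E)
  (v w0 : E), v ∈ convexHull ℝ (s : Set E) →
  ∃ n : ℕ, n ≤ (s.erase w0).card ∧ ∃ (w : ℕ → E) (c : ℕ → ℝ) (c0 : ℝ), 0 ≤ c0 ∧
    (c0 ≠ 0 → w0 ∈ s) ∧ (∀ i < n, w i ∈ s ∧ w i ≠ w0 ∧ 0 < c i) ∧
    v = ∑ i ∈ Finset.range n, c i • w i + c0 • w0

/-- 17: the main lemma of the mixed theorem -/
def StCore2 : Prop := ∀ {G : Type} [Group G] (A : Subgroup G) [A.Normal],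
  (∀ a ∈ A, ∀ b ∈ A, a * b = b * a) → ∀ (S : Submonoid G), (∀ a ∈ A, a ∈ S) →
  ∀ {k : Type} [Field k] {M : Type} [AddCommGroup M] (m : ℕ) (χ : ℕ → G → ℝ) (y Y : ℕ → G → k)
    (ym Ym : G → M) (b : ℕ → G),
  (∀ i ≤ m, ∀ x g, χ i (x * g) = χ i x + χ i g) →
  (∀ s ∈ S, 0 ≤ ∑ i ∈ Finset.range (m + 1), χ i s) →
  (∀ C : ℝ, ∃ x, C ≤ ∑ i ∈ Finset.range (m + 1), χ i x) →
  (∀ i < m, ∀ a ∈ A, ∀ x, Y i (a * x) = y i a + Y i x) →
  (∀ i < m, ∀ g, ∃ C : ℝ, ∀ x, C ≤ χ i x → Y i (x * g) = Y i x) →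
  (∀ a ∈ A, ∀ x, Ym (a * x) = ym a + Ym x) →
  (∀ g, ∃ C : ℝ, ∀ x, C ≤ χ m x → Ym (x * g) = Ym x) → (ym '' (A : Set G)).Infinite →
  (∀ i < m, b i ∈ A) → (∀ i < m, ym (b i) = 0) →
  (∀ i < m, ∀ j < i, y i (b j) = 0) → (∀ i < m, y i (b i) ≠ 0) →
    ¬ IsFP (MonoidAlgebra ℤ S) (Triv S) (m + 1)

/-- sums of characters which belong to `k` -/
def StSumK : Prop := ∀ (G : Type) [Group G] [Group.FG G], Metab G → ∀ (k : Type) [Field k] (n : ℕ)
  (X : ℕ → (Additive G →+ ℝ)) (v : Additive G →+ ℝ), 1 ≤ n → v ≠ 0 →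
  (∀ i < n, X i ≠ 0 ∧ ¬ KFG G k (X i)) → v = ∑ i ∈ Finset.range n, X i →
    ¬ IsFP (MonoidAlgebra ℤ (Gmon v)) (Triv (Gmon v)) n

/-- sums of characters which belong to `k` and one arbitrary character of `Σ^1(G, ℤ)^c` -/
def StSumMix : Prop := ∀ (G : Type) [Group G] [Group.FG G], Metab G → ∀ (k : Type) [Field k]
  (n : ℕ) (X : ℕ → (Additive G →+ ℝ)) (v : Additive G →+ ℝ), v ≠ 0 →
  (∀ i < n, X i ≠ 0 ∧ ¬ KFG G k (X i)) → X n ∈ SigC G 1 →
  v = ∑ i ∈ Finset.range (n + 1), X i →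
    ¬ IsFP (MonoidAlgebra ℤ (Gmon v)) (Triv (Gmon v)) (n + 1)

/-- the nonzero vectors in the convex hull of an `m`-element subset `s` of `Hom(G, ℝ)` such that
all elements of `s`, with at most one exception, lie in the cone of `T`, and the exceptional
element (if any) lies in the cone of `U` -/
def ConvMix (G : Type) [Group G] (m : ℕ) (T U : Set (Additive G →+ ℝ)) :
    Set (Additive G →+ ℝ) :=
  {v | v ≠ 0 ∧ ∃ (s : Finset (Additive G →+ ℝ)) (w0 : Additive G →+ ℝ), s.card = m ∧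
    (∀ w ∈ s, (∃ χ ∈ T, ∃ c : ℝ, 0 < c ∧ w = c • χ) ∨
      (w = w0 ∧ ∃ χ ∈ U, ∃ c : ℝ, 0 < c ∧ w = c • χ)) ∧
    v ∈ convexHull ℝ (s : Set (Additive G →+ ℝ))}

/-- the mixed theorem -/
def StMix : Prop := ∀ (m : ℕ) (G : Type) [Group G] [Group.FG G], 1 ≤ m → Metab G →
  GroupFP G m → ∀ (k : Type) [Field k],
    ConvMix G m {χ | χ ≠ 0 ∧ ¬ KFG G k χ} (SigC G 1) ⊆ SigC G m

end Pool.Agent.Work.MP_e9e200_al

end
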