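import Pool.Agent.Work.MP_e9e200_al.Stmts
import Pool.Agent.Work.MP_e9e200_al.Bd.B01
import Pool.Agent.Work.MP_e9e200_al.O3.Lit

/-! Bundle of small proof modules (one section per former module). -/

section

/-!
# Sigma invariants of metabelian groups: type `FP_1` from a presentation
-/

set_option autoImplicit false

namespace Pool.Agent.Work.MP_e9e200_al

namespace Build

/-- a resolution with `P i` finitely generated for `i < n` -/
def Res (R : Type) [Ring R] (M : Type) [AddCommGroup M] [Module R M] (n : ℕ) : Prop :=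
  ∃ (P : ℕ → ModuleCat.{0} R) (d : ∀ i, P (i + 1) →ₗ[R] P i) (ε : P 0 →ₗ[R] M),
    (∀ i, Module.Projective R (P i)) ∧ (∀ i, i < n → Module.Finite R (P i)) ∧
    Function.Surjective ε ∧ Function.Exact (d 0) ε ∧ ∀ i, Function.Exact (d (i + 1)) (d i)

theorem exact_ker {R : Type} [Ring R] {A B C : Type} [AddCommGroup A] [AddCommGroup B]
    [AddCommGroup C] [Module R A] [Module R B] [Module R C] (f : B →ₗ[R] C)
    (p : A →ₗ[R] LinearMap.ker f) (hp : Function.Surjective p) :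
    Function.Exact ((LinearMap.ker f).subtype ∘ₗ p) f := by
  intro y
  constructor
  · intro hy
    obtain ⟨x, hx⟩ := hp ⟨y, hy⟩
    refine ⟨x, ?_⟩
    rw [LinearMap.comp_apply, hx]
    rfl
  · rintro ⟨x, rfl⟩
    exact (p x).2

theorem exact_comp {R : Type} [Ring R] {A B C : Type} [AddCommGroup A] [AddCommGroup B]
    [AddCommGroup C] [Module R A] [Module R B] [Module R C] (S : Submodule R C)
    (g : A →ₗ[R] B) (h : B →ₗ[R] S) (hg : Function.Exact g h) :
    Function.Exact g (S.subtype ∘ₗ h) := by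
  intro y
  rw [← hg y, LinearMap.comp_apply]
  constructor
  · intro hy
    exact Subtype.ext hy
  · intro hy
    rw [hy]
    exact map_zero _

/-- the free module on the elements of a module -/
noncomputable def lc (R : Type) [Ring R] (M : Type) [AddCommGroup M] [Module R M] :
    (M →₀ R) →ₗ[R] M := Finsupp.linearCombination R (id : M → M)

theorem lc_surjective (R : Type) [Ring R] (M : Type) [AddCommGroup M] [Module R M] :
    Function.Surjective (lc R M) := Finsupp.linearCombination_surjective R Function.surjective_id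

/-- the syzygies -/
noncomputable def K (R : Type) [Ring R] (X : ModuleCat.{0} R) : ℕ → ModuleCat.{0} R
  | 0 => X
  | i + 1 => ModuleCat.of R (LinearMap.ker (lc R (K R X i)))

theorem res_zero (R : Type) [Ring R] (M : Type) [AddCommGroup M] [Module R M] : Res R M 0 := by
  refine ⟨fun i => ModuleCat.of R (K R (ModuleCat.of R M) i →₀ R),
    fun i => (LinearMap.ker (lc R (K R (ModuleCat.of R M) i))).subtype ∘ₗ
      lc R (K R (ModuleCat.of R M) (i + 1)), lc R M, ?_, ?_, ?_, ?_, ?_⟩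
  · intro i
    exact inferInstanceAs (Module.Projective R (K R (ModuleCat.of R M) i →₀ R))
  · intro i hi
    exact absurd hi (Nat.not_lt_zero i)
  · exact lc_surjective R M
  · exact exact_ker (lc R M) (lc R (K R (ModuleCat.of R M) 1))
      (lc_surjective R (K R (ModuleCat.of R M) 1))
  · intro i
    exact exact_comp _ _ _ (exact_ker (lc R (K R (ModuleCat.of R M) (i + 1)))
      (lc R (K R (ModuleCat.of R M) (i + 2))) (lc_surjective R (K R (ModuleCat.of R M) (i + 2))))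

/-- the modules of the shifted resolution -/
def sP {R : Type} [Ring R] (F : ModuleCat.{0} R) (P : ℕ → ModuleCat.{0} R) :
    ℕ → ModuleCat.{0} R
  | 0 => F
  | i + 1 => P i

/-- the maps of the shifted resolution -/
def sd {R : Type} [Ring R] (F : ModuleCat.{0} R) (P : ℕ → ModuleCat.{0} R)
    (d0 : P 0 →ₗ[R] F) (d : ∀ i, P (i + 1) →ₗ[R] P i) :
    ∀ i, sP F P (i + 1) →ₗ[R] sP F P i
  | 0 => d0
  | i + 1 => d i

theorem res_succ {R : Type} [Ring R] {M : Type} [AddCommGroup M] [Module R M]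
    (F : ModuleCat.{0} R) (f : F →ₗ[R] M) (h1 : Module.Projective R F) (h2 : Module.Finite R F)
    (hf : Function.Surjective f) {n : ℕ} (h : Res R (LinearMap.ker f) n) : Res R M (n + 1) := by
  obtain ⟨P, d, ε, hP, hfin, hε, h0, hd⟩ := h
  refine ⟨sP F P, sd F P ((LinearMap.ker f).subtype ∘ₗ ε) d, f, ?_, ?_, hf, ?_, ?_⟩
  · intro i
    cases i with
    | zero => exact h1
    | succ i => exact hP i
  · intro i hi
    cases i with
    | zero => exact h2
    | succ i => exact hfin i (Nat.lt_of_succ_lt_succ hi)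
  · exact exact_ker f ε hε
  · intro i
    cases i with
    | zero => exact exact_comp _ _ _ h0
    | succ i => exact hd i

end Build

theorem I_Build : StBuild := by
  intro R _ M _ _ F f h1 h2 hf hfg
  have hfin : Module.Finite R (LinearMap.ker f) := Module.Finite.iff_fg.mpr hfg
  obtain ⟨n, g, hg⟩ := Module.Finite.exists_fin' R (LinearMap.ker f)
  have hres : Build.Res R (LinearMap.ker f) 1 :=
    Build.res_succ (ModuleCat.of R (Fin n → R)) g
      (inferInstanceAs (Module.Projective R (Fin n → R)))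
      (inferInstanceAs (Module.Finite R (Fin n → R))) hg (Build.res_zero R (LinearMap.ker g))
  obtain ⟨P, d, ε, hP, hfin', hε, h0, hd⟩ := Build.res_succ F f h1 h2 hf hres
  exact ⟨P, d, ε, hP, fun i hi => hfin' i (by omega), hε, h0, hd⟩

end Pool.Agent.Work.MP_e9e200_al

end

section

/-!
# Project O3A: statements of the items

Each `def StXXX : Prop` is to be proved as `theorem I_XXX ... : StXXX` in `O3A/P_XXX.lean`.
-/

set_option autoImplicit false

namespace Pool.Agent.Work.MP_e9e200_al.O3A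

open Set Metric Topology

/-- PHB: elementary facts about points and characteristic maps -/
def StPHB : Prop := ∀ (G : Type) [Group G] (B : ℕ → Type) (ψ : Atl G B),
  (∀ (n : ℕ) (c : G × B n) (y : E n) (h : y ∈ ball (0 : E n) 1), Ph ψ n c y = mk n c y h) ∧
  (∀ (n : ℕ) (c : G × B n) (y : E n), y ∈ sphere (0 : E n) 1 → Ph ψ n c y = c.1 • ψ n c.2 y) ∧
  (∀ (g : G) (n : ℕ) (c : G × B n) (y : E n), g • Ph ψ n c y = Ph ψ n (g * c.1, c.2) y) ∧
  (∀ (g : G) (p : Pt G B), (g • p).dim = p.dim ∧ (g • p).gr = g * p.gr ∧ (g • p = p → g = 1)) ∧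
  (∀ (n : ℕ) (c c' : G × B n) (y y' : E n) (h : y ∈ ball (0 : E n) 1)
    (h' : y' ∈ ball (0 : E n) 1), mk n c y h = mk n c' y' h' → c = c' ∧ y = y') ∧
  (∀ p : Pt G B, ∃ (n : ℕ) (c : G × B n) (y : E n) (h : y ∈ ball (0 : E n) 1), p = mk n c y h) ∧
  ∀ (n : ℕ) (c : G × B n) (y : E n) (h : y ∈ ball (0 : E n) 1),
    (mk n c y h).dim = n ∧ (mk n c y h).gr = c.1

/-- CRT: closed sets and continuous maps -/
def StCRT : Prop := ∀ (G : Type) [Group G] (B : ℕ → Type) (ψ : Atl G B) (N : ℕ∞),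
  (∀ A : Set (Pt G B), IsClosed (st ψ N A) ↔ ∀ n : ℕ, (n : ℕ∞) < N → ∀ c : G × B n,
    IsClosed (closedBall (0 : E n) 1 ∩ {y | Ph ψ n c y ∈ A})) ∧
  (∀ (Z : Type) [TopologicalSpace Z] (f : Pt G B → Z), Continuous (fun p : Sp ψ N => f p) ↔
    ∀ n : ℕ, (n : ℕ∞) < N → ∀ c : G × B n,
      ContinuousOn (fun y => f (Ph ψ n c y)) (closedBall (0 : E n) 1)) ∧
  ∀ n : ℕ, (n : ℕ∞) < N → ∀ c : G × B n,
    ContinuousOn (fun y => pt ψ N (Ph ψ n c y)) (closedBall (0 : E n) 1)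

/-- ACT: the action is continuous (uses CRT, PHB) -/
def StACT : Prop := ∀ (G : Type) [Group G] (B : ℕ → Type) (ψ : Atl G B) (N : ℕ∞) (g : G),
  Continuous (fun p : Sp ψ N => g • p)

/-- SKC: closed subsets of the skeleta (uses CRT, PHB, ACT) -/
def StSKC : Prop := ∀ (G : Type) [Group G] (B : ℕ → Type) (ψ : Atl G B) (N M : ℕ∞), Gd ψ N →
  M ≤ N → ∀ A : Set (Pt G B), A ⊆ Lt M → (IsClosed (st ψ N A) ↔ IsClosed (st ψ M A))

/-- SKM: continuous maps to the skeleta (uses CRT, PHB, SKC) -/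
def StSKM : Prop := ∀ (G : Type) [Group G] (B : ℕ → Type) (ψ : Atl G B) (N M : ℕ∞), Gd ψ N →
  M ≤ N → IsClosed (st ψ N (Lt M)) ∧
  (∀ (Z : Type) [TopologicalSpace Z] (f : Z → Pt G B) (S : Set Z), MapsTo f S (Lt M) →
    (ContinuousOn (fun z => pt ψ N (f z)) S ↔ ContinuousOn (fun z => pt ψ M (f z)) S)) ∧
  (∀ K : Set (Pt G B), K ⊆ Lt M → (IsCompact (st ψ N K) ↔ IsCompact (st ψ M K))) ∧
  ∀ (A : Set (Pt G B)) (j : ℕ), A ⊆ Lt M → (O3.Ext (st ψ N A) j ↔ O3.Ext (st ψ M A) j)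

/-- EXF: extension of real functions (uses CRT, PHB, ACT, SKM) -/
def StEXF : Prop := ∀ (G : Type) [Group G] (B : ℕ → Type) (ψ : Atl G B) (N : ℕ∞) (M : ℕ),
  Gd ψ N → (M : ℕ∞) ≤ N → ∀ u : Pt G B → ℝ, Continuous (fun p : Sp ψ M => u p) →
  ∃ v : Pt G B → ℝ, Continuous (fun p : Sp ψ N => v p) ∧ ∀ p ∈ Lt (G := G) (B := B) (M : ℕ∞),
    v p = u p

/-- HTF: height functions (uses CRT, PHB, ACT, SKM) -/
def StHTF : Prop := ∀ (G : Type) [Group G] (B : ℕ → Type) (ψ : Atl G B) (N : ℕ∞)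
  (χ : Additive G →+ ℝ), Gd ψ N → ∃ h : Pt G B → ℝ, Continuous (fun p : Sp ψ N => h p) ∧
  (∀ (g : G) (p : Pt G B), h (g • p) = h p + χ (Additive.ofMul g)) ∧
  (∀ (n : ℕ) (c : G × B n), h (ctr n c) = χ (Additive.ofMul c.1)) ∧
  ((∀ (n : ℕ) (b : B n), (n : ℕ∞) < N → ∀ y ∈ sphere (0 : E n) 1, ψ n b y ∈ Pp χ) →
    ∀ p : Pt G B, χ (Additive.ofMul p.gr) ≤ h p)

/-- T2: the space is Hausdorff (uses CRT, PHB, EXF) -/
def StT2 : Prop := ∀ (G : Type) [Group G] (B : ℕ → Type) (ψ : Atl G B) (N : ℕ∞), Gd ψ N →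
  T2Space (Sp ψ N)

/-- FIN: compact sets meet finitely many cells (uses CRT, PHB, SKC, ACT) -/
def StFIN : Prop := ∀ (G : Type) [Group G] (B : ℕ → Type) (ψ : Atl G B) (N : ℕ∞), Gd ψ N →
  ∀ K : Set (Pt G B), IsCompact (st ψ N K) → K ⊆ Lt N →
  {q : Σ n : ℕ, G × B n | (K ∩ oc q.1 q.2).Nonempty}.Finite

/-- SYM: the inverse of a characteristic map is continuous on the open cell (uses CRT, PHB, T2) -/
def StSYM : Prop := ∀ (G : Type) [Group G] (B : ℕ → Type) (ψ : Atl G B) (N : ℕ∞), Gd ψ N →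
  ∀ n : ℕ, (n : ℕ∞) < N → ∀ (c : G × B n) (f : Pt G B → E n),
  (∀ (y : E n) (h : y ∈ ball (0 : E n) 1), f (mk n c y h) = y) →
  ContinuousOn (fun p : Sp ψ N => f p) (st ψ N (oc n c))

/-- CWS: the structure of a CW complex (uses CRT, PHB, SKM, T2, FIN, SYM, ACT) -/
def StCWS : Prop := ∀ (G : Type) [Group G] (B : ℕ → Type) (ψ : Atl G B) (N : ℕ∞), Gd ψ N →
  ∀ C : Set (Sp ψ N), C = st ψ N (Lt N) → ∃ (inst : CWComplex C)
    (e : ∀ n : ℕ, RelCWComplex.cell C n ≃ {c : G × B n // (n : ℕ∞) < N}),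
    ∀ (n : ℕ) (j : RelCWComplex.cell C n), ∀ y ∈ closedBall (0 : E n) 1,
      RelCWComplex.map n j y = pt ψ N (Ph ψ n (e n j).1 y)

/-- SBC: the half space is a subcomplex (uses PHB, CRT, T2) -/
def StSBC : Prop := ∀ (G : Type) [Group G] (B : ℕ → Type) (ψ : Atl G B) (N : ℕ∞)
  (χ : Additive G →+ ℝ), Gd ψ N →
  (∀ (n : ℕ) (b : B n), (n : ℕ∞) < N → ∀ y ∈ sphere (0 : E n) 1, ψ n b y ∈ Pp χ) →
  ∀ C : Set (Sp ψ N), C = st ψ N (Lt N) → ∀ (inst : CWComplex C)
    (e : ∀ n : ℕ, RelCWComplex.cell C n ≃ {c : G × B n // (n : ℕ∞) < N}),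
    (∀ (n : ℕ) (j : RelCWComplex.cell C n), ∀ y ∈ closedBall (0 : E n) 1,
      RelCWComplex.map n j y = pt ψ N (Ph ψ n (e n j).1 y)) →
    ∃ Y : CWComplex.Subcomplex C, (Y : Set (Sp ψ N)) = st ψ N (Pp χ ∩ Lt N) ∧
      ∀ (n : ℕ) (j : RelCWComplex.cell C n),
        j ∈ Y.I n ↔ 0 ≤ χ (Additive.ofMul (e n j).1.1)

/-- HLF: the largest subcomplex in `h ≥ 0` (uses PHB, CRT, T2, ACT) -/
def StHLF : Prop := ∀ (G : Type) [Group G] (B : ℕ → Type) (ψ : Atl G B) (χ : Additive G →+ ℝ),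
  Gd ψ ⊤ → (∀ (n : ℕ) (b : B n), ∀ y ∈ sphere (0 : E n) 1, ψ n b y ∈ Pp χ) →
  ∀ (inst : CWComplex (univ : Set (Sp ψ ⊤)))
    (e : ∀ n : ℕ, RelCWComplex.cell (univ : Set (Sp ψ ⊤)) n ≃ G × B n),
    (∀ (n : ℕ) (j : RelCWComplex.cell (univ : Set (Sp ψ ⊤)) n), ∀ y ∈ closedBall (0 : E n) 1,
      RelCWComplex.map n j y = pt ψ ⊤ (Ph ψ n (e n j) y)) →
    ∀ h : Pt G B → ℝ, (∀ (n : ℕ) (c : G × B n), h (ctr n c) = χ (Additive.ofMul c.1)) →
    (∀ p : Pt G B, χ (Additive.ofMul p.gr) ≤ h p) →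
    O3.half (fun p : Sp ψ ⊤ => h p) = st ψ ⊤ (Pp χ)

/-- LIM: extension of maps of spheres in the limit (uses PHB, SKM, FIN) -/
def StLIM : Prop := ∀ (G : Type) [Group G] (B : ℕ → Type) (ψ : Atl G B), Gd ψ ⊤ →
  ∀ (A : Set (Pt G B)) (j : ℕ),
  (∀ M₀ : ℕ, ∃ M : ℕ, M₀ ≤ M ∧ O3.Ext (st ψ M (A ∩ Lt (M : ℕ∞))) j) → O3.Ext (st ψ ⊤ A) j

/-- UNI: from the half space to the whole space (uses PHB, ACT, FIN) -/
def StUNI : Prop := ∀ (G : Type) [Group G] (B : ℕ → Type) (ψ : Atl G B) (χ : Additive G →+ ℝ),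
  χ ≠ 0 → Gd ψ ⊤ → ∀ k : ℕ, O3.Conn (st ψ ⊤ (Pp χ)) k → O3.Conn (univ : Set (Sp ψ ⊤)) k

/-- LIT: from the model to the literal definition (uses PHB, CRT, ACT, T2, CWS, HTF, HLF, UNI) -/
def StLIT : Prop := ∀ (G : Type) [Group G] (B : ℕ → Type) (χ : Additive G →+ ℝ), χ ≠ 0 →
  ∀ m : ℕ, (∀ i ≤ m, Finite (B i)) → ∀ ψ : Atl G B, Gd ψ ⊤ →
  (∀ (n : ℕ) (b : B n), ∀ y ∈ sphere (0 : E n) 1, ψ n b y ∈ Pp χ) →
  (∀ k : ℕ, O3.Conn (st ψ ⊤ (Pp χ)) k) → χ ∈ O3.LSig G m

/-- CNG: the space only depends on the attaching maps of dimension less than `N` -/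
def StCNG : Prop := ∀ (G : Type) [Group G] (B : ℕ → Type) (ψ ψ' : Atl G B) (N : ℕ∞),
  (∀ n : ℕ, (n : ℕ∞) < N → ψ n = ψ' n) →
  (∀ A : Set (Pt G B), IsClosed (st ψ N A) ↔ IsClosed (st ψ' N A)) ∧
  (∀ (Z : Type) [TopologicalSpace Z] (f : Z → Pt G B) (S : Set Z),
    ContinuousOn (fun z => pt ψ N (f z)) S ↔ ContinuousOn (fun z => pt ψ' N (f z)) S) ∧
  (Gd ψ N ↔ Gd ψ' N) ∧
  ∀ (A : Set (Pt G B)) (j : ℕ), O3.Ext (st ψ N A) j ↔ O3.Ext (st ψ' N A) j

/-- STP: one more dimension -/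
def StSTP : Prop := ∀ (G : Type) [Group G] (B : ℕ → Type) (ψ : Atl G B) (n : ℕ),
  (Gd ψ ((n + 1 : ℕ) : ℕ∞) ↔ Gd ψ (n : ℕ∞) ∧ ∀ b : B n,
    (∀ y ∈ sphere (0 : E n) 1, (ψ n b y).dim < n) ∧
    ContinuousOn (fun y => pt ψ n (ψ n b y)) (sphere 0 1)) ∧
  ((∀ n : ℕ, Gd ψ (n : ℕ∞)) → Gd ψ ⊤)

/-- REC: construction of attaching maps by recursion -/
def StREC : Prop := ∀ (G : Type) [Group G] (B : ℕ → Type) (Q : ℕ → Atl G B → Prop) (ψ₀ : Atl G B),
  (∀ (n : ℕ) (ψ ψ' : Atl G B), (∀ i < n, ψ i = ψ' i) → Q n ψ → Q n ψ') → Q 0 ψ₀ →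
  (∀ (n : ℕ) (ψ : Atl G B), Q n ψ → ∃ ψ' : Atl G B, (∀ i < n, ψ' i = ψ i) ∧ Q (n + 1) ψ') →
  ∃ ψ : Atl G B, ∀ n, Q n ψ

end Pool.Agent.Work.MP_e9e200_al.O3A

end

section

/-!
# Item Sig1: the criterion for `Σ^1`
-/

set_option autoImplicit false

namespace Pool.Agent.Work.MP_e9e200_al

open scoped commutatorElement

namespace Sig1

section

variable {G : Type} [Group G] (χ : Additive G →+ ℝ)

/-- the character as a function on `G` -/
noncomputable def c (g : G) : ℝ := χ (Additive.ofMul g)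

lemma c_one : c χ 1 = 0 := by
  unfold c; rw [ofMul_one, map_zero]

lemma c_mul (a b : G) : c χ (a * b) = c χ a + c χ b := by
  unfold c; rw [ofMul_mul, map_add]

lemma c_inv (a : G) : c χ a⁻¹ = -c χ a := by
  unfold c; rw [ofMul_inv, map_neg]

lemma c_pow (a : G) (n : ℕ) : c χ (a ^ n) = n * c χ a := by
  induction n with
  | zero => rw [pow_zero, c_one]; simp
  | succ n ih => rw [pow_succ, c_mul, ih]; push_cast; ring

lemma mem_S {g : G} : g ∈ Gmon χ ↔ 0 ≤ c χ g := Iff.rfl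

lemma c_comm {a : G} (ha : a ∈ commutator G) : c χ a = 0 := by
  let φ : G →* Multiplicative ℝ :=
    { toFun := fun g => Multiplicative.ofAdd (c χ g)
      map_one' := by rw [c_one]; rfl
      map_mul' := fun a b => by rw [c_mul]; rfl }
  have h : commutator G ≤ φ.ker := Abelianization.commutator_subset_ker φ
  have h2 := h ha
  rw [MonoidHom.mem_ker] at h2
  exact congrArg Multiplicative.toAdd h2

/-- the relation -/
def Rl (L : Submodule (MonoidAlgebra ℤ (Gmon χ)) (MonoidAlgebra ℤ (Gmon χ))) (g h : G) : Prop :=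
  ∃ (hg : g ∈ Gmon χ) (hh : h ∈ Gmon χ),
    MonoidAlgebra.of ℤ (Gmon χ) ⟨g, hg⟩ - MonoidAlgebra.of ℤ (Gmon χ) ⟨h, hh⟩ ∈ L

variable {χ} {L : Submodule (MonoidAlgebra ℤ (Gmon χ)) (MonoidAlgebra ℤ (Gmon χ))}

lemma Rl.refl {g : G} (hg : 0 ≤ c χ g) : Rl χ L g g :=
  ⟨hg, hg, by rw [sub_self]; exact L.zero_mem⟩

lemma Rl.symm {g h : G} (H : Rl χ L g h) : Rl χ L h g := by
  obtain ⟨hg, hh, H⟩ := H
  refine ⟨hh, hg, ?_⟩
  rw [← neg_sub]
  exact L.neg_mem H

lemma Rl.trans {g h k : G} (H : Rl χ L g h) (H' : Rl χ L h k) : Rl χ L g k := by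
  obtain ⟨hg, hh, H⟩ := H
  obtain ⟨hh', hk, H'⟩ := H'
  refine ⟨hg, hk, ?_⟩
  have := L.add_mem H H'
  rwa [sub_add_sub_cancel] at this

lemma Rl.left {g h : G} (H : Rl χ L g h) {s : G} (hs : 0 ≤ c χ s) : Rl χ L (s * g) (s * h) := by
  obtain ⟨hg, hh, H⟩ := H
  refine ⟨(Gmon χ).mul_mem hs hg, (Gmon χ).mul_mem hs hh, ?_⟩
  have h1 := L.smul_mem (MonoidAlgebra.of ℤ (Gmon χ) ⟨s, hs⟩) H
  rw [smul_eq_mul, mul_sub, ← map_mul, ← map_mul] at h1
  exact h1

/-- generators -/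
def Gen (L : Submodule (MonoidAlgebra ℤ (Gmon χ)) (MonoidAlgebra ℤ (Gmon χ))) (x : G) : Prop :=
  ∃ hx : x ∈ Gmon χ, MonoidAlgebra.of ℤ (Gmon χ) ⟨x, hx⟩ - 1 ∈ L

lemma Gen.rl {x : G} (hx : Gen (χ := χ) L x) {g : G} (hg : 0 ≤ c χ g) : Rl χ L (g * x) g := by
  obtain ⟨hx, hx2⟩ := hx
  refine ⟨(Gmon χ).mul_mem hg hx, hg, ?_⟩
  have h1 := L.smul_mem (MonoidAlgebra.of ℤ (Gmon χ) ⟨g, hg⟩) hx2
  rw [smul_eq_mul, mul_sub, mul_one, ← map_mul] at h1
  exact h1

/-- `x` or its inverse is a generator -/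
def Gen2 (L : Submodule (MonoidAlgebra ℤ (Gmon χ)) (MonoidAlgebra ℤ (Gmon χ))) (x : G) : Prop :=
  (0 ≤ c χ x → Gen (χ := χ) L x) ∧ (c χ x ≤ 0 → Gen (χ := χ) L x⁻¹)

lemma Gen2.inv {x : G} (hx : Gen2 (χ := χ) L x) : Gen2 (χ := χ) L x⁻¹ := by
  constructor
  · intro h
    rw [c_inv] at h
    exact hx.2 (by linarith)
  · intro h
    rw [c_inv] at h
    rw [inv_inv]
    exact hx.1 (by linarith)

lemma Gen2.rl {x : G} (hx : Gen2 (χ := χ) L x) {g : G} (hg : 0 ≤ c χ g) (hgx : 0 ≤ c χ (g * x)) :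
    Rl χ L (g * x) g := by
  rcases le_total 0 (c χ x) with h | h
  · exact (hx.1 h).rl hg
  · have h1 := (hx.2 h).rl hgx
    rw [mul_assoc, mul_inv_cancel, mul_one] at h1
    exact h1.symm

/-- far out everything is connected -/
lemma far {X : Set G} (hX : ∀ x ∈ X, Gen2 (χ := χ) L x) {g : G} (hg : g ∈ Subgroup.closure X) :
    ∃ N : ℝ, ∀ h : G, N ≤ c χ h → Rl χ L h (h * g) := by
  induction hg using Subgroup.closure_induction with
  | mem x hx =>
    refine ⟨|c χ x|, fun h hh => ?_⟩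
    have h1 := abs_nonneg (c χ x)
    have h2 := neg_abs_le (c χ x)
    refine ((hX x hx).rl (by linarith) ?_).symm
    rw [c_mul]
    linarith
  | one =>
    refine ⟨0, fun h hh => ?_⟩
    rw [mul_one]
    exact Rl.refl hh
  | mul a b _ _ iha ihb =>
    obtain ⟨N1, h1⟩ := iha
    obtain ⟨N2, h2⟩ := ihb
    refine ⟨max N1 (N2 - c χ a), fun h hh => ?_⟩
    have h3 := h1 h ((le_max_left _ _).trans hh)
    have h4 := h2 (h * a) (by
      have := (le_max_right _ _).trans hh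
      rw [c_mul]
      linarith)
    rw [mul_assoc] at h4
    exact h3.trans h4
  | inv a _ iha =>
    obtain ⟨N, h1⟩ := iha
    refine ⟨N + c χ a, fun h hh => ?_⟩
    have h3 := h1 (h * a⁻¹) (by
      rw [c_mul, c_inv]
      linarith)
    rw [mul_assoc, inv_mul_cancel, mul_one] at h3
    exact h3.symm

/-- conjugates by large powers -/
lemma conj {X : Set G} (hX : ∀ x ∈ X, Gen2 (χ := χ) L x) (hcl : Subgroup.closure X = ⊤) {t : G}
    (ht : Gen2 (χ := χ) L t) (ht0 : 0 < c χ t) {g : G} (hg : 0 ≤ c χ g) :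
    ∃ N : ℕ, Rl χ L 1 (t ^ N * g * (t ^ N)⁻¹) := by
  obtain ⟨N0, hN0⟩ := far hX (g := g) (by rw [hcl]; trivial)
  obtain ⟨N, hN⟩ := exists_nat_gt (N0 / c χ t)
  refine ⟨N, ?_⟩
  have h1 : ∀ n : ℕ, Rl χ L 1 (t ^ n) := by
    intro n
    induction n with
    | zero => rw [pow_zero]; exact Rl.refl (by rw [c_one])
    | succ n ih =>
      rw [pow_succ]
      have hn : 0 ≤ c χ (t ^ n) := by rw [c_pow]; positivity
      refine ih.trans (ht.rl hn ?_).symm
      rw [c_mul]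
      linarith
  have h2 : Rl χ L (t ^ N) (t ^ N * g) := by
    apply hN0
    rw [c_pow]
    rw [div_lt_iff₀ ht0] at hN
    exact hN.le
  have h3 : ∀ n : ℕ, n ≤ N → Rl χ L (t ^ N * g) (t ^ N * g * (t ^ n)⁻¹) := by
    intro n
    induction n with
    | zero =>
      intro _
      rw [pow_zero, inv_one, mul_one]
      refine Rl.refl ?_
      rw [c_mul, c_pow]
      positivity
    | succ n ih =>
      intro hn
      have hpos : ∀ m : ℕ, m ≤ N → 0 ≤ c χ (t ^ N * g * (t ^ m)⁻¹) := by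
        intro m hm
        rw [c_mul, c_mul, c_inv, c_pow, c_pow]
        have : (m : ℝ) ≤ N := by exact_mod_cast hm
        nlinarith
      have e : t ^ N * g * (t ^ (n + 1))⁻¹ = t ^ N * g * (t ^ n)⁻¹ * t⁻¹ := by
        rw [pow_succ', mul_inv_rev]
        group
      refine (ih (by omega)).trans ?_
      rw [e]
      refine (ht.inv.rl (hpos n (by omega)) ?_).symm
      rw [← e]
      exact hpos (n + 1) hn
  exact ((h1 N).trans h2).trans (h3 N le_rfl)

/-- all elements of the derived group are equivalent to `1` -/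
lemma derived (hm : Metab G) {X : Set G} (hX : ∀ x ∈ X, Gen2 (χ := χ) L x)
    (hcl : Subgroup.closure X = ⊤) {t : G} (ht : Gen2 (χ := χ) L t) (ht0 : 0 < c χ t)
    {V : Finset G} (hV : ∀ v ∈ V, v ∈ commutator G) (hVg : ∀ v ∈ V, Gen (χ := χ) L v)
    {a : G} (ha : a ∈ Subgroup.closure
      {w : G | ∃ g v : G, 0 ≤ χ (Additive.ofMul g) ∧ v ∈ V ∧ w = g * v * g⁻¹}) :
    a ∈ commutator G ∧ Rl χ L 1 a := by
  induction ha using Subgroup.closure_induction with
  | mem w hw =>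
    obtain ⟨g, v, hg, hv, rfl⟩ := hw
    have hvA := hV v hv
    have hwA : g * v * g⁻¹ ∈ commutator G := Subgroup.Normal.conj_mem inferInstance v hvA g
    refine ⟨hwA, ?_⟩
    obtain ⟨N, hN⟩ := conj hX hcl ht ht0 (g := g) hg
    set g' := t ^ N * g * (t ^ N)⁻¹ with hg'
    have hbA : g' * g⁻¹ ∈ commutator G := by
      have h1 : ⁅t ^ N, g⁆ ∈ commutator G :=
        Subgroup.commutator_mem_commutator (Subgroup.mem_top _) (Subgroup.mem_top _)
      rw [commutatorElement_def] at h1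
      exact h1
    have hw0 : 0 ≤ c χ (g * v * g⁻¹) := (c_comm χ hwA).ge
    have hg0 : 0 ≤ c χ g' := by
      obtain ⟨_, hh, _⟩ := hN
      exact hh
    have h1 : Rl χ L (g * v * g⁻¹) (g * v * g⁻¹ * g') := by
      have := hN.left hw0
      rwa [mul_one] at this
    have h2 : g * v * g⁻¹ * g' = g' * v := by
      have h3 := hm (g * v * g⁻¹) hwA (g' * g⁻¹) hbA
      have h4 : g * v * g⁻¹ * g' = g * v * g⁻¹ * (g' * g⁻¹) * g := by group
      rw [h4, h3]
      group
    rw [h2] at h1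
    exact (h1.trans ((hVg v hv).rl hg0)).trans hN.symm |>.symm
  | one => exact ⟨one_mem _, Rl.refl (by rw [c_one])⟩
  | mul a b _ _ iha ihb =>
    refine ⟨mul_mem iha.1 ihb.1, ?_⟩
    have h1 := ihb.2.left (s := a) (c_comm χ iha.1).ge
    rw [mul_one] at h1
    exact iha.2.trans h1
  | inv a _ iha =>
    refine ⟨inv_mem iha.1, ?_⟩
    have h1 := iha.2.left (s := a⁻¹) (c_comm χ (inv_mem iha.1)).ge
    rw [mul_one, inv_mul_cancel] at h1
    exact h1.symm

end

end Sig1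

open Sig1 in
theorem I_Sig1 (h : StBuild) : StSig1 := by
  classical
  intro G _ _ hm χ hχ V hV hgen
  -- a finite generating set
  obtain ⟨X, hX⟩ := Group.fg_def.1 ‹Group.FG G›
  let S := Gmon χ
  let R := MonoidAlgebra ℤ S
  let D : G → R := fun x => if hx : x ∈ S then MonoidAlgebra.of ℤ S ⟨x, hx⟩ - 1 else 0
  let T : Finset R := (X.image D) ∪ (X.image fun x => D x⁻¹) ∪ (V.image D)
  let L : Submodule R R := Submodule.span R (T : Set R)
  have hD : ∀ x, D x ∈ T → ∀ hx : x ∈ S, Gen (χ := χ) L x := by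
    intro x hxT hx
    refine ⟨hx, ?_⟩
    have h1 : D x ∈ L := Submodule.subset_span hxT
    simp only [D, dif_pos hx] at h1
    exact h1
  have hG2 : ∀ x ∈ (X : Set G), Gen2 (χ := χ) L x := by
    intro x hx
    constructor
    · intro h0
      refine hD x ?_ h0
      exact Finset.mem_union_left _ (Finset.mem_union_left _ (Finset.mem_image_of_mem _ hx))
    · intro h0
      refine hD x⁻¹ ?_ ?_
      · exact Finset.mem_union_left _ (Finset.mem_union_right _
          (Finset.mem_image_of_mem (fun x => D x⁻¹) hx))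
      · rw [mem_S, c_inv]
        linarith
  have hVg : ∀ v ∈ V, Gen (χ := χ) L v := by
    intro v hv
    refine hD v ?_ ?_
    · exact Finset.mem_union_right _ (Finset.mem_image_of_mem _ hv)
    · rw [mem_S]
      exact (c_comm χ (hV v hv)).ge
  -- an element with positive value
  have ht : ∃ t, Gen2 (χ := χ) L t ∧ 0 < c χ t := by
    by_contra hcon
    push Not at hcon
    apply hχ
    have h0 : ∀ g : G, c χ g = 0 := by
      intro g
      have hg : g ∈ Subgroup.closure (X : Set G) := by rw [hX]; trivial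
      induction hg using Subgroup.closure_induction with
      | mem x hx =>
        have h1 := hcon x (hG2 x hx)
        have h2 := hcon x⁻¹ (hG2 x hx).inv
        rw [c_inv] at h2
        linarith
      | one => exact c_one χ
      | mul a b _ _ iha ihb => rw [c_mul, iha, ihb, add_zero]
      | inv a _ iha => rw [c_inv, iha, neg_zero]
    ext g
    exact h0 (Additive.toMul g)
  obtain ⟨t, ht, ht0⟩ := ht
  -- every element of `S` is equivalent to `1`
  have hall : ∀ g : G, 0 ≤ c χ g → Rl χ L 1 g := by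
    intro g hg
    obtain ⟨N, hN⟩ := conj hG2 hX ht ht0 hg
    have hb : g⁻¹ * (t ^ N * g * (t ^ N)⁻¹) ∈ commutator G := by
      have h1 : ⁅g⁻¹, t ^ N⁆ ∈ commutator G :=
        Subgroup.commutator_mem_commutator (Subgroup.mem_top _) (Subgroup.mem_top _)
      rw [commutatorElement_def, inv_inv] at h1
      simpa [mul_assoc] using h1
    have h2 := (derived hm hG2 hX ht ht0 hV hVg (hgen _ hb)).2
    have h3 := h2.left hg
    rw [mul_one, ← mul_assoc, mul_inv_cancel, one_mul] at h3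
    exact hN.trans h3.symm
  have haug : ∀ r : R, r - ((aug S r : ℤ) : R) ∈ L := by
    intro r
    induction r using MonoidAlgebra.induction_linear with
    | zero => simp
    | add f g hf hg =>
      have := L.add_mem hf hg
      rw [map_add, Int.cast_add]
      have e : f + g - (((aug S f : ℤ) : R) + ((aug S g : ℤ) : R))
          = (f - ((aug S f : ℤ) : R)) + (g - ((aug S g : ℤ) : R)) := by abel
      rw [e]
      exact this
    | single s n =>
      obtain ⟨h1, h2, h3⟩ := hall s.1 s.2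
      have h4 : MonoidAlgebra.of ℤ S s - 1 ∈ L := by
        have := L.neg_mem h3
        rw [neg_sub] at this
        exact this
      have h5 : MonoidAlgebra.single s n = (n : R) * MonoidAlgebra.of ℤ S s := by
        rw [MonoidAlgebra.of_apply, ← zsmul_eq_mul, MonoidAlgebra.smul_single]
        simp
      have h6 : aug S (MonoidAlgebra.single s n) = n := by
        rw [h5, map_mul, map_intCast]
        simp [aug]
      rw [h6, h5]
      have h7 := L.smul_mem (n : R) h4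
      rw [smul_eq_mul, mul_sub, mul_one] at h7
      exact h7
  -- the presentation
  let f : R →ₗ[R] Triv S := LinearMap.toSpanSingleton R (Triv S) (1 : ℤ)
  have hf : ∀ r : R, f r = aug S r := by
    intro r
    show (aug S r) * (1 : ℤ) = aug S r
    rw [mul_one]
  have hker : LinearMap.ker f = L := by
    apply le_antisymm
    · intro r hr
      rw [LinearMap.mem_ker, hf] at hr
      have h1 := haug r
      have h2 : (aug S r : ℤ) = 0 := hr
      rw [h2, Int.cast_zero, sub_zero] at h1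
      exact h1
    · rw [Submodule.span_le]
      intro r hr
      have hz : ∀ x, aug S (D x) = 0 := by
        intro x
        simp only [D]
        split_ifs with hx
        · rw [map_sub, map_one]
          simp [aug]
        · rw [map_zero]
      have hr' : r ∈ T := hr
      simp only [T, Finset.mem_union, Finset.mem_image] at hr'
      show f r = 0
      rw [hf]
      rcases hr' with (⟨x, _, rfl⟩ | ⟨x, _, rfl⟩) | ⟨x, _, rfl⟩
      · exact hz x
      · exact hz x⁻¹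
      · exact hz x
  refine h R (Triv S) (ModuleCat.of R R) f ?_ ?_ ?_ ?_
  · exact inferInstanceAs (Module.Projective R R)
  · exact inferInstanceAs (Module.Finite R R)
  · intro n
    exact ⟨((id n : ℤ) : R), (hf _).trans (map_intCast (aug S) (id n : ℤ))⟩
  · rw [hker]
    exact ⟨T, rfl⟩

end Pool.Agent.Work.MP_e9e200_al

end
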