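import Pool.Agent.Work.MP_e9e200_al.Stmts
import Pool.Agent.Work.MP_e9e200_al.Bd.B05
import Pool.Agent.Work.MP_e9e200_al.Bd.B04
import Pool.Agent.Work.MP_e9e200_al.Bd.B01
import Pool.Agent.Work.MP_e9e200_al.Stmts3

/-! Bundle of small proof modules (one section per former module). -/

section

/-!
# The Koszul step
-/

set_option autoImplicit false

namespace Pool.Agent.Work.MP_e9e200_al

namespace Kos

/-- the double sum vanishes -/
theorem double {R α F : Type} [Ring R] [AddCommGroup F] [Module R F] (e : α → R)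
    (he : ∀ a b, e a * e b = e b * e a) (i : ℕ) (κ : (Fin i → α) → F) (b : Fin (i + 2) → α) :
    ∑ j : Fin (i + 2), (-1 : ℤ) ^ (j : ℕ) • (e (b j) •
      ∑ l : Fin (i + 1), (-1 : ℤ) ^ (l : ℕ) • (e (b (j.succAbove l)) •
        κ (fun l' => b (j.succAbove (l.succAbove l'))))) = 0 := by
  have h1 : ∀ j : Fin (i + 2), (-1 : ℤ) ^ (j : ℕ) • (e (b j) •
      ∑ l : Fin (i + 1), (-1 : ℤ) ^ (l : ℕ) • (e (b (j.succAbove l)) •
        κ (fun l' => b (j.succAbove (l.succAbove l'))))) =
      ∑ l : Fin (i + 1), (-1 : ℤ) ^ ((j : ℕ) + (l : ℕ)) • ((e (b j) * e (b (j.succAbove l))) •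
        κ (fun l' => b (j.succAbove (l.succAbove l')))) := by
    intro j
    rw [Finset.smul_sum, Finset.smul_sum]
    refine Finset.sum_congr rfl fun l _ => ?_
    rw [smul_comm (e (b j)) ((-1 : ℤ) ^ (l : ℕ)), smul_smul, smul_smul, ← pow_add]
  simp only [h1]
  rw [← Finset.sum_product', Finset.univ_product_univ]
  refine Finset.sum_involution
    (fun (a : Fin (i + 2) × Fin (i + 1)) _ => (a.1.succAbove a.2, a.2.predAbove a.1))
    ?_ ?_ (fun a _ => Finset.mem_univ _) ?_
  · rintro ⟨j, l⟩ _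
    simp only
    have h2 : (fun l' => b ((j.succAbove l).succAbove ((l.predAbove j).succAbove l'))) =
        fun l' => b (j.succAbove (l.succAbove l')) := by
      funext l'
      rw [Fin.succAbove_succAbove_succAbove_predAbove]
    rw [h2, Fin.succAbove_succAbove_predAbove, Fin.neg_one_pow_succAbove_add_predAbove,
      he (b (j.succAbove l)) (b j)]
    simp
  · rintro ⟨j, l⟩ _ _ h
    have := congrArg Prod.fst h
    exact Fin.succAbove_ne j l this
  · rintro ⟨j, l⟩ _
    simp only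
    rw [Fin.succAbove_succAbove_predAbove, Fin.predAbove_predAbove_succAbove]

end Kos

open Kos in
theorem I_Kos : StKos := by
  intro R _ α e he F K _ _ _ _ f hf i z hz
  set κ : (Fin i → α) → F := fun b => Function.surjInv hf (z b) with hκ
  have hκz : ∀ b, f (κ b) = z b := fun b => Function.surjInv_eq hf (z b)
  refine ⟨κ, fun b => ⟨∑ j : Fin (i + 1), (-1 : ℤ) ^ (j : ℕ) •
    (e (b j) • κ (fun l => b (j.succAbove l))), ?_⟩, hκz, fun b => rfl, ?_⟩
  · rw [LinearMap.mem_ker, map_sum, ← hz b]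
    refine Finset.sum_congr rfl fun j _ => ?_
    rw [map_zsmul, map_smul, hκz]
  · intro b
    apply Subtype.ext
    rw [AddSubmonoidClass.coe_finsetSum, ZeroMemClass.coe_zero, ← double e he i κ b]
    rfl

end Pool.Agent.Work.MP_e9e200_al

end

section

/-! Item 3: lifting a cocycle to the twisted module. -/

set_option autoImplicit false
set_option linter.unusedSectionVars false

namespace Pool.Agent.Work.MP_e9e200_al

namespace Twist

variable {G : Type} [Group G] (S : Submonoid G) {k : Type} [Field k] (P : Type)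
  [AddCommGroup P] [Module (MonoidAlgebra ℤ S) P]

/-- the map on the monoid ring -/
noncomputable def W (v : P →+ (G → k)) (δ : S → G → k) (p : P) :
    MonoidAlgebra ℤ S →+ (G → k) :=
  MonoidAlgebra.liftNC (Int.castAddHom (G → k)) (fun (s : S) (x : G) => δ s x * v p (x * s))

variable {S P}

theorem W_of (v : P →+ (G → k)) (δ : S → G → k) (p : P) (s : S) :
    W S P v δ p (MonoidAlgebra.of ℤ S s) = fun x : G => δ s x * v p (x * s) := by
  unfold W
  rw [MonoidAlgebra.of_apply, MonoidAlgebra.liftNC_single]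
  simp

theorem W_mem (v : P →+ (G → k)) (δ : S → G → k) (J : AddSubgroup (G → k))
    (h : ∀ (s : S) (p : P), (fun x : G => δ s x * v p (x * s)) ∈ J) (p : P)
    (r : MonoidAlgebra ℤ S) : W S P v δ p r ∈ J := by
  induction r using MonoidAlgebra.induction_on with
  | of s =>
    rw [W_of]
    exact h s p
  | add x y hx hy =>
    rw [map_add]
    exact J.add_mem hx hy
  | smul n x hx =>
    rw [map_zsmul]
    exact J.zsmul_mem hx n

theorem W_mul (v : P →+ (G → k)) (δ : S → G → k)
    (hv : ∀ (s : S) (p : P) (x : G), v (MonoidAlgebra.of ℤ S s • p) x = v p (x * s))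
    (hδ : ∀ (s t : S) (x : G), δ (s * t) x = δ s x + δ t (x * s)) (p : P) (s : S)
    (r : MonoidAlgebra ℤ S) : ∀ x : G, W S P v δ p (MonoidAlgebra.of ℤ S s * r) x =
      W S P v δ p r (x * s) + δ s x * v (r • p) (x * s) := by
  induction r using MonoidAlgebra.induction_on with
  | of t =>
    intro x
    rw [← map_mul, W_of, W_of]
    show δ (s * t) x * v p (x * ((s * t : S) : G)) =
      δ t (x * s) * v p (x * s * t) + δ s x * v (MonoidAlgebra.of ℤ S t • p) (x * s)
    rw [hδ, hv, Submonoid.coe_mul, mul_assoc x]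
    ring
  | add r r' hr hr' =>
    intro x
    rw [mul_add, map_add, map_add, Pi.add_apply, Pi.add_apply, hr, hr', add_smul, map_add,
      Pi.add_apply]
    ring
  | smul n r hr =>
    intro x
    have e1 : MonoidAlgebra.of ℤ S s * (n • r) = n • (MonoidAlgebra.of ℤ S s * r) := by
      rw [mul_smul_comm]
    have e2 : (n • r) • p = n • (r • p) := smul_assoc n r p
    rw [e1, e2, map_zsmul, map_zsmul, map_zsmul, Pi.smul_apply, Pi.smul_apply, Pi.smul_apply, hr,
      smul_add, mul_smul_comm]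

end Twist

open Twist in
theorem I_Twist : StTwist := by
  intro G _ S k _ P _ _ hP v δ J hv hδ hJ
  classical
  obtain ⟨σ, hσ⟩ := Module.projective_def.mp hP
  let U : (P →₀ MonoidAlgebra ℤ S) →+ (G → k) := Finsupp.liftAddHom (W S P v δ)
  have hU1 : ∀ (p : P) (r : MonoidAlgebra ℤ S), U (Finsupp.single p r) = W S P v δ p r :=
    fun p r => Finsupp.liftAddHom_apply_single _ _ _
  have hU2 : ∀ (s : S) (f : P →₀ MonoidAlgebra ℤ S) (x : G),
      U (MonoidAlgebra.of ℤ S s • f) x = U f (x * s) +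
        δ s x * v (Finsupp.linearCombination (MonoidAlgebra ℤ S) id f) (x * s) := by
    intro s f
    induction f using Finsupp.induction_linear with
    | zero =>
      intro x
      rw [smul_zero, map_zero, map_zero, map_zero]
      simp
    | add f g hf hg =>
      intro x
      rw [smul_add, map_add, map_add, Pi.add_apply, Pi.add_apply, hf, hg, map_add, map_add,
        Pi.add_apply]
      ring
    | single p r =>
      intro x
      rw [Finsupp.smul_single, smul_eq_mul, hU1, hU1, W_mul v δ hv hδ,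
        Finsupp.linearCombination_single, id]
  have hU3 : ∀ f, U f ∈ J := by
    intro f
    induction f using Finsupp.induction_linear with
    | zero =>
      rw [map_zero]
      exact J.zero_mem
    | add f g hf hg =>
      rw [map_add]
      exact J.add_mem hf hg
    | single p r =>
      rw [hU1]
      exact W_mem v δ J hJ p r
  refine ⟨U.comp σ.toAddMonoidHom, fun s p x => ?_, fun p => hU3 _⟩
  show U (σ (MonoidAlgebra.of ℤ S s • p)) x = U (σ p) (x * s) + δ s x * v p (x * s)
  rw [map_smul, hU2, hσ p]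

end Pool.Agent.Work.MP_e9e200_al

end

section

set_option autoImplicit false

namespace Pool.Agent.Work.MP_e9e200_al.O3

open Set Metric Topology OnePoint

namespace XDNRM

open scoped Classical in
/-- the label of a point with respect to the corner `c` -/
noncomputable def L {n : ℕ} (c x : E n) : Fin (n + 1) :=
  (Finset.univ.filter (fun i : Fin n => c i ≤ x i)).sup Fin.succ

theorem ell_eq {n : ℕ} {c x y : E n} (h : ∀ i, 0 ≤ y i ↔ c i ≤ x i) : ell y = L c x := by
  unfold ell L
  congr 1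
  ext i
  simp [h i]

theorem L_mono {n : ℕ} {c x x' : E n} (h : ∀ i, x i ≤ x' i) : L c x ≤ L c x' := by
  unfold L
  apply Finset.sup_mono
  intro i hi
  simp only [Finset.mem_filter, Finset.mem_univ, true_and] at hi ⊢
  exact hi.trans (h i)

theorem L_zero {n : ℕ} {c x : E n} (h : L c x = 0) (i : Fin n) : x i < c i := by
  by_contra hc
  have h1 : Fin.succ i ≤ L c x := by
    unfold L
    exact Finset.le_sup (f := Fin.succ) (by simpa using hc)
  rw [h] at h1
  exact absurd h1 (by simp)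

theorem L_succ {n : ℕ} {c x : E n} {i : Fin n} (h : L c x = i.succ) : c i ≤ x i := by
  by_contra hc
  have h1 : L c x < i.succ := by
    unfold L at h ⊢
    rw [Finset.sup_lt_iff (show (⊥ : Fin (n + 1)) < i.succ from Fin.succ_pos i)]
    intro j hj
    have h2 : Fin.succ j ≤ i.succ := by
      rw [← h]
      exact Finset.le_sup (f := Fin.succ) hj
    rcases h2.lt_or_eq with h3 | h3
    · exact h3
    · exfalso
      have : j = i := Fin.succ_injective _ h3
      subst this
      simp only [Finset.mem_filter, Finset.mem_univ, true_and] at hj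
      exact hc hj
  exact absurd h h1.ne

theorem L_of {n : ℕ} {c x : E n} {i : Fin (n + 1)} (h : ∀ j, c j ≤ x j ↔ j.castSucc < i) :
    L c x = i := by
  unfold L
  apply le_antisymm
  · apply Finset.sup_le
    intro j hj
    simp only [Finset.mem_filter, Finset.mem_univ, true_and] at hj
    have := (h j).1 hj
    rw [Fin.lt_def] at this
    rw [Fin.le_def]
    simpa using this
  · induction i using Fin.cases with
    | zero => exact Fin.zero_le _
    | succ i' =>
      apply Finset.le_sup (f := Fin.succ)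
      simp only [Finset.mem_filter, Finset.mem_univ, true_and]
      exact (h i').2 (by simp [Fin.lt_def])

theorem lv_coe {k n : ℕ} (a b : Fin k) (y : E n) :
    lv a (((b, y) : Fin k × E n) : W k n) = if b = a ∧ ‖y‖ < 1 then Pi.single (ell y) 1 else 0 := rfl

theorem lv_inf {k n : ℕ} (a : Fin k) : lv a (∞ : W k n) = 0 := rfl

section

variable {k n : ℕ} {a : Fin k} {u : E n → W k n} {c : E n}

theorem lv_or (hu : ∀ x b y, u x = ((b, y) : Fin k × E n) → b = a ∧ ∀ i, 0 ≤ y i ↔ c i ≤ x i)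
    (x : E n) : lv a (u x) = 0 ∨ lv a (u x) = Pi.single (L c x) 1 := by
  rcases eq_or_ne (u x) ∞ with h | h
  · left; rw [h]; rfl
  · obtain ⟨⟨b, y⟩, hy⟩ := OnePoint.ne_infty_iff_exists.1 h
    obtain ⟨hb, hi⟩ := hu x b y hy.symm
    rw [← hy, lv_coe, ell_eq hi]
    split_ifs
    · right; rfl
    · left; rfl

theorem near (hc : Continuous u)
    (hu : ∀ x b y, u x = ((b, y) : Fin k × E n) → b = a ∧ ∀ i, 0 ≤ y i ↔ c i ≤ x i)
    (h : u c ≠ ∞) : ∃ η > 0, ∀ x, ‖x - c‖ < η → lv a (u x) = Pi.single (L c x) 1 := by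
  obtain ⟨⟨b, y⟩, hy⟩ := OnePoint.ne_infty_iff_exists.1 h
  obtain ⟨hb, hi⟩ := hu c b y hy.symm
  subst hb
  have hop : ∀ V : Set (E n), IsOpen V → y ∈ V → ∀ᶠ x in 𝓝 c, ∃ z ∈ V,
      u x = (((b, z) : Fin k × E n) : W k n) := by
    intro V hV hyV
    have h1 : IsOpen (((↑) : Fin k × E n → W k n) '' ({b} ×ˢ V)) :=
      OnePoint.isOpenEmbedding_coe.isOpenMap _ ((isOpen_discrete _).prod hV)
    have h2 : u c ∈ ((↑) : Fin k × E n → W k n) '' ({b} ×ˢ V) :=
      ⟨(b, y), ⟨rfl, hyV⟩, hy⟩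
    filter_upwards [hc.continuousAt.eventually (h1.mem_nhds h2)] with x hx
    obtain ⟨⟨b', z⟩, ⟨hb', hz⟩, hxz⟩ := hx
    simp only [mem_singleton_iff] at hb'
    subst hb'
    exact ⟨z, hz, hxz.symm⟩
  have hy0 : y = 0 := by
    funext i
    by_contra hne
    have hpos : 0 < y i := lt_of_le_of_ne ((hi i).2 le_rfl) (Ne.symm hne)
    have h1 := hop {z | 0 < z i} (isOpen_lt continuous_const (continuous_apply i)) hpos
    rw [Metric.eventually_nhds_iff] at h1
    obtain ⟨δ, hδ, h1⟩ := h1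
    have h2 : dist (Function.update c i (c i - δ / 2)) c < δ := by
      rw [dist_pi_lt_iff hδ]
      intro j
      by_cases hj : j = i
      · subst hj
        simp only [Function.update_self, Real.dist_eq]
        rw [abs_lt]; constructor <;> linarith
      · simp [Function.update_of_ne hj, hδ]
    obtain ⟨z, hz, hxz⟩ := h1 h2
    have h3 := ((hu _ _ _ hxz).2 i).1 (le_of_lt hz)
    simp only [Function.update_self] at h3
    linarith
  have h1 := hop {z | ‖z‖ < 1} (isOpen_lt continuous_norm continuous_const) (by simp [hy0])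
  rw [Metric.eventually_nhds_iff] at h1
  obtain ⟨η, hη, h1⟩ := h1
  refine ⟨η, hη, fun x hx => ?_⟩
  obtain ⟨z, hz, hxz⟩ := h1 (by rwa [dist_eq_norm])
  rw [hxz, lv_coe, if_pos ⟨rfl, hz⟩, ell_eq (hu _ _ _ hxz).2]

theorem perm_eq_one {n : ℕ} (τ : Equiv.Perm (Fin n)) (h : ∀ i, τ i ≤ i) : τ = 1 := by
  have key : ∀ m : ℕ, ∀ i : Fin n, (i : ℕ) = m → τ i = i := by
    intro m
    induction m using Nat.strong_induction_on with
    | _ m ih =>
      intro i him
      rcases (h i).lt_or_eq with h1 | h1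
      · exfalso
        have h2 := ih (τ i : ℕ) (by rw [← him]; exact h1) (τ i) rfl
        exact h1.ne (τ.injective h2)
      · exact h1
  ext i
  rw [key _ i rfl]; rfl

theorem kap_ne (hu : ∀ x b y, u x = ((b, y) : Fin k × E n) → b = a ∧ ∀ i, 0 ≤ y i ↔ c i ≤ x i)
    {N : ℕ} (hN : 0 < N) (p : Fin n → ℤ) (σ : Equiv.Perm (Fin n))
    (h : kap a (fun i => u (fun j => (vx p σ i j : ℝ) / N)) ≠ 0) :
    (∀ j, p j = ⌈c j * N⌉ - 1) ∧ σ = 1 := by
  have hN' : (0 : ℝ) < N := by exact_mod_cast hN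
  set X : Fin (n + 1) → E n := fun i j => (vx p σ i j : ℝ) / N with hX
  have hrow : ∀ i, lv a (u (X i)) = Pi.single (L c (X i)) 1 := by
    intro i
    rcases lv_or hu (X i) with h1 | h1
    · exfalso
      apply h
      unfold kap
      apply Matrix.det_eq_zero_of_row_eq_zero i
      intro j
      simp only [Matrix.of_apply]
      exact congrFun h1 j
    · exact h1
  have hmono : Monotone fun i => L c (X i) := by
    intro i i' hii
    apply L_mono
    intro j
    simp only [hX, vx]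
    apply div_le_div_of_nonneg_right _ hN'.le
    push_cast
    gcongr
    split_ifs with h1 h2
    · exact le_rfl
    · exact absurd (h1.trans_le hii) h2
    · exact zero_le_one
    · exact le_rfl
  have hinj : Function.Injective fun i => L c (X i) := by
    intro i i' hii
    by_contra hne
    apply h
    unfold kap
    apply Matrix.det_zero_of_row_eq hne
    funext j
    simp only [Matrix.of_apply]
    have h1 := congrFun (hrow i) j
    have h2 := congrFun (hrow i') j
    simp only at hii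
    rw [hii] at h1
    exact h1.trans h2.symm
  have hsm : StrictMono fun i => L c (X i) := hmono.strictMono_of_injective hinj
  have hid : ∀ i, L c (X i) = i := by
    intro i
    exact le_antisymm hsm.apply_le hsm.le_apply
  have h0 : ∀ j, (p j : ℝ) / N < c j := by
    intro j
    have := L_zero (hid 0) j
    simpa [hX, vx] using this
  have h1 : ∀ j : Fin n, c j ≤ (vx p σ j.succ j : ℝ) / N := fun j => L_succ (hid j.succ)
  have h2 : ∀ j : Fin n, (σ.symm j).castSucc < j.succ := by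
    intro j
    by_contra hcon
    have := h1 j
    simp only [vx, hcon, if_false, add_zero] at this
    exact absurd (h0 j) (not_lt.mpr this)
  refine ⟨fun j => ?_, ?_⟩
  · have h3 := h1 j
    simp only [vx, h2 j, if_true] at h3
    have h4 : ⌈c j * N⌉ = p j + 1 := by
      rw [Int.ceil_eq_iff]
      constructor
      · push_cast
        have := (div_lt_iff₀ hN').1 (h0 j)
        linarith
      · push_cast at h3 ⊢
        exact (le_div_iff₀ hN').1 h3
    rw [h4]; ring
  · have h3 : σ.symm = 1 := by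
      apply perm_eq_one
      intro i
      have := h2 i
      rw [Fin.lt_def] at this
      rw [Fin.le_def]
      simp only [Fin.val_castSucc, Fin.val_succ] at this
      omega
    have h4 : σ = σ.symm.symm := (Equiv.symm_symm σ).symm
    rw [h4, h3]; rfl

theorem kap_one {η : ℝ} (hnear : ∀ x, ‖x - c‖ < η → lv a (u x) = Pi.single (L c x) 1)
    {N : ℕ} (hN : 0 < N) (hNη : 1 / (N : ℝ) < η) :
    kap a (fun i => u (fun j => (vx (fun j => ⌈c j * N⌉ - 1) 1 i j : ℝ) / N)) = 1 := by
  have hN' : (0 : ℝ) < N := by exact_mod_cast hN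
  have h1 : ∀ j : Fin n, ((⌈c j * N⌉ : ℝ) - 1) / N < c j := by
    intro j
    rw [div_lt_iff₀ hN']
    have := Int.ceil_lt_add_one (c j * N)
    linarith
  have h2 : ∀ j : Fin n, c j ≤ ((⌈c j * N⌉ : ℝ)) / N := by
    intro j
    rw [le_div_iff₀ hN']
    exact Int.le_ceil _
  have hrow : ∀ i, lv a (u (fun j => (vx (fun j => ⌈c j * N⌉ - 1) 1 i j : ℝ) / N)) =
      Pi.single i 1 := by
    intro i
    rw [hnear]
    · congr 1
      apply L_of
      intro j
      simp only [vx, Equiv.Perm.one_symm, Equiv.Perm.one_apply]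
      split_ifs with h
      · simp only [h, iff_true]
        push_cast
        simpa using h2 j
      · simp only [h, iff_false, not_le]
        push_cast
        simpa using h1 j
    · apply lt_of_le_of_lt _ hNη
      rw [pi_norm_le_iff_of_nonneg (by positivity)]
      intro j
      simp only [Pi.sub_apply, Real.norm_eq_abs, vx, Equiv.Perm.one_symm, Equiv.Perm.one_apply]
      have h3 : ((⌈c j * N⌉ : ℝ) - 1) / N = (⌈c j * N⌉ : ℝ) / N - 1 / N := by ring
      have h4 := h1 j
      have h5 := h2 j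
      split_ifs with h
      · push_cast
        rw [abs_le]
        constructor <;> simp only [sub_add_cancel] <;> linarith
      · push_cast
        rw [abs_le]
        constructor <;> simp only [add_zero] <;> linarith
  unfold kap
  have : (Matrix.of fun i => lv a (u (fun j => (vx (fun j => ⌈c j * N⌉ - 1) 1 i j : ℝ) / N))) =
      (1 : Matrix (Fin (n + 1)) (Fin (n + 1)) ℤ) := by
    ext i j
    rw [Matrix.of_apply, hrow i, Matrix.one_apply, Pi.single_apply]
    simp [eq_comm]
  rw [this, Matrix.det_one]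

theorem SN_one (hc : Continuous u)
    (hu : ∀ x b y, u x = ((b, y) : Fin k × E n) → b = a ∧ ∀ i, 0 ≤ y i ↔ c i ≤ x i)
    (h : u c ≠ ∞) : ∀ᶠ N : ℕ in Filter.atTop, SN a u N = 1 := by
  obtain ⟨η, hη, hnear⟩ := near hc hu h
  filter_upwards [Filter.eventually_gt_atTop 0, Filter.eventually_gt_atTop ⌈1 / η⌉₊] with N hN hN2
  have hN' : (0 : ℝ) < N := by exact_mod_cast hN
  have hNη : 1 / (N : ℝ) < η := by
    rw [div_lt_iff₀ hN']
    have h1 : 1 / η < N := (Nat.le_ceil _).trans_lt (by exact_mod_cast hN2)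
    rw [div_lt_iff₀ hη] at h1
    linarith
  unfold SN
  rw [finsum_eq_single _ (fun j => ⌈c j * N⌉ - 1)]
  · rw [Finset.sum_eq_single (1 : Equiv.Perm (Fin n))]
    · rw [kap_one hnear hN hNη]; simp
    · intro σ _ hσ
      by_contra hne
      exact hσ (kap_ne hu hN _ σ (right_ne_zero_of_mul hne)).2
    · intro h; exact absurd (Finset.mem_univ _) h
  · intro p hp
    apply Finset.sum_eq_zero
    intro σ _
    by_contra hne
    exact hp (funext (kap_ne hu hN p σ (right_ne_zero_of_mul hne)).1)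

end

end XDNRM

open XDNRM in
theorem I_DNRM (hDEG : StDEG) : StDNRM := by
  intro k n a u c hCS hu h
  obtain ⟨N, h1, h2⟩ := (((hDEG k n a).1 u hCS).and (SN_one hCS.1 hu h)).exists
  rw [← h1, h2]

end Pool.Agent.Work.MP_e9e200_al.O3

end

section

/-!
# Project O3, item HOMD: the degree is a homomorphism
-/

set_option autoImplicit false

namespace Pool.Agent.Work.MP_e9e200_al.O3

open Set Metric Topology OnePoint

namespace XHOMD

/-- the unit vector of the first coordinate -/
def e0 {n : ℕ} : E (n + 1) := Pi.single 0 1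

lemma norm_e0 {n : ℕ} : ‖(e0 : E (n + 1))‖ = 1 := by
  unfold e0
  rw [Pi.norm_single]
  norm_num

lemma cs_of_lo {n : ℕ} {Z : Type} [TopologicalSpace Z] {z : Z} {f : E n → Z} (h : Lo z f) :
    CS z f := ⟨h.1, 1, h.2⟩

/-- pushing a map of the unit cube into a smaller cube -/
lemma push {n : ℕ} {Z : Type} [TopologicalSpace Z] {z : Z} {f : E (n + 1) → Z} (hHO : StHO)
    (h : Lo z f) (s : ℝ) (hs : |s| ≤ 1) :
    Ho z f (fun x => f ((2 : ℝ) • x + s • e0)) := by
  have h5 := (hHO (n + 1) Z z).2.2.2.2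
    (fun p => f ((1 + p.1) • p.2 + (p.1 * s) • e0)) 2 ?_ ?_
  · have e1 : (fun x : E (n + 1) => f ((1 + (0:ℝ)) • x + ((0:ℝ) * s) • e0)) = f := by
      funext x
      rw [add_zero, one_smul, zero_mul, zero_smul, add_zero]
    have e2 : (fun x : E (n + 1) => f ((1 + (1:ℝ)) • x + ((1:ℝ) * s) • e0)) =
        (fun x => f ((2 : ℝ) • x + s • e0)) := by
      funext x
      rw [one_mul]
      norm_num
    rw [← e2]
    nth_rewrite 1 [← e1]
    exact h5
  · apply Continuous.continuousOn
    apply h.1.comp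
    fun_prop
  · intro t ht x hx
    apply h.2
    have h1 : ‖(1 + t) • x‖ = (1 + t) * ‖x‖ := by
      rw [norm_smul, Real.norm_eq_abs, abs_of_nonneg (by linarith [ht.1])]
    have h2 : ‖(t * s) • (e0 : E (n + 1))‖ ≤ 1 := by
      rw [norm_smul, norm_e0, mul_one, Real.norm_eq_abs, abs_mul, abs_of_nonneg ht.1]
      calc t * |s| ≤ 1 * 1 := mul_le_mul ht.2 hs (abs_nonneg _) (by norm_num)
        _ = 1 := one_mul 1
    have h3 : ‖(1 + t) • x‖ ≤ ‖(1 + t) • x + (t * s) • e0‖ + ‖(t * s) • (e0 : E (n + 1))‖ := by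
      have := norm_sub_le ((1 + t) • x + (t * s) • (e0 : E (n + 1))) ((t * s) • e0)
      rwa [add_sub_cancel_right] at this
    have h4 : 2 ≤ (1 + t) * ‖x‖ := by nlinarith [ht.1]
    rw [h1] at h3
    linarith

lemma coord {n : ℕ} (x : E (n + 1)) (s : ℝ) : ((2 : ℝ) • x + s • (e0 : E (n + 1))) 0 = 2 * x 0 + s := by
  simp [e0]

lemma zero_left {n : ℕ} {Z : Type} [TopologicalSpace Z] {z : Z} {f : E (n + 1) → Z}
    (h : Lo z f) (x : E (n + 1)) (hx : 0 ≤ x 0) : f ((2 : ℝ) • x + (1 : ℝ) • e0) = z := by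
  apply h.2
  refine le_trans ?_ (norm_le_pi_norm _ 0)
  rw [coord, Real.norm_eq_abs]
  exact le_trans (by linarith) (le_abs_self _)

lemma zero_right {n : ℕ} {Z : Type} [TopologicalSpace Z] {z : Z} {f : E (n + 1) → Z}
    (h : Lo z f) (x : E (n + 1)) (hx : x 0 ≤ 0) : f ((2 : ℝ) • x + (-1 : ℝ) • e0) = z := by
  apply h.2
  refine le_trans ?_ (norm_le_pi_norm _ 0)
  rw [coord, Real.norm_eq_abs]
  exact le_trans (by linarith) (neg_le_abs _)

open scoped Classical in
lemma mult (hCL1 : StCL1) (hCL3 : StCL3) (hDEG : StDEG) (hDADD : StDADD) (hHO : StHO)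
    (k n : ℕ) (a : Fin k) (f g : E (n + 1) → W k (n + 1)) (hf : Lo ∞ f) (hg : Lo ∞ g) :
    ∃ u, CS ∞ u ∧ cl ∞ u = cl ∞ g * cl ∞ f ∧ deg a u = deg a f + deg a g := by
  set f1 : E (n + 1) → W k (n + 1) := fun x => f ((2 : ℝ) • x + (1 : ℝ) • e0) with hf1
  set g1 : E (n + 1) → W k (n + 1) := fun x => g ((2 : ℝ) • x + (-1 : ℝ) • e0) with hg1
  have Hf : Ho ∞ f f1 := push hHO hf 1 (by norm_num)
  have Hg : Ho ∞ g g1 := push hHO hg (-1) (by norm_num)
  have Cf := (hHO (n + 1) (W k (n + 1)) ∞).2.2.2.1 _ _ Hf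
  have Cg := (hHO (n + 1) (W k (n + 1)) ∞).2.2.2.1 _ _ Hg
  have zf : ∀ x : E (n + 1), 0 ≤ x 0 → f1 x = ∞ := fun x hx => zero_left hf x hx
  have zg : ∀ x : E (n + 1), x 0 ≤ 0 → g1 x = ∞ := fun x hx => zero_right hg x hx
  set u : E (n + 1) → W k (n + 1) := fun x => if x 0 ≤ 0 then f1 x else g1 x with hu
  have u1 : ∀ x : E (n + 1), x 0 ≤ 0 → u x = f1 x := fun x hx => by
    simp only [hu, if_pos hx]
  have u2 : ∀ x : E (n + 1), 0 ≤ x 0 → u x = g1 x := by
    intro x hx
    rcases hx.eq_or_lt with h | h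
    · rw [u1 x h.symm.le, zf x hx, zg x h.symm.le]
    · simp only [hu, if_neg (not_le.mpr h)]
  obtain ⟨Cu, Du⟩ := hDADD k (n + 1) a f1 g1 u Cf.2 Cg.2
    (fun x => (le_total 0 (x 0)).imp (zf x) (zg x))
    (fun x => (le_total (x 0) 0).imp (u1 x) (zf x))
    (fun x => (le_total 0 (x 0)).imp (u2 x) (zg x))
    (fun x h1 h2 => by
      rcases le_total (x 0) 0 with h | h
      · rw [u1 x h, h1]
      · rw [u2 x h, h2])
  have H3 := hCL3 n (W k (n + 1)) ∞ u f1 g1 0 0 Cu
    (fun x hx => by rw [u1 x hx.le, zf x hx.symm.le])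
    (fun x hx => ⟨(u1 x hx).symm, zg x hx⟩)
    (fun x hx => ⟨(u2 x hx).symm, zf x hx⟩)
  refine ⟨u, Cu, ?_, ?_⟩
  · rw [H3.2.2, (hCL1 _ _ ∞ f f1 Cf.1 Cf.2).mpr Hf, (hCL1 _ _ ∞ g g1 Cg.1 Cg.2).mpr Hg]
  · rw [Du, (hDEG k (n + 1) a).2 f f1 Hf, (hDEG k (n + 1) a).2 g g1 Hg]

end XHOMD

open XHOMD in
theorem I_HOMD (hCL1 : StCL1) (hCL2 : StCL2) (hCL3 : StCL3) (hDEG : StDEG) (hDADD : StDADD)
    (hHO : StHO) (hGLUE : StGLUE) : StHOMD := by
  intro k n a
  choose F hF1 hF2 using (hCL2 n (W k (n + 1)) ∞).1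
  have key : ∀ f : E (n + 1) → W k (n + 1), CS ∞ f → deg a (F (cl ∞ f)) = deg a f := by
    intro f hf
    apply (hDEG k (n + 1) a).2
    rw [← hCL1 _ _ ∞ _ _ (cs_of_lo (hF1 _)) hf, hF2]
  refine ⟨MonoidHom.mk' (fun α => Multiplicative.ofAdd (deg a (F α))) ?_, ?_⟩
  · intro α β
    obtain ⟨u, hu1, hu2, hu3⟩ := mult hCL1 hCL3 hDEG hDADD hHO k n a (F β) (F α) (hF1 β) (hF1 α)
    rw [hF2, hF2] at hu2
    rw [← hu2, key u hu1, hu3, ← ofAdd_add, add_comm]
  · intro f hf
    show Multiplicative.ofAdd (deg a (F (cl ∞ f))) = _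
    rw [key f hf]

end Pool.Agent.Work.MP_e9e200_al.O3

end

section

/-!
# Item LINZ: linearization near the preimages of a regular value
-/

set_option autoImplicit false

namespace Pool.Agent.Work.MP_e9e200_al.O3

open Set Metric Topology OnePoint

namespace XLINZ

/-- the local function is continuous -/
theorem cont_u {k n : ℕ} {f : E n → W k n} (hf : Continuous f) {b : Fin k} {u : E n → E n}
    {U : Set (E n)} (hU : ∀ x' ∈ U, f x' = ((b, u x') : Fin k × E n)) : ContinuousOn u U := by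
  have h1 : ContinuousOn (fun x => (((b, u x) : Fin k × E n) : W k n)) U :=
    (hf.continuousOn (s := U)).congr (fun x hx => (hU x hx).symm)
  have h2 : ContinuousOn (fun x => ((b, u x) : Fin k × E n)) U := by
    have h3 := (OnePoint.isOpenEmbedding_coe (X := Fin k × E n)).isInducing
    exact (h3.continuousOn_iff (f := fun x => ((b, u x) : Fin k × E n)) (s := U)).2 h1
  exact continuous_snd.comp_continuousOn h2

/-- the set of preimages is finite -/
theorem fin_pre {k n : ℕ} (f : E n → W k n) (y₀ : E n) (hf : CS ∞ f)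
    (h : ∀ x b, f x = ((b, y₀) : Fin k × E n) → ∃ (u : E n → E n)
    (U : Set (E n)), IsOpen U ∧ x ∈ U ∧ (∀ x' ∈ U, f x' = ((b, u x') : Fin k × E n)) ∧
    ∃ L : E n ≃L[ℝ] E n, HasFDerivAt u (L : E n →L[ℝ] E n) x) :
    {x | ∃ b : Fin k, f x = ((b, y₀) : Fin k × E n)}.Finite := by
  obtain ⟨hc, r, hr⟩ := hf
  have hcl : IsClosed {x | ∃ b : Fin k, f x = ((b, y₀) : Fin k × E n)} := by
    have h1 : {x | ∃ b : Fin k, f x = ((b, y₀) : Fin k × E n)} =
        ⋃ b : Fin k, f ⁻¹' {(((b, y₀) : Fin k × E n) : W k n)} := by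
      ext x
      simp
    rw [h1]
    exact isClosed_iUnion_of_finite (fun b => isClosed_singleton.preimage hc)
  have hcp : IsCompact {x | ∃ b : Fin k, f x = ((b, y₀) : Fin k × E n)} := by
    refine Metric.isCompact_of_isClosed_isBounded hcl ?_
    refine (Metric.isBounded_closedBall (x := (0 : E n)) (r := r)).subset ?_
    rintro x ⟨b, hb⟩
    rw [mem_closedBall_zero_iff]
    by_contra hx
    have := hr x (le_of_lt (not_le.1 hx))
    rw [this] at hb
    exact OnePoint.infty_ne_coe _ hb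
  refine hcp.finite ?_
  rw [isDiscrete_iff_discreteTopology]
  rw [discreteTopology_subtype_iff]
  rintro x ⟨b, hb⟩
  obtain ⟨u, U, hUo, hxU, hU, L, hL⟩ := h x b hb
  have h1 : ∀ᶠ z in 𝓝[≠] x, u z ≠ y₀ := by
    exact hL.eventually_ne ⟨_, L.antilipschitz⟩
  have h2 : ∀ᶠ z in 𝓝[≠] x, z ∈ U := (hUo.eventually_mem hxU).filter_mono nhdsWithin_le_nhds
  rw [← disjoint_iff, Filter.disjoint_principal_right]
  filter_upwards [h1, h2] with z hz1 hz2 hz3
  obtain ⟨b', hb'⟩ := hz3
  rw [hU z hz2] at hb'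
  have := OnePoint.coe_injective hb'
  exact hz1 (Prod.ext_iff.1 this).2

/-- the cut-off function -/
noncomputable def lam {n : ℕ} (ρ : ℝ) (c : E n) (x : E n) : ℝ := max 0 (min 1 (2 - ‖x - c‖ / ρ))

theorem lam_cont {n : ℕ} (ρ : ℝ) (c : E n) : Continuous (lam ρ c) := by
  unfold lam
  fun_prop

theorem lam_nonneg {n : ℕ} (ρ : ℝ) (c : E n) (x : E n) : 0 ≤ lam ρ c x := le_max_left _ _

theorem lam_le_one {n : ℕ} (ρ : ℝ) (c : E n) (x : E n) : lam ρ c x ≤ 1 :=
  max_le zero_le_one (min_le_left _ _)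

theorem lam_one {n : ℕ} {ρ : ℝ} (hρ : 0 < ρ) (c : E n) (x : E n) (h : ‖x - c‖ ≤ ρ) :
    lam ρ c x = 1 := by
  unfold lam
  have : ‖x - c‖ / ρ ≤ 1 := (div_le_one hρ).2 h
  rw [min_eq_left (by linarith)]
  norm_num

theorem lam_zero {n : ℕ} {ρ : ℝ} (hρ : 0 < ρ) (c : E n) (x : E n) (h : ‖x - c‖ = 2 * ρ) :
    lam ρ c x = 0 := by
  unfold lam
  have : ‖x - c‖ / ρ = 2 := by
    rw [h]
    field_simp
  rw [this]
  norm_num

/-- clamping to the unit interval -/
noncomputable def cla (t : ℝ) : ℝ := max 0 (min 1 t)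

theorem cla_cont : Continuous cla := by
  unfold cla
  fun_prop

theorem cla_zero : cla 0 = 0 := by
  unfold cla
  norm_num

theorem cla_one : cla 1 = 1 := by
  unfold cla
  norm_num

/-- the value in the ball number `i` -/
noncomputable def val {n : ℕ} (ρ : ℝ) (y₀ c : E n) (u : E n → E n) (L : E n ≃L[ℝ] E n)
    (p : ℝ × E n) : E n :=
  u p.2 + (cla p.1 * lam ρ c p.2) • (y₀ + L (p.2 - c) - u p.2)

open scoped Classical in
/-- the homotopy -/
noncomputable def hom {k n r : ℕ} (f : E n → W k n) (ρ : ℝ) (y₀ : E n) (a : Fin r → Fin k)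
    (c : Fin r → E n) (u : Fin r → E n → E n) (L : Fin r → (E n ≃L[ℝ] E n)) (p : ℝ × E n) :
    W k n :=
  if h : ∃ i, ‖p.2 - c i‖ ≤ 2 * ρ then
    ((a h.choose, val ρ y₀ (c h.choose) (u h.choose) (L h.choose) p) : Fin k × E n)
  else f p.2

section

variable {k n r : ℕ} {f : E n → W k n} {ρ : ℝ} {y₀ : E n} {a : Fin r → Fin k}
    {c : Fin r → E n} {u : Fin r → E n → E n} {L : Fin r → (E n ≃L[ℝ] E n)}

theorem uniq (hd : ∀ i j, i ≠ j → 4 * ρ < ‖c i - c j‖) {x : E n} {i j : Fin r}
    (hi : ‖x - c i‖ ≤ 2 * ρ) (hj : ‖x - c j‖ ≤ 2 * ρ) : i = j := by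
  by_contra hij
  have h1 := hd i j hij
  have h2 : ‖c i - c j‖ ≤ ‖x - c j‖ + ‖x - c i‖ := by
    have : c i - c j = (x - c j) - (x - c i) := by abel
    rw [this]
    exact norm_sub_le _ _
  linarith

theorem hom_in (hd : ∀ i j, i ≠ j → 4 * ρ < ‖c i - c j‖) {p : ℝ × E n} {i : Fin r}
    (hi : ‖p.2 - c i‖ ≤ 2 * ρ) :
    hom f ρ y₀ a c u L p = ((a i, val ρ y₀ (c i) (u i) (L i) p) : Fin k × E n) := by
  have h : ∃ i, ‖p.2 - c i‖ ≤ 2 * ρ := ⟨i, hi⟩
  unfold hom
  rw [dif_pos h]
  have : h.choose = i := uniq hd h.choose_spec hi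
  rw [this]

theorem hom_out (hρ : 0 < ρ) (hd : ∀ i j, i ≠ j → 4 * ρ < ‖c i - c j‖)
    (hu : ∀ i x, ‖x - c i‖ ≤ 2 * ρ → f x = ((a i, u i x) : Fin k × E n)) {p : ℝ × E n}
    (hp : ∀ i, 2 * ρ ≤ ‖p.2 - c i‖) : hom f ρ y₀ a c u L p = f p.2 := by
  by_cases h : ∃ i, ‖p.2 - c i‖ ≤ 2 * ρ
  · obtain ⟨i, hi⟩ := h
    rw [hom_in hd hi, hu i p.2 hi]
    unfold val
    rw [lam_zero hρ _ _ (le_antisymm hi (hp i))]
    simp
  · unfold hom
    rw [dif_neg h]

theorem hom_cont (hρ : 0 < ρ) (hf : Continuous f) (hd : ∀ i j, i ≠ j → 4 * ρ < ‖c i - c j‖)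
    (hu : ∀ i x, ‖x - c i‖ ≤ 2 * ρ → f x = ((a i, u i x) : Fin k × E n)) :
    Continuous (hom f ρ y₀ a c u L) := by
  let S : Option (Fin r) → Set (ℝ × E n) := fun o => match o with
    | Option.none => {p | ∀ i, 2 * ρ ≤ ‖p.2 - c i‖}
    | Option.some i => {p | ‖p.2 - c i‖ ≤ 2 * ρ}
  have h1 : LocallyFinite S := locallyFinite_of_finite S
  refine h1.continuous ?_ ?_ ?_
  · rw [eq_univ_iff_forall]
    intro p
    rw [mem_iUnion]
    by_cases h : ∃ i, ‖p.2 - c i‖ ≤ 2 * ρ
    · obtain ⟨i, hi⟩ := h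
      exact ⟨Option.some i, hi⟩
    · refine ⟨Option.none, fun i => ?_⟩
      push Not at h
      exact (h i).le
  · rintro (_ | i)
    · have : S Option.none = ⋂ i, {p : ℝ × E n | 2 * ρ ≤ ‖p.2 - c i‖} := by
        ext p
        simp [S]
      rw [this]
      exact isClosed_iInter fun i => isClosed_le continuous_const (by fun_prop)
    · exact isClosed_le (by fun_prop) continuous_const
  · rintro (_ | i)
    · refine (hf.comp continuous_snd).continuousOn.congr ?_
      intro p hp
      exact hom_out hρ hd hu hp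
    · have h2 : ContinuousOn (u i) {x | ‖x - c i‖ ≤ 2 * ρ} :=
        cont_u hf (fun x hx => hu i x hx)
      have h3 : ContinuousOn (fun p : ℝ × E n => u i p.2) (S (Option.some i)) :=
        h2.comp continuous_snd.continuousOn (fun p hp => hp)
      have h4 : ContinuousOn (val ρ y₀ (c i) (u i) (L i)) (S (Option.some i)) := by
        unfold val
        have h5 : ContinuousOn (fun p : ℝ × E n => cla p.1 * lam ρ (c i) p.2)
            (S (Option.some i)) :=
          ((cla_cont.comp continuous_fst).mul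
            ((lam_cont ρ (c i)).comp continuous_snd)).continuousOn
        have h6 : ContinuousOn (fun p : ℝ × E n => y₀ + L i (p.2 - c i) - u i p.2)
            (S (Option.some i)) := by
          refine ContinuousOn.sub ?_ h3
          exact (continuous_const.add ((L i).continuous.comp (by fun_prop))).continuousOn
        exact h3.add (h5.smul h6)
      refine ContinuousOn.congr (f := fun p => (((a i, val ρ y₀ (c i) (u i) (L i) p) :
        Fin k × E n) : W k n)) ?_ (fun p hp => hom_in hd hp)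
      exact OnePoint.continuous_coe.comp_continuousOn (continuousOn_const.prodMk h4)

theorem hom_inf (hρ : 0 < ρ) (hd : ∀ i j, i ≠ j → 4 * ρ < ‖c i - c j‖)
    (hu : ∀ i x, ‖x - c i‖ ≤ 2 * ρ → f x = ((a i, u i x) : Fin k × E n)) {p : ℝ × E n}
    (hp : f p.2 = ∞) : hom f ρ y₀ a c u L p = ∞ := by
  rw [hom_out hρ hd hu, hp]
  intro i
  by_contra h
  push Not at h
  have := hu i p.2 h.le
  rw [hp] at this
  exact OnePoint.infty_ne_coe _ this

theorem hom_zero (hρ : 0 < ρ) (hd : ∀ i j, i ≠ j → 4 * ρ < ‖c i - c j‖)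
    (hu : ∀ i x, ‖x - c i‖ ≤ 2 * ρ → f x = ((a i, u i x) : Fin k × E n)) (x : E n) :
    hom f ρ y₀ a c u L (0, x) = f x := by
  by_cases h : ∃ i, ‖x - c i‖ ≤ 2 * ρ
  · obtain ⟨i, hi⟩ := h
    rw [hom_in hd (p := (0, x)) hi, hu i x hi]
    simp [val, cla_zero]
  · push Not at h
    exact hom_out hρ hd hu (p := (0, x)) (fun i => (h i).le)

end

/-- the choice of the radius -/
theorem ex_rho {k n r : ℕ} {f : E n → W k n} {y₀ : E n} {a : Fin r → Fin k}
    {c : Fin r → E n} {u : Fin r → E n → E n} {U : Fin r → Set (E n)}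
    {L : Fin r → (E n ≃L[ℝ] E n)} (hc : Function.Injective c)
    (hUo : ∀ i, IsOpen (U i)) (hcU : ∀ i, c i ∈ U i)
    (hU : ∀ i, ∀ x' ∈ U i, f x' = ((a i, u i x') : Fin k × E n)) (hy : ∀ i, u i (c i) = y₀)
    (hL : ∀ i, HasFDerivAt (u i) (L i : E n →L[ℝ] E n) (c i)) :
    ∃ ρ : ℝ, 0 < ρ ∧ (∀ i j, i ≠ j → 4 * ρ < ‖c i - c j‖) ∧
      (∀ i x, ‖x - c i‖ ≤ 2 * ρ → f x = ((a i, u i x) : Fin k × E n)) ∧
      (∀ i x, ‖x - c i‖ ≤ 2 * ρ → ‖u i x - y₀ - L i (x - c i)‖ ≤ 1 / 2 * ‖L i (x - c i)‖) := by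
  have h1 : ∀ᶠ ρ in 𝓝[>] (0 : ℝ), ∀ i j, i ≠ j → 4 * ρ < ‖c i - c j‖ := by
    refine Filter.eventually_all.2 fun i => Filter.eventually_all.2 fun j => ?_
    by_cases hij : i = j
    · exact Filter.Eventually.of_forall fun ρ h => absurd hij h
    · have h2 : 0 < ‖c i - c j‖ := norm_pos_iff.2 (sub_ne_zero.2 fun h => hij (hc h))
      have h3 : ∀ᶠ ρ in 𝓝[>] (0 : ℝ), ρ < ‖c i - c j‖ / 4 :=
        (eventually_lt_nhds (by positivity)).filter_mono nhdsWithin_le_nhds
      filter_upwards [h3] with ρ hρ _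
      linarith
  have h2 : ∀ᶠ ρ in 𝓝[>] (0 : ℝ), ∀ i x, ‖x - c i‖ ≤ 2 * ρ → (x ∈ U i ∧
      ‖u i x - y₀ - L i (x - c i)‖ ≤ 1 / 2 * ‖L i (x - c i)‖) := by
    refine Filter.eventually_all.2 fun i => ?_
    have h3 : ∀ᶠ x in 𝓝 (c i), x ∈ U i ∧
        ‖u i x - y₀ - L i (x - c i)‖ ≤ 1 / 2 * ‖L i (x - c i)‖ := by
      have hM : 0 < ‖((L i).symm : E n →L[ℝ] E n)‖ + 1 := by positivity
      have h4 := (hL i).isLittleO.def (c := 1 / 2 / (‖((L i).symm : E n →L[ℝ] E n)‖ + 1))
        (by positivity)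
      filter_upwards [(hUo i).eventually_mem (hcU i), h4] with x hx1 hx2
      refine ⟨hx1, ?_⟩
      rw [hy i] at hx2
      refine hx2.trans ?_
      have h5 : ‖x - c i‖ ≤ (‖((L i).symm : E n →L[ℝ] E n)‖ + 1) * ‖L i (x - c i)‖ := by
        have h6 := ((L i).symm : E n →L[ℝ] E n).le_opNorm (L i (x - c i))
        simp only [ContinuousLinearEquiv.coe_coe, ContinuousLinearEquiv.symm_apply_apply] at h6
        have h7 := norm_nonneg (L i (x - c i))
        linarith
      calc 1 / 2 / (‖((L i).symm : E n →L[ℝ] E n)‖ + 1) * ‖x - c i‖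
          ≤ 1 / 2 / (‖((L i).symm : E n →L[ℝ] E n)‖ + 1) *
            ((‖((L i).symm : E n →L[ℝ] E n)‖ + 1) * ‖L i (x - c i)‖) :=
          mul_le_mul_of_nonneg_left h5 (by positivity)
        _ = 1 / 2 * ‖L i (x - c i)‖ := by
          field_simp
    rw [Metric.eventually_nhds_iff] at h3
    obtain ⟨δ, hδ, h4⟩ := h3
    have h5 : ∀ᶠ ρ in 𝓝[>] (0 : ℝ), ρ < δ / 2 :=
      (eventually_lt_nhds (by positivity)).filter_mono nhdsWithin_le_nhds
    filter_upwards [h5] with ρ hρ x hx
    refine h4 ?_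
    rw [dist_eq_norm]
    linarith
  have h3 : ∀ᶠ ρ in 𝓝[>] (0 : ℝ), 0 < ρ := eventually_mem_nhdsWithin
  obtain ⟨ρ, ⟨h4, h5⟩, h6⟩ := ((h1.and h2).and h3).exists
  exact ⟨ρ, h6, h4, fun i x hx => hU i x (h5 i x hx).1, fun i x hx => (h5 i x hx).2⟩

end XLINZ

open XLINZ in
theorem I_LINZ : StLINZ := by
  intro k n f y₀ hf h
  have hfin := fin_pre f y₀ hf h
  obtain ⟨hc, r₀, hr⟩ := hf
  -- enumeration
  set S : Finset (E n) := hfin.toFinset with hS
  have hSm : ∀ x, x ∈ S ↔ ∃ b : Fin k, f x = ((b, y₀) : Fin k × E n) := by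
    intro x
    rw [hS, Set.Finite.mem_toFinset]
    rfl
  let e := S.equivFin
  let c : Fin S.card → E n := fun i => (e.symm i : E n)
  have hci : Function.Injective c := fun i j hij => e.symm.injective (Subtype.ext hij)
  have hcs : ∀ x, (∃ b : Fin k, f x = ((b, y₀) : Fin k × E n)) → ∃ i, x = c i := by
    intro x hx
    refine ⟨e ⟨x, (hSm x).2 hx⟩, ?_⟩
    simp [c]
  have hcm : ∀ i, ∃ b : Fin k, f (c i) = ((b, y₀) : Fin k × E n) := fun i =>
    (hSm _).1 (e.symm i).2
  choose a ha using hcm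
  choose u U hUo hcU hU L hL using fun i => h (c i) (a i) (ha i)
  have hy : ∀ i, u i (c i) = y₀ := by
    intro i
    have h1 := hU i (c i) (hcU i)
    rw [ha i] at h1
    exact (Prod.ext_iff.1 (OnePoint.coe_injective h1)).2.symm
  obtain ⟨ρ, hρ, hd, hu, hest⟩ := ex_rho (f := f) (y₀ := y₀) hci hUo hcU hU hy hL
  let H : ℝ × E n → W k n := hom f ρ y₀ a c u L
  have hHc : Continuous H := hom_cont hρ hc hd hu
  -- the values of the deformed map
  have hv1 : ∀ i x, ‖x - c i‖ ≤ ρ → H (1, x) = ((a i, y₀ + L i (x - c i)) : Fin k × E n) := by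
    intro i x hx
    have h1 : ‖((1 : ℝ), x).2 - c i‖ ≤ 2 * ρ := by
      show ‖x - c i‖ ≤ 2 * ρ
      linarith
    show hom f ρ y₀ a c u L (1, x) = _
    rw [hom_in hd h1]
    unfold val
    rw [cla_one, lam_one hρ _ _ hx]
    simp
  have hv2 : ∀ x b, H (1, x) = ((b, y₀) : Fin k × E n) → ∃ i, x = c i := by
    intro x b hx
    by_cases h1 : ∃ i, ‖x - c i‖ ≤ 2 * ρ
    · obtain ⟨i, hi⟩ := h1
      refine ⟨i, ?_⟩
      have h2 : H (1, x) = ((a i, val ρ y₀ (c i) (u i) (L i) (1, x)) : Fin k × E n) :=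
        hom_in hd (p := (1, x)) hi
      rw [hx] at h2
      have h3 : y₀ = val ρ y₀ (c i) (u i) (L i) (1, x) :=
        (Prod.ext_iff.1 (OnePoint.coe_injective h2)).2
      unfold val at h3
      rw [cla_one, one_mul] at h3
      have h4 : L i (x - c i) = -((1 - lam ρ (c i) x) • (u i x - y₀ - L i (x - c i))) := by
        have h5 : (lam ρ (c i) x) • (y₀ + L i (x - c i) - u i x) = y₀ - u i x := by
          rw [eq_sub_iff_add_eq, add_comm]
          exact h3.symm
        have h6 : y₀ + L i (x - c i) - u i x = -(u i x - y₀ - L i (x - c i)) := by abel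
        rw [h6, smul_neg] at h5
        rw [sub_smul, one_smul, neg_sub]
        have h7 : (lam ρ (c i) x) • (u i x - y₀ - L i (x - c i)) = u i x - y₀ := by
          rw [neg_eq_iff_eq_neg] at h5
          rw [h5]
          abel
        rw [h7]
        abel
      have h5 : ‖L i (x - c i)‖ ≤ 1 / 2 * ‖L i (x - c i)‖ := by
        calc ‖L i (x - c i)‖ = |1 - lam ρ (c i) x| * ‖u i x - y₀ - L i (x - c i)‖ := by
              conv_lhs => rw [h4]
              rw [norm_neg, norm_smul, Real.norm_eq_abs]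
          _ ≤ 1 * (1 / 2 * ‖L i (x - c i)‖) := by
              refine mul_le_mul ?_ (hest i x hi) (norm_nonneg _) zero_le_one
              rw [abs_le]
              constructor
              · have := lam_le_one ρ (c i) x
                linarith
              · have := lam_nonneg ρ (c i) x
                linarith
          _ = 1 / 2 * ‖L i (x - c i)‖ := one_mul _
      have h6 : ‖L i (x - c i)‖ = 0 := by
        have := norm_nonneg (L i (x - c i))
        linarith
      have h7 : L i (x - c i) = 0 := norm_eq_zero.1 h6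
      have h8 : x - c i = 0 := by
        have := congrArg (L i).symm h7
        simpa using this
      exact sub_eq_zero.1 h8
    · push Not at h1
      have h2 : H (1, x) = f x := hom_out hρ hd hu (p := (1, x)) (fun i => (h1 i).le)
      rw [h2] at hx
      exact hcs x ⟨b, hx⟩
  -- the choice of epsilon
  have he1 : ∀ᶠ ε in 𝓝[>] (0 : ℝ), ∀ i x, ‖L i (x - c i)‖ < ε → ‖x - c i‖ < ρ := by
    refine Filter.eventually_all.2 fun i => ?_
    have hM : 0 < ‖((L i).symm : E n →L[ℝ] E n)‖ + 1 := by positivity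
    have h5 : ∀ᶠ ε in 𝓝[>] (0 : ℝ), ε < ρ / (‖((L i).symm : E n →L[ℝ] E n)‖ + 1) :=
      (eventually_lt_nhds (by positivity)).filter_mono nhdsWithin_le_nhds
    filter_upwards [h5] with ε hε x hx
    have h6 := ((L i).symm : E n →L[ℝ] E n).le_opNorm (L i (x - c i))
    simp only [ContinuousLinearEquiv.coe_coe, ContinuousLinearEquiv.symm_apply_apply] at h6
    have h7 := norm_nonneg (L i (x - c i))
    have h8 : ‖L i (x - c i)‖ < ρ / (‖((L i).symm : E n →L[ℝ] E n)‖ + 1) := hx.trans hε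
    rw [lt_div_iff₀ hM] at h8
    linarith
  have he2 : ∀ᶠ ε in 𝓝[>] (0 : ℝ), ∀ (b : Fin k) (y : E n), ‖y - y₀‖ < ε →
      ∀ x, (∀ i, ρ ≤ ‖x - c i‖) → ‖x‖ ≤ r₀ → H (1, x) ≠ ((b, y) : Fin k × E n) := by
    refine Filter.eventually_all.2 fun b => ?_
    have hK : IsCompact {x : E n | (∀ i, ρ ≤ ‖x - c i‖) ∧ ‖x‖ ≤ r₀} := by
      refine Metric.isCompact_of_isClosed_isBounded ?_ ?_
      · refine IsClosed.inter ?_ (isClosed_le continuous_norm continuous_const)
        have : {x : E n | ∀ i, ρ ≤ ‖x - c i‖} = ⋂ i, {x : E n | ρ ≤ ‖x - c i‖} := by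
          ext x
          simp
        show IsClosed {x : E n | ∀ i, ρ ≤ ‖x - c i‖}
        rw [this]
        exact isClosed_iInter fun i => isClosed_le continuous_const (by fun_prop)
      · refine (Metric.isBounded_closedBall (x := (0 : E n)) (r := r₀)).subset ?_
        rintro x ⟨_, hx⟩
        rwa [mem_closedBall_zero_iff]
    have hH1 : Continuous fun x => H (1, x) := hHc.comp (by fun_prop)
    have hK2 : IsClosed ((fun x => H (1, x)) '' {x : E n | (∀ i, ρ ≤ ‖x - c i‖) ∧ ‖x‖ ≤ r₀}) :=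
      (hK.image hH1).isClosed
    have hg : Continuous fun y : E n => (((b, y) : Fin k × E n) : W k n) :=
      OnePoint.continuous_coe.comp (by fun_prop)
    have h5 : ∀ᶠ y in 𝓝 y₀, (((b, y) : Fin k × E n) : W k n) ∉
        (fun x => H (1, x)) '' {x : E n | (∀ i, ρ ≤ ‖x - c i‖) ∧ ‖x‖ ≤ r₀} := by
      refine hg.continuousAt.eventually (hK2.isOpen_compl.mem_nhds ?_)
      rintro ⟨x, ⟨hx1, hx2⟩, hx3⟩
      obtain ⟨i, hi⟩ := hv2 x b hx3
      have := hx1 i
      rw [hi, sub_self, norm_zero] at this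
      linarith
    rw [Metric.eventually_nhds_iff] at h5
    obtain ⟨δ, hδ, h6⟩ := h5
    have h7 : ∀ᶠ ε in 𝓝[>] (0 : ℝ), ε < δ :=
      (eventually_lt_nhds hδ).filter_mono nhdsWithin_le_nhds
    filter_upwards [h7] with ε hε y hy x hx1 hx2 hx3
    refine h6 (y := y) ?_ ⟨x, ⟨hx1, hx2⟩, hx3⟩
    rw [dist_eq_norm]
    linarith
  have he3 : ∀ᶠ ε in 𝓝[>] (0 : ℝ), 0 < ε := eventually_mem_nhdsWithin
  obtain ⟨ε, ⟨h4, h5⟩, h6⟩ := ((he1.and he2).and he3).exists
  have hsup : ∀ t x, r₀ ≤ ‖x‖ → H (t, x) = ∞ := fun t x hx =>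
    hom_inf hρ hd hu (p := (t, x)) (hr x hx)
  refine ⟨fun x => H (1, x), ε, S.card, a, c, L, ?_, h6, ?_, ?_, ?_⟩
  · exact ⟨H, hHc, ⟨r₀, hsup⟩, fun x => hom_zero hρ hd hu x, fun x => rfl⟩
  · intro i j hij x hx
    by_contra hj
    push Not at hj
    have h7 := h4 i x hx
    have h8 := h4 j x hj
    exact hij (uniq hd (by linarith) (by linarith))
  · intro i x hx
    exact hv1 i x (h4 i x hx).le
  · intro x b y hx hy'
    by_contra hcon
    push Not at hcon
    have hx0 : ‖x‖ ≤ r₀ := by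
      by_contra h7
      have h8 := hsup 1 x (not_le.1 h7).le
      have h9 : H (1, x) = ((b, y) : Fin k × E n) := hx
      rw [h8] at h9
      exact OnePoint.infty_ne_coe _ h9
    refine h5 b y hy' x (fun i => ?_) hx0 hx
    by_contra h7
    push Not at h7
    have h8 : H (1, x) = ((b, y) : Fin k × E n) := hx
    rw [hv1 i x h7.le] at h8
    have h9 : y₀ + L i (x - c i) = y := (Prod.ext_iff.1 (OnePoint.coe_injective h8)).2
    have h10 := hcon i
    have h11 : y - y₀ = L i (x - c i) := by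
      rw [← h9]
      abel
    rw [h11] at hy'
    linarith

end Pool.Agent.Work.MP_e9e200_al.O3

end

section

/-!
# Project O3, item OPC: continuity of a map to a wedge at a point
-/

set_option autoImplicit false

namespace Pool.Agent.Work.MP_e9e200_al.O3

open Set Metric Topology OnePoint Filter

namespace XOPC

theorem nhds_pt {k n : ℕ} (a : Fin k) (y : E n) :
    𝓝 (((a, y) : Fin k × E n) : W k n) =
      map (fun y' : E n => (((a, y') : Fin k × E n) : W k n)) (𝓝 y) := by
  rw [OnePoint.nhds_coe_eq, nhds_prod_eq, nhds_discrete, Filter.pure_prod, Filter.map_map]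
  rfl

end XOPC

theorem I_OPC : StOPC := by
  intro Z _ k n w z
  refine ⟨fun hz => ?_, fun a y hz => ?_⟩
  · unfold ContinuousAt
    rw [hz, OnePoint.hasBasis_nhds_infty.tendsto_right_iff]
    constructor
    · intro h R
      have hs : IsCompact ((univ : Set (Fin k)) ×ˢ closedBall (0 : E n) R) :=
        isCompact_univ.prod (isCompact_closedBall 0 R)
      filter_upwards [h _ ⟨hs.isClosed, hs⟩] with z' hz' a y hy
      rw [hy] at hz'
      rcases hz' with ⟨p, hp, hpe⟩ | hz'
      · have hpe' : p = (a, y) := OnePoint.coe_injective hpe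
        subst hpe'
        have hp' : ¬ ‖y‖ ≤ R := by
          intro h'
          exact hp ⟨mem_univ _, by simpa using h'⟩
        exact (not_le.mp hp').le
      · exact absurd hz' (OnePoint.coe_ne_infty _)
    · rintro h s ⟨_, hs⟩
      obtain ⟨R, hR⟩ := (hs.image continuous_snd).isBounded.exists_norm_le
      filter_upwards [h (R + 1)] with z' hz'
      rcases hw : w z' with _ | p
      · exact Or.inr rfl
      · refine Or.inl ⟨p, fun hps => ?_, rfl⟩
        have h1 := hz' p.1 p.2 hw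
        have h2 := hR p.2 ⟨p, hps, rfl⟩
        linarith
  · unfold ContinuousAt
    rw [hz, XOPC.nhds_pt, (Metric.nhds_basis_ball.map _).tendsto_right_iff]
    refine forall₂_congr fun ε _ => ?_
    refine eventually_congr (Eventually.of_forall fun z' => ?_)
    constructor
    · rintro ⟨y', hy', he⟩
      exact ⟨y', he.symm, by simpa [dist_eq_norm] using hy'⟩
    · rintro ⟨y', he, hy'⟩
      exact ⟨y', by simpa [dist_eq_norm] using hy', he.symm⟩

end Pool.Agent.Work.MP_e9e200_al.O3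

end

section

/-!
# Item PSP: a disjoint union of pieces is a product of pieces
-/

set_option autoImplicit false

namespace Pool.Agent.Work.MP_e9e200_al.O3

open Set Metric Topology OnePoint Filter

namespace XPSP

lemma norm_psi {n : ℕ} (x : E n) (hx : ‖x‖ < 1) : ‖psi x‖ = ‖x‖ / (1 - ‖x‖) := by
  have h : 0 < 1 - ‖x‖ := by linarith
  unfold psi
  rw [norm_smul, Real.norm_of_nonneg (inv_nonneg.mpr h.le)]
  field_simp

/-- the inclusions of the spheres are continuous -/
lemma continuous_io {k n : ℕ} (a : Fin k) : Continuous (io a : E n → W k n) := by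
  rw [continuous_iff_continuousAt]
  intro x
  rcases lt_or_ge ‖x‖ 1 with hx | hx
  · -- inside the ball
    have h1 : ∀ᶠ x' in 𝓝 x, ‖x'‖ < 1 :=
      (continuous_norm.tendsto x).eventually (gt_mem_nhds hx)
    have h2 : (fun x' : E n => (((a, psi x') : Fin k × E n) : W k n)) =ᶠ[𝓝 x] io a := by
      filter_upwards [h1] with x' hx'
      simp only [io, if_pos hx']
    refine ContinuousAt.congr ?_ h2
    have h3 : ContinuousAt (fun x' : E n => ((a, psi x') : Fin k × E n)) x := by
      refine ContinuousAt.prodMk continuousAt_const ?_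
      have h4 : ContinuousAt (fun x' : E n => (1 - ‖x'‖)⁻¹) x := by
        refine ContinuousAt.inv₀ ?_ ?_
        · exact (continuous_const.sub continuous_norm).continuousAt
        · have : 0 < 1 - ‖x‖ := by linarith
          exact this.ne'
      have h5 : ContinuousAt (fun x' : E n => x') x := continuousAt_id
      exact h4.smul h5
    exact (OnePoint.continuous_coe (X := Fin k × E n)).continuousAt.comp h3
  · -- outside
    have hval : (io a x : W k n) = ∞ := by
      simp only [io, if_neg (not_lt.mpr hx)]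
    unfold ContinuousAt
    rw [hval]
    refine (OnePoint.hasBasis_nhds_infty (X := Fin k × E n)).tendsto_right_iff.mpr ?_
    rintro s ⟨-, hs⟩
    obtain ⟨R, hR⟩ := (hs.image continuous_snd).isBounded.exists_norm_le
    have hR' : ∀ p ∈ s, ‖p.2‖ ≤ max R 0 := fun p hp =>
      le_trans (hR p.2 (mem_image_of_mem _ hp)) (le_max_left _ _)
    set R' : ℝ := max R 0 with hR'def
    have hR0 : 0 ≤ R' := le_max_right _ _
    have hlt : R' / (1 + R') < ‖x‖ := by
      refine lt_of_lt_of_le ?_ hx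
      rw [div_lt_one (by linarith)]
      linarith
    have h1 : ∀ᶠ x' in 𝓝 x, R' / (1 + R') < ‖x'‖ :=
      (continuous_norm.tendsto x).eventually (lt_mem_nhds hlt)
    filter_upwards [h1] with x' hx'
    by_cases h : ‖x'‖ < 1
    · left
      refine ⟨(a, psi x'), ?_, ?_⟩
      · intro hmem
        have h2 := hR' _ hmem
        simp only at h2
        rw [norm_psi x' h, div_le_iff₀ (by linarith)] at h2
        rw [div_lt_iff₀ (by linarith)] at hx'
        nlinarith
      · simp only [io, if_pos h]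
    · right
      simp only [io, if_neg h, mem_singleton_iff]

lemma pc_eq_io {k n : ℕ} (a : Fin k) (c : E n) (L : E n →L[ℝ] E n) (x : E n) :
    pc a c L x = io a (L (x - c)) := rfl

lemma io_eq_infty {k n : ℕ} (a : Fin k) {y : E n} (h : 1 ≤ ‖y‖) : (io a y : W k n) = ∞ := by
  simp only [io, if_neg (not_lt.mpr h)]

lemma io_eq_coe {k n : ℕ} (a : Fin k) {y : E n} (h : ‖y‖ < 1) :
    (io a y : W k n) = ((a, psi y) : Fin k × E n) := by
  simp only [io, if_pos h]

/-- every family of disjoint pieces has a union -/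
lemma exists_un {k n r : ℕ} (P : Pcs k n r) : ∃ g : E n → W k n, P.Un g := by
  classical
  refine ⟨fun x => if h : ∃ i, ‖P.L i (x - P.c i)‖ < 1 then
    (((P.a h.choose, psi (P.L h.choose (x - P.c h.choose))) : Fin k × E n) : W k n) else ∞,
    ?_, ?_⟩
  · intro i x hi
    have h : ∃ i, ‖P.L i (x - P.c i)‖ < 1 := ⟨i, hi⟩
    have h1 : h.choose = i := by
      by_contra hne
      have h2 := P.dis h.choose i hne x h.choose_spec
      linarith
    simp only [dif_pos h, h1]
  · intro x hx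
    have h : ¬ ∃ i, ‖P.L i (x - P.c i)‖ < 1 := by
      rintro ⟨i, hi⟩
      have := hx i
      linarith
    simp only [dif_neg h]

/-- the piece is zero outside a compact set -/
lemma norm_le_of_piece {n : ℕ} (c : E n) (L : E n ≃L[ℝ] E n) (x : E n)
    (h : ‖L (x - c)‖ < 1) : ‖x‖ ≤ ‖c‖ + ‖(L.symm : E n →L[ℝ] E n)‖ := by
  have h1 : x = c + L.symm (L (x - c)) := by
    rw [ContinuousLinearEquiv.symm_apply_apply]; abel
  have h2 : ‖L.symm (L (x - c))‖ ≤ ‖(L.symm : E n →L[ℝ] E n)‖ := by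
    have h3 := (L.symm : E n →L[ℝ] E n).le_opNorm (L (x - c))
    simp only [ContinuousLinearEquiv.coe_coe] at h3
    refine h3.trans ?_
    have h4 := norm_nonneg (L.symm : E n →L[ℝ] E n)
    nlinarith
  calc ‖x‖ = ‖c + L.symm (L (x - c))‖ := by rw [← h1]
    _ ≤ ‖c‖ + ‖L.symm (L (x - c))‖ := norm_add_le _ _
    _ ≤ _ := by linarith

/-- scaling of the linear maps -/
noncomputable def scl {n : ℕ} (s : ℝ) (hs : 1 ≤ s) (L : E n ≃L[ℝ] E n) : E n ≃L[ℝ] E n :=
  L.trans (ContinuousLinearEquiv.smulLeft (Units.mk0 s (by linarith)))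

lemma scl_apply {n : ℕ} (s : ℝ) (hs : 1 ≤ s) (L : E n ≃L[ℝ] E n) (x : E n) :
    scl s hs L x = s • L x := rfl

lemma norm_scl {n : ℕ} (s : ℝ) (hs : 1 ≤ s) (L : E n ≃L[ℝ] E n) (x : E n) :
    ‖scl s hs L x‖ = s * ‖L x‖ := by
  rw [scl_apply, norm_smul, Real.norm_of_nonneg (by linarith)]

lemma le_norm_scl {n : ℕ} (s : ℝ) (hs : 1 ≤ s) (L : E n ≃L[ℝ] E n) (x : E n) :
    ‖L x‖ ≤ ‖scl s hs L x‖ := by
  rw [norm_scl]
  have := norm_nonneg (L x)
  nlinarith

/-- the shrunk pieces -/
noncomputable def shr {k n r : ℕ} (P : Pcs k n r) (s : ℝ) (hs : 1 ≤ s) : Pcs k n r where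
  a := P.a
  c := P.c
  L := fun i => scl s hs (P.L i)
  dis := by
    intro i j hij x hx
    have h1 := P.dis i j hij x (lt_of_le_of_lt (le_norm_scl s hs _ _) hx)
    exact h1.trans (le_norm_scl s hs _ _)

/-- a subfamily -/
def sub {k n r r' : ℕ} (P : Pcs k n r) (e : Fin r' → Fin r) (he : Function.Injective e) :
    Pcs k n r' where
  a := fun i => P.a (e i)
  c := fun i => P.c (e i)
  L := fun i => P.L (e i)
  dis := fun i j hij x hx => P.dis (e i) (e j) (fun h => hij (he h)) x hx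

/-- shrinking is a homotopy -/
lemma ho_shr (hHGLUE : StHGLUE) {k n r : ℕ} (P : Pcs k n r) (s : ℝ) (hs : 1 ≤ s)
    (f g : E n → W k n) (hf : P.Un f) (hg : (shr P s hs).Un g) : Ho ∞ f g := by
  refine hHGLUE n (W k n) ∞ r
    (fun i p => io (P.a i) ((1 + min |p.1| 1 * (s - 1)) • P.L i (p.2 - P.c i))) ?_ ?_ ?_ f g
    ?_ ?_ ?_ ?_
  · intro i
    refine (continuous_io (P.a i)).comp ?_
    have h1 : Continuous fun p : ℝ × E n => P.L i (p.2 - P.c i) :=
      (P.L i).continuous.comp (by fun_prop)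
    fun_prop
  · refine ⟨1 + ∑ i, (‖P.c i‖ + ‖((P.L i).symm : E n →L[ℝ] E n)‖), ?_⟩
    intro i t x hx
    refine io_eq_infty _ ?_
    by_contra hlt
    push Not at hlt
    have h0 : ‖P.L i (x - P.c i)‖ < 1 := by
      refine lt_of_le_of_lt ?_ hlt
      simp only
      rw [norm_smul, Real.norm_of_nonneg]
      · have h2 : 0 ≤ min |t| 1 * (s - 1) :=
          mul_nonneg (le_min (abs_nonneg _) zero_le_one) (by linarith)
        have h3 := norm_nonneg (P.L i (x - P.c i))
        nlinarith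
      · have h2 : 0 ≤ min |t| 1 * (s - 1) :=
          mul_nonneg (le_min (abs_nonneg _) zero_le_one) (by linarith)
        linarith
    have h1 := norm_le_of_piece _ _ _ h0
    have h2 : ‖P.c i‖ + ‖((P.L i).symm : E n →L[ℝ] E n)‖ ≤
        ∑ i, (‖P.c i‖ + ‖((P.L i).symm : E n →L[ℝ] E n)‖) :=
      Finset.single_le_sum (f := fun i => ‖P.c i‖ + ‖((P.L i).symm : E n →L[ℝ] E n)‖)
        (fun j _ => add_nonneg (norm_nonneg _) (norm_nonneg _)) (Finset.mem_univ i)
    linarith
  · intro i j hij p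
    have key : ∀ l, 1 ≤ ‖P.L l (p.2 - P.c l)‖ →
        (io (P.a l) ((1 + min |p.1| 1 * (s - 1)) • P.L l (p.2 - P.c l)) : W k n) = ∞ := by
      intro l hl
      refine io_eq_infty _ ?_
      have h2 : 0 ≤ min |p.1| 1 * (s - 1) :=
        mul_nonneg (le_min (abs_nonneg _) zero_le_one) (by linarith)
      rw [norm_smul, Real.norm_of_nonneg (by linarith)]
      nlinarith
    rcases lt_or_ge ‖P.L i (p.2 - P.c i)‖ 1 with h | h
    · right
      exact key j (P.dis i j hij _ h)
    · left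
      exact key i h
  · intro x hx
    by_contra hne
    have h1 : ¬ ∀ i, 1 ≤ ‖P.L i (x - P.c i)‖ := fun h => hne (hf.2 x h)
    push Not at h1
    obtain ⟨i, hi⟩ := h1
    have h2 := hx i
    simp only [abs_zero, zero_le_one, min_eq_left, zero_mul, add_zero, one_smul] at h2
    rw [io_eq_coe _ hi] at h2
    exact OnePoint.coe_ne_infty _ h2
  · intro i x
    simp only [abs_zero, zero_le_one, min_eq_left, zero_mul, add_zero, one_smul]
    rcases lt_or_ge ‖P.L i (x - P.c i)‖ 1 with h | h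
    · right
      rw [hf.1 i x h, io_eq_coe _ h]
    · left
      exact io_eq_infty _ h
  · intro x hx
    by_contra hne
    have h1 : ¬ ∀ i, 1 ≤ ‖(shr P s hs).L i (x - (shr P s hs).c i)‖ := fun h => hne (hg.2 x h)
    push Not at h1
    obtain ⟨i, hi⟩ := h1
    have h2 := hx i
    simp only [abs_one, min_self, one_mul, add_sub_cancel] at h2
    have h3 : ‖s • P.L i (x - P.c i)‖ < 1 := hi
    rw [io_eq_coe _ h3] at h2
    exact OnePoint.coe_ne_infty _ h2
  · intro i x
    simp only [abs_one, min_self, one_mul, add_sub_cancel]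
    rcases lt_or_ge ‖s • P.L i (x - P.c i)‖ 1 with h | h
    · right
      have h3 : ‖(shr P s hs).L i (x - (shr P s hs).c i)‖ < 1 := h
      rw [hg.1 i x h3, io_eq_coe _ h]
      rfl
    · left
      exact io_eq_infty _ h

/-- the union is continuous with compact support -/
lemma cs_un (hHGLUE : StHGLUE) (hHO : StHO) {k n r : ℕ} (P : Pcs k n r) (f : E n → W k n)
    (hf : P.Un f) : CS ∞ f := by
  obtain ⟨g, hg⟩ := exists_un (shr P 1 le_rfl)
  exact ((hHO n (W k n) ∞).2.2.2.1 f g (ho_shr hHGLUE P 1 le_rfl f g hf hg)).1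

/-- the part of a union on one side of a hyperplane -/
lemma un_sub {k n r : ℕ} (P : Pcs k n r) (f f₁ : E n → W k n) (hf : P.Un f)
    (A : Set (E n)) (S : Finset (Fin r)) (hS : ∀ i ∈ S, ∀ x, ‖P.L i (x - P.c i)‖ < 1 → x ∈ A)
    (hS' : ∀ i, i ∉ S → ∀ x, ‖P.L i (x - P.c i)‖ < 1 → x ∉ A)
    (h₁ : ∀ x ∈ A, f₁ x = f x) (h₂ : ∀ x, x ∉ A → f₁ x = ∞) :
    (sub P (fun i => ((S.equivFin.symm i : S) : Fin r))
      (Subtype.val_injective.comp S.equivFin.symm.injective)).Un f₁ := by
  constructor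
  · intro i x hx
    have h1 : x ∈ A := hS _ (S.equivFin.symm i).2 x hx
    rw [h₁ x h1]
    exact hf.1 _ x hx
  · intro x hx
    by_cases h1 : x ∈ A
    · rw [h₁ x h1]
      refine hf.2 x ?_
      intro i
      by_contra hlt
      push Not at hlt
      by_cases hi : i ∈ S
      · have h2 := hx (S.equivFin ⟨i, hi⟩)
        simp only [sub, Equiv.symm_apply_apply] at h2
        linarith
      · exact hS' i hi x hlt h1
    · exact h₂ x h1

end XPSP

open XPSP in
theorem I_PSP (hCL1 : StCL1) (hCL3 : StCL3) (hHGLUE : StHGLUE) (hHO : StHO) : StPSP := by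
  intro k n r
  induction r using Nat.strong_induction_on with
  | _ r ih =>
    intro P g hg
    rcases r with _ | _ | r
    · -- no piece
      have hg' : g = fun _ => ∞ := by
        funext x
        exact hg.2 x (fun i => i.elim0)
      subst hg'
      have hcs : CS (∞ : W k (n + 1)) (fun _ : E (n + 1) => ∞) :=
        ⟨continuous_const, 0, fun _ _ => rfl⟩
      have h1 := (hCL3 n (W k (n + 1)) ∞ (fun _ => ∞) (fun _ => ∞) (fun _ => ∞) 0 0 hcs
        (fun _ _ => rfl) (fun _ _ => ⟨rfl, rfl⟩) (fun _ _ => ⟨rfl, rfl⟩)).2.2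
      have h2 : cl (∞ : W k (n + 1)) (fun _ : E (n + 1) => ∞) =
          (1 : HomotopyGroup (Fin (n + 1)) (W k (n + 1)) ∞) := by
        have h2 := congrArg (fun α => α * (cl (∞ : W k (n + 1)) (fun _ : E (n + 1) => ∞))⁻¹) h1
        simpa using h2.symm
      rw [h2]
      exact Subgroup.one_mem _
    · -- one piece
      refine Subgroup.subset_closure ⟨P.a 0, P.c 0, P.L 0, ?_⟩
      congr 1
      funext x
      rcases lt_or_ge ‖P.L 0 (x - P.c 0)‖ 1 with h | h
      · rw [hg.1 0 x h, pc_eq_io]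
        exact (io_eq_coe _ h).symm
      · rw [hg.2 x (fun i => by rw [show i = 0 from Fin.eq_zero i]; exact h), pc_eq_io]
        exact (io_eq_infty _ h).symm
    · -- at least two pieces
      have hc : P.c 0 ≠ P.c 1 := by
        intro h
        have h1 := P.dis 0 1 (by simp) (P.c 0) (by simp)
        rw [← h] at h1
        simp at h1
        linarith
      obtain ⟨j, hj⟩ : ∃ j, P.c 0 j ≠ P.c 1 j := by
        by_contra hall
        push Not at hall
        exact hc (funext hall)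
      obtain ⟨w, hw, hwn⟩ : ∃ w : ℝ, ((∃ i, P.c i j < w) ∧ ∃ i, w < P.c i j) ∧
          ∀ i, P.c i j ≠ w := by
        have hmain : ∀ p q : Fin (r + 2), P.c p j < P.c q j → ∃ w : ℝ,
            ((∃ i, P.c i j < w) ∧ ∃ i, w < P.c i j) ∧ ∀ i, P.c i j ≠ w := by
          intro p q hpq
          obtain ⟨w, hw1, hw2⟩ := (Set.Ioo_infinite hpq).exists_notMem_finset
            (Finset.univ.image fun i => P.c i j)
          refine ⟨w, ⟨⟨p, hw1.1⟩, ⟨q, hw1.2⟩⟩, ?_⟩
          intro i hi
          exact hw2 (Finset.mem_image.mpr ⟨i, Finset.mem_univ _, hi⟩)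
        rcases lt_or_gt_of_ne hj with h | h
        · exact hmain _ _ h
        · exact hmain _ _ h
      obtain ⟨⟨i₀, hi₀⟩, ⟨i₁, hi₁⟩⟩ := hw
      -- the scaling factor
      obtain ⟨s, hs, hsw⟩ : ∃ s : ℝ, 1 ≤ s ∧ ∀ i,
          ‖((P.L i).symm : E (n + 1) →L[ℝ] E (n + 1))‖ < s * |P.c i j - w| := by
        refine ⟨1 + ∑ i, ‖((P.L i).symm : E (n + 1) →L[ℝ] E (n + 1))‖ / |P.c i j - w|, ?_, ?_⟩
        · have : 0 ≤ ∑ i, ‖((P.L i).symm : E (n + 1) →L[ℝ] E (n + 1))‖ / |P.c i j - w| :=
            Finset.sum_nonneg fun i _ => by positivity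
          linarith
        · intro i
          have h0 : 0 < |P.c i j - w| := abs_pos.mpr (sub_ne_zero.mpr (hwn i))
          have h1 : ‖((P.L i).symm : E (n + 1) →L[ℝ] E (n + 1))‖ / |P.c i j - w| ≤
              ∑ i, ‖((P.L i).symm : E (n + 1) →L[ℝ] E (n + 1))‖ / |P.c i j - w| :=
            Finset.single_le_sum
              (f := fun i => ‖((P.L i).symm : E (n + 1) →L[ℝ] E (n + 1))‖ / |P.c i j - w|)
              (fun j _ => by positivity) (Finset.mem_univ i)
          have h2 : ‖((P.L i).symm : E (n + 1) →L[ℝ] E (n + 1))‖ =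
              ‖((P.L i).symm : E (n + 1) →L[ℝ] E (n + 1))‖ / |P.c i j - w| * |P.c i j - w| := by
            field_simp
          rw [h2]
          refine mul_lt_mul_of_pos_right ?_ h0
          linarith
      obtain ⟨f, hf⟩ := exists_un (shr P s hs)
      have hho : Ho ∞ g f := ho_shr hHGLUE P s hs g f hg hf
      have hcsg : CS ∞ g := cs_un hHGLUE hHO P g hg
      have hcsf : CS ∞ f := cs_un hHGLUE hHO _ f hf
      have hcl : cl ∞ g = cl ∞ f := (hCL1 (n + 1) (W k (n + 1)) ∞ g f hcsg hcsf).mpr hho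
      -- the pieces are on one side
      have hside : ∀ i x, ‖(shr P s hs).L i (x - (shr P s hs).c i)‖ < 1 →
          |x j - P.c i j| < |P.c i j - w| := by
        intro i x hx
        have h1 : s * ‖P.L i (x - P.c i)‖ < 1 := by
          have h2 := norm_scl s hs (P.L i) (x - P.c i)
          rw [← h2]
          exact hx
        have h2 : ‖x - P.c i‖ ≤ ‖((P.L i).symm : E (n + 1) →L[ℝ] E (n + 1))‖ *
            ‖P.L i (x - P.c i)‖ := by
          have h3 := ((P.L i).symm : E (n + 1) →L[ℝ] E (n + 1)).le_opNorm (P.L i (x - P.c i))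
          simpa using h3
        have h4 : |x j - P.c i j| ≤ ‖x - P.c i‖ := by
          have := norm_le_pi_norm (x - P.c i) j
          simpa using this
        have h5 := hsw i
        have h6 := norm_nonneg ((P.L i).symm : E (n + 1) →L[ℝ] E (n + 1))
        have h7 : s * |x j - P.c i j| < s * |P.c i j - w| := by
          calc s * |x j - P.c i j| ≤ s * (‖((P.L i).symm : E (n + 1) →L[ℝ] E (n + 1))‖ *
            ‖P.L i (x - P.c i)‖) := by
                refine mul_le_mul_of_nonneg_left (h4.trans h2) (by linarith)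
            _ = ‖((P.L i).symm : E (n + 1) →L[ℝ] E (n + 1))‖ * (s * ‖P.L i (x - P.c i)‖) := by
                ring
            _ ≤ ‖((P.L i).symm : E (n + 1) →L[ℝ] E (n + 1))‖ * 1 :=
                mul_le_mul_of_nonneg_left h1.le h6
            _ < s * |P.c i j - w| := by linarith
        exact lt_of_mul_lt_mul_left h7 (by linarith)
      have hleft : ∀ i x, ‖(shr P s hs).L i (x - (shr P s hs).c i)‖ < 1 → P.c i j < w →
          x j < w := by
        intro i x hx hlt
        have h1 := hside i x hx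
        rw [abs_of_neg (sub_neg.mpr hlt)] at h1
        have := (abs_lt.mp h1).2
        linarith
      have hright : ∀ i x, ‖(shr P s hs).L i (x - (shr P s hs).c i)‖ < 1 → w < P.c i j →
          w < x j := by
        intro i x hx hlt
        have h1 := hside i x hx
        rw [abs_of_pos (sub_pos.mpr hlt)] at h1
        have := (abs_lt.mp h1).1
        linarith
      have hplane : ∀ x, x j = w → f x = ∞ := by
        intro x hx
        refine hf.2 x ?_
        intro i
        by_contra hlt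
        push Not at hlt
        rcases lt_or_gt_of_ne (hwn i) with h | h
        · have := hleft i x hlt h
          linarith
        · have := hright i x hlt h
          linarith
      classical
      set f₁ : E (n + 1) → W k (n + 1) := fun x => if x j < w then f x else ∞ with hf₁
      set f₂ : E (n + 1) → W k (n + 1) := fun x => if w < x j then f x else ∞ with hf₂
      have h3 := (hCL3 n (W k (n + 1)) ∞ f f₁ f₂ j w hcsf hplane
        (by
          intro x hx
          constructor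
          · rcases lt_or_eq_of_le hx with h | h
            · simp only [hf₁, if_pos h]
            · simp only [hf₁, h, lt_irrefl, if_false]
              exact (hplane x h).symm
          · simp only [hf₂, if_neg (not_lt.mpr hx)])
        (by
          intro x hx
          constructor
          · rcases lt_or_eq_of_le hx with h | h
            · simp only [hf₂, if_pos h]
            · simp only [hf₂, ← h, lt_irrefl, if_false]
              exact (hplane x h.symm).symm
          · simp only [hf₁, if_neg (not_lt.mpr hx)])).2.2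
      rw [hcl, h3]
      refine Subgroup.mul_mem _ ?_ ?_
      · have hun := un_sub (shr P s hs) f f₂ hf {x | w < x j}
          (Finset.univ.filter fun i => w < P.c i j)
          (by
            intro i hi x hx
            exact hright i x hx (Finset.mem_filter.mp hi).2)
          (by
            intro i hi x hx hx'
            have h1 : ¬ w < P.c i j := fun h => hi (Finset.mem_filter.mpr ⟨Finset.mem_univ _, h⟩)
            have h2 : P.c i j < w := lt_of_le_of_ne (not_lt.mp h1) (hwn i)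
            have h4 := hleft i x hx h2
            simp only [Set.mem_ofPred_eq] at hx'
            linarith)
          (by
            intro x hx
            simp only [Set.mem_ofPred_eq] at hx
            simp only [hf₂, if_pos hx])
          (by
            intro x hx
            simp only [Set.mem_ofPred_eq] at hx
            simp only [hf₂, if_neg hx])
        refine ih _ ?_ _ _ hun
        calc (Finset.univ.filter fun i => w < P.c i j).card < (Finset.univ : Finset (Fin (r + 2))).card := by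
              refine Finset.card_lt_card ?_
              rw [Finset.filter_ssubset]
              exact ⟨i₀, Finset.mem_univ _, not_lt.mpr hi₀.le⟩
          _ = r + 1 + 1 := by simp
      · have hun := un_sub (shr P s hs) f f₁ hf {x | x j < w}
          (Finset.univ.filter fun i => P.c i j < w)
          (by
            intro i hi x hx
            exact hleft i x hx (Finset.mem_filter.mp hi).2)
          (by
            intro i hi x hx hx'
            have h1 : ¬ P.c i j < w := fun h => hi (Finset.mem_filter.mpr ⟨Finset.mem_univ _, h⟩)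
            have h2 : w < P.c i j := lt_of_le_of_ne (not_lt.mp h1) (hwn i).symm
            have h4 := hright i x hx h2
            simp only [Set.mem_ofPred_eq] at hx'
            linarith)
          (by
            intro x hx
            simp only [Set.mem_ofPred_eq] at hx
            simp only [hf₁, if_pos hx])
          (by
            intro x hx
            simp only [Set.mem_ofPred_eq] at hx
            simp only [hf₁, if_neg hx])
        refine ih _ ?_ _ _ hun
        calc (Finset.univ.filter fun i => P.c i j < w).card < (Finset.univ : Finset (Fin (r + 2))).card := by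
              refine Finset.card_lt_card ?_
              rw [Finset.filter_ssubset]
              exact ⟨i₁, Finset.mem_univ _, not_lt.mpr hi₁.le⟩
          _ = r + 1 + 1 := by simp

end Pool.Agent.Work.MP_e9e200_al.O3

end

section

/-!
# Project O3, item PT: the homotopy group of a wedge of spheres is generated by the inclusions
-/

set_option autoImplicit false

namespace Pool.Agent.Work.MP_e9e200_al.O3

open Set Metric Topology OnePoint

theorem I_PT (hSMO : StSMO) (hREG : StREG) (hLINZ : StLINZ) (hEXPD : StEXPD) (hPSP : StPSP)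
    (hPIO : StPIO) (hCL1 : StCL1) (hHO : StHO) : StPT := by
  intro k n f hf
  obtain ⟨-, -, hTr, hCS, -⟩ := hHO (n + 1) (W k (n + 1)) ∞
  obtain ⟨f', hff', hloc⟩ := hSMO k (n + 1) f hf
  have hf' : CS ∞ f' := (hCS f f' hff').2
  obtain ⟨y₀, -, hreg⟩ := hREG k (n + 1) f' hf' hloc
  obtain ⟨f'', ε, r, a, c, L, hf'f'', hε, hdis, hin, hout⟩ := hLINZ k (n + 1) f' y₀ hf' hreg
  have hf'' : CS ∞ f'' := (hCS f' f'' hf'f'').2
  obtain ⟨P, g, hUn, hf''g⟩ := hEXPD k (n + 1) f'' y₀ ε r a c L hf'' hε hdis hin hout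
  have hfg : Ho ∞ f g := hTr _ _ _ (hTr _ _ _ hff' hf'f'') hf''g
  have hg : CS ∞ g := (hCS f g hfg).2
  have hcl : cl ∞ f = cl ∞ g := (hCL1 (n + 1) (W k (n + 1)) ∞ f g hf hg).2 hfg
  rw [hcl]
  have h1 := hPSP k n r P g hUn
  refine (Subgroup.closure_le (Gio k n)).2 ?_ h1
  rintro α ⟨b, d, M, rfl⟩
  exact hPIO k n b d M

end Pool.Agent.Work.MP_e9e200_al.O3

end

section

/-!
# Project O3, item REG: existence of a regular value (Sard in equal dimensions)
-/

set_option autoImplicit false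

namespace Pool.Agent.Work.MP_e9e200_al.O3

open Set Metric Topology OnePoint MeasureTheory

namespace XREG

theorem inj {k n : ℕ} {b b' : Fin k} {y y' : E n}
    (h : (((b, y) : Fin k × E n) : W k n) = (((b', y') : Fin k × E n) : W k n)) :
    b = b' ∧ y = y' := by
  have h1 := OnePoint.coe_injective h
  exact ⟨congrArg Prod.fst h1, congrArg Prod.snd h1⟩

end XREG

theorem I_REG : StREG := by
  intro k n f _ hloc
  classical
  let D : Set (E n) := {x | ∃ (b : Fin k) (y : E n), f x = ((b, y) : Fin k × E n) ∧ ‖y‖ < 1}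
  have hD : ∀ x : D, ∃ (b : Fin k) (u : E n → E n) (U : Set (E n)), IsOpen U ∧ (x : E n) ∈ U ∧
      ContDiff ℝ 1 u ∧ ∀ x' ∈ U, f x' = ((b, u x') : Fin k × E n) := by
    rintro ⟨x, b, y, hx, hy⟩
    obtain ⟨u, U, h1, h2, h3, h4⟩ := hloc x b y hx hy
    exact ⟨b, u, U, h1, h2, h3, h4⟩
  choose β u U hU hxU hu hfu using hD
  obtain ⟨T, hT, hTU⟩ := TopologicalSpace.isOpen_iUnion_countable U hU
  let N : Set (E n) := ⋃ i ∈ T, u i '' {x' | (fderiv ℝ (u i) x').det = 0}
  have hN : volume N = 0 := by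
    rw [measure_biUnion_null_iff hT]
    intro i _
    refine addHaar_image_eq_zero_of_det_fderivWithin_eq_zero (f' := fderiv ℝ (u i)) volume ?_ ?_
    · intro x _
      exact (((hu i).differentiable one_ne_zero) x).hasFDerivAt.hasFDerivWithinAt
    · intro x hx
      exact hx
  have hex : ∃ y₀ ∈ ball (0 : E n) 1, y₀ ∉ N := by
    by_contra hcon
    push Not at hcon
    have h1 : volume (ball (0 : E n) 1) ≤ volume N := measure_mono hcon
    rw [hN] at h1
    have h2 : 0 < volume (ball (0 : E n) 1) := measure_ball_pos volume 0 one_pos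
    exact absurd h2 (not_lt.mpr h1)
  obtain ⟨y₀, hy₀, hyN⟩ := hex
  refine ⟨y₀, by simpa using hy₀, ?_⟩
  intro x b hx
  have hxD : x ∈ D := ⟨b, y₀, hx, by simpa using hy₀⟩
  have hxT : x ∈ ⋃ i ∈ T, U i := by
    rw [hTU]
    exact mem_iUnion.mpr ⟨⟨x, hxD⟩, hxU ⟨x, hxD⟩⟩
  obtain ⟨i, hi, hxi⟩ := mem_iUnion₂.mp hxT
  have h1 := hfu i x hxi
  rw [hx] at h1
  obtain ⟨hb, hy⟩ := XREG.inj h1
  have hdet : (fderiv ℝ (u i) x).det ≠ 0 := by
    intro h0
    exact hyN (mem_iUnion₂.mpr ⟨i, hi, x, h0, hy.symm⟩)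
  refine ⟨u i, U i, hU i, hxi, ?_, ?_⟩
  · intro x' hx'
    rw [hb]
    exact hfu i x' hx'
  · refine ⟨ContinuousLinearMap.toContinuousLinearEquivOfDetNeZero _ hdet, ?_⟩
    have h3 := (((hu i).differentiable one_ne_zero) x).hasFDerivAt
    simpa using h3

end Pool.Agent.Work.MP_e9e200_al.O3

end

section

open Set Topology Filter

namespace Pool.Agent.Work.MP_e9e200_al.O3

namespace XRLZ

theorem lo_cs {n : ℕ} {Z : Type} [TopologicalSpace Z] {z : Z} {f : E n → Z} (h : Lo z f) :
    CS z f := ⟨h.1, 1, h.2⟩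

theorem prod_ofFn_ofAdd {k : ℕ} (g : Fin k → ℤ) :
    (List.ofFn (fun a => Multiplicative.ofAdd (g a))).prod = Multiplicative.ofAdd (∑ a, g a) := by
  rw [List.prod_ofFn, ofAdd_sum]

end XRLZ

theorem I_RLZ (hHOMD : StHOMD) (hDIO : StDIO) (hCL2 : StCL2) (hDPR : StDPR) : StRLZ := by
  intro k n z
  obtain ⟨f, hf, hcl⟩ := (hCL2 n (W k (n + 1)) OnePoint.infty).1
    (List.ofFn (fun a : Fin k => (cl OnePoint.infty (io a : E (n + 1) → W k (n + 1))) ^ (z a))).prod
  refine ⟨f, hf, fun b => ?_⟩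
  obtain ⟨Δ, hΔ⟩ := hHOMD k n b
  have h1 := hΔ f (XRLZ.lo_cs hf)
  rw [hcl, map_list_prod, List.map_ofFn] at h1
  have h2 : (Δ ∘ fun a : Fin k => (cl OnePoint.infty (io a : E (n + 1) → W k (n + 1))) ^ (z a)) =
      fun a => Multiplicative.ofAdd (z a * if b = a then 1 else 0) := by
    funext a
    have h3 := hΔ (io a) ((hDPR k (n + 1) b).2.2.2 a).1
    rw [hDIO k (n + 1) b a] at h3
    simp only [Function.comp]
    rw [map_zpow, h3, ← ofAdd_zsmul, smul_eq_mul]
  rw [h2, XRLZ.prod_ofFn_ofAdd] at h1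
  have h4 := Multiplicative.ofAdd.injective h1
  rw [← h4]
  simp

end Pool.Agent.Work.MP_e9e200_al.O3

end

section

/-!
# U2G: additive homotopy invariants are determined by the degrees
-/

set_option autoImplicit false

namespace Pool.Agent.Work.MP_e9e200_al.O3

open Set Metric Topology OnePoint

namespace XU2G

/-- the first unit vector -/
noncomputable def e0 (n : ℕ) : E (n + 1) := Pi.single 0 1

lemma norm_e0 (n : ℕ) : ‖e0 n‖ ≤ 1 := by
  rw [pi_norm_le_iff_of_nonneg zero_le_one]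
  intro i
  unfold e0
  by_cases h : i = 0
  · subst h; simp
  · simp [Pi.single_eq_of_ne h]

lemma e0_zero (n : ℕ) : e0 n 0 = 1 := by simp [e0]

lemma cs_of_lo {n : ℕ} {Z : Type} [TopologicalSpace Z] {z : Z} {f : E n → Z} (h : Lo z f) :
    CS z f := ⟨h.1, 1, h.2⟩

/-- the reparametrized map -/
noncomputable def rp {n : ℕ} {Z : Type} (s : ℝ) (f : E (n + 1) → Z) (x : E (n + 1)) : Z :=
  f ((2 : ℝ) • x + s • e0 n)

lemma rp_ho (hHO : StHO) {n : ℕ} {Z : Type} [TopologicalSpace Z] {z : Z} {f : E (n + 1) → Z}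
    (hf : Lo z f) {s : ℝ} (hs : |s| ≤ 1) : Ho z f (rp s f) := by
  have h := (hHO (n + 1) Z z).2.2.2.2
    (fun p : ℝ × E (n + 1) => f ((1 + p.1) • p.2 + (p.1 * s) • e0 n)) 2 ?_ ?_
  · have h0 : (fun x : E (n + 1) => f ((1 + (0 : ℝ)) • x + ((0 : ℝ) * s) • e0 n)) = f := by
      funext x; simp
    have h1 : (fun x : E (n + 1) => f ((1 + (1 : ℝ)) • x + ((1 : ℝ) * s) • e0 n)) = rp s f := by
      funext x
      unfold rp
      congr 1
      norm_num
    simpa only [h0, h1] using h
  · apply Continuous.continuousOn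
    exact hf.1.comp (by fun_prop)
  · intro t ht x hx
    refine hf.2 _ ?_
    have h1 : ‖(1 + t) • x‖ = (1 + t) * ‖x‖ := by
      rw [norm_smul, Real.norm_of_nonneg (by linarith [ht.1])]
    have h2 : ‖(t * s) • e0 n‖ ≤ t := by
      rw [norm_smul, Real.norm_eq_abs, abs_mul, abs_of_nonneg ht.1]
      have h3 : t * |s| * ‖e0 n‖ ≤ t * 1 * 1 :=
        mul_le_mul (mul_le_mul_of_nonneg_left hs ht.1) (norm_e0 n) (norm_nonneg _)
          (by linarith [ht.1])
      simpa using h3
    have h3 : ‖(1 + t) • x‖ ≤ ‖(1 + t) • x + (t * s) • e0 n‖ + ‖(t * s) • e0 n‖ := by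
      have := norm_sub_le ((1 + t) • x + (t * s) • e0 n) ((t * s) • e0 n)
      simpa using this
    have h4 : (1 + t) * 2 ≤ (1 + t) * ‖x‖ := mul_le_mul_of_nonneg_left hx (by linarith [ht.1])
    have := ht.1
    linarith

/-- the coordinate bound -/
lemma rp_inf {n : ℕ} {Z : Type} [TopologicalSpace Z] {z : Z} {f : E (n + 1) → Z}
    (hf : Lo z f) {s : ℝ} {x : E (n + 1)} (h : 1 ≤ |2 * x 0 + s|) : rp s f x = z := by
  refine hf.2 _ (h.trans ?_)
  have := norm_le_pi_norm ((2 : ℝ) • x + s • e0 n) 0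
  simpa [e0_zero] using this

/-- an additive homotopy invariant is a homomorphism of the homotopy group -/
lemma exists_hom (hCL1 : StCL1) (hCL2 : StCL2) (hCL3 : StCL3) (hGLUE : StGLUE) (hHO : StHO)
    {k n : ℕ} {M : Type} [AddCommGroup M] (δ : (E (n + 1) → W k (n + 1)) → M)
    (h1 : ∀ f g, Ho ∞ f g → δ f = δ g)
    (h2 : ∀ f f₁ f₂ : E (n + 1) → W k (n + 1), CS ∞ f → (∀ x, x 0 = 0 → f x = ∞) →
      (∀ x, x 0 ≤ 0 → f₁ x = f x ∧ f₂ x = ∞) → (∀ x, 0 ≤ x 0 → f₂ x = f x ∧ f₁ x = ∞) →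
      δ f = δ f₁ + δ f₂) :
    ∃ D : HomotopyGroup (Fin (n + 1)) (W k (n + 1)) ∞ →* Multiplicative M,
      ∀ f, CS ∞ f → D (cl ∞ f) = Multiplicative.ofAdd (δ f) := by
  classical
  choose rep hrep using (hCL2 n (W k (n + 1)) ∞).1
  have key : ∀ f, CS ∞ f → ∀ α, cl ∞ f = α → δ (rep α) = δ f := by
    intro f hf α hα
    refine h1 _ _ ((hCL1 (n + 1) (W k (n + 1)) ∞ _ _ (cs_of_lo (hrep α).1) hf).1 ?_)
    rw [(hrep α).2, hα]
  have hmul : ∀ α β, δ (rep (α * β)) = δ (rep α) + δ (rep β) := by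
    intro α β
    have hA := (hrep α).1
    have hB := (hrep β).1
    set A := rep α with hAdef
    set B := rep β with hBdef
    have hHA : Ho ∞ A (rp (-1) A) := rp_ho hHO hA (by simp)
    have hHB : Ho ∞ B (rp 1 B) := rp_ho hHO hB (by simp)
    have hcA := ((hHO _ _ _).2.2.2.1 _ _ hHA).2
    have hcB := ((hHO _ _ _).2.2.2.1 _ _ hHB).2
    have iA : ∀ x : E (n + 1), x 0 ≤ 0 → rp (-1) A x = ∞ := by
      intro x hx
      refine rp_inf hA ?_
      rw [abs_of_nonpos (by linarith)]
      linarith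
    have iB : ∀ x : E (n + 1), 0 ≤ x 0 → rp 1 B x = ∞ := by
      intro x hx
      refine rp_inf hB ?_
      rw [abs_of_nonneg (by linarith)]
      linarith
    let u : E (n + 1) → W k (n + 1) := fun x => if x 0 ≤ 0 then rp 1 B x else rp (-1) A x
    have uB : ∀ x : E (n + 1), x 0 ≤ 0 → u x = rp 1 B x := fun x hx => if_pos hx
    have uA : ∀ x : E (n + 1), 0 ≤ x 0 → u x = rp (-1) A x := by
      intro x hx
      by_cases h : x 0 ≤ 0
      · rw [uB x h, iA x h, iB x hx]
      · exact if_neg h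
    have hu : Continuous u := by
      refine hGLUE (E (n + 1)) (W k (n + 1)) ∞ (rp 1 B) (rp (-1) A) u hcB.1 hcA.1 ?_ ?_ ?_ ?_
      · intro x
        rcases le_total (x 0) 0 with h | h
        · exact Or.inr (iA x h)
        · exact Or.inl (iB x h)
      · intro x
        rcases le_total (x 0) 0 with h | h
        · exact Or.inl (uB x h)
        · exact Or.inr (iB x h)
      · intro x
        rcases le_total (x 0) 0 with h | h
        · exact Or.inr (iA x h)
        · exact Or.inl (uA x h)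
      · intro x hB' hA'
        rcases le_total (x 0) 0 with h | h
        · rw [uB x h, hB']
        · rw [uA x h, hA']
    have hcu : CS ∞ u := by
      obtain ⟨rA, hrA⟩ := hcA.2
      obtain ⟨rB, hrB⟩ := hcB.2
      refine ⟨hu, max rA rB, fun x hx => ?_⟩
      rcases le_total (x 0) 0 with h | h
      · rw [uB x h]
        exact hrB x (le_trans (le_max_right _ _) hx)
      · rw [uA x h]
        exact hrA x (le_trans (le_max_left _ _) hx)
    have hz : ∀ x : E (n + 1), x 0 = 0 → u x = ∞ := by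
      intro x hx
      rw [uB x hx.le, iB x hx.ge]
    have c1 : ∀ x : E (n + 1), x 0 ≤ 0 → rp 1 B x = u x ∧ rp (-1) A x = ∞ :=
      fun x hx => ⟨(uB x hx).symm, iA x hx⟩
    have c2 : ∀ x : E (n + 1), 0 ≤ x 0 → rp (-1) A x = u x ∧ rp 1 B x = ∞ :=
      fun x hx => ⟨(uA x hx).symm, iB x hx⟩
    have hcl := (hCL3 n (W k (n + 1)) ∞ u (rp 1 B) (rp (-1) A) 0 0 hcu hz c1 c2).2.2
    have hAcl : cl ∞ (rp (-1) A) = α := by
      rw [← (hrep α).2]
      exact ((hCL1 (n + 1) (W k (n + 1)) ∞ _ _ (cs_of_lo hA) hcA).2 hHA).symm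
    have hBcl : cl ∞ (rp 1 B) = β := by
      rw [← (hrep β).2]
      exact ((hCL1 (n + 1) (W k (n + 1)) ∞ _ _ (cs_of_lo hB) hcB).2 hHB).symm
    rw [hAcl, hBcl] at hcl
    rw [key u hcu _ hcl, h2 u (rp 1 B) (rp (-1) A) hcu hz c1 c2, ← h1 _ _ hHA, ← h1 _ _ hHB,
      add_comm]
  refine ⟨MonoidHom.mk' (fun α => Multiplicative.ofAdd (δ (rep α))) ?_, ?_⟩
  · intro α β
    rw [hmul, ofAdd_add]
  · intro f hf
    show Multiplicative.ofAdd (δ (rep (cl ∞ f))) = Multiplicative.ofAdd (δ f)
    rw [key f hf _ rfl]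

end XU2G

open XU2G in
/-- additive homotopy invariants are determined by the degrees -/
theorem I_U2G (hPT : StPT) (hCL1 : StCL1) (hCL2 : StCL2) (hCL3 : StCL3) (hDEG : StDEG)
    (hDADD : StDADD) (hDIO : StDIO) (hDPR : StDPR) (hGLUE : StGLUE) (hHO : StHO) : StU2G := by
  classical
  intro k n M _ δ h1 h2 f hf
  obtain ⟨D₁, hD₁⟩ := exists_hom hCL1 hCL2 hCL3 hGLUE hHO δ h1 h2
  have g1 : ∀ g g' : E (n + 1) → W k (n + 1), Ho ∞ g g' →
      (∑ a : Fin k, deg a g • δ (io a)) = ∑ a : Fin k, deg a g' • δ (io a) := by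
    intro g g' hg
    refine Finset.sum_congr rfl fun a _ => ?_
    rw [(hDEG k (n + 1) a).2 g g' hg]
  have g2 : ∀ g g₁ g₂ : E (n + 1) → W k (n + 1), CS ∞ g → (∀ x, x 0 = 0 → g x = ∞) →
      (∀ x, x 0 ≤ 0 → g₁ x = g x ∧ g₂ x = ∞) → (∀ x, 0 ≤ x 0 → g₂ x = g x ∧ g₁ x = ∞) →
      (∑ a : Fin k, deg a g • δ (io a)) =
        (∑ a : Fin k, deg a g₁ • δ (io a)) + ∑ a : Fin k, deg a g₂ • δ (io a) := by
    intro g g₁ g₂ hg hz c1 c2
    obtain ⟨hg₁, hg₂, -⟩ := hCL3 n (W k (n + 1)) ∞ g g₁ g₂ 0 0 hg hz c1 c2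
    rw [← Finset.sum_add_distrib]
    refine Finset.sum_congr rfl fun a _ => ?_
    have h3 := (hDADD k (n + 1) a g₁ g₂ g hg₁ hg₂ ?_ ?_ ?_ ?_).2
    · rw [h3, add_smul]
    · intro x
      rcases le_total (x 0) 0 with h | h
      · exact Or.inr (c1 x h).2
      · exact Or.inl (c2 x h).2
    · intro x
      rcases le_total (x 0) 0 with h | h
      · exact Or.inl (c1 x h).1.symm
      · exact Or.inr (c2 x h).2
    · intro x
      rcases le_total (x 0) 0 with h | h
      · exact Or.inr (c1 x h).2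
      · exact Or.inl (c2 x h).1.symm
    · intro x e1 e2
      rcases le_total (x 0) 0 with h | h
      · rw [← (c1 x h).1, e1]
      · rw [← (c2 x h).1, e2]
  obtain ⟨D₂, hD₂⟩ := exists_hom hCL1 hCL2 hCL3 hGLUE hHO
    (fun g : E (n + 1) → W k (n + 1) => ∑ a : Fin k, deg a g • δ (io a)) g1 g2
  have hgen : Set.EqOn D₁ D₂ (Set.range fun a : Fin k => cl ∞ (io a)) := by
    rintro _ ⟨b, rfl⟩
    have hb : CS ∞ (io b : E (n + 1) → W k (n + 1)) := ((hDPR k (n + 1) b).2.2.2 b).1
    show D₁ (cl ∞ (io b)) = D₂ (cl ∞ (io b))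
    rw [hD₁ _ hb, hD₂ _ hb]
    congr 1
    have h3 : ∀ a : Fin k, deg a (io b : E (n + 1) → W k (n + 1)) • δ (io a) =
        if a = b then δ (io b) else 0 := by
      intro a
      rw [hDIO k (n + 1) a b]
      by_cases h : a = b
      · subst h; simp
      · simp [h]
    rw [Finset.sum_congr rfl (fun a _ => h3 a), Finset.sum_ite_eq' Finset.univ b]
    simp
  have hcl := MonoidHom.eqOn_closure hgen (hPT k n f hf)
  rw [hD₁ f hf, hD₂ f hf] at hcl
  exact Multiplicative.ofAdd.injective hcl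

end Pool.Agent.Work.MP_e9e200_al.O3

end

section

/-!
# Project O3A, item ACT: the action is continuous
-/

set_option autoImplicit false

namespace Pool.Agent.Work.MP_e9e200_al.O3A

open Set Metric Topology

theorem I_ACT (hCRT : StCRT) (hPHB : StPHB) : StACT := by
  intro G _ B ψ N g
  obtain ⟨h1, h2, h3⟩ := hCRT G B ψ N
  rw [continuous_iff_isClosed]
  intro A hA
  have hA' := (h1 A).1 hA
  refine (h1 ((fun p : Pt G B => g • p) ⁻¹' A)).2 ?_
  intro n hn c
  have h4 := hA' n hn (g * c.1, c.2)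
  have h5 : {y : E n | Ph ψ n c y ∈ (fun p : Pt G B => g • p) ⁻¹' A} =
      {y : E n | Ph ψ n (g * c.1, c.2) y ∈ A} := by
    ext y
    show g • Ph ψ n c y ∈ A ↔ Ph ψ n (g * c.1, c.2) y ∈ A
    rw [(hPHB G B ψ).2.2.1 g n c y]
  rw [h5]
  exact h4

end Pool.Agent.Work.MP_e9e200_al.O3A

end

section

/-!
# Project O3A: item CRT, closed sets and continuous maps
-/

set_option autoImplicit false

namespace Pool.Agent.Work.MP_e9e200_al.O3A

open Set Metric Topology

namespace CRT

variable {G : Type} [Group G] {B : ℕ → Type}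

theorem closed_iff (ψ : Atl G B) (N : ℕ∞) (S : Set (Sp ψ N)) :
    IsClosed S ↔ ∀ n : ℕ, (n : ℕ∞) < N → ∀ c : G × B n,
      IsClosed ((fun y : closedBall (0 : E n) 1 => pt ψ N (Ph ψ n c y)) ⁻¹' S) := by
  show @IsClosed (Sp ψ N) (⨆ (n : ℕ) (_ : (n : ℕ∞) < N) (c : G × B n),
    TopologicalSpace.coinduced
      (fun y : closedBall (0 : E n) 1 => pt ψ N (Ph ψ n c y)) inferInstance) S ↔ _
  simp only [isClosed_iSup_iff, isClosed_coinduced]

theorem cont_iff (ψ : Atl G B) (N : ℕ∞) {Z : Type} [TopologicalSpace Z] (f : Sp ψ N → Z) :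
    Continuous f ↔ ∀ n : ℕ, (n : ℕ∞) < N → ∀ c : G × B n,
      Continuous (fun y : closedBall (0 : E n) 1 => f (pt ψ N (Ph ψ n c y))) := by
  rw [continuous_iff_isClosed]
  simp only [closed_iff, continuous_iff_isClosed]
  constructor
  · intro h n hn c s hs
    exact h s hs n hn c
  · intro h s hs n hn c
    exact h n hn c s hs

end CRT

theorem I_CRT : StCRT := by
  intro G _ B ψ N
  have h2 : ∀ (Z : Type) [TopologicalSpace Z] (f : Pt G B → Z),
      Continuous (fun p : Sp ψ N => f p) ↔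
      ∀ n : ℕ, (n : ℕ∞) < N → ∀ c : G × B n,
      ContinuousOn (fun y => f (Ph ψ n c y)) (closedBall (0 : E n) 1) := by
    intro Z _ f
    rw [CRT.cont_iff]
    refine forall_congr' fun n => forall_congr' fun _ => forall_congr' fun c => ?_
    rw [continuousOn_iff_continuous_domRestrict]
    rfl
  refine ⟨?_, h2, ?_⟩
  · intro A
    rw [CRT.closed_iff]
    refine forall_congr' fun n => forall_congr' fun _ => forall_congr' fun c => ?_
    have hemb : IsClosedEmbedding (Subtype.val : closedBall (0 : E n) 1 → E n) :=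
      isClosed_closedBall.isClosedEmbedding_subtypeVal
    rw [hemb.isClosed_iff_image_isClosed]
    have himg : (Subtype.val '' ((fun y : closedBall (0 : E n) 1 => pt ψ N (Ph ψ n c y)) ⁻¹'
        st ψ N A)) = closedBall (0 : E n) 1 ∩ {y | Ph ψ n c y ∈ A} := by
      ext y
      constructor
      · rintro ⟨⟨z, hz⟩, hzA, rfl⟩
        exact ⟨hz, hzA⟩
      · rintro ⟨hy, hyA⟩
        exact ⟨⟨y, hy⟩, hyA, rfl⟩
    rw [himg]
  · exact (h2 (Sp ψ N) (pt ψ N)).1 continuous_id

end Pool.Agent.Work.MP_e9e200_al.O3A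

end

section

/-!
# Project O3A, item REC: construction of attaching maps by recursion
-/

set_option autoImplicit false

namespace Pool.Agent.Work.MP_e9e200_al.O3A

theorem I_REC : StREC := by
  intro G _ B Q ψ₀ hQ h0 hs
  choose! f hf1 hf2 using hs
  let s : (n : ℕ) → {ψ : Atl G B // Q n ψ} := fun n =>
    Nat.rec (motive := fun n => {ψ : Atl G B // Q n ψ}) ⟨ψ₀, h0⟩
      (fun n p => ⟨f n p.1, hf2 n p.1 p.2⟩) n
  have hstep : ∀ n, ∀ i < n, (s (n + 1)).1 i = (s n).1 i := fun n i hi =>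
    hf1 n (s n).1 (s n).2 i hi
  have key : ∀ n, ∀ i < n, (s n).1 i = (s (i + 1)).1 i := by
    intro n
    induction n with
    | zero => intro i hi; omega
    | succ n ih =>
      intro i hi
      rcases Nat.lt_succ_iff_lt_or_eq.mp hi with h | h
      · rw [hstep n i h, ih i h]
      · subst h; rfl
  exact ⟨fun n => (s (n + 1)).1 n, fun n => hQ n (s n).1 _ (key n) (s n).2⟩

end Pool.Agent.Work.MP_e9e200_al.O3A

end

section

/-! # O3A, item SKC: closed subsets of the skeleta -/

set_option autoImplicit false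

namespace Pool.Agent.Work.MP_e9e200_al.O3A

open Set Metric Topology

theorem I_SKC (hCRT : StCRT) (hPHB : StPHB) (hACT : StACT) : StSKC := by
  intro G _ B ψ N M hG hMN A hA
  constructor
  · intro h
    rw [(hCRT G B ψ M).1]
    intro n hn c
    exact ((hCRT G B ψ N).1 A).1 h n (lt_of_lt_of_le hn hMN) c
  · intro h
    rw [(hCRT G B ψ N).1]
    intro n
    induction n using Nat.strong_induction_on with
    | _ n ih =>
      intro hn c
      by_cases hnM : (n : ℕ∞) < M
      · exact ((hCRT G B ψ M).1 A).1 h n hnM c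
      · have hAn : IsClosed (st ψ (n : ℕ∞) A) := by
          rw [(hCRT G B ψ n).1]
          intro k hk c'
          exact ih k (by exact_mod_cast hk) (lt_trans hk hn) c'
        have hA' : IsClosed (st ψ (n : ℕ∞) {p | c.1 • p ∈ A}) :=
          hAn.preimage (hACT G B ψ n c.1)
        have hcont := (hG n hn c.2).2
        have h1 : IsClosed (sphere (0 : E n) 1 ∩
            (fun y => pt ψ n (ψ n c.2 y)) ⁻¹' (st ψ (n : ℕ∞) {p | c.1 • p ∈ A})) :=
          hcont.preimage_isClosed_of_isClosed isClosed_sphere hA'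
        have heq : closedBall (0 : E n) 1 ∩ {y | Ph ψ n c y ∈ A} = sphere (0 : E n) 1 ∩
            (fun y => pt ψ n (ψ n c.2 y)) ⁻¹' (st ψ (n : ℕ∞) {p | c.1 • p ∈ A}) := by
          ext y
          constructor
          · rintro ⟨hy, hyA⟩
            have hyA' : Ph ψ n c y ∈ A := hyA
            have hnb : y ∉ ball (0 : E n) 1 := by
              intro hb
              rw [(hPHB G B ψ).1 n c y hb] at hyA'
              have h2 := hA hyA'
              have h3 : ((mk n c y hb).dim : ℕ∞) < M := h2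
              rw [((hPHB G B ψ).2.2.2.2.2.2 n c y hb).1] at h3
              exact hnM h3
            have hs : y ∈ sphere (0 : E n) 1 := by
              rw [mem_sphere]
              rw [mem_closedBall] at hy
              rw [mem_ball] at hnb
              exact le_antisymm hy (not_lt.1 hnb)
            refine ⟨hs, ?_⟩
            rw [(hPHB G B ψ).2.1 n c y hs] at hyA'
            exact hyA'
          · rintro ⟨hs, hyA⟩
            refine ⟨sphere_subset_closedBall hs, ?_⟩
            show Ph ψ n c y ∈ A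
            rw [(hPHB G B ψ).2.1 n c y hs]
            exact hyA
        rw [heq]
        exact h1

end Pool.Agent.Work.MP_e9e200_al.O3A

end

section

set_option autoImplicit false

namespace Pool.Agent.Work.MP_e9e200_al.O3A

open Set Metric Topology

theorem I_STP : StSTP := by
  intro G _ B ψ n
  refine ⟨⟨fun h => ⟨fun k hk b => ?_, fun b => ?_⟩, fun h k hk b => ?_⟩, fun h k _ b => ?_⟩
  · exact h k (by
      have hk' : k < n := by exact_mod_cast hk
      exact_mod_cast Nat.lt_succ_of_lt hk') b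
  · exact h n (by exact_mod_cast Nat.lt_succ_self n) b
  · have hk' : k < n + 1 := by exact_mod_cast hk
    rcases Nat.lt_succ_iff_lt_or_eq.mp hk' with h1 | h1
    · exact h.1 k (by exact_mod_cast h1) b
    · subst h1
      exact h.2 b
  · exact h (k + 1) k (by exact_mod_cast Nat.lt_succ_self k) b

end Pool.Agent.Work.MP_e9e200_al.O3A

end

section

/-!
# Project O3A, item UNI: from the half space to the whole space
-/

set_option autoImplicit false

namespace Pool.Agent.Work.MP_e9e200_al.O3A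

open Set Metric Topology

namespace UNI

theorem exists_large {G : Type} [Group G] (χ : Additive G →+ ℝ) (hχ : χ ≠ 0) (L : ℝ) :
    ∃ g : G, L ≤ χ (Additive.ofMul g) := by
  have h1 : ∃ q : G, 0 < χ (Additive.ofMul q) := by
    by_contra hcon
    push Not at hcon
    apply hχ
    refine DFunLike.ext _ _ fun x => ?_
    have h2 := hcon (Additive.toMul x)
    have h3 := hcon (Additive.toMul x)⁻¹
    rw [ofMul_inv, map_neg] at h3
    rw [ofMul_toMul] at h2 h3
    rw [AddMonoidHom.zero_apply]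
    linarith
  obtain ⟨q, hq⟩ := h1
  obtain ⟨r, hr⟩ := exists_nat_gt (L / χ (Additive.ofMul q))
  refine ⟨q ^ r, ?_⟩
  rw [ofMul_pow, map_nsmul, nsmul_eq_mul]
  rw [div_lt_iff₀ hq] at hr
  exact hr.le

end UNI

theorem I_UNI (hPHB : StPHB) (hACT : StACT) (hFIN : StFIN) : StUNI := by
  intro G _ B ψ χ hχ hG k hk
  obtain ⟨-, -, -, h4, -, h6, h7⟩ := hPHB G B ψ
  refine ⟨hk.1.mono (subset_univ _), fun j hj f hf _ => ?_⟩
  have hK : IsCompact (f '' sphere 0 1) := (isCompact_sphere _ _).image_of_continuousOn hf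
  have hfin := hFIN G B ψ ⊤ hG (f '' sphere 0 1) hK (fun p _ => ENat.natCast_lt_top _)
  obtain ⟨L, hL⟩ := (hfin.image (fun q => χ (Additive.ofMul q.2.1))).bddBelow
  obtain ⟨g, hg⟩ := UNI.exists_large χ hχ (-L)
  have hlow : ∀ y ∈ sphere (0 : Fin (j + 1) → ℝ) 1,
      L ≤ χ (Additive.ofMul (Pt.gr (show Pt G B from f y))) := by
    intro y hy
    obtain ⟨n, c, z, hz, hp⟩ := h6 (f y)
    have h8 : Pt.gr (show Pt G B from f y) = c.1 := by
      show Pt.gr (f y) = c.1
      rw [hp]
      exact (h7 n c z hz).2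
    rw [h8]
    apply hL
    exact ⟨⟨n, c⟩, ⟨f y, mem_image_of_mem f hy, z, hz, hp⟩, rfl⟩
  have hcont : ContinuousOn (fun y => g • f y) (sphere (0 : Fin (j + 1) → ℝ) 1) :=
    (hACT G B ψ ⊤ g).comp_continuousOn hf
  have hmaps : MapsTo (fun y => g • f y) (sphere (0 : Fin (j + 1) → ℝ) 1)
      (st ψ ⊤ (Pp χ)) := by
    intro y hy
    show 0 ≤ χ (Additive.ofMul (Pt.gr (g • (show Pt G B from f y))))
    rw [(h4 g (show Pt G B from f y)).2.1, ofMul_mul, map_add]
    linarith [hlow y hy]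
  obtain ⟨F, hF1, hF2, hF3⟩ := hk.2 j hj _ hcont hmaps
  refine ⟨fun y => g⁻¹ • F y, (hACT G B ψ ⊤ g⁻¹).comp_continuousOn hF1, fun _ _ => trivial, ?_⟩
  intro y hy
  show g⁻¹ • F y = f y
  rw [hF3 hy]
  exact inv_smul_smul g (f y)

end Pool.Agent.Work.MP_e9e200_al.O3A

end

section

/-! Item 11: lifting a cocycle to the twisted module, vector valued form. -/

set_option autoImplicit false
set_option linter.unusedSectionVars false

namespace Pool.Agent.Work.MP_e9e200_al

namespace Twist2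

variable {G : Type} [Group G] (S : Submonoid G) {k : Type} [Field k] {M : Type}
  [AddCommGroup M] [Module k M] (P : Type) [AddCommGroup P] [Module (MonoidAlgebra ℤ S) P]

/-- the map on the monoid ring -/
noncomputable def W (v : P →+ (G → k)) (δ : S → G → M) (p : P) :
    MonoidAlgebra ℤ S →+ (G → M) :=
  (Finsupp.liftAddHom (fun s : S =>
    (zmultiplesHom (G → M)) (fun x : G => v p (x * s) • δ s x))).comp
      (MonoidAlgebra.coeffAddEquiv (R := ℤ) (M := S)).toAddMonoidHom

variable {S P}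

theorem W_of (v : P →+ (G → k)) (δ : S → G → M) (p : P) (s : S) :
    W S P v δ p (MonoidAlgebra.of ℤ S s) = fun x : G => v p (x * s) • δ s x := by
  have e : (MonoidAlgebra.coeffAddEquiv (R := ℤ) (M := S)) (MonoidAlgebra.of ℤ S s) =
      Finsupp.single s 1 := rfl
  unfold W
  rw [AddMonoidHom.comp_apply]
  show (Finsupp.liftAddHom _) ((MonoidAlgebra.coeffAddEquiv (R := ℤ) (M := S))
    (MonoidAlgebra.of ℤ S s)) = _
  rw [e, Finsupp.liftAddHom_apply_single, zmultiplesHom_apply, one_zsmul]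

theorem W_mem (v : P →+ (G → k)) (δ : S → G → M) (J : AddSubgroup (G → M))
    (h : ∀ (s : S) (p : P), (fun x : G => v p (x * s) • δ s x) ∈ J) (p : P)
    (r : MonoidAlgebra ℤ S) : W S P v δ p r ∈ J := by
  induction r using MonoidAlgebra.induction_on with
  | of s =>
    rw [W_of]
    exact h s p
  | add x y hx hy =>
    rw [map_add]
    exact J.add_mem hx hy
  | smul n x hx =>
    rw [map_zsmul]
    exact J.zsmul_mem hx n

theorem W_mul (v : P →+ (G → k)) (δ : S → G → M)
    (hv : ∀ (s : S) (p : P) (x : G), v (MonoidAlgebra.of ℤ S s • p) x = v p (x * s))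
    (hδ : ∀ (s t : S) (x : G), δ (s * t) x = δ s x + δ t (x * s)) (p : P) (s : S)
    (r : MonoidAlgebra ℤ S) : ∀ x : G, W S P v δ p (MonoidAlgebra.of ℤ S s * r) x =
      W S P v δ p r (x * s) + v (r • p) (x * s) • δ s x := by
  induction r using MonoidAlgebra.induction_on with
  | of t =>
    intro x
    rw [← map_mul, W_of, W_of]
    show v p (x * ((s * t : S) : G)) • δ (s * t) x =
      v p (x * s * t) • δ t (x * s) + v (MonoidAlgebra.of ℤ S t • p) (x * s) • δ s x
    rw [hδ, hv, Submonoid.coe_mul, mul_assoc x, smul_add, add_comm]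
  | add r r' hr hr' =>
    intro x
    rw [mul_add, map_add, map_add, Pi.add_apply, Pi.add_apply, hr, hr', add_smul, map_add,
      Pi.add_apply, add_smul]
    abel
  | smul n r hr =>
    intro x
    have e1 : MonoidAlgebra.of ℤ S s * (n • r) = n • (MonoidAlgebra.of ℤ S s * r) := by
      rw [mul_smul_comm]
    have e2 : (n • r) • p = n • (r • p) := smul_assoc n r p
    rw [e1, e2, map_zsmul, map_zsmul, map_zsmul, Pi.smul_apply, Pi.smul_apply, Pi.smul_apply, hr,
      smul_add, smul_assoc]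

end Twist2

open Twist2 in
theorem I_Twist2 : StTwist2 := by
  intro G _ S k _ M _ _ P _ _ hP v δ J hv hδ hJ
  classical
  obtain ⟨σ, hσ⟩ := Module.projective_def.mp hP
  let U : (P →₀ MonoidAlgebra ℤ S) →+ (G → M) := Finsupp.liftAddHom (W S P v δ)
  have hU1 : ∀ (p : P) (r : MonoidAlgebra ℤ S), U (Finsupp.single p r) = W S P v δ p r :=
    fun p r => Finsupp.liftAddHom_apply_single _ _ _
  have hU2 : ∀ (s : S) (f : P →₀ MonoidAlgebra ℤ S) (x : G),
      U (MonoidAlgebra.of ℤ S s • f) x = U f (x * s) +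
        v (Finsupp.linearCombination (MonoidAlgebra ℤ S) id f) (x * s) • δ s x := by
    intro s f
    induction f using Finsupp.induction_linear with
    | zero =>
      intro x
      rw [smul_zero, map_zero, map_zero, map_zero]
      simp
    | add f g hf hg =>
      intro x
      rw [smul_add, map_add, map_add, Pi.add_apply, Pi.add_apply, hf, hg, map_add, map_add,
        Pi.add_apply, add_smul]
      abel
    | single p r =>
      intro x
      rw [Finsupp.smul_single, smul_eq_mul, hU1, hU1, W_mul v δ hv hδ,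
        Finsupp.linearCombination_single, id]
  have hU3 : ∀ f, U f ∈ J := by
    intro f
    induction f using Finsupp.induction_linear with
    | zero =>
      rw [map_zero]
      exact J.zero_mem
    | add f g hf hg =>
      rw [map_add]
      exact J.add_mem hf hg
    | single p r =>
      rw [hU1]
      exact W_mem v δ J hJ p r
  refine ⟨U.comp σ.toAddMonoidHom, fun s p x => ?_, fun p => hU3 _⟩
  show U (σ (MonoidAlgebra.of ℤ S s • p)) x = U (σ p) (x * s) + v p (x * s) • δ s x
  rw [map_smul, hU2, hσ p]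

end Pool.Agent.Work.MP_e9e200_al

end

section

/-!
# From a homomorphism to a coarsely constant function
-/

set_option autoImplicit false

namespace Pool.Agent.Work.MP_e9e200_al

namespace Yg

variable {G : Type} [Group G]

/-- the character as a function on `G` -/
def ch (χ : Additive G →+ ℝ) (g : G) : ℝ := χ (Additive.ofMul g)

lemma ch_mul (χ : Additive G →+ ℝ) (a b : G) : ch χ (a * b) = ch χ a + ch χ b := by
  unfold ch
  rw [ofMul_mul, map_add]

lemma ch_one (χ : Additive G →+ ℝ) : ch χ (1 : G) = 0 := by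
  unfold ch
  rw [ofMul_one, map_zero]

lemma ch_inv (χ : Additive G →+ ℝ) (a : G) : ch χ a⁻¹ = -ch χ a := by
  have h := ch_mul χ a a⁻¹
  rw [mul_inv_cancel, ch_one] at h
  linarith

lemma ch_pow (χ : Additive G →+ ℝ) (a : G) (N : ℕ) : ch χ (a ^ N) = N * ch χ a := by
  induction N with
  | zero => rw [pow_zero, ch_one]; simp
  | succ N ih => rw [pow_succ, ch_mul, ih]; push_cast; ring

lemma exists_t (χ : Additive G →+ ℝ) (h : χ ≠ 0) : ∃ t : G, 0 < ch χ t := by
  by_contra hcon
  push Not at hcon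
  apply h
  ext g
  have h1 := hcon (Additive.toMul g)
  have h2 := hcon (Additive.toMul g)⁻¹
  rw [ch_inv] at h2
  have h3 : ch χ (Additive.toMul g) = 0 := by linarith
  exact h3

/-- the commutator of `t ^ N` and `x` -/
def al (t : G) (N : ℕ) (x : G) : G := t ^ N * x * (t ^ N)⁻¹ * x⁻¹

lemma al_mem (t : G) (N : ℕ) (x : G) : al t N x ∈ commutator G :=
  Subgroup.commutator_mem_commutator (Subgroup.mem_top (t ^ N)) (Subgroup.mem_top x)

lemma al_zero (t x : G) : al t 0 x = 1 := by
  unfold al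
  simp

lemma al_succ (t x : G) (N : ℕ) :
    al t (N + 1) x = (t ^ N * (t * x * t⁻¹ * x⁻¹) * (t ^ N)⁻¹) * al t N x := by
  unfold al
  rw [pow_succ]
  group

lemma al_left (t a x : G) (N : ℕ) : al t N (a * x) = (t ^ N * a * (t ^ N)⁻¹) * al t N x * a⁻¹ := by
  unfold al
  group

lemma al_right (t x g : G) (N : ℕ) : al t N (x * g) = al t N x * (x * al t N g * x⁻¹) := by
  unfold al
  group

section

variable {k : Type} [AddCommGroup k] (y : G → k)
  (hy : ∀ a ∈ commutator G, ∀ b ∈ commutator G, y (a * b) = y a + y b)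

include hy

lemma y_one : y 1 = 0 := by
  have h := hy 1 (Subgroup.one_mem _) 1 (Subgroup.one_mem _)
  rw [mul_one] at h
  exact left_eq_add.1 h

lemma y_inv {a : G} (ha : a ∈ commutator G) : y a⁻¹ = -y a := by
  have h := hy a ha a⁻¹ (Subgroup.inv_mem _ ha)
  rw [mul_inv_cancel, y_one y hy] at h
  exact (neg_eq_of_add_eq_zero_right h.symm).symm

end

lemma conj_mem {a : G} (ha : a ∈ commutator G) (g : G) : g * a * g⁻¹ ∈ commutator G :=
  (inferInstance : (commutator G).Normal).conj_mem a ha g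

/-- (1) -/
lemma step1 {k : Type} [AddCommGroup k] (χ : Additive G →+ ℝ) {t : G} (ht : 0 < ch χ t)
    (V : Finset G) (hV : ∀ v ∈ V, v ∈ commutator G) (y : G → k)
    (hy : ∀ a ∈ commutator G, ∀ b ∈ commutator G, y (a * b) = y a + y b)
    (hy0 : ∀ g, 0 ≤ ch χ g → ∀ v ∈ V, y (g * v * g⁻¹) = 0) {a : G}
    (ha : a ∈ Subgroup.normalClosure (V : Set G)) :
    a ∈ commutator G ∧ ∃ N₀ : ℕ, ∀ N, N₀ ≤ N → y (t ^ N * a * (t ^ N)⁻¹) = 0 := by
  unfold Subgroup.normalClosure at ha
  induction ha using Subgroup.closure_induction with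
  | mem x hx =>
    obtain ⟨v, hv, hc⟩ := Group.mem_conjugatesOfSet_iff.1 hx
    obtain ⟨g, rfl⟩ := isConj_iff.1 hc
    refine ⟨conj_mem (hV v hv) g, ?_⟩
    obtain ⟨N₀, hN₀⟩ := exists_nat_ge (-ch χ g / ch χ t)
    refine ⟨N₀, fun N hN => ?_⟩
    have h1 : 0 ≤ ch χ (t ^ N * g) := by
      rw [ch_mul, ch_pow]
      have h2 : (N₀ : ℝ) ≤ N := by exact_mod_cast hN
      have h3 : -ch χ g ≤ N * ch χ t := by
        have := (div_le_iff₀ ht).1 (hN₀.trans h2)
        exact this
      linarith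
    have h2 := hy0 _ h1 v hv
    have h3 : t ^ N * (g * v * g⁻¹) * (t ^ N)⁻¹ = (t ^ N * g) * v * (t ^ N * g)⁻¹ := by group
    rw [h3]
    exact h2
  | one =>
    refine ⟨Subgroup.one_mem _, 0, fun N _ => ?_⟩
    rw [mul_one, mul_inv_cancel]
    exact y_one y hy
  | mul a b _ _ iha ihb =>
    obtain ⟨ha, N₁, h1⟩ := iha
    obtain ⟨hb, N₂, h2⟩ := ihb
    refine ⟨Subgroup.mul_mem _ ha hb, max N₁ N₂, fun N hN => ?_⟩
    have h3 : t ^ N * (a * b) * (t ^ N)⁻¹ = (t ^ N * a * (t ^ N)⁻¹) * (t ^ N * b * (t ^ N)⁻¹) := by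
      group
    rw [h3, hy _ (conj_mem ha _) _ (conj_mem hb _), h1 N (le_trans (le_max_left _ _) hN),
      h2 N (le_trans (le_max_right _ _) hN), add_zero]
  | inv a _ iha =>
    obtain ⟨ha, N₁, h1⟩ := iha
    refine ⟨Subgroup.inv_mem _ ha, N₁, fun N hN => ?_⟩
    have h3 : t ^ N * a⁻¹ * (t ^ N)⁻¹ = (t ^ N * a * (t ^ N)⁻¹)⁻¹ := by group
    rw [h3, y_inv y hy (conj_mem ha _), h1 N hN, neg_zero]

end Yg

open Yg in
theorem I_Yg (h : StNC) : StYg := by
  classical
  intro G _ _ hmet χ hχ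
  obtain ⟨V1, hV1, hnc⟩ := h G
  obtain ⟨X, hX⟩ := (Group.fg_def.1 (inferInstance : Group.FG G))
  obtain ⟨t, ht⟩ := exists_t χ hχ
  have hcm : ∀ g : G, t * g * t⁻¹ * g⁻¹ ∈ commutator G := fun g =>
    Subgroup.commutator_mem_commutator (Subgroup.mem_top t) (Subgroup.mem_top g)
  refine ⟨V1 ∪ X.image (fun g => t * g * t⁻¹ * g⁻¹), ?_, ?_⟩
  · intro v hv
    rcases Finset.mem_union.1 hv with hv | hv
    · exact hV1 v hv
    · obtain ⟨g, -, rfl⟩ := Finset.mem_image.1 hv
      exact hcm g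
  intro k _ y hy hy0
  have hy1 : ∀ g, 0 ≤ ch χ g → ∀ v ∈ V1, y (g * v * g⁻¹) = 0 := fun g hg v hv =>
    hy0 g hg v (Finset.mem_union_left _ hv)
  have s1 : ∀ a ∈ commutator G, ∃ N₀ : ℕ, ∀ N, N₀ ≤ N → y (t ^ N * a * (t ^ N)⁻¹) = 0 :=
    fun a ha => (step1 χ ht V1 hV1 y hy hy1 (hnc ha)).2
  have s2 : ∀ x : G, ∃ c : k, ∃ N₀ : ℕ, ∀ N, N₀ ≤ N → y (al t N x) = c := by
    intro x
    obtain ⟨N₀, hN₀⟩ := s1 _ (hcm x)
    refine ⟨y (al t N₀ x), N₀, fun N hN => ?_⟩
    induction N, hN using Nat.le_induction with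
    | base => rfl
    | succ N hN ih =>
      rw [al_succ, hy _ (conj_mem (hcm x) _) _ (al_mem _ _ _), hN₀ N hN, zero_add, ih]
  choose c hc using s2
  refine ⟨fun x => -c x, ?_, ?_⟩
  · intro a ha x
    obtain ⟨N₁, h1⟩ := s1 a ha
    obtain ⟨N₂, h2⟩ := hc x
    obtain ⟨N₃, h3⟩ := hc (a * x)
    have e1 := h1 (N₁ + N₂ + N₃) (by omega)
    have e2 := h2 (N₁ + N₂ + N₃) (by omega)
    have e3 := h3 (N₁ + N₂ + N₃) (by omega)
    rw [al_left, hy _ (Subgroup.mul_mem _ (conj_mem ha _) (al_mem _ _ _)) _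
      (Subgroup.inv_mem _ ha), hy _ (conj_mem ha _) _ (al_mem _ _ _), e1, e2, y_inv y hy ha] at e3
    show -c (a * x) = y a + -c x
    rw [← e3]
    abel
  · have s4 : ∀ g ∈ X, ∀ x : G, 0 ≤ ch χ x → ∀ N : ℕ, y (x * al t N g * x⁻¹) = 0 := by
      intro g hg x hx N
      induction N with
      | zero => rw [al_zero, mul_one, mul_inv_cancel]; exact y_one y hy
      | succ N ih =>
        have e1 : x * al t (N + 1) g * x⁻¹ =
            ((x * t ^ N) * (t * g * t⁻¹ * g⁻¹) * (x * t ^ N)⁻¹) * (x * al t N g * x⁻¹) := by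
          rw [al_succ]
          group
        have h1 : 0 ≤ ch χ (x * t ^ N) := by
          rw [ch_mul, ch_pow]
          positivity
        have h2 := hy0 (x * t ^ N) h1 (t * g * t⁻¹ * g⁻¹)
          (Finset.mem_union_right _ (Finset.mem_image_of_mem _ hg))
        rw [e1, hy _ (conj_mem (hcm g) _) _ (conj_mem (al_mem _ _ _) _), h2, ih, add_zero]
    have s5 : ∀ g ∈ X, ∀ x : G, 0 ≤ ch χ x → c (x * g) = c x := by
      intro g hg x hx
      obtain ⟨N₂, h2⟩ := hc x
      obtain ⟨N₃, h3⟩ := hc (x * g)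
      have e2 := h2 (N₂ + N₃) (by omega)
      have e3 := h3 (N₂ + N₃) (by omega)
      rw [al_right, hy _ (al_mem _ _ _) _ (conj_mem (al_mem _ _ _) _), e2, s4 g hg x hx,
        add_zero] at e3
      exact e3.symm
    have s6 : ∀ g : G, ∃ C : ℝ, ∀ x, C ≤ ch χ x → c (x * g) = c x := by
      intro g
      have hg : g ∈ Subgroup.closure (X : Set G) := by rw [hX]; exact Subgroup.mem_top g
      induction hg using Subgroup.closure_induction with
      | mem g hg => exact ⟨0, fun x hx => s5 g hg x hx⟩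
      | one => exact ⟨0, fun x _ => by rw [mul_one]⟩
      | mul a b _ _ iha ihb =>
        obtain ⟨Ca, hCa⟩ := iha
        obtain ⟨Cb, hCb⟩ := ihb
        refine ⟨max Ca (Cb - ch χ a), fun x hx => ?_⟩
        have h1 := le_trans (le_max_left _ _) hx
        have h2 := le_trans (le_max_right _ _) hx
        rw [← mul_assoc, hCb (x * a) (by rw [ch_mul]; linarith), hCa x h1]
      | inv a _ iha =>
        obtain ⟨Ca, hCa⟩ := iha
        refine ⟨Ca + ch χ a, fun x hx => ?_⟩
        have h1 := hCa (x * a⁻¹) (by rw [ch_mul, ch_inv]; linarith)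
        rw [inv_mul_cancel_right] at h1
        exact h1.symm
    intro g
    obtain ⟨C, hC⟩ := s6 g
    exact ⟨C, fun x hx => by
      show -c (x * g) = -c x
      rw [hC x hx]⟩

end Pool.Agent.Work.MP_e9e200_al

end

section

/-! Item Phi: a function which grows along the translation by `μ`. -/

set_option autoImplicit false

namespace Pool.Agent.Work.MP_e9e200_al

theorem I_Phi : StPhi := by
  intro M _ p _ μ hμ
  have hz : ∀ j : ℤ, j • μ = 0 → (p : ℤ) ∣ j := by
    intro j hj
    have h1 : j.natAbs • μ = 0 := by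
      rcases Int.natAbs_eq j with h | h
      · rw [h, natCast_zsmul] at hj
        exact hj
      · rw [h, neg_smul, natCast_zsmul, neg_eq_zero] at hj
        exact hj
    exact Int.natCast_dvd.2 (hμ _ h1)
  let H : AddSubgroup M := AddSubgroup.zmultiples μ
  have hr : ∀ x : M, ∃ j : ℤ, x = (Quotient.out (QuotientAddGroup.mk x : M ⧸ H)) + j • μ := by
    intro x
    have h1 : (QuotientAddGroup.mk (Quotient.out (QuotientAddGroup.mk x : M ⧸ H)) : M ⧸ H) =
        QuotientAddGroup.mk x := QuotientAddGroup.out_eq' _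
    rw [QuotientAddGroup.eq] at h1
    obtain ⟨j, hj⟩ := AddSubgroup.mem_zmultiples_iff.1 h1
    refine ⟨j, ?_⟩
    rw [hj]
    abel
  choose j hj using hr
  refine ⟨fun x => (j x : ZMod p), fun x => ?_⟩
  have h2 : (QuotientAddGroup.mk (μ + x) : M ⧸ H) = QuotientAddGroup.mk x := by
    rw [eq_comm, QuotientAddGroup.eq]
    have h3 : -x + (μ + x) = μ := by abel
    rw [h3]
    exact AddSubgroup.mem_zmultiples μ
  have h4 := hj (μ + x)
  have h5 := hj x
  rw [h2] at h4
  have h6 : (j x + 1 - j (μ + x)) • μ = 0 := by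
    rw [sub_smul, add_smul, one_smul]
    have h7 : μ + (Quotient.out (QuotientAddGroup.mk x : M ⧸ H) + j x • μ) =
        Quotient.out (QuotientAddGroup.mk x : M ⧸ H) + j (μ + x) • μ := by
      rw [← h5]
      exact h4
    have h8 : j (μ + x) • μ = μ + j x • μ := by
      have h9 := congrArg (fun y => -(Quotient.out (QuotientAddGroup.mk x : M ⧸ H)) + y) h7
      simp only [neg_add_cancel_left] at h9
      rw [← h9]
      abel
    rw [h8]
    abel
  have h7 := hz _ h6
  have h8 : ((j x + 1 - j (μ + x) : ℤ) : ZMod p) = 0 := (ZMod.intCast_zmod_eq_zero_iff_dvd _ p).2 h7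
  push_cast at h8
  linear_combination -h8

end Pool.Agent.Work.MP_e9e200_al

end

section

/-!
# MP_e9e200_al, item Prime: `G'` is finitely generated if it is so locally at all primes
-/

set_option autoImplicit false

namespace Pool.Agent.Work.MP_e9e200_al

namespace Prime

variable {G : Type} [Group G]

theorem chi_mul (χ : Additive G →+ ℝ) (a b : G) :
    χ (Additive.ofMul (a * b)) = χ (Additive.ofMul a) + χ (Additive.ofMul b) := by
  rw [ofMul_mul, map_add]

theorem chi_inv (χ : Additive G →+ ℝ) (a : G) :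
    χ (Additive.ofMul a⁻¹) = - χ (Additive.ofMul a) := by
  rw [ofMul_inv, map_neg]

/-- `Gen` is stable under conjugation by the elements of `G_χ` -/
theorem gen_conj (χ : Additive G →+ ℝ) (V : Finset G) (g : G) (hg : 0 ≤ χ (Additive.ofMul g))
    (w : G) (hw : w ∈ Gen G χ V) : g * w * g⁻¹ ∈ Gen G χ V := by
  unfold Gen at hw ⊢
  induction hw using Subgroup.closure_induction with
  | mem x hx =>
    obtain ⟨k, v, hk, hv, rfl⟩ := hx
    refine Subgroup.subset_closure ⟨g * k, v, ?_, hv, by group⟩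
    rw [chi_mul]
    exact add_nonneg hg hk
  | one =>
    have : g * 1 * g⁻¹ = 1 := by group
    rw [this]
    exact Subgroup.one_mem _
  | mul x y _ _ h1 h2 =>
    have : g * (x * y) * g⁻¹ = (g * x * g⁻¹) * (g * y * g⁻¹) := by group
    rw [this]
    exact Subgroup.mul_mem _ h1 h2
  | inv x _ h1 =>
    have : g * x⁻¹ * g⁻¹ = (g * x * g⁻¹)⁻¹ := by group
    rw [this]
    exact Subgroup.inv_mem _ h1

/-- conjugation by `u` moves `Gen V'` into `Gen V` if it does so for the generators -/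
theorem gen_move (χ : Additive G →+ ℝ) (V V' : Finset G) (u : G)
    (hu : ∀ v ∈ V', u * v * u⁻¹ ∈ Gen G χ V) (w : G) (hw : w ∈ Gen G χ V') :
    u * w * u⁻¹ ∈ Gen G χ V := by
  unfold Gen at hw
  induction hw using Subgroup.closure_induction with
  | mem x hx =>
    obtain ⟨k, v, hk, hv, rfl⟩ := hx
    have : u * (k * v * k⁻¹) * u⁻¹ = (u * k * u⁻¹) * (u * v * u⁻¹) * (u * k * u⁻¹)⁻¹ := by group
    rw [this]
    refine gen_conj χ V _ ?_ _ (hu v hv)
    rw [chi_mul, chi_mul, chi_inv]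
    linarith
  | one =>
    have : u * 1 * u⁻¹ = 1 := by group
    rw [this]
    exact Subgroup.one_mem _
  | mul x y _ _ h1 h2 =>
    have : u * (x * y) * u⁻¹ = (u * x * u⁻¹) * (u * y * u⁻¹) := by group
    rw [this]
    exact Subgroup.mul_mem _ h1 h2
  | inv x _ h1 =>
    have : u * x⁻¹ * u⁻¹ = (u * x * u⁻¹)⁻¹ := by group
    rw [this]
    exact Subgroup.inv_mem _ h1

/-- powers -/
theorem y_pow {M : Type} [AddCommGroup M] (A : Subgroup G) (y : G → M)
    (hy : ∀ a ∈ A, ∀ b ∈ A, y (a * b) = y a + y b) (a : G) (ha : a ∈ A) (n : ℕ) :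
    y (a ^ n) = n • y a := by
  induction n with
  | zero =>
    have h1 := hy 1 A.one_mem 1 A.one_mem
    rw [mul_one] at h1
    rw [pow_zero, zero_smul]
    exact left_eq_add.1 h1
  | succ n ih =>
    rw [pow_succ, hy _ (A.pow_mem ha n) _ ha, ih, succ_nsmul]

/-- an element with positive value -/
theorem exists_pos (χ : Additive G →+ ℝ) (hχ : χ ≠ 0) : ∃ t : G, 0 < χ (Additive.ofMul t) := by
  by_contra hcon
  push Not at hcon
  apply hχ
  ext g
  have h1 := hcon (Additive.toMul g)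
  have h2 := hcon (Additive.toMul g)⁻¹
  rw [chi_inv] at h2
  rw [ofMul_toMul] at h1 h2
  show χ g = 0
  linarith

end Prime

theorem I_Prime (h : StQuot3) : StPrime := by
  classical
  intro G _ _ hG χ hχ hp
  obtain ⟨V, -, hV, M, _, y, hadd, hker, hmove, -⟩ := h G hG χ hχ ∅ (by simp)
  refine ⟨V, hV, fun a0 ha0 => ?_⟩
  by_contra hcon
  have hy0 : y a0 ≠ 0 := fun h0 => hcon ((hker a0 ha0).1 h0)
  have hord : addOrderOf (y a0) ≠ 1 := fun h1 => hy0 (AddMonoid.addOrderOf_eq_one_iff.1 h1)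
  have hpp : (addOrderOf (y a0)).minFac.Prime := Nat.minFac_prime hord
  obtain ⟨V', hV', hgen⟩ := hp _ hpp
  obtain ⟨t, ht⟩ := Prime.exists_pos χ hχ
  choose! N0 hN0 using hmove t ht
  obtain ⟨N, hN⟩ : ∃ N : ℕ, ∀ v ∈ V', N0 v ≤ N :=
    ⟨V'.sup N0, fun v hv => Finset.le_sup (f := N0) hv⟩
  have hmv : ∀ v ∈ V', t ^ N * v * (t ^ N)⁻¹ ∈ Gen G χ V := by
    intro v hv
    have hn : (commutator G).Normal := inferInstance
    exact (hker _ (hn.conj_mem v (hV' v hv) (t ^ N))).1 (hN0 v (hV' v hv) N (hN v hv))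
  have hn : (commutator G).Normal := inferInstance
  have ha : (t ^ N)⁻¹ * a0 * (t ^ N)⁻¹⁻¹ ∈ commutator G := hn.conj_mem a0 ha0 _
  obtain ⟨n, hn1, hn2⟩ := hgen _ ha
  have h1 := Prime.gen_move χ V V' (t ^ N) hmv _ hn2
  have h2 : t ^ N * ((t ^ N)⁻¹ * a0 * (t ^ N)⁻¹⁻¹) ^ n * (t ^ N)⁻¹ = a0 ^ n := by
    rw [conj_pow]
    group
  rw [h2] at h1
  have h3 := (hker _ ((commutator G).pow_mem ha0 n)).2 h1
  rw [Prime.y_pow (commutator G) y hadd a0 ha0 n] at h3
  exact hn1 ((Nat.minFac_dvd _).trans (addOrderOf_dvd_of_nsmul_eq_zero h3))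

end Pool.Agent.Work.MP_e9e200_al

end

section

/-!
# The quotient of the derived group, precise form
-/

set_option autoImplicit false

namespace Pool.Agent.Work.MP_e9e200_al

namespace Quot3

variable {G : Type} [Group G]

/-- the character as a function on `G` -/
def ch (χ : Additive G →+ ℝ) (g : G) : ℝ := χ (Additive.ofMul g)

theorem ch_mul (χ : Additive G →+ ℝ) (a b : G) : ch χ (a * b) = ch χ a + ch χ b := by
  unfold ch
  rw [ofMul_mul, map_add]

theorem ch_one (χ : Additive G →+ ℝ) : ch χ (1 : G) = 0 := by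
  unfold ch
  rw [ofMul_one, map_zero]

theorem ch_pow (χ : Additive G →+ ℝ) (a : G) (N : ℕ) : ch χ (a ^ N) = N * ch χ a := by
  induction N with
  | zero => rw [pow_zero, ch_one]; simp
  | succ N ih => rw [pow_succ, ch_mul, ih]; push_cast; ring

theorem conj_mem {a : G} (ha : a ∈ commutator G) (g : G) : g * a * g⁻¹ ∈ commutator G :=
  (inferInstance : (commutator G).Normal).conj_mem a ha g

section

variable {M : Type} [AddCommGroup M] (y : G → M)
  (hy : ∀ a ∈ commutator G, ∀ b ∈ commutator G, y (a * b) = y a + y b)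

include hy

theorem y_one : y 1 = 0 := by
  have h := hy 1 (Subgroup.one_mem _) 1 (Subgroup.one_mem _)
  rw [mul_one] at h
  exact left_eq_add.1 h

theorem y_inv {a : G} (ha : a ∈ commutator G) : y a⁻¹ = -y a := by
  have h := hy a ha a⁻¹ (Subgroup.inv_mem _ ha)
  rw [mul_inv_cancel, y_one y hy] at h
  exact (neg_eq_of_add_eq_zero_right h.symm).symm

theorem step1 (χ : Additive G →+ ℝ) {t : G} (ht : 0 < ch χ t)
    (V : Finset G) (hV : ∀ v ∈ V, v ∈ commutator G)
    (hy0 : ∀ g, 0 ≤ ch χ g → ∀ v ∈ V, y (g * v * g⁻¹) = 0) {a : G}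
    (ha : a ∈ Subgroup.normalClosure (V : Set G)) :
    a ∈ commutator G ∧ ∃ N₀ : ℕ, ∀ N, N₀ ≤ N → y (t ^ N * a * (t ^ N)⁻¹) = 0 := by
  unfold Subgroup.normalClosure at ha
  induction ha using Subgroup.closure_induction with
  | mem x hx =>
    obtain ⟨v, hv, hc⟩ := Group.mem_conjugatesOfSet_iff.1 hx
    obtain ⟨g, rfl⟩ := isConj_iff.1 hc
    refine ⟨conj_mem (hV v hv) g, ?_⟩
    obtain ⟨N₀, hN₀⟩ := exists_nat_ge (-ch χ g / ch χ t)
    refine ⟨N₀, fun N hN => ?_⟩
    have h1 : 0 ≤ ch χ (t ^ N * g) := by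
      rw [ch_mul, ch_pow]
      have h2 : (N₀ : ℝ) ≤ N := by exact_mod_cast hN
      have h3 : -ch χ g ≤ N * ch χ t := by
        have := (div_le_iff₀ ht).1 (hN₀.trans h2)
        exact this
      linarith
    have h2 := hy0 _ h1 v hv
    have h3 : t ^ N * (g * v * g⁻¹) * (t ^ N)⁻¹ = (t ^ N * g) * v * (t ^ N * g)⁻¹ := by group
    rw [h3]
    exact h2
  | one =>
    refine ⟨Subgroup.one_mem _, 0, fun N _ => ?_⟩
    rw [mul_one, mul_inv_cancel]
    exact y_one y hy
  | mul a b _ _ iha ihb =>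
    obtain ⟨ha, N₁, h1⟩ := iha
    obtain ⟨hb, N₂, h2⟩ := ihb
    refine ⟨Subgroup.mul_mem _ ha hb, max N₁ N₂, fun N hN => ?_⟩
    have h3 : t ^ N * (a * b) * (t ^ N)⁻¹ = (t ^ N * a * (t ^ N)⁻¹) * (t ^ N * b * (t ^ N)⁻¹) := by
      group
    rw [h3, hy _ (conj_mem ha _) _ (conj_mem hb _), h1 N (le_trans (le_max_left _ _) hN),
      h2 N (le_trans (le_max_right _ _) hN), add_zero]
  | inv a _ iha =>
    obtain ⟨ha, N₁, h1⟩ := iha
    refine ⟨Subgroup.inv_mem _ ha, N₁, fun N hN => ?_⟩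
    have h3 : t ^ N * a⁻¹ * (t ^ N)⁻¹ = (t ^ N * a * (t ^ N)⁻¹)⁻¹ := by group
    rw [h3, y_inv y hy (conj_mem ha _), h1 N hN, neg_zero]

end

/-- the quotient of the derived group by a subgroup -/
theorem exQ (hm : Metab G) (B : Subgroup G) :
    ∃ (M : Type) (_ : AddCommGroup M) (y : G → M),
      (∀ a ∈ commutator G, ∀ b ∈ commutator G, y (a * b) = y a + y b) ∧
      ∀ a ∈ commutator G, (y a = 0 ↔ a ∈ B) := by
  classical
  let _ : CommGroup (commutator G) :=
    { (inferInstance : Group (commutator G)) with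
      mul_comm := fun a b => Subtype.ext (hm a a.2 b b.2) }
  obtain ⟨e, he⟩ : ∃ e : G → Additive (commutator G ⧸ B.subgroupOf (commutator G)),
      ∀ (a : G) (h : a ∈ commutator G), e a = Additive.ofMul (QuotientGroup.mk ⟨a, h⟩) :=
    ⟨fun a => if h : a ∈ commutator G then Additive.ofMul (QuotientGroup.mk ⟨a, h⟩) else 0,
      fun a h => dif_pos h⟩
  refine ⟨Additive (commutator G ⧸ B.subgroupOf (commutator G)), inferInstance, e, ?_, ?_⟩
  · intro a ha b hb
    rw [he a ha, he b hb, he _ (mul_mem ha hb)]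
    rfl
  · intro a ha
    rw [he a ha, ofMul_eq_zero, QuotientGroup.eq_one_iff, Subgroup.mem_subgroupOf]

/-- conjugation by elements with nonnegative character -/
theorem conj_Gen (χ : Additive G →+ ℝ) (V : Finset G) {s : G} (hs : 0 ≤ ch χ s) {w : G}
    (hw : w ∈ Gen G χ V) : s * w * s⁻¹ ∈ Gen G χ V := by
  unfold Gen at hw ⊢
  induction hw using Subgroup.closure_induction with
  | mem x hx =>
    obtain ⟨g, v, hg, hv, rfl⟩ := hx
    refine Subgroup.subset_closure ⟨s * g, v, ?_, hv, by group⟩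
    have := ch_mul χ s g
    unfold ch at this hs
    rw [this]
    exact add_nonneg hs hg
  | one =>
    rw [mul_one, mul_inv_cancel]
    exact Subgroup.one_mem _
  | mul a b _ _ iha ihb =>
    have : s * (a * b) * s⁻¹ = (s * a * s⁻¹) * (s * b * s⁻¹) := by group
    rw [this]
    exact Subgroup.mul_mem _ iha ihb
  | inv a _ iha =>
    have : s * a⁻¹ * s⁻¹ = (s * a * s⁻¹)⁻¹ := by group
    rw [this]
    exact Subgroup.inv_mem _ iha

theorem ex_pos (χ : Additive G →+ ℝ) (hχ : χ ≠ 0) : ∃ t : G, 0 < ch χ t := by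
  by_contra hcon
  push Not at hcon
  apply hχ
  refine AddMonoidHom.ext fun g => ?_
  have h1 := hcon (Additive.toMul g)
  have h2 := hcon (Additive.toMul g)⁻¹
  have h3 := ch_mul χ (Additive.toMul g) (Additive.toMul g)⁻¹
  rw [mul_inv_cancel, ch_one] at h3
  have h4 : ch χ (Additive.toMul g) = χ g := rfl
  rw [← h4, AddMonoidHom.zero_apply]
  linarith

end Quot3

open Quot3 in
theorem I_Quot3 (h : StNC) : StQuot3 := by
  classical
  intro G _ _ hmet χ hχ V0 hV0
  obtain ⟨V1, hV1, hnc⟩ := h G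
  have hV : ∀ v ∈ V0 ∪ V1, v ∈ commutator G := by
    intro v hv
    rcases Finset.mem_union.1 hv with hv | hv
    · exact hV0 v hv
    · exact hV1 v hv
  obtain ⟨M, _, y, hy, hy0⟩ := exQ hmet (Gen G χ (V0 ∪ V1))
  have hk : ∀ g, 0 ≤ χ (Additive.ofMul g) → ∀ v ∈ V0 ∪ V1, y (g * v * g⁻¹) = 0 := by
    intro g hg v hv
    rw [hy0 _ (conj_mem (hV v hv) g)]
    exact Subgroup.subset_closure ⟨g, v, hg, hv, rfl⟩
  have h3 : ∀ t : G, 0 < χ (Additive.ofMul t) → ∀ a ∈ commutator G,
      ∃ N0 : ℕ, ∀ N : ℕ, N0 ≤ N → y (t ^ N * a * (t ^ N)⁻¹) = 0 := by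
    intro t ht a ha
    exact (step1 y hy χ ht V1 hV1 (fun g hg v hv => hk g hg v (Finset.mem_union_right _ hv))
      (hnc ha)).2
  refine ⟨V0 ∪ V1, Finset.subset_union_left, hV, M, inferInstance, y, hy, hy0, h3, ?_⟩
  rintro ⟨a₀, ha₀, hne⟩ hfin
  obtain ⟨t, ht⟩ := ex_pos χ hχ
  -- representatives
  have hr : ∀ m : M, ∃ (a : G) (N : ℕ), m ∈ y '' (commutator G : Set G) →
      a ∈ commutator G ∧ y a = m ∧ ∀ N', N ≤ N' → y (t ^ N' * a * (t ^ N')⁻¹) = 0 := by
    intro m
    by_cases hm : m ∈ y '' (commutator G : Set G)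
    · obtain ⟨a, ha, hm⟩ := hm
      obtain ⟨N, hN⟩ := h3 t ht a ha
      exact ⟨a, N, fun _ => ⟨ha, hm, hN⟩⟩
    · exact ⟨1, 0, fun hc => absurd hc hm⟩
  choose r N hr using hr
  set N₁ : ℕ := hfin.toFinset.sup N with hN₁
  have hall : ∀ a ∈ commutator G, y (t ^ N₁ * a * (t ^ N₁)⁻¹) = 0 := by
    intro a ha
    have hmem : y a ∈ y '' (commutator G : Set G) := ⟨a, ha, rfl⟩
    obtain ⟨hr1, hr2, hr3⟩ := hr _ hmem
    have hle : N (y a) ≤ N₁ := Finset.le_sup (f := N) (hfin.mem_toFinset.2 hmem)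
    have hwA : a * (r (y a))⁻¹ ∈ commutator G := mul_mem ha (inv_mem hr1)
    have hin : a * (r (y a))⁻¹ ∈ Gen G χ (V0 ∪ V1) := by
      rw [← hy0 _ hwA, hy a ha _ (inv_mem hr1), y_inv y hy hr1, hr2, add_neg_cancel]
    have hpos : 0 ≤ ch χ (t ^ N₁) := by
      rw [ch_pow]
      positivity
    have h5 := conj_Gen χ (V0 ∪ V1) hpos hin
    rw [← hy0 _ (conj_mem hwA _)] at h5
    have e : t ^ N₁ * a * (t ^ N₁)⁻¹ = (t ^ N₁ * (a * (r (y a))⁻¹) * (t ^ N₁)⁻¹) *
        (t ^ N₁ * r (y a) * (t ^ N₁)⁻¹) := by group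
    rw [e, hy _ (conj_mem hwA _) _ (conj_mem hr1 _), h5, hr3 N₁ hle, add_zero]
  apply hne
  have h6 := hall ((t ^ N₁)⁻¹ * a₀ * ((t ^ N₁)⁻¹)⁻¹) (conj_mem ha₀ _)
  have e : t ^ N₁ * ((t ^ N₁)⁻¹ * a₀ * ((t ^ N₁)⁻¹)⁻¹) * (t ^ N₁)⁻¹ = a₀ := by group
  rw [e] at h6
  exact h6

end Pool.Agent.Work.MP_e9e200_al

end

section

/-!
# Prescribed signs for linearly independent characters
-/

set_option autoImplicit false

namespace Pool.Agent.Work.MP_e9e200_al

namespace Sign

variable {G : Type} [Group G] {n : ℕ}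

/-- all characters together -/
noncomputable def ev (Y : Fin n → (Additive G →+ ℝ)) : Additive G →+ (Fin n → ℝ) where
  toFun g := fun i => Y i g
  map_zero' := by
    funext i
    exact map_zero (Y i)
  map_add' a b := by
    funext i
    exact map_add (Y i) a b

theorem ev_apply (Y : Fin n → (Additive G →+ ℝ)) (g : Additive G) (i : Fin n) :
    ev Y g i = Y i g := rfl

theorem span_top (Y : Fin n → (Additive G →+ ℝ)) (h : LinearIndependent ℝ Y) :
    Submodule.span ℝ (Set.range (ev Y)) = ⊤ := by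
  by_contra hne
  obtain ⟨f, hf0, hf⟩ := Submodule.exists_le_ker_of_lt_top _ (lt_top_iff_ne_top.2 hne)
  rw [Fintype.linearIndependent_iff] at h
  have hfv : ∀ v : Fin n → ℝ, f v = ∑ i, v i * f (Pi.single i 1) := by
    intro v
    conv_lhs => rw [← Finset.univ_sum_single v]
    rw [map_sum]
    refine Finset.sum_congr rfl fun i _ => ?_
    have : (Pi.single i (v i) : Fin n → ℝ) = v i • Pi.single i 1 := by
      rw [← Pi.single_smul, smul_eq_mul, mul_one]
    rw [this, map_smul, smul_eq_mul]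
  have h1 := h (fun i => f (Pi.single i 1)) (by
    refine DFunLike.ext _ _ fun g => ?_
    have h2 : f (ev Y g) = 0 := hf (Submodule.subset_span ⟨g, rfl⟩)
    rw [hfv] at h2
    rw [AddMonoidHom.finsetSum_apply, AddMonoidHom.zero_apply, ← h2]
    refine Finset.sum_congr rfl fun i _ => ?_
    rw [AddMonoidHom.smul_apply, smul_eq_mul, mul_comm]
    rfl)
  apply hf0
  ext v
  simp only [LinearMap.comp_apply, LinearMap.zero_apply]
  rw [hfv]
  exact Finset.sum_eq_zero fun i _ => by rw [h1 i, mul_zero]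

theorem exists_elt (Y : Fin n → (Additive G →+ ℝ)) (h : LinearIndependent ℝ Y)
    (d : Fin n → ℝ) : ∃ (t : ℝ) (g : Additive G), ∀ i, |Y i g - t * d i| < t := by
  have hd : d ∈ Submodule.span ℝ (Set.range (ev Y)) := by
    rw [span_top Y h]
    trivial
  rw [Finsupp.mem_span_range_iff_exists_finsupp] at hd
  obtain ⟨c, hc⟩ := hd
  set B : ℝ := ∑ g ∈ c.support, ∑ i, |Y i g| with hB
  have hBi : ∀ i, ∑ g ∈ c.support, |Y i g| ≤ B := by
    intro i
    refine Finset.sum_le_sum fun g _ => ?_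
    exact Finset.single_le_sum (f := fun i => |Y i g|) (fun _ _ => abs_nonneg _)
      (Finset.mem_univ i)
  have hmem : ∑ g ∈ c.support, ⌊(B + 1) * c g⌋ • ev Y g ∈ (ev Y).range :=
    AddSubgroup.sum_mem _ fun g _ =>
      AddSubgroup.zsmul_mem _ (AddMonoidHom.mem_range.2 ⟨g, rfl⟩) _
  obtain ⟨h, hh⟩ := hmem
  refine ⟨B + 1, h, fun i => ?_⟩
  have h1 : Y i h = ∑ g ∈ c.support, (⌊(B + 1) * c g⌋ : ℝ) * Y i g := by
    rw [← ev_apply Y h i, hh, Finset.sum_apply]
    refine Finset.sum_congr rfl fun g _ => ?_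
    rw [Pi.smul_apply, zsmul_eq_mul, ev_apply]
  have h2 : (B + 1) * d i = ∑ g ∈ c.support, ((B + 1) * c g) * Y i g := by
    rw [← hc, Finsupp.sum, Finset.sum_apply, Finset.mul_sum]
    refine Finset.sum_congr rfl fun g _ => ?_
    rw [Pi.smul_apply, smul_eq_mul, ev_apply]
    ring
  rw [h1, h2, ← Finset.sum_sub_distrib]
  refine lt_of_le_of_lt (Finset.abs_sum_le_sum_abs _ _)
    (lt_of_le_of_lt (le_trans (Finset.sum_le_sum (f := _) (g := fun g => |Y i g|) fun g _ => ?_)
      (hBi i)) (lt_add_one B))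
  rw [← sub_mul, abs_mul]
  have h3 : |(⌊(B + 1) * c g⌋ : ℝ) - (B + 1) * c g| ≤ 1 := by
    rw [abs_sub_comm, abs_of_nonneg (Int.fract_nonneg _)]
    exact (Int.fract_lt_one _).le
  calc |(⌊(B + 1) * c g⌋ : ℝ) - (B + 1) * c g| * |Y i g| ≤ 1 * |Y i g| := by gcongr
    _ = |Y i g| := one_mul _

end Sign

theorem I_Sign : StSign := by
  intro G _ n X hX j hj
  obtain ⟨t, g, hg⟩ := Sign.exists_elt (fun i : Fin n => X i) hX
    (fun i => if (i : ℕ) = j then -1 else 1)
  refine ⟨Additive.toMul g, ?_, fun i hi hij => ?_⟩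
  · have h1 := hg ⟨j, hj⟩
    simp only [if_true] at h1
    rw [abs_lt] at h1
    have h2 : X j g < 0 := by linarith [h1.2]
    exact h2.le
  · have h1 := hg ⟨i, hi⟩
    simp only [if_neg hij] at h1
    rw [abs_lt] at h1
    have h2 : 0 < X i g := by linarith [h1.1]
    exact h2

end Pool.Agent.Work.MP_e9e200_al

end
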