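import Pool.Agent.Work.MP_e9e200_al.Bd.B11
import Pool.Agent.Work.MP_e9e200_al.LC.Stmts3

/-! Bundle of small proof modules (one section per former module). -/

section

/-!
# Project O3: statements of the block F (incidence numbers, Hurewicz)

Each `def StXXX : Prop` is to be proved as `theorem I_XXX : StXXX` in `O3/P_XXX.lean`.
-/

set_option autoImplicit false

namespace Pool.Agent.Work.MP_e9e200_al.O3

open Set Metric Topology OnePoint

section
open Topology.RelCWComplex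

open scoped Classical in
/-- the collapse of the complement of finitely many open cells, given by the characteristic
maps `c` -/
noncomputable def qq {X : Type} {k n : ℕ} (c : Fin k → PartialEquiv (E n) X) (x : X) : W k n :=
  if h : ∃ a, x ∈ (c a).target then
    (((h.choose, psi ((c h.choose).symm x)) : Fin k × E n) : W k n) else ∞

/-- the incidence number of a map of the unit sphere of `ℝ^(n+1)` with an `n`-cell -/
noncomputable def inc {X : Type} {n : ℕ} (b : E (n + 1) → X) (c : PartialEquiv (E n) X) : ℤ :=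
  deg (0 : Fin 1) (Sus (fun x => qq (fun _ : Fin 1 => c) (b x)))

/-- QQ: the collapse map (uses SK, CNT, OPC, PHI) -/
def StQQ : Prop := ∀ (X : Type) [TopologicalSpace X] [T2Space X] (C : Set X) [CWComplex C]
  (k n : ℕ) (e : Fin k → cell C n), Function.Injective e →
  ContinuousOn (qq fun a => map n (e a)) (sk C (n + 1)) ∧
  (∀ a, ∀ y ∈ ball (0 : E n) 1, qq (fun a => map n (e a)) (map n (e a) y) =
    ((a, psi y) : Fin k × E n)) ∧
  (∀ x, (∀ a, x ∉ openCell n (e a)) → qq (fun a => map n (e a)) x = ∞) ∧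
  (∀ (a : Fin k) (x : X), pr a (qq (fun a => map n (e a)) x) = qq (fun _ : Fin 1 => map n (e a)) x)

/-- RAD: the radial coordinate and the radial retraction (uses SK, CNT) -/
def StRAD : Prop := ∀ (X : Type) [TopologicalSpace X] [T2Space X] (C : Set X) [CWComplex C]
  (n : ℕ), ∃ (ρ : X → ℝ) (R : X → X), ContinuousOn ρ (sk C (n + 2)) ∧
    ContinuousOn R (sk C (n + 2) ∩ {x | 0 < ρ x}) ∧
    (∀ x ∈ sk C (n + 1), ρ x = 1 ∧ R x = x) ∧
    (∀ (e : cell C (n + 1)) (x : E (n + 1)), ‖x‖ ≤ 1 → ρ (map (n + 1) e x) = ‖x‖ ∧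
      (x ≠ 0 → R (map (n + 1) e x) = map (n + 1) e (‖x‖⁻¹ • x))) ∧
    (∀ x, 0 ≤ ρ x ∧ ρ x ≤ 1) ∧ ∀ x ∈ sk C (n + 2), 0 < ρ x → R x ∈ sk C (n + 1)

/-- BD: the boundary formula for a map of a cube (uses QQ, RAD, U2, DEG, DPR, COMB, HO, PHI,
OPC) -/
def StBD : Prop := ∀ (X : Type) [TopologicalSpace X] [T2Space X] (C : Set X) [CWComplex C]
  (n : ℕ) (F : E (n + 1) → X), ContinuousOn F (closedBall 0 1) →
  MapsTo F (closedBall 0 1) (sk C (n + 2)) → MapsTo F (sphere 0 1) (sk C (n + 1)) →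
  ∀ (k : ℕ) (e : Fin k → cell C (n + 1)), Function.Injective e →
  (∀ x ∈ closedBall (0 : E (n + 1)) 1, F x ∈ sk C (n + 1) ∨ ∃ a, F x ∈ openCell (n + 1) (e a)) →
  ∀ c : cell C n, ∑ a : Fin k, deg (0 : Fin 1) (cut fun x => qq (fun _ => map (n + 1) (e a)) (F x)) *
    inc (map (n + 1) (e a)) (map n c) = inc F (map n c)

/-- IFN: finiteness of the incidence numbers (uses SK, DPR) -/
def StIFN : Prop := ∀ (X : Type) [TopologicalSpace X] [T2Space X] (C : Set X) [CWComplex C]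
  (n : ℕ) (b : E (n + 1) → X) (c : cell C n),
  (∀ x ∈ sphere (0 : E (n + 1)) 1, b x ∉ openCell n c) → inc b (map n c) = 0

/-- INV: homotopy invariance of the incidence numbers (uses SUSC, DEG, QQ) -/
def StINV : Prop := ∀ (X : Type) [TopologicalSpace X] [T2Space X] (C : Set X) [CWComplex C]
  (n : ℕ) (H : ℝ × E (n + 1) → X), ContinuousOn H (Icc 0 1 ×ˢ sphere 0 1) →
  (∀ t ∈ Icc (0 : ℝ) 1, ∀ x ∈ sphere (0 : E (n + 1)) 1, H (t, x) ∈ sk C (n + 1)) →
  ∀ c : cell C n, inc (fun x => H (0, x)) (map n c) = inc (fun x => H (1, x)) (map n c)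

/-- FDG: incidence numbers of a map of a face (uses SUSP, QQ, DEG) -/
def StFDG : Prop := ∀ (X : Type) [TopologicalSpace X] [T2Space X] (C : Set X) [CWComplex C]
  (n : ℕ) (z : X) (F : E (n + 1) → X), Lo z F → (∀ x, F x ∈ sk C (n + 2)) → z ∈ sk C (n + 1) →
  ∀ c : cell C (n + 1), inc (fac z F) (map (n + 1) c) =
    deg (0 : Fin 1) (fun x => qq (fun _ => map (n + 1) c) (F x))

/-- the data of a null homotopy `D` of the skeleton `sk C N` -/
structure NH {X : Type} [TopologicalSpace X] (C : Set X) [CWComplex C] (N : ℕ) (y₀ : X)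
    (D : ℝ × X → X) : Prop where
  cont : ContinuousOn D (Icc 0 1 ×ˢ sk C N)
  zero : ∀ x ∈ sk C N, D (0, x) = x
  one : ∀ x ∈ sk C N, D (1, x) = y₀
  base : ∀ t ∈ Icc (0 : ℝ) 1, D (t, y₀) = y₀
  sk : ∀ j < N, ∀ x ∈ sk C (j + 1), ∀ t ∈ Icc (0 : ℝ) 1, D (t, x) ∈ O3.sk C (j + 2)

/-- NHX: existence of null homotopies of skeleta (uses SK, CNT, ESK) -/
def StNHX : Prop := ∀ (X : Type) [TopologicalSpace X] [T2Space X] (C : Set X) [CWComplex C]
  (N : ℕ) (v : cell C 0), (∀ j < N, Ext (sk C (j + 2)) j) → ∃ D, NH C N (map 0 v 0) D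

/-- HEP: extension of the null homotopy to the next skeleton (uses SK, CNT) -/
def StHEP : Prop := ∀ (X : Type) [TopologicalSpace X] [T2Space X] (C : Set X) [CWComplex C]
  (N : ℕ) (y₀ : X) (D : ℝ × X → X), NH C (N + 1) y₀ D → ∃ D' : ℝ × X → X,
    ContinuousOn D' (Icc 0 1 ×ˢ sk C (N + 2)) ∧ (∀ x ∈ sk C (N + 2), D' (0, x) = x) ∧
    (∀ x ∈ sk C (N + 1), ∀ t ∈ Icc (0 : ℝ) 1, D' (t, x) = D (t, x)) ∧
    (∀ x ∈ sk C (N + 2), ∀ t ∈ Icc (0 : ℝ) 1, D' (t, x) ∈ sk C (N + 2)) ∧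
    ∀ (e : cell C (N + 1)) (x : E (N + 1)),
      (‖x‖ ≤ 1 / 2 → D' (1, map (N + 1) e x) = map (N + 1) e ((2 : ℝ) • x)) ∧
      (1 / 2 ≤ ‖x‖ → ‖x‖ ≤ 1 → D' (1, map (N + 1) e x) =
        D (2 - ‖x‖⁻¹, map (N + 1) e (‖x‖⁻¹ • x)))

open scoped Classical in
/-- the map of the cell `e` given by the null homotopy -/
noncomputable def rr {X : Type} [TopologicalSpace X] (C : Set X) [CWComplex C] (N : ℕ) (y₀ : X)
    (D : ℝ × X → X) (e : cell C (N + 1)) (x : E (N + 1)) : X :=
  if ‖x‖ ≤ 1 / 2 then map (N + 1) e ((2 : ℝ) • x)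
  else if ‖x‖ ≤ 1 then D (2 - ‖x‖⁻¹, map (N + 1) e (‖x‖⁻¹ • x)) else y₀

/-- RR: the map of a wedge given by the maps `rr`, and the factorization of a map of a cube
(uses HEP, QQ, SK, FIN, PHI, OPC, CNT) -/
def StRR : Prop := ∀ (X : Type) [TopologicalSpace X] [T2Space X] (C : Set X) [CWComplex C]
  (N : ℕ) (y₀ : X) (D : ℝ × X → X), y₀ ∈ sk C 1 → NH C (N + 1) y₀ D →
  ∀ (k : ℕ) (e : Fin k → cell C (N + 1)), Function.Injective e →
  (∀ a, Lo y₀ (rr C N y₀ D (e a)) ∧ ∀ x, rr C N y₀ D (e a) x ∈ sk C (N + 2)) ∧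
  ∃ r : W k (N + 1) → X, Continuous r ∧ r ∞ = y₀ ∧ (∀ w, r w ∈ sk C (N + 2)) ∧
    (∀ a x, r (io a x) = rr C N y₀ D (e a) x) ∧
    ∀ F : E (N + 1) → X, Lo y₀ F → (∀ x, F x ∈ sk C (N + 1) ∨ ∃ a, F x ∈ openCell (N + 1) (e a)) →
      ∃ H : ℝ × E (N + 1) → X, Continuous H ∧ (∀ p, H p ∈ sk C (N + 2)) ∧
        (∀ t x, 1 ≤ ‖x‖ → H (t, x) = y₀) ∧ (∀ x, H (0, x) = F x) ∧
        ∀ x, H (1, x) = r (qq (fun a => map (N + 1) (e a)) (F x))

/-- CLR: the degrees of the maps `rr` (uses RR, QQ, U2, DEG, DADD, DNRM, COMB, SUSC, HO, DPR) -/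
def StCLR : Prop := ∀ (X : Type) [TopologicalSpace X] [T2Space X] (C : Set X) [CWComplex C]
  (n : ℕ) (y₀ : X) (D : ℝ × X → X), y₀ ∈ sk C 1 → NH C (n + 1) y₀ D →
  ∃ Δ : cell C n → cell C (n + 1) → ℤ,
    ∀ (a b : cell C (n + 1)) (k : ℕ) (e : Fin k → cell C n), Function.Injective e →
    (∀ x ∈ sphere (0 : E (n + 1)) 1, map (n + 1) a x ∈ sk C n ∨
      ∃ i, map (n + 1) a x ∈ openCell n (e i)) →
    deg (0 : Fin 1) (fun x => qq (fun _ => map (n + 1) b) (rr C n y₀ D a x)) =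
      (open scoped Classical in if a = b then 1 else 0) +
        ∑ i : Fin k, inc (map (n + 1) a) (map n (e i)) * Δ (e i) b

/-- RLC: realization of cycles (uses CLR, RR, NHX, U2, RLZ, IFN, QQ, SK, FIN) -/
def StRLC : Prop := ∀ (X : Type) [TopologicalSpace X] [T2Space X] (C : Set X) [CWComplex C]
  (n : ℕ) (v : cell C 0), (∀ j < n + 1, Ext (sk C (j + 2)) j) →
  ∀ (k : ℕ) (a : Fin k → cell C (n + 1)) (z : Fin k → ℤ), Function.Injective a →
  (∀ c : cell C n, ∑ i, z i * inc (map (n + 1) (a i)) (map n c) = 0) →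
  ∃ F : E (n + 1) → X, Lo (map 0 v 0) F ∧ (∀ x, F x ∈ sk C (n + 2)) ∧
    (∀ i, deg (0 : Fin 1) (fun x => qq (fun _ => map (n + 1) (a i)) (F x)) = z i) ∧
    ∀ b : cell C (n + 1), (∀ i, a i ≠ b) →
      deg (0 : Fin 1) (fun x => qq (fun _ => map (n + 1) b) (F x)) = 0

/-- INJ: maps with zero degrees are null homotopic (uses RR, NHX, U1, QQ, FIN, DPR, SK) -/
def StINJ : Prop := ∀ (X : Type) [TopologicalSpace X] [T2Space X] (C : Set X) [CWComplex C]
  (n : ℕ) (v : cell C 0), (∀ j < n + 2, Ext (sk C (j + 2)) j) →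
  ∀ F : E (n + 2) → X, Lo (map 0 v 0) F → (∀ x, F x ∈ sk C (n + 3)) →
  (∀ c : cell C (n + 2), deg (0 : Fin 1) (fun x => qq (fun _ => map (n + 2) c) (F x)) = 0) →
  ∃ H : ℝ × E (n + 2) → X, Continuous H ∧ (∀ p, H p ∈ sk C (n + 3)) ∧
    (∃ ρ : ℝ, ∀ t x, ρ ≤ ‖x‖ → H (t, x) = map 0 v 0) ∧ (∀ x, H (0, x) = F x) ∧
    ∀ x, H (1, x) = map 0 v 0

/-- HUR: connectivity from exactness (uses INJ, BD, FDG, INV, SPC, BAS, SPH, EXT, NUL, EXH, CL1,
CL2, CL5, ESK, SK, FIN) -/
def StHUR : Prop := ∀ (X : Type) [TopologicalSpace X] [T2Space X] (C : Set X) [CWComplex C]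
  (n : ℕ) (_ : cell C 0), (∀ j < n + 2, Ext (sk C (j + 2)) j) →
  (∀ (k : ℕ) (a : Fin k → cell C (n + 2)) (z : Fin k → ℤ), Function.Injective a →
    (∀ c : cell C (n + 1), ∑ i, z i * inc (map (n + 2) (a i)) (map (n + 1) c) = 0) →
    ∃ (l : ℕ) (b : Fin l → cell C (n + 3)) (w : Fin l → ℤ),
      (∀ i, ∑ j, w j * inc (map (n + 3) (b j)) (map (n + 2) (a i)) = z i) ∧
      ∀ c : cell C (n + 2), (∀ i, a i ≠ c) →
        ∑ j, w j * inc (map (n + 3) (b j)) (map (n + 2) c) = 0) →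
  Ext (sk C (n + 4)) (n + 2)

end

end Pool.Agent.Work.MP_e9e200_al.O3

end

section

/-!
# The homotopical invariants `Σ^m(G)`: definitions

Project HT.  A free `G`-CW-complex is described by its 2-skeleton (vertices, edges, attaching paths
of the 2-cells) and its cellular chain complex.  The `i`-cells are the elements of `G × B i`.  A
height function is described by its minimum on the (closed) cells.
-/

set_option autoImplicit false

namespace Pool.Agent.Work.MP_e9e200_al.HT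

open Finsupp Pool.Agent.Work.MP_e9e200_al.LC

/-- a free `G`-complex: the set of `i`-cells is `G × B i`, the edge `(1, b)` goes from `src b` to
`tgt b`, the 2-cell `(1, b)` is attached along the closed edge path `att b` which starts and ends
at the vertex `bas b`, and `d i b` is the cellular boundary of the `(i + 1)`-cell `(1, b)` -/
structure Cel (G : Type) [Group G] where
  B : ℕ → Type
  src : B 1 → G × B 0
  tgt : B 1 → G × B 0
  bas : B 2 → G × B 0
  att : B 2 → List ((G × B 1) × Bool)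
  d : ∀ i, B (i + 1) → (G × B i →₀ ℤ)

namespace Cel

variable {G : Type} [Group G] (X : Cel G)

/-- the initial vertex of an oriented edge (`true`: the edge, `false`: the reversed edge) -/
def st (e : (G × X.B 1) × Bool) : G × X.B 0 :=
  if e.2 then (e.1.1 * (X.src e.1.2).1, (X.src e.1.2).2)
  else (e.1.1 * (X.tgt e.1.2).1, (X.tgt e.1.2).2)

/-- the terminal vertex of an oriented edge -/
def en (e : (G × X.B 1) × Bool) : G × X.B 0 := X.st (e.1, !e.2)

/-- the translate of an edge path -/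
def mv (g : G) (p : List ((G × X.B 1) × Bool)) : List ((G × X.B 1) × Bool) :=
  p.map (fun e => ((g * e.1.1, e.1.2), e.2))

/-- `p` is an edge path from `v` to `w` with edges in `P` -/
def IsPath (P : G × X.B 1 → Prop) : G × X.B 0 → List ((G × X.B 1) × Bool) → G × X.B 0 → Prop
  | v, [], w => v = w
  | v, e :: p, w => P e.1 ∧ X.st e = v ∧ IsPath P (X.en e) p w

/-- the edge paths `p` and `q` which start at `v` are homotopic in the subcomplex with the edges
`P1` and the 2-cells `P2` -/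
inductive Hty (P1 : G × X.B 1 → Prop) (P2 : G × X.B 2 → Prop) : G × X.B 0 →
    List ((G × X.B 1) × Bool) → List ((G × X.B 1) × Bool) → Prop
  | refl (v : G × X.B 0) (p : List ((G × X.B 1) × Bool)) : Hty P1 P2 v p p
  | symm {v : G × X.B 0} {p q : List ((G × X.B 1) × Bool)} : Hty P1 P2 v p q → Hty P1 P2 v q p
  | trans {v : G × X.B 0} {p q r : List ((G × X.B 1) × Bool)} :
      Hty P1 P2 v p q → Hty P1 P2 v q r → Hty P1 P2 v p r
  | cons (e : (G × X.B 1) × Bool) {p q : List ((G × X.B 1) × Bool)} : P1 e.1 →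
      Hty P1 P2 (X.en e) p q → Hty P1 P2 (X.st e) (e :: p) (e :: q)
  | back (e : (G × X.B 1) × Bool) (p : List ((G × X.B 1) × Bool)) : P1 e.1 →
      Hty P1 P2 (X.st e) (e :: (e.1, !e.2) :: p) p
  | cell (c : G × X.B 2) (p : List ((G × X.B 1) × Bool)) : P2 c →
      Hty P1 P2 (c.1 * (X.bas c.2).1, (X.bas c.2).2) (X.mv c.1 (X.att c.2) ++ p) p

/-- the chain of an edge path -/
noncomputable def chn (p : List ((G × X.B 1) × Bool)) : G × X.B 1 →₀ ℤ :=
  (p.map (fun e => single e.1 (if e.2 then (1 : ℤ) else -1))).sum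

/-- the conditions of a complex: the attaching paths are closed, the cellular boundary in degrees
one and two is determined by the 2-skeleton, and the composition of two boundaries is zero -/
structure Good : Prop where
  clo : ∀ b, X.IsPath (fun _ => True) (X.bas b) (X.att b) (X.bas b)
  d0 : ∀ b, X.d 0 b = single (X.tgt b) 1 - single (X.src b) 1
  d1 : ∀ b, X.d 1 b = X.chn (X.att b)
  dd : ∀ i b, ext ℤ (X.d i) (X.d (i + 1) b) = 0

/-- the subcomplex with the `i`-cells `P i` is `(m - 1)`-connected: it is nonempty and connected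
(if `m ≥ 1`), every closed edge path is homotopic to the constant path (if `m ≥ 2`), and the
homology in the degrees `i` with `1 ≤ i ≤ m - 1` is zero -/
def Conn (m : ℕ) (P : ∀ i, G × X.B i → Prop) : Prop :=
  (1 ≤ m → (∃ v, P 0 v) ∧ ∀ v w, P 0 v → P 0 w → ∃ p, X.IsPath (P 1) v p w) ∧
  (2 ≤ m → ∀ v p, P 0 v → X.IsPath (P 1) v p v → X.Hty (P 1) (P 2) v p []) ∧
  ∀ i, i + 2 ≤ m → ∀ x ∈ Finsupp.supported ℤ ℤ {c | P (i + 1) c}, ext ℤ (X.d i) x = 0 →
    ∃ y ∈ Finsupp.supported ℤ ℤ {c | P (i + 2) c}, ext ℤ (X.d (i + 1)) y = x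

/-- `ht i b` is the minimum of a height function for `χ` on the closed cell `(1, b)`: it is at most
the minimum on every cell in the boundary -/
structure Hgt (χ : Additive G →+ ℝ) (ht : ∀ i, X.B i → ℝ) : Prop where
  src : ∀ b, ht 1 b ≤ χ (Additive.ofMul (X.src b).1) + ht 0 (X.src b).2
  tgt : ∀ b, ht 1 b ≤ χ (Additive.ofMul (X.tgt b).1) + ht 0 (X.tgt b).2
  bas : ∀ b, ht 2 b ≤ χ (Additive.ofMul (X.bas b).1) + ht 0 (X.bas b).2
  att : ∀ b, ∀ e ∈ X.att b, ht 2 b ≤ χ (Additive.ofMul e.1.1) + ht 1 e.1.2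
  d : ∀ i b, ∀ c ∈ (X.d i b).support, ht (i + 1) b ≤ χ (Additive.ofMul c.1) + ht i c.2

/-- the cells on which the height function is at least `t` -/
def Ge (χ : Additive G →+ ℝ) (ht : ∀ i, X.B i → ℝ) (t : ℝ) : ∀ i, G × X.B i → Prop :=
  fun i c => t ≤ χ (Additive.ofMul c.1) + ht i c.2

end Cel

/-- the homotopical invariant: `χ ∈ Σ^m(G)` if there is a contractible free `G`-complex with
finitely many orbits of cells of dimension at most `m`, and a height function for `χ`, such that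
the largest subcomplex on which it is nonnegative is `(m - 1)`-connected -/
def HSig (G : Type) [Group G] (m : ℕ) : Set (Additive G →+ ℝ) :=
  {χ | χ ≠ 0 ∧ ∃ (X : Cel G) (ht : ∀ i, X.B i → ℝ), X.Good ∧ (∀ n, X.Conn n (fun _ _ => True)) ∧
    (∀ i ≤ m, Finite (X.B i)) ∧ X.Hgt χ ht ∧ X.Conn m (X.Ge χ ht 0)}

/-- the complement of `Σ^m(G)` -/
def HSigC (G : Type) [Group G] (m : ℕ) : Set (Additive G →+ ℝ) := {χ | χ ≠ 0 ∧ χ ∉ HSig G m}

end Pool.Agent.Work.MP_e9e200_al.HT

end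

section

/-!
# Project LC: density of the discrete characters
-/

set_option autoImplicit false

namespace Pool.Agent.Work.MP_e9e200_al.LC

namespace DENS

/-- an integral character as a real character -/
def rch {G : Type} [Group G] (χ : Chr G) : Additive G →+ ℝ :=
  AddMonoidHom.mk' (fun g => ((vl χ (Additive.toMul g) : ℤ) : ℝ)) (by
    intro a b
    have h : vl χ (Additive.toMul (a + b)) = vl χ (Additive.toMul a) + vl χ (Additive.toMul b) := by
      show Multiplicative.toAdd (χ (Additive.toMul a * Additive.toMul b)) = _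
      rw [map_mul]
      rfl
    rw [h]
    push_cast
    rfl)

theorem rch_apply {G : Type} [Group G] (χ : Chr G) (g : G) :
    rch χ (Additive.ofMul g) = ((vl χ g : ℤ) : ℝ) := rfl

/-- the induced real character of the abelianization -/
noncomputable def ab {G : Type} [Group G] (χ : Additive G →+ ℝ) :
    Additive (Abelianization G) →+ ℝ :=
  MonoidHom.toAdditiveLeft (Abelianization.lift (AddMonoidHom.toMultiplicativeRight χ))

theorem ab_of {G : Type} [Group G] (χ : Additive G →+ ℝ) (g : G) :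
    ab χ (Additive.ofMul (Abelianization.of g)) = χ (Additive.ofMul g) := by
  show Multiplicative.toAdd (Abelianization.lift _ (Abelianization.of g)) = _
  rw [Abelianization.lift_apply_of]
  rfl

theorem posI_mul {Q : Type} [CommGroup Q] (χ : Additive Q →+ ℝ) (f g : MonoidAlgebra ℤ Q)
    (hf : f ∈ posI (fun q => χ (Additive.ofMul q))) (hg : g ∈ posI (fun q => χ (Additive.ofMul q))) :
    f * g ∈ posI (fun q => χ (Additive.ofMul q)) := by
  have h : posI (fun q => χ (Additive.ofMul q)) * posI (fun q => χ (Additive.ofMul q)) ≤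
      posI (fun q => χ (Additive.ofMul q)) := by
    unfold posI
    rw [Submodule.span_mul_span]
    apply Submodule.span_mono
    rintro _ ⟨a, ⟨q, hq, rfl⟩, b, ⟨r, hr, rfl⟩, rfl⟩
    refine ⟨q * r, ?_, (map_mul _ _ _).symm⟩
    show 0 < χ (Additive.ofMul q + Additive.ofMul r)
    rw [map_add]
    exact add_pos hq hr
  exact h (Submodule.mul_mem_mul hf hg)

/-- the monoid `1 + posI` -/
noncomputable def T {Q : Type} [CommGroup Q] (χ : Additive Q →+ ℝ) :
    Submonoid (MonoidAlgebra ℤ Q) where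
  carrier := {f | f - 1 ∈ posI (fun q => χ (Additive.ofMul q))}
  one_mem' := by
    show (1 : MonoidAlgebra ℤ Q) - 1 ∈ posI (fun q => χ (Additive.ofMul q))
    rw [sub_self]
    exact zero_mem _
  mul_mem' := by
    intro a b ha hb
    have ha' : a - 1 ∈ posI (fun q => χ (Additive.ofMul q)) := ha
    have hb' : b - 1 ∈ posI (fun q => χ (Additive.ofMul q)) := hb
    show a * b - 1 ∈ posI (fun q => χ (Additive.ofMul q))
    have h : a * b - 1 = (a - 1) * (b - 1) + (a - 1) + (b - 1) := by ring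
    rw [h]
    exact add_mem (add_mem (posI_mul χ _ _ ha' hb') ha') hb'

end DENS

open DENS in
theorem I_DENS (hMOD : StMOD) (hCRA : StCRA) (hCRB : StCRB) (hRD : StRD) : StDENS := by
  intro G _ _ hmet χ hχ hng F ε hε
  classical
  obtain ⟨M, i1, i2, y, hy⟩ := hMOD G hmet
  have hv : ∀ g, (fun q => ab χ (Additive.ofMul q)) (Abelianization.of g) =
      χ (Additive.ofMul g) := fun g => ab_of χ g
  have hA : Avoid (fun q => ab χ (Additive.ofMul q))
      (Module.annihilator (MonoidAlgebra ℤ (Abelianization G)) M) := by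
    intro f hf hf1
    rw [Module.mem_annihilator] at hf
    obtain ⟨V, hV, hV'⟩ := hCRA G M y hy χ (fun q => ab χ (Additive.ofMul q)) hv f hf hf1
    obtain ⟨a, ha, ha'⟩ := hng V hV
    exact ha' (hV' a ha)
  obtain ⟨I, hI, hle, hdis⟩ := Ideal.exists_le_prime_disjoint
    (Module.annihilator (MonoidAlgebra ℤ (Abelianization G)) M) (T (ab χ)) (by
      rw [Set.disjoint_left]
      intro f hf hf1
      exact hA f hf hf1)
  have hAI : Avoid (fun q => ab χ (Additive.ofMul q)) I := by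
    intro f hf hf1
    exact (Set.disjoint_left.1 hdis) hf hf1
  have hab0 : ab χ ≠ 0 := by
    intro h
    apply hχ
    ext g
    have h1 := ab_of χ (Additive.toMul g)
    rw [h] at h1
    exact h1.symm
  have : Group.FG (Abelianization G) := QuotientGroup.fg _
  obtain ⟨χ'', c, hc, ⟨t, ht⟩, hcl, hav⟩ :=
    hRD (Abelianization G) (ab χ) hab0 I hAI (F.image Abelianization.of) ε hε
  refine ⟨χ''.comp Abelianization.of, c, hc, ?_, ?_, ?_⟩
  · obtain ⟨g, rfl⟩ := QuotientGroup.mk_surjective t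
    exact ⟨g, ht⟩
  · intro g hg
    have h := hcl _ (Finset.mem_image_of_mem _ hg)
    rw [ab_of] at h
    exact h
  · intro V hV
    by_contra hcon
    push Not at hcon
    have hgen : ∀ a ∈ commutator G, a ∈ Gen G (rch (χ''.comp Abelianization.of)) V := by
      intro a ha
      refine Subgroup.closure_mono ?_ (hcon a ha)
      rintro w ⟨g, v, hg, hv, rfl⟩
      refine ⟨g, v, ?_, hv, rfl⟩
      rw [rch_apply]
      exact_mod_cast hg
    have hr0 : rch (χ''.comp Abelianization.of) ≠ 0 := by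
      intro h
      obtain ⟨g, rfl⟩ := QuotientGroup.mk_surjective t
      have h1 := rch_apply (χ''.comp Abelianization.of) g
      rw [h] at h1
      have h2 : vl (χ''.comp Abelianization.of) g = 1 := ht
      rw [h2] at h1
      simp at h1
    obtain ⟨f, hf, hf1⟩ := hCRB G M y hy (rch (χ''.comp Abelianization.of)) hr0
      (fun q => (vl χ'' q : ℝ)) (fun g => rfl) V hV hgen
    exact hav f (hle (Module.mem_annihilator.2 hf)) hf1

end Pool.Agent.Work.MP_e9e200_al.LC

end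

section

/-!
# Project LZ: type `FP_m` implies `m`-tameness (statements)

Each `def StXXX : Prop` is to be proved as `theorem I_XXX : StXXX` in `LZ/P_XXX.lean`.
-/

set_option autoImplicit false

namespace Pool.Agent.Work.MP_e9e200_al.LZ

open Pool.Agent.Work.MP_e9e200_al.LC

/-- a minimal positive relation between integral characters: `∑ a_i χ_i = 0`, and for every `l`
the characters `χ_i`, `i ≠ l`, have dual elements `h l j` -/
structure Circ {G : Type} [Group G] {ι : Type} [Fintype ι] [DecidableEq ι] (χs : ι → Chr G)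
    (a : ι → ℝ) (c : ι → ℤ) (h : ι → ι → G) : Prop where
  apos : ∀ i, 0 < a i
  cpos : ∀ l, 0 < c l
  rel : ∀ g, ∑ i, a i * (vl (χs i) g : ℝ) = 0
  dual : ∀ l i j, i ≠ l → j ≠ l → vl (χs i) (h l j) = if i = j then c l else 0
  prim : ∀ i, ∃ t, vl (χs i) t = 1

/-! ### Rational approximation -/

/-- RAT: the condition `Avoid` is open in the set of all characters which vanish on the kernel -/
def StRAT : Prop := ∀ (Q : Type) [CommGroup Q] [Group.FG Q] (v : Additive Q →+ ℝ)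
  (I : Ideal (MonoidAlgebra ℤ Q)), Avoid (fun q => v (Additive.ofMul q)) I →
  ∃ X : Finset Q, (∀ x ∈ X, 0 < v (Additive.ofMul x)) ∧ ∀ χ : Additive Q →+ ℝ,
    (∀ q, v (Additive.ofMul q) = 0 → χ (Additive.ofMul q) = 0) →
    (∀ x ∈ X, 0 < χ (Additive.ofMul x)) → Avoid (fun q => χ (Additive.ofMul q)) I

/-- INT: integral approximation of a real character -/
def StINT : Prop := ∀ (H : Type) [CommGroup H] [Group.FG H] (v : Additive H →+ ℝ) (X : Finset H),
  (∀ x ∈ X, 0 < v (Additive.ofMul x)) → ∃ χ : Chr H,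
    (∀ q, v (Additive.ofMul q) = 0 → vl χ q = 0) ∧ ∀ x ∈ X, 0 < vl χ x

/-- RREL: from a real relation to an integral relation (uses RAT, INT, MOD, CRA, CRB) -/
def StRREL : Prop := ∀ (G : Type) [Group G] [Group.FG G], Metab G → ∀ (k : ℕ)
  (γ : Fin k → (Additive G →+ ℝ)), (∀ j, γ j ≠ 0) →
  (∀ j, ∀ V : Finset G, (∀ v ∈ V, v ∈ commutator G) → ∃ a ∈ commutator G, a ∉ Gen G (γ j) V) →
  ∑ j, γ j = 0 → ∃ (χs : Fin k → Chr G) (n : Fin k → ℕ), (∀ j, 0 < n j) ∧
    (∀ j, ∃ t, vl (χs j) t = 1) ∧ (∀ j, NFG (χs j)) ∧ ∀ g, ∑ j, (n j : ℤ) * vl (χs j) g = 0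

/-- CIRC: existence of minimal relations (uses LIN) -/
def StCIRC : Prop := ∀ (G : Type) [Group G] (P : Chr G → Prop) (k : ℕ) (χs : Fin k → Chr G)
  (a : Fin k → ℝ), 1 ≤ k → (∀ i, P (χs i)) → (∀ i, ∃ t, vl (χs i) t = 1) → (∀ i, 0 < a i) →
  (∀ g, ∑ i, a i * (vl (χs i) g : ℝ) = 0) →
  ∃ (k' : ℕ) (χs' : Fin k' → Chr G) (a' : Fin k' → ℝ) (c : Fin k' → ℤ)
    (h : Fin k' → Fin k' → G), 1 ≤ k' ∧ k' ≤ k ∧ (∀ i, P (χs' i)) ∧ Circ χs' a' c h

/-! ### The theorem for integral characters -/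

/-- SIG0: the functions `φ` and `σ` for a minimal relation -/
def StSIG0 : Prop := ∀ (G : Type) [Group G], Metab G → ∀ (ι : Type) [Fintype ι] [DecidableEq ι]
  (χs : ι → Chr G) (a : ι → ℝ) (c : ι → ℤ) (h : ι → ι → G), Circ χs a c h →
  (∀ i, PsiData (χs i)) → ∀ J : Finset ι, J.Nonempty → SigData χs J

/-- DISC0: the theorem for integral characters (uses CORE, HOP, BG, NOE, TWD, SIG0, PSI) -/
def StDISC0 : Prop := ∀ (G : Type) [Group G] [Group.FG G], Metab G → ∀ (m : ℕ), 1 ≤ m →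
  ∀ (χs : Fin m → Chr G) (a : Fin m → ℝ) (c : Fin m → ℤ) (h : Fin m → Fin m → G),
  Circ χs a c h → (∀ i, NFG (χs i)) → ∀ (B : Type) [Finite B] (deg : B → ℕ)
  (db : B → (G × B →₀ ℂ)) (eb : B → ℂ), ¬ PRes ℂ (Set.univ : Set G) m B deg db eb

/-! ### Resolutions -/

/-- TRU: truncation of a partial resolution -/
def StTRU : Prop := ∀ (k : Type) [CommRing k] (G : Type) [Group G] (S : Set G) (m n : ℕ)
  (B : Type) [Finite B] (deg : B → ℕ) (db : B → (G × B →₀ k)) (eb : B → k),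
  PRes k S m B deg db eb → n ≤ m → ∃ (B' : Type) (_ : Finite B') (deg' : B' → ℕ)
    (db' : B' → (G × B' →₀ k)) (eb' : B' → k), PRes k S n B' deg' db' eb'

/-- TOP: from type `FP_m` of the group to a based partial resolution (uses RES) -/
def StTOP : Prop := ∀ (G : Type) [Group G] (m : ℕ), GroupFP G m → ∃ (B : Type) (_ : Finite B)
  (deg : B → ℕ) (db : B → (G × B →₀ ℤ)) (eb : B → ℤ), PRes ℤ (Set.univ : Set G) m B deg db eb

/-- CHU: base change to the complex numbers (uses CHG) -/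
def StCHU : Prop := ∀ (G : Type) [Group G] (m : ℕ) (B : Type) [Finite B] (deg : B → ℕ)
  (db : B → (G × B →₀ ℤ)) (eb : B → ℤ), PRes ℤ (Set.univ : Set G) m B deg db eb →
  ∃ (db' : B → (G × B →₀ ℂ)) (eb' : B → ℂ), PRes ℂ (Set.univ : Set G) m B deg db' eb'

/-! ### The result -/

/-- LOW0: `m`-tameness, from a based partial resolution (uses RREL, CIRC, DISC0, TRU, CHU, Sig1) -/
def StLOW0 : Prop := ∀ (m : ℕ) (G : Type) [Group G] [Group.FG G], Metab G →
  (∃ (B : Type) (_ : Finite B) (deg : B → ℕ) (db : B → (G × B →₀ ℤ)) (eb : B → ℤ),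
    PRes ℤ (Set.univ : Set G) m B deg db eb) →
  ∀ γ : Fin m → (Additive G →+ ℝ), (∀ j, γ j ∈ SigC G 1) → ∀ a : Fin m → ℝ, (∀ j, 0 ≤ a j) →
    (∃ j, a j ≠ 0) → ∑ j, a j • γ j ≠ 0

/-- TAME: type `FP_m` implies `m`-tameness (LOW0 and TOP) -/
def StTAME : Prop := ∀ (m : ℕ) (G : Type) [Group G] [Group.FG G], Metab G → GroupFP G m →
  ∀ γ : Fin m → (Additive G →+ ℝ), (∀ j, γ j ∈ SigC G 1) → ∀ a : Fin m → ℝ, (∀ j, 0 ≤ a j) →
    (∃ j, a j ≠ 0) → ∑ j, a j • γ j ≠ 0

end Pool.Agent.Work.MP_e9e200_al.LZ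

end
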