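import Pool.Agent.Work.MP_e9e200_al.Bd.B11
import Pool.Agent.Work.MP_e9e200_al.Bd.B05
import Pool.Agent.Work.MP_e9e200_al.Bd.B08
import Pool.Agent.Work.MP_e9e200_al.Bd.B12

/-! Bundle of small proof modules (one section per former module). -/

section

/-!
# Item BAS: change of the base point
-/

set_option autoImplicit false

namespace Pool.Agent.Work.MP_e9e200_al.O3

open Set Metric Topology OnePoint

namespace XBAS

/-- the clamp -/
noncomputable def cp (t : ℝ) : ℝ := max 0 (min 1 t)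

lemma cp_mem (t : ℝ) : cp t ∈ Icc (0 : ℝ) 1 :=
  ⟨le_max_left _ _, max_le zero_le_one (min_le_left _ _)⟩

lemma cp_eq {t : ℝ} (ht : t ∈ Icc (0 : ℝ) 1) : cp t = t := by
  unfold cp
  rw [min_eq_right ht.2, max_eq_right ht.1]

lemma continuous_cp : Continuous cp := by
  unfold cp
  fun_prop

open scoped Classical in
/-- the homotopy of the face -/
noncomputable def G {n : ℕ} {Z : Type} (F : E n → Z) (γ : ℝ → Z) (p : ℝ × E n) : Z :=
  if (1 + cp p.1) * ‖p.2‖ ≤ 1 then F ((1 + cp p.1) • p.2)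
  else γ (cp (min (cp p.1) ((1 + cp p.1) * ‖p.2‖ - 1)))

variable {n : ℕ} {Z : Type} [TopologicalSpace Z] {z : Z} {F : E n → Z} {γ : ℝ → Z}

lemma continuous_G (hF : Lo z F) (hγ : ContinuousOn γ (Icc 0 1)) (h0 : γ 0 = z) :
    Continuous (G F γ) := by
  have hc := continuous_cp
  have h1 : Continuous fun s : ℝ => γ (cp s) := hγ.comp_continuous hc cp_mem
  unfold G
  refine Continuous.if_le ?_ ?_ ?_ ?_ ?_
  · exact hF.1.comp (by fun_prop)
  · exact h1.comp (by fun_prop)
  · fun_prop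
  · fun_prop
  · intro p hp
    have h2 := (cp_mem p.1).1
    rw [hF.2, hp]
    · have h3 : min (cp p.1) (1 - 1 : ℝ) = 0 := by
        rw [sub_self]
        exact min_eq_right h2
      rw [h3, cp_eq ⟨le_rfl, zero_le_one⟩, h0]
    · rw [norm_smul, Real.norm_of_nonneg (by linarith), hp]

lemma G_out (hF : Lo z F) (h0 : γ 0 = z) (t : ℝ) (y : E n) (hy : 1 ≤ ‖y‖) :
    G F γ (t, y) = γ (cp t) := by
  have h2 := (cp_mem t).1
  unfold G
  simp only
  split_ifs with h
  · have h3 : cp t = 0 := by nlinarith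
    rw [h3, h0]
    refine hF.2 _ ?_
    simpa using hy
  · have h3 : min (cp t) ((1 + cp t) * ‖y‖ - 1) = cp t := by
      refine min_eq_left ?_
      nlinarith
    rw [h3, cp_eq (cp_mem t)]

lemma G_zero (hF : Lo z F) (h0 : γ 0 = z) (y : E n) : G F γ (0, y) = F y := by
  unfold G
  have h1 : cp 0 = 0 := cp_eq ⟨le_rfl, zero_le_one⟩
  simp only [h1]
  split_ifs with h
  · simp
  · have h2 : 1 < ‖y‖ := by simpa using h
    have h3 : min (0 : ℝ) ((1 + 0) * ‖y‖ - 1) = 0 := min_eq_left (by linarith)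
    rw [h3, h1, h0, hF.2 y h2.le]

omit [TopologicalSpace Z] in
lemma G_mem (t : ℝ) (y : E n) : G F γ (t, y) ∈ range F ∪ γ '' Icc 0 1 := by
  unfold G
  split_ifs with h
  · exact Or.inl (mem_range_self _)
  · exact Or.inr (mem_image_of_mem _ (cp_mem _))

end XBAS

open XBAS in
theorem I_BAS : StBAS := by
  classical
  intro n Z _ z z' F γ hF hγ h0 h1
  have hG := continuous_G hF hγ h0
  have hc := continuous_cp
  have hγc : Continuous fun s : ℝ => γ (cp s) := hγ.comp_continuous hc cp_mem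
  have hcp1 : cp 1 = 1 := cp_eq ⟨zero_le_one, le_rfl⟩
  have hcp0 : cp 0 = 0 := cp_eq ⟨le_rfl, zero_le_one⟩
  refine ⟨fun y => G F γ (1, y),
    fun p => if p.2 0 = 1 then G F γ (p.1, fun i => p.2 i.succ) else γ (cp p.1), ?_, ?_, ?_, ?_, ?_⟩
  · refine ⟨hG.comp (by fun_prop), ?_⟩
    intro x hx
    show G F γ (1, x) = z'
    rw [G_out hF h0 1 x hx, hcp1, h1]
  · intro x
    exact G_mem 1 x
  · -- continuity
    have hA : IsClosed {p : ℝ × E (n + 1) | p.2 0 = 1} :=
      isClosed_eq (by fun_prop) continuous_const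
    have hB : IsClosed {p : ℝ × E (n + 1) | 1 ≤ ‖fun i : Fin n => p.2 i.succ‖ ∨ p.2 0 = -1} := by
      refine IsClosed.union ?_ ?_
      · have h2 : Continuous fun p : ℝ × E (n + 1) => ‖fun i : Fin n => p.2 i.succ‖ := by
          fun_prop
        exact isClosed_le continuous_const h2
      · have h2 : Continuous fun p : ℝ × E (n + 1) => p.2 0 := by fun_prop
        exact isClosed_eq h2 continuous_const
    have hcA : ContinuousOn (fun p : ℝ × E (n + 1) =>
        if p.2 0 = 1 then G F γ (p.1, fun i => p.2 i.succ) else γ (cp p.1))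
        {p : ℝ × E (n + 1) | p.2 0 = 1} := by
      have h2 : Continuous fun p : ℝ × E (n + 1) => G F γ (p.1, fun i : Fin n => p.2 i.succ) :=
        hG.comp (by fun_prop)
      refine h2.continuousOn.congr ?_
      intro p hp
      have hp' : p.2 0 = 1 := hp
      simp only [if_pos hp']
    have hcB : ContinuousOn (fun p : ℝ × E (n + 1) =>
        if p.2 0 = 1 then G F γ (p.1, fun i => p.2 i.succ) else γ (cp p.1))
        {p : ℝ × E (n + 1) | 1 ≤ ‖fun i : Fin n => p.2 i.succ‖ ∨ p.2 0 = -1} := by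
      have h2 : Continuous fun p : ℝ × E (n + 1) => γ (cp p.1) := hγc.comp continuous_fst
      refine h2.continuousOn.congr ?_
      intro p hp
      by_cases hp1 : p.2 0 = 1
      · simp only [if_pos hp1]
        rcases hp with hp | hp
        · exact G_out hF h0 _ _ hp
        · rw [hp1] at hp
          norm_num at hp
      · simp only [if_neg hp1]
    refine (hcA.union_of_isClosed hcB hA hB).mono ?_
    rintro ⟨t, x⟩ ⟨-, hx⟩
    have hx' : ‖x‖ = 1 := by simpa using hx
    by_contra hne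
    simp only [mem_union, not_or] at hne
    obtain ⟨h3, h4⟩ := hne
    have h3' : x 0 ≠ 1 := h3
    have h4' : ¬ (1 ≤ ‖fun i : Fin n => x i.succ‖ ∨ x 0 = -1) := h4
    push Not at h4'
    have h5 : ‖x‖ < 1 := by
      rw [pi_norm_lt_iff zero_lt_one]
      intro i
      refine Fin.cases ?_ (fun i => ?_) i
      · have h6 : ‖x 0‖ ≤ 1 := hx' ▸ norm_le_pi_norm x 0
        rw [Real.norm_eq_abs] at h6 ⊢
        refine lt_of_le_of_ne h6 ?_
        intro h7
        rcases (abs_eq zero_le_one).mp h7 with h8 | h8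
        · exact h3' h8
        · exact h4'.2 h8
      · exact lt_of_le_of_lt (norm_le_pi_norm (fun i : Fin n => x i.succ) i) h4'.1
    linarith
  · intro x hx
    constructor
    · simp only [fac]
      split_ifs with h
      · exact G_zero hF h0 _
      · rw [hcp0, h0]
    · simp only [fac]
      split_ifs with h
      · rfl
      · rw [hcp1, h1]
  · intro t ht x hx
    simp only
    split_ifs with h
    · exact G_mem _ _
    · exact Or.inr (mem_image_of_mem _ (cp_mem _))

end Pool.Agent.Work.MP_e9e200_al.O3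

end

section

set_option autoImplicit false

namespace Pool.Agent.Work.MP_e9e200_al.O3

open Set Metric Topology OnePoint

open Topology.RelCWComplex

namespace XCAP

/-- concatenation of homotopies -/
theorem conc {X V : Type} [TopologicalSpace X] [TopologicalSpace V] (B : Set V)
    (H K : ℝ × V → X) (hH : ContinuousOn H (Icc 0 1 ×ˢ B)) (hK : ContinuousOn K (Icc 0 1 ×ˢ B))
    (h : ∀ x ∈ B, H (1, x) = K (0, x)) :
    ContinuousOn (fun p : ℝ × V => if p.1 ≤ 1 / 2 then H (2 * p.1, p.2) else K (2 * p.1 - 1, p.2))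
      (Icc 0 1 ×ˢ B) := by
  refine ContinuousOn.if ?_ ?_ ?_
  · rintro ⟨t, x⟩ ⟨⟨ht, hx⟩, hf⟩
    have hcl : IsClosed {p : ℝ × V | p.1 ≤ 1 / 2} := isClosed_le continuous_fst continuous_const
    have hf' : t = 1 / 2 := by
      have := frontier_le_subset_eq (continuous_fst (X := ℝ) (Y := V)) continuous_const hf
      simpa using this
    subst hf'
    have := h x hx
    norm_num
    exact this
  · refine hH.comp (by fun_prop) ?_
    rintro ⟨t, x⟩ ⟨⟨ht, hx⟩, hc⟩
    have hcl : IsClosed {p : ℝ × V | p.1 ≤ 1 / 2} := isClosed_le continuous_fst continuous_const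
    rw [hcl.closure_eq] at hc
    simp only [mem_Icc] at ht
    have hc' : t ≤ 1 / 2 := hc
    refine ⟨⟨?_, ?_⟩, hx⟩
    · simp only; linarith [ht.1]
    · simp only; linarith
  · refine hK.comp (by fun_prop) ?_
    rintro ⟨t, x⟩ ⟨⟨ht, hx⟩, hc⟩
    have hc' : 1 / 2 ≤ t := by
      have hsub : closure {p : ℝ × V | ¬ p.1 ≤ 1 / 2} ⊆ {p : ℝ × V | 1 / 2 ≤ p.1} := by
        refine closure_minimal ?_ (isClosed_le continuous_const continuous_fst)
        intro p hp
        have hp' : ¬ p.1 ≤ 1 / 2 := hp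
        exact (not_le.1 hp').le
      exact hsub hc
    simp only [mem_Icc] at ht
    refine ⟨⟨?_, ?_⟩, hx⟩
    · simp only; linarith
    · simp only; linarith [ht.2]

theorem sk_mono (hSK : StSK) (X : Type) [TopologicalSpace X] [T2Space X] (C : Set X)
    [CWComplex C] {m n : ℕ} (h : m ≤ n) : sk C m ⊆ sk C n := by
  induction n, h using Nat.le_induction with
  | base => exact subset_rfl
  | succ n _ ih => exact ih.trans ((hSK X C).1 n).2.2

theorem main (hPSH : StPSH) (hSK : StSK) (X : Type) [TopologicalSpace X] [T2Space X] (C : Set X)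
    [CWComplex C] (k n : ℕ) (hkn : k < n) (N : ℕ) : ∀ (Y : CWComplex.Subcomplex C),
    {i : Σ n, cell C n | i.2 ∈ Y.I i.1 ∧ n ≤ i.1}.Finite →
    {i : Σ n, cell C n | i.2 ∈ Y.I i.1 ∧ n ≤ i.1}.ncard = N →
    ∀ F : E k → X, ContinuousOn F (closedBall 0 1) → MapsTo F (closedBall 0 1) (Y : Set X) →
    ∃ H : ℝ × E k → X, ContinuousOn H (Icc 0 1 ×ˢ closedBall 0 1) ∧
      (∀ t ∈ Icc (0 : ℝ) 1, ∀ x ∈ closedBall (0 : E k) 1, H (t, x) ∈ C ∧
        (F x ∈ sk C n → H (t, x) = F x)) ∧
      (∀ x ∈ closedBall (0 : E k) 1, H (0, x) = F x ∧ H (1, x) ∈ sk C n) := by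
  obtain ⟨hSK1, hSK2, hSK3, -, -, -⟩ := hSK X C
  have hmono : ∀ {m m' : ℕ}, m ≤ m' → sk C m ⊆ sk C m' := fun h => sk_mono hSK X C h
  -- points of a subcomplex
  have hpt : ∀ (Y : CWComplex.Subcomplex C) (x : X), x ∈ (Y : Set X) →
      ∃ (m : ℕ) (j : cell C m), j ∈ Y.I m ∧ x ∈ openCell m j := by
    intro Y x hx
    rw [← CWComplex.Subcomplex.union] at hx
    simp only [mem_iUnion] at hx
    obtain ⟨m, ⟨j, hj⟩, hxj⟩ := hx
    exact ⟨m, j, hj, hxj⟩
  induction N with
  | zero =>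
    intro Y hfin hcard F hF hFY
    rw [ncard_eq_zero hfin] at hcard
    have hsub : ∀ x ∈ (Y : Set X), x ∈ sk C n := by
      intro x hx
      obtain ⟨m, j, hj, hxj⟩ := hpt Y x hx
      by_cases hmn : m < n
      · rw [hSK2]
        simp only [mem_iUnion]
        exact ⟨m, hmn, j, hxj⟩
      · have : (⟨m, j⟩ : Σ n, cell C n) ∈
            ({i : Σ n, cell C n | i.2 ∈ Y.I i.1 ∧ n ≤ i.1} : Set _) := ⟨hj, not_lt.1 hmn⟩
        rw [hcard] at this
        exact absurd this (notMem_empty _)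
    refine ⟨fun p => F p.2, hF.comp (by fun_prop) (fun p hp => hp.2), ?_, ?_⟩
    · intro t _ x hx
      exact ⟨Y.subset_complex (hFY hx), fun _ => rfl⟩
    · intro x hx
      exact ⟨rfl, hsub _ (hFY hx)⟩
  | succ N ih =>
    intro Y hfin hcard F hF hFY
    have hne : {i : Σ n, cell C n | i.2 ∈ Y.I i.1 ∧ n ≤ i.1}.Nonempty := by
      rw [← ncard_pos hfin]
      omega
    obtain ⟨⟨d, e⟩, ⟨heY, hnd⟩, hmax⟩ := hfin.exists_maximalFor (fun i => i.1) _ hne
    have hmax' : ∀ (m : ℕ) (j : cell C m), j ∈ Y.I m → m ≤ d := by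
      intro m j hj
      by_contra hlt
      have hlt' : d < m := not_le.1 hlt
      have := hmax (j := ⟨m, j⟩) ⟨hj, hnd.trans hlt'.le⟩ hlt'.le
      exact hlt this
    simp only at hnd heY
    let I' : Π m, Set (cell C m) := fun m => {j | j ∈ Y.I m ∧ (⟨m, j⟩ : Σ n, cell C n) ≠ ⟨d, e⟩}
    have hskd : ∀ (x : X), x ∈ openCell d e → x ∉ sk C d := by
      intro x hx hx'
      exact disjoint_left.1 (hSK3 d e).2.1 hx hx'
    -- points of Y in the open cell or in the rest
    have hrest : ∀ x ∈ (Y : Set X), x ∉ openCell d e →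
        x ∈ ⋃ (m : ℕ) (j : I' m), openCell (C := C) m j := by
      intro x hx hxe
      obtain ⟨m, j, hj, hxj⟩ := hpt Y x hx
      simp only [mem_iUnion]
      refine ⟨m, ⟨j, hj, ?_⟩, hxj⟩
      intro heq
      apply hxe
      cases heq
      exact hxj
    let Y' : CWComplex.Subcomplex C := CWComplex.Subcomplex.mk' C
      (⋃ (m : ℕ) (j : I' m), openCell (C := C) m j) I' (by
        rintro m ⟨j, hj, hje⟩ x hx
        have hxY : x ∈ (Y : Set X) := CWComplex.Subcomplex.closedCell_subset_of_mem Y hj hx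
        rw [← cellFrontier_union_openCell_eq_closedCell] at hx
        refine hrest x hxY ?_
        rcases hx with hx | hx
        · intro hxe
          exact hskd x hxe (hmono (hmax' m j hj) ((hSK3 m j).1 hx))
        · exact fun hxe => disjoint_left.1 (disjoint_openCell_of_ne hje) hx hxe) rfl
    have hY' : (Y' : Set X) = ⋃ (m : ℕ) (j : I' m), openCell (C := C) m j := rfl
    have hI' : ∀ m, Y'.I m = I' m := fun m => rfl
    have hdis : Disjoint (openCell d e) (Y' : Set X) := by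
      rw [hY']
      simp_rw [disjoint_iUnion_right]
      rintro m ⟨j, hj, hje⟩
      exact disjoint_openCell_of_ne hje.symm
    have hfr : cellFrontier d e ⊆ (Y' : Set X) := by
      intro x hx
      rw [hY']
      refine hrest x (CWComplex.Subcomplex.cellFrontier_subset_of_mem Y heY hx) ?_
      intro hxe
      exact hskd x hxe ((hSK3 d e).1 hx)
    have hmt : MapsTo F (closedBall 0 1) ((Y' : Set X) ∪ openCell d e) := by
      intro x hx
      by_cases hxe : F x ∈ openCell d e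
      · exact Or.inr hxe
      · exact Or.inl (by rw [hY']; exact hrest _ (hFY hx) hxe)
    obtain ⟨H₁, hH₁, hH₁a, hH₁b⟩ := hPSH X C k d e (Y' : Set X) F (hkn.trans_le hnd)
      (CWComplex.Subcomplex.closed Y') hfr hdis hF hmt
    have hF₁ : ContinuousOn (fun x => H₁ (1, x)) (closedBall (0 : E k) 1) :=
      hH₁.comp (by fun_prop) (fun x hx => ⟨⟨zero_le_one, le_rfl⟩, hx⟩)
    have hset : {i : Σ n, cell C n | i.2 ∈ Y'.I i.1 ∧ n ≤ i.1} =
        {i : Σ n, cell C n | i.2 ∈ Y.I i.1 ∧ n ≤ i.1} \ {⟨d, e⟩} := by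
      ext ⟨m, j⟩
      constructor
      · rintro ⟨h1, h2⟩
        exact ⟨⟨h1.1, h2⟩, h1.2⟩
      · rintro ⟨⟨h1, h2⟩, h3⟩
        exact ⟨⟨h1, h3⟩, h2⟩
    have hfin' : {i : Σ n, cell C n | i.2 ∈ Y'.I i.1 ∧ n ≤ i.1}.Finite := by
      rw [hset]
      exact hfin.sdiff
    have hcard' : {i : Σ n, cell C n | i.2 ∈ Y'.I i.1 ∧ n ≤ i.1}.ncard = N := by
      have hmem : (⟨d, e⟩ : Σ n, cell C n) ∈
          ({i : Σ n, cell C n | i.2 ∈ Y.I i.1 ∧ n ≤ i.1} : Set _) := ⟨heY, hnd⟩
      rw [hset, ncard_sdiff_singleton_of_mem hmem, hcard]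
      rfl
    obtain ⟨H₂, hH₂, hH₂a, hH₂b⟩ := ih Y' hfin' hcard' (fun x => H₁ (1, x)) hF₁
      (fun x hx => (hH₁b x hx).2)
    have hopC : openCell d e ⊆ C := openCell_subset_complex d e
    have hfix : ∀ x ∈ closedBall (0 : E k) 1, F x ∈ sk C n → F x ∈ (Y' : Set X) := by
      intro x hx hxs
      rcases hmt hx with h | h
      · exact h
      · exact absurd (hmono hnd hxs) (hskd _ h)
    refine ⟨fun p => if p.1 ≤ 1 / 2 then H₁ (2 * p.1, p.2) else H₂ (2 * p.1 - 1, p.2),
      conc _ H₁ H₂ hH₁ hH₂ (fun x hx => (hH₂b x hx).1.symm), ?_, ?_⟩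
    · intro t ht x hx
      by_cases ht2 : t ≤ 1 / 2
      · simp only [ht2, if_true]
        have h := hH₁a (2 * t) ⟨by linarith [ht.1], by linarith⟩ x hx
        refine ⟨?_, fun hxs => h.2 (hfix x hx hxs)⟩
        rcases h.1 with h | h
        · exact Y'.subset_complex h
        · exact hopC h
      · simp only [ht2, if_false]
        have h := hH₂a (2 * t - 1) ⟨by linarith [not_le.1 ht2], by linarith [ht.2]⟩ x hx
        refine ⟨h.1, fun hxs => ?_⟩
        have h1 : H₁ (1, x) = F x :=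
          (hH₁a 1 ⟨zero_le_one, le_rfl⟩ x hx).2 (hfix x hx hxs)
        rw [← h1] at hxs ⊢
        exact h.2 hxs
    · intro x hx
      refine ⟨?_, ?_⟩
      · simp only [show (0 : ℝ) ≤ 1 / 2 by norm_num, if_true, mul_zero]
        exact (hH₁b x hx).1
      · simp only [show ¬ (1 : ℝ) ≤ 1 / 2 by norm_num, if_false]
        norm_num
        exact (hH₂b x hx).2

end XCAP

open XCAP in
theorem I_CAP (hPSH : StPSH) (hFIN : StFIN) (hFSC : StFSC) (hSK : StSK) : StCAP := by
  intro X _ _ C _ k n F hkn hF hFC _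
  have hK : IsCompact (F '' closedBall 0 1) := (isCompact_closedBall _ _).image_of_continuousOn hF
  have hKC : F '' closedBall 0 1 ⊆ C := image_subset_iff.2 hFC
  obtain ⟨Y, hYfin, hY⟩ := hFSC X C _ (hFIN X C _ hK hKC)
  refine main hPSH hSK X C k n hkn _ Y (hYfin.subset fun i hi => hi.1) rfl F hF ?_
  intro x hx
  have hxC := hFC hx
  rw [← CWComplex.iUnion_openCell_eq_complex (C := C)] at hxC
  simp only [mem_iUnion] at hxC
  obtain ⟨m, j, hxj⟩ := hxC
  exact CWComplex.Subcomplex.openCell_subset_of_mem Y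
    (hY ⟨m, j⟩ ⟨F x, hxj, mem_image_of_mem F hx⟩) hxj

end Pool.Agent.Work.MP_e9e200_al.O3

end

section

/-!
# Project O3, item CNT: continuity can be tested on the cells
-/

set_option autoImplicit false

namespace Pool.Agent.Work.MP_e9e200_al.O3

open Set Metric Topology OnePoint

open Topology.RelCWComplex

namespace XCNT

theorem cnt1 (X Z : Type) [TopologicalSpace X] [T2Space X] [TopologicalSpace Z]
    (C : Set X) [CWComplex C] (f : X → Z)
    (hf : ∀ n (e : cell C n), ContinuousOn (fun x => f (map n e x)) (closedBall 0 1)) :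
    ContinuousOn f C := by
  rw [continuousOn_iff_isClosed]
  intro t ht
  refine ⟨f ⁻¹' t ∩ C, ?_, by rw [inter_assoc, inter_self]⟩
  rw [CWComplex.closed C _ inter_subset_right]
  intro n e
  have h1 : f ⁻¹' t ∩ C ∩ closedCell n e =
      map n e '' (closedBall 0 1 ∩ (fun x => f (map n e x)) ⁻¹' t) := by
    ext x
    constructor
    · rintro ⟨⟨hx, _⟩, y, hy, rfl⟩
      exact ⟨y, ⟨hy, hx⟩, rfl⟩
    · rintro ⟨y, ⟨hy, hx⟩, rfl⟩
      have hc : map n e y ∈ closedCell n e := ⟨y, hy, rfl⟩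
      exact ⟨⟨hx, closedCell_subset_complex n e hc⟩, hc⟩
  rw [h1]
  have h2 : IsClosed (closedBall 0 1 ∩ (fun x => f (map n e x)) ⁻¹' t) :=
    (hf n e).preimage_isClosed_of_isClosed isClosed_closedBall ht
  have h3 : IsCompact (closedBall 0 1 ∩ (fun x => f (map n e x)) ⁻¹' t) :=
    (isCompact_closedBall (0 : Fin n → ℝ) 1).of_isClosed_subset h2 inter_subset_left
  exact (h3.image_of_continuousOn ((continuousOn n e).mono inter_subset_left)).isClosed

open scoped Classical in
/-- the path of a point -/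
noncomputable def pth {X Z : Type} [TopologicalSpace Z] (f : ℝ × X → Z) (x : X) :
    C(Icc (0 : ℝ) 1, Z) :=
  if h : Continuous (fun t : Icc (0 : ℝ) 1 => f (t, x)) then ⟨_, h⟩
  else ContinuousMap.const _ (f (0, x))

theorem pth_apply {X Z : Type} [TopologicalSpace Z] (f : ℝ × X → Z) (x : X)
    (h : Continuous (fun t : Icc (0 : ℝ) 1 => f (t, x))) (t : Icc (0 : ℝ) 1) :
    pth f x t = f (t, x) := by
  unfold pth
  rw [dif_pos h]
  rfl

theorem cnt2 (X Z : Type) [TopologicalSpace X] [T2Space X] [TopologicalSpace Z]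
    (C : Set X) [CWComplex C] (f : ℝ × X → Z)
    (hf : ∀ n (e : cell C n), ContinuousOn (fun p : ℝ × E n => f (p.1, map n e p.2))
      (Icc 0 1 ×ˢ closedBall 0 1)) : ContinuousOn f (Icc 0 1 ×ˢ C) := by
  have hpt : ∀ n (e : cell C n) (y : E n), y ∈ closedBall (0 : E n) 1 →
      Continuous (fun t : Icc (0 : ℝ) 1 => f (t, map n e y)) := by
    intro n e y hy
    have h1 : Continuous (fun t : Icc (0 : ℝ) 1 => ((t : ℝ), y)) := by fun_prop
    exact (hf n e).comp_continuous h1 (fun t => ⟨t.2, hy⟩)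
  have hC : ∀ x ∈ C, Continuous (fun t : Icc (0 : ℝ) 1 => f (t, x)) := by
    intro x hx
    rw [← CWComplex.union (C := C)] at hx
    simp only [mem_iUnion] at hx
    obtain ⟨n, e, y, hy, rfl⟩ := hx
    exact hpt n e y hy
  have hg : ContinuousOn (pth f) C := by
    apply cnt1
    intro n e
    rw [continuousOn_iff_continuous_domRestrict]
    have h1 : Continuous (fun q : closedBall (0 : E n) 1 × Icc (0 : ℝ) 1 =>
        f ((q.2 : ℝ), map n e q.1)) := by
      have h2 : Continuous (fun q : closedBall (0 : E n) 1 × Icc (0 : ℝ) 1 =>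
        ((q.2 : ℝ), (q.1 : E n))) := by fun_prop
      exact (hf n e).comp_continuous h2 (fun q => ⟨q.2.2, q.1.2⟩)
    have h3 : (closedBall (0 : E n) 1).domRestrict (fun y => pth f (map n e y)) =
        (ContinuousMap.curry ⟨_, h1⟩ : C(closedBall (0 : E n) 1, C(Icc (0 : ℝ) 1, Z))) := by
      funext y
      ext t
      rw [domRestrict_apply, pth_apply f _ (hpt n e y y.2)]
      rfl
    rw [h3]
    exact ContinuousMap.continuous _
  have h1 : ContinuousOn (fun p : ℝ × X => (pth f p.2, projIcc (0 : ℝ) 1 zero_le_one p.1))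
      (Icc 0 1 ×ˢ C) := by
    refine ContinuousOn.prodMk ?_ ?_
    · exact hg.comp continuous_snd.continuousOn (fun p hp => hp.2)
    · exact (continuous_projIcc.comp continuous_fst).continuousOn
  have h2 : ContinuousOn (fun p : ℝ × X => pth f p.2 (projIcc (0 : ℝ) 1 zero_le_one p.1))
      (Icc 0 1 ×ˢ C) := by
    have h3 : Continuous (fun q : C(Icc (0 : ℝ) 1, Z) × Icc (0 : ℝ) 1 => q.1 q.2) :=
      continuous_eval
    exact h3.comp_continuousOn h1
  refine h2.congr ?_
  rintro ⟨t, x⟩ ⟨ht, hx⟩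
  change f (t, x) = pth f x (projIcc (0 : ℝ) 1 zero_le_one t)
  rw [pth_apply f x (hC x hx), projIcc_of_mem zero_le_one ht]

theorem cnt3 (X Z : Type) [TopologicalSpace X] [T2Space X] [TopologicalSpace Z]
    (C : Set X) [CWComplex C] (S : CWComplex.Subcomplex C) (f : ℝ × X → Z)
    (hf : ∀ n (e : cell C n), e ∈ S.I n → ContinuousOn (fun p : ℝ × E n => f (p.1, map n e p.2))
      (Icc 0 1 ×ˢ closedBall 0 1)) : ContinuousOn f (Icc 0 1 ×ˢ (S : Set X)) := by
  have h : ∀ n (e : S.I n), ContinuousOn (fun p : ℝ × E n => f (p.1, map (C := C) n e p.2))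
      (Icc 0 1 ×ˢ closedBall 0 1) := fun n e => hf n e.1 e.2
  exact cnt2 X Z (S : Set X) f h

end XCNT

theorem I_CNT : StCNT := by
  intro X Z _ _ _ C _
  refine ⟨fun f hf => XCNT.cnt1 X Z C f hf, fun f hf => XCNT.cnt2 X Z C f hf, ?_⟩
  intro N f hf
  have hsk : ((CWComplex.skeletonLT C N : CWComplex.Subcomplex C) : Set X) = sk C N := by
    rw [coe_skeletonLT, empty_union]
    unfold sk
    refine iUnion_congr fun m => ?_
    simp only [ENat.natCast_lt_natCast]
  rw [← hsk]
  apply XCNT.cnt3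
  intro n e he
  rw [skeletonLT_I] at he
  exact hf n (by exact_mod_cast he) e

end Pool.Agent.Work.MP_e9e200_al.O3

end

section

set_option autoImplicit false

namespace Pool.Agent.Work.MP_e9e200_al.O3

open Set Metric Topology OnePoint
open Topology.RelCWComplex

namespace XESK

theorem sk_mono (hSK : StSK) {X : Type} [TopologicalSpace X] [T2Space X] (C : Set X)
    [CWComplex C] : Monotone (fun n => sk C n) :=
  monotone_nat_of_le_succ fun n => ((hSK X C).1 n).2.2

end XESK

theorem I_ESK (hCAP : StCAP) (hSPC : StSPC) (hEXH : StEXH) (hSK : StSK) : StESK := by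
  intro X _ _ C _ j n hjn
  have hsub : sk C n ⊆ C := ((hSK X C).1 n).2.1
  have hmono : sk C (j + 1) ⊆ sk C n := XESK.sk_mono hSK C (by omega : j + 1 ≤ n)
  have h1 : (1 : ℝ) ∈ Icc (0 : ℝ) 1 := ⟨zero_le_one, le_refl 1⟩
  constructor
  · intro h g hg hgC
    obtain ⟨H, hH, hHC, hH01⟩ := hSPC X C j g hg hgC
    have hg' : ContinuousOn (fun x : E (j + 1) => H (1, x)) (sphere 0 1) :=
      hH.comp (by fun_prop) fun x hx => ⟨h1, hx⟩
    obtain ⟨G, hG, hGm, hGe⟩ := h (fun x => H (1, x)) hg'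
      fun x hx => hmono (hH01 x hx).2
    obtain ⟨F, hF, hFm, hFe⟩ := hEXH j X C H G hH hHC hG (fun x hx => hsub (hGm hx))
      fun x hx => hGe hx
    exact ⟨F, hF, hFm, fun x hx => (hFe x hx).trans (hH01 x hx).1⟩
  · intro h g hg hgC
    obtain ⟨F, hF, hFm, hFe⟩ := h g hg fun x hx => hsub (hgC hx)
    obtain ⟨H, hH, hHC, hH01⟩ := hCAP X C (j + 1) n F (by omega) hF hFm
      fun x hx => by rw [hFe hx]; exact hgC hx
    refine ⟨fun x => H (1, x), hH.comp (by fun_prop) fun x hx => ⟨h1, hx⟩,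
      fun x hx => (hH01 x hx).2, fun x hx => ?_⟩
    have hx' : x ∈ closedBall (0 : E (j + 1)) 1 := sphere_subset_closedBall hx
    have h2 := (hHC 1 h1 x hx').2 (by rw [hFe hx]; exact hgC hx)
    exact h2.trans (hFe hx)

end Pool.Agent.Work.MP_e9e200_al.O3

end

section

/-!
# Project O3, item EXH: homotopic maps of spheres and extensions
-/

set_option autoImplicit false

namespace Pool.Agent.Work.MP_e9e200_al.O3

open Set Metric Topology OnePoint

namespace XEXH

open scoped Classical in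
/-- the extension -/
noncomputable def ext {n : ℕ} {X : Type} (H : ℝ × E (n + 1) → X) (G : E (n + 1) → X)
    (x : E (n + 1)) : X :=
  if ‖x‖ ≤ 1 / 2 then G ((2 : ℝ) • x) else H (2 - 2 * ‖x‖, ‖x‖⁻¹ • x)

end XEXH

theorem I_EXH : StEXH := by
  intro n X _ A H G hH hHA hG hGA hGH
  have hin : ∀ x : E (n + 1), ‖x‖ ≤ 1 / 2 → XEXH.ext H G x = G ((2 : ℝ) • x) := fun x hx => by
    unfold XEXH.ext; rw [if_pos hx]
  have hout : ∀ x : E (n + 1), 1 / 2 ≤ ‖x‖ → XEXH.ext H G x = H (2 - 2 * ‖x‖, ‖x‖⁻¹ • x) := by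
    intro x hx
    unfold XEXH.ext
    split_ifs with h
    · have h1 : ‖x‖ = 1 / 2 := le_antisymm h hx
      have h2 : (2 : ℝ) • x ∈ sphere (0 : E (n + 1)) 1 := by
        rw [mem_sphere_zero_iff_norm, norm_smul, h1]; norm_num
      rw [hGH _ h2, h1]
      norm_num
    · rfl
  have hsph : ∀ x : E (n + 1), 1 / 2 ≤ ‖x‖ → ‖x‖⁻¹ • x ∈ sphere (0 : E (n + 1)) 1 := by
    intro x hx
    have : 0 < ‖x‖ := by linarith
    rw [mem_sphere_zero_iff_norm, norm_smul, norm_inv, norm_norm, inv_mul_cancel₀ this.ne']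
  refine ⟨XEXH.ext H G, ?_, ?_, ?_⟩
  · have hA : ContinuousOn (XEXH.ext H G) (closedBall 0 (1 / 2)) := by
      refine ContinuousOn.congr (f := fun x : E (n + 1) => G ((2 : ℝ) • x)) ?_ ?_
      · refine hG.comp (by fun_prop) ?_
        intro x hx
        rw [mem_closedBall_zero_iff] at hx ⊢
        rw [norm_smul]
        norm_num
        linarith
      · intro x hx
        exact hin x (by simpa using hx)
    have hB : ContinuousOn (XEXH.ext H G) {x | 1 / 2 ≤ ‖x‖ ∧ ‖x‖ ≤ 1} := by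
      refine ContinuousOn.congr (f := fun x : E (n + 1) => H (2 - 2 * ‖x‖, ‖x‖⁻¹ • x)) ?_ ?_
      · refine hH.comp (f := fun x : E (n + 1) => (2 - 2 * ‖x‖, ‖x‖⁻¹ • x)) ?_ ?_
        · refine ContinuousOn.prodMk (by fun_prop) ?_
          have h0 : ContinuousOn (fun x : E (n + 1) => ‖x‖) {x | 1 / 2 ≤ ‖x‖ ∧ ‖x‖ ≤ 1} :=
            continuous_norm.continuousOn
          have h1 : ContinuousOn (fun x : E (n + 1) => ‖x‖⁻¹) {x | 1 / 2 ≤ ‖x‖ ∧ ‖x‖ ≤ 1} := by
            refine h0.inv₀ ?_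
            rintro x ⟨hx, _⟩ h0
            linarith
          exact h1.smul (continuousOn_id' _)
        · rintro x ⟨hx, hx'⟩
          exact ⟨⟨by simp only; linarith, by simp only; linarith⟩, hsph x hx⟩
      · rintro x ⟨hx, _⟩
        exact hout x hx
    have hU := hA.union_of_isClosed hB isClosed_closedBall
      ((isClosed_le continuous_const continuous_norm).inter
        (isClosed_le continuous_norm continuous_const))
    refine hU.mono fun x hx => ?_
    rw [mem_closedBall_zero_iff] at hx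
    rcases le_total ‖x‖ (1 / 2) with h | h
    · exact Or.inl (by simpa using h)
    · exact Or.inr ⟨h, hx⟩
  · intro x hx
    rw [mem_closedBall_zero_iff] at hx
    rcases le_total ‖x‖ (1 / 2) with h | h
    · rw [hin x h]
      refine hGA ?_
      rw [mem_closedBall_zero_iff, norm_smul]
      norm_num
      linarith
    · rw [hout x h]
      exact hHA _ ⟨by linarith, by linarith⟩ _ (hsph x h)
  · intro x hx
    rw [mem_sphere_zero_iff_norm] at hx
    rw [hout x (by linarith), hx]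
    norm_num

end Pool.Agent.Work.MP_e9e200_al.O3

end

section

/-!
# Project O3: item FIN (a compact subset meets only finitely many open cells)
-/

set_option autoImplicit false

namespace Pool.Agent.Work.MP_e9e200_al.O3

open Set Metric Topology OnePoint

open Topology.RelCWComplex

namespace XFIN

/-- a set with at most one point in every open cell has finitely many points in every closed
cell -/
lemma finite_inter {X : Type} [TopologicalSpace X] [T2Space X] (C : Set X) [CWComplex C]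
    (P : Set X) (hP : ∀ n (e : cell C n), (P ∩ openCell n e).Subsingleton) :
    ∀ n (e : cell C n), (P ∩ closedCell n e).Finite := by
  intro n
  induction n using Nat.strong_induction_on with
  | _ n ih =>
    intro e
    rw [← cellFrontier_union_openCell_eq_closedCell, inter_union_distrib_left]
    refine Set.Finite.union ?_ (hP n e).finite
    obtain ⟨I, hI⟩ := CWComplex.cellFrontier_subset_finite_closedCell (C := C) n e
    have h1 : P ∩ cellFrontier n e ⊆
        ⋃ m ∈ Finset.range n, ⋃ j ∈ I m, (P ∩ closedCell m j) := by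
      rintro x ⟨hxP, hx⟩
      have h2 := hI hx
      simp only [mem_iUnion] at h2 ⊢
      obtain ⟨m, hm, j, hj, hxj⟩ := h2
      exact ⟨m, Finset.mem_range.mpr hm, j, hj, hxP, hxj⟩
    refine Set.Finite.subset ?_ h1
    refine Set.Finite.biUnion (Finset.finite_toSet _) fun m hm => ?_
    refine Set.Finite.biUnion (Finset.finite_toSet _) fun j _ => ?_
    exact ih m (Finset.mem_range.mp hm) j

end XFIN

open XFIN in
theorem I_FIN : StFIN := by
  intro X _ _ C _ K hK hKC
  by_contra hS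
  set S : Set (Σ n, cell C n) := {i | (openCell i.1 i.2 ∩ K).Nonempty} with hSdef
  have hS' : S.Infinite := hS
  have hch : ∀ i : S, ∃ x, x ∈ openCell i.1.1 i.1.2 ∧ x ∈ K := fun i => i.2
  choose p hp hpK using hch
  have hinj : Function.Injective p := by
    intro i j hij
    apply Subtype.ext
    by_contra hne
    have h1 := disjoint_openCell_of_ne (C := C) (i := i.1.2) (j := j.1.2) hne
    exact (Set.disjoint_left.mp h1 (hp i)) (hij ▸ hp j)
  have hsing : ∀ P : Set X, P ⊆ range p → ∀ n (e : cell C n),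
      (P ∩ openCell n e).Subsingleton := by
    rintro P hP n e x ⟨hx, hxe⟩ y ⟨hy, hye⟩
    obtain ⟨i, rfl⟩ := hP hx
    obtain ⟨j, rfl⟩ := hP hy
    have h1 : ∀ i : S, p i ∈ openCell n e → i.1 = ⟨n, e⟩ := by
      intro i hi
      by_contra hne
      have h2 := disjoint_openCell_of_ne (C := C) (i := i.1.2) (j := e) hne
      exact (Set.disjoint_left.mp h2 (hp i)) hi
    have h3 : i = j := Subtype.ext ((h1 i hxe).trans (h1 j hye).symm)
    rw [h3]
  have hclosed : ∀ P : Set X, P ⊆ range p → IsClosed P := by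
    intro P hP
    have hPC : P ⊆ C := by
      intro x hx
      obtain ⟨i, rfl⟩ := hP hx
      exact hKC (hpK i)
    rw [CWComplex.closed C P hPC]
    intro n j
    exact (finite_inter C P (hsing P hP) n j).isClosed
  have hinf : (range p).Infinite := by
    have : Infinite S := hS'.to_subtype
    exact Set.infinite_range_of_injective hinj
  have hsub : range p ⊆ K := by
    rintro _ ⟨i, rfl⟩
    exact hpK i
  obtain ⟨x, -, hx⟩ := hinf.exists_accPt_of_subset_isCompact hK hsub
  rw [accPt_principal_iff_clusterPt, ← mem_closure_iff_clusterPt,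
    (hclosed (range p \ {x}) sdiff_subset).closure_eq] at hx
  exact hx.2 rfl

end Pool.Agent.Work.MP_e9e200_al.O3

end

section

/-!
# Project O3, item FSC: finite subcomplexes
-/

set_option autoImplicit false

namespace Pool.Agent.Work.MP_e9e200_al.O3

open Set Metric Topology OnePoint
open Topology.RelCWComplex

namespace XFSC

variable {X : Type} [TopologicalSpace X] [T2Space X] {C : Set X} [CWComplex C]

/-- the set of the cells of a subcomplex -/
def cs (E : CWComplex.Subcomplex C) : Set (Σ n, cell C n) := {i | i.2 ∈ E.I i.1}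

lemma ex_empty : ∃ E : CWComplex.Subcomplex C, (cs E).Finite := by
  refine ⟨CWComplex.Subcomplex.mk' C ∅ (fun _ => ∅) ?_ ?_, ?_⟩
  · rintro n ⟨i, hi⟩
    exact absurd hi (notMem_empty i)
  · simp
  · have : cs (CWComplex.Subcomplex.mk' C ∅ (fun _ => ∅) (by
        rintro n ⟨i, hi⟩
        exact absurd hi (notMem_empty i)) (by simp)) = ∅ := by
      ext i
      simp [cs, CWComplex.Subcomplex.mk', RelCWComplex.Subcomplex.mk']
    rw [this]
    exact finite_empty

lemma ex_union (E F : CWComplex.Subcomplex C) : ∃ G : CWComplex.Subcomplex C,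
    ∀ n, G.I n = E.I n ∪ F.I n := by
  refine ⟨{ carrier := (E : Set X) ∪ F
            I := fun n => E.I n ∪ F.I n
            closed' := E.closed.union F.closed
            union' := ?_ }, fun n => rfl⟩
  rw [empty_union, ← CWComplex.Subcomplex.union (E := E), ← CWComplex.Subcomplex.union (E := F)]
  ext x
  simp only [mem_iUnion, mem_union, Subtype.exists]
  constructor
  · rintro ⟨n, j, hj | hj, hx⟩
    · left; exact ⟨n, j, hj, hx⟩
    · right; exact ⟨n, j, hj, hx⟩
  · rintro (⟨n, j, hj, hx⟩ | ⟨n, j, hj, hx⟩)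
    · exact ⟨n, j, Or.inl hj, hx⟩
    · exact ⟨n, j, Or.inr hj, hx⟩

lemma fin_union (s : Finset (Σ n, cell C n))
    (h : ∀ i ∈ s, ∃ E : CWComplex.Subcomplex C, (cs E).Finite ∧ i.2 ∈ E.I i.1) :
    ∃ E : CWComplex.Subcomplex C, (cs E).Finite ∧ ∀ i ∈ s, i.2 ∈ E.I i.1 := by
  classical
  induction s using Finset.induction_on with
  | empty =>
    obtain ⟨E, hE⟩ := ex_empty (C := C)
    exact ⟨E, hE, fun i hi => absurd hi (Finset.notMem_empty i)⟩
  | insert a s _ ih =>
    obtain ⟨E, hE, hE'⟩ := ih (fun i hi => h i (Finset.mem_insert_of_mem hi))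
    obtain ⟨F, hF, hF'⟩ := h a (Finset.mem_insert_self a s)
    obtain ⟨G, hG⟩ := ex_union E F
    refine ⟨G, (hE.union hF).subset ?_, ?_⟩
    · intro i hi
      change i.2 ∈ G.I i.1 at hi
      rw [hG] at hi
      exact hi
    · intro i hi
      rw [hG]
      rcases Finset.mem_insert.1 hi with rfl | hi
      · exact Or.inr hF'
      · exact Or.inl (hE' i hi)

lemma ex_add (E : CWComplex.Subcomplex C) (n : ℕ) (e : cell C n)
    (h : cellFrontier n e ⊆ (E : Set X)) : ∃ G : CWComplex.Subcomplex C,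
    ∀ m (j : cell C m), j ∈ G.I m ↔ j ∈ E.I m ∨ (⟨m, j⟩ : Σ n, cell C n) = ⟨n, e⟩ := by
  refine ⟨CWComplex.Subcomplex.mk' C ((E : Set X) ∪ closedCell n e)
    (fun m => {j | j ∈ E.I m ∨ (⟨m, j⟩ : Σ n, cell C n) = ⟨n, e⟩}) ?_ ?_, fun m j => Iff.rfl⟩
  · rintro m ⟨j, hj | hj⟩
    · exact (CWComplex.Subcomplex.closedCell_subset_of_mem E hj).trans subset_union_left
    · cases hj
      exact subset_union_right
  · have h1 : (E : Set X) ∪ closedCell n e = (E : Set X) ∪ openCell n e := by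
      rw [← cellFrontier_union_openCell_eq_closedCell, ← union_assoc,
        union_eq_self_of_subset_right h]
    rw [h1, ← CWComplex.Subcomplex.union (E := E)]
    ext x
    simp only [mem_iUnion, mem_union, Subtype.exists, mem_setOf_eq]
    constructor
    · rintro ⟨m, j, hj | hj, hx⟩
      · left; exact ⟨m, j, hj, hx⟩
      · right
        cases hj
        exact hx
    · rintro (⟨m, j, hj, hx⟩ | hx)
      · exact ⟨m, j, Or.inl hj, hx⟩
      · exact ⟨n, e, Or.inr rfl, hx⟩

lemma one (n : ℕ) : ∀ e : cell C n, ∃ E : CWComplex.Subcomplex C,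
    (cs E).Finite ∧ e ∈ E.I n := by
  classical
  induction n using Nat.strong_induction_on with
  | _ n ih =>
    intro e
    obtain ⟨I, hI⟩ := CWComplex.cellFrontier_subset_finite_closedCell n e
    obtain ⟨E, hE, hE'⟩ := fin_union ((Finset.range n).sigma I) (by
      rintro ⟨m, j⟩ hj
      exact ih m (Finset.mem_range.1 (Finset.mem_sigma.1 hj).1) j)
    have hsub : cellFrontier n e ⊆ (E : Set X) := by
      refine hI.trans (iUnion₂_subset fun m hm => iUnion₂_subset fun j hj => ?_)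
      exact CWComplex.Subcomplex.closedCell_subset_of_mem E
        (hE' ⟨m, j⟩ (Finset.mem_sigma.2 ⟨Finset.mem_range.2 hm, hj⟩))
    obtain ⟨G, hG⟩ := ex_add E n e hsub
    refine ⟨G, (hE.union (finite_singleton (⟨n, e⟩ : Σ n, cell C n))).subset ?_,
      (hG n e).2 (Or.inr rfl)⟩
    rintro ⟨m, j⟩ hj
    exact (hG m j).1 hj

end XFSC

open XFSC in
theorem I_FSC (hSK : StSK) : StFSC := by
  intro X _ _ C _ I hI
  obtain ⟨E, hE, hE'⟩ := fin_union hI.toFinset (fun i _ => one i.1 i.2)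
  exact ⟨E, hE, fun i hi => hE' i (hI.mem_toFinset.2 hi)⟩

end Pool.Agent.Work.MP_e9e200_al.O3

end

section

/-!
# Item HMI: extension property and embeddings
-/

set_option autoImplicit false

namespace Pool.Agent.Work.MP_e9e200_al.O3

open Set Metric Topology OnePoint

namespace XHMI

/-- a lift of a map along an embedding -/
theorem lift {X Y V : Type} [TopologicalSpace X] [TopologicalSpace Y] [TopologicalSpace V]
    {i : X → Y} (hi : IsEmbedding i) {A : Set X} (hA : A.Nonempty) {f : V → Y} {S : Set V}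
    (hf : ContinuousOn f S) (hm : MapsTo f S (i '' A)) :
    ∃ g : V → X, ContinuousOn g S ∧ MapsTo g S A ∧ ∀ x ∈ S, i (g x) = f x := by
  classical
  obtain ⟨a₀, ha₀⟩ := hA
  let g : V → X := fun x => if h : ∃ a, a ∈ A ∧ i a = f x then h.choose else a₀
  have h1 : ∀ x ∈ S, g x ∈ A ∧ i (g x) = f x := by
    intro x hx
    have h : ∃ a, a ∈ A ∧ i a = f x := hm hx
    have h2 : g x = h.choose := dif_pos h
    rw [h2]
    exact h.choose_spec
  refine ⟨g, ?_, fun x hx => (h1 x hx).1, fun x hx => (h1 x hx).2⟩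
  rw [hi.isInducing.continuousOn_iff]
  exact hf.congr fun x hx => (h1 x hx).2

end XHMI

open XHMI in
theorem I_HMI : StHMI := by
  intro X Y _ _ i hi A j hA
  constructor
  · intro h f hf hm
    obtain ⟨F, hF1, hF2, hF3⟩ := h (fun x => i (f x)) (hi.continuous.comp_continuousOn hf)
      (fun x hx => ⟨f x, hm hx, rfl⟩)
    obtain ⟨g, hg1, hg2, hg3⟩ := lift hi hA hF1 hF2
    refine ⟨g, hg1, hg2, fun x hx => hi.injective ?_⟩
    rw [hg3 x (sphere_subset_closedBall hx)]
    exact hF3 hx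
  · intro h f hf hm
    obtain ⟨g, hg1, hg2, hg3⟩ := lift hi hA hf hm
    obtain ⟨F, hF1, hF2, hF3⟩ := h g hg1 hg2
    refine ⟨fun x => i (F x), hi.continuous.comp_continuousOn hF1,
      fun x hx => ⟨F x, hF2 hx, rfl⟩, fun x hx => ?_⟩
    show i (F x) = f x
    rw [hF3 hx, hg3 x hx]

end Pool.Agent.Work.MP_e9e200_al.O3

end

section

/-!
# Project O3, item NUL: null homotopic maps of cubes and maps which extend to the ball
-/

set_option autoImplicit false

namespace Pool.Agent.Work.MP_e9e200_al.O3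

open Set Metric Topology OnePoint

namespace XNUL

/-- the coordinatewise clamp -/
noncomputable def cla {n : ℕ} (x : E n) : E n := fun i => max (-1) (min 1 (x i))

theorem cla_cont {n : ℕ} : Continuous (cla : E n → E n) := by
  unfold cla
  fun_prop

theorem abs_cla {n : ℕ} (x : E n) (i : Fin n) : |cla x i| ≤ 1 := by
  unfold cla
  rw [abs_le]
  exact ⟨le_max_left _ _, max_le (by norm_num) (min_le_left _ _)⟩

theorem cla_mem {n : ℕ} (x : E n) : cla x ∈ closedBall (0 : E n) 1 := by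
  rw [mem_closedBall_zero_iff, pi_norm_le_iff_of_nonneg (by norm_num)]
  intro i
  rw [Real.norm_eq_abs]
  exact abs_cla x i

theorem cla_eq {n : ℕ} (x : E n) (i : Fin n) (h : |x i| ≤ 1) : cla x i = x i := by
  rw [abs_le] at h
  unfold cla
  rw [min_eq_right h.2, max_eq_right h.1]

/-- a point of the sphere -/
theorem sph {n : ℕ} {x : E (n + 1)} (hx : ‖x‖ = 1) (h0 : x 0 ≠ 1) :
    x 0 = -1 ∨ 1 ≤ ‖(fun i : Fin n => x i.succ : E n)‖ := by
  by_contra hcon
  push Not at hcon
  obtain ⟨h1, h2⟩ := hcon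
  have h3 : ‖x‖ < 1 := by
    rw [pi_norm_lt_iff one_pos]
    intro i
    refine Fin.cases ?_ (fun j => ?_) i
    · have h4 : ‖x 0‖ ≤ 1 := hx ▸ norm_le_pi_norm x 0
      rw [Real.norm_eq_abs] at h4 ⊢
      refine lt_of_le_of_ne h4 fun h5 => ?_
      rcases eq_or_eq_neg_of_abs_eq h5 with h | h
      · exact h0 h
      · exact h1 h
    · exact lt_of_le_of_lt (norm_le_pi_norm (fun i : Fin n => x i.succ : E n) j) h2
  linarith

/-- the norm of `cons` -/
theorem norm_cons_one {n : ℕ} {a : ℝ} {x : E n} (ha : |a| ≤ 1) (hx : ‖x‖ ≤ 1)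
    (h : |a| = 1 ∨ ‖x‖ = 1) : ‖(Fin.cons a x : E (n + 1))‖ = 1 := by
  apply le_antisymm
  · rw [pi_norm_le_iff_of_nonneg (by norm_num)]
    intro i
    refine Fin.cases ?_ (fun j => ?_) i
    · simpa using ha
    · exact (norm_le_pi_norm x j).trans hx
  · rcases h with h | h
    · rw [← h, ← Real.norm_eq_abs]
      exact norm_le_pi_norm (Fin.cons a x : E (n + 1)) 0
    · rw [← h, pi_norm_le_iff_of_nonneg (norm_nonneg _)]
      intro i
      exact norm_le_pi_norm (Fin.cons a x : E (n + 1)) i.succ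

/-- the image of `cons` under the clamp -/
theorem cla_cons {n : ℕ} (a : ℝ) {x : E n} (hx : ‖x‖ ≤ 1) :
    cla (Fin.cons a x : E (n + 1)) = Fin.cons (max (-1) (min 1 a)) x := by
  funext i
  refine Fin.cases rfl (fun j => ?_) i
  exact cla_eq (Fin.cons a x : E (n + 1)) j.succ ((norm_le_pi_norm x j).trans hx)

theorem cons_cont {n : ℕ} :
    Continuous fun p : ℝ × E n => (Fin.cons (1 - 2 * p.1) p.2 : E (n + 1)) := by
  refine continuous_pi fun i => ?_
  refine Fin.cases ?_ (fun j => ?_) i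
  · show Continuous fun p : ℝ × E n => 1 - 2 * p.1
    fun_prop
  · show Continuous fun p : ℝ × E n => p.2 j
    fun_prop

end XNUL

open XNUL in
open scoped Classical in
theorem I_NUL : StNUL := by
  intro n Z _ z F hF
  constructor
  · rintro ⟨K, hK, ⟨r, hr⟩, hK0, hK1⟩
    set s : ℝ := max 1 r with hs
    have hs1 : 1 ≤ s := le_max_left _ _
    have hsr : r ≤ s := le_max_right _ _
    have htail : Continuous fun x : E (n + 1) => (fun i : Fin n => x i.succ : E n) := by
      fun_prop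
    refine ⟨fun x => if 0 ≤ x 0 then F ((1 + (1 - x 0) * (s - 1)) • (fun i => x i.succ : E n))
      else K (-x 0, s • (fun i => x i.succ : E n)), ?_, ?_⟩
    · refine Continuous.continuousOn ?_
      refine Continuous.if_le ?_ ?_ continuous_const (continuous_apply 0) ?_
      · have h5 : Continuous fun x : E (n + 1) => 1 + (1 - x 0) * (s - 1) := by fun_prop
        exact hF.1.comp (h5.smul htail)
      · have h5 : Continuous fun x : E (n + 1) => -x 0 := by fun_prop
        have h6 : Continuous fun _ : E (n + 1) => s := continuous_const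
        exact hK.comp (h5.prodMk (h6.smul htail))
      · intro x hx
        rw [← hx, neg_zero, hK0]
        congr 1
        ring_nf
    · intro x hx
      rw [mem_sphere_zero_iff_norm] at hx
      have hx0 : |x 0| ≤ 1 := by
        have := norm_le_pi_norm x 0
        rwa [hx, Real.norm_eq_abs] at this
      rw [abs_le] at hx0
      unfold fac
      simp only
      by_cases h1 : x 0 = 1
      · rw [if_pos h1, if_pos (by rw [h1]; norm_num), h1]
        simp
      · rw [if_neg h1]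
        rcases sph hx h1 with h2 | h2
        · rw [if_neg (by rw [h2]; norm_num), h2, neg_neg, hK1]
        · split_ifs with h3
          · refine hF.2 _ ?_
            have h4 : 1 ≤ 1 + (1 - x 0) * (s - 1) := by nlinarith
            rw [norm_smul, Real.norm_eq_abs, abs_of_pos (by linarith)]
            nlinarith
          · refine hr _ _ ?_
            rw [norm_smul, Real.norm_eq_abs, abs_of_pos (by linarith)]
            nlinarith
  · rintro ⟨G, hG, hGF⟩
    have hGc : Continuous fun x => G (cla x) := hG.comp_continuous cla_cont cla_mem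
    have hbd : ∀ (t : ℝ) (x : E n), ‖x‖ = 1 →
        G (cla (Fin.cons (1 - 2 * t) x : E (n + 1))) = z := by
      intro t x hx
      rw [cla_cons _ hx.le]
      have hm : |max (-1) (min 1 (1 - 2 * t))| ≤ 1 := by
        rw [abs_le]
        exact ⟨le_max_left _ _, max_le (by norm_num) (min_le_left _ _)⟩
      rw [hGF (by rw [mem_sphere_zero_iff_norm]; exact norm_cons_one hm hx.le (Or.inr hx))]
      unfold fac
      split_ifs
      · exact hF.2 x hx.ge
      · rfl
    refine ⟨fun p => if ‖p.2‖ ≤ 1 then G (cla (Fin.cons (1 - 2 * p.1) p.2 : E (n + 1))) else z,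
      ?_, ⟨1, ?_⟩, ?_, ?_⟩
    · refine Continuous.if_le (hGc.comp cons_cont) continuous_const (by fun_prop)
        continuous_const ?_
      intro p hp
      exact hbd p.1 p.2 hp
    · intro t x hx
      simp only
      split_ifs with h
      · exact hbd t x (le_antisymm h hx)
      · rfl
    · intro x
      simp only
      split_ifs with h
      · rw [cla_cons _ h]
        have h1 : max (-1 : ℝ) (min 1 (1 - 2 * 0)) = 1 := by norm_num
        rw [h1, hGF (by
          rw [mem_sphere_zero_iff_norm]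
          exact norm_cons_one (by norm_num) h (Or.inl (by norm_num)))]
        unfold fac
        rw [if_pos (by show (1 : ℝ) = 1; rfl)]
        rfl
      · exact (hF.2 x (not_le.1 h).le).symm
    · intro x
      simp only
      split_ifs with h
      · rw [cla_cons _ h]
        have h1 : max (-1 : ℝ) (min 1 (1 - 2 * 1)) = -1 := by norm_num
        rw [h1, hGF (by
          rw [mem_sphere_zero_iff_norm]
          exact norm_cons_one (by norm_num) h (Or.inl (by norm_num)))]
        unfold fac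
        rw [if_neg (by show ¬ ((-1 : ℝ) = 1); norm_num)]
      · rfl

end Pool.Agent.Work.MP_e9e200_al.O3

end

section

/-!
# Project O3, item PIO: the class of a piece
-/

set_option autoImplicit false

namespace Pool.Agent.Work.MP_e9e200_al.O3

open Set Metric Topology OnePoint Filter

namespace XPIO

theorem io_coe {k n : ℕ} (a b : Fin k) (x y : E n)
    (h : (io a x : W k n) = ((b, y) : Fin k × E n)) : ‖x‖ < 1 ∧ b = a ∧ y = psi x := by
  classical
  unfold io at h
  by_cases hx : ‖x‖ < 1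
  · rw [if_pos hx] at h
    have h' := OnePoint.coe_injective h
    have h1 := congrArg Prod.fst h'
    have h2 := congrArg Prod.snd h'
    exact ⟨hx, h1.symm, h2.symm⟩
  · rw [if_neg hx] at h
    exact absurd h.symm (OnePoint.coe_ne_infty _)

theorem cont_io {k n : ℕ} (a : Fin k) : Continuous (io a : E n → W k n) := by
  classical
  rw [continuous_iff_continuousAt]
  intro x
  by_cases hx : ‖x‖ < 1
  · have hv : (io a x : W k n) = ((a, psi x) : Fin k × E n) := by
      unfold io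
      rw [if_pos hx]
    rw [(I_OPC (E n) k n (io a) x).2 a (psi x) hv]
    intro ε hε
    have h1 : ∀ᶠ x' in 𝓝 x, ‖x'‖ < 1 :=
      (isOpen_lt continuous_norm continuous_const).mem_nhds hx
    have hc0 : ContinuousAt (fun x : E n => (1 - ‖x‖)⁻¹) x :=
      ContinuousAt.inv₀ (continuous_const.sub continuous_norm).continuousAt (sub_pos.mpr hx).ne'
    have hc : ContinuousAt (psi : E n → E n) x := hc0.smul (continuousAt_id (x := x))
    have h2 : ∀ᶠ x' in 𝓝 x, psi x' ∈ ball (psi x) ε := hc (ball_mem_nhds _ hε)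
    filter_upwards [h1, h2] with x' h1' h2'
    refine ⟨psi x', ?_, by simpa [dist_eq_norm] using h2'⟩
    unfold io
    rw [if_pos h1']
  · have hv : (io a x : W k n) = ∞ := by
      unfold io
      rw [if_neg hx]
    rw [(I_OPC (E n) k n (io a) x).1 hv]
    intro R
    have hx1 : 1 ≤ ‖x‖ := not_lt.mp hx
    have hlt : 1 - 1 / (|R| + 1) < ‖x‖ := by
      have : 0 < 1 / (|R| + 1) := by positivity
      linarith
    have h1 : ∀ᶠ x' in 𝓝 x, 1 - 1 / (|R| + 1) < ‖x'‖ :=
      (isOpen_lt continuous_const continuous_norm).mem_nhds hlt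
    filter_upwards [h1] with x' h1' b y hy
    obtain ⟨hx', _, rfl⟩ := io_coe a b x' y hy
    have hpos : 0 < 1 - ‖x'‖ := sub_pos.mpr hx'
    have hR1 : 0 < |R| + 1 := by positivity
    have hn : ‖(psi x' : E n)‖ = ‖x'‖ / (1 - ‖x'‖) := by
      unfold psi
      rw [norm_smul, norm_inv, Real.norm_of_nonneg hpos.le, inv_mul_eq_div]
    rw [hn, le_div_iff₀ hpos]
    have h3 : 1 - ‖x'‖ < 1 / (|R| + 1) := by linarith
    have h4 : (1 - ‖x'‖) * (|R| + 1) < 1 := by
      rwa [lt_div_iff₀ hR1] at h3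
    have h5 : R * (1 - ‖x'‖) ≤ |R| * (1 - ‖x'‖) :=
      mul_le_mul_of_nonneg_right (le_abs_self R) hpos.le
    nlinarith

theorem io_out {k n : ℕ} (a : Fin k) (x : E n) (h : 1 ≤ ‖x‖) : (io a x : W k n) = ∞ := by
  unfold io
  rw [if_neg (not_lt.mpr h)]

theorem cs_of {k n : ℕ} (a : Fin k) (u : E n → E n) (hu : Continuous u) (r : ℝ)
    (hr : ∀ x, r ≤ ‖x‖ → 1 ≤ ‖u x‖) : CS (∞ : W k n) (fun x => io a (u x)) :=
  ⟨(cont_io a).comp hu, r, fun x hx => io_out a _ (hr x hx)⟩

end XPIO

theorem I_PIO (hCL1 : StCL1) (hCL2 : StCL2) (hCL4 : StCL4) (hGLP : StGLP) (hHO : StHO) :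
    StPIO := by
  intro k n a c L
  obtain ⟨Λ, δ, hΛ, hδ, hb, h0, h1⟩ := hGLP n L
  have hL : ∀ x, δ * ‖x‖ ≤ ‖L x‖ := by
    intro x
    have := hb 0 x
    rw [h0] at this
    simpa using this
  have hgen : cl (∞ : W k (n + 1)) (io a) ∈ Gio k n :=
    Subgroup.subset_closure ⟨a, rfl⟩
  -- supports
  have hf0 : CS (∞ : W k (n + 1)) (fun x : E (n + 1) => io a (L (x - c))) := by
    refine XPIO.cs_of a _ (L.continuous.comp (continuous_id.sub continuous_const))
      (1 / δ + ‖c‖) ?_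
    intro x hx
    have h2 : 1 / δ ≤ ‖x - c‖ := by
      have := norm_sub_norm_le x c
      linarith
    calc (1 : ℝ) = δ * (1 / δ) := by field_simp
      _ ≤ δ * ‖x - c‖ := mul_le_mul_of_nonneg_left h2 hδ.le
      _ ≤ _ := hL _
  have hf1 : CS (∞ : W k (n + 1)) (fun x : E (n + 1) => io a (L x)) := by
    refine XPIO.cs_of a _ L.continuous (1 / δ) ?_
    intro x hx
    calc (1 : ℝ) = δ * (1 / δ) := by field_simp
      _ ≤ δ * ‖x‖ := mul_le_mul_of_nonneg_left hx hδ.le
      _ ≤ _ := hL _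
  have hf2 : CS (∞ : W k (n + 1)) (fun x : E (n + 1) => io a (Λ 1 x)) := by
    refine XPIO.cs_of a _ (Λ 1).continuous (1 / δ) ?_
    intro x hx
    calc (1 : ℝ) = δ * (1 / δ) := by field_simp
      _ ≤ δ * ‖x‖ := mul_le_mul_of_nonneg_left hx hδ.le
      _ ≤ _ := hb 1 _
  have hio : CS (∞ : W k (n + 1)) (io a : E (n + 1) → W k (n + 1)) :=
    XPIO.cs_of a (fun x => x) continuous_id 1 (fun x hx => hx)
  -- first homotopy
  have hH1 : Ho (∞ : W k (n + 1)) (fun x : E (n + 1) => io a (L (x - c)))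
      (fun x : E (n + 1) => io a (L x)) := by
    have h := (hHO (n + 1) (W k (n + 1)) ∞).2.2.2.2
      (fun p : ℝ × E (n + 1) => io a (L (p.2 - (1 - p.1) • c))) (1 / δ + ‖c‖) ?_ ?_
    · simpa using h
    · refine Continuous.continuousOn ?_
      refine (XPIO.cont_io a).comp (L.continuous.comp ?_)
      fun_prop
    · intro t ht x hx
      refine XPIO.io_out a _ ?_
      have hc : ‖(1 - t) • c‖ ≤ ‖c‖ := by
        rw [norm_smul, Real.norm_of_nonneg (by linarith [ht.2])]
        have : (1 - t) * ‖c‖ ≤ 1 * ‖c‖ :=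
          mul_le_mul_of_nonneg_right (by linarith [ht.1]) (norm_nonneg _)
        simpa using this
      have h2 : 1 / δ ≤ ‖x - (1 - t) • c‖ := by
        have := norm_sub_norm_le x ((1 - t) • c)
        linarith
      calc (1 : ℝ) = δ * (1 / δ) := by field_simp
        _ ≤ δ * ‖x - (1 - t) • c‖ := mul_le_mul_of_nonneg_left h2 hδ.le
        _ ≤ _ := hL _
  -- second homotopy
  have hH2 : Ho (∞ : W k (n + 1)) (fun x : E (n + 1) => io a (L x))
      (fun x : E (n + 1) => io a (Λ 1 x)) := by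
    refine ⟨fun p => io a (Λ p.1 p.2), ?_, ⟨1 / δ, ?_⟩, ?_, fun x => rfl⟩
    · exact (XPIO.cont_io a).comp ((hΛ.comp continuous_fst).clm_apply continuous_snd)
    · intro t x hx
      refine XPIO.io_out a _ ?_
      calc (1 : ℝ) = δ * (1 / δ) := by field_simp
        _ ≤ δ * ‖x‖ := mul_le_mul_of_nonneg_left hx hδ.le
        _ ≤ _ := hb t _
    · intro x
      simp only [h0]
      rfl
  have e1 : cl (∞ : W k (n + 1)) (fun x : E (n + 1) => io a (L (x - c))) =
      cl ∞ (fun x : E (n + 1) => io a (L x)) := (hCL1 _ _ _ _ _ hf0 hf1).2 hH1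
  have e2 : cl (∞ : W k (n + 1)) (fun x : E (n + 1) => io a (L x)) =
      cl ∞ (fun x : E (n + 1) => io a (Λ 1 x)) := (hCL1 _ _ _ _ _ hf1 hf2).2 hH2
  have e0 : cl (∞ : W k (n + 1)) (pc a c (L : E (n + 1) →L[ℝ] E (n + 1))) =
      cl ∞ (fun x : E (n + 1) => io a (L (x - c))) := rfl
  rw [e0, e1, e2]
  rcases h1 with h1 | h1
  · have : (fun x : E (n + 1) => (io a (Λ 1 x) : W k (n + 1))) = io a := by
      funext x
      rw [h1 x]
    rw [this]
    exact hgen
  · have : (fun x : E (n + 1) => (io a (Λ 1 x) : W k (n + 1))) = fun x => io a (mir 0 x) := by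
      funext x
      rw [h1 x]
    rw [this, hCL4 n (W k (n + 1)) ∞ (io a) 0 hio]
    exact Subgroup.inv_mem _ hgen

end Pool.Agent.Work.MP_e9e200_al.O3

end

section

/-!
# PSH: a map of a cube can be pushed off an open cell of larger dimension
-/

set_option autoImplicit false

namespace Pool.Agent.Work.MP_e9e200_al.O3

open Set Metric Topology OnePoint

namespace XPSH

/-- the deformation, given by `F` on `A` and by `Φ ∘ h` elsewhere, is continuous -/
lemma glue {k d : ℕ} {X : Type} [TopologicalSpace X] [T2Space X] (Φ : E d → X)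
    (hΦ : ContinuousOn Φ (closedBall 0 1)) (A : Set X) (hA : IsClosed A)
    (hAΦ : ∀ y, ‖y‖ < 1 → Φ y ∉ A) (F : E k → X) (D : Set (E k)) (hF : ContinuousOn F D)
    (φ : E k → E d) (hφ : ∀ x ∈ D, F x ∉ A → ‖φ x‖ < 1 ∧ Φ (φ x) = F x)
    (h : ℝ × E k → E d) (T : Set ℝ) (hc : ContinuousOn h (T ×ˢ {x ∈ D | F x ∉ A}))
    (h1 : ∀ t ∈ T, ∀ x ∈ D, F x ∉ A → ‖h (t, x)‖ ≤ 1)
    (h2 : ∀ t ∈ T, ∀ x ∈ D, F x ∉ A → 3 / 4 ≤ ‖φ x‖ → ‖h (t, x) - φ x‖ ≤ 1 - ‖φ x‖)
    (H : ℝ × E k → X) (hHA : ∀ t x, F x ∈ A → H (t, x) = F x)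
    (hHU : ∀ t x, F x ∉ A → H (t, x) = Φ (h (t, x))) :
    ContinuousOn H (T ×ˢ D) := by
  rintro ⟨t₀, x₀⟩ ⟨ht₀, hx₀⟩
  have hF2 : ContinuousWithinAt (fun p : ℝ × E k => F p.2) (T ×ˢ D) (t₀, x₀) :=
    (hF x₀ hx₀).comp (f := fun p : ℝ × E k => p.2) continuous_snd.continuousWithinAt
      (fun p hp => hp.2)
  by_cases hA0 : F x₀ ∈ A
  · -- a point of `A`
    rw [ContinuousWithinAt, hHA t₀ x₀ hA0]
    intro V' hV'
    obtain ⟨V, hVV', hVo, hV0⟩ := mem_nhds_iff.1 hV'
    -- the compact sets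
    have hcb : IsClosed (closedBall (0 : E d) 1) := isClosed_closedBall
    have hS : IsClosed (closedBall (0 : E d) 1 ∩ Φ ⁻¹' Vᶜ) :=
      hΦ.preimage_isClosed_of_isClosed hcb hVo.isClosed_compl
    have hY : IsClosed (closedBall (0 : E d) 1 ∩ Φ ⁻¹' {F x₀}) :=
      hΦ.preimage_isClosed_of_isClosed hcb isClosed_singleton
    have hYc : IsCompact (closedBall (0 : E d) 1 ∩ Φ ⁻¹' {F x₀}) :=
      (isCompact_closedBall (0 : E d) 1).of_isClosed_subset hY inter_subset_left
    have hdis : Disjoint (closedBall (0 : E d) 1 ∩ Φ ⁻¹' {F x₀})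
        (closedBall (0 : E d) 1 ∩ Φ ⁻¹' Vᶜ) := by
      rw [Set.disjoint_left]
      rintro y ⟨_, hy⟩ ⟨_, hy'⟩
      have hy2 : Φ y = F x₀ := hy
      exact hy' (by rw [hy2]; exact hV0)
    obtain ⟨δ, hδ, hδd⟩ := hdis.exists_thickenings hYc hS
    set r : ℝ := min (δ / 2) (1 / 4) with hr
    have hr0 : 0 < r := lt_min (by positivity) (by norm_num)
    set N : Set (E d) := thickening (δ / 2) (closedBall (0 : E d) 1 ∩ Φ ⁻¹' {F x₀}) ∩
      {y | 1 - r < ‖y‖} with hN
    have hNo : IsOpen N :=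
      isOpen_thickening.inter (isOpen_lt continuous_const continuous_norm)
    have hTc : IsCompact (closedBall (0 : E d) 1 \ N) :=
      (isCompact_closedBall (0 : E d) 1).diff hNo
    have hTcl : IsClosed (Φ '' (closedBall (0 : E d) 1 \ N)) :=
      (hTc.image_of_continuousOn (hΦ.mono sdiff_subset)).isClosed
    have hF0 : F x₀ ∉ Φ '' (closedBall (0 : E d) 1 \ N) := by
      rintro ⟨y, ⟨hy, hyN⟩, hyF⟩
      apply hyN
      refine ⟨self_subset_thickening (by positivity) _ ⟨hy, hyF⟩, ?_⟩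
      show 1 - r < ‖y‖
      by_contra hcon
      push Not at hcon
      exact hAΦ y (by linarith) (by rw [hyF]; exact hA0)
    have hev := hF2.eventually ((hTcl.isOpen_compl.inter hVo).mem_nhds ⟨hF0, hV0⟩)
    have hev2 : ∀ᶠ p in 𝓝[T ×ˢ D] (t₀, x₀), p ∈ T ×ˢ D := self_mem_nhdsWithin
    rw [Filter.mem_map]
    filter_upwards [hev, hev2] with p hp hpD
    obtain ⟨t, x⟩ := p
    show H (t, x) ∈ V'
    apply hVV'
    by_cases hx : F x ∈ A
    · rw [hHA t x hx]; exact hp.2
    · rw [hHU t x hx]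
      obtain ⟨hφ1, hφ2⟩ := hφ x hpD.2 hx
      have hmem : φ x ∈ N := by
        by_contra hcon
        exact hp.1 ⟨φ x, ⟨by simpa using hφ1.le, hcon⟩, hφ2⟩
      have hn : 1 - r < ‖φ x‖ := hmem.2
      have hr4 : r ≤ 1 / 4 := min_le_right _ _
      have hrδ : r ≤ δ / 2 := min_le_left _ _
      have hclose := h2 t hpD.1 x hpD.2 hx (by linarith)
      have hle := h1 t hpD.1 x hpD.2 hx
      by_contra hcon
      have hthick : h (t, x) ∈ thickening δ (closedBall (0 : E d) 1 ∩ Φ ⁻¹' {F x₀}) := by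
        obtain ⟨y, hy, hyd⟩ := mem_thickening_iff.1 hmem.1
        refine mem_thickening_iff.2 ⟨y, hy, ?_⟩
        have h3 : dist (h (t, x)) (φ x) < δ / 2 := by
          rw [dist_eq_norm]; linarith
        have := dist_triangle (h (t, x)) (φ x) y
        linarith
      exact Set.disjoint_left.1 hδd hthick
        (self_subset_thickening hδ _ ⟨by simpa using hle, hcon⟩)
  · -- a point of the open cell
    have hev : ∀ᶠ p in 𝓝[T ×ˢ D] (t₀, x₀), F p.2 ∉ A :=
      hF2.eventually (hA.isOpen_compl.mem_nhds hA0)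
    have hset : T ×ˢ {x ∈ D | F x ∉ A} ∈ 𝓝[T ×ˢ D] (t₀, x₀) := by
      have hev2 : ∀ᶠ p in 𝓝[T ×ˢ D] (t₀, x₀), p ∈ T ×ˢ D := self_mem_nhdsWithin
      filter_upwards [hev, hev2] with p hp hpD
      exact ⟨hpD.1, hpD.2, hp⟩
    have hch : ContinuousWithinAt h (T ×ˢ D) (t₀, x₀) :=
      ((hc (t₀, x₀) ⟨ht₀, hx₀, hA0⟩).mono_of_mem_nhdsWithin hset)
    have hcomp : ContinuousWithinAt (fun p => Φ (h p)) (T ×ˢ {x ∈ D | F x ∉ A}) (t₀, x₀) := by
      refine (hΦ (h (t₀, x₀)) ?_).comp (hc (t₀, x₀) ⟨ht₀, hx₀, hA0⟩) ?_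
      · simpa using h1 t₀ ht₀ x₀ hx₀ hA0
      · rintro ⟨t, x⟩ ⟨ht, hx, hxA⟩
        simpa using h1 t ht x hx hxA
    have hcomp2 := hcomp.mono_of_mem_nhdsWithin hset
    refine hcomp2.congr_of_eventuallyEq ?_ (hHU t₀ x₀ hA0)
    filter_upwards [hev] with p hp
    exact hHU p.1 p.2 hp

/-- the cut off function -/
noncomputable def lam (r : ℝ) : ℝ := max 0 (min 1 (3 - 4 * r))

lemma lam_cont : Continuous lam := by unfold lam; fun_prop

lemma lam_nonneg (r : ℝ) : 0 ≤ lam r := le_max_left _ _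

lemma lam_le (r : ℝ) : lam r ≤ 1 := max_le zero_le_one (min_le_left _ _)

lemma lam_one {r : ℝ} (h : r ≤ 1 / 2) : lam r = 1 := by
  unfold lam
  rw [min_eq_left (by linarith), max_eq_right zero_le_one]

lemma lam_zero {r : ℝ} (h : 3 / 4 ≤ r) : lam r = 0 := by
  unfold lam
  rw [max_eq_left]
  exact (min_le_right _ _).trans (by linarith)

/-- an approximation which avoids the origin -/
lemma exists_approx {k d : ℕ} (hkd : k < d) (K : Set (E k)) (hK : IsClosed K) (φ : E k → E d)
    (hφ : ContinuousOn φ K) : ∃ P : E k → E d, Continuous P ∧ (∀ x, P x ≠ 0) ∧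
      ∀ x ∈ K, ‖P x - φ x‖ < 1 / 4 := by
  obtain ⟨g, hg⟩ := ContinuousMap.exists_restrict_eq (Y := E d) hK ⟨K.domRestrict φ, hφ.domRestrict⟩
  obtain ⟨P, hP, hPd, -⟩ := g.continuous.exists_contDiff_approx (E := E k) (F := E d)
    (ε := fun _ => 1 / 8) 1 continuous_const (fun _ => by norm_num)
  have hden : Dense (range P)ᶜ := by
    refine ContDiff.dense_compl_range_of_finrank_lt_finrank hP ?_
    simpa using hkd
  obtain ⟨q, hq, hqd⟩ := hden.exists_dist_lt (0 : E d) (ε := 1 / 8) (by norm_num)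
  refine ⟨fun x => P x - q, hP.continuous.sub continuous_const, ?_, ?_⟩
  · intro x hx
    exact hq ⟨x, sub_eq_zero.1 hx⟩
  · intro x hx
    have h1 : g x = φ x := DFunLike.congr_fun hg ⟨x, hx⟩
    have h2 := hPd x
    rw [h1, dist_eq_norm] at h2
    have h3 : ‖q‖ < 1 / 8 := by simpa [dist_eq_norm] using hqd
    have h4 : ‖P x - q - φ x‖ ≤ ‖P x - φ x‖ + ‖q‖ := by
      have : P x - q - φ x = (P x - φ x) - q := by abel
      rw [this]
      exact norm_sub_le _ _
    show ‖P x - q - φ x‖ < 1 / 4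
    linarith

end XPSH

open XPSH in
open scoped Classical in
/-- a map of a cube can be pushed off an open cell of larger dimension -/
theorem I_PSH : StPSH := by
  intro X _ _ C _ k d e A F hkd hA hfr hdis hF hmaps
  let Φ : E d → X := fun y => RelCWComplex.map d e y
  have hΦ : ContinuousOn Φ (closedBall 0 1) := RelCWComplex.continuousOn d e
  have hsrc : (RelCWComplex.map d e).source = ball 0 1 := RelCWComplex.source_eq d e
  have hopen : ∀ y : E d, ‖y‖ < 1 → Φ y ∈ RelCWComplex.openCell d e := by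
    intro y hy
    exact ⟨y, by simpa using hy, rfl⟩
  have hAΦ : ∀ y : E d, ‖y‖ < 1 → Φ y ∉ A := fun y hy hyA =>
    Set.disjoint_left.1 hdis (hopen y hy) hyA
  set φ : E k → E d := fun x => (RelCWComplex.map d e).symm (F x) with hφdef
  have hcell : ∀ x ∈ closedBall (0 : E k) 1, F x ∉ A → F x ∈ RelCWComplex.openCell d e :=
    fun x hx hxA => (hmaps hx).resolve_left hxA
  have htgt : (RelCWComplex.map d e).target = RelCWComplex.openCell d e := by
    rw [← (RelCWComplex.map d e).image_source_eq_target, hsrc]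
    rfl
  have hφ : ∀ x ∈ closedBall (0 : E k) 1, F x ∉ A → ‖φ x‖ < 1 ∧ Φ (φ x) = F x := by
    intro x hx hxA
    have h1 : F x ∈ (RelCWComplex.map d e).target := by
      rw [htgt]; exact hcell x hx hxA
    refine ⟨?_, (RelCWComplex.map d e).right_inv h1⟩
    have h2 := (RelCWComplex.map d e).map_target h1
    rw [hsrc] at h2
    simpa using h2
  have hφc : ContinuousOn φ {x ∈ closedBall (0 : E k) 1 | F x ∉ A} := by
    refine (RelCWComplex.continuousOn_symm d e).comp (hF.mono fun x hx => hx.1) ?_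
    intro x hx
    rw [htgt]
    exact hcell x hx.1 hx.2
  -- the compact set where the approximation takes place
  set K : Set (E k) := closedBall (0 : E k) 1 ∩ F ⁻¹' (Φ '' closedBall 0 (3 / 4)) with hKdef
  have hKcl : IsClosed K := by
    refine hF.preimage_isClosed_of_isClosed isClosed_closedBall ?_
    refine ((isCompact_closedBall (0 : E d) (3 / 4)).image_of_continuousOn (hΦ.mono ?_)).isClosed
    exact closedBall_subset_closedBall (by norm_num)
  have hKU : K ⊆ {x ∈ closedBall (0 : E k) 1 | F x ∉ A} := by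
    rintro x ⟨hx, y, hy, hyF⟩
    refine ⟨hx, ?_⟩
    rw [← hyF]
    refine hAΦ y ?_
    have : ‖y‖ ≤ 3 / 4 := by simpa using hy
    linarith
  have hUK : ∀ x ∈ closedBall (0 : E k) 1, F x ∉ A → ‖φ x‖ ≤ 3 / 4 → x ∈ K := by
    intro x hx hxA hle
    exact ⟨hx, φ x, by simpa using hle, (hφ x hx hxA).2⟩
  obtain ⟨P, hPc, hP0, hPK⟩ := exists_approx hkd K hKcl φ (hφc.mono hKU)
  set φ₁ : E k → E d := fun x => φ x + lam ‖φ x‖ • (P x - φ x) with hφ₁
  have hφ₁0 : ∀ x ∈ closedBall (0 : E k) 1, F x ∉ A → φ₁ x ≠ 0 := by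
    intro x hx hxA h0
    rcases le_or_gt ‖φ x‖ (1 / 2) with hle | hgt
    · apply hP0 x
      have : φ₁ x = P x := by
        simp only [hφ₁, lam_one hle, one_smul]
        abel
      rw [← this, h0]
    · have h3 : φ x = -(lam ‖φ x‖ • (P x - φ x)) := by
        have : φ x + lam ‖φ x‖ • (P x - φ x) = 0 := h0
        exact eq_neg_of_add_eq_zero_left this
      have h4 : ‖φ x‖ ≤ 1 / 4 := by
        rcases le_or_gt ‖φ x‖ (3 / 4) with h5 | h5
        · have h6 := hPK x (hUK x hx hxA h5)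
          calc ‖φ x‖ = ‖lam ‖φ x‖ • (P x - φ x)‖ := by
                conv_lhs => rw [h3]
                rw [norm_neg]
            _ = lam ‖φ x‖ * ‖P x - φ x‖ := by
                rw [norm_smul, Real.norm_of_nonneg (lam_nonneg _)]
            _ ≤ 1 * ‖P x - φ x‖ := mul_le_mul_of_nonneg_right (lam_le _) (norm_nonneg _)
            _ ≤ 1 / 4 := by linarith
        · rw [lam_zero h5.le, zero_smul, neg_zero] at h3
          rw [h3, norm_zero]
          norm_num
      linarith
  have hφ₁c : ContinuousOn φ₁ {x ∈ closedBall (0 : E k) 1 | F x ∉ A} := by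
    have h1 : ContinuousOn (fun x => lam ‖φ x‖) {x ∈ closedBall (0 : E k) 1 | F x ∉ A} :=
      lam_cont.comp_continuousOn hφc.norm
    exact hφc.add (h1.smul (hPc.continuousOn.sub hφc))
  set ψ : E k → E d := fun x => ‖φ₁ x‖⁻¹ • φ₁ x with hψ
  have hψc : ContinuousOn ψ {x ∈ closedBall (0 : E k) 1 | F x ∉ A} := by
    refine ContinuousOn.smul (hφ₁c.norm.inv₀ ?_) hφ₁c
    intro x hx
    exact norm_ne_zero_iff.2 (hφ₁0 x hx.1 hx.2)
  have hψ1 : ∀ x ∈ closedBall (0 : E k) 1, F x ∉ A → ‖ψ x‖ = 1 := by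
    intro x hx hxA
    have := norm_ne_zero_iff.2 (hφ₁0 x hx hxA)
    simp only [hψ, norm_smul, norm_inv, norm_norm]
    exact inv_mul_cancel₀ this
  set h : ℝ × E k → E d := fun p => (1 - p.1) • φ p.2 + p.1 • ψ p.2 with hh
  have hφc2 : ContinuousOn (fun p : ℝ × E k => φ p.2)
      (Icc (0 : ℝ) 1 ×ˢ {x ∈ closedBall (0 : E k) 1 | F x ∉ A}) :=
    hφc.comp continuous_snd.continuousOn (fun p hp => hp.2)
  have hψc2 : ContinuousOn (fun p : ℝ × E k => ψ p.2)
      (Icc (0 : ℝ) 1 ×ˢ {x ∈ closedBall (0 : E k) 1 | F x ∉ A}) :=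
    hψc.comp continuous_snd.continuousOn (fun p hp => hp.2)
  have hhc : ContinuousOn h (Icc (0 : ℝ) 1 ×ˢ {x ∈ closedBall (0 : E k) 1 | F x ∉ A}) := by
    have a1 : ContinuousOn (fun p : ℝ × E k => (1 : ℝ) - p.1)
        (Icc (0 : ℝ) 1 ×ˢ {x ∈ closedBall (0 : E k) 1 | F x ∉ A}) :=
      (continuous_const.sub continuous_fst).continuousOn
    have a2 : ContinuousOn (fun p : ℝ × E k => p.1)
        (Icc (0 : ℝ) 1 ×ˢ {x ∈ closedBall (0 : E k) 1 | F x ∉ A}) :=
      continuous_fst.continuousOn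
    exact (a1.smul hφc2).add (a2.smul hψc2)
  have hh1 : ∀ t ∈ Icc (0 : ℝ) 1, ∀ x ∈ closedBall (0 : E k) 1, F x ∉ A → ‖h (t, x)‖ ≤ 1 := by
    intro t ht x hx hxA
    have h3 : ‖(1 - t) • φ x‖ ≤ (1 - t) * 1 := by
      rw [norm_smul, Real.norm_of_nonneg (by linarith [ht.2])]
      exact mul_le_mul_of_nonneg_left (hφ x hx hxA).1.le (by linarith [ht.2])
    have h4 : ‖t • ψ x‖ = t := by
      rw [norm_smul, Real.norm_of_nonneg ht.1, hψ1 x hx hxA, mul_one]
    have h5 := norm_add_le ((1 - t) • φ x) (t • ψ x)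
    show ‖(1 - t) • φ x + t • ψ x‖ ≤ 1
    linarith
  have hh2 : ∀ t ∈ Icc (0 : ℝ) 1, ∀ x ∈ closedBall (0 : E k) 1, F x ∉ A → 3 / 4 ≤ ‖φ x‖ →
      ‖h (t, x) - φ x‖ ≤ 1 - ‖φ x‖ := by
    intro t ht x hx hxA h34
    have h3 : φ₁ x = φ x := by simp [hφ₁, lam_zero h34]
    have hne : ‖φ x‖ ≠ 0 := by
      intro h0; rw [h0] at h34; norm_num at h34
    have h4 : ‖ψ x - φ x‖ = 1 - ‖φ x‖ := by
      have h5 : ψ x - φ x = (‖φ x‖⁻¹ - 1) • φ x := by
        simp only [hψ, h3, sub_smul, one_smul]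
      rw [h5, norm_smul, Real.norm_of_nonneg, sub_mul, inv_mul_cancel₀ hne, one_mul]
      rw [sub_nonneg]
      exact (one_le_inv₀ (lt_of_le_of_ne (norm_nonneg _) (Ne.symm hne))).2 (hφ x hx hxA).1.le
    have h6 : h (t, x) - φ x = t • (ψ x - φ x) := by
      show (1 - t) • φ x + t • ψ x - φ x = t • (ψ x - φ x)
      rw [sub_smul, one_smul, smul_sub]
      abel
    rw [h6, norm_smul, Real.norm_of_nonneg ht.1, h4]
    have h7 : 0 ≤ 1 - ‖φ x‖ := by linarith [(hφ x hx hxA).1]
    nlinarith [ht.2]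
  refine ⟨fun p => if F p.2 ∈ A then F p.2 else Φ (h p), ?_, ?_, ?_⟩
  · refine glue Φ hΦ A hA hAΦ F (closedBall 0 1) hF φ hφ h (Icc 0 1) hhc hh1 hh2 _ ?_ ?_
    · intro t x hx
      exact if_pos hx
    · intro t x hx
      exact if_neg hx
  · intro t ht x hx
    refine ⟨?_, fun hxA => if_pos hxA⟩
    by_cases hxA : F x ∈ A
    · show (if F x ∈ A then F x else Φ (h (t, x))) ∈ _
      rw [if_pos hxA]
      exact Or.inl hxA
    · show (if F x ∈ A then F x else Φ (h (t, x))) ∈ _
      rw [if_neg hxA]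
      rcases lt_or_eq_of_le (hh1 t ht x hx hxA) with hlt | heq
      · exact Or.inr (hopen _ hlt)
      · exact Or.inl (hfr ⟨h (t, x), by simpa using heq, rfl⟩)
  · intro x hx
    by_cases hxA : F x ∈ A
    · refine ⟨if_pos hxA, ?_⟩
      show (if F x ∈ A then F x else Φ (h (1, x))) ∈ A
      rw [if_pos hxA]
      exact hxA
    · refine ⟨?_, ?_⟩
      · show (if F x ∈ A then F x else Φ (h (0, x))) = F x
        rw [if_neg hxA]
        have : h (0, x) = φ x := by simp [hh]
        rw [this, (hφ x hx hxA).2]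
      · show (if F x ∈ A then F x else Φ (h (1, x))) ∈ A
        rw [if_neg hxA]
        have : h (1, x) = ψ x := by simp [hh]
        rw [this]
        exact hfr ⟨ψ x, by simpa using hψ1 x hx hxA, rfl⟩

end Pool.Agent.Work.MP_e9e200_al.O3

end

section

/-!
# Item SPC: cellular approximation for maps of spheres
-/

set_option autoImplicit false

namespace Pool.Agent.Work.MP_e9e200_al.O3

open Set Metric Topology OnePoint

noncomputable section

namespace XSPC

open Topology.RelCWComplex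

/-- the tail of a vector -/
def tl {n : ℕ} (x : E (n + 1)) : E n := fun i => x i.succ

/-- the radius -/
def rho {n : ℕ} (x : E (n + 1)) : ℝ := max ‖tl x‖ (min 1 (1 - x 0))

lemma continuous_tl {n : ℕ} : Continuous (tl : E (n + 1) → E n) := by
  unfold tl; fun_prop

lemma continuous_rho {n : ℕ} : Continuous (rho : E (n + 1) → ℝ) := by
  unfold rho
  have := continuous_tl (n := n)
  fun_prop

lemma norm_tl_le {n : ℕ} (x : E (n + 1)) : ‖tl x‖ ≤ ‖x‖ := by
  refine (pi_norm_le_iff_of_nonneg (norm_nonneg _)).2 fun i => ?_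
  exact norm_le_pi_norm x i.succ

lemma norm_eq {n : ℕ} (x : E (n + 1)) : ‖x‖ = max |x 0| ‖tl x‖ := by
  apply le_antisymm
  · refine (pi_norm_le_iff_of_nonneg (le_max_of_le_left (abs_nonneg _))).2 fun i => ?_
    refine Fin.cases ?_ (fun j => ?_) i
    · exact le_max_left _ _
    · exact le_trans (norm_le_pi_norm (tl x) j) (le_max_right _ _)
  · refine max_le ?_ ?_
    · exact norm_le_pi_norm x 0
    · exact norm_tl_le x

lemma rho_of_eq {n : ℕ} {x : E (n + 1)} (h0 : x 0 = 1) : rho x = ‖tl x‖ := by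
  unfold rho
  rw [h0]
  simp

lemma rho_of_ne {n : ℕ} {x : E (n + 1)} (hx : ‖x‖ = 1) (h0 : x 0 ≠ 1) : rho x = 1 := by
  have hle : |x 0| ≤ 1 := by
    rw [← hx]; exact norm_le_pi_norm x 0
  have hlt : x 0 < 1 := lt_of_le_of_ne (le_trans (le_abs_self _) hle) h0
  have htl : ‖tl x‖ ≤ 1 := by rw [← hx]; exact norm_tl_le x
  unfold rho
  by_cases hc : x 0 ≤ 0
  · rw [min_eq_left (by linarith)]
    exact max_eq_right htl
  · push Not at hc
    have habs : |x 0| < 1 := by rw [abs_of_pos hc]; exact hlt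
    have h1 : ‖tl x‖ = 1 := by
      have h2 := norm_eq x
      rw [hx] at h2
      rcases max_choice |x 0| ‖tl x‖ with h3 | h3
      · rw [h3] at h2; linarith
      · rw [h3] at h2; exact h2.symm
    rw [h1]
    exact max_eq_left (min_le_left _ _)

lemma sk_mono {X : Type} [TopologicalSpace X] [T2Space X] (C : Set X) [CWComplex C] {m n : ℕ}
    (h : m ≤ n) : sk C m ⊆ sk C n := by
  intro x hx
  simp only [sk, mem_iUnion] at hx ⊢
  obtain ⟨k, hk, e, he⟩ := hx
  exact ⟨k, lt_of_lt_of_le hk h, e, he⟩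

/-- concatenation of homotopies -/
lemma concat {X Y : Type} [TopologicalSpace X] [TopologicalSpace Y] (S : Set Y) (A : Set X)
    (hS : IsClosed S) (H1 H2 : ℝ × Y → X) (h1 : ContinuousOn H1 (Icc 0 1 ×ˢ S))
    (h2 : ContinuousOn H2 (Icc 0 1 ×ˢ S))
    (m1 : ∀ t ∈ Icc (0 : ℝ) 1, ∀ x ∈ S, H1 (t, x) ∈ A)
    (m2 : ∀ t ∈ Icc (0 : ℝ) 1, ∀ x ∈ S, H2 (t, x) ∈ A)
    (h : ∀ x ∈ S, H1 (1, x) = H2 (0, x)) :
    ∃ H : ℝ × Y → X, ContinuousOn H (Icc 0 1 ×ˢ S) ∧
      (∀ t ∈ Icc (0 : ℝ) 1, ∀ x ∈ S, H (t, x) ∈ A) ∧ (∀ x ∈ S, H (0, x) = H1 (0, x)) ∧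
      ∀ x ∈ S, H (1, x) = H2 (1, x) := by
  classical
  have hc : Icc (0 : ℝ) 1 ×ˢ S = (Icc (0 : ℝ) (1 / 2) ×ˢ S) ∪ (Icc (1 / 2 : ℝ) 1 ×ˢ S) := by
    rw [← union_prod, Icc_union_Icc_eq_Icc (by norm_num) (by norm_num)]
  have e2 : ∀ p ∈ Icc (1 / 2 : ℝ) 1 ×ˢ S,
      (if p.1 ≤ 1 / 2 then H1 (2 * p.1, p.2) else H2 (2 * p.1 - 1, p.2)) =
        H2 (2 * p.1 - 1, p.2) := by
    rintro ⟨t, x⟩ ⟨⟨ht0, ht1⟩, hx⟩
    simp only at ht0 ht1 hx ⊢
    split_ifs with hle
    · have ht : t = 1 / 2 := le_antisymm hle ht0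
      rw [ht]
      norm_num
      exact h x hx
    · rfl
  refine ⟨fun p => if p.1 ≤ 1 / 2 then H1 (2 * p.1, p.2) else H2 (2 * p.1 - 1, p.2), ?_, ?_, ?_, ?_⟩
  · rw [hc]
    refine ContinuousOn.union_of_isClosed ?_ ?_ (isClosed_Icc.prod hS) (isClosed_Icc.prod hS)
    · have : ContinuousOn (fun p : ℝ × Y => H1 (2 * p.1, p.2)) (Icc (0 : ℝ) (1 / 2) ×ˢ S) := by
        refine h1.comp (by fun_prop) ?_
        rintro ⟨t, x⟩ ⟨⟨ht0, ht1⟩, hx⟩
        exact ⟨⟨by simp only at *; linarith, by simp only at *; linarith⟩, hx⟩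
      refine this.congr ?_
      rintro ⟨t, x⟩ ⟨⟨ht0, ht1⟩, hx⟩
      exact if_pos ht1
    · have : ContinuousOn (fun p : ℝ × Y => H2 (2 * p.1 - 1, p.2))
          (Icc (1 / 2 : ℝ) 1 ×ˢ S) := by
        refine h2.comp (by fun_prop) ?_
        rintro ⟨t, x⟩ ⟨⟨ht0, ht1⟩, hx⟩
        exact ⟨⟨by simp only at *; linarith, by simp only at *; linarith⟩, hx⟩
      exact this.congr e2
  · rintro t ⟨ht0, ht1⟩ x hx
    simp only
    split_ifs with hle
    · exact m1 _ ⟨by linarith, by linarith⟩ x hx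
    · push Not at hle
      exact m2 _ ⟨by linarith, by linarith⟩ x hx
  · intro x hx
    simp
  · intro x hx
    norm_num

end XSPC

open XSPC in
theorem I_SPC (hSPH : StSPH) (hCAP : StCAP) (hBAS : StBAS) (hSK : StSK) : StSPC := by
  have _h := hSK
  classical
  intro X _ _ C _ n g hg hgC
  obtain ⟨z, F, H1, hF, hz, hFim, hH1, hH10, hH11, hH1im⟩ := hSPH n X g hg
  have hzC : z ∈ C := by
    obtain ⟨y, hy, rfl⟩ := hz; exact hgC hy
  have himC : g '' sphere 0 1 ⊆ C := by
    rintro _ ⟨y, hy, rfl⟩; exact hgC hy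
  -- path to a vertex
  obtain ⟨Hp, hHp, hHpC, hHp01⟩ := hCAP X C 0 1 (fun _ => z) (by norm_num) continuousOn_const
    (fun _ _ => hzC) (fun x hx => by
      have h1 := mem_sphere_zero_iff_norm.1 hx
      have h2 : x = 0 := Subsingleton.elim _ _
      rw [h2, norm_zero] at h1
      norm_num at h1)
  have h0b : (0 : E 0) ∈ closedBall (0 : E 0) 1 := mem_closedBall_self (by norm_num)
  have hγ : ContinuousOn (fun t : ℝ => Hp (t, 0)) (Icc 0 1) := by
    refine hHp.comp (by fun_prop) fun t ht => ?_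
    exact ⟨ht, h0b⟩
  obtain ⟨F', H2, hF', hF'im, hH2, hH201, hH2im⟩ := hBAS n X z (Hp (1, 0)) F
    (fun t => Hp (t, 0)) hF hγ (hHp01 0 h0b).1 rfl
  have hUC : range F ∪ (fun t : ℝ => Hp (t, 0)) '' Icc 0 1 ⊆ C := by
    rintro y (⟨x, rfl⟩ | ⟨t, ht, rfl⟩)
    · exact himC (hFim x)
    · exact (hHpC t ht 0 h0b).1
  have hvsk : Hp (1, 0) ∈ sk C (n + 1) := sk_mono C (Nat.le_add_left 1 n) (hHp01 0 h0b).2
  obtain ⟨H3, hH3, hH3C, hH301⟩ := hCAP X C n (n + 1) F' (Nat.lt_succ_self n)
    hF'.1.continuousOn (fun x _ => hUC (hF'im x)) (fun x hx => by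
      rw [hF'.2 x (mem_sphere_zero_iff_norm.1 hx).ge]
      exact hvsk)
  have htl : ∀ x ∈ sphere (0 : E (n + 1)) 1, tl x ∈ closedBall (0 : E n) 1 := fun x hx => by
    rw [mem_closedBall_zero_iff, ← mem_sphere_zero_iff_norm.1 hx]
    exact norm_tl_le x
  -- the third homotopy
  let G : ℝ × E (n + 1) → X := fun p => if p.2 0 = 1 then H3 (p.1, tl p.2) else Hp (1, 0)
  have hcov : Icc (0 : ℝ) 1 ×ˢ sphere (0 : E (n + 1)) 1 =
      (Icc (0 : ℝ) 1 ×ˢ (sphere (0 : E (n + 1)) 1 ∩ {x | x 0 = 1})) ∪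
      (Icc (0 : ℝ) 1 ×ˢ (sphere (0 : E (n + 1)) 1 ∩ {x | rho x = 1})) := by
    rw [← prod_union, ← inter_union_distrib_left]
    congr 1
    symm
    rw [inter_eq_left]
    intro x hx
    by_cases h0 : x 0 = 1
    · exact Or.inl h0
    · exact Or.inr (rho_of_ne (mem_sphere_zero_iff_norm.1 hx) h0)
  have hG : ContinuousOn G (Icc 0 1 ×ˢ sphere 0 1) := by
    rw [hcov]
    refine ContinuousOn.union_of_isClosed ?_ ?_
      (isClosed_Icc.prod (isClosed_sphere.inter (isClosed_eq (continuous_apply 0)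
        continuous_const)))
      (isClosed_Icc.prod (isClosed_sphere.inter (isClosed_eq continuous_rho continuous_const)))
    · have hcomp : ContinuousOn (fun p : ℝ × E (n + 1) => H3 (p.1, tl p.2))
          (Icc (0 : ℝ) 1 ×ˢ (sphere (0 : E (n + 1)) 1 ∩ {x | x 0 = 1})) := by
        refine hH3.comp ?_ ?_
        · exact (continuous_fst.prodMk (continuous_tl.comp continuous_snd)).continuousOn
        · rintro ⟨t, x⟩ ⟨ht, hx, _⟩
          exact ⟨ht, htl x hx⟩
      refine hcomp.congr ?_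
      rintro ⟨t, x⟩ ⟨ht, hx, h0⟩
      exact if_pos h0
    · refine (continuousOn_const (c := Hp (1, 0))).congr ?_
      rintro ⟨t, x⟩ ⟨ht, hx, h0⟩
      show (if x 0 = 1 then H3 (t, tl x) else Hp (1, 0)) = Hp (1, 0)
      split_ifs with hx0
      · have hn : ‖tl x‖ = 1 := by rw [← rho_of_eq hx0]; exact h0
        have hFv : F' (tl x) = Hp (1, 0) := hF'.2 _ hn.ge
        rw [(hH3C t ht (tl x) (htl x hx)).2 (by rw [hFv]; exact hvsk), hFv]
      · rfl
  have hGC : ∀ t ∈ Icc (0 : ℝ) 1, ∀ x ∈ sphere (0 : E (n + 1)) 1, G (t, x) ∈ C := by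
    intro t ht x hx
    show (if x 0 = 1 then H3 (t, tl x) else Hp (1, 0)) ∈ C
    split_ifs with hx0
    · exact (hH3C t ht (tl x) (htl x hx)).1
    · exact (hHpC 1 ⟨by norm_num, le_rfl⟩ 0 h0b).1
  have hG0 : ∀ x ∈ sphere (0 : E (n + 1)) 1, H2 (1, x) = G (0, x) := by
    intro x hx
    rw [(hH201 x hx).2]
    show fac _ F' x = (if x 0 = 1 then H3 (0, tl x) else Hp (1, 0))
    unfold fac
    split_ifs with hx0
    · exact (hH301 (tl x) (htl x hx)).1.symm
    · rfl
  have hG1 : ∀ x ∈ sphere (0 : E (n + 1)) 1, G (1, x) ∈ sk C (n + 1) := by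
    intro x hx
    show (if x 0 = 1 then H3 (1, tl x) else Hp (1, 0)) ∈ sk C (n + 1)
    split_ifs with hx0
    · exact (hH301 (tl x) (htl x hx)).2
    · exact hvsk
  obtain ⟨K1, hK1, hK1C, hK10, hK11⟩ := concat (sphere (0 : E (n + 1)) 1) C isClosed_sphere H1 H2
    hH1 hH2 (fun t ht x hx => himC (hH1im t ht x hx)) (fun t ht x hx => hUC (hH2im t ht x hx))
    (fun x hx => by rw [hH11 x hx, (hH201 x hx).1])
  obtain ⟨K2, hK2, hK2C, hK20, hK21⟩ := concat (sphere (0 : E (n + 1)) 1) C isClosed_sphere K1 G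
    hK1 hG hK1C hGC (fun x hx => by rw [hK11 x hx, hG0 x hx])
  refine ⟨K2, hK2, hK2C, fun x hx => ⟨?_, ?_⟩⟩
  · rw [hK20 x hx, hK10 x hx, hH10 x hx]
  · rw [hK21 x hx]
    exact hG1 x hx

end

end Pool.Agent.Work.MP_e9e200_al.O3

end

section

open Set Metric Topology Filter

namespace Pool.Agent.Work.MP_e9e200_al.O3

open Topology.RelCWComplex

namespace XUNI

theorem cell_sub {X : Type} [TopologicalSpace X] [T2Space X] {C : Set X} [CWComplex C]
    (Y : CWComplex.Subcomplex C) {n : ℕ} {i : cell C n} {x : X} (hx : x ∈ openCell n i)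
    (hY : x ∈ (Y : Set X)) : openCell n i ⊆ (Y : Set X) := by
  by_cases h : i ∈ Y.I n
  · exact RelCWComplex.Subcomplex.openCell_subset_of_mem Y h
  · exact absurd (Set.disjoint_left.1
      (RelCWComplex.Subcomplex.disjoint_openCell_subcomplex_of_not_mem Y h) hx) (not_not.2 hY)

end XUNI

theorem I_UNI (hFIN : StFIN) : StUNI := by
  intro X _ _ C _ Y j hmono hunion hext f hf hfC
  set K : Set X := f '' sphere 0 1 with hK
  have hKc : IsCompact K := (isCompact_sphere 0 1).image_of_continuousOn hf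
  have hKC : K ⊆ C := by
    rintro _ ⟨x, hx, rfl⟩
    exact hfC hx
  have hfin := hFIN X C K hKc hKC
  have hm : Monotone (fun r => (Y r : Set X)) := monotone_nat_of_le_succ hmono
  have hex : ∀ i : Σ n, cell C n, ∃ r : ℕ, (openCell i.1 i.2 ∩ K).Nonempty →
      openCell i.1 i.2 ⊆ (Y r : Set X) := by
    intro i
    by_cases h : (openCell i.1 i.2 ∩ K).Nonempty
    · obtain ⟨x, hx1, hx2⟩ := h
      have hxC := hKC hx2
      rw [← hunion] at hxC
      obtain ⟨r, hr⟩ := mem_iUnion.1 hxC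
      exact ⟨r, fun _ => XUNI.cell_sub (Y r) hx1 hr⟩
    · exact ⟨0, fun h' => absurd h' h⟩
  choose r hr using hex
  obtain ⟨R, hR⟩ := (hfin.image r).bddAbove
  have hKY : K ⊆ (Y R : Set X) := by
    intro x hx
    have hxC := hKC hx
    rw [← CWComplex.iUnion_openCell_eq_complex (C := C)] at hxC
    obtain ⟨n, hn⟩ := mem_iUnion.1 hxC
    obtain ⟨i, hi⟩ := mem_iUnion.1 hn
    have hne : (openCell n i ∩ K).Nonempty := ⟨x, hi, hx⟩
    have h1 := hr ⟨n, i⟩ hne hi
    exact hm (hR (mem_image_of_mem r hne)) h1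
  obtain ⟨F, hF1, hF2, hF3⟩ := hext R f hf (fun x hx => hKY (mem_image_of_mem f hx))
  refine ⟨F, hF1, fun x hx => ?_, hF3⟩
  rw [← hunion]
  exact mem_iUnion.2 ⟨R, hF2 hx⟩

end Pool.Agent.Work.MP_e9e200_al.O3

end

section

set_option autoImplicit false
set_option linter.unusedVariables false

namespace Pool.Agent.Work.MP_e9e200_al.O3

open Set Metric Topology OnePoint

namespace XBD

open Topology.RelCWComplex

/-- the value of `comb` when the height is outside the open interval -/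
theorem comb_of_le {k n : ℕ} (w : W k n) (τ : ℝ) (h : 1 ≤ |τ|) : comb w τ = ∞ := by
  unfold comb
  induction w using OnePoint.rec with
  | infty => rfl
  | coe p => simp only [OnePoint.elim_some, if_neg (not_lt.mpr h)]

theorem cont_comb (hCOMB : StCOMB) {Z : Type} [TopologicalSpace Z] {k n : ℕ} (S : Set Z)
    (w : Z → W k n) (τ : Z → ℝ) (hτ : ContinuousOn τ S)
    (hw : ContinuousOn w (S ∩ {z | |τ z| < 1})) :
    ContinuousOn (fun z => comb (w z) (τ z)) S := by
  rw [continuousOn_iff_continuous_domRestrict]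
  refine hCOMB S k n (fun z => w z) (fun z => τ z) ?_ ?_
  · exact continuousOn_iff_continuous_domRestrict.mp hτ
  · exact hw.comp continuous_subtype_val.continuousOn fun z hz => ⟨z.2, hz⟩

theorem sus_of_le {k n : ℕ} (g : E (n + 1) → W k n) (x : E (n + 1)) (h : 1 ≤ ‖x‖) :
    Sus g x = ∞ := by
  refine comb_of_le _ _ ?_
  rw [abs_of_nonneg (by linarith)]
  linarith

theorem sus_zero {k n : ℕ} (g : E (n + 1) → W k n) : Sus g 0 = ∞ := by
  refine comb_of_le _ _ ?_
  rw [norm_zero, mul_zero, zero_sub, abs_neg, abs_one]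

theorem cont_sus (hCOMB : StCOMB) {k n : ℕ} (g : E (n + 1) → W k n)
    (hg : ContinuousOn g (sphere 0 1)) : Continuous (Sus g) := by
  have h := cont_comb hCOMB (univ : Set (E (n + 1))) (fun x => g (‖x‖⁻¹ • x))
    (fun x => 2 * ‖x‖ - 1) (by fun_prop) ?_
  · exact continuousOn_univ.mp h
  · refine hg.comp ?_ ?_
    · intro x hx
      have hx0 : ‖x‖ ≠ 0 := by
        intro h0
        have h1 := hx.2
        simp only [mem_ofPred_eq, h0] at h1
        norm_num at h1
      refine ContinuousAt.continuousWithinAt ?_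
      exact (continuousAt_id.norm.inv₀ hx0).smul continuousAt_id
    · intro x hx
      have hx0 : ‖x‖ ≠ 0 := by
        intro h0
        have h1 := hx.2
        simp only [mem_ofPred_eq, h0] at h1
        norm_num at h1
      rw [mem_sphere_zero_iff_norm, norm_smul, norm_inv, norm_norm, inv_mul_cancel₀ hx0]

/-- the map of the wedge given by maps of the ball which are constant on the sphere -/
noncomputable def Phi {k n : ℕ} (s : Fin k → E (n + 1) → W 1 (n + 1)) (w : W k (n + 1)) :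
    W 1 (n + 1) :=
  w.elim ∞ (fun p => s p.1 (phi p.2))

theorem tendsto_phi (n : ℕ) :
    Filter.Tendsto (phi : E n → E n) (Filter.cocompact (E n)) (𝓝ˢ (sphere 0 1)) := by
  rw [(hasBasis_nhdsSet_thickening (isCompact_sphere (0 : E n) 1)).tendsto_right_iff]
  intro δ hδ
  have h1 := (tendsto_norm_cocompact_atTop (E := E n)).eventually_gt_atTop (max 1 δ⁻¹)
  filter_upwards [h1] with y hy
  have hy1 : 1 < ‖y‖ := lt_of_le_of_lt (le_max_left _ _) hy
  have hy2 : δ⁻¹ < ‖y‖ := lt_of_le_of_lt (le_max_right _ _) hy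
  have hy0 : 0 < ‖y‖ := by linarith
  rw [mem_thickening_iff]
  refine ⟨‖y‖⁻¹ • y, ?_, ?_⟩
  · rw [mem_sphere_zero_iff_norm, norm_smul, norm_inv, norm_norm, inv_mul_cancel₀ hy0.ne']
  · have h2 : phi y - ‖y‖⁻¹ • y = ((1 + ‖y‖)⁻¹ - ‖y‖⁻¹) • y := by
      unfold phi
      rw [sub_smul]
    have h3 : (1 + ‖y‖)⁻¹ - ‖y‖⁻¹ = -((1 + ‖y‖)⁻¹ * ‖y‖⁻¹) := by
      field_simp
      ring
    rw [dist_eq_norm, h2, h3, norm_smul, norm_neg, norm_mul, norm_inv, norm_inv, norm_norm,
      mul_assoc, inv_mul_cancel₀ hy0.ne', mul_one, Real.norm_of_nonneg (by linarith)]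
    calc (1 + ‖y‖)⁻¹ < ‖y‖⁻¹ := by
          apply inv_strictAnti₀ hy0
          linarith
      _ < δ := by
          rw [inv_lt_comm₀ hy0 hδ]
          exact hy2

theorem cont_Phi (hPHI : StPHI) {k n : ℕ} (s : Fin k → E (n + 1) → W 1 (n + 1))
    (hs : ∀ a, Continuous (s a)) (hs1 : ∀ a x, 1 ≤ ‖x‖ → s a x = ∞) : Continuous (Phi s) := by
  rw [OnePoint.continuous_iff]
  refine ⟨?_, ?_⟩
  · rw [Filter.coclosedCompact_eq_cocompact, ← Filter.coprod_cocompact,
      Filter.cocompact_eq_bot]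
    have h0 : ∀ a, Filter.Tendsto (s a) (𝓝ˢ (sphere 0 1)) (𝓝 ∞) := by
      intro a
      refine (hs a).tendsto_nhdsSet_nhds ?_
      intro x hx
      exact hs1 a x (by rw [mem_sphere_zero_iff_norm] at hx; exact hx.ge)
    rw [Filter.tendsto_def]
    intro U hU
    have h2 : ∀ᶠ y : E (n + 1) in Filter.cocompact (E (n + 1)), ∀ a : Fin k, s a (phi y) ∈ U := by
      rw [Filter.eventually_all]
      intro a
      exact ((h0 a).comp (tendsto_phi (n + 1))).eventually hU
    have h3 : ∀ᶠ p : Fin k × E (n + 1) in Filter.comap Prod.snd (Filter.cocompact (E (n + 1))),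
        ∀ a : Fin k, s a (phi p.2) ∈ U := h2.comap Prod.snd
    have h4 : ((⊥ : Filter (Fin k)).coprod (Filter.cocompact (E (n + 1)))) =
        Filter.comap Prod.snd (Filter.cocompact (E (n + 1))) := by
      unfold Filter.coprod
      rw [Filter.comap_bot, bot_sup_eq]
    rw [h4]
    filter_upwards [h3] with p hp
    exact hp p.1
  · have h5 : Continuous fun p : Fin k × E (n + 1) => s p.1 (phi p.2) := by
      rw [continuous_prod_of_discrete_left]
      intro a
      exact (hs a).comp (hPHI (n + 1)).2.2.1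
    exact h5

theorem Phi_io (hPHI : StPHI) {k n : ℕ} (s : Fin k → E (n + 1) → W 1 (n + 1))
    (hs1 : ∀ a x, 1 ≤ ‖x‖ → s a x = ∞) (a : Fin k) (x : E (n + 1)) : Phi s (io a x) = s a x := by
  unfold io Phi
  by_cases h : ‖x‖ < 1
  · rw [if_pos h]
    simp only [OnePoint.elim_some]
    rw [((hPHI (n + 1)).2.1 x h).1]
  · rw [if_neg h, hs1 a x (not_lt.mp h)]
    rfl

/-- gluing with the constant map outside the unit ball -/
theorem cont_cut {k n : ℕ} (F : E n → W k n) (hF : ContinuousOn F (closedBall 0 1))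
    (h : ∀ x, ‖x‖ = 1 → F x = ∞) : Continuous (cut F) := by
  have h1 : cut F = fun x => if ‖x‖ ≤ (1 : ℝ) then F x else ∞ := by
    funext x
    unfold cut
    rcases lt_trichotomy ‖x‖ 1 with hx | hx | hx
    · rw [if_pos hx, if_pos hx.le]
    · rw [if_neg hx.not_lt, if_pos hx.le, h x hx]
    · rw [if_neg hx.not_gt, if_neg (not_le.mpr hx)]
  rw [h1]
  refine continuous_if_le continuous_norm continuous_const ?_ continuousOn_const ?_
  · refine hF.mono fun x hx => ?_
    rw [mem_closedBall_zero_iff]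
    exact hx
  · intro x hx
    exact h x hx

/-- the reparametrization of the ball -/
noncomputable def gam {n : ℕ} (p : ℝ × E n) : E n := ((1 - p.1) + p.1 * ‖p.2‖)⁻¹ • p.2

theorem gam_le {n : ℕ} (t : ℝ) (ht : t ∈ Icc (0 : ℝ) 1) (x : E n) (hx : ‖x‖ ≤ 1) :
    ‖x‖ ≤ (1 - t) + t * ‖x‖ := by
  have h1 := mul_nonneg (sub_nonneg.mpr ht.2) (sub_nonneg.mpr hx)
  linarith

theorem gam_norm {n : ℕ} (t : ℝ) (ht : t ∈ Icc (0 : ℝ) 1) (x : E n) (hx : ‖x‖ ≤ 1) :
    ‖gam (t, x)‖ ≤ 1 := by
  have h1 := gam_le t ht x hx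
  have h2 : 0 ≤ (1 - t) + t * ‖x‖ := le_trans (norm_nonneg x) h1
  unfold gam
  simp only
  rw [norm_smul, norm_inv, Real.norm_of_nonneg h2, inv_mul_eq_div]
  exact div_le_one_of_le₀ h1 h2

theorem gam_cont {n : ℕ} (p : ℝ × E n) (ht : p.1 ∈ Icc (0 : ℝ) 1)
    (h0 : 0 < ‖p.2‖ + 2 * (1 - p.1)) : ContinuousAt (gam : ℝ × E n → E n) p := by
  have h1 : (1 - p.1) + p.1 * ‖p.2‖ ≠ 0 := by
    intro h
    have h2 : 0 ≤ 1 - p.1 := sub_nonneg.mpr ht.2
    have h3 : 0 ≤ p.1 * ‖p.2‖ := mul_nonneg ht.1 (norm_nonneg _)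
    have h4 : p.1 = 1 := by linarith
    rw [h4] at h h0
    linarith
  have h5 : ContinuousAt (fun q : ℝ × E n => (1 - q.1) + q.1 * ‖q.2‖) p := by fun_prop
  exact (h5.inv₀ h1).smul continuousAt_snd

theorem homot (hCOMB : StCOMB) (hHO : StHO) {k n : ℕ} (A : E (n + 1) → W k n)
    (r : E (n + 1) → ℝ) (hr : ContinuousOn r (closedBall 0 1)) (hr0 : ∀ x, 0 ≤ r x ∧ r x ≤ 1)
    (hA : ContinuousOn A (closedBall 0 1 ∩ {x | 0 < r x})) (hr1 : ∀ x, ‖x‖ = 1 → r x = 1) :
    Ho ∞ (fun x => if ‖x‖ ≤ (1 : ℝ) then comb (A x) (2 * r x - 1) else ∞) (Sus A) := by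
  have hmaps : ∀ p ∈ Icc (0 : ℝ) 1 ×ˢ closedBall (0 : E (n + 1)) 1,
      gam p ∈ closedBall (0 : E (n + 1)) 1 := by
    intro p hp
    rw [mem_closedBall_zero_iff]
    exact gam_norm p.1 hp.1 p.2 (mem_closedBall_zero_iff.mp hp.2)
  have hτ : ContinuousOn (fun p : ℝ × E (n + 1) =>
      2 * min (r (gam p)) (‖p.2‖ + 2 * (1 - p.1)) - 1) (Icc (0 : ℝ) 1 ×ˢ closedBall 0 1) := by
    refine ContinuousOn.sub (ContinuousOn.mul continuousOn_const ?_) continuousOn_const
    intro p hp
    have hn : 0 ≤ ‖p.2‖ + 2 * (1 - p.1) := by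
      have := norm_nonneg p.2
      have := hp.1.2
      linarith
    rcases hn.lt_or_eq with hlt | heq
    · refine Filter.Tendsto.min ?_ ?_
      · exact (hr (gam p) (hmaps p hp)).comp (gam_cont p hp.1 hlt).continuousWithinAt hmaps
      · refine Continuous.continuousWithinAt ?_
        fun_prop
    · have hz : min (r (gam p)) (‖p.2‖ + 2 * (1 - p.1)) = 0 := by
        rw [← heq]
        exact min_eq_right (hr0 _).1
      unfold ContinuousWithinAt
      simp only
      rw [hz]
      refine squeeze_zero' (g := fun p : ℝ × E (n + 1) => ‖p.2‖ + 2 * (1 - p.1)) ?_ ?_ ?_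
      · filter_upwards [eventually_mem_nhdsWithin] with q hq
        refine le_min (hr0 _).1 ?_
        have := norm_nonneg q.2
        have := hq.1.2
        linarith
      · exact Filter.Eventually.of_forall fun q => min_le_right _ _
      · rw [heq]
        refine Continuous.continuousWithinAt ?_
        fun_prop
  have hG := cont_comb hCOMB (Icc (0 : ℝ) 1 ×ˢ closedBall (0 : E (n + 1)) 1) (fun p => A (gam p))
    (fun p => 2 * min (r (gam p)) (‖p.2‖ + 2 * (1 - p.1)) - 1) hτ (by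
      refine hA.comp ?_ ?_
      · rintro p ⟨hp, hp1⟩
        have h2 : |2 * min (r (gam p)) (‖p.2‖ + 2 * (1 - p.1)) - 1| < 1 := hp1
        have h3 := (abs_lt.mp h2).1
        have h4 := min_le_right (r (gam p)) (‖p.2‖ + 2 * (1 - p.1))
        exact (gam_cont p hp.1 (by linarith)).continuousWithinAt
      · rintro p ⟨hp, hp1⟩
        have h2 : |2 * min (r (gam p)) (‖p.2‖ + 2 * (1 - p.1)) - 1| < 1 := hp1
        have h3 := (abs_lt.mp h2).1
        have h4 := min_le_left (r (gam p)) (‖p.2‖ + 2 * (1 - p.1))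
        refine ⟨hmaps p hp, ?_⟩
        have h5 : 0 < r (gam p) := by linarith
        exact h5)
  have hG1 : ∀ t ∈ Icc (0 : ℝ) 1, ∀ x : E (n + 1), ‖x‖ = 1 →
      comb (A (gam (t, x))) (2 * min (r (gam (t, x))) (‖x‖ + 2 * (1 - t)) - 1) = ∞ := by
    intro t ht x hx
    have h1 : gam (t, x) = x := by
      unfold gam
      simp only
      rw [hx, mul_one, sub_add_cancel, inv_one, one_smul]
    refine comb_of_le _ _ ?_
    rw [h1, hr1 x hx, hx, min_eq_left (by linarith [ht.2])]
    norm_num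
  have hH := (hHO (n + 1) (W k (n + 1)) ∞).2.2.2.2 (fun p => if ‖p.2‖ ≤ (1 : ℝ) then
    comb (A (gam p)) (2 * min (r (gam p)) (‖p.2‖ + 2 * (1 - p.1)) - 1) else ∞) 1 ?_ ?_
  · convert hH using 1
    · funext x
      simp only
      by_cases hx : ‖x‖ ≤ 1
      · rw [if_pos hx, if_pos hx]
        have h1 : gam ((0 : ℝ), x) = x := by
          unfold gam
          simp only
          rw [zero_mul, add_zero, sub_zero, inv_one, one_smul]
        rw [h1, min_eq_left]
        have := (hr0 x).2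
        have := norm_nonneg x
        linarith
      · rw [if_neg hx, if_neg hx]
    · funext x
      simp only
      by_cases hx : ‖x‖ ≤ 1
      · rw [if_pos hx]
        by_cases hx0 : x = 0
        · subst hx0
          rw [sus_zero]
          symm
          refine comb_of_le _ _ ?_
          rw [norm_zero, sub_self, mul_zero, add_zero, min_eq_right (hr0 _).1]
          norm_num
        · have hx1 : 0 < ‖x‖ := norm_pos_iff.mpr hx0
          have h1 : gam ((1 : ℝ), x) = ‖x‖⁻¹ • x := by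
            unfold gam
            simp only
            rw [sub_self, one_mul, zero_add]
          have h2 : r (‖x‖⁻¹ • x) = 1 := by
            refine hr1 _ ?_
            rw [norm_smul, norm_inv, norm_norm, inv_mul_cancel₀ hx1.ne']
          rw [h1, h2, sub_self, mul_zero, add_zero, min_eq_right hx]
          rfl
      · rw [if_neg hx, sus_of_le A x (not_le.mp hx).le]
  · have hU : Icc (0 : ℝ) 1 ×ˢ (univ : Set (E (n + 1))) =
        (Icc (0 : ℝ) 1 ×ˢ closedBall (0 : E (n + 1)) 1) ∪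
          (Icc (0 : ℝ) 1 ×ˢ {x : E (n + 1) | 1 ≤ ‖x‖}) := by
      rw [← prod_union]
      congr 1
      refine (eq_univ_of_forall fun x => ?_).symm
      rcases le_total ‖x‖ 1 with h | h
      · exact Or.inl (mem_closedBall_zero_iff.mpr h)
      · exact Or.inr h
    rw [hU]
    refine ContinuousOn.union_of_isClosed ?_ ?_ (isClosed_Icc.prod isClosed_closedBall)
      (isClosed_Icc.prod (isClosed_le continuous_const continuous_norm))
    · refine hG.congr fun p hp => ?_
      simp only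
      rw [if_pos (mem_closedBall_zero_iff.mp hp.2)]
    · refine (continuousOn_const (c := ∞)).congr fun p hp => ?_
      simp only
      have h1 : 1 ≤ ‖p.2‖ := hp.2
      by_cases h2 : ‖p.2‖ ≤ 1
      · rw [if_pos h2]
        exact hG1 p.1 hp.1 p.2 (le_antisymm h2 h1)
      · rw [if_neg h2]
  · intro t ht x hx
    simp only
    by_cases h2 : ‖x‖ ≤ 1
    · rw [if_pos h2]
      exact hG1 t ht x (le_antisymm h2 hx)
    · rw [if_neg h2]

end XBD

open Topology.RelCWComplex in
theorem I_BD (hQQ : StQQ) (hRAD : StRAD) (hU2 : StU2) (hDEG : StDEG) (hDPR : StDPR)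
    (hCOMB : StCOMB) (hHO : StHO) (hPHI : StPHI) (hOPC : StOPC) (hSK : StSK) (hIFN : StIFN) :
    StBD := by
  intro X _ _ C _ n F hF hFm hFs k e he hFe c
  obtain ⟨ρ, R, hρ, hR, hsk, hcell, hρ01, hRm⟩ := hRAD X C n
  obtain ⟨hq1, hq2, hq3, hq4⟩ := hQQ X C k (n + 1) e he
  obtain ⟨hQ1, -, -, -⟩ := hQQ X C 1 n (fun _ : Fin 1 => c) (Function.injective_of_subsingleton _)
  obtain ⟨hs1, hs2, hs3, -⟩ := hSK X C
  have hskm : sk C (n + 1) ⊆ sk C (n + 2) := (hs1 (n + 1)).2.2
  -- the attaching maps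
  have hgc : ∀ a : Fin k, ContinuousOn (fun x => qq (fun _ : Fin 1 => map n c)
      (map (n + 1) (e a) x)) (sphere 0 1) := by
    intro a
    refine hQ1.comp ((RelCWComplex.continuousOn (n + 1) (e a)).mono sphere_subset_closedBall) ?_
    intro x hx
    exact (hs3 (n + 1) (e a)).1 ⟨x, hx, rfl⟩
  have hΦc : Continuous (XBD.Phi fun a : Fin k => Sus fun x =>
      qq (fun _ : Fin 1 => map n c) (map (n + 1) (e a) x)) :=
    XBD.cont_Phi hPHI _ (fun a => XBD.cont_sus hCOMB _ (hgc a)) (fun a x hx => XBD.sus_of_le _ x hx)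
  -- the map to the wedge
  have hf : CS ∞ (cut fun x => qq (fun a : Fin k => map (n + 1) (e a)) (F x)) := by
    refine ⟨XBD.cont_cut _ (hq1.comp hF hFm) ?_, 1, fun x hx => if_neg (not_lt.mpr hx)⟩
    intro x hx
    refine hq3 _ fun a ha => ?_
    exact Set.disjoint_left.mp (hs3 (n + 1) (e a)).2.1 ha
      (hFs (mem_sphere_zero_iff_norm.mpr hx))
  have hU := hU2 k 1 n (0 : Fin 1) _ hΦc rfl _ hf
  -- the sum
  have hsum : ∑ a : Fin k, deg (0 : Fin 1)
      (cut fun x => qq (fun _ => map (n + 1) (e a)) (F x)) *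
        inc (map (n + 1) (e a)) (map n c) = deg (0 : Fin 1) (fun x =>
          XBD.Phi (fun a : Fin k => Sus fun x => qq (fun _ : Fin 1 => map n c)
            (map (n + 1) (e a) x)) (cut (fun x => qq (fun a : Fin k => map (n + 1) (e a)) (F x)) x)) := by
    rw [hU]
    refine Finset.sum_congr rfl fun a _ => ?_
    congr 1
    · rw [(hDPR k (n + 1) a).2.1]
      congr 1
      funext x
      unfold cut
      by_cases hx : ‖x‖ < 1
      · rw [if_pos hx, if_pos hx]
        exact (hq4 a (F x)).symm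
      · rw [if_neg hx, if_neg hx]
        rfl
    · unfold inc
      congr 1
      funext x
      rw [XBD.Phi_io hPHI _ fun a x hx => XBD.sus_of_le _ x hx]
  rw [hsum]
  -- the homotopy
  have hho := XBD.homot hCOMB hHO (fun x => qq (fun _ : Fin 1 => map n c) (R (F x)))
    (fun x => ρ (F x)) (hρ.comp hF hFm) (fun x => hρ01 (F x)) (by
      refine hQ1.comp (hR.comp (hF.mono inter_subset_left) ?_) ?_
      · exact fun x hx => ⟨hFm hx.1, hx.2⟩
      · exact fun x hx => hRm (F x) (hFm hx.1) hx.2)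
    (fun x hx => (hsk (F x) (hFs (mem_sphere_zero_iff_norm.mpr hx))).1)
  have hfin := (hDEG 1 (n + 1) (0 : Fin 1)).2 _ _ hho
  unfold inc
  convert hfin using 2
  · funext x
    unfold cut
    rcases lt_trichotomy ‖x‖ 1 with hx | hx | hx
    · rw [if_pos hx, if_pos hx.le]
      beta_reduce
      rcases hFe x (mem_closedBall_zero_iff.mpr hx.le) with hz | ⟨a, ha⟩
      · rw [hq3 (F x) fun a ha => Set.disjoint_left.mp (hs3 (n + 1) (e a)).2.1 ha hz]
        symm
        refine XBD.comb_of_le _ _ ?_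
        rw [(hsk (F x) hz).1]
        norm_num
      · obtain ⟨y, hy, hyF⟩ := ha
        have hyF' : F x = map (n + 1) (e a) y := hyF.symm
        have hy1 : ‖y‖ < 1 := mem_ball_zero_iff.mp hy
        rw [hyF', hq2 a y hy]
        have h1 : XBD.Phi (fun a : Fin k => Sus fun x => qq (fun _ : Fin 1 => map n c)
            (map (n + 1) (e a) x)) (((a, psi y) : Fin k × E (n + 1)) : W k (n + 1)) =
            Sus (fun x => qq (fun _ : Fin 1 => map n c) (map (n + 1) (e a) x)) y := by
          unfold XBD.Phi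
          simp only [OnePoint.elim_some]
          rw [((hPHI (n + 1)).2.1 y hy1).1]
        rw [h1]
        obtain ⟨h2, h3⟩ := hcell (e a) y hy1.le
        by_cases hy0 : y = 0
        · subst hy0
          rw [XBD.sus_zero]
          symm
          refine XBD.comb_of_le _ _ ?_
          rw [h2, norm_zero]
          norm_num
        · rw [h3 hy0, h2]
          rfl
    · rw [if_neg hx.not_lt, if_pos hx.le]
      symm
      refine XBD.comb_of_le _ _ ?_
      rw [(hsk (F x) (hFs (mem_sphere_zero_iff_norm.mpr hx))).1]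
      norm_num
    · rw [if_neg hx.not_gt, if_neg (not_le.mpr hx)]
      rfl
  · funext x
    by_cases hx0 : x = 0
    · subst hx0
      rw [XBD.sus_zero, XBD.sus_zero]
    · have hx1 : 0 < ‖x‖ := norm_pos_iff.mpr hx0
      have h1 : ‖‖x‖⁻¹ • x‖ = 1 := by
        rw [norm_smul, norm_inv, norm_norm, inv_mul_cancel₀ hx1.ne']
      unfold Sus
      beta_reduce
      rw [(hsk _ (hFs (mem_sphere_zero_iff_norm.mpr h1))).2]

end Pool.Agent.Work.MP_e9e200_al.O3

end

section

/-!
# Project O3, item HEP: extension of the null homotopy to the next skeleton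
-/

set_option autoImplicit false

namespace Pool.Agent.Work.MP_e9e200_al.O3

open Set Metric Topology OnePoint

section
open Topology.RelCWComplex

namespace XHEP

open scoped Classical in
/-- the extension on a cell -/
noncomputable def F1 {X : Type} [TopologicalSpace X] {C : Set X} [CWComplex C] (N : ℕ)
    (D : ℝ × X → X) (e : cell C (N + 1)) (t : ℝ) (y : E (N + 1)) : X :=
  if (1 + t) * ‖y‖ ≤ 1 then map (N + 1) e ((1 + t) • y)
  else D ((1 + t) - ‖y‖⁻¹, map (N + 1) e (‖y‖⁻¹ • y))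

open scoped Classical in
/-- the extension -/
noncomputable def D1 {X : Type} [TopologicalSpace X] (C : Set X) [CWComplex C] (N : ℕ)
    (D : ℝ × X → X) (p : ℝ × X) : X :=
  if h : ∃ e : cell C (N + 1), p.2 ∈ openCell (N + 1) e then
    F1 N D h.choose p.1 ((map (N + 1) h.choose).symm p.2)
  else D p

theorem cell_uniq {X : Type} [TopologicalSpace X] {C : Set X} [CWComplex C] {n : ℕ}
    (e e' : cell C n) (x : X) (h : x ∈ openCell n e) (h' : x ∈ openCell n e') : e = e' := by
  by_contra hne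
  have h1 : (⟨n, e⟩ : Σ n, cell C n) ≠ ⟨n, e'⟩ := by
    intro h2
    apply hne
    simpa using h2
  have h2 := disjoint_openCell_of_ne (C := C) h1
  exact (disjoint_left.1 h2 h) h'

theorem D1_sk {X : Type} [TopologicalSpace X] [T2Space X] (hSK : StSK) {C : Set X} [CWComplex C]
    (N : ℕ) (D : ℝ × X → X) (t : ℝ) (x : X) (hx : x ∈ sk C (N + 1)) :
    D1 C N D (t, x) = D (t, x) := by
  unfold D1
  rw [dif_neg]
  rintro ⟨e, he⟩
  exact (disjoint_left.1 ((hSK X C).2.2.1 (N + 1) e).2.1 he) hx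

theorem D1_open {X : Type} [TopologicalSpace X] {C : Set X} [CWComplex C]
    (N : ℕ) (D : ℝ × X → X) (e : cell C (N + 1)) (t : ℝ) (y : E (N + 1)) (hy : ‖y‖ < 1) :
    D1 C N D (t, map (N + 1) e y) = F1 N D e t y := by
  have hyb : y ∈ ball (0 : E (N + 1)) 1 := mem_ball_zero_iff.2 hy
  have hm : map (N + 1) e y ∈ openCell (N + 1) e := ⟨y, hyb, rfl⟩
  have h : ∃ e : cell C (N + 1), (t, map (N + 1) e y).2 ∈ openCell (N + 1) e := ⟨e, hm⟩
  have h : ∃ e' : cell C (N + 1), ((t, map (N + 1) e y) : ℝ × X).2 ∈ openCell (N + 1) e' := ⟨e, hm⟩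
  unfold D1
  rw [dif_pos h]
  have he : h.choose = e := cell_uniq _ _ _ h.choose_spec hm
  rw [he]
  show F1 N D e t ((map (N + 1) e).symm (map (N + 1) e y)) = F1 N D e t y
  rw [(map (N + 1) e).left_inv]
  rw [source_eq]
  exact hyb

theorem D1_map {X : Type} [TopologicalSpace X] [T2Space X] (hSK : StSK) {C : Set X} [CWComplex C]
    (N : ℕ) (y₀ : X) (D : ℝ × X → X) (hD : NH C (N + 1) y₀ D) (e : cell C (N + 1)) (t : ℝ)
    (ht : 0 ≤ t) (y : E (N + 1)) (hy : ‖y‖ ≤ 1) :
    D1 C N D (t, map (N + 1) e y) = F1 N D e t y := by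
  rcases lt_or_eq_of_le hy with hlt | heq
  · exact D1_open N D e t y hlt
  · have hfr : map (N + 1) e y ∈ cellFrontier (N + 1) e :=
      ⟨y, mem_sphere_zero_iff_norm.2 heq, rfl⟩
    have hsk : map (N + 1) e y ∈ sk C (N + 1) := ((hSK X C).2.2.1 (N + 1) e).1 hfr
    rw [D1_sk hSK N D t _ hsk]
    unfold F1
    rw [heq]
    by_cases h : (1 + t) * 1 ≤ 1
    · have ht0 : t = 0 := by linarith
      rw [if_pos h, ht0, add_zero, one_smul]
      exact hD.zero _ hsk
    · rw [if_neg h, inv_one, one_smul]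
      congr 1
      refine Prod.ext ?_ rfl
      show t = 1 + t - 1
      ring

theorem fr_mem {X : Type} [TopologicalSpace X] [T2Space X] (hSK : StSK) {C : Set X} [CWComplex C]
    (N : ℕ) (e : cell C (N + 1)) (y : E (N + 1)) (hy : y ≠ 0) :
    map (N + 1) e (‖y‖⁻¹ • y) ∈ sk C (N + 1) := by
  refine ((hSK X C).2.2.1 (N + 1) e).1 ⟨‖y‖⁻¹ • y, ?_, rfl⟩
  rw [mem_sphere_zero_iff_norm, norm_smul, norm_inv, norm_norm]
  exact inv_mul_cancel₀ (norm_ne_zero_iff.2 hy)

/-- the second formula holds also at the common boundary -/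
theorem F1_two {X : Type} [TopologicalSpace X] [T2Space X] (hSK : StSK) {C : Set X} [CWComplex C]
    (N : ℕ) (y₀ : X) (D : ℝ × X → X) (hD : NH C (N + 1) y₀ D) (e : cell C (N + 1)) (t : ℝ)
    (ht : 0 ≤ t) (y : E (N + 1)) (hy : 1 ≤ (1 + t) * ‖y‖) :
    F1 N D e t y = D ((1 + t) - ‖y‖⁻¹, map (N + 1) e (‖y‖⁻¹ • y)) := by
  unfold F1
  by_cases h : (1 + t) * ‖y‖ ≤ 1
  · rw [if_pos h]
    have h1 : (1 + t) * ‖y‖ = 1 := le_antisymm h hy
    have hy0 : ‖y‖ ≠ 0 := by
      intro h0
      rw [h0, mul_zero] at h1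
      exact zero_ne_one h1
    have h2 : ‖y‖⁻¹ = 1 + t := by
      field_simp
      linarith
    have h3 := fr_mem hSK N e y (norm_ne_zero_iff.1 hy0)
    rw [h2, sub_self]
    rw [h2] at h3
    exact (hD.zero _ h3).symm
  · rw [if_neg h]

end XHEP

open XHEP in
theorem I_HEP (hSK : StSK) (hCNT : StCNT) : StHEP := by
  intro X _ _ C _ N y₀ D hD
  have hskc := (hSK X C).2.2.1
  have hmono := fun n => ((hSK X C).1 n).2.2
  -- points of the skeleton
  have hcase : ∀ x ∈ sk C (N + 2), x ∈ sk C (N + 1) ∨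
      ∃ (e : cell C (N + 1)) (y : E (N + 1)), ‖y‖ ≤ 1 ∧ map (N + 1) e y = x := by
    intro x hx
    unfold sk at hx
    simp only [mem_iUnion, exists_prop] at hx
    obtain ⟨m, hm, e, hxe⟩ := hx
    rcases Nat.lt_or_ge m (N + 1) with h | h
    · left
      unfold sk
      simp only [mem_iUnion, exists_prop]
      exact ⟨m, h, e, hxe⟩
    · right
      have hm' : m = N + 1 := by omega
      subst hm'
      obtain ⟨y, hy, hyx⟩ := hxe
      exact ⟨e, y, mem_closedBall_zero_iff.1 hy, hyx⟩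
  -- times
  have htime : ∀ t ∈ Icc (0 : ℝ) 1, ∀ y : E (N + 1), ‖y‖ ≤ 1 → 1 ≤ (1 + t) * ‖y‖ →
      y ≠ 0 ∧ (1 + t) - ‖y‖⁻¹ ∈ Icc (0 : ℝ) 1 := by
    rintro t ⟨ht0, ht1⟩ y hy hty
    have hy0 : 0 < ‖y‖ := by
      rcases (norm_nonneg y).lt_or_eq with h | h
      · exact h
      · rw [← h, mul_zero] at hty
        linarith
    refine ⟨norm_pos_iff.1 hy0, ?_, ?_⟩
    · have : ‖y‖⁻¹ ≤ 1 + t := by
        rw [inv_le_iff_one_le_mul₀ hy0]
        linarith
      linarith
    · have : 1 ≤ ‖y‖⁻¹ := (one_le_inv₀ hy0).2 hy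
      linarith
  refine ⟨D1 C N D, ?_, ?_, ?_, ?_, ?_⟩
  · -- continuity
    refine (hCNT X X C).2.2 (N + 2) (D1 C N D) ?_
    intro n hn e
    rcases Nat.lt_or_ge n (N + 1) with h | h
    · -- cells of small dimension
      have hmem : ∀ y ∈ closedBall (0 : E n) 1, map n e y ∈ sk C (N + 1) := by
        intro y hy
        unfold sk
        simp only [mem_iUnion, exists_prop]
        exact ⟨n, h, e, y, hy, rfl⟩
      have h1 : ContinuousOn (fun p : ℝ × E n => D (p.1, map n e p.2))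
          (Icc 0 1 ×ˢ closedBall 0 1) := by
        refine hD.cont.comp (ContinuousOn.prodMk continuousOn_fst ?_) ?_
        · exact (continuousOn n e).comp continuousOn_snd (fun p hp => hp.2)
        · intro p hp
          exact ⟨hp.1, hmem _ hp.2⟩
      refine h1.congr ?_
      intro p hp
      exact D1_sk hSK N D p.1 _ (hmem _ hp.2)
    · have hn' : n = N + 1 := by omega
      subst hn'
      have hcl : IsClosed (Icc (0 : ℝ) 1 ×ˢ closedBall (0 : E (N + 1)) 1) :=
        isClosed_Icc.prod isClosed_closedBall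
      have hcont : Continuous (fun p : ℝ × E (N + 1) => (1 + p.1) * ‖p.2‖) := by fun_prop
      have hc1 : IsClosed {p : ℝ × E (N + 1) | (1 + p.1) * ‖p.2‖ ≤ 1} :=
        isClosed_le hcont continuous_const
      have hc2 : IsClosed {p : ℝ × E (N + 1) | 1 ≤ (1 + p.1) * ‖p.2‖} :=
        isClosed_le continuous_const hcont
      have hun : (Icc (0 : ℝ) 1 ×ˢ closedBall (0 : E (N + 1)) 1) =
          ((Icc (0 : ℝ) 1 ×ˢ closedBall (0 : E (N + 1)) 1) ∩ {p | (1 + p.1) * ‖p.2‖ ≤ 1}) ∪
          ((Icc (0 : ℝ) 1 ×ˢ closedBall (0 : E (N + 1)) 1) ∩ {p | 1 ≤ (1 + p.1) * ‖p.2‖}) := by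
        rw [← inter_union_distrib_left]
        symm
        rw [inter_eq_left]
        intro p _
        exact le_total ((1 + p.1) * ‖p.2‖) 1
      rw [hun]
      refine ContinuousOn.union_of_isClosed ?_ ?_ (hcl.inter hc1) (hcl.inter hc2)
      · have h1 : ContinuousOn (fun p : ℝ × E (N + 1) => map (N + 1) e ((1 + p.1) • p.2))
            ((Icc (0 : ℝ) 1 ×ˢ closedBall (0 : E (N + 1)) 1) ∩ {p | (1 + p.1) * ‖p.2‖ ≤ 1}) := by
          refine (continuousOn (N + 1) e).comp (Continuous.continuousOn (by fun_prop)) ?_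
          rintro p ⟨⟨⟨hp1, _⟩, _⟩, hp2⟩
          rw [mem_closedBall_zero_iff, norm_smul, Real.norm_eq_abs, abs_of_nonneg (by linarith)]
          exact hp2
        refine h1.congr ?_
        rintro p ⟨⟨hp1, hp3⟩, hp2⟩
        show D1 C N D (p.1, map (N + 1) e p.2) = _
        rw [D1_map hSK N y₀ D hD e p.1 hp1.1 p.2 (mem_closedBall_zero_iff.1 hp3)]
        unfold F1
        have hp2' : (1 + p.1) * ‖p.2‖ ≤ 1 := hp2
        rw [if_pos hp2']
      · have h1 : ContinuousOn (fun p : ℝ × E (N + 1) =>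
            D ((1 + p.1) - ‖p.2‖⁻¹, map (N + 1) e (‖p.2‖⁻¹ • p.2)))
            ((Icc (0 : ℝ) 1 ×ˢ closedBall (0 : E (N + 1)) 1) ∩ {p | 1 ≤ (1 + p.1) * ‖p.2‖}) := by
          have hne : ∀ p ∈ ((Icc (0 : ℝ) 1 ×ˢ closedBall (0 : E (N + 1)) 1) ∩
              {p : ℝ × E (N + 1) | 1 ≤ (1 + p.1) * ‖p.2‖}), ‖p.2‖ ≠ 0 := by
            rintro p ⟨⟨hp1, hp3⟩, hp2⟩
            exact norm_ne_zero_iff.2 (htime p.1 hp1 p.2 (mem_closedBall_zero_iff.1 hp3) hp2).1
          have hinv : ContinuousOn (fun p : ℝ × E (N + 1) => ‖p.2‖⁻¹)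
              ((Icc (0 : ℝ) 1 ×ˢ closedBall (0 : E (N + 1)) 1) ∩
                {p : ℝ × E (N + 1) | 1 ≤ (1 + p.1) * ‖p.2‖}) :=
            ContinuousOn.inv₀ (Continuous.continuousOn (by fun_prop)) hne
          refine hD.cont.comp (ContinuousOn.prodMk ?_ ?_) ?_
          · exact (Continuous.continuousOn (by fun_prop)).sub hinv
          · refine (continuousOn (N + 1) e).comp (hinv.smul continuousOn_snd) ?_
            rintro p hp
            rw [mem_closedBall_zero_iff, norm_smul, norm_inv, norm_norm,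
              inv_mul_cancel₀ (hne p hp)]
          · rintro p ⟨⟨hp1, hp3⟩, hp2⟩
            have h3 := htime p.1 hp1 p.2 (mem_closedBall_zero_iff.1 hp3) hp2
            exact ⟨h3.2, fr_mem hSK N e p.2 h3.1⟩
        refine h1.congr ?_
        rintro p ⟨⟨hp1, hp3⟩, hp2⟩
        show D1 C N D (p.1, map (N + 1) e p.2) = _
        rw [D1_map hSK N y₀ D hD e p.1 hp1.1 p.2 (mem_closedBall_zero_iff.1 hp3)]
        exact F1_two hSK N y₀ D hD e p.1 hp1.1 p.2 hp2
  · intro x hx
    rcases hcase x hx with h | ⟨e, y, hy, rfl⟩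
    · rw [D1_sk hSK N D 0 x h]
      exact hD.zero x h
    · rw [D1_map hSK N y₀ D hD e 0 le_rfl y hy]
      unfold F1
      rw [if_pos (by linarith), add_zero, one_smul]
  · intro x hx t _
    exact D1_sk hSK N D t x hx
  · intro x hx t ht
    rcases hcase x hx with h | ⟨e, y, hy, rfl⟩
    · rw [D1_sk hSK N D t x h]
      exact hD.sk N (Nat.lt_succ_self N) x h t ht
    · rw [D1_map hSK N y₀ D hD e t ht.1 y hy]
      by_cases hty : (1 + t) * ‖y‖ ≤ 1
      · unfold F1
        rw [if_pos hty]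
        refine (hskc (N + 1) e).2.2 ⟨(1 + t) • y, ?_, rfl⟩
        rw [mem_closedBall_zero_iff, norm_smul, Real.norm_eq_abs,
          abs_of_nonneg (by linarith [ht.1])]
        exact hty
      · have hty' : 1 ≤ (1 + t) * ‖y‖ := (not_le.1 hty).le
        rw [F1_two hSK N y₀ D hD e t ht.1 y hty']
        have h3 := htime t ht y hy hty'
        exact hD.sk N (Nat.lt_succ_self N) _ (fr_mem hSK N e y h3.1) _ h3.2
  · intro e y
    refine ⟨fun hy => ?_, fun hy1 hy2 => ?_⟩
    · rw [D1_map hSK N y₀ D hD e 1 zero_le_one y (by linarith)]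
      unfold F1
      rw [if_pos (by linarith)]
      norm_num
    · rw [D1_map hSK N y₀ D hD e 1 zero_le_one y hy2,
        F1_two hSK N y₀ D hD e 1 zero_le_one y (by linarith)]
      norm_num

end

end Pool.Agent.Work.MP_e9e200_al.O3

end

section

/-!
# Item NHX: existence of null homotopies of skeleta
-/

set_option autoImplicit false

namespace Pool.Agent.Work.MP_e9e200_al.O3

open Set Metric Topology OnePoint

noncomputable section

namespace XNHX

open Topology.RelCWComplex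

/-- the tail of a vector -/
def tl {n : ℕ} (x : E (n + 1)) : E n := fun i => x i.succ

/-- the vector with given first coordinate and tail -/
def cn {n : ℕ} (a : ℝ) (y : E n) : E (n + 1) := Fin.cons a y

lemma continuous_tl {n : ℕ} : Continuous (tl : E (n + 1) → E n) := by
  unfold tl; fun_prop

lemma continuous_cn {n : ℕ} : Continuous (fun p : ℝ × E n => cn (2 * p.1 - 1) p.2) := by
  refine continuous_pi fun i => ?_
  refine Fin.cases ?_ (fun j => ?_) i
  · show Continuous fun p : ℝ × E n => 2 * p.1 - 1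
    fun_prop
  · exact (continuous_apply j).comp continuous_snd

lemma cn_zero {n : ℕ} (a : ℝ) (y : E n) : cn a y 0 = a := rfl

lemma tl_cn {n : ℕ} (a : ℝ) (y : E n) : tl (cn a y) = y := rfl

lemma norm_tl_le {n : ℕ} (x : E (n + 1)) : ‖tl x‖ ≤ ‖x‖ := by
  refine (pi_norm_le_iff_of_nonneg (norm_nonneg _)).2 fun i => ?_
  exact norm_le_pi_norm x i.succ

lemma norm_eq {n : ℕ} (x : E (n + 1)) : ‖x‖ = max |x 0| ‖tl x‖ := by
  apply le_antisymm
  · refine (pi_norm_le_iff_of_nonneg (le_max_of_le_left (abs_nonneg _))).2 fun i => ?_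
    refine Fin.cases ?_ (fun j => ?_) i
    · exact le_max_left _ _
    · exact le_trans (norm_le_pi_norm (tl x) j) (le_max_right _ _)
  · refine max_le ?_ ?_
    · exact norm_le_pi_norm x 0
    · exact norm_tl_le x

lemma norm_cn {n : ℕ} (a : ℝ) (y : E n) : ‖cn a y‖ = max |a| ‖y‖ := norm_eq _

lemma sk_mono {X : Type} [TopologicalSpace X] (C : Set X) [CWComplex C] {m n : ℕ}
    (h : m ≤ n) : O3.sk C m ⊆ O3.sk C n := by
  intro x hx
  simp only [O3.sk, mem_iUnion] at hx ⊢
  obtain ⟨k, hk, e, he⟩ := hx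
  exact ⟨k, lt_of_lt_of_le hk h, e, he⟩

lemma sk_succ {X : Type} [TopologicalSpace X] (C : Set X) [CWComplex C] {n : ℕ} {x : X}
    (hx : x ∈ O3.sk C (n + 1)) : x ∈ O3.sk C n ∨ ∃ e : cell C n, x ∈ closedCell n e := by
  simp only [O3.sk, mem_iUnion] at hx ⊢
  obtain ⟨k, hk, e, he⟩ := hx
  rcases Nat.lt_succ_iff_lt_or_eq.1 hk with h | h
  · exact Or.inl ⟨k, h, e, he⟩
  · subst h
    exact Or.inr ⟨e, he⟩

lemma uniq {X : Type} [TopologicalSpace X] (C : Set X) [CWComplex C] {n : ℕ} {e e' : cell C n}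
    {x : X} (h : x ∈ openCell n e) (h' : x ∈ openCell n e') : e = e' := by
  by_contra hne
  exact Set.disjoint_left.1 (disjoint_openCell_of_ne
    (show (⟨n, e⟩ : Σ n, cell C n) ≠ ⟨n, e'⟩ by simpa using hne)) h h'

open scoped Classical in
/-- the boundary map -/
def gg {X : Type} {N : ℕ} (D : ℝ × X → X) (m : E N → X) (y₀ : X) (z : E (N + 1)) : X :=
  if z 0 = -1 then m (tl z) else if z 0 = 1 then y₀ else D ((z 0 + 1) / 2, m (tl z))

lemma tl_mem {N : ℕ} {z : E (N + 1)} (hz : z ∈ sphere (0 : E (N + 1)) 1) :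
    tl z ∈ closedBall (0 : E N) 1 := by
  rw [mem_closedBall_zero_iff, ← mem_sphere_zero_iff_norm.1 hz]
  exact norm_tl_le z

lemma coord_mem {N : ℕ} {z : E (N + 1)} (hz : z ∈ sphere (0 : E (N + 1)) 1) :
    (z 0 + 1) / 2 ∈ Icc (0 : ℝ) 1 := by
  have h : |z 0| ≤ 1 := by
    rw [← mem_sphere_zero_iff_norm.1 hz]; exact norm_le_pi_norm z 0
  obtain ⟨h1, h2⟩ := abs_le.1 h
  constructor <;> linarith

/-- the cases for a point of the sphere -/
lemma cases_sphere {N : ℕ} {z : E (N + 1)} (hz : z ∈ sphere (0 : E (N + 1)) 1) :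
    z 0 = -1 ∨ z 0 = 1 ∨ ‖tl z‖ = 1 := by
  have h := norm_eq z
  rw [mem_sphere_zero_iff_norm.1 hz] at h
  rcases max_choice |z 0| ‖tl z‖ with h1 | h1
  · rw [h1] at h
    rcases (abs_eq (zero_le_one' ℝ)).1 h.symm with h2 | h2
    · exact Or.inr (Or.inl h2)
    · exact Or.inl h2
  · rw [h1] at h
    exact Or.inr (Or.inr h.symm)

lemma gg_neg {X : Type} {N : ℕ} (D : ℝ × X → X) (m : E N → X) (y₀ : X) {z : E (N + 1)}
    (h : z 0 = -1) : gg D m y₀ z = m (tl z) := if_pos h

lemma gg_one {X : Type} {N : ℕ} (D : ℝ × X → X) (m : E N → X) (y₀ : X) {z : E (N + 1)}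
    (h : z 0 = 1) : gg D m y₀ z = y₀ := by
  unfold gg
  rw [if_neg (by rw [h]; norm_num), if_pos h]

lemma gg_tl {X : Type} {N : ℕ} {A : Set X} {D : ℝ × X → X} {m : E N → X} {y₀ : X}
    (hmA : MapsTo m (sphere 0 1) A) (h0 : ∀ x ∈ A, D (0, x) = x) (h1 : ∀ x ∈ A, D (1, x) = y₀)
    {z : E (N + 1)} (h : ‖tl z‖ = 1) : gg D m y₀ z = D ((z 0 + 1) / 2, m (tl z)) := by
  have hA : m (tl z) ∈ A := hmA (mem_sphere_zero_iff_norm.2 h)
  unfold gg
  split_ifs with h2 h3
  · rw [h2]
    norm_num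
    exact (h0 _ hA).symm
  · rw [h3]
    norm_num
    exact (h1 _ hA).symm
  · rfl

lemma gg_cont {X : Type} [TopologicalSpace X] {N : ℕ} {A : Set X} {D : ℝ × X → X} {m : E N → X}
    {y₀ : X} (hm : ContinuousOn m (closedBall 0 1)) (hmA : MapsTo m (sphere 0 1) A)
    (hD : ContinuousOn D (Icc 0 1 ×ˢ A))
    (h0 : ∀ x ∈ A, D (0, x) = x) (h1 : ∀ x ∈ A, D (1, x) = y₀) :
    ContinuousOn (gg D m y₀) (sphere 0 1) := by
  have hcov : sphere (0 : E (N + 1)) 1 = (sphere (0 : E (N + 1)) 1 ∩ {z | z 0 = -1}) ∪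
      ((sphere (0 : E (N + 1)) 1 ∩ {z | z 0 = 1}) ∪
        (sphere (0 : E (N + 1)) 1 ∩ {z | ‖tl z‖ = 1})) := by
    rw [← inter_union_distrib_left, ← inter_union_distrib_left]
    symm
    rw [inter_eq_left]
    intro z hz
    exact cases_sphere hz
  have c0 : IsClosed {z : E (N + 1) | z 0 = -1} := isClosed_eq (continuous_apply 0)
    continuous_const
  have c1 : IsClosed {z : E (N + 1) | z 0 = 1} := isClosed_eq (continuous_apply 0)
    continuous_const
  have c2 : IsClosed {z : E (N + 1) | ‖tl z‖ = 1} := isClosed_eq (continuous_norm.comp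
    continuous_tl) continuous_const
  rw [hcov]
  refine ContinuousOn.union_of_isClosed ?_ (ContinuousOn.union_of_isClosed ?_ ?_
    (isClosed_sphere.inter c1) (isClosed_sphere.inter c2)) (isClosed_sphere.inter c0)
    ((isClosed_sphere.inter c1).union (isClosed_sphere.inter c2))
  · have h : ContinuousOn (fun z : E (N + 1) => m (tl z))
        (sphere (0 : E (N + 1)) 1 ∩ {z | z 0 = -1}) :=
      hm.comp continuous_tl.continuousOn fun z hz => tl_mem hz.1
    exact h.congr fun z hz => gg_neg D m y₀ hz.2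
  · exact (continuousOn_const (c := y₀)).congr fun z hz => gg_one D m y₀ hz.2
  · have h : ContinuousOn (fun z : E (N + 1) => D ((z 0 + 1) / 2, m (tl z)))
        (sphere (0 : E (N + 1)) 1 ∩ {z | ‖tl z‖ = 1}) := by
      refine hD.comp (ContinuousOn.prodMk (by fun_prop)
        (hm.comp continuous_tl.continuousOn fun z hz => tl_mem hz.1)) fun z hz => ?_
      exact ⟨coord_mem hz.1, hmA (mem_sphere_zero_iff_norm.2 hz.2)⟩
    exact h.congr fun z hz => gg_tl hmA h0 h1 hz.2

lemma cn_mem_ball {N : ℕ} {t : ℝ} {y : E N} (ht : t ∈ Icc (0 : ℝ) 1)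
    (hy : y ∈ closedBall (0 : E N) 1) : cn (2 * t - 1) y ∈ closedBall (0 : E (N + 1)) 1 := by
  rw [mem_closedBall_zero_iff] at hy ⊢
  rw [norm_cn]
  refine max_le (abs_le.2 ⟨by linarith [ht.1], by linarith [ht.2]⟩) hy

lemma step (hSK : StSK) (hCNT : StCNT) {X : Type} [TopologicalSpace X] [T2Space X] (C : Set X)
    [CWComplex C] (N : ℕ) (y₀ : X) (hy₀ : y₀ ∈ O3.sk C 1) (hE : Ext (O3.sk C (N + 2)) N)
    (D : ℝ × X → X) (hD : NH C N y₀ D) : ∃ D', NH C (N + 1) y₀ D' := by
  classical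
  obtain ⟨hsk1, hsk2, hsk3, -, hsk0, -⟩ := hSK X C
  have hDN : ∀ x ∈ O3.sk C N, ∀ t ∈ Icc (0 : ℝ) 1, D (t, x) ∈ O3.sk C (N + 2) := by
    intro x hx t ht
    rcases N with _ | M
    · rw [hsk0] at hx
      exact absurd hx (notMem_empty x)
    · exact sk_mono C (by omega) (hD.sk M (Nat.lt_succ_self M) x hx t ht)
  have hfr : ∀ e : cell C N, MapsTo (map N e) (sphere 0 1) (O3.sk C N) :=
    fun e x hx => (hsk3 N e).1 ⟨x, hx, rfl⟩
  have hcl : ∀ e : cell C N, ∀ y ∈ closedBall (0 : E N) 1, map N e y ∈ O3.sk C (N + 1) :=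
    fun e y hy => (hsk3 N e).2.2 ⟨y, hy, rfl⟩
  have hdis : ∀ x ∈ O3.sk C N, ¬ ∃ e : cell C N, x ∈ openCell N e := by
    rintro x hx ⟨e, he⟩
    exact Set.disjoint_left.1 (hsk3 N e).2.1 he hx
  -- the extensions
  have hG : ∀ e : cell C N, ∃ G : E (N + 1) → X, ContinuousOn G (closedBall 0 1) ∧
      MapsTo G (closedBall 0 1) (O3.sk C (N + 2)) ∧
      EqOn G (gg D (map N e) y₀) (sphere 0 1) ∧ (y₀ ∈ openCell N e → ∀ z, G z = y₀) := by
    intro e
    by_cases hy : y₀ ∈ openCell N e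
    · have hN : N = 0 := by
        by_contra hN
        exact hdis y₀ (sk_mono C (Nat.one_le_iff_ne_zero.2 hN) hy₀) ⟨e, hy⟩
      subst hN
      refine ⟨fun _ => y₀, continuousOn_const, fun _ _ => sk_mono C (by omega) hy₀, ?_,
        fun _ _ => rfl⟩
      intro z hz
      obtain ⟨y, -, hy2⟩ := hy
      rcases cases_sphere hz with h | h | h
      · rw [gg_neg D _ y₀ h, Subsingleton.elim (tl z) y, hy2]
      · rw [gg_one D _ y₀ h]
      · exfalso
        rw [Subsingleton.elim (tl z) 0, norm_zero] at h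
        exact zero_ne_one h
    · obtain ⟨G, h1, h2, h3⟩ := hE (gg D (map N e) y₀)
        (gg_cont (continuousOn N e) (hfr e) hD.cont hD.zero hD.one) (by
          intro z hz
          rcases cases_sphere hz with h | h | h
          · rw [gg_neg D _ y₀ h]
            exact sk_mono C (by omega) (hcl e _ (tl_mem hz))
          · rw [gg_one D _ y₀ h]
            exact sk_mono C (by omega) hy₀
          · rw [gg_tl (hfr e) hD.zero hD.one h]
            exact hDN _ (hfr e (mem_sphere_zero_iff_norm.2 h)) _ (coord_mem hz))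
      exact ⟨G, h1, h2, h3, fun h => absurd h hy⟩
  choose G hG1 hG2 hG3 hG4 using hG
  let D' : ℝ × X → X := fun p => if h : ∃ e : cell C N, p.2 ∈ openCell N e then
    G h.choose (cn (2 * p.1 - 1) ((map N h.choose).symm p.2)) else D p
  have hD'old : ∀ x ∈ O3.sk C N, ∀ t, D' (t, x) = D (t, x) := by
    intro x hx t
    exact dif_neg (hdis x hx)
  have hD'new : ∀ (e : cell C N), ∀ y ∈ closedBall (0 : E N) 1, ∀ t ∈ Icc (0 : ℝ) 1,
      D' (t, map N e y) = G e (cn (2 * t - 1) y) := by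
    intro e y hy t ht
    rw [mem_closedBall_zero_iff] at hy
    rcases lt_or_eq_of_le hy with hlt | heq
    · have hyb : y ∈ ball (0 : E N) 1 := mem_ball_zero_iff.2 hlt
      have hx : map N e y ∈ openCell N e := ⟨y, hyb, rfl⟩
      have hex : ∃ e' : cell C N, map N e y ∈ openCell N e' := ⟨e, hx⟩
      show (if h : ∃ e' : cell C N, map N e y ∈ openCell N e' then
        G h.choose (cn (2 * t - 1) ((map N h.choose).symm (map N e y))) else D (t, map N e y)) = _
      rw [dif_pos hex]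
      have he : hex.choose = e := uniq C hex.choose_spec hx
      rw [he, (map N e).left_inv (by rw [source_eq]; exact hyb)]
    · have hys : y ∈ sphere (0 : E N) 1 := mem_sphere_zero_iff_norm.2 heq
      rw [hD'old _ (hfr e hys)]
      have hzs : cn (2 * t - 1) y ∈ sphere (0 : E (N + 1)) 1 := by
        rw [mem_sphere_zero_iff_norm, norm_cn, heq]
        exact max_eq_right (abs_le.2 ⟨by linarith [ht.1], by linarith [ht.2]⟩)
      rw [hG3 e hzs, gg_tl (hfr e) hD.zero hD.one (by rw [tl_cn]; exact heq), tl_cn, cn_zero]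
      congr 2
      ring
  refine ⟨D', ⟨?_, ?_, ?_, ?_, ?_⟩⟩
  · refine (hCNT X X C).2.2 (N + 1) D' fun n hn e => ?_
    rcases Nat.lt_succ_iff_lt_or_eq.1 hn with h | h
    · have hmem : ∀ y ∈ closedBall (0 : E n) 1, map n e y ∈ O3.sk C N := fun y hy =>
        sk_mono C h ((hsk3 n e).2.2 ⟨y, hy, rfl⟩)
      have hc : ContinuousOn (fun p : ℝ × E n => D (p.1, map n e p.2))
          (Icc 0 1 ×ˢ closedBall 0 1) := by
        refine hD.cont.comp (ContinuousOn.prodMk (by fun_prop)
          ((continuousOn n e).comp (by fun_prop) fun p hp => hp.2)) fun p hp => ?_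
        exact ⟨hp.1, hmem _ hp.2⟩
      exact hc.congr fun p hp => hD'old _ (hmem _ hp.2) _
    · subst h
      have hc : ContinuousOn (fun p : ℝ × E n => G e (cn (2 * p.1 - 1) p.2))
          (Icc 0 1 ×ˢ closedBall 0 1) :=
        (hG1 e).comp continuous_cn.continuousOn fun p hp => cn_mem_ball hp.1 hp.2
      exact hc.congr fun p hp => hD'new e p.2 hp.2 p.1 hp.1
  · intro x hx
    rcases sk_succ C hx with h | ⟨e, y, hy, rfl⟩
    · rw [hD'old x h, hD.zero x h]
    · rw [hD'new e y hy 0 ⟨le_rfl, zero_le_one⟩]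
      have hzs : cn (2 * (0 : ℝ) - 1) y ∈ sphere (0 : E (N + 1)) 1 := by
        rw [mem_sphere_zero_iff_norm, norm_cn]
        have := mem_closedBall_zero_iff.1 hy
        norm_num
        exact this
      rw [hG3 e hzs, gg_neg D _ y₀ (by rw [cn_zero]; norm_num), tl_cn]
  · intro x hx
    rcases sk_succ C hx with h | ⟨e, y, hy, rfl⟩
    · rw [hD'old x h, hD.one x h]
    · rw [hD'new e y hy 1 ⟨zero_le_one, le_rfl⟩]
      have hzs : cn (2 * (1 : ℝ) - 1) y ∈ sphere (0 : E (N + 1)) 1 := by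
        rw [mem_sphere_zero_iff_norm, norm_cn]
        have := mem_closedBall_zero_iff.1 hy
        norm_num
        exact this
      rw [hG3 e hzs, gg_one D _ y₀ (by rw [cn_zero]; norm_num)]
  · intro t ht
    by_cases h : ∃ e : cell C N, y₀ ∈ openCell N e
    · show (if h : ∃ e' : cell C N, y₀ ∈ openCell N e' then
        G h.choose (cn (2 * t - 1) ((map N h.choose).symm y₀)) else D (t, y₀)) = _
      rw [dif_pos h]
      exact hG4 _ h.choose_spec _
    · show (if h : ∃ e' : cell C N, y₀ ∈ openCell N e' then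
        G h.choose (cn (2 * t - 1) ((map N h.choose).symm y₀)) else D (t, y₀)) = _
      rw [dif_neg h]
      exact hD.base t ht
  · intro j hj x hx t ht
    rcases Nat.lt_succ_iff_lt_or_eq.1 hj with h | h
    · rw [hD'old x (sk_mono C h hx)]
      exact hD.sk j h x hx t ht
    · subst h
      rcases sk_succ C hx with h | ⟨e, y, hy, rfl⟩
      · rw [hD'old x h]
        exact hDN x h t ht
      · rw [hD'new e y hy t ht]
        exact hG2 e (cn_mem_ball ht hy)

end XNHX

open XNHX Topology.RelCWComplex in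
theorem I_NHX (hSK : StSK) (hCNT : StCNT) : StNHX := by
  intro X _ _ C _ N v hE
  have hy₀ : map 0 v 0 ∈ O3.sk C 1 := by
    refine ((hSK X C).2.2.1 0 v).2.2 ?_
    exact ⟨0, mem_closedBall_self (by norm_num), rfl⟩
  induction N with
  | zero =>
    refine ⟨fun _ => map 0 v 0, ⟨continuousOn_const, ?_, fun _ _ => rfl, fun _ _ => rfl, ?_⟩⟩
    · intro x hx
      rw [(hSK X C).2.2.2.2.1] at hx
      exact absurd hx (notMem_empty x)
    · intro j hj
      exact absurd hj (Nat.not_lt_zero j)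
  | succ N ih =>
    obtain ⟨D, hD⟩ := ih fun j hj => hE j (Nat.lt_succ_of_lt hj)
    exact step hSK hCNT C N _ hy₀ (hE N (Nat.lt_succ_self N)) D hD

end

end Pool.Agent.Work.MP_e9e200_al.O3

end

section

/-!
# Project O3, item RAD: the radial coordinate and the radial retraction
-/

set_option autoImplicit false

namespace Pool.Agent.Work.MP_e9e200_al.O3

open Set Metric Topology OnePoint

open Topology.RelCWComplex

namespace XRAD

open scoped Classical in
/-- the function given by `g` on the open cells of dimension `m` and by `h` elsewhere -/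
noncomputable def gd {X Z : Type} [TopologicalSpace X] (C : Set X) [CWComplex C] (m : ℕ)
    (g : cell C m → E m → Z) (h : X → Z) (x : X) : Z :=
  if hx : ∃ e : cell C m, x ∈ openCell m e then g hx.choose ((map m hx.choose).symm x) else h x

variable {X Z : Type} [TopologicalSpace X] [T2Space X] [TopologicalSpace Z] {C : Set X}
  [CWComplex C] {m : ℕ} {g : cell C m → E m → Z} {h : X → Z}

omit [T2Space X] in
theorem cell_unique {e e' : cell C m} {x : X} (h1 : x ∈ openCell m e) (h2 : x ∈ openCell m e') :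
    e = e' := by
  by_contra hne
  have h3 : (⟨m, e⟩ : Σ n, cell C n) ≠ ⟨m, e'⟩ := by
    intro h4
    apply hne
    simpa using h4
  have h5 := disjoint_openCell_of_ne (C := C) h3
  exact (Set.disjoint_left.mp h5) h1 h2

omit [T2Space X] [TopologicalSpace Z] in
theorem gd_open (e : cell C m) (y : E m) (hy : y ∈ ball (0 : E m) 1) :
    gd C m g h (map m e y) = g e y := by
  have h1 : map m e y ∈ openCell m e := ⟨y, hy, rfl⟩
  have hx : ∃ e' : cell C m, map m e y ∈ openCell m e' := ⟨e, h1⟩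
  unfold gd
  rw [dif_pos hx]
  have h2 : hx.choose = e := cell_unique hx.choose_spec h1
  rw [h2]
  congr 1
  apply (map m e).left_inv
  rw [source_eq]
  exact hy

omit [T2Space X] [TopologicalSpace Z] in
theorem gd_not (x : X) (hx : ∀ e : cell C m, x ∉ openCell m e) : gd C m g h x = h x := by
  unfold gd
  rw [dif_neg]
  rintro ⟨e, he⟩
  exact hx e he

theorem not_open (hSK : StSK) (x : X) (hx : x ∈ sk C m) (e : cell C m) : x ∉ openCell m e := by
  intro h1
  exact (Set.disjoint_left.mp ((hSK X C).2.2.1 m e).2.1) h1 hx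

theorem sphere_mem (hSK : StSK) (e : cell C m) (y : E m) (hy : ‖y‖ = 1) :
    map m e y ∈ sk C m := by
  apply ((hSK X C).2.2.1 m e).1
  exact ⟨y, by simpa using hy, rfl⟩

omit [TopologicalSpace Z] in
theorem gd_closed (hSK : StSK) (hg : ∀ (e : cell C m) (y : E m), ‖y‖ = 1 → g e y = h (map m e y))
    (e : cell C m) (y : E m) (hy : ‖y‖ ≤ 1) : gd C m g h (map m e y) = g e y := by
  rcases lt_or_eq_of_le hy with h1 | h1
  · exact gd_open e y (by simpa using h1)
  · rw [hg e y h1]
    exact gd_not _ (not_open hSK _ (sphere_mem hSK e y h1))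

theorem gd_cont (hSK : StSK) (hCNT : StCNT)
    (hg : ∀ (e : cell C m) (y : E m), ‖y‖ = 1 → g e y = h (map m e y))
    (hgc : ∀ e : cell C m, ContinuousOn (g e) (closedBall 0 1)) (hh : Continuous h) :
    ContinuousOn (gd C m g h) (sk C (m + 1)) := by
  have h1 : ContinuousOn (fun p : ℝ × X => gd C m g h p.2) (Icc 0 1 ×ˢ sk C (m + 1)) := by
    apply (hCNT X Z C).2.2 (m + 1)
    intro j hj e
    rcases Nat.lt_succ_iff_lt_or_eq.mp hj with hj | hj
    · have h2 : ContinuousOn (fun p : ℝ × E j => h (map j e p.2)) (Icc 0 1 ×ˢ closedBall 0 1) := by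
        apply hh.comp_continuousOn
        exact (continuousOn j e).comp continuous_snd.continuousOn (fun p hp => hp.2)
      refine h2.congr ?_
      rintro ⟨t, y⟩ ⟨-, hy⟩
      apply gd_not
      apply not_open hSK
      unfold sk
      simp only [mem_iUnion, exists_prop]
      exact ⟨j, hj, e, y, hy, rfl⟩
    · subst hj
      have h2 : ContinuousOn (fun p : ℝ × E j => g e p.2) (Icc 0 1 ×ˢ closedBall 0 1) :=
        (hgc e).comp continuous_snd.continuousOn (fun p hp => hp.2)
      refine h2.congr ?_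
      rintro ⟨t, y⟩ ⟨-, hy⟩
      exact gd_closed hSK hg e y (by simpa using hy)
  have h2 : ContinuousOn (fun x : X => ((0 : ℝ), x)) (sk C (m + 1)) :=
    (Continuous.prodMk continuous_const continuous_id).continuousOn
  exact h1.comp h2 (fun x hx => ⟨⟨le_rfl, zero_le_one⟩, hx⟩)

/-- the radial coordinate -/
noncomputable def rho (C : Set X) [CWComplex C] (m : ℕ) : X → ℝ :=
  gd C m (fun _ y => ‖y‖) (fun _ => 1)

/-- the radial retraction -/
noncomputable def rad (C : Set X) [CWComplex C] (m : ℕ) : X → X :=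
  gd C m (fun e y => map m e (‖y‖⁻¹ • y)) (fun x => x)

/-- the truncated radial retraction -/
noncomputable def rade (C : Set X) [CWComplex C] (m : ℕ) (ε : ℝ) : X → X :=
  gd C m (fun e y => map m e ((max ‖y‖ ε)⁻¹ • y)) (fun x => x)

theorem rho_cont (hSK : StSK) (hCNT : StCNT) : ContinuousOn (rho C m) (sk C (m + 1)) :=
  gd_cont hSK hCNT (fun _ _ hy => hy) (fun _ => continuous_norm.continuousOn) continuous_const

theorem rho_map (hSK : StSK) (e : cell C m) (y : E m) (hy : ‖y‖ ≤ 1) :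
    rho C m (map m e y) = ‖y‖ :=
  gd_closed (g := fun _ y => ‖y‖) (h := fun _ => (1 : ℝ)) hSK (fun _ _ hy => hy) e y hy

theorem rad_map (hSK : StSK) (e : cell C m) (y : E m) (hy : ‖y‖ ≤ 1) :
    rad C m (map m e y) = map m e (‖y‖⁻¹ • y) := by
  refine gd_closed (g := fun e y => map m e (‖y‖⁻¹ • y)) (h := fun x => x) hSK ?_ e y hy
  intro e y hy
  simp [hy]

theorem rade_cont (hSK : StSK) (hCNT : StCNT) {ε : ℝ} (h0 : 0 < ε) (h1 : ε ≤ 1) :
    ContinuousOn (rade C m ε) (sk C (m + 1)) := by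
  refine gd_cont hSK hCNT ?_ ?_ continuous_id
  · intro e y hy
    have h2 : max ‖y‖ ε = 1 := by rw [hy]; exact max_eq_left h1
    simp [h2]
  · intro e
    have hc1 : Continuous fun y : E m => max ‖y‖ ε := continuous_norm.max continuous_const
    have hc2 : Continuous fun y : E m => (max ‖y‖ ε)⁻¹ :=
      hc1.inv₀ (fun y => (lt_of_lt_of_le h0 (le_max_right ‖y‖ ε)).ne')
    have hc : Continuous fun y : E m => (max ‖y‖ ε)⁻¹ • y := hc2.smul continuous_id
    refine (continuousOn m e).comp hc.continuousOn ?_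
    intro y _
    have h2 : 0 < max ‖y‖ ε := lt_of_lt_of_le h0 (le_max_right ‖y‖ ε)
    rw [mem_closedBall_zero_iff, norm_smul, norm_inv, Real.norm_of_nonneg h2.le,
      inv_mul_le_iff₀ h2, mul_one]
    exact le_max_left _ _

omit [T2Space X] in
theorem rade_eq (ε : ℝ) (x : X) (hx : ε ≤ rho C m x) : rad C m x = rade C m ε x := by
  unfold rad rade gd
  unfold rho gd at hx
  split_ifs with h1
  · rw [dif_pos h1] at hx
    simp only [max_eq_left hx]
  · rfl

omit [T2Space X] in
theorem symm_le (e : cell C m) (x : X) (hx : x ∈ openCell m e) : ‖(map m e).symm x‖ ≤ 1 := by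
  obtain ⟨y, hy, rfl⟩ := hx
  rw [(map m e).left_inv (by rw [source_eq]; exact hy)]
  have h3 : ‖y‖ < 1 := by simpa using hy
  exact h3.le

omit [T2Space X] in
theorem rho_range (x : X) : 0 ≤ rho C m x ∧ rho C m x ≤ 1 := by
  unfold rho gd
  split_ifs with h1
  · exact ⟨norm_nonneg _, symm_le _ x h1.choose_spec⟩
  · exact ⟨zero_le_one, le_rfl⟩

end XRAD

open XRAD in
theorem I_RAD (hSK : StSK) (hCNT : StCNT) : StRAD := by
  intro X _ _ C _ n
  have hρ : ContinuousOn (rho C (n + 1)) (sk C (n + 2)) := rho_cont hSK hCNT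
  have hsk : ∀ x ∈ sk C (n + 1), rho C (n + 1) x = 1 ∧ rad C (n + 1) x = x := by
    intro x hx
    have h1 := not_open hSK x hx
    exact ⟨gd_not x h1, gd_not x h1⟩
  refine ⟨rho C (n + 1), rad C (n + 1), hρ, ?_, hsk, ?_, fun x => rho_range x, ?_⟩
  · rintro x₀ ⟨hx₀, hp⟩
    have hp : 0 < rho C (n + 1) x₀ := hp
    have h1 : rho C (n + 1) x₀ ≤ 1 := (rho_range x₀).2
    have hc : ContinuousWithinAt (rade C (n + 1) (rho C (n + 1) x₀ / 2))
        (sk C (n + 2) ∩ {x | 0 < rho C (n + 1) x}) x₀ :=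
      ((rade_cont hSK hCNT (by linarith) (by linarith)) x₀ hx₀).mono inter_subset_left
    refine hc.congr_of_eventuallyEq ?_ (rade_eq _ x₀ (by linarith))
    have h2 : ∀ᶠ x in 𝓝[sk C (n + 2) ∩ {x | 0 < rho C (n + 1) x}] x₀,
        rho C (n + 1) x₀ / 2 < rho C (n + 1) x := by
      have h3 : ContinuousWithinAt (rho C (n + 1)) (sk C (n + 2) ∩ {x | 0 < rho C (n + 1) x}) x₀ :=
        (hρ x₀ hx₀).mono inter_subset_left
      exact h3 (lt_mem_nhds (by linarith))
    filter_upwards [h2] with x hx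
    exact rade_eq _ x hx.le
  · intro e x hx
    exact ⟨rho_map hSK e x hx, fun _ => rad_map hSK e x hx⟩
  · intro x hx hp
    rw [(hSK X C).2.1 (n + 2)] at hx
    simp only [mem_iUnion, exists_prop] at hx
    obtain ⟨j, hj, e, he⟩ := hx
    rcases Nat.lt_succ_iff_lt_or_eq.mp hj with hj | hj
    · have h1 : x ∈ sk C (n + 1) := by
        rw [(hSK X C).2.1 (n + 1)]
        simp only [mem_iUnion, exists_prop]
        exact ⟨j, hj, e, he⟩
      rw [(hsk x h1).2]
      exact h1
    · subst hj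
      obtain ⟨y, hy, rfl⟩ := he
      have hy1 : ‖y‖ ≤ 1 := by
        have : ‖y‖ < 1 := by simpa using hy
        exact this.le
      rw [rho_map hSK e y hy1] at hp
      rw [rad_map hSK e y hy1]
      apply sphere_mem hSK
      rw [norm_smul, norm_inv, norm_norm]
      exact inv_mul_cancel₀ hp.ne'

end Pool.Agent.Work.MP_e9e200_al.O3

end

section

set_option autoImplicit false

namespace Pool.Agent.Work.MP_e9e200_al.O3

open Set Metric Topology OnePoint

open Topology.RelCWComplex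

namespace XRLC

/-- finitely many cells of dimension `n` are enough for the frontiers of finitely many cells -/
lemma cells (hSK : StSK) (hFIN : StFIN) (X : Type) [TopologicalSpace X] [T2Space X] (C : Set X)
    [CWComplex C] (n k : ℕ) (a : Fin k → cell C (n + 1)) :
    ∃ (K : ℕ) (e : Fin K → cell C n), Function.Injective e ∧
      ∀ i, ∀ x ∈ sphere (0 : E (n + 1)) 1, map (n + 1) (a i) x ∈ sk C n ∨
        ∃ l, map (n + 1) (a i) x ∈ openCell n (e l) := by
  obtain ⟨h1, h2, h3, -⟩ := hSK X C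
  have hcomp : ∀ i, IsCompact (map (n + 1) (a i) '' sphere (0 : E (n + 1)) 1) := fun i =>
    (isCompact_sphere _ _).image_of_continuousOn
      ((continuousOn (n + 1) (a i)).mono sphere_subset_closedBall)
  have hsub : ∀ i, map (n + 1) (a i) '' sphere (0 : E (n + 1)) 1 ⊆ sk C (n + 1) := fun i =>
    (h3 (n + 1) (a i)).1
  have hfin : ∀ i : Fin k, {j : Σ n, cell C n |
      (openCell j.1 j.2 ∩ map (n + 1) (a i) '' sphere (0 : E (n + 1)) 1).Nonempty}.Finite :=
    fun i => hFIN X C _ (hcomp i) ((hsub i).trans (h1 (n + 1)).2.1)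
  have hS : {c : cell C n | ∃ i : Fin k,
      (openCell n c ∩ map (n + 1) (a i) '' sphere (0 : E (n + 1)) 1).Nonempty}.Finite := by
    have h := Set.finite_iUnion hfin
    refine (h.preimage (f := fun c : cell C n => (⟨n, c⟩ : Σ n, cell C n)) ?_).subset ?_
    · intro x _ y _ hxy
      simpa using hxy
    · rintro c ⟨i, hi⟩
      simp only [Set.mem_preimage, Set.mem_iUnion]
      exact ⟨i, hi⟩
  obtain ⟨K, ⟨e⟩⟩ : ∃ K : ℕ, Nonempty (Fin K ≃ {c : cell C n | ∃ i : Fin k,
      (openCell n c ∩ map (n + 1) (a i) '' sphere (0 : E (n + 1)) 1).Nonempty}) := by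
    have := hS.fintype
    exact ⟨_, ⟨(Fintype.equivFin _).symm⟩⟩
  refine ⟨K, fun l => (e l : cell C n), fun l m hlm => e.injective (Subtype.ext hlm), ?_⟩
  intro i x hx
  have hm : map (n + 1) (a i) x ∈ sk C (n + 1) := hsub i ⟨x, hx, rfl⟩
  rw [h2 (n + 1)] at hm
  simp only [Set.mem_iUnion] at hm
  obtain ⟨m, hm, c, hc⟩ := hm
  rcases Nat.lt_succ_iff_lt_or_eq.mp hm with hm | rfl
  · left
    rw [h2 n]
    simp only [Set.mem_iUnion]
    exact ⟨m, hm, c, hc⟩
  · right
    refine ⟨e.symm ⟨c, i, _, hc, x, hx, rfl⟩, ?_⟩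
    simpa using hc

end XRLC

theorem I_RLC (hCLR : StCLR) (hRR : StRR) (hNHX : StNHX) (hU2 : StU2) (hRLZ : StRLZ)
    (hQQ : StQQ) (hSK : StSK) (hFIN : StFIN) (hDPR : StDPR) : StRLC := by
  intro X _ _ C _ n v hE k a z ha hz
  obtain ⟨D, hD⟩ := hNHX X C (n + 1) v hE
  have hy1 : map 0 v 0 ∈ sk C 1 := by
    simp only [sk, Set.mem_iUnion]
    exact ⟨0, Nat.zero_lt_one, v, ⟨0, by simp, rfl⟩⟩
  have hmono : ∀ m, sk C 1 ⊆ sk C (m + 1) := by
    intro m
    induction m with
    | zero => exact subset_rfl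
    | succ m ih => exact ih.trans ((hSK X C).1 (m + 1)).2.2
  obtain ⟨hR1, r, hrc, hr0, hrs, hri, -⟩ := hRR X C n _ D hy1 hD k a ha
  obtain ⟨g, hg, hgz⟩ := hRLZ k n z
  obtain ⟨K, e, he, hem⟩ := XRLC.cells hSK hFIN X C n k a
  obtain ⟨Δ, hΔ⟩ := hCLR X C n _ D hy1 hD
  have key : ∀ b : cell C (n + 1), deg (0 : Fin 1)
      (fun x => qq (fun _ : Fin 1 => map (n + 1) b) (r (g x))) =
      ∑ i, z i * (open scoped Classical in if a i = b then 1 else 0) := by
    intro b
    obtain ⟨q1, -, q3, -⟩ := hQQ X C 1 (n + 1) (fun _ : Fin 1 => b)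
      (Function.injective_of_subsingleton _)
    have hc : Continuous (fun w : W k (n + 1) => qq (fun _ : Fin 1 => map (n + 1) b) (r w)) :=
      q1.comp_continuous hrc hrs
    have h0 : qq (fun _ : Fin 1 => map (n + 1) b) (r ∞) = ∞ := by
      rw [hr0]
      refine q3 _ (fun _ hx => ?_)
      exact Set.disjoint_left.mp ((hSK X C).2.2.1 (n + 1) b).2.1 hx (hmono n hy1)
    have hu := hU2 k 1 n 0 (fun w : W k (n + 1) => qq (fun _ : Fin 1 => map (n + 1) b) (r w))
      hc h0 g ⟨hg.1, 1, hg.2⟩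
    rw [hu]
    have hs : ∀ i, deg i g * deg (0 : Fin 1)
        (fun x => qq (fun _ : Fin 1 => map (n + 1) b) (r (io i x))) =
        z i * (open scoped Classical in if a i = b then 1 else 0) +
          ∑ l : Fin K, z i * inc (map (n + 1) (a i)) (map n (e l)) * Δ (e l) b := by
      intro i
      rw [hgz i]
      have h1 : (fun x => qq (fun _ : Fin 1 => map (n + 1) b) (r (io i x))) =
          (fun x => qq (fun _ : Fin 1 => map (n + 1) b) (rr C n (map 0 v 0) D (a i) x)) := by
        funext x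
        rw [hri]
      rw [h1, hΔ (a i) b K e he (hem i), mul_add, Finset.mul_sum]
      congr 1
      refine Finset.sum_congr rfl (fun l _ => ?_)
      ring
    rw [Finset.sum_congr rfl (fun i _ => hs i), Finset.sum_add_distrib, Finset.sum_comm]
    have h2 : ∀ l : Fin K, ∑ i, z i * inc (map (n + 1) (a i)) (map n (e l)) * Δ (e l) b = 0 := by
      intro l
      rw [← Finset.sum_mul, hz, zero_mul]
    rw [Finset.sum_congr rfl (fun l _ => h2 l)]
    simp
  refine ⟨fun x => r (g x), ⟨hrc.comp hg.1, fun x hx => by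
    show r (g x) = _
    rw [hg.2 x hx, hr0]⟩, fun x => hrs _, fun i => ?_, fun b hb => ?_⟩
  · rw [key (a i), Finset.sum_eq_single i]
    · simp
    · intro j _ hj
      rw [if_neg (fun h => hj (ha h)), mul_zero]
    · intro h
      exact absurd (Finset.mem_univ i) h
  · rw [key b]
    refine Finset.sum_eq_zero (fun i _ => ?_)
    rw [if_neg (hb i), mul_zero]

end Pool.Agent.Work.MP_e9e200_al.O3

end
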