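import Mathlib
import Pool.Agent.Work.MP_e9e200_al.LC.Defs

/-! Bundle of small proof modules (one section per former module). -/

section

/-!
# Project LC, part 1: statements (discrete characters)

Each `def StXXX : Prop` is to be proved as `theorem I_XXX : StXXX` in `LC/P_XXX.lean`.
-/

set_option autoImplicit false

namespace Pool.Agent.Work.MP_e9e200_al.LC

open Finsupp

/-! ### Based complexes -/

/-- V: relative cycles are relative boundaries -/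
def StV : Prop := ∀ (ι : Type) [DecidableEq ι] (L : BC ι) (K : ℤ), L.Good K →
  ∀ (J : Finset ι) (N : ℕ), (∀ I ⊂ J, ∀ d ≤ N, L.Bd I d) →
  (∀ I ⊂ J, ∀ d, d + I.card ≤ N + 1 → L.Push I d) →
  ∀ (S I : Finset ι) (d : ℕ), S.Nonempty → Disjoint I S → I ∪ S ⊂ J → d + I.card ≤ N →
  ∃ K' : ℤ, 0 ≤ K' ∧ ∀ (s : ℤ), ∀ x ∈ L.S d (L.lo I s), L.D x ∈ L.T (L.lu I S s) →
    ∃ y ∈ L.S (d + 1) (L.lo I (s + K')), x - L.D y ∈ L.S d (L.lu I S (s + K'))

/-- WV: the functional `W` vanishes away from the walls -/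
def StWV : Prop := ∀ (ι : Type) [DecidableEq ι] (L : BC ι) (K : ℤ), L.Good K →
  ∀ (J : Finset ι) (i : ℕ) (f : (L.X →₀ ℂ) →ₗ[ℂ] ℂ) (s0 r : ℤ),
  (∀ w ∈ L.S (i + 1) (fun _ => True), f (L.D w) = 0) → (∀ y ∈ L.S i (L.lo J s0), f y = 0) →
  ∀ (T : List ι), (∀ j ∈ T, j ∈ J) → ∀ x ∈ L.R, L.deg x = i + T.length →
  ((∃ j ∈ T, L.ht j x < r - T.length * K) → L.W r f T (single x 1) = 0) ∧
  ((∃ j ∈ T, r + T.length * K ≤ L.ht j x) → L.W r f T (single x 1) = 0) ∧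
  (∀ C : ℤ, 0 ≤ C → r + C + 2 * T.length * K ≤ s0 →
    (∀ l ∈ J, l ∉ T → L.ht l x ≤ r + C) → L.W r f T (single x 1) = 0)

/-- OM: the functional `Ω` and the chains `z` -/
def StOM : Prop := ∀ (ι : Type) [DecidableEq ι] (L : BC ι) (K : ℤ), L.Good K →
  ∀ (i : ℕ) (j : ι) (T : List ι), (j :: T).Nodup →
  (∀ I ⊂ (j :: T).toFinset, ∀ d ≤ i + T.length, L.Bd I d) →
  (∀ I ⊂ (j :: T).toFinset, ∀ d, d + I.card ≤ i + T.length → L.Push I d) →
  ∀ (f : (L.X →₀ ℂ) →ₗ[ℂ] ℂ) (s0 : ℤ) (ξ : L.X →₀ ℂ),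
  (∀ w ∈ L.S (i + 1) (fun _ => True), f (L.D w) = 0) →
  (∀ y ∈ L.S i (L.lo (j :: T).toFinset s0), f y = 0) →
  ξ ∈ L.S i (fun _ => True) → L.D ξ = 0 → f ξ = 1 →
  ∃ (r K1 s1 : ℤ) (Ω : (L.X →₀ ℂ) →ₗ[ℂ] ℂ),
    (∀ w ∈ L.S (i + T.length + 1) (fun _ => True), Ω (L.D w) = 0) ∧
    (∀ y ∈ L.S (i + T.length) (fun x => ∃ j' ∈ (j :: T).toFinset, L.ht j' x < r), Ω y = 0) ∧
    ∀ s ≤ s1, ∃ z ∈ L.S (i + T.length) (fun _ => True),
      L.D z ∈ L.T (fun x => ∃ j' ∈ (j :: T).toFinset, L.ht j' x ≤ s + K1) ∧ Ω z = 1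

/-- TWI: the contradiction with twisted differentials -/
def StTWI : Prop := ∀ (ι : Type) [DecidableEq ι] (L : BC ι) (K : ℤ), L.Good K →
  ∀ (J : Finset ι) (e : ℕ), L.Twisted J e →
  ∀ (r K1 s1 : ℤ) (Ω : (L.X →₀ ℂ) →ₗ[ℂ] ℂ),
    (∀ w ∈ L.S (e + 1) (fun _ => True), Ω (L.D w) = 0) →
    (∀ y ∈ L.S e (fun x => ∃ j' ∈ J, L.ht j' x < r), Ω y = 0) →
    (∀ s ≤ s1, ∃ z ∈ L.S e (fun _ => True),
      L.D z ∈ L.T (fun x => ∃ j' ∈ J, L.ht j' x ≤ s + K1) ∧ Ω z = 1) → False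

/-- CORE: cycles can be pushed down in all directions -/
def StCORE : Prop := ∀ (ι : Type) [Fintype ι] [DecidableEq ι] (L : BC ι) (K : ℤ), L.Good K →
  ∀ m : ℕ, Fintype.card ι = m → 1 ≤ m →
  (∀ I : Finset ι, I ≠ Finset.univ → ∀ d, d < m → L.Bd I d) →
  (∀ J : Finset ι, J.Nonempty → ∀ e, e < m → L.Twisted J e) → L.Push Finset.univ 0

/-! ### Resolutions -/

/-- RES: from type `FP_m` to a based partial resolution -/
def StRES : Prop := ∀ (G : Type) [Group G] (S : Submonoid G) (m : ℕ),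
  IsFP (MonoidAlgebra ℤ S) (Triv S) m → ∃ (B : Type) (_ : Finite B) (deg : B → ℕ)
    (db : B → (G × B →₀ ℤ)) (eb : B → ℤ), PRes ℤ (S : Set G) m B deg db eb

/-- CHG: base change to the complex numbers -/
def StCHG : Prop := ∀ (G : Type) [Group G] (S : Submonoid G) (m : ℕ) (B : Type) (deg : B → ℕ)
  (db : B → (G × B →₀ ℤ)) (eb : B → ℤ), PRes ℤ (S : Set G) m B deg db eb →
  PRes ℂ (S : Set G) m B deg (fun b => Finsupp.mapRange (fun n : ℤ => (n : ℂ)) (by simp) (db b))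
    (fun b => (eb b : ℂ))

/-- HOP: the homotopies `h_a` -/
def StHOP : Prop := ∀ (G : Type) [Group G] (S : Submonoid G) (m : ℕ) (B : Type) (deg : B → ℕ)
  (db : B → (G × B →₀ ℂ)) (eb : B → ℂ), PRes ℂ (S : Set G) m B deg db eb →
  (∀ a ∈ commutator G, a ∈ S) → ∃ ha : G → B → (G × B →₀ ℂ), IsHa (S : Set G) m B deg db ha

/-- BG: the quotient complex is good -/
def StBG : Prop := ∀ (G : Type) [Group G] (ι : Type) [Finite ι] (χ : Chr G) (χs : ι → Chr G)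
  (m : ℕ) (B : Type) [Finite B] (deg : B → ℕ) (db : B → (G × B →₀ ℂ)) (eb : B → ℂ),
  PRes ℂ {g | 0 ≤ vl χ g} m B deg db eb → ∃ K, (bar χ χs B deg db).Good K

/-- NOE: the noetherian property -/
def StNOE : Prop := ∀ (Q : Type) [CommGroup Q] [Group.FG Q] (ι : Type) (χ : Chr Q)
  (χs : ι → Chr Q) (B : Type) [Finite B] (deg : B → ℕ) (db : B → (Q × B →₀ ℂ)),
  (∀ b, db b ∈ Finsupp.supported ℂ ℂ {p : Q × B | 0 ≤ vl χ p.1 ∧ deg p.2 + 1 = deg b}) →
  ∀ (I : Finset ι) (u : Q) (c : ℤ), 0 < c → vl χ u = 0 → (∀ j ∈ I, vl (χs j) u = c) →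
  ∀ d, (qbc χ χs B deg db).Bd I d

/-! ### The twist -/

/-- TWA: the twisted differential and the twisted homotopies on the quotient complex -/
def StTWA : Prop := ∀ (G : Type) [Group G], Metab G → ∀ (S : Submonoid G) (m : ℕ)
  (B : Type) [Finite B] (deg : B → ℕ) (db : B → (G × B →₀ ℂ)) (eb : B → ℂ)
  (ha : G → B → (G × B →₀ ℂ)), PRes ℂ (S : Set G) m B deg db eb →
  IsHa (S : Set G) m B deg db ha → ∀ φ σ : G → ℂ, (∀ x, σ x ≠ 0) →
  (∀ a ∈ commutator G, ∀ x, σ (a * x) = φ a * σ x) →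
  ∃ (D' : (Abelianization G × B →₀ ℂ) →ₗ[ℂ] (Abelianization G × B →₀ ℂ))
    (h' : G → (Abelianization G × B →₀ ℂ) →ₗ[ℂ] (Abelianization G × B →₀ ℂ)),
    (∀ x, D' (D' x) = 0) ∧
    (∀ g b, D' (single (Abelianization.of g, b) 1) = (σ g)⁻¹ • pis σ (tr ℂ g (db b))) ∧
    (∀ a ∈ commutator G, ∀ g b, h' a (single (Abelianization.of g, b) 1) =
      (σ g)⁻¹ • pis σ (tr ℂ g (ha (g⁻¹ * a * g) b))) ∧
    ∀ a ∈ commutator G, ∀ x ∈ Finsupp.supported ℂ ℂ {p : Abelianization G × B | deg p.2 < m},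
      D' (h' a x) + h' a (D' x) = (1 - φ a) • x

/-- TWD: the quotient complex has twisted differentials (uses TWA) -/
def StTWD : Prop := ∀ (G : Type) [Group G], Metab G → ∀ (ι : Type) [Finite ι] (χ : Chr G)
  (χs : ι → Chr G) (m : ℕ) (B : Type) [Finite B] (deg : B → ℕ) (db : B → (G × B →₀ ℂ))
  (eb : B → ℂ) (ha : G → B → (G × B →₀ ℂ)), PRes ℂ {g | 0 ≤ vl χ g} m B deg db eb →
  IsHa {g | 0 ≤ vl χ g} m B deg db ha → ∀ J : Finset ι, J.Nonempty → SigData χs J →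
  ∀ e, e < m → (bar χ χs B deg db).Twisted J e

/-- SIG: the functions `φ` and `σ` -/
def StSIG : Prop := ∀ (G : Type) [Group G], Metab G → ∀ (ι : Type) [Fintype ι] [DecidableEq ι]
  (χs : ι → Chr G) (c : ℤ) (h : ι → G), 0 < c →
  (∀ i j, vl (χs i) (h j) = if i = j then c else 0) → (∀ i, ∃ t, vl (χs i) t = 1) →
  (∀ i, PsiData (χs i)) → ∀ J : Finset ι, J.Nonempty → SigData χs J

/-- FQ: finite equivariant quotients -/
def StFQ : Prop := ∀ (N : Type) [CommGroup N] [Group.FG N] (M : Type) [AddCommGroup M]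
  (act : N →* AddMonoid.End M) (E : Finset M),
  AddSubgroup.closure {x : M | ∃ n, ∃ e ∈ E, x = act n e} = ⊤ → Nontrivial M →
  ∃ U : AddSubgroup M, U ≠ ⊤ ∧ (∀ n, ∀ x ∈ U, act n x ∈ U) ∧ Finite (M ⧸ U)

/-- EXT: extension of characters of abelian groups -/
def StEXT : Prop := ∀ (M : Type) [AddCommGroup M] (U : AddSubgroup M)
  (f : Multiplicative U →* ℂˣ), ∃ F : Multiplicative M →* ℂˣ,
    ∀ u : U, F (Multiplicative.ofAdd (u : M)) = f (Multiplicative.ofAdd u)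

/-- PSI: the function `ψ` (uses FQ, EXT) -/
def StPSI : Prop := ∀ (G : Type) [Group G] [Group.FG G], Metab G → ∀ χ : Chr G,
  (∃ t, vl χ t = 1) → NFG χ → PsiData χ

/-! ### The result of part 1 -/

/-- DISC: the theorem for discrete characters -/
def StDISC : Prop := ∀ (G : Type) [Group G] [Group.FG G], Metab G → ∀ (m : ℕ), 1 ≤ m →
  ∀ (χs : Fin m → Chr G) (n : Fin m → ℕ) (c : ℤ) (h : Fin m → G), 0 < c → (∀ i, 0 < n i) →
  (∀ i j, vl (χs i) (h j) = if i = j then c else 0) → (∀ i, ∃ t, vl (χs i) t = 1) →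
  (∀ i, NFG (χs i)) → ∀ (B : Type) [Finite B] (deg : B → ℕ) (db : B → (G × B →₀ ℂ))
  (eb : B → ℂ), ¬ PRes ℂ {g : G | 0 ≤ ∑ i, (n i : ℤ) * vl (χs i) g} m B deg db eb

end Pool.Agent.Work.MP_e9e200_al.LC

end

section

/-!
# Project LC, part 2: statements (openness)

Each `def StXXX : Prop` is to be proved as `theorem I_XXX : StXXX` in `LC/P_XXX.lean`.
-/

set_option autoImplicit false

namespace Pool.Agent.Work.MP_e9e200_al.LC

open Finsupp

/-- the set of all `g` with `χ g ≥ t` -/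
def hs {G : Type} [Group G] (χ : Additive G →+ ℝ) (t : ℝ) : Set G := {g | t ≤ χ (Additive.ofMul g)}

/-- a push map `ph` which raises `χ` by at least `ρ`, and a homotopy `hh` between the identity and
the push map -/
structure IsPush {G : Type} [Group G] (χ : Additive G →+ ℝ) (m : ℕ) (B : Type) (deg : B → ℕ)
    (db : B → (G × B →₀ ℂ)) (eb : B → ℂ) (ρ : ℝ) (ph hh : B → (G × B →₀ ℂ)) : Prop where
  pos : 0 < ρ
  ph_sup : ∀ b, ph b ∈ Finsupp.supported ℂ ℂ {p : G × B | p.1 ∈ hs χ ρ ∧ deg p.2 = deg b}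
  hh_sup : ∀ b, hh b ∈ Finsupp.supported ℂ ℂ {p : G × B | p.1 ∈ hs χ 0 ∧ deg p.2 = deg b + 1}
  comm : ∀ b, ext ℂ db (ph b) = ext ℂ ph (db b)
  aug : ∀ b, aug ℂ eb (ph b) = eb b
  eq : ∀ b, deg b < m → ext ℂ db (hh b) + ext ℂ hh (db b) = single (1, b) 1 - ph b

/-- a based complex of free modules over the group ring with augmentation -/
structure Cpx {G : Type} [Group G] (B : Type) (deg : B → ℕ) (db : B → (G × B →₀ ℂ))
    (eb : B → ℂ) : Prop where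
  db_sup : ∀ b, db b ∈ Finsupp.supported ℂ ℂ {p : G × B | deg p.2 + 1 = deg b}
  eb_deg : ∀ b, deg b ≠ 0 → eb b = 0
  dd : ∀ b, ext ℂ db (db b) = 0
  ed : ∀ b, aug ℂ eb (db b) = 0
  surj : ∃ x ∈ Finsupp.supported ℂ ℂ {p : G × B | deg p.2 = 0}, aug ℂ eb x = 1

/-- the boundary lowers `χ` by at most `C`, and cycles of degree `< m` with `χ ≥ t` are boundaries
of chains with `χ ≥ t - C` -/
def Ess {G : Type} [Group G] (χ : Additive G →+ ℝ) (C : ℝ) (m : ℕ) (B : Type) (deg : B → ℕ)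
    (db : B → (G × B →₀ ℂ)) (eb : B → ℂ) : Prop :=
  0 ≤ C ∧ (∀ b, db b ∈ Finsupp.supported ℂ ℂ {p : G × B | p.1 ∈ hs χ (-C)}) ∧
  ∀ t : ℝ, ∀ d < m, ∀ x ∈ Finsupp.supported ℂ ℂ {p : G × B | p.1 ∈ hs χ t ∧ deg p.2 = d},
    ext ℂ db x = 0 → aug ℂ eb x = 0 →
      ∃ y ∈ Finsupp.supported ℂ ℂ {p : G × B | p.1 ∈ hs χ (t - C) ∧ deg p.2 = d + 1},
        ext ℂ db y = x

/-- PU: existence of a push map and a homotopy -/
def StPU : Prop := ∀ (G : Type) [Group G] (χ : Additive G →+ ℝ), χ ≠ 0 → ∀ (m : ℕ) (B : Type)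
  (deg : B → ℕ) (db : B → (G × B →₀ ℂ)) (eb : B → ℂ), PRes ℂ (hs χ 0) m B deg db eb →
  ∃ (ρ : ℝ) (ph hh : B → (G × B →₀ ℂ)), IsPush χ m B deg db eb ρ ph hh

/-- ES: for all characters near `χ` the complex is essentially exact -/
def StES : Prop := ∀ (G : Type) [Group G] (χ : Additive G →+ ℝ), χ ≠ 0 → ∀ (m : ℕ) (B : Type)
  [Finite B] (deg : B → ℕ) (db : B → (G × B →₀ ℂ)) (eb : B → ℂ),
  PRes ℂ (hs χ 0) m B deg db eb → ∀ (ρ : ℝ) (ph hh : B → (G × B →₀ ℂ)),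
  IsPush χ m B deg db eb ρ ph hh → ∃ (F : Finset G) (ε : ℝ), 0 < ε ∧ ∀ χ' : Additive G →+ ℝ,
    (∀ g ∈ F, |χ' (Additive.ofMul g) - χ (Additive.ofMul g)| < ε) → Ess χ' 1 m B deg db eb

/-- BE: the comparison map to an essentially exact complex -/
def StBE : Prop := ∀ (G : Type) [Group G] (χ : Additive G →+ ℝ), χ ≠ 0 → ∀ (C : ℝ) (m j : ℕ)
  (B : Type) (deg : B → ℕ) (db : B → (G × B →₀ ℂ)) (eb : B → ℂ) (BE : Type) [Finite BE]
  (degE : BE → ℕ) (dE : BE → (G × BE →₀ ℂ)) (eE : BE → ℂ), Cpx B deg db eb →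
  Ess χ C m B deg db eb → PRes ℂ (hs χ 0) j BE degE dE eE → j ≤ m →
  ∃ (u : ℝ) (β : BE → (G × B →₀ ℂ)), 0 ≤ u ∧
    (∀ b, β b ∈ Finsupp.supported ℂ ℂ {p : G × B | p.1 ∈ hs χ (-u) ∧ deg p.2 = degE b}) ∧
    (∀ b, ext ℂ db (β b) = ext ℂ β (dE b)) ∧ (∀ b, aug ℂ eb (β b) = eE b)

/-- AL: the comparison map from a complex to a partial resolution -/
def StAL : Prop := ∀ (G : Type) [Group G] (χ : Additive G →+ ℝ), χ ≠ 0 → ∀ (C : ℝ) (j : ℕ)
  (B : Type) (deg : B → ℕ) (db : B → (G × B →₀ ℂ)) (eb : B → ℂ) (BE : Type) [Finite BE]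
  (degE : BE → ℕ) (dE : BE → (G × BE →₀ ℂ)) (eE : BE → ℂ), Cpx B deg db eb → 0 ≤ C →
  (∀ b, db b ∈ Finsupp.supported ℂ ℂ {p : G × B | p.1 ∈ hs χ (-C)}) →
  PRes ℂ (hs χ 0) j BE degE dE eE → ∀ w : ℝ, ∃ α : B → (G × BE →₀ ℂ),
    (∀ b, deg b ≤ j →
      α b ∈ Finsupp.supported ℂ ℂ {p : G × BE | p.1 ∈ hs χ w ∧ degE p.2 = deg b}) ∧
    (∀ b, deg b ≤ j → ext ℂ dE (α b) = ext ℂ α (db b)) ∧
    (∀ b, deg b ≤ j → aug ℂ eE (α b) = eb b)

/-- HT: homotopy uniqueness -/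
def StHT : Prop := ∀ (G : Type) [Group G] (S : Submonoid G) (j : ℕ) (BE : Type)
  (degE : BE → ℕ) (dE : BE → (G × BE →₀ ℂ)) (eE : BE → ℂ),
  PRes ℂ (S : Set G) j BE degE dE eE → ∀ γ : BE → (G × BE →₀ ℂ),
  (∀ b, γ b ∈ Finsupp.supported ℂ ℂ {p : G × BE | p.1 ∈ S ∧ degE p.2 = degE b}) →
  (∀ b, ext ℂ dE (γ b) = ext ℂ γ (dE b)) → (∀ b, aug ℂ eE (γ b) = eE b) →
  ∃ s : BE → (G × BE →₀ ℂ),
    (∀ b, s b ∈ Finsupp.supported ℂ ℂ {p : G × BE | p.1 ∈ S ∧ degE p.2 = degE b + 1}) ∧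
    ∀ b, degE b < j → ext ℂ dE (s b) + ext ℂ s (dE b) = single (1, b) 1 - γ b

/-- GN: the cycles of degree `j` are finitely generated (uses BE, AL, HT) -/
def StGN : Prop := ∀ (G : Type) [Group G] (χ : Additive G →+ ℝ), χ ≠ 0 → ∀ (C : ℝ) (m j : ℕ)
  (B : Type) [Finite B] (deg : B → ℕ) (db : B → (G × B →₀ ℂ)) (eb : B → ℂ) (BE : Type)
  [Finite BE] (degE : BE → ℕ) (dE : BE → (G × BE →₀ ℂ)) (eE : BE → ℂ), Cpx B deg db eb →
  Ess χ C m B deg db eb → PRes ℂ (hs χ 0) j BE degE dE eE → j < m →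
  ∃ (N : Type) (_ : Finite N) (z : N → (G × BE →₀ ℂ)),
    (∀ n, z n ∈ Finsupp.supported ℂ ℂ {p : G × BE | p.1 ∈ hs χ 0 ∧ degE p.2 = j}) ∧
    (∀ n, ext ℂ dE (z n) = 0) ∧ (∀ n, aug ℂ eE (z n) = 0) ∧
    ∀ x ∈ Finsupp.supported ℂ ℂ {p : G × BE | p.1 ∈ hs χ 0 ∧ degE p.2 = j},
      ext ℂ dE x = 0 → aug ℂ eE x = 0 →
        ∃ c ∈ Finsupp.supported ℂ ℂ {p : G × N | p.1 ∈ hs χ 0}, ext ℂ z c = x

/-- AD: adding cells -/
def StAD : Prop := ∀ (G : Type) [Group G] (S : Submonoid G) (j : ℕ) (BE : Type) [Finite BE]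
  (degE : BE → ℕ) (dE : BE → (G × BE →₀ ℂ)) (eE : BE → ℂ),
  PRes ℂ (S : Set G) j BE degE dE eE → ∀ (N : Type) [Finite N] (z : N → (G × BE →₀ ℂ)),
  (∀ n, z n ∈ Finsupp.supported ℂ ℂ {p : G × BE | p.1 ∈ S ∧ degE p.2 = j}) →
  (∀ n, ext ℂ dE (z n) = 0) → (∀ n, aug ℂ eE (z n) = 0) →
  (∀ x ∈ Finsupp.supported ℂ ℂ {p : G × BE | p.1 ∈ S ∧ degE p.2 = j},
      ext ℂ dE x = 0 → aug ℂ eE x = 0 →
        ∃ c ∈ Finsupp.supported ℂ ℂ {p : G × N | p.1 ∈ S}, ext ℂ z c = x) →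
  ∃ (B' : Type) (_ : Finite B') (deg' : B' → ℕ) (db' : B' → (G × B' →₀ ℂ)) (eb' : B' → ℂ),
    PRes ℂ (S : Set G) (j + 1) B' deg' db' eb'

/-- OPEN: openness of the set of characters with a finite partial resolution (uses PU, ES, GN,
AD) -/
def StOPEN : Prop := ∀ (G : Type) [Group G] (χ : Additive G →+ ℝ), χ ≠ 0 → ∀ (m : ℕ) (B : Type)
  [Finite B] (deg : B → ℕ) (db : B → (G × B →₀ ℂ)) (eb : B → ℂ),
  PRes ℂ (hs χ 0) m B deg db eb → ∃ (F : Finset G) (ε : ℝ), 0 < ε ∧ ∀ χ' : Additive G →+ ℝ,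
    χ' ≠ 0 → (∀ g ∈ F, |χ' (Additive.ofMul g) - χ (Additive.ofMul g)| < ε) →
    ∃ (B' : Type) (_ : Finite B') (deg' : B' → ℕ) (db' : B' → (G × B' →₀ ℂ)) (eb' : B' → ℂ),
      PRes ℂ (hs χ' 0) m B' deg' db' eb'

end Pool.Agent.Work.MP_e9e200_al.LC

end

section

/-!
# The upper inclusion of Bieri's conjecture for metabelian groups: definitions

Project UP.
-/

set_option autoImplicit false

namespace Pool.Agent.Work.MP_e9e200_al.UP

open Finsupp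

/-! ### Complexes of tuples -/

/-- prepend an index to all lists -/
noncomputable def pre {ι : Type} (Z : Type) [AddCommGroup Z] (i : ι) :
    (List ι →₀ Z) →+ (List ι →₀ Z) :=
  Finsupp.mapDomain.addMonoidHom (fun l => i :: l)

/-- the boundary of a list: `i :: l ↦ l - i :: bdl l` -/
noncomputable def bdl {ι : Type} (Z : Type) [AddCommGroup Z] : List ι → (Z →+ (List ι →₀ Z))
  | [] => 0
  | i :: l => Finsupp.singleAddHom l - (pre Z i).comp (bdl Z l)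

/-- the boundary of the complex of tuples -/
noncomputable def del {ι : Type} (Z : Type) [AddCommGroup Z] : (List ι →₀ Z) →+ (List ι →₀ Z) :=
  Finsupp.liftAddHom (bdl Z)

/-- chains of length `k` with entries in `I` and coefficients in the subgroups `P` -/
def Ch {ι : Type} [DecidableEq ι] {Z : Type} [AddCommGroup Z] (P : Finset ι → AddSubgroup Z)
    (I : Finset ι) (k : ℕ) : AddSubgroup (List ι →₀ Z) where
  carrier := {c | ∀ l, c l ∈ P l.toFinset ∧ (c l ≠ 0 → l.length = k ∧ ∀ i ∈ l, i ∈ I)}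
  zero_mem' := fun l => ⟨by rw [Finsupp.zero_apply]; exact zero_mem _, fun h => absurd rfl h⟩
  add_mem' := by
    intro a b ha hb l
    refine ⟨by rw [Finsupp.add_apply]; exact add_mem (ha l).1 (hb l).1, fun h => ?_⟩
    by_cases h1 : a l = 0
    · refine (hb l).2 (fun h2 => h ?_)
      rw [Finsupp.add_apply, h1, h2, add_zero]
    · exact (ha l).2 h1
  neg_mem' := by
    intro a ha l
    refine ⟨by rw [Finsupp.neg_apply]; exact neg_mem (ha l).1, fun h => (ha l).2 (fun h1 => h ?_)⟩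
    rw [Finsupp.neg_apply, h1, neg_zero]

/-- exactness in degree `k` of the complex of tuples in `I` with coefficients in `P J / R J` -/
def Ex {ι : Type} [DecidableEq ι] {Z : Type} [AddCommGroup Z] (P R : Finset ι → AddSubgroup Z)
    (I : Finset ι) (k : ℕ) : Prop :=
  ∀ c ∈ Ch P I k, del Z c ∈ Ch R I (k - 1) → ∃ e ∈ Ch P I (k + 1), c - del Z e ∈ Ch R I k

/-- `I` is covered by `j` members of `Δ` -/
def Un {ι : Type} [DecidableEq ι] (Δ : Set (Finset ι)) : ℕ → Finset ι → Prop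
  | 0, I => I = ∅
  | j + 1, I => ∃ σ ∈ Δ, Un Δ j (I \ σ)

/-- `Δ` contains the empty set and is closed under subsets -/
def Dn {ι : Type} (Δ : Set (Finset ι)) : Prop :=
  ∅ ∈ Δ ∧ ∀ σ ∈ Δ, ∀ σ' : Finset ι, σ' ⊆ σ → σ' ∈ Δ

/-- the Koszul condition in degrees `< m` for the system of subgroups `Ms J` -/
def KK {ι : Type} [DecidableEq ι] (m : ℕ) {M : Type} [AddCommGroup M]
    (Ms : Finset ι → AddSubgroup M) (Δ : Set (Finset ι)) (I : Finset ι) : Prop :=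
  ∀ J I' : Finset ι, J ⊆ I → I' ⊆ I → Disjoint J I' → I' ∉ Δ → ∀ k < m,
    Ex (fun K => Ms (J ∪ K)) (fun _ => ⊥) I' k

/-- the kernel of `ℤ[M] → ℤ[M/N]` -/
noncomputable def Kr {M : Type} [AddCommGroup M] (N : AddSubgroup M) : AddSubgroup (M →₀ ℤ) :=
  (Finsupp.mapDomain.addMonoidHom (QuotientAddGroup.mk : M → M ⧸ N) :
    (M →₀ ℤ) →+ (M ⧸ N →₀ ℤ)).ker

/-- functions with values in `W σ`, supported in `s` -/
def VV {ι M : Type} [AddCommGroup M] (s : Finset (Finset ι)) (W : Finset ι → AddSubgroup M) :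
    AddSubgroup (Finset ι → M) where
  carrier := {v | ∀ σ, v σ ∈ W σ ∧ (σ ∉ s → v σ = 0)}
  zero_mem' := fun σ => ⟨zero_mem _, fun _ => rfl⟩
  add_mem' := fun {a b} ha hb σ => ⟨add_mem (ha σ).1 (hb σ).1, fun h => by
    rw [Pi.add_apply, (ha σ).2 h, (hb σ).2 h, add_zero]⟩
  neg_mem' := fun {a} ha σ => ⟨neg_mem (ha σ).1, fun h => by
    rw [Pi.neg_apply, (ha σ).2 h, neg_zero]⟩

/-- the functions in `VV s W` which vanish on all `σ` which meet `J` -/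
def VJ {ι M : Type} [AddCommGroup M] (s : Finset (Finset ι))
    (W : Finset ι → AddSubgroup M) (J : Finset ι) : AddSubgroup (VV s W) where
  carrier := {v | ∀ σ, ¬ Disjoint σ J → (v : Finset ι → M) σ = 0}
  zero_mem' := fun _ _ => rfl
  add_mem' := fun {a b} ha hb σ h => by
    show (a : Finset ι → M) σ + (b : Finset ι → M) σ = 0
    rw [ha σ h, hb σ h, add_zero]
  neg_mem' := fun {a} ha σ h => by
    show -((a : Finset ι → M) σ) = 0
    rw [ha σ h, neg_zero]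

/-- tuples of length `s + 1` in a fibre of `π` -/
def FP {V M : Type} [AddCommGroup V] [AddCommGroup M] (π : V →+ M) (s : ℕ) :
    AddSubgroup (Fin (s + 1) → V) where
  carrier := {v | ∀ a b, π (v a) = π (v b)}
  zero_mem' := fun _ _ => rfl
  add_mem' := fun {v w} hv hw a b => by
    rw [Pi.add_apply, Pi.add_apply, map_add, map_add, hv a b, hw a b]
  neg_mem' := fun {v} hv a b => by
    rw [Pi.neg_apply, Pi.neg_apply, map_neg, map_neg, hv a b]

/-- tuples in `FP π s` with entries in `N` -/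
def FJ {V M : Type} [AddCommGroup V] [AddCommGroup M] (π : V →+ M) (s : ℕ) (N : AddSubgroup V) :
    AddSubgroup (FP π s) where
  carrier := {v | ∀ a, (v : Fin (s + 1) → V) a ∈ N}
  zero_mem' := fun _ => zero_mem _
  add_mem' := fun {v w} hv hw a => add_mem (hv a) (hw a)
  neg_mem' := fun {v} hv a => neg_mem (hv a)

/-- deletion of the entry with index `a` -/
def fc {V M : Type} [AddCommGroup V] [AddCommGroup M] (π : V →+ M) (s : ℕ) (a : Fin (s + 2)) :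
    FP π (s + 1) → FP π s :=
  fun v => ⟨fun b => (v : Fin (s + 2) → V) (a.succAbove b), fun _ _ => v.2 _ _⟩

/-- the differential of the Čech complex -/
noncomputable def cd {V M : Type} [AddCommGroup V] [AddCommGroup M] (π : V →+ M) (s : ℕ) :
    (FP π (s + 1) →₀ ℤ) →+ (FP π s →₀ ℤ) :=
  ∑ a : Fin (s + 2), (-1 : ℤ) ^ (a : ℕ) •
    (Finsupp.mapDomain.addMonoidHom (fc π s a) : (FP π (s + 1) →₀ ℤ) →+ (FP π s →₀ ℤ))

/-- the augmentation of the Čech complex -/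
noncomputable def ce {V M : Type} [AddCommGroup V] [AddCommGroup M] (π : V →+ M) :
    (FP π 0 →₀ ℤ) →+ (M →₀ ℤ) :=
  Finsupp.mapDomain.addMonoidHom (fun v : FP π 0 => π ((v : Fin 1 → V) 0))

/-! ### Systems of subgroups of a module -/

/-- the indicator of `J` -/
def ind {D : Type} [DecidableEq D] (J : Finset D) : D → ℤ := fun i => if i ∈ J then 1 else 0

/-- the subgroup generated by all `q t` with `t ∈ T` and `χ i q ≥ - E i` for all `i` -/
noncomputable def NN {Q M D : Type} [CommGroup Q] [AddCommGroup M]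
    [Module (MonoidAlgebra ℤ Q) M] (χ : D → Q → ℤ) (T : Finset M) (E : D → ℤ) : AddSubgroup M :=
  AddSubgroup.closure {x | ∃ q : Q, ∃ t ∈ T, (∀ i, -E i ≤ χ i q) ∧ x = MonoidAlgebra.of ℤ Q q • t}

/-! ### Families of subgroups of a complex -/

/-- cycles modulo `R` -/
def Cyc {ι : Type} {Z : ℕ → Type} [∀ p, AddCommGroup (Z p)] (d : ∀ p, Z (p + 1) →+ Z p)
    (R : ∀ p, (ι → ℤ) → AddSubgroup (Z p)) : ∀ p, (ι → ℤ) → Z p → Prop
  | 0, _, _ => True
  | p + 1, F, z => d p z ∈ R p F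

/-- a complex with families of subgroups -/
structure Sys {ι : Type} (Z : ℕ → Type) [∀ p, AddCommGroup (Z p)] (d : ∀ p, Z (p + 1) →+ Z p)
    (R : ∀ p, (ι → ℤ) → AddSubgroup (Z p)) : Prop where
  mono : ∀ p F F', F ≤ F' → R p F ≤ R p F'
  dR : ∀ p F z, z ∈ R (p + 1) F → d p z ∈ R p F
  dd : ∀ p F z, d p (d (p + 1) z) ∈ R p F

/-- exactness of the complex modulo `R` in degree `p` -/
def Col {ι : Type} {Z : ℕ → Type} [∀ p, AddCommGroup (Z p)] (d : ∀ p, Z (p + 1) →+ Z p)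
    (R : ∀ p, (ι → ℤ) → AddSubgroup (Z p)) (p : ℕ) : Prop :=
  ∀ F z, Cyc d R p F z → ∃ w, z - d p w ∈ R p F

/-- exactness of the complexes of tuples in degrees `≤ m` -/
def Rows {ι : Type} [DecidableEq ι] {Z : ℕ → Type} [∀ p, AddCommGroup (Z p)]
    (R : ∀ p, (ι → ℤ) → AddSubgroup (Z p)) (m : ℕ) (I : Finset ι) : Prop :=
  ∀ p F, ∀ q ≤ m, Ex (fun _ => ⊤) (fun J => R p (F - ind J)) I q

/-- the operators `r` and `h` -/
structure Nul {ι : Type} {Z : ℕ → Type} [∀ p, AddCommGroup (Z p)] (d : ∀ p, Z (p + 1) →+ Z p)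
    (R : ∀ p, (ι → ℤ) → AddSubgroup (Z p)) (e H : ι → ℤ) (r : ∀ p, Z p →+ Z p)
    (h : ∀ p, Z p →+ Z (p + 1)) : Prop where
  rR : ∀ p F z, z ∈ R p F → r p z ∈ R p (F + H - e)
  hR : ∀ p F z, z ∈ R p F → h p z ∈ R (p + 1) (F + H)
  rd : ∀ p F z, r p (d p z) - d p (r (p + 1) z) ∈ R p F
  h0 : ∀ F z, z - r 0 z - d 0 (h 0 z) ∈ R 0 F
  hs : ∀ p F z, z - r (p + 1) z - d (p + 1) (h (p + 1) z) - h p (d p z) ∈ R (p + 1) F

/-! ### Matrices over monoid rings -/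

/-- the map given by a matrix -/
def mu {R : Type} [Ring R] {a b : ℕ} (M : Fin a → Fin b → R) : (Fin a → R) →ₗ[R] (Fin b → R) where
  toFun := fun x j => ∑ i, x i * M i j
  map_add' := fun x y => by
    funext j
    simp only [Pi.add_apply, add_mul, Finset.sum_add_distrib]
  map_smul' := fun r x => by
    funext j
    simp only [Pi.smul_apply, smul_eq_mul, RingHom.id_apply, Finset.mul_sum, mul_assoc]

/-- the components `x b` are supported in the set of all `q` with `χ q + δ b ≤ F` -/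
def Wt {P D : Type} [Monoid P] {n : ℕ} (χ : D → P → ℤ) (δ : Fin n → D → ℤ) (F : D → ℤ)
    (x : Fin n → MonoidAlgebra ℤ P) : Prop :=
  ∀ b q, (x b).coeff q ≠ 0 → ∀ i, χ i q + δ b i ≤ F i

/-- a filtered free resolution of the trivial module over the monoid ring `ℤP` -/
structure FRes {P D : Type} [Monoid P] (χ : D → P → ℤ) (n : ℕ → ℕ)
    (δ : ∀ j, Fin (n j) → D → ℤ) (M : ∀ j, Fin (n (j + 1)) → Fin (n j) → MonoidAlgebra ℤ P) :
    Prop where
  n0 : n 0 = 1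
  δ0 : ∀ b, δ 0 b = 0
  wt : ∀ j b, Wt χ (δ j) (δ (j + 1) b) (M j b)
  aug0 : ∀ y : Fin (n 1) → MonoidAlgebra ℤ P, ∑ b, aug P (mu (M 0) y b) = 0
  dd : ∀ j y, mu (M j) (mu (M (j + 1)) y) = 0
  ex0 : ∀ F x, Wt χ (δ 0) F x → ∑ b, aug P (x b) = 0 → ∃ y, Wt χ (δ 1) F y ∧ mu (M 0) y = x
  ex : ∀ j F x, Wt χ (δ (j + 1)) F x → mu (M j) x = 0 →
    ∃ y, Wt χ (δ (j + 2)) F y ∧ mu (M (j + 1)) y = x

/-- a homotopy between `1` and the multiplication by `g` -/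
structure FHom {P D : Type} [Monoid P] (χ : D → P → ℤ) (n : ℕ → ℕ)
    (δ : ∀ j, Fin (n j) → D → ℤ) (M : ∀ j, Fin (n (j + 1)) → Fin (n j) → MonoidAlgebra ℤ P)
    (g : P) (H : D → ℤ) (K : ∀ j, Fin (n j) → Fin (n (j + 1)) → MonoidAlgebra ℤ P) : Prop where
  wt : ∀ j b, Wt χ (δ (j + 1)) (δ j b + H) (K j b)
  h0 : ∀ x, x - (fun b => x b * MonoidAlgebra.of ℤ P g) = mu (M 0) (mu (K 0) x)
  hs : ∀ j x, x - (fun b => x b * MonoidAlgebra.of ℤ P g) =
    mu (M (j + 1)) (mu (K (j + 1)) x) + mu (K j) (mu (M j) x)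

/-! ### Levels in a metabelian group -/

/-- the left ideal of `ℤS` generated by all `n - 1`, `n ∈ N` -/
noncomputable def KS {G : Type} [Group G] (S : Submonoid G) (N : Subgroup G) :
    Submodule (MonoidAlgebra ℤ S) (MonoidAlgebra ℤ S) :=
  Submodule.span _ {x | ∃ n : S, (n : G) ∈ N ∧ x = MonoidAlgebra.of ℤ S n - 1}

/-- a monoid `QS` in the abelianization, characters `χ i`, integers `e i` and subgroups `N E` of
the derived group -/
structure Lev (G : Type) [Group G] (D : Type) where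
  /-- the monoid in the abelianization -/
  QS : Submonoid (Abelianization G)
  /-- the characters -/
  χ : D → Abelianization G → ℤ
  /-- the direction of growth -/
  e : D → ℤ
  /-- the subgroups of the derived group -/
  N : (D → ℤ) → Subgroup G

namespace Lev

variable {G : Type} [Group G] {D : Type} (L : Lev G D)

/-- the monoid in `G` -/
def S : Submonoid G := L.QS.comap Abelianization.of

/-- the characters as functions on `G` -/
def ch (g : G) : D → ℤ := fun i => L.χ i (Abelianization.of g)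

/-- the axioms -/
structure Good : Prop where
  χ_mul : ∀ i a b, L.χ i (a * b) = L.χ i a + L.χ i b
  e_pos : ∀ i, 0 < L.e i
  N_le : ∀ E, L.N E ≤ commutator G
  N_mono : ∀ E E', E ≤ E' → L.N E ≤ L.N E'
  N_conj : ∀ E g x, x ∈ L.N E → g * x * g⁻¹ ∈ L.N (E - L.ch g)
  N_ex : ∀ a ∈ commutator G, ∀ F : D → ℤ, ∃ t0 : ℕ, ∀ t : ℕ, t0 ≤ t →
    a ∈ L.N ((t : ℤ) • L.e + F)

/-- the sets `I` for which no element of `QS` is negative on `I` -/
def Dep : Set (Finset D) := {I | ¬ ∃ q ∈ L.QS, ∀ i ∈ I, L.χ i q < 0}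

/-- exactness of the complexes of tuples at all large levels -/
def Lvl [DecidableEq D] (m : ℕ) : Prop :=
  ∀ I ∈ L.Dep, ∀ q ≤ m, ∀ F : D → ℤ, ∃ t0 : ℕ, ∀ t : ℕ, t0 ≤ t →
    Ex (fun _ => ⊤) (fun J => (KS L.S (L.N ((t : ℤ) • L.e + F - ind J))).toAddSubgroup) I q

/-- a lift of the elements of `QS` to `S` -/
noncomputable def sec (q : L.QS) : L.S :=
  ⟨(q : Abelianization G).out, by
    show Abelianization.of (q : Abelianization G).out ∈ L.QS
    have h : Abelianization.of (q : Abelianization G).out = (q : Abelianization G) :=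
      Quotient.out_eq (q : Abelianization G)
    rw [h]; exact q.2⟩

/-- the lift `ℤ[QS] → ℤ[S]` (additive) -/
noncomputable def lif (x : MonoidAlgebra ℤ L.QS) : MonoidAlgebra ℤ L.S :=
  MonoidAlgebra.ofCoeff (Finsupp.mapDomain L.sec x.coeff)

/-- the projection `ℤ[S] → ℤ[QS]` -/
noncomputable def prj : MonoidAlgebra ℤ L.S →+* MonoidAlgebra ℤ L.QS :=
  MonoidAlgebra.mapDomainRingHom ℤ
    ((Abelianization.of.comp L.S.subtype).codRestrict L.QS (fun s => s.2))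

/-- sequences (over `t`) of vectors over `ℤS` -/
abbrev Zg (n : ℕ → ℕ) (p : ℕ) : Type := Fin (n p) → ℕ → MonoidAlgebra ℤ L.S

/-- sequences which vanish eventually modulo the level `t e + F - δ b` -/
def Rg {n : ℕ → ℕ} (δ : ∀ j, Fin (n j) → D → ℤ) (p : ℕ) (F : D → ℤ) :
    AddSubgroup (L.Zg n p) where
  carrier := {z | ∀ b, ∃ t0 : ℕ, ∀ t : ℕ, t0 ≤ t →
    z b t ∈ KS L.S (L.N ((t : ℤ) • L.e + F - δ p b))}
  zero_mem' := fun b => ⟨0, fun t _ => zero_mem _⟩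
  add_mem' := by
    intro x y hx hy b
    obtain ⟨t1, h1⟩ := hx b
    obtain ⟨t2, h2⟩ := hy b
    exact ⟨max t1 t2, fun t ht => add_mem (h1 t (le_trans (le_max_left _ _) ht))
      (h2 t (le_trans (le_max_right _ _) ht))⟩
  neg_mem' := by
    intro x hx b
    obtain ⟨t1, h1⟩ := hx b
    exact ⟨t1, fun t ht => neg_mem (h1 t ht)⟩

/-- the differential of the complex of sequences -/
noncomputable def dg {n : ℕ → ℕ}
    (M : ∀ j, Fin (n (j + 1)) → Fin (n j) → MonoidAlgebra ℤ L.QS) (p : ℕ) :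
    L.Zg n (p + 1) →+ L.Zg n p where
  toFun := fun z b t => ∑ a, z a t * L.lif (M p a b)
  map_zero' := by
    funext b t
    simp
  map_add' := fun x y => by
    funext b t
    simp only [Pi.add_apply, add_mul, Finset.sum_add_distrib]

end Lev

end Pool.Agent.Work.MP_e9e200_al.UP

end
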