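import Pool.Agent.Work.MP_e9e200_al.Bd.B05
import Pool.Agent.Work.MP_e9e200_al.O3.Lit
import Pool.Agent.Work.MP_e9e200_al.Stmts3

/-! Bundle of small proof modules (one section per former module). -/

section

/-!
# Project O3: statements of the block C (topology of CW complexes)

Each `def StXXX : Prop` is to be proved as `theorem I_XXX : StXXX` in `O3/P_XXX.lean`.
-/

set_option autoImplicit false

namespace Pool.Agent.Work.MP_e9e200_al.O3

open Set Metric Topology OnePoint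

section
open Topology.RelCWComplex

/-- the union of the cells of dimension less than `n` -/
def sk {X : Type} [TopologicalSpace X] (C : Set X) [CWComplex C] (n : ℕ) : Set X :=
  ⋃ (m : ℕ) (_ : m < n) (e : cell C m), closedCell m e

/-- SK: basic facts on skeleta -/
def StSK : Prop := ∀ (X : Type) [TopologicalSpace X] [T2Space X] (C : Set X) [CWComplex C],
  (∀ n, IsClosed (sk C n) ∧ sk C n ⊆ C ∧ sk C n ⊆ sk C (n + 1)) ∧
  (∀ n, sk C n = ⋃ (m : ℕ) (_ : m < n) (e : cell C m), openCell m e) ∧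
  (∀ n (e : cell C n), cellFrontier n e ⊆ sk C n ∧ Disjoint (openCell n e) (sk C n) ∧
    closedCell n e ⊆ sk C (n + 1)) ∧
  (∀ n, ∃ E : CWComplex.Subcomplex C, (E : Set X) = sk C n ∧ ∀ m, E.I m = {_e | m < n}) ∧
  sk C 0 = ∅ ∧ (∀ x ∈ C, ∃ n, x ∈ sk C n)

/-- FIN: a compact subset meets only finitely many open cells -/
def StFIN : Prop := ∀ (X : Type) [TopologicalSpace X] [T2Space X] (C : Set X) [CWComplex C]
  (K : Set X), IsCompact K → K ⊆ C →
  {i : Σ n, cell C n | (openCell i.1 i.2 ∩ K).Nonempty}.Finite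

/-- FSC: finitely many cells are contained in a finite subcomplex (uses SK) -/
def StFSC : Prop := ∀ (X : Type) [TopologicalSpace X] [T2Space X] (C : Set X) [CWComplex C]
  (I : Set (Σ n, cell C n)), I.Finite → ∃ E : CWComplex.Subcomplex C,
    {i : Σ n, cell C n | i.2 ∈ E.I i.1}.Finite ∧ ∀ i ∈ I, i.2 ∈ E.I i.1

/-- CNT: continuity of maps and homotopies can be tested on the cells -/
def StCNT : Prop := ∀ (X Z : Type) [TopologicalSpace X] [T2Space X] [TopologicalSpace Z]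
  (C : Set X) [CWComplex C],
  (∀ f : X → Z, (∀ n (e : cell C n), ContinuousOn (fun x => f (map n e x)) (closedBall 0 1)) →
    ContinuousOn f C) ∧
  (∀ f : ℝ × X → Z, (∀ n (e : cell C n), ContinuousOn (fun p : ℝ × E n => f (p.1, map n e p.2))
    (Icc 0 1 ×ˢ closedBall 0 1)) → ContinuousOn f (Icc 0 1 ×ˢ C)) ∧
  (∀ (N : ℕ) (f : ℝ × X → Z), (∀ n < N, ∀ e : cell C n, ContinuousOn
    (fun p : ℝ × E n => f (p.1, map n e p.2)) (Icc 0 1 ×ˢ closedBall 0 1)) →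
    ContinuousOn f (Icc 0 1 ×ˢ sk C N))

/-- PSH: a map of a cube can be pushed off an open cell of larger dimension -/
def StPSH : Prop := ∀ (X : Type) [TopologicalSpace X] [T2Space X] (C : Set X) [CWComplex C]
  (k d : ℕ) (e : cell C d) (A : Set X) (F : E k → X), k < d → IsClosed A → cellFrontier d e ⊆ A →
  Disjoint (openCell d e) A →
  ContinuousOn F (closedBall 0 1) → MapsTo F (closedBall 0 1) (A ∪ openCell d e) →
  ∃ H : ℝ × E k → X, ContinuousOn H (Icc 0 1 ×ˢ closedBall 0 1) ∧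
    (∀ t ∈ Icc (0 : ℝ) 1, ∀ x ∈ closedBall (0 : E k) 1, H (t, x) ∈ A ∪ openCell d e ∧
      (F x ∈ A → H (t, x) = F x)) ∧
    (∀ x ∈ closedBall (0 : E k) 1, H (0, x) = F x ∧ H (1, x) ∈ A)

/-- CAP: cellular approximation for cubes (uses PSH, FIN, FSC, SK) -/
def StCAP : Prop := ∀ (X : Type) [TopologicalSpace X] [T2Space X] (C : Set X) [CWComplex C]
  (k n : ℕ) (F : E k → X), k < n → ContinuousOn F (closedBall 0 1) →
  MapsTo F (closedBall 0 1) C → MapsTo F (sphere 0 1) (sk C n) →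
  ∃ H : ℝ × E k → X, ContinuousOn H (Icc 0 1 ×ˢ closedBall 0 1) ∧
    (∀ t ∈ Icc (0 : ℝ) 1, ∀ x ∈ closedBall (0 : E k) 1, H (t, x) ∈ C ∧
      (F x ∈ sk C n → H (t, x) = F x)) ∧
    (∀ x ∈ closedBall (0 : E k) 1, H (0, x) = F x ∧ H (1, x) ∈ sk C n)

/-- BAS: change of the base point -/
def StBAS : Prop := ∀ (n : ℕ) (Z : Type) [TopologicalSpace Z] (z z' : Z) (F : E n → Z)
  (γ : ℝ → Z), Lo z F → ContinuousOn γ (Icc 0 1) → γ 0 = z → γ 1 = z' →
  ∃ (F' : E n → Z) (H : ℝ × E (n + 1) → Z), Lo z' F' ∧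
    (∀ x, F' x ∈ range F ∪ γ '' Icc 0 1) ∧ ContinuousOn H (Icc 0 1 ×ˢ sphere 0 1) ∧
    (∀ x ∈ sphere (0 : E (n + 1)) 1, H (0, x) = fac z F x ∧ H (1, x) = fac z' F' x) ∧
    ∀ t ∈ Icc (0 : ℝ) 1, ∀ x ∈ sphere (0 : E (n + 1)) 1, H (t, x) ∈ range F ∪ γ '' Icc 0 1

/-- NUL: null homotopic maps of cubes and maps which extend to the ball -/
def StNUL : Prop := ∀ (n : ℕ) (Z : Type) [TopologicalSpace Z] (z : Z) (F : E n → Z), Lo z F →
  (Ho z F (fun _ => z) ↔ ∃ G : E (n + 1) → Z, ContinuousOn G (closedBall 0 1) ∧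
    EqOn G (fac z F) (sphere 0 1))

/-- EXH: homotopic maps of spheres and extensions -/
def StEXH : Prop := ∀ (n : ℕ) (X : Type) [TopologicalSpace X] (A : Set X)
  (H : ℝ × E (n + 1) → X) (G : E (n + 1) → X), ContinuousOn H (Icc 0 1 ×ˢ sphere 0 1) →
  (∀ t ∈ Icc (0 : ℝ) 1, ∀ x ∈ sphere (0 : E (n + 1)) 1, H (t, x) ∈ A) →
  ContinuousOn G (closedBall 0 1) → MapsTo G (closedBall 0 1) A →
  (∀ x ∈ sphere (0 : E (n + 1)) 1, G x = H (1, x)) →
  ∃ F : E (n + 1) → X, ContinuousOn F (closedBall 0 1) ∧ MapsTo F (closedBall 0 1) A ∧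
    ∀ x ∈ sphere (0 : E (n + 1)) 1, F x = H (0, x)

/-- EXT: extension of maps of spheres to a subset and to the subspace; based criterion (uses SPH,
NUL, EXH, BAS) -/
def StEXT : Prop := ∀ (X : Type) [TopologicalSpace X] (A : Set X) (n : ℕ), A.Nonempty →
  (Ext A n ↔ ∀ g : E (n + 1) → A, ContinuousOn g (sphere 0 1) →
    ∃ G : E (n + 1) → A, ContinuousOn G (closedBall 0 1) ∧ EqOn G g (sphere 0 1)) ∧
  (Ext A n ↔ ∀ (z : A) (F : E n → A), Lo z F → Ho z F (fun _ => z)) ∧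
  (Ext A 0 → ∀ z : A, (Ext A n ↔ ∀ F : E n → A, Lo z F → Ho z F (fun _ => z)))

/-- SPC: cellular approximation for spheres (uses SPH, CAP, BAS, SK) -/
def StSPC : Prop := ∀ (X : Type) [TopologicalSpace X] [T2Space X] (C : Set X) [CWComplex C]
  (n : ℕ) (g : E (n + 1) → X), ContinuousOn g (sphere 0 1) → MapsTo g (sphere 0 1) C →
  ∃ H : ℝ × E (n + 1) → X, ContinuousOn H (Icc 0 1 ×ˢ sphere 0 1) ∧
    (∀ t ∈ Icc (0 : ℝ) 1, ∀ x ∈ sphere (0 : E (n + 1)) 1, H (t, x) ∈ C) ∧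
    ∀ x ∈ sphere (0 : E (n + 1)) 1, H (0, x) = g x ∧ H (1, x) ∈ sk C (n + 1)

/-- ESK: connectivity of a complex and of its skeleta (uses CAP, SPC, EXH, SK) -/
def StESK : Prop := ∀ (X : Type) [TopologicalSpace X] [T2Space X] (C : Set X) [CWComplex C]
  (j n : ℕ), j + 2 ≤ n → (Ext (sk C n) j ↔ Ext C j)

/-- HMI: extension property and closed embeddings -/
def StHMI : Prop := ∀ (X Y : Type) [TopologicalSpace X] [TopologicalSpace Y] (i : X → Y),
  IsEmbedding i → ∀ (A : Set X) (j : ℕ), A.Nonempty → (Ext (i '' A) j ↔ Ext A j)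

/-- UNI: the extension property for directed unions of subcomplexes (uses FIN) -/
def StUNI : Prop := ∀ (X : Type) [TopologicalSpace X] [T2Space X] (C : Set X) [CWComplex C]
  (Y : ℕ → CWComplex.Subcomplex C) (j : ℕ), (∀ r, (Y r : Set X) ⊆ (Y (r + 1) : Set X)) →
  (⋃ r, (Y r : Set X)) = C → (∀ r, Ext (Y r : Set X) j) → Ext C j

end

end Pool.Agent.Work.MP_e9e200_al.O3

end

section

/-! Project MP_e9e200_al: the local theorem, assembly. -/

set_option autoImplicit false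

namespace Pool.Agent.Work.MP_e9e200_al

namespace Glue3

open Glue

variable {G : Type} [Group G]

theorem gen_smul {χ : Additive G →+ ℝ} {c : ℝ} (hc : 0 < c) (V : Finset G) :
    Gen G (c • χ) V = Gen G χ V := by
  have h : ∀ g : G, 0 ≤ (c • χ) (Additive.ofMul g) ↔ 0 ≤ χ (Additive.ofMul g) := by
    intro g
    have h1 : (c • χ) (Additive.ofMul g) = c * χ (Additive.ofMul g) := rfl
    rw [h1, mul_nonneg_iff_of_pos_left hc]
  unfold Gen
  congr 1
  ext w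
  constructor
  · rintro ⟨g, v, h1, h2, h3⟩
    exact ⟨g, v, (h g).1 h1, h2, h3⟩
  · rintro ⟨g, v, h1, h2, h3⟩
    exact ⟨g, v, (h g).2 h1, h2, h3⟩

theorem gen_le {χ : Additive G →+ ℝ} {V : Finset G} (hV : ∀ v ∈ V, v ∈ commutator G) :
    Gen G χ V ≤ commutator G := by
  unfold Gen
  rw [Subgroup.closure_le]
  rintro w ⟨g, v, -, hv, rfl⟩
  exact (inferInstance : (commutator G).Normal).conj_mem v (hV v hv) g

theorem gen_conj {χ : Additive G →+ ℝ} {V : Finset G} {g0 : G}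
    (h0 : 0 ≤ χ (Additive.ofMul g0)) {w : G} (hw : w ∈ Gen G χ V) :
    g0 * w * g0⁻¹ ∈ Gen G χ V := by
  unfold Gen at hw
  induction hw using Subgroup.closure_induction with
  | mem x hx =>
    obtain ⟨g, v, hg, hv, rfl⟩ := hx
    refine Subgroup.subset_closure ⟨g0 * g, v, ?_, hv, by group⟩
    rw [char_mul]
    exact add_nonneg h0 hg
  | one => rw [mul_one, mul_inv_cancel]; exact Subgroup.one_mem _
  | mul a b _ _ ha hb =>
    have h : g0 * (a * b) * g0⁻¹ = (g0 * a * g0⁻¹) * (g0 * b * g0⁻¹) := by group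
    rw [h]
    exact Subgroup.mul_mem _ ha hb
  | inv a _ ha =>
    have h : g0 * a⁻¹ * g0⁻¹ = (g0 * a * g0⁻¹)⁻¹ := by group
    rw [h]
    exact Subgroup.inv_mem _ ha

theorem char_pow (χ : Additive G →+ ℝ) (h : G) (N : ℕ) :
    χ (Additive.ofMul (h ^ N)) = N * χ (Additive.ofMul h) := by
  rw [ofMul_pow, map_nsmul, nsmul_eq_mul]

theorem char_inv (χ : Additive G →+ ℝ) (h : G) :
    χ (Additive.ofMul h⁻¹) = - χ (Additive.ofMul h) := by
  rw [ofMul_inv, map_neg]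

/-- back from the conjugate by `h ^ N`, `χ h ≤ 0` -/
theorem gen_back {χ : Additive G →+ ℝ} {V : Finset G} {h : G} (hh : χ (Additive.ofMul h) ≤ 0)
    (N : ℕ) {w : G} (hw : h ^ N * w * (h ^ N)⁻¹ ∈ Gen G χ V) : w ∈ Gen G χ V := by
  have h1 : 0 ≤ χ (Additive.ofMul (h ^ N)⁻¹) := by
    rw [char_inv, char_pow]
    have h2 : (N : ℝ) * χ (Additive.ofMul h) ≤ 0 :=
      mul_nonpos_of_nonneg_of_nonpos (Nat.cast_nonneg N) hh
    linarith
  have h2 := gen_conj h1 hw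
  have h3 : (h ^ N)⁻¹ * (h ^ N * w * (h ^ N)⁻¹) * (h ^ N)⁻¹⁻¹ = w := by group
  rwa [h3] at h2

theorem pow_conj (h a : G) (N n : ℕ) :
    (h ^ N * a * (h ^ N)⁻¹) ^ n = h ^ N * a ^ n * (h ^ N)⁻¹ := conj_pow

section

variable {M : Type} [AddCommGroup M] {y : G → M}
  (hy : ∀ a ∈ commutator G, ∀ b ∈ commutator G, y (a * b) = y a + y b)

include hy

theorem y_one : y 1 = 0 := by
  have h := hy 1 (Subgroup.one_mem _) 1 (Subgroup.one_mem _)
  rw [mul_one] at h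
  exact left_eq_add.1 h

theorem y_inv {a : G} (ha : a ∈ commutator G) : y a⁻¹ = -y a := by
  have h := hy a ha a⁻¹ (Subgroup.inv_mem _ ha)
  rw [mul_inv_cancel, y_one hy] at h
  exact (neg_eq_of_add_eq_zero_right h.symm).symm

theorem y_pow {a : G} (ha : a ∈ commutator G) (n : ℕ) : y (a ^ n) = n • y a := by
  induction n with
  | zero => rw [pow_zero, zero_smul, y_one hy]
  | succ n ih => rw [pow_succ, hy _ (Subgroup.pow_mem _ ha n) _ ha, ih, succ_nsmul]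

end

theorem ptype (hYg : StYg) (hQ : StQuot3) (hPhi : StPhi) [Group.FG G] (hmet : Metab G) (p : ℕ)
    [Fact p.Prime] (χ : Additive G →+ ℝ) (hχ : χ ≠ 0) (hloc : ¬ LFG G p χ) :
    ∃ V : Finset G, (∀ v ∈ V, v ∈ commutator G) ∧ ∃ a ∈ commutator G,
      (∀ h, 0 < χ (Additive.ofMul h) → ∀ c ∈ commutator G, ∃ N0 : ℕ, ∀ N : ℕ, N0 ≤ N →
        h ^ N * c * (h ^ N)⁻¹ ∈ Gen G χ V) ∧
      ∀ h, χ (Additive.ofMul h) ≤ 0 → ∀ N : ℕ, ∃ E : G → ZMod p,
        (∀ c ∈ Gen G χ V, ∀ x, E (c * x) = E x) ∧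
        (∀ x, E ((h ^ N * a * (h ^ N)⁻¹) * x) = 1 + E x) ∧
        ∀ g, ∃ C : ℝ, ∀ x, C ≤ χ (Additive.ofMul x) → E (x * g) = E x := by
  obtain ⟨V0, hV0, hYV⟩ := hYg G hmet χ hχ
  obtain ⟨V, hVV, hV, M, _, y, hy1, hy2, hy3, -⟩ := hQ G hmet χ hχ V0 hV0
  have hconj : ∀ (a g : G), a ∈ commutator G → g * a * g⁻¹ ∈ commutator G := fun a g ha =>
    (inferInstance : (commutator G).Normal).conj_mem a ha g
  obtain ⟨Y, hY1, hY2⟩ := hYV M y hy1 (by
    intro g hg v hv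
    rw [hy2 _ (hconj v g (hV0 v hv))]
    exact Subgroup.subset_closure ⟨g, v, hg, hVV hv, rfl⟩)
  have hl : ∃ a ∈ commutator G, ∀ n : ℕ, ¬ p ∣ n → a ^ n ∉ Gen G χ V := by
    by_contra hcon
    push Not at hcon
    exact hloc ⟨V, hV, hcon⟩
  obtain ⟨a, ha, han⟩ := hl
  refine ⟨V, hV, a, ha, ?_, ?_⟩
  · intro h hh c hc
    obtain ⟨N0, hN0⟩ := hy3 h hh c hc
    exact ⟨N0, fun N hN => (hy2 _ (hconj c _ hc)).1 (hN0 N hN)⟩
  · intro h hh N
    have hb : h ^ N * a * (h ^ N)⁻¹ ∈ commutator G := hconj a _ ha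
    obtain ⟨φ, hφ⟩ := hPhi M p (y (h ^ N * a * (h ^ N)⁻¹)) (by
      intro n hn
      rw [← y_pow hy1 hb, hy2 _ (Subgroup.pow_mem _ hb n), pow_conj] at hn
      by_contra hp
      exact han n hp (gen_back hh N hn))
    refine ⟨fun x => φ (Y x), ?_, ?_, ?_⟩
    · intro c hc x
      have hc' := gen_le hV hc
      show φ (Y (c * x)) = φ (Y x)
      rw [hY1 c hc', (hy2 c hc').2 hc, zero_add]
    · intro x
      show φ (Y _) = 1 + φ (Y x)
      rw [hY1 _ hb, hφ, add_comm]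
    · intro g
      obtain ⟨C, hC⟩ := hY2 g
      exact ⟨C, fun x hx => congrArg φ (hC x hx)⟩

end Glue3

open Glue Glue3 in
theorem I_SumLoc (hC : StCore3) (hYg : StYg) (hQ : StQuot3) (hPhi : StPhi) (hSign : StSign) :
    StSumLoc := by
  intro G _ _ hmet p hp n X v hli hloc hnfg hsum hfp
  classical
  have : Fact p.Prime := ⟨hp⟩
  have hX0 : ∀ i ≤ n, X i ≠ 0 := fun i hi => hli.ne_zero ⟨i, Nat.lt_succ_of_le hi⟩
  have hconj : ∀ (a g : G), a ∈ commutator G → g * a * g⁻¹ ∈ commutator G := fun a g ha =>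
    (inferInstance : (commutator G).Normal).conj_mem a ha g
  choose! V hV a ha hdie hE using fun i (hi : i < n) =>
    ptype hYg hQ hPhi hmet p (X i) (hX0 i hi.le) (hloc i hi)
  -- the exceptional character
  obtain ⟨V0, hV0, hYV⟩ := hYg G hmet (X n) (hX0 n le_rfl)
  obtain ⟨Vn, hVVn, hVn, M, _, ym, hym1, hym2, hym3, hym4⟩ := hQ G hmet (X n) (hX0 n le_rfl) V0 hV0
  obtain ⟨Ym, hYm1, hYm2⟩ := hYV M ym hym1 (by
    intro g hg v hv
    rw [hym2 _ (hconj v g (hV0 v hv))]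
    exact Subgroup.subset_closure ⟨g, v, hg, hVVn hv, rfl⟩)
  have hyinf : (ym '' (commutator G : Set G)).Infinite := by
    obtain ⟨a, ha, hna⟩ := hnfg Vn hVn
    exact hym4 ⟨a, ha, fun h => hna ((hym2 a ha).1 h)⟩
  -- the signs
  choose! t ht1 ht2 using fun j (hj : j < n + 1) => hSign G (n + 1) X hli j hj
  -- the exponent
  have hN1 : ∀ i j : ℕ, ∃ N0 : ℕ, ∀ N, N0 ≤ N → i < n → j < n → i ≠ j →
      t j ^ N * a j * (t j ^ N)⁻¹ ∈ Gen G (X i) (V i) := by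
    intro i j
    by_cases h : i < n ∧ j < n ∧ i ≠ j
    · obtain ⟨N0, hN0⟩ := hdie i h.1 (t j) (ht2 j (by omega) i (by omega) h.2.2) (a j) (ha j h.2.1)
      exact ⟨N0, fun N hN _ _ _ => hN0 N hN⟩
    · exact ⟨0, fun N _ h1 h2 h3 => absurd ⟨h1, h2, h3⟩ h⟩
  choose N1 hN1 using hN1
  have hN2 : ∀ j : ℕ, ∃ N0 : ℕ, ∀ N, N0 ≤ N → j < n → ym (t j ^ N * a j * (t j ^ N)⁻¹) = 0 := by
    intro j
    by_cases h : j < n
    · obtain ⟨N0, hN0⟩ := hym3 (t j) (ht2 j (by omega) n (by omega) (by omega)) (a j) (ha j h)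
      exact ⟨N0, fun N hN _ => hN0 N hN⟩
    · exact ⟨0, fun N _ h1 => absurd h1 h⟩
  choose N2 hN2 using hN2
  obtain ⟨N, hNdef⟩ : ∃ N : ℕ, (∀ i < n, ∀ j < n, N1 i j ≤ N) ∧ ∀ j < n, N2 j ≤ N := by
    refine ⟨(∑ i ∈ Finset.range n, ∑ j ∈ Finset.range n, N1 i j) + ∑ j ∈ Finset.range n, N2 j,
      ?_, ?_⟩
    · intro i hi j hj
      have h1 : N1 i j ≤ ∑ j ∈ Finset.range n, N1 i j :=
        Finset.single_le_sum (f := fun j => N1 i j) (fun _ _ => Nat.zero_le _)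
          (Finset.mem_range.mpr hj)
      have h2 : ∑ j ∈ Finset.range n, N1 i j ≤ ∑ i ∈ Finset.range n, ∑ j ∈ Finset.range n, N1 i j :=
        Finset.single_le_sum (f := fun i => ∑ j ∈ Finset.range n, N1 i j)
          (fun _ _ => Nat.zero_le _) (Finset.mem_range.mpr hi)
      omega
    · intro j hj
      have h1 : N2 j ≤ ∑ j ∈ Finset.range n, N2 j :=
        Finset.single_le_sum (f := fun j => N2 j) (fun _ _ => Nat.zero_le _)
          (Finset.mem_range.mpr hj)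
      omega
  let b : ℕ → G := fun j => t j ^ N * a j * (t j ^ N)⁻¹
  have hbc : ∀ j < n, b j ∈ commutator G := fun j hj => hconj _ _ (ha j hj)
  have hbij : ∀ i < n, ∀ j < n, i ≠ j → b j ∈ Gen G (X i) (V i) := fun i hi j hj hij =>
    hN1 i j N (hNdef.1 i hi j hj) hi hj hij
  have hbm : ∀ j < n, ym (b j) = 0 := fun j hj => hN2 j N (hNdef.2 j hj) hj
  choose! E hE1 hE2 hE3 using fun j (hj : j < n) => hE j hj (t j) (ht1 j (by omega)) N
  -- the set B
  let B : Set G := {c | c ∈ commutator G ∧ ∀ i < n, ∃ e : ZMod p, ∀ x, E i (c * x) = e + E i x}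
  have hBgen : ∀ c ∈ commutator G, (∀ i < n, c ∈ Gen G (X i) (V i)) → c ∈ B := fun c hc h =>
    ⟨hc, fun i hi => ⟨0, fun x => by rw [hE1 i hi c (h i hi), zero_add]⟩⟩
  have hbB : ∀ j < n, b j ∈ B := by
    intro j hj
    refine ⟨hbc j hj, fun i hi => ?_⟩
    by_cases hij : i = j
    · subst hij
      exact ⟨1, fun x => hE2 i hi x⟩
    · exact ⟨0, fun x => by rw [hE1 i hi _ (hbij i hi j hj hij), zero_add]⟩
  have hval : ∀ g : G, v (Additive.ofMul g) =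
      ∑ i ∈ Finset.range (n + 1), (X i) (Additive.ofMul g) := by
    intro g
    conv_lhs => rw [hsum]
    rw [AddMonoidHom.finsetSum_apply]
  have hv0 : v ≠ 0 := by
    intro h0
    have h1 := Fintype.linearIndependent_iff.1 hli (fun _ => (1 : ℝ)) (by
      simp only [one_smul]
      rw [Fin.sum_univ_eq_sum_range (fun i => X i) (n + 1), ← hsum, h0]) 0
    exact one_ne_zero h1
  have hBinf : (ym '' B).Infinite := by
    intro hfin
    obtain ⟨F, hF1, hF2⟩ := hyinf.exists_subset_card_eq (hfin.toFinset.card + 1)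
    choose! c hc1 hc2 using fun f (hf : f ∈ F) => hF1 hf
    have hN3 : ∀ (f : M) (i : ℕ), ∃ N0 : ℕ, ∀ N, N0 ≤ N → f ∈ F → i < n →
        t n ^ N * c f * (t n ^ N)⁻¹ ∈ Gen G (X i) (V i) := by
      intro f i
      by_cases h : f ∈ F ∧ i < n
      · obtain ⟨N0, hN0⟩ := hdie i h.2 (t n) (ht2 n (by omega) i (by omega) (by omega)) (c f)
          (hc1 f h.1)
        exact ⟨N0, fun N hN _ _ => hN0 N hN⟩
      · exact ⟨0, fun N _ h1 h2 => absurd ⟨h1, h2⟩ h⟩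
    choose N3 hN3 using hN3
    obtain ⟨N', hN'⟩ : ∃ N : ℕ, ∀ f ∈ F, ∀ i < n, N3 f i ≤ N := by
      refine ⟨∑ f ∈ F, ∑ i ∈ Finset.range n, N3 f i, fun f hf i hi => ?_⟩
      have h1 : N3 f i ≤ ∑ i ∈ Finset.range n, N3 f i :=
        Finset.single_le_sum (f := fun i => N3 f i) (fun _ _ => Nat.zero_le _)
          (Finset.mem_range.mpr hi)
      have h2 : ∑ i ∈ Finset.range n, N3 f i ≤ ∑ f ∈ F, ∑ i ∈ Finset.range n, N3 f i :=
        Finset.single_le_sum (f := fun f => ∑ i ∈ Finset.range n, N3 f i)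
          (fun _ _ => Nat.zero_le _) hf
      omega
    have hmaps : ∀ f ∈ F, ym (t n ^ N' * c f * (t n ^ N')⁻¹) ∈ hfin.toFinset := by
      intro f hf
      rw [Set.Finite.mem_toFinset]
      refine ⟨_, hBgen _ (hconj _ _ (hc1 f hf)) fun i hi => hN3 f i N' (hN' f hf i hi) hf hi, rfl⟩
    obtain ⟨f, hf, f', hf', hne, heq⟩ := Finset.exists_ne_map_eq_of_card_lt_of_maps_to
      (by rw [hF2]; exact Nat.lt_succ_self _) hmaps
    apply hne
    have hx := hconj (c f) (t n ^ N') (hc1 f hf)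
    have hx' := hconj (c f') (t n ^ N') (hc1 f' hf')
    have h1 : ym ((t n ^ N' * c f * (t n ^ N')⁻¹) * (t n ^ N' * c f' * (t n ^ N')⁻¹)⁻¹) = 0 := by
      rw [hym1 _ hx _ (Subgroup.inv_mem _ hx'), y_inv hym1 hx', heq, add_neg_cancel]
    have h2 : (t n ^ N' * c f * (t n ^ N')⁻¹) * (t n ^ N' * c f' * (t n ^ N')⁻¹)⁻¹ =
        t n ^ N' * (c f * (c f')⁻¹) * (t n ^ N')⁻¹ := by group
    rw [h2, hym2 _ (hconj _ _ (Subgroup.mul_mem _ (hc1 f hf) (Subgroup.inv_mem _ (hc1 f' hf'))))]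
      at h1
    have h3 := gen_back (ht1 n (by omega)) N' h1
    rw [← hym2 _ (Subgroup.mul_mem _ (hc1 f hf) (Subgroup.inv_mem _ (hc1 f' hf'))),
      hym1 _ (hc1 f hf) _ (Subgroup.inv_mem _ (hc1 f' hf')), y_inv hym1 (hc1 f' hf'),
      add_neg_eq_zero, hc2 f hf, hc2 f' hf'] at h3
    exact h3
  refine hC (commutator G) hmet (Gmon v) ?_ B (fun c hc => hc.1) n
    (fun i g => (X i) (Additive.ofMul g)) (fun i c => E i (c * 1) - E i 1) E ym Ym b
    ?_ ?_ ?_ ?_ hE3 (fun c hc x => hYm1 c hc.1 x) hYm2 hBinf hbB hbm ?_ ?_ hfp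
  · intro a ha
    show 0 ≤ v (Additive.ofMul a)
    rw [char_comm v ha]
  · intro i _ x g
    exact char_mul _ x g
  · intro s hs
    have h : 0 ≤ v (Additive.ofMul s) := hs
    rwa [hval] at h
  · intro C
    obtain ⟨x, hx⟩ := unbounded v hv0 C
    refine ⟨x, ?_⟩
    rwa [hval] at hx
  · intro i hi c hc x
    obtain ⟨e, he⟩ := hc.2 i hi
    show E i (c * x) = (E i (c * 1) - E i 1) + E i x
    rw [he x, he 1]
    ring
  · intro i hi j hj
    show E i (b j * 1) - E i 1 = 0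
    rw [hE1 i hi _ (hbij i hi j (by omega) (by omega)), sub_self]
  · intro i hi
    show E i (b i * 1) - E i 1 ≠ 0
    rw [hE2 i hi 1]
    simp

open Glue Glue3 in
theorem I_Loc (hS : StSumLoc) (hMono : StMono) (hCar : StCar) (hSig : StSig1) : StLoc := by
  intro m G _ _ hm hmet _ p hp v hv
  classical
  obtain ⟨hv0, s, w0, hcard, hs, hconv⟩ := hv
  refine ⟨hv0, fun hfp => ?_⟩
  obtain ⟨n, hn, w, c, hli, hwc, hsum⟩ := hCar _ s v w0 hconv
  obtain _ | n := n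
  · rw [Finset.sum_range_zero] at hsum
    exact hv0 hsum
  have hli' : LinearIndependent ℝ (fun i : Fin (n + 1) => (fun i => c i • w i) (i : ℕ)) := by
    have h := hli.units_smul (fun i : Fin (n + 1) =>
      Units.mk0 (c i) (hwc i i.2).2.1.ne')
    exact h
  have hnf : ∀ χ : Additive G →+ ℝ, χ ∈ PSet G p → ∀ V : Finset G, (∀ v ∈ V, v ∈ commutator G) →
      ∃ a ∈ commutator G, a ∉ Gen G χ V := by
    intro χ hχ V hV
    by_contra hcon
    push Not at hcon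
    refine hχ.2 ⟨V, hV, fun a ha => ⟨1, ?_, ?_⟩⟩
    · intro h
      exact hp.one_lt.ne' (Nat.dvd_one.1 h)
    · rw [pow_one]
      exact hcon a ha
  have hsg : ∀ χ : Additive G →+ ℝ, χ ∈ SigC G 1 → ∀ V : Finset G, (∀ v ∈ V, v ∈ commutator G) →
      ∃ a ∈ commutator G, a ∉ Gen G χ V := by
    intro χ hχ V hV
    by_contra hcon
    push Not at hcon
    exact hχ.2 (hSig G hmet χ hχ.1 V hV hcon)
  refine hS G hmet p hp n (fun i => c i • w i) v hli' ?_ ?_ hsum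
    (hMono _ _ m (n + 1) (by omega) hfp)
  · intro i hi
    obtain ⟨h1, h2, h3⟩ := hwc i (by omega)
    rcases hs _ h1 with ⟨χ, hχ, d, hd, hw⟩ | ⟨h4, -⟩
    · show ¬ LFG G p (c i • w i)
      rw [hw, smul_smul]
      rintro ⟨V, hV, h⟩
      refine hχ.2 ⟨V, hV, ?_⟩
      rwa [gen_smul (mul_pos h2 hd)] at h
    · exact absurd h4 (h3 (by omega))
  · intro V hV
    obtain ⟨h1, h2, -⟩ := hwc n (by omega)
    show ∃ a ∈ commutator G, a ∉ Gen G (c n • w n) V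
    rcases hs _ h1 with ⟨χ, hχ, d, hd, hw⟩ | ⟨-, χ, hχ, d, hd, hw⟩
    · rw [hw, smul_smul, gen_smul (mul_pos h2 hd)]
      exact hnf χ hχ V hV
    · rw [hw, smul_smul, gen_smul (mul_pos h2 hd)]
      exact hsg χ hχ V hV

open Glue Glue3 in
/-- every character of `Σ^1(G, ℤ)^c` belongs to some prime -/
theorem I_Sig1Loc (hS : StSumLoc) (hP : StPrime) (hSig : StSig1) : ∀ (G : Type) [Group G]
    [Group.FG G], Metab G → ∀ χ : Additive G →+ ℝ,
      χ ∈ SigC G 1 ↔ ∃ p : ℕ, p.Prime ∧ χ ∈ PSet G p := by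
  intro G _ _ hmet χ
  constructor
  · intro hχ
    by_contra hcon
    push Not at hcon
    obtain ⟨V, hV, h⟩ := hP G hmet χ hχ.1 (fun p hp => by
      by_contra h
      exact hcon p hp ⟨hχ.1, h⟩)
    exact hχ.2 (hSig G hmet χ hχ.1 V hV h)
  · rintro ⟨p, hp, hχ⟩
    refine ⟨hχ.1, ?_⟩
    refine hS G hmet p hp 0 (fun _ => χ) χ ?_ (fun i hi => absurd hi (Nat.not_lt_zero i)) ?_ ?_
    · rw [Fintype.linearIndependent_iff]
      intro g hg i
      rw [Fin.sum_univ_one] at hg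
      have h : g 0 = 0 := (smul_eq_zero.1 hg).resolve_right hχ.1
      have hi : i = 0 := Fin.ext (by simp)
      rw [hi]
      exact h
    · intro V hV
      by_contra hcon
      push Not at hcon
      refine hχ.2 ⟨V, hV, fun a ha => ⟨1, ?_, ?_⟩⟩
      · intro h
        exact hp.one_lt.ne' (Nat.dvd_one.1 h)
      · rw [pow_one]
        exact hcon a ha
    · rw [Finset.sum_range_one]

open Glue Glue3 in
/-- derived groups of prime power exponent -/
theorem I_LocExp (hL : StLoc) (hSig : StSig1) : StMain1 := by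
  intro m G _ _ hm hmet hfp p r hp hexp v hv
  obtain ⟨hv0, s, hcard, hs, hconv⟩ := hv
  refine hL m G hm hmet hfp p hp ⟨hv0, s, 0, hcard, fun w hw => Or.inl ?_, hconv⟩
  obtain ⟨χ, ⟨hχ0, hχ⟩, d, hd, hwd⟩ := hs w hw
  refine ⟨χ, ⟨hχ0, fun ⟨V, hV, hK⟩ => hχ ?_⟩, d, hd, hwd⟩
  refine hSig G hmet χ hχ0 V hV fun a ha => ?_
  obtain ⟨n, hn, han⟩ := hK a ha
  -- `a` is a power of `a ^ n`
  have hcop : Nat.Coprime n (p ^ r) := Nat.Coprime.pow_right r ((hp.coprime_iff_not_dvd.2 hn).symm)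
  have h1 : a ∈ Subgroup.zpowers (a ^ n) := by
    have h2 : (orderOf a).Coprime n := by
      refine Nat.Coprime.symm (Nat.Coprime.coprime_dvd_right ?_ hcop)
      exact orderOf_dvd_of_pow_eq_one (hexp a ha)
    obtain ⟨k, hk⟩ := exists_pow_eq_self_of_coprime h2.symm
    exact ⟨k, by
      show (a ^ n) ^ ((k : ℕ) : ℤ) = a
      rw [zpow_natCast]
      exact hk⟩
  have h3 : Subgroup.zpowers (a ^ n) ≤ Gen G χ V := by
    rw [Subgroup.zpowers_le]
    exact han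
  exact h3 h1

end Pool.Agent.Work.MP_e9e200_al

end

section

/-!
# Sigma invariants of split metabelian groups: definitions and statements of the items

Block SP of the project MP_e9e200_al: for a finitely generated group `G` with abelian subgroups
`A ≥ [G, G]` and `B` such that `A B` has finite index (for example `G` a split extension of an
abelian group by an abelian group) and for all `m`, the part of `conv_{≤ m} (Σ^1(G, ℤ)^c)` which
is spanned by integer valued characters lies in `Σ^m(G, ℤ)^c`.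
-/

set_option autoImplicit false

namespace Pool.Agent.Work.MP_e9e200_al.SP

open Pool.Agent.Work.MP_e9e200_al

/-! ### Boundaries of families indexed by cubes -/

/-- boundary of a family indexed by lists of letters -/
def bdA {L W : Type} [AddCommGroup W] (α : L → W → W) : List L → (List L → W) → W
  | [], _ => 0
  | a :: l, c => α a (c l) - c l - bdA α l (fun l' => c (a :: l'))

/-- boundary of a family indexed by pairs of a list of directions and a list of letters -/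
def bd {L W : Type} [AddCommGroup W] (α : L → W → W) (θ : ℕ → W → W) (cj : ℕ → L → L) :
    List ℕ → List L → (List ℕ → List L → W) → W
  | [], l, c => bdA α l (c [])
  | j :: J, l, c => c J l - θ j (c J (l.map (cj j))) -
      bd α θ cj J l (fun J' l' => c (j :: J') l')

/-- the lists which occur in `bdA α l` -/
def facesA {L : Type} : List L → List (List L)
  | [] => []
  | a :: l => l :: (facesA l).map (fun l' => a :: l')

/-- the pairs which occur in `bd α θ cj J l` -/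
def faces {L : Type} (cj : ℕ → L → L) : List ℕ → List L → List (List ℕ × List L)
  | [], l => (facesA l).map (fun l' => ([], l'))
  | j :: J, l => (J, l) :: (J, l.map (cj j)) :: (faces cj J l).map (fun p => (j :: p.1, p.2))

/-- B1: conjugation of all letters commutes with the boundary; the boundary has square zero -/
def StSq : Prop := ∀ (L W : Type) [AddCommGroup W] (α : L → W → W) (θ : ℕ → W → W)
  (cj : ℕ → L → L), (∀ a x y, α a (x - y) = α a x - α a y) →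
  (∀ j x y, θ j (x - y) = θ j x - θ j y) → (∀ a b x, α a (α b x) = α b (α a x)) →
  (∀ i j x, θ i (θ j x) = θ j (θ i x)) → (∀ a j x, α a (θ j x) = θ j (α (cj j a) x)) →
  (∀ i j a, cj i (cj j a) = cj j (cj i a)) →
  (∀ j J l c, bd α θ cj J l (fun J' l' => θ j (c J' (l'.map (cj j)))) =
    θ j (bd α θ cj J (l.map (cj j)) c)) ∧
  ∀ J l c, bd α θ cj J l (fun J' l' => bd α θ cj J' l' c) = 0

/-- B2: comparison of two boundaries; all faces have one entry less -/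
def StCmp : Prop :=
  (∀ (L W W' K : Type) [AddCommGroup W] [AddCommGroup W'] [AddCommGroup K]
    (α : L → W → W) (θ : ℕ → W → W) (α' : L → W' → W') (θ' : ℕ → W' → W') (cj : ℕ → L → L)
    (F : W → K) (F' : W' → K), (∀ x y, F (x - y) = F x - F y) →
    (∀ x y, F' (x - y) = F' x - F' y) →
    ∀ (J : List ℕ) (l : List L) (c : List ℕ → List L → W) (c' : List ℕ → List L → W'),
    (∀ p ∈ faces cj J l, F (c p.1 p.2) = F' (c' p.1 p.2) ∧
      (∀ a ∈ l, F (α a (c p.1 p.2)) = F' (α' a (c' p.1 p.2))) ∧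
      (∀ j ∈ J, F (θ j (c p.1 p.2)) = F' (θ' j (c' p.1 p.2)))) →
    F (bd α θ cj J l c) = F' (bd α' θ' cj J l c')) ∧
  ∀ (L : Type) (cj : ℕ → L → L) (J : List ℕ) (l : List L), ∀ p ∈ faces cj J l,
    p.1.length + p.2.length + 1 = J.length + l.length

/-! ### Resolutions -/

/-- `P` is a projective resolution of the trivial module -/
def IsRes {S : Type} [Monoid S] (P : ℕ → ModuleCat.{0} (MonoidAlgebra ℤ S))
    (d : ∀ i, P (i + 1) →ₗ[MonoidAlgebra ℤ S] P i) (ε : P 0 →ₗ[MonoidAlgebra ℤ S] Triv S) :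
    Prop :=
  (∀ i, Module.Projective (MonoidAlgebra ℤ S) (P i)) ∧ Function.Surjective ε ∧
    Function.Exact (d 0) ε ∧ ∀ i, Function.Exact (d (i + 1)) (d i)

/-- F1: projective `ℤS`-modules have the lifting property for `ℤA`-linear maps -/
def StLiftA : Prop := ∀ {G : Type} [Group G] (A : Subgroup G) (S : Submonoid G)
  (hAS : ∀ a ∈ A, a ∈ S) (P N N' : Type) [AddCommGroup P] [AddCommGroup N] [AddCommGroup N']
  [Module (MonoidAlgebra ℤ S) P] [Module (MonoidAlgebra ℤ S) N] [Module (MonoidAlgebra ℤ S) N'],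
  Module.Projective (MonoidAlgebra ℤ S) P →
  ∀ (π : N →ₗ[MonoidAlgebra ℤ S] N') (g : P →+ N'),
  (∀ (a : G) (ha : a ∈ A) (p : P), g (MonoidAlgebra.of ℤ S ⟨a, hAS a ha⟩ • p) =
    MonoidAlgebra.of ℤ S ⟨a, hAS a ha⟩ • g p) → (∀ p, ∃ q, π q = g p) →
  ∃ h : P →+ N, (∀ (a : G) (ha : a ∈ A) (p : P), h (MonoidAlgebra.of ℤ S ⟨a, hAS a ha⟩ • p) =
    MonoidAlgebra.of ℤ S ⟨a, hAS a ha⟩ • h p) ∧ ∀ p, π (h p) = g p

/-- F2: multiplication by `a - 1` is null homotopic over `ℤA` -/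
def StNull : Prop := ∀ {G : Type} [Group G] (A : Subgroup G) (_ : ∀ a ∈ A, ∀ b ∈ A, a * b = b * a)
  (S : Submonoid G) (hAS : ∀ a ∈ A, a ∈ S) (P : ℕ → ModuleCat.{0} (MonoidAlgebra ℤ S))
  (d : ∀ i, P (i + 1) →ₗ[MonoidAlgebra ℤ S] P i) (ε : P 0 →ₗ[MonoidAlgebra ℤ S] Triv S),
  IsRes P d ε → ∀ (a : G) (ha : a ∈ A), ∃ h : ∀ j, P j →+ P (j + 1),
    (∀ j (b : G) (hb : b ∈ A) (p : P j), h j (MonoidAlgebra.of ℤ S ⟨b, hAS b hb⟩ • p) =
      MonoidAlgebra.of ℤ S ⟨b, hAS b hb⟩ • h j p) ∧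
    (∀ p, d 0 (h 0 p) = MonoidAlgebra.of ℤ S ⟨a, hAS a ha⟩ • p - p) ∧
    ∀ j p, d (j + 1) (h (j + 1) p) + h j (d j p) =
      MonoidAlgebra.of ℤ S ⟨a, hAS a ha⟩ • p - p

/-- F3: extension of a functional to an equivariant map -/
def StExt : Prop := ∀ {G : Type} [Group G] (A : Subgroup G) [A.Normal] (S : Submonoid G)
  (hAS : ∀ a ∈ A, a ∈ S) {k : Type} [Field k] (ψ : G → k) (x1 : G) (P : Type) [AddCommGroup P]
  [Module (MonoidAlgebra ℤ S) P], Module.Projective (MonoidAlgebra ℤ S) P → ∀ ξ : P →+ k,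
  (∀ (a : G) (ha : a ∈ A) (p : P), ξ (MonoidAlgebra.of ℤ S ⟨a, hAS a ha⟩ • p) =
    ψ (x1 * a * x1⁻¹) * ξ p) →
  ∃ Ξ : P →+ (G → k), (∀ (s : S) (p : P) (x : G), Ξ (MonoidAlgebra.of ℤ S s • p) x =
      Ξ p (x * s)) ∧ (∀ a ∈ A, ∀ p x, Ξ p (a * x) = ψ a * Ξ p x) ∧
    ∀ (s : S) (p : P), Ξ p (x1 * s) = ξ (MonoidAlgebra.of ℤ S s • p)

/-- F4: a cocycle which vanishes on a half space differs from a cochain which vanishes on a half
space by a coboundary -/
def StWW : Prop := ∀ {G : Type} [Group G] (A : Subgroup G) [A.Normal],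
  (∀ a ∈ A, ∀ b ∈ A, a * b = b * a) → ∀ (S : Submonoid G) (vv : G → ℝ),
  (∀ x g, vv (x * g) = vv x + vv g) → (∀ g, g ∈ S ↔ 0 ≤ vv g) → (∀ a ∈ A, vv a = 0) →
  (∀ C : ℝ, ∃ x, C ≤ vv x) → ∀ {k : Type} [Field k] (ψ : G → k),
  (∀ a ∈ A, ∀ b ∈ A, ψ (a * b) = ψ a * ψ b) → (∃ a ∈ A, ψ a ≠ 1) →
  ∀ (P : ℕ → ModuleCat.{0} (MonoidAlgebra ℤ S)) (d : ∀ i, P (i + 1) →ₗ[MonoidAlgebra ℤ S] P i)
    (ε : P 0 →ₗ[MonoidAlgebra ℤ S] Triv S), IsRes P d ε →
  ∀ (n : ℕ) (Φ : P n →+ (G → k)),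
  (∀ (s : S) (p : P n) (x : G), Φ (MonoidAlgebra.of ℤ S s • p) x = Φ p (x * s)) →
  (∀ a ∈ A, ∀ p x, Φ p (a * x) = ψ a * Φ p x) →
  (∃ C : ℝ, ∀ (q : P (n + 1)) (x : G), C ≤ vv x → Φ (d n q) x = 0) →
  ∃ w : P n →+ (G → k),
    (∀ (s : S) (p : P n) (x : G), w (MonoidAlgebra.of ℤ S s • p) x = w p (x * s)) ∧
    (∀ a ∈ A, ∀ p x, w p (a * x) = ψ a * w p x) ∧ (∀ q, w (d n q) = Φ (d n q)) ∧
    ∃ C : ℝ, ∀ p x, C ≤ vv x → w p x = 0

/-- functions which are left equivariant for the product of the first `n` characters `ψ i` of `A`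
and which vanish where one of the first `n` characters `χ i` is large -/
def JA {G k : Type} [Group G] [Field k] (A : Subgroup G) (χ : ℕ → G → ℝ) (ψ : ℕ → G → k)
    (n : ℕ) : Set (G → k) :=
  {f | (∀ a ∈ A, ∀ x, f (a * x) = (∏ i ∈ Finset.range n, ψ i a) * f x) ∧
    ∃ C : ℝ, ∀ x, (∃ i < n, C ≤ χ i x) → f x = 0}

/-- F5: the iterated twisted lifts -/
def StRec : Prop := ∀ {G : Type} [Group G] (A : Subgroup G) [A.Normal] (S : Submonoid G)
  {k : Type} [Field k] (m : ℕ) (χ : ℕ → G → ℝ) (ψ f : ℕ → G → k),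
  (∀ i < m, ∀ x g, χ i (x * g) = χ i x + χ i g) →
  (∀ i < m, ∀ a ∈ A, ∀ x, f i (a * x) = ψ i a * f i x) →
  (∀ i < m, ∀ g, ∃ C : ℝ, ∀ x, C ≤ χ i x → f i (x * g) = f i x) →
  ∀ (P : ℕ → ModuleCat.{0} (MonoidAlgebra ℤ S)) (d : ∀ i, P (i + 1) →ₗ[MonoidAlgebra ℤ S] P i)
    (ε : P 0 →ₗ[MonoidAlgebra ℤ S] Triv S), IsRes P d ε →
  ∃ U V : ∀ j, P j →+ (G → k),
    (∀ p x, V 0 p x = (((show ℤ from ε p) : ℤ) : k)) ∧
    (∀ j < m, ∀ (s : S) (p : P j) (x : G), U j (MonoidAlgebra.of ℤ S s • p) x =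
      U j p (x * s) + (f j (x * s) - f j x) * V j p (x * s)) ∧
    (∀ j < m, ∀ p, U j p ∈ JA A χ ψ (j + 1)) ∧
    (∀ j < m, ∀ p, V (j + 1) p = U j (d j p)) ∧
    (∀ j ≤ m, ∀ (s : S) (p : P j) (x : G), V j (MonoidAlgebra.of ℤ S s • p) x = V j p (x * s)) ∧
    (∀ j ≤ m, ∀ p, V j p ∈ JA A χ ψ j) ∧ ∀ j ≤ m, ∀ p, V j (d j p) = 0

/-- F6: chains of a resolution indexed by cubes -/
def StKap : Prop := ∀ (S L : Type) [Monoid S] (e : L → S) (t : ℕ → S) (cj : ℕ → L → L),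
  (∀ a b, e a * e b = e b * e a) → (∀ i j, t i * t j = t j * t i) →
  (∀ a j, e a * t j = t j * e (cj j a)) → (∀ i j a, cj i (cj j a) = cj j (cj i a)) →
  ∀ (P : ℕ → ModuleCat.{0} (MonoidAlgebra ℤ S)) (d : ∀ i, P (i + 1) →ₗ[MonoidAlgebra ℤ S] P i)
    (ε : P 0 →ₗ[MonoidAlgebra ℤ S] Triv S), IsRes P d ε →
  ∃ κ : ∀ n, List ℕ → List L → P n, ε (κ 0 [] []) = (show Triv S from (1 : ℤ)) ∧
    ∀ n J l, J.length + l.length = n + 1 → d n (κ (n + 1) J l) =
      bd (fun a p => MonoidAlgebra.of ℤ S (e a) • p) (fun j p => MonoidAlgebra.of ℤ S (t j) • p)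
        cj J l (κ n)

/-! ### Systems of functions on the group -/

section

variable {G k : Type} [Group G] [Field k]

/-- right translation by an element of `A` -/
def actA (A : Subgroup G) : A → (G → k) → (G → k) := fun a f x => f (x * a)

/-- right translation by `t j` -/
def actT (t : ℕ → G) : ℕ → (G → k) → (G → k) := fun j f x => f (x * t j)

/-- conjugation by `t j` on `A` -/
def cjA (A : Subgroup G) [A.Normal] (t : ℕ → G) : ℕ → A → A :=
  fun j a => ⟨(t j)⁻¹ * a * t j, (inferInstance : A.Normal).conj_mem' a a.2 (t j)⟩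

/-- a system of functions of length `m` -/
def IsSys (A : Subgroup G) [A.Normal] (t : ℕ → G) (m : ℕ) (χ : ℕ → G → ℝ) (ψ f : ℕ → G → k)
    (u v : ℕ → List ℕ → List A → G → k) : Prop :=
  (∀ i < m, ∀ a ∈ A, ∀ x, f i (a * x) = ψ i a * f i x) ∧
  (∀ i < m, ∀ g, ∃ C : ℝ, ∀ x, C ≤ χ i x → f i (x * g) = f i x) ∧
  (∀ i < m, ∀ x, f i x ≠ 0) ∧
  v 0 [] [] = (fun _ => 1) ∧
  (∀ j < m, ∀ J l, J.length + l.length = j + 1 → v (j + 1) J l =
    bd (actA A) (actT t) (cjA A t) J l (fun J' l' x => u j J' l' x + f j x * v j J' l' x)) ∧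
  (∀ j < m, ∀ J l, J.length + l.length = j → u j J l ∈ JA A χ ψ (j + 1)) ∧
  ∀ j ≤ m, ∀ J l, J.length + l.length = j → v j J l ∈ JA A χ ψ j

/-- the end of a system: its last cocycle is the boundary of a family which vanishes where `vv` is
large -/
def IsEnd (A : Subgroup G) [A.Normal] (t : ℕ → G) (m : ℕ) (ψ : ℕ → G → k) (vv : G → ℝ)
    (v : ℕ → List ℕ → List A → G → k) : Prop :=
  ∃ w : List ℕ → List A → G → k,
    (∀ J l, J.length + l.length = m →
      v m J l = bd (actA A) (actT t) (cjA A t) J l w) ∧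
    ∀ J l, J.length + l.length + 1 = m →
      (∀ a ∈ A, ∀ x, w J l (a * x) = (∏ i ∈ Finset.range m, ψ i a) * w J l x) ∧
      ∃ C : ℝ, ∀ x, C ≤ vv x → w J l x = 0

end

/-- F7: type `FP_m` gives a system with an end -/
def StSysFP : Prop := ∀ {G : Type} [Group G] (A : Subgroup G) [A.Normal],
  (∀ a ∈ A, ∀ b ∈ A, a * b = b * a) → ∀ (S : Submonoid G) (vv : G → ℝ),
  (∀ x g, vv (x * g) = vv x + vv g) → (∀ g, g ∈ S ↔ 0 ≤ vv g) → (∀ a ∈ A, vv a = 0) →
  (∀ C : ℝ, ∃ x, C ≤ vv x) → ∀ {k : Type} [Field k] (m : ℕ) (χ : ℕ → G → ℝ) (ψ f : ℕ → G → k)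
    (t : ℕ → G), 1 ≤ m →
  (∀ i < m, ∀ x g, χ i (x * g) = χ i x + χ i g) →
  (∀ C : ℝ, ∃ C' : ℝ, ∀ x, C' ≤ vv x → ∃ i < m, C ≤ χ i x) →
  (∀ i j, t i * t j = t j * t i) → (∀ j, t j ∈ S) →
  (∀ i < m, ∀ a ∈ A, ∀ b ∈ A, ψ i (a * b) = ψ i a * ψ i b) →
  (∃ a ∈ A, ∏ i ∈ Finset.range m, ψ i a ≠ 1) →
  (∀ i < m, ∀ a ∈ A, ∀ x, f i (a * x) = ψ i a * f i x) →
  (∀ i < m, ∀ g, ∃ C : ℝ, ∀ x, C ≤ χ i x → f i (x * g) = f i x) →
  (∀ i < m, ∀ x, f i x ≠ 0) → IsFP (MonoidAlgebra ℤ S) (Triv S) m →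
  ∃ u v : ℕ → List ℕ → List A → G → k, IsSys A t m χ ψ f u v ∧ IsEnd A t m ψ vv v

/-! ### Chains -/

/-- points of the orthant -/
abbrev Pt : Type := ℕ → ℕ

/-- the shift of a coefficient function in the direction `j` -/
def shiftY {k : Type} [Zero k] (j : ℕ) (φ : Pt → k) : Pt → k :=
  fun y => if y j = 0 then 0 else φ (Function.update y j (y j - 1))

/-- the transposed shift -/
def upY {k : Type} (j : ℕ) (g : Pt → k) : Pt → k := fun y => g (Function.update y j (y j + 1))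

/-- chains with `i` directions: the coefficient functions are functions on the orthant, the basis
consists of the pairs of a decreasing list of directions less than `i` and a list of letters -/
def XX (L k : Type) [Field k] : ℕ → Type
  | 0 => List L →₀ (Pt → k)
  | i + 1 => XX L k i × XX L k i

noncomputable instance instXX (L k : Type) [Field k] : ∀ i, AddCommGroup (XX L k i)
  | 0 => inferInstanceAs (AddCommGroup (List L →₀ (Pt → k)))
  | i + 1 =>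
    letI := instXX L k i
    inferInstanceAs (AddCommGroup (XX L k i × XX L k i))

section

variable {L k : Type} [Field k]

/-- the differential on a list of letters -/
noncomputable def Dl (Ψ : L → Pt → k) : List L → (Pt → k) → (List L →₀ (Pt → k))
  | [], _ => 0
  | a :: l, φ => Finsupp.single l (fun y => (Ψ a y - 1) * φ y) -
      Finsupp.mapDomain (fun l' => a :: l') (Dl Ψ l φ)

/-- the operator which shifts the coefficients and conjugates the letters -/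
noncomputable def tX (cj : ℕ → L → L) (j : ℕ) : ∀ i, XX L k i → XX L k i
  | 0 => fun u => Finsupp.sum (show List L →₀ (Pt → k) from u)
      (fun l φ => Finsupp.single (l.map (cj j)) (shiftY j φ))
  | i + 1 => fun u => (tX cj j i (show XX L k i × XX L k i from u).1,
      tX cj j i (show XX L k i × XX L k i from u).2)

/-- the differential -/
noncomputable def DX (Ψ : L → Pt → k) (cj : ℕ → L → L) : ∀ i, XX L k i → XX L k i
  | 0 => fun u => Finsupp.sum (show List L →₀ (Pt → k) from u) (fun l φ => Dl Ψ l φ)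
  | i + 1 => fun u => (DX Ψ cj i (show XX L k i × XX L k i from u).1 +
      ((show XX L k i × XX L k i from u).2 -
        tX cj i i (show XX L k i × XX L k i from u).2),
      - DX Ψ cj i (show XX L k i × XX L k i from u).2)

/-- the pairing of chains and families of functions -/
noncomputable def prX (Λ : (Pt → k) → k) :
    ∀ i, XX L k i → (List ℕ → List L → Pt → k) → k
  | 0 => fun u c => Finsupp.sum (show List L →₀ (Pt → k) from u)
      (fun l φ => Λ (fun y => φ y * c [] l y))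
  | i + 1 => fun u c => prX Λ i (show XX L k i × XX L k i from u).1 c +
      prX Λ i (show XX L k i × XX L k i from u).2 (fun J l => c (i :: J) l)

/-- chains of degree `n` supported on the faces `y j = 0` with `j ∈ Ls` not a direction -/
def EX : ∀ i, Finset ℕ → ℤ → XX L k i → Prop
  | 0 => fun Ls n u => ∀ l y, (show List L →₀ (Pt → k) from u) l y ≠ 0 →
      (∃ j ∈ Ls, y j = 0) ∧ (l.length : ℤ) = n
  | i + 1 => fun Ls n u => EX i Ls n (show XX L k i × XX L k i from u).1 ∧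
      EX i (Ls.erase i) (n - 1) (show XX L k i × XX L k i from u).2

/-- chains of degree `n` -/
def HX : ∀ i, ℤ → XX L k i → Prop
  | 0 => fun n u => ∀ l, (show List L →₀ (Pt → k) from u) l ≠ 0 → (l.length : ℤ) = n
  | i + 1 => fun n u => HX i n (show XX L k i × XX L k i from u).1 ∧
      HX i (n - 1) (show XX L k i × XX L k i from u).2

end

/-- the basis elements which occur in a chain -/
def suppX {L k : Type} [Field k] : ∀ i, XX L k i → Set (List ℕ × List L)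
  | 0 => fun u => {p | p.1 = [] ∧ (show List L →₀ (Pt → k) from u) p.2 ≠ 0}
  | i + 1 => fun u => suppX i (show XX L k i × XX L k i from u).1 ∪
      (fun p => (i :: p.1, p.2)) '' suppX i (show XX L k i × XX L k i from u).2

/-- sum over the box `y j < N` (`j < i`), `y j = n j` (`j ≥ i`) -/
def sumB {k : Type} [AddCommMonoid k] : ℕ → ℕ → Pt → (Pt → k) → k
  | 0, _, n, g => g n
  | i + 1, N, n, g => ∑ r ∈ Finset.range N, sumB i N (Function.update n i r) g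

/-- C1: the faces of the orthant are acyclic -/
def StAcy : Prop := ∀ (L k : Type) [Field k] (Ψ : L → Pt → k) (cj : ℕ → L → L) (b : ℕ → L)
  (m : ℕ), (∀ j < m, ∀ i < m, ∀ a, cj i (cj j a) = cj j (cj i a)) →
  (∀ j < m, ∀ a y, Ψ (cj j a) (Function.update y j (y j + 1)) = Ψ a y) →
  (∀ j < m, ∀ y : Pt, y j = 0 → Ψ (b j) y ≠ 1) →
  ∀ i ≤ m, ∀ Ls : Finset ℕ, (∀ j ∈ Ls, j < m) → ∀ (n : ℤ) (u : XX L k i), EX i Ls n u →
  DX Ψ cj i u = 0 → ∃ ρ : XX L k i, EX i Ls (n + 1) ρ ∧ DX Ψ cj i ρ = u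

/-- the properties of the fundamental chains -/
def IsEta {L k : Type} [Field k] (Ψ : L → Pt → k) (cj : ℕ → L → L) (m : ℕ)
    (η : ∀ i, XX L k i) : Prop :=
  η 0 = (show XX L k 0 from (Finsupp.single [] (fun _ => 1) : List L →₀ (Pt → k))) ∧
  (∀ i < m, (show XX L k i × XX L k i from η (i + 1)).2 = η i) ∧
  (∀ i ≤ m, DX Ψ cj i (η i) = 0) ∧ ∀ i ≤ m, HX i i (η i)

/-- C2: the fundamental chains -/
def StEta : Prop := ∀ (L k : Type) [Field k] (Ψ : L → Pt → k) (cj : ℕ → L → L) (b : ℕ → L)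
  (m : ℕ), (∀ j < m, ∀ i < m, ∀ a, cj i (cj j a) = cj j (cj i a)) →
  (∀ j < m, ∀ a y, Ψ (cj j a) (Function.update y j (y j + 1)) = Ψ a y) →
  (∀ j < m, ∀ y : Pt, y j = 0 → Ψ (b j) y ≠ 1) → ∃ η : ∀ i, XX L k i, IsEta Ψ cj m η

/-- C3a: sums over boxes -/
def StBox : Prop := ∀ (k : Type) [Field k] (i N : ℕ) (n : Pt),
  (∀ f g : Pt → k, (∀ y : Pt, (∀ j < i, y j < N) → (∀ j ≥ i, y j = n j) → f y = g y) →
    sumB i N n f = sumB i N n g) ∧
  (∀ f g : Pt → k, sumB i N n (f + g) = sumB i N n f + sumB i N n g) ∧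
  (∀ (c : k) (f : Pt → k), sumB i N n (fun y => c * f y) = c * sumB i N n f) ∧
  (∀ (r : ℕ), r < N → ∀ φ g : Pt → k,
    sumB (i + 1) N n (fun y => φ y * (if y i = r then g y else 0)) =
      sumB i N (Function.update n i r) (fun y => φ y * g y)) ∧
  ∀ (r r' : ℕ) (f : Pt → k), sumB i N (Function.update n i r') f =
    sumB i N (Function.update n i r) (fun y => f (Function.update y i r'))

/-- C3b: the pairing only depends on the basis elements which occur -/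
def StPr : Prop := ∀ (L k : Type) [Field k] (i : ℕ) (u : XX L k i),
  (suppX i u).Finite ∧
  (∀ n : ℤ, HX i n u → ∀ p ∈ suppX i u, ((p.1.length + p.2.length : ℕ) : ℤ) = n) ∧
  (∀ p ∈ suppX i u, ∀ j ∈ p.1, j < i) ∧
  (∀ (Λ Λ' : (Pt → k) → k) (c c' : List ℕ → List L → Pt → k),
    (∀ p ∈ suppX i u, ∀ φ : Pt → k, Λ (fun y => φ y * c p.1 p.2 y) =
      Λ' (fun y => φ y * c' p.1 p.2 y)) → prX Λ i u c = prX Λ' i u c') ∧
  ∀ (Λ : (Pt → k) → k), (∀ f g, Λ (f + g) = Λ f + Λ g) →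
    (∀ (a : k) f, Λ (fun y => a * f y) = a * Λ f) →
    (∀ c c' : List ℕ → List L → Pt → k, prX Λ i u (fun J l y => c J l y + c' J l y) =
      prX Λ i u c + prX Λ i u c') ∧
    ∀ (a : k) (c : List ℕ → List L → Pt → k), prX Λ i u (fun J l y => a * c J l y) =
      a * prX Λ i u c

/-- C3: the shift and its transpose -/
def StShiftB : Prop := ∀ (k : Type) [Field k] (i N : ℕ) (n : Pt) (j : ℕ) (φ g : Pt → k), j < i →
  (∀ y : Pt, N ≤ y j → g y = 0) →
  sumB i N n (fun y => shiftY j φ y * g y) = sumB i N n (fun y => φ y * upY j g y)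

/-- C4: the differential and the boundary are adjoint -/
def StAdj : Prop := ∀ (L k : Type) [Field k] (Ψ : L → Pt → k) (cj : ℕ → L → L)
  (Λ : (Pt → k) → k), (∀ f g, Λ (f + g) = Λ f + Λ g) → ∀ (i : ℕ) (u : XX L k i)
  (c : List ℕ → List L → Pt → k),
  (∀ j < i, ∀ φ J l, Λ (fun y => shiftY j φ y * c J l y) = Λ (fun y => φ y * upY j (c J l) y)) →
  prX Λ i (DX Ψ cj i u) c =
    prX Λ i u (fun J l => bd (fun a g y => Ψ a y * g y) (fun j g => upY j g) cj J l c)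

/-- the point `x0 t^y` -/
def pos {G : Type} [Group G] (t : ℕ → G) (x0 : G) (m : ℕ) (y : Pt) : G :=
  x0 * ((List.range m).map (fun j => t j ^ y j)).prod

/-- the character of `A` at the point `pos y` -/
def PsiA {G k : Type} [Group G] [Field k] (A : Subgroup G) (t : ℕ → G) (x0 : G) (m : ℕ)
    (ψ : ℕ → G → k) : A → Pt → k :=
  fun a y => ∏ i ∈ Finset.range m, ψ i (pos t x0 m y * a * (pos t x0 m y)⁻¹)

/-- C5: the points -/
def StPos : Prop := ∀ (G : Type) [Group G] (t : ℕ → G) (x0 : G) (m : ℕ),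
  (∀ i j, t i * t j = t j * t i) →
  (∀ j < m, ∀ y : Pt, pos t x0 m (Function.update y j (y j + 1)) = pos t x0 m y * t j) ∧
  (∀ χ : G → ℝ, (∀ x g, χ (x * g) = χ x + χ g) → ∀ y : Pt,
    χ (pos t x0 m y) = χ x0 + ∑ j ∈ Finset.range m, (y j : ℝ) * χ (t j)) ∧
  ∀ (A : Subgroup G) [A.Normal] (k : Type) [Field k] (ψ : ℕ → G → k),
    (∀ i j a, cjA A t i (cjA A t j a) = cjA A t j (cjA A t i a)) ∧
    ∀ j < m, ∀ a y, PsiA A t x0 m ψ (cjA A t j a) (Function.update y j (y j + 1)) =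
      PsiA A t x0 m ψ a y

/-- C6: systems are stable under translation by `t i` and conjugation -/
def StSysT : Prop := ∀ {G k : Type} [Group G] [Field k] (A : Subgroup G) [A.Normal] (t : ℕ → G)
  (m : ℕ) (χ : ℕ → G → ℝ) (ψ f : ℕ → G → k) (u v : ℕ → List ℕ → List A → G → k) (i : ℕ),
  (∀ a ∈ A, ∀ b ∈ A, a * b = b * a) → (∀ i j, t i * t j = t j * t i) →
  (∀ i < m, ∀ x g, χ i (x * g) = χ i x + χ i g) → IsSys A t m χ ψ f u v →
  IsSys A t m χ ψ (fun j x => f j (x * t i)) (fun j J l x => u j J (l.map (cjA A t i)) (x * t i))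
    (fun j J l x => v j J (l.map (cjA A t i)) (x * t i))

/-- the restriction of a family of functions to the points `pos y`, cut off at `N` in the
directions less than `i` -/
noncomputable def cut {G L k : Type} [Group G] [Field k] (t : ℕ → G) (x0 : G) (m i N : ℕ)
    (c : List ℕ → List L → G → k) : List ℕ → List L → Pt → k :=
  open Classical in fun J l y => if ∀ j < i, y j < N then c J l (pos t x0 m y) else 0

/-- C6b: the boundary of a cut off family -/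
def StCut : Prop := ∀ {G k : Type} [Group G] [Field k] (A : Subgroup G) [A.Normal] (t : ℕ → G)
  (x0 : G) (m : ℕ) (ψ : ℕ → G → k), (∀ i j, t i * t j = t j * t i) →
  ∀ (i N : ℕ) (c : List ℕ → List A → G → k) (J : List ℕ) (l : List A) (y : Pt), i ≤ m →
  (∀ j ∈ J, j < i) → (∀ j < i, y j < N) →
  (∀ p ∈ faces (cjA A t) J l, ∀ a ∈ l, c p.1 p.2 (pos t x0 m y * a) =
    PsiA A t x0 m ψ a y * c p.1 p.2 (pos t x0 m y)) →
  (∀ p ∈ faces (cjA A t) J l, ∀ j ∈ J, ∀ y' : Pt, y' j = N → c p.1 p.2 (pos t x0 m y') = 0) →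
  bd (fun a g y => PsiA A t x0 m ψ a y * g y) (fun j g => upY j g) (cjA A t) J l
    (cut t x0 m i N c) y = bd (actA A) (actT t) (cjA A t) J l c (pos t x0 m y)

/-- C7a: one step of the evaluation -/
def StStep : Prop := ∀ {G k : Type} [Group G] [Field k] (A : Subgroup G) [A.Normal] (t : ℕ → G)
  (x0 : G) (m : ℕ) (χ : ℕ → G → ℝ) (ψ : ℕ → G → k),
  (∀ a ∈ A, ∀ b ∈ A, a * b = b * a) → (∀ i j, t i * t j = t j * t i) →
  (∀ i < m, ∀ x g, χ i (x * g) = χ i x + χ i g) →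
  (∀ i < m, ∀ j < m, i ≠ j → χ i (t j) = 0) → (∀ i < m, 0 < χ i (t i)) →
  (∀ i < m, ∀ a ∈ A, ∃ C : ℝ, ∀ x, C ≤ χ i x → ψ i (x * a * x⁻¹) = 1) →
  ∀ η : ∀ i, XX A k i, IsEta (PsiA A t x0 m ψ) (cjA A t) m η →
  ∀ i < m, ∀ (f : ℕ → G → k) (u v : ℕ → List ℕ → List A → G → k),
  IsSys A t (i + 1) χ ψ f u v →
  ∃ N0 : ℕ, ∀ N ≥ N0, ∀ n : Pt, (∀ j, i + 1 ≤ j → j < m → N0 ≤ n j) → ∃ c : k, c ≠ 0 ∧
    prX (sumB (i + 1) N n) (i + 1) (η (i + 1)) (fun J l y => v (i + 1) J l (pos t x0 m y)) =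
      c * prX (sumB i N (Function.update n i (N - 1))) i (η i)
        (fun J l y => v i J (l.map (cjA A t i)) (pos t x0 m y * t i))

/-- C7: evaluation of the last cocycle of a system on the fundamental chain -/
def StEv : Prop := ∀ {G k : Type} [Group G] [Field k] (A : Subgroup G) [A.Normal] (t : ℕ → G)
  (x0 : G) (m : ℕ) (χ : ℕ → G → ℝ) (ψ : ℕ → G → k),
  (∀ a ∈ A, ∀ b ∈ A, a * b = b * a) → (∀ i j, t i * t j = t j * t i) →
  (∀ i < m, ∀ x g, χ i (x * g) = χ i x + χ i g) →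
  (∀ i < m, ∀ j < m, i ≠ j → χ i (t j) = 0) → (∀ i < m, 0 < χ i (t i)) →
  (∀ i < m, ∀ a ∈ A, ∃ C : ℝ, ∀ x, C ≤ χ i x → ψ i (x * a * x⁻¹) = 1) →
  ∀ η : ∀ i, XX A k i, IsEta (PsiA A t x0 m ψ) (cjA A t) m η →
  ∀ i ≤ m, ∀ (f : ℕ → G → k) (u v : ℕ → List ℕ → List A → G → k), IsSys A t i χ ψ f u v →
  ∃ N0 : ℕ, ∀ N ≥ N0, ∀ n : Pt, (∀ j, i ≤ j → j < m → N0 ≤ n j) →
    prX (sumB i N n) i (η i) (fun J l y => v i J l (pos t x0 m y)) ≠ 0

/-- C8: there is no system with an end -/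
def StComb : Prop := ∀ {G k : Type} [Group G] [Field k] (A : Subgroup G) [A.Normal] (t : ℕ → G)
  (x0 : G) (b : ℕ → A) (m : ℕ) (χ : ℕ → G → ℝ) (ψ f : ℕ → G → k) (vv : G → ℝ)
  (u v : ℕ → List ℕ → List A → G → k), 1 ≤ m →
  (∀ a ∈ A, ∀ b ∈ A, a * b = b * a) → (∀ i j, t i * t j = t j * t i) →
  (∀ i < m, ∀ x g, χ i (x * g) = χ i x + χ i g) → (∀ x g, vv (x * g) = vv x + vv g) →
  (∀ i < m, ∀ j < m, i ≠ j → χ i (t j) = 0) → (∀ i < m, 0 < χ i (t i)) →
  (∀ i < m, 0 < vv (t i)) →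
  (∀ j < m, ∀ y : Pt, y j = 0 → PsiA A t x0 m ψ (b j) y ≠ 1) →
  IsSys A t m χ ψ f u v → IsEnd A t m ψ vv v → False

/-! ### The data -/

/-- D0a: finitely generated modules over finitely generated commutative rings have finite
quotients -/
def StFQ : Prop := ∀ (R M : Type) [CommRing R] [Algebra.FiniteType ℤ R] [AddCommGroup M]
  [Module R M] [Module.Finite R M] [Nontrivial M], ∃ W : Submodule R M, W ≠ ⊤ ∧ Finite (M ⧸ W)

/-- D0b: characters of abelian groups -/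
def StChr : Prop := ∀ (M : Type) [AddCommGroup M] (x : M), x ≠ 0 →
  ∃ c : M → ℂ, (∀ a b, c (a + b) = c a * c b) ∧ (∀ a, c a ≠ 0) ∧ c x ≠ 1

/-- D1: a subgroup with a finite quotient -/
def StFin : Prop := ∀ (G : Type) [Group G] [Group.FG G], Metab G → ∀ χ : Additive G →+ ℝ,
  (∀ g, ∃ z : ℤ, χ g = z) → ∀ V : Finset G, (∀ v ∈ V, v ∈ commutator G) → ∀ t : G,
  0 < χ (Additive.ofMul t) → (∃ a ∈ commutator G, a ∉ Gen G χ V) →
  (∀ a ∈ commutator G, ∃ N : ℕ, t ^ N * a * (t ^ N)⁻¹ ∈ Gen G χ V) →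
  ∃ (W : Subgroup G) (b : G) (q : ℕ), Gen G χ V ≤ W ∧ W ≤ commutator G ∧
    (∀ g, χ (Additive.ofMul g) = 0 → ∀ w ∈ W, g * w * g⁻¹ ∈ W) ∧ b ∈ commutator G ∧ b ∉ W ∧
    1 ≤ q ∧ ∀ g, χ (Additive.ofMul g) = 0 → g ^ q * b * (g ^ q)⁻¹ * b⁻¹ ∈ W

/-- the data for one character -/
def OneData (G : Type) [Group G] (χ : Additive G →+ ℝ) (t : G) (U : Subgroup G) (ψ f : G → ℂ)
    (b : G) (q : ℕ) : Prop :=
  (∀ g, 0 ≤ χ (Additive.ofMul g) → ∀ a ∈ U, g * a * g⁻¹ ∈ U) ∧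
  (∀ a ∈ commutator G, ∃ N0 : ℕ, ∀ N ≥ N0, t ^ N * a * (t ^ N)⁻¹ ∈ U) ∧
  (∀ a ∈ U, ψ a = 1) ∧
  (∀ a ∈ commutator G, ∀ a' ∈ commutator G, ψ (a * a') = ψ a * ψ a') ∧
  (∀ a ∈ commutator G, ∀ x, f (a * x) = ψ a * f x) ∧
  (∀ g, ∃ C : ℝ, ∀ x, C ≤ χ (Additive.ofMul x) → f (x * g) = f x) ∧ (∀ x, f x ≠ 0) ∧
  b ∈ commutator G ∧ ψ b ≠ 1 ∧ 1 ≤ q ∧
  ∀ g ∈ Subgroup.closure {h : G | ∃ h' : G, χ (Additive.ofMul h') = 0 ∧ h = h' ^ q},
    ψ (g * b * g⁻¹) = ψ b

/-- D2: the data for one character exist -/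
def StOne : Prop := ∀ (G : Type) [Group G] [Group.FG G], Metab G → ∀ χ ∈ SigC G 1,
  (∀ g, ∃ z : ℤ, χ g = z) → ∀ t : G, 0 < χ (Additive.ofMul t) →
  ∃ (U : Subgroup G) (ψ f : G → ℂ) (b : G) (q : ℕ), OneData G χ t U ψ f b q

/-- D3: the data for several characters -/
def StData : Prop := ∀ (G : Type) [Group G] [Group.FG G], Metab G → ∀ (m : ℕ)
  (X : ℕ → (Additive G →+ ℝ)) (t : ℕ → G), (∀ i < m, X i ∈ SigC G 1) →
  (∀ i < m, ∀ g, ∃ z : ℤ, X i g = z) → (∀ i j, t i * t j = t j * t i) →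
  (∀ i < m, ∀ j < m, i ≠ j → X i (Additive.ofMul (t j)) = 0) →
  (∀ i < m, 0 < X i (Additive.ofMul (t i))) →
  ∃ (e : ℕ) (x0 : G) (b : ℕ → commutator G) (ψ f : ℕ → G → ℂ), 1 ≤ e ∧
    (∀ i < m, ∀ a ∈ commutator G, ∀ a' ∈ commutator G, ψ i (a * a') = ψ i a * ψ i a') ∧
    (∀ i < m, ∀ a ∈ commutator G, ∀ x, f i (a * x) = ψ i a * f i x) ∧
    (∀ i < m, ∀ g, ∃ C : ℝ, ∀ x, C ≤ X i (Additive.ofMul x) → f i (x * g) = f i x) ∧
    (∀ i < m, ∀ x, f i x ≠ 0) ∧
    ∀ j < m, ∀ y : Pt, y j = 0 →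
      PsiA (commutator G) (fun i => t i ^ e) x0 m ψ (b j) y ≠ 1

/-- D4: commuting elements dual to the characters -/
def StTs : Prop := ∀ (G : Type) [Group G] (A B : Subgroup G) [A.Normal],
  (∀ a ∈ B, ∀ b ∈ B, a * b = b * a) → (A ⊔ B).FiniteIndex → ∀ (n : ℕ)
  (X : ℕ → (Additive G →+ ℝ)), (∀ i < n, ∀ g, ∃ z : ℤ, X i g = z) →
  (∀ i < n, ∀ a ∈ A, X i (Additive.ofMul a) = 0) → LinearIndependent ℝ (fun i : Fin n => X i) →
  ∃ t : ℕ → G, (∀ i j, t i * t j = t j * t i) ∧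
    (∀ i < n, ∀ j < n, i ≠ j → X i (Additive.ofMul (t j)) = 0) ∧
    ∀ i < n, 0 < X i (Additive.ofMul (t i))

/-- D5: the characters in the complement of `Σ^1` vanish on abelian subgroups which contain the
derived group -/
def StVan : Prop := ∀ (G : Type) [Group G] [Group.FG G] (A : Subgroup G),
  (∀ a ∈ A, ∀ b ∈ A, a * b = b * a) → commutator G ≤ A → ∀ χ ∈ SigC G 1, ∀ a ∈ A,
  χ (Additive.ofMul a) = 0

/-! ### The result -/

/-- E1: sums of characters with dual commuting elements -/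
def StSumSP : Prop := ∀ (G : Type) [Group G] [Group.FG G], Metab G → ∀ (n : ℕ)
  (X : ℕ → (Additive G →+ ℝ)) (c : ℕ → ℝ) (t : ℕ → G) (v : Additive G →+ ℝ), 1 ≤ n →
  (∀ i < n, X i ∈ SigC G 1) → (∀ i < n, ∀ g, ∃ z : ℤ, X i g = z) → (∀ i < n, 0 < c i) →
  (∀ i j, t i * t j = t j * t i) →
  (∀ i < n, ∀ j < n, i ≠ j → X i (Additive.ofMul (t j)) = 0) →
  (∀ i < n, 0 < X i (Additive.ofMul (t i))) → v = ∑ i ∈ Finset.range n, c i • X i →
    ¬ IsFP (MonoidAlgebra ℤ (Gmon v)) (Triv (Gmon v)) n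

/-- E2: the theorem -/
def StMainSP : Prop := ∀ (m : ℕ) (G : Type) [Group G] [Group.FG G], 1 ≤ m → ∀ A B : Subgroup G,
  (∀ a ∈ A, ∀ b ∈ A, a * b = b * a) → commutator G ≤ A → (∀ a ∈ B, ∀ b ∈ B, a * b = b * a) →
  (A ⊔ B).FiniteIndex →
    ConvLE G m {χ | χ ∈ SigC G 1 ∧ ∀ g, ∃ z : ℤ, χ g = z} ⊆ SigC G m

end Pool.Agent.Work.MP_e9e200_al.SP

end
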