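import Pool.Agent.Work.MP_e9e200_al.Bd.B01
import Pool.Agent.Work.MP_e9e200_al.Bd.B05
import Pool.Agent.Work.MP_e9e200_al.Stmts3

/-! Bundle of small proof modules (one section per former module). -/

section

/-! Project MP_e9e200_al: the main lemma of the mixed theorem. -/

set_option autoImplicit false

namespace Pool.Agent.Work.MP_e9e200_al

namespace Cor2

open Cor

theorem auxG (h1 : StUnshift) (h3 : StTwist) (h4 : StKos) {G : Type} [Group G] (A : Subgroup G)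
    [A.Normal] (hab : ∀ a ∈ A, ∀ b ∈ A, a * b = b * a) (S : Submonoid G)
    (hAS : ∀ a ∈ A, a ∈ S) {k : Type} [Field k] (m : ℕ) (χ : ℕ → G → ℝ) (y Y : ℕ → G → k)
    (b : ℕ → A) (hχ : ∀ i < m, ∀ x g, χ i (x * g) = χ i x + χ i g)
    (hY1 : ∀ i < m, ∀ a ∈ A, ∀ x, Y i (a * x) = y i a + Y i x)
    (hY2 : ∀ i < m, ∀ g, ∃ C : ℝ, ∀ x, C ≤ χ i x → Y i (x * g) = Y i x)
    (hy0 : ∀ i < m, ∀ j < i, y i (b j) = 0) (hy1 : ∀ i < m, y i (b i) ≠ 0) (d : ℕ)
    (hbase : ∀ (K : Type) [AddCommGroup K] [Module (MonoidAlgebra ℤ S) K],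
      IsFP (MonoidAlgebra ℤ S) K d → ∀ (v : K →+ (G → k)) (z : (Fin m → A) → K),
      (∀ (s : S) (p : K) (x : G), v (MonoidAlgebra.of ℤ S s • p) x = v p (x * s)) →
      (∀ p, v p ∈ J A χ m) →
      (∀ c : Fin (m + 1) → A, ∑ j : Fin (m + 1),
        (-1 : ℤ) ^ (j : ℕ) • (e A hAS (c j) • z (fun l => c (j.succAbove l))) = 0) →
      (∀ x : G, v (z (fun l => cj A x (b l))) x ≠ 0) → False) :
    ∀ (j i : ℕ), i + j = m → ∀ (K : Type) [AddCommGroup K] [Module (MonoidAlgebra ℤ S) K],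
      IsFP (MonoidAlgebra ℤ S) K (j + d) → ∀ (v : K →+ (G → k)) (z : (Fin i → A) → K),
      (∀ (s : S) (p : K) (x : G), v (MonoidAlgebra.of ℤ S s • p) x = v p (x * s)) →
      (∀ p, v p ∈ J A χ i) →
      (∀ c : Fin (i + 1) → A, ∑ j : Fin (i + 1),
        (-1 : ℤ) ^ (j : ℕ) • (e A hAS (c j) • z (fun l => c (j.succAbove l))) = 0) →
      (∀ x : G, v (z (fun l => cj A x (b l))) x ≠ 0) → False := by
  intro j
  induction j with
  | zero =>
    intro i hi K _ _ hK v z hv hJ hz hne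
    rw [zero_add] at hK
    rw [add_zero] at hi
    subst hi
    exact hbase K hK v z hv hJ hz hne
  | succ j ih =>
    intro i hi K _ _ hK v z hv hJ hz hne
    have hjd : j + 1 + d = (j + d) + 1 := by omega
    rw [hjd] at hK
    have him : i < m := by omega
    obtain ⟨F, f, hFp, _, hfs, hker⟩ := (h1 _ K (j + d)).2 hK
    -- the twisted lift
    let v' : F →+ (G → k) := v.comp f.toAddMonoidHom
    have hv'd : ∀ p, v' p = v (f p) := fun p => rfl
    let δ : S → G → k := fun s x => Y i (x * s) - Y i x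
    have hδa : ∀ (s : S) (a : G), a ∈ A → ∀ x, δ s (x * a) = δ s x := by
      intro s a ha x
      have h5 : x * a = (x * a * x⁻¹) * x := by group
      have h6 : x * a * x⁻¹ ∈ A := (inferInstance : A.Normal).conj_mem a ha x
      show Y i (x * a * s) - Y i (x * a) = Y i (x * s) - Y i x
      rw [h5, mul_assoc (x * a * x⁻¹) x (s : G), hY1 i him _ h6, hY1 i him _ h6]
      ring
    obtain ⟨u, hu, huJ⟩ := h3 S F hFp v' δ (J A χ (i + 1)) (by
        intro s p x
        rw [hv'd, hv'd, map_smul, hv]) (by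
        intro s t x
        show Y i (x * ((s * t : S) : G)) - Y i x = _
        rw [Submonoid.coe_mul, ← mul_assoc]
        show _ = (Y i (x * s) - Y i x) + (Y i (x * s * t) - Y i (x * s))
        ring) (by
        intro s p
        obtain ⟨ha, C, hC⟩ := hJ (f p)
        obtain ⟨C', hC'⟩ := hY2 i him s
        refine ⟨fun a haA x => ?_, max C' (C + ∑ l ∈ Finset.range m, |χ l s|), ?_⟩
        · have h5 : x * a * s = x * s * ((s : G)⁻¹ * a * s) := by group
          have h6 : (s : G)⁻¹ * a * s ∈ A := by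
            simpa using (inferInstance : A.Normal).conj_mem a haA (s : G)⁻¹
          show δ s (x * a) * v (f p) (x * a * s) = δ s x * v (f p) (x * s)
          rw [hδa s a haA x, h5, ha _ h6]
        · rintro x ⟨l, hl, hx⟩
          show δ s x * v (f p) (x * s) = 0
          rcases Nat.lt_succ_iff_lt_or_eq.mp hl with hl | rfl
          · have h5 : |χ l s| ≤ ∑ l ∈ Finset.range m, |χ l s| :=
              Finset.single_le_sum (f := fun l => |χ l s|) (fun _ _ => abs_nonneg _)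
                (Finset.mem_range.mpr (by omega))
            have h6 := (le_max_right C' (C + ∑ l ∈ Finset.range m, |χ l s|)).trans hx
            have h7 := neg_abs_le (χ l s)
            rw [hC (x * s) ⟨l, hl, by rw [hχ l (by omega)]; linarith⟩, mul_zero]
          · have h6 := (le_max_left C' (C + ∑ l ∈ Finset.range m, |χ l s|)).trans hx
            have h7 : δ s x = 0 := by
              show Y l (x * s) - Y l x = 0
              rw [hC' x h6, sub_self]
            rw [h7, zero_mul])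
    obtain ⟨κ, z', hκ, hz', hz''⟩ := h4 (MonoidAlgebra ℤ S) A (e A hAS)
      (e_comm A hab hAS) F K f hfs i z hz
    refine ih (i + 1) (by omega) (LinearMap.ker f) hker
      (u.comp (LinearMap.ker f).subtype.toAddMonoidHom) z' ?_ ?_ hz'' ?_
    · intro s p x
      show u (MonoidAlgebra.of ℤ S s • (p : F)) x = u (p : F) (x * s)
      rw [hu, hv'd, LinearMap.mem_ker.mp p.2, map_zero]
      simp
    · intro p
      exact huJ _
    · intro x
      show u (z' (fun l => cj A x (b l)) : F) x ≠ 0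
      have key : ∀ (a : A) (p : F), u (e A hAS (cj A x a) • p) x = y i a * v (f p) x := by
        intro a p
        obtain ⟨hua, -⟩ := huJ p
        obtain ⟨hva, -⟩ := hJ (f p)
        have h5 : x * (cj A x a : G) = a * x := by
          show x * (x⁻¹ * a * x) = a * x
          group
        unfold e
        rw [sub_smul, one_smul, map_sub, Pi.sub_apply, hu]
        show u p (x * (cj A x a : G)) + (Y i (x * (cj A x a : G)) - Y i x) *
          v' p (x * (cj A x a : G)) - u p x = _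
        rw [hua _ (cj A x a).2, hv'd, hva _ (cj A x a).2, h5, hY1 i him _ a.2]
        ring
      rw [hz', map_sum, Finset.sum_apply, Fin.sum_univ_castSucc, Finset.sum_eq_zero, zero_add]
      · rw [map_zsmul, Pi.smul_apply, key, hκ]
        have h6 : (fun l : Fin i => cj A x (b ((Fin.last i).succAbove l : Fin (i + 1)))) =
            fun l : Fin i => cj A x (b l) := by
          funext l
          rw [Fin.succAbove_last, Fin.val_castSucc]
        rw [h6, Fin.val_last]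
        have h7 := hne x
        have h8 := hy1 i him
        rcases Nat.even_or_odd i with h9 | h9
        · rw [h9.neg_one_pow, one_smul]
          exact mul_ne_zero h8 h7
        · rw [h9.neg_one_pow, neg_smul, one_smul]
          exact neg_ne_zero.mpr (mul_ne_zero h8 h7)
      · intro l _
        rw [map_zsmul, Pi.smul_apply, key, Fin.val_castSucc, hy0 i him l l.2, zero_mul, smul_zero]

section

variable {G : Type} [Group G] (A : Subgroup G) {k : Type} [Field k] {M : Type} [AddCommGroup M]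
  (χ : ℕ → G → ℝ) (ym : G → M)

/-- translation by an element of `M` -/
noncomputable def tr (k : Type) [Field k] {M : Type} [AddCommGroup M] (a : M) :
    (M →₀ k) →ₗ[k] (M →₀ k) :=
  Finsupp.lmapDomain k k (fun t => a + t)

theorem tr_single (a t : M) (c : k) : tr k a (Finsupp.single t c) = Finsupp.single (a + t) c := by
  unfold tr
  rw [Finsupp.lmapDomain_apply, Finsupp.mapDomain_single]

theorem tr_zero (n : M →₀ k) : tr k 0 n = n := by
  unfold tr
  have h : (fun t : M => 0 + t) = id := by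
    funext t
    simp
  rw [Finsupp.lmapDomain_apply, h, Finsupp.mapDomain_id]

theorem tr_apply (a t : M) (n : M →₀ k) : tr k a n (a + t) = n t := by
  unfold tr
  rw [Finsupp.lmapDomain_apply]
  exact Finsupp.mapDomain_apply (add_right_injective a) n t

/-- the sum of the coefficients -/
noncomputable def ag (k : Type) [Field k] (M : Type) [AddCommGroup M] : (M →₀ k) →ₗ[k] k :=
  Finsupp.linearCombination k (fun _ => (1 : k))

theorem ag_single (t : M) (c : k) : ag k M (Finsupp.single t c) = c := by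
  unfold ag
  rw [Finsupp.linearCombination_single, smul_eq_mul, mul_one]

theorem ag_tr (a : M) (n : M →₀ k) : ag k M (tr k a n) = ag k M n := by
  induction n using Finsupp.induction_linear with
  | zero => rw [map_zero]
  | add f g hf hg => rw [map_add, map_add, map_add, hf, hg]
  | single t c => rw [tr_single, ag_single, ag_single]

/-- no nonzero element is invariant under infinitely many translations -/
theorem inv_zero (n : M →₀ k) (T : Set M) (hT : T.Infinite) (h : ∀ a ∈ T, tr k a n = n) :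
    n = 0 := by
  by_contra hn
  obtain ⟨t, ht⟩ := Finsupp.support_nonempty_iff.mpr hn
  apply hT
  refine Set.Finite.subset ((n.support : Set M).toFinite.image (fun s => s - t)) ?_
  intro a ha
  refine ⟨a + t, ?_, by simp⟩
  have h1 : n (a + t) = n t := by
    conv_lhs => rw [← h a ha]
    exact tr_apply a t n
  show a + t ∈ n.support
  rw [Finsupp.mem_support_iff, h1]
  exact Finsupp.mem_support_iff.mp ht

/-- functions with values in the group algebra of `M` -/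
def J2 (m : ℕ) : AddSubgroup (G → (M →₀ k)) where
  carrier := {f | (∀ a ∈ A, ∀ x, f (a * x) = tr k (ym a) (f x)) ∧ (∀ x, ag k M (f x) = 0) ∧
    ∃ C : ℝ, ∀ x, (∃ j ≤ m, C ≤ χ j x) → f x = 0}
  zero_mem' := ⟨fun _ _ _ => (map_zero _).symm, fun _ => map_zero _, 0, fun _ _ => rfl⟩
  add_mem' := by
    rintro f g ⟨hf1, hf3, C, hf2⟩ ⟨hg1, hg3, D, hg2⟩
    refine ⟨fun a ha x => by simp [hf1 a ha x, hg1 a ha x], fun x => by simp [hf3 x, hg3 x],
      max C D, ?_⟩
    rintro x ⟨j, hj, hx⟩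
    simp [hf2 x ⟨j, hj, (le_max_left _ _).trans hx⟩, hg2 x ⟨j, hj, (le_max_right _ _).trans hx⟩]
  neg_mem' := by
    rintro f ⟨hf1, hf3, C, hf2⟩
    exact ⟨fun a ha x => by simp [hf1 a ha x], fun x => by simp [hf3 x], C,
      fun x hx => by simp [hf2 x hx]⟩

variable {S : Submonoid G}

theorem smul_good2 {K N : Type} [AddCommGroup K] [Module (MonoidAlgebra ℤ S) K] [AddCommGroup N]
    (v : K →+ (G → N)) (hv : ∀ (s : S) (p : K) (x : G),
      v (MonoidAlgebra.of ℤ S s • p) x = v p (x * s)) (P : G → Prop)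
    (hP : ∀ (s : S) (x : G), P x → P (x * s)) (p : K) (hp : ∀ x, P x → v p x = 0)
    (r : MonoidAlgebra ℤ S) : ∀ x, P x → v (r • p) x = 0 := by
  induction r using MonoidAlgebra.induction_on with
  | of s =>
    intro x hx
    have h := hv s p x
    rw [h]
    exact hp _ (hP s x hx)
  | add r r' h h' =>
    intro x hx
    rw [add_smul, map_add, Pi.add_apply, h x hx, h' x hx, add_zero]
  | smul n r h =>
    intro x hx
    rw [smul_assoc, map_zsmul, Pi.smul_apply, h x hx, smul_zero]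

end

theorem fin (h1 : StUnshift) (h3 : StTwist2) (h4 : StKos) {G : Type} [Group G] (A : Subgroup G)
    [A.Normal] (hab : ∀ a ∈ A, ∀ b ∈ A, a * b = b * a) (S : Submonoid G)
    (hAS : ∀ a ∈ A, a ∈ S) {k : Type} [Field k] {M : Type} [AddCommGroup M] (m : ℕ)
    (χ : ℕ → G → ℝ) (ym Ym : G → M) (b : ℕ → A)
    (hχ : ∀ i ≤ m, ∀ x g, χ i (x * g) = χ i x + χ i g)
    (hS : ∀ s ∈ S, 0 ≤ ∑ i ∈ Finset.range (m + 1), χ i s)
    (hub : ∀ C : ℝ, ∃ x, C ≤ ∑ i ∈ Finset.range (m + 1), χ i x)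
    (hM1 : ∀ a ∈ A, ∀ x, Ym (a * x) = ym a + Ym x)
    (hM2 : ∀ g, ∃ C : ℝ, ∀ x, C ≤ χ m x → Ym (x * g) = Ym x)
    (hinf : (ym '' (A : Set G)).Infinite) (hym : ∀ i < m, ym (b i) = 0)
    (K : Type) [AddCommGroup K] [Module (MonoidAlgebra ℤ S) K]
    (hK : IsFP (MonoidAlgebra ℤ S) K 1) (v : K →+ (G → k)) (z : (Fin m → A) → K)
    (hv : ∀ (s : S) (p : K) (x : G), v (MonoidAlgebra.of ℤ S s • p) x = v p (x * s))
    (hJ : ∀ p, v p ∈ J A χ m)
    (hz : ∀ c : Fin (m + 1) → A, ∑ j : Fin (m + 1),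
        (-1 : ℤ) ^ (j : ℕ) • (e A hAS (c j) • z (fun l => c (j.succAbove l))) = 0)
    (hne : ∀ x : G, v (z (fun l => cj A x (b l))) x ≠ 0) : False := by
  obtain ⟨F, f, hFp, _, hfs, hker⟩ := (h1 _ K 0).2 hK
  obtain ⟨T, hT⟩ := ((h1 _ _ 0).1 hker).fg_top
  -- the twisted lift
  let v' : F →+ (G → k) := v.comp f.toAddMonoidHom
  have hv'd : ∀ p, v' p = v (f p) := fun p => rfl
  let δ : S → G → (M →₀ k) := fun s x =>
    Finsupp.single (Ym (x * s)) 1 - Finsupp.single (Ym x) 1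
  have hva : ∀ (p : K), ∀ a ∈ A, ∀ x, v p (a * x) = v p x := by
    intro p a ha x
    have h5 : a * x = x * (x⁻¹ * a * x) := by group
    have h6 : x⁻¹ * a * x ∈ A := by
      simpa using (inferInstance : A.Normal).conj_mem a ha x⁻¹
    rw [h5, (hJ p).1 _ h6]
  obtain ⟨u, hu, huJ⟩ := h3 S F hFp v' δ (J2 A χ ym m) (by
      intro s p x
      rw [hv'd, hv'd, map_smul, hv]) (by
      intro s t x
      show Finsupp.single (Ym (x * ((s * t : S) : G))) (1 : k) - Finsupp.single (Ym x) 1 = _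
      rw [Submonoid.coe_mul, ← mul_assoc]
      show _ = (Finsupp.single (Ym (x * s)) (1 : k) - Finsupp.single (Ym x) 1) +
        (Finsupp.single (Ym (x * s * t)) (1 : k) - Finsupp.single (Ym (x * s)) 1)
      abel) (by
      intro s p
      obtain ⟨ha, C, hC⟩ := hJ (f p)
      obtain ⟨C', hC'⟩ := hM2 s
      refine ⟨fun a haA x => ?_, fun x => ?_, max C' (C + ∑ l ∈ Finset.range m, |χ l s|), ?_⟩
      · show v (f p) (a * x * s) •
            (Finsupp.single (Ym (a * x * s)) (1 : k) - Finsupp.single (Ym (a * x)) 1) =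
          tr k (ym a) (v (f p) (x * s) •
            (Finsupp.single (Ym (x * s)) (1 : k) - Finsupp.single (Ym x) 1))
        rw [mul_assoc a x (s : G), hva _ a haA, hM1 a haA, hM1 a haA, map_smul, map_sub,
          tr_single, tr_single]
      · show ag k M (v (f p) (x * s) •
            (Finsupp.single (Ym (x * s)) (1 : k) - Finsupp.single (Ym x) 1)) = 0
        rw [map_smul, map_sub, ag_single, ag_single, sub_self, smul_zero]
      · rintro x ⟨l, hl, hx⟩
        show v (f p) (x * s) • δ s x = 0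
        rcases Nat.lt_or_eq_of_le hl with hl | rfl
        · have h5 : |χ l s| ≤ ∑ l ∈ Finset.range m, |χ l s| :=
            Finset.single_le_sum (f := fun l => |χ l s|) (fun _ _ => abs_nonneg _)
              (Finset.mem_range.mpr (by omega))
          have h6 := (le_max_right C' (C + ∑ l ∈ Finset.range m, |χ l s|)).trans hx
          have h7 := neg_abs_le (χ l s)
          rw [hC (x * s) ⟨l, hl, by rw [hχ l (by omega)]; linarith⟩, zero_smul]
        · have h6 := (le_max_left C' (C + ∑ l ∈ Finset.range l, |χ l s|)).trans hx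
          have h7 : δ s x = 0 := by
            show Finsupp.single (Ym (x * s)) (1 : k) - Finsupp.single (Ym x) 1 = 0
            rw [hC' x h6, sub_self]
          rw [h7, smul_zero])
  obtain ⟨κ, z', hκ, hz', -⟩ := h4 (MonoidAlgebra ℤ S) A (e A hAS)
    (e_comm A hab hAS) F K f hfs m z hz
  -- vanishing on the kernel
  let uk : LinearMap.ker f →+ (G → (M →₀ k)) := u.comp (LinearMap.ker f).subtype.toAddMonoidHom
  have huk : ∀ (s : S) (p : LinearMap.ker f) (x : G),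
      uk (MonoidAlgebra.of ℤ S s • p) x = uk p (x * s) := by
    intro s p x
    show u (MonoidAlgebra.of ℤ S s • (p : F)) x = u (p : F) (x * s)
    rw [hu, hv'd, LinearMap.mem_ker.mp p.2, map_zero]
    simp
  classical
  choose! C hC using fun t : LinearMap.ker f => (huJ t).2.2
  obtain ⟨D, hD⟩ := (T.image C).exists_le
  obtain ⟨x, hx⟩ := hub ((m + 1 : ℕ) * D)
  have hall : ∀ p ∈ Submodule.span (MonoidAlgebra ℤ S) (T : Set (LinearMap.ker f)),
      ∀ x, (m + 1 : ℕ) * D ≤ ∑ l ∈ Finset.range (m + 1), χ l x → uk p x = 0 := by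
    intro p hp
    induction hp using Submodule.span_induction with
    | mem t ht =>
      intro x hx
      refine hC t x ?_
      by_contra hcon
      push Not at hcon
      have h5 : ∑ l ∈ Finset.range (m + 1), χ l x < ∑ l ∈ Finset.range (m + 1), D := by
        refine Finset.sum_lt_sum_of_nonempty (Finset.nonempty_range_iff.mpr (by omega)) ?_
        intro l hl
        exact (hcon l (Nat.lt_succ_iff.mp (Finset.mem_range.mp hl))).trans_le
          (hD _ (Finset.mem_image_of_mem C ht))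
      rw [Finset.sum_const, Finset.card_range, nsmul_eq_mul] at h5
      exact absurd hx (not_le.mpr h5)
    | zero => intro x _; simp
    | add p q _ _ hp hq => intro x hx; rw [map_add, Pi.add_apply, hp x hx, hq x hx, add_zero]
    | smul r p _ hp =>
      refine smul_good2 uk huk
        (fun x => (m + 1 : ℕ) * D ≤ ∑ l ∈ Finset.range (m + 1), χ l x) ?_ p hp r
      intro s x hx
      have h6 : ∑ l ∈ Finset.range (m + 1), χ l (x * s) =
          ∑ l ∈ Finset.range (m + 1), χ l x + ∑ l ∈ Finset.range (m + 1), χ l s := by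
        rw [← Finset.sum_add_distrib]
        exact Finset.sum_congr rfl fun l hl =>
          hχ l (Nat.lt_succ_iff.mp (Finset.mem_range.mp hl)) x s
      show (m + 1 : ℕ) * D ≤ ∑ l ∈ Finset.range (m + 1), χ l (x * s)
      rw [h6]
      linarith [hS s s.2]
  have hker0 : ∀ p : LinearMap.ker f, uk p x = 0 := fun p => hall p (by rw [hT]; trivial) x hx
  -- the equivariant function
  let ν : F → (M →₀ k) := fun p => u p x + v (f p) x • Finsupp.single (Ym x) 1
  have key : ∀ (a : A) (p : F), u (e A hAS (cj A x a) • p) x = tr k (ym a) (ν p) - ν p := by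
    intro a p
    have h5 : x * (cj A x a : G) = a * x := by
      show x * (x⁻¹ * a * x) = a * x
      group
    have h6 : u (e A hAS (cj A x a) • p) x = u p (a * x) +
        v (f p) (a * x) • (Finsupp.single (Ym (a * x)) (1 : k) - Finsupp.single (Ym x) 1) -
        u p x := by
      unfold e
      rw [sub_smul, one_smul, map_sub, Pi.sub_apply, hu]
      show u p (x * (cj A x a : G)) + v (f p) (x * (cj A x a : G)) •
        (Finsupp.single (Ym (x * (cj A x a : G))) (1 : k) - Finsupp.single (Ym x) 1) - u p x = _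
      rw [h5]
    rw [h6, (huJ p).1 _ a.2, hva _ _ a.2, hM1 _ a.2]
    show tr k (ym a) (u p x) + v (f p) x •
        (Finsupp.single (ym a + Ym x) (1 : k) - Finsupp.single (Ym x) 1) - u p x =
      tr k (ym a) (u p x + v (f p) x • Finsupp.single (Ym x) 1) -
        (u p x + v (f p) x • Finsupp.single (Ym x) 1)
    rw [map_add, map_smul, tr_single, smul_sub]
    abel
  have hinv : ∀ a ∈ ym '' (A : Set G), tr k a (ν (κ (fun l => cj A x (b l)))) =
      ν (κ (fun l => cj A x (b l))) := by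
    rintro _ ⟨a, ha, rfl⟩
    have h7 := hker0 (z' (fun l : Fin (m + 1) =>
      cj A x (if (l : ℕ) < m then b l else ⟨a, ha⟩)))
    have h8 : u (z' (fun l : Fin (m + 1) =>
      cj A x (if (l : ℕ) < m then b l else ⟨a, ha⟩)) : F) x = 0 := h7
    rw [hz', map_sum, Finset.sum_apply, Fin.sum_univ_castSucc, Finset.sum_eq_zero,
      zero_add] at h8
    · have h9 : (fun l : Fin m => cj A x (if (((Fin.last m).succAbove l : Fin (m + 1)) : ℕ) < m
          then b ((Fin.last m).succAbove l : Fin (m + 1)) else ⟨a, ha⟩)) =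
          fun l : Fin m => cj A x (b l) := by
        funext l
        rw [Fin.succAbove_last, Fin.val_castSucc, if_pos l.2]
      rw [map_zsmul, Pi.smul_apply, h9, Fin.val_last, if_neg (lt_irrefl m), key] at h8
      have h10 : tr k (ym a) (ν (κ (fun l => cj A x (b l)))) -
          ν (κ (fun l => cj A x (b l))) = 0 := by
        rcases Nat.even_or_odd m with h9 | h9
        · rw [h9.neg_one_pow, one_smul] at h8
          exact h8
        · rw [h9.neg_one_pow, neg_smul, one_smul] at h8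
          exact neg_eq_zero.mp h8
      exact sub_eq_zero.mp h10
    · intro l _
      rw [map_zsmul, Pi.smul_apply, Fin.val_castSucc, if_pos l.2, key, hym l l.2, tr_zero,
        sub_self, smul_zero]
  have h0 := inv_zero _ _ hinf hinv
  have h1 : ag k M (ν (κ (fun l => cj A x (b l)))) = v (z (fun l => cj A x (b l))) x := by
    show ag k M (u (κ (fun l => cj A x (b l))) x +
      v (f (κ (fun l => cj A x (b l)))) x • Finsupp.single (Ym x) 1) = _
    rw [map_add, (huJ _).2.1, zero_add, map_smul, ag_single, hκ, smul_eq_mul, mul_one]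
  rw [h0, map_zero] at h1
  exact hne x h1.symm

end Cor2

open Cor Cor2 in
theorem I_Core2 (h1 : StUnshift) (h3 : StTwist) (h3' : StTwist2) (h4 : StKos) : StCore2 := by
  intro G _ A _ hab S hAS k _ M _ m χ y Y ym Ym b hχ hS hub hY1 hY2 hM1 hM2 hinf hb hyb hy0 hy1 hfp
  classical
  let b' : ℕ → A := fun i => if h : i < m then ⟨b i, hb i h⟩ else 1
  have hb' : ∀ i < m, (b' i : G) = b i := by
    intro i hi
    simp only [b', dif_pos hi]
  have hof : ∀ (s : S) (p : Triv S), MonoidAlgebra.of ℤ S s • p = p := by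
    intro s p
    show (aug S (MonoidAlgebra.of ℤ S s)) * (show ℤ from p) = p
    have : aug S (MonoidAlgebra.of ℤ S s) = 1 := by
      simp [aug]
    rw [this, one_mul]
  let v : Triv S →+ (G → k) :=
    { toFun := fun n _ => ((show ℤ from n : ℤ) : k)
      map_zero' := by funext x; exact Int.cast_zero
      map_add' := by intro a c; funext x; exact Int.cast_add _ _ }
  refine auxG h1 h3 h4 A hab S hAS m χ y Y b' (fun i hi => hχ i hi.le) hY1 hY2 ?_ ?_ 1 ?_ m 0
    (by omega) (Triv S) hfp v (fun _ => (show Triv S from (1 : ℤ))) ?_ ?_ ?_ ?_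
  · intro i hi j hj
    rw [hb' j (by omega)]; exact hy0 i hi j hj
  · intro i hi
    rw [hb' i hi]; exact hy1 i hi
  · intro K _ _ hK v z hv hJ hz hne
    refine fin h1 h3' h4 A hab S hAS m χ ym Ym b' hχ hS hub hM1 hM2 hinf ?_ K hK v z hv hJ hz hne
    intro i hi
    rw [hb' i hi]; exact hyb i hi
  · intro s p x
    rw [hof]
    rfl
  · intro p
    exact ⟨fun _ _ _ => rfl, 0, fun x ⟨j, hj, _⟩ => absurd hj (Nat.not_lt_zero j)⟩
  · intro c
    rw [Fin.sum_univ_one]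
    unfold e
    rw [sub_smul, hof, one_smul, sub_self, smul_zero]
  · intro x
    show (((1 : ℤ) : k)) ≠ 0
    simp

end Pool.Agent.Work.MP_e9e200_al

end

section

/-!
# Item 21: Carathéodory's theorem for cones, the exceptional element is the last one
-/

set_option autoImplicit false

namespace Pool.Agent.Work.MP_e9e200_al

namespace Car

open Classical in
/-- one step of the elimination -/
theorem step {E : Type} [AddCommGroup E] [Module ℝ E] (t : Finset E) (c : E → ℝ) (v : E)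
    (hc : ∀ w ∈ t, 0 < c w) (hv : v = ∑ w ∈ t, c w • w)
    (hl : ¬ LinearIndependent ℝ (fun x : t => (x : E))) :
    ∃ t' ⊆ t, t'.card < t.card ∧ ∃ c' : E → ℝ, (∀ w ∈ t', 0 < c' w) ∧
      v = ∑ w ∈ t', c' w • w := by
  obtain ⟨g, hg0, ⟨i0, hi0⟩⟩ := Fintype.not_linearIndependent_iff.1 hl
  -- extension of the relation
  obtain ⟨G, hG0, w2, hw2, hGw⟩ : ∃ G : E → ℝ, ∑ w ∈ t, G w • w = 0 ∧
      ∃ w2, w2 ∈ t ∧ 0 < G w2 := by
    have h1 : ∀ a : ℝ, ∑ w ∈ t, (if h : w ∈ t then a * g ⟨w, h⟩ else 0) • w = 0 := by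
      intro a
      rw [← Finset.sum_coe_sort t]
      have h2 : ∀ i : t, (if h : (i : E) ∈ t then a * g ⟨(i : E), h⟩ else 0) • (i : E)
          = a • (g i • (i : E)) := by
        intro i
        rw [dif_pos i.2, mul_smul]
      rw [Finset.sum_congr rfl (fun i _ => h2 i), ← Finset.smul_sum, hg0, smul_zero]
    rcases lt_or_gt_of_ne hi0 with h | h
    · refine ⟨_, h1 (-1), (i0 : E), i0.2, ?_⟩
      simp only [dif_pos i0.2]
      linarith
    · refine ⟨_, h1 1, (i0 : E), i0.2, ?_⟩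
      simp only [dif_pos i0.2]
      linarith
  obtain ⟨w1, hw1, hmin⟩ := Finset.exists_min_image (t.filter (fun w => 0 < G w))
    (fun w => c w / G w) ⟨w2, Finset.mem_filter.2 ⟨hw2, hGw⟩⟩
  obtain ⟨hw1t, hw1G⟩ := Finset.mem_filter.1 hw1
  obtain ⟨r, hr⟩ : ∃ r : ℝ, r = c w1 / G w1 := ⟨_, rfl⟩
  have hr0 : 0 < r := by
    rw [hr]
    exact div_pos (hc w1 hw1t) hw1G
  have hz : c w1 - r * G w1 = 0 := by
    rw [hr]
    field_simp
    ring
  have hnn : ∀ w ∈ t, 0 ≤ c w - r * G w := by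
    intro w hw
    rcases lt_or_ge 0 (G w) with h | h
    · have h1 := hmin w (Finset.mem_filter.2 ⟨hw, h⟩)
      rw [← hr, le_div_iff₀ h] at h1
      linarith
    · have h1 : r * G w ≤ 0 := mul_nonpos_of_nonneg_of_nonpos hr0.le h
      have h2 := hc w hw
      linarith
  refine ⟨t.filter (fun w => 0 < c w - r * G w), Finset.filter_subset _ _, ?_,
    fun w => c w - r * G w, ?_, ?_⟩
  · apply Finset.card_lt_card
    refine Finset.filter_ssubset.2 ⟨w1, hw1t, ?_⟩
    rw [hz]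
    exact lt_irrefl 0
  · intro w hw
    exact (Finset.mem_filter.1 hw).2
  · have h1 : ∑ w ∈ t.filter (fun w => 0 < c w - r * G w), (c w - r * G w) • w =
        ∑ w ∈ t, (c w - r * G w) • w := by
      apply Finset.sum_subset (Finset.filter_subset _ _)
      intro w hw hw'
      have h2 : ¬ 0 < c w - r * G w := fun h => hw' (Finset.mem_filter.2 ⟨hw, h⟩)
      have h3 : c w - r * G w = 0 := le_antisymm (not_lt.1 h2) (hnn w hw)
      rw [h3, zero_smul]
    rw [h1]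
    have h4 : ∑ w ∈ t, (c w - r * G w) • w = ∑ w ∈ t, c w • w - r • ∑ w ∈ t, G w • w := by
      rw [Finset.smul_sum, ← Finset.sum_sub_distrib]
      apply Finset.sum_congr rfl
      intro w _
      rw [sub_smul, mul_smul]
    rw [h4, hG0, smul_zero, sub_zero]
    exact hv

/-- linearly independent representation -/
theorem indep {E : Type} [AddCommGroup E] [Module ℝ E] (n : ℕ) : ∀ (t : Finset E) (c : E → ℝ)
    (v : E), t.card = n → (∀ w ∈ t, 0 < c w) → v = ∑ w ∈ t, c w • w →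
    ∃ t' ⊆ t, ∃ c' : E → ℝ, (∀ w ∈ t', 0 < c' w) ∧ v = ∑ w ∈ t', c' w • w ∧
      LinearIndependent ℝ (fun x : t' => (x : E)) := by
  induction n using Nat.strong_induction_on with
  | _ n ih =>
    intro t c v hn hc hv
    by_cases hl : LinearIndependent ℝ (fun x : t => (x : E))
    · exact ⟨t, Finset.Subset.refl t, c, hc, hv, hl⟩
    · obtain ⟨t1, ht1, hcard, c1, hc1, hv1⟩ := step t c v hc hv hl
      obtain ⟨t2, ht2, c2, h1, h2, h3⟩ := ih t1.card (by omega) t1 c1 v rfl hc1 hv1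
      exact ⟨t2, ht2.trans ht1, c2, h1, h2, h3⟩

open Classical in
/-- enumeration of a finite set, `w0` is the last element -/
theorem enum {E : Type} (t : Finset E) (w0 : E) : ∃ w : ℕ → E, (∀ i < t.card, w i ∈ t) ∧
    (∀ i < t.card, ∀ j < t.card, w i = w j → i = j) ∧
    ∀ i, i + 1 < t.card → w i ≠ w0 := by
  have hk : t.card ≤ (t.erase w0).card + 1 := by
    have := Finset.pred_card_le_card_erase (s := t) (a := w0)
    omega
  have hk' : (t.erase w0).card < t.card → w0 ∈ t := by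
    intro h
    by_contra hcon
    rw [Finset.erase_eq_of_notMem hcon] at h
    exact lt_irrefl _ h
  have hu : ∀ (i : ℕ) (h : i < (t.erase w0).card),
      ((t.erase w0).equivFin.symm ⟨i, h⟩ : E) ∈ t.erase w0 :=
    fun i h => ((t.erase w0).equivFin.symm ⟨i, h⟩).2
  refine ⟨fun i => if h : i < (t.erase w0).card then
    ((t.erase w0).equivFin.symm ⟨i, h⟩ : E) else w0, ?_, ?_, ?_⟩
  · intro i hi
    by_cases h : i < (t.erase w0).card
    · simp only [dif_pos h]
      exact Finset.mem_of_mem_erase (hu i h)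
    · simp only [dif_neg h]
      exact hk' (by omega)
  · intro i hi j hj hij
    by_cases h : i < (t.erase w0).card
    · by_cases h' : j < (t.erase w0).card
      · simp only [dif_pos h, dif_pos h'] at hij
        have h1 := (t.erase w0).equivFin.symm.injective (Subtype.ext hij)
        exact Fin.mk.inj_iff.1 h1
      · simp only [dif_pos h, dif_neg h'] at hij
        exact absurd hij (Finset.ne_of_mem_erase (hu i h))
    · by_cases h' : j < (t.erase w0).card
      · simp only [dif_neg h, dif_pos h'] at hij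
        exact absurd hij.symm (Finset.ne_of_mem_erase (hu j h'))
      · omega
  · intro i hi
    have h : i < (t.erase w0).card := by omega
    simp only [dif_pos h]
    exact Finset.ne_of_mem_erase (hu i h)

end Car

theorem I_Car : StCar := by
  classical
  intro E _ _ s v w0 hvs
  obtain ⟨a, ha0, -, has⟩ := Finset.mem_convexHull'.1 hvs
  obtain ⟨t, ht, c, hc, hv, hl⟩ := Car.indep (s.filter (fun y => 0 < a y)).card
    (s.filter (fun y => 0 < a y)) a v rfl (fun w hw => (Finset.mem_filter.1 hw).2) (by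
      rw [← has]
      symm
      apply Finset.sum_subset (Finset.filter_subset _ _)
      intro y hy hy'
      have h1 : ¬ 0 < a y := fun h => hy' (Finset.mem_filter.2 ⟨hy, h⟩)
      rw [le_antisymm (not_lt.1 h1) (ha0 y hy), zero_smul])
  have hts : t ⊆ s := ht.trans (Finset.filter_subset _ _)
  obtain ⟨w, hw1, hw2, hw3⟩ := Car.enum t w0
  refine ⟨t.card, Finset.card_le_card hts, w, fun i => c (w i), ?_, ?_, ?_⟩
  · have h1 := hl.comp (fun i : Fin t.card => (⟨w i, hw1 i i.2⟩ : t)) (by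
      intro i j hij
      exact Fin.ext (hw2 i i.2 j j.2 (congrArg Subtype.val hij)))
    exact h1
  · intro i hi
    exact ⟨hts (hw1 i hi), hc _ (hw1 i hi), hw3 i⟩
  · rw [hv]
    symm
    have hinj : Set.InjOn w (Finset.range t.card : Set ℕ) := by
      intro i hi j hj hij
      exact hw2 i (Finset.mem_range.1 hi) j (Finset.mem_range.1 hj) hij
    have himg : (Finset.range t.card).image w = t := by
      apply Finset.eq_of_subset_of_card_le
      · intro x hx
        obtain ⟨i, hi, rfl⟩ := Finset.mem_image.1 hx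
        exact hw1 i (Finset.mem_range.1 hi)
      · rw [Finset.card_image_of_injOn hinj, Finset.card_range]
    have h2 : ∑ x ∈ (Finset.range t.card).image w, c x • x =
        ∑ i ∈ Finset.range t.card, c (w i) • w i := Finset.sum_image hinj
    rw [← h2, himg]

end Pool.Agent.Work.MP_e9e200_al

end

section

/-!
# Project HS: statements of the items

Each `def StXXX : Prop` is to be proved as `theorem I_XXX ... : StXXX` in `HS/P_XXX.lean`.
-/

set_option autoImplicit false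

namespace Pool.Agent.Work.MP_e9e200_al.HS

open Loc

/-! ### Paths -/

/-- PB: composition and reversal of paths -/
def StPB : Prop := ∀ (G Q : Type) [Group G] [CommGroup Q] (n : ℕ) (S : Loc G Q n) (H : Type)
  [Group H] (c : Q → G → H) (X B : Set G) (K : Set Q), S.Flat X c → B ⊆ X → 1 ∈ X →
  (∀ x ∈ B, x⁻¹ ∈ B) → K ⊆ S.half →
  (∀ p q r h h', S.Pth c B K p q h → S.Pth c B K q r h' → S.Pth c B K p r (h * h')) ∧
  (∀ p q h, S.Pth c B K p q h → S.Pth c B K q p h⁻¹) ∧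
  (∀ p q h, S.Pth c B K p q h → p ∈ K ∧ q ∈ K)

/-- PI: the conjugates of `c p t` by two paths in `K` agree (uses PB) -/
def StPI : Prop := ∀ (G Q : Type) [Group G] [CommGroup Q] (n : ℕ) (S : Loc G Q n) (H : Type)
  [Group H] (c : Q → G → H) (X B : Set G) (K : Set Q), S.Flat X c → B ⊆ X → 1 ∈ X →
  (∀ x ∈ B, x⁻¹ ∈ B) → K ⊆ S.half → S.CommOn c B K →
  ∀ b p h h' t, S.Pth c B K b p h → S.Pth c B K b p h' → t ∈ B → S.pr t = 1 →
    h * c p t * h⁻¹ = h' * c p t * h'⁻¹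

/-- ST: the straight path -/
def StST : Prop := ∀ (G Q : Type) [Group G] [CommGroup Q] (n : ℕ) (S : Loc G Q n)
  (b p p' c' : Q) (J : ℕ), 1 ≤ J →
  (0 ≤ S.v b → 0 ≤ S.v p → ∀ j, 0 ≤ S.v (S.st b p J j)) ∧
  (∀ j, ‖S.pos (S.st b p J (j + 1)) - S.pos (S.st b p J j)‖ ≤
    ‖S.pos p - S.pos b‖ / J + 4 * S.a) ∧
  (∀ j, ‖S.pos (S.st b p J j) - S.pos (S.st b p' J j)‖ ≤ ‖S.pos p - S.pos p'‖ + 4 * S.a) ∧
  (∀ η R : ℝ, ‖S.pos b - S.pos c'‖ ≤ η → ‖S.pos p - S.pos c'‖ ≤ R → 2 * S.a * J ≤ R - η →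
    ∀ j, ‖S.pos (S.st b p J j) - S.pos c'‖ ≤ R) ∧
  (∀ j, ‖S.pos (S.st b p J j) - S.pos b‖ ≤ ‖S.pos p - S.pos b‖ + 2 * S.a)

/-- HS: the straight path is a path (uses ST) -/
def StHS : Prop := ∀ (G Q : Type) [Group G] [CommGroup Q] (n : ℕ) (S : Loc G Q n) (H : Type)
  [Group H] (c : Q → G → H) (T : Set G) (K : Set Q) (b p : Q) (J : ℕ), 1 ≤ J →
  ‖S.pos p - S.pos b‖ ≤ 8 * S.a * J → (∀ j, S.st b p J j ∈ K) →
  (∀ j, S.Pth c (S.B T) K b (S.st b p J j) (S.hs c b p J j)) ∧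
  S.Pth c (S.B T) K b p (S.hs c b p J J)

/-- THIN: thin loops are products of conjugates of elements of `T` (uses ST) -/
def StTHIN : Prop := ∀ (G Q : Type) [Group G] [CommGroup Q] (n : ℕ) (S : Loc G Q n) (T : Set G),
  S.TOK T → ∃ X₀ : Set G, X₀.Finite ∧ ∀ (H : Type) [Group H] (c : Q → G → H), S.Flat X₀ c →
  (∀ (b p : Q) (x : G) (J : ℕ), 1 ≤ J → x ∈ S.Lt (12 * S.a) → 0 ≤ S.v b → 0 ≤ S.v p →
    0 ≤ S.v (p * S.pr x) → ‖S.pos p - S.pos b‖ ≤ 8 * S.a * J →
    ‖S.pos (p * S.pr x) - S.pos b‖ ≤ 8 * S.a * J →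
    S.hs c b p J J * c p x * (S.hs c b (p * S.pr x) J J)⁻¹ ∈
      Subgroup.closure {h : H | ∃ j < J, ∃ t ∈ T,
        h = S.hs c b p J j * c (S.st b p J j) t * (S.hs c b p J j)⁻¹}) ∧
  (∀ (b : Q) (J : ℕ), 1 ≤ J → 0 ≤ S.v b → ∃ t ∈ T, S.hs c b b J J = c b t)

/-- LOC: a long letter is a straight path followed by an element of the kernel (uses ST) -/
def StLOC : Prop := ∀ (G Q : Type) [Group G] [CommGroup Q] (n : ℕ) (S : Loc G Q n) (T : Set G),
  S.TOK T → ∀ X₁ : Set G, X₁.Finite → ∀ (D : ℝ) (J : ℕ), (∀ x ∈ X₁, ‖S.pos (S.pr x)‖ ≤ D) →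
  1 ≤ J → D ≤ 8 * S.a * J → ∃ A₂ X₀ : Set G, A₂.Finite ∧ X₀.Finite ∧ (∀ a ∈ A₂, S.pr a = 1) ∧
  ∀ (H : Type) [Group H] (c : Q → G → H), S.Flat X₀ c → ∀ q, ∀ x ∈ X₁, 0 ≤ S.v q →
    0 ≤ S.v (q * S.pr x) → ∃ a ∈ A₂,
      c q x = S.hs c q (q * S.pr x) J J * c (q * S.pr x) a ∧
      ∀ t ∈ T, c (q * S.pr x) a * c (q * S.pr x) t = c (q * S.pr x) t * c (q * S.pr x) a

/-- EXPR: relations in the kernel hold for the holonomies -/
def StEXPR : Prop := ∀ (G Q : Type) [Group G] [CommGroup Q] (n : ℕ) (S : Loc G Q n) (T A₁ : Set G)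
  (F : Set Q), T.Finite → (∀ t ∈ T, S.pr t = 1) → A₁.Finite → F.Finite →
  ∃ X₀ : Set G, X₀.Finite ∧ ∀ (H : Type) [Group H] (c : Q → G → H), S.Flat X₀ c →
  ∀ (p : Q) (P : Q → Prop), 0 ≤ S.v p → (∀ f, P f → f ∈ F ∧ 0 ≤ S.v (p * f)) →
  ∀ t ∈ A₁, t ∈ S.cl T P → c p t ∈ Subgroup.closure {h : H | ∃ f, P f ∧ ∃ t' ∈ T,
    h = c p (S.sec f) * c (p * f) t' * (c p (S.sec f))⁻¹}

/-! ### Geometry -/

/-- COV: a ball of radius `R` which contains `b` and a neighbourhood of `p` -/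
def StCOV : Prop := ∀ (G Q : Type) [Group G] [CommGroup Q] (n : ℕ) (S : Loc G Q n) (D : ℝ),
  0 ≤ D → ∃ η R₀ : ℝ, 0 ≤ η ∧ ∀ R, R₀ ≤ R → ∀ b p : Q, 0 ≤ S.v b → 0 ≤ S.v p →
    ‖S.pos p - S.pos b‖ ≤ R + 1 → ∃ c' : Q, 0 ≤ S.v c' ∧ ‖S.pos b - S.pos c'‖ ≤ η ∧
      ∀ q : Q, ‖S.pos q - S.pos p‖ ≤ D → ‖S.pos q - S.pos c'‖ ≤ R

/-- PAIR: a ball of radius `R` which contains `b`, `p` and `p'` -/
def StPAIR : Prop := ∀ (G Q : Type) [Group G] [CommGroup Q] (n : ℕ) (S : Loc G Q n) (ε : ℝ),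
  0 < ε → ∃ η η₁ R₀ : ℝ, 0 ≤ η ∧ 0 ≤ η₁ ∧ ∀ R, R₀ ≤ R → ∀ b p p' : Q, 0 ≤ S.v b → 0 ≤ S.v p →
    0 ≤ S.v p' → ‖S.pos p - S.pos b‖ ≤ R + 1 → ‖S.pos p' - S.pos b‖ ≤ R + 1 →
    (‖S.pos p - S.pos b‖ ≤ R - η₁ ∨ ‖S.pos p' - S.pos b‖ ≤ R - η₁ ∨
      ∃ x : Eu n, ‖x‖ = 1 ∧ ε * ‖S.pos p - S.pos b‖ ≤ inner ℝ (S.pos p - S.pos b) x ∧
        ε * ‖S.pos p' - S.pos b‖ ≤ inner ℝ (S.pos p' - S.pos b) x ∧ 0 ≤ inner ℝ S.nu x) →
    ∃ c' : Q, 0 ≤ S.v c' ∧ ‖S.pos b - S.pos c'‖ ≤ η ∧ ‖S.pos p - S.pos c'‖ ≤ R ∧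
      ‖S.pos p' - S.pos c'‖ ≤ R

/-- M1: uniform movability on compact sets -/
def StM1 : Prop := ∀ (G Q : Type) [Group G] [CommGroup Q] (n : ℕ) (S : Loc G Q n) (T : Set G)
  (C : Set (Eu n)), IsCompact C → (∀ w ∈ C, S.Mov T w) → ∃ D δ : ℝ, 0 < δ ∧ ∀ w ∈ C, ∀ t ∈ T,
    t ∈ S.cl T (fun f => ‖S.pos f‖ ≤ D ∧ δ ≤ inner ℝ (S.pos f) w)

/-- N: two bad directions lie in a common open half space together with `nu` -/
def StN : Prop := ∀ (G Q : Type) [Group G] [CommGroup Q] (n : ℕ) (S : Loc G Q n) (T : Set G),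
  S.NoRel T → ∃ ρ ε : ℝ, 0 < ρ ∧ 0 < ε ∧ ∀ z z' : Eu n, ‖z‖ = 1 → ‖z'‖ = 1 → S.Bad T ρ z →
    S.Bad T ρ z' → ∃ x : Eu n, ‖x‖ = 1 ∧ ε ≤ inner ℝ z x ∧ ε ≤ inner ℝ z' x ∧
      0 ≤ inner ℝ S.nu x

/-- GL: directions which are not bad admit moves (uses M1) -/
def StGL : Prop := ∀ (G Q : Type) [Group G] [CommGroup Q] (n : ℕ) (S : Loc G Q n) (T : Set G),
  S.TOK T → ∀ ρ : ℝ, 0 < ρ → ∃ D δ : ℝ, 0 ≤ D ∧ 0 < δ ∧ ∀ z : Eu n, ‖z‖ = 1 → ¬ S.Bad T ρ z →
    ∀ s : ℝ, 0 ≤ s → (D * ‖S.nu‖ ≤ s ∨ 2 * inner ℝ z S.nuh ≤ (1 : ℝ)) → ∀ t ∈ T,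
      t ∈ S.cl T (fun f => ‖S.pos f‖ ≤ D ∧ δ ≤ - inner ℝ (S.pos f) z ∧ 0 ≤ s + S.v f)

/-! ### The induction -/

/-- GENR: the holonomies of closed paths in a slightly larger ball are generated by the elements
`tau` (uses PB, PI, ST, HS, THIN, COV) -/
def StGENR : Prop := ∀ (G Q : Type) [Group G] [CommGroup Q] (n : ℕ) (S : Loc G Q n) (T : Set G),
  S.TOK T → ∃ (R₀ : ℝ) (X₀ : Set G), X₀.Finite ∧ ∀ (H : Type) [Group H] (c : Q → G → H),
  S.Flat X₀ c → ∀ R, R₀ ≤ R → S.Comm c T R → ∀ (b : Q) (J : ℕ), 0 ≤ S.v b → 1 ≤ J →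
  R + 1 ≤ 8 * S.a * J → 2 * S.a * J ≤ R - R₀ → ∀ h,
  S.Pth c (S.B T) (S.ball b (R + 1)) b b h →
    h ∈ Subgroup.closure {h : H | ∃ p ∈ S.ball b (R + 1), ∃ t ∈ T, h = S.tau c b J p t}

/-- MOVE: moving an element `tau` (uses PB, PI, ST, HS, LOC, EXPR, COV) -/
def StMOVE : Prop := ∀ (G Q : Type) [Group G] [CommGroup Q] (n : ℕ) (S : Loc G Q n) (T : Set G),
  S.TOK T → ∀ D : ℝ, 0 ≤ D → ∃ (R₀ : ℝ) (X₀ : Set G), X₀.Finite ∧
  ∀ (H : Type) [Group H] (c : Q → G → H), S.Flat X₀ c → ∀ R, R₀ ≤ R → S.Comm c T R →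
  ∀ (b : Q) (J : ℕ), 0 ≤ S.v b → 1 ≤ J → R + 1 ≤ 8 * S.a * J → 2 * S.a * J ≤ R - R₀ →
  ∀ p ∈ S.ball b (R + 1), ∀ P : Q → Prop,
  (∀ f, P f → ‖S.pos f‖ ≤ D ∧ p * f ∈ S.ball b (R + 1)) → (∀ t ∈ T, t ∈ S.cl T P) → ∀ t ∈ T,
    S.tau c b J p t ∈ Subgroup.closure {h : H | ∃ f, P f ∧ ∃ t' ∈ T, h = S.tau c b J (p * f) t'}

/-- STEP: from radius `R` to radius `R + 1` (uses GENR, MOVE, PAIR, N, GL and PB, ST, HS) -/
def StSTEP : Prop := ∀ (G Q : Type) [Group G] [CommGroup Q] (n : ℕ) (S : Loc G Q n) (T : Set G),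
  S.TOK T → S.NoRel T → ∃ (R₀ : ℝ) (X₀ : Set G), X₀.Finite ∧
  ∀ (H : Type) [Group H] (c : Q → G → H), S.Flat X₀ c → ∀ R, R₀ ≤ R → S.Comm c T R →
    S.Comm c T (R + 1)

/-- BASE: holonomies in balls of bounded size commute -/
def StBASE : Prop := ∀ (G Q : Type) [Group G] [CommGroup Q] (n : ℕ) (S : Loc G Q n) (T : Set G),
  S.TOK T → ∀ R : ℝ, ∃ X₀ : Set G, X₀.Finite ∧ ∀ (H : Type) [Group H] (c : Q → G → H),
    S.Flat X₀ c → S.Comm c T R

/-- LETT: holonomies of closed paths with labels in a given finite set commute (uses STEP, BASE,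
PB, ST, HS, LOC, EXPR) -/
def StLETT : Prop := ∀ (G Q : Type) [Group G] [CommGroup Q] (n : ℕ) (S : Loc G Q n) (T : Set G),
  S.TOK T → S.NoRel T → (∀ g, S.pr g = 1 → g ∈ S.cl T (fun f => 0 ≤ S.v f)) →
  ∀ X₁ : Set G, X₁.Finite → ∃ X₀ : Set G, X₀.Finite ∧ ∀ (H : Type) [Group H] (c : Q → G → H),
    S.Flat X₀ c → S.CommOn c X₁ S.half

/-! ### From commuting holonomies to simple connectivity -/

/-- the sum of `φ` along a word -/
def sm {G M : Type} [Group G] [AddCommGroup M] (φ : G → G → M) : G → List G → M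
  | _, [] => 0
  | g, x :: w => φ g x + sm φ (g * x) w

/-- KER: type `FP_2` and finite presentations -/
def StKER : Prop := ∀ (R : Type) [Ring R] (M : Type) [AddCommGroup M] [Module R M], IsFP R M 2 →
  ∀ (k l : ℕ) (f₁ : (Fin k → R) →ₗ[R] (Fin l → R)) (f₀ : (Fin l → R) →ₗ[R] M),
  Function.Surjective f₀ → Function.Exact f₁ f₀ → (LinearMap.ker f₁).FG

/-- CYC: cycles in the half space of the Cayley graph are generated by small loops (uses KER) -/
def StCYC : Prop := ∀ (G : Type) [Group G] (χ : Additive G →+ ℝ),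
  IsFP (MonoidAlgebra ℤ (Gmon χ)) (Triv (Gmon χ)) 2 → ∀ X₁ : Set G, X₁.Finite →
  (∀ x ∈ X₁, x⁻¹ ∈ X₁) → 1 ∈ X₁ → Con χ X₁ → ∃ X₂ : Set G, X₂.Finite ∧ X₁ ⊆ X₂ ∧
  ∀ (M : Type) [AddCommGroup M] (φ : G → G → M),
  (∀ g x y, x ∈ X₂ → y ∈ X₂ → x * y ∈ X₂ → 0 ≤ χ (Additive.ofMul g) →
    0 ≤ χ (Additive.ofMul (g * x)) → 0 ≤ χ (Additive.ofMul (g * x * y)) →
    φ g (x * y) = φ g x + φ (g * x) y) →
  ∀ g w, Ok χ X₁ g w → w.prod = 1 → sm φ g w = 0

/-- HOL: the holonomy of closed words is trivial (uses CYC) -/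
def StHOL : Prop := ∀ (G Q : Type) [Group G] [CommGroup Q] (n : ℕ) (S : Loc G Q n)
  (χ : Additive G →+ ℝ), (∀ g, χ (Additive.ofMul g) = S.v (S.pr g)) →
  IsFP (MonoidAlgebra ℤ (Gmon χ)) (Triv (Gmon χ)) 2 →
  (∀ X₁ : Set G, X₁.Finite → ∃ X₀ : Set G, X₀.Finite ∧ ∀ (H : Type) [Group H] (c : Q → G → H),
    S.Flat X₀ c → S.CommOn c X₁ S.half) →
  ∀ X₁ : Set G, X₁.Finite → (∀ x ∈ X₁, x⁻¹ ∈ X₁) → 1 ∈ X₁ → Con χ X₁ →
  ∃ X₀ : Set G, X₀.Finite ∧ ∀ (H : Type) [Group H] (c : Q → G → H), S.Flat X₀ c →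
    ∀ g w, Ok χ X₁ g w → w.prod = 1 → S.hol c (S.pr g) w = 1

/-- UNIV: the universal local system -/
def StUNIV : Prop := ∀ (G Q : Type) [Group G] [CommGroup Q] (n : ℕ) (S : Loc G Q n)
  (χ : Additive G →+ ℝ), (∀ g, χ (Additive.ofMul g) = S.v (S.pr g)) → ∀ X₁ X₀ : Set G,
  X₁ ⊆ X₀ → 1 ∈ X₀ → (∀ x ∈ X₀, x⁻¹ ∈ X₀) → Con χ X₁ →
  (∀ (H : Type) [Group H] (c : Q → G → H), S.Flat X₀ c →
    ∀ g w, Ok χ X₁ g w → w.prod = 1 → S.hol c (S.pr g) w = 1) →
  ∀ g w, Ok χ X₁ g w → w.prod = 1 → Hpy χ X₀ g w []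

/-- EXACT: from essential to exact simple connectivity -/
def StEXACT : Prop := ∀ (G : Type) [Group G] (χ : Additive G →+ ℝ) (X₁ X₀ : Set G),
  X₁.Finite → X₀.Finite → (∀ x ∈ X₁, x⁻¹ ∈ X₁) → 1 ∈ X₁ → Con χ X₁ →
  (∀ g w, Ok χ X₁ g w → w.prod = 1 → Hpy χ X₀ g w []) →
  ∃ X : Set G, X.Finite ∧ (∀ x ∈ X, x⁻¹ ∈ X) ∧ 1 ∈ X ∧ X₁ ⊆ X ∧ Con χ X ∧ Sic χ X

/-! ### Groups -/

/-- TEX: existence of the set `T` -/
def StTEX : Prop := ∀ (G Q : Type) [Group G] [CommGroup Q] (n : ℕ) (S : Loc G Q n) (T₀ : Set G),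
  T₀.Finite → (∀ t ∈ T₀, S.pr t = 1) → (∀ g, S.pr g = 1 → g ∈ S.cl T₀ (fun _ => True)) →
  ∃ T : Set G, S.TOK T

/-- MFG: finite generation of the kernel over a half space implies movability -/
def StMFG : Prop := ∀ (G Q : Type) [Group G] [CommGroup Q] (n : ℕ) (S : Loc G Q n) (T : Set G),
  S.TOK T → ∀ w : Eu n, w ≠ 0 → (∃ V : Set G, V.Finite ∧ (∀ v ∈ V, S.pr v = 1) ∧
    ∀ g, S.pr g = 1 → g ∈ Subgroup.closure {x : G | ∃ g v : G,
      0 ≤ inner ℝ (S.pos (S.pr g)) w ∧ v ∈ V ∧ x = g * v * g⁻¹}) →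
  S.Mov T w ∧ ∀ g, S.pr g = 1 → g ∈ S.cl T (fun f => 0 ≤ inner ℝ (S.pos f) w)

/-- LEX: a finitely generated metabelian group with a character has the structure `Loc` -/
def StLEX : Prop := ∀ (G : Type) [Group G] [Group.FG G], Metab G → ∀ χ : Additive G →+ ℝ,
  ∃ (n : ℕ) (S : Loc G (Abelianization G) n), S.pr = Abelianization.of ∧
    (∀ g, χ (Additive.ofMul g) = S.v (Abelianization.of g)) ∧
    ∀ w : Eu n, ∃ ψ : Additive G →+ ℝ, (w ≠ 0 → ψ ≠ 0) ∧
      ∀ g, ψ (Additive.ofMul g) = inner ℝ (S.pos (Abelianization.of g)) w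

/-- S2: the theorem on `Σ^2` (uses everything) -/
def StS2 : Prop := ∀ (G : Type) [Group G] [Group.FG G], Metab G → ∀ χ : Additive G →+ ℝ, χ ≠ 0 →
  (∀ γ₁ γ₂ : Additive G →+ ℝ, γ₁ ≠ 0 → γ₂ ≠ 0 →
    (∀ V : Finset G, (∀ v ∈ V, v ∈ commutator G) → ∃ a ∈ commutator G, a ∉ Gen G γ₁ V) →
    (∀ V : Finset G, (∀ v ∈ V, v ∈ commutator G) → ∃ a ∈ commutator G, a ∉ Gen G γ₂ V) →
    ∀ a₁ a₂ b : ℝ, 0 ≤ a₁ → 0 ≤ a₂ → 0 ≤ b → 0 < a₁ + a₂ → a₁ • γ₁ + a₂ • γ₂ ≠ b • χ) →
  IsFP (MonoidAlgebra ℤ (Gmon χ)) (Triv (Gmon χ)) 2 →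
  (∃ X₁ : Set G, X₁.Finite ∧ Con χ X₁) →
  ∃ X : Set G, X.Finite ∧ (∀ x ∈ X, x⁻¹ ∈ X) ∧ 1 ∈ X ∧ Con χ X ∧ Sic χ X

/-- FP2: simple connectivity implies type `FP_2` -/
def StFP2 : Prop := ∀ (G : Type) [Group G] (χ : Additive G →+ ℝ) (X : Set G), X.Finite →
  (∀ x ∈ X, x⁻¹ ∈ X) → 1 ∈ X → Con χ X → Sic χ X →
  IsFP (MonoidAlgebra ℤ (Gmon χ)) (Triv (Gmon χ)) 2

end Pool.Agent.Work.MP_e9e200_al.HS

end
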