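import Pool.Agent.Work.MP_e9e200_al.Stmts3
import Pool.Agent.Work.MP_e9e200_al.Bd.B18
import Pool.Agent.Work.MP_e9e200_al.Bd.B11
import Pool.Agent.Work.MP_e9e200_al.Bd.B02
import Pool.Agent.Work.MP_e9e200_al.O3.Lit

/-! Bundle of small proof modules (one section per former module). -/

section

/-! Project MP_e9e200_al: the main lemma of the local theorem. -/

set_option autoImplicit false

namespace Pool.Agent.Work.MP_e9e200_al

namespace Cor3

open Cor Cor2

/-- functions which are invariant under the left multiplication by the elements of `B` and vanish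
if one of the first `i` characters is large -/
def J3 {G : Type} [Group G] (B : Set G) {k : Type} [Field k] (χ : ℕ → G → ℝ) (i : ℕ) :
    AddSubgroup (G → k) where
  carrier := {f | (∀ a ∈ B, ∀ x, f (a * x) = f x) ∧
    ∃ C : ℝ, ∀ x, (∃ j < i, C ≤ χ j x) → f x = 0}
  zero_mem' := ⟨fun _ _ _ => rfl, 0, fun _ _ => rfl⟩
  add_mem' := by
    rintro f g ⟨hf1, C, hf2⟩ ⟨hg1, D, hg2⟩
    refine ⟨fun a ha x => by simp [hf1 a ha x, hg1 a ha x], max C D, ?_⟩
    rintro x ⟨j, hj, hx⟩
    simp [hf2 x ⟨j, hj, (le_max_left _ _).trans hx⟩, hg2 x ⟨j, hj, (le_max_right _ _).trans hx⟩]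
  neg_mem' := by
    rintro f ⟨hf1, C, hf2⟩
    exact ⟨fun a ha x => by simp [hf1 a ha x], C, fun x hx => by simp [hf2 x hx]⟩

theorem auxG (h1 : StUnshift) (h3 : StTwist) (h4 : StKos) {G : Type} [Group G] (A : Subgroup G)
    [A.Normal] (hab : ∀ a ∈ A, ∀ b ∈ A, a * b = b * a) (S : Submonoid G)
    (hAS : ∀ a ∈ A, a ∈ S) (B : Set G) {k : Type} [Field k] (m : ℕ) (χ : ℕ → G → ℝ)
    (y Y : ℕ → G → k) (b : ℕ → A) (hbB : ∀ i < m, (b i : G) ∈ B) (hχ : ∀ i < m, ∀ x g, χ i (x * g) = χ i x + χ i g)
    (hY1 : ∀ i < m, ∀ a ∈ B, ∀ x, Y i (a * x) = y i a + Y i x)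
    (hY2 : ∀ i < m, ∀ g, ∃ C : ℝ, ∀ x, C ≤ χ i x → Y i (x * g) = Y i x)
    (hy0 : ∀ i < m, ∀ j < i, y i (b j) = 0) (hy1 : ∀ i < m, y i (b i) ≠ 0) (d : ℕ)
    (hbase : ∀ (K : Type) [AddCommGroup K] [Module (MonoidAlgebra ℤ S) K],
      IsFP (MonoidAlgebra ℤ S) K d → ∀ (v : K →+ (G → k)) (z : (Fin m → A) → K),
      (∀ (s : S) (p : K) (x : G), v (MonoidAlgebra.of ℤ S s • p) x = v p (x * s)) →
      (∀ p, v p ∈ J3 B χ m) →
      (∀ c : Fin (m + 1) → A, ∑ j : Fin (m + 1),
        (-1 : ℤ) ^ (j : ℕ) • (e A hAS (c j) • z (fun l => c (j.succAbove l))) = 0) →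
      (∀ x : G, v (z (fun l => cj A x (b l))) x ≠ 0) → False) :
    ∀ (j i : ℕ), i + j = m → ∀ (K : Type) [AddCommGroup K] [Module (MonoidAlgebra ℤ S) K],
      IsFP (MonoidAlgebra ℤ S) K (j + d) → ∀ (v : K →+ (G → k)) (z : (Fin i → A) → K),
      (∀ (s : S) (p : K) (x : G), v (MonoidAlgebra.of ℤ S s • p) x = v p (x * s)) →
      (∀ p, v p ∈ J3 B χ i) →
      (∀ c : Fin (i + 1) → A, ∑ j : Fin (i + 1),
        (-1 : ℤ) ^ (j : ℕ) • (e A hAS (c j) • z (fun l => c (j.succAbove l))) = 0) →
      (∀ x : G, v (z (fun l => cj A x (b l))) x ≠ 0) → False := by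
  intro j
  induction j with
  | zero =>
    intro i hi K _ _ hK v z hv hJ hz hne
    rw [zero_add] at hK
    rw [add_zero] at hi
    subst hi
    exact hbase K hK v z hv hJ hz hne
  | succ j ih =>
    intro i hi K _ _ hK v z hv hJ hz hne
    have hjd : j + 1 + d = (j + d) + 1 := by omega
    rw [hjd] at hK
    have him : i < m := by omega
    obtain ⟨F, f, hFp, _, hfs, hker⟩ := (h1 _ K (j + d)).2 hK
    -- the twisted lift
    let v' : F →+ (G → k) := v.comp f.toAddMonoidHom
    have hv'd : ∀ p, v' p = v (f p) := fun p => rfl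
    let δ : S → G → k := fun s x => Y i (x * s) - Y i x
    have hδa : ∀ (s : S) (a : G), a ∈ B → ∀ x, δ s (a * x) = δ s x := by
      intro s a ha x
      show Y i (a * x * s) - Y i (a * x) = Y i (x * s) - Y i x
      rw [mul_assoc a x (s : G), hY1 i him _ ha, hY1 i him _ ha]
      ring
    obtain ⟨u, hu, huJ⟩ := h3 S F hFp v' δ (J3 B χ (i + 1)) (by
        intro s p x
        rw [hv'd, hv'd, map_smul, hv]) (by
        intro s t x
        show Y i (x * ((s * t : S) : G)) - Y i x = _
        rw [Submonoid.coe_mul, ← mul_assoc]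
        show _ = (Y i (x * s) - Y i x) + (Y i (x * s * t) - Y i (x * s))
        ring) (by
        intro s p
        obtain ⟨ha, C, hC⟩ := hJ (f p)
        obtain ⟨C', hC'⟩ := hY2 i him s
        refine ⟨fun a haA x => ?_, max C' (C + ∑ l ∈ Finset.range m, |χ l s|), ?_⟩
        · show δ s (a * x) * v (f p) (a * x * s) = δ s x * v (f p) (x * s)
          rw [hδa s a haA x, mul_assoc a x (s : G), ha _ haA]
        · rintro x ⟨l, hl, hx⟩
          show δ s x * v (f p) (x * s) = 0
          rcases Nat.lt_succ_iff_lt_or_eq.mp hl with hl | rfl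
          · have h5 : |χ l s| ≤ ∑ l ∈ Finset.range m, |χ l s| :=
              Finset.single_le_sum (f := fun l => |χ l s|) (fun _ _ => abs_nonneg _)
                (Finset.mem_range.mpr (by omega))
            have h6 := (le_max_right C' (C + ∑ l ∈ Finset.range m, |χ l s|)).trans hx
            have h7 := neg_abs_le (χ l s)
            rw [hC (x * s) ⟨l, hl, by rw [hχ l (by omega)]; linarith⟩, mul_zero]
          · have h6 := (le_max_left C' (C + ∑ l ∈ Finset.range m, |χ l s|)).trans hx
            have h7 : δ s x = 0 := by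
              show Y l (x * s) - Y l x = 0
              rw [hC' x h6, sub_self]
            rw [h7, zero_mul])
    obtain ⟨κ, z', hκ, hz', hz''⟩ := h4 (MonoidAlgebra ℤ S) A (e A hAS)
      (e_comm A hab hAS) F K f hfs i z hz
    refine ih (i + 1) (by omega) (LinearMap.ker f) hker
      (u.comp (LinearMap.ker f).subtype.toAddMonoidHom) z' ?_ ?_ hz'' ?_
    · intro s p x
      show u (MonoidAlgebra.of ℤ S s • (p : F)) x = u (p : F) (x * s)
      rw [hu, hv'd, LinearMap.mem_ker.mp p.2, map_zero]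
      simp
    · intro p
      exact huJ _
    · intro x
      show u (z' (fun l => cj A x (b l)) : F) x ≠ 0
      have key : ∀ (a : A), (a : G) ∈ B → ∀ (p : F),
          u (e A hAS (cj A x a) • p) x = y i a * v (f p) x := by
        intro a haB p
        obtain ⟨hua, -⟩ := huJ p
        obtain ⟨hva, -⟩ := hJ (f p)
        have h5 : x * (cj A x a : G) = a * x := by
          show x * (x⁻¹ * a * x) = a * x
          group
        unfold e
        rw [sub_smul, one_smul, map_sub, Pi.sub_apply, hu]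
        show u p (x * (cj A x a : G)) + (Y i (x * (cj A x a : G)) - Y i x) *
          v' p (x * (cj A x a : G)) - u p x = _
        rw [hv'd, h5, hua _ haB, hva _ haB, hY1 i him _ haB]
        ring
      rw [hz', map_sum, Finset.sum_apply, Fin.sum_univ_castSucc, Finset.sum_eq_zero, zero_add]
      · rw [map_zsmul, Pi.smul_apply, key _ (hbB _ (by simpa using him)), hκ]
        have h6 : (fun l : Fin i => cj A x (b ((Fin.last i).succAbove l : Fin (i + 1)))) =
            fun l : Fin i => cj A x (b l) := by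
          funext l
          rw [Fin.succAbove_last, Fin.val_castSucc]
        rw [h6, Fin.val_last]
        have h7 := hne x
        have h8 := hy1 i him
        rcases Nat.even_or_odd i with h9 | h9
        · rw [h9.neg_one_pow, one_smul]
          exact mul_ne_zero h8 h7
        · rw [h9.neg_one_pow, neg_smul, one_smul]
          exact neg_ne_zero.mpr (mul_ne_zero h8 h7)
      · intro l _
        rw [map_zsmul, Pi.smul_apply, key _ (hbB _ (by simpa using lt_trans l.2 him)),
          Fin.val_castSucc, hy0 i him l l.2, zero_mul, smul_zero]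

/-- functions with values in the group algebra of `M` -/
def J2B {G : Type} [Group G] (B : Set G) {k : Type} [Field k] {M : Type} [AddCommGroup M]
    (χ : ℕ → G → ℝ) (ym : G → M) (m : ℕ) : AddSubgroup (G → (M →₀ k)) where
  carrier := {f | (∀ a ∈ B, ∀ x, f (a * x) = tr k (ym a) (f x)) ∧ (∀ x, ag k M (f x) = 0) ∧
    ∃ C : ℝ, ∀ x, (∃ j ≤ m, C ≤ χ j x) → f x = 0}
  zero_mem' := ⟨fun _ _ _ => (map_zero _).symm, fun _ => map_zero _, 0, fun _ _ => rfl⟩
  add_mem' := by
    rintro f g ⟨hf1, hf3, C, hf2⟩ ⟨hg1, hg3, D, hg2⟩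
    refine ⟨fun a ha x => by simp [hf1 a ha x, hg1 a ha x], fun x => by simp [hf3 x, hg3 x],
      max C D, ?_⟩
    rintro x ⟨j, hj, hx⟩
    simp [hf2 x ⟨j, hj, (le_max_left _ _).trans hx⟩, hg2 x ⟨j, hj, (le_max_right _ _).trans hx⟩]
  neg_mem' := by
    rintro f ⟨hf1, hf3, C, hf2⟩
    exact ⟨fun a ha x => by simp [hf1 a ha x], fun x => by simp [hf3 x], C,
      fun x hx => by simp [hf2 x hx]⟩

theorem fin (h1 : StUnshift) (h3 : StTwist2) (h4 : StKos) {G : Type} [Group G] (A : Subgroup G)
    [A.Normal] (hab : ∀ a ∈ A, ∀ b ∈ A, a * b = b * a) (S : Submonoid G)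
    (hAS : ∀ a ∈ A, a ∈ S) (B : Set G) (hBA : ∀ a ∈ B, a ∈ A) {k : Type} [Field k] {M : Type}
    [AddCommGroup M] (m : ℕ) (χ : ℕ → G → ℝ) (ym Ym : G → M) (b : ℕ → A)
    (hbB : ∀ i < m, (b i : G) ∈ B)
    (hχ : ∀ i ≤ m, ∀ x g, χ i (x * g) = χ i x + χ i g)
    (hS : ∀ s ∈ S, 0 ≤ ∑ i ∈ Finset.range (m + 1), χ i s)
    (hub : ∀ C : ℝ, ∃ x, C ≤ ∑ i ∈ Finset.range (m + 1), χ i x)
    (hM1 : ∀ a ∈ B, ∀ x, Ym (a * x) = ym a + Ym x)
    (hM2 : ∀ g, ∃ C : ℝ, ∀ x, C ≤ χ m x → Ym (x * g) = Ym x)
    (hinf : (ym '' B).Infinite) (hym : ∀ i < m, ym (b i) = 0)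
    (K : Type) [AddCommGroup K] [Module (MonoidAlgebra ℤ S) K]
    (hK : IsFP (MonoidAlgebra ℤ S) K 1) (v : K →+ (G → k)) (z : (Fin m → A) → K)
    (hv : ∀ (s : S) (p : K) (x : G), v (MonoidAlgebra.of ℤ S s • p) x = v p (x * s))
    (hJ : ∀ p, v p ∈ J3 B χ m)
    (hz : ∀ c : Fin (m + 1) → A, ∑ j : Fin (m + 1),
        (-1 : ℤ) ^ (j : ℕ) • (e A hAS (c j) • z (fun l => c (j.succAbove l))) = 0)
    (hne : ∀ x : G, v (z (fun l => cj A x (b l))) x ≠ 0) : False := by
  obtain ⟨F, f, hFp, _, hfs, hker⟩ := (h1 _ K 0).2 hK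
  obtain ⟨T, hT⟩ := ((h1 _ _ 0).1 hker).fg_top
  -- the twisted lift
  let v' : F →+ (G → k) := v.comp f.toAddMonoidHom
  have hv'd : ∀ p, v' p = v (f p) := fun p => rfl
  let δ : S → G → (M →₀ k) := fun s x =>
    Finsupp.single (Ym (x * s)) 1 - Finsupp.single (Ym x) 1
  have hva : ∀ (p : K), ∀ a ∈ B, ∀ x, v p (a * x) = v p x := fun p => (hJ p).1
  obtain ⟨u, hu, huJ⟩ := h3 S F hFp v' δ (J2B B χ ym m) (by
      intro s p x
      rw [hv'd, hv'd, map_smul, hv]) (by
      intro s t x
      show Finsupp.single (Ym (x * ((s * t : S) : G))) (1 : k) - Finsupp.single (Ym x) 1 = _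
      rw [Submonoid.coe_mul, ← mul_assoc]
      show _ = (Finsupp.single (Ym (x * s)) (1 : k) - Finsupp.single (Ym x) 1) +
        (Finsupp.single (Ym (x * s * t)) (1 : k) - Finsupp.single (Ym (x * s)) 1)
      abel) (by
      intro s p
      obtain ⟨ha, C, hC⟩ := hJ (f p)
      obtain ⟨C', hC'⟩ := hM2 s
      refine ⟨fun a haA x => ?_, fun x => ?_, max C' (C + ∑ l ∈ Finset.range m, |χ l s|), ?_⟩
      · show v (f p) (a * x * s) •
            (Finsupp.single (Ym (a * x * s)) (1 : k) - Finsupp.single (Ym (a * x)) 1) =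
          tr k (ym a) (v (f p) (x * s) •
            (Finsupp.single (Ym (x * s)) (1 : k) - Finsupp.single (Ym x) 1))
        rw [mul_assoc a x (s : G), hva _ a haA, hM1 a haA, hM1 a haA, map_smul, map_sub,
          tr_single, tr_single]
      · show ag k M (v (f p) (x * s) •
            (Finsupp.single (Ym (x * s)) (1 : k) - Finsupp.single (Ym x) 1)) = 0
        rw [map_smul, map_sub, ag_single, ag_single, sub_self, smul_zero]
      · rintro x ⟨l, hl, hx⟩
        show v (f p) (x * s) • δ s x = 0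
        rcases Nat.lt_or_eq_of_le hl with hl | rfl
        · have h5 : |χ l s| ≤ ∑ l ∈ Finset.range m, |χ l s| :=
            Finset.single_le_sum (f := fun l => |χ l s|) (fun _ _ => abs_nonneg _)
              (Finset.mem_range.mpr (by omega))
          have h6 := (le_max_right C' (C + ∑ l ∈ Finset.range m, |χ l s|)).trans hx
          have h7 := neg_abs_le (χ l s)
          rw [hC (x * s) ⟨l, hl, by rw [hχ l (by omega)]; linarith⟩, zero_smul]
        · have h6 := (le_max_left C' (C + ∑ l ∈ Finset.range l, |χ l s|)).trans hx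
          have h7 : δ s x = 0 := by
            show Finsupp.single (Ym (x * s)) (1 : k) - Finsupp.single (Ym x) 1 = 0
            rw [hC' x h6, sub_self]
          rw [h7, smul_zero])
  obtain ⟨κ, z', hκ, hz', -⟩ := h4 (MonoidAlgebra ℤ S) A (e A hAS)
    (e_comm A hab hAS) F K f hfs m z hz
  -- vanishing on the kernel
  let uk : LinearMap.ker f →+ (G → (M →₀ k)) := u.comp (LinearMap.ker f).subtype.toAddMonoidHom
  have huk : ∀ (s : S) (p : LinearMap.ker f) (x : G),
      uk (MonoidAlgebra.of ℤ S s • p) x = uk p (x * s) := by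
    intro s p x
    show u (MonoidAlgebra.of ℤ S s • (p : F)) x = u (p : F) (x * s)
    rw [hu, hv'd, LinearMap.mem_ker.mp p.2, map_zero]
    simp
  classical
  choose! C hC using fun t : LinearMap.ker f => (huJ t).2.2
  obtain ⟨D, hD⟩ := (T.image C).exists_le
  obtain ⟨x, hx⟩ := hub ((m + 1 : ℕ) * D)
  have hall : ∀ p ∈ Submodule.span (MonoidAlgebra ℤ S) (T : Set (LinearMap.ker f)),
      ∀ x, (m + 1 : ℕ) * D ≤ ∑ l ∈ Finset.range (m + 1), χ l x → uk p x = 0 := by
    intro p hp
    induction hp using Submodule.span_induction with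
    | mem t ht =>
      intro x hx
      refine hC t x ?_
      by_contra hcon
      push Not at hcon
      have h5 : ∑ l ∈ Finset.range (m + 1), χ l x < ∑ l ∈ Finset.range (m + 1), D := by
        refine Finset.sum_lt_sum_of_nonempty (Finset.nonempty_range_iff.mpr (by omega)) ?_
        intro l hl
        exact (hcon l (Nat.lt_succ_iff.mp (Finset.mem_range.mp hl))).trans_le
          (hD _ (Finset.mem_image_of_mem C ht))
      rw [Finset.sum_const, Finset.card_range, nsmul_eq_mul] at h5
      exact absurd hx (not_le.mpr h5)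
    | zero => intro x _; simp
    | add p q _ _ hp hq => intro x hx; rw [map_add, Pi.add_apply, hp x hx, hq x hx, add_zero]
    | smul r p _ hp =>
      refine smul_good2 uk huk
        (fun x => (m + 1 : ℕ) * D ≤ ∑ l ∈ Finset.range (m + 1), χ l x) ?_ p hp r
      intro s x hx
      have h6 : ∑ l ∈ Finset.range (m + 1), χ l (x * s) =
          ∑ l ∈ Finset.range (m + 1), χ l x + ∑ l ∈ Finset.range (m + 1), χ l s := by
        rw [← Finset.sum_add_distrib]
        exact Finset.sum_congr rfl fun l hl =>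
          hχ l (Nat.lt_succ_iff.mp (Finset.mem_range.mp hl)) x s
      show (m + 1 : ℕ) * D ≤ ∑ l ∈ Finset.range (m + 1), χ l (x * s)
      rw [h6]
      linarith [hS s s.2]
  have hker0 : ∀ p : LinearMap.ker f, uk p x = 0 := fun p => hall p (by rw [hT]; trivial) x hx
  -- the equivariant function
  let ν : F → (M →₀ k) := fun p => u p x + v (f p) x • Finsupp.single (Ym x) 1
  have key : ∀ (a : A), (a : G) ∈ B → ∀ (p : F),
      u (e A hAS (cj A x a) • p) x = tr k (ym a) (ν p) - ν p := by
    intro a haB p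
    have h5 : x * (cj A x a : G) = a * x := by
      show x * (x⁻¹ * a * x) = a * x
      group
    have h6 : u (e A hAS (cj A x a) • p) x = u p (a * x) +
        v (f p) (a * x) • (Finsupp.single (Ym (a * x)) (1 : k) - Finsupp.single (Ym x) 1) -
        u p x := by
      unfold e
      rw [sub_smul, one_smul, map_sub, Pi.sub_apply, hu]
      show u p (x * (cj A x a : G)) + v (f p) (x * (cj A x a : G)) •
        (Finsupp.single (Ym (x * (cj A x a : G))) (1 : k) - Finsupp.single (Ym x) 1) - u p x = _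
      rw [h5]
    rw [h6, (huJ p).1 _ haB, hva _ _ haB, hM1 _ haB]
    show tr k (ym a) (u p x) + v (f p) x •
        (Finsupp.single (ym a + Ym x) (1 : k) - Finsupp.single (Ym x) 1) - u p x =
      tr k (ym a) (u p x + v (f p) x • Finsupp.single (Ym x) 1) -
        (u p x + v (f p) x • Finsupp.single (Ym x) 1)
    rw [map_add, map_smul, tr_single, smul_sub]
    abel
  have hinv : ∀ a ∈ ym '' B, tr k a (ν (κ (fun l => cj A x (b l)))) =
      ν (κ (fun l => cj A x (b l))) := by
    rintro _ ⟨a, ha, rfl⟩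
    have h7 := hker0 (z' (fun l : Fin (m + 1) =>
      cj A x (if (l : ℕ) < m then b l else ⟨a, hBA a ha⟩)))
    have h8 : u (z' (fun l : Fin (m + 1) =>
      cj A x (if (l : ℕ) < m then b l else ⟨a, hBA a ha⟩)) : F) x = 0 := h7
    rw [hz', map_sum, Finset.sum_apply, Fin.sum_univ_castSucc, Finset.sum_eq_zero,
      zero_add] at h8
    · have h9 : (fun l : Fin m => cj A x (if (((Fin.last m).succAbove l : Fin (m + 1)) : ℕ) < m
          then b ((Fin.last m).succAbove l : Fin (m + 1)) else ⟨a, hBA a ha⟩)) =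
          fun l : Fin m => cj A x (b l) := by
        funext l
        rw [Fin.succAbove_last, Fin.val_castSucc, if_pos l.2]
      rw [map_zsmul, Pi.smul_apply, h9, Fin.val_last, if_neg (lt_irrefl m), key _ ha] at h8
      have h10 : tr k (ym a) (ν (κ (fun l => cj A x (b l)))) -
          ν (κ (fun l => cj A x (b l))) = 0 := by
        rcases Nat.even_or_odd m with h9 | h9
        · rw [h9.neg_one_pow, one_smul] at h8
          exact h8
        · rw [h9.neg_one_pow, neg_smul, one_smul] at h8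
          exact neg_eq_zero.mp h8
      exact sub_eq_zero.mp h10
    · intro l _
      rw [map_zsmul, Pi.smul_apply, Fin.val_castSucc, if_pos l.2, key _ (hbB l l.2), hym l l.2,
        tr_zero, sub_self, smul_zero]
  have h0 := inv_zero _ _ hinf hinv
  have h1 : ag k M (ν (κ (fun l => cj A x (b l)))) = v (z (fun l => cj A x (b l))) x := by
    show ag k M (u (κ (fun l => cj A x (b l))) x +
      v (f (κ (fun l => cj A x (b l)))) x • Finsupp.single (Ym x) 1) = _
    rw [map_add, (huJ _).2.1, zero_add, map_smul, ag_single, hκ, smul_eq_mul, mul_one]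
  rw [h0, map_zero] at h1
  exact hne x h1.symm

end Cor3

open Cor Cor2 Cor3 in
theorem I_Core3 (h1 : StUnshift) (h3 : StTwist) (h3' : StTwist2) (h4 : StKos) : StCore3 := by
  intro G _ A _ hab S hAS B hBA k _ M _ m χ y Y ym Ym b hχ hS hub hY1 hY2 hM1 hM2 hinf hb hyb hy0
    hy1 hfp
  classical
  let b' : ℕ → A := fun i => if h : i < m then ⟨b i, hBA _ (hb i h)⟩ else 1
  have hb' : ∀ i < m, (b' i : G) = b i := by
    intro i hi
    simp only [b', dif_pos hi]
  have hof : ∀ (s : S) (p : Triv S), MonoidAlgebra.of ℤ S s • p = p := by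
    intro s p
    show (aug S (MonoidAlgebra.of ℤ S s)) * (show ℤ from p) = p
    have : aug S (MonoidAlgebra.of ℤ S s) = 1 := by
      simp [aug]
    rw [this, one_mul]
  let v : Triv S →+ (G → k) :=
    { toFun := fun n _ => ((show ℤ from n : ℤ) : k)
      map_zero' := by funext x; exact Int.cast_zero
      map_add' := by intro a c; funext x; exact Int.cast_add _ _ }
  have hbB : ∀ i < m, (b' i : G) ∈ B := by
    intro i hi
    rw [hb' i hi]; exact hb i hi
  refine Cor3.auxG h1 h3 h4 A hab S hAS B m χ y Y b' hbB (fun i hi => hχ i hi.le) hY1 hY2 ?_ ?_ 1 ?_ m 0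
    (by omega) (Triv S) hfp v (fun _ => (show Triv S from (1 : ℤ))) ?_ ?_ ?_ ?_
  · intro i hi j hj
    rw [hb' j (by omega)]; exact hy0 i hi j hj
  · intro i hi
    rw [hb' i hi]; exact hy1 i hi
  · intro K _ _ hK v z hv hJ hz hne
    refine Cor3.fin h1 h3' h4 A hab S hAS B hBA m χ ym Ym b' hbB hχ hS hub hM1 hM2 hinf ?_ K hK v
      z hv hJ hz hne
    intro i hi
    rw [hb' i hi]; exact hyb i hi
  · intro s p x
    rw [hof]
    rfl
  · intro p
    exact ⟨fun _ _ _ => rfl, 0, fun x ⟨j, hj, _⟩ => absurd hj (Nat.not_lt_zero j)⟩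
  · intro c
    rw [Fin.sum_univ_one]
    unfold e
    rw [sub_smul, hof, one_smul, sub_self, smul_zero]
  · intro x
    show (((1 : ℤ) : k)) ≠ 0
    simp

end Pool.Agent.Work.MP_e9e200_al

end

section

/-!
# Project O3, item EXT: the extension property for subsets, based criterion
-/

set_option autoImplicit false

namespace Pool.Agent.Work.MP_e9e200_al.O3

open Set Metric Topology OnePoint

namespace XEXT

/-- the extension property of a space -/
def ExT (Z : Type) [TopologicalSpace Z] (n : ℕ) : Prop :=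
  ∀ g : E (n + 1) → Z, ContinuousOn g (sphere 0 1) →
    ∃ G : E (n + 1) → Z, ContinuousOn G (closedBall 0 1) ∧ EqOn G g (sphere 0 1)

theorem facCont {n : ℕ} {Z : Type} [TopologicalSpace Z] (z : Z) (F : E n → Z) (hF : Lo z F) :
    ContinuousOn (fac z F) (sphere 0 1) := by
  have hcl1 : IsClosed {x : E (n + 1) | 0 ≤ x 0} :=
    isClosed_le continuous_const (continuous_apply 0)
  have hcl2 : IsClosed {x : E (n + 1) | x 0 ≤ 0} :=
    isClosed_le (continuous_apply 0) continuous_const
  have hsplit : sphere (0 : E (n + 1)) 1 =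
      (sphere (0 : E (n + 1)) 1 ∩ {x | 0 ≤ x 0}) ∪ (sphere (0 : E (n + 1)) 1 ∩ {x | x 0 ≤ 0}) := by
    rw [← inter_union_distrib_left]
    refine (inter_eq_left.2 ?_).symm
    intro x _
    exact le_total 0 (x 0)
  have hG : Continuous (fun x : E (n + 1) => F (fun i => x i.succ)) :=
    hF.1.comp (by fun_prop)
  have h1 : ContinuousOn (fac z F) (sphere (0 : E (n + 1)) 1 ∩ {x | 0 ≤ x 0}) := by
    refine hG.continuousOn.congr ?_
    rintro x ⟨hx, hx0⟩
    rw [mem_sphere_zero_iff_norm] at hx
    have hx0' : (0 : ℝ) ≤ x 0 := hx0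
    unfold fac
    split_ifs with h
    · rfl
    · symm
      apply hF.2
      by_contra hlt
      rw [not_le] at hlt
      have hle : x 0 ≤ 1 := by
        have := norm_le_pi_norm x 0
        rw [hx, Real.norm_eq_abs] at this
        exact (le_abs_self _).trans this
      have hlt0 : x 0 < 1 := lt_of_le_of_ne hle h
      have : ‖x‖ < 1 := by
        rw [pi_norm_lt_iff one_pos]
        intro i
        refine Fin.cases ?_ (fun j => ?_) i
        · rw [Real.norm_eq_abs, abs_of_nonneg hx0']
          exact hlt0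
        · exact lt_of_le_of_lt (norm_le_pi_norm (fun i : Fin n => x i.succ) j) hlt
      linarith
  have h2 : ContinuousOn (fac z F) (sphere (0 : E (n + 1)) 1 ∩ {x | x 0 ≤ 0}) := by
    refine (continuousOn_const (c := z)).congr ?_
    rintro x ⟨-, hx0⟩
    have hx0' : x 0 ≤ (0 : ℝ) := hx0
    unfold fac
    rw [if_neg (by intro h; linarith)]
  rw [hsplit]
  exact h1.union_of_isClosed h2 (isClosed_sphere.inter hcl1) (isClosed_sphere.inter hcl2)

theorem ext_iff {X : Type} [TopologicalSpace X] (A : Set X) (n : ℕ) (hA : A.Nonempty) :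
    Ext A n ↔ ExT A n := by
  classical
  obtain ⟨a₀, ha₀⟩ := hA
  constructor
  · intro h g hg
    obtain ⟨F, hFc, hFA, hFe⟩ := h (fun x => (g x : X)) (continuous_subtype_val.comp_continuousOn hg)
      (fun x _ => (g x).2)
    refine ⟨fun x => if hx : F x ∈ A then ⟨F x, hx⟩ else ⟨a₀, ha₀⟩, ?_, ?_⟩
    · rw [IsInducing.subtypeVal.continuousOn_iff]
      refine hFc.congr ?_
      intro x hx
      have hx' : F x ∈ A := hFA hx
      simp [hx']
    · intro x hx
      have hx' : F x ∈ A := hFA (sphere_subset_closedBall hx)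
      apply Subtype.ext
      simp only [hx', dif_pos]
      exact hFe hx
  · intro h f hf hfA
    obtain ⟨G, hGc, hGe⟩ := h (fun x => if hx : f x ∈ A then ⟨f x, hx⟩ else ⟨a₀, ha₀⟩) (by
      rw [IsInducing.subtypeVal.continuousOn_iff]
      refine hf.congr ?_
      intro x hx
      have hx' : f x ∈ A := hfA hx
      simp [hx'])
    refine ⟨fun x => (G x : X), continuous_subtype_val.comp_continuousOn hGc, fun x _ => (G x).2, ?_⟩
    intro x hx
    have hx' : f x ∈ A := hfA hx
    have := hGe hx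
    simp only [hx', dif_pos] at this
    show (G x : X) = f x
    rw [this]

theorem based_of (hNUL : StNUL) {n : ℕ} {Z : Type} [TopologicalSpace Z] (h : ExT Z n) (z : Z)
    (F : E n → Z) (hF : Lo z F) : Ho z F (fun _ => z) := by
  rw [hNUL n Z z F hF]
  obtain ⟨G, hG, hGe⟩ := h (fac z F) (facCont z F hF)
  exact ⟨G, hG, hGe⟩

theorem of_based (hSPH : StSPH) (hNUL : StNUL) (hEXH : StEXH) {n : ℕ} {Z : Type}
    [TopologicalSpace Z] (h : ∀ (z : Z) (F : E n → Z), Lo z F → Ho z F (fun _ => z)) :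
    ExT Z n := by
  intro g hg
  obtain ⟨z, F, H, hF, -, -, hH, hH0, hH1, -⟩ := hSPH n Z g hg
  obtain ⟨G, hG, hGe⟩ := (hNUL n Z z F hF).1 (h z F hF)
  obtain ⟨F', hF'c, -, hF'e⟩ := hEXH n Z univ H G hH (fun _ _ _ _ => mem_univ _) hG
    (fun _ _ => mem_univ _) (fun x hx => by rw [hGe hx, hH1 x hx])
  exact ⟨F', hF'c, fun x hx => by rw [hF'e x hx, hH0 x hx]⟩

/-- a path between two points -/
theorem path {Z : Type} [TopologicalSpace Z] (h : ExT Z 0) (z' z : Z) :
    ∃ γ : ℝ → Z, ContinuousOn γ (Icc 0 1) ∧ γ 0 = z' ∧ γ 1 = z := by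
  have hLo : Lo z (fun _ : E 0 => z') := by
    refine ⟨continuous_const, fun x hx => ?_⟩
    exfalso
    have : ‖x‖ = 0 := by
      have : x = 0 := Subsingleton.elim _ _
      rw [this, norm_zero]
    linarith
  obtain ⟨G, hG, hGe⟩ := h _ (facCont z (fun _ : E 0 => z') hLo)
  refine ⟨fun t => G (fun _ => 1 - 2 * t), ?_, ?_, ?_⟩
  · refine hG.comp (by fun_prop) ?_
    intro t ht
    rw [mem_closedBall_zero_iff, pi_norm_le_iff_of_nonneg zero_le_one]
    intro i
    rw [Real.norm_eq_abs, abs_le]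
    obtain ⟨h0, h1⟩ := ht
    constructor <;> linarith
  · show G (fun _ => 1 - 2 * 0) = z'
    have hs : (fun _ : Fin 1 => (1 - 2 * 0 : ℝ)) ∈ sphere (0 : E 1) 1 := by
      rw [mem_sphere_zero_iff_norm]
      simp
    rw [hGe hs]
    unfold fac
    rw [if_pos (by norm_num)]
  · show G (fun _ => 1 - 2 * 1) = z
    have hs : (fun _ : Fin 1 => (1 - 2 * 1 : ℝ)) ∈ sphere (0 : E 1) 1 := by
      rw [mem_sphere_zero_iff_norm]
      rw [pi_norm_const]
      norm_num
    rw [hGe hs]
    unfold fac
    rw [if_neg (by norm_num)]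

end XEXT

theorem I_EXT (hSPH : StSPH) (hNUL : StNUL) (hEXH : StEXH) (hBAS : StBAS) : StEXT := by
  intro X _ A n hA
  have h2 : Ext A n ↔ ∀ (z : A) (F : E n → A), Lo z F → Ho z F (fun _ => z) := by
    rw [XEXT.ext_iff A n hA]
    exact ⟨fun h z F hF => XEXT.based_of hNUL h z F hF, fun h => XEXT.of_based hSPH hNUL hEXH h⟩
  refine ⟨XEXT.ext_iff A n hA, h2, ?_⟩
  intro h0 z
  rw [h2]
  refine ⟨fun h F hF => h z F hF, ?_⟩
  intro h z' F hF
  obtain ⟨γ, hγ, hγ0, hγ1⟩ := XEXT.path ((XEXT.ext_iff A 0 hA).1 h0) z' z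
  obtain ⟨F', H, hF', -, hH, hHe, -⟩ := hBAS n A z' z F γ hF hγ hγ0 hγ1
  obtain ⟨G', hG', hG'e⟩ := (hNUL n A z F' hF').1 (h F' hF')
  obtain ⟨G, hG, -, hGe⟩ := hEXH n A univ H G' hH (fun _ _ _ _ => mem_univ _) hG'
    (fun _ _ => mem_univ _) (fun x hx => by rw [hG'e hx, (hHe x hx).2])
  exact (hNUL n A z' F hF).2 ⟨G, hG, fun x hx => by rw [hGe x hx, (hHe x hx).1]⟩

end Pool.Agent.Work.MP_e9e200_al.O3

end

section

/-!
# Project O3, item SK: basic facts on skeleta
-/

set_option autoImplicit false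

namespace Pool.Agent.Work.MP_e9e200_al.O3

open Set Metric Topology OnePoint

section
open Topology.RelCWComplex

namespace XSK

theorem sk_eq {X : Type} [TopologicalSpace X] [T2Space X] (C : Set X) [CWComplex C] (n : ℕ) :
    sk C n = ((skeletonLT C (n : ℕ∞)) : Set X) := by
  rw [coe_skeletonLT, empty_union]
  unfold sk
  ext x
  simp only [mem_iUnion, exists_prop, Nat.cast_lt]

end XSK

open XSK in
theorem I_SK : StSK := by
  intro X _ _ C _
  refine ⟨fun n => ⟨?_, ?_, ?_⟩, fun n => ?_, fun n e => ⟨?_, ?_, ?_⟩, fun n => ?_, ?_, ?_⟩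
  · rw [sk_eq]
    exact (skeletonLT C (n : ℕ∞)).closed
  · rw [sk_eq]
    exact (skeletonLT C (n : ℕ∞)).subset_complex
  · rw [sk_eq, sk_eq]
    exact skeletonLT_mono (by exact_mod_cast Nat.le_succ n)
  · rw [sk_eq, ← CWComplex.iUnion_openCell_eq_skeletonLT]
    ext x
    simp only [mem_iUnion, exists_prop, Nat.cast_lt]
  · rw [sk_eq]
    exact cellFrontier_subset_skeletonLT n e
  · rw [sk_eq]
    exact (disjoint_skeletonLT_openCell le_rfl).symm
  · rw [sk_eq]
    have h := closedCell_subset_skeletonLT n e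
    exact_mod_cast h
  · refine ⟨skeletonLT C (n : ℕ∞), (sk_eq C n).symm, fun m => ?_⟩
    rw [skeletonLT_I]
    ext e
    simp only [Set.mem_ofPred_eq, Nat.cast_lt]
  · unfold sk
    simp
  · intro x hx
    rw [← CWComplex.union (C := C)] at hx
    obtain ⟨n, e, hxe⟩ : ∃ (n : ℕ) (e : cell C n), x ∈ closedCell n e := by
      simpa only [mem_iUnion] using hx
    refine ⟨n + 1, ?_⟩
    unfold sk
    simp only [mem_iUnion, exists_prop]
    exact ⟨n, Nat.lt_succ_self n, e, hxe⟩

end

end Pool.Agent.Work.MP_e9e200_al.O3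

end

section

set_option autoImplicit false

namespace Pool.Agent.Work.MP_e9e200_al.LC

open Finsupp

namespace BG

section

variable {k : Type} [CommRing k] {G H B B' : Type} [Group G] [Group H]

theorem tr_single (h : H) (p : H × B) (c : k) :
    tr k h (single p c) = single (h * p.1, p.2) c := by
  simp [tr]

theorem tr_tr (g h : H) (x : H × B →₀ k) : tr k g (tr k h x) = tr k (g * h) x := by
  induction x using Finsupp.induction_linear with
  | zero => simp
  | add f g hf hg => simp only [map_add, hf, hg]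
  | single p c => simp only [tr_single, mul_assoc]

theorem mp_single (ρ : G →* H) (p : G × B) (c : k) :
    mp k ρ (single p c) = single (ρ p.1, p.2) c := by
  simp [mp]

theorem ext_single (u : B → (H × B' →₀ k)) (p : H × B) (c : k) :
    ext k u (single p c) = c • tr k p.1 (u p.2) := by
  simp [ext]

theorem ext_tr (u : B → (H × B' →₀ k)) (q : H) (x : H × B →₀ k) :
    ext k u (tr k q x) = tr k q (ext k u x) := by
  induction x using Finsupp.induction_linear with
  | zero => simp
  | add f g hf hg => simp only [map_add, hf, hg]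
  | single p c => rw [tr_single, ext_single, ext_single, map_smul, tr_tr]

theorem mp_tr (ρ : G →* H) (g : G) (x : G × B →₀ k) :
    mp k ρ (tr k g x) = tr k (ρ g) (mp k ρ x) := by
  induction x using Finsupp.induction_linear with
  | zero => simp
  | add f g hf hg => simp only [map_add, hf, hg]
  | single p c => rw [tr_single, mp_single, mp_single, tr_single, map_mul]

theorem mp_ext (ρ : G →* H) (u : B → (G × B' →₀ k)) (x : G × B →₀ k) :
    mp k ρ (ext k u x) = ext k (fun b => mp k ρ (u b)) (mp k ρ x) := by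
  induction x using Finsupp.induction_linear with
  | zero => simp
  | add f g hf hg => simp only [map_add, hf, hg]
  | single p c => rw [ext_single, map_smul, mp_single, ext_single, mp_tr]

end

theorem vl_bch {G : Type} [Group G] (χ : Chr G) (g : G) :
    vl (bch χ) (Abelianization.of g) = vl χ g := by
  unfold vl bch
  rw [Abelianization.lift_apply_of]

theorem vl_mul {G : Type} [Group G] (χ : Chr G) (g h : G) :
    vl χ (g * h) = vl χ g + vl χ h := by
  unfold vl
  rw [map_mul, toAdd_mul]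

end BG

open BG in
theorem I_BG : StBG := by
  classical
  intro G _ ι _ χ χs m B _ deg db eb hP
  haveI := Fintype.ofFinite ι
  haveI := Fintype.ofFinite B
  refine ⟨∑ b, ∑ p ∈ (db b).support, ∑ j, |vl (χs j) p.1|, ?_, ?_, ?_⟩
  · exact Finset.sum_nonneg fun b _ => Finset.sum_nonneg fun p _ =>
      Finset.sum_nonneg fun j _ => abs_nonneg _
  · intro x
    show ext ℂ (fun b => mp ℂ Abelianization.of (db b))
      (ext ℂ (fun b => mp ℂ Abelianization.of (db b)) (show Abelianization G × B →₀ ℂ from x)) = 0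
    induction (show Abelianization G × B →₀ ℂ from x) using Finsupp.induction_linear with
    | zero => simp
    | add f g hf hg => simp only [map_add, hf, hg, add_zero]
    | single p c =>
      rw [ext_single, map_smul, ext_tr, ← mp_ext, hP.dd, map_zero, map_zero, smul_zero]
  · intro x hx
    have hx' : 0 ≤ vl (bch χ) x.1 := hx
    rw [Finsupp.mem_supported]
    intro y hy
    have hy' : y ∈ (ext ℂ (fun b => mp ℂ Abelianization.of (db b))
        (single (show Abelianization G × B from x) 1)).support := hy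
    rw [ext_single, one_smul] at hy'
    unfold tr mp at hy'
    rw [Finsupp.lmapDomain_apply, Finsupp.lmapDomain_apply] at hy'
    have h1 := Finsupp.mapDomain_support hy'
    obtain ⟨z, hz, rfl⟩ := Finset.mem_image.1 h1
    obtain ⟨p, hp, rfl⟩ := Finset.mem_image.1 (Finsupp.mapDomain_support hz)
    have hs := (Finsupp.mem_supported _ _).1 (hP.db_sup x.2) hp
    obtain ⟨hs1, hs2⟩ := hs
    refine ⟨?_, hs2, ?_⟩
    · show 0 ≤ vl (bch χ) (x.1 * Abelianization.of p.1)
      rw [vl_mul, vl_bch]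
      have : 0 ≤ vl χ p.1 := hs1
      omega
    · intro j
      show |vl (bch (χs j)) (x.1 * Abelianization.of p.1) - vl (bch (χs j)) x.1| ≤ _
      rw [vl_mul, vl_bch, add_sub_cancel_left]
      calc |vl (χs j) p.1| ≤ ∑ j, |vl (χs j) p.1| :=
            Finset.single_le_sum (f := fun j => |vl (χs j) p.1|) (fun _ _ => abs_nonneg _)
              (Finset.mem_univ j)
        _ ≤ ∑ p ∈ (db x.2).support, ∑ j, |vl (χs j) p.1| :=
            Finset.single_le_sum (f := fun p : G × B => ∑ j, |vl (χs j) p.1|)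
              (fun _ _ => Finset.sum_nonneg fun _ _ => abs_nonneg _) hp
        _ ≤ ∑ b, ∑ p ∈ (db b).support, ∑ j, |vl (χs j) p.1| :=
            Finset.single_le_sum (f := fun b : B => ∑ p ∈ (db b).support, ∑ j, |vl (χs j) p.1|)
              (fun _ _ => Finset.sum_nonneg fun _ _ => Finset.sum_nonneg fun _ _ => abs_nonneg _)
              (Finset.mem_univ x.2)

end Pool.Agent.Work.MP_e9e200_al.LC

end

section

/-!
# Project LC: cycles can be pushed down in all directions
-/

set_option autoImplicit false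

namespace Pool.Agent.Work.MP_e9e200_al.LC.CORE

open Finsupp

/-- a linear functional which separates a vector from a submodule -/
theorem sep {V : Type} [AddCommGroup V] [Module ℂ V] (W : Submodule ℂ V) (x : V) (hx : x ∉ W) :
    ∃ f : V →ₗ[ℂ] ℂ, (∀ y ∈ W, f y = 0) ∧ f x = 1 := by
  obtain ⟨g, hg, hW⟩ := Submodule.exists_le_ker_of_notMem (p := W) (v := x) hx
  refine ⟨(g x)⁻¹ • g, fun y hy => ?_, ?_⟩
  · have : g y = 0 := hW hy
    simp [this]
  · simp [hg]

theorem claim (hOM : StOM) (hTWI : StTWI) (ι : Type) [Fintype ι] [DecidableEq ι] (L : BC ι)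
    (K : ℤ) (hK : L.Good K) (m : ℕ) (hm : Fintype.card ι = m)
    (hBd : ∀ I : Finset ι, I ≠ Finset.univ → ∀ d, d < m → L.Bd I d)
    (hTw : ∀ J : Finset ι, J.Nonempty → ∀ e, e < m → L.Twisted J e) :
    ∀ (n : ℕ) (J : Finset ι), J.card = n → ∀ i : ℕ, (i + J.card < m ∨ (J = Finset.univ ∧ i = 0)) →
      L.Push J i := by
  intro n
  induction n using Nat.strong_induction_on with
  | _ n ih =>
    intro J hJ i hi
    rcases J.eq_empty_or_nonempty with hE | hN
    · subst hE
      intro s x hx hD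
      refine ⟨x, ?_, hD, 0, Submodule.zero_mem _, by simp⟩
      have : L.lo (∅ : Finset ι) s = fun _ => True := by
        funext y
        simp [BC.lo]
      rw [this]
      exact hx
    · obtain ⟨j, T, hl⟩ : ∃ j T, J.toList = j :: T := by
        rcases h : J.toList with _ | ⟨j, T⟩
        · rw [Finset.toList_eq_nil] at h
          exact absurd h hN.ne_empty
        · exact ⟨j, T, rfl⟩
      have hnd : (j :: T).Nodup := hl ▸ J.nodup_toList
      have hfs : (j :: T).toFinset = J := by rw [← hl, Finset.toList_toFinset]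
      have hcard : J.card = T.length + 1 := by
        rw [← Finset.length_toList, hl, List.length_cons]
      have he : i + T.length < m := by
        rcases hi with h | ⟨h1, h2⟩
        · omega
        · have h3 : J.card = m := by rw [h1, Finset.card_univ, hm]
          omega
      intro s ξ hξ hD
      by_contra hcon
      set V : Submodule ℂ (L.X →₀ ℂ) :=
        Submodule.map L.D (L.S (i + 1) (fun _ => True)) ⊔ L.S i (L.lo J s) with hV
      have hnot : ξ ∉ V := by
        intro hmem
        rw [hV, Submodule.mem_sup] at hmem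
        obtain ⟨y, ⟨w, hw, rfl⟩, u, hu, hyu⟩ := hmem
        apply hcon
        refine ⟨u, hu, ?_, w, hw, ?_⟩
        · have : u = ξ - L.D w := by rw [← hyu]; abel
          rw [this, map_sub, hD, hK.2.1 w, sub_zero]
        · rw [← hyu]; abel
      obtain ⟨f, hf, hf1⟩ := sep V ξ hnot
      have hss : ∀ I : Finset ι, I ⊂ (j :: T).toFinset → I ≠ Finset.univ ∧ I.card < J.card := by
        intro I hI
        rw [hfs] at hI
        refine ⟨?_, Finset.card_lt_card hI⟩
        rintro rfl
        exact absurd (Finset.subset_univ J) hI.2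
      obtain ⟨r, K1, s1, Ω, hΩ1, hΩ2, hΩ3⟩ := hOM ι L K hK i j T hnd
        (fun I hI d hd => hBd I (hss I hI).1 d (by omega))
        (fun I hI d hd => ih I.card (by have := (hss I hI).2; omega) I rfl d (Or.inl (by omega)))
        f s ξ
        (fun w hw => hf _ (Submodule.mem_sup_left ⟨w, hw, rfl⟩))
        (fun y hy => hf _ (Submodule.mem_sup_right (by rw [hfs] at hy; exact hy)))
        hξ hD hf1
      exact hTWI ι L K hK (j :: T).toFinset (i + T.length)
        (hTw _ (by rw [hfs]; exact hN) _ he) r K1 s1 Ω hΩ1 hΩ2 hΩ3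

end Pool.Agent.Work.MP_e9e200_al.LC.CORE

namespace Pool.Agent.Work.MP_e9e200_al.LC

theorem I_CORE (hOM : StOM) (hTWI : StTWI) : StCORE := by
  intro ι _ _ L K hK m hm h1 hBd hTw
  exact CORE.claim hOM hTWI ι L K hK m hm hBd hTw _ Finset.univ rfl 0 (Or.inr ⟨rfl, rfl⟩)

end Pool.Agent.Work.MP_e9e200_al.LC

end

section

/-!
# Extension of characters of abelian groups
-/

set_option autoImplicit false

namespace Pool.Agent.Work.MP_e9e200_al.LC

namespace EXT

/-- every unit of `ℂ` has roots of all orders -/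
theorem roots (n : ℕ) (hn : n ≠ 0) (x : ℂˣ) : ∃ y : ℂˣ, y ^ n = x := by
  obtain ⟨z, hz⟩ := IsAlgClosed.exists_pow_nat_eq (x : ℂ) (Nat.pos_of_ne_zero hn)
  have hz0 : z ≠ 0 := by
    rintro rfl
    rw [zero_pow hn] at hz
    exact x.ne_zero hz.symm
  refine ⟨Units.mk0 z hz0, ?_⟩
  ext
  simpa using hz

noncomputable instance divNat : DivisibleBy (Additive ℂˣ) ℕ :=
  divisibleByOfSMulRightSurj _ _ (fun {n} hn x => by
    obtain ⟨y, hy⟩ := roots n hn (Additive.toMul x)
    exact ⟨Additive.ofMul y, by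
      show n • Additive.ofMul y = x
      rw [← ofMul_pow, hy]
      rfl⟩)

noncomputable instance divInt : DivisibleBy (Additive ℂˣ) ℤ :=
  AddGroup.divisibleByIntOfDivisibleByNat _

end EXT

theorem I_EXT : StEXT := by
  intro M _ U f
  have hinj : Module.Injective ℤ (Additive ℂˣ) :=
    (Module.Baer.of_divisible (Additive ℂˣ)).injective
  obtain ⟨h, hh⟩ := hinj.out (U.subtype.toIntLinearMap) Subtype.val_injective
    ((MonoidHom.toAdditiveRight f).toIntLinearMap)
  refine ⟨AddMonoidHom.toMultiplicativeLeft h.toAddMonoidHom, fun u => ?_⟩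
  have := congrArg Additive.toMul (hh u)
  exact this

end Pool.Agent.Work.MP_e9e200_al.LC

end

section

/-!
# Item OM: the functional `Ω` and the chains `z`
-/

set_option autoImplicit false

namespace Pool.Agent.Work.MP_e9e200_al.LC

open Finsupp

namespace OM

variable {ι : Type}

theorem van (L : BC ι) (Φ : (L.X →₀ ℂ) →ₗ[ℂ] ℂ) (A : Set L.X)
    (h : ∀ x ∈ A, Φ (single x 1) = 0) (y : L.X →₀ ℂ) (hy : y ∈ Finsupp.supported ℂ ℂ A) :
    Φ y = 0 := by
  rw [Finsupp.supported_eq_span_single] at hy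
  induction hy using Submodule.span_induction with
  | mem z hz =>
    obtain ⟨x, hx, rfl⟩ := hz
    exact h x hx
  | zero => exact map_zero _
  | add a b _ _ ha hb => rw [map_add, ha, hb, add_zero]
  | smul c a _ ha => rw [map_smul, ha, smul_zero]

theorem tau_single (L : BC ι) (r : ℤ) (j : ι) (x : L.X) :
    L.tau r j (single x 1) = if r ≤ L.ht j x then single x (1 : ℂ) else 0 := by
  unfold BC.tau
  rw [Finsupp.linearCombination_single, one_smul]

theorem S_mono (L : BC ι) {d : ℕ} {P Q : L.X → Prop} (h : ∀ x, P x → Q x) {y : L.X →₀ ℂ}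
    (hy : y ∈ L.S d P) : y ∈ L.S d Q := by
  refine Finsupp.supported_mono ?_ hy
  rintro x ⟨h1, h2, h3⟩
  exact ⟨h1, h2, h x h3⟩

theorem T_mono (L : BC ι) {P Q : L.X → Prop} (h : ∀ x, P x → Q x) {y : L.X →₀ ℂ}
    (hy : y ∈ L.T P) : y ∈ L.T Q := by
  refine Finsupp.supported_mono ?_ hy
  rintro x ⟨h1, h2⟩
  exact ⟨h1, h x h2⟩

theorem S_le_T (L : BC ι) {d : ℕ} {P Q : L.X → Prop} (h : ∀ x, P x → Q x) {y : L.X →₀ ℂ}
    (hy : y ∈ L.S d P) : y ∈ L.T Q := by
  refine Finsupp.supported_mono ?_ hy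
  rintro x ⟨h1, _, h3⟩
  exact ⟨h1, h x h3⟩

/-- cutting off the cells with `ht j < r` does not change the value of `W` -/
theorem W_tau [DecidableEq ι] (hWV : StWV) (L : BC ι) (K : ℤ) (hG : L.Good K) (J : Finset ι)
    (i : ℕ) (f : (L.X →₀ ℂ) →ₗ[ℂ] ℂ) (s0 r : ℤ)
    (hf1 : ∀ w ∈ L.S (i + 1) (fun _ => True), f (L.D w) = 0)
    (hf2 : ∀ y ∈ L.S i (L.lo J s0), f y = 0) (T : List ι) (hT : ∀ j ∈ T, j ∈ J)
    (hr : r + 2 * T.length * K ≤ s0) (j : ι) (I : Finset ι) (c : ℤ) (hc : c ≤ r)
    (hJ : ∀ l ∈ J, l ∉ T → l ∈ I ∨ l = j) (x : L.X →₀ ℂ)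
    (hx : x ∈ L.S (i + T.length) (L.lo I c)) :
    L.W r f T (L.tau r j x) = L.W r f T x := by
  have h1 : ((L.W r f T) ∘ₗ (LinearMap.id - L.tau r j)) x = 0 := by
    refine van L _ _ ?_ x hx
    rintro y ⟨hyR, hyd, hyI⟩
    rw [LinearMap.comp_apply, LinearMap.sub_apply, LinearMap.id_apply, tau_single]
    by_cases h : r ≤ L.ht j y
    · rw [if_pos h, sub_self, map_zero]
    · rw [if_neg h, sub_zero]
      refine (hWV ι L K hG J i f s0 r hf1 hf2 T hT y hyR hyd).2.2 0 le_rfl (by linarith) ?_
      intro l hl hlT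
      rcases hJ l hl hlT with h1 | h1
      · have := hyI l h1
        linarith
      · rw [h1]
        linarith [not_le.1 h]
  rw [LinearMap.comp_apply, LinearMap.sub_apply, LinearMap.id_apply, map_sub, sub_eq_zero] at h1
  exact h1.symm

theorem claim [DecidableEq ι] (hV : StV) (hWV : StWV) (L : BC ι) (K : ℤ) (hG : L.Good K) (i : ℕ)
    (J : Finset ι) (t : ℕ) (hJt : J.card = t + 1)
    (hBd : ∀ I ⊂ J, ∀ d ≤ i + t, L.Bd I d)
    (hPush : ∀ I ⊂ J, ∀ d, d + I.card ≤ i + t → L.Push I d)
    (f : (L.X →₀ ℂ) →ₗ[ℂ] ℂ) (s0 r : ℤ) (ξ : L.X →₀ ℂ)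
    (hf1 : ∀ w ∈ L.S (i + 1) (fun _ => True), f (L.D w) = 0)
    (hf2 : ∀ y ∈ L.S i (L.lo J s0), f y = 0)
    (hξ : ξ ∈ L.S i (fun _ => True)) (hDξ : L.D ξ = 0) (hfξ : f ξ = 1)
    (hr : r + 2 * (t + 1) * K ≤ s0) :
    ∀ (T : List ι) (j : ι) (I : Finset ι), (j :: T).Nodup → Disjoint I (j :: T).toFinset →
      I ∪ (j :: T).toFinset = J → ∃ K1 s1 : ℤ, 0 ≤ K1 ∧ ∀ s ≤ s1,
        ∃ x ∈ L.S (i + T.length) (L.lo I (s + K1)),
          L.D x ∈ L.T (L.lu I (j :: T).toFinset (s + K1)) ∧ L.W r f T x = 1 := by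
  intro T
  induction T with
  | nil =>
    intro j I hnd hdis hun
    have hjI : j ∉ I := fun h => by
      rw [Finset.disjoint_left] at hdis
      exact hdis h (by simp)
    have hsub : I ⊂ J := by
      rw [Finset.ssubset_iff_of_subset (by rw [← hun]; exact Finset.subset_union_left)]
      exact ⟨j, by rw [← hun]; simp, hjI⟩
    have hcard : I.card = t := by
      have h1 : (I ∪ [j].toFinset).card = t + 1 := by rw [hun, hJt]
      rw [Finset.card_union_of_disjoint hdis] at h1
      simp at h1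
      exact h1
    refine ⟨0, 0, le_rfl, fun s _ => ?_⟩
    obtain ⟨x, hx, hDx, w, hw, hDw⟩ := hPush I hsub i (by omega) s ξ hξ hDξ
    refine ⟨x, by rw [add_zero]; exact hx, ?_, ?_⟩
    · rw [hDx]
      exact Submodule.zero_mem _
    · change f x = 1
      have h1 := hf1 w hw
      rw [hDw, map_sub, hfξ] at h1
      linear_combination -h1
  | cons j2 T ih =>
    intro j1 I hnd hdis hun
    have hnd2 : (j2 :: T).Nodup := (List.nodup_cons.1 hnd).2
    have hj1 : j1 ∉ (j2 :: T) := (List.nodup_cons.1 hnd).1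
    have hj1I : j1 ∉ I := fun h => by
      rw [Finset.disjoint_left] at hdis
      exact hdis h (by simp)
    have hdisS : Disjoint I (j2 :: T).toFinset := by
      rw [Finset.disjoint_left] at hdis ⊢
      intro a ha hb
      refine hdis ha ?_
      rw [List.mem_toFinset] at hb ⊢
      exact List.mem_cons_of_mem _ hb
    have hdis2 : Disjoint (insert j1 I) (j2 :: T).toFinset := by
      rw [Finset.disjoint_insert_left]
      exact ⟨fun h => hj1 (List.mem_toFinset.1 h), hdisS⟩
    have hun2 : insert j1 I ∪ (j2 :: T).toFinset = J := by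
      rw [← hun]
      ext a
      simp only [Finset.mem_union, Finset.mem_insert, List.mem_toFinset, List.mem_cons]
      tauto
    have hsub : I ∪ (j2 :: T).toFinset ⊂ J := by
      rw [Finset.ssubset_iff_of_subset]
      · refine ⟨j1, by rw [← hun]; simp, ?_⟩
        rw [Finset.mem_union]
        rintro (h | h)
        · exact hj1I h
        · exact hj1 (List.mem_toFinset.1 h)
      · rw [← hun2]
        exact Finset.union_subset_union_left (Finset.subset_insert _ _)
    have hcard : I.card + (T.length + 1) = t := by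
      have h1 : (insert j1 I ∪ (j2 :: T).toFinset).card = t + 1 := by rw [hun2, hJt]
      rw [Finset.card_union_of_disjoint hdis2, Finset.card_insert_of_notMem hj1I,
        List.toFinset_card_of_nodup hnd2, List.length_cons] at h1
      omega
    have hTt : (T.length : ℤ) + 1 ≤ t := by
      have : T.length + 1 ≤ t := by omega
      exact_mod_cast this
    have hK : 0 ≤ K := hG.1
    have hTK : (T.length : ℤ) * K ≤ t * K := mul_le_mul_of_nonneg_right (by linarith) hK
    obtain ⟨K1, s1, hK1, h1⟩ := ih j2 (insert j1 I) hnd2 hdis2 hun2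
    obtain ⟨K2, hK2, h2⟩ := hV ι L K hG J (i + t - 1)
      (fun I' hI' d hd => hBd I' hI' d (by omega))
      (fun I' hI' d hd => hPush I' hI' d (by omega)) (j2 :: T).toFinset I (i + T.length)
      ⟨j2, by simp⟩ hdisS hsub (by omega)
    refine ⟨K1 + K2, min s1 (r - T.length * K - K1 - K2 - 1), by linarith, fun s hs => ?_⟩
    have hs1 : s ≤ s1 := hs.trans (min_le_left _ _)
    have hs2 : s ≤ r - T.length * K - K1 - K2 - 1 := hs.trans (min_le_right _ _)
    have hTK0 : 0 ≤ (T.length : ℤ) * K := by positivity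
    obtain ⟨x', hx', hDx', hWx'⟩ := h1 s hs1
    obtain ⟨y, hy, hb⟩ := h2 (s + K1) x' (S_mono L (fun x hx l hl =>
      hx l (Finset.mem_insert_of_mem hl)) hx') (T_mono L (fun x hx =>
      ⟨fun l hl => hx.1 l (Finset.mem_insert_of_mem hl), hx.2⟩) hDx')
    refine ⟨y, ?_, ?_, ?_⟩
    · rw [List.length_cons, ← add_assoc, ← add_assoc]
      exact hy
    · have h3 : L.D y = x' - (x' - L.D y) := by abel
      rw [h3]
      refine Submodule.sub_mem _ (S_le_T L ?_ hx') (S_le_T L ?_ hb)
      · intro x hx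
        refine ⟨fun l hl => ?_, j1, by simp, ?_⟩
        · have := hx l (Finset.mem_insert_of_mem hl)
          linarith
        · have := hx j1 (Finset.mem_insert_self _ _)
          linarith
      · rintro x ⟨hx, l, hl, hlx⟩
        refine ⟨fun l hl => ?_, l, ?_, ?_⟩
        · have := hx l hl
          linarith
        · rw [List.mem_toFinset] at hl ⊢
          exact List.mem_cons_of_mem _ hl
        · linarith
    · have hTJ : ∀ j ∈ T, j ∈ J := by
        intro j hj
        rw [← hun2, Finset.mem_union, List.mem_toFinset]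
        exact Or.inr (List.mem_cons_of_mem _ hj)
      have e1 : L.W r f T (L.tau r j2 x') = 1 := by
        rw [W_tau hWV L K hG J i f s0 r hf1 hf2 T hTJ (by nlinarith) j2 (insert j1 I) (s + K1)
          (by linarith) ?_ x' hx', hWx']
        intro l hl hlT
        rw [← hun2, Finset.mem_union, List.mem_toFinset, List.mem_cons] at hl
        rcases hl with h | h | h
        · exact Or.inl h
        · exact Or.inr h
        · exact absurd h hlT
      have e2 : ((L.W r f T) ∘ₗ (L.tau r j2)) (x' - L.D y) = 0 := by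
        refine van L _ _ ?_ _ hb
        rintro x ⟨hxR, hxd, hxI, l, hl, hlx⟩
        rw [LinearMap.comp_apply, tau_single]
        rw [List.mem_toFinset, List.mem_cons] at hl
        by_cases h : r ≤ L.ht j2 x
        · rw [if_pos h]
          rcases hl with rfl | hl
          · linarith
          · exact (hWV ι L K hG J i f s0 r hf1 hf2 T hTJ x hxR hxd).1 ⟨l, hl, by linarith⟩
        · rw [if_neg h, map_zero]
      change ((L.W r f T) ∘ₗ (L.tau r j2) ∘ₗ L.D) y = 1
      rw [LinearMap.comp_apply, LinearMap.comp_apply]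
      rw [LinearMap.comp_apply, map_sub, map_sub, e1, sub_eq_zero] at e2
      exact e2.symm

end OM

open OM in
theorem I_OM (hV : StV) (hWV : StWV) : StOM := by
  intro ι _ L K hG i j T hnd hBd hPush f s0 ξ hf1 hf2 hξ hDξ hfξ
  have hK : 0 ≤ K := hG.1
  have hTK0 : 0 ≤ (T.length : ℤ) * K := by positivity
  have hr : (s0 - 2 * (T.length + 1) * K) + 2 * ((T.length : ℤ) + 1) * K ≤ s0 := by linarith
  have hr2 : (s0 - 2 * (T.length + 1) * K) + 2 * (T.length : ℤ) * K ≤ s0 := by nlinarith
  generalize s0 - 2 * ((T.length : ℤ) + 1) * K = r at hr hr2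
  have hTJ : ∀ l ∈ T, l ∈ (j :: T).toFinset := by
    intro l hl
    rw [List.mem_toFinset]
    exact List.mem_cons_of_mem _ hl
  obtain ⟨K1, s1, hK1, h1⟩ := claim hV hWV L K hG i (j :: T).toFinset T.length
    (by rw [List.toFinset_card_of_nodup hnd, List.length_cons]) hBd hPush f s0 r ξ hf1 hf2 hξ hDξ
    hfξ hr T j ∅ hnd (by simp) (by simp)
  refine ⟨r - T.length * K, K1, s1, (L.W r f T) ∘ₗ (L.tau r j), ?_, ?_, ?_⟩
  · intro w hw
    have h2 : (L.W r f (j :: T)) w = 0 := by
      refine van L _ _ ?_ w hw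
      rintro x ⟨hxR, hxd, -⟩
      refine (hWV ι L K hG (j :: T).toFinset i f s0 r hf1 hf2 (j :: T)
        (fun l hl => List.mem_toFinset.2 hl) x hxR (by rw [hxd, List.length_cons]; ring)).2.2 0
        le_rfl ?_ ?_
      · rw [List.length_cons]
        push_cast
        linarith
      · intro l hl hlT
        exact absurd (List.mem_toFinset.1 hl) hlT
    exact h2
  · intro y hy
    refine van L _ _ ?_ y hy
    rintro x ⟨hxR, hxd, l, hl, hlx⟩
    rw [LinearMap.comp_apply, tau_single]
    rw [List.mem_toFinset, List.mem_cons] at hl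
    by_cases h : r ≤ L.ht j x
    · rw [if_pos h]
      rcases hl with rfl | hl
      · linarith
      · exact (hWV ι L K hG (j :: T).toFinset i f s0 r hf1 hf2 T hTJ x hxR hxd).1 ⟨l, hl, hlx⟩
    · rw [if_neg h, map_zero]
  · intro s hs
    obtain ⟨x, hx, hDx, hWx⟩ := h1 s hs
    refine ⟨x, S_mono L (fun _ _ => trivial) hx, T_mono L (fun x hx => hx.2) hDx, ?_⟩
    rw [LinearMap.comp_apply, W_tau hWV L K hG (j :: T).toFinset i f s0 r hf1 hf2 T hTJ hr2 j ∅ r
      le_rfl ?_ x (S_mono L (fun x _ => by intro l hl; simp at hl) hx), hWx]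
    intro l hl hlT
    rw [List.mem_toFinset, List.mem_cons] at hl
    rcases hl with h | h
    · exact Or.inr h
    · exact absurd h hlT

end Pool.Agent.Work.MP_e9e200_al.LC

end

section

/-!
# Item TWD: the quotient complex has twisted differentials
-/

set_option autoImplicit false

namespace Pool.Agent.Work.MP_e9e200_al.LC

open Finsupp

namespace TWD

/-! ### Linear maps and supports -/

section

variable {X : Type}

theorem map_supported {P P' : Set X} (f : (X →₀ ℂ) →ₗ[ℂ] (X →₀ ℂ))
    (h : ∀ x ∈ P, f (single x 1) ∈ Finsupp.supported ℂ ℂ P') {z : X →₀ ℂ}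
    (hz : z ∈ Finsupp.supported ℂ ℂ P) : f z ∈ Finsupp.supported ℂ ℂ P' := by
  rw [Finsupp.supported_eq_span_single] at hz
  induction hz using Submodule.span_induction with
  | zero => rw [map_zero]; exact Submodule.zero_mem _
  | add x y _ _ hx hy => rw [map_add]; exact Submodule.add_mem _ hx hy
  | smul c x _ hx => rw [map_smul]; exact Submodule.smul_mem _ _ hx
  | mem x hx =>
    obtain ⟨y, hy, rfl⟩ := hx
    exact h y hy

theorem eq_supported {Y : Type} {P : Set X} (f g : (X →₀ ℂ) →ₗ[ℂ] (Y →₀ ℂ))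
    (h : ∀ x ∈ P, f (single x 1) = g (single x 1)) {z : X →₀ ℂ}
    (hz : z ∈ Finsupp.supported ℂ ℂ P) : f z = g z := by
  rw [Finsupp.supported_eq_span_single] at hz
  induction hz using Submodule.span_induction with
  | zero => rw [map_zero, map_zero]
  | add x y _ _ hx hy => rw [map_add, map_add, hx, hy]
  | smul c x _ hx => rw [map_smul, map_smul, hx]
  | mem x hx =>
    obtain ⟨y, hy, rfl⟩ := hx
    exact h y hy

variable (D' : (X →₀ ℂ) →ₗ[ℂ] (X →₀ ℂ)) (hx : X → (X →₀ ℂ) →ₗ[ℂ] (X →₀ ℂ)) (c : X → ℂ)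
  (good : ℕ → X → Prop) (deg : X → ℕ)

open Classical in
/-- the homotopy on the cells of degree `n` -/
noncomputable def vv : ℕ → X → (X →₀ ℂ)
  | 0, x => if good 0 x then (c x)⁻¹ • hx x (single x 1) else 0
  | n + 1, x => if good (n + 1) x then (c x)⁻¹ • hx x (single x 1 -
      Finsupp.linearCombination ℂ (vv n) (D' (single x 1))) else 0

/-- the homotopy -/
noncomputable def kap (e : ℕ) : (X →₀ ℂ) →ₗ[ℂ] (X →₀ ℂ) :=
  Finsupp.linearCombination ℂ (fun x => if deg x < e then vv D' hx c good (deg x) x else 0)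

theorem kap_single (e : ℕ) (x : X) : kap D' hx c good deg e (single x 1) =
    if deg x < e then vv D' hx c good (deg x) x else 0 := by
  rw [kap, Finsupp.linearCombination_single, one_smul]

theorem kap_on {e n : ℕ} (hn : n < e) {P : Set X} (hP : ∀ x ∈ P, deg x = n) {z : X →₀ ℂ}
    (hz : z ∈ Finsupp.supported ℂ ℂ P) :
    kap D' hx c good deg e z = Finsupp.linearCombination ℂ (vv D' hx c good n) z := by
  refine eq_supported _ _ ?_ hz
  intro x hxP
  rw [kap_single, hP x hxP, if_pos hn, Finsupp.linearCombination_single, one_smul]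

theorem claim {R : Set X} {near : X → X → Prop} {m e : ℕ} (he : e < m)
    (hDD : ∀ x, D' (D' x) = 0)
    (hR : ∀ x ∈ R, D' (single x 1) ∈ Finsupp.supported ℂ ℂ
      {y | y ∈ R ∧ deg y + 1 = deg x ∧ near y x})
    (hgood : ∀ n x y, good (n + 1) x → near y x → good n y)
    (hh : ∀ n x, good n x → c x ≠ 0 ∧ ∀ z ∈ Finsupp.supported ℂ ℂ {y | deg y < m},
      D' (hx x z) + hx x (D' z) = c x • z)
    (hv : ∀ n, ∀ x ∈ R, vv D' hx c good n x ∈ Finsupp.supported ℂ ℂ
      {y | y ∈ R ∧ deg y = deg x + 1}) :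
    ∀ n < e, ∀ x ∈ R, deg x = n → good n x →
      D' (kap D' hx c good deg e (single x 1)) + kap D' hx c good deg e (D' (single x 1)) =
        single x 1 := by
  intro n
  induction n with
  | zero =>
    intro hn x hxR hdx hgx
    have h0 : D' (single x 1) = 0 := by
      have h1 := hR x hxR
      have h2 : {y | y ∈ R ∧ deg y + 1 = deg x ∧ near y x} = (∅ : Set X) := by
        ext y
        simp only [Set.mem_setOf_eq, Set.mem_empty_iff_false, iff_false]
        rintro ⟨_, h3, _⟩
        omega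
      rw [h2, Finsupp.supported_empty, Submodule.mem_bot] at h1
      exact h1
    obtain ⟨hc, hz⟩ := hh 0 x hgx
    have h3 := hz (single x 1) (Finsupp.single_mem_supported ℂ 1 (show deg x < m by omega))
    rw [h0, map_zero, add_zero] at h3
    rw [h0, map_zero, add_zero, kap_single, if_pos (by omega), hdx, vv, if_pos hgx, map_smul, h3,
      smul_smul, inv_mul_cancel₀ hc, one_smul]
  | succ n ih =>
    intro hn x hxR hdx hgx
    obtain ⟨hc, hz⟩ := hh _ x hgx
    set w := D' (single x 1) with hw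
    have hwP : w ∈ Finsupp.supported ℂ ℂ {y | y ∈ R ∧ deg y + 1 = deg x ∧ near y x} := hR x hxR
    have h1 : D' (kap D' hx c good deg e w) + kap D' hx c good deg e (D' w) = w := by
      have := eq_supported (D' ∘ₗ (kap D' hx c good deg e) + (kap D' hx c good deg e) ∘ₗ D')
        (LinearMap.id) (P := {y | y ∈ R ∧ deg y + 1 = deg x ∧ near y x}) (by
          rintro y ⟨hy1, hy2, hy3⟩
          exact ih (by omega) y hy1 (by omega) (hgood n x y hgx hy3)) hwP
      exact this
    have hDw : D' w = 0 := hDD _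
    rw [hDw, map_zero, add_zero] at h1
    have hkw : kap D' hx c good deg e w = Finsupp.linearCombination ℂ (vv D' hx c good n) w :=
      kap_on D' hx c good deg (show n < e by omega) (fun y hy => by have := hy.2.1; omega) hwP
    have hky : kap D' hx c good deg e w ∈ Finsupp.supported ℂ ℂ {y | deg y < m} := by
      refine map_supported _ ?_ hwP
      rintro y ⟨hy1, hy2, -⟩
      rw [kap_single]
      split_ifs with h3
      · refine Finsupp.supported_mono ?_ (hv (deg y) y hy1)
        rintro u ⟨-, hu⟩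
        show deg u < m
        omega
      · exact Submodule.zero_mem _
    have h4 : single x (1 : ℂ) - kap D' hx c good deg e w ∈
        Finsupp.supported ℂ ℂ {y | deg y < m} :=
      Submodule.sub_mem _ (Finsupp.single_mem_supported ℂ 1 (show deg x < m by omega)) hky
    have h5 := hz _ h4
    have h6 : D' (single x (1 : ℂ) - kap D' hx c good deg e w) = 0 := by
      rw [map_sub, ← hw, h1, sub_self]
    rw [h6, map_zero, add_zero] at h5
    rw [kap_single, if_pos (by omega), hdx, vv, if_pos hgx, ← hw, ← hkw, map_smul, h5, smul_smul,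
      inv_mul_cancel₀ hc, one_smul, sub_add_cancel]

end

/-! ### Chains over a group -/

section

variable {G B : Type} [Group G]

theorem of_surj : Function.Surjective (Abelianization.of : G →* Abelianization G) := by
  intro x
  obtain ⟨g, hg⟩ := QuotientGroup.mk_surjective x
  exact ⟨g, hg⟩

/-- a section -/
noncomputable def sec (q : Abelianization G) : G := (of_surj q).choose

theorem of_sec (q : Abelianization G) : Abelianization.of (sec q) = q := (of_surj q).choose_spec

theorem vl_bch (χ : Chr G) (g : G) :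
    vl (bch χ) (Abelianization.of g) = vl χ g := by
  unfold vl bch
  rw [Abelianization.lift_apply_of]

theorem vl_mul {H : Type} [Group H] (χ : Chr H) (g h : H) :
    vl χ (g * h) = vl χ g + vl χ h := by
  unfold vl
  rw [map_mul, toAdd_mul]

theorem tr_single {k : Type} [CommRing k] {H : Type} [Group H] (h g : H) (b : B) (c : k) :
    tr k h (single (g, b) c) = single (h * g, b) c := by
  rw [tr, Finsupp.lmapDomain_apply, Finsupp.mapDomain_single]

theorem mp_single {H : Type} [Group H] (ρ : G →* H) (g : G) (b : B) (c : ℂ) :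
    mp ℂ ρ (single (g, b) c) = single (ρ g, b) c := by
  rw [mp, Finsupp.lmapDomain_apply, Finsupp.mapDomain_single]

theorem pis_single (σ : G → ℂ) (g : G) (b : B) (c : ℂ) :
    pis σ (single (g, b) c) = c • single (Abelianization.of g, b) (σ g) := by
  rw [pis, Finsupp.linearCombination_single]

/-- the support of `pis σ (tr g z)` -/
theorem pis_tr_supported (σ : G → ℂ) (g : G) {P : Set (G × B)}
    {P' : Set (Abelianization G × B)}
    (h : ∀ p ∈ P, (Abelianization.of g * Abelianization.of p.1, p.2) ∈ P') {z : G × B →₀ ℂ}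
    (hz : z ∈ Finsupp.supported ℂ ℂ P) : pis σ (tr ℂ g z) ∈ Finsupp.supported ℂ ℂ P' := by
  rw [Finsupp.supported_eq_span_single] at hz
  induction hz using Submodule.span_induction with
  | zero => rw [map_zero, map_zero]; exact Submodule.zero_mem _
  | add x y _ _ hx hy => rw [map_add, map_add]; exact Submodule.add_mem _ hx hy
  | smul c x _ hx => rw [map_smul, map_smul]; exact Submodule.smul_mem _ _ hx
  | mem x hx =>
    obtain ⟨⟨y, b⟩, hy, rfl⟩ := hx
    show pis σ (tr ℂ g (single (y, b) 1)) ∈ _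
    rw [tr_single, pis_single, one_smul, map_mul]
    exact Finsupp.single_mem_supported ℂ _ (h _ hy)

theorem pis_tr_eq (σ : G → ℂ) (g : G) {P : Set (G × B)}
    (h : ∀ p ∈ P, σ (g * p.1) = σ g) {z : G × B →₀ ℂ} (hz : z ∈ Finsupp.supported ℂ ℂ P) :
    pis σ (tr ℂ g z) = σ g • tr ℂ (Abelianization.of g) (mp ℂ Abelianization.of z) := by
  have := eq_supported ((pis σ) ∘ₗ (tr ℂ g))
    (σ g • ((tr ℂ (Abelianization.of g)) ∘ₗ (mp ℂ Abelianization.of))) (P := P) (by
      rintro ⟨y, b⟩ hy
      show pis σ (tr ℂ g (single (y, b) 1)) =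
        σ g • tr ℂ (Abelianization.of g) (mp ℂ Abelianization.of (single (y, b) 1))
      rw [tr_single, pis_single, one_smul, mp_single, tr_single, h _ hy, map_mul,
        Finsupp.smul_single, smul_eq_mul, mul_one]) hz
  exact this

/-- the first components of the cells of a chain -/
noncomputable def fs (z : G × B →₀ ℂ) : Finset G := by
  classical exact z.support.image Prod.fst

theorem mem_fs {z : G × B →₀ ℂ} {p : G × B} (hp : p ∈ z.support) : p.1 ∈ fs z := by
  classical exact Finset.mem_image_of_mem _ hp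

variable [Fintype B]

/-- the first components of the cells of all `u b` -/
noncomputable def fu (u : B → (G × B →₀ ℂ)) : Finset G := by
  classical exact Finset.univ.biUnion (fun b => fs (u b))

theorem mem_fu {u : B → (G × B →₀ ℂ)} {b : B} {p : G × B} (hp : p ∈ (u b).support) :
    p.1 ∈ fu u := by
  classical exact Finset.mem_biUnion.2 ⟨b, Finset.mem_univ _, mem_fs hp⟩

/-- `f * (first components of the cells of `ha (f⁻¹ t f)`)` -/
noncomputable def EE (ha : G → B → (G × B →₀ ℂ)) (f t : G) : Finset G := by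
  classical exact (fu (ha (f⁻¹ * t * f))).image (fun x => f * x)

theorem mem_EE {ha : G → B → (G × B →₀ ℂ)} {f t x : G} (hx : x ∈ fu (ha (f⁻¹ * t * f))) :
    f * x ∈ EE ha f t := by
  classical exact Finset.mem_image_of_mem _ hx

/-- the sets `F n` -/
noncomputable def FF (ha : G → B → (G × B →₀ ℂ)) (Y T0 : Finset G) : ℕ → Finset G
  | 0 => by classical exact T0.biUnion (fun t => EE ha 1 t)
  | n + 1 => by
    classical exact T0.biUnion (fun t => EE ha 1 t) ∪
      Y.biUnion (fun y => (FF ha Y T0 n).biUnion (fun f => T0.biUnion (fun t => EE ha (y * f) t)))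

theorem mem_FF_one {ha : G → B → (G × B →₀ ℂ)} {Y T0 : Finset G} (n : ℕ) {t x : G} (ht : t ∈ T0)
    (hx : x ∈ EE ha 1 t) : x ∈ FF ha Y T0 n := by
  classical
  cases n with
  | zero => exact Finset.mem_biUnion.2 ⟨t, ht, hx⟩
  | succ n => exact Finset.mem_union_left _ (Finset.mem_biUnion.2 ⟨t, ht, hx⟩)

theorem mem_FF_succ {ha : G → B → (G × B →₀ ℂ)} {Y T0 : Finset G} {n : ℕ} {y f t x : G}
    (hy : y ∈ Y) (hf : f ∈ FF ha Y T0 n) (ht : t ∈ T0) (hx : x ∈ EE ha (y * f) t) :
    x ∈ FF ha Y T0 (n + 1) := by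
  classical
  exact Finset.mem_union_right _ (Finset.mem_biUnion.2 ⟨y, hy, Finset.mem_biUnion.2 ⟨f, hf,
    Finset.mem_biUnion.2 ⟨t, ht, hx⟩⟩⟩)

/-- the set of cells `(q f, b')` -/
def PP (χ : Chr G) (deg : B → ℕ) (F : Finset G) (x : Abelianization G × B) :
    Set (Abelianization G × B) :=
  {y | ∃ f ∈ F, 0 ≤ vl χ f ∧ y.1 = x.1 * Abelianization.of f ∧ deg y.2 = deg x.2 + 1}

end

end TWD

open TWD in
theorem I_TWD (hTWA : StTWA) : StTWD := by
  classical
  intro G _ hG ι _ χ χs m B _ deg db eb ha hres hha J hJ hsig e he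
  have := Fintype.ofFinite ι
  have := Fintype.ofFinite B
  obtain ⟨K0, hK0, hsig⟩ := hsig
  -- the submonoid
  let Sm : Submonoid G :=
    { carrier := {g | 0 ≤ vl χ g}
      mul_mem' := by
        intro a b ha' hb'
        have h1 : 0 ≤ vl χ a := ha'
        have h2 : 0 ≤ vl χ b := hb'
        show 0 ≤ vl χ (a * b)
        rw [vl_mul]
        omega
      one_mem' := by
        show 0 ≤ vl χ 1
        unfold vl
        rw [map_one, toAdd_one] }
  -- constants
  set Y : Finset G := fu db with hY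
  set K : ℤ := ∑ y ∈ Y, K0 y + ∑ y ∈ Y, ∑ j, |vl (χs j) y| with hK
  have hs1 : 0 ≤ ∑ y ∈ Y, K0 y := Finset.sum_nonneg fun y _ => hK0 y
  have hs2 : 0 ≤ ∑ y ∈ Y, ∑ j, |vl (χs j) y| :=
    Finset.sum_nonneg fun y _ => Finset.sum_nonneg fun j _ => abs_nonneg _
  have hKn : 0 ≤ K := by rw [hK]; exact add_nonneg hs1 hs2
  have hK0y : ∀ y ∈ Y, K0 y ≤ K := by
    intro y hy
    have h1 : K0 y ≤ ∑ y ∈ Y, K0 y := Finset.single_le_sum (f := K0) (fun y _ => hK0 y) hy
    rw [hK]; omega
  have hKv : ∀ y ∈ Y, ∀ j, |vl (χs j) y| ≤ K := by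
    intro y hy j
    have h1 : |vl (χs j) y| ≤ ∑ j, |vl (χs j) y| :=
      Finset.single_le_sum (f := fun j => |vl (χs j) y|) (fun _ _ => abs_nonneg _)
        (Finset.mem_univ j)
    have h2 : ∑ j, |vl (χs j) y| ≤ ∑ y ∈ Y, ∑ j, |vl (χs j) y| :=
      Finset.single_le_sum (f := fun y => ∑ j, |vl (χs j) y|)
        (fun _ _ => Finset.sum_nonneg fun _ _ => abs_nonneg _) hy
    rw [hK]; omega
  have hdbY : ∀ b, db b ∈ Finsupp.supported ℂ ℂ
      {p : G × B | p.1 ∈ Y ∧ 0 ≤ vl χ p.1 ∧ deg p.2 + 1 = deg b} := by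
    intro b
    rw [Finsupp.mem_supported]
    intro p hp
    have h1 := (Finsupp.mem_supported _ _).1 (hres.db_sup b) hp
    exact ⟨mem_fu hp, h1.1, h1.2⟩
  refine ⟨K, hKn, ?_⟩
  intro K' hK'
  obtain ⟨T0, hT0, hsig⟩ := hsig (K' + e * K) (by positivity)
  set F : ℕ → Finset G := FF ha Y T0 with hF
  set K'' : ℤ := ∑ n ∈ Finset.range e, ∑ f ∈ F n, ∑ j, |vl (χs j) f| with hK''
  have hK''n : 0 ≤ K'' := Finset.sum_nonneg fun _ _ => Finset.sum_nonneg fun _ _ =>
    Finset.sum_nonneg fun j _ => abs_nonneg _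
  have hK''v : ∀ n < e, ∀ f ∈ F n, ∀ j, |vl (χs j) f| ≤ K'' := by
    intro n hn f hf j
    calc |vl (χs j) f| ≤ ∑ j, |vl (χs j) f| :=
          Finset.single_le_sum (f := fun j => |vl (χs j) f|) (fun _ _ => abs_nonneg _)
            (Finset.mem_univ j)
      _ ≤ ∑ f ∈ F n, ∑ j, |vl (χs j) f| :=
          Finset.single_le_sum (f := fun f => ∑ j, |vl (χs j) f|)
            (fun _ _ => Finset.sum_nonneg fun _ _ => abs_nonneg _) hf
      _ ≤ ∑ n ∈ Finset.range e, ∑ f ∈ F n, ∑ j, |vl (χs j) f| :=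
          Finset.single_le_sum (f := fun n => ∑ f ∈ F n, ∑ j, |vl (χs j) f|)
            (fun _ _ => Finset.sum_nonneg fun _ _ => Finset.sum_nonneg fun _ _ => abs_nonneg _)
            (Finset.mem_range.2 hn)
  refine ⟨K'', hK''n, ?_⟩
  intro s1
  obtain ⟨s, hs, φ, σ, hφ0, hφm, hσ0, hσφ, hσK, ⟨a0, ha0, hφa0⟩, hT⟩ := hsig s1
  obtain ⟨D', h', hDD, hD1, hh1, hDh⟩ := hTWA G hG Sm m B deg db eb ha hres hha φ σ hσ0 hσφ
  -- properties of the differential
  have hDsup : ∀ x : Abelianization G × B, D' (single x 1) ∈ Finsupp.supported ℂ ℂ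
      {y : Abelianization G × B | ∃ f ∈ Y, 0 ≤ vl χ f ∧ y.1 = x.1 * Abelianization.of f ∧
        deg y.2 + 1 = deg x.2} := by
    rintro ⟨q, b⟩
    obtain ⟨g, rfl⟩ := of_surj q
    rw [hD1]
    refine Submodule.smul_mem _ _ (pis_tr_supported σ g ?_ (hdbY b))
    rintro p ⟨h1, h2, h3⟩
    exact ⟨p.1, h1, h2, rfl, h3⟩
  -- properties of the homotopies
  have hhsup : ∀ a ∈ commutator G, ∀ (g : G) (b : B), h' a (single (Abelianization.of g, b) 1) ∈
      Finsupp.supported ℂ ℂ {y : Abelianization G × B | ∃ x ∈ fu (ha (g⁻¹ * a * g)),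
        0 ≤ vl χ x ∧ y.1 = Abelianization.of g * Abelianization.of x ∧ deg y.2 = deg b + 1} := by
    intro a haA g b
    rw [hh1 a haA]
    have h1 : g⁻¹ * a * g ∈ commutator G := by
      have h2 := (inferInstance : (commutator G).Normal).conj_mem a haA g⁻¹
      rwa [inv_inv] at h2
    have h3 : ha (g⁻¹ * a * g) b ∈ Finsupp.supported ℂ ℂ
        {p : G × B | p.1 ∈ fu (ha (g⁻¹ * a * g)) ∧ 0 ≤ vl χ p.1 ∧ deg p.2 = deg b + 1} := by
      rw [Finsupp.mem_supported]
      intro p hp
      have h4 := (Finsupp.mem_supported _ _).1 (hha.sup _ h1 b) hp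
      exact ⟨mem_fu hp, h4.1, h4.2⟩
    refine Submodule.smul_mem _ _ (pis_tr_supported σ g ?_ h3)
    rintro p ⟨h4, h5, h6⟩
    exact ⟨p.1, h4, h5, rfl, h6⟩
  -- the choice of the elements `t`
  have hch : ∀ q : Abelianization G, ∃ t : G,
      ((∀ j ∈ J, s - (K' + e * K) ≤ vl (bch (χs j)) q) →
        (∃ j ∈ J, vl (bch (χs j)) q ≤ s + (K' + e * K)) →
        t ∈ T0 ∧ φ (sec q * t * (sec q)⁻¹) ≠ 1) := by
    intro q
    by_cases h : (∀ j ∈ J, s - (K' + e * K) ≤ vl (bch (χs j)) q) ∧
        (∃ j ∈ J, vl (bch (χs j)) q ≤ s + (K' + e * K))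
    · have h1 : ∀ j, vl (bch (χs j)) q = vl (χs j) (sec q) := by
        intro j
        conv_lhs => rw [← of_sec q]
        rw [vl_bch]
      obtain ⟨t, ht1, ht2⟩ := hT (sec q) (fun j hj => by rw [← h1]; exact h.1 j hj) (by
        obtain ⟨j, hj, h2⟩ := h.2
        exact ⟨j, hj, by rw [← h1]; exact h2⟩)
      exact ⟨t, fun _ _ => ⟨ht1, ht2⟩⟩
    · exact ⟨1, fun h1 h2 => absurd ⟨h1, h2⟩ h⟩
  choose tq htq using hch
  set aq : Abelianization G → G := fun q => sec q * tq q * (sec q)⁻¹ with haq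
  set good : ℕ → Abelianization G × B → Prop := fun n x =>
    (∀ j ∈ J, s - (K' + e * K - n * K) ≤ vl (bch (χs j)) x.1) ∧
      (∃ j ∈ J, vl (bch (χs j)) x.1 ≤ s + (K' + e * K - n * K)) with hgood
  have hgt : ∀ n x, good n x → tq x.1 ∈ T0 ∧ φ (aq x.1) ≠ 1 := by
    rintro n x ⟨h1, h2⟩
    have h3 : (0 : ℤ) ≤ n * K := by positivity
    refine htq x.1 (fun j hj => ?_) ?_
    · have := h1 j hj
      omega
    · obtain ⟨j, hj, h4⟩ := h2
      exact ⟨j, hj, by omega⟩
  have hga : ∀ n x, good n x → aq x.1 ∈ commutator G := fun n x hg =>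
    (inferInstance : (commutator G).Normal).conj_mem _ (hT0 _ (hgt n x hg).1) _
  set hx : Abelianization G × B → (Abelianization G × B →₀ ℂ) →ₗ[ℂ]
    (Abelianization G × B →₀ ℂ) := fun x => h' (aq x.1) with hhx
  set c : Abelianization G × B → ℂ := fun x => 1 - φ (aq x.1) with hc
  -- `h' (aq q)` on the cells `(q f, b)`
  have hhaq : ∀ n x, good n x → ∀ (f : G) (b : B), 0 ≤ vl χ f →
      hx x (single (x.1 * Abelianization.of f, b) 1) ∈ Finsupp.supported ℂ ℂ
        {y : Abelianization G × B | ∃ z ∈ EE ha f (tq x.1),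
          0 ≤ vl χ z ∧ y.1 = x.1 * Abelianization.of z ∧ deg y.2 = deg b + 1} := by
    intro n x hg f b hf
    have h1 := hhsup (aq x.1) (hga n x hg) (sec x.1 * f) b
    have h2 : (sec x.1 * f)⁻¹ * aq x.1 * (sec x.1 * f) = f⁻¹ * tq x.1 * f := by
      rw [haq]; group
    have h3 : Abelianization.of (sec x.1 * f) = x.1 * Abelianization.of f := by
      rw [map_mul, of_sec]
    rw [h2, h3] at h1
    refine Finsupp.supported_mono ?_ h1
    rintro y ⟨z, hz1, hz2, hz3, hz4⟩
    refine ⟨f * z, mem_EE hz1, ?_, ?_, hz4⟩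
    · rw [vl_mul]; omega
    · rw [hz3, map_mul, mul_assoc]
  -- the support of the homotopy
  have hvv : ∀ n x, vv D' hx c good n x ∈ Finsupp.supported ℂ ℂ (PP χ deg (F n) x) := by
    have hone : ∀ n n' x, good n' x → hx x (single x 1) ∈
        Finsupp.supported ℂ ℂ (PP χ deg (F n) x) := by
      intro n n' x hg
      have h0 : (0 : ℤ) ≤ vl χ 1 := by unfold vl; rw [map_one, toAdd_one]
      have h1 := hhaq n' x hg 1 x.2 h0
      rw [map_one, mul_one] at h1
      refine Finsupp.supported_mono ?_ h1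
      rintro y ⟨z, hz1, hz2, hz3, hz4⟩
      exact ⟨z, mem_FF_one n (hgt n' x hg).1 hz1, hz2, hz3, hz4⟩
    intro n
    induction n with
    | zero =>
      intro x
      rw [vv]
      split_ifs with hg
      · exact Submodule.smul_mem _ _ (hone 0 0 x hg)
      · exact Submodule.zero_mem _
    | succ n ih =>
      intro x
      rw [vv]
      split_ifs with hg
      · refine Submodule.smul_mem _ _ ?_
        rw [map_sub]
        refine Submodule.sub_mem _ (hone _ _ x hg) ?_
        have h1 : Finsupp.linearCombination ℂ (vv D' hx c good n) (D' (single x 1)) ∈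
            Finsupp.supported ℂ ℂ {y : Abelianization G × B | ∃ y0 ∈ Y, ∃ f ∈ F n,
              0 ≤ vl χ (y0 * f) ∧ y.1 = x.1 * Abelianization.of (y0 * f) ∧
                deg y.2 = deg x.2} := by
          refine map_supported _ ?_ (hDsup x)
          rintro u ⟨y0, hy1, hy2, hy3, hy4⟩
          rw [Finsupp.linearCombination_single, one_smul]
          refine Finsupp.supported_mono ?_ (ih u)
          rintro y ⟨f, hf1, hf2, hf3, hf4⟩
          refine ⟨y0, hy1, f, hf1, ?_, ?_, by omega⟩
          · rw [vl_mul]; omega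
          · rw [hf3, hy3, map_mul, mul_assoc]
        refine map_supported _ ?_ h1
        rintro ⟨u1, u2⟩ ⟨y0, hy, f, hf, hu1, hu2, hu3⟩
        have hu2' : u1 = x.1 * Abelianization.of (y0 * f) := hu2
        have hu3' : deg u2 = deg x.2 := hu3
        rw [hu2']
        refine Finsupp.supported_mono ?_ (hhaq (n + 1) x hg (y0 * f) u2 hu1)
        rintro y ⟨z, hz1, hz2, hz3, hz4⟩
        exact ⟨z, mem_FF_succ hy hf (hgt _ x hg).1 hz1, hz2, hz3, by omega⟩
      · exact Submodule.zero_mem _
  set dg : Abelianization G × B → ℕ := fun x => deg x.2 with hdg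
  set R : Set (Abelianization G × B) := {p | 0 ≤ vl (bch χ) p.1} with hR
  have hRmul : ∀ x ∈ R, ∀ f : G, 0 ≤ vl χ f → ∀ y : Abelianization G × B,
      y.1 = x.1 * Abelianization.of f → y ∈ R := by
    intro x hxR f hf y hy
    have h1 : 0 ≤ vl (bch χ) x.1 := hxR
    show 0 ≤ vl (bch χ) y.1
    rw [hy, vl_mul, vl_bch]
    omega
  have hht : ∀ (j : ι) (x y : Abelianization G × B) (f : G),
      y.1 = x.1 * Abelianization.of f →
      vl (bch (χs j)) y.1 - vl (bch (χs j)) x.1 = vl (χs j) f := by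
    intro j x y f hy
    rw [hy, vl_mul, vl_bch]
    omega
  have hDR : ∀ x ∈ R, D' (single x 1) ∈ Finsupp.supported ℂ ℂ
      {y : Abelianization G × B | y ∈ R ∧ dg y + 1 = dg x ∧
        ∀ j, |vl (bch (χs j)) y.1 - vl (bch (χs j)) x.1| ≤ K} := by
    intro x hxR
    refine Finsupp.supported_mono ?_ (hDsup x)
    rintro y ⟨f, hf1, hf2, hf3, hf4⟩
    refine ⟨hRmul x hxR f hf2 y hf3, hf4, ?_⟩
    intro j
    rw [hht j x y f hf3]
    exact hKv f hf1 j
  refine ⟨s, hs, D', kap D' hx c good dg e, hDD, hDR, ?_, ?_, ?_, ?_⟩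
  · -- above the level
    rintro ⟨q, b⟩ _ hxJ
    obtain ⟨g, rfl⟩ := of_surj q
    have hxJ' : ∀ j ∈ J, s + K ≤ vl (χs j) g := by
      intro j hj
      have h1 : s + K ≤ vl (bch (χs j)) (Abelianization.of g) := hxJ j hj
      rwa [vl_bch] at h1
    show D' (single (Abelianization.of g, b) 1) =
      ext ℂ (fun b => mp ℂ Abelianization.of (db b)) (single (Abelianization.of g, b) 1)
    rw [hD1, ext, Finsupp.linearCombination_single, one_smul,
      pis_tr_eq σ g (P := {p : G × B | p.1 ∈ Y ∧ 0 ≤ vl χ p.1 ∧ deg p.2 + 1 = deg b}) ?_ (hdbY b),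
      smul_smul, inv_mul_cancel₀ (hσ0 g), one_smul]
    rintro p ⟨hp, -, -⟩
    refine hσK g p.1 fun j hj => ?_
    have h1 := hxJ' j hj
    have h2 := hK0y p.1 hp
    omega
  · -- exactness
    intro z hz hz0
    have hz' : z ∈ Finsupp.supported ℂ ℂ {x : Abelianization G × B | x ∈ R ∧ dg x = e ∧ True} := hz
    have hφ1 : (1 : ℂ) - φ a0 ≠ 0 := sub_ne_zero.2 (Ne.symm hφa0)
    refine ⟨(1 - φ a0)⁻¹ • h' a0 z, ?_, ?_⟩
    · show (1 - φ a0)⁻¹ • h' a0 z ∈ Finsupp.supported ℂ ℂ
        {x : Abelianization G × B | x ∈ R ∧ dg x = e + 1 ∧ True}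
      refine Submodule.smul_mem _ _ (map_supported _ ?_ hz')
      rintro ⟨q, b⟩ ⟨hq1, hq2, -⟩
      obtain ⟨g, rfl⟩ := of_surj q
      refine Finsupp.supported_mono ?_ (hhsup a0 ha0 g b)
      rintro y ⟨x, -, hx2, hx3, hx4⟩
      have hq2' : deg b = e := hq2
      refine ⟨hRmul _ hq1 x hx2 y hx3, ?_, trivial⟩
      show deg y.2 = e + 1
      omega
    · have h1 := hDh a0 ha0 z (Finsupp.supported_mono (by
        rintro x ⟨-, h2, -⟩
        have h2' : deg x.2 = e := h2
        show deg x.2 < m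
        omega) hz')
      have hz0' : D' z = 0 := hz0
      rw [hz0', map_zero, add_zero] at h1
      show D' ((1 - φ a0)⁻¹ • h' a0 z) = z
      rw [map_smul, h1, smul_smul, inv_mul_cancel₀ hφ1, one_smul]
  · -- the support of the homotopy
    intro x hxR
    have hxR' : x ∈ R := hxR
    show kap D' hx c good dg e (single x 1) ∈ Finsupp.supported ℂ ℂ
      {y : Abelianization G × B | y ∈ R ∧ dg y = dg x + 1 ∧
        ∀ j, |vl (bch (χs j)) y.1 - vl (bch (χs j)) x.1| ≤ K''}
    rw [kap_single]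
    split_ifs with h1
    · refine Finsupp.supported_mono ?_ (hvv (dg x) x)
      rintro y ⟨f, hf1, hf2, hf3, hf4⟩
      refine ⟨hRmul x hxR' f hf2 y hf3, hf4, ?_⟩
      intro j
      rw [hht j x y f hf3]
      exact hK''v (dg x) h1 f hf1 j
    · exact Submodule.zero_mem _
  · -- the homotopy
    intro x hxR hdx hx1 hx2
    have hxR' : x ∈ R := hxR
    have hdx' : dg x + 1 ≤ e := hdx
    refine claim (R := R) (near := fun y x : Abelianization G × B =>
      ∀ j, |vl (bch (χs j)) y.1 - vl (bch (χs j)) x.1| ≤ K) D' hx c good dg he hDD hDR ?_ ?_ ?_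
      (dg x) (by omega) x hxR' rfl ?_
    · rintro n x y ⟨h1, h2⟩ h3
      have h4 : ((n + 1 : ℕ) : ℤ) * K = n * K + K := by push_cast; ring
      rw [h4] at h1 h2
      refine ⟨fun j hj => ?_, ?_⟩
      · have h5 := h1 j hj
        have h6 := (abs_le.1 (h3 j)).1
        omega
      · obtain ⟨j, hj, h5⟩ := h2
        have h6 := (abs_le.1 (h3 j)).2
        exact ⟨j, hj, by omega⟩
    · intro n x hg
      refine ⟨sub_ne_zero.2 (Ne.symm (hgt n x hg).2), ?_⟩
      intro z hz
      exact hDh _ (hga n x hg) z hz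
    · intro n x hxR
      refine Finsupp.supported_mono ?_ (hvv n x)
      rintro y ⟨f, hf1, hf2, hf3, hf4⟩
      exact ⟨hRmul x hxR f hf2 y hf3, hf4⟩
    · have h7 : ((dg x : ℕ) : ℤ) * K ≤ e * K :=
        mul_le_mul_of_nonneg_right (by exact_mod_cast (by omega : dg x ≤ e)) hKn
      refine ⟨fun j hj => ?_, ?_⟩
      · have h5 : s - K' ≤ vl (bch (χs j)) x.1 := hx1 j hj
        omega
      · obtain ⟨j, hj, h5⟩ := hx2
        have h5' : vl (bch (χs j)) x.1 ≤ s + K' := h5
        exact ⟨j, hj, by omega⟩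

end Pool.Agent.Work.MP_e9e200_al.LC

end

section

/-!
# Project TL: definitions

Cubical chains over a group and singular cubes.
-/

set_option autoImplicit false

namespace Pool.Agent.Work.MP_e9e200_al.TL

open Finsupp Topology Topology.RelCWComplex Pool.Agent.Work.MP_e9e200_al.LC

/-! ### Labelled cubes -/

/-- labelled `k`-cubes: the vertices of the cube carry labels in `G` -/
abbrev Cb (G : Type) (k : ℕ) := (Fin k → Bool) → G

/-- insertion of a coordinate -/
def ins {α : Type} {k : ℕ} (i : Fin (k + 1)) (s : α) (e : Fin k → α) : Fin (k + 1) → α :=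
  Fin.insertNth (α := fun _ => α) i s e

/-- the face of a labelled cube -/
def fc {G : Type} {k : ℕ} (i : Fin (k + 1)) (s : Bool) (c : Cb G (k + 1)) : Cb G k :=
  fun e => c (ins i s e)

/-- the boundary of cubical chains -/
noncomputable def bd (G : Type) (k : ℕ) : (Cb G (k + 1) →₀ ℂ) →ₗ[ℂ] (Cb G k →₀ ℂ) :=
  Finsupp.linearCombination ℂ (fun c => ∑ i : Fin (k + 1), ((-1 : ℂ) ^ (i : ℕ)) •
    (single (fc i true c) (1 : ℂ) - single (fc i false c) (1 : ℂ)))

/-- the sum of the coefficients -/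
noncomputable def eps (G : Type) (k : ℕ) : (Cb G k →₀ ℂ) →ₗ[ℂ] ℂ :=
  Finsupp.linearCombination ℂ (fun _ => (1 : ℂ))

/-- cycles with sum of coefficients zero -/
def Cyc {G : Type} : ∀ k : ℕ, (Cb G k →₀ ℂ) → Prop
  | 0, z => eps G 0 z = 0
  | k + 1, z => bd G k z = 0 ∧ eps G (k + 1) z = 0

/-- the cone over a labelled cube with the cone point `v` -/
def cnc {G : Type} (v : G) {k : ℕ} (c : Cb G k) : Cb G (k + 1) :=
  fun e => if e 0 then c (Fin.tail e) else v

/-- the cone -/
noncomputable def cn {G : Type} (v : G) (k : ℕ) : (Cb G k →₀ ℂ) →ₗ[ℂ] (Cb G (k + 1) →₀ ℂ) :=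
  Finsupp.linearCombination ℂ (fun c => single (cnc v c) (1 : ℂ))

/-- the vertices of the small cubes of a grid: the coordinate `a i = some j` stands for the interval
from `j` to `j + 1`, the coordinate `a i = none` for the degenerate interval at `0` -/
def pos {N k : ℕ} (a : Fin k → Option (Fin N)) (e : Fin k → Bool) : Fin k → ℕ :=
  fun i => match a i with
    | Option.none => 0
    | Option.some j => (j : ℕ) + (if e i then 1 else 0)

/-- the coefficient of a small cube: every degenerate interval has the coefficient `1 - N` -/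
noncomputable def wt {N k : ℕ} (a : Fin k → Option (Fin N)) : ℂ :=
  ∏ i, (match a i with
    | Option.none => (1 : ℂ) - (N : ℂ)
    | Option.some _ => (1 : ℂ))

/-- the subdivision of a cube into `N^k` small cubes, with degenerate cubes added such that the sum
of the coefficients is one -/
noncomputable def grid {G : Type} (N k : ℕ) (F : (Fin k → ℕ) → G) : Cb G k →₀ ℂ :=
  ∑ a : Fin k → Option (Fin N), wt a • single (fun e => F (pos a e)) (1 : ℂ)

/-- left translation of cubical chains -/
noncomputable def trc {G : Type} [Group G] {k : ℕ} (g : G) : (Cb G k →₀ ℂ) →ₗ[ℂ] (Cb G k →₀ ℂ) :=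
  Finsupp.lmapDomain ℂ ℂ (fun c e => g * c e)

/-- equivariant extension of a map from a basis to cubical chains -/
noncomputable def extc {G : Type} [Group G] {B : Type} {k : ℕ} (α : B → (Cb G k →₀ ℂ)) :
    (G × B →₀ ℂ) →ₗ[ℂ] (Cb G k →₀ ℂ) :=
  Finsupp.linearCombination ℂ (fun p : G × B => trc p.1 (α p.2))

/-- the labelled cubes of size `D` in the half space `χ ≥ t` -/
def CubeIn {G : Type} [Group G] (D : Set G) (χ : Additive G →+ ℝ) (t : ℝ) (k : ℕ) :
    Set (Cb G k) :=
  {c | (∀ e e', (c e)⁻¹ * c e' ∈ D) ∧ ∀ e, t ≤ χ (Additive.ofMul (c e))}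

/-! ### Singular cubes -/

/-- the cube `[-1,1]^k` -/
def II (k : ℕ) : Set (Fin k → ℝ) := Metric.closedBall 0 1

/-- the boundary of the cube -/
def dII (k : ℕ) : Set (Fin k → ℝ) := Metric.sphere 0 1

/-- the real number `-1` or `1` -/
def vb (s : Bool) : ℝ := if s then 1 else -1

/-- maps from the boundary of the `k`-cube to `T` extend to the `k`-cube -/
def CubeExt {X : Type} [TopologicalSpace X] (k : ℕ) (T : Set X) : Prop :=
  ∀ φ : (Fin k → ℝ) → X, ContinuousOn φ (dII k) → Set.MapsTo φ (dII k) T →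
    ∃ Φ : (Fin k → ℝ) → X, ContinuousOn Φ (II k) ∧ Set.MapsTo Φ (II k) T ∧ Set.EqOn Φ φ (dII k)

/-- `F` is a singular `k`-cube in `T` -/
def Box {X : Type} [TopologicalSpace X] (T : Set X) (k : ℕ) (F : (Fin k → ℝ) → X) : Prop :=
  ContinuousOn F (II k) ∧ Set.MapsTo F (II k) T

/-- `f` assigns a singular cube to every labelled cube in `A` of dimension `≤ m`, compatible with
faces -/
structure Fam {G X : Type} [TopologicalSpace X] (T : Set X) (A : ∀ k, Set (Cb G k)) (m : ℕ)
    (f : ∀ k, Cb G k → (Fin k → ℝ) → X) : Prop where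
  box : ∀ k ≤ m, ∀ c ∈ A k, Box T k (f k c)
  face : ∀ k, k + 1 ≤ m → ∀ c ∈ A (k + 1), ∀ (i : Fin (k + 1)) (s : Bool), ∀ x ∈ II k,
    f (k + 1) c (ins i (vb s) x) = f k (fc i s c) x

/-- the grid points: `b i = 0, ..., N` gives the coordinates `-1, ..., 1` -/
noncomputable def gp {k : ℕ} (N : ℕ) (b : Fin k → ℕ) : Fin k → ℝ :=
  fun i => 2 * (b i : ℝ) / (N : ℝ) - 1

/-! ### CW complexes -/

/-- the largest subcomplex contained in the set `h ≥ s` -/
def lev {X : Type} [TopologicalSpace X] [CWComplex (Set.univ : Set X)] (h : X → ℝ) (s : ℝ) :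
    Set X :=
  ⋃ (Y : CWComplex.Subcomplex (Set.univ : Set X)) (_ : (Y : Set X) ⊆ {x | s ≤ h x}), (Y : Set X)

/-- the `m`-skeleton -/
def skm (X : Type) [TopologicalSpace X] [CWComplex (Set.univ : Set X)] (m : ℕ) : Set X :=
  O3.sk (Set.univ : Set X) (m + 1)

/-- `γ` is a coarse inverse of the orbit map on the `m`-skeleton -/
structure Coarse {G X : Type} [Group G] [TopologicalSpace X] [CWComplex (Set.univ : Set X)]
    [MulAction G X] (χ : Additive G →+ ℝ) (h : X → ℝ) (m : ℕ) (γ : X → G) (B : Set G) (C : ℝ) :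
    Prop where
  fin : B.Finite
  nb : ∀ x ∈ skm X m, ∃ U : Set X, IsOpen U ∧ x ∈ U ∧
    ∀ y ∈ U ∩ skm X m, ∀ y' ∈ U ∩ skm X m, (γ y)⁻¹ * γ y' ∈ B
  ht : ∀ x ∈ skm X m, |h x - χ (Additive.ofMul (γ x))| ≤ C
  cpt : ∀ Z : Set X, IsCompact Z → Z ⊆ skm X m → ∃ S : Set G, S.Finite ∧
    ∀ (g : G), ∀ y ∈ Z, g⁻¹ * γ (g • y) ∈ S

end Pool.Agent.Work.MP_e9e200_al.TL

end

section

/-!
# Project UP: basic facts on complexes of tuples
-/

set_option autoImplicit false

namespace Pool.Agent.Work.MP_e9e200_al.UP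

open Finsupp

section

variable {ι : Type} {Z : Type} [AddCommGroup Z]

@[simp] lemma pre_single (i : ι) (l : List ι) (z : Z) :
    pre Z i (single l z) = single (i :: l) z := by
  simp [pre, Finsupp.mapDomain.addMonoidHom]

lemma del_single (l : List ι) (z : Z) : del Z (single l z) = bdl Z l z := by
  rw [del, Finsupp.liftAddHom_apply_single]

@[simp] lemma del_single_nil (z : Z) : del Z (single ([] : List ι) z) = 0 := by
  rw [del_single, bdl, AddMonoidHom.zero_apply]

@[simp] lemma del_single_cons (i : ι) (l : List ι) (z : Z) :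
    del Z (single (i :: l) z) = single l z - pre Z i (del Z (single l z)) := by
  rw [del_single, del_single, bdl, AddMonoidHom.sub_apply, AddMonoidHom.comp_apply,
    Finsupp.singleAddHom_apply]

/-- the homotopy formula: `del (i :: c) = c - i :: del c` -/
lemma del_pre (i : ι) (c : List ι →₀ Z) : del Z (pre Z i c) = c - pre Z i (del Z c) := by
  induction c using Finsupp.induction_linear with
  | zero => simp
  | add f g hf hg => rw [map_add, map_add, hf, hg, map_add, map_add]; abel
  | single l z => rw [pre_single, del_single_cons]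

lemma del_del (c : List ι →₀ Z) : del Z (del Z c) = 0 := by
  induction c using Finsupp.induction_linear with
  | zero => simp
  | add f g hf hg => rw [map_add, map_add, hf, hg, add_zero]
  | single l z =>
    induction l with
    | nil => simp
    | cons i l ih => rw [del_single_cons, map_sub, del_pre, ih, map_zero, sub_zero, sub_self]

lemma pre_apply_cons (i : ι) (c : List ι →₀ Z) (l : List ι) : pre Z i c (i :: l) = c l := by
  classical
  induction c using Finsupp.induction_linear with
  | zero => simp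
  | add f g hf hg => rw [map_add, Finsupp.add_apply, hf, hg, Finsupp.add_apply]
  | single l' z =>
    rw [pre_single, Finsupp.single_apply, Finsupp.single_apply]
    simp

lemma pre_apply_ne (i : ι) (c : List ι →₀ Z) (l : List ι) (h : ∀ l', l ≠ i :: l') :
    pre Z i c l = 0 := by
  classical
  induction c using Finsupp.induction_linear with
  | zero => simp
  | add f g hf hg => rw [map_add, Finsupp.add_apply, hf, hg, add_zero]
  | single l' z =>
    rw [pre_single, Finsupp.single_apply, if_neg (fun h' => h l' h'.symm)]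

/-- naturality of the boundary -/
lemma del_mapRange {Y : Type} [AddCommGroup Y] (f : Z →+ Y) (c : List ι →₀ Z) :
    del Y (Finsupp.mapRange.addMonoidHom f c) = Finsupp.mapRange.addMonoidHom f (del Z c) := by
  induction c using Finsupp.induction_linear with
  | zero => simp
  | add a b ha hb => rw [map_add, map_add, ha, hb, map_add, map_add]
  | single l z =>
    have key : ∀ (l : List ι) (z : Z), del Y (single l (f z)) =
        Finsupp.mapRange.addMonoidHom f (del Z (single l z)) := by
      intro l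
      induction l with
      | nil => intro z; simp
      | cons i l ih =>
        intro z
        rw [del_single_cons, del_single_cons, map_sub, ih]
        congr 1
        · simp
        · generalize del Z (single l z) = c
          induction c using Finsupp.induction_linear with
          | zero => simp
          | add a b ha hb => rw [map_add, map_add, ha, hb, map_add, map_add]
          | single l' z' => simp
    rw [← key l z]
    simp

variable [DecidableEq ι] {P R : Finset ι → AddSubgroup Z} {I : Finset ι} {k : ℕ}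

lemma Ch_mem {c : List ι →₀ Z} : c ∈ Ch P I k ↔
    ∀ l, c l ∈ P l.toFinset ∧ (c l ≠ 0 → l.length = k ∧ ∀ i ∈ l, i ∈ I) := Iff.rfl

lemma Ch_single {l : List ι} {z : Z} (hz : z ∈ P l.toFinset) (hk : l.length = k)
    (hI : ∀ i ∈ l, i ∈ I) : single l z ∈ Ch P I k := by
  intro l'
  rw [Finsupp.single_apply]
  split_ifs with h
  · subst h; exact ⟨hz, fun _ => ⟨hk, hI⟩⟩
  · exact ⟨zero_mem _, fun h => absurd rfl h⟩

/-- chains are sums of one-term chains -/
lemma Ch_sum {c : List ι →₀ Z} (hc : c ∈ Ch P I k) :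
    c = ∑ l ∈ c.support, single l (c l) ∧ ∀ l ∈ c.support, single l (c l) ∈ Ch P I k :=
  ⟨(Finsupp.sum_single c).symm, fun l hl =>
    Ch_single (hc l).1 ((hc l).2 (Finsupp.mem_support_iff.1 hl)).1
      ((hc l).2 (Finsupp.mem_support_iff.1 hl)).2⟩

/-- induction principle for chains -/
lemma Ch_induction {p : (List ι →₀ Z) → Prop} (h0 : p 0) (ha : ∀ a b, p a → p b → p (a + b))
    (hs : ∀ l z, z ∈ P l.toFinset → l.length = k → (∀ i ∈ l, i ∈ I) → p (single l z))
    {c : List ι →₀ Z} (hc : c ∈ Ch P I k) : p c := by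
  rw [(Ch_sum hc).1]
  refine Finset.sum_induction _ p ha h0 (fun l hl => ?_)
  exact hs l _ (hc l).1 ((hc l).2 (Finsupp.mem_support_iff.1 hl)).1
    ((hc l).2 (Finsupp.mem_support_iff.1 hl)).2

lemma Ch_mono (h : ∀ J, P J ≤ R J) {c : List ι →₀ Z} (hc : c ∈ Ch P I k) : c ∈ Ch R I k :=
  fun l => ⟨h _ (hc l).1, (hc l).2⟩

lemma pre_mem {i : ι} (hi : i ∈ I) (h : ∀ J : Finset ι, P J ≤ R (insert i J)) {c : List ι →₀ Z}
    (hc : c ∈ Ch P I k) : pre Z i c ∈ Ch R I (k + 1) := by
  refine Ch_induction (p := fun c => pre Z i c ∈ Ch R I (k + 1))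
    (by rw [map_zero]; exact zero_mem _)
    (fun a b ha hb => by rw [map_add]; exact add_mem ha hb) (fun l z hz hk hI => ?_) hc
  rw [pre_single]
  refine Ch_single ?_ (by simp [hk]) ?_
  · rw [List.toFinset_cons]; exact h _ hz
  · intro j hj
    rcases List.mem_cons.1 hj with h | h
    · rw [h]; exact hi
    · exact hI j h

/-- the boundary of a chain is a chain, if the coefficients are antitone -/
lemma del_mem (hP : ∀ J J', J ⊆ J' → P J' ≤ P J) {c : List ι →₀ Z} (hc : c ∈ Ch P I k) :
    del Z c ∈ Ch P I (k - 1) := by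
  have key : ∀ (l : List ι) (z : Z) (Q : Finset ι → AddSubgroup Z),
      (∀ J J', J ⊆ J' → Q J' ≤ Q J) → z ∈ Q l.toFinset → (∀ i ∈ l, i ∈ I) →
      del Z (single l z) ∈ Ch Q I (l.length - 1) := by
    intro l
    induction l with
    | nil => intro z Q _ _ _; rw [del_single_nil]; exact zero_mem _
    | cons i l ih =>
      intro z Q hQ hz hI
      rw [del_single_cons]
      refine sub_mem ?_ ?_
      · refine Ch_single (hQ _ _ ?_ hz) (by simp) (fun j hj => hI j (List.mem_cons_of_mem _ hj))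
        rw [List.toFinset_cons]; exact Finset.subset_insert _ _
      · cases l with
        | nil => rw [del_single_nil, map_zero]; exact zero_mem _
        | cons i' l =>
          have h1 := ih z (fun J => Q (insert i J))
            (fun J J' h => hQ _ _ (Finset.insert_subset_insert _ h))
            (by simpa using hz) (fun j hj => hI j (List.mem_cons_of_mem _ hj))
          have h2 := pre_mem (Z := Z) (R := Q) (hI i (by simp)) (fun J => le_refl _) h1
          simpa using h2
  refine Ch_induction (p := fun c => del Z c ∈ Ch P I (k - 1))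
    (by rw [map_zero]; exact zero_mem _)
    (fun a b ha hb => by rw [map_add]; exact add_mem ha hb) (fun l z hz hk hI => ?_) hc
  rw [← hk]
  exact key l z P hP hz hI

/-- chains of degree `0` -/
lemma Ch_zero {c : List ι →₀ Z} : c ∈ Ch P I 0 ↔ ∃ z ∈ P ∅, c = single [] z := by
  constructor
  · intro hc
    refine ⟨c [], by simpa using (hc []).1, ?_⟩
    ext l
    by_cases hl : l = []
    · rw [hl, Finsupp.single_eq_same]
    · rw [Finsupp.single_eq_of_ne hl]
      by_contra h
      exact hl (List.length_eq_zero_iff.1 ((hc l).2 h).1)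
  · rintro ⟨z, hz, rfl⟩
    exact Ch_single (by simpa using hz) rfl (by simp)

lemma Un_mono_set {Δ : Set (Finset ι)} (h : ∅ ∈ Δ) {j : ℕ} {I : Finset ι} (hI : Un Δ j I) :
    Un Δ (j + 1) I := by
  exact ⟨∅, h, by rw [Finset.sdiff_empty]; exact hI⟩

lemma Un_mono {Δ : Set (Finset ι)} (h : ∅ ∈ Δ) {j k : ℕ} (hjk : j ≤ k) {I : Finset ι}
    (hI : Un Δ j I) : Un Δ k I := by
  induction k, hjk using Nat.le_induction with
  | base => exact hI
  | succ k _ ih => exact Un_mono_set h ih

lemma mem_Kr {M : Type} [AddCommGroup M] {N : AddSubgroup M} {f : M →₀ ℤ} :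
    f ∈ Kr N ↔ Finsupp.mapDomain (QuotientAddGroup.mk : M → M ⧸ N) f = 0 := Iff.rfl

lemma ind_empty {D : Type} [DecidableEq D] : ind (∅ : Finset D) = 0 := by
  funext i; simp [ind]

lemma ind_union {D : Type} [DecidableEq D] {J K : Finset D} (h : Disjoint J K) :
    ind (J ∪ K) = ind J + ind K := by
  funext i
  by_cases h1 : i ∈ J
  · have h2 : i ∉ K := fun h2 => Finset.disjoint_left.1 h h1 h2
    simp [ind, h1, h2]
  · by_cases h2 : i ∈ K <;> simp [ind, h1, h2]

lemma ind_mono {D : Type} [DecidableEq D] {J K : Finset D} (h : J ⊆ K) : ind J ≤ ind K := by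
  intro i
  by_cases h1 : i ∈ J
  · simp [ind, h1, h h1]
  · by_cases h2 : i ∈ K <;> simp [ind, h1, h2]

end

end Pool.Agent.Work.MP_e9e200_al.UP

end
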