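import Pool.Agent.Work.MP_e9e200_al.Bd.B28

/-! Bundle of small proof modules (one section per former module). -/

section

/-!
# Project TL: comparison of a cubical chain with its subdivision
-/

set_option autoImplicit false

namespace Pool.Agent.Work.MP_e9e200_al.TL

open Finsupp

namespace XAC

theorem map_mem {B M : Type} [AddCommGroup M] [Module ℂ M] (f : (B →₀ ℂ) →ₗ[ℂ] M)
    (W : Submodule ℂ M) (z : B →₀ ℂ) (h : ∀ c ∈ z.support, f (single c 1) ∈ W) : f z ∈ W := by
  have h1 : z = ∑ c ∈ z.support, z c • single c (1 : ℂ) := by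
    conv_lhs => rw [← Finsupp.sum_single z]
    rw [Finsupp.sum]
    refine Finset.sum_congr rfl fun c _ => ?_
    rw [Finsupp.smul_single, smul_eq_mul, mul_one]
  rw [h1, map_sum]
  refine Submodule.sum_mem _ fun c hc => ?_
  rw [map_smul]
  exact Submodule.smul_mem _ _ (h c hc)

theorem eq_of_supported {B M : Type} [AddCommGroup M] [Module ℂ M] (A : Set B)
    (f g : (B →₀ ℂ) →ₗ[ℂ] M) (h : ∀ c ∈ A, f (single c 1) = g (single c 1)) (x : B →₀ ℂ)
    (hx : x ∈ Finsupp.supported ℂ ℂ A) : f x = g x := by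
  have h1 : (f - g) x ∈ (⊥ : Submodule ℂ M) := by
    apply map_mem
    intro c hc
    have hc' : c ∈ A := (Finsupp.mem_supported ℂ x).1 hx hc
    rw [Submodule.mem_bot, LinearMap.sub_apply, h c hc', sub_self]
  rw [Submodule.mem_bot, LinearMap.sub_apply, sub_eq_zero] at h1
  exact h1

variable {G : Type}

theorem bd_single (k : ℕ) (c : Cb G (k + 1)) : bd G k (single c 1) =
    ∑ i : Fin (k + 1), ((-1 : ℂ) ^ (i : ℕ)) •
      (single (fc i true c) (1 : ℂ) - single (fc i false c) (1 : ℂ)) := by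
  rw [bd, Finsupp.linearCombination_single, one_smul]

theorem eps_single (k : ℕ) (c : Cb G k) : eps G k (single c 1) = 1 := by
  rw [eps, Finsupp.linearCombination_single, one_smul]

theorem bd_single_mem (k : ℕ) (c : Cb G (k + 1)) (A : Set (Cb G k)) (h : ∀ i s, fc i s c ∈ A) :
    bd G k (single c 1) ∈ Finsupp.supported ℂ ℂ A := by
  rw [bd_single]
  refine Submodule.sum_mem _ fun i _ => Submodule.smul_mem _ _ (Submodule.sub_mem _ ?_ ?_)
  · exact Finsupp.single_mem_supported ℂ _ (h i true)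
  · exact Finsupp.single_mem_supported ℂ _ (h i false)

/-- chains with labels in `S` -/
def lab (k : ℕ) (S : Set G) : Submodule ℂ (Cb G k →₀ ℂ) :=
  Finsupp.supported ℂ ℂ {c' : Cb G k | ∀ e, c' e ∈ S}

theorem single_mem_lab (k : ℕ) (S : Set G) (c : Cb G k) (h : ∀ e, c e ∈ S) :
    single c (1 : ℂ) ∈ lab k S := Finsupp.single_mem_supported ℂ _ h

theorem lab_mono (k : ℕ) {S S' : Set G} (h : S ⊆ S') : lab k S ≤ lab k S' :=
  Finsupp.supported_mono fun _ hc e => h (hc e)

theorem cn_mem_lab (k : ℕ) (S : Set G) (v : G) (hv : v ∈ S) (y : Cb G k →₀ ℂ)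
    (hy : y ∈ lab k S) : cn v k y ∈ lab (k + 1) S := by
  apply map_mem
  intro c hc
  have hc' : ∀ e, c e ∈ S := (Finsupp.mem_supported ℂ y).1 hy hc
  rw [cn, Finsupp.linearCombination_single, one_smul]
  apply single_mem_lab
  intro e
  unfold cnc
  split_ifs
  · exact hc' _
  · exact hv

theorem grid_mem_lab (N k : ℕ) (S : Set G) (F : (Fin k → ℕ) → G)
    (h : ∀ b, (∀ i, b i ≤ N) → F b ∈ S) : grid N k F ∈ lab k S := by
  unfold grid
  refine Submodule.sum_mem _ fun a _ => Submodule.smul_mem _ _ ?_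
  exact single_mem_lab k S _ fun e => h _ fun i => pos_le a e i

/-- the homotopy -/
noncomputable def T (N : ℕ) (F : ∀ k, Cb G k → (Fin k → ℕ) → G) :
    ∀ k, (Cb G k →₀ ℂ) →ₗ[ℂ] (Cb G (k + 1) →₀ ℂ)
  | 0 => linearCombination ℂ (fun c => cn (c fun _ => false) 0
      (single c (1 : ℂ) - grid N 0 (F 0 c)))
  | k + 1 => linearCombination ℂ (fun c => cn (c fun _ => false) (k + 1)
      (single c (1 : ℂ) - grid N (k + 1) (F (k + 1) c) - T N F k (bd G k (single c 1))))

/-- the correction term -/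
noncomputable def P (N : ℕ) (F : ∀ k, Cb G k → (Fin k → ℕ) → G) :
    ∀ k, (Cb G k →₀ ℂ) →ₗ[ℂ] (Cb G k →₀ ℂ)
  | 0 => 0
  | k + 1 => (T N F k).comp (bd G k)

theorem T_zero (N : ℕ) (F : ∀ k, Cb G k → (Fin k → ℕ) → G) (c : Cb G 0) :
    T N F 0 (single c 1) = cn (c fun _ => false) 0 (single c (1 : ℂ) - grid N 0 (F 0 c)) := by
  rw [T, Finsupp.linearCombination_single, one_smul]

theorem T_succ (N : ℕ) (F : ∀ k, Cb G k → (Fin k → ℕ) → G) (k : ℕ) (c : Cb G (k + 1)) :
    T N F (k + 1) (single c 1) = cn (c fun _ => false) (k + 1)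
      (single c (1 : ℂ) - grid N (k + 1) (F (k + 1) c) - T N F k (bd G k (single c 1))) := by
  rw [T, Finsupp.linearCombination_single, one_smul]

theorem P_bd (hBB : StBB) (N : ℕ) (F : ∀ k, Cb G k → (Fin k → ℕ) → G) (k : ℕ)
    (c : Cb G (k + 1)) : P N F k (bd G k (single c 1)) = 0 := by
  cases k with
  | zero => rfl
  | succ k => rw [P, LinearMap.comp_apply, (hBB G k).1, map_zero]

theorem bd_grid (hGR : StGR) (N : ℕ) (A : ∀ k, Set (Cb G k))
    (F : ∀ k, Cb G k → (Fin k → ℕ) → G)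
    (hF : ∀ k, ∀ c ∈ A (k + 1), ∀ (i : Fin (k + 1)) (b : Fin k → ℕ), (∀ j, b j ≤ N) →
      F (k + 1) c (ins i N b) = F k (fc i true c) b ∧
      F (k + 1) c (ins i 0 b) = F k (fc i false c) b) (k : ℕ) (c : Cb G (k + 1))
    (hc : c ∈ A (k + 1)) : bd G k (grid N (k + 1) (F (k + 1) c)) =
      linearCombination ℂ (fun c => grid N k (F k c)) (bd G k (single c 1)) := by
  rw [(hGR G N k).1, bd_single, map_sum]
  refine Finset.sum_congr rfl fun i _ => ?_
  rw [map_smul, map_sub, Finsupp.linearCombination_single, one_smul,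
    Finsupp.linearCombination_single, one_smul]
  rw [(hGR G N k).2.2 (fun b => F (k + 1) c (ins i N b)) (F k (fc i true c))
    (fun b hb => (hF k c hc i b hb).1),
    (hGR G N k).2.2 (fun b => F (k + 1) c (ins i 0 b)) (F k (fc i false c))
    (fun b hb => (hF k c hc i b hb).2)]

theorem main (hBB : StBB) (hCN : StCN) (hGR : StGR) (N : ℕ) (A : ∀ k, Set (Cb G k))
    (F : ∀ k, Cb G k → (Fin k → ℕ) → G)
    (hA : ∀ k, ∀ c ∈ A (k + 1), ∀ i s, fc i s c ∈ A k)
    (hF : ∀ k, ∀ c ∈ A (k + 1), ∀ (i : Fin (k + 1)) (b : Fin k → ℕ), (∀ j, b j ≤ N) →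
      F (k + 1) c (ins i N b) = F k (fc i true c) b ∧
      F (k + 1) c (ins i 0 b) = F k (fc i false c) b) (k : ℕ) :
    ∀ x ∈ Finsupp.supported ℂ ℂ (A k), eps G (k + 1) (T N F k x) = 0 ∧
      bd G k (T N F k x) = x - linearCombination ℂ (fun c => grid N k (F k c)) x - P N F k x := by
  induction k with
  | zero =>
    have h0 : ∀ c : Cb G 0, eps G 0 (single c (1 : ℂ) - grid N 0 (F 0 c)) = 0 := by
      intro c
      rw [map_sub, eps_single, (hGR G N 0).2.1, sub_self]
    intro x hx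
    constructor
    · refine eq_of_supported (A 0) ((eps G 1).comp (T N F 0)) 0 ?_ x hx
      intro c _
      rw [LinearMap.comp_apply, T_zero, (hCN G _ 0).2.2, h0, LinearMap.zero_apply]
    · refine eq_of_supported (A 0) ((bd G 0).comp (T N F 0))
        (LinearMap.id - linearCombination ℂ (fun c => grid N 0 (F 0 c)) - P N F 0) ?_ x hx
      intro c _
      rw [LinearMap.comp_apply, T_zero, (hCN G _ 0).1, h0, zero_smul, sub_zero,
        LinearMap.sub_apply, LinearMap.sub_apply, LinearMap.id_apply,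
        Finsupp.linearCombination_single, one_smul, P, LinearMap.zero_apply, sub_zero]
  | succ k ih =>
    have hy : ∀ c ∈ A (k + 1), eps G (k + 1) (single c (1 : ℂ) - grid N (k + 1) (F (k + 1) c) -
        T N F k (bd G k (single c 1))) = 0 ∧ bd G k (single c (1 : ℂ) -
        grid N (k + 1) (F (k + 1) c) - T N F k (bd G k (single c 1))) = 0 := by
      intro c hc
      have h1 := ih (bd G k (single c 1)) (bd_single_mem k c (A k) (hA k c hc))
      constructor
      · rw [map_sub, map_sub, eps_single, (hGR G N (k + 1)).2.1, h1.1, sub_self, sub_zero]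
      · rw [map_sub, map_sub, h1.2, P_bd hBB, bd_grid hGR N A F hF k c hc]
        abel
    intro x hx
    constructor
    · refine eq_of_supported (A (k + 1)) ((eps G (k + 2)).comp (T N F (k + 1))) 0 ?_ x hx
      intro c hc
      rw [LinearMap.comp_apply, T_succ, (hCN G _ (k + 1)).2.2, (hy c hc).1,
        LinearMap.zero_apply]
    · refine eq_of_supported (A (k + 1)) ((bd G (k + 1)).comp (T N F (k + 1)))
        (LinearMap.id - linearCombination ℂ (fun c => grid N (k + 1) (F (k + 1) c)) -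
          P N F (k + 1)) ?_ x hx
      intro c hc
      rw [LinearMap.comp_apply, T_succ, (hCN G _ k).2.1, (hy c hc).1, (hy c hc).2, zero_smul,
        map_zero, sub_zero, sub_zero, LinearMap.sub_apply, LinearMap.sub_apply,
        LinearMap.id_apply, Finsupp.linearCombination_single, one_smul, P,
        LinearMap.comp_apply]

theorem supp (N : ℕ) (A : ∀ k, Set (Cb G k)) (S : ∀ k, Cb G k → Set G)
    (F : ∀ k, Cb G k → (Fin k → ℕ) → G)
    (hA : ∀ k, ∀ c ∈ A (k + 1), ∀ i s, fc i s c ∈ A k ∧ S k (fc i s c) ⊆ S (k + 1) c)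
    (hS : ∀ k, ∀ c ∈ A k, (∀ e, c e ∈ S k c) ∧ ∀ b, (∀ i, b i ≤ N) → F k c b ∈ S k c) (k : ℕ) :
    ∀ c ∈ A k, T N F k (single c 1) ∈ lab (k + 1) (S k c) := by
  induction k with
  | zero =>
    intro c hc
    rw [T_zero]
    apply cn_mem_lab _ _ _ ((hS 0 c hc).1 _)
    exact Submodule.sub_mem _ (single_mem_lab _ _ _ (hS 0 c hc).1)
      (grid_mem_lab _ _ _ _ (hS 0 c hc).2)
  | succ k ih =>
    intro c hc
    rw [T_succ]
    apply cn_mem_lab _ _ _ ((hS (k + 1) c hc).1 _)
    refine Submodule.sub_mem _ (Submodule.sub_mem _ (single_mem_lab _ _ _ (hS (k + 1) c hc).1)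
      (grid_mem_lab _ _ _ _ (hS (k + 1) c hc).2)) ?_
    rw [bd_single, map_sum]
    refine Submodule.sum_mem _ fun i _ => ?_
    rw [map_smul, map_sub]
    refine Submodule.smul_mem _ _ (Submodule.sub_mem _ ?_ ?_)
    · exact lab_mono _ (hA k c hc i true).2 (ih _ (hA k c hc i true).1)
    · exact lab_mono _ (hA k c hc i false).2 (ih _ (hA k c hc i false).1)

end XAC

theorem I_AC (hBB : StBB) (hCN : StCN) (hGR : StGR) : StAC := by
  intro G N A S F _ hA hS hF k z hz hcyc
  refine ⟨XAC.T N F k z, ?_, ?_⟩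
  · apply XAC.map_mem
    intro c hc
    have hcA : c ∈ A k := (Finsupp.mem_supported ℂ z).1 hz hc
    have h1 : {c' : Cb G (k + 1) | ∀ e, c' e ∈ S k c} ⊆
        {c' : Cb G (k + 1) | ∃ c ∈ z.support, ∀ e, c' e ∈ S k c} := fun c' hc' => ⟨c, hc, hc'⟩
    exact Finsupp.supported_mono h1 (XAC.supp N A S F hA hS k c hcA)
  · rw [(XAC.main hBB hCN hGR N A F (fun k c hc i s => (hA k c hc i s).1) hF k z hz).2]
    have hP : XAC.P N F k z = 0 := by
      cases k with
      | zero => rfl
      | succ k =>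
        have h1 : bd G k z = 0 := hcyc.1
        rw [XAC.P, LinearMap.comp_apply, h1, map_zero]
    rw [hP, sub_zero]

end Pool.Agent.Work.MP_e9e200_al.TL

end

section

/-!
# Item AL of the project TL: a chain map from a partial resolution to the cubical chains
-/

set_option autoImplicit false

namespace Pool.Agent.Work.MP_e9e200_al.TL

open Finsupp Pool.Agent.Work.MP_e9e200_al.LC

namespace XAL

variable {G B : Type} [Group G] {k : ℕ}

theorem trc_single (g : G) (c : Cb G k) (a : ℂ) :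
    trc g (single c a) = single (fun e => g * c e) a := by
  unfold trc
  rw [Finsupp.lmapDomain_apply, Finsupp.mapDomain_single]

theorem bd_single (c : Cb G (k + 1)) : bd G k (single c (1 : ℂ)) =
    ∑ i : Fin (k + 1), ((-1 : ℂ) ^ (i : ℕ)) •
      (single (fc i true c) (1 : ℂ) - single (fc i false c) (1 : ℂ)) := by
  unfold bd
  rw [Finsupp.linearCombination_single, one_smul]

theorem bd_trc (g : G) (z : Cb G (k + 1) →₀ ℂ) : bd G k (trc g z) = trc g (bd G k z) := by
  have h : (bd G k).comp (trc g) = (trc g).comp (bd G k) := by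
    refine Finsupp.lhom_ext' fun c => LinearMap.ext_ring ?_
    simp only [LinearMap.comp_apply, Finsupp.lsingle_apply]
    rw [trc_single, bd_single, bd_single, map_sum]
    refine Finset.sum_congr rfl fun i _ => ?_
    rw [map_smul, map_sub, trc_single, trc_single]
    rfl
  exact LinearMap.congr_fun h z

theorem eps_single (c : Cb G k) (a : ℂ) : eps G k (single c a) = a := by
  unfold eps
  rw [Finsupp.linearCombination_single, smul_eq_mul, mul_one]

theorem eps_trc (g : G) (z : Cb G k →₀ ℂ) : eps G k (trc g z) = eps G k z := by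
  have h : (eps G k).comp (trc g) = eps G k := by
    refine Finsupp.lhom_ext' fun c => LinearMap.ext_ring ?_
    simp only [LinearMap.comp_apply, Finsupp.lsingle_apply]
    rw [trc_single, eps_single, eps_single]
  exact LinearMap.congr_fun h z

theorem trc_trc (g h : G) (z : Cb G k →₀ ℂ) : trc g (trc h z) = trc (g * h) z := by
  have hh : (trc g).comp (trc h) = (trc (g * h) : (Cb G k →₀ ℂ) →ₗ[ℂ] (Cb G k →₀ ℂ)) := by
    refine Finsupp.lhom_ext' fun c => LinearMap.ext_ring ?_
    simp only [LinearMap.comp_apply, Finsupp.lsingle_apply]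
    rw [trc_single, trc_single, trc_single]
    simp only [mul_assoc]
  exact LinearMap.congr_fun hh z

theorem extc_single (α : B → (Cb G k →₀ ℂ)) (p : G × B) (a : ℂ) :
    extc α (single p a) = a • trc p.1 (α p.2) := by
  unfold extc
  rw [Finsupp.linearCombination_single]

theorem extc_tr (α : B → (Cb G k →₀ ℂ)) (g : G) (x : G × B →₀ ℂ) :
    extc α (tr ℂ g x) = trc g (extc α x) := by
  have h : (extc α).comp (tr ℂ g) = (trc g).comp (extc α) := by
    refine Finsupp.lhom_ext' fun p => LinearMap.ext_ring ?_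
    simp only [LinearMap.comp_apply, Finsupp.lsingle_apply]
    rw [extc_single, map_smul, trc_trc]
    unfold tr
    rw [Finsupp.lmapDomain_apply, Finsupp.mapDomain_single, extc_single]
  exact LinearMap.congr_fun h x

/-- compare two linear maps on the supported chains -/
theorem supp_ext {V : Type} [AddCommGroup V] [Module ℂ V] (f g : (G × B →₀ ℂ) →ₗ[ℂ] V)
    (S : Set (G × B)) (h : ∀ p ∈ S, f (single p 1) = g (single p 1)) (x : G × B →₀ ℂ)
    (hx : x ∈ Finsupp.supported ℂ ℂ S) : f x = g x := by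
  rw [Finsupp.supported_eq_span_single] at hx
  refine Submodule.span_induction ?_ ?_ ?_ ?_ hx
  · rintro _ ⟨p, hp, rfl⟩
    exact h p hp
  · rw [map_zero, map_zero]
  · intro a b _ _ ha hb
    rw [map_add, map_add, ha, hb]
  · intro c a _ ha
    rw [map_smul, map_smul, ha]

theorem bd_extc (deg : B → ℕ) (db : B → (G × B →₀ ℂ)) (d : ℕ) (α : B → (Cb G (k + 1) →₀ ℂ))
    (α' : B → (Cb G k →₀ ℂ)) (h : ∀ b, deg b = d → bd G k (α b) = extc α' (db b))
    (x : G × B →₀ ℂ) (hx : x ∈ Finsupp.supported ℂ ℂ {p : G × B | deg p.2 = d}) :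
    bd G k (extc α x) = extc α' (ext ℂ db x) := by
  refine supp_ext ((bd G k).comp (extc α)) ((extc α').comp (ext ℂ db)) _ ?_ x hx
  intro p hp
  simp only [LinearMap.comp_apply]
  rw [extc_single, one_smul, bd_trc, h p.2 hp]
  unfold LC.ext
  rw [Finsupp.linearCombination_single, one_smul, extc_tr]

theorem eps_extc_zero (deg : B → ℕ) (d : ℕ) (α : B → (Cb G k →₀ ℂ))
    (h : ∀ b, deg b = d → eps G k (α b) = 0)
    (x : G × B →₀ ℂ) (hx : x ∈ Finsupp.supported ℂ ℂ {p : G × B | deg p.2 = d}) :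
    eps G k (extc α x) = 0 := by
  refine supp_ext ((eps G k).comp (extc α)) 0 _ ?_ x hx
  intro p hp
  simp only [LinearMap.comp_apply, LinearMap.zero_apply]
  rw [extc_single, one_smul, eps_trc, h p.2 hp]

theorem eps_extc_aug (eb : B → ℂ) (α : B → (Cb G k →₀ ℂ))
    (h : ∀ b, eps G k (α b) = eb b) (x : G × B →₀ ℂ) :
    eps G k (extc α x) = LC.aug ℂ eb x := by
  have hh : (eps G k).comp (extc α) = LC.aug ℂ eb := by
    refine Finsupp.lhom_ext' fun p => LinearMap.ext_ring ?_
    simp only [LinearMap.comp_apply, Finsupp.lsingle_apply]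
    rw [extc_single, one_smul, eps_trc, h p.2]
    unfold LC.aug
    rw [Finsupp.linearCombination_single, one_smul]
  exact LinearMap.congr_fun hh x

/-- the chain map -/
noncomputable def al (db : B → (G × B →₀ ℂ)) (eb : B → ℂ) : ∀ d : ℕ, B → (Cb G d →₀ ℂ)
  | 0 => fun b => eb b • single (fun _ => (1 : G)) (1 : ℂ)
  | d + 1 => fun b => cn (1 : G) d (extc (al db eb d) (db b))

theorem eps_al_zero (db : B → (G × B →₀ ℂ)) (eb : B → ℂ) (b : B) :
    eps G 0 (al db eb 0 b) = eb b := by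
  unfold al
  rw [map_smul, eps_single, smul_eq_mul, mul_one]

theorem sup_deg {m : ℕ} {deg : B → ℕ} {db : B → (G × B →₀ ℂ)} {eb : B → ℂ}
    (hP : PRes ℂ (Set.univ : Set G) m B deg db eb) (b : B) (d : ℕ) (hb : deg b = d + 1) :
    db b ∈ Finsupp.supported ℂ ℂ {p : G × B | deg p.2 = d} := by
  refine Finsupp.supported_mono ?_ (hP.db_sup b)
  rintro p ⟨_, hp⟩
  show deg p.2 = d
  omega

theorem main (hCN : StCN) {m : ℕ} {deg : B → ℕ} {db : B → (G × B →₀ ℂ)} {eb : B → ℂ}
    (hP : PRes ℂ (Set.univ : Set G) m B deg db eb) : ∀ (d : ℕ) (b : B), deg b = d + 1 →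
    bd G d (al db eb (d + 1) b) = extc (al db eb d) (db b) ∧
      eps G (d + 1) (al db eb (d + 1) b) = 0 := by
  intro d
  induction d with
  | zero =>
    intro b _
    have h0 : eps G 0 (extc (al db eb 0) (db b)) = 0 := by
      rw [eps_extc_aug eb (al db eb 0) (eps_al_zero db eb), hP.ed b]
    constructor
    · show bd G 0 (cn (1 : G) 0 (extc (al db eb 0) (db b))) = _
      rw [(hCN G 1 0).1, h0, zero_smul, sub_zero]
    · show eps G (0 + 1) (cn (1 : G) 0 (extc (al db eb 0) (db b))) = _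
      rw [(hCN G 1 0).2.2, h0]
  | succ d ih =>
    intro b hb
    have hs := sup_deg hP b (d + 1) hb
    have h0 : eps G (d + 1) (extc (al db eb (d + 1)) (db b)) = 0 :=
      eps_extc_zero deg (d + 1) (al db eb (d + 1)) (fun b' hb' => (ih b' hb').2) _ hs
    have h1 : bd G d (extc (al db eb (d + 1)) (db b)) = 0 := by
      rw [bd_extc deg db (d + 1) (al db eb (d + 1)) (al db eb d)
        (fun b' hb' => (ih b' hb').1) _ hs, hP.dd b, map_zero]
    constructor
    · show bd G (d + 1) (cn (1 : G) (d + 1) (extc (al db eb (d + 1)) (db b))) = _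
      rw [(hCN G 1 d).2.1, h0, h1, zero_smul, sub_zero, map_zero, sub_zero]
    · show eps G (d + 1 + 1) (cn (1 : G) (d + 1) (extc (al db eb (d + 1)) (db b))) = _
      rw [(hCN G 1 (d + 1)).2.2, h0]

end XAL

theorem I_AL (hBB : StBB) (hCN : StCN) : StAL := by
  intro G _ m B _ deg db eb hP
  have _h := hBB
  exact ⟨XAL.al db eb, fun b _ => XAL.eps_al_zero db eb b,
    fun d b hb => (XAL.main hCN hP d b hb).1, fun d b hb => (XAL.main hCN hP d b hb).2⟩

end Pool.Agent.Work.MP_e9e200_al.TL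

end

section

/-!
# Project TL, item CN: the cone
-/

set_option autoImplicit false

namespace Pool.Agent.Work.MP_e9e200_al.TL

open Finsupp

namespace XCN

theorem lin {G : Type} {k : ℕ} {M : Type} [AddCommGroup M] [Module ℂ M]
    (f g : (Cb G k →₀ ℂ) →ₗ[ℂ] M) (h : ∀ c, f (single c 1) = g (single c 1)) (z : Cb G k →₀ ℂ) :
    f z = g z := by
  have : f = g := Finsupp.lhom_ext' fun c => LinearMap.ext_ring (h c)
  rw [this]

theorem bd_single {G : Type} {k : ℕ} (c : Cb G (k + 1)) : bd G k (single c 1) =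
    ∑ i : Fin (k + 1), ((-1 : ℂ) ^ (i : ℕ)) •
      (single (fc i true c) (1 : ℂ) - single (fc i false c) (1 : ℂ)) := by
  unfold bd
  rw [Finsupp.linearCombination_single, one_smul]

theorem cn_single {G : Type} (v : G) {k : ℕ} (c : Cb G k) :
    cn v k (single c 1) = single (cnc v c) 1 := by
  unfold cn
  rw [Finsupp.linearCombination_single, one_smul]

theorem eps_single {G : Type} {k : ℕ} (c : Cb G k) : eps G k (single c 1) = 1 := by
  unfold eps
  rw [Finsupp.linearCombination_single, one_smul]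

theorem fc_zero_true {G : Type} (v : G) {k : ℕ} (c : Cb G k) : fc 0 true (cnc v c) = c := by
  funext e
  change (if (ins 0 true e) 0 then c (Fin.tail (ins 0 true e)) else v) = c e
  rw [ins_same, tail_ins_zero]
  rfl

theorem fc_zero_false {G : Type} (v : G) {k : ℕ} (c : Cb G k) :
    fc 0 false (cnc v c) = fun _ => v := by
  funext e
  change (if (ins 0 false e) 0 then c (Fin.tail (ins 0 false e)) else v) = v
  rw [ins_same]
  rfl

theorem fc_succ {G : Type} (v : G) {k : ℕ} (c : Cb G (k + 1)) (i : Fin (k + 1)) (s : Bool) :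
    fc i.succ s (cnc v c) = cnc v (fc i s c) := by
  funext e
  change (if (ins i.succ s e) 0 then c (Fin.tail (ins i.succ s e)) else v) =
    if e 0 then c (ins i s (Fin.tail e)) else v
  rw [ins_succ_zero, tail_ins_succ]

theorem cone_zero {G : Type} (v : G) (c : Cb G 0) : bd G 0 (cn v 0 (single c 1)) =
    single c 1 - eps G 0 (single c 1) • single (fun _ => v) (1 : ℂ) := by
  rw [cn_single, bd_single, eps_single, one_smul, Fin.sum_univ_succ, fc_zero_true, fc_zero_false]
  simp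

theorem cone_succ {G : Type} (v : G) (k : ℕ) (c : Cb G (k + 1)) :
    bd G (k + 1) (cn v (k + 1) (single c 1)) =
    single c 1 - eps G (k + 1) (single c 1) • single (fun _ => v) (1 : ℂ) -
      cn v k (bd G k (single c 1)) := by
  rw [cn_single, bd_single, bd_single, eps_single, one_smul, Fin.sum_univ_succ, fc_zero_true,
    fc_zero_false, map_sum, sub_eq_add_neg _ (∑ i, _), ← Finset.sum_neg_distrib]
  congr 1
  · simp
  · refine Finset.sum_congr rfl fun i _ => ?_
    rw [map_smul, map_sub, cn_single, cn_single, fc_succ, fc_succ, Fin.val_succ, pow_succ,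
      mul_neg_one, neg_smul]

end XCN

open XCN in
theorem I_CN : StCN := by
  intro G v k
  refine ⟨fun z => ?_, fun z => ?_, fun z => ?_⟩
  · exact lin (bd G 0 ∘ₗ cn v 0)
      (LinearMap.id - (eps G 0).smulRight (single (fun _ => v) (1 : ℂ))) (fun c => cone_zero v c) z
  · exact lin (bd G (k + 1) ∘ₗ cn v (k + 1))
      (LinearMap.id - (eps G (k + 1)).smulRight (single (fun _ => v) (1 : ℂ)) -
        cn v k ∘ₗ bd G k) (fun c => cone_succ v k c) z
  · refine lin (eps G (k + 1) ∘ₗ cn v k) (eps G k) (fun c => ?_) z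
    change eps G (k + 1) (cn v k (single c 1)) = _
    rw [cn_single, eps_single, eps_single]

end Pool.Agent.Work.MP_e9e200_al.TL

end

section

/-!
# Project TL, item EQ: equivariant families of singular cubes
-/

set_option autoImplicit false

namespace Pool.Agent.Work.MP_e9e200_al.TL

open Finsupp Topology Topology.RelCWComplex Pool.Agent.Work.MP_e9e200_al.LC

namespace XEQ

/-- the normalized labelled cube -/
def nrm {G : Type} [Group G] {k : ℕ} (c : Cb G k) : Cb G k := fun e => (c fun _ => false)⁻¹ * c e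

theorem nrm_mul {G : Type} [Group G] {k : ℕ} (g : G) (c : Cb G k) :
    nrm (fun e => g * c e) = nrm c := by
  funext e
  simp only [nrm, mul_inv_rev]
  group

theorem mul_nrm {G : Type} [Group G] {k : ℕ} (c : Cb G k) :
    (fun e => (c fun _ => false) * nrm c e) = c := by
  funext e
  simp [nrm]

open scoped Classical in
/-- a choice of a singular cube with given faces -/
noncomputable def Q {X : Type} [TopologicalSpace X] (T : Set X) (x₀ : X) {k : ℕ}
    (u : Fin (k + 1) → Bool → (Fin k → ℝ) → X) : (Fin (k + 1) → ℝ) → X :=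
  if h : ∃ Φ : (Fin (k + 1) → ℝ) → X, Box T (k + 1) Φ ∧ ∀ i s, ∀ x ∈ II k,
    Φ (ins i (vb s) x) = u i s x then h.choose else fun _ => x₀

theorem Q_spec {X : Type} [TopologicalSpace X] (T : Set X) (x₀ : X) {k : ℕ}
    (u : Fin (k + 1) → Bool → (Fin k → ℝ) → X)
    (h : ∃ Φ : (Fin (k + 1) → ℝ) → X, Box T (k + 1) Φ ∧ ∀ i s, ∀ x ∈ II k,
      Φ (ins i (vb s) x) = u i s x) :
    Box T (k + 1) (Q T x₀ u) ∧ ∀ i s, ∀ x ∈ II k, Q T x₀ u (ins i (vb s) x) = u i s x := by
  unfold Q
  rw [dif_pos h]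
  exact h.choose_spec

/-- the family of singular cubes -/
noncomputable def F {G X : Type} [Group G] [TopologicalSpace X] [MulAction G X] (T : Set X)
    (x₀ : X) : ∀ k, Cb G k → (Fin k → ℝ) → X
  | 0, c => fun _ => (c fun _ => false) • x₀
  | k + 1, c => fun x => (c fun _ => false) •
      Q T x₀ (fun i s => F T x₀ k (fc i s (nrm c))) x

theorem F_mul {G X : Type} [Group G] [TopologicalSpace X] [MulAction G X] (T : Set X)
    (x₀ : X) (k : ℕ) (g : G) (c : Cb G k) (x : Fin k → ℝ) :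
    F T x₀ k (fun e => g * c e) x = g • F T x₀ k c x := by
  cases k with
  | zero => simp only [F, mul_smul]
  | succ k => simp only [F, nrm_mul, mul_smul]

/-- the faces of adjacent cubes are compatible -/
def Cmp {G X : Type} [TopologicalSpace X] (f : ∀ k, Cb G k → (Fin k → ℝ) → X) (k : ℕ) : Prop :=
  ∀ (c : Cb G (k + 1)) (i : Fin (k + 1)) (s : Bool) (j : Fin (k + 1)) (t : Bool),
    ∀ x ∈ II k, ∀ y ∈ II k, ins i (vb s) x = ins j (vb t) y → f k (fc i s c) x = f k (fc j t c) y

theorem vb_inj {s t : Bool} (h : vb s = vb t) : s = t := by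
  cases s <;> cases t <;> simp [vb] at h ⊢ <;> norm_num at h

theorem cmp_zero {G X : Type} [TopologicalSpace X] (f : ∀ k, Cb G k → (Fin k → ℝ) → X) :
    Cmp f 0 := by
  intro c i s j t x _ y _ h
  have hij : i = j := Fin.ext (by omega)
  subst hij
  have h1 : s = t := by
    apply vb_inj
    have := congrFun h i
    rwa [ins_same, ins_same] at this
  subst h1
  have h2 : x = y := Subsingleton.elim _ _
  rw [h2]

theorem cmp_succ {G X : Type} [TopologicalSpace X] (hI : StINS)
    (f : ∀ k, Cb G k → (Fin k → ℝ) → X) (k : ℕ)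
    (hf : ∀ (c : Cb G (k + 1)) (i : Fin (k + 1)) (s : Bool), ∀ x ∈ II k,
      f (k + 1) c (ins i (vb s) x) = f k (fc i s c) x) : Cmp f (k + 1) := by
  intro c i s j t x hx y hy h
  rcases hI.2 ℝ k i j (vb s) (vb t) x y h with ⟨h1, h2, h3⟩ | ⟨i', j', z, h1, h2, h3⟩
  · rw [h1, vb_inj h2, h3]
  · have hz : z ∈ II k := by
      rw [h1] at hx
      exact (ins_mem_II.1 hx).2
    rw [h1, h2, hf _ _ _ z hz, hf _ _ _ z hz]
    have h4 : fc j' t (fc i s c) = fc i' s (fc j t c) := by
      funext e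
      show c (ins i s (ins j' t e)) = c (ins j t (ins i' s e))
      rw [h3]
    rw [h4]

theorem step {G X : Type} [Group G] [TopologicalSpace X] [MulAction G X] (hGL : StGL)
    (hc : ∀ g : G, Continuous (fun x : X => g • x)) (T : Set X)
    (hT : ∀ g : G, ∀ x ∈ T, g • x ∈ T) (x₀ : X) (k : ℕ) (hk : CubeExt (k + 1) T)
    (hb : ∀ c : Cb G k, Box T k (F T x₀ k c)) (hcm : Cmp (G := G) (F T x₀) k) :
    (∀ c : Cb G (k + 1), Box T (k + 1) (F T x₀ (k + 1) c)) ∧
      ∀ (c : Cb G (k + 1)) (i : Fin (k + 1)) (s : Bool), ∀ x ∈ II k,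
        F T x₀ (k + 1) c (ins i (vb s) x) = F T x₀ k (fc i s c) x := by
  have ex : ∀ c : Cb G (k + 1), ∃ Φ : (Fin (k + 1) → ℝ) → X, Box T (k + 1) Φ ∧ ∀ i s, ∀ x ∈ II k,
      Φ (ins i (vb s) x) = F T x₀ k (fc i s (nrm c)) x := by
    intro c
    exact hGL X T k hk (fun i s => F T x₀ k (fc i s (nrm c))) (fun i s => hb _)
      (fun i s j t x hx y hy h => hcm (nrm c) i s j t x hx y hy h)
  refine ⟨fun c => ?_, fun c i s x hx => ?_⟩
  · have h1 := (Q_spec T x₀ _ (ex c)).1
    exact ⟨(hc _).comp_continuousOn h1.1, fun x hx => hT _ _ (h1.2 hx)⟩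
  · have h1 := (Q_spec T x₀ _ (ex c)).2 i s x hx
    have h2 : F T x₀ (k + 1) c (ins i (vb s) x) =
        (c fun _ => false) • Q T x₀ (fun i s => F T x₀ k (fc i s (nrm c))) (ins i (vb s) x) := rfl
    rw [h2, h1, ← F_mul]
    have h3 : (fun e => (c fun _ => false) * fc i s (nrm c) e) = fc i s c := by
      funext e
      exact congrFun (mul_nrm c) (ins i s e)
    rw [h3]

theorem all {G X : Type} [Group G] [TopologicalSpace X] [MulAction G X] (hI : StINS)
    (hGL : StGL) (hc : ∀ g : G, Continuous (fun x : X => g • x)) (T : Set X)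
    (hT : ∀ g : G, ∀ x ∈ T, g • x ∈ T) (x₀ : X) (hx₀ : x₀ ∈ T) (m : ℕ)
    (hm : ∀ k ≤ m, CubeExt k T) : ∀ k ≤ m, (∀ c : Cb G k, Box T k (F T x₀ k c)) ∧
      Cmp (G := G) (F T x₀) k := by
  intro k
  induction k with
  | zero =>
    intro _
    refine ⟨fun c => ⟨?_, fun x _ => ?_⟩, cmp_zero _⟩
    · simp only [F]
      exact continuousOn_const
    · simp only [F]
      exact hT _ _ hx₀
  | succ k ih =>
    intro hk
    obtain ⟨h1, h2⟩ := ih (by omega)
    obtain ⟨h3, h4⟩ := step hGL hc T hT x₀ k (hm (k + 1) hk) h1 h2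
    exact ⟨h3, cmp_succ hI _ k h4⟩

end XEQ

theorem I_EQ (hI : StINS) (hGL : StGL) : StEQ := by
  intro G X _ _ _ hc T hT hne m hm
  obtain ⟨x₀, hx₀⟩ := hne
  refine ⟨XEQ.F T x₀, ⟨fun k hk c _ => (XEQ.all hI hGL hc T hT x₀ hx₀ m hm k hk).1 c,
    fun k hk c _ i s x hx => ?_⟩, fun k _ g c x _ => XEQ.F_mul T x₀ k g c x⟩
  obtain ⟨h1, h2⟩ := XEQ.all hI hGL hc T hT x₀ hx₀ m hm k (by omega)
  exact (XEQ.step hGL hc T hT x₀ k (hm (k + 1) hk) h1 h2).2 c i s x hx

end Pool.Agent.Work.MP_e9e200_al.TL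

end

section

/-!
# Project TL, item GL: a cube with prescribed faces
-/

set_option autoImplicit false

namespace Pool.Agent.Work.MP_e9e200_al.TL

open Finsupp Topology Topology.RelCWComplex Pool.Agent.Work.MP_e9e200_al.LC

namespace XGL

/-- the closed face with number `(i, s)` -/
def Fc (k : ℕ) (q : Fin (k + 1) × Bool) : Set (Fin (k + 1) → ℝ) :=
  {p | p ∈ II (k + 1) ∧ p q.1 = vb q.2}

theorem closed_Fc (k : ℕ) (q : Fin (k + 1) × Bool) : IsClosed (Fc k q) := by
  have h1 : Fc k q = II (k + 1) ∩ {p | p q.1 = vb q.2} := rfl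
  rw [h1]
  exact (isClosed_II (k + 1)).inter (isClosed_eq (continuous_apply q.1) continuous_const)

theorem union_Fc (k : ℕ) : dII (k + 1) ⊆ ⋃ q : Fin (k + 1) × Bool, Fc k q := by
  intro p hp
  obtain ⟨i, s, x, hx, rfl⟩ := exists_face hp
  refine Set.mem_iUnion.2 ⟨(i, s), ins_vb_mem_II i s hx, ins_same _ _ _⟩

end XGL

open XGL in
theorem I_GL : StGL := by
  intro X _ T k hT φ hφ hc
  classical
  let ψ : (Fin (k + 1) → ℝ) → X := fun p =>
    if h : p ∈ dII (k + 1) then
      φ (exists_face h).choose (exists_face h).choose_spec.choose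
        (exists_face h).choose_spec.choose_spec.choose
    else φ 0 true 0
  have hψ : ∀ (i : Fin (k + 1)) (s : Bool), ∀ x ∈ II k, ψ (ins i (vb s) x) = φ i s x := by
    intro i s x hx
    have h : ins i (vb s) x ∈ dII (k + 1) := ins_vb_mem_dII i s hx
    have h1 : ψ (ins i (vb s) x) = φ (exists_face h).choose (exists_face h).choose_spec.choose
        (exists_face h).choose_spec.choose_spec.choose := by
      simp only [ψ, dif_pos h]
    rw [h1]
    have h2 := (exists_face h).choose_spec.choose_spec.choose_spec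
    exact hc _ _ _ _ _ h2.1 _ hx h2.2
  have hmaps : Set.MapsTo ψ (dII (k + 1)) T := by
    intro p hp
    obtain ⟨i, s, x, hx, rfl⟩ := exists_face hp
    rw [hψ i s x hx]
    exact (hφ i s).2 hx
  have hcont : ContinuousOn ψ (dII (k + 1)) := by
    have hU : ContinuousOn ψ (⋃ q : Fin (k + 1) × Bool, Fc k q) := by
      refine LocallyFinite.continuousOn_iUnion (locallyFinite_of_finite _) (closed_Fc k) ?_
      rintro ⟨i, s⟩
      have h1 : ContinuousOn (fun p : Fin (k + 1) → ℝ => φ i s (fun j => p (i.succAbove j)))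
          (Fc k (i, s)) := by
        refine (hφ i s).1.comp (by fun_prop) ?_
        intro p hp
        exact mem_II.2 fun j => mem_II.1 hp.1 _
      refine h1.congr ?_
      intro p hp
      have h2 : ins i (vb s) (fun j => p (i.succAbove j)) = p := by
        have h3 := ins_self i p
        have h4 : p i = vb s := hp.2
        rwa [h4] at h3
      have h5 := hψ i s (fun j => p (i.succAbove j)) (mem_II.2 fun j => mem_II.1 hp.1 _)
      rw [h2] at h5
      exact h5
    exact hU.mono (union_Fc k)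
  obtain ⟨Φ, h1, h2, h3⟩ := hT ψ hcont hmaps
  refine ⟨Φ, ⟨h1, h2⟩, ?_⟩
  intro i s x hx
  rw [h3 (ins_vb_mem_dII i s hx), hψ i s x hx]

end Pool.Agent.Work.MP_e9e200_al.TL

end

section

/-!
# Project TL, item GR: the boundary of a grid
-/

set_option autoImplicit false

namespace Pool.Agent.Work.MP_e9e200_al.TL

open Finsupp Topology Topology.RelCWComplex Pool.Agent.Work.MP_e9e200_al.LC

namespace XGR

/-- the coefficient of an interval -/
noncomputable def w {N : ℕ} : Option (Fin N) → ℂ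
  | Option.none => (1 : ℂ) - (N : ℂ)
  | Option.some _ => (1 : ℂ)

/-- the end points of an interval -/
def p {N : ℕ} : Option (Fin N) → Bool → ℕ
  | Option.none, _ => 0
  | Option.some j, s => (j : ℕ) + (if s then 1 else 0)

theorem wt_eq {N k : ℕ} (a : Fin k → Option (Fin N)) : wt a = ∏ i, w (a i) := by
  unfold wt
  refine Finset.prod_congr rfl fun i _ => ?_
  rcases a i with _ | j <;> rfl

theorem pos_eq {N k : ℕ} (a : Fin k → Option (Fin N)) (e : Fin k → Bool) (i : Fin k) :
    pos a e i = p (a i) (e i) := by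
  unfold pos
  rcases a i with _ | j <;> rfl

theorem wt_ins {N k : ℕ} (i : Fin (k + 1)) (a0 : Option (Fin N)) (a : Fin k → Option (Fin N)) :
    wt (ins i a0 a) = w a0 * wt a := by
  rw [wt_eq, wt_eq, Fin.prod_univ_succAbove _ i, ins_same]
  congr 1
  refine Finset.prod_congr rfl fun j _ => ?_
  rw [ins_succAbove]

theorem pos_ins {N k : ℕ} (i : Fin (k + 1)) (a0 : Option (Fin N)) (a : Fin k → Option (Fin N))
    (s : Bool) (e : Fin k → Bool) : pos (ins i a0 a) (ins i s e) = ins i (p a0 s) (pos a e) := by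
  funext j
  refine Fin.succAboveCases i ?_ ?_ j
  · rw [pos_eq, ins_same, ins_same, ins_same]
  · intro j'
    rw [pos_eq, ins_succAbove, ins_succAbove, ins_succAbove, pos_eq]

theorem sum_ins {N k : ℕ} {V : Type} [AddCommMonoid V] (i : Fin (k + 1))
    (f : (Fin (k + 1) → Option (Fin N)) → V) :
    ∑ a, f a = ∑ a0 : Option (Fin N), ∑ a : Fin k → Option (Fin N), f (ins i a0 a) := by
  rw [← (Fin.insertNthEquiv (fun _ => Option (Fin N)) i).sum_comp, Fintype.sum_prod_type]
  rfl

theorem tele {N : ℕ} {V : Type} [AddCommGroup V] [Module ℂ V] (H : ℕ → V) :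
    ∑ a0 : Option (Fin N), w a0 • (H (p a0 true) - H (p a0 false)) = H N - H 0 := by
  rw [Fintype.sum_option]
  have h1 : w (N := N) Option.none • (H (p (N := N) Option.none true) -
      H (p (N := N) Option.none false)) = 0 := by
    show _ • (H 0 - H 0) = 0
    rw [sub_self, smul_zero]
  rw [h1, zero_add, ← Finset.sum_range_sub, ← Fin.sum_univ_eq_sum_range]
  refine Finset.sum_congr rfl fun j _ => ?_
  show (1 : ℂ) • (H ((j : ℕ) + 1) - H ((j : ℕ) + 0)) = _
  rw [one_smul, add_zero]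

theorem bd_single {G : Type} {k : ℕ} (c : Cb G (k + 1)) : bd G k (single c (1 : ℂ)) =
    ∑ i : Fin (k + 1), ((-1 : ℂ) ^ (i : ℕ)) •
      (single (fc i true c) (1 : ℂ) - single (fc i false c) (1 : ℂ)) := by
  unfold bd
  rw [Finsupp.linearCombination_single, one_smul]

theorem part {G : Type} (N k : ℕ) (F : (Fin (k + 1) → ℕ) → G) (i : Fin (k + 1)) :
    ∑ a : Fin (k + 1) → Option (Fin N), wt a •
      (single (fc i true (fun e => F (pos a e))) (1 : ℂ) -
        single (fc i false (fun e => F (pos a e))) (1 : ℂ)) =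
    grid N k (fun b => F (ins i N b)) - grid N k (fun b => F (ins i 0 b)) := by
  rw [sum_ins i]
  have h1 : ∀ a0 : Option (Fin N), ∑ a : Fin k → Option (Fin N), wt (ins i a0 a) •
      (single (fc i true (fun e => F (pos (ins i a0 a) e))) (1 : ℂ) -
        single (fc i false (fun e => F (pos (ins i a0 a) e))) (1 : ℂ)) =
      w a0 • ((fun t : ℕ => grid N k (fun b => F (ins i t b))) (p a0 true) -
        (fun t : ℕ => grid N k (fun b => F (ins i t b))) (p a0 false)) := by
    intro a0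
    have h2 : ∀ (a : Fin k → Option (Fin N)) (s : Bool),
        fc i s (fun e => F (pos (ins i a0 a) e)) = fun e => F (ins i (p a0 s) (pos a e)) := by
      intro a s
      funext e
      show F (pos (ins i a0 a) (ins i s e)) = _
      rw [pos_ins]
    simp only [h2]
    unfold grid
    rw [← Finset.sum_sub_distrib, Finset.smul_sum]
    refine Finset.sum_congr rfl fun a _ => ?_
    rw [wt_ins, mul_smul, smul_sub (wt a)]
  rw [Finset.sum_congr rfl fun a0 _ => h1 a0]
  exact tele (fun t : ℕ => grid N k (fun b => F (ins i t b)))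

end XGR

open XGR in
theorem I_GR : StGR := by
  intro G N k
  refine ⟨fun F => ?_, fun F => ?_, fun F F' h => ?_⟩
  · have h1 : bd G k (grid N (k + 1) F) = ∑ a : Fin (k + 1) → Option (Fin N), wt a •
        ∑ i : Fin (k + 1), ((-1 : ℂ) ^ (i : ℕ)) •
          (single (fc i true (fun e => F (pos a e))) (1 : ℂ) -
            single (fc i false (fun e => F (pos a e))) (1 : ℂ)) := by
      unfold grid
      rw [map_sum]
      refine Finset.sum_congr rfl fun a _ => ?_
      rw [map_smul, bd_single]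
    rw [h1]
    simp only [Finset.smul_sum]
    rw [Finset.sum_comm]
    refine Finset.sum_congr rfl fun i _ => ?_
    rw [← part, Finset.smul_sum]
    refine Finset.sum_congr rfl fun a _ => ?_
    rw [smul_comm]
  · unfold grid
    rw [map_sum]
    have h1 : ∀ a : Fin k → Option (Fin N), eps G k (wt a • single (fun e => F (pos a e)) (1 : ℂ)) =
        ∏ i, w (a i) := by
      intro a
      unfold eps
      rw [map_smul, Finsupp.linearCombination_single, smul_eq_mul, smul_eq_mul, mul_one, mul_one,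
        wt_eq]
    rw [Finset.sum_congr rfl fun a _ => h1 a]
    have h2 := Finset.prod_univ_sum (fun _ : Fin k => (Finset.univ : Finset (Option (Fin N))))
      (fun _ a0 => w a0)
    rw [Fintype.piFinset_univ] at h2
    rw [← h2]
    refine Finset.prod_eq_one fun i _ => ?_
    rw [Fintype.sum_option]
    show (1 : ℂ) - (N : ℂ) + ∑ _j : Fin N, (1 : ℂ) = 1
    simp
  · unfold grid
    refine Finset.sum_congr rfl fun a _ => ?_
    have h1 : (fun e => F (pos a e)) = fun e => F' (pos a e) := by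
      funext e
      exact h _ fun i => pos_le a e i
    rw [h1]

end Pool.Agent.Work.MP_e9e200_al.TL

end

section

/-!
# Project TL, item LEB: small cubes
-/

set_option autoImplicit false

namespace Pool.Agent.Work.MP_e9e200_al.TL

open Finsupp Topology Topology.RelCWComplex Pool.Agent.Work.MP_e9e200_al.LC

namespace XLEB

lemma pos_near {N k : ℕ} (a : Fin k → Option (Fin N)) (e e' : Fin k → Bool) (i : Fin k) :
    |(pos a e i : ℝ) - (pos a e' i : ℝ)| ≤ 1 := by
  unfold pos
  rcases h : a i with _ | j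
  · simp
  · cases e i <;> cases e' i <;> simp

lemma gp_near {N k : ℕ} (hN : 0 < N) {δ : ℝ} (h0 : 0 < δ) (hδ : 2 < δ * (N : ℝ))
    (a : Fin k → Option (Fin N)) (e e' : Fin k → Bool) :
    dist (gp N (pos a e')) (gp N (pos a e)) < δ := by
  rw [dist_pi_lt_iff h0]
  intro i
  have h1 : (0 : ℝ) < N := by exact_mod_cast hN
  have h2 := pos_near a e' e i
  rw [Real.dist_eq]
  have h3 : gp N (pos a e') i - gp N (pos a e) i =
      (2 / (N : ℝ)) * ((pos a e' i : ℝ) - (pos a e i : ℝ)) := by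
    simp only [gp]
    ring
  rw [h3, abs_mul, abs_of_pos (div_pos two_pos h1)]
  calc 2 / (N : ℝ) * |(pos a e' i : ℝ) - (pos a e i : ℝ)| ≤ 2 / (N : ℝ) * 1 :=
        mul_le_mul_of_nonneg_left h2 (div_pos two_pos h1).le
    _ < δ := by rw [mul_one, div_lt_iff₀ h1]; exact hδ

end XLEB

theorem I_LEB : StLEB := by
  intro G X _ _ T γ B hU k F hF
  have hex : ∀ p : II k, ∃ V : Set (Fin k → ℝ), IsOpen V ∧ (p : Fin k → ℝ) ∈ V ∧
      ∀ y ∈ V ∩ II k, ∀ y' ∈ V ∩ II k, (γ (F y))⁻¹ * γ (F y') ∈ B := by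
    intro p
    obtain ⟨U, hUo, hpU, hUB⟩ := hU (F p) (hF.2 p.2)
    obtain ⟨V, hVo, hpV, hVU⟩ := (continuousOn_iff.1 hF.1) p p.2 U hUo hpU
    exact ⟨V, hVo, hpV, fun y hy y' hy' =>
      hUB _ ⟨hVU hy, hF.2 hy.2⟩ _ ⟨hVU hy', hF.2 hy'.2⟩⟩
  choose V hVo hpV hVB using hex
  obtain ⟨δ, hδ, hball⟩ := lebesgue_number_lemma_of_metric (isCompact_II k) hVo
    (fun p hp => Set.mem_iUnion.2 ⟨⟨p, hp⟩, hpV ⟨p, hp⟩⟩)
  obtain ⟨N0, hN0⟩ := exists_nat_gt (2 / δ)
  refine ⟨N0, fun N hN => ?_⟩
  have h1 : 2 / δ < (N : ℝ) := lt_of_lt_of_le hN0 (by exact_mod_cast hN)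
  have hNp : 0 < N := by
    have : (0 : ℝ) < N := lt_trans (by positivity) h1
    exact_mod_cast this
  refine ⟨hNp, fun a e e' => ?_⟩
  have h2 : 2 < δ * (N : ℝ) := by
    rw [div_lt_iff₀ hδ] at h1
    linarith
  have hq : gp N (pos a e) ∈ II k := gp_mem_II hNp (pos_le a e)
  have hq' : gp N (pos a e') ∈ II k := gp_mem_II hNp (pos_le a e')
  obtain ⟨p, hp⟩ := hball _ hq
  exact hVB p _ ⟨hp (Metric.mem_ball_self hδ), hq⟩ _
    ⟨hp (Metric.mem_ball.2 (XLEB.gp_near hNp hδ h2 a e e')), hq'⟩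

end Pool.Agent.Work.MP_e9e200_al.TL

end

section

set_option autoImplicit false

namespace Pool.Agent.Work.MP_e9e200_al.TL

open Finsupp Topology Topology.RelCWComplex Pool.Agent.Work.MP_e9e200_al.LC

namespace XLEV

/-- translation of the extension property -/
theorem cubeExt_smul {G X : Type} [Group G] [TopologicalSpace X] [MulAction G X]
    (hc : ∀ g : G, Continuous (fun x : X => g • x)) (g : G) {S T : Set X}
    (h1 : ∀ x ∈ S, g • x ∈ T) (h2 : ∀ x ∈ T, g⁻¹ • x ∈ S) {k : ℕ} (h : CubeExt k S) :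
    CubeExt k T := by
  intro φ hφ hφT
  obtain ⟨Φ, hΦ, hΦS, hΦe⟩ := h (fun x => g⁻¹ • φ x) ((hc g⁻¹).comp_continuousOn hφ)
    (fun x hx => h2 _ (hφT hx))
  refine ⟨fun x => g • Φ x, (hc g).comp_continuousOn hΦ, fun x hx => h1 _ (hΦS hx), ?_⟩
  intro x hx
  simp only [hΦe hx, smul_inv_smul]

/-- the multiples of a positive number are coarsely dense -/
theorem exists_pow {G : Type} [Group G] (χ : Additive G →+ ℝ) (hχ : χ ≠ 0) :
    ∃ C : ℝ, 0 ≤ C ∧ ∀ s : ℝ, ∃ g : G, s ≤ χ (Additive.ofMul g) ∧ χ (Additive.ofMul g) ≤ s + C := by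
  obtain ⟨g0, hg0⟩ : ∃ g : G, 0 < χ (Additive.ofMul g) := by
    by_contra hne
    push Not at hne
    apply hχ
    refine AddMonoidHom.ext fun x => ?_
    have h1 : χ x ≤ 0 := hne (Additive.toMul x)
    have h2 : χ (-x) ≤ 0 := hne (Additive.toMul (-x : Additive G))
    rw [map_neg] at h2
    rw [AddMonoidHom.zero_apply]
    linarith
  refine ⟨χ (Additive.ofMul g0), hg0.le, fun s => ⟨g0 ^ (⌈s / χ (Additive.ofMul g0)⌉ : ℤ), ?_⟩⟩
  have h1 : χ (Additive.ofMul (g0 ^ (⌈s / χ (Additive.ofMul g0)⌉ : ℤ))) =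
      (⌈s / χ (Additive.ofMul g0)⌉ : ℤ) * χ (Additive.ofMul g0) := by
    rw [ofMul_zpow, map_zsmul, zsmul_eq_mul]
  rw [h1]
  constructor
  · have := Int.le_ceil (s / χ (Additive.ofMul g0))
    rwa [div_le_iff₀ hg0] at this
  · have := (Int.ceil_lt_add_one (s / χ (Additive.ofMul g0))).le
    calc ((⌈s / χ (Additive.ofMul g0)⌉ : ℤ) : ℝ) * χ (Additive.ofMul g0)
        ≤ (s / χ (Additive.ofMul g0) + 1) * χ (Additive.ofMul g0) :=
          mul_le_mul_of_nonneg_right this hg0.le
      _ = s + χ (Additive.ofMul g0) := by field_simp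

end XLEV

theorem I_LEV (hSKL : StSKL) (hLAR : StLAR) : StLEV := by
  intro G X _ _ _ _ _ hfree m χ hχ h hh hhalf
  obtain ⟨C, hC, hs⟩ := XLEV.exists_pow χ hχ
  obtain ⟨l1, l2, l3, l4⟩ := hLAR X h
  refine ⟨C, hC, fun s => ?_⟩
  obtain ⟨g, hg1, hg2⟩ := hs s
  refine ⟨χ (Additive.ofMul g), hg1, hg2, fun k hk => ?_⟩
  have h0 : CubeExt k (lev h 0) := by
    rw [lev_zero]; exact cubeExt_of_conn hhalf k hk
  have h1 : CubeExt k (lev h (χ (Additive.ofMul g))) := by
    refine XLEV.cubeExt_smul hfree.cont g (S := lev h 0) ?_ ?_ h0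
    · intro x hx
      have := (l4 G hfree g).1 _ (fun x => hh g x) 0 x hx
      rwa [zero_add] at this
    · intro x hx
      have h3 : ∀ x : X, h (g⁻¹ • x) = h x + -χ (Additive.ofMul g) := by
        intro x; rw [hh, ofMul_inv, map_neg]
      have := (l4 G hfree g⁻¹).1 _ h3 _ x hx
      rwa [add_neg_cancel] at this
  obtain ⟨Y, hY⟩ := l1 (χ (Additive.ofMul g))
  have h2 := hSKL X Y k m hk (by rw [hY]; exact h1)
  rwa [hY] at h2

end Pool.Agent.Work.MP_e9e200_al.TL

end

section

/-!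
# Project TL: the item NB (the coarse inverse)
-/

set_option autoImplicit false

namespace Pool.Agent.Work.MP_e9e200_al.TL

open Finsupp Topology Topology.RelCWComplex Pool.Agent.Work.MP_e9e200_al.LC

namespace XNB

variable {G X : Type} [Group G] [TopologicalSpace X] [T2Space X] [MulAction G X]
  [CWComplex (Set.univ : Set X)]

omit [T2Space X] in
theorem skm_smul (hX : O3.IsFreeGCW G X) (g : G) (m : ℕ) {x : X} (hx : x ∈ skm X m) :
    g • x ∈ skm X m := by
  simp only [skm, O3.sk, Set.mem_iUnion] at hx ⊢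
  obtain ⟨n, hn, e, he⟩ := hx
  obtain ⟨e', he'⟩ := hX.perm g n e
  obtain ⟨y, hy, rfl⟩ := he
  exact ⟨n, hn, e', y, hy, he' y hy⟩

/-- a compact set meets only finitely many translates of a compact set -/
theorem fact (hFIN : O3.StFIN) (hX : O3.IsFreeGCW G X) {K Z : Set X} (hK : IsCompact K)
    (hZ : IsCompact Z) : {g : G | ∃ x ∈ Z, g⁻¹ • x ∈ K}.Finite := by
  have h1 := hFIN X Set.univ K hK (Set.subset_univ _)
  have h2 := hFIN X Set.univ Z hZ (Set.subset_univ _)
  have h3 : (⋃ a ∈ {i : Σ n, cell (Set.univ : Set X) n | (openCell i.1 i.2 ∩ K).Nonempty},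
      ⋃ b ∈ {i : Σ n, cell (Set.univ : Set X) n | (openCell i.1 i.2 ∩ Z).Nonempty},
        {g : G | g • map a.1 a.2 0 = map b.1 b.2 0}).Finite := by
    refine h1.biUnion fun a _ => h2.biUnion fun b _ => ?_
    refine Set.Subsingleton.finite ?_
    intro g hg g' hg'
    have h4 : g • map a.1 a.2 0 = g' • map a.1 a.2 0 := hg.trans hg'.symm
    have h5 : (g'⁻¹ * g) • map a.1 a.2 0 = map a.1 a.2 0 := by
      rw [mul_smul, h4, inv_smul_smul]
    have h6 := hX.free _ _ h5
    exact (inv_mul_eq_one.1 h6).symm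
  refine h3.subset ?_
  rintro g ⟨x, hx, hgx⟩
  have hcov : ∀ y : X, ∃ i : Σ n, cell (Set.univ : Set X) n, y ∈ openCell i.1 i.2 := by
    intro y
    have h := CWComplex.iUnion_openCell_eq_complex (C := (Set.univ : Set X))
    have hy : y ∈ ⋃ (n : ℕ) (j : cell (Set.univ : Set X) n), openCell n j := by
      rw [h]; exact Set.mem_univ _
    simp only [Set.mem_iUnion] at hy
    obtain ⟨n, j, hj⟩ := hy
    exact ⟨⟨n, j⟩, hj⟩
  obtain ⟨a, ha⟩ := hcov (g⁻¹ • x)
  obtain ⟨b, hb⟩ := hcov x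
  simp only [Set.mem_iUnion]
  refine ⟨a, ⟨_, ha, hgx⟩, b, ⟨_, hb, hx⟩, ?_⟩
  obtain ⟨e', he'⟩ := hX.perm g a.1 a.2
  have h7 : x ∈ openCell a.1 e' := by
    obtain ⟨y, hy, hyx⟩ := ha
    refine ⟨y, hy, ?_⟩
    rw [he' y (Metric.ball_subset_closedBall hy), hyx, smul_inv_smul]
  have h8 : (⟨a.1, e'⟩ : Σ n, cell (Set.univ : Set X) n) = b := by
    obtain ⟨n, j⟩ := b
    exact eq_of_not_disjoint_openCell (Set.not_disjoint_iff.2 ⟨x, h7, hb⟩)
  subst h8
  exact (he' 0 (by simp)).symm

end XNB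

open XNB in
theorem I_NB (hFIN : O3.StFIN) (hSK : O3.StSK) : StNB := by
  intro G X _ _ _ _ _ hX m hfin χ h hh hχ
  choose! S hS using hfin
  have hKc : IsCompact (⋃ n ∈ Set.Iic m, ⋃ e ∈ S n, closedCell (C := (Set.univ : Set X)) n e) :=
    (Set.finite_Iic m).isCompact_biUnion fun n hn =>
      (hS n hn).1.isCompact_biUnion fun e _ => isCompact_closedCell
  set K : Set X := ⋃ n ∈ Set.Iic m, ⋃ e ∈ S n, closedCell (C := (Set.univ : Set X)) n e with hK
  have hcov : ∀ x ∈ skm X m, ∃ g : G, g⁻¹ • x ∈ K := by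
    intro x hx
    simp only [skm, O3.sk, Set.mem_iUnion] at hx
    obtain ⟨n, hn, e, y, hy, rfl⟩ := hx
    have hn' : n ≤ m := Nat.lt_succ_iff.1 hn
    obtain ⟨g, e', he', h1⟩ := (hS n hn').2 e
    refine ⟨g, ?_⟩
    rw [h1 y hy, inv_smul_smul]
    simp only [hK, Set.mem_iUnion]
    exact ⟨n, hn', e', he', y, hy, rfl⟩
  classical
  let γ : X → G := fun x => if h : ∃ g : G, g⁻¹ • x ∈ K then h.choose else 1
  have hγ : ∀ x ∈ skm X m, (γ x)⁻¹ • x ∈ K := by
    intro x hx
    have h1 := hcov x hx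
    have h2 : γ x = h1.choose := dif_pos h1
    rw [h2]
    exact h1.choose_spec
  obtain ⟨C, hC⟩ := hKc.exists_bound_of_continuousOn hh.continuousOn
  refine ⟨γ, {g : G | ∃ x ∈ K, g⁻¹ • x ∈ K}, C, ?_, ?_, ?_, ?_⟩
  · exact fact hFIN hX hKc hKc
  · intro x hx
    have hA : IsClosed {y : X | ∃ g : G, g⁻¹ • y ∈ K ∧ g⁻¹ • x ∉ K} := by
      rw [CWComplex.closed Set.univ _ (Set.subset_univ _)]
      intro n e
      have h1 : {y : X | ∃ g : G, g⁻¹ • y ∈ K ∧ g⁻¹ • x ∉ K} ∩
          closedCell (C := (Set.univ : Set X)) n e =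
          ⋃ g ∈ {g : G | (∃ y ∈ closedCell (C := (Set.univ : Set X)) n e, g⁻¹ • y ∈ K) ∧
            g⁻¹ • x ∉ K}, ((fun y : X => g⁻¹ • y) ⁻¹' K ∩
              closedCell (C := (Set.univ : Set X)) n e) := by
        ext y
        simp only [Set.mem_inter_iff, Set.mem_setOf_eq, Set.mem_iUnion, Set.mem_preimage,
          exists_prop]
        constructor
        · rintro ⟨⟨g, h1, h2⟩, h3⟩
          exact ⟨g, ⟨⟨y, h3, h1⟩, h2⟩, h1, h3⟩
        · rintro ⟨g, ⟨_, h2⟩, h1, h3⟩
          exact ⟨⟨g, h1, h2⟩, h3⟩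
      rw [h1]
      refine Set.Finite.isClosed_biUnion ?_ ?_
      · exact (fact hFIN hX hKc (isCompact_closedCell (n := n) (i := e))).subset
          fun g hg => hg.1
      · intro g _
        exact (hKc.isClosed.preimage (hX.cont g⁻¹)).inter isClosed_closedCell
    refine ⟨{y : X | ∃ g : G, g⁻¹ • y ∈ K ∧ g⁻¹ • x ∉ K}ᶜ, hA.isOpen_compl, ?_, ?_⟩
    · rintro ⟨g, h1, h2⟩
      exact h2 h1
    · have key : ∀ y ∈ {y : X | ∃ g : G, g⁻¹ • y ∈ K ∧ g⁻¹ • x ∉ K}ᶜ ∩ skm X m,
          (γ y)⁻¹ • x ∈ K := by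
        rintro y ⟨hy1, hy2⟩
        by_contra h2
        exact hy1 ⟨γ y, hγ y hy2, h2⟩
      intro y hy y' hy'
      refine ⟨(γ y)⁻¹ • x, key y hy, ?_⟩
      have h3 := key y' hy'
      rw [← mul_smul, mul_inv_rev, inv_inv, mul_assoc, mul_inv_cancel, mul_one]
      exact h3
  · intro x hx
    have h1 : h x = h ((γ x)⁻¹ • x) + χ (Additive.ofMul (γ x)) := by
      rw [← hχ, smul_inv_smul]
    rw [h1, add_sub_cancel_right]
    exact hC _ (hγ x hx)
  · intro Z hZ hZs
    refine ⟨{g : G | ∃ x ∈ Z, g⁻¹ • x ∈ K}, fact hFIN hX hKc hZ, ?_⟩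
    intro g y hy
    refine ⟨y, hy, ?_⟩
    rw [mul_inv_rev, inv_inv, mul_smul]
    exact hγ _ (skm_smul hX g m (hZs hy))

end Pool.Agent.Work.MP_e9e200_al.TL

end
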