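import Pool.Agent.Work.MP_e9e200_al.Bd.B02
import Pool.Agent.Work.MP_e9e200_al.Bd.B05

/-! Bundle of small proof modules (one section per former module). -/

section

/-!
# The comparison map to an essentially exact complex (MP_e9e200_al, LC, BE)
-/

set_option autoImplicit false

namespace Pool.Agent.Work.MP_e9e200_al.LC

open Finsupp

namespace BE

theorem tr_single {G B : Type} [Group G] (h g : G) (b : B) (c : ℂ) :
    tr ℂ h (single (g, b) c) = single (h * g, b) c := by
  simp [tr, Finsupp.lmapDomain_apply, Finsupp.mapDomain_single]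

theorem tr_mul {G B : Type} [Group G] (g h : G) :
    tr ℂ (B := B) (g * h) = tr ℂ g ∘ₗ tr ℂ h := by
  refine Finsupp.lhom_ext fun p c => ?_
  obtain ⟨x, b⟩ := p
  rw [LinearMap.comp_apply, tr_single, tr_single, tr_single, mul_assoc]

theorem ext_single {G B B' : Type} [Group G] (u : B → (G × B' →₀ ℂ)) (g : G) (b : B) (c : ℂ) :
    ext ℂ u (single (g, b) c) = c • tr ℂ g (u b) := by
  simp [ext, Finsupp.linearCombination_single]

theorem ext_tr {G B B' : Type} [Group G] (u : B → (G × B' →₀ ℂ)) (g : G) (x : G × B →₀ ℂ) :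
    ext ℂ u (tr ℂ g x) = tr ℂ g (ext ℂ u x) := by
  have h : ext ℂ u ∘ₗ tr ℂ g = tr ℂ g ∘ₗ ext ℂ u := by
    refine Finsupp.lhom_ext fun p c => ?_
    obtain ⟨x, b⟩ := p
    rw [LinearMap.comp_apply, LinearMap.comp_apply, tr_single, ext_single, ext_single, map_smul,
      tr_mul, LinearMap.comp_apply]
  exact LinearMap.congr_fun h x

theorem ext_ext {G B B' B'' : Type} [Group G] (u : B' → (G × B'' →₀ ℂ))
    (v : B → (G × B' →₀ ℂ)) (x : G × B →₀ ℂ) :
    ext ℂ u (ext ℂ v x) = ext ℂ (fun b => ext ℂ u (v b)) x := by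
  have h : ext ℂ u ∘ₗ ext ℂ v = ext ℂ (fun b => ext ℂ u (v b)) := by
    refine Finsupp.lhom_ext fun p c => ?_
    obtain ⟨x, b⟩ := p
    rw [LinearMap.comp_apply, ext_single, ext_single, map_smul, ext_tr]
  exact LinearMap.congr_fun h x

theorem aug_single {G B : Type} (e : B → ℂ) (g : G) (b : B) (c : ℂ) :
    aug ℂ e (single (g, b) c) = c * e b := by
  simp [aug, Finsupp.linearCombination_single]

theorem aug_tr {G B : Type} [Group G] (e : B → ℂ) (g : G) (x : G × B →₀ ℂ) :
    aug ℂ e (tr ℂ g x) = aug ℂ e x := by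
  have h : aug ℂ e ∘ₗ tr ℂ g = aug ℂ e := by
    refine Finsupp.lhom_ext fun p c => ?_
    obtain ⟨x, b⟩ := p
    rw [LinearMap.comp_apply, tr_single, aug_single, aug_single]
  exact LinearMap.congr_fun h x

theorem aug_ext {G B B' : Type} [Group G] (e : B' → ℂ) (v : B → (G × B' →₀ ℂ))
    (x : G × B →₀ ℂ) : aug ℂ e (ext ℂ v x) = aug ℂ (fun b => aug ℂ e (v b)) x := by
  have h : aug ℂ e ∘ₗ ext ℂ v = aug ℂ (fun b => aug ℂ e (v b)) := by
    refine Finsupp.lhom_ext fun p c => ?_
    obtain ⟨x, b⟩ := p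
    rw [LinearMap.comp_apply, ext_single, aug_single, map_smul, aug_tr, smul_eq_mul]
  exact LinearMap.congr_fun h x

theorem map_mem {X M : Type} [AddCommGroup M] [Module ℂ M] {A : Set X} (N : Submodule ℂ M)
    (f : (X →₀ ℂ) →ₗ[ℂ] M) (h : ∀ x ∈ A, f (single x 1) ∈ N) {z : X →₀ ℂ}
    (hz : z ∈ Finsupp.supported ℂ ℂ A) : f z ∈ N := by
  rw [Finsupp.supported_eq_span_single] at hz
  have h1 : Submodule.span ℂ ((fun i => single i (1 : ℂ)) '' A) ≤ N.comap f := by
    rw [Submodule.span_le]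
    rintro _ ⟨x, hx, rfl⟩
    exact h x hx
  exact h1 hz

theorem map_congr {X M : Type} [AddCommGroup M] [Module ℂ M] {A : Set X}
    (f g : (X →₀ ℂ) →ₗ[ℂ] M) (h : ∀ x ∈ A, f (single x 1) = g (single x 1)) {z : X →₀ ℂ}
    (hz : z ∈ Finsupp.supported ℂ ℂ A) : f z = g z := by
  have := map_mem ⊥ (f - g) (fun x hx => by
    rw [Submodule.mem_bot, LinearMap.sub_apply, h x hx, sub_self]) hz
  rwa [Submodule.mem_bot, LinearMap.sub_apply, sub_eq_zero] at this

/-- a translate of a supported chain -/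
theorem tr_mem {G B : Type} [Group G] {S T : Set (G × B)} (g : G)
    (h : ∀ p ∈ S, (g * p.1, p.2) ∈ T) {z : G × B →₀ ℂ} (hz : z ∈ Finsupp.supported ℂ ℂ S) :
    tr ℂ g z ∈ Finsupp.supported ℂ ℂ T := by
  refine map_mem _ (tr ℂ g) ?_ hz
  rintro ⟨x, b⟩ hx
  rw [tr_single]
  exact Finsupp.single_mem_supported ℂ 1 (h _ hx)

/-- a chain of a complex in degree 0 has zero boundary -/
theorem eq_zero_of_supported {X : Type} {A : Set X} {z : X →₀ ℂ}
    (hz : z ∈ Finsupp.supported ℂ ℂ A) (hA : ∀ x, x ∉ A) : z = 0 := by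
  rw [Finsupp.mem_supported'] at hz
  ext x
  exact hz x (hA x)

end BE

open BE in
theorem I_BE : StBE := by
  classical
  intro G _ χ _ C m j B deg db eb BE _ degE dE eE hB hEss hE hjm
  obtain ⟨hC, -, hEx⟩ := hEss
  have key : ∀ n ≤ j, ∃ (u : ℝ) (β : BE → (G × B →₀ ℂ)), 0 ≤ u ∧
      (∀ b, degE b ≤ n →
        β b ∈ Finsupp.supported ℂ ℂ {p : G × B | p.1 ∈ hs χ (-u) ∧ deg p.2 = degE b}) ∧
      (∀ b, degE b ≤ n → ext ℂ db (β b) = ext ℂ β (dE b)) ∧
      (∀ b, degE b ≤ n → aug ℂ eb (β b) = eE b) := by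
    intro n
    induction n with
    | zero =>
      intro _
      obtain ⟨x0, hx0, hx1⟩ := hB.surj
      refine ⟨∑ p ∈ x0.support, |χ (Additive.ofMul p.1)|, fun b => eE b • x0,
        Finset.sum_nonneg fun _ _ => abs_nonneg _, ?_, ?_, ?_⟩
      · intro b hb
        refine Submodule.smul_mem _ _ ?_
        rw [Finsupp.mem_supported]
        intro p hp
        have hp' : p ∈ x0.support := hp
        refine ⟨?_, ?_⟩
        · show -(∑ p ∈ x0.support, |χ (Additive.ofMul p.1)|) ≤ χ (Additive.ofMul p.1)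
          have h1 : |χ (Additive.ofMul p.1)| ≤ ∑ p ∈ x0.support, |χ (Additive.ofMul p.1)| :=
            Finset.single_le_sum (f := fun p : G × B => |χ (Additive.ofMul p.1)|)
              (fun _ _ => abs_nonneg _) hp'
          have h2 := neg_abs_le (χ (Additive.ofMul p.1))
          linarith
        · have := (Finsupp.mem_supported ℂ x0).1 hx0 hp
          have h3 : deg p.2 = 0 := this
          omega
      · intro b hb
        have h1 : dE b = 0 := eq_zero_of_supported (hE.db_sup b) fun p hp => by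
          have := hp.2
          omega
        have h2 : ext ℂ db x0 = 0 := by
          have : ext ℂ db x0 = (0 : (G × B →₀ ℂ) →ₗ[ℂ] (G × B →₀ ℂ)) x0 := by
            refine map_congr _ _ ?_ hx0
            rintro ⟨g, b'⟩ hb'
            have hb'' : deg b' = 0 := hb'
            have h3 : db b' = 0 := eq_zero_of_supported (hB.db_sup b') fun p hp => by
              have : deg p.2 + 1 = deg b' := hp
              omega
            rw [ext_single, h3, map_zero, smul_zero, LinearMap.zero_apply]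
          rw [this, LinearMap.zero_apply]
        rw [h1, map_zero, map_smul, h2, smul_zero]
      · intro b hb
        rw [map_smul, hx1, smul_eq_mul, mul_one]
    | succ n ih =>
      intro hn
      obtain ⟨u, β, hu, hβ1, hβ2, hβ3⟩ := ih (by omega)
      have step : ∀ b, degE b = n + 1 → ∃ y ∈ Finsupp.supported ℂ ℂ
          {p : G × B | p.1 ∈ hs χ (-u - C) ∧ deg p.2 = n + 1}, ext ℂ db y = ext ℂ β (dE b) := by
        intro b hb
        have hd : dE b ∈ Finsupp.supported ℂ ℂ {p : G × BE | p.1 ∈ hs χ 0 ∧ degE p.2 = n} := by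
          refine Finsupp.supported_mono ?_ (hE.db_sup b)
          intro p hp
          exact ⟨hp.1, by have := hp.2; omega⟩
        refine hEx (-u) n (by omega) (ext ℂ β (dE b)) ?_ ?_ ?_
        · refine map_mem _ (ext ℂ β) ?_ hd
          rintro ⟨g, b'⟩ ⟨hg, hb'⟩
          rw [ext_single, one_smul]
          have hb'' : degE b' = n := hb'
          refine tr_mem g ?_ (hβ1 b' hb''.le)
          rintro ⟨h, b2⟩ ⟨hh, hb2⟩
          refine ⟨?_, ?_⟩
          · have e1 : (0 : ℝ) ≤ χ (Additive.ofMul g) := hg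
            have e2 : -u ≤ χ (Additive.ofMul h) := hh
            show -u ≤ χ (Additive.ofMul (g * h))
            rw [ofMul_mul, map_add]
            linarith
          · have e3 : deg b2 = degE b' := hb2
            show deg b2 = n
            omega
        · rw [ext_ext]
          have e1 : ext ℂ (fun b => ext ℂ db (β b)) (dE b) =
              ext ℂ (fun b => ext ℂ β (dE b)) (dE b) := by
            refine map_congr _ _ ?_ hd
            rintro ⟨g, b'⟩ ⟨hg, hb'⟩
            have hb'' : degE b' = n := hb'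
            rw [ext_single, ext_single, hβ2 b' hb''.le]
          rw [e1, ← ext_ext, hE.dd, map_zero]
        · rw [aug_ext]
          have e1 : aug ℂ (fun b => aug ℂ eb (β b)) (dE b) = aug ℂ eE (dE b) := by
            refine map_congr _ _ ?_ hd
            rintro ⟨g, b'⟩ ⟨hg, hb'⟩
            have hb'' : degE b' = n := hb'
            rw [aug_single, aug_single, hβ3 b' hb''.le]
          rw [e1, hE.ed]
      choose y hy hyD using step
      refine ⟨u + C, fun b => if h : degE b = n + 1 then y b h else β b, by linarith, ?_, ?_, ?_⟩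
      · intro b hb
        by_cases h : degE b = n + 1
        · simp only [dif_pos h]
          refine Finsupp.supported_mono ?_ (hy b h)
          rintro ⟨g, b'⟩ ⟨hg, hb'⟩
          refine ⟨?_, ?_⟩
          · have e1 : -u - C ≤ χ (Additive.ofMul g) := hg
            show -(u + C) ≤ χ (Additive.ofMul g)
            linarith
          · have e2 : deg b' = n + 1 := hb'
            show deg b' = degE b
            omega
        · simp only [dif_neg h]
          refine Finsupp.supported_mono ?_ (hβ1 b (by omega))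
          rintro ⟨g, b'⟩ ⟨hg, hb'⟩
          refine ⟨?_, hb'⟩
          have e1 : -u ≤ χ (Additive.ofMul g) := hg
          show -(u + C) ≤ χ (Additive.ofMul g)
          linarith
      · intro b hb
        have e0 : ext ℂ (fun b => if h : degE b = n + 1 then y b h else β b) (dE b) =
            ext ℂ β (dE b) := by
          refine map_congr _ _ ?_ (hE.db_sup b)
          rintro ⟨g, b'⟩ ⟨hg, hb'⟩
          have hb'' : degE b' + 1 = degE b := hb'
          have h : ¬ degE b' = n + 1 := by omega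
          rw [ext_single, ext_single, dif_neg h]
        rw [e0]
        by_cases h : degE b = n + 1
        · simp only [dif_pos h]
          exact hyD b h
        · simp only [dif_neg h]
          exact hβ2 b (by omega)
      · intro b hb
        by_cases h : degE b = n + 1
        · simp only [dif_pos h]
          have e1 : aug ℂ eb (y b h) = (0 : (G × B →₀ ℂ) →ₗ[ℂ] ℂ) (y b h) := by
            refine map_congr _ _ ?_ (hy b h)
            rintro ⟨g, b'⟩ ⟨hg, hb'⟩
            have hb'' : deg b' = n + 1 := hb'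
            rw [aug_single, hB.eb_deg b' (by omega), mul_zero, LinearMap.zero_apply]
          rw [e1, LinearMap.zero_apply, hE.eb_deg b (by omega)]
        · simp only [dif_neg h]
          exact hβ3 b (by omega)
  obtain ⟨u, β, hu, h1, h2, h3⟩ := key j le_rfl
  exact ⟨u, β, hu, fun b => h1 b (hE.le b), fun b => h2 b (hE.le b), fun b => h3 b (hE.le b)⟩

end Pool.Agent.Work.MP_e9e200_al.LC

end

section

/-!
# Project LC, item GN: the cycles of degree `j` are finitely generated
-/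

set_option autoImplicit false

namespace Pool.Agent.Work.MP_e9e200_al.LC

namespace GN

open Finsupp

section basic

variable {G : Type} [Group G]

theorem tr_single {B : Type} (h g : G) (b : B) (c : ℂ) :
    tr ℂ h (single (g, b) c) = single (h * g, b) c := by
  simp [tr, Finsupp.lmapDomain_apply, Finsupp.mapDomain_single]

theorem lin_eq {X M : Type} [AddCommGroup M] [Module ℂ M] (T1 T2 : (X →₀ ℂ) →ₗ[ℂ] M)
    (A : Set X) (x : X →₀ ℂ) (hx : x ∈ Finsupp.supported ℂ ℂ A)
    (h : ∀ p ∈ A, T1 (single p 1) = T2 (single p 1)) : T1 x = T2 x := by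
  have h1 : x = x.sum (fun p c => c • single p (1 : ℂ)) := by
    conv_lhs => rw [← Finsupp.sum_single x]
    refine Finsupp.sum_congr (fun p _ => ?_)
    simp
  rw [h1, map_finsuppSum, map_finsuppSum]
  refine Finsupp.sum_congr (fun p hp => ?_)
  rw [map_smul, map_smul, h p ((Finsupp.mem_supported _ _).1 hx hp)]

theorem lin_mem {X M : Type} [AddCommGroup M] [Module ℂ M] (T : (X →₀ ℂ) →ₗ[ℂ] M)
    (S : Submodule ℂ M) (A : Set X) (x : X →₀ ℂ) (hx : x ∈ Finsupp.supported ℂ ℂ A)
    (h : ∀ p ∈ A, T (single p 1) ∈ S) : T x ∈ S := by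
  have h1 : x = x.sum (fun p c => c • single p (1 : ℂ)) := by
    conv_lhs => rw [← Finsupp.sum_single x]
    refine Finsupp.sum_congr (fun p _ => ?_)
    simp
  rw [h1, map_finsuppSum]
  refine Submodule.sum_mem _ (fun p hp => ?_)
  show T (x p • single p (1 : ℂ)) ∈ S
  rw [map_smul]
  exact S.smul_mem _ (h p ((Finsupp.mem_supported _ _).1 hx hp))

theorem lin_ext {X M : Type} [AddCommGroup M] [Module ℂ M] (T1 T2 : (X →₀ ℂ) →ₗ[ℂ] M)
    (h : ∀ p, T1 (single p 1) = T2 (single p 1)) (x : X →₀ ℂ) : T1 x = T2 x :=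
  lin_eq T1 T2 Set.univ x (by simp) (fun p _ => h p)

theorem tr_one {B : Type} (x : G × B →₀ ℂ) : tr ℂ (1 : G) x = x := by
  refine lin_ext (tr ℂ (1 : G)) LinearMap.id (fun p => ?_) x
  obtain ⟨g, b⟩ := p
  rw [tr_single, one_mul, LinearMap.id_apply]

theorem tr_tr {B : Type} (g h : G) (x : G × B →₀ ℂ) : tr ℂ g (tr ℂ h x) = tr ℂ (g * h) x := by
  refine lin_ext ((tr ℂ g) ∘ₗ (tr ℂ h)) (tr ℂ (g * h)) (fun p => ?_) x
  obtain ⟨a, b⟩ := p
  rw [LinearMap.comp_apply, tr_single, tr_single, tr_single, mul_assoc]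

theorem ext_single {B B' : Type} (u : B → (G × B' →₀ ℂ)) (g : G) (b : B) :
    ext ℂ u (single (g, b) 1) = tr ℂ g (u b) := by
  simp [ext, Finsupp.linearCombination_single]

omit [Group G] in
theorem aug_single {B : Type} (e : B → ℂ) (g : G) (b : B) :
    aug ℂ e (single (g, b) 1) = e b := by
  simp [aug, Finsupp.linearCombination_single]

theorem ext_tr {B B' : Type} (u : B → (G × B' →₀ ℂ)) (g : G) (x : G × B →₀ ℂ) :
    ext ℂ u (tr ℂ g x) = tr ℂ g (ext ℂ u x) := by
  refine lin_ext ((ext ℂ u) ∘ₗ (tr ℂ g)) ((tr ℂ g) ∘ₗ (ext ℂ u)) (fun p => ?_) x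
  obtain ⟨a, b⟩ := p
  rw [LinearMap.comp_apply, LinearMap.comp_apply, tr_single, ext_single, ext_single, tr_tr]

theorem aug_tr {B : Type} (e : B → ℂ) (g : G) (x : G × B →₀ ℂ) :
    aug ℂ e (tr ℂ g x) = aug ℂ e x := by
  refine lin_ext ((aug ℂ e) ∘ₗ (tr ℂ g)) (aug ℂ e) (fun p => ?_) x
  obtain ⟨a, b⟩ := p
  rw [LinearMap.comp_apply, tr_single, aug_single, aug_single]

theorem ext_ext {B B' B'' : Type} (u : B' → (G × B'' →₀ ℂ)) (w : B → (G × B' →₀ ℂ))
    (x : G × B →₀ ℂ) : ext ℂ u (ext ℂ w x) = ext ℂ (fun b => ext ℂ u (w b)) x := by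
  refine lin_ext ((ext ℂ u) ∘ₗ (ext ℂ w)) (ext ℂ (fun b => ext ℂ u (w b))) (fun p => ?_) x
  obtain ⟨a, b⟩ := p
  rw [LinearMap.comp_apply, ext_single, ext_single, ext_tr]

theorem aug_ext {B B' : Type} (e : B' → ℂ) (w : B → (G × B' →₀ ℂ))
    (x : G × B →₀ ℂ) : aug ℂ e (ext ℂ w x) = aug ℂ (fun b => aug ℂ e (w b)) x := by
  refine lin_ext ((aug ℂ e) ∘ₗ (ext ℂ w)) (aug ℂ (fun b => aug ℂ e (w b))) (fun p => ?_) x
  obtain ⟨a, b⟩ := p
  rw [LinearMap.comp_apply, ext_single, aug_single, aug_tr]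

/-- congruence for the extension -/
theorem ext_congr {B B' : Type} (u v : B → (G × B' →₀ ℂ)) (P : B → Prop) (x : G × B →₀ ℂ)
    (hx : x ∈ Finsupp.supported ℂ ℂ {p : G × B | P p.2}) (h : ∀ b, P b → u b = v b) :
    ext ℂ u x = ext ℂ v x := by
  refine lin_eq (ext ℂ u) (ext ℂ v) _ x hx (fun p hp => ?_)
  obtain ⟨a, b⟩ := p
  rw [ext_single, ext_single, h b hp]

omit [Group G] in
theorem aug_congr {B : Type} (u v : B → ℂ) (P : B → Prop) (x : G × B →₀ ℂ)
    (hx : x ∈ Finsupp.supported ℂ ℂ {p : G × B | P p.2}) (h : ∀ b, P b → u b = v b) :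
    aug ℂ u x = aug ℂ v x := by
  refine lin_eq (aug ℂ u) (aug ℂ v) _ x hx (fun p hp => ?_)
  obtain ⟨a, b⟩ := p
  rw [aug_single, aug_single, h b hp]

omit [Group G] in
theorem aug_zero {B : Type} (x : G × B →₀ ℂ) : aug ℂ (fun _ : B => (0 : ℂ)) x = 0 := by
  refine lin_ext (aug ℂ (fun _ : B => (0 : ℂ))) 0 (fun p => ?_) x
  obtain ⟨a, b⟩ := p
  rw [aug_single, LinearMap.zero_apply]

theorem supp_mono {X : Type} {A A' : Set X} (h : A ⊆ A') {x : X →₀ ℂ}
    (hx : x ∈ Finsupp.supported ℂ ℂ A) : x ∈ Finsupp.supported ℂ ℂ A' :=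
  Finsupp.supported_mono h hx

/-- supports of translates -/
theorem tr_supp {B : Type} (χ : Additive G →+ ℝ) (s t : ℝ) (Q : B → Prop) (g : G)
    (x : G × B →₀ ℂ) (hx : x ∈ Finsupp.supported ℂ ℂ {p : G × B | p.1 ∈ hs χ s ∧ Q p.2})
    (hst : t ≤ χ (Additive.ofMul g) + s) :
    tr ℂ g x ∈ Finsupp.supported ℂ ℂ {p : G × B | p.1 ∈ hs χ t ∧ Q p.2} := by
  refine lin_mem (tr ℂ g) _ _ x hx (fun p hp => ?_)
  obtain ⟨a, b⟩ := p
  rw [tr_single]
  refine Finsupp.single_mem_supported _ _ ⟨?_, hp.2⟩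
  have h1 : s ≤ χ (Additive.ofMul a) := hp.1
  show t ≤ χ (Additive.ofMul (g * a))
  rw [ofMul_mul, map_add]
  linarith

/-- supports of extensions -/
theorem ext_supp {B B' : Type} (χ : Additive G →+ ℝ) (s t r : ℝ) (P : B → Prop)
    (Q : B' → Prop) (u : B → (G × B' →₀ ℂ))
    (hu : ∀ b, P b → u b ∈ Finsupp.supported ℂ ℂ {p : G × B' | p.1 ∈ hs χ t ∧ Q p.2})
    (x : G × B →₀ ℂ) (hx : x ∈ Finsupp.supported ℂ ℂ {p : G × B | p.1 ∈ hs χ s ∧ P p.2})
    (hst : r ≤ s + t) :
    ext ℂ u x ∈ Finsupp.supported ℂ ℂ {p : G × B' | p.1 ∈ hs χ r ∧ Q p.2} := by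
  refine lin_mem (ext ℂ u) _ _ x hx (fun p hp => ?_)
  obtain ⟨a, b⟩ := p
  rw [ext_single]
  have h1 : s ≤ χ (Additive.ofMul a) := hp.1
  exact tr_supp χ t r Q a (u b) (hu b hp.2) (by linarith)

theorem one_mem_hs (χ : Additive G →+ ℝ) : (1 : G) ∈ hs χ 0 := by
  show (0 : ℝ) ≤ χ (Additive.ofMul 1)
  rw [ofMul_one, map_zero]

/-- the submonoid of the elements with nonnegative value -/
def HS (χ : Additive G →+ ℝ) : Submonoid G where
  carrier := hs χ 0
  one_mem' := one_mem_hs χ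
  mul_mem' := by
    intro a b ha hb
    have h1 : (0 : ℝ) ≤ χ (Additive.ofMul a) := ha
    have h2 : (0 : ℝ) ≤ χ (Additive.ofMul b) := hb
    show (0 : ℝ) ≤ χ (Additive.ofMul (a * b))
    rw [ofMul_mul, map_add]
    linarith

/-- a nonzero character takes arbitrarily small values -/
theorem exists_low (χ : Additive G →+ ℝ) (hχ : χ ≠ 0) (c : ℝ) :
    ∃ y : G, χ (Additive.ofMul y) ≤ c := by
  obtain ⟨g, hg⟩ : ∃ g, χ g ≠ 0 := by
    by_contra hcon
    push Not at hcon
    exact hχ (AddMonoidHom.ext hcon)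
  obtain ⟨g', hg'⟩ : ∃ g', χ g' < 0 := by
    rcases lt_or_gt_of_ne hg with h | h
    · exact ⟨g, h⟩
    · exact ⟨-g, by rw [map_neg]; linarith⟩
  obtain ⟨n, hn⟩ := Archimedean.arch (-c) (show 0 < -(χ g') by linarith)
  refine ⟨Additive.toMul (n • g'), ?_⟩
  rw [ofMul_toMul, map_nsmul]
  rw [nsmul_eq_mul] at hn ⊢
  linarith

end basic

end GN

open Finsupp GN in
theorem I_GN (hBE : StBE) (hAL : StAL) (hHT : StHT) : StGN := by
  classical
  intro G _ χ hχ C m j B _ deg db eb BE _ degE dE eE hC hE hP hj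
  obtain ⟨u, β, hu0, hβs, hβc, hβa⟩ := hBE G χ hχ C m j B deg db eb BE degE dE eE hC hE hP hj.le
  obtain ⟨hC0, hdbC, hEx⟩ := hE
  obtain ⟨y0, hy0⟩ := exists_low χ hχ (-u - C)
  set w : ℝ := max u (C - χ (Additive.ofMul y0)) with hw
  have hwu : u ≤ w := le_max_left _ _
  have hwC : C - χ (Additive.ofMul y0) ≤ w := le_max_right _ _
  obtain ⟨α, hαs, hαc, hαa⟩ := hAL G χ hχ C j B deg db eb BE degE dE eE hC hC0 hdbC hP w
  set Γ : BE → (G × BE →₀ ℂ) := fun b => ext ℂ α (β b) with hΓ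
  -- the composition with the extension of `α`
  have hαext : ∀ y : G × B →₀ ℂ, y ∈ Finsupp.supported ℂ ℂ {p : G × B | deg p.2 ≤ j} →
      ext ℂ dE (ext ℂ α y) = ext ℂ α (ext ℂ db y) ∧ aug ℂ eE (ext ℂ α y) = aug ℂ eb y := by
    intro y hy
    constructor
    · rw [ext_ext, ext_ext]
      exact ext_congr _ _ (fun b => deg b ≤ j) y hy (fun b hb => hαc b hb)
    · rw [aug_ext]
      exact aug_congr _ _ (fun b => deg b ≤ j) y hy (fun b hb => hαa b hb)
  have hβj : ∀ b, β b ∈ Finsupp.supported ℂ ℂ {p : G × B | deg p.2 ≤ j} := by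
    intro b
    refine supp_mono (fun p hp => ?_) (hβs b)
    show deg p.2 ≤ j
    rw [hp.2]
    exact hP.le b
  have hΓs : ∀ b, Γ b ∈ Finsupp.supported ℂ ℂ {p : G × BE | p.1 ∈ hs χ 0 ∧ degE p.2 = degE b} := by
    intro b
    refine ext_supp χ (-u) w 0 (fun b' => deg b' = degE b) (fun b' => degE b' = degE b) α ?_
      (β b) (hβs b) (by linarith)
    intro b' hb'
    have h1 := hαs b' (by rw [hb']; exact hP.le b)
    rw [hb'] at h1
    exact h1
  have hΓc : ∀ b, ext ℂ dE (Γ b) = ext ℂ Γ (dE b) := by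
    intro b
    show ext ℂ dE (ext ℂ α (β b)) = _
    rw [(hαext _ (hβj b)).1, hβc b, ext_ext]
  have hΓa : ∀ b, aug ℂ eE (Γ b) = eE b := by
    intro b
    show aug ℂ eE (ext ℂ α (β b)) = _
    rw [(hαext _ (hβj b)).2, hβa b]
  obtain ⟨s, hss, hsc⟩ := hHT G (HS χ) j BE degE dE eE hP Γ hΓs hΓc hΓa
  set e : BE → (G × BE →₀ ℂ) := fun b =>
    if degE b = j then single (1, b) 1 - Γ b - ext ℂ s (dE b) else 0 with he
  set f : B → (G × BE →₀ ℂ) := fun b =>
    if deg b = j + 1 then tr ℂ y0 (ext ℂ α (db b)) else 0 with hf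
  have hsa : ∀ x : G × BE →₀ ℂ, aug ℂ eE (ext ℂ s x) = 0 := by
    intro x
    rw [aug_ext]
    have h1 : (fun b => aug ℂ eE (s b)) = fun _ : BE => (0 : ℂ) := by
      funext b
      rw [← aug_zero (s b)]
      refine aug_congr _ _ (fun b' => degE b' = degE b + 1) (s b)
        (supp_mono (fun p hp => hp.2) (hss b)) (fun b' hb' => ?_)
      exact hP.eb_deg b' (by omega)
    rw [h1, aug_zero]
  have hid : ∀ x : G × BE →₀ ℂ, ext ℂ (fun b : BE => single ((1 : G), b) (1 : ℂ)) x = x := by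
    intro x
    refine lin_ext (ext ℂ (fun b : BE => single ((1 : G), b) (1 : ℂ))) LinearMap.id
      (fun p => ?_) x
    obtain ⟨a, b⟩ := p
    rw [ext_single, tr_single, mul_one, LinearMap.id_apply]
  -- the homotopy formula for chains
  have hhom : ∀ x : G × BE →₀ ℂ, x ∈ Finsupp.supported ℂ ℂ {p : G × BE | degE p.2 < j} →
      ext ℂ dE (ext ℂ s x) + ext ℂ s (ext ℂ dE x) = x - ext ℂ Γ x := by
    intro x hx
    have h1 := lin_eq ((ext ℂ dE) ∘ₗ (ext ℂ s) + (ext ℂ s) ∘ₗ (ext ℂ dE))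
      (LinearMap.id - ext ℂ Γ) _ x hx (fun p hp => ?_)
    · simpa using h1
    · obtain ⟨a, b⟩ := p
      simp only [LinearMap.add_apply, LinearMap.comp_apply, LinearMap.sub_apply,
        LinearMap.id_apply, ext_single, ext_tr]
      rw [← map_add, hsc b hp, map_sub, tr_single, mul_one]
  have hdbj : ∀ b, deg b = j + 1 →
      db b ∈ Finsupp.supported ℂ ℂ {p : G × B | p.1 ∈ hs χ (-C) ∧ deg p.2 = j} := by
    intro b hb
    rw [Finsupp.mem_supported]
    intro p hp
    have h1 := (Finsupp.mem_supported _ _).1 (hdbC b) hp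
    have h2 := (Finsupp.mem_supported _ _).1 (hC.db_sup b) hp
    have h3 : deg p.2 + 1 = deg b := h2
    exact ⟨h1, by omega⟩
  have hdbj' : ∀ b, deg b = j + 1 →
      db b ∈ Finsupp.supported ℂ ℂ {p : G × B | deg p.2 ≤ j} := by
    intro b hb
    exact supp_mono (fun p hp => le_of_eq hp.2) (hdbj b hb)
  refine ⟨BE ⊕ B, inferInstance, Sum.elim e f, ?_, ?_, ?_, ?_⟩
  · -- supports
    rintro (b | b)
    · show e b ∈ _
      rw [he]
      dsimp only
      split_ifs with hb
      · refine Submodule.sub_mem _ (Submodule.sub_mem _ ?_ ?_) ?_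
        · exact Finsupp.single_mem_supported _ _ ⟨one_mem_hs χ, hb⟩
        · have h1 := hΓs b
          rw [hb] at h1
          exact h1
        · refine ext_supp χ 0 0 0 (fun b' => degE b' + 1 = degE b) (fun b' => degE b' = j) s ?_
            (dE b) (hP.db_sup b) (by linarith)
          intro b' hb'
          have h1 := hss b'
          rw [hb', hb] at h1
          exact h1
      · exact Submodule.zero_mem _
    · show f b ∈ _
      rw [hf]
      dsimp only
      split_ifs with hb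
      · refine tr_supp χ (w - C) 0 (fun b' => degE b' = j) y0 _ ?_ (by linarith)
        refine ext_supp χ (-C) w (w - C) (fun b' => deg b' = j) (fun b' => degE b' = j) α ?_
          (db b) (hdbj b hb) (by linarith)
        intro b' hb'
        have h1 := hαs b' (le_of_eq hb')
        rw [hb'] at h1
        exact h1
      · exact Submodule.zero_mem _
  · -- cycles
    rintro (b | b)
    · show ext ℂ dE (e b) = 0
      rw [he]
      dsimp only
      split_ifs with hb
      · have h1 : dE b ∈ Finsupp.supported ℂ ℂ {p : G × BE | degE p.2 < j} := by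
          refine supp_mono (fun p hp => ?_) (hP.db_sup b)
          have h2 : degE p.2 + 1 = degE b := hp.2
          show degE p.2 < j
          omega
        have h3 := hhom (dE b) h1
        rw [hP.dd b, map_zero, add_zero] at h3
        rw [map_sub, map_sub, h3, ext_single, tr_one, hΓc b]
        abel
      · rw [map_zero]
    · show ext ℂ dE (f b) = 0
      rw [hf]
      dsimp only
      split_ifs with hb
      · rw [ext_tr, (hαext _ (hdbj' b hb)).1, hC.dd b, map_zero, map_zero]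
      · rw [map_zero]
  · -- augmentation
    rintro (b | b)
    · show aug ℂ eE (e b) = 0
      rw [he]
      dsimp only
      split_ifs with hb
      · rw [map_sub, map_sub, hsa, aug_single, hΓa b]
        simp
      · rw [map_zero]
    · show aug ℂ eE (f b) = 0
      rw [hf]
      dsimp only
      split_ifs with hb
      · rw [aug_tr, (hαext _ (hdbj' b hb)).2, hC.ed b]
      · rw [map_zero]
  · -- generation
    intro x hx hdx hax
    have h1 : ext ℂ e x = x - ext ℂ Γ x := by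
      have h2 := lin_eq (ext ℂ e) (LinearMap.id - ext ℂ Γ - (ext ℂ s) ∘ₗ (ext ℂ dE)) _ x hx
        (fun p hp => ?_)
      · rw [h2]
        simp only [LinearMap.sub_apply, LinearMap.id_apply, LinearMap.comp_apply, hdx, map_zero,
          sub_zero]
      · obtain ⟨a, b⟩ := p
        have hb : degE b = j := hp.2
        simp only [LinearMap.sub_apply, LinearMap.comp_apply, LinearMap.id_apply, ext_single,
          ext_tr]
        rw [he]
        dsimp only
        rw [if_pos hb, map_sub, map_sub, tr_single, mul_one]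
    have hβx : ext ℂ β x ∈ Finsupp.supported ℂ ℂ {p : G × B | p.1 ∈ hs χ (-u) ∧ deg p.2 = j} := by
      refine ext_supp χ 0 (-u) (-u) (fun b => degE b = j) (fun b => deg b = j) β ?_ x hx
        (by linarith)
      intro b hb
      have h2 := hβs b
      rw [hb] at h2
      exact h2
    have hβd : ext ℂ db (ext ℂ β x) = 0 := by
      rw [ext_ext]
      have h2 : (fun b => ext ℂ db (β b)) = fun b => ext ℂ β (dE b) := funext hβc
      rw [h2, ← ext_ext, hdx, map_zero]
    have hβaug : aug ℂ eb (ext ℂ β x) = 0 := by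
      rw [aug_ext]
      have h2 : (fun b => aug ℂ eb (β b)) = eE := funext hβa
      rw [h2, hax]
    obtain ⟨y, hy, hyx⟩ := hEx (-u) j hj _ hβx hβd hβaug
    have hΓx : ext ℂ Γ x = ext ℂ (fun b => ext ℂ α (db b)) y := by
      rw [hΓ, ← ext_ext, ← hyx, ext_ext]
    set Y : (G × B →₀ ℂ) →ₗ[ℂ] (G × (BE ⊕ B) →₀ ℂ) :=
      Finsupp.lmapDomain ℂ ℂ (fun p : G × B => (p.1 * y0⁻¹, (Sum.inr p.2 : BE ⊕ B))) with hY
    set X : (G × BE →₀ ℂ) →ₗ[ℂ] (G × (BE ⊕ B) →₀ ℂ) :=
      Finsupp.lmapDomain ℂ ℂ (fun p : G × BE => (p.1, (Sum.inl p.2 : BE ⊕ B))) with hX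
    have hYs : ∀ (a : G) (b : B), Y (single (a, b) 1) = single (a * y0⁻¹, Sum.inr b) 1 := by
      intro a b
      rw [hY, Finsupp.lmapDomain_apply, Finsupp.mapDomain_single]
    have hXs : ∀ (a : G) (b : BE), X (single (a, b) 1) = single (a, Sum.inl b) 1 := by
      intro a b
      rw [hX, Finsupp.lmapDomain_apply, Finsupp.mapDomain_single]
    refine ⟨X x + Y y, Submodule.add_mem _ ?_ ?_, ?_⟩
    · refine lin_mem X _ _ x hx (fun p hp => ?_)
      obtain ⟨a, b⟩ := p
      rw [hXs]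
      exact Finsupp.single_mem_supported _ _ hp.1
    · refine lin_mem Y _ _ y hy (fun p hp => ?_)
      obtain ⟨a, b⟩ := p
      rw [hYs]
      refine Finsupp.single_mem_supported _ _ ?_
      have h2 : -u - C ≤ χ (Additive.ofMul a) := hp.1
      show (0 : ℝ) ≤ χ (Additive.ofMul (a * y0⁻¹))
      rw [ofMul_mul, ofMul_inv, map_add, map_neg]
      linarith
    · rw [map_add]
      have h2 : ext ℂ (Sum.elim e f) (X x) = ext ℂ e x := by
        refine lin_ext ((ext ℂ (Sum.elim e f)) ∘ₗ X) (ext ℂ e) (fun p => ?_) x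
        obtain ⟨a, b⟩ := p
        rw [LinearMap.comp_apply, hXs, ext_single, ext_single, Sum.elim_inl]
      have h3 : ext ℂ (Sum.elim e f) (Y y) = ext ℂ (fun b => ext ℂ α (db b)) y := by
        refine lin_eq ((ext ℂ (Sum.elim e f)) ∘ₗ Y) (ext ℂ (fun b => ext ℂ α (db b))) _ y hy
          (fun p hp => ?_)
        obtain ⟨a, b⟩ := p
        have hb : deg b = j + 1 := hp.2
        rw [LinearMap.comp_apply, hYs, ext_single, ext_single, Sum.elim_inr, hf]
        dsimp only
        rw [if_pos hb, tr_tr, inv_mul_cancel_right]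
      rw [h2, h3, h1, ← hΓx]
      abel

end Pool.Agent.Work.MP_e9e200_al.LC

end

section

/-!
# Project LC: the homotopies `h_a`
-/

set_option autoImplicit false

namespace Pool.Agent.Work.MP_e9e200_al.LC

open Finsupp

namespace HOP

theorem eq_of_supported {X M : Type} [AddCommGroup M] [Module ℂ M]
    (f g : (X →₀ ℂ) →ₗ[ℂ] M) (s : Set X) (h : ∀ x ∈ s, f (single x 1) = g (single x 1)) :
    ∀ x ∈ Finsupp.supported ℂ ℂ s, f x = g x := by
  intro x hx
  rw [Finsupp.supported_eq_span_single] at hx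
  exact LinearMap.eqOn_span (s := (fun i => single i (1 : ℂ)) '' s)
    (by rintro _ ⟨i, hi, rfl⟩; exact h i hi) hx

theorem mem_of_supported {X M : Type} [AddCommGroup M] [Module ℂ M]
    (f : (X →₀ ℂ) →ₗ[ℂ] M) (s : Set X) (N : Submodule ℂ M) (h : ∀ x ∈ s, f (single x 1) ∈ N) :
    ∀ x ∈ Finsupp.supported ℂ ℂ s, f x ∈ N := by
  intro x hx
  rw [Finsupp.supported_eq_span_single] at hx
  have : Submodule.span ℂ ((fun i => single i (1 : ℂ)) '' s) ≤ N.comap f := by
    rw [Submodule.span_le]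
    rintro _ ⟨i, hi, rfl⟩
    exact h i hi
  exact this hx

variable {G : Type} [Group G] {B : Type}

theorem tr_single (g h : G) (b : B) (c : ℂ) :
    tr ℂ g (single (h, b) c) = single (g * h, b) c := by
  simp [tr, Finsupp.lmapDomain_apply, Finsupp.mapDomain_single]

theorem tr_one (x : G × B →₀ ℂ) : tr ℂ (1 : G) x = x := by
  have := eq_of_supported (tr ℂ (1 : G)) (LinearMap.id : (G × B →₀ ℂ) →ₗ[ℂ] (G × B →₀ ℂ))
    Set.univ (by rintro ⟨h, b⟩ -; rw [tr_single]; simp) x (by simp [Finsupp.mem_supported])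
  simpa using this

theorem tr_tr (g h : G) (x : G × B →₀ ℂ) : tr ℂ g (tr ℂ h x) = tr ℂ (g * h) x := by
  have := eq_of_supported (tr ℂ g ∘ₗ tr ℂ h) (tr ℂ (g * h)) (Set.univ : Set (G × B))
    (by rintro ⟨l, b⟩ -; simp [tr_single, mul_assoc]) x (by simp [Finsupp.mem_supported])
  simpa using this

theorem ext_single (u : B → (G × B →₀ ℂ)) (g : G) (b : B) :
    ext ℂ u (single (g, b) 1) = tr ℂ g (u b) := by
  simp [ext, Finsupp.linearCombination_single]

theorem hop_single (ha : G → B → (G × B →₀ ℂ)) (a g : G) (b : B) :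
    hop ha a (single (g, b) 1) = tr ℂ g (ha (g⁻¹ * a * g) b) := by
  simp [hop, Finsupp.linearCombination_single]

theorem ext_tr (u : B → (G × B →₀ ℂ)) (g : G) (x : G × B →₀ ℂ) :
    ext ℂ u (tr ℂ g x) = tr ℂ g (ext ℂ u x) := by
  have := eq_of_supported (ext ℂ u ∘ₗ tr ℂ g) (tr ℂ g ∘ₗ ext ℂ u) (Set.univ : Set (G × B))
    (by rintro ⟨l, b⟩ -; simp [tr_single, ext_single, tr_tr]) x (by simp [Finsupp.mem_supported])
  simpa using this

theorem hop_tr (ha : G → B → (G × B →₀ ℂ)) (a g : G) (x : G × B →₀ ℂ) :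
    hop ha a (tr ℂ g x) = tr ℂ g (hop ha (g⁻¹ * a * g) x) := by
  have := eq_of_supported (hop ha a ∘ₗ tr ℂ g) (tr ℂ g ∘ₗ hop ha (g⁻¹ * a * g))
    (Set.univ : Set (G × B))
    (by rintro ⟨l, b⟩ -; simp [tr_single, hop_single, tr_tr, mul_assoc]) x
    (by simp [Finsupp.mem_supported])
  simpa using this

theorem tr_mem (S : Submonoid G) (P : B → Prop) (g : G) (hg : g ∈ S) (x : G × B →₀ ℂ)
    (hx : x ∈ Finsupp.supported ℂ ℂ {p : G × B | p.1 ∈ S ∧ P p.2}) :
    tr ℂ g x ∈ Finsupp.supported ℂ ℂ {p : G × B | p.1 ∈ S ∧ P p.2} := by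
  refine mem_of_supported (tr ℂ g) _ _ ?_ x hx
  rintro ⟨h, b⟩ ⟨h1, h2⟩
  rw [tr_single]
  exact Finsupp.single_mem_supported ℂ _ ⟨S.mul_mem hg h1, h2⟩

theorem conj_mem (a g : G) (ha : a ∈ commutator G) : g⁻¹ * a * g ∈ commutator G := by
  have h := (inferInstance : (commutator G).Normal).conj_mem a ha g⁻¹
  simpa using h

/-- the operator `hop` raises the degree by one -/
theorem hop_mem (S : Submonoid G) (deg : B → ℕ) (ha : G → B → (G × B →₀ ℂ))
    (hs : ∀ a ∈ commutator G, ∀ b, ha a b ∈ Finsupp.supported ℂ ℂ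
      {p : G × B | p.1 ∈ (S : Set G) ∧ deg p.2 = deg b + 1})
    (a : G) (hac : a ∈ commutator G) (n : ℕ) (x : G × B →₀ ℂ)
    (hx : x ∈ Finsupp.supported ℂ ℂ {p : G × B | p.1 ∈ (S : Set G) ∧ deg p.2 + 1 = n}) :
    hop ha a x ∈ Finsupp.supported ℂ ℂ {p : G × B | p.1 ∈ (S : Set G) ∧ deg p.2 = n} := by
  refine mem_of_supported (hop ha a) _ _ ?_ x hx
  rintro ⟨h, b⟩ ⟨h1, h2⟩
  rw [hop_single]
  have h3 := hs (h⁻¹ * a * h) (conj_mem a h hac) b
  have h4 : deg b + 1 = n := h2
  rw [h4] at h3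
  exact tr_mem S (fun b => deg b = n) h h1 _ h3

theorem hop_congr (deg : B → ℕ) (ha ha' : G → B → (G × B →₀ ℂ)) (n : ℕ)
    (h : ∀ a b, deg b < n → ha' a b = ha a b) (a : G) (x : G × B →₀ ℂ)
    (hx : x ∈ Finsupp.supported ℂ ℂ {p : G × B | deg p.2 < n}) :
    hop ha' a x = hop ha a x := by
  refine eq_of_supported (hop ha' a) (hop ha a) _ ?_ x hx
  rintro ⟨g, b⟩ hb
  rw [hop_single, hop_single, h _ _ hb]

theorem homotopy (deg : B → ℕ) (db : B → (G × B →₀ ℂ)) (ha : G → B → (G × B →₀ ℂ)) (n : ℕ)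
    (he : ∀ a ∈ commutator G, ∀ b, deg b < n →
      ext ℂ db (ha a b) + hop ha a (db b) = single (1, b) 1 - single (a, b) 1)
    (a : G) (hac : a ∈ commutator G) (x : G × B →₀ ℂ)
    (hx : x ∈ Finsupp.supported ℂ ℂ {p : G × B | deg p.2 < n}) :
    ext ℂ db (hop ha a x) + hop ha a (ext ℂ db x) = x - tr ℂ a x := by
  have := eq_of_supported (ext ℂ db ∘ₗ hop ha a + hop ha a ∘ₗ ext ℂ db)
    (LinearMap.id - tr ℂ a) {p : G × B | deg p.2 < n} ?_ x hx
  · simpa using this
  · rintro ⟨g, b⟩ hb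
    simp only [LinearMap.add_apply, LinearMap.comp_apply, LinearMap.sub_apply, LinearMap.id_apply]
    rw [hop_single, ext_tr, ext_single, hop_tr, ← map_add, he _ (conj_mem a g hac) b hb, map_sub,
      tr_single, tr_single, tr_single]
    simp [mul_assoc]

theorem step (S : Submonoid G) (m : ℕ) (deg : B → ℕ)
    (db : B → (G × B →₀ ℂ)) (eb : B → ℂ) (hP : PRes ℂ (S : Set G) m B deg db eb)
    (hS : ∀ a ∈ commutator G, a ∈ S) (n : ℕ) (hn : n < m) (ha : G → B → (G × B →₀ ℂ))
    (hs : ∀ a ∈ commutator G, ∀ b, ha a b ∈ Finsupp.supported ℂ ℂ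
      {p : G × B | p.1 ∈ (S : Set G) ∧ deg p.2 = deg b + 1})
    (he : ∀ a ∈ commutator G, ∀ b, deg b < n →
      ext ℂ db (ha a b) + hop ha a (db b) = single (1, b) 1 - single (a, b) 1)
    (a : G) (hac : a ∈ commutator G) (b : B) (hb : deg b = n) :
    ∃ y ∈ Finsupp.supported ℂ ℂ {p : G × B | p.1 ∈ (S : Set G) ∧ deg p.2 = n + 1},
      ext ℂ db y = single (1, b) 1 - single (a, b) 1 - hop ha a (db b) := by
  have hdb := hP.db_sup b
  rw [hb] at hdb
  have hlt : db b ∈ Finsupp.supported ℂ ℂ {p : G × B | deg p.2 < n} := by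
    refine Finsupp.supported_mono ?_ hdb
    rintro p ⟨_, h2⟩
    have h3 : deg p.2 + 1 = n := h2
    show deg p.2 < n
    omega
  have hmem := hop_mem S deg ha hs a hac n (db b) hdb
  have hhom := homotopy deg db ha n he a hac (db b) hlt
  rw [hP.dd b, map_zero, add_zero] at hhom
  refine hP.exact n hn _ ?_ ?_ ?_
  · refine Submodule.sub_mem _ (Submodule.sub_mem _ ?_ ?_) hmem
    · exact Finsupp.single_mem_supported ℂ _ ⟨S.one_mem, hb⟩
    · exact Finsupp.single_mem_supported ℂ _ ⟨hS a hac, hb⟩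
  · rw [map_sub, map_sub, ext_single, ext_single, hhom, tr_one]
    abel
  · have h0 : aug ℂ eb (hop ha a (db b)) = 0 := by
      rcases Nat.eq_zero_or_pos n with h | h
      · have hz : db b = 0 := by
          rw [Finsupp.mem_supported] at hdb
          have : ∀ p, p ∉ (db b).support := by
            intro p hp
            have h3 : deg p.2 + 1 = n := (hdb hp).2
            omega
          rw [← Finsupp.support_eq_empty]
          exact Finset.eq_empty_of_forall_notMem this
        rw [hz, map_zero, map_zero]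
      · have := mem_of_supported (aug ℂ eb) _ (⊥ : Submodule ℂ ℂ) (?_) _ hmem
        · simpa using this
        · rintro ⟨g, b'⟩ ⟨_, h2⟩
          have h3 : deg b' = n := h2
          simp [aug, Finsupp.linearCombination_single, hP.eb_deg b' (by omega)]
    rw [map_sub, map_sub, h0]
    simp [aug, Finsupp.linearCombination_single]

theorem claim (S : Submonoid G) (m : ℕ) (deg : B → ℕ)
    (db : B → (G × B →₀ ℂ)) (eb : B → ℂ) (hP : PRes ℂ (S : Set G) m B deg db eb)
    (hS : ∀ a ∈ commutator G, a ∈ S) : ∀ n ≤ m, ∃ ha : G → B → (G × B →₀ ℂ),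
    (∀ a ∈ commutator G, ∀ b, ha a b ∈ Finsupp.supported ℂ ℂ
      {p : G × B | p.1 ∈ (S : Set G) ∧ deg p.2 = deg b + 1}) ∧
    (∀ a ∈ commutator G, ∀ b, deg b < n →
      ext ℂ db (ha a b) + hop ha a (db b) = single (1, b) 1 - single (a, b) 1) := by
  intro n
  induction n with
  | zero =>
    intro _
    refine ⟨fun _ _ => 0, fun a _ b => Submodule.zero_mem _, fun a _ b h => ?_⟩
    omega
  | succ n ih =>
    intro hn
    obtain ⟨ha, hs, he⟩ := ih (by omega)
    classical
    have hst := step S m deg db eb hP hS n (by omega) ha hs he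
    choose! y hy1 hy2 using hst
    set ha' : G → B → (G × B →₀ ℂ) := fun a b =>
      if a ∈ commutator G ∧ deg b = n then y a b else ha a b with hha'
    have hc : ∀ a b, deg b < n → ha' a b = ha a b := by
      intro a b h
      simp only [hha']
      rw [if_neg]
      rintro ⟨_, h2⟩
      omega
    have hdb : ∀ b, deg b ≤ n → db b ∈ Finsupp.supported ℂ ℂ {p : G × B | deg p.2 < n} := by
      intro b hb
      refine Finsupp.supported_mono ?_ (hP.db_sup b)
      rintro p ⟨_, h2⟩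
      have h3 : deg p.2 + 1 = deg b := h2
      show deg p.2 < n
      omega
    refine ⟨ha', ?_, ?_⟩
    · intro a hac b
      simp only [hha']
      split_ifs with h
      · have := hy1 a hac b h.2
        rw [h.2]
        exact this
      · exact hs a hac b
    · intro a hac b hb
      rw [hop_congr deg ha ha' n hc a (db b) (hdb b (by omega))]
      rcases Nat.lt_or_ge (deg b) n with h | h
      · rw [hc a b h]
        exact he a hac b h
      · have hbn : deg b = n := by omega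
        have : ha' a b = y a b := by
          simp only [hha']
          rw [if_pos ⟨hac, hbn⟩]
        rw [this, hy2 a hac b hbn]
        abel

end HOP

theorem I_HOP : StHOP := by
  intro G _ S m B deg db eb hP hS
  obtain ⟨ha, h1, h2⟩ := HOP.claim S m deg db eb hP hS m le_rfl
  exact ⟨ha, ⟨h1, h2⟩⟩

end Pool.Agent.Work.MP_e9e200_al.LC

end

section

/-!
# Project LC, item RES: from type `FP_m` to a based partial resolution
-/

set_option autoImplicit false
set_option linter.unusedSectionVars false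
set_option linter.style.haveILetI false

namespace Pool.Agent.Work.MP_e9e200_al.LC

open Finsupp

namespace RES

/-! ### From free modules to chains -/

section Chains

variable {G : Type} [Group G] {S : Submonoid G} {X Y B B' : Type} [Fintype X] [Fintype Y]
  [DecidableEq X] [DecidableEq Y]

/-- the chain of an element of the monoid ring -/
noncomputable def ch (b : B) : MonoidAlgebra ℤ S →+ (G × B →₀ ℤ) :=
  (Finsupp.mapDomain.addMonoidHom (fun s : S => ((s : G), b))).comp
    MonoidAlgebra.coeffAddEquiv.toAddMonoidHom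

theorem ch_of (b : B) (s : S) : ch b (MonoidAlgebra.of ℤ S s) = single ((s : G), b) 1 := by
  show Finsupp.mapDomain _ (MonoidAlgebra.coeff (MonoidAlgebra.of ℤ S s)) = _
  rw [MonoidAlgebra.of_apply, MonoidAlgebra.coeff_single, Finsupp.mapDomain_single]

/-- the chain of an element of a free module -/
noncomputable def phi (ι : X → B) : (X → MonoidAlgebra ℤ S) →+ (G × B →₀ ℤ) :=
  ∑ x : X, (ch (ι x)).comp (Pi.evalAddMonoidHom (fun _ : X => MonoidAlgebra ℤ S) x)

theorem phi_apply (ι : X → B) (v : X → MonoidAlgebra ℤ S) :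
    phi ι v = ∑ x : X, ch (ι x) (v x) := by
  unfold phi
  rw [AddMonoidHom.finsetSum_apply]
  rfl

theorem phi_single (ι : X → B) (x : X) (r : MonoidAlgebra ℤ S) :
    phi ι (Pi.single x r) = ch (ι x) r := by
  rw [phi_apply, Finset.sum_eq_single x]
  · rw [Pi.single_eq_same]
  · intro y _ hy
    rw [Pi.single_eq_of_ne hy, map_zero]
  · intro h
    exact absurd (Finset.mem_univ x) h

theorem tr_single (g h : G) (b : B) (n : ℤ) :
    tr ℤ g (single (h, b) n) = single (g * h, b) n := by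
  show Finsupp.mapDomain _ _ = _
  rw [Finsupp.mapDomain_single]

theorem ch_smul (b : B) (s : S) (r : MonoidAlgebra ℤ S) :
    ch b (MonoidAlgebra.of ℤ S s * r) = tr ℤ (s : G) (ch b r) := by
  induction r using MonoidAlgebra.induction_on with
  | of t =>
    rw [← map_mul, ch_of, ch_of, tr_single, Submonoid.coe_mul]
  | add x y hx hy => rw [mul_add, map_add, map_add, map_add, hx, hy]
  | smul n x hx => rw [mul_smul_comm, map_zsmul, map_zsmul, map_zsmul, hx]

theorem phi_smul (ι : X → B) (s : S) (v : X → MonoidAlgebra ℤ S) :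
    phi ι (MonoidAlgebra.of ℤ S s • v) = tr ℤ (s : G) (phi ι v) := by
  rw [phi_apply, phi_apply, map_sum]
  refine Finset.sum_congr rfl fun x _ => ?_
  rw [Pi.smul_apply, smul_eq_mul, ch_smul]

theorem smul_one_single (x : X) (r : MonoidAlgebra ℤ S) :
    r • (Pi.single x 1 : X → MonoidAlgebra ℤ S) = Pi.single x r := by
  ext1 y
  by_cases h : y = x
  · subst h
    simp
  · simp [Pi.single_eq_of_ne h]

theorem eq_of_single {A : Type} [AddCommGroup A] (f g : (X → MonoidAlgebra ℤ S) →+ A)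
    (h : ∀ (s : S) (x : X), f (Pi.single x (MonoidAlgebra.of ℤ S s)) =
      g (Pi.single x (MonoidAlgebra.of ℤ S s))) : f = g := by
  apply AddMonoidHom.functions_ext'
  intro x
  refine AddMonoidHom.ext fun r => ?_
  induction r using MonoidAlgebra.induction_on with
  | of s => exact h s x
  | add a b ha hb => rw [map_add, map_add, ha, hb]
  | smul n a ha => rw [map_zsmul, map_zsmul, ha]

theorem ext_single (db : B → (G × B' →₀ ℤ)) (g : G) (b : B) :
    ext ℤ db (single (g, b) 1) = tr ℤ g (db b) := by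
  unfold ext
  rw [Finsupp.linearCombination_single, one_smul]

theorem ext_phi (db : B → (G × B' →₀ ℤ)) (ι : X → B) (ι' : Y → B')
    (f : (X → MonoidAlgebra ℤ S) →ₗ[MonoidAlgebra ℤ S] (Y → MonoidAlgebra ℤ S))
    (h : ∀ x, db (ι x) = phi ι' (f (Pi.single x 1))) (v : X → MonoidAlgebra ℤ S) :
    ext ℤ db (phi ι v) = phi ι' (f v) := by
  have key : (ext ℤ db).toAddMonoidHom.comp (phi ι) = (phi ι').comp f.toAddMonoidHom := by
    apply eq_of_single
    intro s x
    show ext ℤ db (phi ι (Pi.single x (MonoidAlgebra.of ℤ S s))) =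
      phi ι' (f (Pi.single x (MonoidAlgebra.of ℤ S s)))
    rw [phi_single, ch_of, ext_single, h, ← phi_smul, ← map_smul, smul_one_single]
  exact DFunLike.congr_fun key v

theorem ext_phi_zero (db : B → (G × B' →₀ ℤ)) (ι : X → B)
    (h : ∀ x, db (ι x) = 0) (v : X → MonoidAlgebra ℤ S) :
    ext ℤ db (phi ι v) = 0 := by
  have key : (ext ℤ db).toAddMonoidHom.comp (phi (S := S) ι) = 0 := by
    apply eq_of_single
    intro s x
    show ext ℤ db (phi ι (Pi.single x (MonoidAlgebra.of ℤ S s))) = 0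
    rw [phi_single, ch_of, ext_single, h, map_zero]
  exact DFunLike.congr_fun key v

theorem aug_of (s : S) : Pool.Agent.Work.MP_e9e200_al.aug S (MonoidAlgebra.of ℤ S s) = 1 := by
  unfold Pool.Agent.Work.MP_e9e200_al.aug
  simp

theorem triv_smul (s : S) (t : Triv S) : MonoidAlgebra.of ℤ S s • t = t := by
  have h1 : ∀ z : ℤ, Pool.Agent.Work.MP_e9e200_al.aug S (MonoidAlgebra.of ℤ S s) * z = z := by
    intro z
    rw [aug_of, one_mul]
  exact h1 t

theorem aug_phi (eb : B → ℤ) (ι : X → B)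
    (f : (X → MonoidAlgebra ℤ S) →ₗ[MonoidAlgebra ℤ S] Triv S)
    (h : ∀ x, eb (ι x) = f (Pi.single x 1)) (v : X → MonoidAlgebra ℤ S) :
    aug ℤ eb (phi ι v) = f v := by
  have key : (aug ℤ eb).toAddMonoidHom.comp (phi ι) =
      (f.toAddMonoidHom : (X → MonoidAlgebra ℤ S) →+ ℤ) := by
    apply eq_of_single
    intro s x
    show aug ℤ eb (phi ι (Pi.single x (MonoidAlgebra.of ℤ S s))) =
      f (Pi.single x (MonoidAlgebra.of ℤ S s))
    rw [phi_single, ch_of, ← smul_one_single, map_smul, triv_smul]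
    unfold aug
    rw [Finsupp.linearCombination_single, one_smul, h]
  exact DFunLike.congr_fun key v

theorem aug_phi_zero (eb : B → ℤ) (ι : X → B)
    (h : ∀ x, eb (ι x) = 0) (v : X → MonoidAlgebra ℤ S) :
    aug ℤ eb (phi ι v) = 0 := by
  have key : (aug ℤ eb).toAddMonoidHom.comp (phi (S := S) ι) = 0 := by
    apply eq_of_single
    intro s x
    show aug ℤ eb (phi ι (Pi.single x (MonoidAlgebra.of ℤ S s))) = 0
    rw [phi_single, ch_of]
    unfold aug
    rw [Finsupp.linearCombination_single, one_smul, h]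
  exact DFunLike.congr_fun key v

theorem phi_mem (ι : X → B) (v : X → MonoidAlgebra ℤ S) :
    phi ι v ∈ Finsupp.supported ℤ ℤ {p : G × B | p.1 ∈ S ∧ ∃ x, p.2 = ι x} := by
  rw [phi_apply]
  refine Submodule.sum_mem _ fun x _ => ?_
  generalize v x = r
  induction r using MonoidAlgebra.induction_on with
  | of s =>
    rw [ch_of]
    exact Finsupp.single_mem_supported ℤ 1 ⟨s.2, x, rfl⟩
  | add a b ha hb =>
    rw [map_add]
    exact Submodule.add_mem _ ha hb
  | smul n a ha =>
    rw [map_zsmul]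
    exact zsmul_mem ha n

theorem exists_phi (ι : X → B) (P : Set (G × B)) (hP : ∀ p ∈ P, p.1 ∈ S ∧ ∃ x, p.2 = ι x)
    (y : G × B →₀ ℤ) (hy : y ∈ Finsupp.supported ℤ ℤ P) :
    ∃ v : X → MonoidAlgebra ℤ S, phi ι v = y := by
  rw [Finsupp.supported_eq_span_single] at hy
  induction hy using Submodule.span_induction with
  | mem z hz =>
    obtain ⟨⟨g, b⟩, hp, rfl⟩ := hz
    obtain ⟨hg, x, hx⟩ := hP _ hp
    refine ⟨Pi.single x (MonoidAlgebra.of ℤ S ⟨g, hg⟩), ?_⟩
    rw [phi_single, ch_of]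
    simp only at hx
    rw [hx]
  | zero => exact ⟨0, map_zero _⟩
  | add a b _ _ ha hb =>
    obtain ⟨u, rfl⟩ := ha
    obtain ⟨v, rfl⟩ := hb
    exact ⟨u + v, map_add _ _ _⟩
  | smul n a _ ha =>
    obtain ⟨u, rfl⟩ := ha
    exact ⟨n • u, map_zsmul _ _ _⟩

theorem ch_inj (b : B) : Function.Injective (ch (S := S) b) := by
  have h1 : Function.Injective (fun s : S => ((s : G), b)) := by
    intro s t h
    exact Subtype.ext (congrArg Prod.fst h)
  have h2 := Finsupp.mapDomain_injective (M := ℤ) h1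
  exact h2.comp MonoidAlgebra.coeff_injective

theorem ch_apply_ne (b b' : B) (h : b' ≠ b) (g : G) (r : MonoidAlgebra ℤ S) :
    ch b r (g, b') = 0 := by
  show Finsupp.mapDomain _ _ (g, b') = 0
  apply Finsupp.mapDomain_of_notMem_range
  rintro ⟨s, hs⟩
  exact h (congrArg Prod.snd hs).symm

theorem phi_inj (ι : X → B) (hι : Function.Injective ι) :
    Function.Injective (phi (S := S) ι) := by
  rw [injective_iff_map_eq_zero]
  intro v hv
  rw [phi_apply] at hv
  ext1 x
  apply ch_inj (ι x)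
  rw [Pi.zero_apply, map_zero]
  ext p
  obtain ⟨g, b⟩ := p
  by_cases hb : b = ι x
  · subst hb
    have h1 := DFunLike.congr_fun hv (g, ι x)
    rw [Finsupp.finsetSum_apply, Finset.sum_eq_single x] at h1
    · exact h1
    · intro y _ hy
      exact ch_apply_ne _ _ (fun h => hy (hι h).symm) _ _
    · intro h
      exact absurd (Finset.mem_univ x) h
  · rw [ch_apply_ne _ _ hb]
    rfl

end Chains

/-! ### Free resolutions -/

/-- a resolution by finitely generated free modules up to degree `m` -/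
def FR (R : Type) [Ring R] (M : Type) [AddCommGroup M] [Module R M] (m : ℕ) : Prop :=
  ∃ (n : ℕ → ℕ) (d : ∀ i, (Fin (n (i + 1)) → R) →ₗ[R] (Fin (n i) → R))
    (ε : (Fin (n 0) → R) →ₗ[R] M), Function.Surjective ε ∧ (∀ x, ε (d 0 x) = 0) ∧
    (∀ i x, d i (d (i + 1) x) = 0) ∧ (0 < m → ∀ y, ε y = 0 → ∃ x, d 0 x = y) ∧
    (∀ i, i + 1 < m → ∀ y, d i y = 0 → ∃ x, d (i + 1) x = y)

theorem isFP_equiv {R : Type} [Ring R] {M M' : Type} [AddCommGroup M] [Module R M]
    [AddCommGroup M'] [Module R M'] (e : M ≃ₗ[R] M') (m : ℕ) (h : IsFP R M m) :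
    IsFP R M' m := by
  obtain ⟨P, d, ε, hproj, hfin, hsurj, hex0, hex⟩ := h
  refine ⟨P, d, e.toLinearMap ∘ₗ ε, hproj, hfin, e.surjective.comp hsurj, ?_, hex⟩
  intro y
  rw [← hex0 y]
  show e (ε y) = 0 ↔ _
  exact e.map_eq_zero_iff

theorem isFP_prod {R : Type} [Ring R] {M F : Type} [AddCommGroup M] [Module R M]
    [AddCommGroup F] [Module R F] (hF : Module.Projective R F) (hF' : Module.Finite R F)
    (m : ℕ) (h : IsFP R M m) : IsFP R (M × F) m := by
  obtain ⟨P, d, ε, hproj, hfin, hsurj, hex0, hex⟩ := h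
  haveI := hproj 0
  haveI := hfin 0 (Nat.zero_le _)
  refine ⟨fun i => Nat.casesOn i (ModuleCat.of R (P 0 × F)) (fun i => P (i + 1)),
    fun i => match i with
      | 0 => (LinearMap.inl R (P 0) F).comp (d 0)
      | i + 1 => d (i + 1),
    LinearMap.prodMap ε LinearMap.id, ?_, ?_, ?_, ?_, ?_⟩
  · rintro (_ | i)
    · show Module.Projective R (P 0 × F)
      infer_instance
    · exact hproj (i + 1)
  · rintro (_ | i) hi
    · show Module.Finite R (P 0 × F)
      infer_instance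
    · exact hfin (i + 1) hi
  · rintro ⟨y, z⟩
    obtain ⟨x, hx⟩ := hsurj y
    exact ⟨(x, z), Prod.ext hx rfl⟩
  · rintro ⟨y, z⟩
    constructor
    · intro hy
      have h1 : ε y = 0 := congrArg Prod.fst hy
      have h2 : z = 0 := congrArg Prod.snd hy
      obtain ⟨x, hx⟩ := (hex0 y).1 h1
      exact ⟨x, Prod.ext hx h2.symm⟩
    · rintro ⟨x, hx⟩
      have h1 : d 0 x = y := congrArg Prod.fst hx
      have h2 : 0 = z := congrArg Prod.snd hx
      exact Prod.ext ((hex0 y).2 ⟨x, h1⟩) h2.symm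
  · rintro (_ | i)
    · intro y
      constructor
      · intro hy
        have h1 : d 0 y = 0 := congrArg Prod.fst hy
        exact (hex 0 y).1 h1
      · rintro ⟨x, hx⟩
        have h1 : d 0 y = 0 := (hex 0 y).2 ⟨x, hx⟩
        exact Prod.ext h1 rfl
    · exact hex (i + 1)

theorem isFP_ker {R : Type} [Ring R] {M F : Type} [AddCommGroup M] [Module R M]
    [AddCommGroup F] [Module R F] (f : F →ₗ[R] M) (n : ℕ) (f0 : (Fin n → R) →ₗ[R] F)
    (g : F →ₗ[R] (Fin n → R)) (hfg : ∀ x, f0 (g x) = x) (m : ℕ)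
    (h : IsFP R (LinearMap.ker f) m) : IsFP R (LinearMap.ker (f ∘ₗ f0)) m := by
  let r : (Fin n → R) →ₗ[R] LinearMap.ker f0 :=
    (LinearMap.id - g ∘ₗ f0).codRestrict (LinearMap.ker f0) (fun v => by
      rw [LinearMap.mem_ker, LinearMap.sub_apply, map_sub, LinearMap.comp_apply, hfg,
        LinearMap.id_apply, sub_self])
  have hr : ∀ v : LinearMap.ker f0, r v = v := by
    intro v
    apply Subtype.ext
    show (v : Fin n → R) - g (f0 v) = v
    rw [LinearMap.mem_ker.1 v.2, map_zero, sub_zero]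
  haveI hP : Module.Projective R (LinearMap.ker f0) :=
    Module.Projective.of_split (LinearMap.ker f0).subtype r (LinearMap.ext hr)
  haveI hFin : Module.Finite R (LinearMap.ker f0) :=
    Module.Finite.of_surjective r (fun v => ⟨v, hr v⟩)
  have h1 := isFP_prod hP hFin m h
  refine isFP_equiv ?_ m h1
  refine LinearEquiv.ofBijective
    ((((g ∘ₗ (LinearMap.ker f).subtype).coprod (LinearMap.ker f0).subtype)).codRestrict
      (LinearMap.ker (f ∘ₗ f0)) ?_) ⟨?_, ?_⟩
  · rintro ⟨u, w⟩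
    rw [LinearMap.mem_ker, LinearMap.coprod_apply, LinearMap.comp_apply, map_add]
    show f (f0 (g u) + f0 w) = 0
    rw [hfg, LinearMap.mem_ker.1 w.2, add_zero]
    exact LinearMap.mem_ker.1 u.2
  · rw [injective_iff_map_eq_zero]
    rintro ⟨u, w⟩ huw
    have h2 : g (u : F) + (w : Fin n → R) = 0 := congrArg Subtype.val huw
    have h3 : f0 (g (u : F)) + f0 (w : Fin n → R) = 0 := by rw [← map_add, h2, map_zero]
    rw [hfg, LinearMap.mem_ker.1 w.2, add_zero] at h3
    have h4 : (w : Fin n → R) = 0 := by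
      rw [h3, map_zero, zero_add] at h2
      exact h2
    exact Prod.ext (Subtype.ext h3) (Subtype.ext h4)
  · rintro ⟨v, hv⟩
    refine ⟨(⟨f0 v, LinearMap.mem_ker.2 (LinearMap.mem_ker.1 hv)⟩, r v), ?_⟩
    apply Subtype.ext
    show g (f0 v) + (v - g (f0 v)) = v
    abel

theorem fr_of_isFP {R : Type} [Ring R] (m : ℕ) : ∀ (M : Type) [AddCommGroup M] [Module R M],
    IsFP R M m → FR R M m := by
  induction m with
  | zero =>
    intro M _ _ h
    haveI := (I_Unsh R M 0).1 h
    obtain ⟨n, f, hf⟩ := Module.Finite.exists_fin' R M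
    refine ⟨fun i => Nat.casesOn i n (fun _ => 0), fun i => 0, f, hf, fun x => ?_,
      fun i x => rfl, fun h0 => absurd h0 (lt_irrefl _), fun i hi => ?_⟩
    · rw [LinearMap.zero_apply, map_zero]
    · omega
  | succ m ih =>
    intro M _ _ h
    obtain ⟨F, f, hproj, hfin, hsurj, hker⟩ := (I_Unsh R M m).2 h
    obtain ⟨n, f0, g, hf0, hg, hfg⟩ := Module.Finite.exists_comp_eq_id_of_projective R F
    have hfg' : ∀ x, f0 (g x) = x := fun x => LinearMap.congr_fun hfg x
    obtain ⟨n', d', ε', hs', h0', hd', he0', he'⟩ := ih _ (isFP_ker f n f0 g hfg' m hker)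
    refine ⟨fun i => Nat.casesOn i n n', fun i => match i with
      | 0 => (LinearMap.ker (f ∘ₗ f0)).subtype ∘ₗ ε'
      | i + 1 => d' i, f ∘ₗ f0, hsurj.comp hf0, ?_, ?_, ?_, ?_⟩
    · intro x
      exact (ε' x).2
    · rintro (_ | i) x
      · show ((ε' (d' 0 x) : LinearMap.ker (f ∘ₗ f0)) : Fin n → R) = 0
        rw [h0']
        rfl
      · exact hd' i x
    · intro _ y hy
      obtain ⟨x, hx⟩ := hs' ⟨y, LinearMap.mem_ker.2 hy⟩
      exact ⟨x, congrArg Subtype.val hx⟩
    · rintro (_ | i) hi y hy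
      · exact he0' (by omega) y (Subtype.ext hy)
      · exact he' i (by omega) y hy

/-! ### The based complex -/

section Based

variable {G : Type} [Group G] {S : Submonoid G} {m : ℕ} {n : ℕ → ℕ}

/-- the basis -/
abbrev Bs (m : ℕ) (n : ℕ → ℕ) : Type := Σ i : Fin (m + 1), Fin (n i)

/-- the basis elements of degree `i` -/
def emb (i : ℕ) (hi : i < m + 1) : Fin (n i) → Bs m n := fun l => ⟨⟨i, hi⟩, l⟩

/-- the boundary -/
noncomputable def dbf
    (d : ∀ i, (Fin (n (i + 1)) → MonoidAlgebra ℤ S) →ₗ[MonoidAlgebra ℤ S]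
      (Fin (n i) → MonoidAlgebra ℤ S)) : Bs m n → (G × Bs m n →₀ ℤ)
  | ⟨⟨0, _⟩, _⟩ => 0
  | ⟨⟨i + 1, h⟩, l⟩ => phi (emb i (Nat.lt_of_succ_lt h)) (d i (Pi.single l 1))

/-- the augmentation -/
noncomputable def ebf
    (ε : (Fin (n 0) → MonoidAlgebra ℤ S) →ₗ[MonoidAlgebra ℤ S] Triv S) : Bs m n → ℤ
  | ⟨⟨0, _⟩, l⟩ => ε (Pi.single l 1)
  | ⟨⟨_ + 1, _⟩, _⟩ => 0

theorem emb_inj (i : ℕ) (hi : i < m + 1) : Function.Injective (emb (n := n) i hi) := by
  intro a b h
  unfold emb at h
  simpa using h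

theorem exists_emb (i : ℕ) (hi : i < m + 1) (b : Bs m n) (hb : (b.1 : ℕ) = i) :
    ∃ x, b = emb i hi x := by
  obtain ⟨⟨j, hj⟩, l⟩ := b
  simp only at hb
  subst hb
  exact ⟨l, rfl⟩

theorem dbf_zero (d : ∀ i, (Fin (n (i + 1)) → MonoidAlgebra ℤ S) →ₗ[MonoidAlgebra ℤ S]
      (Fin (n i) → MonoidAlgebra ℤ S)) (h : 0 < m + 1) (l : Fin (n 0)) :
    dbf (m := m) d (emb 0 h l) = 0 := rfl

theorem dbf_succ (d : ∀ i, (Fin (n (i + 1)) → MonoidAlgebra ℤ S) →ₗ[MonoidAlgebra ℤ S]
      (Fin (n i) → MonoidAlgebra ℤ S)) (i : ℕ) (h : i + 1 < m + 1) (l : Fin (n (i + 1))) :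
    dbf (m := m) d (emb (i + 1) h l) =
      phi (emb i (Nat.lt_of_succ_lt h)) (d i (Pi.single l 1)) := rfl

theorem ebf_zero (ε : (Fin (n 0) → MonoidAlgebra ℤ S) →ₗ[MonoidAlgebra ℤ S] Triv S)
    (h : 0 < m + 1) (l : Fin (n 0)) :
    ebf (m := m) ε (emb 0 h l) = ε (Pi.single l 1) := rfl

theorem ebf_succ (ε : (Fin (n 0) → MonoidAlgebra ℤ S) →ₗ[MonoidAlgebra ℤ S] Triv S)
    (i : ℕ) (h : i + 1 < m + 1) (l : Fin (n (i + 1))) :
    ebf (m := m) ε (emb (i + 1) h l) = 0 := rfl

theorem phi_emb_mem (i : ℕ) (h : i < m + 1) (v : Fin (n i) → MonoidAlgebra ℤ S) :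
    phi (emb (m := m) i h) v ∈ Finsupp.supported ℤ ℤ
      {p : G × Bs m n | p.1 ∈ (S : Set G) ∧ (p.2.1 : ℕ) = i} := by
  refine Finsupp.supported_mono ?_ (phi_mem (S := S) (emb i h) v)
  rintro ⟨g, b⟩ ⟨hg, x, hx⟩
  simp only at hx
  subst hx
  exact ⟨hg, rfl⟩

theorem emb_cases (b : Bs m n) :
    (∃ (h : 0 < m + 1) (l : Fin (n 0)), b = emb 0 h l) ∨
      ∃ (i : ℕ) (h : i + 1 < m + 1) (l : Fin (n (i + 1))), b = emb (i + 1) h l := by
  obtain ⟨⟨_ | i, hi⟩, l⟩ := b
  · exact Or.inl ⟨hi, l, rfl⟩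
  · exact Or.inr ⟨i, hi, l, rfl⟩

end Based

end RES

open RES in
theorem I_RES : StRES := by
  intro G _ S m h
  obtain ⟨n, d, ε, hs, h0, hd, he0, he⟩ := fr_of_isFP m _ h
  have hext : ∀ (i : ℕ) (hi : i + 1 < m + 1) (v : Fin (n (i + 1)) → MonoidAlgebra ℤ S),
      ext ℤ (dbf (m := m) d) (phi (emb (i + 1) hi) v) =
        phi (emb i (Nat.lt_of_succ_lt hi)) (d i v) :=
    fun i hi v => ext_phi (dbf (m := m) d) (emb (i + 1) hi) (emb i (Nat.lt_of_succ_lt hi)) (d i)
      (fun x => dbf_succ d i hi x) v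
  have hext0 : ∀ (h0 : 0 < m + 1) (v : Fin (n 0) → MonoidAlgebra ℤ S),
      ext ℤ (dbf (m := m) d) (phi (emb 0 h0) v) = 0 :=
    fun h0 v => ext_phi_zero (dbf (m := m) d) (emb 0 h0) (fun x => dbf_zero d h0 x) v
  have haug0 : ∀ (h0 : 0 < m + 1) (v : Fin (n 0) → MonoidAlgebra ℤ S),
      aug ℤ (ebf (m := m) ε) (phi (emb 0 h0) v) = ε v :=
    fun h0 v => aug_phi (ebf (m := m) ε) (emb 0 h0) ε (fun x => ebf_zero ε h0 x) v
  have haug : ∀ (i : ℕ) (hi : i + 1 < m + 1) (v : Fin (n (i + 1)) → MonoidAlgebra ℤ S),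
      aug ℤ (ebf (m := m) ε) (phi (emb (i + 1) hi) v) = 0 :=
    fun i hi v => aug_phi_zero (ebf (m := m) ε) (emb (i + 1) hi) (fun x => ebf_succ ε i hi x) v
  refine ⟨Bs m n, inferInstance, fun b => b.1, dbf d, ebf ε, ?_, ?_, ?_, ?_, ?_, ?_, ?_⟩
  · intro b
    exact Nat.lt_succ_iff.1 b.1.2
  · intro b
    rcases emb_cases b with ⟨hi, l, rfl⟩ | ⟨i, hi, l, rfl⟩
    · rw [dbf_zero]
      exact Submodule.zero_mem _
    · rw [dbf_succ]
      refine Finsupp.supported_mono ?_ (phi_emb_mem (S := S) i (Nat.lt_of_succ_lt hi)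
        (d i (Pi.single l 1)))
      rintro ⟨g, b⟩ ⟨hg, hb⟩
      exact ⟨hg, congrArg (· + 1) hb⟩
  · intro b hb
    rcases emb_cases b with ⟨hi, l, rfl⟩ | ⟨i, hi, l, rfl⟩
    · exact absurd rfl hb
    · rw [ebf_succ]
  · intro b
    rcases emb_cases b with ⟨hi, l, rfl⟩ | ⟨i, hi, l, rfl⟩
    · rw [dbf_zero, map_zero]
    · rw [dbf_succ]
      rcases i with _ | i
      · rw [hext0]
      · rw [hext, hd, map_zero]
  · intro b
    rcases emb_cases b with ⟨hi, l, rfl⟩ | ⟨i, hi, l, rfl⟩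
    · rw [dbf_zero, map_zero]
    · rw [dbf_succ]
      rcases i with _ | i
      · rw [haug0, h0]
        rfl
      · rw [haug]
  · obtain ⟨v, hv⟩ := hs (1 : ℤ)
    refine ⟨phi (emb 0 (Nat.succ_pos m)) v, phi_emb_mem 0 (Nat.succ_pos m) v, ?_⟩
    rw [haug0]
    exact hv
  · intro e he' x hx hdx hax
    have hlt : e < m + 1 := Nat.lt_succ_of_lt he'
    obtain ⟨v, rfl⟩ := exists_phi (S := S) (emb e hlt)
      {p : G × Bs m n | p.1 ∈ (S : Set G) ∧ (p.2.1 : ℕ) = e}
      (fun p hp => ⟨hp.1, exists_emb e hlt p.2 hp.2⟩) x hx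
    have hker : ∃ w, d e w = v := by
      rcases e with _ | e
      · rw [haug0] at hax
        exact he0 he' v hax
      · rw [hext] at hdx
        exact he e he' v (phi_inj (emb e _) (emb_inj e _) (by rw [hdx, map_zero]))
    obtain ⟨w, rfl⟩ := hker
    exact ⟨_, phi_emb_mem (e + 1) (Nat.succ_lt_succ he') w, hext e _ w⟩

end Pool.Agent.Work.MP_e9e200_al.LC

end

section

/-!
# Item TWA: the twisted complex over the abelianization
-/

set_option autoImplicit false

namespace Pool.Agent.Work.MP_e9e200_al.LC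

open Finsupp

namespace TWA

section

variable {k : Type} [CommRing k] {H B B' : Type} [Group H]

theorem tr_single (h g : H) (b : B) (c : k) :
    tr k h (single (g, b) c) = single (h * g, b) c := by
  rw [tr, Finsupp.lmapDomain_apply, Finsupp.mapDomain_single]

theorem tr_mul (h h' : H) (x : H × B →₀ k) : tr k (h * h') x = tr k h (tr k h' x) := by
  have e : tr k (h * h') = (tr k h) ∘ₗ (tr k (B := B) h') := by
    refine Finsupp.lhom_ext fun p c => ?_
    obtain ⟨g, b⟩ := p
    rw [LinearMap.comp_apply, tr_single, tr_single, tr_single, mul_assoc]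
  rw [e, LinearMap.comp_apply]

theorem ext_single (u : B → (H × B' →₀ k)) (g : H) (b : B) (c : k) :
    ext k u (single (g, b) c) = c • tr k g (u b) := by
  rw [ext, Finsupp.linearCombination_single]

theorem ext_tr (u : B → (H × B' →₀ k)) (g : H) (x : H × B →₀ k) :
    ext k u (tr k g x) = tr k g (ext k u x) := by
  have e : (ext k u) ∘ₗ (tr k g) = (tr k g) ∘ₗ (ext k u) := by
    refine Finsupp.lhom_ext fun p c => ?_
    obtain ⟨g', b⟩ := p
    rw [LinearMap.comp_apply, LinearMap.comp_apply, tr_single, ext_single, ext_single, tr_mul,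
      map_smul]
  exact LinearMap.congr_fun e x

end

section

variable {G B : Type} [Group G]

theorem hop_single (ha : G → B → (G × B →₀ ℂ)) (a g : G) (b : B) (c : ℂ) :
    hop ha a (single (g, b) c) = c • tr ℂ g (ha (g⁻¹ * a * g) b) := by
  rw [hop, Finsupp.linearCombination_single]

theorem hop_tr (ha : G → B → (G × B →₀ ℂ)) (a g : G) (x : G × B →₀ ℂ) :
    hop ha a (tr ℂ g x) = tr ℂ g (hop ha (g⁻¹ * a * g) x) := by
  have e : (hop ha a) ∘ₗ (tr ℂ g) = (tr ℂ g) ∘ₗ (hop ha (g⁻¹ * a * g)) := by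
    refine Finsupp.lhom_ext fun p c => ?_
    obtain ⟨g', b⟩ := p
    have h1 : (g * g')⁻¹ * a * (g * g') = g'⁻¹ * (g⁻¹ * a * g) * g' := by group
    rw [LinearMap.comp_apply, LinearMap.comp_apply, tr_single, hop_single, hop_single, tr_mul,
      map_smul, h1]
  exact LinearMap.congr_fun e x

theorem pis_single (σ : G → ℂ) (g : G) (b : B) (c : ℂ) :
    pis σ (single (g, b) c) = c • single (Abelianization.of g, b) (σ g) := by
  rw [pis, Finsupp.linearCombination_single]

theorem of_mul_left {a : G} (ha : a ∈ commutator G) (g : G) :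
    Abelianization.of (a * g) = Abelianization.of g := by
  rw [map_mul]
  have h : Abelianization.of a = 1 := by
    rw [← MonoidHom.mem_ker, Abelianization.ker_of]
    exact ha
  rw [h, one_mul]

theorem pis_tr {φ σ : G → ℂ} (hσ : ∀ a ∈ commutator G, ∀ x, σ (a * x) = φ a * σ x)
    {a : G} (ha : a ∈ commutator G) (x : G × B →₀ ℂ) :
    pis σ (tr ℂ a x) = φ a • pis σ x := by
  have e : (pis σ) ∘ₗ (tr ℂ a) = φ a • (pis (B := B) σ) := by
    refine Finsupp.lhom_ext fun p c => ?_
    obtain ⟨g, b⟩ := p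
    rw [LinearMap.comp_apply, LinearMap.smul_apply, tr_single, pis_single, pis_single,
      of_mul_left ha, hσ a ha, Finsupp.smul_single, Finsupp.smul_single, Finsupp.smul_single]
    congr 1
    simp only [smul_eq_mul]
    ring
  exact LinearMap.congr_fun e x

theorem of_surj : Function.Surjective (Abelianization.of : G →* Abelianization G) := by
  intro x
  obtain ⟨g, hg⟩ := QuotientGroup.mk_surjective x
  exact ⟨g, hg⟩

/-- a section -/
noncomputable def sec (q : Abelianization G) : G := (of_surj q).choose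

theorem of_sec (q : Abelianization G) : Abelianization.of (sec q) = q := (of_surj q).choose_spec

theorem sec_of (g : G) : ∃ a ∈ commutator G, sec (Abelianization.of g) = a * g := by
  refine ⟨sec (Abelianization.of g) * g⁻¹, ?_, by group⟩
  rw [← Abelianization.ker_of, MonoidHom.mem_ker, map_mul, of_sec, map_inv, mul_inv_cancel]

end

end TWA

open TWA in
theorem I_TWA : StTWA := by
  intro G _ hG S m B _ deg db eb ha hres hha φ σ hσ0 hσ
  have hφ0 : ∀ a ∈ commutator G, φ a ≠ 0 := by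
    intro a haA h0
    have h1 := hσ a haA 1
    rw [h0, zero_mul] at h1
    exact hσ0 _ h1
  -- well-definedness
  have hE : ∀ a ∈ commutator G, ∀ (g : G) (y : G × B →₀ ℂ),
      (σ (a * g))⁻¹ • pis σ (tr ℂ (a * g) y) = (σ g)⁻¹ • pis σ (tr ℂ g y) := by
    intro a haA g y
    rw [tr_mul, pis_tr hσ haA, smul_smul, hσ a haA]
    congr 1
    have h1 := hφ0 a haA
    have h2 := hσ0 g
    field_simp
  have hH : ∀ a ∈ commutator G, ∀ a' ∈ commutator G, ∀ g : G,
      (a' * g)⁻¹ * a * (a' * g) = g⁻¹ * a * g := by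
    intro a haA a' haA' g
    have h1 : a * a' = a' * a := hG a haA a' haA'
    calc (a' * g)⁻¹ * a * (a' * g) = g⁻¹ * a'⁻¹ * (a * a') * g := by group
      _ = g⁻¹ * a'⁻¹ * (a' * a) * g := by rw [h1]
      _ = g⁻¹ * a * g := by group
  set D' : (Abelianization G × B →₀ ℂ) →ₗ[ℂ] (Abelianization G × B →₀ ℂ) :=
    Finsupp.linearCombination ℂ
      (fun p => (σ (sec p.1))⁻¹ • pis σ (tr ℂ (sec p.1) (db p.2))) with hD'
  set h' : G → (Abelianization G × B →₀ ℂ) →ₗ[ℂ] (Abelianization G × B →₀ ℂ) := fun a =>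
    Finsupp.linearCombination ℂ
      (fun p => (σ (sec p.1))⁻¹ •
        pis σ (tr ℂ (sec p.1) (ha ((sec p.1)⁻¹ * a * sec p.1) p.2))) with hh'
  have hD1 : ∀ g b, D' (single (Abelianization.of g, b) 1) =
      (σ g)⁻¹ • pis σ (tr ℂ g (db b)) := by
    intro g b
    rw [hD', Finsupp.linearCombination_single, one_smul]
    obtain ⟨a, haA, h1⟩ := sec_of g
    simp only [h1]
    exact hE a haA g _
  have hh1 : ∀ a ∈ commutator G, ∀ g b, h' a (single (Abelianization.of g, b) 1) =
      (σ g)⁻¹ • pis σ (tr ℂ g (ha (g⁻¹ * a * g) b)) := by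
    intro a haA g b
    simp only [hh']
    rw [Finsupp.linearCombination_single, one_smul]
    obtain ⟨a', haA', h1⟩ := sec_of g
    simp only [h1]
    rw [hH a haA a' haA' g]
    exact hE a' haA' g _
  have hpis1 : ∀ (g : G) (b : B), pis σ (single (g, b) 1) =
      σ g • single (Abelianization.of g, b) (1 : ℂ) := by
    intro g b
    rw [pis_single, one_smul, Finsupp.smul_single, smul_eq_mul, mul_one]
  -- intertwining
  have hDp : ∀ x : G × B →₀ ℂ, D' (pis σ x) = pis σ (ext ℂ db x) := by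
    have e : D' ∘ₗ (pis σ) = (pis σ) ∘ₗ (ext ℂ db) := by
      refine Finsupp.lhom_ext' fun p => LinearMap.ext_ring ?_
      obtain ⟨g, b⟩ := p
      simp only [LinearMap.comp_apply, Finsupp.lsingle_apply]
      rw [hpis1, map_smul, hD1, smul_smul, mul_inv_cancel₀ (hσ0 g), one_smul, ext_single,
        one_smul]
    exact fun x => LinearMap.congr_fun e x
  have hhp : ∀ a ∈ commutator G, ∀ x : G × B →₀ ℂ, h' a (pis σ x) = pis σ (hop ha a x) := by
    intro a haA
    have e : (h' a) ∘ₗ (pis σ) = (pis σ) ∘ₗ (hop ha a) := by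
      refine Finsupp.lhom_ext' fun p => LinearMap.ext_ring ?_
      obtain ⟨g, b⟩ := p
      simp only [LinearMap.comp_apply, Finsupp.lsingle_apply]
      rw [hpis1, map_smul, hh1 a haA, smul_smul, mul_inv_cancel₀ (hσ0 g), one_smul, hop_single,
        one_smul]
    exact fun x => LinearMap.congr_fun e x
  have hsingle : ∀ (g : G) (b : B), single (Abelianization.of g, b) (1 : ℂ) =
      (σ g)⁻¹ • pis σ (single (g, b) 1) := by
    intro g b
    rw [hpis1, smul_smul, inv_mul_cancel₀ (hσ0 g), one_smul]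
  have hdd : ∀ x : G × B →₀ ℂ, ext ℂ db (ext ℂ db x) = 0 := by
    have e : (ext ℂ db) ∘ₗ (ext ℂ db) = 0 := by
      refine Finsupp.lhom_ext' fun p => LinearMap.ext_ring ?_
      obtain ⟨g, b⟩ := p
      simp only [LinearMap.comp_apply, Finsupp.lsingle_apply, LinearMap.zero_apply]
      rw [ext_single, one_smul, ext_tr, hres.dd, map_zero]
    exact fun x => LinearMap.congr_fun e x
  refine ⟨D', h', ?_, hD1, hh1, ?_⟩
  · intro x
    have e : D' ∘ₗ D' = 0 := by
      refine Finsupp.lhom_ext' fun p => LinearMap.ext_ring ?_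
      obtain ⟨q, b⟩ := p
      obtain ⟨g, rfl⟩ := of_surj q
      simp only [LinearMap.comp_apply, Finsupp.lsingle_apply, LinearMap.zero_apply]
      rw [hsingle, map_smul, hDp, map_smul, hDp, hdd, map_zero, smul_zero]
    exact LinearMap.congr_fun e x
  · intro a haA x hx
    rw [Finsupp.supported_eq_span_single] at hx
    induction hx using Submodule.span_induction with
    | zero => simp
    | add x y _ _ hx hy =>
      rw [map_add, map_add, map_add, map_add, smul_add, ← hx, ← hy]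
      abel
    | smul c x _ hx =>
      rw [map_smul, map_smul, map_smul, map_smul, ← smul_add, hx, smul_comm]
    | mem x hx =>
      obtain ⟨⟨q, b⟩, hb, rfl⟩ := hx
      obtain ⟨g, rfl⟩ := of_surj q
      have hb' : deg b < m := hb
      have ha' : g⁻¹ * a * g ∈ commutator G := by
        have h1 := (inferInstance : (commutator G).Normal).conj_mem a haA g⁻¹
        rwa [inv_inv] at h1
      have key : ext ℂ db (hop ha a (single (g, b) 1)) + hop ha a (ext ℂ db (single (g, b) 1)) =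
          single (g, b) 1 - single (a * g, b) 1 := by
        rw [hop_single, ext_single, one_smul, one_smul, ext_tr, hop_tr, ← map_add,
          hha.eq _ ha' b hb', map_sub, tr_single, tr_single, mul_one]
        congr 3
        group
      show D' (h' a (single (Abelianization.of g, b) 1)) +
        h' a (D' (single (Abelianization.of g, b) 1)) =
          (1 - φ a) • single (Abelianization.of g, b) (1 : ℂ)
      rw [hsingle, map_smul, hhp a haA, map_smul, hDp, map_smul, hDp, map_smul, hhp a haA,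
        ← smul_add, ← map_add, key, map_sub, hpis1, hpis1, of_mul_left haA, hσ a haA,
        ← sub_smul, smul_smul, smul_smul, smul_smul]
      congr 1
      have h2 := hσ0 g
      field_simp

end Pool.Agent.Work.MP_e9e200_al.LC

end

section

/-!
# The contradiction with twisted differentials (MP_e9e200_al, LC, TWI)
-/

set_option autoImplicit false

namespace Pool.Agent.Work.MP_e9e200_al.LC

open Finsupp

namespace TWI

theorem map_mem {X M : Type} [AddCommGroup M] [Module ℂ M] {A : Set X} (N : Submodule ℂ M)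
    (f : (X →₀ ℂ) →ₗ[ℂ] M) (h : ∀ x ∈ A, f (single x 1) ∈ N) {z : X →₀ ℂ}
    (hz : z ∈ Finsupp.supported ℂ ℂ A) : f z ∈ N := by
  rw [Finsupp.supported_eq_span_single] at hz
  have h1 : Submodule.span ℂ ((fun i => single i (1 : ℂ)) '' A) ≤ N.comap f := by
    rw [Submodule.span_le]
    rintro _ ⟨x, hx, rfl⟩
    exact h x hx
  exact h1 hz

theorem map_zero' {X M : Type} [AddCommGroup M] [Module ℂ M] {A : Set X}
    (f : (X →₀ ℂ) →ₗ[ℂ] M) (h : ∀ x ∈ A, f (single x 1) = 0) {z : X →₀ ℂ}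
    (hz : z ∈ Finsupp.supported ℂ ℂ A) : f z = 0 := by
  have := map_mem ⊥ f (fun x hx => by rw [Submodule.mem_bot]; exact h x hx) hz
  rwa [Submodule.mem_bot] at this

theorem filter_mem {X : Type} {A B : Set X} {p : X → Prop} [DecidablePred p] {z : X →₀ ℂ}
    (hz : z ∈ Finsupp.supported ℂ ℂ A) (h : ∀ x ∈ A, p x → x ∈ B) :
    z.filter p ∈ Finsupp.supported ℂ ℂ B := by
  rw [Finsupp.mem_supported'] at hz ⊢
  intro x hx
  by_cases hp : p x
  · rw [Finsupp.filter_apply_pos _ _ hp]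
    exact hz x fun hA => hx (h x hA hp)
  · exact Finsupp.filter_apply_neg _ _ hp

theorem mem_inter {X : Type} {A B : Set X} {z : X →₀ ℂ} (h1 : z ∈ Finsupp.supported ℂ ℂ A)
    (h2 : z ∈ Finsupp.supported ℂ ℂ B) : z ∈ Finsupp.supported ℂ ℂ (A ∩ B) :=
  (Finsupp.mem_supported ℂ z).2 (Set.subset_inter ((Finsupp.mem_supported ℂ z).1 h1)
    ((Finsupp.mem_supported ℂ z).1 h2))

end TWI

open TWI in
theorem I_TWI : StTWI := by
  classical
  intro ι _ L K0 hgood J e hT r K1 s1 Ω h1 h2 h3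
  obtain ⟨hK0, -, hD⟩ := hgood
  obtain ⟨A, hA, hT⟩ := hT
  obtain ⟨K'', hK'', hT⟩ := hT (A + K0 + |K1|) (by positivity)
  obtain ⟨s, hs, D', κ, hDD, hD'1, hD'2, hex, hκ1, hκ2⟩ :=
    hT (min (s1 - A) (r - (A + K0 + |K1|) - K'' - 2 * A - |K1| - 1))
  have hs1 : s ≤ s1 - A := hs.trans (min_le_left _ _)
  have hs2 : s ≤ r - (A + K0 + |K1|) - K'' - 2 * A - |K1| - 1 := hs.trans (min_le_right _ _)
  have hK1 : K1 ≤ |K1| := le_abs_self _
  have hK1' : 0 ≤ |K1| := abs_nonneg _
  obtain ⟨z, hz, hDz, hΩ⟩ := h3 (s + A) (by omega)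
  set p : L.X → Prop := fun x => ∀ j ∈ J, s + A ≤ L.ht j x with hp
  set z1 := z.filter p with hz1
  set z2 := z.filter (fun x => ¬ p x) with hz2
  have hzz : z1 + z2 = z := Finsupp.filter_add_filter_not z p
  have hz1m : z1 ∈ Finsupp.supported ℂ ℂ {x | x ∈ L.R ∧ L.deg x = e ∧ p x} :=
    filter_mem hz fun x hx hpx => ⟨hx.1, hx.2.1, hpx⟩
  have hz2m : z2 ∈ Finsupp.supported ℂ ℂ {x | x ∈ L.R ∧ L.deg x = e ∧ ¬ p x} :=
    filter_mem hz fun x hx hpx => ⟨hx.1, hx.2.1, hpx⟩
  -- the boundary of the upper part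
  have hDD' : L.D z1 = D' z1 := by
    have h4 : (L.D - D') z1 = 0 := by
      refine map_zero' (L.D - D') ?_ hz1m
      intro x hx
      rw [LinearMap.sub_apply, hD'2 x hx.1 hx.2.2, sub_self]
    rw [LinearMap.sub_apply, sub_eq_zero] at h4
    exact h4
  set c := D' z1 with hc
  have hc0 : D' c = 0 := hDD z1
  have hcA : c ∈ Finsupp.supported ℂ ℂ {y | y ∈ L.R ∧ L.deg y + 1 = e ∧
      ∀ j ∈ J, s - (A + K0 + |K1|) ≤ L.ht j y} := by
    rw [← hDD']
    refine map_mem _ L.D ?_ hz1m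
    intro x hx
    refine Finsupp.supported_mono ?_ (hD x hx.1)
    rintro y ⟨hy1, hy2, hy3⟩
    refine ⟨hy1, by rw [hy2]; exact hx.2.1, fun j hj => ?_⟩
    have h5 := hx.2.2 j hj
    have h6 := abs_le.1 (hy3 j)
    omega
  have hcB : c ∈ Finsupp.supported ℂ ℂ {y | ∃ j ∈ J, L.ht j y ≤ s + (A + K0 + |K1|)} := by
    have h4 : c = L.D z - L.D z2 := by
      rw [← hDD', ← hzz, map_add]
      abel
    rw [h4]
    refine Submodule.sub_mem _ ?_ ?_
    · refine Finsupp.supported_mono ?_ hDz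
      rintro y ⟨_, j, hj, hy⟩
      exact ⟨j, hj, by omega⟩
    · refine map_mem _ L.D ?_ hz2m
      intro x hx
      have h5 := hx.2.2
      simp only [hp] at h5
      push Not at h5
      obtain ⟨j, hj, h5⟩ := h5
      refine Finsupp.supported_mono ?_ (hD x hx.1)
      rintro y ⟨_, _, hy3⟩
      have h6 := abs_le.1 (hy3 j)
      exact ⟨j, hj, by omega⟩
  have hcm := mem_inter hcA hcB
  have hκc : D' (κ c) = c := by
    have h4 : (D' ∘ₗ κ + κ ∘ₗ D' - LinearMap.id : (L.X →₀ ℂ) →ₗ[ℂ] (L.X →₀ ℂ)) c = 0 := by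
      refine map_zero' _ ?_ hcm
      rintro x ⟨⟨hx1, hx2, hx3⟩, hx4⟩
      show D' (κ (single x 1)) + κ (D' (single x 1)) - single x 1 = 0
      rw [hκ2 x hx1 hx2.le hx3 hx4, sub_self]
    have h5 : D' (κ c) + κ (D' c) - c = 0 := h4
    rw [hc0, map_zero, add_zero, sub_eq_zero] at h5
    exact h5
  have hκm : κ c ∈ L.S e (fun x => ∃ j' ∈ J, L.ht j' x < r) := by
    refine map_mem (L.S e (fun x => ∃ j' ∈ J, L.ht j' x < r)) κ ?_ hcm
    rintro x ⟨⟨hx1, hx2, hx3⟩, j, hj, hx4⟩
    refine Finsupp.supported_mono ?_ (hκ1 x hx1)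
    rintro y ⟨hy1, hy2, hy3⟩
    have h6 := abs_le.1 (hy3 j)
    show _ ∧ _ ∧ _
    exact ⟨hy1, by rw [hy2]; exact hx2, j, hj, by omega⟩
  have hκS : κ c ∈ L.S e (fun _ => True) := by
    refine Finsupp.supported_mono ?_ hκm
    intro y hy
    exact ⟨hy.1, hy.2.1, trivial⟩
  have hz1S : z1 ∈ L.S e (fun _ => True) := by
    refine Finsupp.supported_mono ?_ hz1m
    intro y hy
    exact ⟨hy.1, hy.2.1, trivial⟩
  obtain ⟨w, hw, hwe⟩ := hex (z1 - κ c) (Submodule.sub_mem _ hz1S hκS) (by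
    rw [map_sub, hκc, sub_self])
  have hΩw : Ω (D' w) = 0 := by
    refine map_zero' (Ω ∘ₗ D') ?_ hw
    rintro x ⟨hx1, hx2, -⟩
    show Ω (D' (single x 1)) = 0
    by_cases hpx : p x
    · rw [hD'2 x hx1 hpx]
      exact h1 _ (Finsupp.single_mem_supported ℂ 1 (show x ∈ _ from ⟨hx1, hx2, trivial⟩))
    · simp only [hp] at hpx
      push Not at hpx
      obtain ⟨j, hj, hpx⟩ := hpx
      refine h2 _ (Finsupp.supported_mono ?_ (hD'1 x hx1))
      rintro y ⟨hy1, hy2, hy3⟩
      have h6 := abs_le.1 (hy3 j)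
      exact ⟨hy1, by omega, j, hj, by omega⟩
  have hΩκ : Ω (κ c) = 0 := h2 _ hκm
  have hΩ2 : Ω z2 = 0 := by
    refine h2 _ (Finsupp.supported_mono ?_ hz2m)
    rintro x ⟨hx1, hx2, hx3⟩
    simp only [hp] at hx3
    push Not at hx3
    obtain ⟨j, hj, hx3⟩ := hx3
    exact ⟨hx1, hx2, j, hj, by omega⟩
  rw [hwe, map_sub, hΩκ, sub_zero] at hΩw
  rw [← hzz, map_add, hΩw, hΩ2, add_zero] at hΩ
  exact zero_ne_one hΩ

end Pool.Agent.Work.MP_e9e200_al.LC

end
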