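import Pool.Agent.Work.MP_e9e200_al.Bd.B02
import Pool.Agent.Work.MP_e9e200_al.Bd.B05

/-! Bundle of small proof modules (one section per former module). -/

section

/-!
# Project LC, AD: adding cells to a partial resolution
-/

set_option autoImplicit false

namespace Pool.Agent.Work.MP_e9e200_al.LC

open Finsupp

namespace AD

/-- the map of cells -/
noncomputable def im {G B B' : Type} (f : B → B') : (G × B →₀ ℂ) →ₗ[ℂ] (G × B' →₀ ℂ) :=
  Finsupp.lmapDomain ℂ ℂ (fun p => (p.1, f p.2))

theorem im_single {G B B' : Type} (f : B → B') (g : G) (b : B) (c : ℂ) :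
    im f (single (g, b) c) = single (g, f b) c := by
  simp [im, Finsupp.mapDomain_single]

theorem tr_single {G B : Type} [Group G] (h g : G) (b : B) (c : ℂ) :
    tr ℂ h (single (g, b) c) = single (h * g, b) c := by
  simp [tr, Finsupp.mapDomain_single]

theorem ext_single {G B B' : Type} [Group G] (u : B → (G × B' →₀ ℂ)) (g : G) (b : B) (c : ℂ) :
    ext ℂ u (single (g, b) c) = c • tr ℂ g (u b) := by
  simp [ext, Finsupp.linearCombination_single]

theorem aug_single {G B : Type} (e : B → ℂ) (g : G) (b : B) (c : ℂ) :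
    aug ℂ e (single (g, b) c) = c * e b := by
  simp [aug, Finsupp.linearCombination_single]

theorem tr_im {G B B' : Type} [Group G] (f : B → B') (g : G) (x : G × B →₀ ℂ) :
    tr ℂ g (im f x) = im f (tr ℂ g x) := by
  have h : (tr ℂ g) ∘ₗ (im f) = (im f) ∘ₗ (tr ℂ g : (G × B →₀ ℂ) →ₗ[ℂ] (G × B →₀ ℂ)) := by
    apply Finsupp.lhom_ext
    rintro ⟨h, b⟩ c
    simp only [LinearMap.comp_apply, im_single, tr_single]
  exact LinearMap.congr_fun h x

theorem ext_im {G B B' C C' : Type} [Group G] (f : B → B') (k : C → C')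
    (u : B → (G × C →₀ ℂ)) (u' : B' → (G × C' →₀ ℂ)) (h : ∀ b, u' (f b) = im k (u b))
    (x : G × B →₀ ℂ) : ext ℂ u' (im f x) = im k (ext ℂ u x) := by
  have h : (ext ℂ u') ∘ₗ (im f) = (im k) ∘ₗ (ext ℂ u) := by
    apply Finsupp.lhom_ext
    rintro ⟨g, b⟩ c
    simp only [LinearMap.comp_apply, im_single, ext_single, h, map_smul, tr_im]
  exact LinearMap.congr_fun h x

theorem aug_im {G B B' : Type} (f : B → B') (e : B → ℂ) (e' : B' → ℂ)
    (h : ∀ b, e' (f b) = e b) (x : G × B →₀ ℂ) : aug ℂ e' (im f x) = aug ℂ e x := by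
  have h : (aug ℂ e') ∘ₗ (im f : (G × B →₀ ℂ) →ₗ[ℂ] (G × B' →₀ ℂ)) = (aug ℂ e) := by
    apply Finsupp.lhom_ext
    rintro ⟨g, b⟩ c
    simp only [LinearMap.comp_apply, im_single, aug_single, h]
  exact LinearMap.congr_fun h x

theorem im_mem {G B B' : Type} (f : B → B') (s : Set (G × B)) (t : Set (G × B'))
    (h : ∀ p ∈ s, (p.1, f p.2) ∈ t) (x : G × B →₀ ℂ) (hx : x ∈ Finsupp.supported ℂ ℂ s) :
    im f x ∈ Finsupp.supported ℂ ℂ t := by
  have h1 : im f x ∈ (Finsupp.supported ℂ ℂ s).map (im f) := Submodule.mem_map_of_mem hx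
  rw [im, Finsupp.lmapDomain_supported] at h1
  refine Finsupp.supported_mono ?_ h1
  rintro _ ⟨p, hp, rfl⟩
  exact h p hp

theorem mem_im {G B B' : Type} (f : B → B') (s : Set (G × B)) (t : Set (G × B'))
    (h : ∀ q ∈ t, ∃ p ∈ s, (p.1, f p.2) = q) (x : G × B' →₀ ℂ)
    (hx : x ∈ Finsupp.supported ℂ ℂ t) :
    ∃ y ∈ Finsupp.supported ℂ ℂ s, im f y = x := by
  have h1 : x ∈ Finsupp.supported ℂ ℂ ((fun p : G × B => (p.1, f p.2)) '' s) := by
    refine Finsupp.supported_mono ?_ hx
    intro q hq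
    obtain ⟨p, hp, hpq⟩ := h q hq
    exact ⟨p, hp, hpq⟩
  rw [← Finsupp.lmapDomain_supported] at h1
  exact h1

theorem im_inj {G B B' : Type} (f : B → B') (hf : Function.Injective f) :
    Function.Injective (im f : (G × B →₀ ℂ) →ₗ[ℂ] (G × B' →₀ ℂ)) := by
  apply Finsupp.mapDomain_injective
  rintro ⟨g, b⟩ ⟨g', b'⟩ h
  simp only [Prod.mk.injEq] at h
  rw [Prod.mk.injEq]
  exact ⟨h.1, hf h.2⟩

end AD

open AD in
theorem I_AD : StAD := by
  intro G _ S j BE _ degE dE eE hP N _ z hz hz0 hza hzex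
  let deg' : BE ⊕ N → ℕ := Sum.elim degE (fun _ => j + 1)
  let db' : BE ⊕ N → (G × (BE ⊕ N) →₀ ℂ) :=
    Sum.elim (fun b => im Sum.inl (dE b)) (fun n => im Sum.inl (z n))
  let eb' : BE ⊕ N → ℂ := Sum.elim eE (fun _ => 0)
  have hext : ∀ x : G × BE →₀ ℂ, ext ℂ db' (im Sum.inl x) = im Sum.inl (ext ℂ dE x) :=
    ext_im Sum.inl Sum.inl dE db' (fun _ => rfl)
  have hext' : ∀ x : G × N →₀ ℂ, ext ℂ db' (im Sum.inr x) = im Sum.inl (ext ℂ z x) :=
    ext_im Sum.inr Sum.inl z db' (fun _ => rfl)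
  have haug : ∀ x : G × BE →₀ ℂ, aug ℂ eb' (im Sum.inl x) = aug ℂ eE x :=
    aug_im Sum.inl eE eb' (fun _ => rfl)
  have hinj : Function.Injective (im Sum.inl : (G × BE →₀ ℂ) →ₗ[ℂ] (G × (BE ⊕ N) →₀ ℂ)) :=
    im_inj _ Sum.inl_injective
  refine ⟨BE ⊕ N, inferInstance, deg', db', eb', ?_, ?_, ?_, ?_, ?_, ?_, ?_⟩
  · rintro (b | n)
    · exact (hP.le b).trans (Nat.le_succ j)
    · exact le_rfl
  · rintro (b | n)
    · exact im_mem Sum.inl _ _ (by rintro p ⟨h1, h2⟩; exact ⟨h1, h2⟩) _ (hP.db_sup b)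
    · exact im_mem Sum.inl _ _ (by rintro p ⟨h1, h2⟩; exact ⟨h1, congrArg (· + 1) h2⟩) _ (hz n)
  · rintro (b | n) h
    · exact hP.eb_deg b h
    · rfl
  · rintro (b | n)
    · change ext ℂ db' (im Sum.inl (dE b)) = 0
      rw [hext, hP.dd, map_zero]
    · change ext ℂ db' (im Sum.inl (z n)) = 0
      rw [hext, hz0, map_zero]
  · rintro (b | n)
    · change aug ℂ eb' (im Sum.inl (dE b)) = 0
      rw [haug, hP.ed]
    · change aug ℂ eb' (im Sum.inl (z n)) = 0
      rw [haug, hza]
  · obtain ⟨x, hx, hx1⟩ := hP.surj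
    refine ⟨im Sum.inl x, im_mem Sum.inl _ _ (by rintro p ⟨h1, h2⟩; exact ⟨h1, h2⟩) _ hx, ?_⟩
    rw [haug, hx1]
  · intro d hd x hx hx0 hxa
    obtain ⟨x1, hx1, rfl⟩ := mem_im (Sum.inl : BE → BE ⊕ N)
      {p : G × BE | p.1 ∈ (S : Set G) ∧ degE p.2 = d} _ (by
        rintro ⟨g, (b | n)⟩ ⟨h1, h2⟩
        · exact ⟨(g, b), ⟨h1, h2⟩, rfl⟩
        · exfalso
          have h3 : j + 1 = d := h2
          omega) x hx
    rw [hext] at hx0
    have hx0' : ext ℂ dE x1 = 0 := hinj (by rw [hx0, map_zero])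
    rw [haug] at hxa
    rcases Nat.lt_or_ge d j with hdj | hdj
    · obtain ⟨y1, hy1, hy⟩ := hP.exact d hdj x1 hx1 hx0' hxa
      exact ⟨im Sum.inl y1, im_mem Sum.inl _ _ (by rintro p ⟨h1, h2⟩; exact ⟨h1, h2⟩) _ hy1, by rw [hext, hy]⟩
    · obtain rfl : d = j := by omega
      obtain ⟨c, hc, hcx⟩ := hzex x1 hx1 hx0' hxa
      exact ⟨im Sum.inr c, im_mem Sum.inr _ _ (by intro p hp; exact ⟨hp, rfl⟩) _ hc, by rw [hext', hcx]⟩

end Pool.Agent.Work.MP_e9e200_al.LC

end

section

/-!
# AL: the comparison map from a complex to a partial resolution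
-/

set_option autoImplicit false

namespace Pool.Agent.Work.MP_e9e200_al.LC

open Finsupp

namespace AL

set_option linter.unusedSectionVars false
set_option linter.unusedVariables false

variable {G B B' : Type} [Group G]

theorem tr_single (h : G) (p : G × B) (c : ℂ) :
    tr ℂ h (single p c) = single (h * p.1, p.2) c := by
  simp [tr]

theorem ext_single (u : B → (G × B' →₀ ℂ)) (p : G × B) (c : ℂ) :
    ext ℂ u (single p c) = c • tr ℂ p.1 (u p.2) := by
  simp [ext]

theorem aug_single (e : B → ℂ) (p : G × B) (c : ℂ) : aug ℂ e (single p c) = c * e p.2 := by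
  simp [aug]

theorem tr_mul (g h : G) (x : G × B →₀ ℂ) : tr ℂ (g * h) x = tr ℂ g (tr ℂ h x) := by
  induction x using Finsupp.induction_linear with
  | zero => simp
  | add x y hx hy => rw [map_add, map_add, map_add, hx, hy]
  | single p c => rw [tr_single, tr_single, tr_single, mul_assoc]

theorem tr_one (x : G × B →₀ ℂ) : tr ℂ (1 : G) x = x := by
  induction x using Finsupp.induction_linear with
  | zero => simp
  | add x y hx hy => rw [map_add, hx, hy]
  | single p c => rw [tr_single, one_mul]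

theorem ext_tr (u : B → (G × B' →₀ ℂ)) (g : G) (x : G × B →₀ ℂ) :
    ext ℂ u (tr ℂ g x) = tr ℂ g (ext ℂ u x) := by
  induction x using Finsupp.induction_linear with
  | zero => simp
  | add x y hx hy => rw [map_add, map_add, map_add, map_add, hx, hy]
  | single p c => rw [tr_single, ext_single, ext_single, map_smul, ← tr_mul]

theorem aug_tr (e : B → ℂ) (g : G) (x : G × B →₀ ℂ) : aug ℂ e (tr ℂ g x) = aug ℂ e x := by
  induction x using Finsupp.induction_linear with
  | zero => simp
  | add x y hx hy => rw [map_add, map_add, map_add, hx, hy]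
  | single p c => rw [tr_single, aug_single, aug_single]

/-- a linear statement on a supported chain -/
theorem lin {s : Set (G × B)} {V : Type} [AddCommGroup V] [Module ℂ V]
    (f f' : (G × B →₀ ℂ) →ₗ[ℂ] V) (h : ∀ p ∈ s, f (single p 1) = f' (single p 1))
    (x : G × B →₀ ℂ) (hx : x ∈ Finsupp.supported ℂ ℂ s) : f x = f' x := by
  rw [Finsupp.supported_eq_span_single] at hx
  induction hx using Submodule.span_induction with
  | mem y hy => obtain ⟨p, hp, rfl⟩ := hy; exact h p hp
  | zero => simp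
  | add y z _ _ hy hz => rw [map_add, map_add, hy, hz]
  | smul a y _ hy => rw [map_smul, map_smul, hy]

/-- membership in a submodule on a supported chain -/
theorem linmem {s : Set (G × B)} {V : Type} [AddCommGroup V] [Module ℂ V]
    (f : (G × B →₀ ℂ) →ₗ[ℂ] V) (N : Submodule ℂ V) (h : ∀ p ∈ s, f (single p 1) ∈ N)
    (x : G × B →₀ ℂ) (hx : x ∈ Finsupp.supported ℂ ℂ s) : f x ∈ N := by
  rw [Finsupp.supported_eq_span_single] at hx
  induction hx using Submodule.span_induction with
  | mem y hy => obtain ⟨p, hp, rfl⟩ := hy; exact h p hp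
  | zero => simp
  | add y z _ _ hy hz => rw [map_add]; exact N.add_mem hy hz
  | smul a y _ hy => rw [map_smul]; exact N.smul_mem a hy

theorem chi_mul (χ : Additive G →+ ℝ) (g h : G) :
    χ (Additive.ofMul (g * h)) = χ (Additive.ofMul g) + χ (Additive.ofMul h) := by
  rw [ofMul_mul, map_add]

theorem chi_inv (χ : Additive G →+ ℝ) (g : G) :
    χ (Additive.ofMul g⁻¹) = - χ (Additive.ofMul g) := by
  rw [ofMul_inv, map_neg]

theorem tr_mem (χ : Additive G →+ ℝ) (deg : B → ℕ) (s : ℝ) (d : ℕ) (g : G) (x : G × B →₀ ℂ)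
    (hx : x ∈ Finsupp.supported ℂ ℂ {p : G × B | p.1 ∈ hs χ s ∧ deg p.2 = d}) :
    tr ℂ g x ∈ Finsupp.supported ℂ ℂ
      {p : G × B | p.1 ∈ hs χ (χ (Additive.ofMul g) + s) ∧ deg p.2 = d} := by
  refine linmem (tr ℂ g) _ ?_ x hx
  intro p hp
  rw [tr_single]
  refine Finsupp.single_mem_supported ℂ _ ?_
  refine ⟨?_, hp.2⟩
  have h1 : s ≤ χ (Additive.ofMul p.1) := hp.1
  show χ (Additive.ofMul g) + s ≤ χ (Additive.ofMul (g * p.1))
  rw [chi_mul]
  linarith

theorem ext_mem (χ : Additive G →+ ℝ) (deg : B → ℕ) (deg' : B' → ℕ) (s t : ℝ) (d d' : ℕ)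
    (u : B → (G × B' →₀ ℂ))
    (hu : ∀ b, deg b = d → u b ∈ Finsupp.supported ℂ ℂ
      {p : G × B' | p.1 ∈ hs χ t ∧ deg' p.2 = d'})
    (x : G × B →₀ ℂ)
    (hx : x ∈ Finsupp.supported ℂ ℂ {p : G × B | p.1 ∈ hs χ s ∧ deg p.2 = d}) :
    ext ℂ u x ∈ Finsupp.supported ℂ ℂ {p : G × B' | p.1 ∈ hs χ (s + t) ∧ deg' p.2 = d'} := by
  refine linmem (ext ℂ u) _ ?_ x hx
  intro p hp
  rw [ext_single, one_smul]
  have h1 := tr_mem χ deg' t d' p.1 (u p.2) (hu p.2 hp.2)
  refine Finsupp.supported_mono ?_ h1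
  intro r hr
  refine ⟨?_, hr.2⟩
  have h2 : χ (Additive.ofMul p.1) + t ≤ χ (Additive.ofMul r.1) := hr.1
  have h3 : s ≤ χ (Additive.ofMul p.1) := hp.1
  show s + t ≤ χ (Additive.ofMul r.1)
  linarith

theorem exists_large (χ : Additive G →+ ℝ) (hχ : χ ≠ 0) (t : ℝ) :
    ∃ g : G, t ≤ χ (Additive.ofMul g) := by
  obtain ⟨a, ha⟩ : ∃ a, χ a ≠ 0 := by
    by_contra hcon
    push Not at hcon
    exact hχ (DFunLike.ext _ _ fun a => by simpa using hcon a)
  obtain ⟨a, ha⟩ : ∃ a, 0 < χ a := by
    rcases lt_or_gt_of_ne ha with h | h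
    · exact ⟨-a, by rw [map_neg]; linarith⟩
    · exact ⟨a, h⟩
  obtain ⟨n, hn⟩ := exists_nat_ge (t / χ a)
  refine ⟨Additive.toMul (n • a), ?_⟩
  rw [ofMul_toMul, map_nsmul, nsmul_eq_mul]
  rwa [div_le_iff₀ ha] at hn

/-- translated exactness -/
theorem exact_tr (χ : Additive G →+ ℝ) {j : ℕ} {degE : B → ℕ} {dE : B → (G × B →₀ ℂ)}
    {eE : B → ℂ} (hP : PRes ℂ (hs χ 0) j B degE dE eE) (t : ℝ) (d : ℕ) (hd : d < j)
    (x : G × B →₀ ℂ)
    (hx : x ∈ Finsupp.supported ℂ ℂ {p : G × B | p.1 ∈ hs χ t ∧ degE p.2 = d})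
    (h1 : ext ℂ dE x = 0) (h2 : aug ℂ eE x = 0) :
    ∃ y ∈ Finsupp.supported ℂ ℂ {p : G × B | p.1 ∈ hs χ t ∧ degE p.2 = d + 1},
      ext ℂ dE y = x := by
  classical
  by_cases hx0 : x = 0
  · refine ⟨0, Submodule.zero_mem _, ?_⟩
    rw [map_zero, hx0]
  have hne : x.support.Nonempty := Finsupp.support_nonempty_iff.mpr hx0
  obtain ⟨p0, hp0, hmin⟩ := Finset.exists_min_image x.support
    (fun p => χ (Additive.ofMul p.1)) hne
  have hsub := (Finsupp.mem_supported ℂ x).mp hx
  have hx' : x ∈ Finsupp.supported ℂ ℂ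
      {p : G × B | p.1 ∈ hs χ (χ (Additive.ofMul p0.1)) ∧ degE p.2 = d} := by
    rw [Finsupp.mem_supported]
    intro p hp
    exact ⟨hmin p (Finset.mem_coe.mp hp), (hsub hp).2⟩
  have h3 := tr_mem χ degE _ d p0.1⁻¹ x hx'
  rw [chi_inv, neg_add_cancel] at h3
  obtain ⟨y, hy, hy2⟩ := hP.exact d hd (tr ℂ p0.1⁻¹ x) h3 (by rw [ext_tr, h1, map_zero])
    (by rw [aug_tr, h2])
  refine ⟨tr ℂ p0.1 y, ?_, ?_⟩
  · have h4 := tr_mem χ degE 0 (d + 1) p0.1 y hy
    refine Finsupp.supported_mono ?_ h4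
    intro r hr
    refine ⟨?_, hr.2⟩
    have h5 : χ (Additive.ofMul p0.1) + 0 ≤ χ (Additive.ofMul r.1) := hr.1
    have h6 : t ≤ χ (Additive.ofMul p0.1) := (hsub (Finset.mem_coe.mpr hp0)).1
    show t ≤ χ (Additive.ofMul r.1)
    linarith
  · rw [ext_tr, hy2, ← tr_mul, mul_inv_cancel, tr_one]

theorem db_zero {deg : B → ℕ} {db : B → (G × B →₀ ℂ)} {s : Set (G × B)}
    (hs' : ∀ p ∈ s, deg p.2 + 1 = 0) (x : G × B →₀ ℂ) (hx : x ∈ Finsupp.supported ℂ ℂ s) :
    x = 0 := by
  have he : s = ∅ := Set.eq_empty_iff_forall_notMem.mpr fun p hp => by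
    have := hs' p hp
    omega
  rw [he, Finsupp.supported_empty] at hx
  exact (Submodule.mem_bot ℂ).mp hx

/-- one step of the construction -/
theorem main (χ : Additive G →+ ℝ) (hχ : χ ≠ 0) (C : ℝ) (j : ℕ)
    (deg : B → ℕ) (db : B → (G × B →₀ ℂ)) (eb : B → ℂ)
    (degE : B' → ℕ) (dE : B' → (G × B' →₀ ℂ)) (eE : B' → ℂ) (hc : Cpx B deg db eb)
    (hdb : ∀ b, db b ∈ Finsupp.supported ℂ ℂ {p : G × B | p.1 ∈ hs χ (-C)})
    (hP : PRes ℂ (hs χ 0) j B' degE dE eE) (w : ℝ) (n : ℕ) (hn : n ≤ j) :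
    ∃ α : B → (G × B' →₀ ℂ),
      (∀ b, deg b ≤ n → α b ∈ Finsupp.supported ℂ ℂ
        {p : G × B' | p.1 ∈ hs χ (w + ((j : ℝ) - deg b) * C) ∧ degE p.2 = deg b}) ∧
      (∀ b, deg b ≤ n → ext ℂ dE (α b) = ext ℂ α (db b)) ∧
      (∀ b, deg b ≤ n → aug ℂ eE (α b) = eb b) := by
  classical
  induction n with
  | zero =>
    obtain ⟨x0, hx0, hx1⟩ := hP.surj
    obtain ⟨g, hg⟩ := exists_large χ hχ (w + j * C)
    have hmem : ∀ b, deg b ≤ 0 → eb b • tr ℂ g x0 ∈ Finsupp.supported ℂ ℂ
        {p : G × B' | p.1 ∈ hs χ (w + ((j : ℝ) - deg b) * C) ∧ degE p.2 = deg b} := by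
      intro b hb
      have hb0 : deg b = 0 := Nat.le_zero.mp hb
      refine Submodule.smul_mem _ _ ?_
      have h4 := tr_mem χ degE 0 0 g x0 hx0
      refine Finsupp.supported_mono ?_ h4
      intro r hr
      refine ⟨?_, hr.2.trans hb0.symm⟩
      have h5 : χ (Additive.ofMul g) + 0 ≤ χ (Additive.ofMul r.1) := hr.1
      show w + ((j : ℝ) - deg b) * C ≤ χ (Additive.ofMul r.1)
      rw [hb0]
      push_cast
      rw [sub_zero]
      linarith
    refine ⟨fun b => eb b • tr ℂ g x0, hmem, ?_, ?_⟩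
    · intro b hb
      have hb0 : deg b = 0 := Nat.le_zero.mp hb
      have h1 : db b = 0 := db_zero (deg := deg) (db := db) (fun p hp => by
        have : deg p.2 + 1 = deg b := hp
        omega) (db b) (hc.db_sup b)
      rw [h1, map_zero]
      have h2 : ext ℂ dE x0 = 0 := by
        refine lin (ext ℂ dE) 0 ?_ x0 hx0
        intro p hp
        rw [ext_single, one_smul, LinearMap.zero_apply]
        have h3 : dE p.2 = 0 := db_zero (deg := degE) (db := dE) (fun r hr => by
          have h4 : degE r.2 + 1 = degE p.2 := hr.2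
          have h5 : degE p.2 = 0 := hp.2
          omega) (dE p.2) (hP.db_sup p.2)
        rw [h3, map_zero]
      rw [map_smul, ext_tr, h2, map_zero, smul_zero]
    · intro b _
      rw [map_smul, aug_tr, hx1, smul_eq_mul, mul_one]
  | succ n ih =>
    obtain ⟨α, h1, h2, h3⟩ := ih (Nat.le_of_succ_le hn)
    have hdb' : ∀ b, deg b = n + 1 → db b ∈ Finsupp.supported ℂ ℂ
        {p : G × B | p.1 ∈ hs χ (-C) ∧ deg p.2 = n} := by
      intro b hb
      rw [Finsupp.mem_supported]
      intro p hp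
      refine ⟨(Finsupp.mem_supported ℂ (db b)).mp (hdb b) hp, ?_⟩
      have h5 : deg p.2 + 1 = deg b := (Finsupp.mem_supported ℂ (db b)).mp (hc.db_sup b) hp
      omega
    have hcomm : ∀ x ∈ Finsupp.supported ℂ ℂ {p : G × B | p.1 ∈ hs χ (-C) ∧ deg p.2 = n},
        ext ℂ dE (ext ℂ α x) = ext ℂ α (ext ℂ db x) := by
      intro x hx
      refine lin (ext ℂ dE ∘ₗ ext ℂ α) (ext ℂ α ∘ₗ ext ℂ db) ?_ x hx
      intro p hp
      have hp2 : deg p.2 = n := hp.2
      simp only [LinearMap.comp_apply]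
      rw [ext_single, ext_single, one_smul, one_smul, ext_tr, ext_tr, h2 p.2 hp2.le]
    have haug : ∀ x ∈ Finsupp.supported ℂ ℂ {p : G × B | p.1 ∈ hs χ (-C) ∧ deg p.2 = n},
        aug ℂ eE (ext ℂ α x) = aug ℂ eb x := by
      intro x hx
      refine lin (aug ℂ eE ∘ₗ ext ℂ α) (aug ℂ eb) ?_ x hx
      intro p hp
      have hp2 : deg p.2 = n := hp.2
      simp only [LinearMap.comp_apply]
      rw [ext_single, one_smul, aug_tr, aug_single, one_mul, h3 p.2 hp2.le]
    have hex : ∀ b, deg b = n + 1 → ∃ y ∈ Finsupp.supported ℂ ℂ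
        {p : G × B' | p.1 ∈ hs χ (w + ((j : ℝ) - (n + 1)) * C) ∧ degE p.2 = n + 1},
        ext ℂ dE y = ext ℂ α (db b) := by
      intro b hb
      have h4 : ext ℂ α (db b) ∈ Finsupp.supported ℂ ℂ
          {p : G × B' | p.1 ∈ hs χ (w + ((j : ℝ) - (n + 1)) * C) ∧ degE p.2 = n} := by
        have h5 := ext_mem χ deg degE (-C) (w + ((j : ℝ) - n) * C) n n α (fun b' hb' => by
          have h6 := h1 b' hb'.le
          rw [hb'] at h6
          exact h6) (db b) (hdb' b hb)
        have h7 : -C + (w + ((j : ℝ) - n) * C) = w + ((j : ℝ) - (n + 1)) * C := by ring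
        rw [h7] at h5
        exact h5
      refine exact_tr χ hP _ n (by omega) _ h4 ?_ ?_
      · rw [hcomm _ (hdb' b hb), hc.dd b, map_zero]
      · rw [haug _ (hdb' b hb), hc.ed b]
    choose! y hy1 hy2 using hex
    let α' : B → (G × B' →₀ ℂ) := fun b => if deg b = n + 1 then y b else α b
    have hα : ∀ b, deg b ≤ n → α' b = α b := by
      intro b hb
      show (if deg b = n + 1 then y b else α b) = α b
      rw [if_neg (by omega)]
    have hα1 : ∀ b, deg b = n + 1 → α' b = y b := by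
      intro b hb
      show (if deg b = n + 1 then y b else α b) = y b
      rw [if_pos hb]
    have hcong : ∀ b, deg b ≤ n + 1 → ext ℂ α' (db b) = ext ℂ α (db b) := by
      intro b hb
      refine lin (ext ℂ α') (ext ℂ α) ?_ (db b) (hc.db_sup b)
      intro p hp
      have hp2 : deg p.2 + 1 = deg b := hp
      rw [ext_single, ext_single, hα p.2 (by omega)]
    refine ⟨α', ?_, ?_, ?_⟩
    · intro b hb
      rcases Nat.lt_or_ge n (deg b) with h | h
      · have hb1 : deg b = n + 1 := by omega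
        rw [hα1 b hb1, hb1]
        have := hy1 b hb1
        push_cast
        exact this
      · rw [hα b h]
        exact h1 b h
    · intro b hb
      rw [hcong b hb]
      rcases Nat.lt_or_ge n (deg b) with h | h
      · have hb1 : deg b = n + 1 := by omega
        rw [hα1 b hb1]
        exact hy2 b hb1
      · rw [hα b h]
        exact h2 b h
    · intro b hb
      rcases Nat.lt_or_ge n (deg b) with h | h
      · have hb1 : deg b = n + 1 := by omega
        rw [hα1 b hb1, hc.eb_deg b (by omega)]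
        refine lin (aug ℂ eE) 0 ?_ (y b) (hy1 b hb1)
        intro p hp
        have hp2 : degE p.2 = n + 1 := hp.2
        rw [aug_single, hP.eb_deg p.2 (by omega), mul_zero, LinearMap.zero_apply]
      · rw [hα b h]
        exact h3 b h

end AL

theorem I_AL : StAL := by
  intro G _ χ hχ C j B deg db eb BE _ degE dE eE hc hC hdb hP w
  obtain ⟨α, h1, h2, h3⟩ := AL.main χ hχ C j deg db eb degE dE eE hc hdb hP w j le_rfl
  refine ⟨α, ?_, h2, h3⟩
  intro b hb
  refine Finsupp.supported_mono ?_ (h1 b hb)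
  intro r hr
  refine ⟨?_, hr.2⟩
  have h4 : w + ((j : ℝ) - deg b) * C ≤ χ (Additive.ofMul r.1) := hr.1
  show w ≤ χ (Additive.ofMul r.1)
  have h5 : (0 : ℝ) ≤ ((j : ℝ) - deg b) * C :=
    mul_nonneg (sub_nonneg.mpr (by exact_mod_cast hb)) hC
  linarith

end Pool.Agent.Work.MP_e9e200_al.LC

end

section

/-!
# Project LC, item HT: homotopy uniqueness
-/

set_option autoImplicit false

namespace Pool.Agent.Work.MP_e9e200_al.LC

open Finsupp

namespace HT

variable {G B B' : Type} [Group G]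

theorem tr_single (h : G) (p : G × B) (a : ℂ) :
    tr ℂ h (single p a) = single (h * p.1, p.2) a := by
  unfold tr
  rw [Finsupp.lmapDomain_apply, Finsupp.mapDomain_single]

theorem tr_one (x : G × B →₀ ℂ) : tr ℂ 1 x = x := by
  have h : tr ℂ (B := B) (1 : G) = LinearMap.id := by
    refine Finsupp.lhom_ext fun p a => ?_
    rw [tr_single, one_mul]
    rfl
  rw [h]
  rfl

theorem tr_mul (g h : G) (x : G × B →₀ ℂ) : tr ℂ (g * h) x = tr ℂ g (tr ℂ h x) := by
  have h : tr ℂ (B := B) (g * h) = (tr ℂ g) ∘ₗ (tr ℂ h) := by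
    refine Finsupp.lhom_ext fun p a => ?_
    rw [LinearMap.comp_apply, tr_single, tr_single, tr_single, mul_assoc]
  rw [h]
  rfl

theorem ext_single (u : B → (G × B' →₀ ℂ)) (p : G × B) (a : ℂ) :
    ext ℂ u (single p a) = a • tr ℂ p.1 (u p.2) := by
  unfold ext
  rw [Finsupp.linearCombination_single]

theorem ext_tr (u : B → (G × B' →₀ ℂ)) (g : G) (x : G × B →₀ ℂ) :
    ext ℂ u (tr ℂ g x) = tr ℂ g (ext ℂ u x) := by
  have h : (ext ℂ u) ∘ₗ (tr ℂ g) = (tr ℂ g) ∘ₗ (ext ℂ u) := by
    refine Finsupp.lhom_ext fun p a => ?_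
    rw [LinearMap.comp_apply, LinearMap.comp_apply, tr_single, ext_single, ext_single, map_smul,
      ← tr_mul]
  exact LinearMap.congr_fun h x

omit [Group G] in
theorem aug_single (e : B → ℂ) (p : G × B) (a : ℂ) :
    aug ℂ e (single p a) = a * e p.2 := by
  unfold aug
  rw [Finsupp.linearCombination_single, smul_eq_mul]

/-- two linear maps which agree on the cells of a set agree on the chains supported there -/
theorem eq_on {X M : Type} [AddCommGroup M] [Module ℂ M] (f g : (X →₀ ℂ) →ₗ[ℂ] M) (s : Set X)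
    (h : ∀ p ∈ s, f (single p 1) = g (single p 1)) (x : X →₀ ℂ)
    (hx : x ∈ Finsupp.supported ℂ ℂ s) : f x = g x := by
  rw [Finsupp.supported_eq_span_single] at hx
  induction hx using Submodule.span_induction with
  | mem y hy =>
    obtain ⟨p, hp, rfl⟩ := hy
    exact h p hp
  | zero => rw [map_zero, map_zero]
  | add y z _ _ hy hz => rw [map_add, map_add, hy, hz]
  | smul a y _ hy => rw [map_smul, map_smul, hy]

/-- a linear map which maps the cells of a set into a submodule -/
theorem mem_on {X M : Type} [AddCommGroup M] [Module ℂ M] (f : (X →₀ ℂ) →ₗ[ℂ] M) (s : Set X)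
    (N : Submodule ℂ M) (h : ∀ p ∈ s, f (single p 1) ∈ N) (x : X →₀ ℂ)
    (hx : x ∈ Finsupp.supported ℂ ℂ s) : f x ∈ N := by
  rw [Finsupp.supported_eq_span_single] at hx
  induction hx using Submodule.span_induction with
  | mem y hy =>
    obtain ⟨p, hp, rfl⟩ := hy
    exact h p hp
  | zero => rw [map_zero]; exact N.zero_mem
  | add y z _ _ hy hz => rw [map_add]; exact N.add_mem hy hz
  | smul a y _ hy => rw [map_smul]; exact N.smul_mem a hy

theorem tr_mem (g : G) (s t : Set (G × B)) (h : ∀ p ∈ s, (g * p.1, p.2) ∈ t) (x : G × B →₀ ℂ)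
    (hx : x ∈ Finsupp.supported ℂ ℂ s) : tr ℂ g x ∈ Finsupp.supported ℂ ℂ t := by
  refine mem_on (tr ℂ g) s _ (fun p hp => ?_) x hx
  rw [tr_single]
  exact Finsupp.single_mem_supported ℂ 1 (h p hp)

end HT

open HT in
theorem I_HT : StHT := by
  intro G _ S j BE degE dE eE hP γ hγ hγd hγa
  classical
  have key : ∀ n ≤ j, ∃ s : BE → (G × BE →₀ ℂ),
      (∀ b, s b ∈ Finsupp.supported ℂ ℂ {p : G × BE | p.1 ∈ S ∧ degE p.2 = degE b + 1}) ∧
      (∀ b, degE b < n → ext ℂ dE (s b) + ext ℂ s (dE b) = single (1, b) 1 - γ b) := by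
    intro n
    induction n with
    | zero =>
      intro _
      exact ⟨fun _ => 0, fun b => Submodule.zero_mem _, fun b hb => absurd hb (Nat.not_lt_zero _)⟩
    | succ n ih =>
      intro hn
      obtain ⟨s, hs, he⟩ := ih (by omega)
      -- the homotopy equation for chains
      have hch : ∀ x ∈ Finsupp.supported ℂ ℂ {p : G × BE | degE p.2 < n},
          ext ℂ dE (ext ℂ s x) + ext ℂ s (ext ℂ dE x) = x - ext ℂ γ x := by
        intro x hx
        refine eq_on ((ext ℂ dE) ∘ₗ (ext ℂ s) + (ext ℂ s) ∘ₗ (ext ℂ dE))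
          (LinearMap.id - ext ℂ γ) _ (fun p hp => ?_) x hx
        simp only [LinearMap.add_apply, LinearMap.comp_apply, LinearMap.sub_apply,
          LinearMap.id_apply]
        rw [ext_single, ext_single, ext_single, one_smul, one_smul, one_smul, ext_tr, ext_tr,
          ← map_add, he p.2 hp, map_sub, tr_single, mul_one]
      have hv : ∀ b, degE b = n → ∃ y ∈ Finsupp.supported ℂ ℂ
          {p : G × BE | p.1 ∈ (S : Set G) ∧ degE p.2 = n + 1},
          ext ℂ dE y = single (1, b) 1 - γ b - ext ℂ s (dE b) := by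
        intro b hb
        have hd : dE b ∈ Finsupp.supported ℂ ℂ {p : G × BE | degE p.2 < n} := by
          refine Finsupp.supported_mono (fun p hp => ?_) (hP.db_sup b)
          have h1 : degE p.2 + 1 = degE b := hp.2
          show degE p.2 < n
          omega
        have hsd : ext ℂ s (dE b) ∈ Finsupp.supported ℂ ℂ
            {p : G × BE | p.1 ∈ (S : Set G) ∧ degE p.2 = n} := by
          refine mem_on (ext ℂ s) _ _ (fun p hp => ?_) (dE b) (hP.db_sup b)
          rw [ext_single, one_smul]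
          refine tr_mem p.1 _ _ (fun q hq => ?_) _ (hs p.2)
          refine ⟨S.mul_mem hp.1 hq.1, ?_⟩
          have h1 : degE p.2 + 1 = degE b := hp.2
          have h2 : degE q.2 = degE p.2 + 1 := hq.2
          show degE q.2 = n
          omega
        refine hP.exact n (by omega) _ ?_ ?_ ?_
        · refine Submodule.sub_mem _ (Submodule.sub_mem _ ?_ ?_) hsd
          · exact Finsupp.single_mem_supported ℂ 1 ⟨S.one_mem, hb⟩
          · refine Finsupp.supported_mono (fun p hp => ?_) (hγ b)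
            exact ⟨hp.1, hp.2.trans hb⟩
        · have h1 := hch (dE b) hd
          rw [hP.dd, map_zero, add_zero] at h1
          rw [map_sub, map_sub, h1, ext_single, one_smul, tr_one, hγd]
          abel
        · rw [map_sub, map_sub, aug_single, one_mul, hγa]
          have h1 : aug ℂ eE (ext ℂ s (dE b)) = 0 := by
            rcases Nat.eq_zero_or_pos n with h0 | h0
            · have h2 : dE b = 0 := by
                rw [← Finsupp.support_eq_empty, Finset.eq_empty_iff_forall_notMem]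
                intro p hp
                have h3 : degE p.2 < n := (Finsupp.mem_supported ℂ _).1 hd hp
                omega
              rw [h2, map_zero, map_zero]
            · refine eq_on (aug ℂ eE) 0 _ (fun p hp => ?_) _ hsd
              have h3 : degE p.2 = n := hp.2
              rw [aug_single, hP.eb_deg p.2 (by omega), mul_zero]
              rfl
          rw [h1]
          simp
      choose! y hy hye using hv
      refine ⟨fun b => if degE b = n then y b else s b, fun b => ?_, fun b hb => ?_⟩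
      · by_cases h : degE b = n
        · simp only [h, if_true]
          exact hy b h
        · simp only [h, if_false]
          exact hs b
      · have h1 : ext ℂ (fun b => if degE b = n then y b else s b) (dE b) = ext ℂ s (dE b) := by
          refine eq_on _ _ _ (fun p hp => ?_) (dE b) (hP.db_sup b)
          have h2 : degE p.2 + 1 = degE b := hp.2
          have h3 : degE p.2 ≠ n := by omega
          rw [ext_single, ext_single]
          simp only [h3, if_false]
        rw [h1]
        by_cases h : degE b = n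
        · simp only [h, if_true]
          rw [hye b h]
          abel
        · simp only [h, if_false]
          exact he b (by omega)
  obtain ⟨s, hs, he⟩ := key j le_rfl
  exact ⟨s, hs, he⟩

end Pool.Agent.Work.MP_e9e200_al.LC

end

section

/-!
# Project LC: item OPEN
-/

set_option autoImplicit false

namespace Pool.Agent.Work.MP_e9e200_al.LC

open Finsupp

namespace OPEN

/-- the monoid of all `g` with `χ g ≥ 0` -/
def Hm {G : Type} [Group G] (χ : Additive G →+ ℝ) : Submonoid G where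
  carrier := hs χ 0
  one_mem' := by
    show (0 : ℝ) ≤ χ (Additive.ofMul 1)
    rw [ofMul_one, map_zero]
  mul_mem' := by
    intro a b ha hb
    show (0 : ℝ) ≤ χ (Additive.ofMul (a * b))
    rw [ofMul_mul, map_add]
    exact add_nonneg ha hb

theorem one_mem_hs {G : Type} [Group G] (χ : Additive G →+ ℝ) : (1 : G) ∈ hs χ 0 :=
  (Hm χ).one_mem

theorem toCpx {G : Type} [Group G] {S : Set G} {m : ℕ} {B : Type}
    {deg : B → ℕ} {db : B → (G × B →₀ ℂ)} {eb : B → ℂ} (h : PRes ℂ S m B deg db eb) :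
    Cpx B deg db eb where
  db_sup b := Finsupp.supported_mono (fun p hp => hp.2) (h.db_sup b)
  eb_deg := h.eb_deg
  dd := h.dd
  ed := h.ed
  surj := by
    obtain ⟨x, hx, hx1⟩ := h.surj
    exact ⟨x, Finsupp.supported_mono (fun p hp => hp.2) hx, hx1⟩

theorem base {G : Type} [Group G] (S : Set G) (h1 : (1 : G) ∈ S) :
    PRes ℂ S 0 Unit (fun _ => 0) (fun _ => 0) (fun _ => 1) where
  le _ := le_refl _
  db_sup _ := Submodule.zero_mem _
  eb_deg _ h := absurd rfl h
  dd _ := by simp
  ed _ := by simp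
  surj := by
    refine ⟨single ((1 : G), ()) 1, ?_, ?_⟩
    · exact Finsupp.single_mem_supported ℂ _ ⟨h1, rfl⟩
    · simp [aug]
  exact d hd := absurd hd (Nat.not_lt_zero d)

end OPEN

theorem I_OPEN (hPU : StPU) (hES : StES) (hGN : StGN) (hAD : StAD) : StOPEN := by
  intro G _ χ hχ m B _ deg db eb hP
  obtain ⟨ρ, ph, hh, hpush⟩ := hPU G χ hχ m B deg db eb hP
  obtain ⟨F, ε, hε, hE⟩ := hES G χ hχ m B deg db eb hP ρ ph hh hpush
  refine ⟨F, ε, hε, ?_⟩
  intro χ' hχ' hnear
  have hess := hE χ' hnear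
  have hC := OPEN.toCpx hP
  have key : ∀ j : ℕ, j ≤ m → ∃ (B' : Type) (_ : Finite B') (deg' : B' → ℕ)
      (db' : B' → (G × B' →₀ ℂ)) (eb' : B' → ℂ), PRes ℂ (hs χ' 0) j B' deg' db' eb' := by
    intro j
    induction j with
    | zero =>
      intro _
      exact ⟨Unit, inferInstance, fun _ => 0, fun _ => 0, fun _ => 1,
        OPEN.base _ (OPEN.one_mem_hs χ')⟩
    | succ j ih =>
      intro hj
      obtain ⟨BE, hfin, degE, dE, eE, hR⟩ := ih (by omega)
      obtain ⟨N, hN, z, hz1, hz2, hz3, hz4⟩ :=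
        hGN G χ' hχ' 1 m j B deg db eb BE degE dE eE hC hess hR (by omega)
      exact hAD G (OPEN.Hm χ') j BE degE dE eE hR N z hz1 hz2 hz3 hz4
  exact key m le_rfl

end Pool.Agent.Work.MP_e9e200_al.LC

end

section

/-!
# The function psi for one character
-/

set_option autoImplicit false

namespace Pool.Agent.Work.MP_e9e200_al.LC

namespace PSI

/-- subgroups of finitely generated commutative groups are finitely generated -/
theorem fg_sub {Q : Type} [CommGroup Q] [Group.FG Q] (N : Subgroup Q) : Group.FG N := by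
  have h1 : AddGroup.FG (Additive Q) := GroupFG.iff_add_fg.1 inferInstance
  have h2 : Module.Finite ℤ (Additive Q) := Module.Finite.iff_addGroup_fg.2 h1
  have h3 : IsNoetherian ℤ (Additive Q) := inferInstance
  have h4 : (AddSubgroup.toIntSubmodule (Subgroup.toAddSubgroup N)).FG :=
    IsNoetherian.noetherian _
  rw [Submodule.fg_iff_addSubgroup_fg] at h4
  have h5 : (Subgroup.toAddSubgroup N).FG := by
    simpa using h4
  rw [Group.fg_iff_subgroup_fg, Subgroup.fg_iff_add_fg]
  exact h5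

variable {G : Type} [Group G]

theorem conj_eq (hm : Metab G) {g g' : G} (h : Abelianization.of g = Abelianization.of g')
    {w : G} (hw : w ∈ commutator G) : g * w * g⁻¹ = g' * w * g'⁻¹ := by
  have h1 : g'⁻¹ * g ∈ commutator G := by
    have h2 : (QuotientGroup.mk g' : G ⧸ commutator G) = QuotientGroup.mk g := h.symm
    exact QuotientGroup.eq.1 h2
  have h3 := hm _ h1 _ hw
  have h4 : g * w = g' * (g'⁻¹ * g * w) := by group
  rw [h4, h3]
  group

/-- the conjugation by `g` on a subgroup -/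
def cj (B1 : Subgroup G) (g : G) (h : ∀ w ∈ B1, g * w * g⁻¹ ∈ B1) : B1 →* B1 where
  toFun w := ⟨g * w * g⁻¹, h w w.2⟩
  map_one' := by ext; simp
  map_mul' a b := by ext; simp

theorem exM (hm : Metab G) (B1 B0 : Subgroup G) (h1A : B1 ≤ commutator G)
    (N : Subgroup (Abelianization G))
    (hB1 : ∀ g, Abelianization.of g ∈ N → ∀ w ∈ B1, g * w * g⁻¹ ∈ B1)
    (hB0 : ∀ g, Abelianization.of g ∈ N → ∀ w ∈ B0, g * w * g⁻¹ ∈ B0) :
    ∃ (M : Type) (_ : AddCommGroup M) (cls : G → M) (act : N →* AddMonoid.End M),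
      (∀ w ∈ B1, ∀ w' ∈ B1, cls (w * w') = cls w + cls w') ∧
      (∀ w ∈ B1, cls w = 0 ↔ w ∈ B0) ∧
      (∀ m, ∃ w ∈ B1, cls w = m) ∧
      (∀ g (hg : Abelianization.of g ∈ N), ∀ w ∈ B1,
        act ⟨Abelianization.of g, hg⟩ (cls w) = cls (g * w * g⁻¹)) := by
  classical
  let _ : CommGroup B1 := { (inferInstance : Group B1) with
    mul_comm := fun a b => Subtype.ext (hm a (h1A a.2) b (h1A b.2)) }
  let R := B1 ⧸ B0.subgroupOf B1
  let cls : G → Additive R := fun w => if h : w ∈ B1 then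
    Additive.ofMul (QuotientGroup.mk (⟨w, h⟩ : B1)) else 0
  have hcls : ∀ w (h : w ∈ B1), cls w = Additive.ofMul (QuotientGroup.mk (⟨w, h⟩ : B1)) :=
    fun w h => dif_pos h
  have hout : ∀ n : Abelianization G, ∃ g, Abelianization.of g = n := fun n =>
    QuotientGroup.mk_surjective n
  choose rp hrp using hout
  have hmap : ∀ (g : G) (hg : Abelianization.of g ∈ N), B0.subgroupOf B1 ≤
      (B0.subgroupOf B1).comap (cj B1 g (hB1 g hg)) := by
    intro g hg w hw
    rw [Subgroup.mem_subgroupOf] at hw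
    rw [Subgroup.mem_comap, Subgroup.mem_subgroupOf]
    exact hB0 g hg _ hw
  have hN : ∀ n : N, Abelianization.of (rp n) ∈ N := fun n => by
    rw [hrp]
    exact n.2
  let act0 : N → (Additive R →+ Additive R) := fun n => MonoidHom.toAdditive
    (QuotientGroup.map (B0.subgroupOf B1) (B0.subgroupOf B1) (cj B1 (rp n) (hB1 _ (hN n)))
      (hmap _ (hN n)))
  have hact0 : ∀ (n : N) (g : G), Abelianization.of g = n → ∀ w ∈ B1,
      act0 n (cls w) = cls (g * w * g⁻¹) := by
    intro n g hg w hw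
    have hgN : Abelianization.of g ∈ N := by
      rw [hg]
      exact n.2
    rw [hcls w hw, hcls _ (hB1 g hgN w hw)]
    have e : (⟨g * w * g⁻¹, hB1 g hgN w hw⟩ : B1) = cj B1 (rp n) (hB1 _ (hN n)) ⟨w, hw⟩ := by
      ext
      exact conj_eq hm (hg.trans (hrp n).symm) (h1A hw)
    rw [e]
    rfl
  have hsurj : ∀ m : Additive R, ∃ w ∈ B1, cls w = m := by
    intro m
    obtain ⟨w, hw⟩ := QuotientGroup.mk_surjective (Additive.toMul m)
    refine ⟨w, w.2, ?_⟩
    rw [hcls _ w.2]
    exact congrArg Additive.ofMul hw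
  refine ⟨Additive R, inferInstance, cls,
    { toFun := act0
      map_one' := ?_
      map_mul' := ?_ }, ?_, ?_, hsurj, ?_⟩
  · refine AddMonoidHom.ext fun m => ?_
    obtain ⟨w, hw, rfl⟩ := hsurj m
    refine (hact0 1 1 (by simp) w hw).trans ?_
    show _ = cls w
    congr 1
    group
  · intro n n'
    refine AddMonoidHom.ext fun m => ?_
    obtain ⟨w, hw, rfl⟩ := hsurj m
    have h1 : rp n' * w * (rp n')⁻¹ ∈ B1 := hB1 _ (hN n') w hw
    refine (hact0 (n * n') (rp n * rp n') (by rw [map_mul, hrp, hrp]; rfl) w hw).trans ?_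
    show _ = act0 n (act0 n' (cls w))
    rw [hact0 n' (rp n') (hrp _) w hw, hact0 n (rp n) (hrp _) _ h1]
    congr 1
    group
  · intro w hw w' hw'
    rw [hcls w hw, hcls w' hw', hcls _ (B1.mul_mem hw hw')]
    rfl
  · intro w hw
    rw [hcls w hw]
    show (QuotientGroup.mk (⟨w, hw⟩ : B1) : R) = 1 ↔ _
    rw [QuotientGroup.eq_one_iff, Subgroup.mem_subgroupOf]
  · intro g hg w hw
    exact hact0 ⟨Abelianization.of g, hg⟩ g rfl w hw

/-- the subgroup generated by the conjugates `g v g⁻¹` with `s ≤ χ g` -/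
def Bs (χ : Chr G) (E : Finset G) (s : ℤ) : Subgroup G :=
  Subgroup.closure {w : G | ∃ g v : G, s ≤ vl χ g ∧ v ∈ E ∧ w = g * v * g⁻¹}

theorem vl_mul (χ : Chr G) (g h : G) : vl χ (g * h) = vl χ g + vl χ h := by
  simp [vl]

theorem vl_inv (χ : Chr G) (g : G) : vl χ g⁻¹ = -vl χ g := by
  simp [vl]

theorem Bs_conj (χ : Chr G) (E : Finset G) (s : ℤ) (g w : G) (hw : w ∈ Bs χ E s) :
    g * w * g⁻¹ ∈ Bs χ E (s + vl χ g) := by
  induction hw using Subgroup.closure_induction with
  | mem x hx =>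
    obtain ⟨k, v, hk, hv, rfl⟩ := hx
    refine Subgroup.subset_closure ⟨g * k, v, ?_, hv, by group⟩
    rw [vl_mul]
    omega
  | one => simp
  | mul x y _ _ hx hy =>
    have : g * (x * y) * g⁻¹ = (g * x * g⁻¹) * (g * y * g⁻¹) := by group
    rw [this]
    exact mul_mem hx hy
  | inv x _ hx =>
    have : g * x⁻¹ * g⁻¹ = (g * x * g⁻¹)⁻¹ := by group
    rw [this]
    exact inv_mem hx

theorem Bs_mono (χ : Chr G) (E : Finset G) {s s' : ℤ} (h : s' ≤ s) : Bs χ E s ≤ Bs χ E s' := by
  apply Subgroup.closure_mono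
  rintro w ⟨g, v, hg, hv, rfl⟩
  exact ⟨g, v, h.trans hg, hv, rfl⟩

theorem Bs_le (χ : Chr G) (E : Finset G) (hE : ∀ v ∈ E, v ∈ commutator G) (s : ℤ) :
    Bs χ E s ≤ commutator G := by
  rw [Bs, Subgroup.closure_le]
  rintro w ⟨g, v, _, hv, rfl⟩
  exact (inferInstance : (commutator G).Normal).conj_mem _ (hE v hv) g

theorem mem_some (χ : Chr G) (E : Finset G) (a : G)
    (ha : a ∈ Subgroup.normalClosure (E : Set G)) : ∃ s, a ∈ Bs χ E s := by
  rw [Subgroup.normalClosure] at ha
  induction ha using Subgroup.closure_induction with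
  | mem x hx =>
    obtain ⟨v, hv, hc⟩ := Group.mem_conjugatesOfSet_iff.1 hx
    obtain ⟨g, rfl⟩ := isConj_iff.1 hc
    exact ⟨vl χ g, Subgroup.subset_closure ⟨g, v, le_rfl, hv, rfl⟩⟩
  | one => exact ⟨0, one_mem _⟩
  | mul x y _ _ hx hy =>
    obtain ⟨s, hs⟩ := hx
    obtain ⟨s', hs'⟩ := hy
    exact ⟨min s s', mul_mem (Bs_mono χ E (min_le_left _ _) hs)
      (Bs_mono χ E (min_le_right _ _) hs')⟩
  | inv x _ hx =>
    obtain ⟨s, hs⟩ := hx
    exact ⟨s, inv_mem hs⟩

end PSI

open PSI in
theorem I_PSI (hFQ : StFQ) (hEXT : StEXT) : StPSI := by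
  classical
  intro G _ _ hm χ ⟨t, ht⟩ hNFG
  obtain ⟨E, hE, hEA⟩ := I_NC G
  -- the chain of subgroups
  have hB1A : Bs χ E (-1) ≤ commutator G := Bs_le χ E hE (-1)
  have hB0A : Bs χ E 0 ≤ commutator G := Bs_le χ E hE 0
  have hB01 : Bs χ E 0 ≤ Bs χ E (-1) := Bs_mono χ E (by norm_num)
  have hne : ∃ x ∈ Bs χ E (-1), x ∉ Bs χ E 0 := by
    by_contra hcon
    push Not at hcon
    have hstep : ∀ n : ℕ, Bs χ E (-(n : ℤ)) ≤ Bs χ E 0 := by
      intro n
      induction n with
      | zero => simp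
      | succ n ih =>
        intro x hx
        have h1 : t ^ n * x * (t ^ n)⁻¹ ∈ Bs χ E (-1) := by
          have h2 := Bs_conj χ E _ (t ^ n) x hx
          have h3 : vl χ (t ^ n) = n := by
            have : ∀ k : ℕ, vl χ (t ^ k) = k := by
              intro k
              induction k with
              | zero => simp [vl]
              | succ k ihk => rw [pow_succ, vl_mul, ihk, ht]; push_cast; ring
            exact this n
          have h4 : (-((n + 1 : ℕ) : ℤ)) + vl χ (t ^ n) = -1 := by rw [h3]; push_cast; ring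
          rwa [h4] at h2
        have h2 := Bs_conj χ E _ (t ^ n)⁻¹ _ (hcon _ h1)
        have h3 : vl χ (t ^ n)⁻¹ = -(n : ℤ) := by
          have : ∀ k : ℕ, vl χ (t ^ k) = k := by
            intro k
            induction k with
            | zero => simp [vl]
            | succ k ihk => rw [pow_succ, vl_mul, ihk, ht]; push_cast; ring
          rw [vl_inv, this]
        rw [h3, zero_add] at h2
        have h4 : (t ^ n)⁻¹ * (t ^ n * x * (t ^ n)⁻¹) * (t ^ n)⁻¹⁻¹ = x := by group
        rw [h4] at h2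
        exact ih h2
    obtain ⟨a, haA, ha⟩ := hNFG E hE
    apply ha
    obtain ⟨s, hs⟩ := mem_some χ E a (hEA haA)
    have h1 : a ∈ Bs χ E (-((-s).toNat : ℤ)) := Bs_mono χ E (by omega) hs
    exact hstep _ h1
  -- the module
  let N : Subgroup (Abelianization G) := (bch χ).ker
  have hN : ∀ g, Abelianization.of g ∈ N ↔ vl χ g = 0 := by
    intro g
    show Abelianization.of g ∈ (bch χ).ker ↔ _
    rw [MonoidHom.mem_ker, bch, Abelianization.lift_apply_of]
    exact Iff.rfl
  have _ : Group.FG (Abelianization G) :=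
    (inferInstance : Group.FG (G ⧸ commutator G))
  have _ : Group.FG N := fg_sub N
  have hc1 : ∀ g, Abelianization.of g ∈ N → ∀ w ∈ Bs χ E (-1), g * w * g⁻¹ ∈ Bs χ E (-1) := by
    intro g hg w hw
    have h := Bs_conj χ E _ g w hw
    rwa [(hN g).1 hg, add_zero] at h
  have hc0 : ∀ g, Abelianization.of g ∈ N → ∀ w ∈ Bs χ E 0, g * w * g⁻¹ ∈ Bs χ E 0 := by
    intro g hg w hw
    have h := Bs_conj χ E _ g w hw
    rwa [(hN g).1 hg, add_zero] at h
  obtain ⟨M, _, cls, act, hmul, hz, hsurj, hact⟩ := exM hm (Bs χ E (-1)) (Bs χ E 0) hB1A N hc1 hc0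
  have hone : cls 1 = 0 := (hz 1 (one_mem _)).2 (one_mem _)
  have hinv : ∀ w ∈ Bs χ E (-1), cls w⁻¹ = -cls w := by
    intro w hw
    have h := hmul w hw w⁻¹ (inv_mem hw)
    rw [mul_inv_cancel, hone] at h
    exact (neg_eq_of_add_eq_zero_right h.symm).symm
  have hEt : ∀ v ∈ E, t⁻¹ * v * t ∈ Bs χ E (-1) := by
    intro v hv
    refine Subgroup.subset_closure ⟨t⁻¹, v, ?_, hv, by group⟩
    rw [vl_inv, ht]
  have hgen : AddSubgroup.closure {x : M | ∃ n, ∃ e ∈ E.image (fun v => cls (t⁻¹ * v * t)),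
      x = act n e} = ⊤ := by
    rw [eq_top_iff]
    rintro m -
    obtain ⟨w, hw, rfl⟩ := hsurj m
    have key : ∀ w ∈ Bs χ E (-1), cls w ∈ AddSubgroup.closure {x : M | ∃ n,
        ∃ e ∈ E.image (fun v => cls (t⁻¹ * v * t)), x = act n e} := by
      intro w hw
      have hw' := hw
      induction hw using Subgroup.closure_induction with
      | mem x hx =>
        obtain ⟨g, v, hg, hv, rfl⟩ := hx
        by_cases h0 : 0 ≤ vl χ g
        · have h1 : g * v * g⁻¹ ∈ Bs χ E 0 := Subgroup.subset_closure ⟨g, v, h0, hv, rfl⟩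
          rw [(hz _ hw').2 h1]
          exact zero_mem _
        · have h1 : vl χ g = -1 := by omega
          have h2 : Abelianization.of (g * t) ∈ N := by
            rw [hN, vl_mul, h1, ht]
            rfl
          apply AddSubgroup.subset_closure
          refine ⟨⟨Abelianization.of (g * t), h2⟩, cls (t⁻¹ * v * t),
            Finset.mem_image.2 ⟨v, hv, rfl⟩, ?_⟩
          rw [hact _ h2 _ (hEt v hv)]
          congr 1
          group
      | one =>
        rw [hone]
        exact zero_mem _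
      | mul x y hx hy ihx ihy =>
        rw [hmul x hx y hy]
        exact add_mem (ihx hx) (ihy hy)
      | inv x hx ihx =>
        rw [hinv x hx]
        exact neg_mem (ihx hx)
    exact key w hw
  have hnt : Nontrivial M := by
    obtain ⟨x, hx, hx0⟩ := hne
    exact ⟨cls x, 0, fun h => hx0 ((hz x hx).1 h)⟩
  obtain ⟨U, hU, hUinv, hfin⟩ := hFQ N M act _ hgen hnt
  -- the character
  have hex : ∃ w0 : M, w0 ∉ U := by
    by_contra hcon
    push Not at hcon
    exact hU (eq_top_iff.2 fun x _ => hcon x)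
  obtain ⟨w0, hw0⟩ := hex
  have hv0 : (Multiplicative.ofAdd (QuotientAddGroup.mk w0 : M ⧸ U)) ≠ 1 := by
    intro h
    apply hw0
    have h1 : (QuotientAddGroup.mk w0 : M ⧸ U) = 0 := h
    exact (QuotientAddGroup.eq_zero_iff w0).1 h1
  obtain ⟨η, hη⟩ := CommGroup.exists_apply_ne_one_of_hasEnoughRootsOfUnity
    (Multiplicative (M ⧸ U)) ℂ hv0
  let _ : CommGroup (commutator G) := { (inferInstance : Group (commutator G)) with
    mul_comm := fun a b => Subtype.ext (hm a a.2 b b.2) }
  let H1 : AddSubgroup (Additive (commutator G)) :=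
    Subgroup.toAddSubgroup ((Bs χ E (-1)).subgroupOf (commutator G))
  have hH1 : ∀ u : H1, ((Additive.toMul (u : Additive (commutator G)) : commutator G) : G) ∈
      Bs χ E (-1) := fun u => u.2
  let f : Multiplicative H1 →* ℂˣ :=
    { toFun := fun u => η (Multiplicative.ofAdd (QuotientAddGroup.mk (cls
        ((Additive.toMul ((Multiplicative.toAdd u : H1) : Additive (commutator G)) :
          commutator G) : G)) : M ⧸ U))
      map_one' := by
        have : cls ((Additive.toMul ((Multiplicative.toAdd (1 : Multiplicative H1) : H1) :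
          Additive (commutator G)) : commutator G) : G) = 0 := hone
        rw [this]
        exact map_one η
      map_mul' := by
        intro u v
        have : cls ((Additive.toMul ((Multiplicative.toAdd (u * v) : H1) :
            Additive (commutator G)) : commutator G) : G) =
            cls ((Additive.toMul ((Multiplicative.toAdd u : H1) :
              Additive (commutator G)) : commutator G) : G) +
            cls ((Additive.toMul ((Multiplicative.toAdd v : H1) :
              Additive (commutator G)) : commutator G) : G) :=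
          hmul _ (hH1 _) _ (hH1 _)
        rw [this, ← map_mul]
        rfl }
  obtain ⟨F, hF⟩ := hEXT (Additive (commutator G)) H1 f
  let ψ : G → ℂ := fun g => if h : g ∈ commutator G then
    ((F (Multiplicative.ofAdd (Additive.ofMul (⟨g, h⟩ : commutator G))) : ℂˣ) : ℂ) else 1
  have hψ : ∀ g (h : g ∈ commutator G), ψ g =
      ((F (Multiplicative.ofAdd (Additive.ofMul (⟨g, h⟩ : commutator G))) : ℂˣ) : ℂ) :=
    fun g h => dif_pos h
  have hψ1 : ∀ w ∈ Bs χ E (-1), ψ w =
      ((η (Multiplicative.ofAdd (QuotientAddGroup.mk (cls w) : M ⧸ U)) : ℂˣ) : ℂ) := by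
    intro w hw
    rw [hψ w (hB1A hw)]
    have h1 := hF ⟨Additive.ofMul (⟨w, hB1A hw⟩ : commutator G), hw⟩
    exact congrArg Units.val h1
  have hψ0 : ∀ w ∈ Bs χ E 0, ψ w = 1 := by
    intro w hw
    rw [hψ1 w (hB01 hw), (hz w (hB01 hw)).2 hw]
    have : (Multiplicative.ofAdd (QuotientAddGroup.mk (0 : M) : M ⧸ U)) = 1 := rfl
    rw [this, map_one]
    rfl
  refine ⟨ψ, ?_, ?_, ?_, ?_⟩
  · intro a ha
    rw [hψ a ha]
    exact Units.ne_zero _
  · intro a ha b hb
    rw [hψ a ha, hψ b hb, hψ _ (mul_mem ha hb), ← Units.val_mul, ← map_mul]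
    rfl
  · intro a ha
    obtain ⟨s, hs⟩ := mem_some χ E a (hEA ha)
    refine ⟨-s, fun g hg => hψ0 _ ?_⟩
    exact Bs_mono χ E (by omega) (Bs_conj χ E s g a hs)
  · -- the finite set
    have hav0 : ∀ v : M ⧸ U, ∃ w : G, w ∈ Bs χ E (-1) ∧
        (QuotientAddGroup.mk (cls w) : M ⧸ U) = v := by
      intro v
      obtain ⟨m, hm'⟩ := QuotientAddGroup.mk_surjective v
      obtain ⟨w, hw, hwm⟩ := hsurj m
      exact ⟨w, hw, by rw [hwm]; exact hm'⟩
    choose av hav hav' using hav0
    have _ := Fintype.ofFinite (M ⧸ U)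
    refine ⟨Finset.univ.image (fun v : M ⧸ U => t * av v * t⁻¹), ?_, ?_⟩
    · intro x hx
      obtain ⟨v, _, rfl⟩ := Finset.mem_image.1 hx
      exact (inferInstance : (commutator G).Normal).conj_mem _ (hB1A (hav v)) t
    · intro g hg
      have h2 : Abelianization.of (g * t) ∈ N := by
        rw [hN, vl_mul, hg, ht]
        rfl
      have h2' : Abelianization.of (g * t)⁻¹ ∈ N := by
        rw [map_inv]
        exact inv_mem h2
      obtain ⟨b, hb, hb0⟩ := hsurj w0
      -- the class of the conjugate of `b`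
      have hcb : (g * t)⁻¹ * b * (g * t)⁻¹⁻¹ ∈ Bs χ E (-1) := hc1 _ h2' b hb
      set v : M ⧸ U := QuotientAddGroup.mk (cls ((g * t)⁻¹ * b * (g * t)⁻¹⁻¹)) with hv
      refine ⟨t * av v * t⁻¹, Finset.mem_image.2 ⟨v, Finset.mem_univ _, rfl⟩, ?_⟩
      have e1 : g * (t * av v * t⁻¹) * g⁻¹ = (g * t) * av v * (g * t)⁻¹ := by group
      rw [e1, hψ1 _ (hc1 _ h2 _ (hav v))]
      have e2 : (QuotientAddGroup.mk (cls (g * t * av v * (g * t)⁻¹)) : M ⧸ U) =
          QuotientAddGroup.mk w0 := by
        rw [QuotientAddGroup.eq]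
        have h3 : -cls (av v) + cls ((g * t)⁻¹ * b * (g * t)⁻¹⁻¹) ∈ U := by
          rw [← QuotientAddGroup.eq]
          exact (hav' v).trans hv
        have h4 := hUinv ⟨Abelianization.of (g * t), h2⟩ _ h3
        rw [map_add, map_neg, hact _ h2 _ (hav v), hact _ h2 _ hcb] at h4
        have h5 : g * t * ((g * t)⁻¹ * b * (g * t)⁻¹⁻¹) * (g * t)⁻¹ = b := by group
        rw [h5, hb0] at h4
        exact h4
      rw [e2]
      intro h6
      exact hη (Units.ext h6)

end Pool.Agent.Work.MP_e9e200_al.LC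

end

section

/-!
# Project LC, part 2: existence of a push map and a homotopy
-/

set_option autoImplicit false

namespace Pool.Agent.Work.MP_e9e200_al.LC

open Finsupp

namespace PU

section general

variable {k : Type} [CommRing k]

lemma map_mem {α M : Type} [AddCommGroup M] [Module k M] (f : (α →₀ k) →ₗ[k] M) {s : Set α}
    {N : Submodule k M} (h : ∀ p ∈ s, f (single p 1) ∈ N) {x : α →₀ k}
    (hx : x ∈ Finsupp.supported k k s) : f x ∈ N := by
  rw [Finsupp.supported_eq_span_single] at hx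
  have h1 : Submodule.span k ((fun i => single i (1 : k)) '' s) ≤ N.comap f := by
    rw [Submodule.span_le]
    rintro _ ⟨p, hp, rfl⟩
    exact h p hp
  exact h1 hx

lemma eq_on {α M : Type} [AddCommGroup M] [Module k M] (f g : (α →₀ k) →ₗ[k] M) {s : Set α}
    (h : ∀ p ∈ s, f (single p 1) = g (single p 1)) {x : α →₀ k}
    (hx : x ∈ Finsupp.supported k k s) : f x = g x := by
  have := map_mem (f - g) (N := ⊥) (fun p hp => by
    rw [Submodule.mem_bot, LinearMap.sub_apply, h p hp, sub_self]) hx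
  rw [Submodule.mem_bot, LinearMap.sub_apply] at this
  exact sub_eq_zero.mp this

variable {G B B' : Type} [Group G]

lemma tr_single (h : G) (p : G × B) (c : k) : tr k h (single p c) = single (h * p.1, p.2) c := by
  unfold tr
  rw [Finsupp.lmapDomain_apply, Finsupp.mapDomain_single]

lemma tr_mul (g h : G) (x : G × B →₀ k) : tr k (g * h) x = tr k g (tr k h x) := by
  have : tr k (g * h) = (tr k g) ∘ₗ (tr k h : (G × B →₀ k) →ₗ[k] (G × B →₀ k)) := by
    refine Finsupp.lhom_ext fun p c => ?_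
    rw [LinearMap.comp_apply, tr_single, tr_single, tr_single, mul_assoc]
  rw [this]; rfl

lemma tr_one (x : G × B →₀ k) : tr k (1 : G) x = x := by
  have : tr k (1 : G) = (LinearMap.id : (G × B →₀ k) →ₗ[k] (G × B →₀ k)) := by
    refine Finsupp.lhom_ext fun p c => ?_
    rw [tr_single, one_mul]; rfl
  rw [this]; rfl

lemma ext_single (u : B → (G × B' →₀ k)) (p : G × B) (c : k) :
    ext k u (single p c) = c • tr k p.1 (u p.2) := by
  unfold ext
  rw [Finsupp.linearCombination_single]

lemma ext_single_one (u : B → (G × B' →₀ k)) (p : G × B) :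
    ext k u (single p 1) = tr k p.1 (u p.2) := by
  rw [ext_single, one_smul]

lemma aug_single (e : B → k) (p : G × B) (c : k) : aug k e (single p c) = c * e p.2 := by
  unfold aug
  rw [Finsupp.linearCombination_single, smul_eq_mul]

lemma ext_tr (u : B → (G × B' →₀ k)) (g : G) (x : G × B →₀ k) :
    ext k u (tr k g x) = tr k g (ext k u x) := by
  have : (ext k u) ∘ₗ (tr k g) = (tr k g) ∘ₗ (ext k u) := by
    refine Finsupp.lhom_ext fun p c => ?_
    rw [LinearMap.comp_apply, LinearMap.comp_apply, tr_single, ext_single, ext_single, map_smul,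
      tr_mul]
  exact LinearMap.congr_fun this x

lemma aug_tr (e : B → k) (g : G) (x : G × B →₀ k) : aug k e (tr k g x) = aug k e x := by
  have : (aug k e) ∘ₗ (tr k g) = aug k e := by
    refine Finsupp.lhom_ext fun p c => ?_
    rw [LinearMap.comp_apply, tr_single, aug_single, aug_single]
  exact LinearMap.congr_fun this x

lemma ext_congr {u u' : B → (G × B' →₀ k)} {P : B → Prop} (h : ∀ b, P b → u b = u' b)
    {x : G × B →₀ k} (hx : x ∈ Finsupp.supported k k {p : G × B | P p.2}) :
    ext k u x = ext k u' x :=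
  eq_on _ _ (fun p hp => by rw [ext_single_one, ext_single_one, h _ hp]) hx

lemma mono_supp {s t : Set (G × B)} (h : s ⊆ t) {x : G × B →₀ k}
    (hx : x ∈ Finsupp.supported k k s) : x ∈ Finsupp.supported k k t :=
  Finsupp.supported_mono h hx

lemma tr_supp {χ : Additive G →+ ℝ} {t : ℝ} {P : B → Prop} (g : G) {x : G × B →₀ k}
    (hx : x ∈ Finsupp.supported k k {p : G × B | p.1 ∈ hs χ t ∧ P p.2}) :
    tr k g x ∈ Finsupp.supported k k
      {p : G × B | p.1 ∈ hs χ (χ (Additive.ofMul g) + t) ∧ P p.2} := by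
  refine map_mem _ (fun p hp => ?_) hx
  rw [tr_single]
  refine Finsupp.single_mem_supported _ _ ⟨?_, hp.2⟩
  show χ (Additive.ofMul g) + t ≤ χ (Additive.ofMul (g * p.1))
  rw [ofMul_mul, map_add]
  have : t ≤ χ (Additive.ofMul p.1) := hp.1
  linarith

lemma ext_supp {χ : Additive G →+ ℝ} {s t : ℝ} {P : B → Prop} {Q : B' → Prop}
    {u : B → (G × B' →₀ k)}
    (hu : ∀ b, P b → u b ∈ Finsupp.supported k k {p : G × B' | p.1 ∈ hs χ t ∧ Q p.2})
    {x : G × B →₀ k} (hx : x ∈ Finsupp.supported k k {p : G × B | p.1 ∈ hs χ s ∧ P p.2}) :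
    ext k u x ∈ Finsupp.supported k k {p : G × B' | p.1 ∈ hs χ (s + t) ∧ Q p.2} := by
  refine map_mem _ (fun p hp => ?_) hx
  rw [ext_single_one]
  refine mono_supp ?_ (tr_supp p.1 (hu _ hp.2))
  rintro q ⟨h1, h2⟩
  refine ⟨?_, h2⟩
  have h3 : s ≤ χ (Additive.ofMul p.1) := hp.1
  have h4 : χ (Additive.ofMul p.1) + t ≤ χ (Additive.ofMul q.1) := h1
  show s + t ≤ χ (Additive.ofMul q.1)
  linarith

/-- commutation on a set of cells -/
lemma ext_ext {db : B → (G × B →₀ k)} {ph : B → (G × B →₀ k)} {P : B → Prop}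
    (h : ∀ b, P b → ext k db (ph b) = ext k ph (db b))
    {x : G × B →₀ k} (hx : x ∈ Finsupp.supported k k {p : G × B | P p.2}) :
    ext k db (ext k ph x) = ext k ph (ext k db x) :=
  eq_on ((ext k db) ∘ₗ (ext k ph)) ((ext k ph) ∘ₗ (ext k db)) (fun p hp => by
    rw [LinearMap.comp_apply, LinearMap.comp_apply, ext_single_one, ext_single_one, ext_tr, ext_tr,
      h _ hp]) hx

lemma aug_ext {e e' : B → k} {u : B → (G × B →₀ k)} {P : B → Prop}
    (h : ∀ b, P b → aug k e (u b) = e' b)
    {x : G × B →₀ k} (hx : x ∈ Finsupp.supported k k {p : G × B | P p.2}) :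
    aug k e (ext k u x) = aug k e' x :=
  eq_on ((aug k e) ∘ₗ (ext k u)) (aug k e') (fun p hp => by
    rw [LinearMap.comp_apply, ext_single_one, aug_tr, h _ hp, aug_single, one_mul]) hx

end general

section main

variable {G : Type} [Group G] {χ : Additive G →+ ℝ} {m : ℕ} {B : Type} {deg : B → ℕ}
  {db : B → (G × B →₀ ℂ)} {eb : B → ℂ}

lemma aug_zero (hR : PRes ℂ (hs χ 0) m B deg db eb) {x : G × B →₀ ℂ}
    (hx : x ∈ Finsupp.supported ℂ ℂ {p : G × B | deg p.2 ≠ 0}) : aug ℂ eb x = 0 :=
  eq_on (aug ℂ eb) 0 (fun p hp => by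
    rw [aug_single, hR.eb_deg _ hp, mul_zero]; rfl) hx

lemma db_zero (hR : PRes ℂ (hs χ 0) m B deg db eb) {b : B} (hb : deg b = 0) : db b = 0 := by
  have h := hR.db_sup b
  have he : {p : G × B | p.1 ∈ hs χ 0 ∧ deg p.2 + 1 = deg b} = ∅ := by
    ext p
    simp only [Set.mem_ofPred_eq, Set.mem_empty_iff_false, iff_false]
    rintro ⟨-, h⟩
    omega
  rw [he, Finsupp.supported_empty] at h
  exact h

/-- exactness in a translated region -/
lemma exact_tr (hR : PRes ℂ (hs χ 0) m B deg db eb) (q : G) {d : ℕ} (hd : d < m)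
    {x : G × B →₀ ℂ}
    (hx : x ∈ Finsupp.supported ℂ ℂ
      {p : G × B | p.1 ∈ hs χ (χ (Additive.ofMul q)) ∧ deg p.2 = d})
    (h1 : ext ℂ db x = 0) (h2 : aug ℂ eb x = 0) :
    ∃ y ∈ Finsupp.supported ℂ ℂ
      {p : G × B | p.1 ∈ hs χ (χ (Additive.ofMul q)) ∧ deg p.2 = d + 1}, ext ℂ db y = x := by
  have h3 := tr_supp (P := fun b => deg b = d) q⁻¹ hx
  have e : χ (Additive.ofMul q⁻¹) + χ (Additive.ofMul q) = 0 := by
    rw [← map_add, ← ofMul_mul, inv_mul_cancel, ofMul_one, map_zero]
  rw [e] at h3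
  obtain ⟨y, hy, hy2⟩ := hR.exact d hd _ h3 (by rw [ext_tr, h1, map_zero]) (by rw [aug_tr, h2])
  refine ⟨tr ℂ q y, ?_, ?_⟩
  · have := tr_supp (P := fun b => deg b = d + 1) q hy
    rwa [add_zero] at this
  · rw [ext_tr, hy2, ← tr_mul, mul_inv_cancel, tr_one]

lemma exists_ph (hR : PRes ℂ (hs χ 0) m B deg db eb) (q : G) (n : ℕ) : n ≤ m →
    ∃ ph : B → (G × B →₀ ℂ),
      (∀ b, ph b ∈ Finsupp.supported ℂ ℂ
        {p : G × B | p.1 ∈ hs χ (χ (Additive.ofMul q)) ∧ deg p.2 = deg b}) ∧
      (∀ b, deg b ≤ n → ext ℂ db (ph b) = ext ℂ ph (db b)) ∧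
      ∀ b, deg b ≤ n → aug ℂ eb (ph b) = eb b := by
  classical
  induction n with
  | zero =>
    intro _
    obtain ⟨x0, hx0, hx1⟩ := hR.surj
    refine ⟨fun b => if deg b = 0 then eb b • tr ℂ q x0 else 0, ?_, ?_, ?_⟩
    · intro b
      beta_reduce
      split_ifs with h
      · refine Submodule.smul_mem _ _ ?_
        have := tr_supp (P := fun b => deg b = 0) q hx0
        rw [add_zero] at this
        rwa [h]
      · exact Submodule.zero_mem _
    · intro b hb
      have hb0 : deg b = 0 := by omega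
      simp only [hb0, if_true, db_zero hR hb0, map_zero, map_smul, ext_tr]
      have : ext ℂ db x0 = 0 :=
        eq_on (ext ℂ db) 0 (fun p hp => by
          rw [ext_single_one, db_zero hR hp.2, map_zero]; rfl) hx0
      rw [this, map_zero, smul_zero]
    · intro b hb
      have hb0 : deg b = 0 := by omega
      simp only [hb0, if_true, map_smul, aug_tr, hx1, smul_eq_mul, mul_one]
  | succ n ih =>
    intro hn
    obtain ⟨ph, h1, h2, h3⟩ := ih (by omega)
    have hex : ∀ b, ∃ y : G × B →₀ ℂ, deg b = n + 1 →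
        y ∈ Finsupp.supported ℂ ℂ
          {p : G × B | p.1 ∈ hs χ (χ (Additive.ofMul q)) ∧ deg p.2 = n + 1} ∧
        ext ℂ db y = ext ℂ ph (db b) := by
      intro b
      by_cases hb : deg b = n + 1
      · have hs1 : db b ∈ Finsupp.supported ℂ ℂ {p : G × B | p.1 ∈ hs χ 0 ∧ deg p.2 = n} :=
          by
            refine mono_supp ?_ (hR.db_sup b)
            intro p hp
            exact ⟨hp.1, by have := hp.2; omega⟩
        have hs2 : db b ∈ Finsupp.supported ℂ ℂ {p : G × B | deg p.2 ≤ n} :=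
          mono_supp (fun p hp => le_of_eq hp.2) hs1
        have hz : ext ℂ ph (db b) ∈ Finsupp.supported ℂ ℂ
            {p : G × B | p.1 ∈ hs χ (χ (Additive.ofMul q)) ∧ deg p.2 = n} := by
          have := ext_supp (P := fun b => deg b = n) (Q := fun b => deg b = n)
            (t := χ (Additive.ofMul q)) (u := ph) (fun b hb => by
              have := h1 b
              rwa [hb] at this) hs1
          rwa [zero_add] at this
        obtain ⟨y, hy1, hy2⟩ := exact_tr hR q (by omega) hz
          (by rw [ext_ext (P := fun b => deg b ≤ n) h2 hs2, hR.dd, map_zero])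
          (by rw [aug_ext (P := fun b => deg b ≤ n) h3 hs2, hR.ed])
        exact ⟨y, fun _ => ⟨hy1, hy2⟩⟩
      · exact ⟨0, fun h => absurd h hb⟩
    choose y hy using hex
    refine ⟨fun b => if deg b = n + 1 then y b else ph b, ?_, ?_, ?_⟩
    · intro b
      beta_reduce
      split_ifs with h
      · have := (hy b h).1
        rwa [← h] at this
      · exact h1 b
    · intro b hb
      have hs2 : db b ∈ Finsupp.supported ℂ ℂ {p : G × B | deg p.2 ≤ n} :=
        mono_supp (fun p hp => by have := hp.2; show deg p.2 ≤ n; omega) (hR.db_sup b)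
      have hc : ext ℂ (fun b => if deg b = n + 1 then y b else ph b) (db b) =
          ext ℂ ph (db b) :=
        ext_congr (P := fun b => deg b ≤ n) (fun b' hb' => by
          rw [if_neg (by omega)]) hs2
      rw [hc]
      by_cases h : deg b = n + 1
      · simp only [h, if_true]
        exact (hy b h).2
      · simp only [h, if_false]
        exact h2 b (by omega)
    · intro b hb
      by_cases h : deg b = n + 1
      · simp only [h, if_true]
        rw [hR.eb_deg b (by omega)]
        refine aug_zero hR (mono_supp ?_ (hy b h).1)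
        intro p hp
        have := hp.2
        show deg p.2 ≠ 0
        omega
      · simp only [h, if_false]
        exact h3 b (by omega)

lemma exists_hh (hR : PRes ℂ (hs χ 0) m B deg db eb) {ρ : ℝ} (hρ : 0 ≤ ρ)
    {ph : B → (G × B →₀ ℂ)}
    (hp1 : ∀ b, ph b ∈ Finsupp.supported ℂ ℂ {p : G × B | p.1 ∈ hs χ ρ ∧ deg p.2 = deg b})
    (hp2 : ∀ b, ext ℂ db (ph b) = ext ℂ ph (db b)) (hp3 : ∀ b, aug ℂ eb (ph b) = eb b)
    (n : ℕ) : n ≤ m → ∃ hh : B → (G × B →₀ ℂ),
      (∀ b, hh b ∈ Finsupp.supported ℂ ℂ {p : G × B | p.1 ∈ hs χ 0 ∧ deg p.2 = deg b + 1}) ∧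
      ∀ b, deg b < n → ext ℂ db (hh b) + ext ℂ hh (db b) = single (1, b) 1 - ph b := by
  classical
  induction n with
  | zero =>
    intro _
    exact ⟨fun _ => 0, fun b => Submodule.zero_mem _, fun b hb => absurd hb (Nat.not_lt_zero _)⟩
  | succ n ih =>
    intro hn
    obtain ⟨hh, h1, h2⟩ := ih (by omega)
    have hex : ∀ b, ∃ y : G × B →₀ ℂ, deg b = n →
        y ∈ Finsupp.supported ℂ ℂ {p : G × B | p.1 ∈ hs χ 0 ∧ deg p.2 = n + 1} ∧
        ext ℂ db y = single (1, b) 1 - ph b - ext ℂ hh (db b) := by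
      intro b
      by_cases hb : deg b = n
      · have hs2 : db b ∈ Finsupp.supported ℂ ℂ {p : G × B | deg p.2 < n} :=
          mono_supp (fun p hp => by have := hp.2; show deg p.2 < n; omega) (hR.db_sup b)
        have hsup : single (1, b) 1 - ph b - ext ℂ hh (db b) ∈ Finsupp.supported ℂ ℂ
            {p : G × B | p.1 ∈ hs χ 0 ∧ deg p.2 = n} := by
          refine Submodule.sub_mem _ (Submodule.sub_mem _ ?_ ?_) ?_
          · refine Finsupp.single_mem_supported _ _ ⟨?_, hb⟩
            show (0 : ℝ) ≤ χ (Additive.ofMul 1)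
            rw [ofMul_one, map_zero]
          · refine mono_supp ?_ (hp1 b)
            rintro p ⟨h3, h4⟩
            refine ⟨?_, h4.trans hb⟩
            have h5 : ρ ≤ χ (Additive.ofMul p.1) := h3
            show (0 : ℝ) ≤ χ (Additive.ofMul p.1)
            linarith
          · have hs1 : db b ∈ Finsupp.supported ℂ ℂ
                {p : G × B | p.1 ∈ hs χ 0 ∧ deg p.2 + 1 = n} :=
              by
                refine mono_supp ?_ (hR.db_sup b)
                intro p hp
                exact ⟨hp.1, by have := hp.2; omega⟩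
            have := ext_supp (P := fun b => deg b + 1 = n) (Q := fun b => deg b = n)
              (t := 0) (u := hh) (fun b hb => by
                have := h1 b
                rwa [hb] at this) hs1
            rwa [zero_add] at this
        have hkey : ext ℂ db (ext ℂ hh (db b)) + ext ℂ hh (ext ℂ db (db b)) =
            db b - ext ℂ ph (db b) :=
          eq_on ((ext ℂ db) ∘ₗ (ext ℂ hh) + (ext ℂ hh) ∘ₗ (ext ℂ db))
            (LinearMap.id - ext ℂ ph) (fun p hp => by
              rw [LinearMap.add_apply, LinearMap.comp_apply, LinearMap.comp_apply,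
                LinearMap.sub_apply, LinearMap.id_apply, ext_single_one, ext_single_one,
                ext_single_one, ext_tr, ext_tr, ← map_add, h2 _ hp, map_sub, tr_single, mul_one])
            hs2
        rw [hR.dd, map_zero, add_zero] at hkey
        have hsing : ext ℂ db (single (1, b) 1) = db b := by
          rw [ext_single_one, tr_one]
        have haug : aug ℂ eb (ext ℂ hh (db b)) = 0 := by
          have h5 := aug_ext (e := eb) (e' := fun _ => 0) (P := fun _ => True) (u := hh)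
            (fun b' _ => aug_zero hR (mono_supp (fun p hp => by
              have := hp.2
              show deg p.2 ≠ 0
              omega) (h1 b'))) (x := db b) (mono_supp (fun p _ => trivial) (hR.db_sup b))
          rw [h5]
          exact eq_on (aug ℂ (fun _ : B => (0 : ℂ))) 0 (fun p _ => by
            rw [aug_single, mul_zero]; rfl) (hR.db_sup b)
        obtain ⟨y, hy1, hy2⟩ := hR.exact n (by omega) _ hsup
          (by rw [map_sub, map_sub, hsing, hp2, hkey]; abel)
          (by rw [map_sub, map_sub, haug, hp3, aug_single]; simp)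
        exact ⟨y, fun _ => ⟨hy1, hy2⟩⟩
      · exact ⟨0, fun h => absurd h hb⟩
    choose y hy using hex
    refine ⟨fun b => if deg b = n then y b else hh b, ?_, ?_⟩
    · intro b
      beta_reduce
      split_ifs with h
      · have := (hy b h).1
        rwa [← h] at this
      · exact h1 b
    · intro b hb
      have hs2 : db b ∈ Finsupp.supported ℂ ℂ {p : G × B | deg p.2 < n} :=
        mono_supp (fun p hp => by have := hp.2; show deg p.2 < n; omega) (hR.db_sup b)
      have hc : ext ℂ (fun b => if deg b = n then y b else hh b) (db b) =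
          ext ℂ hh (db b) :=
        ext_congr (P := fun b => deg b < n) (fun b' hb' => by
          rw [if_neg (by omega)]) hs2
      rw [hc]
      by_cases h : deg b = n
      · simp only [h, if_true]
        rw [(hy b h).2]
        abel
      · simp only [h, if_false]
        exact h2 b (by omega)

end main

end PU

open PU in
theorem I_PU : StPU := by
  intro G _ χ hχ m B deg db eb hR
  obtain ⟨q, hq⟩ : ∃ q : G, 0 < χ (Additive.ofMul q) := by
    by_contra hcon
    push Not at hcon
    apply hχ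
    ext g
    have h1 := hcon (Additive.toMul g)
    have h2 := hcon (Additive.toMul g)⁻¹
    rw [ofMul_inv, map_neg] at h2
    have h3 : χ g ≤ 0 := h1
    have h4 : -χ g ≤ 0 := h2
    show χ g = 0
    linarith
  obtain ⟨ph, h1, h2, h3⟩ := exists_ph hR q m le_rfl
  have h2' : ∀ b, ext ℂ db (ph b) = ext ℂ ph (db b) := fun b => h2 b (hR.le b)
  have h3' : ∀ b, aug ℂ eb (ph b) = eb b := fun b => h3 b (hR.le b)
  obtain ⟨hh, h4, h5⟩ := exists_hh hR hq.le h1 h2' h3' m le_rfl
  exact ⟨χ (Additive.ofMul q), ph, hh, hq, h1, h4, h2', h3', h5⟩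

end Pool.Agent.Work.MP_e9e200_al.LC

end
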