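import Pool.Agent.Work.MP_e9e200_al.Bd.B03
import Pool.Agent.Work.MP_e9e200_al.Bd.B12
import Pool.Agent.Work.MP_e9e200_al.Bd.B04

/-! Bundle of small proof modules (one section per former module). -/

section

/-!
# Project UP: statements, blocks F, G, A, H

Each `def StXXX : Prop` is to be proved as `theorem I_XXX : StXXX` in `UP/P_XXX.lean`.
-/

set_option autoImplicit false

namespace Pool.Agent.Work.MP_e9e200_al.UP

open Finsupp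

/-! ### Block F: finiteness properties of modules -/

/-- F0: finitely generated modules -/
def StF0 : Prop := ∀ (R : Type) [Ring R] (M : Type) [AddCommGroup M] [Module R M],
  Module.Finite R M → IsFP R M 0

/-- F1: shifting -/
def StF1 : Prop := ∀ (R : Type) [Ring R] (F M : Type) [AddCommGroup F] [Module R F]
  [AddCommGroup M] [Module R M] (f : F →ₗ[R] M) (j : ℕ), Module.Projective R F →
  Module.Finite R F → Function.Surjective f → IsFP R (LinearMap.ker f) j → IsFP R M (j + 1)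

/-- F2: extensions -/
def StF2 : Prop := ∀ (R : Type) [Ring R] (M' M M'' : Type) [AddCommGroup M'] [Module R M']
  [AddCommGroup M] [Module R M] [AddCommGroup M''] [Module R M''] (f : M' →ₗ[R] M)
  (g : M →ₗ[R] M'') (j : ℕ), Function.Injective f → Function.Exact f g → Function.Surjective g →
  IsFP R M' j → IsFP R M'' j → IsFP R M j

/-- F3: quotients (uses Unsh, F0, F1, F2) -/
def StF3 : Prop := ∀ (R : Type) [Ring R] (M' M M'' : Type) [AddCommGroup M'] [Module R M']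
  [AddCommGroup M] [Module R M] [AddCommGroup M''] [Module R M''] (f : M' →ₗ[R] M)
  (g : M →ₗ[R] M'') (j : ℕ), Function.Injective f → Function.Exact f g → Function.Surjective g →
  IsFP R M' j → IsFP R M (j + 1) → IsFP R M'' (j + 1)

/-- F4: finite products (uses F2) -/
def StF4 : Prop := ∀ (R : Type) [Ring R] (n : ℕ) (M : Fin n → Type) [∀ b, AddCommGroup (M b)]
  [∀ b, Module R (M b)] (j : ℕ), (∀ b, IsFP R (M b) j) → IsFP R (∀ b, M b) j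

/-- F5: partial resolutions by modules of type `FP` (uses F0, F3) -/
def StF5 : Prop := ∀ (R : Type) [Ring R] (C : ℕ → Type) [∀ i, AddCommGroup (C i)]
  [∀ i, Module R (C i)] (d : ∀ i, C (i + 1) →ₗ[R] C i) (M : Type) [AddCommGroup M] [Module R M]
  (ε : C 0 →ₗ[R] M) (m : ℕ), (∀ i ≤ m, IsFP R (C i) (m - i)) → Function.Surjective ε →
  (0 < m → Function.Exact (d 0) ε) → (∀ i, i + 1 < m → Function.Exact (d (i + 1)) (d i)) →
    IsFP R M m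

/-- F6: induced modules (uses F0, F1, F2, F3 or an explicit resolution) -/
def StF6 : Prop := ∀ (G : Type) [Group G] (S : Submonoid G) (N : Subgroup G), (∀ n ∈ N, n ∈ S) →
  N.FG → (∀ a ∈ N, ∀ b ∈ N, a * b = b * a) → ∀ j : ℕ,
    IsFP (MonoidAlgebra ℤ S) (MonoidAlgebra ℤ S ⧸ KS S N) j

/-- F7: from exactness at large levels to type `FP_m` (uses F4, F5, F6, KS2, KS3) -/
def StF7 : Prop := ∀ (G : Type) [Group G], Metab G → ∀ (D : Type) [Fintype D] (L : Lev G D),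
  L.Good → (∀ E, (L.N E).FG) → ∀ (n : ℕ → ℕ) (δ : ∀ j, Fin (n j) → D → ℤ)
  (M : ∀ j, Fin (n (j + 1)) → Fin (n j) → MonoidAlgebra ℤ L.QS),
  FRes (fun i (q : L.QS) => L.χ i q) n δ M → ∀ m : ℕ,
  (∃ t0 : ℕ, ∀ t : ℕ, t0 ≤ t → ∀ i < m, ∀ x : Fin (n i) → MonoidAlgebra ℤ L.S,
    L.LCyc δ M t i x → (i = 0 → ∑ b, aug L.S (x b) = 0) → L.LBd δ M t i x) →
    IsFP (MonoidAlgebra ℤ L.S) (Triv L.S) m

/-! ### Block G: change of the monoid -/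

/-- G1: the push map -/
def StG1 : Prop := ∀ (G : Type) [Group G] (S : Submonoid G), (∀ g, ∀ s ∈ S, g * s * g⁻¹ ∈ S) →
  ∀ h ∈ S, ∀ (m : ℕ) (B : Type) (deg : B → ℕ) (db : B → (G × B →₀ ℤ)) (eb : B → ℤ),
  LC.PRes ℤ (S : Set G) m B deg db eb → ∃ ph hh : B → (G × B →₀ ℤ),
    (∀ b, ph b ∈ Finsupp.supported ℤ ℤ {p : G × B | h⁻¹ * p.1 ∈ S ∧ deg p.2 = deg b}) ∧
    (∀ b, hh b ∈ Finsupp.supported ℤ ℤ {p : G × B | p.1 ∈ S ∧ deg p.2 = deg b + 1}) ∧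
    (∀ b, LC.ext ℤ db (ph b) = LC.ext ℤ ph (db b)) ∧ (∀ b, LC.aug ℤ eb (ph b) = eb b) ∧
    ∀ b, deg b < m →
      LC.ext ℤ db (hh b) + LC.ext ℤ hh (db b) = single ((1 : G), b) (1 : ℤ) - ph b

/-- G2: from the monoid `S` to the monoid `v ≥ 0` (uses G1) -/
def StG2 : Prop := ∀ (G : Type) [Group G] (S : Submonoid G), (∀ g, ∀ s ∈ S, g * s * g⁻¹ ∈ S) →
  ∀ (v : Additive G →+ ℝ), (∀ s ∈ S, 0 ≤ v (Additive.ofMul s)) → ∀ h ∈ S,
  0 < v (Additive.ofMul h) → (∀ g, ∃ N : ℕ, h ^ N * g ∈ S) →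
  ∀ (m : ℕ) (B : Type) [Finite B] (deg : B → ℕ) (db : B → (G × B →₀ ℤ)) (eb : B → ℤ),
  LC.PRes ℤ (S : Set G) m B deg db eb →
    LC.PRes ℤ {g : G | 0 ≤ v (Additive.ofMul g)} m B deg db eb

/-- G3: from a based partial resolution to type `FP_m` -/
def StG3 : Prop := ∀ (G : Type) [Group G] (S : Submonoid G) (m : ℕ) (B : Type) [Finite B]
  (deg : B → ℕ) (db : B → (G × B →₀ ℤ)) (eb : B → ℤ), LC.PRes ℤ (S : Set G) m B deg db eb →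
    IsFP (MonoidAlgebra ℤ S) (Triv S) m

/-! ### Block A: geometry -/

/-- integer vectors in the Euclidean space -/
noncomputable def rv {n : ℕ} (k : Fin n → ℤ) : EuclideanSpace ℝ (Fin n) :=
  WithLp.toLp 2 (fun i => (k i : ℝ))

/-- the dot product of integer vectors -/
def dt {n : ℕ} (a b : Fin n → ℤ) : ℤ := ∑ i, a i * b i

/-- the unit vector in the direction of `x` -/
noncomputable def un {E : Type} [NormedAddCommGroup E] [NormedSpace ℝ E] (x : E) : E :=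
  ‖x‖⁻¹ • x

/-- the module `M` is not finitely generated over the monoid `x ≥ 0` -/
def BadE {Q : Type} [CommGroup Q] (M : Type) [AddCommGroup M] [Module (MonoidAlgebra ℤ Q) M]
    {n : ℕ} (κ : Q → Fin n → ℤ) (x : EuclideanSpace ℝ (Fin n)) : Prop :=
  x ≠ 0 ∧ ∀ V : Finset M, ∃ y : M, y ∉ AddSubgroup.closure {w | ∃ q : Q, ∃ t ∈ V,
    0 ≤ inner ℝ x (rv (κ q)) ∧ w = MonoidAlgebra.of ℤ Q q • t}

/-- the same for real characters -/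
def BadC {Q : Type} [CommGroup Q] (M : Type) [AddCommGroup M] [Module (MonoidAlgebra ℤ Q) M]
    (γ : Additive Q →+ ℝ) : Prop :=
  γ ≠ 0 ∧ ∀ V : Finset M, ∃ y : M, y ∉ AddSubgroup.closure {w | ∃ q : Q, ∃ t ∈ V,
    0 ≤ γ (Additive.ofMul q) ∧ w = MonoidAlgebra.of ℤ Q q • t}

/-- A1: coordinates -/
def StA1 : Prop := ∀ (Q : Type) [CommGroup Q] [Group.FG Q], ∃ (n : ℕ) (κ : Q → Fin n → ℤ),
  (∀ a b, κ (a * b) = κ a + κ b) ∧ Function.Surjective κ ∧ {q | κ q = 0}.Finite ∧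
  ∀ v : Additive Q →+ ℝ, ∃ x : EuclideanSpace ℝ (Fin n),
    ∀ q, v (Additive.ofMul q) = inner ℝ x (rv (κ q))

/-- A2: finite generation in the positive direction -/
def StA2 : Prop := ∀ (Q : Type) [CommGroup Q] (M : Type) [AddCommGroup M]
  [Module (MonoidAlgebra ℤ Q) M] (n : ℕ) (κ : Q → Fin n → ℤ), (∀ a b, κ (a * b) = κ a + κ b) →
  Function.Surjective κ → ∀ T : Finset M,
  (∀ x : M, x ∈ AddSubgroup.closure {w | ∃ q : Q, ∃ t ∈ T, w = MonoidAlgebra.of ℤ Q q • t}) →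
  ∀ x : EuclideanSpace ℝ (Fin n), x ≠ 0 → ¬ BadE M κ x → ∃ Φ : Finset Q,
    (∀ q ∈ Φ, 0 < inner ℝ x (rv (κ q))) ∧ ∀ t ∈ T, t ∈ AddSubgroup.closure
      {w | ∃ q ∈ Φ, ∃ t' ∈ T, w = MonoidAlgebra.of ℤ Q q • t'}

/-- A3: pushing (uses A2) -/
def StA3 : Prop := ∀ (Q : Type) [CommGroup Q] (M : Type) [AddCommGroup M]
  [Module (MonoidAlgebra ℤ Q) M] (n : ℕ) (κ : Q → Fin n → ℤ), (∀ a b, κ (a * b) = κ a + κ b) →
  Function.Surjective κ → ∀ T : Finset M,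
  (∀ x : M, x ∈ AddSubgroup.closure {w | ∃ q : Q, ∃ t ∈ T, w = MonoidAlgebra.of ℤ Q q • t}) →
  ∀ (D : Type) (d : D → Fin n → ℤ) (τ : Finset D) (x0 : EuclideanSpace ℝ (Fin n)),
  (∀ i ∈ τ, 0 < inner ℝ (rv (d i)) x0) →
  (∀ v : EuclideanSpace ℝ (Fin n), ‖v‖ = 1 →
    (∀ x, (∀ i ∈ τ, 0 ≤ inner ℝ (rv (d i)) x) → 0 ≤ inner ℝ v x) → ¬ BadE M κ v) →
  ∀ x : M, x ∈ AddSubgroup.closure {w | ∃ q : Q, ∃ t ∈ T, (∀ i ∈ τ, 0 ≤ dt (d i) (κ q)) ∧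
    w = MonoidAlgebra.of ℤ Q q • t}

/-- A4: the dual of a thin cone -/
def StA4 : Prop := ∀ (E : Type) [NormedAddCommGroup E] [InnerProductSpace ℝ E] (ι : Type)
  (τ : Finset ι) (d : ι → E) (p v : E) (ρ : ℝ), 0 < ρ → ρ ≤ 1 / 4 → ‖p‖ = 1 → ‖v‖ = 1 →
  (∀ i ∈ τ, ‖d i‖ = 1) → (∀ i ∈ τ, ‖d i - p‖ ≤ ρ) →
  (∀ x, (∀ i ∈ τ, 0 ≤ inner ℝ (d i) x) → 0 ≤ inner ℝ v x) → ∀ i ∈ τ, ‖v - d i‖ ≤ 5 * ρ

/-- A5: the mesh -/
def StA5 : Prop := ∀ (n : ℕ) (ρ : ℝ), 0 < ρ → ∃ (D : Type) (_ : Fintype D) (_ : DecidableEq D)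
  (d : D → Fin n → ℤ) (e : D → ℤ), (∀ i, d i ≠ 0) ∧ (∀ i, 0 < e i) ∧
  (∀ C s0 : ℤ, ∃ t0 : ℕ, ∀ t : ℕ, t0 ≤ t → ∀ (k : Fin n → ℤ) (c : D → ℤ), (∀ i, |c i| ≤ C) →
    (∀ i, 0 ≤ (t : ℤ) * e i + dt (d i) k + c i) →
    (∀ i, s0 ≤ (t : ℤ) * e i + dt (d i) k + c i) ∨
    ∃ p : EuclideanSpace ℝ (Fin n), ‖p‖ = 1 ∧
      ∀ i, (t : ℤ) * e i + dt (d i) k + c i < s0 → ‖un (rv (d i)) - p‖ ≤ ρ) ∧
  ∀ E : D → ℤ, {k : Fin n → ℤ | ∀ i, -E i ≤ dt (d i) k}.Finite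

/-- A6: decomposition into integral vectors -/
def StA6 : Prop := ∀ (n : ℕ) (x : EuclideanSpace ℝ (Fin n)), x ≠ 0 → ∀ η : ℝ, 0 < η →
  ∃ (K : Type) (_ : Fintype K) (u : K → Fin n → ℤ) (c : K → ℝ), (∀ k, 0 < c k) ∧
    x = ∑ k, c k • rv (u k) ∧ ∀ k, u k ≠ 0 ∧ ‖un (rv (u k)) - un x‖ ≤ η

/-- A7: separation -/
def StA7 : Prop := ∀ (n m : ℕ) (C : Set (EuclideanSpace ℝ (Fin n))), IsClosed C →
  (∀ γ ∈ C, ‖γ‖ = 1) → ∀ x : EuclideanSpace ℝ (Fin n),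
  (∀ γ : Fin m → EuclideanSpace ℝ (Fin n), (∀ j, γ j ∈ C) → ∀ (a : Fin m → ℝ) (b : ℝ),
    (∀ j, 0 ≤ a j) → (∃ j, a j ≠ 0) → 0 ≤ b → ∑ j, a j • γ j ≠ b • x) →
  ∃ δ : ℝ, 0 < δ ∧ ∀ γ : Fin m → EuclideanSpace ℝ (Fin n), (∀ j, γ j ∈ C) →
    ∃ y : EuclideanSpace ℝ (Fin n), ‖y‖ ≤ 1 ∧ (∀ j, inner ℝ (γ j) y ≤ -δ) ∧
      (x ≠ 0 → δ ≤ inner ℝ (un x) y)

/-- A8: rounding -/
def StA8 : Prop := ∀ (n : ℕ) (A B : Finset (EuclideanSpace ℝ (Fin n)))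
  (y : EuclideanSpace ℝ (Fin n)), (∀ w ∈ A, inner ℝ w y < 0) → (∀ w ∈ B, 0 < inner ℝ w y) →
  ∃ k : Fin n → ℤ, (∀ w ∈ A, inner ℝ w (rv k) < 0) ∧ ∀ w ∈ B, 0 < inner ℝ w (rv k)

/-- A9: the set of bad directions is closed (uses A2) -/
def StA9 : Prop := ∀ (Q : Type) [CommGroup Q] (M : Type) [AddCommGroup M]
  [Module (MonoidAlgebra ℤ Q) M] (n : ℕ) (κ : Q → Fin n → ℤ), (∀ a b, κ (a * b) = κ a + κ b) →
  Function.Surjective κ → ∀ T : Finset M,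
  (∀ x : M, x ∈ AddSubgroup.closure {w | ∃ q : Q, ∃ t ∈ T, w = MonoidAlgebra.of ℤ Q q • t}) →
    IsClosed {x : EuclideanSpace ℝ (Fin n) | ‖x‖ = 1 ∧ BadE M κ x}

/-- A10: thin sets which are not close to a bad direction are good (uses A3, A4) -/
def StA10 : Prop := ∀ (Q : Type) [CommGroup Q] (M : Type) [AddCommGroup M]
  [Module (MonoidAlgebra ℤ Q) M] (n : ℕ) (κ : Q → Fin n → ℤ), (∀ a b, κ (a * b) = κ a + κ b) →
  Function.Surjective κ → ∀ T : Finset M,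
  (∀ x : M, x ∈ AddSubgroup.closure {w | ∃ q : Q, ∃ t ∈ T, w = MonoidAlgebra.of ℤ Q q • t}) →
  ∀ (D : Type) (d : D → Fin n → ℤ), (∀ i, d i ≠ 0) → ∀ (ρ : ℝ), 0 < ρ → ρ ≤ 1 / 4 →
  ∀ (τ : Finset D) (p : EuclideanSpace ℝ (Fin n)), ‖p‖ = 1 →
  (∀ i ∈ τ, ‖un (rv (d i)) - p‖ ≤ ρ) →
  (∀ γ : EuclideanSpace ℝ (Fin n), ‖γ‖ = 1 → (∀ i ∈ τ, ‖γ - un (rv (d i))‖ ≤ 5 * ρ) →
    ¬ BadE M κ γ) →
  ∀ x : M, x ∈ AddSubgroup.closure {w | ∃ q : Q, ∃ t ∈ T, (∀ i ∈ τ, 0 ≤ dt (d i) (κ q)) ∧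
    w = MonoidAlgebra.of ℤ Q q • t}

/-- A11: sets covered by `m` clusters around bad directions (uses A8) -/
def StA11 : Prop := ∀ (n m : ℕ) (C : Set (EuclideanSpace ℝ (Fin n)))
  (x : EuclideanSpace ℝ (Fin n)) (δ : ℝ), 0 < δ →
  (∀ γ : Fin m → EuclideanSpace ℝ (Fin n), (∀ j, γ j ∈ C) →
    ∃ y : EuclideanSpace ℝ (Fin n), ‖y‖ ≤ 1 ∧ (∀ j, inner ℝ (γ j) y ≤ -δ) ∧
      (x ≠ 0 → δ ≤ inner ℝ (un x) y)) →
  ∀ (D : Type) [DecidableEq D] (d : D → Fin n → ℤ), (∀ i, d i ≠ 0) →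
  ∀ r : ℝ, r < δ → ∀ (K : Type) [Finite K] (u : K → Fin n → ℤ), (x = 0 → IsEmpty K) →
  (∀ k, u k ≠ 0 ∧ ‖un (rv (u k)) - un x‖ ≤ δ / 2) →
  ∀ I : Finset D, Un {I : Finset D | I = ∅ ∨ ∃ γ ∈ C, ∀ i ∈ I, ‖γ - un (rv (d i))‖ ≤ r} m I →
    ∃ k : Fin n → ℤ, (∀ l, 0 ≤ dt (u l) k) ∧ ∀ i ∈ I, dt (d i) k < 0

/-- the data produced by the geometry -/
structure Geo {Q M : Type} [CommGroup Q] [AddCommGroup M] [Module (MonoidAlgebra ℤ Q) M]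
    (T : Finset M) (m : ℕ) (v : Additive Q →+ ℝ) {D : Type} [Fintype D] [DecidableEq D]
    (χ : D → Q → ℤ) (e : D → ℤ) (Sm Δ : Set (Finset D)) {K : Type} [Fintype K]
    (u : K → Q → ℤ) (c : K → ℝ) : Prop where
  χ_mul : ∀ i a b, χ i (a * b) = χ i a + χ i b
  u_mul : ∀ k a b, u k (a * b) = u k a + u k b
  e_pos : ∀ i, 0 < e i
  c_pos : ∀ k, 0 < c k
  v_eq : ∀ q, v (Additive.ofMul q) = ∑ k, c k * (u k q : ℝ)
  v_pos : v ≠ 0 → ∃ h, ∀ k, 0 < u k h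
  v_zero : v = 0 → IsEmpty K
  dn : Dn Δ
  good : ∀ τ ∈ Sm, ∀ I ⊆ τ, I ∉ Δ → ∀ x : M, x ∈ AddSubgroup.closure {x | ∃ q : Q, ∃ t ∈ T,
    (∀ i ∈ τ, 0 ≤ χ i q) ∧ x = MonoidAlgebra.of ℤ Q q • t}
  shift : ∀ τ ∈ Sm, ∃ q, ∀ i ∈ τ, 0 < χ i q
  mesh : ∀ C s0 : ℤ, ∃ t0 : ℕ, ∀ t : ℕ, t0 ≤ t → ∀ (q : Q) (c : D → ℤ), (∀ i, |c i| ≤ C) →
    (∀ i, 0 ≤ (t : ℤ) * e i + χ i q + c i) →
    (Finset.univ.filter fun i => (t : ℤ) * e i + χ i q + c i < s0) ∈ Sm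
  fin : ∀ E : D → ℤ, {q : Q | ∀ i, -E i ≤ χ i q}.Finite
  cov : ∀ I, Un Δ m I → ∃ q, (∀ k, 0 ≤ u k q) ∧ ∀ i ∈ I, χ i q < 0

/-- A12: the geometry (uses A1, A5 - A11) -/
def StA12 : Prop := ∀ (Q : Type) [CommGroup Q] [Group.FG Q] (M : Type) [AddCommGroup M]
  [Module (MonoidAlgebra ℤ Q) M] (T : Finset M) (m : ℕ) (v : Additive Q →+ ℝ),
  (∀ x : M, x ∈ AddSubgroup.closure {w | ∃ q : Q, ∃ t ∈ T, w = MonoidAlgebra.of ℤ Q q • t}) →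
  (∀ γ : Fin m → (Additive Q →+ ℝ), (∀ j, BadC M (γ j)) → ∀ (a : Fin m → ℝ) (b : ℝ),
    (∀ j, 0 ≤ a j) → (∃ j, a j ≠ 0) → 0 ≤ b → ∑ j, a j • γ j ≠ b • v) →
  ∃ (D : Type) (_ : Fintype D) (_ : DecidableEq D) (χ : D → Q → ℤ) (e : D → ℤ)
    (Sm Δ : Set (Finset D)) (K : Type) (_ : Fintype K) (u : K → Q → ℤ) (c : K → ℝ),
    Geo T m v χ e Sm Δ u c

/-! ### Block H: assembly -/

/-- `χ` is not in `Σ^1`: the derived group is not finitely generated over `G_χ` -/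
def NFr {G : Type} [Group G] (χ : Additive G →+ ℝ) : Prop :=
  χ ≠ 0 ∧ ∀ V : Finset G, (∀ x ∈ V, x ∈ commutator G) → ∃ a ∈ commutator G, a ∉ Gen G χ V

/-- H1: from the group to the module -/
def StH1 : Prop := ∀ (G : Type) [Group G] [Group.FG G], Metab G → ∀ (M : Type) [AddCommGroup M]
  [Module (MonoidAlgebra ℤ (Abelianization G)) M] (y : G → M),
  (∀ a ∈ commutator G, ∀ b ∈ commutator G, y (a * b) = y a + y b) →
  (∀ a ∈ commutator G, y a = 0 → a = 1) → (∀ x : M, ∃ a ∈ commutator G, y a = x) →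
  (∀ g, ∀ a ∈ commutator G,
    y (g * a * g⁻¹) = MonoidAlgebra.of ℤ (Abelianization G) (Abelianization.of g) • y a) →
  (∃ T : Finset M, ∀ x : M, x ∈ AddSubgroup.closure {w | ∃ q : Abelianization G, ∃ t ∈ T,
    w = MonoidAlgebra.of ℤ (Abelianization G) q • t}) ∧
  ∀ γ : Additive (Abelianization G) →+ ℝ, BadC M γ →
    NFr (γ.comp (MonoidHom.toAdditive (Abelianization.of : G →* Abelianization G)))

/-- the level structure attached to the geometry -/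
noncomputable def mkLev {G : Type} [Group G] {M : Type} [AddCommGroup M]
    [Module (MonoidAlgebra ℤ (Abelianization G)) M] (y : G → M) (T : Finset M) {D : Type}
    (χ : D → Abelianization G → ℤ) (e : D → ℤ) {K : Type} (u : K → Abelianization G → ℤ) :
    Lev G D where
  QS := Submonoid.closure {q | ∀ k, 0 ≤ u k q}
  χ := χ
  e := e
  N := fun E => Subgroup.closure {g | g ∈ commutator G ∧ y g ∈ NN χ T E}

/-- H2: the level structure is good -/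
def StH2 : Prop := ∀ (G : Type) [Group G], Metab G → ∀ (M : Type) [AddCommGroup M]
  [Module (MonoidAlgebra ℤ (Abelianization G)) M] (y : G → M),
  (∀ a ∈ commutator G, ∀ b ∈ commutator G, y (a * b) = y a + y b) →
  (∀ a ∈ commutator G, y a = 0 → a = 1) → (∀ x : M, ∃ a ∈ commutator G, y a = x) →
  (∀ g, ∀ a ∈ commutator G,
    y (g * a * g⁻¹) = MonoidAlgebra.of ℤ (Abelianization G) (Abelianization.of g) • y a) →
  ∀ (T : Finset M), (∀ x : M, x ∈ AddSubgroup.closure {w | ∃ q : Abelianization G, ∃ t ∈ T,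
    w = MonoidAlgebra.of ℤ (Abelianization G) q • t}) →
  ∀ (D : Type) [Fintype D] (χ : D → Abelianization G → ℤ) (e : D → ℤ) (K : Type)
  (u : K → Abelianization G → ℤ), (∀ i a b, χ i (a * b) = χ i a + χ i b) →
  (∀ k a b, u k (a * b) = u k a + u k b) → (∀ i, 0 < e i) →
  (∀ E : D → ℤ, {q : Abelianization G | ∀ i, -E i ≤ χ i q}.Finite) →
  (mkLev y T χ e u).Good ∧ (∀ E, ((mkLev y T χ e u).N E).FG) ∧
    (∀ q, q ∈ (mkLev y T χ e u).QS ↔ ∀ k, 0 ≤ u k q) ∧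
    ∀ E g, g ∈ (mkLev y T χ e u).N E ↔ g ∈ commutator G ∧ y g ∈ NN χ T E

/-- H4: exactness at all large levels (uses C4, C5, D, E1, H2) -/
def StH4 : Prop := ∀ (G : Type) [Group G] [Group.FG G], Metab G → ∀ (M : Type) [AddCommGroup M]
  [Module (MonoidAlgebra ℤ (Abelianization G)) M] (y : G → M),
  (∀ a ∈ commutator G, ∀ b ∈ commutator G, y (a * b) = y a + y b) →
  (∀ a ∈ commutator G, y a = 0 → a = 1) → (∀ x : M, ∃ a ∈ commutator G, y a = x) →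
  (∀ g, ∀ a ∈ commutator G,
    y (g * a * g⁻¹) = MonoidAlgebra.of ℤ (Abelianization G) (Abelianization.of g) • y a) →
  ∀ (T : Finset M), (∀ x : M, x ∈ AddSubgroup.closure {w | ∃ q : Abelianization G, ∃ t ∈ T,
    w = MonoidAlgebra.of ℤ (Abelianization G) q • t}) →
  ∀ (m : ℕ) (v : Additive (Abelianization G) →+ ℝ) (D : Type) [Fintype D] [DecidableEq D]
  (χ : D → Abelianization G → ℤ) (e : D → ℤ) (Sm Δ : Set (Finset D)) (K : Type) [Fintype K]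
  (u : K → Abelianization G → ℤ) (c : K → ℝ), Geo T m v χ e Sm Δ u c →
    (mkLev y T χ e u).Lvl m

/-- H3: from the levels to type `FP_m` (uses FR, T3, E3, E4, E5, E6, E7, F7) -/
def StH3 : Prop := ∀ (G : Type) [Group G], Metab G → ∀ (D : Type) [Fintype D] [DecidableEq D]
  (L : Lev G D), L.Good → (∀ E, (L.N E).FG) → ∀ m : ℕ, L.Lvl m → Monoid.FG L.QS →
    IsFP (MonoidAlgebra ℤ L.S) (Triv L.S) m

/-- U: the upper bound (uses A12, H1, H2, H3, H4, FG, G2 and the items MOD and RES of project LC) -/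
def StU : Prop := ∀ (m : ℕ) (G : Type) [Group G] [Group.FG G], Metab G →
  ∀ v : Additive G →+ ℝ, (∀ γ : Fin m → (Additive G →+ ℝ), (∀ j, NFr (γ j)) →
    ∀ (a : Fin m → ℝ) (b : ℝ), (∀ j, 0 ≤ a j) → (∃ j, a j ≠ 0) → 0 ≤ b →
      ∑ j, a j • γ j ≠ b • v) →
  ∃ (B : Type) (_ : Finite B) (deg : B → ℕ) (db : B → (G × B →₀ ℤ)) (eb : B → ℤ),
    LC.PRes ℤ {g : G | 0 ≤ v (Additive.ofMul g)} m B deg db eb

/-- UP: the upper inclusion (uses U, G3 and the criterion for `Σ^1`) -/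
def StUP : Prop := ∀ (m : ℕ) (G : Type) [Group G] [Group.FG G], 1 ≤ m → Metab G →
  (∀ γ : Fin m → (Additive G →+ ℝ), (∀ j, γ j ∈ SigC G 1) → ∀ a : Fin m → ℝ, (∀ j, 0 ≤ a j) →
    (∃ j, a j ≠ 0) → ∑ j, a j • γ j ≠ 0) → SigC G m ⊆ ConvLE G m (SigC G 1)

end Pool.Agent.Work.MP_e9e200_al.UP

end

section

/-!
# Project O3: statements of the block R (realization of complexes)

Each `def StXXX : Prop` is to be proved as `theorem I_XXX : StXXX` in `O3/P_XXX.lean`.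
-/

set_option autoImplicit false

namespace Pool.Agent.Work.MP_e9e200_al.O3

open Set Metric Topology OnePoint Pool.Agent.Work.MP_e9e200_al.LC
open Pool.Agent.Work.MP_e9e200_al.O3A (Pt mk Atl Ph Sp pt st Lt oc Gd Pp ctr)

section
open Topology.RelCWComplex

open scoped Classical in
/-- the collapse of the complement of the open cell `c` -/
noncomputable def qp {G : Type} {B : ℕ → Type} (i : ℕ) (c : G × B i) (p : Pt G B) : W 1 i :=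
  if h : ∃ y : E i, ∃ hy : y ∈ ball (0 : E i) 1, p = mk i c y hy then
    (((0, psi h.choose) : Fin 1 × E i) : W 1 i) else ∞

/-- the incidence number of a map of the unit sphere of `ℝ^(i+1)` with the cell `c` -/
noncomputable def icn {G : Type} {B : ℕ → Type} (i : ℕ) (f : E (i + 1) → Pt G B) (c : G × B i) :
    ℤ := deg (0 : Fin 1) (Sus fun y => qp i c (f y))

/-- QPB: elementary facts on the collapse -/
def StQPB : Prop := ∀ (G : Type) [Group G] (B : ℕ → Type) (i : ℕ) (c : G × B i),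
  (∀ (y : E i) (hy : y ∈ ball (0 : E i) 1), qp i c (mk i c y hy) = ((0, psi y) : Fin 1 × E i)) ∧
  (∀ p : Pt G B, (∀ (y : E i) (hy : y ∈ ball (0 : E i) 1), p ≠ mk i c y hy) → qp i c p = ∞) ∧
  (∀ (g : G) (p : Pt G B), qp i (g * c.1, c.2) (g • p) = qp i c p) ∧
  (∀ (g : G) (f : E (i + 1) → Pt G B), icn i (fun y => g • f y) (g * c.1, c.2) = icn i f c) ∧
  ∀ f : E (i + 1) → Pt G B, (∀ y ∈ sphere (0 : E (i + 1)) 1, f y ∉ oc i c) → icn i f c = 0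

/-- HCW: the half space as a CW complex (uses CWS, SBC, T2) -/
def StHCW : Prop := ∀ (G : Type) [Group G] (B : ℕ → Type) (ψ : Atl G B) (N : ℕ∞)
  (χ : Additive G →+ ℝ), Gd ψ N →
  (∀ (n : ℕ) (b : B n), (n : ℕ∞) < N → ∀ y ∈ sphere (0 : E n) 1, ψ n b y ∈ Pp χ) →
  ∃ (_ : CWComplex (st ψ N (Pp χ ∩ Lt N)))
    (e : ∀ n : ℕ, cell (st ψ N (Pp χ ∩ Lt N)) n ≃
      {c : G × B n // (n : ℕ∞) < N ∧ 0 ≤ χ (Additive.ofMul c.1)}),
    ∀ (n : ℕ) (j : cell (st ψ N (Pp χ ∩ Lt N)) n), ∀ y ∈ closedBall (0 : E n) 1,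
      map n j y = pt ψ N (Ph ψ n (e n j).1 y)

/-- SKH: the skeleta of the half space (uses T2, PHB, SK) -/
def StSKH : Prop := ∀ (G : Type) [Group G] (B : ℕ → Type) (ψ : Atl G B) (N : ℕ∞)
  (χ : Additive G →+ ℝ), Gd ψ N → ∀ (H : Set (Sp ψ N)), H = st ψ N (Pp χ ∩ Lt N) →
  ∀ (_ : CWComplex H)
    (e : ∀ n : ℕ, cell H n ≃ {c : G × B n // (n : ℕ∞) < N ∧ 0 ≤ χ (Additive.ofMul c.1)}),
    (∀ (n : ℕ) (j : cell H n), ∀ y ∈ closedBall (0 : E n) 1,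
      map n j y = pt ψ N (Ph ψ n (e n j).1 y)) →
  (∀ M : ℕ, (M : ℕ∞) ≤ N → sk H M = st ψ N (Pp χ ∩ Lt (M : ℕ∞))) ∧
  (∀ (n : ℕ) (j : cell H n), openCell n j = st ψ N (oc n (e n j).1))

/-- ICN: the incidence numbers of the half space (uses QPB, PHB, SKH) -/
def StICN : Prop := ∀ (G : Type) [Group G] (B : ℕ → Type) (ψ : Atl G B) (N : ℕ∞)
  (χ : Additive G →+ ℝ), Gd ψ N → ∀ (H : Set (Sp ψ N)), H = st ψ N (Pp χ ∩ Lt N) →
  ∀ (_ : CWComplex H)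
    (e : ∀ n : ℕ, cell H n ≃ {c : G × B n // (n : ℕ∞) < N ∧ 0 ≤ χ (Additive.ofMul c.1)}),
    (∀ (n : ℕ) (j : cell H n), ∀ y ∈ closedBall (0 : E n) 1,
      map n j y = pt ψ N (Ph ψ n (e n j).1 y)) →
  (∀ (i : ℕ) (c : cell H i) (p : Pt G B), qq (fun _ : Fin 1 => map i c) (pt ψ N p) =
    qp i (e i c).1 p) ∧
  (∀ (i : ℕ) (f : E (i + 1) → Pt G B) (c : cell H i),
    inc (fun y => pt ψ N (f y)) (map i c) = icn i f (e i c).1) ∧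
  ∀ (i : ℕ) (a : cell H (i + 1)) (c : cell H i), inc (map (i + 1) a) (map i c) =
    icn i (ψ (i + 1) (e (i + 1) a).1.2)
      (((e (i + 1) a).1.1)⁻¹ * (e i c).1.1, (e i c).1.2)

/-- the attaching maps of dimension `< n` realize the boundaries of the complex `Y` in the half
space, and the half space is as connected as possible -/
structure Qr {G : Type} [Group G] (Y : HT.Cel G) (χ : Additive G →+ ℝ) (n : ℕ)
    (ψ : Atl G Y.B) : Prop where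
  gd : Gd ψ (n : ℕ∞)
  pp : ∀ i < n, ∀ b : Y.B i, ∀ y ∈ sphere (0 : E i) 1, ψ i b y ∈ Pp χ
  inc : ∀ i, i + 1 < n → ∀ (b : Y.B (i + 1)) (c : G × Y.B i), icn i (ψ (i + 1) b) c = Y.d i b c
  ext : ∀ j, j + 2 ≤ n → Ext (st ψ n (Pp χ ∩ Lt ((j + 2 : ℕ) : ℕ∞))) j

/-- the hypotheses on the algebraic complex -/
structure Hy {G : Type} [Group G] (Y : HT.Cel G) (χ : Additive G →+ ℝ) : Prop where
  ne : χ ≠ 0
  good : Y.Good
  hgt : Y.Hgt χ (fun _ _ => 0)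
  conn : ∀ n, Y.Conn n (Y.Ge χ (fun _ _ => 0) 0)

/-- ATC: the attaching maps of the cells of dimension `n + 3` (uses HCW, SKH, ICN, QPB, RLC, FDG,
T2, PHB, FIN, SK) -/
def StATC : Prop := ∀ (G : Type) [Group G] (Y : HT.Cel G) (χ : Additive G →+ ℝ), Hy Y χ →
  ∀ (n : ℕ) (ψ : Atl G Y.B), Qr Y χ (n + 3) ψ → ∀ b : Y.B (n + 3),
  ∃ f : E (n + 3) → Pt G Y.B, (∀ y ∈ sphere (0 : E (n + 3)) 1, f y ∈ Pp χ ∧ (f y).dim < n + 3) ∧
    ContinuousOn (fun y => pt ψ ((n + 3 : ℕ) : ℕ∞) (f y)) (sphere 0 1) ∧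
    ∀ c : G × Y.B (n + 2), icn (n + 2) f c = Y.d (n + 2) b c

/-- CNX: connectivity of the half space of dimension `n + 3` (uses HCW, SKH, ICN, QPB, HUR, T2,
PHB, SK) -/
def StCNX : Prop := ∀ (G : Type) [Group G] (Y : HT.Cel G) (χ : Additive G →+ ℝ), Hy Y χ →
  ∀ (n : ℕ) (ψ : Atl G Y.B), Gd ψ ((n + 4 : ℕ) : ℕ∞) →
  (∀ i < n + 4, ∀ b : Y.B i, ∀ y ∈ sphere (0 : E i) 1, ψ i b y ∈ Pp χ) →
  (∀ i, i + 1 < n + 4 → ∀ (b : Y.B (i + 1)) (c : G × Y.B i), icn i (ψ (i + 1) b) c = Y.d i b c) →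
  (∀ j, j + 2 ≤ n + 3 → Ext (st ψ ((n + 4 : ℕ) : ℕ∞) (Pp χ ∩ Lt ((j + 2 : ℕ) : ℕ∞))) j) →
  Ext (st ψ ((n + 4 : ℕ) : ℕ∞) (Pp χ ∩ Lt ((n + 4 : ℕ) : ℕ∞))) (n + 2)

/-- STEP: one more dimension (uses ATC, CNX and the O3A items STP, CNG, SKM) -/
def StSTEP : Prop := ∀ (G : Type) [Group G] (Y : HT.Cel G) (χ : Additive G →+ ℝ), Hy Y χ →
  ∀ (n : ℕ) (ψ : Atl G Y.B), Qr Y χ (n + 3) ψ →
  ∃ ψ' : Atl G Y.B, (∀ i < n + 3, ψ' i = ψ i) ∧ Qr Y χ (n + 4) ψ'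

/-- LOW: the low dimensional part -/
def StLOW : Prop := ∀ (G : Type) [Group G] (Y : HT.Cel G) (χ : Additive G →+ ℝ), Hy Y χ →
  ∃ ψ : Atl G Y.B, Qr Y χ 3 ψ

/-- RZN: the realization theorem (uses LOW, STEP and the O3A items REC, CNG, STP, SKM, LIM, LIT) -/
def StRZN : Prop := ∀ (G : Type) [Group G] (Y : HT.Cel G) (χ : Additive G →+ ℝ), Hy Y χ →
  ∀ m : ℕ, (∀ i ≤ m, Finite (Y.B i)) → χ ∈ LSig G m

end

end Pool.Agent.Work.MP_e9e200_al.O3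

end
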