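import Pool.Agent.Work.MP_e9e200_al.LC.Stmts3
import Pool.Agent.Work.MP_e9e200_al.Bd.B05
import Pool.Agent.Work.MP_e9e200_al.Bd.B11

/-! Bundle of small proof modules (one section per former module). -/

section

/-!
# Finite generation of the derived group from an element of the annihilator
-/

set_option autoImplicit false

namespace Pool.Agent.Work.MP_e9e200_al.LC

namespace CRA

section

variable {Q : Type} [CommGroup Q]

/-- the additive group spanned by all `q` with `v q ≥ c` -/
noncomputable def W (v : Q → ℝ) (c : ℝ) : Submodule ℤ (MonoidAlgebra ℤ Q) :=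
  Submodule.span ℤ {f | ∃ q : Q, c ≤ v q ∧ f = MonoidAlgebra.of ℤ Q q}

theorem W_mono (v : Q → ℝ) {c d : ℝ} (h : c ≤ d) : W v d ≤ W v c := by
  refine Submodule.span_mono ?_
  rintro f ⟨q, hq, rfl⟩
  exact ⟨q, h.trans hq, rfl⟩

theorem W_of (v : Q → ℝ) {c : ℝ} {q : Q} (h : c ≤ v q) : MonoidAlgebra.of ℤ Q q ∈ W v c :=
  Submodule.subset_span ⟨q, h, rfl⟩

theorem pos_W {v : Q → ℝ} {u : MonoidAlgebra ℤ Q} (hu : u ∈ posI v) :
    ∃ δ : ℝ, 0 < δ ∧ u ∈ W v δ := by
  induction hu using Submodule.span_induction with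
  | mem x hx =>
    obtain ⟨q, hq, rfl⟩ := hx
    exact ⟨v q, hq, W_of v le_rfl⟩
  | zero => exact ⟨1, one_pos, Submodule.zero_mem _⟩
  | add x y _ _ hx hy =>
    obtain ⟨a, ha, hxa⟩ := hx
    obtain ⟨b, hb, hyb⟩ := hy
    exact ⟨min a b, lt_min ha hb, Submodule.add_mem _ (W_mono v (min_le_left _ _) hxa)
      (W_mono v (min_le_right _ _) hyb)⟩
  | smul n x _ hx =>
    obtain ⟨a, ha, hxa⟩ := hx
    exact ⟨a, ha, Submodule.smul_mem _ _ hxa⟩

theorem W_mul {v : Q → ℝ} (hv : ∀ a b, v (a * b) = v a + v b) {c d : ℝ}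
    {x y : MonoidAlgebra ℤ Q} (hx : x ∈ W v c) (hy : y ∈ W v d) : x * y ∈ W v (c + d) := by
  induction hx using Submodule.span_induction with
  | mem x hx =>
    obtain ⟨q, hq, rfl⟩ := hx
    induction hy using Submodule.span_induction with
    | mem y hy =>
      obtain ⟨r, hr, rfl⟩ := hy
      rw [← map_mul]
      exact W_of v (by rw [hv]; exact add_le_add hq hr)
    | zero => rw [mul_zero]; exact Submodule.zero_mem _
    | add a b _ _ ha hb => rw [mul_add]; exact Submodule.add_mem _ ha hb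
    | smul n a _ ha => rw [mul_smul_comm]; exact Submodule.smul_mem _ _ ha
  | zero => rw [zero_mul]; exact Submodule.zero_mem _
  | add a b _ _ ha hb => rw [add_mul]; exact Submodule.add_mem _ ha hb
  | smul n a _ ha => rw [smul_mul_assoc]; exact Submodule.smul_mem _ _ ha

theorem W_pow {v : Q → ℝ} (hv : ∀ a b, v (a * b) = v a + v b) {δ : ℝ}
    {u : MonoidAlgebra ℤ Q} (hu : u ∈ W v δ) (k : ℕ) : u ^ k ∈ W v (k * δ) := by
  induction k with
  | zero =>
    have h1 : v 1 = 0 := by
      have := hv 1 1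
      rw [mul_one] at this
      linarith
    rw [pow_zero, ← map_one (MonoidAlgebra.of ℤ Q)]
    exact W_of v (by rw [h1]; simp)
  | succ k ih =>
    rw [pow_succ]
    have h := W_mul hv ih hu
    have e : ((k + 1 : ℕ) : ℝ) * δ = k * δ + δ := by push_cast; ring
    rw [e]
    exact h

end

section

variable {G : Type} [Group G] {M : Type} [AddCommGroup M]
  [Module (MonoidAlgebra ℤ (Abelianization G)) M] {y : G → M}

theorem y_one (h : IsMod M y) : y 1 = 0 := by
  have := h.mul 1 (Subgroup.one_mem _) 1 (Subgroup.one_mem _)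
  rw [mul_one] at this
  simpa using this

theorem y_inv (h : IsMod M y) {a : G} (ha : a ∈ commutator G) : y a⁻¹ = - y a := by
  have := h.mul a ha a⁻¹ (Subgroup.inv_mem _ ha)
  rw [mul_inv_cancel, y_one h] at this
  exact (neg_eq_of_add_eq_zero_right this.symm).symm

theorem y_inj (h : IsMod M y) {a b : G} (ha : a ∈ commutator G) (hb : b ∈ commutator G)
    (e : y a = y b) : a = b := by
  have h1 : y (a * b⁻¹) = 0 := by
    rw [h.mul a ha b⁻¹ (Subgroup.inv_mem _ hb), y_inv h hb, e, add_neg_cancel]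
  have h2 := h.inj _ (Subgroup.mul_mem _ ha (Subgroup.inv_mem _ hb)) h1
  exact mul_inv_eq_one.1 h2

theorem Gen_le (χ : Additive G →+ ℝ) (V : Finset G) (hV : ∀ v ∈ V, v ∈ commutator G) :
    Gen G χ V ≤ commutator G := by
  refine (Subgroup.closure_le _).2 ?_
  rintro w ⟨g, v, -, hv, rfl⟩
  exact (inferInstance : (commutator G).Normal).conj_mem v (hV v hv) g

/-- the image of `Gen` under `y` -/
def img (h : IsMod M y) (χ : Additive G →+ ℝ) (V : Finset G)
    (hV : ∀ v ∈ V, v ∈ commutator G) : AddSubgroup M where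
  carrier := {x | ∃ a ∈ Gen G χ V, y a = x}
  zero_mem' := ⟨1, Subgroup.one_mem _, y_one h⟩
  add_mem' := by
    rintro _ _ ⟨a, ha, rfl⟩ ⟨b, hb, rfl⟩
    exact ⟨a * b, Subgroup.mul_mem _ ha hb,
      h.mul a (Gen_le χ V hV ha) b (Gen_le χ V hV hb)⟩
  neg_mem' := by
    rintro _ ⟨a, ha, rfl⟩
    exact ⟨a⁻¹, Subgroup.inv_mem _ ha, y_inv h (Gen_le χ V hV ha)⟩

theorem img_smul (h : IsMod M y) (χ : Additive G →+ ℝ) (V : Finset G)
    (hV : ∀ v ∈ V, v ∈ commutator G) {v : Abelianization G → ℝ}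
    (hv : ∀ g, v (Abelianization.of g) = χ (Additive.ofMul g))
    {w : MonoidAlgebra ℤ (Abelianization G)} (hw : w ∈ W v 0) {e : G} (he : e ∈ V) :
    w • y e ∈ img h χ V hV := by
  induction hw using Submodule.span_induction with
  | mem x hx =>
    obtain ⟨q, hq, rfl⟩ := hx
    obtain ⟨g, rfl⟩ : ∃ g, Abelianization.of g = q := QuotientGroup.mk_surjective q
    rw [← h.conj g e (hV e he)]
    refine ⟨_, Subgroup.subset_closure ⟨g, e, ?_, he, rfl⟩, rfl⟩
    rw [← hv]; exact hq
  | zero => rw [zero_smul]; exact AddSubgroup.zero_mem _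
  | add a b _ _ ha hb => rw [add_smul]; exact AddSubgroup.add_mem _ ha hb
  | smul n a _ ha => rw [smul_assoc]; exact AddSubgroup.zsmul_mem _ ha n

end

end CRA

theorem I_CRA : StCRA := by
  intro G _ _ M _ _ y h χ v hv f hf hf1
  obtain ⟨V, hV, hcl⟩ := I_NC G
  refine ⟨V, hV, fun a ha => ?_⟩
  have hvm : ∀ a b, v (a * b) = v a + v b := by
    intro a b
    obtain ⟨a, rfl⟩ : ∃ g, Abelianization.of g = a := QuotientGroup.mk_surjective a
    obtain ⟨b, rfl⟩ : ∃ g, Abelianization.of g = b := QuotientGroup.mk_surjective b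
    rw [← map_mul, hv, hv, hv, ofMul_mul, map_add]
  have hu : 1 - f ∈ posI v := by
    have := Submodule.neg_mem _ hf1
    rwa [neg_sub] at this
  obtain ⟨δ, hδ, hW⟩ := CRA.pos_W hu
  have hux : ∀ x : M, (1 - f) • x = x := fun x => by rw [sub_smul, one_smul, hf, sub_zero]
  have hukx : ∀ (k : ℕ) (x : M), (1 - f) ^ k • x = x := by
    intro k
    induction k with
    | zero => intro x; rw [pow_zero, one_smul]
    | succ k ih => intro x; rw [pow_succ, mul_smul, hux, ih]
  have key : Subgroup.normalClosure (V : Set G) ≤ Gen G χ V := by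
    refine (Subgroup.closure_le _).2 fun x hx => ?_
    obtain ⟨e, he, hex⟩ := Group.mem_conjugatesOfSet_iff.1 hx
    obtain ⟨g, rfl⟩ := isConj_iff.1 hex
    have he' : e ∈ V := he
    obtain ⟨k, hk⟩ := exists_nat_ge (-(χ (Additive.ofMul g)) / δ)
    have hk' : 0 ≤ v (Abelianization.of g) + k * δ := by
      rw [hv]
      rw [div_le_iff₀ hδ] at hk
      linarith
    have hmem : MonoidAlgebra.of ℤ (Abelianization G) (Abelianization.of g) * (1 - f) ^ k ∈
        CRA.W v 0 :=
      CRA.W_mono v hk' (CRA.W_mul hvm (CRA.W_of v le_rfl) (CRA.W_pow hvm hW k))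
    obtain ⟨b, hb, hyb⟩ := CRA.img_smul h χ V hV hv hmem he'
    have hgc : g * e * g⁻¹ ∈ commutator G :=
      (inferInstance : (commutator G).Normal).conj_mem e (hV e he') g
    have : b = g * e * g⁻¹ := by
      refine CRA.y_inj h (CRA.Gen_le χ V hV hb) hgc ?_
      rw [hyb, mul_smul, hukx, h.conj g e (hV e he')]
    rw [← this]
    exact hb
  exact key (hcl ha)

end Pool.Agent.Work.MP_e9e200_al.LC

end

section

/-!
# CRB: an element of the annihilator from finite generation
-/

set_option autoImplicit false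

namespace Pool.Agent.Work.MP_e9e200_al.LC

namespace CRB

/-- products of spans of group elements -/
theorem mul_mem_span {Q : Type} [CommGroup Q] (A B C : Set Q)
    (h : ∀ a ∈ A, ∀ b ∈ B, a * b ∈ C) (x z : MonoidAlgebra ℤ Q)
    (hx : x ∈ Submodule.span ℤ {f | ∃ q : Q, q ∈ A ∧ f = MonoidAlgebra.of ℤ Q q})
    (hz : z ∈ Submodule.span ℤ {f | ∃ q : Q, q ∈ B ∧ f = MonoidAlgebra.of ℤ Q q}) :
    x * z ∈ Submodule.span ℤ {f | ∃ q : Q, q ∈ C ∧ f = MonoidAlgebra.of ℤ Q q} := by
  have h1 := Submodule.mul_mem_mul hx hz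
  rw [Submodule.span_mul_span] at h1
  refine Submodule.span_mono ?_ h1
  rintro _ ⟨_, ⟨a, ha, rfl⟩, _, ⟨b, hb, rfl⟩, rfl⟩
  exact ⟨a * b, h a ha b hb, (map_mul _ _ _).symm⟩

end CRB

open CRB in
theorem I_CRB : StCRB := by
  intro G _ M _ _ y hy χ hχ v hv V hV hgen
  have hχm : ∀ g h : G, χ (Additive.ofMul (g * h)) = χ (Additive.ofMul g) + χ (Additive.ofMul h) :=
    fun g h => by rw [ofMul_mul, map_add]
  have hvm : ∀ q r, v (q * r) = v q + v r := by
    intro q r
    obtain ⟨g, rfl⟩ := QuotientGroup.mk_surjective q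
    obtain ⟨h, rfl⟩ := QuotientGroup.mk_surjective r
    exact (hv (g * h)).trans ((hχm g h).trans (congrArg₂ (· + ·) (hv g).symm (hv h).symm))
  have hv1 : v 1 = 0 := by
    have := hvm 1 1
    rw [mul_one] at this
    linarith
  -- the subring
  let N : Submodule ℤ (MonoidAlgebra ℤ (Abelianization G)) :=
    Submodule.span ℤ {f | ∃ q : Abelianization G, q ∈ {q | 0 ≤ v q} ∧
        f = MonoidAlgebra.of ℤ _ q}
  let R : Subring (MonoidAlgebra ℤ (Abelianization G)) :=
    { carrier := (N : Set (MonoidAlgebra ℤ (Abelianization G)))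
      zero_mem' := N.zero_mem
      add_mem' := fun h1 h2 => N.add_mem h1 h2
      neg_mem' := fun h1 => N.neg_mem h1
      one_mem' := by
        refine Submodule.subset_span ⟨1, ?_, (map_one _).symm⟩
        show 0 ≤ v 1
        rw [hv1]
      mul_mem' := by
        intro a b ha hb
        refine mul_mem_span _ _ _ ?_ a b ha hb
        intro q hq r hr
        have h1 : 0 ≤ v q := hq
        have h2 : 0 ≤ v r := hr
        show 0 ≤ v (q * r)
        rw [hvm]
        exact add_nonneg h1 h2 }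
  have hR : ∀ f, f ∈ R ↔ f ∈ Submodule.span ℤ {f | ∃ q : Abelianization G, q ∈ {q | 0 ≤ v q} ∧
        f = MonoidAlgebra.of ℤ _ q} := fun f => Iff.rfl
  let J : Ideal R :=
    { carrier := {r | (r : MonoidAlgebra ℤ (Abelianization G)) ∈ posI v}
      zero_mem' := (posI v).zero_mem
      add_mem' := fun h1 h2 => (posI v).add_mem h1 h2
      smul_mem' := by
        intro c x hx
        show ((c * x : R) : MonoidAlgebra ℤ (Abelianization G)) ∈ posI v
        rw [Subring.coe_mul]
        refine mul_mem_span {q | 0 ≤ v q} {q | 0 < v q} {q | 0 < v q} ?_ _ _ ((hR _).1 c.2) hx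
        intro q hq r hr
        have h1 : 0 ≤ v q := hq
        have h2 : 0 < v r := hr
        show 0 < v (q * r)
        rw [hvm]
        exact add_pos_of_nonneg_of_pos h1 h2 }
  have hJ : ∀ r : R, r ∈ J ↔ (r : MonoidAlgebra ℤ (Abelianization G)) ∈ posI v := fun r => Iff.rfl
  have hy1 : y 1 = 0 := by
    have := hy.mul 1 (Subgroup.one_mem _) 1 (Subgroup.one_mem _)
    rw [mul_one] at this
    exact left_eq_add.mp this
  have hyinv : ∀ a ∈ commutator G, y a⁻¹ = - y a := by
    intro a ha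
    have := hy.mul a ha a⁻¹ (Subgroup.inv_mem _ ha)
    rw [mul_inv_cancel, hy1] at this
    exact (neg_eq_of_add_eq_zero_right this.symm).symm
  have htop : (⊤ : Submodule R M) = Submodule.span R (y '' (V : Set G)) := by
    symm
    rw [eq_top_iff]
    intro x _
    obtain ⟨a, ha, rfl⟩ := hy.surj x
    have key : ∀ b ∈ Gen G χ V, b ∈ commutator G ∧
        y b ∈ Submodule.span R (y '' (V : Set G)) := by
      intro b hb
      induction hb using Subgroup.closure_induction with
      | mem w hw =>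
        obtain ⟨g, u, hg, hu, rfl⟩ := hw
        refine ⟨(inferInstance : (commutator G).Normal).conj_mem u (hV u hu) g, ?_⟩
        rw [hy.conj g u (hV u hu)]
        have hmem : MonoidAlgebra.of ℤ (Abelianization G) (Abelianization.of g) ∈ R := by
          rw [hR]
          refine Submodule.subset_span ⟨Abelianization.of g, ?_, rfl⟩
          show 0 ≤ v (Abelianization.of g)
          rw [hv]
          exact hg
        exact Submodule.smul_mem _ (⟨_, hmem⟩ : R)
          (Submodule.subset_span ⟨u, hu, rfl⟩)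
      | one => exact ⟨Subgroup.one_mem _, by rw [hy1]; exact Submodule.zero_mem _⟩
      | mul b c _ _ hb hc =>
        exact ⟨Subgroup.mul_mem _ hb.1 hc.1, by
          rw [hy.mul b hb.1 c hc.1]; exact Submodule.add_mem _ hb.2 hc.2⟩
      | inv b _ hb =>
        exact ⟨Subgroup.inv_mem _ hb.1, by
          rw [hyinv b hb.1]; exact Submodule.neg_mem _ hb.2⟩
    exact (key a (hgen a ha)).2
  have hfg : (⊤ : Submodule R M).FG := by
    rw [htop]
    exact Submodule.fg_span ((Finset.finite_toSet V).image y)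
  obtain ⟨g0, hg0⟩ : ∃ g : G, 0 < χ (Additive.ofMul g) := by
    obtain ⟨a, ha⟩ : ∃ a, χ a ≠ 0 := by
      by_contra hcon
      push Not at hcon
      exact hχ (DFunLike.ext _ _ fun a => by simpa using hcon a)
    rcases lt_or_gt_of_ne ha with h | h
    · exact ⟨Additive.toMul (-a), by rw [ofMul_toMul, map_neg]; linarith⟩
    · exact ⟨Additive.toMul a, by rw [ofMul_toMul]; exact h⟩
  have hmemR : MonoidAlgebra.of ℤ (Abelianization G) (Abelianization.of g0) ∈ R := by
    rw [hR]
    refine Submodule.subset_span ⟨Abelianization.of g0, ?_, rfl⟩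
    show 0 ≤ v (Abelianization.of g0)
    rw [hv]
    exact hg0.le
  have hmemJ : (⟨_, hmemR⟩ : R) ∈ J := by
    rw [hJ]
    refine Submodule.subset_span ⟨Abelianization.of g0, ?_, rfl⟩
    show 0 < v (Abelianization.of g0)
    rw [hv]
    exact hg0
  have hle : (⊤ : Submodule R M) ≤ J • (⊤ : Submodule R M) := by
    intro x _
    have h1 : x = (⟨_, hmemR⟩ : R) •
        (MonoidAlgebra.of ℤ (Abelianization G) (Abelianization.of g0)⁻¹ • x) := by
      change x = MonoidAlgebra.of ℤ (Abelianization G) (Abelianization.of g0) •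
        (MonoidAlgebra.of ℤ (Abelianization G) (Abelianization.of g0)⁻¹ • x)
      rw [smul_smul, ← map_mul, mul_inv_cancel, map_one, one_smul]
    rw [h1]
    exact Submodule.smul_mem_smul hmemJ Submodule.mem_top
  obtain ⟨r, hr1, hr2⟩ := Submodule.exists_sub_one_mem_and_smul_eq_zero_of_fg_of_le_smul J
    (⊤ : Submodule R M) hfg hle
  refine ⟨(r : MonoidAlgebra ℤ (Abelianization G)), ?_, ?_⟩
  · intro x
    exact hr2 x Submodule.mem_top
  · have := (hJ _).1 hr1
    exact this

end Pool.Agent.Work.MP_e9e200_al.LC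

end

section

/-!
# Item KA: the length bound of Krull and Akizuki
-/

set_option autoImplicit false

namespace Pool.Agent.Work.MP_e9e200_al.LC

namespace KA

/-! ### Length -/

section Gen

variable {D : Type} [CommRing D]

theorem art [IsNoetherianRing D] (h1 : ∀ p : Ideal D, p.IsPrime → p ≠ ⊥ → p.IsMaximal) (d : D)
    (hd : d ≠ 0) : IsArtinianRing (D ⧸ Ideal.span {d}) := by
  rw [isArtinianRing_iff_isNoetherianRing_krullDimLE_zero]
  refine ⟨inferInstance, Ring.KrullDimLE.mk₀ fun I hI => ?_⟩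
  have h2 : (I.comap (Ideal.Quotient.mk (Ideal.span {d}))).IsPrime := inferInstance
  have h3 : I.comap (Ideal.Quotient.mk (Ideal.span {d})) ≠ ⊥ := by
    intro h
    have h4 : d ∈ I.comap (Ideal.Quotient.mk (Ideal.span {d})) := by
      rw [Ideal.mem_comap, Ideal.Quotient.eq_zero_iff_mem.2 (Ideal.mem_span_singleton_self d)]
      exact I.zero_mem
    rw [h] at h4
    exact hd h4
  have h4 := h1 _ h2 h3
  have h5 := Ideal.map_eq_top_or_isMaximal_of_surjective (Ideal.Quotient.mk (Ideal.span {d}))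
    Ideal.Quotient.mk_surjective h4
  rw [Ideal.map_comap_of_surjective _ Ideal.Quotient.mk_surjective] at h5
  exact h5.resolve_left hI.ne_top

theorem artquot [IsNoetherianRing D] (h1 : ∀ p : Ideal D, p.IsPrime → p ≠ ⊥ → p.IsMaximal)
    (d : D) (hd : d ≠ 0) : IsArtinian D (D ⧸ Ideal.span {d}) := by
  have := art h1 d hd
  exact isArtinian_of_surjective_algebraMap (R := D ⧸ Ideal.span {d}) Ideal.Quotient.mk_surjective

theorem artmod [IsNoetherianRing D] {X : Type} [AddCommGroup X] [Module D X]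
    (h1 : ∀ p : Ideal D, p.IsPrime → p ≠ ⊥ → p.IsMaximal) (d : D) (hd : d ≠ 0)
    [Module.Finite D X] (hX : ∀ x : X, d • x = 0) : IsArtinian D X := by
  obtain ⟨n, s, hs⟩ := Module.Finite.exists_fin (R := D) (M := X)
  have := artquot h1 d hd
  have hk : ∀ i, Ideal.span {d} ≤ LinearMap.ker (LinearMap.toSpanSingleton D X (s i)) := by
    intro i
    rw [Ideal.span_le]
    intro a ha
    rw [Set.mem_singleton_iff] at ha
    subst ha
    simp [hX]
  let f : (Fin n → D ⧸ Ideal.span {d}) →ₗ[D] X :=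
    ∑ i, (Submodule.liftQ (Ideal.span {d}) (LinearMap.toSpanSingleton D X (s i)) (hk i)) ∘ₗ
      LinearMap.proj i
  refine isArtinian_of_surjective _ f ?_
  rw [← LinearMap.range_eq_top, eq_top_iff, ← hs, Submodule.span_le]
  rintro _ ⟨i, rfl⟩
  refine ⟨Pi.single i (Submodule.Quotient.mk 1), ?_⟩
  simp only [f, LinearMap.sum_apply, LinearMap.comp_apply, LinearMap.proj_apply]
  rw [Finset.sum_eq_single i]
  · rw [Pi.single_eq_same]
    change (LinearMap.toSpanSingleton D X (s i)) 1 = s i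
    simp
  · intro j _ hj
    rw [Pi.single_eq_of_ne hj, map_zero]
  · intro h
    exact absurd (Finset.mem_univ i) h

/-- the length of `M / y M` for a module `M` that contains a copy of `D` -/
theorem len {M : Type} [AddCommGroup M] [Module D M] (j : D →ₗ[D] M)
    (hj : Function.Injective j) (y : D) (hy : ∀ m : M, y • m = 0 → m = 0)
    (hfin : Module.length D (M ⧸ LinearMap.range j) ≠ ⊤) :
    Module.length D (M ⧸ LinearMap.range (LinearMap.lsmul D M y)) =
      Module.length D (D ⧸ Ideal.span {y}) := by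
  set J := LinearMap.range j with hJ
  set yJ := J.map (LinearMap.lsmul D M y) with hyJ
  set yM := LinearMap.range (LinearMap.lsmul D M y) with hyM
  have hJ1 : yJ ≤ J := by
    rintro _ ⟨m, hm, rfl⟩
    exact J.smul_mem y hm
  have hJ2 : yJ ≤ yM := by
    rintro _ ⟨m, hm, rfl⟩
    exact ⟨m, rfl⟩
  -- the first sequence
  have e1 : Module.length D (M ⧸ yJ) = Module.length D (D ⧸ Ideal.span {y}) +
      Module.length D (M ⧸ J) := by
    have hle : Ideal.span {y} ≤ yJ.comap j := by
      rw [Ideal.span_le]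
      intro a ha
      rw [Set.mem_singleton_iff] at ha
      subst ha
      refine ⟨j 1, ⟨1, rfl⟩, ?_⟩
      rw [LinearMap.lsmul_apply, ← map_smul, smul_eq_mul, mul_one]
    refine Module.length_eq_add_of_exact (Submodule.mapQ _ _ j hle) (Submodule.factor hJ1) ?_
      (Submodule.factor_surjective hJ1) ?_
    · rw [← LinearMap.ker_eq_bot, Submodule.ker_mapQ, eq_bot_iff]
      rintro _ ⟨a, ⟨_, ⟨b, rfl⟩, hb⟩, rfl⟩
      rw [LinearMap.lsmul_apply, ← map_smul] at hb
      have h1 := hj hb
      rw [Submodule.mem_bot, Submodule.mkQ_apply, Submodule.Quotient.mk_eq_zero, ← h1,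
        smul_eq_mul]
      exact Ideal.mul_mem_right _ _ (Ideal.mem_span_singleton_self y)
    · rw [LinearMap.exact_iff]
      apply le_antisymm
      · intro x hx
        obtain ⟨m, rfl⟩ := Submodule.mkQ_surjective _ x
        rw [LinearMap.mem_ker, Submodule.factor_mk, Submodule.mkQ_apply,
          Submodule.Quotient.mk_eq_zero] at hx
        obtain ⟨a, rfl⟩ := hx
        exact ⟨Submodule.Quotient.mk a, rfl⟩
      · rintro _ ⟨x, rfl⟩
        obtain ⟨a, rfl⟩ := Submodule.mkQ_surjective _ x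
        rw [LinearMap.mem_ker]
        change Submodule.Quotient.mk (j a) = 0
        rw [Submodule.Quotient.mk_eq_zero]
        exact ⟨a, rfl⟩
  have e2 : Module.length D (M ⧸ yJ) = Module.length D (M ⧸ J) +
      Module.length D (M ⧸ yM) := by
    have hle : J ≤ yJ.comap (LinearMap.lsmul D M y) := fun m hm => ⟨m, hm, rfl⟩
    refine Module.length_eq_add_of_exact (Submodule.mapQ _ _ (LinearMap.lsmul D M y) hle)
      (Submodule.factor hJ2) ?_ (Submodule.factor_surjective hJ2) ?_
    · rw [← LinearMap.ker_eq_bot, Submodule.ker_mapQ, eq_bot_iff]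
      rintro _ ⟨a, ⟨b, hb, hab⟩, rfl⟩
      rw [LinearMap.lsmul_apply, LinearMap.lsmul_apply] at hab
      have h1 : b = a := by
        have h2 := hy (b - a) (by rw [smul_sub, hab, sub_self])
        exact sub_eq_zero.1 h2
      rw [Submodule.mem_bot, Submodule.mkQ_apply, Submodule.Quotient.mk_eq_zero, ← h1]
      exact hb
    · rw [LinearMap.exact_iff]
      apply le_antisymm
      · intro x hx
        obtain ⟨m, rfl⟩ := Submodule.mkQ_surjective _ x
        rw [LinearMap.mem_ker, Submodule.factor_mk, Submodule.mkQ_apply,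
          Submodule.Quotient.mk_eq_zero] at hx
        obtain ⟨a, rfl⟩ := hx
        exact ⟨Submodule.Quotient.mk a, rfl⟩
      · rintro _ ⟨x, rfl⟩
        obtain ⟨a, rfl⟩ := Submodule.mkQ_surjective _ x
        rw [LinearMap.mem_ker]
        change Submodule.Quotient.mk (LinearMap.lsmul D M y a) = 0
        rw [Submodule.Quotient.mk_eq_zero]
        exact ⟨a, rfl⟩
  rw [e1, add_comm] at e2
  exact ENat.add_right_injective_of_ne_top hfin e2.symm

end Gen

/-! ### The chain -/

theorem chain {K D : Type} [Field K] [CommRing D] [Algebra D K] [IsNoetherianRing D]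
    (hprim : ∀ p : Ideal D, p.IsPrime → p ≠ ⊥ → p.IsMaximal)
    (hinj : Function.Injective (algebraMap D K)) (y : D) (hy : y ≠ 0) (N : ℕ)
    (hN : (N : ℕ∞) = Module.length D (D ⧸ Ideal.span {y})) (O : ValuationSubring K)
    (hDO : ∀ d : D, algebraMap D K d ∈ O) (z : ℕ → K) (hz0 : ∀ i ≤ N + 1, z i ≠ 0)
    (hzf : ∀ i ≤ N + 1, ∃ b a : D, b ≠ 0 ∧ algebraMap D K b * z i = algebraMap D K a)
    (hzO : z 0 ∈ O) (hzs : ∀ i < N + 1, z (i + 1) / z i ∈ O ∧ z i / z (i + 1) ∉ O)
    (hyz : algebraMap D K y / z (N + 1) ∈ O) : False := by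
  classical
  have hne : ∀ b : D, b ≠ 0 → algebraMap D K b ≠ 0 := fun b hb h =>
    hb (hinj (by rw [h, map_zero]))
  have hdom : ∀ a b : D, a ≠ 0 → b ≠ 0 → a * b ≠ 0 := by
    intro a b ha hb h
    have h1 : algebraMap D K a * algebraMap D K b = 0 := by rw [← map_mul, h, map_zero]
    exact (mul_ne_zero (hne a ha) (hne b hb)) h1
  have hzi : ∀ i ≤ N + 1, z i ∈ O := by
    intro i
    induction i with
    | zero => exact fun _ => hzO
    | succ i ih =>
      intro hi
      have h1 := O.mul_mem _ _ (ih (by omega)) (hzs i (by omega)).1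
      have h2 : z i * (z (i + 1) / z i) = z (i + 1) := by
        field_simp [hz0 i (by omega)]
      rwa [h2] at h1
  -- the module
  obtain ⟨S, hS⟩ : ∃ S : Finset K, S = insert 1 ((Finset.range (N + 2)).image z) := ⟨_, rfl⟩
  obtain ⟨M, hM⟩ : ∃ M : Submodule D K, M = Submodule.span D (S : Set K) := ⟨_, rfl⟩
  have hMfin : Module.Finite D M := by
    rw [hM]
    exact Module.Finite.span_of_finite _ (Finset.finite_toSet S)
  have h1M : (1 : K) ∈ M := by
    rw [hM]
    refine Submodule.subset_span ?_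
    rw [Finset.mem_coe, hS]
    exact Finset.mem_insert_self _ _
  have hzM : ∀ i ≤ N + 1, z i ∈ M := by
    intro i hi
    rw [hM]
    refine Submodule.subset_span ?_
    rw [Finset.mem_coe, hS]
    exact Finset.mem_insert_of_mem (Finset.mem_image.2 ⟨i, Finset.mem_range.2 (by omega), rfl⟩)
  have hMO : ∀ x ∈ M, x ∈ O := by
    intro x hx
    rw [hM] at hx
    induction hx using Submodule.span_induction with
    | mem x hx =>
      rw [Finset.mem_coe, hS, Finset.mem_insert, Finset.mem_image] at hx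
      rcases hx with rfl | ⟨i, hi, rfl⟩
      · exact O.one_mem
      · exact hzi i (by have := Finset.mem_range.1 hi; omega)
    | zero => exact O.zero_mem
    | add x y _ _ hx hy => exact O.add_mem _ _ hx hy
    | smul a x _ hx =>
      rw [Algebra.smul_def]
      exact O.mul_mem _ _ (hDO a) hx
  -- the common denominator
  have hden : ∃ b : D, b ≠ 0 ∧ ∀ s ∈ S, ∃ a : D, algebraMap D K b * s = algebraMap D K a := by
    have key : ∀ T : Finset K,
        (∀ s ∈ T, ∃ b a : D, b ≠ 0 ∧ algebraMap D K b * s = algebraMap D K a) →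
        ∃ b : D, b ≠ 0 ∧ ∀ s ∈ T, ∃ a : D, algebraMap D K b * s = algebraMap D K a := by
      intro T
      induction T using Finset.induction_on with
      | empty =>
        intro _
        refine ⟨1, ?_, fun s hs => absurd hs (Finset.notMem_empty s)⟩
        intro h
        apply hy
        rw [← one_mul y, h, zero_mul]
      | insert x T _ ih =>
        intro h
        obtain ⟨b, hb, hbT⟩ := ih (fun s hs => h s (Finset.mem_insert_of_mem hs))
        obtain ⟨b', a', hb', hx⟩ := h x (Finset.mem_insert_self _ _)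
        refine ⟨b * b', hdom b b' hb hb', ?_⟩
        intro s hs
        rcases Finset.mem_insert.1 hs with rfl | hs
        · refine ⟨b * a', ?_⟩
          rw [map_mul, map_mul, ← hx]
          ring
        · obtain ⟨a, ha⟩ := hbT s hs
          refine ⟨a * b', ?_⟩
          rw [map_mul, map_mul, ← ha]
          ring
    refine key S ?_
    intro s hs
    rw [hS, Finset.mem_insert, Finset.mem_image] at hs
    rcases hs with rfl | ⟨i, hi, rfl⟩
    · refine ⟨1, 1, ?_, by simp⟩
      intro h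
      apply hy
      rw [← one_mul y, h, zero_mul]
    · exact hzf i (by have := Finset.mem_range.1 hi; omega)
  obtain ⟨b, hb0, hb⟩ := hden
  have hbM : ∀ x ∈ M, ∃ d : D, algebraMap D K b * x = algebraMap D K d := by
    intro x hx
    rw [hM] at hx
    induction hx using Submodule.span_induction with
    | mem x hx => exact hb x hx
    | zero => exact ⟨0, by simp⟩
    | add x y _ _ hx hy =>
      obtain ⟨d, hd⟩ := hx
      obtain ⟨e, he⟩ := hy
      exact ⟨d + e, by rw [mul_add, hd, he, map_add]⟩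
    | smul a x _ hx =>
      obtain ⟨d, hd⟩ := hx
      refine ⟨a * d, ?_⟩
      rw [Algebra.smul_def, map_mul, ← hd]
      ring
  -- the copy of the ring
  let j : D →ₗ[D] M := LinearMap.codRestrict M (Algebra.linearMap D K) (fun d => by
    have h1 := M.smul_mem d h1M
    rw [Algebra.smul_def, mul_one] at h1
    exact h1)
  have hjv : ∀ d, ((j d : M) : K) = algebraMap D K d := fun d => rfl
  have hj : Function.Injective j := by
    intro d e hde
    apply hinj
    rw [← hjv, ← hjv, hde]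
  have hX : ∀ x : M ⧸ LinearMap.range j, b • x = 0 := by
    intro x
    obtain ⟨m, rfl⟩ := Submodule.mkQ_surjective _ x
    rw [← map_smul, Submodule.mkQ_apply, Submodule.Quotient.mk_eq_zero]
    obtain ⟨d, hd⟩ := hbM m m.2
    refine ⟨d, ?_⟩
    apply Subtype.ext
    rw [hjv, ← hd, Submodule.coe_smul, Algebra.smul_def]
  have hXa : IsArtinian D (M ⧸ LinearMap.range j) := artmod hprim _ hb0 hX
  have hlen := len j hj y (by
    intro m hm
    have h1 : y • (m : K) = 0 := congrArg Subtype.val hm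
    rw [Algebra.smul_def] at h1
    exact Subtype.ext ((mul_eq_zero.1 h1).resolve_left (hne y hy))) Module.length_ne_top
  rw [← hN, Module.length_quotient] at hlen
  -- the chain
  let Z : ℕ → Submodule D M := fun i =>
    { carrier := {x | (x : K) / z i ∈ O}
      add_mem' := by
        intro a b ha hb
        change ((a : K) + (b : K)) / z i ∈ O
        rw [add_div]
        exact O.add_mem _ _ ha hb
      zero_mem' := by
        change ((0 : M) : K) / z i ∈ O
        rw [Submodule.coe_zero, zero_div]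
        exact O.zero_mem
      smul_mem' := by
        intro c x hx
        change (c • (x : K)) / z i ∈ O
        rw [Algebra.smul_def, mul_div_assoc]
        exact O.mul_mem _ _ (hDO c) hx }
  have hZ : ∀ i (x : M), x ∈ Z i ↔ (x : K) / z i ∈ O := fun i x => Iff.rfl
  have hlt : ∀ i < N + 1, Z (i + 1) < Z i := by
    intro i hi
    have h0 := hz0 i (by omega)
    have h1 := hz0 (i + 1) (by omega)
    obtain ⟨h2, h3⟩ := hzs i hi
    refine lt_of_le_of_ne ?_ ?_
    · intro x hx
      rw [hZ] at hx ⊢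
      have h4 := O.mul_mem _ _ hx h2
      have h5 : (x : K) / z (i + 1) * (z (i + 1) / z i) = (x : K) / z i := by
        field_simp
      rwa [h5] at h4
    · intro h
      have h4 : (⟨z i, hzM i (by omega)⟩ : M) ∈ Z i := by
        rw [hZ]
        change z i / z i ∈ O
        rw [div_self h0]
        exact O.one_mem
      rw [← h, hZ] at h4
      exact h3 h4
  have hhead : LinearMap.range (LinearMap.lsmul D M y) ≤ Z (N + 1) := by
    rintro _ ⟨m, rfl⟩
    rw [hZ]
    change (y • (m : K)) / z (N + 1) ∈ O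
    rw [Algebra.smul_def, mul_comm, mul_div_assoc]
    exact O.mul_mem _ _ (hMO _ m.2) hyz
  let p : LTSeries (Submodule D M) :=
    LTSeries.mk (N + 1) (fun i : Fin (N + 2) => Z (N + 1 - i.val)) (by
      rw [Fin.strictMono_iff_lt_succ]
      intro i
      have h1 : N + 1 - (i.castSucc).val = (N + 1 - (i.succ).val) + 1 := by
        rw [Fin.val_castSucc, Fin.val_succ]
        omega
      rw [h1]
      exact hlt _ (by rw [Fin.val_succ]; omega))
  have hph : p.head = Z (N + 1) := rfl
  have hpl : (p.length : ℕ∞) = ((N + 1 : ℕ) : ℕ∞) := rfl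
  have hfin := Order.length_le_coheight (p := p)
    (x := LinearMap.range (LinearMap.lsmul D M y)) (by rw [hph]; exact hhead)
  rw [hlen, hpl] at hfin
  have := Nat.cast_le.1 hfin
  omega

/-! ### The localization -/

section Loc

variable {K : Type} [Field K] (R : Subring K) (P : Ideal R) [P.IsPrime]

theorem unit_of_compl (s : P.primeCompl) : IsUnit (R.subtype (s : R)) := by
  refine IsUnit.mk0 _ ?_
  intro h
  have h1 : (s : R) = 0 := Subtype.ext h
  exact s.2 (by rw [h1]; exact P.zero_mem)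

/-- the map of the localization to the field -/
noncomputable def toK : Localization.AtPrime P →+* K :=
  IsLocalization.lift (M := P.primeCompl) (S := Localization.AtPrime P) (g := R.subtype)
    (unit_of_compl R P)

theorem toK_mk' (a : R) (s : P.primeCompl) :
    toK R P (IsLocalization.mk' (Localization.AtPrime P) a s) = (a : K) / ((s : R) : K) := by
  have h1 : ((s : R) : K) ≠ 0 := (unit_of_compl R P s).ne_zero
  unfold toK
  rw [IsLocalization.lift_mk'_spec]
  change (a : K) = ((s : R) : K) * ((a : K) / ((s : R) : K))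
  field_simp

theorem toK_alg (a : R) : toK R P (algebraMap R (Localization.AtPrime P) a) = (a : K) := by
  unfold toK
  rw [IsLocalization.lift_eq]
  rfl

theorem toK_inj : Function.Injective (toK R P) := by
  rw [injective_iff_map_eq_zero]
  intro x hx
  obtain ⟨a, s, rfl⟩ := IsLocalization.exists_mk'_eq P.primeCompl x
  rw [toK_mk', div_eq_zero_iff] at hx
  rcases hx with hx | hx
  · have h1 : a = 0 := Subtype.ext hx
    rw [h1, IsLocalization.mk'_zero]
  · exact absurd hx (unit_of_compl R P s).ne_zero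

theorem primes (hP : ∀ P' : Ideal R, P'.IsPrime → P' < P → P' = ⊥) :
    ∀ p : Ideal (Localization.AtPrime P), p.IsPrime → p ≠ ⊥ → p.IsMaximal := by
  intro p hp hne
  have hmem : ∀ (a : R) (s : P.primeCompl),
      IsLocalization.mk' (Localization.AtPrime P) a s ∈ p ↔
        a ∈ p.comap (algebraMap R (Localization.AtPrime P)) := by
    intro a s
    rw [Ideal.mem_comap]
    constructor
    · intro h
      have h1 := Ideal.mul_mem_left p (algebraMap R (Localization.AtPrime P) s) h
      rwa [IsLocalization.mk'_spec'] at h1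
    · intro h
      rw [IsLocalization.mk'_eq_mul_mk'_one]
      exact Ideal.mul_mem_right _ _ h
  have h0 : (p.comap (algebraMap R (Localization.AtPrime P))).IsPrime := inferInstance
  have h1 : p.comap (algebraMap R (Localization.AtPrime P)) ≤ P := by
    intro a ha
    by_contra hc
    apply hp.ne_top
    have h2 : IsUnit (algebraMap R (Localization.AtPrime P) a) :=
      IsLocalization.map_units (Localization.AtPrime P) (⟨a, hc⟩ : P.primeCompl)
    exact Ideal.eq_top_of_isUnit_mem p ha h2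
  have h2 : p.comap (algebraMap R (Localization.AtPrime P)) = P := by
    by_contra hc
    have h3 := hP _ h0 (lt_of_le_of_ne h1 hc)
    apply hne
    rw [eq_bot_iff]
    intro x hx
    obtain ⟨a, s, rfl⟩ := IsLocalization.exists_mk'_eq P.primeCompl x
    rw [hmem, h3] at hx
    have h4 : a = 0 := hx
    rw [h4, IsLocalization.mk'_zero]
    exact Submodule.zero_mem _
  have h3 : p = IsLocalRing.maximalIdeal (Localization.AtPrime P) := by
    apply le_antisymm (IsLocalRing.le_maximalIdeal hp.ne_top)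
    intro x hx
    obtain ⟨a, s, rfl⟩ := IsLocalization.exists_mk'_eq P.primeCompl x
    rw [hmem, h2]
    exact (IsLocalization.AtPrime.mk'_mem_maximal_iff (Localization.AtPrime P) P a s).1 hx
  rw [h3]
  exact IsLocalRing.maximalIdeal.isMaximal _

end Loc

end KA

open KA in
theorem I_KA : StKA := by
  intro K _ R _ P _ hP y _ hy0
  let _ : Algebra (Localization.AtPrime P) K := (toK R P).toAlgebra
  have hal : ∀ d : Localization.AtPrime P, algebraMap (Localization.AtPrime P) K d =
    toK R P d := fun d => rfl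
  have hnoeth : IsNoetherianRing (Localization.AtPrime P) :=
    IsLocalization.isNoetherianRing P.primeCompl (Localization.AtPrime P) inferInstance
  have hprim := primes R P hP
  have hne : ∀ b : R, b ≠ 0 → algebraMap R (Localization.AtPrime P) b ≠ 0 := by
    intro b hb h
    apply hb
    have h1 := toK_alg R P b
    rw [h, map_zero] at h1
    exact Subtype.ext h1.symm
  have hart := artquot hprim _ (hne y hy0)
  have hfinN : Module.length (Localization.AtPrime P) (Localization.AtPrime P ⧸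
      Ideal.span {algebraMap R (Localization.AtPrime P) y}) ≠ ⊤ := Module.length_ne_top
  obtain ⟨N, hN⟩ := ENat.ne_top_iff_exists.1 hfinN
  refine ⟨N + 1, ?_⟩
  rintro O hRO hPO ⟨z, hz0, hzf, hzO, hzs, hyz⟩
  refine chain hprim (toK_inj R P) (algebraMap R (Localization.AtPrime P) y) (hne y hy0) N hN O
    ?_ z hz0 ?_ hzO hzs ?_
  · intro d
    obtain ⟨a, s, rfl⟩ := IsLocalization.exists_mk'_eq P.primeCompl d
    rw [hal, toK_mk', div_eq_mul_inv]
    exact O.mul_mem _ _ (hRO _ a.2) (hPO s s.2)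
  · intro i hi
    obtain ⟨a, b, hb, hz⟩ := hzf i hi
    have hbK : (b : K) ≠ 0 := fun h => hb (Subtype.ext h)
    refine ⟨algebraMap R _ b, algebraMap R _ a, hne b hb, ?_⟩
    rw [hal, hal, toK_alg, toK_alg, hz]
    field_simp
  · rw [hal, toK_alg]
    exact hyz

end Pool.Agent.Work.MP_e9e200_al.LC

end

section

/-!
# Dual elements for integral characters near linearly independent characters
(MP_e9e200_al, LC, LIN)
-/

set_option autoImplicit false

namespace Pool.Agent.Work.MP_e9e200_al.LC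

namespace LIN

theorem vl_one {G : Type} [Group G] (χ : Chr G) : vl χ 1 = 0 := by
  simp [vl]

theorem vl_mul {G : Type} [Group G] (χ : Chr G) (a b : G) : vl χ (a * b) = vl χ a + vl χ b := by
  simp [vl]

theorem vl_zpow {G : Type} [Group G] (χ : Chr G) (a : G) (z : ℤ) : vl χ (a ^ z) = z * vl χ a := by
  simp [vl]

theorem vl_prod {G : Type} [Group G] (χ : Chr G) (l : List G) :
    vl χ l.prod = (l.map (vl χ)).sum := by
  induction l with
  | nil => simp [vl_one]
  | cons a l ih => simp [vl_mul, ih]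

theorem exists_det {G : Type} [Group G] {n : ℕ} {X : Fin n → (Additive G →+ ℝ)}
    (hX : LinearIndependent ℝ X) :
    ∃ g : Fin n → G, (Matrix.of fun i j => X i (Additive.ofMul (g j))).det ≠ 0 := by
  classical
  set v : G → (Fin n → ℝ) := fun g i => X i (Additive.ofMul g) with hv
  have hspan : Submodule.span ℝ (Set.range v) = ⊤ := by
    by_contra hne
    obtain ⟨f, hf0, hf⟩ := Submodule.exists_le_ker_of_lt_top _ (lt_top_iff_ne_top.2 hne)
    have h1 : ∀ x : Fin n → ℝ, f x = ∑ i, f (Pi.single i 1) * x i := by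
      intro x
      conv_lhs => rw [← Finset.univ_sum_single x]
      rw [map_sum]
      refine Finset.sum_congr rfl fun i _ => ?_
      have : (Pi.single i (x i) : Fin n → ℝ) = x i • Pi.single i 1 := by
        rw [← Pi.single_smul]
        simp
      rw [this, map_smul, smul_eq_mul, mul_comm]
    have h2 : ∑ i, f (Pi.single i 1) • X i = 0 := by
      refine AddMonoidHom.ext fun g => ?_
      have h3 : f (v (Additive.toMul g)) = 0 :=
        hf (Submodule.subset_span ⟨Additive.toMul g, rfl⟩)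
      rw [h1] at h3
      rw [AddMonoidHom.finsetSum_apply, AddMonoidHom.zero_apply, ← h3]
      refine Finset.sum_congr rfl fun i _ => ?_
      rfl
    have h4 := Fintype.linearIndependent_iff.1 hX _ h2
    refine hf0 (LinearMap.ext fun x => ?_)
    rw [h1, LinearMap.zero_apply]
    exact Finset.sum_eq_zero fun i _ => by rw [h4 i, zero_mul]
  obtain ⟨b, hb, hbs, hbl⟩ := exists_linearIndependent ℝ (Set.range v)
  have hbs' : ⊤ ≤ Submodule.span ℝ (Set.range ((↑) : b → (Fin n → ℝ))) := by
    rw [Subtype.range_coe, hbs, hspan]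
  let B := Module.Basis.mk hbl hbs'
  have hfin : Finite b := Module.Finite.finite_basis B
  have := Fintype.ofFinite b
  have hcard : Fintype.card b = n := by
    have h5 := Module.finrank_eq_card_basis B
    rw [Module.finrank_fin_fun] at h5
    exact h5.symm
  let e : Fin n ≃ b := (Fintype.equivFinOfCardEq hcard).symm
  choose g hg using fun j : Fin n => hb (e j).2
  refine ⟨g, ?_⟩
  have h6 : LinearIndependent ℝ (fun j : Fin n => ((e j : b) : Fin n → ℝ)) :=
    hbl.comp e e.injective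
  have h7 : LinearIndependent ℝ (Matrix.of fun j i => X i (Additive.ofMul (g j))).row := by
    convert h6 using 1
    funext j
    rw [← hg j]
    rfl
  rw [Matrix.linearIndependent_rows_iff_isUnit, Matrix.isUnit_iff_isUnit_det] at h7
  rw [← Matrix.det_transpose]
  exact h7.ne_zero

end LIN

open LIN in
theorem I_LIN : StLIN := by
  classical
  intro G _ n X hX
  obtain ⟨g, hg⟩ := exists_det hX
  have hcont : Continuous (fun A : Fin n → Fin n → ℝ => (Matrix.of A).det) := by
    refine Continuous.matrix_det ?_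
    exact continuous_id
  have hopen : IsOpen {A : Fin n → Fin n → ℝ | (Matrix.of A).det ≠ 0} :=
    isOpen_ne_fun hcont continuous_const
  obtain ⟨ε, hε, hball⟩ := Metric.isOpen_iff.1 hopen
    (fun i j => X i (Additive.ofMul (g j))) hg
  refine ⟨Finset.univ.image g, ε, hε, ?_⟩
  intro X' c hc hnear
  set N : Matrix (Fin n) (Fin n) ℤ := Matrix.of fun i j => vl (X' i) (g j) with hN
  have h1 : (Matrix.of fun i j => c i * (vl (X' i) (g j) : ℝ)).det ≠ 0 := by
    refine hball ?_
    rw [Metric.mem_ball, dist_pi_lt_iff hε]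
    intro i
    rw [dist_pi_lt_iff hε]
    intro j
    rw [Real.dist_eq]
    exact hnear i (g j) (Finset.mem_image_of_mem _ (Finset.mem_univ _))
  have h2 : N.det ≠ 0 := by
    intro h0
    refine h1 ?_
    have h3 : (Matrix.of fun i j => c i * (vl (X' i) (g j) : ℝ)) =
        Matrix.of fun i j => c i * ((Int.castRingHom ℝ).mapMatrix N) i j := by
      ext i j
      simp [hN]
    rw [h3, Matrix.det_mul_column, ← RingHom.map_det, h0, map_zero, mul_zero]
  refine ⟨|N.det|, fun j => (List.ofFn fun k => g k ^ (N.det.sign * N.adjugate k j)).prod,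
    abs_pos.2 h2, ?_⟩
  intro i j
  rw [vl_prod, List.map_ofFn, List.sum_ofFn]
  have h3 : ∀ k, (vl (X' i) ∘ fun k => g k ^ (N.det.sign * N.adjugate k j)) k =
      N.det.sign * (N i k * N.adjugate k j) := by
    intro k
    show vl (X' i) (g k ^ (N.det.sign * N.adjugate k j)) = _
    rw [vl_zpow]
    show _ = N.det.sign * (vl (X' i) (g k) * _)
    ring
  rw [Finset.sum_congr rfl fun k _ => h3 k, ← Finset.mul_sum, ← Matrix.mul_apply,
    Matrix.mul_adjugate, Matrix.smul_apply, Matrix.one_apply, smul_eq_mul]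
  by_cases hij : i = j
  · rw [if_pos hij, if_pos hij, mul_one, Int.sign_mul_self_eq_abs]
  · rw [if_neg hij, if_neg hij, mul_zero, mul_zero]

end Pool.Agent.Work.MP_e9e200_al.LC

end

section

/-!
# Project LC: assembly of the lower inclusion
-/

set_option autoImplicit false

namespace Pool.Agent.Work.MP_e9e200_al.LC

namespace LOW

/-- an integral character as a real character -/
def rch {G : Type} [Group G] (χ : Chr G) : Additive G →+ ℝ :=
  AddMonoidHom.mk' (fun g => ((vl χ (Additive.toMul g) : ℤ) : ℝ)) (by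
    intro a b
    have h : vl χ (Additive.toMul (a + b)) = vl χ (Additive.toMul a) + vl χ (Additive.toMul b) := by
      show Multiplicative.toAdd (χ (Additive.toMul a * Additive.toMul b)) = _
      rw [map_mul]
      rfl
    rw [h]
    push_cast
    rfl)

theorem rch_apply {G : Type} [Group G] (χ : Chr G) (g : G) :
    rch χ (Additive.ofMul g) = ((vl χ g : ℤ) : ℝ) := rfl

end LOW

open LOW in
theorem I_LOW (hRES : StRES) (hCHG : StCHG) (hOPEN : StOPEN) (hLIN : StLIN) (hDENS : StDENS)
    (hDISC : StDISC) (hMono : StMono) (hCar : StCar) (hSig : StSig1) : StLOW := by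
  intro m G _ _ hm hmet v hv
  classical
  obtain ⟨hv0, s, hcard, hs, hconv⟩ := hv
  refine ⟨hv0, fun hfp => ?_⟩
  obtain ⟨n, hn, w, c, hli, hwc, hsum⟩ := hCar _ s v 0 hconv
  obtain _ | n := n
  · rw [Finset.sum_range_zero] at hsum
    exact hv0 hsum
  let X : Fin (n + 1) → (Additive G →+ ℝ) := fun i => c i • w i
  have hXli : LinearIndependent ℝ X :=
    hli.units_smul (fun i : Fin (n + 1) => Units.mk0 (c i) (hwc i i.2).2.1.ne')
  have hX0 : ∀ i, X i ≠ 0 := fun i => hXli.ne_zero i
  have hXsum : v = ∑ i, X i := by rw [hsum, Finset.sum_range]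
  have hXng : ∀ i, ∀ V : Finset G, (∀ v ∈ V, v ∈ commutator G) →
      ∃ a ∈ commutator G, a ∉ Gen G (X i) V := by
    intro i V hV
    obtain ⟨h1, h2, -⟩ := hwc i i.2
    obtain ⟨χ, hχ, d, hd, hw⟩ := hs _ h1
    have h3 : Gen G (X i) V = Gen G χ V := by
      show Gen G (c i • w i) V = _
      rw [hw, smul_smul, Glue3.gen_smul (mul_pos h2 hd)]
    rw [h3]
    by_contra hcon
    push Not at hcon
    exact hχ.2 (hSig G hmet χ hχ.1 V hV hcon)
  obtain ⟨B0, hB0, deg0, db0, eb0, hP0⟩ :=
    hRES G (Gmon v) (n + 1) (hMono _ _ m (n + 1) (by omega) hfp)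
  have hP := hCHG G (Gmon v) (n + 1) B0 deg0 db0 eb0 hP0
  obtain ⟨F1, ε1, hε1, hopen⟩ := hOPEN G v hv0 (n + 1) B0 deg0 _ _ hP
  obtain ⟨F2, ε2, hε2, hlin⟩ := hLIN G (n + 1) X hXli
  have hn1 : (0 : ℝ) < 2 * ((n : ℝ) + 1) := by positivity
  have hε : 0 < min ε2 (ε1 / (2 * ((n : ℝ) + 1))) := lt_min hε2 (div_pos hε1 hn1)
  choose χ a ha hsurj hclose hnfg using fun i =>
    hDENS G hmet (X i) (hX0 i) (hXng i) (F1 ∪ F2) _ hε
  obtain ⟨c', h, hc', hdual⟩ := hlin χ a ha (fun i g hg =>
    lt_of_lt_of_le (hclose i g (Finset.mem_union_right _ hg)) (min_le_left _ _))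
  -- the denominator
  obtain ⟨M, hM⟩ : ∃ M : ℝ, M = ∑ i, ∑ g ∈ F1, |((vl (χ i) g : ℤ) : ℝ)| := ⟨_, rfl⟩
  have hM0 : 0 ≤ M := by
    rw [hM]
    exact Finset.sum_nonneg fun i _ => Finset.sum_nonneg fun g _ => abs_nonneg _
  obtain ⟨N, hN⟩ := exists_nat_gt (2 * M / ε1)
  have hN0 : (0 : ℝ) < N := lt_of_le_of_lt (by positivity) hN
  have hMN : M / N < ε1 / 2 := by
    rw [div_lt_iff₀ hN0]
    rw [div_lt_iff₀ hε1] at hN
    linarith
  let k : Fin (n + 1) → ℕ := fun i => ⌈(N : ℝ) * a i⌉₊
  have hk : ∀ i, 0 < k i := fun i => Nat.ceil_pos.2 (mul_pos hN0 (ha i))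
  have hkb : ∀ i, |(k i : ℝ) / N - a i| ≤ 1 / N := by
    intro i
    have h1 : (N : ℝ) * a i ≤ k i := Nat.le_ceil _
    have h2 : (k i : ℝ) < (N : ℝ) * a i + 1 := Nat.ceil_lt_add_one (mul_pos hN0 (ha i)).le
    have h3 : (k i : ℝ) / N - a i = ((k i : ℝ) - N * a i) / N := by
      field_simp
    rw [h3, abs_div, abs_of_pos hN0, abs_of_nonneg (by linarith)]
    exact div_le_div_of_nonneg_right (by linarith) hN0.le
  let v' : Additive G →+ ℝ := ∑ i, ((k i : ℝ) / N) • rch (χ i)
  have hv'val : ∀ g, v' (Additive.ofMul g) = ∑ i, ((k i : ℝ) / N) * ((vl (χ i) g : ℤ) : ℝ) := by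
    intro g
    show (∑ i, ((k i : ℝ) / N) • rch (χ i)) (Additive.ofMul g) = _
    rw [AddMonoidHom.finsetSum_apply]
    rfl
  have hvval : ∀ g, v (Additive.ofMul g) = ∑ i, X i (Additive.ofMul g) := by
    intro g
    conv_lhs => rw [hXsum]
    rw [AddMonoidHom.finsetSum_apply]
  have hscale : ∀ g, v' (Additive.ofMul g) =
      ((∑ i, (k i : ℤ) * vl (χ i) g : ℤ) : ℝ) / N := by
    intro g
    rw [hv'val, Int.cast_sum, Finset.sum_div]
    refine Finset.sum_congr rfl fun i _ => ?_
    push_cast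
    ring
  have hv'0 : v' ≠ 0 := by
    intro h0
    have h1 := hscale (h 0)
    rw [h0] at h1
    have h2 : (∑ i, (k i : ℤ) * vl (χ i) (h 0) : ℤ) = (k 0 : ℤ) * c' := by
      rw [Finset.sum_eq_single 0]
      · rw [hdual, if_pos rfl]
      · intro i _ hi
        rw [hdual, if_neg hi, mul_zero]
      · intro h; exact absurd (Finset.mem_univ _) h
    rw [h2] at h1
    have h3 : (0 : ℝ) < (((k 0 : ℤ) * c' : ℤ) : ℝ) / N := by
      apply div_pos _ hN0
      exact_mod_cast mul_pos (by exact_mod_cast hk 0) hc'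
    have h4 : (0 : Additive G →+ ℝ) (Additive.ofMul (h 0)) = 0 := rfl
    rw [h4] at h1
    exact absurd h1 h3.ne
  have hnear : ∀ g ∈ F1, |v' (Additive.ofMul g) - v (Additive.ofMul g)| < ε1 := by
    intro g hg
    rw [hv'val, hvval, ← Finset.sum_sub_distrib]
    have h1 : ∀ i ∈ (Finset.univ : Finset (Fin (n + 1))),
        |((k i : ℝ) / N) * ((vl (χ i) g : ℤ) : ℝ) - X i (Additive.ofMul g)| ≤
        (1 / N) * |((vl (χ i) g : ℤ) : ℝ)| + ε1 / (2 * ((n : ℝ) + 1)) := by
      intro i _
      have h2 : ((k i : ℝ) / N) * ((vl (χ i) g : ℤ) : ℝ) - X i (Additive.ofMul g) =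
          ((k i : ℝ) / N - a i) * ((vl (χ i) g : ℤ) : ℝ) +
          (a i * ((vl (χ i) g : ℤ) : ℝ) - X i (Additive.ofMul g)) := by ring
      rw [h2]
      refine (abs_add_le _ _).trans (add_le_add ?_ ?_)
      · rw [abs_mul]
        exact mul_le_mul_of_nonneg_right (hkb i) (abs_nonneg _)
      · exact (hclose i g (Finset.mem_union_left _ hg)).le.trans (min_le_right _ _)
    refine lt_of_le_of_lt ((Finset.abs_sum_le_sum_abs _ _).trans (Finset.sum_le_sum h1)) ?_
    rw [Finset.sum_add_distrib, ← Finset.mul_sum, Finset.sum_const, Finset.card_univ,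
      Fintype.card_fin, nsmul_eq_mul]
    have h3 : ∑ i, |((vl (χ i) g : ℤ) : ℝ)| ≤ M := by
      rw [hM]
      refine Finset.sum_le_sum fun i _ => ?_
      exact Finset.single_le_sum (f := fun g => |((vl (χ i) g : ℤ) : ℝ)|)
        (fun _ _ => abs_nonneg _) hg
    have h4 : 1 / (N : ℝ) * ∑ i, |((vl (χ i) g : ℤ) : ℝ)| ≤ M / N := by
      rw [one_div, inv_mul_eq_div]
      exact div_le_div_of_nonneg_right h3 hN0.le
    have h5 : ((n + 1 : ℕ) : ℝ) * (ε1 / (2 * ((n : ℝ) + 1))) = ε1 / 2 := by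
      push_cast
      field_simp
    rw [h5]
    linarith
  obtain ⟨B', hB', deg', db', eb', hP'⟩ := hopen v' hv'0 hnear
  have hset : (Pool.Agent.Work.MP_e9e200_al.LC.hs v' 0 : Set G) = {g : G | 0 ≤ ∑ i, (k i : ℤ) * vl (χ i) g} := by
    ext g
    show 0 ≤ v' (Additive.ofMul g) ↔ 0 ≤ ∑ i, (k i : ℤ) * vl (χ i) g
    rw [hscale, div_nonneg_iff]
    constructor
    · rintro (⟨h1, -⟩ | ⟨-, h1⟩)
      · exact_mod_cast h1
      · exact absurd h1 (not_le.2 hN0)
    · intro h1
      exact Or.inl ⟨by exact_mod_cast h1, hN0.le⟩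
  rw [hset] at hP'
  exact hDISC G hmet (n + 1) (by omega) χ k c' h hc' hk hdual hsurj hnfg B' deg' db' eb' hP'

end Pool.Agent.Work.MP_e9e200_al.LC

end

section

/-!
# The derived group as a module over the group ring of the abelianization
-/

set_option autoImplicit false

namespace Pool.Agent.Work.MP_e9e200_al.LC

theorem I_MOD : StMOD := by
  intro G _ hmet
  classical
  let i0 : CommGroup (commutator G) :=
    { (inferInstance : Group (commutator G)) with
      mul_comm := fun a b => Subtype.ext (hmet a a.2 b b.2) }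
  let M : Type := Additive (commutator G)
  let i1 : AddCommGroup M := inferInstanceAs (AddCommGroup (Additive (commutator G)))
  let c0 : G →* AddMonoid.End M :=
    { toFun := fun g => AddMonoidHom.mk' (fun a : M =>
        (Additive.ofMul (MulAut.conjNormal g (Additive.toMul a)) : M)) (by
          intro a b
          have h : MulAut.conjNormal g (Additive.toMul a * Additive.toMul b) =
              MulAut.conjNormal g (Additive.toMul a) * MulAut.conjNormal g (Additive.toMul b) :=
            map_mul _ _ _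
          exact congrArg Additive.ofMul h)
      map_one' := by
        refine AddMonoidHom.ext fun a => ?_
        show Additive.ofMul (MulAut.conjNormal (1 : G) (Additive.toMul a)) = a
        rw [map_one]
        rfl
      map_mul' := by
        intro g h
        refine AddMonoidHom.ext fun a => ?_
        show Additive.ofMul (MulAut.conjNormal (g * h) (Additive.toMul a)) =
          Additive.ofMul (MulAut.conjNormal g (MulAut.conjNormal h (Additive.toMul a)))
        rw [map_mul]
        rfl }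
  have hker : commutator G ≤ c0.ker := by
    intro g hg
    rw [MonoidHom.mem_ker]
    refine AddMonoidHom.ext fun a => ?_
    show Additive.ofMul (MulAut.conjNormal g (Additive.toMul a)) = a
    have h : MulAut.conjNormal g (Additive.toMul a) = Additive.toMul a := by
      apply Subtype.ext
      rw [MulAut.conjNormal_apply, hmet g hg _ (Additive.toMul a).2, mul_inv_cancel_right]
    rw [h]
    rfl
  let c1 : Abelianization G →* AddMonoid.End M := QuotientGroup.lift (commutator G) c0 hker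
  have hc1 : ∀ g, c1 (Abelianization.of g) = c0 g := fun g => QuotientGroup.lift_mk' _ _ g
  let ρ : MonoidAlgebra ℤ (Abelianization G) →ₐ[ℤ] AddMonoid.End M :=
    MonoidAlgebra.lift ℤ (AddMonoid.End M) (Abelianization G) c1
  let i2 : Module (MonoidAlgebra ℤ (Abelianization G)) M := Module.compHom M ρ.toRingHom
  have hof : ∀ (g : G) (x : M),
      MonoidAlgebra.of ℤ (Abelianization G) (Abelianization.of g) • x = c0 g x := by
    intro g x
    change ρ (MonoidAlgebra.of ℤ (Abelianization G) (Abelianization.of g)) x = c0 g x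
    rw [MonoidAlgebra.lift_of, hc1]
  refine ⟨M, i1, i2, fun a => if h : a ∈ commutator G then Additive.ofMul ⟨a, h⟩ else 0, ?_, ?_,
    ?_, ?_⟩
  · intro a ha b hb
    rw [dif_pos ha, dif_pos hb, dif_pos (mul_mem ha hb)]
    rfl
  · intro a ha h
    rw [dif_pos ha] at h
    have h1 : (⟨a, ha⟩ : commutator G) = 1 := h
    exact congrArg Subtype.val h1
  · intro x
    refine ⟨(Additive.toMul x : commutator G), (Additive.toMul x).2, ?_⟩
    rw [dif_pos (Additive.toMul x).2]
    rfl
  · intro g a ha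
    have h1 : g * a * g⁻¹ ∈ commutator G :=
      (inferInstance : (commutator G).Normal).conj_mem a ha g
    rw [dif_pos ha, dif_pos h1, hof]
    show Additive.ofMul _ = Additive.ofMul _
    congr 1

end Pool.Agent.Work.MP_e9e200_al.LC

end

section

/-!
# Neighbourhoods of a character (MP_e9e200_al, LC, NB)
-/

set_option autoImplicit false

namespace Pool.Agent.Work.MP_e9e200_al.LC

namespace NB

variable {Q : Type} [CommGroup Q]

theorem val_a (θ : Additive Q →+ ℝ) (f q : Q) (L : ℕ) (p : ℤ) :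
    θ (Additive.ofMul (f ^ L * q ^ (-p))) =
      L * θ (Additive.ofMul f) - p * θ (Additive.ofMul q) := by
  rw [ofMul_mul, map_add, ofMul_pow, ofMul_zpow, map_nsmul, map_zsmul]
  simp
  ring

theorem val_b (θ : Additive Q →+ ℝ) (f q : Q) (L : ℕ) (p : ℤ) :
    θ (Additive.ofMul ((f ^ L)⁻¹ * q ^ (p + 1))) =
      (p + 1) * θ (Additive.ofMul q) - L * θ (Additive.ofMul f) := by
  rw [ofMul_mul, map_add, ofMul_inv, map_neg, ofMul_pow, ofMul_zpow, map_nsmul, map_zsmul]
  simp
  ring

theorem close (a b c d L p : ℝ) (hL : 0 < L) (hb : 0 < b) (hd : 0 < d)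
    (h1 : 0 ≤ L * a - p * b) (h2 : 0 ≤ (p + 1) * b - L * a)
    (h3 : 0 ≤ L * c - p * d) (h4 : 0 ≤ (p + 1) * d - L * c) :
    |b / d * c - a| ≤ b / L := by
  have e : b / d * c - a = (b * (L * c / d) - L * a) / L := by
    field_simp
  have h5 : p ≤ L * c / d := by
    rw [le_div_iff₀ hd]; linarith
  have h6 : L * c / d ≤ p + 1 := by
    rw [div_le_iff₀ hd]; linarith
  rw [e, abs_div, abs_of_pos hL]
  refine div_le_div_of_nonneg_right ?_ hL.le
  rw [abs_le]
  constructor
  · nlinarith [mul_le_mul_of_nonneg_left h5 hb.le]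
  · nlinarith [mul_le_mul_of_nonneg_left h6 hb.le]

end NB

open NB in
theorem I_NB : StNB := by
  classical
  intro Q _ hFG χ hχ F ε hε
  -- an element with positive value
  obtain ⟨q0, hq0⟩ : ∃ q0 : Q, 0 < χ (Additive.ofMul q0) := by
    by_contra hcon
    push Not at hcon
    refine hχ (AddMonoidHom.ext fun q => ?_)
    have h1 := hcon (Additive.toMul q)
    have h2 := hcon (Additive.toMul q)⁻¹
    rw [ofMul_inv, map_neg] at h2
    rw [ofMul_toMul] at h1 h2
    rw [AddMonoidHom.zero_apply]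
    linarith
  obtain ⟨F0, hF0⟩ := (Group.fg_def.1 hFG : (⊤ : Subgroup Q).FG)
  obtain ⟨L, hL⟩ := exists_nat_gt (χ (Additive.ofMul q0) / ε)
  have hL0 : (0 : ℝ) < L := (div_pos hq0 hε).trans hL
  have hL1 : 0 < L := by exact_mod_cast hL0
  set p : Q → ℤ := fun f => ⌊(L : ℝ) * χ (Additive.ofMul f) / χ (Additive.ofMul q0)⌋ with hp
  set E : Finset Q := F ∪ F0 with hE
  set X : Finset Q := insert q0 (E.image (fun f => f ^ L * q0 ^ (-(p f))) ∪
    E.image (fun f => (f ^ L)⁻¹ * q0 ^ (p f + 1))) with hX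
  have hq0X : q0 ∈ X := Finset.mem_insert_self _ _
  have hXa : ∀ f ∈ E, f ^ L * q0 ^ (-(p f)) ∈ X := fun f hf =>
    Finset.mem_insert_of_mem (Finset.mem_union_left _ (Finset.mem_image_of_mem _ hf))
  have hXb : ∀ f ∈ E, (f ^ L)⁻¹ * q0 ^ (p f + 1) ∈ X := fun f hf =>
    Finset.mem_insert_of_mem (Finset.mem_union_right _ (Finset.mem_image_of_mem _ hf))
  have hχa : ∀ f, 0 ≤ L * χ (Additive.ofMul f) - p f * χ (Additive.ofMul q0) := by
    intro f
    have h1 : (p f : ℝ) ≤ L * χ (Additive.ofMul f) / χ (Additive.ofMul q0) := Int.floor_le _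
    rw [le_div_iff₀ hq0] at h1
    linarith
  have hχb : ∀ f, 0 ≤ (p f + 1) * χ (Additive.ofMul q0) - L * χ (Additive.ofMul f) := by
    intro f
    have h1 : L * χ (Additive.ofMul f) / χ (Additive.ofMul q0) < (p f : ℝ) + 1 :=
      Int.lt_floor_add_one _
    rw [div_lt_iff₀ hq0] at h1
    linarith
  refine ⟨q0, X, L, hL1, hq0, hq0X, ?_, ?_, ?_⟩
  · intro x hx
    rcases Finset.mem_insert.1 hx with rfl | hx
    · exact hq0.le
    · rcases Finset.mem_union.1 hx with hx | hx
      · obtain ⟨f, -, rfl⟩ := Finset.mem_image.1 hx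
        rw [val_a]
        exact hχa f
      · obtain ⟨f, -, rfl⟩ := Finset.mem_image.1 hx
        rw [val_b]
        exact hχb f
  · have h1 : (⊤ : Subgroup Q) ≤
        (Subgroup.closure (X : Set Q)).comap (powMonoidHom L) := by
      rw [← hF0, Subgroup.closure_le]
      intro f hf
      show f ^ L ∈ Subgroup.closure (X : Set Q)
      have hfE : f ∈ E := Finset.mem_union_right _ hf
      have e : f ^ L = (f ^ L * q0 ^ (-(p f))) * q0 ^ (p f) := by
        rw [mul_assoc, ← zpow_add, neg_add_cancel, zpow_zero, mul_one]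
      rw [e]
      exact mul_mem (Subgroup.subset_closure (hXa f hfE))
        (zpow_mem (Subgroup.subset_closure hq0X) _)
    exact fun q => h1 (Subgroup.mem_top q)
  · intro θ hθ hθ0
    have hθa : ∀ f ∈ E, 0 ≤ L * θ (Additive.ofMul f) - p f * θ (Additive.ofMul q0) := by
      intro f hf
      rw [← val_a]
      exact hθ _ (hXa f hf)
    have hθb : ∀ f ∈ E, 0 ≤ (p f + 1) * θ (Additive.ofMul q0) - L * θ (Additive.ofMul f) := by
      intro f hf
      rw [← val_b]
      exact hθ _ (hXb f hf)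
    have hpos : 0 < θ (Additive.ofMul q0) := by
      rcases (hθ q0 hq0X).lt_or_eq with h | h
      · exact h
      · exfalso
        refine hθ0 (AddMonoidHom.ext fun q => ?_)
        have h1 : ∀ x ∈ Subgroup.closure (F0 : Set Q), θ (Additive.ofMul x) = 0 := by
          intro x hx
          induction hx using Subgroup.closure_induction with
          | mem f hf =>
            have hfE : f ∈ E := Finset.mem_union_right _ hf
            have h2 := hθa f hfE
            have h3 := hθb f hfE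
            rw [← h] at h2 h3
            have h4 : L * θ (Additive.ofMul f) = 0 := by linarith
            rcases mul_eq_zero.1 h4 with h5 | h5
            · exact absurd h5 hL0.ne'
            · exact h5
          | one => exact map_zero θ
          | mul x y _ _ hx hy => rw [ofMul_mul, map_add, hx, hy, add_zero]
          | inv x _ hx => rw [ofMul_inv, map_neg, hx, neg_zero]
        have h2 := h1 (Additive.toMul q) (by rw [hF0]; exact Subgroup.mem_top _)
        rw [ofMul_toMul] at h2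
        rw [h2, AddMonoidHom.zero_apply]
    refine ⟨hpos, fun f hf => ?_⟩
    have hfE : f ∈ E := Finset.mem_union_left _ hf
    refine (close _ _ _ _ L (p f) hL0 hq0 hpos (hχa f) (hχb f) (hθa f hfE) (hθb f hfE)).trans_lt ?_
    rw [div_lt_iff₀ hL0]
    rw [div_lt_iff₀ hε] at hL
    linarith

end Pool.Agent.Work.MP_e9e200_al.LC

end

section

/-!
# OZ: a discrete ordered abelian group is infinite cyclic or trivial
-/

set_option autoImplicit false

namespace Pool.Agent.Work.MP_e9e200_al.LC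

namespace OZ

variable {H : Type} [CommGroup H] (O : Submonoid H)

/-- there is a strictly increasing chain of length `n` between `1` and `h` -/
def Ch (h : H) (n : ℕ) : Prop := ∃ z : ℕ → H, z 0 ∈ O ∧
    (∀ i < n, z (i + 1) * (z i)⁻¹ ∈ O ∧ z i * (z (i + 1))⁻¹ ∉ O) ∧ h * (z n)⁻¹ ∈ O

theorem Ch.pred {O : Submonoid H} {h : H} {n : ℕ} (hc : Ch O h (n + 1)) : Ch O h n := by
  obtain ⟨z, h0, h1, h2⟩ := hc
  refine ⟨z, h0, fun i hi => h1 i (by omega), ?_⟩
  have h3 := (h1 n (by omega)).1
  have h4 : h * (z n)⁻¹ = (h * (z (n + 1))⁻¹) * (z (n + 1) * (z n)⁻¹) := by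
    simp [mul_assoc]
  rw [h4]
  exact O.mul_mem h2 h3

theorem Ch.mono {O : Submonoid H} {h : H} {m n : ℕ} (hmn : m ≤ n) (hc : Ch O h n) :
    Ch O h m := by
  induction n, hmn using Nat.le_induction with
  | base => exact hc
  | succ n _ ih => exact ih hc.pred

theorem ch_zero {O : Submonoid H} {h : H} (hh : h ∈ O) : Ch O h 0 :=
  ⟨fun _ => 1, O.one_mem, fun i hi => absurd hi (Nat.not_lt_zero i), by simpa using hh⟩

theorem ch_pow {O : Submonoid H} {π h : H} (h1 : π ∈ O) (h2 : π⁻¹ ∉ O) (k : ℕ)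
    (hk : h * (π ^ k)⁻¹ ∈ O) : Ch O h k := by
  refine ⟨fun i => π ^ i, by simp, ?_, hk⟩
  intro i _
  have e1 : π ^ (i + 1) * (π ^ i)⁻¹ = π := by rw [pow_succ]; simp
  have e2 : π ^ i * (π ^ (i + 1))⁻¹ = π⁻¹ := by rw [pow_succ]; simp
  show π ^ (i + 1) * (π ^ i)⁻¹ ∈ O ∧ π ^ i * (π ^ (i + 1))⁻¹ ∉ O
  rw [e1, e2]
  exact ⟨h1, h2⟩

theorem npow {O : Submonoid H} {π : H} (h1 : π ∈ O) (h2 : π⁻¹ ∉ O) (k : ℕ) (hk : 0 < k) :
    (π ^ k)⁻¹ ∉ O := by
  intro h
  obtain ⟨j, rfl⟩ : ∃ j, k = j + 1 := ⟨k - 1, by omega⟩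
  apply h2
  have e : π⁻¹ = (π ^ (j + 1))⁻¹ * π ^ j := by
    rw [pow_succ]
    simp
  rw [e]
  exact O.mul_mem h (O.pow_mem h1 j)

end OZ

open OZ in
theorem I_OZ : StOZ := by
  classical
  intro H _ O htot hfin
  by_cases hP : ∃ p, p ∈ O ∧ p⁻¹ ∉ O
  swap
  · push Not at hP
    refine ⟨1, fun h => ?_⟩
    have h1 : h ∈ O := by
      rcases htot h with h1 | h1
      · exact h1
      · simpa using hP _ h1
    simp [vl, h1]
  have hfin' : ∀ h ∈ O, ∃ n, ¬ Ch O h n := hfin
  -- the length
  let l : H → ℕ := fun h => if hh : h ∈ O then Nat.find (hfin' h hh) else 0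
  have hl : ∀ h (hh : h ∈ O), l h = Nat.find (hfin' h hh) := fun h hh => dif_pos hh
  have hl1 : ∀ h ∈ O, ¬ Ch O h (l h) := by
    intro h hh
    rw [hl h hh]
    exact Nat.find_spec (hfin' h hh)
  have hl2 : ∀ h ∈ O, ∃ n, l h = n + 1 ∧ Ch O h n := by
    intro h hh
    have h0 : l h ≠ 0 := by
      intro h0
      have := hl1 h hh
      rw [h0] at this
      exact this (ch_zero hh)
    obtain ⟨n, hn⟩ : ∃ n, l h = n + 1 := ⟨l h - 1, by omega⟩
    refine ⟨n, hn, ?_⟩
    by_contra hcon
    rw [hl h hh] at hn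
    have := Nat.find_min (hfin' h hh) (m := n) (by omega)
    exact this hcon
  -- a minimal positive element
  obtain ⟨π, ⟨hπ1, hπ2⟩, hmin⟩ : ∃ π, (π ∈ O ∧ π⁻¹ ∉ O) ∧ ∀ g, g ∈ O ∧ g⁻¹ ∉ O → l π ≤ l g := by
    obtain ⟨n, ⟨p, hp, rfl⟩, h2⟩ : ∃ n, (∃ p, (p ∈ O ∧ p⁻¹ ∉ O) ∧ l p = n) ∧
        ∀ m < n, ¬ ∃ p, (p ∈ O ∧ p⁻¹ ∉ O) ∧ l p = m := by
      have hex : ∃ n, ∃ p, (p ∈ O ∧ p⁻¹ ∉ O) ∧ l p = n := by
        obtain ⟨p, hp⟩ := hP
        exact ⟨l p, p, hp, rfl⟩
      exact ⟨Nat.find hex, Nat.find_spec hex, fun m hm => Nat.find_min hex hm⟩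
    refine ⟨p, hp, fun g hg => ?_⟩
    by_contra hcon
    exact h2 (l g) (by omega) ⟨g, hg, rfl⟩
  have hno : ∀ g, g ∈ O → g⁻¹ ∉ O → π * g⁻¹ ∈ O → g * π⁻¹ ∈ O := by
    intro g hg1 hg2 hg3
    by_contra hg4
    obtain ⟨n, hn1, z, hz0, hz1, hz2⟩ := hl2 g hg1
    have hch : Ch O π (n + 1) := by
      refine ⟨fun i => if i ≤ n then z i else π, ?_, ?_, ?_⟩
      · show (if 0 ≤ n then z 0 else π) ∈ O
        rw [if_pos (Nat.zero_le n)]
        exact hz0
      · intro i hi
        show (if i + 1 ≤ n then z (i + 1) else π) * (if i ≤ n then z i else π)⁻¹ ∈ O ∧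
          (if i ≤ n then z i else π) * (if i + 1 ≤ n then z (i + 1) else π)⁻¹ ∉ O
        rw [if_pos (show i ≤ n by omega)]
        by_cases hin : i + 1 ≤ n
        · rw [if_pos hin]
          exact hz1 i (by omega)
        · rw [if_neg hin]
          obtain rfl : i = n := by omega
          constructor
          · have e : π * (z i)⁻¹ = (π * g⁻¹) * (g * (z i)⁻¹) := by simp [mul_assoc]
            rw [e]
            exact O.mul_mem hg3 hz2
          · intro hc
            apply hg4
            have e : g * π⁻¹ = (g * (z i)⁻¹) * (z i * π⁻¹) := by simp [mul_assoc]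
            rw [e]
            exact O.mul_mem hz2 hc
      · show π * (if n + 1 ≤ n then z (n + 1) else π)⁻¹ ∈ O
        rw [if_neg (by omega), mul_inv_cancel]
        exact O.one_mem
    have h1 := hl1 π hπ1
    have h2 := hmin g ⟨hg1, hg2⟩
    rw [hn1] at h2
    exact h1 (hch.mono h2)
  -- every element of `O` is a power of `π` up to `U`
  have hO : ∀ h ∈ O, ∃ k : ℕ, h * (π ^ k)⁻¹ ∈ O ∧ (h * (π ^ k)⁻¹)⁻¹ ∈ O := by
    intro h hh
    have hb : ∀ k, h * (π ^ k)⁻¹ ∈ O → k < l h := by
      intro k hk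
      by_contra hcon
      exact hl1 h hh ((ch_pow hπ1 hπ2 k hk).mono (by omega))
    have hex : ∃ k, h * (π ^ k)⁻¹ ∉ O := ⟨l h, fun hc => lt_irrefl _ (hb _ hc)⟩
    have h1 := Nat.find_spec hex
    have h2 : Nat.find hex ≠ 0 := by
      intro h0
      rw [h0] at h1
      apply h1
      simpa using hh
    obtain ⟨k, hk⟩ : ∃ k, Nat.find hex = k + 1 := ⟨Nat.find hex - 1, by omega⟩
    have h3 : h * (π ^ k)⁻¹ ∈ O := by
      by_contra hcon
      exact Nat.find_min hex (m := k) (by omega) hcon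
    refine ⟨k, h3, ?_⟩
    by_contra h4
    rw [hk] at h1
    have h5 : h * (π ^ (k + 1))⁻¹ = h * (π ^ k)⁻¹ * π⁻¹ := by
      rw [pow_succ, mul_inv, mul_assoc]
    rw [h5] at h1
    rcases htot (h * (π ^ k)⁻¹ * π⁻¹) with h6 | h6
    · exact h1 h6
    · apply h1
      refine hno _ h3 h4 ?_
      have e : (h * (π ^ k)⁻¹ * π⁻¹)⁻¹ = π * (h * (π ^ k)⁻¹)⁻¹ := by
        rw [mul_inv, inv_inv, mul_comm]
      rwa [e] at h6
  have hU : ∀ h : H, ∃ k : ℤ, h * (π ^ k)⁻¹ ∈ O ∧ (h * (π ^ k)⁻¹)⁻¹ ∈ O := by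
    intro h
    rcases htot h with h1 | h1
    · obtain ⟨k, hk⟩ := hO h h1
      exact ⟨k, by simpa using hk⟩
    · obtain ⟨k, hk1, hk2⟩ := hO _ h1
      refine ⟨-k, ?_, ?_⟩
      · have e : h * (π ^ (-(k : ℤ)))⁻¹ = (h⁻¹ * (π ^ k)⁻¹)⁻¹ := by
          rw [zpow_neg, inv_inv, mul_inv, inv_inv, inv_inv, zpow_natCast]
        rw [e]; exact hk2
      · have e : (h * (π ^ (-(k : ℤ)))⁻¹)⁻¹ = h⁻¹ * (π ^ k)⁻¹ := by
          rw [zpow_neg, inv_inv, mul_inv, zpow_natCast]
        rw [e]; exact hk1
  have hneg : ∀ k : ℤ, k < 0 → π ^ k ∉ O := by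
    intro k hk
    obtain ⟨n, rfl⟩ : ∃ n : ℕ, k = -(n : ℤ) := ⟨k.natAbs, by omega⟩
    rw [zpow_neg, zpow_natCast]
    exact npow hπ1 hπ2 n (by omega)
  have huniq : ∀ k : ℤ, π ^ k ∈ O → (π ^ k)⁻¹ ∈ O → k = 0 := by
    intro k h1 h2
    by_contra hk
    rcases lt_or_gt_of_ne hk with h | h
    · exact hneg k h h1
    · rw [← zpow_neg] at h2
      exact hneg (-k) (by omega) h2
  choose κ hκ1 hκ2 using hU
  have hadd : ∀ g h, κ (g * h) = κ g + κ h := by
    intro g h
    have e1 : π ^ (κ (g * h) - κ g - κ h) =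
        (g * (π ^ κ g)⁻¹) * (h * (π ^ κ h)⁻¹) * (g * h * (π ^ κ (g * h))⁻¹)⁻¹ := by
      rw [zpow_sub, zpow_sub]
      simp only [mul_inv, inv_inv]
      have : g * (π ^ κ g)⁻¹ * (h * (π ^ κ h)⁻¹) * (g⁻¹ * h⁻¹ * π ^ κ (g * h)) =
          (g * g⁻¹) * (h * h⁻¹) * (π ^ κ (g * h) * (π ^ κ g)⁻¹ * (π ^ κ h)⁻¹) := by
        simp only [mul_comm, mul_left_comm, mul_assoc]
      rw [this]
      simp
    have h1 : π ^ (κ (g * h) - κ g - κ h) ∈ O := by
      rw [e1]
      exact O.mul_mem (O.mul_mem (hκ1 g) (hκ1 h)) (hκ2 (g * h))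
    have h2 : (π ^ (κ (g * h) - κ g - κ h))⁻¹ ∈ O := by
      rw [e1, mul_inv, mul_inv, inv_inv]
      exact O.mul_mem (O.mul_mem (hκ2 g) (hκ2 h)) (hκ1 (g * h))
    have := huniq _ h1 h2
    omega
  refine ⟨{ toFun := fun h => Multiplicative.ofAdd (κ h), map_one' := ?_, map_mul' := ?_ }, ?_⟩
  · have h1 := hadd 1 1
    rw [mul_one] at h1
    have h2 : κ 1 = 0 := by omega
    rw [h2]
    rfl
  · intro g h
    rw [hadd]
    rfl
  · intro h
    show h ∈ O ↔ 0 ≤ κ h
    constructor
    · intro hh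
      by_contra hcon
      apply hneg (κ h) (by omega)
      have e : π ^ κ h = h * (h * (π ^ κ h)⁻¹)⁻¹ := by
        rw [mul_inv, inv_inv, mul_inv_cancel_left]
      rw [e]
      exact O.mul_mem hh (hκ2 h)
    · intro hk
      have e : h = (h * (π ^ κ h)⁻¹) * π ^ κ h := by simp
      rw [e]
      refine O.mul_mem (hκ1 h) ?_
      obtain ⟨n, hn⟩ : ∃ n : ℕ, κ h = (n : ℤ) := ⟨(κ h).natAbs, by omega⟩
      rw [hn, zpow_natCast]
      exact O.pow_mem hπ1 n

end Pool.Agent.Work.MP_e9e200_al.LC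

end

section

/-!
# Project LC, item RD: density for prime ideals
-/

set_option autoImplicit false

namespace Pool.Agent.Work.MP_e9e200_al.LC

namespace RD

open Submodule

section

variable {Q : Type} [CommGroup Q]

/-- the additive group spanned by all `q` with `v q ≥ 0` -/
noncomputable def nnI (v : Q → ℝ) : Submodule ℤ (MonoidAlgebra ℤ Q) :=
  Submodule.span ℤ {f | ∃ q : Q, 0 ≤ v q ∧ f = MonoidAlgebra.of ℤ Q q}

theorem nnI_mul (χ : Additive Q →+ ℝ) (g g' : MonoidAlgebra ℤ Q)
    (hg : g ∈ nnI (fun q => χ (Additive.ofMul q)))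
    (hg' : g' ∈ nnI (fun q => χ (Additive.ofMul q))) :
    g * g' ∈ nnI (fun q => χ (Additive.ofMul q)) := by
  have h1 := Submodule.mul_mem_mul hg hg'
  unfold nnI at h1
  rw [Submodule.span_mul_span] at h1
  refine Submodule.span_mono ?_ h1
  rintro _ ⟨_, ⟨q, hq, rfl⟩, _, ⟨q', hq', rfl⟩, rfl⟩
  refine ⟨q * q', ?_, ?_⟩
  · show 0 ≤ χ (Additive.ofMul (q * q'))
    rw [ofMul_mul, map_add]
    exact add_nonneg hq hq'
  · show _ * _ = _
    rw [map_mul]

theorem posI_mul (χ : Additive Q →+ ℝ) (q0 : Q) (hq0 : 0 < χ (Additive.ofMul q0))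
    (g : MonoidAlgebra ℤ Q) (hg : g ∈ nnI (fun q => χ (Additive.ofMul q))) :
    MonoidAlgebra.of ℤ Q q0 * g ∈ posI (fun q => χ (Additive.ofMul q)) := by
  unfold nnI at hg
  induction hg using Submodule.span_induction with
  | mem x hx =>
    obtain ⟨q, hq, rfl⟩ := hx
    refine Submodule.subset_span ⟨q0 * q, ?_, by rw [map_mul]⟩
    show 0 < χ (Additive.ofMul (q0 * q))
    rw [ofMul_mul, map_add]
    exact add_pos_of_pos_of_nonneg hq0 hq
  | zero => rw [mul_zero]; exact Submodule.zero_mem _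
  | add x y _ _ hx hy => rw [mul_add]; exact Submodule.add_mem _ hx hy
  | smul a x _ hx => rw [mul_smul_comm]; exact Submodule.smul_mem _ _ hx

theorem mem_of_pow_mem {K : Type} [Field K] (O : ValuationSubring K) (L : ℕ) (hL : 0 < L) (x : K)
    (h : x ^ L ∈ O) : x ∈ O := by
  by_contra hx
  rw [← O.valuation_le_one_iff] at h hx
  rw [not_le] at hx
  rw [map_pow] at h
  exact absurd h (not_le.mpr (one_lt_pow₀ hx hL.ne'))

/-- the real character of an integral character -/
noncomputable def rch (θ : Chr Q) : Additive Q →+ ℝ where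
  toFun q := ((vl θ (Additive.toMul q) : ℤ) : ℝ)
  map_zero' := by
    show ((vl θ 1 : ℤ) : ℝ) = 0
    simp [vl]
  map_add' := by
    intro a b
    show ((vl θ (Additive.toMul a * Additive.toMul b) : ℤ) : ℝ) = _
    simp [vl]

theorem rch_apply (θ : Chr Q) (q : Q) : rch θ (Additive.ofMul q) = (vl θ q : ℝ) := rfl

theorem vl_mul {G : Type} [Group G] (θ : Chr G) (a b : G) : vl θ (a * b) = vl θ a + vl θ b := by
  simp [vl]

theorem vl_inv {G : Type} [Group G] (θ : Chr G) (a : G) : vl θ a⁻¹ = -vl θ a := by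
  simp [vl]

/-- the generator of the image of a nonzero integral character -/
theorem exists_prim (θ : Chr Q) (q0 : Q) (h0 : 0 < vl θ q0) :
    ∃ (d : ℤ) (χ' : Chr Q), 0 < d ∧ (∀ q, vl θ q = d * vl χ' q) ∧ ∃ t, vl χ' t = 1 := by
  obtain ⟨a, ha⟩ := Int.subgroup_cyclic (AddMonoidHom.range (MonoidHom.toAdditiveLeft θ))
  rw [← AddSubgroup.zmultiples_eq_closure] at ha
  have hdiv : ∀ q, a ∣ vl θ q := by
    intro q
    have h1 : vl θ q ∈ AddMonoidHom.range (MonoidHom.toAdditiveLeft θ) :=
      ⟨Additive.ofMul q, rfl⟩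
    rw [ha, Int.mem_zmultiples_iff] at h1
    exact h1
  have hex : ∃ t, vl θ t = a := by
    have h1 : a ∈ AddMonoidHom.range (MonoidHom.toAdditiveLeft θ) := by
      rw [ha]
      exact AddSubgroup.mem_zmultiples a
    obtain ⟨t, ht⟩ := h1
    exact ⟨Additive.toMul t, ht⟩
  have ha0 : a ≠ 0 := by
    rintro rfl
    have := hdiv q0
    rw [zero_dvd_iff] at this
    omega
  have hdiv' : ∀ q, |a| ∣ vl θ q := fun q => (abs_dvd _ _).mpr (hdiv q)
  have habs : 0 < |a| := abs_pos.mpr ha0
  refine ⟨|a|, ⟨⟨fun q => Multiplicative.ofAdd (vl θ q / |a|), ?_⟩, ?_⟩, habs, ?_, ?_⟩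
  · have h1 : vl θ 1 = 0 := by simp [vl]
    rw [h1, Int.zero_ediv]
    rfl
  · intro x y
    show Multiplicative.ofAdd (vl θ (x * y) / |a|) = Multiplicative.ofAdd (vl θ x / |a|) *
      Multiplicative.ofAdd (vl θ y / |a|)
    rw [← ofAdd_add, vl_mul, Int.add_ediv_of_dvd_left (hdiv' x)]
  · intro q
    show vl θ q = |a| * (vl θ q / |a|)
    rw [Int.mul_ediv_cancel' (hdiv' q)]
  · obtain ⟨t, ht⟩ := hex
    rcases lt_or_gt_of_ne ha0 with h | h
    · refine ⟨t⁻¹, ?_⟩
      show vl θ t⁻¹ / |a| = 1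
      rw [vl_inv, ht, abs_of_neg h]
      exact Int.ediv_self (by omega)
    · refine ⟨t, ?_⟩
      show vl θ t / |a| = 1
      rw [ht, abs_of_pos h]
      exact Int.ediv_self (by omega)

end

end RD

open RD in
theorem I_RD (hNB : StNB) (hVAL : StVAL) : StRD := by
  classical
  intro Q _ _ χ hχ I _ hav F ε hε
  obtain ⟨q0, X, L, hL, hq0, hq0X, hX, hXL, hθ⟩ := hNB Q χ hχ F ε hε
  set K : Type := FractionRing (MonoidAlgebra ℤ Q ⧸ I) with hK
  set φ : MonoidAlgebra ℤ Q →+* K := (algebraMap (MonoidAlgebra ℤ Q ⧸ I) K).comp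
    (Ideal.Quotient.mk I) with hφ
  have hφI : ∀ f, φ f = 0 → f ∈ I := by
    intro f hf
    have h1 : algebraMap (MonoidAlgebra ℤ Q ⧸ I) K (Ideal.Quotient.mk I f) = 0 := hf
    rw [← map_zero (algebraMap (MonoidAlgebra ℤ Q ⧸ I) K)] at h1
    have h2 := IsFractionRing.injective (MonoidAlgebra ℤ Q ⧸ I) K h1
    exact Ideal.Quotient.eq_zero_iff_mem.mp h2
  have hφI' : ∀ f ∈ I, φ f = 0 := by
    intro f hf
    show algebraMap (MonoidAlgebra ℤ Q ⧸ I) K (Ideal.Quotient.mk I f) = 0
    rw [Ideal.Quotient.eq_zero_iff_mem.mpr hf, map_zero]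
  set ι : Q →* Kˣ := (Units.map ((φ : MonoidAlgebra ℤ Q →* K).comp (MonoidAlgebra.of ℤ Q))).comp
    (toUnits : Q ≃* Qˣ).toMonoidHom with hι
  have hιv : ∀ q, ((ι q : Kˣ) : K) = φ (MonoidAlgebra.of ℤ Q q) := fun q => rfl
  set s : Set K := (fun x => ((ι x : Kˣ) : K)) '' (X : Set Q) with hs
  set R : Subring K := Subring.closure s with hR
  have : IsNoetherianRing R := is_noetherian_subring_closure s (X.finite_toSet.image _)
  have hιR : ∀ x ∈ X, ((ι x : Kˣ) : K) ∈ R := fun x hx => Subring.subset_closure ⟨x, hx, rfl⟩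
  have hRnn : ∀ r ∈ R, ∃ g ∈ nnI (fun q => χ (Additive.ofMul q)), φ g = r := by
    intro r hr
    induction hr using Subring.closure_induction with
    | mem x hx =>
      obtain ⟨q, hq, rfl⟩ := hx
      exact ⟨MonoidAlgebra.of ℤ Q q, Submodule.subset_span ⟨q, hX q hq, rfl⟩, rfl⟩
    | zero => exact ⟨0, Submodule.zero_mem _, map_zero _⟩
    | one =>
      refine ⟨MonoidAlgebra.of ℤ Q 1, Submodule.subset_span ⟨1, ?_, rfl⟩, ?_⟩
      · show 0 ≤ χ (Additive.ofMul 1)
        rw [ofMul_one, map_zero]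
      · rw [map_one, map_one]
    | add x y _ _ hx hy =>
      obtain ⟨g, hg, rfl⟩ := hx
      obtain ⟨g', hg', rfl⟩ := hy
      exact ⟨g + g', Submodule.add_mem _ hg hg', map_add _ _ _⟩
    | neg x _ hx =>
      obtain ⟨g, hg, rfl⟩ := hx
      exact ⟨-g, Submodule.neg_mem _ hg, map_neg _ _⟩
    | mul x y _ _ hx hy =>
      obtain ⟨g, hg, rfl⟩ := hx
      obtain ⟨g', hg', rfl⟩ := hy
      exact ⟨g * g', nnI_mul χ g g' hg hg', map_mul _ _ _⟩
  set a : R := ⟨((ι q0 : Kˣ) : K), hιR q0 hq0X⟩ with ha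
  have ha0 : a ≠ 0 := by
    intro h
    exact (ι q0).ne_zero (congrArg Subtype.val h)
  have hau : ¬ IsUnit a := by
    intro hu
    obtain ⟨r, hr⟩ := hu.exists_right_inv
    obtain ⟨g, hg, hgr⟩ := hRnn (r : K) r.2
    have h1 : φ (MonoidAlgebra.of ℤ Q q0 * g) = 1 := by
      rw [map_mul, hgr, ← hιv]
      exact congrArg Subtype.val hr
    have h2 : (1 - MonoidAlgebra.of ℤ Q q0 * g) ∈ I := by
      apply hφI
      rw [map_sub, h1, map_one, sub_self]
    refine hav _ h2 ?_
    have h3 : (1 - MonoidAlgebra.of ℤ Q q0 * g) - 1 = -(MonoidAlgebra.of ℤ Q q0 * g) := by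
      abel
    rw [h3]
    exact Submodule.neg_mem _ (posI_mul χ q0 hq0 g hg)
  obtain ⟨O, hRO, haO, hν⟩ := hVAL K R a ha0 hau
  obtain ⟨ν, hν⟩ := hν (X.image ι) (by
    intro x hx
    obtain ⟨q, hq, rfl⟩ := Finset.mem_image.mp hx
    exact hιR q hq)
  have hmem : ∀ q : Q, ι q ^ L ∈ Subgroup.closure ((X.image ι : Finset Kˣ) : Set Kˣ) := by
    intro q
    have h1 := Subgroup.mem_map_of_mem ι (hXL q)
    rw [MonoidHom.map_closure, map_pow] at h1
    rw [Finset.coe_image]
    exact h1
  set jj : Q →* Subgroup.closure ((X.image ι : Finset Kˣ) : Set Kˣ) :=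
    { toFun := fun q => ⟨ι q ^ L, hmem q⟩
      map_one' := by
        apply Subtype.ext
        show ι 1 ^ L = 1
        rw [map_one, one_pow]
      map_mul' := by
        intro x y
        apply Subtype.ext
        show ι (x * y) ^ L = ι x ^ L * ι y ^ L
        rw [map_mul, mul_pow] } with hjj
  set θ : Chr Q := ν.comp jj with hθdef
  have key : ∀ q, ((ι q : Kˣ) : K) ∈ O ↔ 0 ≤ vl θ q := by
    intro q
    have h1 : ((ι q ^ L : Kˣ) : K) ∈ O ↔ 0 ≤ vl θ q := hν (jj q)
    rw [← h1, Units.val_pow_eq_pow_val]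
    exact ⟨fun h => pow_mem h L, fun h => mem_of_pow_mem O L hL _ h⟩
  have key' : ∀ q, ((ι q : Kˣ) : K)⁻¹ ∈ O ↔ vl θ q ≤ 0 := by
    intro q
    have h1 := key q⁻¹
    rw [map_inv, Units.val_inv_eq_inv_val, vl_inv] at h1
    rw [h1]
    constructor <;> intro h <;> omega
  have hθq0 : 0 < vl θ q0 := by
    by_contra hcon
    exact haO ((key' q0).mpr (not_lt.mp hcon))
  have hθne : rch θ ≠ 0 := by
    intro h
    have h1 := rch_apply θ q0
    rw [h, AddMonoidHom.zero_apply] at h1
    have h2 : (0 : ℝ) < (vl θ q0 : ℝ) := by exact_mod_cast hθq0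
    linarith
  obtain ⟨-, hb⟩ := hθ (rch θ) (fun x hx => by
    rw [rch_apply]
    have h1 := (key x).mp (hRO _ (hιR x hx))
    exact_mod_cast h1) hθne
  obtain ⟨d, χ', hd, hdχ, ht⟩ := exists_prim θ q0 hθq0
  have hθR : (0 : ℝ) < (vl θ q0 : ℝ) := by exact_mod_cast hθq0
  have hdR : (0 : ℝ) < (d : ℝ) := by exact_mod_cast hd
  refine ⟨χ', (d : ℝ) * (χ (Additive.ofMul q0) / (vl θ q0 : ℝ)), ?_, ht, ?_, ?_⟩
  · exact mul_pos hdR (div_pos hq0 hθR)
  · intro g hg
    have h1 := hb g hg
    rw [rch_apply, rch_apply] at h1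
    have h2 : (vl θ g : ℝ) = (d : ℝ) * (vl χ' g : ℝ) := by exact_mod_cast hdχ g
    have h3 : (d : ℝ) * (χ (Additive.ofMul q0) / (vl θ q0 : ℝ)) * (vl χ' g : ℝ) =
        χ (Additive.ofMul q0) / (vl θ q0 : ℝ) * (vl θ g : ℝ) := by
      rw [h2]
      ring
    rw [h3]
    exact h1
  · intro f hf hcon
    have hval : ∀ h ∈ posI (fun q => (vl χ' q : ℝ)), O.valuation (φ h) < 1 := by
      intro h hh
      unfold posI at hh
      induction hh using Submodule.span_induction with
      | mem x hx =>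
        obtain ⟨q, hq, rfl⟩ := hx
        have h1 : 0 < vl χ' q := by
          have h2 : (0 : ℝ) < (vl χ' q : ℝ) := hq
          exact_mod_cast h2
        have h2 : 0 < vl θ q := by
          rw [hdχ q]
          exact mul_pos hd h1
        have h3 : ¬ ((ι q : Kˣ) : K)⁻¹ ∈ O := by
          rw [key']
          omega
        rw [← O.valuation_le_one_iff, not_le, map_inv₀] at h3
        rw [← hιv]
        have h4 : O.valuation ((ι q : Kˣ) : K) ≠ 0 := by
          rw [Valuation.ne_zero_iff]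
          exact (ι q).ne_zero
        exact (one_lt_inv₀ (zero_lt_iff.mpr h4)).mp h3
      | zero =>
        rw [map_zero, map_zero]
        exact zero_lt_one
      | add x y _ _ hx hy =>
        rw [map_add]
        exact Valuation.map_add_lt _ hx hy
      | smul n x _ hx =>
        rw [map_zsmul, zsmul_eq_mul, map_mul]
        have h1 : O.valuation (n : K) ≤ 1 := by
          rw [O.valuation_le_one_iff]
          exact intCast_mem O n
        calc O.valuation (n : K) * O.valuation (φ x) ≤ 1 * O.valuation (φ x) :=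
              mul_le_mul_left h1 _
          _ = O.valuation (φ x) := one_mul _
          _ < 1 := hx
    have h1 := hval _ hcon
    rw [map_sub, hφI' f hf, map_one, zero_sub, Valuation.map_neg, map_one] at h1
    exact lt_irrefl _ h1

end Pool.Agent.Work.MP_e9e200_al.LC

end

section

/-!
# VAL: discrete valuations
-/

set_option autoImplicit false

namespace Pool.Agent.Work.MP_e9e200_al.LC

namespace VAL

/-- a prime ideal of height one which contains `a` -/
theorem exists_prime (K : Type) [Field K] (R : Subring K) [IsNoetherianRing R] (a : R)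
    (ha : ¬ IsUnit a) : ∃ P : Ideal R, P.IsPrime ∧ a ∈ P ∧
      ∀ P' : Ideal R, P'.IsPrime → P' < P → P' = ⊥ := by
  have hne : Ideal.span {a} ≠ ⊤ := by
    rw [Ne, Ideal.span_singleton_eq_top]
    exact ha
  obtain ⟨P, hP⟩ := Ideal.nonempty_minimalPrimes hne
  have hPp : P.IsPrime := hP.1.1
  refine ⟨P, hPp, hP.1.2 (Ideal.mem_span_singleton_self a), ?_⟩
  intro P' hP' hlt
  by_contra hbot
  have hpr : (Ideal.span {a}).IsPrincipal := ⟨⟨a, rfl⟩⟩
  have h1 : P.height ≤ 1 := Ideal.height_le_one_of_isPrincipal_of_mem_minimalPrimes _ P hP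
  have h2 : (⊥ : Ideal R) < P' := bot_lt_iff_ne_bot.mpr hbot
  have hb : (⊥ : Ideal R).IsPrime := Ideal.isPrime_bot
  have h3 := Ideal.height_strict_mono_of_isPrime_of_isPrime hlt
  have h4 := Ideal.height_strict_mono_of_isPrime_of_isPrime h2
  have h5 : P'.height < 1 := lt_of_lt_of_le h3 h1
  have h6 : P'.height = 0 := Order.lt_one_iff.mp h5
  rw [h6] at h4
  exact not_lt_zero h4

/-- a valuation subring which dominates the localization at a prime ideal -/
theorem exists_val (K : Type) [Field K] (R : Subring K) (P : Ideal R) [hP : P.IsPrime] :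
    ∃ O : ValuationSubring K, (∀ x ∈ R, x ∈ O) ∧ (∀ x : R, x ∉ P → (x : K)⁻¹ ∈ O) ∧
      ∀ x : R, x ∈ P → x ≠ 0 → (x : K)⁻¹ ∉ O := by
  obtain ⟨V, hV⟩ := (LocalSubring.ofPrime R P).exists_le_valuationSubring
  have hle : ∀ x ∈ R, x ∈ V := fun x hx => hV.1 (LocalSubring.le_ofPrime R P hx)
  refine ⟨V, hle, ?_, ?_⟩
  · intro x hx
    have hu : IsUnit (algebraMap R (LocalSubring.ofPrime R P).toSubring x) :=
      (IsLocalization.AtPrime.isUnit_to_map_iff (LocalSubring.ofPrime R P).toSubring P x).mpr hx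
    obtain ⟨w, hw⟩ := isUnit_iff_exists_inv.mp hu
    have h1 : (x : K) * (w : K) = 1 := by
      have := congrArg Subtype.val hw
      exact this
    have hx0 : (x : K) ≠ 0 := left_ne_zero_of_mul_eq_one h1
    have h2 : (x : K)⁻¹ = (w : K) := by
      rw [eq_comm, ← mul_right_inj' hx0, h1, mul_inv_cancel₀ hx0]
    rw [h2]
    exact hV.1 w.2
  · intro x hx hx0 hinv
    have hxK : (x : K) ≠ 0 := fun h => hx0 (Subtype.ext h)
    have hloc := hV.2
    set y : (LocalSubring.ofPrime R P).toSubring :=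
      algebraMap R (LocalSubring.ofPrime R P).toSubring x with hy
    have hyv : (y : K) = (x : K) := rfl
    have hu : IsUnit (Subring.inclusion hV.1 y) := by
      refine isUnit_iff_exists_inv.mpr ⟨⟨(x : K)⁻¹, hinv⟩, ?_⟩
      apply Subtype.ext
      change (y : K) * (x : K)⁻¹ = 1
      rw [hyv, mul_inv_cancel₀ hxK]
    have hu' : IsUnit y := hloc.map_nonunit y hu
    exact (IsLocalization.AtPrime.isUnit_to_map_iff
      (LocalSubring.ofPrime R P).toSubring P x).mp hu' hx

/-- elements of the group generated by units in `R` are fractions -/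
theorem frac (K : Type) [Field K] (R : Subring K) (X : Set Kˣ) (hX : ∀ x ∈ X, (x : K) ∈ R)
    (h : Kˣ) (hh : h ∈ Subgroup.closure X) :
    ∃ s t : R, s ≠ 0 ∧ t ≠ 0 ∧ (h : K) = (s : K) / (t : K) := by
  induction hh using Subgroup.closure_induction with
  | mem x hx =>
    exact ⟨⟨x, hX x hx⟩, 1, fun h0 => x.ne_zero (congrArg Subtype.val h0), one_ne_zero, by simp⟩
  | one => exact ⟨1, 1, one_ne_zero, one_ne_zero, by simp⟩
  | mul x y _ _ hx hy =>
    obtain ⟨s, t, hs, ht, h1⟩ := hx
    obtain ⟨s', t', hs', ht', h2⟩ := hy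
    refine ⟨s * s', t * t', mul_ne_zero hs hs', mul_ne_zero ht ht', ?_⟩
    rw [Units.val_mul, h1, h2]
    push_cast
    rw [div_mul_div_comm]
  | inv x _ hx =>
    obtain ⟨s, t, hs, ht, h1⟩ := hx
    refine ⟨t, s, ht, hs, ?_⟩
    rw [Units.val_inv_eq_inv_val, h1, inv_div]

end VAL

open VAL in
theorem I_VAL (hKA : StKA) (hOZ : StOZ) : StVAL := by
  intro K _ R _ a ha0 hau
  obtain ⟨P, hPp, haP, hPm⟩ := exists_prime K R a hau
  obtain ⟨O, hRO, hinv, hnon⟩ := exists_val K R P
  refine ⟨O, hRO, hnon a haP ha0, ?_⟩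
  intro X hX
  let H := Subgroup.closure (X : Set Kˣ)
  let OH : Submonoid H :=
    { carrier := {h | ((h : Kˣ) : K) ∈ O}
      one_mem' := by
        show (((1 : H) : Kˣ) : K) ∈ O
        simp
      mul_mem' := by
        intro x y hx hy
        show (((x * y : H) : Kˣ) : K) ∈ O
        have h1 : (((x * y : H) : Kˣ) : K) = ((x : Kˣ) : K) * ((y : Kˣ) : K) := by simp
        rw [h1]
        exact O.mul_mem _ _ hx hy }
  have hOH : ∀ h : H, h ∈ OH ↔ ((h : Kˣ) : K) ∈ O := fun h => Iff.rfl
  refine hOZ H OH ?_ ?_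
  · intro h
    rw [hOH, hOH]
    have h1 : (((h⁻¹ : H) : Kˣ) : K) = (((h : Kˣ) : K))⁻¹ := by simp
    rw [h1]
    exact O.mem_or_inv_mem _
  · intro h hh
    obtain ⟨s, t, hs, ht, hst⟩ := frac K R X hX h h.2
    have htK : (t : K) ≠ 0 := fun h0 => ht (Subtype.ext h0)
    obtain ⟨n, hn⟩ := hKA K R P hPm (s * a) (P.mul_mem_left s haP) (mul_ne_zero hs ha0)
    refine ⟨n, ?_⟩
    rintro ⟨z, hz0, hz1, hz2⟩
    refine hn O hRO hinv ⟨fun i => ((z i : Kˣ) : K), ?_, ?_, ?_, ?_, ?_⟩
    · exact fun i _ => (z i : Kˣ).ne_zero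
    · intro i _
      obtain ⟨s', t', _, ht', h1⟩ := frac K R X hX (z i) (z i).2
      exact ⟨s', t', ht', h1⟩
    · exact hz0
    · intro i hi
      obtain ⟨h1, h2⟩ := hz1 i hi
      rw [hOH] at h1 h2
      have e1 : (((z (i + 1) * (z i)⁻¹ : H) : Kˣ) : K) =
          ((z (i + 1) : Kˣ) : K) / ((z i : Kˣ) : K) := by
        simp [div_eq_mul_inv]
      have e2 : (((z i * (z (i + 1))⁻¹ : H) : Kˣ) : K) =
          ((z i : Kˣ) : K) / ((z (i + 1) : Kˣ) : K) := by
        simp [div_eq_mul_inv]
      rw [e1] at h1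
      rw [e2] at h2
      exact ⟨h1, h2⟩
    · rw [hOH] at hz2
      have e1 : (((h * (z n)⁻¹ : H) : Kˣ) : K) = ((h : Kˣ) : K) / ((z n : Kˣ) : K) := by
        simp [div_eq_mul_inv]
      rw [e1] at hz2
      have e2 : (((s * a : R) : K)) / ((z n : Kˣ) : K) =
          ((h : Kˣ) : K) / ((z n : Kˣ) : K) * ((t : K) * (a : K)) := by
        rw [hst]
        push_cast
        field_simp
      show (((s * a : R) : K)) / ((z n : Kˣ) : K) ∈ O
      rw [e2]
      exact O.mul_mem _ _ hz2 (O.mul_mem _ _ (hRO _ t.2) (hRO _ a.2))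

end Pool.Agent.Work.MP_e9e200_al.LC

end
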