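import Pool.Agent.Work.MP_e9e200_al.Bd.B02
import Pool.Agent.Work.MP_e9e200_al.SP.FQ

/-! Bundle of small proof modules (one section per former module). -/

section

/-! Item CHG: base change to the complex numbers. -/

set_option autoImplicit false

namespace Pool.Agent.Work.MP_e9e200_al.LC

open Finsupp

namespace CHG

/-- the base change of a chain -/
noncomputable def ch {X : Type} : (X →₀ ℤ) →+ (X →₀ ℂ) :=
  Finsupp.mapRange.addMonoidHom (Int.castAddHom ℂ)

theorem ch_apply {X : Type} (x : X →₀ ℤ) (p : X) : ch x p = (x p : ℂ) := rfl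

theorem ch_eq {X : Type} (x : X →₀ ℤ) :
    Finsupp.mapRange (fun n : ℤ => (n : ℂ)) (by simp) x = ch x := rfl

theorem ch_single {X : Type} (p : X) (n : ℤ) : ch (single p n) = single p (n : ℂ) :=
  Finsupp.mapRange_single (f := Int.castAddHom ℂ) (hf := map_zero _)

theorem ch_supported {X : Type} {s : Set X} {x : X →₀ ℤ}
    (hx : x ∈ Finsupp.supported ℤ ℤ s) : ch x ∈ Finsupp.supported ℂ ℂ s := by
  rw [Finsupp.mem_supported'] at hx ⊢
  intro p hp
  rw [ch_apply, hx p hp, Int.cast_zero]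

theorem ch_tr {H B : Type} [Group H] (h : H) (x : H × B →₀ ℤ) :
    ch (tr ℤ h x) = tr ℂ h (ch x) := by
  induction x using Finsupp.induction_linear with
  | zero => simp
  | add x y hx hy => rw [map_add, map_add, hx, hy, map_add, map_add]
  | single p n =>
    unfold tr
    rw [Finsupp.lmapDomain_apply, Finsupp.mapDomain_single, ch_single, ch_single,
      Finsupp.lmapDomain_apply, Finsupp.mapDomain_single]

theorem ch_smul {X : Type} (n : ℤ) (x : X →₀ ℤ) : ch (n • x) = (n : ℂ) • ch x := by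
  ext p
  rw [ch_apply, Finsupp.smul_apply, Finsupp.smul_apply, ch_apply, smul_eq_mul, smul_eq_mul,
    Int.cast_mul]

theorem ch_ext {H B B' : Type} [Group H] (u : B → (H × B' →₀ ℤ)) (x : H × B →₀ ℤ) :
    ext ℂ (fun b => ch (u b)) (ch x) = ch (ext ℤ u x) := by
  induction x using Finsupp.induction_linear with
  | zero => simp
  | add x y hx hy => rw [map_add, map_add, hx, hy, map_add, map_add]
  | single p n =>
    rw [ch_single]
    unfold ext
    rw [Finsupp.linearCombination_single, Finsupp.linearCombination_single, ch_smul, ch_tr]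

theorem ch_aug {H B : Type} (e : B → ℤ) (x : H × B →₀ ℤ) :
    aug ℂ (fun b => (e b : ℂ)) (ch x) = ((aug ℤ e x : ℤ) : ℂ) := by
  induction x using Finsupp.induction_linear with
  | zero => simp
  | add x y hx hy => rw [map_add, map_add, hx, hy, map_add, Int.cast_add]
  | single p n =>
    rw [ch_single]
    unfold aug
    rw [Finsupp.linearCombination_single, Finsupp.linearCombination_single, smul_eq_mul,
      smul_eq_mul, Int.cast_mul]

/-- a complex chain is a combination of integral chains with coefficients which are linearly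
independent over the integers -/
theorem exists_coord {X : Type} (x : X →₀ ℂ) : ∃ (ι : Type) (_ : Fintype ι) (v : ι → ℂ)
    (y : ι → (X →₀ ℤ)), (∀ c : ι → ℤ, ∑ i, (c i : ℂ) * v i = 0 → ∀ i, c i = 0) ∧
      x = ∑ i, v i • ch (y i) ∧ ∀ i p, x p = 0 → y i p = 0 := by
  classical
  let Λ : Submodule ℤ ℂ := Submodule.span ℤ (x '' (x.support : Set X))
  have hfin : Module.Finite ℤ Λ :=
    Module.Finite.span_of_finite ℤ (x.support.finite_toSet.image x)
  have hmem : ∀ p, x p ∈ Λ := by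
    intro p
    by_cases h : p ∈ x.support
    · exact Submodule.subset_span ⟨p, h, rfl⟩
    · rw [Finsupp.notMem_support_iff.mp h]
      exact Λ.zero_mem
  have hfree : Module.Free ℤ Λ := inferInstance
  let B := Module.Free.chooseBasis ℤ Λ
  let xt : X →₀ Λ := Finsupp.onFinset x.support (fun p => (⟨x p, hmem p⟩ : Λ)) (by
    intro p hp
    rw [Finsupp.mem_support_iff]
    intro h
    exact hp (Subtype.ext h))
  have hxt : ∀ p, ((xt p : Λ) : ℂ) = x p := fun p => rfl
  refine ⟨Module.Free.ChooseBasisIndex ℤ Λ, inferInstance, fun i => ((B i : Λ) : ℂ),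
    fun i => xt.mapRange (B.coord i) (map_zero _), ?_, ?_, ?_⟩
  · intro c hc
    refine Fintype.linearIndependent_iff.mp B.linearIndependent c ?_
    apply Subtype.ext
    rw [AddSubmonoidClass.coe_finsetSum]
    refine Eq.trans (Finset.sum_congr rfl fun i _ => ?_) hc
    rw [SetLike.val_smul, zsmul_eq_mul]
  · ext p
    rw [Finsupp.finsetSum_apply]
    have h1 : ((∑ i, B.repr (xt p) i • B i : Λ) : ℂ) = x p := by
      rw [B.sum_repr, hxt]
    rw [← h1, AddSubmonoidClass.coe_finsetSum]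
    refine Finset.sum_congr rfl fun i _ => ?_
    rw [SetLike.val_smul, zsmul_eq_mul, Finsupp.smul_apply, ch_apply, smul_eq_mul, mul_comm]
    rfl
  · intro i p hp
    show B.coord i (xt p) = 0
    have : xt p = 0 := Subtype.ext hp
    rw [this, map_zero]

end CHG

open CHG in
theorem I_CHG : StCHG := by
  classical
  intro G _ S m B deg db eb h
  have key : PRes ℂ (S : Set G) m B deg (fun b => ch (db b)) (fun b => (eb b : ℂ)) := by
    refine ⟨h.le, fun b => ch_supported (h.db_sup b), fun b hb => ?_, fun b => ?_, fun b => ?_, ?_,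
      ?_⟩
    · rw [h.eb_deg b hb, Int.cast_zero]
    · rw [ch_ext, h.dd, map_zero]
    · rw [ch_aug, h.ed, Int.cast_zero]
    · obtain ⟨x, hx, h1⟩ := h.surj
      exact ⟨ch x, ch_supported hx, by rw [ch_aug, h1, Int.cast_one]⟩
    · intro d hd x hx hDx hax
      obtain ⟨ι, _, v, y, hv, hxy, hy⟩ := exists_coord x
      have hys : ∀ i, y i ∈ Finsupp.supported ℤ ℤ {p : G × B | p.1 ∈ (S : Set G) ∧ deg p.2 = d} := by
        intro i
        rw [Finsupp.mem_supported'] at hx ⊢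
        intro p hp
        exact hy i p (hx p hp)
      have hD : ∀ i, ext ℤ db (y i) = 0 := by
        intro i
        ext q
        have h1 : ∑ i, ((ext ℤ db (y i) q : ℤ) : ℂ) * v i = 0 := by
          have h2 : ext ℂ (fun b => ch (db b)) x q = 0 := by rw [hDx]; rfl
          rw [hxy, map_sum, Finsupp.finsetSum_apply] at h2
          refine Eq.trans (Finset.sum_congr rfl fun i _ => ?_) h2
          rw [map_smul, ch_ext, Finsupp.smul_apply, ch_apply, smul_eq_mul, mul_comm]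
        exact hv (fun i => ext ℤ db (y i) q) h1 i
      have hA : ∀ i, aug ℤ eb (y i) = 0 := by
        refine hv (fun i => aug ℤ eb (y i)) ?_
        have h2 := hax
        rw [hxy, map_sum] at h2
        refine Eq.trans (Finset.sum_congr rfl fun i _ => ?_) h2
        rw [map_smul, ch_aug, smul_eq_mul, mul_comm]
      choose w hw1 hw2 using fun i => h.exact d hd (y i) (hys i) (hD i) (hA i)
      refine ⟨∑ i, v i • ch (w i), ?_, ?_⟩
      · exact Submodule.sum_mem _ fun i _ => Submodule.smul_mem _ _ (ch_supported (hw1 i))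
      · rw [map_sum]
        conv_rhs => rw [hxy]
        refine Finset.sum_congr rfl fun i _ => ?_
        rw [map_smul, ch_ext, hw2]
  exact key

end Pool.Agent.Work.MP_e9e200_al.LC

end

section

/-!
# For all characters near `χ` the complex is essentially exact
-/

set_option autoImplicit false

namespace Pool.Agent.Work.MP_e9e200_al.LC

open Finsupp

namespace ES

theorem lin_mem {α M : Type} [AddCommGroup M] [Module ℂ M] (L : (α →₀ ℂ) →ₗ[ℂ] M) (S : Set α)
    (N : Submodule ℂ M) (h : ∀ p ∈ S, L (single p 1) ∈ N) {x : α →₀ ℂ}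
    (hx : x ∈ Finsupp.supported ℂ ℂ S) : L x ∈ N := by
  rw [Finsupp.supported_eq_span_single] at hx
  have h1 : Submodule.span ℂ ((fun i => single i (1 : ℂ)) '' S) ≤ N.comap L := by
    rw [Submodule.span_le]
    rintro _ ⟨p, hp, rfl⟩
    exact h p hp
  exact h1 hx

theorem lin_eq {α M : Type} [AddCommGroup M] [Module ℂ M] (L L' : (α →₀ ℂ) →ₗ[ℂ] M) (S : Set α)
    (h : ∀ p ∈ S, L (single p 1) = L' (single p 1)) {x : α →₀ ℂ}
    (hx : x ∈ Finsupp.supported ℂ ℂ S) : L x = L' x := by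
  have h1 := lin_mem (L - L') S ⊥ (fun p hp => by
    rw [Submodule.mem_bot, LinearMap.sub_apply, h p hp, sub_self]) hx
  rw [Submodule.mem_bot, LinearMap.sub_apply] at h1
  exact sub_eq_zero.1 h1

theorem lin_eq' {α M : Type} [AddCommGroup M] [Module ℂ M] (L L' : (α →₀ ℂ) →ₗ[ℂ] M)
    (h : ∀ p, L (single p 1) = L' (single p 1)) (x : α →₀ ℂ) : L x = L' x :=
  lin_eq L L' Set.univ (fun p _ => h p) (by rw [Finsupp.supported_univ]; trivial)

variable {G B B' : Type} [Group G]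

theorem tr_single (g : G) (p : G × B) (c : ℂ) :
    tr ℂ g (single p c) = single (g * p.1, p.2) c := by
  unfold tr
  rw [Finsupp.lmapDomain_apply, Finsupp.mapDomain_single]

theorem ext_single (u : B → (G × B' →₀ ℂ)) (p : G × B) :
    ext ℂ u (single p 1) = tr ℂ p.1 (u p.2) := by
  unfold ext
  rw [Finsupp.linearCombination_single, one_smul]

omit [Group G] in
theorem aug_single (e : B → ℂ) (p : G × B) : aug (H := G) ℂ e (single p 1) = e p.2 := by
  unfold aug
  rw [Finsupp.linearCombination_single, one_smul]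

theorem tr_tr (g h : G) (x : G × B →₀ ℂ) : tr ℂ g (tr ℂ h x) = tr ℂ (g * h) x :=
  lin_eq' (tr ℂ g ∘ₗ tr ℂ h) (tr ℂ (g * h)) (fun p => by
    rw [LinearMap.comp_apply, tr_single, tr_single, tr_single, mul_assoc]) x

theorem tr_one (x : G × B →₀ ℂ) : tr ℂ (1 : G) x = x :=
  lin_eq' (tr ℂ (1 : G)) LinearMap.id (fun p => by
    rw [tr_single, one_mul, LinearMap.id_apply]) x

theorem ext_tr (u : B → (G × B' →₀ ℂ)) (g : G) (x : G × B →₀ ℂ) :
    ext ℂ u (tr ℂ g x) = tr ℂ g (ext ℂ u x) :=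
  lin_eq' (ext ℂ u ∘ₗ tr ℂ g) (tr ℂ g ∘ₗ ext ℂ u) (fun p => by
    rw [LinearMap.comp_apply, LinearMap.comp_apply, tr_single, ext_single, ext_single, tr_tr]) x

theorem aug_tr (e : B → ℂ) (g : G) (x : G × B →₀ ℂ) : aug ℂ e (tr ℂ g x) = aug ℂ e x :=
  lin_eq' (aug ℂ e ∘ₗ tr ℂ g) (aug ℂ e) (fun p => by
    rw [LinearMap.comp_apply, tr_single, aug_single, aug_single]) x

theorem c_mul (χ : Additive G →+ ℝ) (x g : G) :
    χ (Additive.ofMul (x * g)) = χ (Additive.ofMul x) + χ (Additive.ofMul g) := by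
  rw [ofMul_mul, map_add]

theorem supp_mono {α : Type} {S S' : Set α} (h : S ⊆ S') {x : α →₀ ℂ}
    (hx : x ∈ Finsupp.supported ℂ ℂ S) : x ∈ Finsupp.supported ℂ ℂ S' :=
  Finsupp.supported_mono h hx

theorem tr_supp (χ : Additive G →+ ℝ) (deg : B → ℕ) (g : G) (s : ℝ) (d : ℕ)
    {x : G × B →₀ ℂ} (hx : x ∈ Finsupp.supported ℂ ℂ {p : G × B | p.1 ∈ hs χ s ∧ deg p.2 = d}) :
    tr ℂ g x ∈ Finsupp.supported ℂ ℂ
      {p : G × B | p.1 ∈ hs χ (χ (Additive.ofMul g) + s) ∧ deg p.2 = d} := by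
  refine lin_mem (tr ℂ g) _ _ ?_ hx
  rintro p ⟨h1, h2⟩
  rw [tr_single]
  refine Finsupp.single_mem_supported _ _ ⟨?_, h2⟩
  show χ (Additive.ofMul g) + s ≤ χ (Additive.ofMul (g * p.1))
  rw [c_mul]
  have h3 : s ≤ χ (Additive.ofMul p.1) := h1
  linarith

theorem ext_supp (χ : Additive G →+ ℝ) (deg : B → ℕ) (deg' : B' → ℕ) (u : B → (G × B' →₀ ℂ))
    (s t : ℝ) (d e : ℕ) (hu : ∀ b, deg b = d →
      u b ∈ Finsupp.supported ℂ ℂ {p : G × B' | p.1 ∈ hs χ s ∧ deg' p.2 = e})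
    {x : G × B →₀ ℂ} (hx : x ∈ Finsupp.supported ℂ ℂ {p : G × B | p.1 ∈ hs χ t ∧ deg p.2 = d}) :
    ext ℂ u x ∈ Finsupp.supported ℂ ℂ
      {p : G × B' | p.1 ∈ hs χ (t + s) ∧ deg' p.2 = e} := by
  refine lin_mem (ext ℂ u) _ _ ?_ hx
  rintro p ⟨h1, h2⟩
  rw [ext_single]
  refine supp_mono ?_ (tr_supp χ deg' p.1 s e (hu p.2 h2))
  rintro r ⟨h3, h4⟩
  refine ⟨?_, h4⟩
  have h5 : χ (Additive.ofMul p.1) + s ≤ χ (Additive.ofMul r.1) := h3
  have h6 : t ≤ χ (Additive.ofMul p.1) := h1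
  show t + s ≤ χ (Additive.ofMul r.1)
  linarith

theorem exists_low (χ : Additive G →+ ℝ) (x : G × B →₀ ℂ) :
    ∃ L : ℝ, ∀ p ∈ x.support, -L ≤ χ (Additive.ofMul p.1) := by
  refine ⟨∑ p ∈ x.support, |χ (Additive.ofMul p.1)|, ?_⟩
  intro p hp
  have h1 : |χ (Additive.ofMul p.1)| ≤ ∑ p ∈ x.support, |χ (Additive.ofMul p.1)| :=
    Finset.single_le_sum (f := fun p : G × B => |χ (Additive.ofMul p.1)|)
      (fun _ _ => abs_nonneg _) hp
  have h2 := neg_abs_le (χ (Additive.ofMul p.1))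
  linarith

theorem exists_large {χ : Additive G →+ ℝ} (hχ : χ ≠ 0) (L : ℝ) :
    ∃ g : G, L ≤ χ (Additive.ofMul g) := by
  obtain ⟨g1, hg1⟩ : ∃ g : G, 0 < χ (Additive.ofMul g) := by
    by_contra hcon
    push Not at hcon
    apply hχ
    refine AddMonoidHom.ext fun g => ?_
    have h1 : χ g ≤ 0 := hcon (Additive.toMul g)
    have h2 := hcon (Additive.toMul g)⁻¹
    rw [ofMul_inv, map_neg] at h2
    have h3 : -χ g ≤ 0 := h2
    show χ g = 0
    linarith
  obtain ⟨N, hN⟩ := exists_nat_ge (L / χ (Additive.ofMul g1))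
  refine ⟨g1 ^ N, ?_⟩
  rw [ofMul_pow, map_nsmul, nsmul_eq_mul]
  rwa [div_le_iff₀ hg1] at hN

/-- filling without control -/
theorem fill {χ : Additive G →+ ℝ} (hχ : χ ≠ 0) {m : ℕ} {deg : B → ℕ} {db : B → (G × B →₀ ℂ)}
    {eb : B → ℂ} (hR : PRes ℂ (hs χ 0) m B deg db eb) {d : ℕ} (hd : d < m) {x : G × B →₀ ℂ}
    (hx : x ∈ Finsupp.supported ℂ ℂ {p : G × B | deg p.2 = d}) (hDx : ext ℂ db x = 0)
    (hax : aug ℂ eb x = 0) :
    ∃ y ∈ Finsupp.supported ℂ ℂ {p : G × B | deg p.2 = d + 1}, ext ℂ db y = x := by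
  obtain ⟨L, hL⟩ := exists_low χ x
  obtain ⟨g, hg⟩ := exists_large hχ L
  have h1 : x ∈ Finsupp.supported ℂ ℂ {p : G × B | p.1 ∈ hs χ (-L) ∧ deg p.2 = d} := by
    rw [Finsupp.mem_supported] at hx ⊢
    exact fun p hp => ⟨hL p hp, hx hp⟩
  have h2 : tr ℂ g x ∈ Finsupp.supported ℂ ℂ {p : G × B | p.1 ∈ hs χ 0 ∧ deg p.2 = d} := by
    refine supp_mono ?_ (tr_supp χ deg g (-L) d h1)
    rintro p ⟨h3, h4⟩
    refine ⟨?_, h4⟩
    have h5 : χ (Additive.ofMul g) + -L ≤ χ (Additive.ofMul p.1) := h3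
    show 0 ≤ χ (Additive.ofMul p.1)
    linarith
  obtain ⟨y, hy, hyx⟩ := hR.exact d hd (tr ℂ g x) h2 (by rw [ext_tr, hDx, map_zero])
    (by rw [aug_tr, hax])
  refine ⟨tr ℂ g⁻¹ y, ?_, ?_⟩
  · refine lin_mem (tr ℂ g⁻¹) _ _ ?_ hy
    rintro p ⟨_, h4⟩
    rw [tr_single]
    exact Finsupp.single_mem_supported _ _ h4
  · rw [ext_tr, hyx, tr_tr, inv_mul_cancel, tr_one]

end ES

open ES in
theorem I_ES : StES := by
  classical
  intro G _ χ hχ m B _ deg db eb hR ρ ph hh hP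
  have : Fintype B := Fintype.ofFinite B
  obtain ⟨hρ, hps, hhs, hcomm, -, heq⟩ := hP
  set F : Finset G := (Finset.univ : Finset B).biUnion (fun b =>
    (db b).support.image Prod.fst ∪ ((ph b).support.image Prod.fst ∪
      (hh b).support.image Prod.fst)) with hF
  refine ⟨F, min (ρ / 2) 1, by positivity, ?_⟩
  intro χ' hχ'
  have hFd : ∀ b, ∀ p ∈ (db b).support, p.1 ∈ F := by
    intro b p hp
    rw [hF, Finset.mem_biUnion]
    exact ⟨b, Finset.mem_univ b, Finset.mem_union_left _ (Finset.mem_image_of_mem _ hp)⟩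
  have hFp : ∀ b, ∀ p ∈ (ph b).support, p.1 ∈ F := by
    intro b p hp
    rw [hF, Finset.mem_biUnion]
    exact ⟨b, Finset.mem_univ b, Finset.mem_union_right _
      (Finset.mem_union_left _ (Finset.mem_image_of_mem _ hp))⟩
  have hFh : ∀ b, ∀ p ∈ (hh b).support, p.1 ∈ F := by
    intro b p hp
    rw [hF, Finset.mem_biUnion]
    exact ⟨b, Finset.mem_univ b, Finset.mem_union_right _
      (Finset.mem_union_right _ (Finset.mem_image_of_mem _ hp))⟩
  have hm1 : min (ρ / 2) 1 ≤ 1 := min_le_right _ _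
  have hm2 : min (ρ / 2) 1 ≤ ρ / 2 := min_le_left _ _
  have hdb : ∀ b, db b ∈ Finsupp.supported ℂ ℂ {p : G × B | p.1 ∈ hs χ' (-1)} := by
    intro b
    have h1 := hR.db_sup b
    rw [Finsupp.mem_supported] at h1 ⊢
    intro p hp
    have h2 : 0 ≤ χ (Additive.ofMul p.1) := (h1 hp).1
    have h3 := (abs_lt.1 (hχ' p.1 (hFd b p hp))).1
    show -1 ≤ χ' (Additive.ofMul p.1)
    linarith
  have hph : ∀ b, ph b ∈ Finsupp.supported ℂ ℂ
      {p : G × B | p.1 ∈ hs χ' (ρ / 2) ∧ deg p.2 = deg b} := by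
    intro b
    have h1 := hps b
    rw [Finsupp.mem_supported] at h1 ⊢
    intro p hp
    have h2 : ρ ≤ χ (Additive.ofMul p.1) := (h1 hp).1
    have h3 := (abs_lt.1 (hχ' p.1 (hFp b p hp))).1
    refine ⟨?_, (h1 hp).2⟩
    show ρ / 2 ≤ χ' (Additive.ofMul p.1)
    linarith
  have hhh : ∀ b, hh b ∈ Finsupp.supported ℂ ℂ
      {p : G × B | p.1 ∈ hs χ' (-1) ∧ deg p.2 = deg b + 1} := by
    intro b
    have h1 := hhs b
    rw [Finsupp.mem_supported] at h1 ⊢
    intro p hp
    have h2 : 0 ≤ χ (Additive.ofMul p.1) := (h1 hp).1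
    have h3 := (abs_lt.1 (hχ' p.1 (hFh b p hp))).1
    refine ⟨?_, (h1 hp).2⟩
    show -1 ≤ χ' (Additive.ofMul p.1)
    linarith
  refine ⟨zero_le_one, hdb, ?_⟩
  intro t d hd x hx hDx hax
  have hx' : x ∈ Finsupp.supported ℂ ℂ {p : G × B | deg p.2 = d} :=
    supp_mono (fun p hp => hp.2) hx
  obtain ⟨y0, hy0, hDy0⟩ := fill hχ hR hd hx' hDx hax
  obtain ⟨L, hL⟩ := exists_low χ' y0
  have hDP : ∀ z, ext ℂ db (ext ℂ ph z) = ext ℂ ph (ext ℂ db z) := fun z =>
    lin_eq' (ext ℂ db ∘ₗ ext ℂ ph) (ext ℂ ph ∘ₗ ext ℂ db) (fun p => by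
      rw [LinearMap.comp_apply, LinearMap.comp_apply, ext_single, ext_single, ext_tr, ext_tr,
        hcomm]) z
  have hHD : ∀ z ∈ Finsupp.supported ℂ ℂ {p : G × B | deg p.2 = d},
      ext ℂ db (ext ℂ hh z) + ext ℂ hh (ext ℂ db z) = z - ext ℂ ph z := by
    intro z hz
    refine lin_eq (ext ℂ db ∘ₗ ext ℂ hh + ext ℂ hh ∘ₗ ext ℂ db) (LinearMap.id - ext ℂ ph) _
      ?_ hz
    intro p hp
    have hp' : deg p.2 = d := hp
    rw [LinearMap.add_apply, LinearMap.comp_apply, LinearMap.comp_apply, LinearMap.sub_apply,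
      LinearMap.id_apply, ext_single, ext_single, ext_single, ext_tr, ext_tr, ← map_add,
      heq p.2 (by omega), map_sub, tr_single, mul_one]
  -- the approximations
  have key : ∀ k : ℕ, ∃ y xk wk : G × B →₀ ℂ,
      y ∈ Finsupp.supported ℂ ℂ {p : G × B | p.1 ∈ hs χ' (t - 1) ∧ deg p.2 = d + 1} ∧
      xk ∈ Finsupp.supported ℂ ℂ {p : G × B | p.1 ∈ hs χ' t ∧ deg p.2 = d} ∧
      wk ∈ Finsupp.supported ℂ ℂ
        {p : G × B | p.1 ∈ hs χ' (-L + k * (ρ / 2)) ∧ deg p.2 = d + 1} ∧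
      ext ℂ db xk = 0 ∧ ext ℂ db wk = xk ∧ ext ℂ db y + xk = x := by
    intro k
    induction k with
    | zero =>
      refine ⟨0, x, y0, Submodule.zero_mem _, hx, ?_, hDx, hDy0, by rw [map_zero, zero_add]⟩
      rw [Finsupp.mem_supported] at hy0 ⊢
      intro p hp
      refine ⟨?_, hy0 hp⟩
      have h1 := hL p hp
      show -L + ((0 : ℕ) : ℝ) * (ρ / 2) ≤ χ' (Additive.ofMul p.1)
      push_cast
      linarith
    | succ k ih =>
      obtain ⟨y, xk, wk, h1, h2, h3, h4, h5, h6⟩ := ih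
      refine ⟨y + ext ℂ hh xk, ext ℂ ph xk, ext ℂ ph wk, ?_, ?_, ?_, ?_, ?_, ?_⟩
      · refine Submodule.add_mem _ h1 ?_
        have := ext_supp χ' deg deg hh (-1) t d (d + 1) (fun b hb => by
          have := hhh b
          rwa [hb] at this) h2
        rwa [← sub_eq_add_neg] at this
      · refine supp_mono ?_ (ext_supp χ' deg deg ph (ρ / 2) t d d (fun b hb => by
          have := hph b
          rwa [hb] at this) h2)
        rintro p ⟨h7, h8⟩
        refine ⟨?_, h8⟩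
        have h9 : t + ρ / 2 ≤ χ' (Additive.ofMul p.1) := h7
        show t ≤ χ' (Additive.ofMul p.1)
        linarith
      · have := ext_supp χ' deg deg ph (ρ / 2) _ (d + 1) (d + 1) (fun b hb => by
          have := hph b
          rwa [hb] at this) h3
        have e1 : -L + ((k + 1 : ℕ) : ℝ) * (ρ / 2) = -L + (k : ℝ) * (ρ / 2) + ρ / 2 := by
          push_cast
          ring
        rw [e1]
        exact this
      · rw [hDP, h4, map_zero]
      · rw [hDP, h5]
      · have h7 := hHD xk (supp_mono (fun p hp => hp.2) h2)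
        rw [h4, map_zero, add_zero] at h7
        rw [map_add, h7, ← h6]
        abel
  obtain ⟨k, hk⟩ := exists_nat_ge ((t - 1 + L) / (ρ / 2))
  obtain ⟨y, xk, wk, h1, h2, h3, h4, h5, h6⟩ := key k
  refine ⟨y + wk, Submodule.add_mem _ h1 (supp_mono ?_ h3), by rw [map_add, h5, h6]⟩
  rintro p ⟨h7, h8⟩
  refine ⟨?_, h8⟩
  have h9 : -L + k * (ρ / 2) ≤ χ' (Additive.ofMul p.1) := h7
  rw [div_le_iff₀ (by positivity)] at hk
  show t - 1 ≤ χ' (Additive.ofMul p.1)
  linarith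

end Pool.Agent.Work.MP_e9e200_al.LC

end

section

/-!
# Finite equivariant quotients
-/

set_option autoImplicit false

namespace Pool.Agent.Work.MP_e9e200_al.LC

theorem I_FQ : StFQ := by
  intro N _ _ M _ act E hE hM
  let ρ : MonoidAlgebra ℤ N →ₐ[ℤ] AddMonoid.End M :=
    MonoidAlgebra.lift ℤ (AddMonoid.End M) N act
  let _ : Module (MonoidAlgebra ℤ N) M := Module.compHom M ρ.toRingHom
  have hof : ∀ (n : N) (x : M), MonoidAlgebra.of ℤ N n • x = act n x := by
    intro n x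
    change ρ (MonoidAlgebra.of ℤ N n) x = act n x
    rw [MonoidAlgebra.lift_of]
  have hfin : Module.Finite (MonoidAlgebra ℤ N) M := by
    refine ⟨⟨E, ?_⟩⟩
    have h : (⊤ : AddSubgroup M) ≤
        (Submodule.span (MonoidAlgebra ℤ N) (E : Set M)).toAddSubgroup := by
      rw [← hE, AddSubgroup.closure_le]
      rintro x ⟨n, e, he, rfl⟩
      rw [← hof]
      exact Submodule.smul_mem _ _ (Submodule.subset_span he)
    rw [eq_top_iff]
    intro x _
    exact h trivial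
  have h1 := MonoidAlgebra.finiteType_of_fg (R := ℤ) (M := N)
  have h2 : (MonoidAlgebra.algebra : Algebra ℤ (MonoidAlgebra ℤ N)) = Ring.toIntAlgebra _ :=
    Subsingleton.elim _ _
  have h3 : @Algebra.FiniteType ℤ (MonoidAlgebra ℤ N) _ _ (Ring.toIntAlgebra _) := by
    rw [← h2]
    exact h1
  obtain ⟨W, hW, hW'⟩ := SP.I_FQ (MonoidAlgebra ℤ N) M
  refine ⟨W.toAddSubgroup, ?_, ?_, ?_⟩
  · intro h
    apply hW
    rw [eq_top_iff]
    intro x _
    have : x ∈ W.toAddSubgroup := by rw [h]; trivial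
    exact this
  · intro n x hx
    rw [← hof]
    exact W.smul_mem _ hx
  · exact hW'

end Pool.Agent.Work.MP_e9e200_al.LC

end

section

set_option autoImplicit false
namespace Pool.Agent.Work.MP_e9e200_al.LC
open Finsupp
namespace NOE

theorem vl_mul {Q : Type} [Group Q] (χ : Chr Q) (a b : Q) : vl χ (a * b) = vl χ a + vl χ b := by
  simp [vl]

theorem vl_one {Q : Type} [Group Q] (χ : Chr Q) : vl χ 1 = 0 := by
  simp [vl]

theorem vl_pow {Q : Type} [Group Q] (χ : Chr Q) (a : Q) (n : ℕ) : vl χ (a ^ n) = n * vl χ a := by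
  simp [vl]

theorem vl_zpow {Q : Type} [Group Q] (χ : Chr Q) (a : Q) (n : ℤ) : vl χ (a ^ n) = n * vl χ a := by
  simp [vl]

theorem vl_prod {Q : Type} [CommGroup Q] (χ : Chr Q) {S : Type} (s : Finset S) (f : S → Q) :
    vl χ (∏ i ∈ s, f i) = ∑ i ∈ s, vl χ (f i) := by
  classical
  induction s using Finset.induction_on with
  | empty => simp [vl_one]
  | insert a s ha ih => rw [Finset.prod_insert ha, Finset.sum_insert ha, vl_mul, ih]

/-- Gordan's lemma -/
theorem gordan {Q : Type} [CommGroup Q] [Group.FG Q] {T : Type} [Finite T] (l : T → Chr Q)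
    (M : Submonoid Q) (hM : ∀ q, q ∈ M ↔ ∀ t, 0 ≤ vl (l t) q) : M.FG := by
  classical
  obtain ⟨S, hS, hfin⟩ := (Monoid.fg_iff (M := Q)).1 inferInstance
  have := hfin.fintype
  cases nonempty_fintype T
  let f : (S → ℕ) × (T → ℕ) →+ (T → ℤ) :=
    { toFun := fun x t => ∑ s : S, (x.1 s : ℤ) * vl (l t) s
      map_zero' := by ext t; simp
      map_add' := by
        intro x y
        ext t
        simp [add_mul, Finset.sum_add_distrib] }
  let g : (S → ℕ) × (T → ℕ) →+ (T → ℤ) :=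
    { toFun := fun x t => (x.2 t : ℤ)
      map_zero' := by ext t; simp
      map_add' := by
        intro x y
        ext t
        simp }
  let p : (S → ℕ) × (T → ℕ) →+ Additive Q :=
    { toFun := fun x => Additive.ofMul (∏ s : S, (s : Q) ^ (x.1 s))
      map_zero' := by simp
      map_add' := by
        intro x y
        rw [← ofMul_mul, ← Finset.prod_mul_distrib]
        simp [pow_add] }
  have hfg : ((f.eqLocusM g).map p).FG := (AddSubmonoid.fg_eqLocusM f g).map p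
  rw [Submonoid.fg_iff_add_fg]
  convert hfg
  ext q
  constructor
  · intro hq
    have hq' : Additive.toMul q ∈ M := hq
    have hc : Additive.toMul q ∈ Submonoid.closure (Set.range (fun s : S => (s : Q))) := by
      rw [Subtype.range_coe, hS]; trivial
    obtain ⟨a, ha⟩ := (Submonoid.mem_closure_range_iff_of_fintype).1 hc
    refine ⟨(a, fun t => (vl (l t) (Additive.toMul q)).toNat), ?_, ?_⟩
    · show f _ = g _
      ext t
      show ∑ s : S, (a s : ℤ) * vl (l t) s = ((vl (l t) (Additive.toMul q)).toNat : ℤ)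
      rw [Int.toNat_of_nonneg ((hM _).1 hq' t), ha, vl_prod]
      exact Finset.sum_congr rfl fun s _ => (vl_pow _ _ _).symm
    · show Additive.ofMul (∏ s : S, (s : Q) ^ (a s)) = q
      rw [← ha]; rfl
  · rintro ⟨x, hx, rfl⟩
    have hx' : f x = g x := hx
    show (∏ s : S, (s : Q) ^ (x.1 s)) ∈ M
    rw [hM]
    intro t
    rw [vl_prod]
    have h1 : ∑ s : S, (x.1 s : ℤ) * vl (l t) s = (x.2 t : ℤ) := congrFun hx' t
    have h2 : ∑ s : S, vl (l t) ((s : Q) ^ x.1 s) = ∑ s : S, (x.1 s : ℤ) * vl (l t) s :=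
      Finset.sum_congr rfl fun s _ => vl_pow _ _ _
    rw [h2, h1]
    positivity

/-! ### Translations -/

section

variable {Q B : Type} [CommGroup Q]

theorem tr_single (q : Q) (p : Q × B) (c : ℂ) :
    tr ℂ q (single p c) = single (q * p.1, p.2) c := by
  simp [tr, Finsupp.lmapDomain_apply, Finsupp.mapDomain_single]

theorem tr_one (x : Q × B →₀ ℂ) : tr ℂ (1 : Q) x = x := by
  have h : (tr ℂ (1 : Q) : (Q × B →₀ ℂ) →ₗ[ℂ] (Q × B →₀ ℂ)) = LinearMap.id := by
    ext p : 2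
    simp [tr_single]
  rw [h]; rfl

theorem tr_tr (a b : Q) (x : Q × B →₀ ℂ) : tr ℂ a (tr ℂ b x) = tr ℂ (a * b) x := by
  have h : (tr ℂ a ∘ₗ tr ℂ b : (Q × B →₀ ℂ) →ₗ[ℂ] (Q × B →₀ ℂ)) = tr ℂ (a * b) := by
    ext p : 2
    simp [tr_single, mul_assoc]
  rw [← h]; rfl

theorem tr_mem {Z Z' : Set (Q × B)} {q : Q} (h : ∀ p ∈ Z, (q * p.1, p.2) ∈ Z')
    {x : Q × B →₀ ℂ} (hx : x ∈ Finsupp.supported ℂ ℂ Z) :
    tr ℂ q x ∈ Finsupp.supported ℂ ℂ Z' := by
  classical
  rw [Finsupp.mem_supported] at hx ⊢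
  intro y hy
  have h1 := Finsupp.mapDomain_support hy
  rw [Finset.mem_image] at h1
  obtain ⟨p, hp, rfl⟩ := h1
  exact h p (hx hp)

theorem ext_single (db : B → (Q × B →₀ ℂ)) (p : Q × B) (c : ℂ) :
    ext ℂ db (single p c) = c • tr ℂ p.1 (db p.2) := by
  simp [ext, Finsupp.linearCombination_single]

theorem ext_tr (db : B → (Q × B →₀ ℂ)) (q : Q) (x : Q × B →₀ ℂ) :
    ext ℂ db (tr ℂ q x) = tr ℂ q (ext ℂ db x) := by
  have h : (ext ℂ db ∘ₗ tr ℂ q : (Q × B →₀ ℂ) →ₗ[ℂ] (Q × B →₀ ℂ)) = tr ℂ q ∘ₗ ext ℂ db := by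
    ext p : 2
    simp [tr_single, ext_single, tr_tr]
  exact LinearMap.congr_fun h x

/-- the action of the monoid ring -/
noncomputable def act (B : Type) (M : Submonoid Q) :
    MonoidAlgebra ℂ M →ₐ[ℂ] Module.End ℂ (Q × B →₀ ℂ) :=
  MonoidAlgebra.lift ℂ (Module.End ℂ (Q × B →₀ ℂ)) M
    { toFun := fun q => tr ℂ (q : Q)
      map_one' := by ext p : 2; simp [tr_single]
      map_mul' := fun a b => by
        refine LinearMap.ext fun x => ?_
        exact (tr_tr _ _ x).symm }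

theorem act_single (M : Submonoid Q) (q : M) (c : ℂ) (x : Q × B →₀ ℂ) :
    act B M (MonoidAlgebra.single q c) x = c • tr ℂ (q : Q) x := by
  rw [act, MonoidAlgebra.lift_single]
  rfl

/-- chains as a module over the monoid ring -/
@[reducible] noncomputable def modA (B : Type) (M : Submonoid Q) :
    Module (MonoidAlgebra ℂ M) (Q × B →₀ ℂ) :=
  Module.compHom (Q × B →₀ ℂ) (act B M).toRingHom

/-- an invariant subspace is a submodule over the monoid ring -/
noncomputable def subA (M : Submonoid Q) (P : Submodule ℂ (Q × B →₀ ℂ))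
    (hP : ∀ q ∈ M, ∀ x ∈ P, tr ℂ q x ∈ P) :
    @Submodule (MonoidAlgebra ℂ M) (Q × B →₀ ℂ) _ _ (modA B M) :=
  letI := modA B M
  { carrier := P
    add_mem' := fun ha hb => P.add_mem ha hb
    zero_mem' := P.zero_mem
    smul_mem' := by
      intro a x hx
      show act B M a x ∈ P
      induction a using MonoidAlgebra.induction_linear with
      | zero => simp
      | add f g hf hg => rw [map_add, LinearMap.add_apply]; exact P.add_mem hf hg
      | single q c => rw [act_single]; exact P.smul_mem _ (hP q q.2 x hx) }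

/-- the noetherian argument: an increasing sequence of invariant subspaces with union `P` inside
the chains over `M` of degree `d` reaches `P` -/
theorem noeth [Group.FG Q] [Finite B] {T : Type} [Finite T] (l : T → Chr Q) (M : Submonoid Q)
    (hM : ∀ q, q ∈ M ↔ ∀ t, 0 ≤ vl (l t) q) (P : Submodule ℂ (Q × B →₀ ℂ))
    (hP : ∀ q ∈ M, ∀ x ∈ P, tr ℂ q x ∈ P)
    (hsup : P ≤ Finsupp.supported ℂ ℂ {p : Q × B | p.1 ∈ M})
    (R : ℕ → Submodule ℂ (Q × B →₀ ℂ)) (hR : ∀ K, ∀ q ∈ M, ∀ x ∈ R K, tr ℂ q x ∈ R K)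
    (hmono : Monotone R) (hun : ∀ x ∈ P, ∃ K, x ∈ R K) : ∃ K, P ≤ R K := by
  classical
  let _ := modA B M
  have hMfg : Monoid.FG M := (Monoid.fg_iff_submonoid_fg M).2 (gordan l M hM)
  have hft : Algebra.FiniteType ℂ (MonoidAlgebra ℂ M) := inferInstance
  have hN : IsNoetherianRing (MonoidAlgebra ℂ M) :=
    Algebra.FiniteType.isNoetherianRing ℂ (MonoidAlgebra ℂ M)
  set A0 : Set (Q × B →₀ ℂ) := Set.range (fun b : B => (single ((1 : Q), b) (1 : ℂ)))
  have hA0 : A0.Finite := Set.finite_range _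
  have hspan := isNoetherian_span_of_finite (MonoidAlgebra ℂ M) hA0
  have hle : subA M P hP ≤ Submodule.span (MonoidAlgebra ℂ M) A0 := by
    intro x hx
    have hx' := (Finsupp.mem_supported _ _).1 (hsup hx)
    rw [← Finsupp.sum_single x]
    refine Submodule.sum_mem _ fun p hp => ?_
    have h1 : single p (x p) = (MonoidAlgebra.single (⟨p.1, hx' hp⟩ : M) (x p)) •
        (single ((1 : Q), p.2) (1 : ℂ) : Q × B →₀ ℂ) := by
      show _ = act B M _ _
      rw [act_single, tr_single]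
      simp
    rw [h1]
    exact Submodule.smul_mem _ _ (Submodule.subset_span ⟨p.2, rfl⟩)
  obtain ⟨s, hs⟩ := isNoetherian_submodule.1 hspan _ hle
  have hsP : ∀ y ∈ s, y ∈ P := by
    intro y hy
    have : y ∈ subA M P hP := by rw [← hs]; exact Submodule.subset_span hy
    exact this
  have hch : ∀ y : Q × B →₀ ℂ, ∃ K, y ∈ P → y ∈ R K := by
    intro y
    by_cases hy : y ∈ P
    · obtain ⟨K, hK⟩ := hun y hy
      exact ⟨K, fun _ => hK⟩
    · exact ⟨0, fun h => absurd h hy⟩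
  choose k hk using hch
  refine ⟨s.sup k, fun x hx => ?_⟩
  have h2 : subA M P hP ≤ subA M (R (s.sup k)) (hR _) := by
    rw [← hs, Submodule.span_le]
    intro y hy
    exact hmono (Finset.le_sup hy) (hk y (hsP y hy))
  exact h2 hx

end

theorem vl_inv {Q : Type} [CommGroup Q] (χ : Chr Q) (q : Q) : vl χ⁻¹ q = - vl χ q := by
  simp [vl]

/-- the chains of degree `d` in the region with the property `P` -/
noncomputable def Sd {Q B : Type} [CommGroup Q] (χ : Chr Q) (deg : B → ℕ) (d : ℕ)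
    (P : Q × B → Prop) : Submodule ℂ (Q × B →₀ ℂ) :=
  Finsupp.supported ℂ ℂ {p | 0 ≤ vl χ p.1 ∧ deg p.2 = d ∧ P p}

theorem Sd_tr {Q B : Type} [CommGroup Q] {χ : Chr Q} {deg : B → ℕ} {d : ℕ}
    {P P' : Q × B → Prop} {q : Q} (h0 : 0 ≤ vl χ q) (h : ∀ p, P p → P' (q * p.1, p.2))
    {x : Q × B →₀ ℂ} (hx : x ∈ Sd χ deg d P) : tr ℂ q x ∈ Sd χ deg d P' := by
  refine tr_mem ?_ hx
  rintro p ⟨h1, h2, h3⟩
  exact ⟨by rw [vl_mul]; exact add_nonneg h0 h1, h2, h p h3⟩

theorem Sd_mono {Q B : Type} [CommGroup Q] {χ : Chr Q} {deg : B → ℕ} {d : ℕ}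
    {P P' : Q × B → Prop} (h : ∀ p, P p → P' p) : Sd χ deg d P ≤ Sd χ deg d P' :=
  Finsupp.supported_mono fun _ hp => ⟨hp.1, hp.2.1, h _ hp.2.2⟩

/-- the case of level zero -/
theorem level0 {Q : Type} [CommGroup Q] [Group.FG Q] {ι : Type} (χ : Chr Q)
    (χs : ι → Chr Q) {B : Type} [Finite B] (deg : B → ℕ) (db : B → (Q × B →₀ ℂ))
    (I : Finset ι) (d : ℕ) : ∃ K : ℕ, ∀ y ∈ Sd χ deg d (fun p => ∀ j ∈ I, vl (χs j) p.1 ≤ 0),
      (∃ w ∈ Sd χ deg (d + 1) (fun _ => True), ext ℂ db w = y) →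
      ∃ w ∈ Sd χ deg (d + 1) (fun p => ∀ j ∈ I, vl (χs j) p.1 ≤ K), ext ℂ db w = y := by
  classical
  let M : Submonoid Q :=
    { carrier := {q | 0 ≤ vl χ q ∧ ∀ j ∈ I, vl (χs j) q ≤ 0}
      one_mem' := ⟨by rw [vl_one], fun j _ => by rw [vl_one]⟩
      mul_mem' := by
        rintro a b ⟨ha, ha'⟩ ⟨hb, hb'⟩
        exact ⟨by rw [vl_mul]; exact add_nonneg ha hb,
          fun j hj => by rw [vl_mul]; exact add_nonpos (ha' j hj) (hb' j hj)⟩ }
  have hM : ∀ q, q ∈ M ↔ ∀ t : Option I, 0 ≤ vl (match t with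
      | Option.none => χ
      | Option.some j => (χs j)⁻¹) q := by
    intro q
    rw [Option.forall]
    constructor
    · rintro ⟨h1, h2⟩
      exact ⟨h1, fun j => by
        show 0 ≤ vl (χs j)⁻¹ q
        rw [vl_inv]; linarith [h2 j j.2]⟩
    · rintro ⟨h1, h2⟩
      exact ⟨h1, fun j hj => by
        have h3 : 0 ≤ vl (χs j)⁻¹ q := h2 ⟨j, hj⟩
        rw [vl_inv] at h3
        linarith⟩
  obtain ⟨K, hK⟩ := noeth (B := B) (T := Option I) _ M hM
    (Sd χ deg d (fun p => ∀ j ∈ I, vl (χs j) p.1 ≤ 0) ⊓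
      (Sd χ deg (d + 1) (fun _ => True)).map (ext ℂ db))
    (by
      rintro q ⟨hq, hq'⟩ x ⟨hx, w, hw, rfl⟩
      refine ⟨Sd_tr hq (fun p hp j hj => ?_) hx, tr ℂ q w, Sd_tr hq (fun _ _ => trivial) hw,
        ext_tr _ _ _⟩
      rw [vl_mul]
      exact add_nonpos (hq' j hj) (hp j hj))
    (inf_le_left.trans (Finsupp.supported_mono fun p hp => ⟨hp.1, hp.2.2⟩))
    (fun K => (Sd χ deg (d + 1) (fun p => ∀ j ∈ I, vl (χs j) p.1 ≤ (K : ℤ))).map (ext ℂ db))
    (by
      rintro K q ⟨hq, hq'⟩ x ⟨w, hw, rfl⟩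
      refine ⟨tr ℂ q w, Sd_tr hq (fun p hp j hj => ?_) hw, ext_tr _ _ _⟩
      rw [vl_mul]
      linarith [hq' j hj, hp j hj])
    (by
      intro K K' hKK
      exact Submodule.map_mono (Sd_mono fun p hp j hj => (hp j hj).trans (by exact_mod_cast hKK)))
    (by
      rintro x ⟨-, w, hw, rfl⟩
      refine ⟨w.support.sup fun p => I.sup fun j => (vl (χs j) p.1).toNat, w, ?_, rfl⟩
      have hw' := (Finsupp.mem_supported _ _).1 hw
      refine (Finsupp.mem_supported _ _).2 fun p hp => ⟨(hw' hp).1, (hw' hp).2.1, fun j hj => ?_⟩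
      have h1 : (vl (χs j) p.1).toNat ≤ I.sup fun j => (vl (χs j) p.1).toNat :=
        Finset.le_sup (f := fun j => (vl (χs j) p.1).toNat) hj
      have h2 : (I.sup fun j => (vl (χs j) p.1).toNat) ≤
          w.support.sup fun p => I.sup fun j => (vl (χs j) p.1).toNat :=
        Finset.le_sup (f := fun p : Q × B => I.sup fun j => (vl (χs j) p.1).toNat) hp
      exact (Int.self_le_toNat _).trans (by exact_mod_cast h1.trans h2))
  refine ⟨K, fun y hy hw => ?_⟩
  obtain ⟨w, hw1, hw2⟩ := hK ⟨hy, hw⟩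
  exact ⟨w, hw1, hw2⟩


/-- the general case -/
theorem levels {Q : Type} [CommGroup Q] [Group.FG Q] {ι : Type} (χ : Chr Q)
    (χs : ι → Chr Q) {B : Type} [Finite B] (deg : B → ℕ) (db : B → (Q × B →₀ ℂ))
    (I : Finset ι) (u : Q) (c : ℤ) (hc : 0 < c) (hu : vl χ u = 0)
    (hu' : ∀ j ∈ I, vl (χs j) u = c) (d : ℕ) : ∃ K : ℤ, 0 ≤ K ∧ ∀ s : ℤ,
      ∀ y ∈ Sd χ deg d (fun p => ∀ j ∈ I, vl (χs j) p.1 ≤ s),
      (∃ w ∈ Sd χ deg (d + 1) (fun _ => True), ext ℂ db w = y) →
      ∃ w ∈ Sd χ deg (d + 1) (fun p => ∀ j ∈ I, vl (χs j) p.1 ≤ s + K), ext ℂ db w = y := by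
  obtain ⟨K0, hK0⟩ := level0 χ χs deg db I d
  refine ⟨K0 + c, by positivity, ?_⟩
  intro s y hy hex
  obtain ⟨w, hw, hwy⟩ := hex
  -- the exponent
  obtain ⟨n, hn1, hn2⟩ : ∃ n : ℤ, s ≤ n * c ∧ n * c ≤ s + c := by
    refine ⟨s / c + 1, ?_, ?_⟩
    · have := Int.lt_ediv_add_one_mul_self s hc
      linarith
    · have := Int.ediv_mul_le s hc.ne'
      linarith
  have h1 : ∀ m : ℤ, vl χ (u ^ m) = 0 := fun m => by rw [vl_zpow, hu, mul_zero]
  have h2 : ∀ m : ℤ, ∀ j ∈ I, vl (χs j) (u ^ m) = m * c := fun m j hj => by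
    rw [vl_zpow, hu' j hj]
  have hy0 : tr ℂ (u ^ (-n)) y ∈ Sd χ deg d (fun p => ∀ j ∈ I, vl (χs j) p.1 ≤ 0) := by
    refine Sd_tr (P := fun p => ∀ j ∈ I, vl (χs j) p.1 ≤ s) (h1 _).ge
      (fun p hp j hj => ?_) hy
    show vl (χs j) (u ^ (-n) * p.1) ≤ 0
    rw [vl_mul, h2 _ j hj]
    linarith [hp j hj]
  have hw0 : tr ℂ (u ^ (-n)) w ∈ Sd χ deg (d + 1) (fun _ => True) :=
    Sd_tr (P := fun _ => True) (h1 _).ge (fun _ _ => trivial) hw
  obtain ⟨w', hw', hwy2⟩ := hK0 _ hy0 ⟨_, hw0, by rw [ext_tr, hwy]⟩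
  refine ⟨tr ℂ (u ^ n) w', ?_, ?_⟩
  · refine Sd_tr (P := fun p => ∀ j ∈ I, vl (χs j) p.1 ≤ K0)
      (P' := fun p => ∀ j ∈ I, vl (χs j) p.1 ≤ s + (K0 + c)) (h1 _).ge (fun p hp j hj => ?_) hw'
    show vl (χs j) (u ^ n * p.1) ≤ _
    rw [vl_mul, h2 _ j hj]
    linarith [hp j hj]
  · rw [ext_tr, hwy2, tr_tr, ← zpow_add, add_neg_cancel, zpow_zero, tr_one]

end NOE

theorem I_NOE : StNOE := by
  intro Q _ _ ι χ χs B _ deg db _ I u c hc hu hu' d
  exact NOE.levels χ χs deg db I u c hc hu hu' d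

end Pool.Agent.Work.MP_e9e200_al.LC

end

section

set_option autoImplicit false

/-!
# Item V: relative cycles are relative boundaries
-/

namespace Pool.Agent.Work.MP_e9e200_al.LC

open Finsupp

namespace V

variable {ι : Type} {L : BC ι}

theorem map_supp {X Y : Type} (D : (X →₀ ℂ) →ₗ[ℂ] (Y →₀ ℂ)) (A : Set X) (B : Set Y)
    (h : ∀ x ∈ A, D (single x 1) ∈ Finsupp.supported ℂ ℂ B) :
    ∀ c ∈ Finsupp.supported ℂ ℂ A, D c ∈ Finsupp.supported ℂ ℂ B := by
  intro c hc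
  rw [Finsupp.supported_eq_span_single] at hc
  have hle : Submodule.span ℂ ((fun i => single i (1 : ℂ)) '' A) ≤
      (Finsupp.supported ℂ ℂ B).comap D := by
    rw [Submodule.span_le]
    rintro _ ⟨x, hx, rfl⟩
    exact h x hx
  exact hle hc

theorem S_mono {d : ℕ} {P Q : L.X → Prop} (h : ∀ x, P x → Q x) : L.S d P ≤ L.S d Q :=
  Finsupp.supported_mono fun x hx => ⟨hx.1, hx.2.1, h x hx.2.2⟩

theorem T_mono {P Q : L.X → Prop} (h : ∀ x, P x → Q x) : L.T P ≤ L.T Q :=
  Finsupp.supported_mono fun x hx => ⟨hx.1, h x hx.2⟩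

theorem S_T {d : ℕ} {P : L.X → Prop} : L.S d P ≤ L.T P :=
  Finsupp.supported_mono fun _ hx => ⟨hx.1, hx.2.2⟩

theorem mem_S {d : ℕ} {P Q : L.X → Prop} {c : L.X →₀ ℂ} (h1 : c ∈ L.S d P) (h2 : c ∈ L.T Q) :
    c ∈ L.S d Q := by
  intro x hx
  exact ⟨(h1 hx).1, (h1 hx).2.1, (h2 hx).2⟩

theorem mem_TT {P Q : L.X → Prop} {c : L.X →₀ ℂ} (h1 : c ∈ L.T P) (h2 : c ∈ L.T Q) :
    c ∈ L.T (fun x => P x ∧ Q x) := by
  intro x hx
  exact ⟨(h1 hx).1, (h1 hx).2, (h2 hx).2⟩

theorem lo_mono {I : Finset ι} {s t : ℤ} (h : s ≤ t) (x : L.X) (hx : L.lo I s x) : L.lo I t x :=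
  fun j hj => (hx j hj).trans h

theorem lo_anti {I I' : Finset ι} {s : ℤ} (h : I ⊆ I') (x : L.X) (hx : L.lo I' s x) :
    L.lo I s x := fun j hj => hx j (h hj)

theorem lu_mono {I J : Finset ι} {s t : ℤ} (h : s ≤ t) (x : L.X) (hx : L.lu I J s x) :
    L.lu I J t x := by
  obtain ⟨h1, j, hj, h2⟩ := hx
  exact ⟨lo_mono h x h1, j, hj, h2.trans h⟩

theorem D_T {K : ℤ} (hG : L.Good K) {P Q : L.X → Prop}
    (h : ∀ x, P x → ∀ y, (∀ j, |L.ht j y - L.ht j x| ≤ K) → Q y) :
    ∀ c ∈ L.T P, L.D c ∈ L.T Q := by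
  refine map_supp L.D {x | x ∈ L.R ∧ P x} {x | x ∈ L.R ∧ Q x} ?_
  intro x hx
  refine Finsupp.supported_mono (fun y hy => ?_) (hG.2.2 x hx.1)
  exact ⟨hy.1, h x hx.2 y hy.2.2⟩

theorem D_S {K : ℤ} (hG : L.Good K) {d : ℕ} {P : L.X → Prop} :
    ∀ c ∈ L.S (d + 1) P, L.D c ∈ L.S d (fun _ => True) := by
  refine map_supp L.D {x | x ∈ L.R ∧ L.deg x = d + 1 ∧ P x}
    {x | x ∈ L.R ∧ L.deg x = d ∧ True} ?_
  intro x hx
  refine Finsupp.supported_mono (fun y hy => ?_) (hG.2.2 x hx.1)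
  refine ⟨hy.1, ?_, trivial⟩
  have h1 := hy.2.1
  have h2 := hx.2.1
  omega

theorem D_zero {K : ℤ} (hG : L.Good K) {P : L.X → Prop} : ∀ c ∈ L.S 0 P, L.D c = 0 := by
  intro c hc
  have h := map_supp L.D {x | x ∈ L.R ∧ L.deg x = 0 ∧ P x} ∅ (by
    intro x hx
    refine Finsupp.supported_mono (fun y hy => ?_) (hG.2.2 x hx.1)
    have h1 := hy.2.1
    have h2 := hx.2.1
    omega) c hc
  rwa [Finsupp.supported_empty, Submodule.mem_bot] at h

theorem lo_shift {K : ℤ} {I : Finset ι} {s : ℤ} (x : L.X) (hx : L.lo I s x) (y : L.X)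
    (h : ∀ j, |L.ht j y - L.ht j x| ≤ K) : L.lo I (s + K) y := by
  intro j hj
  have h1 := (abs_le.1 (h j)).2
  have h2 := hx j hj
  omega

theorem lu_shift {K : ℤ} {I J : Finset ι} {s : ℤ} (x : L.X) (hx : L.lu I J s x) (y : L.X)
    (h : ∀ j, |L.ht j y - L.ht j x| ≤ K) : L.lu I J (s + K) y := by
  obtain ⟨h1, j, hj, h2⟩ := hx
  refine ⟨lo_shift x h1 y h, j, hj, ?_⟩
  have h1 := (abs_le.1 (h j)).2
  omega

variable [DecidableEq ι]

theorem lu_single {I : Finset ι} {j : ι} {s : ℤ} (x : L.X) :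
    L.lu I {j} s x ↔ L.lo (insert j I) s x := by
  constructor
  · rintro ⟨h1, j', hj', h2⟩ i hi
    rw [Finset.mem_singleton] at hj'
    subst hj'
    rcases Finset.mem_insert.1 hi with rfl | hi
    · exact h2
    · exact h1 i hi
  · intro h
    exact ⟨fun i hi => h i (Finset.mem_insert_of_mem hi), j, Finset.mem_singleton_self j,
      h j (Finset.mem_insert_self j I)⟩

theorem lu_of_lo {I J : Finset ι} {j : ι} {s : ℤ} (hj : j ∈ J) (x : L.X)
    (h : L.lo (insert j I) s x) : L.lu I J s x :=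
  ⟨fun i hi => h i (Finset.mem_insert_of_mem hi), j, hj, h j (Finset.mem_insert_self j I)⟩

theorem base {K : ℤ} (hG : L.Good K) {J : Finset ι} {N : ℕ}
    (hB : ∀ I ⊂ J, ∀ d ≤ N, L.Bd I d)
    (hP : ∀ I ⊂ J, ∀ d, d + I.card ≤ N + 1 → L.Push I d) (j : ι) (I : Finset ι) (d : ℕ)
    (hdis : Disjoint I {j}) (hJ : I ∪ {j} ⊂ J) (hd : d + I.card ≤ N) :
    ∃ K' : ℤ, 0 ≤ K' ∧ ∀ (s : ℤ), ∀ x ∈ L.S d (L.lo I s), L.D x ∈ L.T (L.lu I {j} s) →
      ∃ y ∈ L.S (d + 1) (L.lo I (s + K')), x - L.D y ∈ L.S d (L.lu I {j} (s + K')) := by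
  have hjI : j ∉ I := by
    intro h
    exact (Finset.disjoint_left.1 hdis h) (Finset.mem_singleton_self j)
  have hJ' : insert j I ⊂ J := by
    have : insert j I = I ∪ {j} := by
      ext i
      simp
    rwa [this]
  have hI : I ⊂ J := lt_of_le_of_lt (Finset.subset_insert j I) hJ'
  have hcard : (insert j I).card = I.card + 1 := Finset.card_insert_of_notMem hjI
  -- the chain b
  have hb : ∃ K1 : ℤ, 0 ≤ K1 ∧ ∀ (s : ℤ), ∀ x ∈ L.S d (L.lo I s),
      L.D x ∈ L.T (L.lu I {j} s) → ∃ b ∈ L.S d (L.lo (insert j I) (s + K1)), L.D b = L.D x := by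
    rcases Nat.eq_zero_or_pos d with h0 | h0
    · subst h0
      refine ⟨0, le_rfl, fun s x hx _ => ⟨0, Submodule.zero_mem _, ?_⟩⟩
      rw [map_zero, D_zero hG x hx]
    · obtain ⟨d1, rfl⟩ : ∃ d1, d = d1 + 1 := ⟨d - 1, by omega⟩
      obtain ⟨K1, hK1, h1⟩ := hB (insert j I) hJ' d1 (by omega)
      refine ⟨K1, hK1, fun s x hx hDx => ?_⟩
      refine h1 s (L.D x) ?_ ⟨x, S_mono (fun _ _ => trivial) hx, rfl⟩
      exact mem_S (D_S hG x hx) (T_mono (fun y hy => (lu_single y).1 hy) hDx)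
  obtain ⟨K1, hK1, h1⟩ := hb
  obtain ⟨K2, hK2, h2⟩ := hB I hI d (by omega)
  refine ⟨K1 + K2, by omega, fun s x hx hDx => ?_⟩
  obtain ⟨b, hbS, hbD⟩ := h1 s x hx hDx
  have hcyc : L.D (x - b) = 0 := by rw [map_sub, hbD, sub_self]
  obtain ⟨b', hb'S, hb'D, w, hw, hwD⟩ := hP (insert j I) hJ' d (by omega) s (x - b)
    (Submodule.sub_mem _ (S_mono (fun _ _ => trivial) hx) (S_mono (fun _ _ => trivial) hbS)) hcyc
  obtain ⟨y, hy, hyD⟩ := h2 (s + K1) (x - b - b') (by
    refine Submodule.sub_mem _ (Submodule.sub_mem _ ?_ ?_) ?_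
    · exact S_mono (fun z hz => lo_mono (by omega) z hz) hx
    · exact S_mono (fun z hz => lo_anti (Finset.subset_insert j I) z hz) hbS
    · exact S_mono (fun z hz => lo_mono (by omega) z (lo_anti (Finset.subset_insert j I) z hz)) hb'S)
    ⟨w, hw, hwD⟩
  refine ⟨y, ?_, ?_⟩
  · rwa [← add_assoc]
  · rw [hyD]
    have e : x - (x - b - b') = b + b' := by abel
    rw [e]
    refine Submodule.add_mem _ ?_ ?_
    · exact S_mono (fun z hz => (lu_single z).2 (lo_mono (by omega) z hz)) hbS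
    · exact S_mono (fun z hz => (lu_single z).2 (lo_mono (by omega) z hz)) hb'S

theorem main {K : ℤ} (hG : L.Good K) {J : Finset ι} {N : ℕ}
    (hB : ∀ I ⊂ J, ∀ d ≤ N, L.Bd I d)
    (hP : ∀ I ⊂ J, ∀ d, d + I.card ≤ N + 1 → L.Push I d) (S : Finset ι) :
    ∀ (I : Finset ι) (d : ℕ), S.Nonempty → Disjoint I S → I ∪ S ⊂ J → d + I.card ≤ N →
    ∃ K' : ℤ, 0 ≤ K' ∧ ∀ (s : ℤ), ∀ x ∈ L.S d (L.lo I s), L.D x ∈ L.T (L.lu I S s) →
      ∃ y ∈ L.S (d + 1) (L.lo I (s + K')), x - L.D y ∈ L.S d (L.lu I S (s + K')) := by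
  classical
  induction S using Finset.induction_on with
  | empty =>
    intro I d h
    exact absurd h Finset.not_nonempty_empty
  | insert l S' hl ih =>
    intro I d _ hdis hJ hd
    rcases S'.eq_empty_or_nonempty with hS' | hS'
    · subst hS'
      exact base hG hB hP l I d hdis hJ hd
    have hIS : Disjoint I S' := Finset.disjoint_of_subset_right (Finset.subset_insert l S') hdis
    have hlI : l ∉ I := fun h => (Finset.disjoint_left.1 hdis h) (Finset.mem_insert_self l S')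
    have hJ1 : I ∪ S' ⊂ J := lt_of_le_of_lt
      (Finset.union_subset_union_right (Finset.subset_insert l S')) hJ
    have hJ2 : insert l I ∪ S' ⊂ J := by
      have : insert l I ∪ S' = I ∪ insert l S' := by
        rw [Finset.insert_union, Finset.union_insert]
      rwa [this]
    have hdis2 : Disjoint (insert l I) S' := by
      rw [Finset.disjoint_insert_left]
      exact ⟨hl, hIS⟩
    obtain ⟨K2, hK2, h2⟩ := ih I d hS' hIS hJ1 hd
    rcases Nat.eq_zero_or_pos d with h0 | h0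
    · subst h0
      refine ⟨K2, hK2, fun s x hx _ => ?_⟩
      obtain ⟨y, hy, hyx⟩ := h2 s x hx (by
        rw [D_zero hG x hx]
        exact Submodule.zero_mem _)
      refine ⟨y, hy, S_mono (fun z hz => ?_) hyx⟩
      obtain ⟨a, j, hj, b⟩ := hz
      exact ⟨a, j, Finset.mem_insert_of_mem hj, b⟩
    · obtain ⟨d1, rfl⟩ : ∃ d1, d = d1 + 1 := ⟨d - 1, by omega⟩
      obtain ⟨K1, hK1, h1⟩ := ih (insert l I) d1 hS' hdis2 hJ2 (by
        rw [Finset.card_insert_of_notMem hlI]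
        omega)
      have hK0 : 0 ≤ K := hG.1
      refine ⟨K + K1 + K2, by omega, fun s x hx hDx => ?_⟩
      have hDS := D_S hG x hx
      -- the two parts of the boundary
      obtain ⟨c', hc'⟩ : ∃ c', c' = (L.D x).filter (fun y => L.lu I S' s y) := ⟨_, rfl⟩
      obtain ⟨cl, hcl⟩ : ∃ cl, cl = (L.D x).filter (fun y => ¬ L.lu I S' s y) := ⟨_, rfl⟩
      have hsum : c' + cl = L.D x := by
        rw [hc', hcl]
        exact Finsupp.filter_add_filter_not _ _
      have hc'S : c' ∈ L.S d1 (L.lu I S' s) := by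
        intro y hy
        rw [hc', Finset.mem_coe, Finsupp.support_filter, Finset.mem_filter] at hy
        exact ⟨(hDS hy.1).1, (hDS hy.1).2.1, hy.2⟩
      have hclS : cl ∈ L.S d1 (L.lo (insert l I) s) := by
        intro y hy
        rw [hcl, Finset.mem_coe, Finsupp.support_filter, Finset.mem_filter] at hy
        refine ⟨(hDS hy.1).1, (hDS hy.1).2.1, ?_⟩
        obtain ⟨a, j, hj, b⟩ := (hDx hy.1).2
        intro i hi
        rcases Finset.mem_insert.1 hi with rfl | hi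
        · rcases Finset.mem_insert.1 hj with rfl | hj
          · exact b
          · exact absurd ⟨a, j, hj, b⟩ hy.2
        · exact a i hi
      have hDc : L.D cl = - L.D c' := by
        have h3 : L.D (c' + cl) = 0 := by rw [hsum]; exact hG.2.1 x
        rw [map_add] at h3
        exact (neg_eq_of_add_eq_zero_right h3).symm
      have hDcl : L.D cl ∈ L.T (L.lu (insert l I) S' (s + K)) := by
        have a1 : L.D cl ∈ L.T (L.lo (insert l I) (s + K)) :=
          D_T hG (fun z hz y h => lo_shift z hz y h) cl (S_T hclS)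
        have a2 : L.D cl ∈ L.T (L.lu I S' (s + K)) := by
          rw [hDc]
          exact Submodule.neg_mem _ (D_T hG (fun z hz y h => lu_shift z hz y h) c' (S_T hc'S))
        exact T_mono (fun z hz => ⟨hz.1, hz.2.2⟩) (mem_TT a1 a2)
      obtain ⟨yl, hyl, hylD⟩ := h1 (s + K) cl
        (S_mono (fun z hz => lo_mono (by omega) z hz) hclS) hDcl
      obtain ⟨y, hy, hyD⟩ := h2 (s + K + K1) (x - yl) (by
        refine Submodule.sub_mem _ ?_ ?_
        · exact S_mono (fun z hz => lo_mono (by omega) z hz) hx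
        · exact S_mono (fun z hz => lo_anti (Finset.subset_insert l I) z hz) hyl) (by
        have e : L.D (x - yl) = c' + (cl - L.D yl) := by
          rw [map_sub, ← hsum]
          abel
        rw [e]
        refine Submodule.add_mem _ ?_ ?_
        · exact T_mono (fun z hz => lu_mono (by omega) z hz) (S_T hc'S)
        · refine T_mono (fun z hz => ?_) (S_T hylD)
          exact ⟨lo_anti (Finset.subset_insert l I) z hz.1, hz.2⟩)
      refine ⟨y, ?_, ?_⟩
      · have e : s + (K + K1 + K2) = s + K + K1 + K2 := by ring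
        rwa [e]
      · have e : s + (K + K1 + K2) = s + K + K1 + K2 := by ring
        have e2 : x - L.D y = yl + (x - yl - L.D y) := by abel
        rw [e, e2]
        refine Submodule.add_mem _ ?_ ?_
        · refine S_mono (fun z hz => ?_) hyl
          exact lu_mono (by omega) z (lu_of_lo (Finset.mem_insert_self l S') z hz)
        · refine S_mono (fun z hz => ?_) hyD
          obtain ⟨a, j, hj, b⟩ := hz
          exact ⟨a, j, Finset.mem_insert_of_mem hj, b⟩

end V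

theorem I_V : StV := by
  intro ι _ L K hG J N hB hP S I d hS hdis hJ hd
  exact V.main hG hB hP S I d hS hdis hJ hd

end Pool.Agent.Work.MP_e9e200_al.LC

end

section

/-! Item WV: the functional `W` vanishes away from the walls. -/

set_option autoImplicit false

namespace Pool.Agent.Work.MP_e9e200_al.LC

open Finsupp

namespace WV

variable {ι : Type}

theorem lin_zero {X : Type} (F : (X →₀ ℂ) →ₗ[ℂ] ℂ) (P : Set X)
    (h : ∀ y ∈ P, F (single y 1) = 0) (z : X →₀ ℂ) (hz : z ∈ Finsupp.supported ℂ ℂ P) :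
    F z = 0 := by
  have e1 : z = z.sum (fun y c => c • single y (1 : ℂ)) := by
    conv_lhs => rw [← Finsupp.sum_single z]
    apply Finsupp.sum_congr
    intro y _
    rw [Finsupp.smul_single, smul_eq_mul, mul_one]
  rw [e1, map_finsuppSum]
  apply Finset.sum_eq_zero
  intro y hy
  have hyP : y ∈ P := (Finsupp.mem_supported ℂ z).mp hz hy
  show F (z y • single y (1 : ℂ)) = 0
  rw [map_smul, h y hyP, smul_zero]

theorem tau_single (L : BC ι) (r : ℤ) (j : ι) (x : L.X) :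
    L.tau r j (single x 1) = if r ≤ L.ht j x then single x (1 : ℂ) else 0 := by
  unfold BC.tau
  rw [Finsupp.linearCombination_single, one_smul]

theorem tau_mem (L : BC ι) (r : ℤ) (j : ι) (P : Set L.X) (z : L.X →₀ ℂ)
    (hz : z ∈ Finsupp.supported ℂ ℂ P) : L.tau r j z ∈ Finsupp.supported ℂ ℂ P := by
  unfold BC.tau
  rw [Finsupp.linearCombination_apply]
  refine Submodule.sum_mem _ fun y hy => ?_
  refine Submodule.smul_mem _ _ ?_
  have hyP : y ∈ P := (Finsupp.mem_supported ℂ z).mp hz hy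
  by_cases h : r ≤ L.ht j y
  · rw [if_pos h]
    exact Finsupp.single_mem_supported ℂ (1 : ℂ) hyP
  · rw [if_neg h]
    exact Submodule.zero_mem _

theorem tau_zero (L : BC ι) (r : ℤ) (j : ι) (P : Set L.X) (h : ∀ y ∈ P, L.ht j y < r)
    (z : L.X →₀ ℂ) (hz : z ∈ Finsupp.supported ℂ ℂ P) : L.tau r j z = 0 := by
  unfold BC.tau
  rw [Finsupp.linearCombination_apply]
  refine Finset.sum_eq_zero fun y hy => ?_
  have hyP : y ∈ P := (Finsupp.mem_supported ℂ z).mp hz hy
  show z y • (if r ≤ L.ht j y then single y (1 : ℂ) else 0) = 0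
  rw [if_neg (not_le.mpr (h y hyP)), smul_zero]

theorem tau_self (L : BC ι) (r : ℤ) (j : ι) (P : Set L.X) (h : ∀ y ∈ P, r ≤ L.ht j y)
    (z : L.X →₀ ℂ) (hz : z ∈ Finsupp.supported ℂ ℂ P) : L.tau r j z = z := by
  unfold BC.tau
  rw [Finsupp.linearCombination_apply]
  conv_rhs => rw [← Finsupp.sum_single z]
  apply Finsupp.sum_congr
  intro y hy
  have hyP : y ∈ P := (Finsupp.mem_supported ℂ z).mp hz hy
  rw [if_pos (h y hyP), Finsupp.smul_single, smul_eq_mul, mul_one]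

/-- the cells which can occur in the boundary -/
def Nb (L : BC ι) (K : ℤ) (x : L.X) : Set L.X :=
  {y | y ∈ L.R ∧ L.deg y + 1 = L.deg x ∧ ∀ j, |L.ht j y - L.ht j x| ≤ K}

theorem W_step (L : BC ι) (K : ℤ) (hG : L.Good K) (r : ℤ) (f : (L.X →₀ ℂ) →ₗ[ℂ] ℂ) (j0 : ι)
    (T : List ι) (x : L.X) (hx : x ∈ L.R)
    (h : ∀ y ∈ Nb L K x, L.W r f T (single y 1) = 0) : L.W r f (j0 :: T) (single x 1) = 0 := by
  show L.W r f T (L.tau r j0 (L.D (single x 1))) = 0
  exact lin_zero _ (Nb L K x) h _ (tau_mem L r j0 _ _ (hG.2.2 x hx))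

theorem partA (L : BC ι) (K : ℤ) (hG : L.Good K) (i : ℕ) (f : (L.X →₀ ℂ) →ₗ[ℂ] ℂ) (r : ℤ) :
    ∀ (T : List ι), ∀ x ∈ L.R, L.deg x = i + T.length →
      (∃ j ∈ T, L.ht j x < r - T.length * K) → L.W r f T (single x 1) = 0 := by
  have hK : 0 ≤ K := hG.1
  intro T
  induction T with
  | nil =>
    rintro x - - ⟨j, hj, -⟩
    exact absurd hj (by simp)
  | cons j0 T1 ih =>
    rintro x hx hd ⟨j, hj, hlt⟩
    have hlen : ((j0 :: T1).length : ℤ) = (T1.length : ℤ) + 1 := by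
      rw [List.length_cons]
      push_cast
      ring
    have hlen' : (j0 :: T1).length = T1.length + 1 := List.length_cons
    rw [hlen] at hlt
    have hTK : 0 ≤ (T1.length : ℤ) * K := mul_nonneg (Int.natCast_nonneg _) hK
    rcases List.mem_cons.mp hj with h | h
    · subst h
      show L.W r f T1 (L.tau r j (L.D (single x 1))) = 0
      rw [tau_zero L r j (Nb L K x) _ _ (hG.2.2 x hx), map_zero]
      rintro y ⟨-, -, hy⟩
      have h1 := (abs_le.mp (hy j)).2
      nlinarith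
    · apply W_step L K hG r f j0 T1 x hx
      rintro y ⟨hyR, hyd, hy⟩
      refine ih y hyR (by omega) ⟨j, h, ?_⟩
      have h1 := (abs_le.mp (hy j)).2
      nlinarith

theorem partA' (L : BC ι) (K : ℤ) (hG : L.Good K) (i : ℕ) (f : (L.X →₀ ℂ) →ₗ[ℂ] ℂ) (r : ℤ)
    (hf : ∀ w ∈ L.S (i + 1) (fun _ => True), f (L.D w) = 0) :
    ∀ (T : List ι), ∀ x ∈ L.R, L.deg x = i + T.length →
      (∃ j ∈ T, r + T.length * K ≤ L.ht j x) → L.W r f T (single x 1) = 0 := by
  have hK : 0 ≤ K := hG.1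
  intro T
  induction T with
  | nil =>
    rintro x - - ⟨j, hj, -⟩
    exact absurd hj (by simp)
  | cons j0 T1 ih =>
    rintro x hx hd ⟨j, hj, hle⟩
    have hlen : ((j0 :: T1).length : ℤ) = (T1.length : ℤ) + 1 := by
      rw [List.length_cons]
      push_cast
      ring
    have hlen' : (j0 :: T1).length = T1.length + 1 := List.length_cons
    rw [hlen] at hle
    have hTK : 0 ≤ (T1.length : ℤ) * K := mul_nonneg (Int.natCast_nonneg _) hK
    rcases List.mem_cons.mp hj with h | h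
    · subst h
      show L.W r f T1 (L.tau r j (L.D (single x 1))) = 0
      rw [tau_self L r j (Nb L K x) _ _ (hG.2.2 x hx)]
      · cases T1 with
        | nil =>
          show f (L.D (single x 1)) = 0
          apply hf
          refine Finsupp.single_mem_supported ℂ (1 : ℂ) ⟨hx, ?_, trivial⟩
          rw [hd]
          simp
        | cons j1 T2 =>
          show L.W r f T2 (L.tau r j1 (L.D (L.D (single x 1)))) = 0
          rw [hG.2.1, map_zero, map_zero]
      · rintro y ⟨-, -, hy⟩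
        have h1 := (abs_le.mp (hy j)).1
        nlinarith
    · apply W_step L K hG r f j0 T1 x hx
      rintro y ⟨hyR, hyd, hy⟩
      refine ih y hyR (by omega) ⟨j, h, ?_⟩
      have h1 := (abs_le.mp (hy j)).1
      nlinarith

theorem partB (L : BC ι) (K : ℤ) (hG : L.Good K) (J : Finset ι) (i : ℕ)
    (f : (L.X →₀ ℂ) →ₗ[ℂ] ℂ) (s0 r : ℤ) (hf : ∀ y ∈ L.S i (L.lo J s0), f y = 0) :
    ∀ (T : List ι) (t : ℤ), t + T.length * K ≤ s0 → ∀ x ∈ L.R, L.deg x = i + T.length →
      L.lo J t x → L.W r f T (single x 1) = 0 := by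
  have hK : 0 ≤ K := hG.1
  intro T
  induction T with
  | nil =>
    intro t ht x hx hd hlo
    show f (single x 1) = 0
    apply hf
    refine Finsupp.single_mem_supported ℂ (1 : ℂ) ⟨hx, ?_, ?_⟩
    · rw [hd]
      simp
    · intro j hj
      have h1 := hlo j hj
      have h2 : (([] : List ι).length : ℤ) = 0 := rfl
      rw [h2, zero_mul, add_zero] at ht
      exact h1.trans ht
  | cons j0 T1 ih =>
    intro t ht x hx hd hlo
    have hlen : ((j0 :: T1).length : ℤ) = (T1.length : ℤ) + 1 := by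
      rw [List.length_cons]
      push_cast
      ring
    have hlen' : (j0 :: T1).length = T1.length + 1 := List.length_cons
    rw [hlen] at ht
    apply W_step L K hG r f j0 T1 x hx
    rintro y ⟨hyR, hyd, hy⟩
    refine ih (t + K) (by linarith) y hyR (by omega) ?_
    intro j hj
    have h1 := (abs_le.mp (hy j)).2
    have h2 := hlo j hj
    linarith

end WV

open WV in
theorem I_WV : StWV := by
  intro ι _ L K hG J i f s0 r hf1 hf2 T hT x hx hd
  have hK : 0 ≤ K := hG.1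
  have hTK : 0 ≤ (T.length : ℤ) * K := mul_nonneg (Int.natCast_nonneg _) hK
  refine ⟨partA L K hG i f r T x hx hd, partA' L K hG i f r hf1 T x hx hd, ?_⟩
  intro C hC hs hl
  by_cases h : ∃ j ∈ T, r + T.length * K ≤ L.ht j x
  · exact partA' L K hG i f r hf1 T x hx hd h
  · refine partB L K hG J i f s0 r hf2 T (r + C + T.length * K) (by linarith) x hx hd ?_
    intro j hj
    by_cases hjT : j ∈ T
    · have h1 : L.ht j x < r + T.length * K := by
        by_contra hcon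
        exact h ⟨j, hjT, not_lt.mp hcon⟩
      linarith
    · have h1 := hl j hj hjT
      linarith

end Pool.Agent.Work.MP_e9e200_al.LC

end
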