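import Pool.Agent.Work.MP_e9e200_al.Bd.B12
import Pool.Agent.Work.MP_e9e200_al.Bd.B18
import Pool.Agent.Work.MP_e9e200_al.Bd.B13
import Pool.Agent.Work.MP_e9e200_al.Bd.B05
import Pool.Agent.Work.MP_e9e200_al.Bd.B04
import Pool.Agent.Work.MP_e9e200_al.Bd.B10
import Pool.Agent.Work.MP_e9e200_al.Bd.B09
import Pool.Agent.Work.MP_e9e200_al.Bd.B22
import Pool.Agent.Work.MP_e9e200_al.Bd.B17
import Pool.Agent.Work.MP_e9e200_al.Bd.B16
import Pool.Agent.Work.MP_e9e200_al.Bd.B03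

/-! Bundle of small proof modules (one section per former module). -/

section

/-!
# Project HT: statements of the items

Each `def StXXX : Prop` is to be proved as `theorem I_XXX : StXXX` in `HT/P_XXX.lean`.
-/

set_option autoImplicit false

namespace Pool.Agent.Work.MP_e9e200_al.HT

open Finsupp Pool.Agent.Work.MP_e9e200_al.LC

/-! ### From the homotopical to the homological invariant -/

/-- E0: connected subcomplexes have the homology of a point in degree zero -/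
def StE0 : Prop := ∀ (G : Type) [Group G] (X : Cel G), X.Good → ∀ (P0 : G × X.B 0 → Prop)
  (P1 : G × X.B 1 → Prop), (∀ v w, P0 v → P0 w → ∃ p, X.IsPath P1 v p w) →
  ∀ x ∈ Finsupp.supported ℤ ℤ {c | P0 c}, LC.aug ℤ (fun _ => (1 : ℤ)) x = 0 →
    ∃ y ∈ Finsupp.supported ℤ ℤ {c | P1 c}, ext ℤ (X.d 0) y = x

/-- E1: simply connected subcomplexes have no homology in degree one -/
def StE1 : Prop := ∀ (G : Type) [Group G] (X : Cel G), X.Good → ∀ (P0 : G × X.B 0 → Prop)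
  (P1 : G × X.B 1 → Prop) (P2 : G × X.B 2 → Prop),
  (∀ e : (G × X.B 1) × Bool, P1 e.1 → P0 (X.st e)) → (∃ v, P0 v) →
  (∀ v w, P0 v → P0 w → ∃ p, X.IsPath P1 v p w) →
  (∀ v p, P0 v → X.IsPath P1 v p v → X.Hty P1 P2 v p []) →
  ∀ x ∈ Finsupp.supported ℤ ℤ {c | P1 c}, ext ℤ (X.d 0) x = 0 →
    ∃ y ∈ Finsupp.supported ℤ ℤ {c | P2 c}, ext ℤ (X.d 1) y = x

/-- at every level `t` the complex is exact in degrees `< m` up to the shift `C` of the level -/
def EssZ {G : Type} [Group G] (X : Cel G) (χ : Additive G →+ ℝ) (ht : ∀ i, X.B i → ℝ) (m : ℕ)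
    (C : ℝ) : Prop := 0 ≤ C ∧ ∀ t : ℝ,
  (1 ≤ m → ∀ x ∈ Finsupp.supported ℤ ℤ {c | X.Ge χ ht t 0 c}, LC.aug ℤ (fun _ => (1 : ℤ)) x = 0 →
    ∃ y ∈ Finsupp.supported ℤ ℤ {c | X.Ge χ ht (t - C) 1 c}, ext ℤ (X.d 0) y = x) ∧
  ∀ i, i + 2 ≤ m → ∀ x ∈ Finsupp.supported ℤ ℤ {c | X.Ge χ ht t (i + 1) c},
    ext ℤ (X.d i) x = 0 → ∃ y ∈ Finsupp.supported ℤ ℤ {c | X.Ge χ ht (t - C) (i + 2) c},
      ext ℤ (X.d (i + 1)) y = x

/-- EZ: from the level zero to all levels (uses E0) -/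
def StEZ : Prop := ∀ (G : Type) [Group G] (X : Cel G) (χ : Additive G →+ ℝ)
  (ht : ∀ i, X.B i → ℝ), χ ≠ 0 → X.Good → ∀ m, X.Conn m (X.Ge χ ht 0) →
  ∃ C : ℝ, EssZ X χ ht m C

/-- EC: the based complex over the complex numbers -/
def StEC : Prop := ∀ (G : Type) [Group G] (X : Cel G) (χ : Additive G →+ ℝ)
  (ht : ∀ i, X.B i → ℝ), X.Good → Nonempty (X.B 0) → ∀ m, (∀ i ≤ m, Finite (X.B i)) →
  ∀ C : ℝ, EssZ X χ ht m C → ∃ (B : Type) (_ : Finite B) (deg : B → ℕ)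
    (db : B → (G × B →₀ ℂ)) (eb : B → ℂ) (C' : ℝ), Cpx B deg db eb ∧ Ess χ C' m B deg db eb

/-- PRS: from an essentially exact complex to a partial resolution (uses GN, AD) -/
def StPRS : Prop := ∀ (G : Type) [Group G] (χ : Additive G →+ ℝ), χ ≠ 0 → ∀ (C : ℝ) (m : ℕ)
  (B : Type) [Finite B] (deg : B → ℕ) (db : B → (G × B →₀ ℂ)) (eb : B → ℂ),
  Cpx B deg db eb → Ess χ C m B deg db eb → ∃ (B' : Type) (_ : Finite B') (deg' : B' → ℕ)
    (db' : B' → (G × B' →₀ ℂ)) (eb' : B' → ℂ), PRes ℂ (hs χ 0) m B' deg' db' eb'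

/-- LOW1: the lower inclusion, for partial resolutions over the complex numbers (uses OPEN, LIN,
DENS, DISC, TRU and the old items Car, Sig1) -/
def StLOW1 : Prop := ∀ (m : ℕ) (G : Type) [Group G] [Group.FG G], 1 ≤ m → Metab G →
  ∀ v ∈ ConvLE G m (SigC G 1), ¬ ∃ (B : Type) (_ : Finite B) (deg : B → ℕ)
    (db : B → (G × B →₀ ℂ)) (eb : B → ℂ), PRes ℂ (hs v 0) m B deg db eb

/-- SUB: the lower inclusion for the homotopical invariants (uses EZ, EC, PRS, LOW1) -/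
def StSUB : Prop := ∀ (m : ℕ) (G : Type) [Group G] [Group.FG G], 1 ≤ m → Metab G →
  ConvLE G m (SigC G 1) ⊆ HSigC G m

/-! ### Construction of complexes -/

/-- CON: type `FP_1` over the half space monoid implies that the half space is connected -/
def StCON : Prop := ∀ (G : Type) [Group G] (χ : Additive G →+ ℝ),
  IsFP (MonoidAlgebra ℤ (Gmon χ)) (Triv (Gmon χ)) 1 →
  ∃ X : Set G, X.Finite ∧ (∀ x ∈ X, x⁻¹ ∈ X) ∧ 1 ∈ X ∧ HS.Con χ X

/-- a two-dimensional complex with connected and simply connected half space, all heights of the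
cells `(1, b)` are zero -/
structure Sk2 {G : Type} [Group G] (χ : Additive G →+ ℝ) (X : Cel G) : Prop where
  good : X.Good
  emp : ∀ i, IsEmpty (X.B (i + 3))
  fin0 : Finite (X.B 0)
  fin1 : Finite (X.B 1)
  hgt : X.Hgt χ (fun _ _ => 0)
  conn : X.Conn 2 (X.Ge χ (fun _ _ => 0) 0)

/-- SK1: the Cayley graph with all closed paths of the half space as 2-cells (uses E1) -/
def StSK1 : Prop := ∀ (G : Type) [Group G] (χ : Additive G →+ ℝ) (X : Set G), X.Finite →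
  (∀ x ∈ X, x⁻¹ ∈ X) → 1 ∈ X → HS.Con χ X → ∃ Y : Cel G, Sk2 χ Y

/-- SK2: the triangular Cayley complex (uses E1) -/
def StSK2 : Prop := ∀ (G : Type) [Group G] (χ : Additive G →+ ℝ) (X : Set G), X.Finite →
  (∀ x ∈ X, x⁻¹ ∈ X) → 1 ∈ X → HS.Con χ X → HS.Sic χ X → ∃ Y : Cel G, Sk2 χ Y ∧ Finite (Y.B 2)

/-- the chains `e c` generate the kernel of the boundary `d` over `S` -/
def GenC {G : Type} [Group G] (S : Set G) {A B C : Type} (d : B → (G × A →₀ ℤ))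
    (e : C → (G × B →₀ ℤ)) : Prop :=
  (∀ c, e c ∈ Finsupp.supported ℤ ℤ {p : G × B | p.1 ∈ S}) ∧ (∀ c, ext ℤ d (e c) = 0) ∧
  ∀ x ∈ Finsupp.supported ℤ ℤ {p : G × B | p.1 ∈ S}, ext ℤ d x = 0 →
    ∃ y ∈ Finsupp.supported ℤ ℤ {p : G × C | p.1 ∈ S}, ext ℤ e y = x

/-- SEQ: continuation of a complex, with finitely many cells as long as possible -/
def StSEQ : Prop := ∀ (G : Type) [Group G] (S : Set G) (A B : Type) (d : B → (G × A →₀ ℤ)),
  1 ∈ S → ∃ (E : ℕ → Type) (e : E 0 → (G × B →₀ ℤ)) (f : ∀ i, E (i + 1) → (G × E i →₀ ℤ)),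
  GenC S d e ∧ GenC S e (f 0) ∧ (∀ i, GenC S (f i) (f (i + 1))) ∧
  ((∃ (N : Type) (_ : Finite N) (z : N → (G × B →₀ ℤ)), GenC S d z) → Finite (E 0)) ∧
  ((∃ (N : Type) (_ : Finite N) (z : N → (G × E 0 →₀ ℤ)), GenC S e z) → Finite (E 1)) ∧
  ∀ i, (∃ (N : Type) (_ : Finite N) (z : N → (G × E (i + 1) →₀ ℤ)), GenC S (f i) z) →
    Finite (E (i + 2))

/-- GNZ: the cycles of a partial resolution are finitely generated (uses RES) -/
def StGNZ : Prop := ∀ (G : Type) [Group G] (S : Submonoid G) (m : ℕ),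
  IsFP (MonoidAlgebra ℤ S) (Triv S) m → ∀ (B : ℕ → Type) (d : ∀ i, B (i + 1) → (G × B i →₀ ℤ)),
  Nonempty (B 0) → (∀ b, d 0 b ∈ Finsupp.supported ℤ ℤ {p : G × B 0 | p.1 ∈ S}) →
  (∀ b, LC.aug ℤ (fun _ => (1 : ℤ)) (d 0 b) = 0) →
  (∀ x ∈ Finsupp.supported ℤ ℤ {p : G × B 0 | p.1 ∈ S}, LC.aug ℤ (fun _ => (1 : ℤ)) x = 0 →
    ∃ y ∈ Finsupp.supported ℤ ℤ {p : G × B 1 | p.1 ∈ S}, ext ℤ (d 0) y = x) →
  ∀ n, n + 1 < m → (∀ i ≤ n + 1, Finite (B i)) →
  (∀ i < n, GenC (S : Set G) (d i) (d (i + 1))) →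
  ∃ (N : Type) (_ : Finite N) (z : N → (G × B (n + 1) →₀ ℤ)), GenC (S : Set G) (d n) z

/-- TRW: from the half space to the whole complex: homology -/
def StTRW : Prop := ∀ (G : Type) [Group G] (χ : Additive G →+ ℝ), χ ≠ 0 → ∀ (A B C : Type)
  (d : B → (G × A →₀ ℤ)) (e : C → (G × B →₀ ℤ)), GenC (hs χ 0) d e →
  ∀ x : G × B →₀ ℤ, ext ℤ d x = 0 → ∃ y, ext ℤ e y = x

/-- MVP: from the half space to the whole complex: paths -/
def StMVP : Prop := ∀ (G : Type) [Group G] (χ : Additive G →+ ℝ), χ ≠ 0 → ∀ X : Cel G,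
  X.Conn 2 (X.Ge χ (fun _ _ => 0) 0) →
  (∃ v : G × X.B 0, v = v) ∧ (∀ v w, ∃ p, X.IsPath (fun _ => True) v p w) ∧
  ∀ v p, X.IsPath (fun _ => True) v p v → X.Hty (fun _ => True) (fun _ => True) v p []

/-- ASM: from the 2-skeleton and type `FP_m` to the homotopical invariant (uses E0, SEQ, GNZ, TRW,
MVP) -/
def StASM : Prop := ∀ (G : Type) [Group G] (χ : Additive G →+ ℝ), χ ≠ 0 → ∀ m, 1 ≤ m →
  ∀ X : Cel G, Sk2 χ X → (2 ≤ m → Finite (X.B 2)) →
  IsFP (MonoidAlgebra ℤ (Gmon χ)) (Triv (Gmon χ)) m → χ ∈ HSig G m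

/-- SUP: the upper inclusion for the homotopical invariants (uses CON, SK1, SK2, ASM and the items
U, G3, Sig1 and S2 of the other projects) -/
def StSUP : Prop := ∀ (m : ℕ) (G : Type) [Group G] [Group.FG G], 1 ≤ m → Metab G →
  (∀ γ : Fin m → (Additive G →+ ℝ), (∀ j, γ j ∈ SigC G 1) → ∀ a : Fin m → ℝ, (∀ j, 0 ≤ a j) →
    (∃ j, a j ≠ 0) → ∑ j, a j • γ j ≠ 0) → HSigC G m ⊆ ConvLE G m (SigC G 1)

end Pool.Agent.Work.MP_e9e200_al.HT

end

section

/-!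
# Project LC: assembly of all items
-/

set_option autoImplicit false

namespace Pool.Agent.Work.MP_e9e200_al.LC

theorem A_OM : StOM := I_OM I_V I_WV
theorem A_CORE : StCORE := I_CORE A_OM I_TWI
theorem A_TWD : StTWD := I_TWD I_TWA
theorem A_PSI : StPSI := I_PSI I_FQ I_EXT
theorem A_DISC : StDISC := I_DISC A_CORE I_HOP I_BG I_NOE A_TWD I_SIG A_PSI
theorem A_GN : StGN := I_GN I_BE I_AL I_HT
theorem A_OPEN : StOPEN := I_OPEN I_PU I_ES A_GN I_AD
theorem A_VAL : StVAL := I_VAL I_KA I_OZ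
theorem A_RD : StRD := I_RD I_NB A_VAL
theorem A_DENS : StDENS := I_DENS I_MOD I_CRA I_CRB A_RD
theorem A_LOW : StLOW :=
  I_LOW I_RES I_CHG A_OPEN I_LIN A_DENS A_DISC I_Mono I_Car (I_Sig1 I_Build)

end Pool.Agent.Work.MP_e9e200_al.LC

end

section

/-!
# Project O3L: the skeleton of dimension two

Realization of the edges and the 2-cells of a combinatorial complex `Y : Cel G` in the explicit
model `Sp ψ N`.
-/

set_option autoImplicit false

namespace Pool.Agent.Work.MP_e9e200_al.O3L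

open Set Metric Topology Pool.Agent.Work.MP_e9e200_al.O3A

noncomputable section

open scoped Classical

variable {G : Type} [Group G] (Y : HT.Cel G)

/-- the vertex `c` -/
def vx (c : G × Y.B 0) : Pt G Y.B := ctr 0 c

/-- the oriented edge `e`, parametrized by `[-1,1]` and constant outside -/
def ed (e : (G × Y.B 1) × Bool) (s : ℝ) : Pt G Y.B :=
  if h : (fun _ : Fin 1 => if e.2 then s else -s) ∈ ball (0 : E 1) 1 then mk 1 e.1 _ h
  else if s < 0 then vx Y (Y.st e) else vx Y (Y.en e)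

/-- the edge path `p` which starts at `v`, parametrized by `[-1,1]` and constant outside -/
def lo : G × Y.B 0 → List ((G × Y.B 1) × Bool) → ℝ → Pt G Y.B
  | v, [], _ => vx Y v
  | _, e :: p, t => if t ≤ 0 then ed Y e (2 * t + 1) else lo (Y.en e) p (2 * t - 1)

/-- the attaching map of the edge `(1, b)` -/
def psi1 (b : Y.B 1) (y : E 1) : Pt G Y.B :=
  if 0 ≤ y 0 then vx Y (Y.tgt b) else vx Y (Y.src b)

/-- the attaching map of the 2-cell `(1, b)` -/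
def psi2 (b : Y.B 2) (y : E 2) : Pt G Y.B :=
  O3.fac (vx Y (Y.bas b)) (fun x : E 1 => lo Y (Y.bas b) (Y.att b) (x 0)) y

/-- the attaching maps of the edges -/
def Lo1 (ψ : Atl G Y.B) : Prop := ∀ b, ψ 1 b = psi1 Y b

/-- the attaching maps of the edges and of the 2-cells -/
def Lo2 (ψ : Atl G Y.B) : Prop := (∀ b, ψ 1 b = psi1 Y b) ∧ ∀ b, ψ 2 b = psi2 Y b

/-- the edges of the half space -/
def HE (χ : Additive G →+ ℝ) : G × Y.B 1 → Prop := fun c => 0 ≤ χ (Additive.ofMul c.1)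

/-- the 2-cells of the half space -/
def HC (χ : Additive G →+ ℝ) : G × Y.B 2 → Prop := fun c => 0 ≤ χ (Additive.ofMul c.1)

/-- the part of dimension `< N` of the half space, as a space -/
abbrev Hs (ψ : Atl G Y.B) (χ : Additive G →+ ℝ) (N : ℕ∞) : Type :=
  ↥(st ψ N (Pp χ ∩ Lt N))

/-- the path `γ` is the edge path `p` which starts at `v` -/
def Rel {ψ : Atl G Y.B} {χ : Additive G →+ ℝ} {N : ℕ∞} {x y : Hs Y ψ χ N} (γ : Path x y)
    (v : G × Y.B 0) (p : List ((G × Y.B 1) × Bool)) : Prop :=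
  ∀ t : unitInterval, (γ t).1 = pt ψ N (lo Y v p (2 * (t : ℝ) - 1))

end

end Pool.Agent.Work.MP_e9e200_al.O3L

end
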