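import Pool.Agent.Work.MP_e9e200_al.Bd.B28
import Pool.Agent.Work.MP_e9e200_al.Bd.B09
import Pool.Agent.Work.MP_e9e200_al.Bd.B24
import Pool.Agent.Work.MP_e9e200_al.Bd.B12

/-! Bundle of small proof modules (one section per former module). -/

section

/-!
# Project TL, item ASB
-/

set_option autoImplicit false

namespace Pool.Agent.Work.MP_e9e200_al.TL

open Finsupp Topology Topology.RelCWComplex Pool.Agent.Work.MP_e9e200_al.LC

namespace XASB

theorem lin_bd {G : Type} {k : ℕ} {M : Type} [AddCommGroup M] [Module ℂ M] (L : Cb G k → M)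
    (z : Cb G (k + 1) →₀ ℂ) :
    linearCombination ℂ L (bd G k z) = linearCombination ℂ (fun c =>
      ∑ i : Fin (k + 1), ((-1 : ℂ) ^ (i : ℕ)) • (L (fc i true c) - L (fc i false c))) z := by
  have h : (linearCombination ℂ L).comp (bd G k) = linearCombination ℂ (fun c =>
      ∑ i : Fin (k + 1), ((-1 : ℂ) ^ (i : ℕ)) • (L (fc i true c) - L (fc i false c))) := by
    refine Finsupp.lhom_ext' fun c => LinearMap.ext_ring ?_
    simp [bd]
  exact LinearMap.congr_fun h z

theorem lin_congr {α M : Type} [AddCommGroup M] [Module ℂ M] (P Q : α → M) (z : α →₀ ℂ)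
    (h : ∀ c ∈ z.support, P c = Q c) : linearCombination ℂ P z = linearCombination ℂ Q z := by
  rw [Finsupp.linearCombination_apply, Finsupp.linearCombination_apply]
  refine Finset.sum_congr rfl fun c hc => ?_
  show z c • P c = z c • Q c
  rw [h c hc]

theorem grid_mem {G : Type} {N k : ℕ} (F : (Fin k → ℕ) → G) (S : Set (Cb G k))
    (h : ∀ a : Fin k → Option (Fin N), (fun e => F (pos a e)) ∈ S) :
    grid N k F ∈ Finsupp.supported ℂ ℂ S := by
  refine Submodule.sum_mem _ fun a _ => Submodule.smul_mem _ _ ?_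
  exact Finsupp.single_mem_supported ℂ 1 (h a)

theorem lin_mem {α β : Type} (P : α → (β →₀ ℂ)) (z : α →₀ ℂ) (S : Set β)
    (h : ∀ c ∈ z.support, P c ∈ Finsupp.supported ℂ ℂ S) :
    linearCombination ℂ P z ∈ Finsupp.supported ℂ ℂ S := by
  rw [Finsupp.linearCombination_apply]
  exact Submodule.sum_mem _ fun c hc => Submodule.smul_mem _ _ (h c hc)

end XASB

theorem I_ASB (hCF : StCF) (hLEB : StLEB) (hGR : StGR) (hAC : StAC) : StASB := by
  intro G X _ _ T γ B m hT hext hnb A hA f hf k hkm z hz hcyc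
  obtain ⟨y0, hy0⟩ := hT
  obtain ⟨F, hF1, hF2⟩ := hCF G X T m hext A hA f hf y0 hy0
  have hsup : ∀ c ∈ z.support, c ∈ A k := fun c hc => (Finsupp.mem_supported ℂ z).1 hz hc
  -- the size of the grid
  have hN0 : ∀ c ∈ z.support, ∃ N0 : ℕ, ∀ N, N0 ≤ N → 0 < N ∧
      ∀ (a : Fin (k + 1) → Option (Fin N)) (e e' : Fin (k + 1) → Bool),
      (γ (F k c (gp N (pos a e))))⁻¹ * γ (F k c (gp N (pos a e'))) ∈ B := fun c hc =>
    hLEB G X T γ B hnb (k + 1) (F k c) (hF1 k hkm c (hsup c hc)).1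
  choose! N0 hN0 using hN0
  set N : ℕ := max 1 (z.support.sup N0) with hNdef
  have hN : 0 < N := lt_of_lt_of_le one_pos (le_max_left _ _)
  have hNc : ∀ c ∈ z.support, N0 c ≤ N := fun c hc =>
    (Finset.le_sup (f := N0) hc).trans (le_max_right _ _)
  -- the comparison with the subdivision
  set A' : ∀ j, Set (Cb G j) := fun j => {c | j ≤ m ∧ c ∈ A j} with hA'
  set S : ∀ j, Cb G j → Set G := fun j c => {g | (∃ e, g = c e) ∨ ∃ x ∈ II j, g = γ (f j c x)}
    with hS
  obtain ⟨w1, hw1, hbw1⟩ := hAC G N A' S (fun j c b => γ (f j c (gp N b))) hN (by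
      rintro j c ⟨hj, hc⟩ i s
      refine ⟨⟨by omega, hA j c hc i s⟩, ?_⟩
      rintro g (⟨e, rfl⟩ | ⟨x, hx, rfl⟩)
      · exact Or.inl ⟨ins i s e, rfl⟩
      · refine Or.inr ⟨ins i (vb s) x, ins_vb_mem_II i s hx, ?_⟩
        rw [hf.face j hj c hc i s x hx]) (by
      rintro j c ⟨hj, hc⟩
      exact ⟨fun e => Or.inl ⟨e, rfl⟩, fun b hb => Or.inr ⟨gp N b, gp_mem_II hN hb, rfl⟩⟩) (by
      rintro j c ⟨hj, hc⟩ i b hb
      constructor
      · show γ (f (j + 1) c (gp N (ins i N b))) = γ (f j (fc i true c) (gp N b))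
        rw [gp_ins_top hN, hf.face j hj c hc i true _ (gp_mem_II hN hb)]
      · show γ (f (j + 1) c (gp N (ins i 0 b))) = γ (f j (fc i false c) (gp N b))
        rw [gp_ins_bot, hf.face j hj c hc i false _ (gp_mem_II hN hb)]) k z
      ((Finsupp.mem_supported ℂ z).2 fun c hc => ⟨hkm.le, hsup c hc⟩) hcyc
  -- the cones
  set P : Cb G k → (Cb G (k + 1) →₀ ℂ) := fun c =>
    grid N (k + 1) (fun b => γ (F k c (gp N b))) with hP
  set Q : Cb G k → (Cb G k →₀ ℂ) := fun c => grid N k (fun b => γ (f k c (gp N b))) with hQ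
  set R : Cb G k →₀ ℂ := grid N k (fun _ => γ y0) with hR
  have hvt : vb true = 1 := rfl
  have hvf : vb false = -1 := rfl
  have hbot : ∀ c ∈ z.support,
      grid N k (fun b => γ (F k c (gp N (ins 0 N b)))) = Q c ∧
      grid N k (fun b => γ (F k c (gp N (ins 0 0 b)))) = R := by
    intro c hc
    have h := (hF1 k hkm c (hsup c hc)).2
    constructor
    · refine (hGR G N k).2.2 _ _ fun b hb => ?_
      rw [gp_ins_top hN, hvt, (h _ (gp_mem_II hN hb)).1]
    · refine (hGR G N k).2.2 _ _ fun b hb => ?_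
      rw [gp_ins_bot, hvf, (h _ (gp_mem_II hN hb)).2]
  have hbw2 : bd G k (linearCombination ℂ P z) = linearCombination ℂ Q z := by
    rw [Finsupp.apply_linearCombination]
    have heps : linearCombination ℂ (fun _ : Cb G k => R) z = eps G k z • R := by
      rw [eps, Finsupp.linearCombination_apply, Finsupp.linearCombination_apply, Finsupp.sum,
        Finsupp.sum, Finset.sum_smul]
      exact Finset.sum_congr rfl fun c _ => by rw [smul_eq_mul, mul_one]
    rcases k with _ | k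
    · have h1 : ∀ c ∈ z.support, (bd G 0 ∘ P) c = Q c - R := by
        intro c hc
        show bd G 0 (grid N 1 (fun b => γ (F 0 c (gp N b)))) = _
        rw [(hGR G N 0).1, Fin.sum_univ_succ]
        simp only [Finset.univ_eq_empty, Finset.sum_empty, add_zero, Fin.val_zero, pow_zero,
          one_smul]
        rw [(hbot c hc).1, (hbot c hc).2]
      rw [XASB.lin_congr _ _ z h1]
      have h2 : linearCombination ℂ (fun c => Q c - R) z = linearCombination ℂ Q z -
          linearCombination ℂ (fun _ : Cb G 0 => R) z := by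
        simp only [Finsupp.linearCombination_apply, Finsupp.sum, smul_sub, Finset.sum_sub_distrib]
      rw [h2, heps]
      have h3 : eps G 0 z = 0 := hcyc
      rw [h3, zero_smul, sub_zero]
    · set L : Cb G k → (Cb G (k + 1) →₀ ℂ) := fun c' =>
        grid N (k + 1) (fun b => γ (F k c' (gp N b))) with hL
      set K : Cb G (k + 1) → (Cb G (k + 1) →₀ ℂ) := fun c =>
        ∑ i : Fin (k + 1), ((-1 : ℂ) ^ (i : ℕ)) • (L (fc i true c) - L (fc i false c)) with hK
      have h1 : ∀ c ∈ z.support, (bd G (k + 1) ∘ P) c = Q c - R - K c := by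
        intro c hc
        show bd G (k + 1) (grid N (k + 1 + 1) (fun b => γ (F (k + 1) c (gp N b)))) = _
        rw [(hGR G N (k + 1)).1, Fin.sum_univ_succ]
        simp only [Fin.val_zero, pow_zero, one_smul]
        rw [(hbot c hc).1, (hbot c hc).2, sub_eq_add_neg (Q c - R)]
        congr 1
        rw [hK, ← Finset.sum_neg_distrib]
        refine Finset.sum_congr rfl fun j _ => ?_
        rw [Fin.val_succ, pow_succ, mul_neg, mul_one, neg_smul]
        congr 2
        have hface := hF2 k (by omega) c (hsup c hc) j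
        congr 1
        · refine (hGR G N (k + 1)).2.2 _ _ fun b hb => ?_
          rw [gp_ins_top hN, hface true _ (gp_mem_II hN hb)]
        · refine (hGR G N (k + 1)).2.2 _ _ fun b hb => ?_
          rw [gp_ins_bot, hface false _ (gp_mem_II hN hb)]
      rw [XASB.lin_congr _ _ z h1]
      have h2 : linearCombination ℂ (fun c => Q c - R - K c) z = linearCombination ℂ Q z -
          linearCombination ℂ (fun _ : Cb G (k + 1) => R) z - linearCombination ℂ K z := by
        simp only [Finsupp.linearCombination_apply, Finsupp.sum, smul_sub, Finset.sum_sub_distrib]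
      rw [h2, heps, hcyc.2, zero_smul, sub_zero, hK, ← XASB.lin_bd L z, hcyc.1, map_zero, sub_zero]
  refine ⟨w1 + linearCombination ℂ P z, Submodule.add_mem _ ?_ ?_, ?_⟩
  · refine Finsupp.supported_mono ?_ hw1
    rintro c' ⟨c, hc, hc'⟩
    exact Or.inl ⟨c, hsup c hc, fun e => (hc' e).imp (fun ⟨e', he'⟩ => ⟨e', he'⟩)
      (fun ⟨x, hx, he⟩ => ⟨x, hx, he⟩)⟩
  · refine XASB.lin_mem P z _ fun c hc => XASB.grid_mem _ _ fun a => Or.inr ⟨fun e e' => ?_,
      fun e => ?_⟩
    · exact (hN0 c hc N (hNc c hc)).2 a e e'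
    · exact ⟨F k c (gp N (pos a e)), (hF1 k hkm c (hsup c hc)).1.2
        (gp_mem_II hN fun i => pos_le a e i), rfl⟩
  · rw [map_add, hbw1, hbw2]
    abel

end Pool.Agent.Work.MP_e9e200_al.TL

end

section

/-!
# Project TL, item BB: the boundary of a boundary of a cubical chain is zero
-/

set_option autoImplicit false

namespace Pool.Agent.Work.MP_e9e200_al.TL

open Finsupp Topology Topology.RelCWComplex Pool.Agent.Work.MP_e9e200_al.LC

namespace XBB

/-- alternating double sums -/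
theorem alt {M : Type} [AddCommGroup M] [Module ℂ M] (k : ℕ) (f : Fin (k + 2) → Fin (k + 1) → M)
    (hf : ∀ i j : Fin (k + 1), i ≤ j → f i.castSucc j = f j.succ i) :
    ∑ i : Fin (k + 2), ∑ j : Fin (k + 1), ((-1 : ℂ) ^ ((i : ℕ) + (j : ℕ))) • f i j = 0 := by
  classical
  rw [← Finset.sum_product']
  let P := Fin (k + 2) × Fin (k + 1)
  let S : Finset P := Finset.univ.filter (fun ij : P => (ij.1 : ℕ) ≤ (ij.2 : ℕ))
  rw [Finset.univ_product_univ, ← Finset.sum_add_sum_compl S, ← eq_neg_iff_add_eq_zero,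
    ← Finset.sum_neg_distrib]
  let φ : ∀ ij : P, ij ∈ S → P := fun ij hij =>
    (ij.2.succ, Fin.castLT ij.1 (lt_of_le_of_lt (Finset.mem_filter.mp hij).right (Fin.is_lt ij.2)))
  apply Finset.sum_bij φ
  · intro ij hij
    simp only [S, φ, Finset.mem_compl, Finset.mem_filter, Finset.mem_univ, true_and,
      Fin.val_succ, Fin.val_castLT] at hij ⊢
    omega
  · rintro ⟨i, j⟩ hij ⟨i', j'⟩ hij' h
    rw [Prod.mk_inj]
    have h1 := congr_arg Prod.fst h
    have h2 := congr_arg Prod.snd h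
    simp only [φ] at h1 h2
    refine ⟨?_, Fin.succ_injective _ h1⟩
    have := congr_arg Fin.castSucc h2
    simpa using this
  · rintro ⟨i', j'⟩ hij'
    simp only [S, Finset.mem_compl, Finset.mem_filter, Finset.mem_univ, true_and, not_le] at hij'
    refine ⟨(j'.castSucc, i'.pred ?_), ?_, ?_⟩
    · rintro rfl
      simp at hij'
    · simp only [S, Finset.mem_filter, Finset.mem_univ, true_and, Fin.val_castSucc,
        Fin.val_pred]
      omega
    · simp only [φ, Fin.castLT_castSucc, Fin.succ_pred]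
  · rintro ⟨i, j⟩ hij
    have hij' : (i : ℕ) ≤ (j : ℕ) := (Finset.mem_filter.mp hij).right
    have hlt : (i : ℕ) < k + 1 := lt_of_le_of_lt hij' j.2
    have hi : i = (Fin.castLT i hlt).castSucc := by simp
    show ((-1 : ℂ) ^ ((i : ℕ) + (j : ℕ))) • f i j =
      -(((-1 : ℂ) ^ ((j.succ : ℕ) + ((Fin.castLT i hlt : Fin (k + 1)) : ℕ))) •
        f j.succ (Fin.castLT i hlt))
    rw [← hf (Fin.castLT i hlt) j (by rw [Fin.le_def]; exact hij'), ← hi, ← neg_smul]
    congr 1
    rw [Fin.val_succ, Fin.val_castLT]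
    ring

variable {G : Type}

theorem bd_single (k : ℕ) (c : Cb G (k + 1)) : bd G k (single c 1) =
    ∑ i : Fin (k + 1), ((-1 : ℂ) ^ (i : ℕ)) •
      (single (fc i true c) (1 : ℂ) - single (fc i false c) (1 : ℂ)) := by
  rw [bd, Finsupp.linearCombination_single, one_smul]

theorem fc_fc (hI : StINS) {k : ℕ} (i j : Fin (k + 1)) (h : i ≤ j) (s t : Bool)
    (c : Cb G (k + 2)) : fc j t (fc i.castSucc s c) = fc i s (fc j.succ t c) := by
  funext e
  show c (ins i.castSucc s (ins j t e)) = c (ins j.succ t (ins i s e))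
  rw [hI.1 Bool k i j s t e h]

theorem bd_bd_single (hI : StINS) (k : ℕ) (c : Cb G (k + 2)) :
    bd G k (bd G (k + 1) (single c 1)) = 0 := by
  rw [bd_single, map_sum]
  simp only [map_smul, map_sub, bd_single]
  rw [← alt k (fun i j => single (fc j true (fc i true c)) (1 : ℂ) -
    single (fc j false (fc i true c)) (1 : ℂ) - single (fc j true (fc i false c)) (1 : ℂ) +
    single (fc j false (fc i false c)) (1 : ℂ))]
  · refine Finset.sum_congr rfl fun i _ => ?_
    rw [← Finset.sum_sub_distrib, Finset.smul_sum]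
    refine Finset.sum_congr rfl fun j _ => ?_
    rw [pow_add, mul_smul, ← smul_sub]
    congr 2
    abel
  · intro i j hij
    simp only [fc_fc hI i j hij]
    abel

theorem eps_single (k : ℕ) (c : Cb G k) : eps G k (single c 1) = 1 := by
  rw [eps, Finsupp.linearCombination_single, one_smul]

end XBB

open XBB in
theorem I_BB (hI : StINS) : StBB := by
  intro G k
  constructor
  · intro z
    have h : (bd G k).comp (bd G (k + 1)) = 0 := by
      refine Finsupp.lhom_ext' fun c => LinearMap.ext_ring ?_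
      show bd G k (bd G (k + 1) (single c 1)) = 0
      exact bd_bd_single hI k c
    exact LinearMap.congr_fun h z
  · intro z
    have h : (eps G k).comp (bd G k) = 0 := by
      refine Finsupp.lhom_ext' fun c => LinearMap.ext_ring ?_
      show eps G k (bd G k (single c 1)) = 0
      rw [bd_single, map_sum]
      refine Finset.sum_eq_zero fun i _ => ?_
      rw [map_smul, map_sub, eps_single, eps_single, sub_self, smul_zero]
    exact LinearMap.congr_fun h z

end Pool.Agent.Work.MP_e9e200_al.TL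

end

section

/-!
# Project TL, item BDD: boundedness of an equivariant family
-/

set_option autoImplicit false

namespace Pool.Agent.Work.MP_e9e200_al.TL

open Finsupp Topology Topology.RelCWComplex Pool.Agent.Work.MP_e9e200_al.LC

theorem I_BDD (hCPL : StCPL) (hLAR : StLAR) : StBDD := by
  intro G X _ _ _ _ _ hfree m χ h hcont hh γ B C hco f hf heq D hD
  have hN : ∀ k : ℕ, {c' : Cb G k | ∀ e, c' e ∈ D}.Finite := fun k =>
    Set.Finite.pi' (fun _ => hD)
  set Z : Set X := ⋃ k ∈ Set.Iic m, ⋃ c' ∈ {c' : Cb G k | ∀ e, c' e ∈ D}, f k c' '' II k with hZ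
  have hZc : IsCompact Z := by
    refine (Set.finite_Iic m).isCompact_biUnion fun k hk => ?_
    refine (hN k).isCompact_biUnion fun c' _ => ?_
    exact (isCompact_II k).image_of_continuousOn (hf.box k hk c' (Set.mem_univ _)).1
  have hZs : Z ⊆ skm X m := by
    intro y hy
    simp only [hZ, Set.mem_iUnion] at hy
    obtain ⟨k, hk, c', _, x, hx, rfl⟩ := hy
    exact (hf.box k hk c' (Set.mem_univ _)).2 hx
  obtain ⟨s, hs⟩ := hCPL X h hcont Z hZc
  obtain ⟨S, hS, hSZ⟩ := hco.cpt Z hZc hZs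
  refine ⟨Set.image2 (fun d s' => d⁻¹ * s') D S, max (-s) 0, hD.image2 _ hS, le_max_right _ _, ?_⟩
  intro k hk t c hc x hx
  obtain ⟨hc1, hc2⟩ := hc
  set g : G := c (fun _ => false) with hg
  set c' : Cb G k := fun e => g⁻¹ * c e with hc'
  have hcc : c = fun e => g * c' e := by
    funext e
    rw [hc']
    simp only [mul_inv_cancel_left]
  have hc'D : ∀ e, c' e ∈ D := fun e => hc1 _ e
  have hyZ : f k c' x ∈ Z := by
    simp only [hZ, Set.mem_iUnion]
    exact ⟨k, hk, c', hc'D, x, hx, rfl⟩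
  have hfc : f k c x = g • f k c' x := by
    conv_lhs => rw [hcc]
    exact heq k hk g c' x hx
  obtain ⟨_, _, l3, l4⟩ := hLAR X h
  rw [hfc]
  constructor
  · have h1 := (l4 G hfree g).1 (χ (Additive.ofMul g)) (fun x => hh g x) s _ (hs hyZ)
    refine l3 _ _ ?_ h1
    have h2 : t ≤ χ (Additive.ofMul g) := hc2 _
    have h3 : -s ≤ max (-s) 0 := le_max_left _ _
    linarith
  · intro e
    refine ⟨c' e, hc'D e, g⁻¹ * γ (g • f k c' x), hSZ g _ hyZ, ?_⟩
    show (c' e)⁻¹ * (g⁻¹ * γ (g • f k c' x)) = (c e)⁻¹ * γ (g • f k c' x)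
    rw [hc']
    simp only [mul_inv_rev, inv_inv]
    group

end Pool.Agent.Work.MP_e9e200_al.TL

end

section

/-!
# Project TL: the chain map from the cubical chains to a partial resolution (BE)
-/

set_option autoImplicit false

namespace Pool.Agent.Work.MP_e9e200_al.TL

open Finsupp Pool.Agent.Work.MP_e9e200_al.LC

namespace XBE

/-- the base vertex -/
def o (k : ℕ) : Fin k → Bool := fun _ => false

variable {G B : Type} [Group G]

/-- the normalized cube -/
def nrm {k : ℕ} (c : Cb G k) : Cb G k := fun e => (c (o k))⁻¹ * c e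

theorem nrm_mul {k : ℕ} (g : G) (c : Cb G k) : nrm (fun e => g * c e) = nrm c := by
  funext e; simp only [nrm]; group

theorem mul_nrm {k : ℕ} (c : Cb G k) : (fun e => c (o k) * nrm c e) = c := by
  funext e; simp [nrm]

/-- a filling of the image of the boundary of the cube `c` -/
def Good (deg : B → ℕ) (db : B → (G × B →₀ ℂ)) (k : ℕ) (u : Cb G k → (G × B →₀ ℂ))
    (c : Cb G (k + 1)) (y : G × B →₀ ℂ) : Prop :=
  y ∈ Finsupp.supported ℂ ℂ {p : G × B | deg p.2 = k + 1} ∧
    ext ℂ db y = linearCombination ℂ u (bd G k (single c 1))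

open Classical in
/-- one step of the construction -/
noncomputable def step (deg : B → ℕ) (db : B → (G × B →₀ ℂ)) (k : ℕ)
    (u : Cb G k → (G × B →₀ ℂ)) (c : Cb G (k + 1)) : G × B →₀ ℂ :=
  tr ℂ (c (o (k + 1))) (if h : ∃ y, Good deg db k u (nrm c) y then Classical.choose h else 0)

open Classical in
/-- the chain map -/
noncomputable def beta (m : ℕ) (deg : B → ℕ) (db : B → (G × B →₀ ℂ)) (x0 : G × B →₀ ℂ) :
    ∀ k : ℕ, Cb G k → (G × B →₀ ℂ)
  | 0 => fun c => tr ℂ (c (o 0)) x0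
  | k + 1 => if k + 1 ≤ m then step deg db k (beta m deg db x0 k) else fun _ => 0

theorem beta_zero (m : ℕ) (deg : B → ℕ) (db : B → (G × B →₀ ℂ)) (x0 : G × B →₀ ℂ) (c : Cb G 0) :
    beta m deg db x0 0 c = tr ℂ (c (o 0)) x0 := by rw [beta]

theorem beta_succ (m : ℕ) (deg : B → ℕ) (db : B → (G × B →₀ ℂ)) (x0 : G × B →₀ ℂ) (k : ℕ)
    (hk : k + 1 ≤ m) : beta m deg db x0 (k + 1) = step deg db k (beta m deg db x0 k) := by
  rw [beta, if_pos hk]

theorem tr_mul' (g h : G) (x : G × B →₀ ℂ) : tr ℂ (g * h) x = tr ℂ g (tr ℂ h x) := by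
  rw [LC.BE.tr_mul, LinearMap.comp_apply]

theorem beta_equiv (m : ℕ) (deg : B → ℕ) (db : B → (G × B →₀ ℂ)) (x0 : G × B →₀ ℂ) (k : ℕ)
    (g : G) (c : Cb G k) :
    beta m deg db x0 k (fun e => g * c e) = tr ℂ g (beta m deg db x0 k c) := by
  rcases k with _ | k
  · rw [beta_zero, beta_zero, tr_mul']
  · by_cases hk : k + 1 ≤ m
    · rw [beta_succ m deg db x0 k hk]
      unfold step
      rw [nrm_mul, tr_mul']
    · rw [beta, if_neg hk, map_zero]

theorem bd_single (k : ℕ) (c : Cb G (k + 1)) :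
    bd G k (single c 1) = ∑ i : Fin (k + 1), ((-1 : ℂ) ^ (i : ℕ)) •
      (single (fc i true c) (1 : ℂ) - single (fc i false c) (1 : ℂ)) := by
  simp [bd, Finsupp.linearCombination_single]

theorem lin_bd (k : ℕ) (u : Cb G k → (G × B →₀ ℂ))
    (hu : ∀ (g : G) (c : Cb G k), u (fun e => g * c e) = tr ℂ g (u c)) (g : G)
    (c : Cb G (k + 1)) :
    linearCombination ℂ u (bd G k (single (fun e => g * c e) 1)) =
      tr ℂ g (linearCombination ℂ u (bd G k (single c 1))) := by
  rw [bd_single, bd_single, map_sum, map_sum, map_sum]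
  refine Finset.sum_congr rfl fun i _ => ?_
  rw [map_smul, map_smul, map_smul, map_sub, map_sub, map_sub]
  simp only [Finsupp.linearCombination_single, one_smul]
  rw [← hu, ← hu]
  rfl

theorem ext_zero_of_deg {m : ℕ} {deg : B → ℕ} {db : B → (G × B →₀ ℂ)} {eb : B → ℂ}
    (hP : PRes ℂ (Set.univ : Set G) m B deg db eb) {x : G × B →₀ ℂ}
    (hx : x ∈ Finsupp.supported ℂ ℂ {p : G × B | deg p.2 = 0}) : ext ℂ db x = 0 := by
  have h := LC.BE.map_congr (ext ℂ db) 0 (A := {p : G × B | deg p.2 = 0}) (fun p hp => ?_) hx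
  · simpa using h
  · obtain ⟨g, b⟩ := p
    rw [LC.BE.ext_single]
    have h1 : db b = 0 := LC.BE.eq_zero_of_supported (hP.db_sup b) (fun q hq => by
      have h2 : deg q.2 + 1 = deg b := hq.2
      have h3 : deg b = 0 := hp
      omega)
    rw [h1]; simp

theorem aug_zero_of_deg {m : ℕ} {deg : B → ℕ} {db : B → (G × B →₀ ℂ)} {eb : B → ℂ}
    (hP : PRes ℂ (Set.univ : Set G) m B deg db eb) {k : ℕ} {x : G × B →₀ ℂ}
    (hx : x ∈ Finsupp.supported ℂ ℂ {p : G × B | deg p.2 = k + 1}) : LC.aug ℂ eb x = 0 := by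
  have h := LC.BE.map_congr (LC.aug ℂ eb) 0 (A := {p : G × B | deg p.2 = k + 1})
    (fun p hp => ?_) hx
  · simpa using h
  · obtain ⟨g, b⟩ := p
    rw [LC.BE.aug_single]
    have h3 : deg b = k + 1 := hp
    rw [hP.eb_deg b (by omega)]; simp

theorem lin_mem {k d : ℕ} {deg : B → ℕ} {u : Cb G k → (G × B →₀ ℂ)}
    (hu : ∀ c, u c ∈ Finsupp.supported ℂ ℂ {p : G × B | deg p.2 = d}) (z : Cb G k →₀ ℂ) :
    linearCombination ℂ u z ∈ Finsupp.supported ℂ ℂ {p : G × B | deg p.2 = d} := by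
  rw [Finsupp.linearCombination_apply]
  exact Submodule.sum_mem _ fun c _ => Submodule.smul_mem _ _ (hu c)

theorem main (hBB : StBB) {m : ℕ} {deg : B → ℕ} {db : B → (G × B →₀ ℂ)} {eb : B → ℂ}
    (hP : PRes ℂ (Set.univ : Set G) m B deg db eb) {x0 : G × B →₀ ℂ}
    (hx0 : x0 ∈ Finsupp.supported ℂ ℂ {p : G × B | p.1 ∈ (Set.univ : Set G) ∧ deg p.2 = 0})
    (hx1 : LC.aug ℂ eb x0 = 1) : ∀ k ≤ m,
    (∀ c, beta m deg db x0 k c ∈ Finsupp.supported ℂ ℂ {p : G × B | deg p.2 = k}) ∧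
    (∀ c : Cb G (k + 1),
      ext ℂ db (linearCombination ℂ (beta m deg db x0 k) (bd G k (single c 1))) = 0 ∧
      LC.aug ℂ eb (linearCombination ℂ (beta m deg db x0 k) (bd G k (single c 1))) = 0) ∧
    (k + 1 ≤ m → ∀ c : Cb G (k + 1), ext ℂ db (beta m deg db x0 (k + 1) c) =
      linearCombination ℂ (beta m deg db x0 k) (bd G k (single c 1))) ∧
    (k + 1 ≤ m → ∀ c : Cb G (k + 1),
      beta m deg db x0 (k + 1) c ∈ Finsupp.supported ℂ ℂ {p : G × B | deg p.2 = k + 1}) := by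
  have third : ∀ k ≤ m,
      (∀ c, beta m deg db x0 k c ∈ Finsupp.supported ℂ ℂ {p : G × B | deg p.2 = k}) →
      (∀ c : Cb G (k + 1),
        ext ℂ db (linearCombination ℂ (beta m deg db x0 k) (bd G k (single c 1))) = 0 ∧
        LC.aug ℂ eb (linearCombination ℂ (beta m deg db x0 k) (bd G k (single c 1))) = 0) →
      k + 1 ≤ m → ∀ c : Cb G (k + 1), ext ℂ db (beta m deg db x0 (k + 1) c) =
        linearCombination ℂ (beta m deg db x0 k) (bd G k (single c 1)) ∧
        beta m deg db x0 (k + 1) c ∈ Finsupp.supported ℂ ℂ {p : G × B | deg p.2 = k + 1} := by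
    intro k hk h1 h2 hk1 c
    have hex : ∃ y, Good deg db k (beta m deg db x0 k) (nrm c) y := by
      obtain ⟨h3, h4⟩ := h2 (nrm c)
      have h5 : linearCombination ℂ (beta m deg db x0 k) (bd G k (single (nrm c) 1)) ∈
          Finsupp.supported ℂ ℂ {p : G × B | p.1 ∈ (Set.univ : Set G) ∧ deg p.2 = k} :=
        Finsupp.supported_mono (s := {p : G × B | deg p.2 = k})
          (by intro p hp; exact ⟨Set.mem_univ _, hp⟩) (lin_mem h1 _)
      obtain ⟨y, hy, hy1⟩ := hP.exact k (by omega) _ h5 h3 h4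
      exact ⟨y, Finsupp.supported_mono (fun p hp => hp.2) hy, hy1⟩
    have hs := Classical.choose_spec hex
    rw [beta_succ m deg db x0 k hk1]
    unfold step
    rw [dif_pos hex]
    refine ⟨?_, LC.BE.tr_mem _ (fun p hp => hp) hs.1⟩
    rw [LC.BE.ext_tr, hs.2, ← lin_bd k _ (fun g c => beta_equiv m deg db x0 k g c), mul_nrm]
  intro k
  induction k with
  | zero =>
    intro hm
    have h1 : ∀ c, beta m deg db x0 0 c ∈ Finsupp.supported ℂ ℂ {p : G × B | deg p.2 = 0} := by
      intro c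
      rw [beta_zero]
      exact LC.BE.tr_mem _ (fun p hp => hp.2) hx0
    have h2 : ∀ c : Cb G (0 + 1),
        ext ℂ db (linearCombination ℂ (beta m deg db x0 0) (bd G 0 (single c 1))) = 0 ∧
        LC.aug ℂ eb (linearCombination ℂ (beta m deg db x0 0) (bd G 0 (single c 1))) = 0 := by
      intro c
      refine ⟨ext_zero_of_deg hP (lin_mem h1 _), ?_⟩
      have h3 : LC.aug ℂ eb ∘ₗ linearCombination ℂ (beta m deg db x0 0) = eps G 0 := by
        refine Finsupp.lhom_ext fun p a => ?_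
        rw [LinearMap.comp_apply, Finsupp.linearCombination_single, map_smul, beta_zero,
          LC.BE.aug_tr, hx1]
        simp [eps, Finsupp.linearCombination_single]
      rw [← LinearMap.comp_apply, h3]
      exact (hBB G 0).2 _
    exact ⟨h1, h2, fun hk c => (third 0 hm h1 h2 hk c).1, fun hk c => (third 0 hm h1 h2 hk c).2⟩
  | succ k ih =>
    intro hm
    obtain ⟨i1, i2, i3, i4⟩ := ih (by omega)
    have h1 := i4 hm
    have h2 : ∀ c : Cb G (k + 1 + 1),
        ext ℂ db (linearCombination ℂ (beta m deg db x0 (k + 1))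
          (bd G (k + 1) (single c 1))) = 0 ∧
        LC.aug ℂ eb (linearCombination ℂ (beta m deg db x0 (k + 1))
          (bd G (k + 1) (single c 1))) = 0 := by
      intro c
      refine ⟨?_, aug_zero_of_deg hP (lin_mem h1 _)⟩
      have h3 : ext ℂ db ∘ₗ linearCombination ℂ (beta m deg db x0 (k + 1)) =
          linearCombination ℂ (beta m deg db x0 k) ∘ₗ bd G k := by
        refine Finsupp.lhom_ext fun p a => ?_
        have h4 : single p a = a • single p (1 : ℂ) := by simp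
        rw [h4, map_smul, map_smul, LinearMap.comp_apply, LinearMap.comp_apply,
          Finsupp.linearCombination_single, one_smul, i3 hm p]
      rw [← LinearMap.comp_apply, h3, LinearMap.comp_apply, (hBB G k).1, map_zero]
    exact ⟨h1, h2, fun hk c => (third (k + 1) hm h1 h2 hk c).1,
      fun hk c => (third (k + 1) hm h1 h2 hk c).2⟩

end XBE

open XBE in
/-- the chain map from the cubical chains to a partial resolution -/
theorem I_BE (hBB : StBB) : StBE := by
  intro G _ m B _ deg db eb hP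
  obtain ⟨x0, hx0, hx1⟩ := hP.surj
  have hm := main hBB hP hx0 hx1
  refine ⟨beta m deg db x0, fun k hk => (hm k hk).1, fun k g c => beta_equiv m deg db x0 k g c,
    fun c => ?_, fun k hk => (hm k (by omega)).2.2.1 hk⟩
  rw [beta_zero, LC.BE.aug_tr, hx1]

end Pool.Agent.Work.MP_e9e200_al.TL

end

section

/-!
# Item CF: cones over families of singular cubes
-/

set_option autoImplicit false

namespace Pool.Agent.Work.MP_e9e200_al.TL

open Finsupp Topology Topology.RelCWComplex Pool.Agent.Work.MP_e9e200_al.LC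

namespace XCF

theorem vb_inj {s t : Bool} (h : vb s = vb t) : s = t := by
  cases s <;> cases t <;> simp [vb] at h ⊢ <;> norm_num at h

theorem vb_true : vb true = 1 := by simp [vb]

theorem vb_false : vb false = -1 := by simp [vb]

theorem ins_inj {α : Type} {k : ℕ} {i : Fin (k + 1)} {a b : α} {x y : Fin k → α}
    (h : ins i a x = ins i b y) : a = b ∧ x = y := by
  refine ⟨?_, ?_⟩
  · have := congrFun h i
    rwa [ins_same, ins_same] at this
  · funext j
    have := congrFun h (i.succAbove j)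
    rwa [ins_succAbove, ins_succAbove] at this

theorem eq_ins_zero {α : Type} {k : ℕ} (y : Fin (k + 1) → α) : y = ins 0 (y 0) (Fin.tail y) := by
  rw [ins_zero]; exact (Fin.cons_self_tail y).symm

theorem ins_zero_succ {α : Type} {k : ℕ} {j : Fin (k + 1)} {a b : α} {x y : Fin (k + 1) → α}
    (h : ins 0 a x = ins j.succ b y) : x = ins j b (Fin.tail y) ∧ y = ins 0 a (Fin.tail y) := by
  constructor
  · have h1 := congrArg Fin.tail h
    rwa [tail_ins_zero, tail_ins_succ] at h1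
  · have h1 := congrFun h 0
    rw [ins_same, ins_succ_zero] at h1
    rw [h1]; exact eq_ins_zero y

theorem tail_mem {k : ℕ} {y : Fin (k + 1) → ℝ} (hy : y ∈ II (k + 1)) : Fin.tail y ∈ II k :=
  mem_II.2 fun i => mem_II.1 hy i.succ

section

variable {G X : Type} [TopologicalSpace X]

/-- the properties of the cone over a point -/
def P0 (T : Set X) (y0 : X) (g : (Fin 0 → ℝ) → X) (Φ : (Fin 1 → ℝ) → X) : Prop :=
  Box T 1 Φ ∧ ∀ x ∈ II 0, Φ (ins 0 1 x) = g x ∧ Φ (ins 0 (-1) x) = y0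

/-- the properties of the cone over a cube -/
def PS (T : Set X) (y0 : X) {k : ℕ} (g : (Fin (k + 1) → ℝ) → X)
    (h : Fin (k + 1) → Bool → (Fin (k + 1) → ℝ) → X) (Φ : (Fin (k + 2) → ℝ) → X) : Prop :=
  Box T (k + 2) Φ ∧ (∀ x ∈ II (k + 1), Φ (ins 0 1 x) = g x ∧ Φ (ins 0 (-1) x) = y0) ∧
    ∀ (i : Fin (k + 1)) (s : Bool), ∀ x ∈ II (k + 1), Φ (ins i.succ (vb s) x) = h i s x

open Classical in
/-- the family of cones -/
noncomputable def F (T : Set X) (y0 : X) (f : ∀ k, Cb G k → (Fin k → ℝ) → X) :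
    ∀ k, Cb G k → (Fin (k + 1) → ℝ) → X
  | 0, c => if h : ∃ Φ, P0 T y0 (f 0 c) Φ then h.choose else fun _ => y0
  | k + 1, c => if h : ∃ Φ, PS T y0 (f (k + 1) c) (fun i s => F T y0 f k (fc i s c)) Φ then
      h.choose else fun _ => y0

theorem F_zero {T : Set X} {y0 : X} {f : ∀ k, Cb G k → (Fin k → ℝ) → X} {c : Cb G 0}
    (h : ∃ Φ, P0 T y0 (f 0 c) Φ) : P0 T y0 (f 0 c) (F T y0 f 0 c) := by
  rw [F, dif_pos h]; exact h.choose_spec

theorem F_succ {T : Set X} {y0 : X} {f : ∀ k, Cb G k → (Fin k → ℝ) → X} {k : ℕ}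
    {c : Cb G (k + 1)}
    (h : ∃ Φ, PS T y0 (f (k + 1) c) (fun i s => F T y0 f k (fc i s c)) Φ) :
    PS T y0 (f (k + 1) c) (fun i s => F T y0 f k (fc i s c)) (F T y0 f (k + 1) c) := by
  rw [F, dif_pos h]; exact h.choose_spec

/-- the compatibility with faces -/
def Th (T : Set X) (y0 : X) (f : ∀ k, Cb G k → (Fin k → ℝ) → X) : ∀ k, Cb G k → Prop
  | 0, _ => True
  | k + 1, c => ∀ (i : Fin (k + 1)) (s : Bool), ∀ x ∈ II (k + 1),
      F T y0 f (k + 1) c (ins i.succ (vb s) x) = F T y0 f k (fc i s c) x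

/-- all properties -/
def Q (T : Set X) (y0 : X) (f : ∀ k, Cb G k → (Fin k → ℝ) → X) (k : ℕ) (c : Cb G k) : Prop :=
  Box T (k + 1) (F T y0 f k c) ∧ (∀ x ∈ II k, F T y0 f k c (ins 0 1 x) = f k c x ∧
    F T y0 f k c (ins 0 (-1) x) = y0) ∧ Th T y0 f k c

theorem box_const {T : Set X} {y0 : X} (hy : y0 ∈ T) (k : ℕ) :
    Box T k (fun _ => y0) := ⟨continuousOn_const, fun _ _ => hy⟩

theorem base (hGL : StGL) {T : Set X} {m : ℕ} (hC : ∀ k ≤ m, CubeExt k T)
    {A : ∀ k, Set (Cb G k)} {f : ∀ k, Cb G k → (Fin k → ℝ) → X} (hf : Fam T A m f) {y0 : X}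
    (hy : y0 ∈ T) (hm : 1 ≤ m) {c : Cb G 0} (hc : c ∈ A 0) : ∃ Φ, P0 T y0 (f 0 c) Φ := by
  obtain ⟨Φ, h1, h2⟩ := hGL X T 0 (hC 1 hm)
    (fun _ s => if s then f 0 c else fun _ => y0) (by
      intro i s
      cases s
      · exact box_const hy 0
      · exact hf.box 0 (Nat.zero_le m) c hc) (by
      intro i s j t x _ y _ h
      have hij : i = j := Fin.ext (by omega)
      subst hij
      obtain ⟨h3, h4⟩ := ins_inj h
      have h5 := vb_inj h3
      subst h5; subst h4; rfl)
  refine ⟨Φ, h1, fun x hx => ⟨?_, ?_⟩⟩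
  · have := h2 0 true x hx
    rw [vb_true] at this; simpa using this
  · have := h2 0 false x hx
    rw [vb_false] at this; simpa using this

theorem compat (hI : StINS) {T : Set X} {A : ∀ k, Set (Cb G k)}
    (hA : ∀ k, ∀ c ∈ A (k + 1), ∀ i s, fc i s c ∈ A k)
    {f : ∀ k, Cb G k → (Fin k → ℝ) → X} {y0 : X}
    {k : ℕ} {c : Cb G (k + 1)} (hc : c ∈ A (k + 1))
    (ih : ∀ c ∈ A k, Q T y0 f k c) {i j : Fin (k + 1)} {s t : Bool} {x y : Fin (k + 1) → ℝ}
    (hx : x ∈ II (k + 1)) (hy : y ∈ II (k + 1))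
    (h : ins i.succ (vb s) x = ins j.succ (vb t) y) :
    F T y0 f k (fc i s c) x = F T y0 f k (fc j t c) y := by
  by_cases hij : i = j
  · subst hij
    obtain ⟨h3, h4⟩ := ins_inj h
    have h5 := vb_inj h3
    subst h5; subst h4; rfl
  · rcases k with _ | k
    · exact absurd (Fin.ext (by omega)) hij
    · have h0 : x 0 = y 0 := by
        have := congrFun h 0
        rwa [ins_succ_zero, ins_succ_zero] at this
      have h1 : ins i (vb s) (Fin.tail x) = ins j (vb t) (Fin.tail y) := by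
        have := congrArg Fin.tail h
        rwa [tail_ins_succ, tail_ins_succ] at this
      rcases hI.2 ℝ k i j (vb s) (vb t) (Fin.tail x) (Fin.tail y) h1 with h2 | h2
      · exact absurd h2.1 hij
      · obtain ⟨i', j', z, hz1, hz2, hz⟩ := h2
        have hw : Fin.tail x ∈ II (k + 1) := tail_mem hx
        have hzm : z ∈ II k := by
          rw [hz1] at hw; exact (ins_mem_II.1 hw).2
        have hx0 : |x 0| ≤ 1 := mem_II.1 hx 0
        set w : Fin (k + 1) → ℝ := ins 0 (x 0) z with hwdef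
        have hwm : w ∈ II (k + 1) := ins_mem_II.2 ⟨hx0, hzm⟩
        have e1 : x = ins j'.succ (vb t) w := by
          rw [eq_ins_zero x, eq_ins_zero (ins j'.succ (vb t) w), ins_succ_zero, tail_ins_succ,
            hwdef, tail_ins_zero, ins_same, hz1]
        have e2 : y = ins i'.succ (vb s) w := by
          rw [eq_ins_zero y, eq_ins_zero (ins i'.succ (vb s) w), ins_succ_zero, tail_ins_succ,
            hwdef, tail_ins_zero, ins_same, hz2, h0]
        have q1 := (ih (fc i s c) (hA _ c hc i s)).2.2 j' t w hwm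
        have q2 := (ih (fc j t c) (hA _ c hc j t)).2.2 i' s w hwm
        rw [e1, e2, q1, q2]
        have q3 : fc j' t (fc i s c) = fc i' s (fc j t c) := by
          funext e
          simp only [fc]
          rw [hz Bool s t e]
        rw [q3]

theorem step (hI : StINS) (hGL : StGL) {T : Set X} {m : ℕ} (hC : ∀ k ≤ m, CubeExt k T)
    {A : ∀ k, Set (Cb G k)} (hA : ∀ k, ∀ c ∈ A (k + 1), ∀ i s, fc i s c ∈ A k)
    {f : ∀ k, Cb G k → (Fin k → ℝ) → X} (hf : Fam T A m f) {y0 : X}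
    (hy : y0 ∈ T) {k : ℕ} (hk : k + 2 ≤ m) (ih : ∀ c ∈ A k, Q T y0 f k c)
    {c : Cb G (k + 1)} (hc : c ∈ A (k + 1)) :
    ∃ Φ, PS T y0 (f (k + 1) c) (fun i s => F T y0 f k (fc i s c)) Φ := by
  have key : ∀ (j : Fin (k + 1)) (s t : Bool) (x y : Fin (k + 1) → ℝ), x ∈ II (k + 1) →
      y ∈ II (k + 1) → ins 0 (vb s) x = ins j.succ (vb t) y →
      (if s then f (k + 1) c else fun _ => y0) x = F T y0 f k (fc j t c) y := by
    intro j s t x y hx hyy h
    obtain ⟨h1, h2⟩ := ins_zero_succ h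
    have hz := tail_mem hyy
    have q := (ih (fc j t c) (hA _ c hc j t)).2.1 (Fin.tail y) hz
    cases s
    · rw [vb_false] at h2
      rw [h2, q.2]; rfl
    · rw [vb_true] at h2
      have h3 : F T y0 f k (fc j t c) y = f k (fc j t c) (Fin.tail y) := by
        conv_lhs => rw [h2]
        exact q.1
      rw [h3, h1]
      exact hf.face k (by omega) c hc j t _ hz
  obtain ⟨Φ, h1, h2⟩ := hGL X T (k + 1) (hC (k + 2) hk)
    (fun i s => Fin.cases (motive := fun _ => (Fin (k + 1) → ℝ) → X)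
      (if s then f (k + 1) c else fun _ => y0) (fun i' => F T y0 f k (fc i' s c)) i) (by
      intro i s
      refine Fin.cases ?_ (fun i' => ?_) i
      · simp only [Fin.cases_zero]
        cases s
        · exact box_const hy (k + 1)
        · exact hf.box (k + 1) (by omega) c hc
      · simp only [Fin.cases_succ]
        exact (ih _ (hA _ c hc i' s)).1) (by
      intro i s j t x hx y hyy
      refine Fin.cases ?_ (fun i' => ?_) i <;> refine Fin.cases ?_ (fun j' => ?_) j
      · intro h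
        obtain ⟨h3, h4⟩ := ins_inj h
        have h5 := vb_inj h3
        subst h5; subst h4; rfl
      · intro h
        simp only [Fin.cases_zero, Fin.cases_succ]
        exact key j' s t x y hx hyy h
      · intro h
        simp only [Fin.cases_zero, Fin.cases_succ]
        exact (key i' t s y x hyy hx h.symm).symm
      · intro h
        simp only [Fin.cases_succ]
        exact compat hI hA hc ih hx hyy h)
  refine ⟨Φ, h1, fun x hx => ⟨?_, ?_⟩, fun i s x hx => ?_⟩
  · have := h2 0 true x hx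
    rw [vb_true] at this; simpa using this
  · have := h2 0 false x hx
    rw [vb_false] at this; simpa using this
  · have := h2 i.succ s x hx
    simpa using this

theorem all (hI : StINS) (hGL : StGL) {T : Set X} {m : ℕ} (hC : ∀ k ≤ m, CubeExt k T)
    {A : ∀ k, Set (Cb G k)} (hA : ∀ k, ∀ c ∈ A (k + 1), ∀ i s, fc i s c ∈ A k)
    {f : ∀ k, Cb G k → (Fin k → ℝ) → X} (hf : Fam T A m f) {y0 : X}
    (hy : y0 ∈ T) : ∀ k, k + 1 ≤ m → ∀ c ∈ A k, Q T y0 f k c := by
  intro k
  induction k with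
  | zero =>
    intro hk c hc
    have h := F_zero (base hGL hC hf hy hk hc)
    exact ⟨h.1, h.2, trivial⟩
  | succ k ih =>
    intro hk c hc
    have h := F_succ (step hI hGL hC hA hf hy hk (ih (by omega)) hc)
    exact ⟨h.1, h.2.1, h.2.2⟩

end

end XCF

theorem I_CF (hI : StINS) (hGL : StGL) : StCF := by
  intro G X _ T m hC A hA f hf y0 hy
  refine ⟨XCF.F T y0 f, fun k hk c hc => ?_, fun k hk c hc i s x hx => ?_⟩
  · have h := XCF.all hI hGL hC hA hf hy k hk c hc
    exact ⟨h.1, h.2.1⟩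
  · have h := XCF.all hI hGL hC hA hf hy (k + 1) hk c hc
    exact h.2.2 i s x hx

end Pool.Agent.Work.MP_e9e200_al.TL

end

section

/-!
# Project TL: CPL, compact sets lie in a level
-/

set_option autoImplicit false

namespace Pool.Agent.Work.MP_e9e200_al.TL

open Finsupp Topology Topology.RelCWComplex Pool.Agent.Work.MP_e9e200_al.LC

namespace XCPL

theorem compact_sub {X : Type} [TopologicalSpace X] [T2Space X]
    [CWComplex (Set.univ : Set X)] (E : CWComplex.Subcomplex (Set.univ : Set X))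
    (h : {i : Σ n, cell (Set.univ : Set X) n | i.2 ∈ E.I i.1}.Finite) :
    IsCompact (E : Set X) := by
  have e : (E : Set X) = ⋃ i ∈ {i : Σ n, cell (Set.univ : Set X) n | i.2 ∈ E.I i.1},
      closedCell i.1 i.2 := by
    rw [← CWComplex.Subcomplex.union_closedCell E]
    ext x
    simp only [Set.mem_iUnion, Set.mem_setOf_eq]
    constructor
    · rintro ⟨n, j, hx⟩
      exact ⟨⟨n, j.1⟩, j.2, hx⟩
    · rintro ⟨⟨n, j⟩, hj, hx⟩
      exact ⟨n, ⟨j, hj⟩, hx⟩
  rw [e]
  exact h.isCompact_biUnion fun i _ => isCompact_closedCell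

end XCPL

theorem I_CPL (hFIN : O3.StFIN) (hFSC : O3.StFSC) : StCPL := by
  intro X _ _ _ h hh Z hZ
  have h1 := hFIN X (Set.univ : Set X) Z hZ (Set.subset_univ _)
  obtain ⟨E, hE, hI⟩ := hFSC X (Set.univ : Set X) _ h1
  have hZE : Z ⊆ (E : Set X) := by
    intro x hx
    have hu : x ∈ ⋃ (n : ℕ) (j : cell (Set.univ : Set X) n), openCell n j := by
      rw [CWComplex.iUnion_openCell_eq_complex]
      exact Set.mem_univ x
    obtain ⟨n, hn⟩ := Set.mem_iUnion.1 hu
    obtain ⟨j, hj⟩ := Set.mem_iUnion.1 hn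
    exact RelCWComplex.Subcomplex.openCell_subset_of_mem E (hI ⟨n, j⟩ ⟨x, hj, hx⟩) hj
  have hc : IsCompact (E : Set X) := XCPL.compact_sub E hE
  obtain ⟨s, hs⟩ := (hc.image hh).bddBelow
  refine ⟨s, fun x hx => ?_⟩
  unfold lev
  refine Set.mem_iUnion.2 ⟨E, Set.mem_iUnion.2 ⟨?_, hZE hx⟩⟩
  intro y hy
  exact hs ⟨y, hy, rfl⟩

end Pool.Agent.Work.MP_e9e200_al.TL

end

section

/-!
# Project TL, item ESS: essential exactness of the partial resolution
-/

set_option autoImplicit false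

namespace Pool.Agent.Work.MP_e9e200_al.TL

open Finsupp Pool.Agent.Work.MP_e9e200_al.LC

namespace XESS

open GN

variable {G : Type} [Group G] {B : Type}

theorem trc_single {k : ℕ} (g : G) (c : Cb G k) (a : ℂ) :
    trc g (single c a) = single (fun e => g * c e) a := by
  unfold trc
  rw [Finsupp.lmapDomain_apply, Finsupp.mapDomain_single]

theorem trc_trc {k : ℕ} (g h : G) (w : Cb G k →₀ ℂ) :
    trc g (trc h w) = trc (g * h) w := by
  refine lin_ext ((trc g) ∘ₗ (trc h)) (trc (g * h)) (fun c => ?_) w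
  rw [LinearMap.comp_apply, trc_single, trc_single, trc_single]
  simp only [mul_assoc]

theorem extc_single {k : ℕ} (α : B → (Cb G k →₀ ℂ)) (g : G) (b : B) :
    extc α (single (g, b) 1) = trc g (α b) := by
  unfold extc
  rw [Finsupp.linearCombination_single, one_smul]

theorem extc_tr {k : ℕ} (α : B → (Cb G k →₀ ℂ)) (g : G) (x : G × B →₀ ℂ) :
    extc α (tr ℂ g x) = trc g (extc α x) := by
  refine lin_ext ((extc α) ∘ₗ (tr ℂ g)) ((trc g) ∘ₗ (extc α)) (fun p => ?_) x
  obtain ⟨h, b⟩ := p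
  rw [LinearMap.comp_apply, LinearMap.comp_apply, tr_single, extc_single, extc_single, trc_trc]

omit [Group G] in
theorem bd_single {k : ℕ} (c : Cb G (k + 1)) :
    bd G k (single c 1) = ∑ i : Fin (k + 1), ((-1 : ℂ) ^ (i : ℕ)) •
      (single (fc i true c) (1 : ℂ) - single (fc i false c) (1 : ℂ)) := by
  unfold bd
  rw [Finsupp.linearCombination_single, one_smul]

theorem bd_trc {k : ℕ} (g : G) (w : Cb G (k + 1) →₀ ℂ) :
    bd G k (trc g w) = trc g (bd G k w) := by
  refine lin_ext ((bd G k) ∘ₗ (trc g)) ((trc g) ∘ₗ (bd G k)) (fun c => ?_) w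
  rw [LinearMap.comp_apply, LinearMap.comp_apply, trc_single, bd_single, bd_single, map_sum]
  refine Finset.sum_congr rfl fun i _ => ?_
  rw [map_smul, map_sub, trc_single, trc_single]
  rfl

omit [Group G] in
theorem eps_single {k : ℕ} (c : Cb G k) : eps G k (single c 1) = 1 := by
  unfold eps
  rw [Finsupp.linearCombination_single, one_smul]

theorem eps_trc {k : ℕ} (g : G) (w : Cb G k →₀ ℂ) : eps G k (trc g w) = eps G k w := by
  refine lin_ext ((eps G k) ∘ₗ (trc g)) (eps G k) (fun c => ?_) w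
  rw [LinearMap.comp_apply, trc_single, eps_single, eps_single]

omit [Group G] in
theorem bt_single {k : ℕ} (β : Cb G k → (G × B →₀ ℂ)) (c : Cb G k) :
    linearCombination ℂ β (single c 1) = β c := by
  rw [Finsupp.linearCombination_single, one_smul]

theorem bt_trc {k : ℕ} (β : Cb G k → (G × B →₀ ℂ))
    (hβ : ∀ (g : G) (c : Cb G k), β (fun e => g * c e) = tr ℂ g (β c)) (g : G)
    (w : Cb G k →₀ ℂ) :
    linearCombination ℂ β (trc g w) = tr ℂ g (linearCombination ℂ β w) := by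
  refine lin_ext ((linearCombination ℂ β) ∘ₗ (trc g)) ((tr ℂ g) ∘ₗ (linearCombination ℂ β))
    (fun c => ?_) w
  rw [LinearMap.comp_apply, LinearMap.comp_apply, trc_single, bt_single, bt_single, hβ]

theorem bt_extc {k : ℕ} (β : Cb G k → (G × B →₀ ℂ))
    (hβ : ∀ (g : G) (c : Cb G k), β (fun e => g * c e) = tr ℂ g (β c))
    (a : B → (Cb G k →₀ ℂ)) (x : G × B →₀ ℂ) :
    linearCombination ℂ β (extc a x) = ext ℂ (fun b => linearCombination ℂ β (a b)) x := by
  refine lin_ext ((linearCombination ℂ β) ∘ₗ (extc a))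
    (ext ℂ (fun b => linearCombination ℂ β (a b))) (fun p => ?_) x
  obtain ⟨g, b⟩ := p
  rw [LinearMap.comp_apply, extc_single, ext_single, bt_trc β hβ]

/-- lower bounds on finite sets -/
theorem exists_low (χ : Additive G →+ ℝ) {S : Set G} (hS : S.Finite) :
    ∃ C : ℝ, 0 ≤ C ∧ ∀ g ∈ S, -C ≤ χ (Additive.ofMul g) := by
  refine ⟨∑ g ∈ hS.toFinset, |χ (Additive.ofMul g)|, Finset.sum_nonneg fun _ _ => abs_nonneg _,
    fun g hg => ?_⟩
  have h1 : |χ (Additive.ofMul g)| ≤ ∑ g ∈ hS.toFinset, |χ (Additive.ofMul g)| :=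
    Finset.single_le_sum (f := fun g : G => |χ (Additive.ofMul g)|)
      (fun _ _ => abs_nonneg _) (hS.mem_toFinset.2 hg)
  have h2 := neg_abs_le (χ (Additive.ofMul g))
  linarith

/-- lower bounds for finitely many chains -/
theorem exists_low' (χ : Additive G →+ ℝ) {ι : Type} {I : Set ι} (hI : I.Finite)
    (u : ι → (G × B →₀ ℂ)) :
    ∃ C : ℝ, 0 ≤ C ∧ ∀ i ∈ I, ∀ p ∈ (u i).support, -C ≤ χ (Additive.ofMul p.1) := by
  obtain ⟨C, hC, h⟩ := exists_low χ (S := ⋃ i ∈ I, Prod.fst '' ((u i).support : Set (G × B)))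
    (hI.biUnion fun i _ => ((u i).support.finite_toSet).image _)
  refine ⟨C, hC, fun i hi p hp => h p.1 ?_⟩
  exact Set.mem_biUnion hi ⟨p, hp, rfl⟩

/-- supports of the images of the basis under `α` -/
theorem alpha_bound (χ : Additive G →+ ℝ) (m : ℕ) [Finite B] (α : ∀ d : ℕ, B → (Cb G d →₀ ℂ)) :
    ∃ (D : Set G) (C : ℝ), D.Finite ∧ 0 ≤ C ∧ ∀ t : ℝ, ∀ d ≤ m,
      ∀ x ∈ Finsupp.supported ℂ ℂ {p : G × B | p.1 ∈ hs χ t},
        extc (α d) x ∈ Finsupp.supported ℂ ℂ (CubeIn D χ (t - C) d) := by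
  set S : Set G := ⋃ d ∈ Set.Iic m, ⋃ b : B, ⋃ c ∈ ((α d b).support : Set (Cb G d)),
    Set.range c with hS
  have hSf : S.Finite := by
    refine (Set.finite_Iic m).biUnion fun d _ => Set.finite_iUnion fun b => ?_
    exact (α d b).support.finite_toSet.biUnion fun c _ => Set.finite_range c
  obtain ⟨C, hC, hCS⟩ := exists_low χ hSf
  refine ⟨Set.image2 (fun g h => g⁻¹ * h) S S, C, hSf.image2 _ hSf, hC, ?_⟩
  intro t d hd x hx
  refine lin_mem (extc (α d)) _ _ x hx ?_
  rintro ⟨g, b⟩ hg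
  have hg' : t ≤ χ (Additive.ofMul g) := hg
  rw [extc_single]
  have hself : α d b ∈ Finsupp.supported ℂ ℂ ((α d b).support : Set (Cb G d)) :=
    (Finsupp.mem_supported ℂ _).2 subset_rfl
  refine lin_mem (trc g) _ _ (α d b) hself ?_
  intro c hc
  have hcS : ∀ e, c e ∈ S := fun e =>
    Set.mem_biUnion (show d ∈ Set.Iic m from hd)
      (Set.mem_iUnion.2 ⟨b, Set.mem_biUnion hc ⟨e, rfl⟩⟩)
  rw [trc_single]
  refine Finsupp.single_mem_supported ℂ 1 ⟨fun e e' => ?_, fun e => ?_⟩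
  · have h1 : (g * c e)⁻¹ * (g * c e') = (c e)⁻¹ * c e' := by group
    show (g * c e)⁻¹ * (g * c e') ∈ _
    rw [h1]
    exact ⟨c e, hcS e, c e', hcS e', rfl⟩
  · show t - C ≤ χ (Additive.ofMul (g * c e))
    rw [ofMul_mul, map_add]
    have := hCS _ (hcS e)
    linarith

/-- supports of the images of cubes under `β` -/
theorem beta_bound (χ : Additive G →+ ℝ) (m : ℕ) (deg : B → ℕ)
    (β : ∀ k : ℕ, Cb G k → (G × B →₀ ℂ))
    (hβs : ∀ k ≤ m, ∀ c, β k c ∈ Finsupp.supported ℂ ℂ {p : G × B | deg p.2 = k})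
    (hβt : ∀ k g c, β k (fun e => g * c e) = tr ℂ g (β k c)) {D : Set G} (hD : D.Finite) :
    ∃ C : ℝ, 0 ≤ C ∧ ∀ t : ℝ, ∀ k ≤ m, ∀ w ∈ Finsupp.supported ℂ ℂ (CubeIn D χ t k),
      linearCombination ℂ (β k) w ∈
        Finsupp.supported ℂ ℂ {p : G × B | p.1 ∈ hs χ (t - C) ∧ deg p.2 = k} := by
  have key : ∀ k : ℕ, ∃ C : ℝ, 0 ≤ C ∧ ∀ c : Cb G k, (∀ e, c e ∈ D) →
      ∀ p ∈ (β k c).support, -C ≤ χ (Additive.ofMul p.1) := by
    intro k
    have hf : {c : Cb G k | ∀ e, c e ∈ D}.Finite := Set.Finite.pi' fun _ => hD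
    obtain ⟨C, hC, h⟩ := exists_low' χ hf (β k)
    exact ⟨C, hC, fun c hc => h c hc⟩
  choose C hC hCb using key
  refine ⟨∑ k ∈ Finset.range (m + 1), C k, Finset.sum_nonneg fun _ _ => hC _, ?_⟩
  intro t k hk w hw
  refine lin_mem (linearCombination ℂ (β k)) _ _ w hw ?_
  rintro c ⟨hc1, hc2⟩
  rw [bt_single]
  set o : Fin k → Bool := fun _ => false
  set c' : Cb G k := fun e => (c o)⁻¹ * c e with hc'
  have h1 : c = fun e => c o * c' e := by
    funext e
    rw [hc']
    group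
  rw [h1, hβt]
  have h2 : β k c' ∈ Finsupp.supported ℂ ℂ {p : G × B | p.1 ∈ hs χ (-C k) ∧ deg p.2 = k} := by
    rw [Finsupp.mem_supported]
    intro p hp
    exact ⟨hCb k c' (fun e => hc1 o e) p hp, (Finsupp.mem_supported ℂ _).1 (hβs k hk c') hp⟩
  refine tr_supp χ (-C k) _ (fun b => deg b = k) (c o) _ h2 ?_
  have h3 : C k ≤ ∑ k ∈ Finset.range (m + 1), C k :=
    Finset.single_le_sum (f := C) (fun _ _ => hC _) (Finset.mem_range.2 (by omega))
  have h4 := hc2 o
  linarith

end XESS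

open GN XESS in
theorem I_ESS (hAL : StAL) (hBE : StBE) (hBB : StBB) (hHT : LC.StHT) : StESS := by
  intro G _ χ _ m B _ deg db eb hP hT
  obtain ⟨α, hα1, hα2, hα3⟩ := hAL G m B deg db eb hP
  obtain ⟨β, hβ1, hβ2, hβ3, hβ4⟩ := hBE G m B deg db eb hP
  -- chains of degree zero have zero boundary
  have hdb0 : ∀ b, deg b = 0 → db b = 0 := by
    intro b hb
    rw [← Finsupp.support_eq_empty, Finset.eq_empty_iff_forall_notMem]
    intro p hp
    have h1 := (Finsupp.mem_supported ℂ _).1 (hP.db_sup b) hp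
    have h2 : deg p.2 + 1 = deg b := h1.2
    omega
  -- the maps
  have hbd : ∀ d, ∀ x ∈ Finsupp.supported ℂ ℂ {p : G × B | deg p.2 = d + 1},
      bd G d (extc (α (d + 1)) x) = extc (α d) (ext ℂ db x) := by
    intro d x hx
    refine lin_eq ((bd G d) ∘ₗ (extc (α (d + 1)))) ((extc (α d)) ∘ₗ (ext ℂ db)) _ x hx ?_
    rintro ⟨g, b⟩ hb
    rw [LinearMap.comp_apply, LinearMap.comp_apply, extc_single, ext_single, bd_trc, extc_tr,
      hα2 d b hb]
  have heps0 : ∀ x ∈ Finsupp.supported ℂ ℂ {p : G × B | deg p.2 = 0},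
      eps G 0 (extc (α 0) x) = LC.aug ℂ eb x := by
    intro x hx
    refine lin_eq ((eps G 0) ∘ₗ (extc (α 0))) (LC.aug ℂ eb) _ x hx ?_
    rintro ⟨g, b⟩ hb
    rw [LinearMap.comp_apply, extc_single, aug_single, eps_trc, hα1 b hb]
  have heps1 : ∀ d, ∀ x ∈ Finsupp.supported ℂ ℂ {p : G × B | deg p.2 = d + 1},
      eps G (d + 1) (extc (α (d + 1)) x) = 0 := by
    intro d x hx
    refine lin_eq ((eps G (d + 1)) ∘ₗ (extc (α (d + 1)))) 0 _ x hx ?_
    rintro ⟨g, b⟩ hb
    rw [LinearMap.comp_apply, extc_single, LinearMap.zero_apply, eps_trc, hα3 d b hb]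
  have hbt : ∀ k, k + 1 ≤ m → ∀ w : Cb G (k + 1) →₀ ℂ,
      ext ℂ db (linearCombination ℂ (β (k + 1)) w) = linearCombination ℂ (β k) (bd G k w) := by
    intro k hk w
    refine lin_ext ((ext ℂ db) ∘ₗ (linearCombination ℂ (β (k + 1))))
      ((linearCombination ℂ (β k)) ∘ₗ (bd G k)) (fun c => ?_) w
    rw [LinearMap.comp_apply, LinearMap.comp_apply, bt_single, hβ4 k hk c]
  have haug0 : ∀ w : Cb G 0 →₀ ℂ, LC.aug ℂ eb (linearCombination ℂ (β 0) w) = eps G 0 w := by
    intro w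
    refine lin_ext ((LC.aug ℂ eb) ∘ₗ (linearCombination ℂ (β 0))) (eps G 0) (fun c => ?_) w
    rw [LinearMap.comp_apply, bt_single, hβ3, eps_single]
  have hbsup : ∀ k ≤ m, ∀ w : Cb G k →₀ ℂ, linearCombination ℂ (β k) w ∈
      Finsupp.supported ℂ ℂ {p : G × B | deg p.2 = k} := by
    intro k hk w
    refine lin_mem (linearCombination ℂ (β k)) _ Set.univ w (by simp) (fun c _ => ?_)
    rw [bt_single]
    exact hβ1 k hk c
  -- the composition
  obtain ⟨γ, hγ⟩ : ∃ γ : B → (G × B →₀ ℂ), ∀ d b, deg b = d →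
      γ b = linearCombination ℂ (β d) (α d b) :=
    ⟨fun b => linearCombination ℂ (β (deg b)) (α (deg b) b), fun d b hb => by subst hb; rfl⟩
  have hP' : PRes ℂ ((⊤ : Submonoid G) : Set G) m B deg db eb := by
    rw [Submonoid.coe_top]; exact hP
  have hdbs : ∀ d b, deg b = d + 1 →
      db b ∈ Finsupp.supported ℂ ℂ {p : G × B | deg p.2 = d} := by
    intro d b hb
    refine supp_mono ?_ (hP.db_sup b)
    intro p hp
    have h2 : deg p.2 + 1 = deg b := hp.2
    show deg p.2 = d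
    omega
  have hγs : ∀ b, γ b ∈ Finsupp.supported ℂ ℂ {p : G × B | deg p.2 = deg b} := by
    intro b
    rw [hγ (deg b) b rfl]
    exact hbsup (deg b) (hP.le b) _
  have hγe : ∀ d, ∀ x ∈ Finsupp.supported ℂ ℂ {p : G × B | deg p.2 = d},
      ext ℂ γ x = linearCombination ℂ (β d) (extc (α d) x) := by
    intro d x hx
    rw [bt_extc (β d) (hβ2 d)]
    exact ext_congr _ _ (fun b => deg b = d) x hx (fun b hb => hγ d b hb)
  have hdz : ∀ x ∈ Finsupp.supported ℂ ℂ {p : G × B | deg p.2 = 0}, ext ℂ db x = 0 := by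
    intro x hx
    refine lin_eq (ext ℂ db) 0 _ x hx ?_
    rintro ⟨g, b⟩ hb
    rw [ext_single, hdb0 b hb, map_zero, LinearMap.zero_apply]
  have hγd : ∀ b, ext ℂ db (γ b) = ext ℂ γ (db b) := by
    intro b
    rcases h : deg b with _ | d
    · rw [hdb0 b h, map_zero]
      refine hdz _ ?_
      have := hγs b
      rwa [h] at this
    · have h1 : d + 1 ≤ m := h ▸ hP.le b
      rw [hγ (d + 1) b h, hbt d h1, hα2 d b h, hγe d (db b) (hdbs d b h)]
  have hγa : ∀ b, LC.aug ℂ eb (γ b) = eb b := by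
    intro b
    rcases h : deg b with _ | d
    · rw [hγ 0 b h, haug0, hα1 b h]
    · rw [hP.eb_deg b (by omega)]
      refine lin_eq (LC.aug ℂ eb) 0 _ _ (hγs b) ?_
      rintro ⟨g, b'⟩ hb'
      have h2 : deg b' = deg b := hb'
      rw [aug_single, hP.eb_deg b' (by omega), LinearMap.zero_apply]
  have hγs' : ∀ b, γ b ∈ Finsupp.supported ℂ ℂ
      {p : G × B | p.1 ∈ (⊤ : Submonoid G) ∧ deg p.2 = deg b} := by
    intro b
    refine supp_mono ?_ (hγs b)
    intro p hp
    exact ⟨Submonoid.mem_top _, hp⟩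
  obtain ⟨s, hs1, hs2⟩ := hHT G ⊤ m B deg db eb hP' γ hγs' hγd hγa
  -- the constants
  obtain ⟨D, C1, hD, hC1, hαb⟩ := alpha_bound χ m α
  obtain ⟨D', C', hD', hC', hTc⟩ := hT D hD
  obtain ⟨C2, hC2, hβb⟩ := beta_bound χ m deg β hβ1 hβ2 hD'
  obtain ⟨C3, hC3, hsb⟩ := exists_low' χ (Set.finite_univ (α := B)) s
  obtain ⟨C4, hC4, hdbb⟩ := exists_low' χ (Set.finite_univ (α := B)) db
  refine ⟨C1 + C' + C2 + C3 + C4, by positivity, fun b => ?_, ?_⟩
  · rw [Finsupp.mem_supported]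
    intro p hp
    have h1 := hdbb b (Set.mem_univ b) p hp
    show -(C1 + C' + C2 + C3 + C4) ≤ χ (Additive.ofMul p.1)
    linarith
  intro t d hd x hx hdx hax
  have hxd : x ∈ Finsupp.supported ℂ ℂ {p : G × B | deg p.2 = d} := supp_mono (fun p hp => hp.2) hx
  have hz1 : extc (α d) x ∈ Finsupp.supported ℂ ℂ (CubeIn D χ (t - C1) d) :=
    hαb t d hd.le x (supp_mono (fun p hp => hp.1) hx)
  have hz2 : Cyc d (extc (α d) x) := by
    rcases d with _ | d
    · show eps G 0 (extc (α 0) x) = 0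
      rw [heps0 x hxd, hax]
    · refine ⟨?_, heps1 d x hxd⟩
      rw [hbd d x hxd, hdx, map_zero]
  obtain ⟨w, hw, hwz⟩ := hTc (t - C1) d hd _ hz1 hz2
  refine ⟨linearCombination ℂ (β (d + 1)) w + ext ℂ s x, ?_, ?_⟩
  · refine Submodule.add_mem _ ?_ ?_
    · refine supp_mono ?_ (hβb _ (d + 1) hd w hw)
      rintro p ⟨h1, h2⟩
      refine ⟨?_, h2⟩
      have h3 : t - C1 - C' - C2 ≤ χ (Additive.ofMul p.1) := h1
      show t - (C1 + C' + C2 + C3 + C4) ≤ χ (Additive.ofMul p.1)
      linarith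
    · refine ext_supp χ t (-C3) _ (fun b => deg b = d) (fun b => deg b = d + 1) s ?_ x hx
        (by linarith)
      intro b hb
      rw [Finsupp.mem_supported]
      intro p hp
      have h1 := (Finsupp.mem_supported ℂ _).1 (hs1 b) hp
      have h2 : deg p.2 = deg b + 1 := h1.2
      refine ⟨hsb b (Set.mem_univ b) p hp, ?_⟩
      show deg p.2 = d + 1
      rw [h2, hb]
  · rw [map_add, hbt d hd, hwz, ← hγe d x hxd]
    have h1 : ext ℂ db (ext ℂ s x) + ext ℂ s (ext ℂ db x) = x - ext ℂ γ x := by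
      refine lin_eq ((ext ℂ db) ∘ₗ (ext ℂ s) + (ext ℂ s) ∘ₗ (ext ℂ db))
        (LinearMap.id - ext ℂ γ) _ x hxd ?_
      rintro ⟨g, b⟩ hb
      have hb' : deg b = d := hb
      simp only [LinearMap.add_apply, LinearMap.comp_apply, LinearMap.sub_apply,
        LinearMap.id_apply]
      rw [ext_single, ext_single, ext_single, ext_tr, ext_tr, ← map_add,
        hs2 b (by omega), map_sub, tr_single, mul_one]
    rw [hdx, map_zero, add_zero] at h1
    rw [h1]
    abel

end Pool.Agent.Work.MP_e9e200_al.TL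

end

section

/-!
# Project TL: insertions (INS)
-/

set_option autoImplicit false

namespace Pool.Agent.Work.MP_e9e200_al.TL

namespace XINS

theorem ins_lt {α : Type} {k : ℕ} (i : Fin (k + 1)) (s : α) (e : Fin k → α) (l : ℕ)
    (hl : l < k + 1) (hk : l < k) (h : l < (i : ℕ)) : ins i s e ⟨l, hl⟩ = e ⟨l, hk⟩ := by
  have h1 : i.succAbove ⟨l, hk⟩ = ⟨l, hl⟩ := by
    rw [Fin.succAbove_of_castSucc_lt]
    · rfl
    · exact Fin.lt_def.2 h
  rw [← h1, ins_succAbove]

theorem ins_gt {α : Type} {k : ℕ} (i : Fin (k + 1)) (s : α) (e : Fin k → α) (l : ℕ)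
    (hl : l + 1 < k + 1) (hk : l < k) (h : (i : ℕ) < l + 1) :
    ins i s e ⟨l + 1, hl⟩ = e ⟨l, hk⟩ := by
  have h1 : i.succAbove ⟨l, hk⟩ = ⟨l + 1, hl⟩ := by
    rw [Fin.succAbove_of_le_castSucc]
    · rfl
    · exact Fin.le_def.2 (Nat.lt_succ_iff.1 h)
  rw [← h1, ins_succAbove]

theorem ins_eq {α : Type} {k : ℕ} (i : Fin (k + 1)) (s : α) (e : Fin k → α) (l : ℕ)
    (hl : l < k + 1) (h : l = (i : ℕ)) : ins i s e ⟨l, hl⟩ = s := by
  have h1 : (⟨l, hl⟩ : Fin (k + 1)) = i := Fin.ext h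
  rw [h1, ins_same]

theorem comm {α : Type} {k : ℕ} (i j : Fin (k + 1)) (s t : α) (e : Fin k → α) (hij : i ≤ j) :
    ins i.castSucc s (ins j t e) = ins j.succ t (ins i s e) := by
  funext l
  obtain ⟨l, hl⟩ := l
  have hij' : (i : ℕ) ≤ j := hij
  have hi := i.2
  have hj := j.2
  have ci : ((i.castSucc : Fin (k + 2)) : ℕ) = i := rfl
  have cj : ((j.succ : Fin (k + 2)) : ℕ) = j + 1 := rfl
  rcases lt_trichotomy l (i : ℕ) with h1 | h1 | h1
  · rw [ins_lt i.castSucc s _ l hl (by omega) (by omega),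
      ins_lt j t e l (by omega) (by omega) (by omega),
      ins_lt j.succ t _ l hl (by omega) (by omega),
      ins_lt i s e l (by omega) (by omega) (by omega)]
  · rw [ins_eq i.castSucc s _ l hl (by omega),
      ins_lt j.succ t _ l hl (by omega) (by omega),
      ins_eq i s e l (by omega) h1]
  · obtain ⟨m, rfl⟩ : ∃ m, l = m + 1 := ⟨l - 1, by omega⟩
    rw [ins_gt i.castSucc s _ m hl (by omega) (by omega)]
    rcases lt_trichotomy m (j : ℕ) with h2 | h2 | h2
    · rw [ins_lt j t e m (by omega) (by omega) (by omega),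
        ins_lt j.succ t _ (m + 1) hl (by omega) (by omega),
        ins_gt i s e m (by omega) (by omega) (by omega)]
    · rw [ins_eq j t e m (by omega) h2, ins_eq j.succ t _ (m + 1) hl (by omega)]
    · obtain ⟨n, rfl⟩ : ∃ n, m = n + 1 := ⟨m - 1, by omega⟩
      rw [ins_gt j t e n (by omega) (by omega) (by omega),
        ins_gt j.succ t _ (n + 1) hl (by omega) (by omega),
        ins_gt i s e n (by omega) (by omega) (by omega)]

theorem inj {α : Type} {k : ℕ} {i : Fin (k + 1)} {a b : α} {x y : Fin k → α}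
    (h : ins i a x = ins i b y) : a = b ∧ x = y := by
  constructor
  · have := congrFun h i
    rwa [ins_same, ins_same] at this
  · funext l
    have := congrFun h (i.succAbove l)
    rwa [ins_succAbove, ins_succAbove] at this

/-- the case of different positions -/
theorem main {α : Type} {k : ℕ} (i j : Fin (k + 2)) (a b : α) (x y : Fin (k + 1) → α)
    (h : ins i a x = ins j b y) (hij : i < j) : ∃ (i' j' : Fin (k + 1)) (z : Fin k → α),
      i' ≤ j' ∧ i = i'.castSucc ∧ j = j'.succ ∧ x = ins j' b z ∧ y = ins i' a z := by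
  have hij' : (i : ℕ) < j := hij
  have hj := j.2
  obtain ⟨i', rfl⟩ : ∃ i' : Fin (k + 1), i = i'.castSucc := ⟨⟨i, by omega⟩, rfl⟩
  obtain ⟨j', rfl⟩ : ∃ j' : Fin (k + 1), j = j'.succ :=
    ⟨⟨(j : ℕ) - 1, by omega⟩, Fin.ext (by simp only [Fin.val_succ]; omega)⟩
  have hle : i' ≤ j' := by
    have c1 : ((i'.castSucc : Fin (k + 2)) : ℕ) = i' := rfl
    have c2 : ((j'.succ : Fin (k + 2)) : ℕ) = j' + 1 := rfl
    exact Fin.le_def.2 (by omega)
  have hx : x j' = b := by
    have h1 := congrFun h j'.succ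
    rw [ins_same] at h1
    have h2 : (i'.castSucc : Fin (k + 2)).succAbove j' = j'.succ := by
      rw [Fin.succAbove_of_le_castSucc]
      exact Fin.castSucc_le_castSucc_iff.2 hle
    rwa [← h2, ins_succAbove] at h1
  have hz : x = ins j' b (fun l => x (j'.succAbove l)) := by
    conv_lhs => rw [← ins_self j' x]
    rw [hx]
  refine ⟨i', j', fun l => x (j'.succAbove l), hle, rfl, rfl, hz, ?_⟩
  rw [hz] at h
  rw [comm i' j' a b _ hle] at h
  exact ((inj h).2).symm

end XINS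

/-- INS: the identities of insertions -/
theorem I_INS : StINS := by
  refine ⟨fun α k i j s t e hij => XINS.comm i j s t e hij, fun α k i j a b x y h => ?_⟩
  rcases lt_trichotomy i j with hij | hij | hij
  · right
    obtain ⟨i', j', z, hle, rfl, rfl, hx, hy⟩ := XINS.main i j a b x y h hij
    exact ⟨i', j', z, hx, hy, fun β s t e => XINS.comm i' j' s t e hle⟩
  · left
    subst hij
    exact ⟨rfl, (XINS.inj h).1, (XINS.inj h).2⟩
  · right
    obtain ⟨j', i', z, hle, rfl, rfl, hy, hx⟩ := XINS.main j i b a y x h.symm hij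
    exact ⟨i', j', z, hx, hy, fun β s t e => (XINS.comm j' i' t s e hle).symm⟩

end Pool.Agent.Work.MP_e9e200_al.TL

end

section

/-!
# Project TL, item LAR: the largest subcomplexes
-/

set_option autoImplicit false

namespace Pool.Agent.Work.MP_e9e200_al.TL

open Set Metric Topology Topology.RelCWComplex

namespace XLAR

section

variable {X : Type} [TopologicalSpace X] [CWComplex (univ : Set X)]

theorem mem_lev (h : X → ℝ) (s : ℝ) (x : X) : x ∈ lev h s ↔
    ∃ Y : CWComplex.Subcomplex (univ : Set X), (Y : Set X) ⊆ {x | s ≤ h x} ∧ x ∈ (Y : Set X) := by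
  unfold lev
  simp only [mem_iUnion, exists_prop]

/-- a point of a subcomplex lies in an open cell of the subcomplex -/
theorem mem_sub (Y : CWComplex.Subcomplex (univ : Set X)) (x : X) : x ∈ (Y : Set X) ↔
    ∃ (n : ℕ) (e : cell (univ : Set X) n), e ∈ Y.I n ∧ x ∈ openCell n e := by
  rw [← CWComplex.Subcomplex.union (E := Y)]
  simp only [mem_iUnion]
  constructor
  · rintro ⟨n, ⟨e, he⟩, hx⟩
    exact ⟨n, e, he, hx⟩
  · rintro ⟨n, e, he, hx⟩
    exact ⟨n, ⟨e, he⟩, hx⟩

theorem exists_lev [T2Space X] (h : X → ℝ) (s : ℝ) :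
    ∃ Y : CWComplex.Subcomplex (univ : Set X), (Y : Set X) = lev h s := by
  refine ⟨CWComplex.Subcomplex.mk' univ (lev h s)
    (fun n => {e | ∃ Y : CWComplex.Subcomplex (univ : Set X), (Y : Set X) ⊆ {x | s ≤ h x} ∧
      e ∈ Y.I n}) ?_ ?_, rfl⟩
  · rintro n ⟨e, Y, hY, he⟩ x hx
    exact (mem_lev h s x).2 ⟨Y, hY, RelCWComplex.Subcomplex.closedCell_subset_of_mem Y he hx⟩
  · ext x
    rw [mem_lev]
    simp only [mem_iUnion]
    constructor
    · rintro ⟨n, ⟨e, Y, hY, he⟩, hx⟩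
      exact ⟨Y, hY, (mem_sub Y x).2 ⟨n, e, he, hx⟩⟩
    · rintro ⟨Y, hY, hx⟩
      obtain ⟨n, e, he, hx'⟩ := (mem_sub Y x).1 hx
      exact ⟨n, ⟨e, Y, hY, he⟩, hx'⟩

/-- the translate of a subcomplex is a subcomplex -/
theorem exists_tr [T2Space X] {G : Type} [Group G] [MulAction G X] (hG : O3.IsFreeGCW G X) (g : G)
    (Y : CWComplex.Subcomplex (univ : Set X)) :
    ∃ Y' : CWComplex.Subcomplex (univ : Set X),
      (Y' : Set X) = (fun x => g • x) '' (Y : Set X) := by
  refine ⟨CWComplex.Subcomplex.mk' univ ((fun x => g • x) '' (Y : Set X))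
    (fun n => {e' | ∃ e ∈ Y.I n, ∀ x ∈ closedBall (0 : Fin n → ℝ) 1,
      map n e' x = g • map n e x}) ?_ ?_, rfl⟩
  · rintro n ⟨e', e, he, h⟩ _ ⟨y, hy, rfl⟩
    refine ⟨map n e y, RelCWComplex.Subcomplex.closedCell_subset_of_mem Y he ⟨y, hy, rfl⟩, ?_⟩
    exact (h y hy).symm
  · ext x
    simp only [mem_iUnion]
    constructor
    · rintro ⟨n, ⟨e', e, he, h⟩, y, hy, rfl⟩
      refine ⟨map n e y, (mem_sub Y _).2 ⟨n, e, he, y, hy, rfl⟩, ?_⟩
      exact (h y (ball_subset_closedBall hy)).symm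
    · rintro ⟨y, hy, rfl⟩
      obtain ⟨n, e, he, z, hz, rfl⟩ := (mem_sub Y y).1 hy
      obtain ⟨e', he'⟩ := hG.perm g n e
      exact ⟨n, ⟨e', e, he, he'⟩, z, hz, he' z (ball_subset_closedBall hz)⟩

end

end XLAR

open XLAR in
theorem I_LAR (hSK : O3.StSK) : StLAR := by
  intro X _ _ _ h
  refine ⟨exists_lev h, fun s x hx => ?_, fun s s' hs x hx => ?_, ?_⟩
  · obtain ⟨Y, hY, hx'⟩ := (mem_lev h s x).1 hx
    exact hY hx'
  · obtain ⟨Y, hY, hx'⟩ := (mem_lev h s' x).1 hx
    exact (mem_lev h s x).2 ⟨Y, fun y hy => hs.trans (hY hy), hx'⟩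
  · intro G _ _ hG g
    refine ⟨fun c hc s x hx => ?_, fun m x hx => ?_⟩
    · obtain ⟨Y, hY, hx'⟩ := (mem_lev h s x).1 hx
      obtain ⟨Y', hY'⟩ := exists_tr hG g Y
      refine (mem_lev h (s + c) _).2 ⟨Y', ?_, ?_⟩
      · rw [hY']
        rintro _ ⟨y, hy, rfl⟩
        have h1 : s ≤ h y := hY hy
        change s + c ≤ h (g • y)
        rw [hc]
        linarith
      · rw [hY']
        exact ⟨x, hx', rfl⟩
    · unfold skm O3.sk at hx ⊢
      simp only [mem_iUnion, exists_prop] at hx ⊢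
      obtain ⟨n, hn, e, y, hy, rfl⟩ := hx
      obtain ⟨e', he'⟩ := hG.perm g n e
      exact ⟨n, hn, e', y, hy, he' y hy⟩

end Pool.Agent.Work.MP_e9e200_al.TL

end

section

/-!
# Project TL: item LOW
-/

set_option autoImplicit false

namespace Pool.Agent.Work.MP_e9e200_al.TL

open Finsupp Topology Topology.RelCWComplex Pool.Agent.Work.MP_e9e200_al.LC

theorem I_LOW (hPRL : StPRL) (hL : HT.StLOW1) : StLOW := by
  intro m G _ _ hm hmet hFP v hv
  exact ⟨hv.1, fun hs => hL m G hm hmet v hv (hPRL G m hFP v hs)⟩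

end Pool.Agent.Work.MP_e9e200_al.TL

end

section

/-!
# Project TL: item PRL
-/

set_option autoImplicit false

namespace Pool.Agent.Work.MP_e9e200_al.TL

open Finsupp Topology Topology.RelCWComplex Pool.Agent.Work.MP_e9e200_al.LC

namespace XPRL

theorem cpx {G : Type} [Group G] {m : ℕ} {B : Type} {deg : B → ℕ} {db : B → (G × B →₀ ℂ)}
    {eb : B → ℂ} (h : PRes ℂ (Set.univ : Set G) m B deg db eb) : Cpx B deg db eb where
  db_sup := fun b => Finsupp.supported_mono (fun _ hp => hp.2) (h.db_sup b)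
  eb_deg := h.eb_deg
  dd := h.dd
  ed := h.ed
  surj := by
    obtain ⟨x, hx, hx'⟩ := h.surj
    exact ⟨x, Finsupp.supported_mono (fun _ hp => hp.2) hx, hx'⟩

end XPRL

theorem I_PRL (hTOP : StTOP) (hESS : StESS) (hT : LZ.StTOP) (hCHU : LZ.StCHU)
    (hPRS : HT.StPRS) : StPRL := by
  intro G _ m hFP χ hχ
  obtain ⟨hne, X, i1, i2, i3, i4, hfree, hconn, hfin, h, hcont, heq, hhalf⟩ := hχ
  obtain ⟨B, hB, deg, db, eb, hP⟩ := hT G m hFP
  obtain ⟨db', eb', hP'⟩ := hCHU G m B deg db eb hP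
  have hTC : TopC G χ m := hTOP G X hfree m χ hne hconn hfin h hcont heq hhalf
  obtain ⟨C, hE⟩ := hESS G χ hne m B deg db' eb' hP' hTC
  exact hPRS G χ hne C m B deg db' eb' (XPRL.cpx hP') hE

end Pool.Agent.Work.MP_e9e200_al.TL

end

section

/-!
# Project TL: item SKL (cellular approximation for cubes in a subcomplex)
-/

set_option autoImplicit false

namespace Pool.Agent.Work.MP_e9e200_al.TL

open Set Metric Topology Topology.RelCWComplex

namespace XSKL

/-- the skeleta of a subcomplex -/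
theorem sk_eq (hSK : O3.StSK) (X : Type) [TopologicalSpace X] [T2Space X]
    [CWComplex (Set.univ : Set X)] (Y : CWComplex.Subcomplex (Set.univ : Set X)) (n : ℕ) :
    O3.sk (Y : Set X) n = (Y : Set X) ∩ O3.sk (Set.univ : Set X) n := by
  apply Set.Subset.antisymm
  · intro x hx
    simp only [O3.sk, mem_iUnion] at hx
    obtain ⟨m, hm, e, he⟩ := hx
    have h1 : x ∈ closedCell (C := (univ : Set X)) m e.1 := he
    refine ⟨CWComplex.Subcomplex.closedCell_subset_of_mem Y e.2 h1, ?_⟩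
    simp only [O3.sk, mem_iUnion]
    exact ⟨m, hm, e.1, h1⟩
  · rintro x ⟨hxY, hx⟩
    have h2 := (hSK X univ).2.1 n
    rw [h2] at hx
    simp only [mem_iUnion] at hx
    obtain ⟨m, hm, e, he⟩ := hx
    have hI : e ∈ Y.I m := by
      by_contra hne
      exact (CWComplex.Subcomplex.disjoint_openCell_subcomplex_of_not_mem Y hne).le_bot ⟨he, hxY⟩
    simp only [O3.sk, mem_iUnion]
    exact ⟨m, hm, ⟨e, hI⟩, openCell_subset_closedCell m e he⟩

end XSKL

theorem I_SKL (hCAP : O3.StCAP) (hSK : O3.StSK) : StSKL := by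
  intro X _ _ _ Y k m hkm hY φ hφ hm
  have hsk := XSKL.sk_eq hSK X Y (m + 1)
  obtain ⟨Φ, hΦc, hΦm, hΦe⟩ := hY φ hφ (fun x hx => (hm hx).1)
  have hsph : MapsTo Φ (sphere 0 1) (O3.sk (Y : Set X) (m + 1)) := by
    intro x hx
    rw [hsk, hΦe hx]
    exact hm hx
  obtain ⟨H, hHc, hH1, hH2⟩ := hCAP X (Y : Set X) k (m + 1) Φ (by omega) hΦc hΦm hsph
  refine ⟨fun x => H (1, x), ?_, ?_, ?_⟩
  · refine hHc.comp (Continuous.continuousOn (by fun_prop)) ?_
    intro x hx
    exact ⟨⟨zero_le_one, le_rfl⟩, hx⟩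
  · intro x hx
    have h := (hH2 x hx).2
    rw [hsk] at h
    exact h
  · intro x hx
    have h1 := (hH1 1 ⟨zero_le_one, le_rfl⟩ x (dII_subset k hx)).2 (hsph hx)
    exact h1.trans (hΦe hx)

end Pool.Agent.Work.MP_e9e200_al.TL

end

section

set_option autoImplicit false

namespace Pool.Agent.Work.MP_e9e200_al.TL

open Finsupp Topology Topology.RelCWComplex Pool.Agent.Work.MP_e9e200_al.LC

namespace XTOP

/-- the whole complex as a subcomplex -/
theorem exists_univ (X : Type) [TopologicalSpace X] [T2Space X] [CWComplex (Set.univ : Set X)] :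
    ∃ Y : CWComplex.Subcomplex (Set.univ : Set X), (Y : Set X) = Set.univ :=
  ⟨RelCWComplex.skeletonLT (Set.univ : Set X) ⊤, RelCWComplex.skeletonLT_top⟩

theorem fc_mem {G : Type} [Group G] {D : Set G} {χ : Additive G →+ ℝ} {t : ℝ} {k : ℕ}
    {c : Cb G (k + 1)} (hc : c ∈ CubeIn D χ t (k + 1)) (i : Fin (k + 1)) (s : Bool) :
    fc i s c ∈ CubeIn D χ t k :=
  ⟨fun e e' => hc.1 _ _, fun e => hc.2 _⟩

end XTOP

theorem I_TOP (hSKL : StSKL) (hLAR : StLAR) (hEQ : StEQ) (hNB : StNB) (hLEV : StLEV)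
    (hBDD : StBDD) (hASB : StASB) : StTOP := by
  intro G X _ _ _ _ _ hfree m χ hχ hconn hfin h hcont hh hhalf D hD
  have hXne : Nonempty X := ⟨(hconn 0).1.some⟩
  have hsk : ∀ k ≤ m, CubeExt k (skm X m) := by
    intro k hk
    obtain ⟨Y, hY⟩ := XTOP.exists_univ X
    have h1 : CubeExt k (Set.univ : Set X) := cubeExt_of_conn (hconn k) k le_rfl
    have h2 := hSKL X Y k m hk (by rw [hY]; exact h1)
    rwa [hY, Set.univ_inter] at h2
  have hskne : (skm X m).Nonempty := cubeExt_zero.1 (hsk 0 (Nat.zero_le _))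
  obtain ⟨l1, l2, l3, l4⟩ := hLAR X h
  have hinv : ∀ g : G, ∀ x ∈ skm X m, g • x ∈ skm X m := fun g x hx => (l4 G hfree g).2 m x hx
  obtain ⟨f, hf, hfe⟩ := hEQ G X hfree.cont (skm X m) hinv hskne m hsk
  obtain ⟨γ, B, Cg, hco⟩ := hNB G X hfree m hfin χ h hcont hh
  obtain ⟨D1, C1, hD1, hC1, hbd⟩ := hBDD G X hfree m χ h hcont hh γ B Cg hco f hf hfe D hD
  obtain ⟨C0, hC0, hlev⟩ := hLEV G X hfree m χ hχ h hh hhalf
  set P : Set G := D ∪ D1 with hP
  have hPfin : P.Finite := hD.union hD1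
  refine ⟨Set.image2 (fun a b => a⁻¹ * b) P P ∪ B, C1 + C0 + |Cg|,
    (hPfin.image2 _ hPfin).union hco.fin, by positivity, ?_⟩
  intro t k hk z hz hcyc
  obtain ⟨s', hs1, hs2, hext⟩ := hlev (t - C1 - C0)
  set T : Set X := lev h s' ∩ skm X m with hT
  have hTne : T.Nonempty := cubeExt_zero.1 (hext 0 (Nat.zero_le _))
  have hsub : lev h (t - C1) ⊆ lev h s' := l3 _ _ (by linarith)
  have hfam : Fam T (fun j => CubeIn D χ t j) m f := by
    refine ⟨fun j hj c hc => ⟨(hf.box j hj c (Set.mem_univ _)).1, fun x hx => ⟨?_, ?_⟩⟩,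
      fun j hj c _ i s x hx => hf.face j hj c (Set.mem_univ _) i s x hx⟩
    · exact hsub (hbd j hj t c hc x hx).1
    · exact (hf.box j hj c (Set.mem_univ _)).2 hx
  obtain ⟨w, hw, hbw⟩ := hASB G X T γ B m hTne hext (by
    intro x hx
    obtain ⟨U, hU, hxU, hUB⟩ := hco.nb x hx.2
    exact ⟨U, hU, hxU, fun y hy y' hy' => hUB y ⟨hy.1, hy.2.2⟩ y' ⟨hy'.1, hy'.2.2⟩⟩)
    (fun j => CubeIn D χ t j) (fun j c hc i s => XTOP.fc_mem hc i s) f hfam k hk z hz hcyc
  refine ⟨w, ?_, hbw⟩
  refine Finsupp.supported_mono ?_ hw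
  have habs : Cg ≤ |Cg| := le_abs_self _
  rintro c' (⟨c, hc, hlab⟩ | ⟨hB, hlab⟩)
  · have hkm : k ≤ m := hk.le
    have hx1 : ∀ e, (c (fun _ => false))⁻¹ * c' e ∈ P ∧
        t - (C1 + C0 + |Cg|) ≤ χ (Additive.ofMul (c' e)) := by
      intro e
      rcases hlab e with ⟨e', he'⟩ | ⟨x, hx, he'⟩
      · rw [he']
        refine ⟨Or.inl (hc.1 _ _), ?_⟩
        have := hc.2 e'
        have h0 := abs_nonneg Cg
        linarith
      · rw [he']
        have h1 := hbd k hkm t c hc x hx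
        refine ⟨Or.inr (h1.2 _), ?_⟩
        have h2 : t - C1 ≤ h (f k c x) := l2 _ h1.1
        have h3 := hco.ht (f k c x) ((hf.box k hkm c (Set.mem_univ _)).2 hx)
        have h4 := (abs_le.1 h3).2
        linarith
    refine ⟨fun e e' => Or.inl ⟨_, (hx1 e).1, _, (hx1 e').1, ?_⟩, fun e => (hx1 e).2⟩
    simp only [mul_inv_rev, inv_inv]
    group
  · refine ⟨fun e e' => Or.inr (hB e e'), fun e => ?_⟩
    obtain ⟨y, hy, he⟩ := hlab e
    rw [he]
    have h2 : s' ≤ h y := l2 _ hy.1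
    have h3 := (abs_le.1 (hco.ht y hy.2)).2
    linarith

end Pool.Agent.Work.MP_e9e200_al.TL

end
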