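import Pool.Agent.Work.MP_e9e200_al.Bd.B13
import Pool.Agent.Work.MP_e9e200_al.Bd.B22

/-! Bundle of small proof modules (one section per former module). -/

section

/-!
# Project UP: thin sets which are not close to a bad direction are good
-/

set_option autoImplicit false

namespace Pool.Agent.Work.MP_e9e200_al.UP

open Finsupp

namespace A10

lemma inner_rv {n : ℕ} (a b : Fin n → ℤ) :
    inner ℝ (rv a) (rv b) = ((dt a b : ℤ) : ℝ) := by
  rw [dt, rv, rv, PiLp.inner_apply]
  push_cast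
  refine Finset.sum_congr rfl fun i _ => ?_
  simp [mul_comm]

lemma rv_ne {n : ℕ} {a : Fin n → ℤ} (h : a ≠ 0) : rv a ≠ 0 := by
  intro h0
  apply h
  funext i
  have h1 := congrArg (fun x : EuclideanSpace ℝ (Fin n) => x i) h0
  have h2 : ((a i : ℤ) : ℝ) = 0 := h1
  exact_mod_cast h2

lemma norm_un {E : Type} [NormedAddCommGroup E] [NormedSpace ℝ E] {x : E} (h : x ≠ 0) :
    ‖un x‖ = 1 := by
  rw [un, norm_smul, norm_inv, norm_norm, inv_mul_cancel₀ (norm_ne_zero_iff.2 h)]

lemma inner_un {E : Type} [NormedAddCommGroup E] [InnerProductSpace ℝ E] {x : E} (h : x ≠ 0)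
    (y : E) : inner ℝ x y = ‖x‖ * inner ℝ (un x) y := by
  rw [un, real_inner_smul_left, ← mul_assoc, mul_inv_cancel₀ (norm_ne_zero_iff.2 h), one_mul]

end A10

theorem I_A10 (h3 : StA3) (h4 : StA4) : StA10 := by
  intro Q _ M _ _ n κ hκ hs T hT D d hd ρ hρ hρ4 τ p hp hτ hbad
  refine h3 Q M n κ hκ hs T hT D d τ p ?_ ?_
  · intro i hi
    have hne := A10.rv_ne (hd i)
    rw [A10.inner_un hne]
    have hu := A10.norm_un hne
    refine mul_pos (norm_pos_iff.2 hne) ?_
    have h1 := norm_sub_sq_real (un (rv (d i))) p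
    rw [hu, hp] at h1
    have h2 := hτ i hi
    have h5 : ‖un (rv (d i)) - p‖ ^ 2 ≤ (1 / 4) ^ 2 :=
      pow_le_pow_left₀ (norm_nonneg _) (h2.trans hρ4) 2
    nlinarith
  · intro v hv hdual
    refine hbad v hv ?_
    refine h4 (EuclideanSpace ℝ (Fin n)) D τ (fun i => un (rv (d i))) p v ρ hρ hρ4 hp hv
      (fun i _ => A10.norm_un (A10.rv_ne (hd i))) hτ ?_
    intro x hx
    refine hdual x fun i hi => ?_
    rw [A10.inner_un (A10.rv_ne (hd i))]
    exact mul_nonneg (norm_nonneg _) (hx i hi)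

end Pool.Agent.Work.MP_e9e200_al.UP

end

section

/-!
# Project UP: item A11, sets covered by `m` clusters around bad directions
-/

set_option autoImplicit false

namespace Pool.Agent.Work.MP_e9e200_al.UP

namespace A11

lemma un_cover {ι : Type} [DecidableEq ι] {Δ : Set (Finset ι)} (m : ℕ) :
    ∀ I : Finset ι, Un Δ m I → ∃ σ : Fin m → Finset ι, (∀ j, σ j ∈ Δ) ∧
      ∀ i ∈ I, ∃ j, i ∈ σ j := by
  induction m with
  | zero =>
    intro I hI
    have hI : I = ∅ := hI
    exact ⟨fun _ => ∅, fun j => j.elim0, fun i hi => by simp [hI] at hi⟩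
  | succ m ih =>
    rintro I ⟨s, hs, h⟩
    obtain ⟨σ, h1, h2⟩ := ih _ h
    refine ⟨Fin.cons s σ, fun j => ?_, fun i hi => ?_⟩
    · refine Fin.cases ?_ (fun j => ?_) j
      · simpa using hs
      · simpa using h1 j
    · by_cases hi' : i ∈ s
      · exact ⟨0, by simpa using hi'⟩
      · obtain ⟨j, hj⟩ := h2 i (Finset.mem_sdiff.2 ⟨hi, hi'⟩)
        exact ⟨j.succ, by simpa using hj⟩

lemma inner_rv {n : ℕ} (a b : Fin n → ℤ) : inner ℝ (rv a) (rv b) = (dt a b : ℝ) := by
  rw [PiLp.inner_apply]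
  simp [rv, dt, mul_comm]

lemma rv_ne {n : ℕ} {a : Fin n → ℤ} (h : a ≠ 0) : rv a ≠ 0 := by
  intro h0
  apply h
  funext i
  have h1 : (rv a) i = 0 := by rw [h0]; rfl
  have h2 : (a i : ℝ) = 0 := h1
  exact_mod_cast h2

lemma inner_un {n : ℕ} (a y : EuclideanSpace ℝ (Fin n)) :
    inner ℝ (un a) y = ‖a‖⁻¹ * inner ℝ a y := by
  rw [un, real_inner_smul_left]

lemma inner_close {n : ℕ} (a b y : EuclideanSpace ℝ (Fin n)) (hy : ‖y‖ ≤ 1) :
    inner ℝ a y ≤ inner ℝ b y + ‖b - a‖ := by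
  have h1 : inner ℝ (a - b) y ≤ ‖a - b‖ * ‖y‖ := real_inner_le_norm _ _
  have h2 : ‖a - b‖ * ‖y‖ ≤ ‖a - b‖ := mul_le_of_le_one_right (norm_nonneg _) hy
  rw [inner_sub_left] at h1
  rw [norm_sub_rev b a]
  linarith

end A11

theorem I_A11 (h8 : StA8) : StA11 := by
  classical
  intro n m C x δ hδ hsep D _ d hd r hr K _ u hK hu I hI
  obtain ⟨σ, hσ, hcov⟩ := A11.un_cover m I hI
  by_cases hC : ∃ γ, γ ∈ C
  · obtain ⟨γ0, hγ0⟩ := hC
    have h1 : ∀ j, ∃ γ ∈ C, ∀ i ∈ σ j, ‖γ - un (rv (d i))‖ ≤ r := by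
      intro j
      rcases hσ j with h | h
      · exact ⟨γ0, hγ0, fun i hi => by simp [h] at hi⟩
      · exact h
    choose γ hγ hγ2 using h1
    obtain ⟨y, hy, hy1, hy2⟩ := hsep γ hγ
    have : Fintype K := Fintype.ofFinite K
    obtain ⟨k, hk1, hk2⟩ := h8 n (I.image fun i => rv (d i)) (Finset.univ.image fun l => rv (u l)) y
      (by
        intro w hw
        obtain ⟨i, hi, rfl⟩ := Finset.mem_image.1 hw
        obtain ⟨j, hj⟩ := hcov i hi
        have h2 := A11.inner_close (un (rv (d i))) (γ j) y hy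
        have h3 := hγ2 j i hj
        have h4 := hy1 j
        have h5 : inner ℝ (un (rv (d i))) y < 0 := by linarith
        rw [A11.inner_un] at h5
        have h6 : 0 < ‖rv (d i)‖⁻¹ := inv_pos.2 (norm_pos_iff.2 (A11.rv_ne (hd i)))
        by_contra h7
        push Not at h7
        have := mul_nonneg h6.le h7
        linarith)
      (by
        intro w hw
        obtain ⟨l, _, rfl⟩ := Finset.mem_image.1 hw
        have hx : x ≠ 0 := fun h => (hK h).false l
        have h2 := A11.inner_close (un x) (un (rv (u l))) y hy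
        have h3 := (hu l).2
        have h4 := hy2 hx
        have h5 : 0 < inner ℝ (un (rv (u l))) y := by linarith
        rw [A11.inner_un] at h5
        have h6 : 0 < ‖rv (u l)‖⁻¹ := inv_pos.2 (norm_pos_iff.2 (A11.rv_ne (hu l).1))
        exact (mul_pos_iff_of_pos_left h6).1 h5)
    refine ⟨k, fun l => ?_, fun i hi => ?_⟩
    · have h := hk2 _ (Finset.mem_image_of_mem (fun l => rv (u l)) (Finset.mem_univ l))
      rw [A11.inner_rv] at h
      exact_mod_cast h.le
    · have h := hk1 _ (Finset.mem_image_of_mem (fun i => rv (d i)) hi)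
      rw [A11.inner_rv] at h
      exact_mod_cast h
  · have h0 : ∀ j, σ j = ∅ := by
      intro j
      rcases hσ j with h | ⟨γ, h, _⟩
      · exact h
      · exact absurd ⟨γ, h⟩ hC
    refine ⟨0, fun l => by simp [dt], fun i hi => ?_⟩
    obtain ⟨j, hj⟩ := hcov i hi
    rw [h0 j] at hj
    exact absurd hj (Finset.notMem_empty i)

end Pool.Agent.Work.MP_e9e200_al.UP

end

section

/-!
# Project UP: item A12, the geometry
-/

set_option autoImplicit false

namespace Pool.Agent.Work.MP_e9e200_al.UP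

open Finsupp

namespace A12

lemma dt_add {n : ℕ} (a b c : Fin n → ℤ) : dt a (b + c) = dt a b + dt a c := by
  simp only [dt, Pi.add_apply, mul_add, Finset.sum_add_distrib]

lemma rv_add {n : ℕ} (a b : Fin n → ℤ) : rv (a + b) = rv a + rv b := by
  ext i
  simp [rv]

lemma inner_rv {n : ℕ} (a b : Fin n → ℤ) : inner ℝ (rv a) (rv b) = (dt a b : ℝ) := by
  rw [PiLp.inner_apply, dt]
  push_cast
  refine Finset.sum_congr rfl fun i _ => ?_
  show inner ℝ ((a i : ℝ)) ((b i : ℝ)) = _
  simp [mul_comm]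

lemma inner_single {n : ℕ} (x : EuclideanSpace ℝ (Fin n)) (i : Fin n) :
    inner ℝ x (rv (Pi.single i 1)) = x i := by
  classical
  rw [PiLp.inner_apply, Finset.sum_eq_single i]
  · show inner ℝ (x i) ((((Pi.single i 1 : Fin n → ℤ) i : ℤ) : ℝ)) = x i
    rw [Pi.single_eq_same]
    simp
  · intro j _ hj
    show inner ℝ (x j) ((((Pi.single i 1 : Fin n → ℤ) j : ℤ) : ℝ)) = 0
    rw [Pi.single_eq_of_ne hj]
    simp
  · intro h
    exact absurd (Finset.mem_univ _) h

lemma eq_zero_of_inner {Q : Type} {n : ℕ} {κ : Q → Fin n → ℤ} (hκ : Function.Surjective κ)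
    (x : EuclideanSpace ℝ (Fin n)) (h : ∀ q, inner ℝ x (rv (κ q)) = 0) : x = 0 := by
  ext i
  obtain ⟨q, hq⟩ := hκ (Pi.single i 1)
  have := h q
  rw [hq, inner_single] at this
  exact this

lemma rv_ne {n : ℕ} {a : Fin n → ℤ} (h : a ≠ 0) : rv a ≠ 0 := by
  intro h0
  apply h
  funext i
  have h1 : (rv a) i = (0 : EuclideanSpace ℝ (Fin n)) i := by rw [h0]
  have h2 : ((a i : ℤ) : ℝ) = 0 := h1
  exact_mod_cast h2

lemma norm_un {n : ℕ} {x : EuclideanSpace ℝ (Fin n)} (h : x ≠ 0) : ‖un x‖ = 1 := by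
  have h1 : 0 < ‖x‖ := norm_pos_iff.2 h
  rw [un, norm_smul, norm_inv, norm_norm, inv_mul_cancel₀ h1.ne']

/-- vectors with close directions have a positive inner product -/
lemma inner_pos {n : ℕ} {w p : EuclideanSpace ℝ (Fin n)} (hw : w ≠ 0) (hp : ‖p‖ = 1) {r : ℝ}
    (hr : r ≤ 1 / 2) (h : ‖un w - p‖ ≤ r) : 0 < inner ℝ w p := by
  have h1 : 0 < ‖w‖ := norm_pos_iff.2 hw
  have h2 : inner ℝ w p = ‖w‖ * inner ℝ (un w) p := by
    rw [un, real_inner_smul_left, mul_inv_cancel_left₀ h1.ne']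
  have h3 : ‖un w - p‖ ^ 2 = ‖un w‖ ^ 2 - 2 * inner ℝ (un w) p + ‖p‖ ^ 2 :=
    norm_sub_sq_real _ _
  rw [norm_un hw, hp] at h3
  have h4 : ‖un w - p‖ ^ 2 ≤ (1 / 2) ^ 2 :=
    pow_le_pow_left₀ (norm_nonneg _) (h.trans hr) 2
  rw [h2]
  apply mul_pos h1
  nlinarith

end A12

open A12 in
theorem I_A12 (h1 : StA1) (h5 : StA5) (h6 : StA6) (h7 : StA7) (h8 : StA8) (h9 : StA9)
    (h10 : StA10) (h11 : StA11) : StA12 := by
  classical
  intro Q _ _ M _ _ T m v hgen hrel
  obtain ⟨n, κ, κmul, κsurj, κfin, κv⟩ := h1 Q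
  obtain ⟨x, hx⟩ := κv v
  have hv0 : v = 0 ↔ x = 0 := by
    constructor
    · intro h
      apply eq_zero_of_inner κsurj
      intro q
      rw [← hx, h, AddMonoidHom.zero_apply]
    · intro h
      refine DFunLike.ext _ _ fun q => ?_
      have := hx (Additive.toMul q)
      rw [h, inner_zero_left, ofMul_toMul] at this
      rw [this, AddMonoidHom.zero_apply]
  set C : Set (EuclideanSpace ℝ (Fin n)) := {x | ‖x‖ = 1 ∧ BadE M κ x} with hC
  have hCc : IsClosed C := h9 Q M n κ κmul κsurj T hgen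
  obtain ⟨δ, hδ0, hδ⟩ := h7 n m C hCc (fun γ hγ => hγ.1) x (by
    intro γ hγ a b ha hne hb heq
    have gadd : ∀ (j : Fin m) (q q' : Additive Q),
        inner ℝ (γ j) (rv (κ (Additive.toMul (q + q')))) =
        inner ℝ (γ j) (rv (κ (Additive.toMul q))) + inner ℝ (γ j) (rv (κ (Additive.toMul q'))) := by
      intro j q q'
      rw [toMul_add, κmul, rv_add, inner_add_right]
    refine hrel (fun j => AddMonoidHom.mk' (fun q => inner ℝ (γ j) (rv (κ (Additive.toMul q))))
      (gadd j)) ?_ a b ha hne hb ?_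
    · intro j
      obtain ⟨hj1, hj2, hj3⟩ := hγ j
      refine ⟨?_, hj3⟩
      intro h0
      apply hj2
      apply eq_zero_of_inner κsurj
      intro q
      have := DFunLike.congr_fun h0 (Additive.ofMul q)
      exact this
    · refine DFunLike.ext _ _ fun q => ?_
      have e1 : (∑ j, a j • (AddMonoidHom.mk' (fun q : Additive Q =>
          inner ℝ (γ j) (rv (κ (Additive.toMul q)))) (gadd j))) q =
          ∑ j, a j * inner ℝ (γ j) (rv (κ (Additive.toMul q))) := by
        rw [AddMonoidHom.finsetSum_apply]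
        rfl
      rw [e1]
      have e2 : (b • v) q = b * inner ℝ x (rv (κ (Additive.toMul q))) := by
        rw [← hx]
        rfl
      rw [e2, ← real_inner_smul_left, ← heq, sum_inner]
      refine Finset.sum_congr rfl fun j _ => ?_
      rw [real_inner_smul_left])
  set ρ : ℝ := min (1 / 4) (δ / 6) with hρ
  have hρ0 : 0 < ρ := lt_min (by norm_num) (by linarith)
  have hρ4 : ρ ≤ 1 / 4 := min_le_left _ _
  have hρδ : 5 * ρ < δ := by
    have : ρ ≤ δ / 6 := min_le_right _ _
    linarith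
  obtain ⟨D, iF, iD, d, e, hd0, he0, hmesh, hfin⟩ := h5 n ρ hρ0
  obtain ⟨K, iK, u0, c, hc, hxs, hu, hK⟩ : ∃ (K : Type) (_ : Fintype K) (u0 : K → Fin n → ℤ)
      (c : K → ℝ), (∀ k, 0 < c k) ∧ x = ∑ k, c k • rv (u0 k) ∧
      (∀ k, u0 k ≠ 0 ∧ ‖un (rv (u0 k)) - un x‖ ≤ min (δ / 2) (1 / 2)) ∧ (x = 0 → IsEmpty K) := by
    by_cases hx0 : x = 0
    · refine ⟨Empty, inferInstance, fun k => k.elim, fun k => k.elim, fun k => k.elim, ?_,
        fun k => k.elim, fun _ => inferInstance⟩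
      rw [hx0]
      simp
    · obtain ⟨K, iK, u0, c, a1, a2, a3⟩ := h6 n x hx0 (min (δ / 2) (1 / 2))
        (lt_min (by linarith) (by norm_num))
      exact ⟨K, iK, u0, c, a1, a2, a3, fun h => absurd h hx0⟩
  refine ⟨D, iF, iD, fun i q => dt (d i) (κ q), e,
    {τ | τ = ∅ ∨ ∃ p : EuclideanSpace ℝ (Fin n), ‖p‖ = 1 ∧ ∀ i ∈ τ, ‖un (rv (d i)) - p‖ ≤ ρ},
    {I | I = ∅ ∨ ∃ γ ∈ C, ∀ i ∈ I, ‖γ - un (rv (d i))‖ ≤ 5 * ρ}, K, iK,
    fun k q => dt (u0 k) (κ q), c, ?_⟩
  refine
    { χ_mul := fun i a b => by rw [κmul, dt_add]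
      u_mul := fun i a b => by rw [κmul, dt_add]
      e_pos := he0
      c_pos := hc
      v_eq := ?_
      v_pos := ?_
      v_zero := fun h => hK (hv0.1 h)
      dn := ?_
      good := ?_
      shift := ?_
      mesh := ?_
      fin := ?_
      cov := ?_ }
  · intro q
    rw [hx]
    conv_lhs => rw [hxs]
    rw [sum_inner]
    refine Finset.sum_congr rfl fun k _ => ?_
    rw [real_inner_smul_left, inner_rv]
  · intro hv
    have hx0 : x ≠ 0 := fun h => hv (hv0.2 h)
    obtain ⟨k0, -, hk0⟩ := h8 n ∅ (Finset.univ.image fun k => rv (u0 k)) (un x)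
      (fun w hw => absurd hw (Finset.notMem_empty _)) (by
        intro w hw
        obtain ⟨k, -, rfl⟩ := Finset.mem_image.1 hw
        exact inner_pos (rv_ne (hu k).1) (norm_un hx0) (min_le_right _ _) (hu k).2)
    obtain ⟨q, hq⟩ := κsurj k0
    refine ⟨q, fun k => ?_⟩
    have := hk0 (rv (u0 k)) (Finset.mem_image_of_mem _ (Finset.mem_univ k))
    rw [inner_rv] at this
    rw [hq]
    exact_mod_cast this
  · refine ⟨Or.inl rfl, ?_⟩
    rintro σ hσ σ' hs
    rcases hσ with rfl | ⟨γ, hγ, h⟩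
    · exact Or.inl (Finset.subset_empty.1 hs)
    · exact Or.inr ⟨γ, hγ, fun i hi => h i (hs hi)⟩
  · rintro τ hτ I hI hID
    rcases hτ with rfl | ⟨p, hp, hpi⟩
    · exact absurd (Or.inl (Finset.subset_empty.1 hI)) hID
    · refine h10 Q M n κ κmul κsurj T hgen D d hd0 ρ hρ0 hρ4 τ p hp hpi ?_
      intro γ hγ hγi hbad
      exact hID (Or.inr ⟨γ, ⟨hγ, hbad⟩, fun i hi => hγi i (hI hi)⟩)
  · rintro τ hτ
    rcases hτ with rfl | ⟨p, hp, hpi⟩
    · exact ⟨1, fun i hi => absurd hi (Finset.notMem_empty _)⟩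
    · obtain ⟨k0, -, hk0⟩ := h8 n ∅ (τ.image fun i => rv (d i)) p
        (fun w hw => absurd hw (Finset.notMem_empty _)) (by
          intro w hw
          obtain ⟨i, hi, rfl⟩ := Finset.mem_image.1 hw
          exact inner_pos (rv_ne (hd0 i)) hp (hρ4.trans (by norm_num)) (hpi i hi))
      obtain ⟨q, hq⟩ := κsurj k0
      refine ⟨q, fun i hi => ?_⟩
      have := hk0 (rv (d i)) (Finset.mem_image_of_mem _ hi)
      rw [inner_rv] at this
      rw [hq]
      exact_mod_cast this
  · intro C' s0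
    obtain ⟨t0, ht0⟩ := hmesh C' s0
    refine ⟨t0, fun t ht q c hc h => ?_⟩
    rcases ht0 t ht (κ q) c hc h with h' | ⟨p, hp, hpi⟩
    · left
      rw [Finset.filter_eq_empty_iff]
      intro i _
      exact not_lt.2 (h' i)
    · right
      refine ⟨p, hp, fun i hi => hpi i ?_⟩
      exact (Finset.mem_filter.1 hi).2
  · intro E
    have h2 : {q : Q | ∀ i, -E i ≤ dt (d i) (κ q)} = κ ⁻¹' {k | ∀ i, -E i ≤ dt (d i) k} := rfl
    rw [h2]
    refine (hfin E).preimage' ?_
    intro k _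
    obtain ⟨q0, hq0⟩ := κsurj k
    refine (κfin.image (fun q => q0 * q)).subset ?_
    intro q hq
    refine ⟨q0⁻¹ * q, ?_, mul_inv_cancel_left _ _⟩
    have h3 : κ (q0⁻¹ * q) + κ q0 = κ q := by
      rw [← κmul, mul_comm, mul_inv_cancel_left]
    have h4 : κ q = k := hq
    show κ (q0⁻¹ * q) = 0
    rw [h4, hq0] at h3
    exact add_eq_right.1 h3
  · intro I hI
    obtain ⟨k, hk1, hk2⟩ := h11 n m C x δ hδ0 hδ D d hd0 (5 * ρ) hρδ K u0 hK
      (fun k => ⟨(hu k).1, (hu k).2.trans (min_le_left _ _)⟩) I hI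
    obtain ⟨q, hq⟩ := κsurj k
    exact ⟨q, fun l => by rw [hq]; exact hk1 l, fun i hi => by rw [hq]; exact hk2 i hi⟩

end Pool.Agent.Work.MP_e9e200_al.UP

end

section

/-!
# Project UP: item A9
-/

set_option autoImplicit false

namespace Pool.Agent.Work.MP_e9e200_al.UP

open Finsupp

namespace A9

lemma rv_add {n : ℕ} (a b : Fin n → ℤ) : rv (a + b) = rv a + rv b := by
  ext i
  simp [rv]

lemma exists_pos_le {Q : Type} (f : Q → ℝ) (Φ : Finset Q) :
    (∀ q ∈ Φ, 0 < f q) → ∃ b : ℝ, 0 < b ∧ ∀ q ∈ Φ, b ≤ f q := by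
  classical
  induction Φ using Finset.induction_on with
  | empty => intro _; exact ⟨1, one_pos, by simp⟩
  | insert a s ha ih =>
    intro h
    obtain ⟨b, hb, hb'⟩ := ih (fun q hq => h q (Finset.mem_insert_of_mem hq))
    refine ⟨min b (f a), lt_min hb (h a (Finset.mem_insert_self _ _)), ?_⟩
    intro q hq
    rcases Finset.mem_insert.1 hq with h1 | h1
    · rw [h1]; exact min_le_right _ _
    · exact le_trans (min_le_left _ _) (hb' q h1)

lemma not_bad {Q : Type} [CommGroup Q] {M : Type} [AddCommGroup M]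
    [Module (MonoidAlgebra ℤ Q) M] {n : ℕ} (κ : Q → Fin n → ℤ) (hκ : ∀ a b, κ (a * b) = κ a + κ b)
    (T : Finset M)
    (hT : ∀ x : M, x ∈ AddSubgroup.closure {w | ∃ q : Q, ∃ t ∈ T, w = MonoidAlgebra.of ℤ Q q • t})
    (x : EuclideanSpace ℝ (Fin n)) (Φ : Finset Q) (hΦ : ∀ q ∈ Φ, 0 < inner ℝ x (rv (κ q)))
    (hΦT : ∀ t ∈ T, t ∈ AddSubgroup.closure
      {w | ∃ q ∈ Φ, ∃ t' ∈ T, w = MonoidAlgebra.of ℤ Q q • t'}) : ¬ BadE M κ x := by
  rintro ⟨-, hbad⟩
  obtain ⟨y, hy⟩ := hbad T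
  apply hy
  obtain ⟨b, hb, hbΦ⟩ := exists_pos_le (fun q => inner ℝ x (rv (κ q))) Φ hΦ
  have key : ∀ N : ℕ, ∀ g : Q, -((N : ℝ) * b) ≤ inner ℝ x (rv (κ g)) → ∀ t ∈ T,
      MonoidAlgebra.of ℤ Q g • t ∈ AddSubgroup.closure {w | ∃ q : Q, ∃ t ∈ T,
        0 ≤ inner ℝ x (rv (κ q)) ∧ w = MonoidAlgebra.of ℤ Q q • t} := by
    intro N
    induction N with
    | zero =>
      intro g hg t ht
      refine AddSubgroup.subset_closure ⟨g, t, ht, ?_, rfl⟩
      simpa using hg
    | succ N ih =>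
      intro g hg t ht
      refine AddSubgroup.closure_induction (p := fun w _ => MonoidAlgebra.of ℤ Q g • w ∈
        AddSubgroup.closure {w | ∃ q : Q, ∃ t ∈ T,
        0 ≤ inner ℝ x (rv (κ q)) ∧ w = MonoidAlgebra.of ℤ Q q • t}) ?_ ?_ ?_ ?_ (hΦT t ht)
      · rintro w ⟨q, hq, t', ht', rfl⟩
        rw [smul_smul, ← map_mul]
        refine ih (g * q) ?_ t' ht'
        rw [hκ, rv_add, inner_add_right]
        have h1 := hbΦ q hq
        push_cast at hg
        linarith
      · rw [smul_zero]; exact zero_mem _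
      · intro u v _ _ hu hv
        rw [smul_add]; exact add_mem hu hv
      · intro u _ hu
        rw [smul_neg]; exact neg_mem hu
  refine (AddSubgroup.closure_le _).2 ?_ (hT y)
  rintro w ⟨q, t, ht, rfl⟩
  obtain ⟨N, hN⟩ := exists_nat_ge (-(inner ℝ x (rv (κ q))) / b)
  refine key N q ?_ t ht
  rw [div_le_iff₀ hb] at hN
  linarith

end A9

open A9 in
theorem I_A9 (h2 : StA2) : StA9 := by
  intro Q _ M _ _ n κ hκ hs T hT
  rw [← isOpen_compl_iff, isOpen_iff_mem_nhds]
  intro x hx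
  by_cases h1 : ‖x‖ = 1
  · have h3 : ¬ BadE M κ x := fun h => hx ⟨h1, h⟩
    have h0 : x ≠ 0 := by
      rintro rfl
      rw [norm_zero] at h1
      exact zero_ne_one h1
    obtain ⟨Φ, hΦ, hΦT⟩ := h2 Q M n κ hκ hs T hT x h0 h3
    have h4 : ∀ᶠ x' in nhds x, ∀ q ∈ Φ, 0 < inner ℝ x' (rv (κ q)) := by
      rw [Filter.eventually_all_finset]
      intro q hq
      have hc : Continuous fun x' : EuclideanSpace ℝ (Fin n) => inner ℝ x' (rv (κ q)) :=
        continuous_id.inner continuous_const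
      exact hc.continuousAt.eventually_const_lt (hΦ q hq)
    filter_upwards [h4] with x' hx' hb
    exact not_bad κ hκ T hT x' Φ hx' hΦT hb.2
  · have hc : Continuous fun x' : EuclideanSpace ℝ (Fin n) => ‖x'‖ := continuous_norm
    filter_upwards [hc.continuousAt.eventually_ne h1] with x' hx' hb
    exact hx' hb.1

end Pool.Agent.Work.MP_e9e200_al.UP

end

section

/-!
# Project UP, item D10: dimension shifting
-/

set_option autoImplicit false

namespace Pool.Agent.Work.MP_e9e200_al.UP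

open Finsupp

namespace D10

variable {ι : Type} [DecidableEq ι]

theorem toFinset_sub {I : Finset ι} {l : List ι} (h : ∀ i ∈ l, i ∈ I) : l.toFinset ⊆ I := by
  intro i hi
  exact h i (List.mem_toFinset.1 hi)

/-- lifting of chains along a homomorphism -/
theorem lift {A B : Type} [AddCommGroup A] [AddCommGroup B] (f : B →+ A)
    (Rr : Finset ι → AddSubgroup A) (I : Finset ι) (k : ℕ) (c : List ι →₀ A)
    (hc : c ∈ Ch (fun _ => (⊤ : AddSubgroup A)) I k)
    (h : ∀ l, c l ≠ 0 → ∃ w, c l - f w ∈ Rr l.toFinset) :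
    ∃ c₁ ∈ Ch (fun _ => (⊤ : AddSubgroup B)) I k,
      c - Finsupp.mapRange.addMonoidHom f c₁ ∈ Ch Rr I k := by
  classical
  obtain ⟨w, hw1, hw2⟩ : ∃ w : List ι → B, (∀ l, c l = 0 → w l = 0) ∧
      ∀ l, c l ≠ 0 → c l - f (w l) ∈ Rr l.toFinset := by
    refine ⟨fun l => if h' : c l ≠ 0 then (h l h').choose else 0, fun l hl => ?_, fun l hl => ?_⟩
    · show (if h' : c l ≠ 0 then (h l h').choose else 0) = 0
      rw [dif_neg (not_not.2 hl)]
    · show c l - f (if h' : c l ≠ 0 then (h l h').choose else 0) ∈ Rr l.toFinset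
      rw [dif_pos hl]
      exact (h l hl).choose_spec
  refine ⟨Finsupp.onFinset c.support w (fun l hl => ?_), ?_, ?_⟩
  · rw [Finsupp.mem_support_iff]
    exact fun h0 => hl (hw1 l h0)
  · intro l
    refine ⟨AddSubgroup.mem_top _, fun hl => ?_⟩
    rw [Finsupp.onFinset_apply] at hl
    exact (hc l).2 (fun h0 => hl (hw1 l h0))
  · intro l
    have h1 : (c - Finsupp.mapRange.addMonoidHom f (Finsupp.onFinset c.support w (fun l hl => by
        rw [Finsupp.mem_support_iff]
        exact fun h0 => hl (hw1 l h0)))) l = c l - f (w l) := by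
      rw [Finsupp.sub_apply, Finsupp.mapRange.addMonoidHom_apply, Finsupp.mapRange_apply,
        Finsupp.onFinset_apply]
    rw [h1]
    by_cases h0 : c l = 0
    · rw [h0, hw1 l h0, map_zero, sub_zero]
      exact ⟨zero_mem _, fun h => absurd rfl h⟩
    · exact ⟨hw2 l h0, fun _ => (hc l).2 h0⟩

/-- images of chains -/
theorem image {A B : Type} [AddCommGroup A] [AddCommGroup B] (f : A →+ B)
    (P : Finset ι → AddSubgroup A) (Q : Finset ι → AddSubgroup B) (I : Finset ι) (k : ℕ)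
    (c : List ι →₀ A) (hc : c ∈ Ch P I k) (h : ∀ J ⊆ I, ∀ a ∈ P J, f a ∈ Q J) :
    Finsupp.mapRange.addMonoidHom f c ∈ Ch Q I k := by
  intro l
  have h1 : (Finsupp.mapRange.addMonoidHom f c) l = f (c l) := by
    rw [Finsupp.mapRange.addMonoidHom_apply, Finsupp.mapRange_apply]
  rw [h1]
  by_cases h0 : c l = 0
  · rw [h0, map_zero]
    exact ⟨zero_mem _, fun h => absurd rfl h⟩
  · exact ⟨h _ (toFinset_sub ((hc l).2 h0).2) _ (hc l).1, fun _ => (hc l).2 h0⟩

theorem comp_zero {A B C : Type} [AddCommGroup A] [AddCommGroup B] [AddCommGroup C]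
    (f : A →+ B) (g : B →+ C) (h : ∀ a, g (f a) = 0) (c : List ι →₀ A) :
    Finsupp.mapRange.addMonoidHom g (Finsupp.mapRange.addMonoidHom f c) = 0 := by
  ext l
  rw [Finsupp.mapRange.addMonoidHom_apply, Finsupp.mapRange_apply,
    Finsupp.mapRange.addMonoidHom_apply, Finsupp.mapRange_apply, h, Finsupp.zero_apply]

theorem del_top {A : Type} [AddCommGroup A] {I : Finset ι} {k : ℕ} {c : List ι →₀ A}
    (hc : c ∈ Ch (fun _ => (⊤ : AddSubgroup A)) I k) :
    del A c ∈ Ch (fun _ => (⊤ : AddSubgroup A)) I (k - 1) :=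
  del_mem (fun _ _ _ => le_refl _) hc

/-- the induction -/
theorem key (I : Finset ι) (j : ℕ) : ∀ (Z : ℕ → Type) [∀ s, AddCommGroup (Z s)]
    (R : ∀ s, Finset ι → AddSubgroup (Z s)) (d : ∀ s, Z (s + 1) →+ Z s),
    (∀ s J J', J ⊆ J' → R s J' ≤ R s J) →
    (∀ s, ∀ J ⊆ I, ∀ z ∈ R (s + 1) J, d s z ∈ R s J) →
    (∀ s z, d s (d (s + 1) z) = 0) →
    (∀ s, ∀ J ⊆ I, ∀ z, d s z ∈ R s J → ∃ w, z - d (s + 1) w ∈ R (s + 1) J) →
    (∀ s ≤ j, Ex (fun _ => ⊤) (R s) I (j - s)) →
    ∀ c ∈ Ch (fun _ => (⊤ : AddSubgroup (Z 0))) I j,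
    ∀ c₁ ∈ Ch (fun _ => (⊤ : AddSubgroup (Z 1))) I (j - 1),
    del (Z 0) c - Finsupp.mapRange.addMonoidHom (d 0) c₁ ∈ Ch (R 0) I (j - 1) →
    ∃ e ∈ Ch (fun _ => (⊤ : AddSubgroup (Z 0))) I (j + 1),
    ∃ c₂ ∈ Ch (fun _ => (⊤ : AddSubgroup (Z 1))) I j,
      c - del (Z 0) e - Finsupp.mapRange.addMonoidHom (d 0) c₂ ∈ Ch (R 0) I j := by
  induction j with
  | zero =>
    intro Z _ R d hR hd hdd hex hEx c hc c₁ hc₁ h
    have h1 : del (Z 0) c = 0 := by
      obtain ⟨z, -, rfl⟩ := Ch_zero.1 hc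
      exact del_single_nil z
    obtain ⟨e, he, he2⟩ := hEx 0 (le_refl 0) c hc (by rw [h1]; exact zero_mem _)
    refine ⟨e, he, 0, zero_mem _, ?_⟩
    rw [map_zero, sub_zero]
    exact he2
  | succ j ih =>
    intro Z _ R d hR hd hdd hex hEx c hc c₁ hc₁ h
    have hj : j + 1 - 1 = j := rfl
    rw [hj] at hc₁ h
    -- the boundary of `c₁`
    have hd1 : ∀ l, d 0 (del (Z 1) c₁ l) ∈ R 0 l.toFinset := by
      intro l
      have h1 : Finsupp.mapRange.addMonoidHom (d 0) (del (Z 1) c₁) =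
          -del (Z 0) (del (Z 0) c - Finsupp.mapRange.addMonoidHom (d 0) c₁) := by
        rw [← del_mapRange, map_sub, del_del, zero_sub, neg_neg]
      have h2 : (Finsupp.mapRange.addMonoidHom (d 0) (del (Z 1) c₁)) l =
          d 0 (del (Z 1) c₁ l) := by
        rw [Finsupp.mapRange.addMonoidHom_apply, Finsupp.mapRange_apply]
      rw [← h2, h1]
      exact (neg_mem (del_mem (hR 0) h) l).1
    have hdel := del_top hc₁
    obtain ⟨c₁', hc₁', hc₁2⟩ := lift (d 1) (R 1) I (j - 1) (del (Z 1) c₁) hdel (fun l hl =>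
      hex 0 _ (toFinset_sub ((hdel l).2 hl).2) _ (hd1 l))
    obtain ⟨e₁, he₁, c₂', hc₂', h2⟩ := ih (fun s => Z (s + 1)) (fun s => R (s + 1))
      (fun s => d (s + 1)) (fun s => hR (s + 1)) (fun s => hd (s + 1)) (fun s => hdd (s + 1))
      (fun s => hex (s + 1)) (fun s hs => by
        have := hEx (s + 1) (by omega)
        rwa [show j + 1 - (s + 1) = j - s by omega] at this) c₁ hc₁ c₁' hc₁' hc₁2
    -- the correction of `c`
    have h3 : Finsupp.mapRange.addMonoidHom (d 0) (c₁ - del (Z 1) e₁ -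
        Finsupp.mapRange.addMonoidHom (d 1) c₂') ∈ Ch (R 0) I j :=
      image (d 0) (R 1) (R 0) I j _ h2 (hd 0)
    rw [map_sub, comp_zero (d 1) (d 0) (hdd 0), sub_zero, map_sub] at h3
    have he₁' : Finsupp.mapRange.addMonoidHom (d 0) e₁ ∈
        Ch (fun _ => (⊤ : AddSubgroup (Z 0))) I (j + 1) :=
      image (d 0) _ _ I (j + 1) e₁ he₁ (fun _ _ _ _ => AddSubgroup.mem_top _)
    have hx : del (Z 0) (c - Finsupp.mapRange.addMonoidHom (d 0) e₁) ∈ Ch (R 0) I (j + 1 - 1) := by
      rw [map_sub, del_mapRange]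
      have h4 := add_mem h h3
      have h5 : del (Z 0) c - Finsupp.mapRange.addMonoidHom (d 0) c₁ +
          (Finsupp.mapRange.addMonoidHom (d 0) c₁ -
            Finsupp.mapRange.addMonoidHom (d 0) (del (Z 1) e₁)) =
          del (Z 0) c - Finsupp.mapRange.addMonoidHom (d 0) (del (Z 1) e₁) := by abel
      rw [h5] at h4
      exact h4
    obtain ⟨e, he, he2⟩ := hEx 0 (by omega) _ (sub_mem hc he₁') hx
    refine ⟨e, he, e₁, he₁, ?_⟩
    have h6 : c - del (Z 0) e - Finsupp.mapRange.addMonoidHom (d 0) e₁ =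
        c - Finsupp.mapRange.addMonoidHom (d 0) e₁ - del (Z 0) e := by abel
    rw [h6]
    exact he2

end D10

open D10 in
theorem I_D10 : StD10 := by
  intro ι _ Z _ Z' _ R R' d ε I hR hR' hd hε hdd hεd hsur hex0 hex j hEx c' hc' hdc'
  obtain ⟨c, hc, hcc⟩ := lift ε (fun _ => (⊥ : AddSubgroup Z')) I j c' hc' (fun l _ => by
    obtain ⟨w, hw⟩ := hsur (c' l)
    exact ⟨w, by rw [hw, sub_self]; exact zero_mem _⟩)
  have hcc' : Finsupp.mapRange.addMonoidHom ε c = c' := by
    ext l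
    have h1 := (hcc l).1
    rw [AddSubgroup.mem_bot, Finsupp.sub_apply, sub_eq_zero] at h1
    exact h1.symm
  have hdel := del_top hc
  have h1 : ∀ l, ε (del (Z 0) c l) ∈ R' l.toFinset := by
    intro l
    have h2 : (Finsupp.mapRange.addMonoidHom ε (del (Z 0) c)) l = ε (del (Z 0) c l) := by
      rw [Finsupp.mapRange.addMonoidHom_apply, Finsupp.mapRange_apply]
    rw [← h2, ← del_mapRange, hcc']
    exact (hdc' l).1
  obtain ⟨c₁, hc₁, hc₁2⟩ := lift (d 0) (R 0) I (j - 1) (del (Z 0) c) hdel (fun l hl =>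
    hex0 _ (toFinset_sub ((hdel l).2 hl).2) _ (h1 l))
  obtain ⟨e, he, c₂, -, h2⟩ := key I j Z R d hR hd hdd hex hEx c hc c₁ hc₁ hc₁2
  refine ⟨Finsupp.mapRange.addMonoidHom ε e,
    image ε _ _ I (j + 1) e he (fun _ _ _ _ => AddSubgroup.mem_top _), ?_⟩
  have h3 := image ε (R 0) R' I j _ h2 hε
  rw [map_sub, comp_zero (d 0) ε hεd, sub_zero, map_sub, hcc', ← del_mapRange] at h3
  exact h3

end Pool.Agent.Work.MP_e9e200_al.UP

end

section

/-!
# Project UP: D5, the Koszul condition for split systems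
-/

set_option autoImplicit false

namespace Pool.Agent.Work.MP_e9e200_al.UP

open Finsupp

namespace D5

section

variable {ι M : Type} [DecidableEq ι] [AddCommGroup M]

/-- the map which keeps the component `σ` and makes all others `0` -/
def pr (s : Finset (Finset ι)) (W : Finset ι → AddSubgroup M) (σ : Finset ι) :
    VV s W →+ VV s W where
  toFun v := ⟨fun τ => if τ = σ then (v : Finset ι → M) τ else 0, fun τ => by
    by_cases h : τ = σ
    · simp only [if_pos h]; exact v.2 τ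
    · refine ⟨?_, fun _ => if_neg h⟩
      simp only [if_neg h]; exact zero_mem _⟩
  map_zero' := by
    apply Subtype.ext
    funext τ
    simp
  map_add' a b := by
    apply Subtype.ext
    funext τ
    by_cases h : τ = σ <;> simp [h]

lemma pr_apply (s : Finset (Finset ι)) (W : Finset ι → AddSubgroup M) (σ : Finset ι)
    (v : VV s W) (τ : Finset ι) :
    (pr s W σ v : Finset ι → M) τ = if τ = σ then (v : Finset ι → M) τ else 0 := rfl

lemma pr_mem {s : Finset (Finset ι)} {W : Finset ι → AddSubgroup M} {σ J K : Finset ι} {i : ι}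
    (hi : i ∉ σ) {v : VV s W} (hv : v ∈ VJ s W (J ∪ K)) : pr s W σ v ∈ VJ s W (J ∪ insert i K) := by
  intro τ hτ
  rw [pr_apply]
  split_ifs with h
  · subst h
    refine hv τ (fun hd => hτ ?_)
    rw [Finset.disjoint_union_right] at hd ⊢
    exact ⟨hd.1, (Finset.disjoint_insert_right).2 ⟨hi, hd.2⟩⟩
  · rfl

lemma sum_pr (s : Finset (Finset ι)) (W : Finset ι → AddSubgroup M) (v : VV s W) :
    ∑ σ ∈ s, pr s W σ v = v := by
  apply Subtype.ext
  funext τ
  have h1 : ((∑ σ ∈ s, pr s W σ v : VV s W) : Finset ι → M) τ =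
      ∑ σ ∈ s, (pr s W σ v : Finset ι → M) τ := by
    rw [AddSubgroup.val_finsetSum, Finset.sum_apply]
  rw [h1]
  simp only [pr_apply]
  rw [Finset.sum_ite_eq]
  split_ifs with h
  · rfl
  · exact ((v.2 τ).2 h).symm

lemma sum_mapRange_pr (s : Finset (Finset ι)) (W : Finset ι → AddSubgroup M)
    (c : List ι →₀ VV s W) :
    ∑ σ ∈ s, Finsupp.mapRange.addMonoidHom (pr s W σ) c = c := by
  ext l
  rw [Finsupp.finsetSum_apply]
  simp only [Finsupp.mapRange.addMonoidHom_apply, Finsupp.mapRange_apply]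
  rw [sum_pr]

lemma pre_pr_mem {s : Finset (Finset ι)} {W : Finset ι → AddSubgroup M} {σ J I : Finset ι} {i : ι}
    (hi : i ∉ σ) (hI : i ∈ I) {k : ℕ} {c : List ι →₀ VV s W}
    (hc : c ∈ Ch (fun K => VJ s W (J ∪ K)) I k) :
    pre (VV s W) i (Finsupp.mapRange.addMonoidHom (pr s W σ) c) ∈
      Ch (fun K => VJ s W (J ∪ K)) I (k + 1) := by
  refine Ch_induction
    (p := fun c => pre (VV s W) i (Finsupp.mapRange.addMonoidHom (pr s W σ) c) ∈
      Ch (fun K => VJ s W (J ∪ K)) I (k + 1))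
    (by rw [map_zero, map_zero]; exact zero_mem _)
    (fun a b ha hb => by rw [map_add, map_add]; exact add_mem ha hb)
    (fun l z hz hk hl => ?_) hc
  rw [Finsupp.mapRange.addMonoidHom_apply, Finsupp.mapRange_single, pre_single]
  refine Ch_single ?_ (by simp [hk]) ?_
  · rw [List.toFinset_cons]; exact pr_mem hi hz
  · intro j hj
    rcases List.mem_cons.1 hj with h | h
    · rw [h]; exact hI
    · exact hl j h

end

end D5

theorem I_D5 : StD5 := by
  intro ι _ Δ hΔ M _ s hs W J I hI k c hc hdel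
  have hdc : del (VV s W) c = 0 := by
    ext1 l
    exact (AddSubgroup.mem_bot).1 (hdel l).1
  have hne : I.Nonempty := by
    rw [Finset.nonempty_iff_ne_empty]
    rintro rfl
    exact hI hΔ.1
  have : Nonempty ι := ⟨hne.choose⟩
  have hex : ∀ σ ∈ s, ∃ i ∈ I, i ∉ σ := by
    intro σ hσ
    by_contra h
    push Not at h
    exact hI (hΔ.2 σ (hs σ hσ) I h)
  choose! i hiI hiσ using hex
  refine ⟨∑ σ ∈ s, pre (VV s W) (i σ) (Finsupp.mapRange.addMonoidHom (D5.pr s W σ) c),
    sum_mem (fun σ hσ => D5.pre_pr_mem (hiσ σ hσ) (hiI σ hσ) hc), ?_⟩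
  have hz : c - del (VV s W)
      (∑ σ ∈ s, pre (VV s W) (i σ) (Finsupp.mapRange.addMonoidHom (D5.pr s W σ) c)) = 0 := by
    rw [map_sum]
    have h1 : ∀ σ ∈ s, del (VV s W)
        (pre (VV s W) (i σ) (Finsupp.mapRange.addMonoidHom (D5.pr s W σ) c)) =
        Finsupp.mapRange.addMonoidHom (D5.pr s W σ) c := by
      intro σ _
      rw [del_pre, del_mapRange, hdc, map_zero, map_zero, sub_zero]
    rw [Finset.sum_congr rfl h1, D5.sum_mapRange_pr, sub_self]
  rw [hz]
  exact zero_mem _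

end Pool.Agent.Work.MP_e9e200_al.UP

end

section

set_option autoImplicit false

namespace Pool.Agent.Work.MP_e9e200_al.UP

open Finsupp

namespace FH

theorem mul_ne {P : Type} [Monoid P] (x y : MonoidAlgebra ℤ P) (q : P)
    (h : (x * y).coeff q ≠ 0) : ∃ a b, x.coeff a ≠ 0 ∧ y.coeff b ≠ 0 ∧ a * b = q := by
  classical
  rw [MonoidAlgebra.coeff_mul, Finsupp.sum] at h
  obtain ⟨a, ha, h1⟩ := Finset.exists_ne_zero_of_sum_ne_zero h
  rw [Finsupp.sum] at h1
  obtain ⟨b, hb, h2⟩ := Finset.exists_ne_zero_of_sum_ne_zero h1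
  refine ⟨a, b, Finsupp.mem_support_iff.1 ha, Finsupp.mem_support_iff.1 hb, ?_⟩
  by_contra hne
  rw [if_neg hne] at h2
  exact h2 rfl

section

variable {P D : Type} [CommMonoid P] {χ : D → P → ℤ}

/-- the operator `1 - g` -/
noncomputable def op (g : P) (n : ℕ) :
    (Fin n → MonoidAlgebra ℤ P) →ₗ[MonoidAlgebra ℤ P] (Fin n → MonoidAlgebra ℤ P) where
  toFun := fun x => x - (fun b => x b * MonoidAlgebra.of ℤ P g)
  map_add' := fun x y => by
    funext b
    simp only [Pi.sub_apply, Pi.add_apply]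
    ring
  map_smul' := fun r x => by
    funext b
    simp only [Pi.sub_apply, Pi.smul_apply, smul_eq_mul, RingHom.id_apply]
    ring

theorem op_apply (g : P) (n : ℕ) (x : Fin n → MonoidAlgebra ℤ P) :
    op g n x = x - (fun b => x b * MonoidAlgebra.of ℤ P g) := rfl

theorem op_mu (g : P) {a b : ℕ} (M : Fin a → Fin b → MonoidAlgebra ℤ P)
    (x : Fin a → MonoidAlgebra ℤ P) : mu M (op g a x) = op g b (mu M x) := by
  funext j
  simp only [op_apply, mu, LinearMap.coe_mk, AddHom.coe_mk, Pi.sub_apply]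
  rw [Finset.sum_mul, ← Finset.sum_sub_distrib]
  refine Finset.sum_congr rfl fun i _ => ?_
  ring

theorem mu_single {a b : ℕ} (M : Fin a → Fin b → MonoidAlgebra ℤ P) (i : Fin a) :
    mu M (Pi.single i 1) = M i := by
  funext j
  simp only [mu, LinearMap.coe_mk, AddHom.coe_mk]
  rw [Finset.sum_eq_single i]
  · rw [Pi.single_eq_same, one_mul]
  · intro b _ hb
    rw [Pi.single_eq_of_ne hb, zero_mul]
  · intro h
    exact absurd (Finset.mem_univ i) h

theorem Wt_sub {n : ℕ} {δ : Fin n → D → ℤ} {F : D → ℤ} {x y : Fin n → MonoidAlgebra ℤ P}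
    (hx : Wt χ δ F x) (hy : Wt χ δ F y) : Wt χ δ F (x - y) := by
  intro b q hq i
  by_cases h : (x b).coeff q = 0
  · refine hy b q (fun h' => hq ?_) i
    rw [Pi.sub_apply, MonoidAlgebra.coeff_sub, Finsupp.sub_apply, h, h', sub_zero]
  · exact hx b q h i

theorem Wt_mu (hχ : ∀ i a b, χ i (a * b) = χ i a + χ i b) {a b : ℕ} {δa : Fin a → D → ℤ}
    {δb : Fin b → D → ℤ} {F H : D → ℤ} {x : Fin a → MonoidAlgebra ℤ P}
    {K : Fin a → Fin b → MonoidAlgebra ℤ P} (hx : Wt χ δa F x)
    (hK : ∀ c, Wt χ δb (δa c + H) (K c)) : Wt χ δb (F + H) (mu K x) := by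
  intro c q hq i
  have h1 : (∑ e, x e * K e c).coeff q ≠ 0 := hq
  rw [MonoidAlgebra.coeff_sum, Finsupp.finsetSum_apply] at h1
  obtain ⟨e, _, he⟩ := Finset.exists_ne_zero_of_sum_ne_zero h1
  obtain ⟨q1, q2, hq1, hq2, rfl⟩ := mul_ne _ _ _ he
  have h2 := hx e q1 hq1 i
  have h3 := hK e c q2 hq2 i
  rw [hχ, Pi.add_apply]
  rw [Pi.add_apply] at h3
  linarith

theorem chi_one (hχ : ∀ i a b, χ i (a * b) = χ i a + χ i b) (i : D) : χ i 1 = 0 := by
  have := hχ i 1 1
  rw [mul_one] at this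
  linarith

theorem Wt_op (hχ : ∀ i a b, χ i (a * b) = χ i a + χ i b) (g : P) (H : D → ℤ)
    (hH : ∀ i, 0 ≤ H i) (hg : ∀ i, χ i g ≤ H i) {n : ℕ} (δ : Fin n → D → ℤ) (b : Fin n) :
    Wt χ δ (δ b + H) (op g n (Pi.single b 1)) := by
  refine Wt_sub ?_ ?_
  · intro c q hq i
    by_cases hc : c = b
    · subst hc
      rw [Pi.single_eq_same, MonoidAlgebra.one_def, MonoidAlgebra.coeff_single] at hq
      have hq1 : q = 1 := by
        by_contra hne
        exact hq (Finsupp.single_eq_of_ne hne)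
      subst hq1
      rw [chi_one hχ, Pi.add_apply]
      linarith [hH i]
    · rw [Pi.single_eq_of_ne hc] at hq
      exact absurd rfl hq
  · intro c q hq i
    by_cases hc : c = b
    · subst hc
      simp only [Pi.single_eq_same, one_mul] at hq
      rw [MonoidAlgebra.of_apply, MonoidAlgebra.coeff_single] at hq
      have hq1 : q = g := by
        by_contra hne
        exact hq (Finsupp.single_eq_of_ne hne)
      subst hq1
      rw [Pi.add_apply]
      linarith [hg i]
    · simp only [Pi.single_eq_of_ne hc, zero_mul] at hq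
      exact absurd rfl hq

theorem aug_op (g : P) (n : ℕ) (x : Fin n → MonoidAlgebra ℤ P) (b : Fin n) :
    aug P (op g n x b) = 0 := by
  rw [op_apply, Pi.sub_apply, map_sub, map_mul]
  have : aug P (MonoidAlgebra.of ℤ P g) = 1 := by simp [aug]
  rw [this, mul_one, sub_self]

end

end FH

open FH in
theorem I_FH : StFH := by
  intro P _ D χ hχ n δ M hF g H hH hg
  -- the cycles
  let Zc : ∀ j, (Fin (n j) → MonoidAlgebra ℤ P) → Prop := fun j => match j with
    | 0 => fun _ => True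
    | j + 1 => fun X => mu (M j) X = 0
  let St : ∀ j, (Fin (n j) → Fin (n (j + 1)) → MonoidAlgebra ℤ P) → Prop := fun j K =>
    (∀ b, Wt χ (δ (j + 1)) (δ j b + H) (K b)) ∧
      ∀ X, Zc j X → op g (n j) X = mu (M j) (mu K X)
  have hZ : ∀ j (y : Fin (n (j + 1)) → MonoidAlgebra ℤ P), Zc j (mu (M j) y) := by
    intro j y
    cases j with
    | zero => exact trivial
    | succ j => exact hF.dd j y
  have step : ∀ j (K : Fin (n j) → Fin (n (j + 1)) → MonoidAlgebra ℤ P), St j K →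
      ∃ K' : Fin (n (j + 1)) → Fin (n (j + 1 + 1)) → MonoidAlgebra ℤ P,
        (∀ b, Wt χ (δ (j + 1 + 1)) (δ (j + 1) b + H) (K' b)) ∧
        ∀ x, op g (n (j + 1)) x = mu (M (j + 1)) (mu K' x) + mu K (mu (M j) x) := by
    intro j K hK
    have hb : ∀ b : Fin (n (j + 1)), ∃ y, Wt χ (δ (j + 2)) (δ (j + 1) b + H) y ∧
        mu (M (j + 1)) y = op g (n (j + 1)) (Pi.single b 1) -
          mu K (mu (M j) (Pi.single b 1)) := by
      intro b
      refine hF.ex j _ _ (Wt_sub (Wt_op hχ g H hH hg _ b) ?_) ?_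
      · rw [mu_single]
        exact Wt_mu hχ (hF.wt j b) hK.1
      · rw [map_sub, op_mu, hK.2 _ (hZ j _), sub_self]
    choose K' hK' using hb
    refine ⟨K', fun b => (hK' b).1, fun x => ?_⟩
    have hlin : op g (n (j + 1)) = (mu (M (j + 1))).comp (mu K') + (mu K).comp (mu (M j)) := by
      refine LinearMap.pi_ext' fun b => ?_
      ext1
      rw [LinearMap.comp_apply, LinearMap.comp_apply, LinearMap.add_apply, LinearMap.comp_apply,
        LinearMap.comp_apply, LinearMap.single_apply, mu_single K', (hK' b).2,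
        sub_add_cancel]
    rw [hlin]
    rfl
  have h0 : ∃ K : Fin (n 0) → Fin (n (0 + 1)) → MonoidAlgebra ℤ P,
      (∀ b, Wt χ (δ (0 + 1)) (δ 0 b + H) (K b)) ∧ ∀ x, op g (n 0) x = mu (M 0) (mu K x) := by
    have hb : ∀ b : Fin (n 0), ∃ y, Wt χ (δ 1) (δ 0 b + H) y ∧
        mu (M 0) y = op g (n 0) (Pi.single b 1) := by
      intro b
      refine hF.ex0 _ _ (Wt_op hχ g H hH hg _ b) ?_
      exact Finset.sum_eq_zero fun c _ => aug_op g _ _ c
    choose K hK using hb
    refine ⟨K, fun b => (hK b).1, fun x => ?_⟩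
    have hlin : op g (n 0) = (mu (M 0)).comp (mu K) := by
      refine LinearMap.pi_ext' fun b => ?_
      ext1
      rw [LinearMap.comp_apply, LinearMap.comp_apply, LinearMap.comp_apply,
        LinearMap.single_apply, mu_single K, (hK b).2]
    rw [hlin]
    rfl
  obtain ⟨K0, hK0w, hK0⟩ := h0
  let S : ℕ → Type := fun j => {K : Fin (n j) → Fin (n (j + 1)) → MonoidAlgebra ℤ P // St j K}
  have step' : ∀ j (K : S j), ∃ K' : S (j + 1),
      ∀ x, op g (n (j + 1)) x = mu (M (j + 1)) (mu K'.1 x) + mu K.1 (mu (M j) x) := by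
    intro j K
    obtain ⟨K', h1, h2⟩ := step j K.1 K.2
    refine ⟨⟨K', h1, fun X hX => ?_⟩, h2⟩
    have hX' : mu (M j) X = 0 := hX
    rw [h2 X, hX', map_zero, add_zero]
  choose nx hnx using step'
  let s0 : S 0 := ⟨K0, hK0w, fun X _ => hK0 X⟩
  let sq : ∀ j, S j := fun j => Nat.rec (motive := S) s0 (fun j K => nx j K) j
  refine ⟨fun j => (sq j).1, fun j b => (sq j).2.1 b, fun x => hK0 x, fun j x => ?_⟩
  exact hnx j (sq j) x

end Pool.Agent.Work.MP_e9e200_al.UP

end

section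

/-!
# Project UP: item GN, noetherian property of graded modules over monoid rings

The monoid acts on the finitely supported functions `Γ →₀ Y`, which makes them a module over the
noetherian ring `ℤP`.
-/

set_option autoImplicit false

namespace Pool.Agent.Work.MP_e9e200_al.UP

open Finsupp

namespace GN

variable {P Γ Y : Type} [CommMonoid P] [AddCommGroup Γ] [AddCommGroup Y]

/-- the shifted action of an element of the monoid -/
noncomputable def sh (deg : P → Γ) (ρ : P →* AddMonoid.End Y) (μ : P) :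
    (Γ →₀ Y) →+ (Γ →₀ Y) :=
  ((Finsupp.mapDomain.addMonoidHom (fun γ : Γ => γ + deg μ)) : (Γ →₀ Y) →+ (Γ →₀ Y)).comp
    (Finsupp.mapRange.addMonoidHom (ρ μ : Y →+ Y))

lemma sh_single (deg : P → Γ) (ρ : P →* AddMonoid.End Y) (μ : P) (γ : Γ) (y : Y) :
    sh deg ρ μ (single γ y) = single (γ + deg μ) (ρ μ y) := by
  show Finsupp.mapDomain _ (Finsupp.mapRange (ρ μ) (map_zero (ρ μ)) (single γ y)) = _
  rw [Finsupp.mapRange_single, Finsupp.mapDomain_single]

lemma sh_apply (deg : P → Γ) (ρ : P →* AddMonoid.End Y) (μ : P) (γ : Γ) (f : Γ →₀ Y) :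
    sh deg ρ μ f γ = ρ μ (f (γ - deg μ)) := by
  have h : sh deg ρ μ f ((γ - deg μ) + deg μ) = ρ μ (f (γ - deg μ)) := by
    show Finsupp.mapDomain (fun γ : Γ => γ + deg μ) (Finsupp.mapRange (ρ μ) (map_zero (ρ μ)) f)
      ((fun γ : Γ => γ + deg μ) (γ - deg μ)) = _
    rw [Finsupp.mapDomain_apply (add_left_injective (deg μ)), Finsupp.mapRange_apply]
  rwa [sub_add_cancel] at h

lemma sh_one (deg : P → Γ) (hd : ∀ a b, deg (a * b) = deg a + deg b)
    (ρ : P →* AddMonoid.End Y) (f : Γ →₀ Y) : sh deg ρ 1 f = f := by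
  have h1 : deg 1 = 0 := by
    have h := hd 1 1
    rw [mul_one] at h
    exact left_eq_add.1 h
  refine Finsupp.ext fun γ => ?_
  rw [sh_apply, h1, sub_zero, map_one]
  rfl

lemma sh_mul (deg : P → Γ) (hd : ∀ a b, deg (a * b) = deg a + deg b)
    (ρ : P →* AddMonoid.End Y) (a b : P) (f : Γ →₀ Y) :
    sh deg ρ (a * b) f = sh deg ρ a (sh deg ρ b f) := by
  refine Finsupp.ext fun γ => ?_
  rw [sh_apply, map_mul, hd, sh_apply, sh_apply, sub_sub]
  rfl

/-- the shifted action -/
noncomputable def shHom (deg : P → Γ) (hd : ∀ a b, deg (a * b) = deg a + deg b)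
    (ρ : P →* AddMonoid.End Y) : P →* AddMonoid.End (Γ →₀ Y) where
  toFun := fun μ => (sh deg ρ μ : AddMonoid.End (Γ →₀ Y))
  map_one' := AddMonoidHom.ext fun f => sh_one deg hd ρ f
  map_mul' := fun a b => AddMonoidHom.ext fun f => sh_mul deg hd ρ a b f

/-- the ring homomorphism -/
noncomputable def act (deg : P → Γ) (hd : ∀ a b, deg (a * b) = deg a + deg b)
    (ρ : P →* AddMonoid.End Y) : MonoidAlgebra ℤ P →+* AddMonoid.End (Γ →₀ Y) :=
  (MonoidAlgebra.lift ℤ (AddMonoid.End (Γ →₀ Y)) P (shHom deg hd ρ)).toRingHom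

lemma act_of (deg : P → Γ) (hd : ∀ a b, deg (a * b) = deg a + deg b)
    (ρ : P →* AddMonoid.End Y) (μ : P) :
    act deg hd ρ (MonoidAlgebra.of ℤ P μ) = (sh deg ρ μ : AddMonoid.End (Γ →₀ Y)) := by
  show MonoidAlgebra.lift ℤ (AddMonoid.End (Γ →₀ Y)) P (shHom deg hd ρ)
    (MonoidAlgebra.of ℤ P μ) = _
  rw [MonoidAlgebra.lift_of]
  rfl

end GN

theorem I_GN : StGN := by
  classical
  intro P _ _ Γ _ deg hd Y _ ρ Y1 Y2 h21 hY2 hfg
  obtain ⟨n, g, y, hy, hgen⟩ := hfg
  let _ : Module (MonoidAlgebra ℤ P) (Γ →₀ Y) := Module.compHom _ (GN.act deg hd ρ)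
  have hof : ∀ (μ : P) (f : Γ →₀ Y), MonoidAlgebra.of ℤ P μ • f = GN.sh deg ρ μ f := by
    intro μ f
    show GN.act deg hd ρ (MonoidAlgebra.of ℤ P μ) • f = _
    rw [GN.act_of]
    rfl
  have hN : IsNoetherianRing (MonoidAlgebra ℤ P) := by
    have : Algebra.FiniteType ℤ (MonoidAlgebra ℤ P) := MonoidAlgebra.finiteType_of_fg
    exact Algebra.FiniteType.isNoetherianRing ℤ _
  -- the submodule of all `f` with `f γ ∈ Y2 γ`
  let N2 : Submodule (MonoidAlgebra ℤ P) (Γ →₀ Y) :=
    { carrier := {f | ∀ γ, f γ ∈ Y2 γ}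
      zero_mem' := fun γ => zero_mem _
      add_mem' := fun {a b} ha hb γ => add_mem (ha γ) (hb γ)
      smul_mem' := by
        intro r f hf
        induction r using MonoidAlgebra.induction_on with
        | of μ =>
          intro γ
          rw [hof, GN.sh_apply]
          have h := hY2 μ (γ - deg μ) _ (hf (γ - deg μ))
          rwa [sub_add_cancel] at h
        | add a b ha hb =>
          intro γ
          rw [add_smul]
          exact add_mem (ha γ) (hb γ)
        | smul k a ha =>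
          intro γ
          rw [smul_assoc]
          exact zsmul_mem (ha γ) k }
  let N1 : Submodule (MonoidAlgebra ℤ P) (Γ →₀ Y) :=
    Submodule.span _ (Set.range fun a : Fin n => single (g a) (y a))
  have hle : N2 ≤ N1 := by
    intro f hf
    rw [← Finsupp.sum_single f]
    refine Submodule.sum_mem _ fun γ _ => ?_
    have h := hgen γ (f γ) (h21 γ (hf γ))
    generalize f γ = x at h
    induction h using AddSubgroup.closure_induction with
    | mem x hx =>
      obtain ⟨a, μ, h1, rfl⟩ := hx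
      rw [← h1, ← GN.sh_single, ← hof]
      exact Submodule.smul_mem _ _ (Submodule.subset_span ⟨a, rfl⟩)
    | zero => rw [single_zero]; exact zero_mem _
    | add a b _ _ ha hb => rw [single_add]; exact add_mem ha hb
    | neg a _ ha => rw [single_neg]; exact neg_mem ha
  have hN1 : N1.FG := Submodule.fg_span (Set.finite_range _)
  have : IsNoetherian (MonoidAlgebra ℤ P) N1 := isNoetherian_of_fg_of_noetherian N1 hN1
  have hN2 : N2.FG := by
    have h1 : (N2.comap N1.subtype).FG := IsNoetherian.noetherian _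
    have h2 := h1.map N1.subtype
    rwa [Submodule.map_comap_subtype, inf_eq_right.2 hle] at h2
  obtain ⟨s, hs⟩ := hN2
  -- the new generators
  let T : Finset ((Γ →₀ Y) × Γ) := s.biUnion fun f => f.support.image fun γ => (f, γ)
  have hT : ∀ f ∈ s, ∀ γ, f γ ≠ 0 → (f, γ) ∈ T := by
    intro f hf γ hγ
    exact Finset.mem_biUnion.2 ⟨f, hf, Finset.mem_image.2 ⟨γ, Finsupp.mem_support_iff.2 hγ, rfl⟩⟩
  have hT2 : ∀ x ∈ T, x.1 ∈ s := by
    intro x hx
    obtain ⟨f, hf, h⟩ := Finset.mem_biUnion.1 hx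
    obtain ⟨γ, _, rfl⟩ := Finset.mem_image.1 h
    exact hf
  have hsN : ∀ f ∈ s, ∀ γ, f γ ∈ Y2 γ := by
    intro f hf
    have h : f ∈ N2 := by rw [← hs]; exact Submodule.subset_span hf
    exact h
  have h1 : deg 1 = 0 := by
    have h := hd 1 1
    rw [mul_one] at h
    exact left_eq_add.1 h
  refine ⟨T.card, fun a => (T.equivFin.symm a).1.2,
    fun a => (T.equivFin.symm a).1.1 (T.equivFin.symm a).1.2,
    fun a => hsN _ (hT2 _ (T.equivFin.symm a).2) _, fun γ x hx => ?_⟩
  have key : ∀ f ∈ Submodule.span (MonoidAlgebra ℤ P) (s : Set (Γ →₀ Y)), ∀ γ, f γ ∈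
      AddSubgroup.closure {z | ∃ (a : Fin T.card) (μ : P), (T.equivFin.symm a).1.2 + deg μ = γ ∧
        z = ρ μ ((T.equivFin.symm a).1.1 (T.equivFin.symm a).1.2)} := by
    intro f hf
    induction hf using Submodule.span_induction with
    | mem f hf =>
      intro γ
      by_cases h0 : f γ = 0
      · rw [h0]; exact zero_mem _
      · refine AddSubgroup.subset_closure ⟨T.equivFin ⟨(f, γ), hT f hf γ h0⟩, 1, ?_, ?_⟩
        · rw [Equiv.symm_apply_apply, h1, add_zero]
        · rw [Equiv.symm_apply_apply, map_one]; rfl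
    | zero => intro γ; exact zero_mem _
    | add a b _ _ ha hb => intro γ; exact add_mem (ha γ) (hb γ)
    | smul r f _ hf =>
      induction r using MonoidAlgebra.induction_on with
      | of μ =>
        intro γ
        rw [hof, GN.sh_apply]
        have h := hf (γ - deg μ)
        generalize f (γ - deg μ) = x at h
        induction h using AddSubgroup.closure_induction with
        | mem x hx =>
          obtain ⟨a, ν, h1, rfl⟩ := hx
          refine AddSubgroup.subset_closure ⟨a, μ * ν, ?_, ?_⟩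
          · rw [hd, add_comm (deg μ), ← add_assoc, h1, sub_add_cancel]
          · rw [map_mul]; rfl
        | zero => rw [map_zero]; exact zero_mem _
        | add a b _ _ ha hb => rw [map_add]; exact add_mem ha hb
        | neg a _ ha => rw [map_neg]; exact neg_mem ha
      | add a b ha hb =>
        intro γ
        rw [add_smul]
        exact add_mem (ha γ) (hb γ)
      | smul k a ha =>
        intro γ
        rw [smul_assoc]
        exact zsmul_mem (ha γ) k
  have hx2 : single γ x ∈ N2 := by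
    intro γ'
    by_cases h : γ' = γ
    · rw [h, single_eq_same]; exact hx
    · rw [single_eq_of_ne h]; exact zero_mem _
  rw [← hs] at hx2
  have h := key _ hx2 γ
  rwa [single_eq_same] at h

end Pool.Agent.Work.MP_e9e200_al.UP

end

section

/-!
# Project UP: from the levels to type `FP_m`
-/

set_option autoImplicit false

namespace Pool.Agent.Work.MP_e9e200_al.UP

open Finsupp

theorem I_H3 (fr : StFR) (t3 : StT3) (e3 : StE3) (e4 : StE4) (e5 : StE5) (e6 : StE6) (e7 : StE7)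
    (f7 : StF7) : StH3 := by
  intro G _ hmet D _ _ L hL hN m hlvl hfg
  obtain ⟨n, δ, M, hM⟩ := fr L.QS D (fun i (q : L.QS) => L.χ i q) (fun i a b => hL.χ_mul i a b)
  have hsys := e4 G D L hL n δ M hM
  obtain ⟨s0, hs0⟩ := e5 G D L hL n δ M hM
  have hinj := t3 D (L.Zg n) (L.dg M) (L.Rg δ) hsys m L.Dep
    (fun I hI => e3 G D L hL m hlvl n δ I hI) L.e (fun i => (hL.e_pos i).le) s0 hs0
  obtain ⟨t0, ht0⟩ := e6 G D L hL n δ M m hinj
  have h7 := e7 G D L hL n δ M hM m t0 ht0
  exact f7 G hmet D L hL hN n δ M hM m ⟨t0, h7⟩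

end Pool.Agent.Work.MP_e9e200_al.UP

end

section

/-!
# Project UP, item H4: exactness at all large levels
-/

set_option autoImplicit false

namespace Pool.Agent.Work.MP_e9e200_al.UP

open Finsupp

namespace H4

lemma ab_fg (G : Type) [Group G] [Group.FG G] : Group.FG (Abelianization G) :=
  Group.fg_of_surjective (f := (Abelianization.of : G →* Abelianization G))
    (QuotientGroup.mk_surjective)

lemma NN_mono {Q M D : Type} [CommGroup Q] [AddCommGroup M]
    [Module (MonoidAlgebra ℤ Q) M] (χ : D → Q → ℤ) (T : Finset M) {E E' : D → ℤ} (h : E ≤ E') :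
    NN χ T E ≤ NN χ T E' := by
  refine AddSubgroup.closure_mono ?_
  rintro x ⟨q, t, ht, hq, rfl⟩
  refine ⟨q, t, ht, fun i => ?_, rfl⟩
  have h1 := hq i
  have h2 : E i ≤ E' i := h i
  omega

lemma sub_ind_le {D : Type} [DecidableEq D] (E : D → ℤ) {J J' : Finset D} (h : J ⊆ J') :
    E - ind J' ≤ E - ind J := by
  intro i
  have h2 : ind J i ≤ ind J' i := ind_mono h i
  show E i - ind J' i ≤ E i - ind J i
  omega

end H4

theorem I_H4 (c4 : StC4) (c5 : StC5) (d : StD) (e1 : StE1) (h2 : StH2) : StH4 := by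
  intro G _ _ hG M _ _ y y1 y2 y3 y4 T hT m v D _ _ χ e Sm Δ K _ u c geo
  have : Group.FG (Abelianization G) := H4.ab_fg G
  obtain ⟨hgood, hfg, hQS, hN⟩ := h2 G hG M y y1 y2 y3 y4 T hT D χ e K u geo.χ_mul geo.u_mul
    geo.e_pos geo.fin
  intro I hI q hq F
  -- `I` is not covered
  have hUn : ¬ Un Δ q I := by
    intro hU
    obtain ⟨q', hq1, hq2⟩ := geo.cov I (Un_mono geo.dn.1 hq hU)
    exact hI ⟨q', (hQS q').2 hq1, hq2⟩
  have hC4 := c4 (Abelianization G) M D χ geo.χ_mul T e Sm Δ geo.dn geo.good geo.shift geo.mesh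
  obtain ⟨t0, ht0⟩ := c5 (Abelianization G) M D χ T e Δ hC4 q F I
  refine ⟨t0, fun t ht => ?_⟩
  have hKK := ht0 t ht
  set E : D → ℤ := (t : ℤ) • e + F with hE
  have hex := d D Δ geo.dn q (NN χ T E)
    (fun J => (NN χ T (E - ind J)).addSubgroupOf (NN χ T E)) (by
      intro J J' hJ x hx
      rw [AddSubgroup.mem_addSubgroupOf] at hx ⊢
      exact H4.NN_mono χ T (H4.sub_ind_le E hJ) hx) (by
      rw [ind_empty, sub_zero]
      exact AddSubgroup.addSubgroupOf_self _) I hKK hUn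
  set L := mkLev y T χ e u with hL
  have hNS : ∀ n ∈ L.N E, n ∈ L.S := by
    intro n hn
    have h1 : n ∈ commutator G := hgood.N_le E hn
    show Abelianization.of n ∈ L.QS
    have h3 : (Abelianization.of n : Abelianization G) = 1 := by
      have := (Abelianization.ker_of G)
      rw [← MonoidHom.mem_ker, this]
      exact h1
    rw [h3]
    exact one_mem _
  let φ : L.N E → NN χ T E := fun g => ⟨y g, ((hN E g).1 g.2).2⟩
  have hφ1 : ∀ a b, φ (a * b) = φ a + φ b := by
    intro a b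
    apply Subtype.ext
    exact y1 _ (hgood.N_le E a.2) _ (hgood.N_le E b.2)
  have y10 : y 1 = 0 := by
    have h1 := y1 1 (one_mem _) 1 (one_mem _)
    rw [mul_one] at h1
    simpa using h1
  have hyinv : ∀ a ∈ commutator G, y a⁻¹ = - y a := by
    intro a ha
    have h1 := y1 a ha a⁻¹ (inv_mem ha)
    rw [mul_inv_cancel, y10] at h1
    exact (neg_eq_of_add_eq_zero_right h1.symm).symm
  have hφ2 : Function.Bijective φ := by
    constructor
    · intro a b hab
      have h1 : y a = y b := congrArg Subtype.val hab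
      have ha := hgood.N_le E a.2
      have hb := hgood.N_le E b.2
      have h3 : y ((a : G) * (b : G)⁻¹) = 0 := by
        rw [y1 _ ha _ (inv_mem hb), hyinv _ hb, h1, add_neg_cancel]
      have h4 := y2 _ (mul_mem ha (inv_mem hb)) h3
      exact Subtype.ext (mul_inv_eq_one.1 h4)
    · rintro ⟨x, hx⟩
      obtain ⟨a, ha, rfl⟩ := y3 x
      exact ⟨⟨a, (hN E a).2 ⟨ha, hx⟩⟩, rfl⟩
  refine e1 G L.S (L.N E) hNS (NN χ T E) φ hφ1 hφ2 D
    (fun J => (NN χ T (E - ind J)).addSubgroupOf (NN χ T E)) (fun J => L.N (E - ind J)) ?_ I q hex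
  intro J g
  constructor
  · intro hg
    have hle : L.N (E - ind J) ≤ L.N E := by
      refine hgood.N_mono _ _ ?_
      have := H4.sub_ind_le E (Finset.empty_subset J)
      rwa [ind_empty, sub_zero] at this
    refine ⟨hle hg, ?_⟩
    rw [AddSubgroup.mem_addSubgroupOf]
    exact ((hN _ g).1 hg).2
  · rintro ⟨h, hg⟩
    rw [AddSubgroup.mem_addSubgroupOf] at hg
    exact (hN _ g).2 ⟨hgood.N_le E h, hg⟩

end Pool.Agent.Work.MP_e9e200_al.UP

end

section

set_option autoImplicit false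

namespace Pool.Agent.Work.MP_e9e200_al.UP

theorem I_KS2 : StKS2 := by
  intro G _ S N N' s hN hN' x hx
  unfold KS at hx
  induction hx using Submodule.span_induction with
  | mem x hx =>
    obtain ⟨n, hn, rfl⟩ := hx
    have h1 : (s : G)⁻¹ * n * s ∈ N' := hN _ hn
    let n' : S := ⟨(s : G)⁻¹ * n * s, hN' _ h1⟩
    have h2 : n * s = s * n' := by
      apply Subtype.ext
      show (n : G) * s = s * ((s : G)⁻¹ * n * s)
      group
    have h3 : (MonoidAlgebra.of ℤ S n - 1) * MonoidAlgebra.of ℤ S s =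
        MonoidAlgebra.of ℤ S s * (MonoidAlgebra.of ℤ S n' - 1) := by
      rw [sub_mul, mul_sub, ← map_mul, ← map_mul, h2, one_mul, mul_one]
    rw [h3]
    exact Submodule.smul_mem (KS S N') (MonoidAlgebra.of ℤ S s)
      (Submodule.subset_span ⟨n', h1, rfl⟩)
  | zero => rw [zero_mul]; exact zero_mem _
  | add x y _ _ hx hy => rw [add_mul]; exact add_mem hx hy
  | smul r x _ hx =>
    rw [smul_eq_mul, mul_assoc]
    exact Submodule.smul_mem _ r hx

end Pool.Agent.Work.MP_e9e200_al.UP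

end

section

/-!
# Project UP: item T1 (the staircase)
-/

set_option autoImplicit false

namespace Pool.Agent.Work.MP_e9e200_al.UP

open Finsupp

namespace T1

variable {ι : Type} [DecidableEq ι] {Z : ℕ → Type} [∀ p, AddCommGroup (Z p)]

/-- chains with coefficients in the subgroups `R p` -/
abbrev CR (R : ∀ p, (ι → ℤ) → AddSubgroup (Z p)) (I : Finset ι) (F : ι → ℤ) (p q : ℕ) :
    AddSubgroup (List ι →₀ Z p) :=
  Ch (fun J => R p (F - ind J)) I q

/-- all chains -/
abbrev CT (Z : ℕ → Type) [∀ p, AddCommGroup (Z p)] (I : Finset ι) (p q : ℕ) :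
    AddSubgroup (List ι →₀ Z p) :=
  Ch (fun _ => (⊤ : AddSubgroup (Z p))) I q

/-- the differential on coefficients -/
noncomputable abbrev DD (ι : Type) (d : ∀ p, Z (p + 1) →+ Z p) (p : ℕ) :
    (List ι →₀ Z (p + 1)) →+ (List ι →₀ Z p) :=
  Finsupp.mapRange.addMonoidHom (d p)

lemma DD_apply (d : ∀ p, Z (p + 1) →+ Z p) (p : ℕ) (c : List ι →₀ Z (p + 1)) (l : List ι) :
    DD ι d p c l = d p (c l) := by
  simp [DD]

lemma mem_CT {I : Finset ι} {p q : ℕ} {c : List ι →₀ Z p} :
    c ∈ CT Z I p q ↔ ∀ l, c l ≠ 0 → l.length = q ∧ ∀ i ∈ l, i ∈ I := by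
  rw [Ch_mem]
  exact ⟨fun h l => (h l).2, fun h l => ⟨AddSubgroup.mem_top _, h l⟩⟩

lemma mem_CR {R : ∀ p, (ι → ℤ) → AddSubgroup (Z p)} {I : Finset ι} {F : ι → ℤ} {p q : ℕ}
    {c : List ι →₀ Z p} :
    c ∈ CR R I F p q ↔ (∀ l, c l ∈ R p (F - ind l.toFinset)) ∧ c ∈ CT Z I p q := by
  rw [Ch_mem, mem_CT]
  exact ⟨fun h => ⟨fun l => (h l).1, fun l => (h l).2⟩, fun h l => ⟨h.1 l, h.2 l⟩⟩

lemma CT_DD (d : ∀ p, Z (p + 1) →+ Z p) {I : Finset ι} {p q : ℕ} {c : List ι →₀ Z (p + 1)}
    (hc : c ∈ CT Z I (p + 1) q) : DD ι d p c ∈ CT Z I p q := by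
  rw [mem_CT] at hc ⊢
  intro l hl
  refine hc l (fun h => hl ?_)
  rw [DD_apply, h, map_zero]

variable {d : ∀ p, Z (p + 1) →+ Z p} {R : ∀ p, (ι → ℤ) → AddSubgroup (Z p)}

lemma CR_DD (hS : Sys Z d R) {I : Finset ι} {F : ι → ℤ} {p q : ℕ} {c : List ι →₀ Z (p + 1)}
    (hc : c ∈ CR R I F (p + 1) q) : DD ι d p c ∈ CR R I F p q := by
  rw [mem_CR] at hc ⊢
  refine ⟨fun l => ?_, CT_DD d hc.2⟩
  rw [DD_apply]
  exact hS.dR p _ _ (hc.1 l)

lemma CR_DDD (hS : Sys Z d R) {I : Finset ι} {F : ι → ℤ} {p q : ℕ} {c : List ι →₀ Z (p + 2)}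
    (hc : c ∈ CT Z I (p + 2) q) : DD ι d p (DD ι d (p + 1) c) ∈ CR R I F p q := by
  rw [mem_CR]
  refine ⟨fun l => ?_, CT_DD d (CT_DD d hc)⟩
  rw [DD_apply, DD_apply]
  exact hS.dd p _ _

lemma CR_del (hS : Sys Z d R) {I : Finset ι} {F : ι → ℤ} {p q : ℕ} {c : List ι →₀ Z p}
    (hc : c ∈ CR R I F p (q + 1)) : del (Z p) c ∈ CR R I F p q := by
  have h := del_mem (P := fun J => R p (F - ind J)) (I := I) (k := q + 1)
    (fun J J' hJ => hS.mono p _ _ (sub_le_sub_left (ind_mono hJ) F)) hc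
  simpa using h

lemma CT_del {I : Finset ι} {p q : ℕ} {c : List ι →₀ Z p}
    (hc : c ∈ CT Z I p (q + 1)) : del (Z p) c ∈ CT Z I p q := by
  have h := del_mem (P := fun _ => (⊤ : AddSubgroup (Z p))) (I := I) (k := q + 1)
    (fun J J' hJ => le_refl _) hc
  simpa using h

/-- the values of the chain are cycles -/
def CA (d : ∀ p, Z (p + 1) →+ Z p) (R : ∀ p, (ι → ℤ) → AddSubgroup (Z p)) (I : Finset ι)
    (F : ι → ℤ) : ∀ (p _ : ℕ), (List ι →₀ Z p) → Prop
  | 0, _, _ => True
  | p + 1, q, y => DD ι d p y ∈ CR R I F p q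

/-- the boundary of the differential is small -/
def CB (d : ∀ p, Z (p + 1) →+ Z p) (R : ∀ p, (ι → ℤ) → AddSubgroup (Z p)) (I : Finset ι)
    (F : ι → ℤ) : ∀ (p _ : ℕ), (List ι →₀ Z p) → Prop
  | 0, _, _ => True
  | p + 1, q, y => del (Z p) (DD ι d p y) ∈ CR R I F p (q - 1)

lemma CA_cyc {I : Finset ι} {F : ι → ℤ} {p q : ℕ} {c : List ι →₀ Z p}
    (hc : CA d R I F p q c) (l : List ι) : Cyc d R p (F - ind l.toFinset) (c l) := by
  cases p with
  | zero => exact trivial
  | succ p =>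
    have h := (mem_CR.1 hc).1 l
    rw [DD_apply] at h
    exact h

/-- lifting of a chain of cycles -/
lemma lift {I : Finset ι} {F : ι → ℤ} {p q : ℕ} (hC : Col d R p) {c : List ι →₀ Z p}
    (hc : c ∈ CT Z I p q) (hA : CA d R I F p q c) :
    ∃ u ∈ CT Z I (p + 1) q, c - DD ι d p u ∈ CR R I F p q := by
  have h1 : ∀ l : List ι, ∃ w, c l - d p w ∈ R p (F - ind l.toFinset) :=
    fun l => hC _ _ (CA_cyc hA l)
  classical
  choose w hw using h1
  let u : List ι →₀ Z (p + 1) := Finsupp.onFinset c.support (fun l => if c l = 0 then 0 else w l)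
    (fun l hl => by
      rw [Finsupp.mem_support_iff]
      intro h
      exact hl (if_pos h))
  have hu : ∀ l, u l = if c l = 0 then 0 else w l := fun l => rfl
  refine ⟨u, ?_, ?_⟩
  · rw [mem_CT] at hc ⊢
    intro l hl
    refine hc l (fun h => hl ?_)
    rw [hu, if_pos h]
  · rw [mem_CR]
    constructor
    · intro l
      rw [Finsupp.sub_apply, DD_apply, hu]
      split_ifs with h
      · rw [h, map_zero, sub_zero]; exact zero_mem _
      · exact hw l
    · rw [mem_CT] at hc ⊢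
      intro l hl
      refine hc l (fun h => hl ?_)
      rw [Finsupp.sub_apply, DD_apply, hu, if_pos h, h, map_zero, sub_zero]

/-- the staircase -/
lemma stair (hS : Sys Z d R) {m : ℕ} {I : Finset ι} (hR : Rows R m I) {i : ℕ}
    (hC : ∀ i' < i, Col d R i') (F : ι → ℤ) : ∀ (p q : ℕ), p ≤ i → p + q ≤ m + 1 → 1 ≤ q →
    ∀ y ∈ CT Z I p q, CB d R I F p q y → ∃ u ∈ CT Z I p (q + 1),
      CA d R I F p q (y - del (Z p) u) := by
  intro p
  induction p with
  | zero => exact fun q _ _ _ y _ _ => ⟨0, zero_mem _, trivial⟩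
  | succ p ih =>
    intro q hp hq hq1 y hy hB
    obtain ⟨y', hy', hyy'⟩ := hR p F q (by omega) (DD ι d p y) (CT_DD d hy) hB
    have hB' : CB d R I F p (q + 1) y' := by
      cases p with
      | zero => exact trivial
      | succ p =>
        show del (Z p) (DD ι d p y') ∈ CR R I F p (q + 1 - 1)
        rw [Nat.add_sub_cancel]
        have h1 : del (Z p) (DD ι d p y') = DD ι d p (DD ι d (p + 1) y) -
            DD ι d p (DD ι d (p + 1) y - del (Z (p + 1)) y') := by
          rw [del_mapRange, map_sub, sub_sub_cancel]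
        rw [h1]
        exact sub_mem (CR_DDD hS hy) (CR_DD hS hyy')
    obtain ⟨u', hu', hA⟩ := ih (q + 1) (by omega) (by omega) (by omega) y' hy' hB'
    have hc : y' - del (Z p) u' ∈ CT Z I p (q + 1) := sub_mem hy' (CT_del hu')
    obtain ⟨u, hu, hcu⟩ := lift (hC p (by omega)) hc hA
    refine ⟨u, hu, ?_⟩
    show DD ι d p (y - del (Z (p + 1)) u) ∈ CR R I F p q
    have h2 : DD ι d p (y - del (Z (p + 1)) u) = (DD ι d p y - del (Z p) y') +
        del (Z p) ((y' - del (Z p) u') - DD ι d p u) := by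
      rw [map_sub, ← del_mapRange, map_sub, map_sub, del_del]
      abel
    rw [h2]
    exact add_mem hyy' (CR_del hS hcu)

lemma del_one {p : ℕ} {I : Finset ι} {c : List ι →₀ Z p} (hc : c ∈ CT Z I p 1) :
    del (Z p) c = single [] (∑ j ∈ I, c [j]) := by
  refine Ch_induction (p := fun c => del (Z p) c = single [] (∑ j ∈ I, c [j])) ?_ ?_ ?_ hc
  · simp
  · intro a b ha hb
    rw [map_add, ha, hb, ← Finsupp.single_add, ← Finset.sum_add_distrib]
    rfl
  · intro l z _ hl hI
    obtain ⟨i, rfl⟩ := List.length_eq_one_iff.1 hl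
    have hi : i ∈ I := hI i (by simp)
    rw [del_single_cons, del_single_nil, map_zero, sub_zero]
    congr 1
    rw [Finset.sum_eq_single i]
    · rw [Finsupp.single_eq_same]
    · intro j _ hj
      rw [Finsupp.single_eq_of_ne]
      intro h
      exact hj (List.cons.inj h).1
    · exact fun h => absurd hi h

end T1

/-- item T1 -/
theorem I_T1 : StT1 := by
  intro ι _ Z _ d R hS m I hR i hi hC F z hz
  have h0 : (single ([] : List ι) z) ∈ T1.CT Z I i 0 :=
    Ch_single (AddSubgroup.mem_top _) rfl (by simp)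
  obtain ⟨y, hy, hcy⟩ := hR i F 0 (Nat.zero_le m) (single ([] : List ι) z) h0
    (by rw [del_single_nil]; exact zero_mem _)
  have hB : T1.CB d R I F i 1 y := by
    cases i with
    | zero => exact trivial
    | succ i =>
      show del (Z i) (T1.DD ι d i y) ∈ T1.CR R I F i 0
      have h1 : del (Z i) (T1.DD ι d i y) = T1.DD ι d i (single ([] : List ι) z) -
          T1.DD ι d i (single ([] : List ι) z - del (Z (i + 1)) y) := by
        rw [del_mapRange, map_sub, sub_sub_cancel]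
      rw [h1]
      refine sub_mem ?_ (T1.CR_DD hS hcy)
      have h2 : T1.DD ι d i (single ([] : List ι) z) = single ([] : List ι) (d i z) := by
        simp [T1.DD]
      rw [h2]
      refine Ch_single ?_ rfl (by simp)
      show d i z ∈ R i (F - ind ([] : List ι).toFinset)
      rw [List.toFinset_nil, ind_empty, sub_zero]
      exact hz
  obtain ⟨u, hu, hA⟩ := T1.stair hS hR hC F i 1 le_rfl (by omega) le_rfl y hy hB
  have hc : y - del (Z i) u ∈ T1.CT Z I i 1 := sub_mem hy (T1.CT_del hu)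
  refine ⟨fun j => (y - del (Z i) u) [j], fun j _ => ?_, ?_⟩
  · have h3 := T1.CA_cyc hA [j]
    simpa using h3
  · have h4 := T1.del_one hc
    rw [map_sub, del_del, sub_zero] at h4
    have h5 := (T1.mem_CR.1 hcy).1 []
    rw [h4, Finsupp.sub_apply, Finsupp.single_eq_same, Finsupp.single_eq_same,
      List.toFinset_nil, ind_empty, sub_zero] at h5
    exact h5

end Pool.Agent.Work.MP_e9e200_al.UP

end

section

set_option autoImplicit false

noncomputable section

namespace Pool.Agent.Work.MP_e9e200_al.UP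

/-- type `FP_m` is invariant under isomorphisms of rings -/
theorem isFP_ringEquiv {R R' : Type} [Ring R] [Ring R'] (φ : R ≃+* R') (M : Type)
    [AddCommGroup M] [Module R M] [Module R' M] (h : ∀ (r : R) (x : M), r • x = φ r • x) (m : ℕ)
    (H : IsFP R' M m) : IsFP R M m := by
  obtain ⟨P, d, ε, hP, hf, hs, he, hex⟩ := H
  let inst : ∀ i, Module R (P i) := fun i => Module.compHom (P i) (φ : R →+* R')
  have hsm : ∀ i (r : R) (x : P i), @SMul.smul R (P i) (inst i).toSMul r x = φ r • x :=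
    fun i r x => rfl
  let P' : ℕ → ModuleCat.{0} R := fun i => @ModuleCat.of R _ (P i) _ (inst i)
  let d' : ∀ i, P' (i + 1) →ₗ[R] P' i := fun i =>
    { toFun := fun x => d i x
      map_add' := fun x y => map_add (d i) x y
      map_smul' := fun r x => by
        show d i (φ r • x) = φ r • d i x
        exact map_smul (d i) (φ r) x }
  let ε' : P' 0 →ₗ[R] M :=
    { toFun := fun x => ε x
      map_add' := fun x y => map_add ε x y
      map_smul' := fun r x => by
        show ε (φ r • x) = r • ε x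
        rw [h]; exact map_smul ε (φ r) x }
  have hinv : ∀ (r' : R'), φ (φ.symm r') = r' := fun r' => φ.apply_symm_apply r'
  refine ⟨P', d', ε', fun i => ?_, fun i hi => ?_, hs, fun x => he x, fun i x => hex i x⟩
  · have := hP i
    have hi1 : RingHomInvPair (RingHomClass.toRingHom φ.symm : R' →+* R)
        (RingHomClass.toRingHom φ : R →+* R') :=
      ⟨by ext x; simp, by ext x; simp⟩
    have hi2 : RingHomInvPair (RingHomClass.toRingHom φ : R →+* R')
        (RingHomClass.toRingHom φ.symm : R' →+* R) :=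
      ⟨by ext x; simp, by ext x; simp⟩
    let e : (P i) ≃ₛₗ[(RingHomClass.toRingHom φ.symm : R' →+* R)] (P' i) :=
      { toFun := fun x => x
        invFun := fun x => x
        left_inv := fun x => rfl
        right_inv := fun x => rfl
        map_add' := fun x y => rfl
        map_smul' := fun r x => by
          show r • x = φ (φ.symm r) • x
          rw [hinv] }
    exact Module.Projective.of_equiv e
  · have := hf i hi
    let e : (P i) →ₛₗ[RingHomClass.toRingHom φ.symm] (P' i) :=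
      { toFun := fun x => x
        map_add' := fun x y => rfl
        map_smul' := fun r x => by
          show r • x = φ (φ.symm r) • x
          rw [hinv] }
    have : RingHomSurjective (RingHomClass.toRingHom φ.symm) := ⟨φ.symm.surjective⟩
    exact Module.Finite.of_surjective e (fun x => ⟨x, rfl⟩)

/-- change of the monoid along an isomorphism -/
theorem isFP_mulEquiv {S S' : Type} [Monoid S] [Monoid S'] (e : S ≃* S') (m : ℕ)
    (H : IsFP (MonoidAlgebra ℤ S') (Triv S') m) : IsFP (MonoidAlgebra ℤ S) (Triv S) m := by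
  let φ : MonoidAlgebra ℤ S ≃+* MonoidAlgebra ℤ S' := MonoidAlgebra.mapDomainRingEquiv ℤ e
  let _ : Module (MonoidAlgebra ℤ S') (Triv S) :=
    inferInstanceAs (Module (MonoidAlgebra ℤ S') (Triv S'))
  refine isFP_ringEquiv φ (Triv S) (fun r x => ?_) m H
  have key : ∀ r, aug S r = aug S' (φ r) := by
    intro r
    induction r using MonoidAlgebra.induction_linear with
    | zero => simp
    | add f g hf hg => rw [map_add, map_add, map_add, hf, hg]
    | single s n => simp [φ, aug, MonoidAlgebra.lift_single]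
  exact congrArg (fun n : ℤ => n * (show ℤ from x)) (key r)

/-- a submonoid which contains all elements is isomorphic to the group -/
def fullEquiv {G : Type} [Group G] (S : Submonoid G) (h : ∀ g, g ∈ S) : S ≃* G where
  toFun := fun s => s
  invFun := fun g => ⟨g, h g⟩
  left_inv := fun _ => rfl
  right_inv := fun _ => rfl
  map_mul' := fun _ _ => rfl

/-- the group ring and the monoid ring of a full submonoid -/
theorem groupFP_iff_full (G : Type) [Group G] (S : Submonoid G) (h : ∀ g, g ∈ S) (m : ℕ) :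
    GroupFP G m ↔ IsFP (MonoidAlgebra ℤ S) (Triv S) m :=
  ⟨fun H => isFP_mulEquiv (fullEquiv S h) m H, fun H => isFP_mulEquiv (fullEquiv S h).symm m H⟩

end Pool.Agent.Work.MP_e9e200_al.UP

end
end
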