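import Pool.Agent.Work.MP_e9e200_al.Bd.B02

/-! Bundle of small proof modules (one section per former module). -/

section

/-!
# Project LC, item DISC: the theorem for discrete characters
-/

set_option autoImplicit false

namespace Pool.Agent.Work.MP_e9e200_al.LC

open Finsupp

namespace DISC

variable {G : Type} [Group G]

theorem vl_mul (χ : Chr G) (g g' : G) : vl χ (g * g') = vl χ g + vl χ g' := by
  unfold vl
  rw [map_mul]
  rfl

theorem vl_one (χ : Chr G) : vl χ 1 = 0 := by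
  unfold vl
  rw [map_one]
  rfl

theorem vl_pow (χ : Chr G) (g : G) (k : ℕ) : vl χ (g ^ k) = k * vl χ g := by
  unfold vl
  rw [map_pow, toAdd_pow]
  simp

theorem vl_zpow (χ : Chr G) (g : G) (k : ℤ) : vl χ (g ^ k) = k * vl χ g := by
  unfold vl
  rw [map_zpow, toAdd_zpow]
  simp

theorem vl_bch (χ : Chr G) (g : G) : vl (bch χ) (Abelianization.of g) = vl χ g := rfl

theorem vl_prod {Q ι : Type} [CommGroup Q] (χ : Chr Q) (I : Finset ι) (f : ι → Q) :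
    vl χ (∏ i ∈ I, f i) = ∑ i ∈ I, vl χ (f i) := by
  classical
  induction I using Finset.induction_on with
  | empty => simp [vl_one]
  | insert a s ha ih => rw [Finset.prod_insert ha, Finset.sum_insert ha, vl_mul, ih]

/-- the sum of characters -/
def comb {m : ℕ} (χs : Fin m → Chr G) (n : Fin m → ℕ) : Chr G where
  toFun g := Multiplicative.ofAdd (∑ i, (n i : ℤ) * vl (χs i) g)
  map_one' := by simp [vl_one]
  map_mul' g g' := by
    rw [← ofAdd_add, ← Finset.sum_add_distrib]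
    congr 1
    refine Finset.sum_congr rfl fun i _ => ?_
    rw [vl_mul, mul_add]

theorem vl_comb {m : ℕ} (χs : Fin m → Chr G) (n : Fin m → ℕ) (g : G) :
    vl (comb χs n) g = ∑ i, (n i : ℤ) * vl (χs i) g := rfl

theorem vl_bch_comb {m : ℕ} (χs : Fin m → Chr G) (n : Fin m → ℕ) (q : Abelianization G) :
    vl (bch (comb χs n)) q = ∑ i, (n i : ℤ) * vl (bch (χs i)) q := by
  obtain ⟨g, rfl⟩ : ∃ g, Abelianization.of g = q := QuotientGroup.mk_surjective q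
  rfl

/-- the monoid of a character -/
def mon (χ : Chr G) : Submonoid G where
  carrier := {g | 0 ≤ vl χ g}
  one_mem' := by
    change 0 ≤ vl χ 1
    rw [vl_one]
  mul_mem' := by
    intro a b ha hb
    change 0 ≤ vl χ (a * b)
    rw [vl_mul]
    exact add_nonneg ha hb

theorem vl_comm (χ : Chr G) (a : G) (ha : a ∈ commutator G) : vl χ a = 0 := by
  have h := Abelianization.commutator_subset_ker χ ha
  have h' : χ a = 1 := MonoidHom.mem_ker.1 h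
  unfold vl
  rw [h']
  rfl

theorem aug_mp {H B : Type} [Group H] (ρ : G →* H) (e : B → ℂ) (x : G × B →₀ ℂ) :
    aug ℂ e (mp ℂ ρ x) = aug ℂ e x := by
  have h : (aug ℂ e) ∘ₗ (mp ℂ ρ) = aug ℂ e := by
    refine Finsupp.lhom_ext fun p a => ?_
    unfold aug mp
    rw [LinearMap.comp_apply, Finsupp.lmapDomain_apply, Finsupp.mapDomain_single]
    simp
  exact LinearMap.congr_fun h x

theorem aug_tr {B : Type} (g : G) (e : B → ℂ) (x : G × B →₀ ℂ) :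
    aug ℂ e (tr ℂ g x) = aug ℂ e x := by
  have h : (aug ℂ e) ∘ₗ (tr ℂ g) = aug ℂ e := by
    refine Finsupp.lhom_ext fun p a => ?_
    unfold aug tr
    rw [LinearMap.comp_apply, Finsupp.lmapDomain_apply, Finsupp.mapDomain_single]
    simp
  exact LinearMap.congr_fun h x

theorem aug_ext {B : Type} (e : B → ℂ) (db : B → (G × B →₀ ℂ)) (hd : ∀ b, aug ℂ e (db b) = 0)
    (x : G × B →₀ ℂ) : aug ℂ e (ext ℂ db x) = 0 := by
  have h : (aug ℂ e) ∘ₗ (ext ℂ db) = 0 := by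
    refine Finsupp.lhom_ext fun p a => ?_
    rw [LinearMap.comp_apply]
    unfold ext
    rw [Finsupp.linearCombination_single, map_smul, aug_tr, hd]
    simp
  exact LinearMap.congr_fun h x

theorem mp_sup {H B : Type} [Group H] (ρ : G →* H) (s : Set (G × B)) (t : Set (H × B))
    (hst : ∀ p ∈ s, (ρ p.1, p.2) ∈ t) (x : G × B →₀ ℂ) (hx : x ∈ Finsupp.supported ℂ ℂ s) :
    mp ℂ ρ x ∈ Finsupp.supported ℂ ℂ t := by
  classical
  rw [Finsupp.mem_supported] at hx ⊢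
  intro q hq
  unfold mp at hq
  rw [Finsupp.lmapDomain_apply] at hq
  have h1 := Finsupp.mapDomain_support (f := fun p : G × B => (ρ p.1, p.2)) (s := x)
    (Finset.mem_coe.1 hq)
  obtain ⟨p, hp, rfl⟩ := Finset.mem_image.1 h1
  exact hst p (hx (Finset.mem_coe.2 hp))

end DISC

open DISC in
/-- DISC: the theorem for discrete characters -/
theorem I_DISC (hCORE : StCORE) (hHOP : StHOP) (hBG : StBG) (hNOE : StNOE) (hTWD : StTWD)
    (hSIG : StSIG) (hPSI : StPSI) : StDISC := by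
  intro G _ _ hMet m hm χs n c h hc hn hval ht hNFG B _ deg db eb H0
  have H : PRes ℂ {g | 0 ≤ vl (comb χs n) g} m B deg db eb := H0
  obtain ⟨ha, hHa⟩ := hHOP G (mon (comb χs n)) m B deg db eb H fun a ha => by
    change 0 ≤ vl (comb χs n) a
    rw [vl_comm _ a ha]
  obtain ⟨K, hGood⟩ := hBG G (Fin m) (comb χs n) χs m B deg db eb H
  have hFG : Group.FG (Abelianization G) :=
    inferInstanceAs (Group.FG (G ⧸ commutator G))
  have hsup : ∀ b, mp ℂ Abelianization.of (db b) ∈ Finsupp.supported ℂ ℂ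
      {p : Abelianization G × B | 0 ≤ vl (bch (comb χs n)) p.1 ∧ deg p.2 + 1 = deg b} :=
    fun b => mp_sup Abelianization.of _ _ (fun p hp => hp) (db b) (H.db_sup b)
  have hBd : ∀ I : Finset (Fin m), I ≠ Finset.univ → ∀ d, d < m →
      (bar (comb χs n) χs B deg db).Bd I d := by
    intro I hI d _
    obtain ⟨l, hl⟩ : ∃ l, l ∉ I := by
      by_contra hcon
      push Not at hcon
      exact hI (Finset.eq_univ_iff_forall.2 hcon)
    have key : ∀ ψ : Chr G, vl (bch ψ) ((∏ j ∈ I, (Abelianization.of (h j)) ^ (n l)) *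
        (Abelianization.of (h l)) ^ (-∑ j ∈ I, (n j : ℤ))) =
        ∑ j ∈ I, (n l : ℤ) * vl ψ (h j) - (∑ j ∈ I, (n j : ℤ)) * vl ψ (h l) := by
      intro ψ
      rw [vl_mul, vl_prod, vl_zpow, vl_bch]
      have : ∀ j ∈ I, vl (bch ψ) ((Abelianization.of (h j)) ^ (n l)) =
          (n l : ℤ) * vl ψ (h j) := fun j _ => by rw [vl_pow, vl_bch]
      rw [Finset.sum_congr rfl this]
      ring
    have hχ : ∀ j, vl (comb χs n) (h j) = n j * c := by
      intro j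
      rw [vl_comb]
      have : ∀ i ∈ (Finset.univ : Finset (Fin m)), (n i : ℤ) * vl (χs i) (h j) =
          if i = j then (n j : ℤ) * c else 0 := by
        intro i _
        rw [hval]
        by_cases hij : i = j
        · rw [if_pos hij, if_pos hij, hij]
        · rw [if_neg hij, if_neg hij, mul_zero]
      rw [Finset.sum_congr rfl this]
      simp
    refine hNOE (Abelianization G) (Fin m) (bch (comb χs n)) (fun j => bch (χs j)) B deg
      (fun b => mp ℂ Abelianization.of (db b)) hsup I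
      ((∏ j ∈ I, (Abelianization.of (h j)) ^ (n l)) *
        (Abelianization.of (h l)) ^ (-∑ j ∈ I, (n j : ℤ))) (n l * c)
      (mul_pos (by exact_mod_cast hn l) hc) ?_ ?_ d
    · rw [key, hχ]
      have : ∀ j ∈ I, (n l : ℤ) * vl (comb χs n) (h j) = (n j : ℤ) * (n l * c) :=
        fun j _ => by rw [hχ]; ring
      rw [Finset.sum_congr rfl this, ← Finset.sum_mul]
      ring
    · intro j hj
      rw [key]
      have hjl : j ≠ l := fun e => hl (e ▸ hj)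
      have : ∀ j' ∈ I, (n l : ℤ) * vl (χs j) (h j') = if j = j' then (n l : ℤ) * c else 0 := by
        intro j' _
        rw [hval]
        by_cases hij : j = j'
        · rw [if_pos hij, if_pos hij]
        · rw [if_neg hij, if_neg hij, mul_zero]
      rw [Finset.sum_congr rfl this, hval, if_neg hjl]
      simp [hj]
  have hTw : ∀ J : Finset (Fin m), J.Nonempty → ∀ e, e < m →
      (bar (comb χs n) χs B deg db).Twisted J e := fun J hJ e he =>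
    hTWD G hMet (Fin m) (comb χs n) χs m B deg db eb ha H hHa J hJ
      (hSIG G hMet (Fin m) χs c h hc hval ht
        (fun i => hPSI G hMet (χs i) (ht i) (hNFG i)) J hJ) e he
  have hPush := hCORE (Fin m) (bar (comb χs n) χs B deg db) K hGood m (Fintype.card_fin m) hm
    hBd hTw
  obtain ⟨x0, hx0, hx1⟩ := H.surj
  have hxS' : mp ℂ Abelianization.of x0 ∈ Finsupp.supported ℂ ℂ
      {p : Abelianization G × B | 0 ≤ vl (bch (comb χs n)) p.1 ∧ deg p.2 = 0 ∧ True} :=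
    mp_sup Abelianization.of
      {p : G × B | p.1 ∈ {g : G | 0 ≤ vl (comb χs n) g} ∧ deg p.2 = 0} _
      (fun p hp => And.intro hp.1 (And.intro hp.2 trivial)) x0 hx0
  have hxS : mp ℂ Abelianization.of x0 ∈
      (bar (comb χs n) χs B deg db).S 0 (fun _ => True) := hxS'
  have hxD : (bar (comb χs n) χs B deg db).D (mp ℂ Abelianization.of x0) = 0 := by
    change Finsupp.linearCombination ℂ (fun p : Abelianization G × B =>
      tr ℂ p.1 (mp ℂ Abelianization.of (db p.2))) (mp ℂ Abelianization.of x0) = 0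
    rw [Finsupp.linearCombination_apply, Finsupp.sum]
    refine Finset.sum_eq_zero fun p hp => ?_
    have h1 : deg p.2 = 0 := ((Finsupp.mem_supported _ _).1 hxS' hp).2.1
    have h2 : db p.2 = 0 := by
      have h3 := (Finsupp.mem_supported _ _).1 (H.db_sup p.2)
      rw [← Finsupp.support_eq_empty, Finset.eq_empty_iff_forall_notMem]
      intro q hq
      have h4 : deg q.2 + 1 = deg p.2 := (h3 hq).2
      omega
    rw [h2, map_zero, map_zero, smul_zero]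
  obtain ⟨x', hx', -, w, -, hw⟩ := hPush (-1) _ hxS hxD
  have hx'0 : x' = 0 := by
    rw [← Finsupp.support_eq_empty, Finset.eq_empty_iff_forall_notMem]
    intro q hq
    obtain ⟨e1, -, e3⟩ := (Finsupp.mem_supported _ _).1 hx' hq
    have e1' : 0 ≤ vl (bch (comb χs n)) q.1 := e1
    have e3' : ∀ j, vl (bch (χs j)) q.1 ≤ -1 := fun j => e3 j (Finset.mem_univ j)
    rw [vl_bch_comb] at e1'
    have e4 : ∑ i, (n i : ℤ) * vl (bch (χs i)) q.1 ≤ ∑ i, -(n i : ℤ) := by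
      refine Finset.sum_le_sum fun i _ => ?_
      have := mul_le_mul_of_nonneg_left (e3' i) (Int.natCast_nonneg (n i))
      linarith
    have e5 : ∑ i : Fin m, -(n i : ℤ) < 0 := by
      rw [Finset.sum_neg_distrib, neg_lt_zero]
      refine Finset.sum_pos (fun i _ => by exact_mod_cast hn i) ?_
      exact ⟨⟨0, by omega⟩, Finset.mem_univ _⟩
    linarith
  have h1 : aug ℂ eb ((bar (comb χs n) χs B deg db).D w) = 0 :=
    aug_ext eb (fun b => mp ℂ Abelianization.of (db b))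
      (fun b => by rw [aug_mp]; exact H.ed b) w
  have hw' : (bar (comb χs n) χs B deg db).D w = mp ℂ Abelianization.of x0 := by
    rw [hw, hx'0]
    exact sub_zero _
  have h2 : aug ℂ eb (mp ℂ Abelianization.of x0) = 0 := by
    rw [← hw']
    exact h1
  rw [aug_mp, hx1] at h2
  exact one_ne_zero h2

end Pool.Agent.Work.MP_e9e200_al.LC

end

section

/-!
# The functions `φ` and `σ` for a set of characters
-/

set_option autoImplicit false

namespace Pool.Agent.Work.MP_e9e200_al.LC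

namespace SIG

variable {G : Type} [Group G]

theorem vl_mul (χ : Chr G) (x y : G) : vl χ (x * y) = vl χ x + vl χ y := by
  simp [vl]

theorem vl_one (χ : Chr G) : vl χ 1 = 0 := by simp [vl]

theorem vl_inv (χ : Chr G) (x : G) : vl χ x⁻¹ = -vl χ x := by simp [vl]

theorem vl_pow (χ : Chr G) (x : G) (n : ℕ) : vl χ (x ^ n) = n * vl χ x := by simp [vl]

theorem vl_zpow (χ : Chr G) (x : G) (n : ℤ) : vl χ (x ^ n) = n * vl χ x := by simp [vl]

theorem vl_list {ι : Type} (χ : Chr G) (h : ι → G) (l : List ι) :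
    vl χ (l.map h).prod = (l.map (fun i => vl χ (h i))).sum := by
  induction l with
  | nil => simp [vl_one]
  | cons a l ih => simp [vl_mul, ih]

/-- product over a finite set in some order -/
noncomputable def P {ι : Type} (h : ι → G) (s : Finset ι) : G := (s.toList.map h).prod

theorem vl_P {ι : Type} [DecidableEq ι] {χs : ι → Chr G} {c : ℤ} {h : ι → G}
    (hh : ∀ i j, vl (χs i) (h j) = if i = j then c else 0) (s : Finset ι) (i : ι) :
    vl (χs i) (P h s) = if i ∈ s then c else 0 := by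
  unfold P
  rw [vl_list, Finset.sum_map_toList]
  simp [hh]

/-- the commutator with `g0` -/
def dl (g0 x : G) : G := x * g0 * x⁻¹ * g0⁻¹

theorem dl_mem (g0 x : G) : dl g0 x ∈ commutator G :=
  Subgroup.commutator_mem_commutator (Subgroup.mem_top x) (Subgroup.mem_top g0)

theorem conj_mem {a : G} (ha : a ∈ commutator G) (g : G) : g * a * g⁻¹ ∈ commutator G :=
  (inferInstance : (commutator G).Normal).conj_mem a ha g

section

variable {ψ : G → ℂ} (h0 : ∀ a ∈ commutator G, ψ a ≠ 0)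
  (hm : ∀ a ∈ commutator G, ∀ b ∈ commutator G, ψ (a * b) = ψ a * ψ b)

include h0 hm

theorem psi_one : ψ 1 = 1 := by
  have h1 := hm 1 (one_mem _) 1 (one_mem _)
  rw [one_mul] at h1
  have h2 := h0 1 (one_mem _)
  field_simp at h1
  exact h1.symm

theorem psi_inv {a : G} (ha : a ∈ commutator G) : ψ a⁻¹ = (ψ a)⁻¹ := by
  have h1 := hm a⁻¹ (inv_mem ha) a ha
  rw [inv_mul_cancel, psi_one h0 hm] at h1
  exact eq_inv_of_mul_eq_one_left h1.symm

theorem pq_conj (u g0 g : G) {t : G} (ht : t ∈ commutator G) :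
    ψ (u * dl g0 (g * t * g⁻¹) * u⁻¹) = ψ ((u * g) * t * (u * g)⁻¹) *
      (ψ ((u * g0 * g) * t * (u * g0 * g)⁻¹))⁻¹ := by
  rw [← psi_inv h0 hm (conj_mem ht _), ← hm _ (conj_mem ht _) _ (inv_mem (conj_mem ht _))]
  congr 1
  unfold dl
  group

end

theorem pq_mul {ψ : G → ℂ}
    (hm : ∀ a ∈ commutator G, ∀ b ∈ commutator G, ψ (a * b) = ψ a * ψ b) (u g0 x y : G) :
    ψ (u * dl g0 (x * y) * u⁻¹) = ψ ((u * x) * dl g0 y * (u * x)⁻¹) *
      ψ (u * dl g0 x * u⁻¹) := by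
  rw [← hm _ (conj_mem (dl_mem g0 y) _) _ (conj_mem (dl_mem g0 x) _)]
  congr 1
  unfold dl
  group

theorem pq_mul' {ψ : G → ℂ} (hM : Metab G)
    (hm : ∀ a ∈ commutator G, ∀ b ∈ commutator G, ψ (a * b) = ψ a * ψ b) (u g0 a x : G)
    (ha : a ∈ commutator G) :
    ψ (u * dl g0 (a * x) * u⁻¹) = ψ (u * dl g0 a * u⁻¹) * ψ (u * dl g0 x * u⁻¹) := by
  rw [pq_mul hm, mul_comm]
  congr 2
  have h1 : a * dl g0 x = dl g0 x * a := hM a ha _ (dl_mem g0 x)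
  calc u * a * dl g0 x * (u * a)⁻¹ = u * (a * dl g0 x) * a⁻¹ * u⁻¹ := by group
    _ = u * (dl g0 x * a) * a⁻¹ * u⁻¹ := by rw [h1]
    _ = u * dl g0 x * u⁻¹ := by group

end SIG

open SIG in
theorem I_SIG : StSIG := by
  classical
  intro G _ hM ι _ _ χs c h hc hh ht hPsi J hJ
  choose ψ hψ0 hψm hψK T hTc hT using hPsi
  choose tt htt using ht
  -- the bounds
  obtain ⟨Kf, hKf0, hKf⟩ : ∃ Kf : ι → G → ℤ, (∀ i a, 0 ≤ Kf i a) ∧ ∀ i, ∀ a ∈ commutator G,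
      ∀ g, Kf i a ≤ vl (χs i) g → ψ i (g * a * g⁻¹) = 1 := by
    refine ⟨fun i a => if ha : a ∈ commutator G then |(hψK i a ha).choose| else 0, ?_, ?_⟩
    · intro i a
      dsimp only
      split_ifs
      · exact abs_nonneg _
      · exact le_rfl
    · intro i a ha g hg
      dsimp only at hg
      rw [dif_pos ha] at hg
      exact (hψK i a ha).choose_spec g ((le_abs_self _).trans hg)
  -- the element `g0`
  set Mz : ℤ := ∑ i, ∑ t ∈ T i, (Kf i t + 1) with hMz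
  have hMz1 : ∀ i, ∀ t ∈ T i, Kf i t + 1 ≤ Mz := by
    intro i t ht
    have h1 : Kf i t + 1 ≤ ∑ t ∈ T i, (Kf i t + 1) :=
      Finset.single_le_sum (f := fun t => Kf i t + 1)
        (fun t _ => by have := hKf0 i t; linarith) ht
    have h2 : ∑ t ∈ T i, (Kf i t + 1) ≤ Mz :=
      Finset.single_le_sum (f := fun i => ∑ t ∈ T i, (Kf i t + 1))
        (fun i _ => Finset.sum_nonneg fun t _ => by have := hKf0 i t; linarith)
        (Finset.mem_univ i)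
    linarith
  set M : ℕ := Mz.toNat with hMdef
  have hM1 : Mz ≤ M := Int.self_le_toNat _
  set g0 : G := P h Finset.univ ^ M with hg0
  have hvg0 : ∀ i, vl (χs i) g0 = M * c := by
    intro i
    rw [hg0, vl_pow, vl_P hh, if_pos (Finset.mem_univ i)]
  have hMc : ∀ i, ∀ t ∈ T i, Kf i t + 1 ≤ M * c := by
    intro i t ht
    have h1 := hMz1 i t ht
    have h2 : (M : ℤ) * 1 ≤ M * c := mul_le_mul_of_nonneg_left (by linarith) (Nat.cast_nonneg _)
    linarith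
  have hvh : ∀ (i : ι) (q : ℕ), vl (χs i) (h i ^ q) = q * c := by
    intro i q
    rw [vl_pow, hh, if_pos rfl]
  refine ⟨fun y => ∑ j, Kf j (dl g0 y), fun y => Finset.sum_nonneg fun j _ => hKf0 _ _, ?_⟩
  intro K' hK'
  -- the elements near the faces
  set Nz : ℤ := K' + (∑ i, ∑ j, (K' + 1) * |vl (χs j) (tt i)|) +
    ∑ i, ∑ j, ∑ t ∈ T i, Kf j t with hNz
  set N : ℕ := Nz.toNat with hNdef
  have hN1 : Nz ≤ N := Int.self_le_toNat _
  have hNc : ∀ i j, ∀ t ∈ T i, K' + (K' + 1) * |vl (χs j) (tt i)| + Kf j t ≤ N * c := by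
    intro i j t ht
    have e1 : (K' + 1) * |vl (χs j) (tt i)| ≤ ∑ i, ∑ j, (K' + 1) * |vl (χs j) (tt i)| := by
      have a1 : (K' + 1) * |vl (χs j) (tt i)| ≤ ∑ j, (K' + 1) * |vl (χs j) (tt i)| :=
        Finset.single_le_sum (f := fun j => (K' + 1) * |vl (χs j) (tt i)|)
          (fun j _ => by positivity) (Finset.mem_univ j)
      have a2 : ∑ j, (K' + 1) * |vl (χs j) (tt i)| ≤
          ∑ i, ∑ j, (K' + 1) * |vl (χs j) (tt i)| :=
        Finset.single_le_sum (f := fun i => ∑ j, (K' + 1) * |vl (χs j) (tt i)|)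
          (fun i _ => Finset.sum_nonneg fun j _ => by positivity) (Finset.mem_univ i)
      exact a1.trans a2
    have e2 : Kf j t ≤ ∑ i, ∑ j, ∑ t ∈ T i, Kf j t := by
      have a1 : Kf j t ≤ ∑ t ∈ T i, Kf j t :=
        Finset.single_le_sum (f := fun t => Kf j t) (fun t _ => hKf0 j t) ht
      have a2 : ∑ t ∈ T i, Kf j t ≤ ∑ j, ∑ t ∈ T i, Kf j t :=
        Finset.single_le_sum (f := fun j => ∑ t ∈ T i, Kf j t)
          (fun j _ => Finset.sum_nonneg fun t _ => hKf0 j t) (Finset.mem_univ j)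
      have a3 : ∑ j, ∑ t ∈ T i, Kf j t ≤ ∑ i, ∑ j, ∑ t ∈ T i, Kf j t :=
        Finset.single_le_sum (f := fun i => ∑ j, ∑ t ∈ T i, Kf j t)
          (fun i _ => Finset.sum_nonneg fun j _ => Finset.sum_nonneg fun t _ => hKf0 j t)
          (Finset.mem_univ i)
      exact a1.trans (a2.trans a3)
    have h2 : (N : ℤ) * 1 ≤ N * c := mul_le_mul_of_nonneg_left (by linarith) (Nat.cast_nonneg _)
    linarith
  set y : ι → ℤ → G := fun i d => tt i ^ d * P h (J.erase i) ^ N with hy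
  have hyi : ∀ i d, vl (χs i) (y i d) = d := by
    intro i d
    rw [hy]
    dsimp only
    rw [vl_mul, vl_zpow, vl_pow, htt, vl_P hh, if_neg (Finset.notMem_erase i J)]
    ring
  have hyj : ∀ i d, ∀ j ∈ J, j ≠ i → vl (χs j) (y i d) = d * vl (χs j) (tt i) + N * c := by
    intro i d j hj hji
    rw [hy]
    dsimp only
    rw [vl_mul, vl_zpow, vl_pow, vl_P hh, if_pos (Finset.mem_erase.2 ⟨hji, hj⟩)]
  set T0 : Finset G := J.biUnion fun i => (Finset.Icc (-(K' + 1)) (K' + 1)).biUnion fun d =>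
    (T i).image fun t => y i d * t * (y i d)⁻¹ with hT0
  have hT0c : ∀ t ∈ T0, t ∈ commutator G := by
    intro t ht
    rw [hT0] at ht
    simp only [Finset.mem_biUnion, Finset.mem_image] at ht
    obtain ⟨i, _, d, _, t', ht', rfl⟩ := ht
    exact conj_mem (hTc i t' ht') _
  refine ⟨T0, hT0c, ?_⟩
  intro s1
  set q : ℕ := s1.natAbs with hq
  set s : ℤ := -(q * c) with hs
  set σ : G → ℂ := fun x => ∏ j ∈ J, ψ j (h j ^ q * dl g0 x * (h j ^ q)⁻¹) with hσ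
  have hσ0 : ∀ x, σ x ≠ 0 := by
    intro x
    rw [hσ]
    exact Finset.prod_ne_zero_iff.2 fun j _ => hψ0 j _ (conj_mem (dl_mem g0 x) _)
  have hσm : ∀ a ∈ commutator G, ∀ x, σ (a * x) = σ a * σ x := by
    intro a ha x
    rw [hσ]
    dsimp only
    rw [← Finset.prod_mul_distrib]
    exact Finset.prod_congr rfl fun j _ => pq_mul' hM (hψm j) _ g0 a x ha
  -- the value at a conjugate
  have hσ1 : ∀ (g : G), ∀ t ∈ commutator G, ∀ j, s + Kf j t ≤ vl (χs j) g →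
      ψ j (h j ^ q * dl g0 (g * t * g⁻¹) * (h j ^ q)⁻¹) = 1 := by
    intro g t ht j hj
    rw [pq_conj (hψ0 j) (hψm j) _ _ _ ht, hKf j t ht, hKf j t ht, inv_one, mul_one]
    · rw [vl_mul, vl_mul, hvh, hvg0]
      have : 0 ≤ (M : ℤ) * c := by positivity
      linarith
    · rw [vl_mul, hvh]
      linarith
  have hnear : ∀ g, (∀ j ∈ J, s - K' ≤ vl (χs j) g) → (∃ j ∈ J, vl (χs j) g ≤ s + K') →
      ∃ t ∈ T0, σ (g * t * g⁻¹) ≠ 1 := by
    rintro g hg1 ⟨i, hi, hg2⟩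
    have hg3 := hg1 i hi
    set d : ℤ := s - 1 - vl (χs i) g with hd
    have hvi : vl (χs i) (g * y i d) = s - 1 := by
      rw [vl_mul, hyi]
      linarith
    obtain ⟨t, ht, hne⟩ := hT i (h i ^ q * (g * y i d)) (by
      rw [vl_mul, hvh, hvi]
      linarith)
    refine ⟨y i d * t * (y i d)⁻¹, ?_, ?_⟩
    · rw [hT0]
      simp only [Finset.mem_biUnion, Finset.mem_image, Finset.mem_Icc]
      exact ⟨i, hi, d, ⟨by linarith, by linarith⟩, t, ht, rfl⟩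
    · have e1 : g * (y i d * t * (y i d)⁻¹) * g⁻¹ = (g * y i d) * t * (g * y i d)⁻¹ := by group
      rw [e1, hσ]
      dsimp only
      rw [Finset.prod_eq_single_of_mem i hi]
      · rw [pq_conj (hψ0 i) (hψm i) _ _ _ (hTc i t ht),
          hKf i t (hTc i t ht) (h i ^ q * g0 * (g * y i d)), inv_one, mul_one]
        · exact hne
        · rw [vl_mul, vl_mul, hvh, hvg0, hvi]
          have := hMc i t ht
          linarith
      · intro j hj hji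
        apply hσ1 _ t (hTc i t ht)
        rw [vl_mul, hyj i d j hj hji]
        have a1 := hg1 j hj
        have a2 := hNc i j t ht
        have a3 : -((K' + 1) * |vl (χs j) (tt i)|) ≤ d * vl (χs j) (tt i) := by
          have b1 : |d| ≤ K' + 1 := abs_le.2 ⟨by linarith, by linarith⟩
          have b2 : |d * vl (χs j) (tt i)| ≤ (K' + 1) * |vl (χs j) (tt i)| := by
            rw [abs_mul]
            exact mul_le_mul_of_nonneg_right b1 (abs_nonneg _)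
          exact (abs_le.1 b2).1
        linarith
  refine ⟨s, ?_, σ, σ, fun a _ => hσ0 a, fun a ha b _ => hσm a ha b, hσ0, hσm, ?_, ?_, hnear⟩
  · have h1 : (q : ℤ) * 1 ≤ q * c := mul_le_mul_of_nonneg_left (by linarith) (Nat.cast_nonneg _)
    have h2 : (q : ℤ) = |s1| := Int.natCast_natAbs s1
    have h3 := neg_abs_le s1
    linarith
  · intro x z hx
    rw [hσ]
    dsimp only
    refine Finset.prod_congr rfl fun j hj => ?_
    rw [pq_mul (hψm j), hKf j _ (dl_mem g0 z), one_mul]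
    rw [vl_mul, hvh]
    have h1 := hx j hj
    have h2 : Kf j (dl g0 z) ≤ ∑ j, Kf j (dl g0 z) :=
      Finset.single_le_sum (f := fun j => Kf j (dl g0 z)) (fun j _ => hKf0 _ _)
        (Finset.mem_univ j)
    linarith
  · obtain ⟨j0, hj0⟩ := hJ
    have hv : ∀ j ∈ J, vl (χs j) ((P h J ^ q)⁻¹) = s := by
      intro j hj
      rw [vl_inv, vl_pow, vl_P hh, if_pos hj]
    obtain ⟨t, ht, hne⟩ := hnear ((P h J ^ q)⁻¹) (fun j hj => by rw [hv j hj]; linarith)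
      ⟨j0, hj0, by rw [hv j0 hj0]; linarith⟩
    exact ⟨_, conj_mem (hT0c t ht) _, hne⟩

end Pool.Agent.Work.MP_e9e200_al.LC

end

section

/-!
# Project UP: statements, blocks D, C, T, E

Each `def StXXX : Prop` is to be proved as `theorem I_XXX : StXXX` in `UP/P_XXX.lean`.
-/

set_option autoImplicit false

namespace Pool.Agent.Work.MP_e9e200_al.UP

open Finsupp

/-! ### Block D: complexes of tuples with coefficients in `ℤ[M/M_J]` -/

/-- D2: the tuples which meet all the sets of a list -/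
def StD2 : Prop := ∀ (ι : Type) [DecidableEq ι] (Δ : Set (Finset ι)), Dn Δ →
  ∀ (L : List (Finset ι)), (∀ σ ∈ L, σ ∈ Δ) → ∀ (I : Finset ι) (j : ℕ), ¬ Un Δ j I →
    Ex (fun _ => (⊤ : AddSubgroup ℤ)) (fun J => if ∀ σ ∈ L, ¬ Disjoint J σ then ⊥ else ⊤) I j

/-- D3: direct sums -/
def StD3 : Prop := ∀ (ι : Type) [DecidableEq ι] (Z : Type) [AddCommGroup Z] (K : Type) (Y : Type)
  [AddCommGroup Y] (p : K → Z →+ Y) (q : K → Y →+ Z) (R : Finset ι → AddSubgroup Z)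
  (RY : K → Finset ι → AddSubgroup Y), (∀ J z, z ∈ R J ↔ ∀ κ, p κ z ∈ RY κ J) →
  (∀ κ y, p κ (q κ y) = y) → (∀ κ κ' y, κ ≠ κ' → p κ (q κ' y) = 0) →
  (∀ z, ∃ s : Finset K, ∀ κ, κ ∉ s → p κ z = 0) → ∀ (I : Finset ι) (j : ℕ),
  (∀ κ, Ex (fun _ => ⊤) (RY κ) I j) → Ex (fun _ => ⊤) R I j

/-- D4: split systems -/
def StD4 : Prop := ∀ (ι : Type) [DecidableEq ι] (Δ : Set (Finset ι)), Dn Δ →
  ∀ (M : Type) [AddCommGroup M] (s : Finset (Finset ι)), (∀ σ ∈ s, σ ∈ Δ) →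
  ∀ (W : Finset ι → AddSubgroup M) (L : List (Finset ι)), (∀ σ ∈ L, σ ∈ Δ) →
  ∀ (I : Finset ι) (j : ℕ), ¬ Un Δ j I →
    Ex (fun _ => (⊤ : AddSubgroup (VV s W →₀ ℤ)))
      (fun J => if ∀ σ ∈ L, ¬ Disjoint J σ then Kr (VJ s W J) else ⊤) I j

/-- D5: the Koszul condition for split systems -/
def StD5 : Prop := ∀ (ι : Type) [DecidableEq ι] (Δ : Set (Finset ι)), Dn Δ →
  ∀ (M : Type) [AddCommGroup M] (s : Finset (Finset ι)), (∀ σ ∈ s, σ ∈ Δ) →
  ∀ (W : Finset ι → AddSubgroup M) (J I : Finset ι), I ∉ Δ → ∀ k : ℕ,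
    Ex (fun K => VJ s W (J ∪ K)) (fun _ => ⊥) I k

/-- D6: the Koszul condition for kernels -/
def StD6 : Prop := ∀ (ι : Type) [DecidableEq ι] (Δ : Set (Finset ι)) (V M : Type) [AddCommGroup V]
  [AddCommGroup M] (π : V →+ M) (Vs : Finset ι → AddSubgroup V) (Ms : Finset ι → AddSubgroup M),
  (∀ J J', J ⊆ J' → Vs J' ≤ Vs J) → ∀ (I : Finset ι), (∀ J ⊆ I, ∀ v ∈ Vs J, π v ∈ Ms J) →
  (∀ J ⊆ I, ∀ x ∈ Ms J, ∃ v ∈ Vs J, π v = x) → ∀ (m : ℕ), KK (m + 1) Ms Δ I → KK m Vs Δ I →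
    KK m (fun J => (Vs J).addSubgroupOf π.ker) Δ I

/-- D7: generation by the subgroups `Ms (I \ σ)` -/
def StD7 : Prop := ∀ (ι : Type) [DecidableEq ι] (Δ : Set (Finset ι)) (M : Type) [AddCommGroup M]
  (Ms : Finset ι → AddSubgroup M) (I : Finset ι), KK 1 Ms Δ I → ∀ J ⊆ I, ∀ x ∈ Ms J,
  ∃ f : Finset ι → M, (∀ σ, f σ ∈ Ms (I \ σ)) ∧
    (∀ σ, f σ ≠ 0 → σ ∈ Δ ∧ σ ⊆ I ∧ Disjoint σ J) ∧ x = ∑ σ ∈ I.powerset, f σ

/-- D8: the Koszul condition for fibre powers -/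
def StD8 : Prop := ∀ (ι : Type) [DecidableEq ι] (Δ : Set (Finset ι)) (V M : Type) [AddCommGroup V]
  [AddCommGroup M] (π : V →+ M) (Vs : Finset ι → AddSubgroup V) (I : Finset ι) (m s : ℕ),
  KK m Vs Δ I → KK m (fun J => (Vs J).addSubgroupOf π.ker) Δ I →
    KK m (fun J => FJ π s (Vs J)) Δ I

/-- D9: exactness of the Čech complex -/
def StD9 : Prop := ∀ (V M : Type) [AddCommGroup V] [AddCommGroup M] (π : V →+ M)
  (N : AddSubgroup V) (N' : AddSubgroup M), Function.Surjective π → (∀ v ∈ N, π v ∈ N') →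
  (∀ x ∈ N', ∃ v ∈ N, π v = x) →
  (∀ s z, z ∈ Kr (FJ π (s + 1) N) → cd π s z ∈ Kr (FJ π s N)) ∧
  (∀ z, z ∈ Kr (FJ π 0 N) → ce π z ∈ Kr N') ∧
  (∀ s z, cd π s (cd π (s + 1) z) = 0) ∧ (∀ z, ce π (cd π 0 z) = 0) ∧
  Function.Surjective (ce π) ∧
  (∀ z, ce π z ∈ Kr N' → ∃ w, z - cd π 0 w ∈ Kr (FJ π 0 N)) ∧
  (∀ s z, cd π s z ∈ Kr (FJ π s N) → ∃ w, z - cd π (s + 1) w ∈ Kr (FJ π (s + 1) N))

/-- D10: dimension shifting -/
def StD10 : Prop := ∀ (ι : Type) [DecidableEq ι] (Z : ℕ → Type) [∀ s, AddCommGroup (Z s)]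
  (Z' : Type) [AddCommGroup Z'] (R : ∀ s, Finset ι → AddSubgroup (Z s))
  (R' : Finset ι → AddSubgroup Z') (d : ∀ s, Z (s + 1) →+ Z s) (ε : Z 0 →+ Z') (I : Finset ι),
  (∀ s J J', J ⊆ J' → R s J' ≤ R s J) → (∀ J J', J ⊆ J' → R' J' ≤ R' J) →
  (∀ s, ∀ J ⊆ I, ∀ z ∈ R (s + 1) J, d s z ∈ R s J) → (∀ J ⊆ I, ∀ z ∈ R 0 J, ε z ∈ R' J) →
  (∀ s z, d s (d (s + 1) z) = 0) → (∀ z, ε (d 0 z) = 0) → Function.Surjective ε →
  (∀ J ⊆ I, ∀ z, ε z ∈ R' J → ∃ w, z - d 0 w ∈ R 0 J) →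
  (∀ s, ∀ J ⊆ I, ∀ z, d s z ∈ R s J → ∃ w, z - d (s + 1) w ∈ R (s + 1) J) →
  ∀ j : ℕ, (∀ s ≤ j, Ex (fun _ => ⊤) (R s) I (j - s)) → Ex (fun _ => ⊤) R' I j

/-- D: the local lemma (uses D4 - D10) -/
def StD : Prop := ∀ (ι : Type) [DecidableEq ι] (Δ : Set (Finset ι)), Dn Δ →
  ∀ (j : ℕ) (M : Type) [AddCommGroup M] (Ms : Finset ι → AddSubgroup M),
  (∀ J J', J ⊆ J' → Ms J' ≤ Ms J) → Ms ∅ = ⊤ → ∀ I : Finset ι, KK j Ms Δ I → ¬ Un Δ j I →
    Ex (fun _ => (⊤ : AddSubgroup (M →₀ ℤ))) (fun J => Kr (Ms J)) I j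

/-! ### Block C: the Koszul condition for the subgroups `NN` -/

/-- GN: noetherian property of graded modules over monoid rings -/
def StGN : Prop := ∀ (P : Type) [CommMonoid P] [Monoid.FG P] (Γ : Type) [AddCommGroup Γ]
  (deg : P → Γ), (∀ a b, deg (a * b) = deg a + deg b) → ∀ (Y : Type) [AddCommGroup Y]
  (ρ : P →* AddMonoid.End Y) (Y1 Y2 : Γ → AddSubgroup Y), (∀ γ, Y2 γ ≤ Y1 γ) →
  (∀ μ γ, ∀ y ∈ Y2 γ, ρ μ y ∈ Y2 (γ + deg μ)) →
  (∃ (n : ℕ) (g : Fin n → Γ) (y : Fin n → Y), (∀ a, y a ∈ Y1 (g a)) ∧ ∀ γ, ∀ x ∈ Y1 γ,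
    x ∈ AddSubgroup.closure {z | ∃ a μ, g a + deg μ = γ ∧ z = ρ μ (y a)}) →
  ∃ (n : ℕ) (g : Fin n → Γ) (y : Fin n → Y), (∀ a, y a ∈ Y2 (g a)) ∧ ∀ γ, ∀ x ∈ Y2 γ,
    x ∈ AddSubgroup.closure {z | ∃ a μ, g a + deg μ = γ ∧ z = ρ μ (y a)}

/-- C1: the cycles are finitely generated (uses GN) -/
def StC1 : Prop := ∀ (Q : Type) [CommGroup Q] [Group.FG Q] (M : Type) [AddCommGroup M]
  [Module (MonoidAlgebra ℤ Q) M] (D : Type) [Fintype D] [DecidableEq D] (χ : D → Q → ℤ),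
  (∀ i a b, χ i (a * b) = χ i a + χ i b) → ∀ (T : Finset M) (I : Finset D) (k : ℕ),
  ∃ (n : ℕ) (E : Fin n → D → ℤ) (z : Fin n → (List D →₀ M)),
    (∀ a, z a ∈ Ch (fun J => NN χ T (E a - ind J)) I k ∧ del M (z a) = 0) ∧
    ∀ E' : D → ℤ, ∀ c ∈ Ch (fun J => NN χ T (E' - ind J)) I k, del M c = 0 →
      c ∈ AddSubgroup.closure {x | ∃ (a : Fin n) (q : Q), (∀ i, E a i - χ i q ≤ E' i) ∧
        x = MonoidAlgebra.of ℤ Q q • z a}

/-- C3: pushing cycles in a good direction -/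
def StC3 : Prop := ∀ (Q : Type) [CommGroup Q] (M : Type) [AddCommGroup M]
  [Module (MonoidAlgebra ℤ Q) M] (D : Type) [Fintype D] [DecidableEq D] (χ : D → Q → ℤ),
  (∀ i a b, χ i (a * b) = χ i a + χ i b) → ∀ (T : Finset M) (τ : Finset D),
  (∀ x : M, x ∈ AddSubgroup.closure {x | ∃ q : Q, ∃ t ∈ T, (∀ i ∈ τ, 0 ≤ χ i q) ∧
    x = MonoidAlgebra.of ℤ Q q • t}) → (∃ q, ∀ i ∈ τ, 0 < χ i q) → ∀ (I : Finset D),
  I.Nonempty → ∀ (k : ℕ) (E : D → ℤ), ∀ z ∈ Ch (fun J => NN χ T (E - ind J)) I k, del M z = 0 →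
    ∃ s0 : ℤ, ∀ E' : D → ℤ, (∀ i ∈ τ, E i ≤ E' i) → (∀ i ∉ τ, s0 ≤ E' i) →
      ∃ w ∈ Ch (fun J => NN χ T (E' - ind J)) I (k + 1), del M w = z

/-- C4: the Koszul condition at large levels (uses C1, C3) -/
def StC4 : Prop := ∀ (Q : Type) [CommGroup Q] [Group.FG Q] (M : Type) [AddCommGroup M]
  [Module (MonoidAlgebra ℤ Q) M] (D : Type) [Fintype D] [DecidableEq D] (χ : D → Q → ℤ),
  (∀ i a b, χ i (a * b) = χ i a + χ i b) → ∀ (T : Finset M) (e : D → ℤ)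
  (Sm Δ : Set (Finset D)), Dn Δ →
  (∀ τ ∈ Sm, ∀ I ⊆ τ, I ∉ Δ → ∀ x : M, x ∈ AddSubgroup.closure {x | ∃ q : Q, ∃ t ∈ T,
    (∀ i ∈ τ, 0 ≤ χ i q) ∧ x = MonoidAlgebra.of ℤ Q q • t}) →
  (∀ τ ∈ Sm, ∃ q, ∀ i ∈ τ, 0 < χ i q) →
  (∀ C s0 : ℤ, ∃ t0 : ℕ, ∀ t : ℕ, t0 ≤ t → ∀ (q : Q) (c : D → ℤ), (∀ i, |c i| ≤ C) →
    (∀ i, 0 ≤ (t : ℤ) * e i + χ i q + c i) →
    (Finset.univ.filter fun i => (t : ℤ) * e i + χ i q + c i < s0) ∈ Sm) →
  ∀ (k : ℕ) (F : D → ℤ) (I : Finset D), I ∉ Δ → ∃ t0 : ℕ, ∀ t : ℕ, t0 ≤ t →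
    Ex (fun J => NN χ T ((t : ℤ) • e + F - ind J)) (fun _ => ⊥) I k

/-- C5: the same, in the form `KK` (uses C4) -/
def StC5 : Prop := ∀ (Q : Type) [CommGroup Q] (M : Type) [AddCommGroup M]
  [Module (MonoidAlgebra ℤ Q) M] (D : Type) [Fintype D] [DecidableEq D] (χ : D → Q → ℤ)
  (T : Finset M) (e : D → ℤ) (Δ : Set (Finset D)),
  (∀ (k : ℕ) (F : D → ℤ) (I : Finset D), I ∉ Δ → ∃ t0 : ℕ, ∀ t : ℕ, t0 ≤ t →
    Ex (fun J => NN χ T ((t : ℤ) • e + F - ind J)) (fun _ => ⊥) I k) →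
  ∀ (m : ℕ) (F : D → ℤ) (I : Finset D), ∃ t0 : ℕ, ∀ t : ℕ, t0 ≤ t →
    KK m (fun J => (NN χ T ((t : ℤ) • e + F - ind J)).addSubgroupOf
      (NN χ T ((t : ℤ) • e + F))) Δ I

/-! ### Block T: complexes with families of subgroups -/

/-- T1: the staircase -/
def StT1 : Prop := ∀ (ι : Type) [DecidableEq ι] (Z : ℕ → Type) [∀ p, AddCommGroup (Z p)]
  (d : ∀ p, Z (p + 1) →+ Z p) (R : ∀ p, (ι → ℤ) → AddSubgroup (Z p)), Sys Z d R →
  ∀ (m : ℕ) (I : Finset ι), Rows R m I → ∀ i ≤ m, (∀ i' < i, Col d R i') →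
  ∀ F z, Cyc d R i F z → ∃ f : ι → Z i, (∀ j ∈ I, Cyc d R i (F - ind {j}) (f j)) ∧
    z - ∑ j ∈ I, f j ∈ R i F

/-- T2: vanishing (uses T1) -/
def StT2 : Prop := ∀ (ι : Type) [Fintype ι] [DecidableEq ι] (Z : ℕ → Type)
  [∀ p, AddCommGroup (Z p)] (d : ∀ p, Z (p + 1) →+ Z p)
  (R : ∀ p, (ι → ℤ) → AddSubgroup (Z p)), Sys Z d R →
  ∀ (m : ℕ) (Dep : Set (Finset ι)), (∀ I ∈ Dep, Rows R m I) → ∀ s0 : ℤ,
  (∀ I ∉ Dep, ∀ H : ι → ℤ, (∀ i, 0 ≤ H i) → (∀ i ∉ I, s0 ≤ H i) → ∀ p ≤ m, ∀ F z,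
    Cyc d R p (F - H) z → ∃ w, z - d p w ∈ R p F) → ∀ i ≤ m, Col d R i

/-- T3: injectivity (uses T2 for the mapping cone) -/
def StT3 : Prop := ∀ (ι : Type) [Fintype ι] [DecidableEq ι] (Z : ℕ → Type)
  [∀ p, AddCommGroup (Z p)] (d : ∀ p, Z (p + 1) →+ Z p)
  (R : ∀ p, (ι → ℤ) → AddSubgroup (Z p)), Sys Z d R →
  ∀ (m : ℕ) (Dep : Set (Finset ι)), (∀ I ∈ Dep, Rows R m I) → ∀ (e : ι → ℤ), (∀ i, 0 ≤ e i) →
  ∀ s0 : ℤ, (∀ I ∉ Dep, ∀ H : ι → ℤ, (∀ i, 0 ≤ H i) → (∀ i ∉ I, s0 ≤ H i) →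
    ∃ (r : ∀ p, Z p →+ Z p) (h : ∀ p, Z p →+ Z (p + 1)), Nul d R e H r h) →
  ∀ i < m, ∀ F z, Cyc d R i F z → (∃ w, z - d i w ∈ R i (F + e)) → ∃ w, z - d i w ∈ R i F

/-! ### Block E: germs -/

/-- FG: monoids defined by integral characters are finitely generated -/
def StFG : Prop := ∀ (Q : Type) [CommGroup Q] [Group.FG Q] (L : Type) [Finite L] (u : L → Q → ℤ),
  (∀ l a b, u l (a * b) = u l a + u l b) → ∀ QS : Submonoid Q,
  (∀ q, q ∈ QS ↔ ∀ l, 0 ≤ u l q) → Monoid.FG QS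

/-- FR: existence of a filtered free resolution (uses GN) -/
def StFR : Prop := ∀ (P : Type) [CommMonoid P] [Monoid.FG P] (D : Type) [Finite D]
  (χ : D → P → ℤ), (∀ i a b, χ i (a * b) = χ i a + χ i b) →
  ∃ (n : ℕ → ℕ) (δ : ∀ j, Fin (n j) → D → ℤ)
    (M : ∀ j, Fin (n (j + 1)) → Fin (n j) → MonoidAlgebra ℤ P), FRes χ n δ M

/-- FH: existence of homotopies -/
def StFH : Prop := ∀ (P : Type) [CommMonoid P] (D : Type) (χ : D → P → ℤ),
  (∀ i a b, χ i (a * b) = χ i a + χ i b) → ∀ (n : ℕ → ℕ) (δ : ∀ j, Fin (n j) → D → ℤ)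
  (M : ∀ j, Fin (n (j + 1)) → Fin (n j) → MonoidAlgebra ℤ P), FRes χ n δ M →
  ∀ (g : P) (H : D → ℤ), (∀ i, 0 ≤ H i) → (∀ i, χ i g ≤ H i) →
    ∃ K : ∀ j, Fin (n j) → Fin (n (j + 1)) → MonoidAlgebra ℤ P, FHom χ n δ M g H K

/-- KS1: description of the left ideal `KS` -/
def StKS1 : Prop := ∀ (G : Type) [Group G] (S : Submonoid G) (N : Subgroup G),
  (∀ n ∈ N, n ∈ S) → ∀ x : MonoidAlgebra ℤ S,
    x ∈ KS S N ↔ Finsupp.mapDomain (fun s : S => ((s : G) : G ⧸ N)) x.coeff = 0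

/-- KS2: right multiplication -/
def StKS2 : Prop := ∀ (G : Type) [Group G] (S : Submonoid G) (N N' : Subgroup G) (s : S),
  (∀ n ∈ N, (s : G)⁻¹ * n * s ∈ N') → (∀ n ∈ N', n ∈ S) → ∀ x ∈ KS S N,
    x * MonoidAlgebra.of ℤ S s ∈ KS S N'

/-- KS3: elements of the kernel of the projection are small at infinity (uses KS1) -/
def StKS3 : Prop := ∀ (G : Type) [Group G] (D : Type) (L : Lev G D), L.Good →
  ∀ u : MonoidAlgebra ℤ L.S, L.prj u = 0 → ∀ F : D → ℤ, ∃ t0 : ℕ, ∀ t : ℕ, t0 ≤ t →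
    ∀ z : MonoidAlgebra ℤ L.S, z * u ∈ KS L.S (L.N ((t : ℤ) • L.e + F))

/-- E1: decomposition into cosets (uses D3, KS1) -/
def StE1 : Prop := ∀ (G : Type) [Group G] (S : Submonoid G) (N0 : Subgroup G), (∀ n ∈ N0, n ∈ S) →
  ∀ (M : Type) [AddCommGroup M] (φ : N0 → M), (∀ a b, φ (a * b) = φ a + φ b) →
  Function.Bijective φ → ∀ (ι : Type) [DecidableEq ι] (Ms : Finset ι → AddSubgroup M)
  (Ns : Finset ι → Subgroup G), (∀ J g, g ∈ Ns J ↔ ∃ h : g ∈ N0, φ ⟨g, h⟩ ∈ Ms J) →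
  ∀ (I : Finset ι) (j : ℕ), Ex (fun _ => (⊤ : AddSubgroup (M →₀ ℤ))) (fun J => Kr (Ms J)) I j →
    Ex (fun _ => (⊤ : AddSubgroup (MonoidAlgebra ℤ S))) (fun J => (KS S (Ns J)).toAddSubgroup) I j

/-- E3: from levels to germs -/
def StE3 : Prop := ∀ (G : Type) [Group G] (D : Type) [Fintype D] [DecidableEq D] (L : Lev G D),
  L.Good → ∀ m : ℕ, L.Lvl m → ∀ (n : ℕ → ℕ) (δ : ∀ j, Fin (n j) → D → ℤ), ∀ I ∈ L.Dep,
    Rows (L.Rg δ) m I

/-- E4: the germs form a system (uses KS2, KS3) -/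
def StE4 : Prop := ∀ (G : Type) [Group G] (D : Type) [Fintype D] (L : Lev G D), L.Good →
  ∀ (n : ℕ → ℕ) (δ : ∀ j, Fin (n j) → D → ℤ)
  (M : ∀ j, Fin (n (j + 1)) → Fin (n j) → MonoidAlgebra ℤ L.QS),
  FRes (fun i (q : L.QS) => L.χ i q) n δ M → Sys (L.Zg n) (L.dg M) (L.Rg δ)

/-- E5: the operators `r` and `h` on germs (uses FH, KS2, KS3) -/
def StE5 : Prop := ∀ (G : Type) [Group G] (D : Type) [Fintype D] (L : Lev G D), L.Good →
  ∀ (n : ℕ → ℕ) (δ : ∀ j, Fin (n j) → D → ℤ)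
  (M : ∀ j, Fin (n (j + 1)) → Fin (n j) → MonoidAlgebra ℤ L.QS),
  FRes (fun i (q : L.QS) => L.χ i q) n δ M →
  ∃ s0 : ℤ, ∀ I ∉ L.Dep, ∀ H : D → ℤ, (∀ i, 0 ≤ H i) → (∀ i ∉ I, s0 ≤ H i) →
    ∃ (r : ∀ p, L.Zg n p →+ L.Zg n p) (h : ∀ p, L.Zg n p →+ L.Zg n (p + 1)),
      Nul (L.dg M) (L.Rg δ) L.e H r h

/-- cycles at the level `t` -/
def Lev.LCyc {G : Type} [Group G] {D : Type} (L : Lev G D) {n : ℕ → ℕ}
    (δ : ∀ j, Fin (n j) → D → ℤ) (M : ∀ j, Fin (n (j + 1)) → Fin (n j) → MonoidAlgebra ℤ L.QS)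
    (t : ℕ) : ∀ i, (Fin (n i) → MonoidAlgebra ℤ L.S) → Prop
  | 0, _ => True
  | i + 1, x => ∀ b, mu (fun a b => L.lif (M i a b)) x b ∈
      KS L.S (L.N ((t : ℤ) • L.e - δ i b))

/-- boundaries at the level `t` -/
def Lev.LBd {G : Type} [Group G] {D : Type} (L : Lev G D) {n : ℕ → ℕ}
    (δ : ∀ j, Fin (n j) → D → ℤ) (M : ∀ j, Fin (n (j + 1)) → Fin (n j) → MonoidAlgebra ℤ L.QS)
    (t : ℕ) (i : ℕ) (x : Fin (n i) → MonoidAlgebra ℤ L.S) : Prop :=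
  ∃ y : Fin (n (i + 1)) → MonoidAlgebra ℤ L.S, ∀ b,
    x b - mu (fun a b => L.lif (M i a b)) y b ∈ KS L.S (L.N ((t : ℤ) • L.e - δ i b))

/-- E6: injectivity at all large levels, from the injectivity on germs -/
def StE6 : Prop := ∀ (G : Type) [Group G] (D : Type) [Fintype D] (L : Lev G D), L.Good →
  ∀ (n : ℕ → ℕ) (δ : ∀ j, Fin (n j) → D → ℤ)
  (M : ∀ j, Fin (n (j + 1)) → Fin (n j) → MonoidAlgebra ℤ L.QS) (m : ℕ),
  (∀ i < m, ∀ F z, Cyc (L.dg M) (L.Rg δ) i F z → (∃ w, z - L.dg M i w ∈ L.Rg δ i (F + L.e)) →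
    ∃ w, z - L.dg M i w ∈ L.Rg δ i F) →
  ∃ t0 : ℕ, ∀ t : ℕ, t0 ≤ t → ∀ i < m, ∀ x, L.LCyc δ M t i x → L.LBd δ M (t + 1) i x →
    L.LBd δ M t i x

/-- E7: exactness at all large levels (uses KS3) -/
def StE7 : Prop := ∀ (G : Type) [Group G] (D : Type) [Fintype D] (L : Lev G D), L.Good →
  ∀ (n : ℕ → ℕ) (δ : ∀ j, Fin (n j) → D → ℤ)
  (M : ∀ j, Fin (n (j + 1)) → Fin (n j) → MonoidAlgebra ℤ L.QS),
  FRes (fun i (q : L.QS) => L.χ i q) n δ M → ∀ (m t0 : ℕ),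
  (∀ t : ℕ, t0 ≤ t → ∀ i < m, ∀ x, L.LCyc δ M t i x → L.LBd δ M (t + 1) i x →
    L.LBd δ M t i x) →
  ∀ t : ℕ, t0 ≤ t → ∀ i < m, ∀ x : Fin (n i) → MonoidAlgebra ℤ L.S, L.LCyc δ M t i x →
    (i = 0 → ∑ b, aug L.S (x b) = 0) → L.LBd δ M t i x

end Pool.Agent.Work.MP_e9e200_al.UP

end
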