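import Pool.Agent.Work.MP_e9e200_al.Bd.B12
import Pool.Agent.Work.MP_e9e200_al.Bd.B03
import Pool.Agent.Work.MP_e9e200_al.Bd.B11

/-! Bundle of small proof modules (one section per former module). -/

section

/-!
# Project LZ: item CHU
-/

set_option autoImplicit false

namespace Pool.Agent.Work.MP_e9e200_al.LZ

open Pool.Agent.Work.MP_e9e200_al.LC

theorem I_CHU (hCHG : StCHG) : StCHU := by
  intro G _ m B _ deg db eb h
  have h' : PRes ℤ ((⊤ : Submonoid G) : Set G) m B deg db eb := by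
    rw [Submonoid.coe_top]
    exact h
  have h2 := hCHG G ⊤ m B deg db eb h'
  rw [Submonoid.coe_top] at h2
  exact ⟨_, _, h2⟩

end Pool.Agent.Work.MP_e9e200_al.LZ

end

section

/-!
# Project LZ: item CIRC, existence of minimal positive relations
-/

set_option autoImplicit false

namespace Pool.Agent.Work.MP_e9e200_al.LZ

open Pool.Agent.Work.MP_e9e200_al.LC

namespace CIRC

/-- the real character of an integral character -/
def rch {G : Type} [Group G] (χ : Chr G) : Additive G →+ ℝ where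
  toFun := fun g => ((vl χ (Additive.toMul g) : ℤ) : ℝ)
  map_zero' := by
    show ((Multiplicative.toAdd (χ 1) : ℤ) : ℝ) = 0
    rw [map_one]; simp
  map_add' := by
    intro x y
    show ((Multiplicative.toAdd (χ (Additive.toMul x * Additive.toMul y)) : ℤ) : ℝ) = _
    rw [map_mul χ, toAdd_mul]
    push_cast
    rfl

lemma rch_apply {G : Type} [Group G] (χ : Chr G) (g : G) :
    rch χ (Additive.ofMul g) = ((vl χ g : ℤ) : ℝ) := rfl

lemma sum_apply {G : Type} [Group G] {n : ℕ} (χs : Fin n → Chr G) (b : Fin n → ℝ) (g : G) :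
    (∑ i, b i • rch (χs i)) (Additive.ofMul g) = ∑ i, b i * ((vl (χs i) g : ℤ) : ℝ) := by
  rw [AddMonoidHom.finsetSum_apply]
  rfl

theorem main (hLIN : StLIN) (G : Type) [Group G] (P : Chr G → Prop) :
    ∀ (k : ℕ) (χs : Fin k → Chr G)
  (a : Fin k → ℝ), 1 ≤ k → (∀ i, P (χs i)) → (∀ i, ∃ t, vl (χs i) t = 1) → (∀ i, 0 < a i) →
  (∀ g, ∑ i, a i * (vl (χs i) g : ℝ) = 0) →
  ∃ (k' : ℕ) (χs' : Fin k' → Chr G) (a' : Fin k' → ℝ) (c : Fin k' → ℤ)
    (h : Fin k' → Fin k' → G), 1 ≤ k' ∧ k' ≤ k ∧ (∀ i, P (χs' i)) ∧ Circ χs' a' c h := by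
  intro k
  induction k using Nat.strong_induction_on with
  | _ k ih =>
  intro χs a hk hP ht ha hrel
  obtain ⟨k0, rfl⟩ : ∃ k0, k = k0 + 1 := ⟨k - 1, by omega⟩
  by_cases hcase : ∀ l : Fin (k0 + 1), LinearIndependent ℝ (fun i : Fin k0 => rch (χs (l.succAbove i)))
  · -- the relation is minimal
    have key : ∀ l : Fin (k0 + 1), ∃ (c' : ℤ) (h : Fin k0 → G), 0 < c' ∧
        ∀ i j, vl (χs (l.succAbove i)) (h j) = if i = j then c' else 0 := by
      intro l
      obtain ⟨F, ε, hε, H⟩ := hLIN G k0 _ (hcase l)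
      refine H (fun i => χs (l.succAbove i)) (fun _ => 1) (fun _ => one_pos) ?_
      intro i g _
      show |1 * ((vl (χs (l.succAbove i)) g : ℤ) : ℝ) -
        rch (χs (l.succAbove i)) (Additive.ofMul g)| < ε
      rw [rch_apply, one_mul, sub_self, abs_zero]
      exact hε
    choose c' h' hc' hh' using key
    refine ⟨k0 + 1, χs, a, c', fun l => Fin.insertNth (α := fun _ => G) l 1 (h' l), hk,
      le_refl _, hP, ⟨ha, hc', hrel, ?_, ht⟩⟩
    intro l i j hi hj
    obtain ⟨i', rfl⟩ := Fin.exists_succAbove_eq hi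
    obtain ⟨j', rfl⟩ := Fin.exists_succAbove_eq hj
    show vl (χs (l.succAbove i')) (Fin.insertNth (α := fun _ => G) l 1 (h' l) (l.succAbove j')) = _
    rw [Fin.insertNth_apply_succAbove, hh' l i' j']
    by_cases hij : i' = j'
    · subst hij; simp
    · rw [if_neg hij, if_neg (fun h => hij (Fin.succAbove_right_injective h))]
  · -- a dependence between some of the characters
    push Not at hcase
    obtain ⟨l, hl⟩ := hcase
    rw [Fintype.not_linearIndependent_iff] at hl
    obtain ⟨u, hu, i1, hi1⟩ := hl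
    have hb : ∃ b : Fin (k0 + 1) → ℝ, (∀ g, ∑ i, b i * ((vl (χs i) g : ℤ) : ℝ) = 0) ∧ b l = 0 ∧
        ∃ i, 0 < b i := by
      have h0 : ∀ w : Fin k0 → ℝ, (∑ i, w i • rch (χs (l.succAbove i)) = 0) →
          ∀ g, ∑ i, (Fin.insertNth (α := fun _ => ℝ) l 0 w) i * ((vl (χs i) g : ℤ) : ℝ) = 0 := by
        intro w hw g
        rw [Fin.sum_univ_succAbove _ l, Fin.insertNth_apply_same, zero_mul, zero_add]
        have h1 := sum_apply (fun i => χs (l.succAbove i)) w g
        rw [hw] at h1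
        rw [show (0 : Additive G →+ ℝ) (Additive.ofMul g) = 0 from rfl] at h1
        rw [h1]
        exact Finset.sum_congr rfl (fun i _ => by rw [Fin.insertNth_apply_succAbove])
      rcases lt_or_gt_of_ne hi1 with hneg | hpos
      · refine ⟨Fin.insertNth (α := fun _ => ℝ) l 0 (fun i => - u i), h0 _ ?_,
          Fin.insertNth_apply_same _ _ _, l.succAbove i1, ?_⟩
        · simp only [neg_smul, Finset.sum_neg_distrib, hu, neg_zero]
        · rw [Fin.insertNth_apply_succAbove]; linarith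
      · refine ⟨Fin.insertNth (α := fun _ => ℝ) l 0 u, h0 _ hu,
          Fin.insertNth_apply_same _ _ _, l.succAbove i1, ?_⟩
        rw [Fin.insertNth_apply_succAbove]; exact hpos
    obtain ⟨b, hb, hbl, i2, hi2⟩ := hb
    obtain ⟨i0, hi0, hmin⟩ := Finset.exists_min_image
      (Finset.univ.filter (fun i => 0 < b i)) (fun i => a i / b i) ⟨i2, by simpa using hi2⟩
    have hb0 : 0 < b i0 := by simpa using hi0
    obtain ⟨t, ht0⟩ : ∃ t, t = a i0 / b i0 := ⟨_, rfl⟩
    have htpos : 0 < t := by rw [ht0]; exact div_pos (ha i0) hb0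
    obtain ⟨a', ha'⟩ : ∃ a' : Fin (k0 + 1) → ℝ, ∀ i, a' i = a i - t * b i :=
      ⟨fun i => a i - t * b i, fun _ => rfl⟩
    have hnn : ∀ i, 0 ≤ a' i := by
      intro i
      rw [ha']
      by_cases hbi : 0 < b i
      · have h1 := hmin i (by simpa using hbi)
        have h2 : t * b i ≤ a i := by
          rw [← le_div_iff₀ hbi, ht0]; exact h1
        linarith
      · have h1 : t * b i ≤ 0 := mul_nonpos_of_nonneg_of_nonpos htpos.le (not_lt.1 hbi)
        have h2 := ha i
        linarith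
    have ha0 : a' i0 = 0 := by
      rw [ha', ht0, div_mul_cancel₀ _ hb0.ne', sub_self]
    have hal : 0 < a' l := by rw [ha', hbl, mul_zero, sub_zero]; exact ha l
    have hrel' : ∀ g, ∑ i, a' i * ((vl (χs i) g : ℤ) : ℝ) = 0 := by
      intro g
      have h1 : ∀ i, a' i * ((vl (χs i) g : ℤ) : ℝ) = a i * ((vl (χs i) g : ℤ) : ℝ) -
          t * (b i * ((vl (χs i) g : ℤ) : ℝ)) := by
        intro i; rw [ha']; ring
      rw [Finset.sum_congr rfl (fun i _ => h1 i), Finset.sum_sub_distrib, ← Finset.mul_sum,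
        hb g, hrel g, mul_zero, sub_zero]
    obtain ⟨s, hs⟩ : ∃ s : Finset (Fin (k0 + 1)), ∀ i, i ∈ s ↔ 0 < a' i :=
      ⟨Finset.univ.filter (fun i => 0 < a' i), fun i => by simp⟩
    have hs1 : 1 ≤ s.card := Finset.card_pos.2 ⟨l, (hs l).2 hal⟩
    have hs2 : s.card < k0 + 1 := by
      have h1 : s.card < (Finset.univ : Finset (Fin (k0 + 1))).card := by
        apply Finset.card_lt_card
        rw [Finset.ssubset_univ_iff]
        intro h
        have h2 : i0 ∈ s := by rw [h]; exact Finset.mem_univ _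
        have h3 := (hs i0).1 h2
        rw [ha0] at h3
        exact lt_irrefl _ h3
      simpa using h1
    obtain ⟨e⟩ : Nonempty (Fin s.card ≃ {x // x ∈ s}) := ⟨s.equivFin.symm⟩
    obtain ⟨k', χs', a'', c, h, hk1, hk2, hP', hC⟩ := ih s.card hs2 (fun i => χs (e i).1)
      (fun i => a' (e i).1) hs1 (fun i => hP _) (fun i => ht _) (fun i => (hs _).1 (e i).2) (by
        intro g
        have h1 : ∑ i : Fin s.card, a' (e i).1 * ((vl (χs (e i).1) g : ℤ) : ℝ) =
            ∑ x : {x // x ∈ s}, a' x.1 * ((vl (χs x.1) g : ℤ) : ℝ) :=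
          Equiv.sum_comp e (fun x : {x // x ∈ s} => a' x.1 * ((vl (χs x.1) g : ℤ) : ℝ))
        have h2 : ∑ x : {x // x ∈ s}, a' x.1 * ((vl (χs x.1) g : ℤ) : ℝ) =
            ∑ x ∈ s, a' x * ((vl (χs x) g : ℤ) : ℝ) :=
          Finset.sum_coe_sort s (fun x => a' x * ((vl (χs x) g : ℤ) : ℝ))
        rw [h1, h2, ← hrel' g]
        refine Finset.sum_subset (Finset.subset_univ s) (fun x _ hx => ?_)
        have h3 : a' x = 0 := le_antisymm (not_lt.1 (fun h => hx ((hs x).2 h))) (hnn x)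
        rw [h3, zero_mul])
    exact ⟨k', χs', a'', c, h, hk1, by omega, hP', hC⟩

end CIRC

theorem I_CIRC (hLIN : StLIN) : StCIRC := by
  intro G _ P k χs a hk hP ht ha hrel
  exact CIRC.main hLIN G P k χs a hk hP ht ha hrel

end Pool.Agent.Work.MP_e9e200_al.LZ

end

section

/-!
# Project LZ, item DISC0: the theorem for integral characters
-/

set_option autoImplicit false

namespace Pool.Agent.Work.MP_e9e200_al.LZ

open Finsupp
open Pool.Agent.Work.MP_e9e200_al.LC

namespace DISC0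

open DISC

variable {G : Type} [Group G]

lemma vl_triv (g : G) : vl (1 : Chr G) g = 0 := rfl

lemma vl_bch_triv (q : Abelianization G) : vl (bch (1 : Chr G)) q = 0 := by
  obtain ⟨g, rfl⟩ : ∃ g, Abelianization.of g = q := QuotientGroup.mk_surjective q
  rw [vl_bch, vl_triv]

lemma set_triv : {g : G | 0 ≤ vl (1 : Chr G) g} = Set.univ := by
  ext g
  simp only [Set.mem_ofPred_eq, Set.mem_univ, iff_true]
  rw [vl_triv]

end DISC0

open DISC DISC0 in
/-- DISC0: the theorem for integral characters -/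
theorem I_DISC0 (hCORE : StCORE) (hHOP : StHOP) (hBG : StBG) (hNOE : StNOE) (hTWD : StTWD)
    (hSIG0 : StSIG0) (hPSI : StPSI) : StDISC0 := by
  intro G _ _ hMet m hm χs a c h hC hNFG B _ deg db eb H0
  have H : PRes ℂ {g | 0 ≤ vl (1 : Chr G) g} m B deg db eb := by
    rw [set_triv]
    exact H0
  obtain ⟨ha, hHa⟩ := hHOP G (mon (1 : Chr G)) m B deg db eb H fun a ha => by
    change 0 ≤ vl (1 : Chr G) a
    rw [vl_triv]
  obtain ⟨K, hGood⟩ := hBG G (Fin m) (1 : Chr G) χs m B deg db eb H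
  have hFG : Group.FG (Abelianization G) :=
    inferInstanceAs (Group.FG (G ⧸ commutator G))
  have hsup : ∀ b, mp ℂ Abelianization.of (db b) ∈ Finsupp.supported ℂ ℂ
      {p : Abelianization G × B | 0 ≤ vl (bch (1 : Chr G)) p.1 ∧ deg p.2 + 1 = deg b} :=
    fun b => mp_sup Abelianization.of _ _ (fun p hp => hp) (db b) (H.db_sup b)
  have hBd : ∀ I : Finset (Fin m), I ≠ Finset.univ → ∀ d, d < m →
      (bar (1 : Chr G) χs B deg db).Bd I d := by
    intro I hI d _
    obtain ⟨l, hl⟩ : ∃ l, l ∉ I := by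
      by_contra hcon
      push Not at hcon
      exact hI (Finset.eq_univ_iff_forall.2 hcon)
    refine hNOE (Abelianization G) (Fin m) (bch (1 : Chr G)) (fun j => bch (χs j)) B deg
      (fun b => mp ℂ Abelianization.of (db b)) hsup I
      (∏ j ∈ I, Abelianization.of (h l j)) (c l) (hC.cpos l) (vl_bch_triv _) ?_ d
    intro j hj
    rw [vl_prod]
    have hjl : j ≠ l := fun e => hl (e ▸ hj)
    have : ∀ j' ∈ I, vl (bch (χs j)) (Abelianization.of (h l j')) =
        if j = j' then c l else 0 := by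
      intro j' hj'
      rw [vl_bch]
      exact hC.dual l j j' hjl (fun e => hl (e ▸ hj'))
    rw [Finset.sum_congr rfl this]
    simp [hj]
  have hTw : ∀ J : Finset (Fin m), J.Nonempty → ∀ e, e < m →
      (bar (1 : Chr G) χs B deg db).Twisted J e := fun J hJ e he =>
    hTWD G hMet (Fin m) (1 : Chr G) χs m B deg db eb ha H hHa J hJ
      (hSIG0 G hMet (Fin m) χs a c h hC
        (fun i => hPSI G hMet (χs i) (hC.prim i) (hNFG i)) J hJ) e he
  have hPush := hCORE (Fin m) (bar (1 : Chr G) χs B deg db) K hGood m (Fintype.card_fin m) hm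
    hBd hTw
  obtain ⟨x0, hx0, hx1⟩ := H.surj
  have hxS' : mp ℂ Abelianization.of x0 ∈ Finsupp.supported ℂ ℂ
      {p : Abelianization G × B | 0 ≤ vl (bch (1 : Chr G)) p.1 ∧ deg p.2 = 0 ∧ True} :=
    mp_sup Abelianization.of
      {p : G × B | p.1 ∈ {g : G | 0 ≤ vl (1 : Chr G) g} ∧ deg p.2 = 0} _
      (fun p hp => And.intro hp.1 (And.intro hp.2 trivial)) x0 hx0
  have hxS : mp ℂ Abelianization.of x0 ∈
      (bar (1 : Chr G) χs B deg db).S 0 (fun _ => True) := hxS'
  have hxD : (bar (1 : Chr G) χs B deg db).D (mp ℂ Abelianization.of x0) = 0 := by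
    change Finsupp.linearCombination ℂ (fun p : Abelianization G × B =>
      tr ℂ p.1 (mp ℂ Abelianization.of (db p.2))) (mp ℂ Abelianization.of x0) = 0
    rw [Finsupp.linearCombination_apply, Finsupp.sum]
    refine Finset.sum_eq_zero fun p hp => ?_
    have h1 : deg p.2 = 0 := ((Finsupp.mem_supported _ _).1 hxS' hp).2.1
    have h2 : db p.2 = 0 := by
      have h3 := (Finsupp.mem_supported _ _).1 (H.db_sup p.2)
      rw [← Finsupp.support_eq_empty, Finset.eq_empty_iff_forall_notMem]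
      intro q hq
      have h4 : deg q.2 + 1 = deg p.2 := (h3 hq).2
      omega
    rw [h2, map_zero, map_zero, smul_zero]
  obtain ⟨x', hx', -, w, -, hw⟩ := hPush (-1) _ hxS hxD
  have hx'0 : x' = 0 := by
    rw [← Finsupp.support_eq_empty, Finset.eq_empty_iff_forall_notMem]
    intro q hq
    obtain ⟨-, -, e3⟩ := (Finsupp.mem_supported _ _).1 hx' hq
    have e3' : ∀ j, vl (bch (χs j)) q.1 ≤ -1 := fun j => e3 j (Finset.mem_univ j)
    obtain ⟨g, hg⟩ : ∃ g, Abelianization.of g = q.1 := QuotientGroup.mk_surjective q.1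
    rw [← hg] at e3'
    have e4 : ∑ i, a i * (vl (χs i) g : ℝ) ≤ ∑ i, -a i := by
      refine Finset.sum_le_sum fun i _ => ?_
      have h5 : vl (χs i) g ≤ -1 := e3' i
      have h6 : (vl (χs i) g : ℝ) ≤ -1 := by exact_mod_cast h5
      have h7 := mul_le_mul_of_nonneg_left h6 (hC.apos i).le
      linarith
    have e5 : ∑ i : Fin m, -a i < 0 := by
      rw [Finset.sum_neg_distrib, neg_lt_zero]
      refine Finset.sum_pos (fun i _ => hC.apos i) ?_
      exact ⟨⟨0, by omega⟩, Finset.mem_univ _⟩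
    have e6 := hC.rel g
    linarith
  have h1 : LC.aug ℂ eb ((bar (1 : Chr G) χs B deg db).D w) = 0 :=
    aug_ext eb (fun b => mp ℂ Abelianization.of (db b))
      (fun b => by rw [aug_mp]; exact H.ed b) w
  have hw' : (bar (1 : Chr G) χs B deg db).D w = mp ℂ Abelianization.of x0 := by
    rw [hw, hx'0]
    exact sub_zero _
  have h2 : LC.aug ℂ eb (mp ℂ Abelianization.of x0) = 0 := by
    rw [← hw']
    exact h1
  rw [aug_mp, hx1] at h2
  exact one_ne_zero h2

end Pool.Agent.Work.MP_e9e200_al.LZ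

end

section

/-!
# Project LZ: item INT (integral approximation of a real character)
-/

set_option autoImplicit false

namespace Pool.Agent.Work.MP_e9e200_al.LZ

open Pool.Agent.Work.MP_e9e200_al.LC

namespace INT

lemma pos_of_floor {n : ℕ} (m : Fin n → ℤ) (e : Fin n → ℝ) (N : ℝ)
    (h : ∑ i, |(m i : ℝ)| < N * ∑ i, (m i : ℝ) * e i) : 0 < ∑ i, m i * ⌊N * e i⌋ := by
  have h1 : N * ∑ i, (m i : ℝ) * e i - ∑ i, |(m i : ℝ)| ≤ ∑ i, (m i : ℝ) * (⌊N * e i⌋ : ℝ) := by
    rw [Finset.mul_sum, ← Finset.sum_sub_distrib]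
    refine Finset.sum_le_sum (fun i _ => ?_)
    have h2 : N * ((m i : ℝ) * e i) - (m i : ℝ) * (⌊N * e i⌋ : ℝ) = (m i : ℝ) * Int.fract (N * e i) := by
      rw [Int.fract]; ring
    have h3 : (m i : ℝ) * Int.fract (N * e i) ≤ |(m i : ℝ)| := by
      have h4 : (m i : ℝ) * Int.fract (N * e i) ≤ |(m i : ℝ)| * Int.fract (N * e i) :=
        mul_le_mul_of_nonneg_right (le_abs_self _) (Int.fract_nonneg _)
      have h5 : |(m i : ℝ)| * Int.fract (N * e i) ≤ |(m i : ℝ)| * 1 :=
        mul_le_mul_of_nonneg_left (Int.fract_lt_one _).le (abs_nonneg _)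
      linarith
    linarith
  have h6 : (0 : ℝ) < ((∑ i, m i * ⌊N * e i⌋ : ℤ) : ℝ) := by
    push_cast
    linarith
  exact_mod_cast h6

end INT

/-- INT: integral approximation of a real character -/
theorem I_INT : StINT := by
  intro H _ _ v X hX
  classical
  have : Module.Finite ℤ (Additive H) := Module.Finite.iff_addGroup_fg.2 inferInstance
  let A : Submodule ℤ ℝ := LinearMap.range v.toIntLinearMap
  have : Module.Finite ℤ A := Module.Finite.range _
  have : Module.Free ℤ A := inferInstance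
  let e := Module.finBasis ℤ A
  let w : Additive H →ₗ[ℤ] A := v.toIntLinearMap.rangeRestrict
  have hw : ∀ q, ((w q : A) : ℝ) = v q := fun q => rfl
  let m : H → Fin (Module.finrank ℤ A) → ℤ := fun q i => e.repr (w (Additive.ofMul q)) i
  have hm : ∀ q, v (Additive.ofMul q) = ∑ i, (m q i : ℝ) * ((e i : A) : ℝ) := by
    intro q
    have h1 := congrArg (A.subtype) (e.sum_repr (w (Additive.ofMul q)))
    rw [map_sum] at h1
    have h2 : A.subtype (w (Additive.ofMul q)) = v (Additive.ofMul q) := rfl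
    rw [h2] at h1
    rw [← h1]
    refine Finset.sum_congr rfl (fun i _ => ?_)
    rw [map_zsmul, zsmul_eq_mul]
    rfl
  obtain ⟨N, hN⟩ := exists_nat_gt (∑ x ∈ X, (∑ i, |(m x i : ℝ)|) / v (Additive.ofMul x))
  let k : Fin (Module.finrank ℤ A) → ℤ := fun i => ⌊(N : ℝ) * ((e i : A) : ℝ)⌋
  have hmul : ∀ a b i, m (a * b) i = m a i + m b i := by
    intro a b i
    show e.repr (w (Additive.ofMul (a * b))) i = _
    rw [ofMul_mul, map_add, map_add]
    rfl
  let χ : Chr H := MonoidHom.mk' (fun q => Multiplicative.ofAdd (∑ i, m q i * k i)) (by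
    intro a b
    rw [← ofAdd_add, ← Finset.sum_add_distrib]
    congr 1
    refine Finset.sum_congr rfl (fun i _ => ?_)
    rw [hmul, add_mul])
  have hχ : ∀ q, vl χ q = ∑ i, m q i * k i := fun q => rfl
  refine ⟨χ, fun q hq => ?_, fun x hx => ?_⟩
  · rw [hχ]
    have h0 : w (Additive.ofMul q) = 0 := Subtype.ext (by rw [hw, hq]; rfl)
    refine Finset.sum_eq_zero (fun i _ => ?_)
    have : m q i = 0 := by
      show e.repr (w (Additive.ofMul q)) i = 0
      rw [h0, map_zero]; rfl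
    rw [this, zero_mul]
  · rw [hχ]
    refine INT.pos_of_floor _ _ _ ?_
    rw [← hm x]
    have h1 : (∑ i, |(m x i : ℝ)|) / v (Additive.ofMul x) ≤
        ∑ x ∈ X, (∑ i, |(m x i : ℝ)|) / v (Additive.ofMul x) :=
      Finset.single_le_sum (f := fun x => (∑ i, |(m x i : ℝ)|) / v (Additive.ofMul x))
        (fun y hy => div_nonneg (Finset.sum_nonneg fun i _ => abs_nonneg _) (hX y hy).le) hx
    have h2 := lt_of_le_of_lt h1 hN
    rwa [div_lt_iff₀ (hX x hx)] at h2

end Pool.Agent.Work.MP_e9e200_al.LZ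

end

section

/-!
# Project LZ: `m`-tameness from a based partial resolution
-/

set_option autoImplicit false

namespace Pool.Agent.Work.MP_e9e200_al.LZ

open Pool.Agent.Work.MP_e9e200_al.LC

theorem I_LOW0 (hRREL : StRREL) (hCIRC : StCIRC) (hDISC0 : StDISC0) (hTRU : StTRU)
    (hCHU : StCHU) (hSig : StSig1) : StLOW0 := by
  intro m G _ _ hmet hP γ hγ a ha haj hsum
  classical
  obtain ⟨B, hB, deg, db, eb, hP⟩ := hP
  set s : Finset (Fin m) := Finset.univ.filter (fun j => 0 < a j) with hs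
  obtain ⟨j0, hj0⟩ := haj
  have hj0s : j0 ∈ s := by
    rw [hs, Finset.mem_filter]
    exact ⟨Finset.mem_univ _, lt_of_le_of_ne (ha j0) (Ne.symm hj0)⟩
  have hk1 : 1 ≤ s.card := Finset.card_pos.2 ⟨j0, hj0s⟩
  have hkm : s.card ≤ m := by
    calc s.card ≤ (Finset.univ : Finset (Fin m)).card := Finset.card_le_card (Finset.filter_subset _ _)
      _ = m := by simp
  let e : Fin s.card ≃ s := s.equivFin.symm
  have hpos : ∀ i, 0 < a (e i) := fun i => (Finset.mem_filter.1 (e i).2).2
  let γ' : Fin s.card → (Additive G →+ ℝ) := fun i => a (e i) • γ (e i)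
  have hγ'0 : ∀ i, γ' i ≠ 0 := by
    intro i h
    have h1 : γ (e i) = 0 := by
      have h2 : (a (e i))⁻¹ • (a (e i) • γ (e i)) = (a (e i))⁻¹ • (0 : Additive G →+ ℝ) :=
        congrArg _ h
      rwa [smul_smul, inv_mul_cancel₀ (hpos i).ne', one_smul, smul_zero] at h2
    exact (hγ (e i)).1 h1
  have hng : ∀ i, ∀ V : Finset G, (∀ v ∈ V, v ∈ commutator G) →
      ∃ x ∈ commutator G, x ∉ Gen G (γ' i) V := by
    intro i V hV
    have h3 : Gen G (γ' i) V = Gen G (γ (e i)) V := Glue3.gen_smul (hpos i) V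
    rw [h3]
    by_contra hcon
    push Not at hcon
    exact (hγ (e i)).2 (hSig G hmet (γ (e i)) (hγ (e i)).1 V hV hcon)
  have hsum' : ∑ i, γ' i = 0 := by
    have h1 : ∑ i, γ' i = ∑ j ∈ s, a j • γ j := by
      rw [← Finset.sum_coe_sort s (fun j => a j • γ j)]
      exact Fintype.sum_equiv e _ _ (fun i => rfl)
    rw [h1, hs, Finset.sum_filter]
    refine Eq.trans (Finset.sum_congr rfl fun j _ => ?_) hsum
    split_ifs with h
    · rfl
    · have : a j = 0 := le_antisymm (not_lt.1 h) (ha j)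
      rw [this, zero_smul]
  obtain ⟨χs, n, hn, hprim, hnfg, hrel⟩ := hRREL G hmet s.card γ' hγ'0 hng hsum'
  obtain ⟨k', χs', a', c, h, hk', hk'k, hnfg', hcirc⟩ := hCIRC G NFG s.card χs
    (fun i => ((n i : ℕ) : ℝ)) hk1 hnfg hprim (fun i => by exact_mod_cast hn i) (fun g => by
      have h1 := hrel g
      exact_mod_cast h1)
  obtain ⟨B1, hB1, deg1, db1, eb1, hP1⟩ := hTRU ℤ G Set.univ m k' B deg db eb hP
    (hk'k.trans hkm)
  obtain ⟨db2, eb2, hP2⟩ := hCHU G k' B1 deg1 db1 eb1 hP1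
  exact hDISC0 G hmet k' hk' χs' a' c h hcirc hnfg' B1 deg1 db2 eb2 hP2

end Pool.Agent.Work.MP_e9e200_al.LZ

end

section

/-!
# Project LZ, item RAT: the condition `Avoid` is open among the characters which vanish on the
kernel
-/

set_option autoImplicit false

namespace Pool.Agent.Work.MP_e9e200_al.LZ

open Pool.Agent.Work.MP_e9e200_al.LC

namespace RAT

variable {Q : Type} [CommGroup Q]

/-- subgroups of finitely generated abelian groups -/
theorem sub_fg [Group.FG Q] (K : Subgroup Q) : Group.FG K := by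
  rw [Group.fg_iff_subgroup_fg, Subgroup.fg_iff_add_fg]
  have h1 : Module.Finite ℤ (Additive Q) := Module.Finite.iff_addGroup_fg.2 inferInstance
  have h2 : IsNoetherian ℤ (Additive Q) := isNoetherian_of_isNoetherianRing_of_finite ℤ _
  have h := IsNoetherian.noetherian (AddSubgroup.toIntSubmodule (Subgroup.toAddSubgroup K))
  rw [Submodule.fg_iff_addSubgroup_fg] at h
  simpa using h

/-- elements with support in a set -/
def Sp (S : Set Q) : AddSubgroup (MonoidAlgebra ℤ Q) where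
  carrier := {f | ∀ q, f.coeff q ≠ 0 → q ∈ S}
  zero_mem' := fun q hq => by simp at hq
  add_mem' := by
    intro a b ha hb q hq
    by_cases h : a.coeff q = 0
    · refine hb q fun h' => hq ?_
      rw [MonoidAlgebra.coeff_add, Finsupp.add_apply, h, h', add_zero]
    · exact ha q h
  neg_mem' := by
    intro a ha q hq
    refine ha q fun h' => hq ?_
    rw [MonoidAlgebra.coeff_neg, Finsupp.neg_apply, h', neg_zero]

theorem mem_Sp {S : Set Q} {f : MonoidAlgebra ℤ Q} : f ∈ Sp S ↔ ∀ q, f.coeff q ≠ 0 → q ∈ S :=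
  Iff.rfl

theorem Sp_mono {S T : Set Q} (h : S ⊆ T) {f : MonoidAlgebra ℤ Q} (hf : f ∈ Sp S) : f ∈ Sp T :=
  fun q hq => h (hf q hq)

theorem Sp_of {S : Set Q} {q : Q} (h : q ∈ S) : MonoidAlgebra.of ℤ Q q ∈ Sp S := by
  classical
  intro r hr
  have h1 : r = q := by
    by_contra hne
    apply hr
    rw [MonoidAlgebra.of_apply, MonoidAlgebra.coeff_single, Finsupp.single_apply,
      if_neg (Ne.symm hne)]
  rw [h1]
  exact h

theorem Sp_mul {S T U : Set Q} {f g : MonoidAlgebra ℤ Q} (hf : f ∈ Sp S) (hg : g ∈ Sp T)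
    (h : ∀ s ∈ S, ∀ t ∈ T, s * t ∈ U) : f * g ∈ Sp U := by
  classical
  intro q hq
  have h1 := MonoidAlgebra.support_coeff_mul_subset f g (Finsupp.mem_support_iff.2 hq)
  obtain ⟨s, hs, t, ht, rfl⟩ := Finset.mem_mul.1 h1
  exact h s (hf s (Finsupp.mem_support_iff.1 hs)) t (hg t (Finsupp.mem_support_iff.1 ht))

theorem mem_posI (v : Q → ℝ) (f : MonoidAlgebra ℤ Q) : f ∈ posI v ↔ f ∈ Sp {q | 0 < v q} := by
  constructor
  · intro h
    unfold posI at h
    induction h using Submodule.span_induction with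
    | mem x hx =>
      obtain ⟨q, hq, rfl⟩ := hx
      exact Sp_of hq
    | zero => exact zero_mem _
    | add x y _ _ hx hy => exact add_mem hx hy
    | smul n x _ hx => exact zsmul_mem hx n
  · intro h
    have h1 := MonoidAlgebra.mem_span_support_coeff f
    unfold posI
    refine Submodule.span_mono ?_ h1
    rintro g ⟨q, hq, rfl⟩
    exact ⟨q, h q (Finsupp.mem_support_iff.1 hq), rfl⟩

/-- the group ring of a subgroup -/
noncomputable def j (K : Subgroup Q) : MonoidAlgebra ℤ K →+* MonoidAlgebra ℤ Q :=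
  MonoidAlgebra.mapDomainRingHom ℤ K.subtype

theorem j_mem (K : Subgroup Q) (k : MonoidAlgebra ℤ K) (q : K) :
    (j K k).coeff (q : Q) = k.coeff q := by
  show (Finsupp.mapDomain K.subtype k.coeff) (K.subtype q) = _
  exact Finsupp.mapDomain_apply K.subtype_injective _ _

theorem j_notMem (K : Subgroup Q) (k : MonoidAlgebra ℤ K) {q : Q} (h : q ∉ K) :
    (j K k).coeff q = 0 := by
  show (Finsupp.mapDomain K.subtype k.coeff) q = _
  refine Finsupp.mapDomain_of_notMem_range _ _ ?_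
  rintro ⟨x, rfl⟩
  exact h x.2

theorem j_Sp (K : Subgroup Q) (k : MonoidAlgebra ℤ K) : j K k ∈ Sp (K : Set Q) := by
  intro q hq
  by_contra h
  exact hq (j_notMem K k h)

theorem of_mul_coeff (q0 : Q) (f : MonoidAlgebra ℤ Q) (q : Q) :
    (MonoidAlgebra.of ℤ Q q0 * f).coeff q = f.coeff (q0⁻¹ * q) := by
  rw [MonoidAlgebra.of_apply, MonoidAlgebra.coeff_single_mul_apply, one_mul]

/-- the ideal of leading parts -/
noncomputable def i0 (V : Q → ℝ) (hV : ∀ a b, V (a * b) = V a + V b) (K : Subgroup Q)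
    (hK : ∀ q, q ∈ K ↔ V q = 0) (I : Ideal (MonoidAlgebra ℤ Q)) : Ideal (MonoidAlgebra ℤ K) where
  carrier := {k | ∃ f ∈ I, f - j K k ∈ Sp {q | 0 < V q}}
  zero_mem' := ⟨0, zero_mem _, by rw [map_zero, sub_zero]; exact zero_mem _⟩
  add_mem' := by
    rintro a b ⟨f, hf, hfa⟩ ⟨g, hg, hgb⟩
    refine ⟨f + g, add_mem hf hg, ?_⟩
    rw [map_add, add_sub_add_comm]
    exact add_mem hfa hgb
  smul_mem' := by
    rintro c k ⟨f, hf, hfk⟩
    refine ⟨j K c * f, I.mul_mem_left _ hf, ?_⟩
    rw [smul_eq_mul, map_mul, ← mul_sub]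
    refine Sp_mul (j_Sp K c) hfk ?_
    intro s hs t ht
    show 0 < V (s * t)
    rw [hV, (hK s).1 hs, zero_add]
    exact ht

theorem injK (K : Subgroup Q) (q0 : Q) : Function.Injective (fun κ : K => q0 * (κ : Q)) :=
  fun _ _ h => Subtype.ext (mul_left_cancel h)

/-- the slice -/
noncomputable def sl (K : Subgroup Q) (q0 : Q) (f : MonoidAlgebra ℤ Q) : MonoidAlgebra ℤ K :=
  MonoidAlgebra.ofCoeff (f.coeff.comapDomain (fun κ : K => q0 * (κ : Q))
    (injK K q0).injOn)

theorem sl_coeff (K : Subgroup Q) (q0 : Q) (f : MonoidAlgebra ℤ Q) (κ : K) :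
    (sl K q0 f).coeff κ = f.coeff (q0 * κ) := by
  unfold sl
  rw [MonoidAlgebra.coeff_ofCoeff, Finsupp.comapDomain_apply]

/-- the reduction step -/
theorem step (V : Q → ℝ) (hV : ∀ a b, V (a * b) = V a + V b) (K : Subgroup Q)
    (hK : ∀ q, q ∈ K ↔ V q = 0) (I : Ideal (MonoidAlgebra ℤ Q)) (r : ℕ)
    (k : Fin r → MonoidAlgebra ℤ K) (fl : Fin r → MonoidAlgebra ℤ Q) (hfl : ∀ l, fl l ∈ I)
    (hspan : Ideal.span (Set.range k) = i0 V hV K hK I) (X : Finset Q)
    (hX : ∀ l, fl l - j K (k l) ∈ Sp (X : Set Q)) (δ : ℝ) (hδ : ∀ x ∈ X, δ ≤ V x)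
    (C : Q → ℝ) (hC : ∀ a b, C (a * b) = C a + C b) (hCK : ∀ q, V q = 0 → C q = 0)
    (hCX : ∀ x ∈ X, 0 < C x) (f : MonoidAlgebra ℤ Q) (hf : f ∈ I)
    (hf1 : f - 1 ∈ Sp {q | 0 < C q}) (μ : ℝ) (hμ : μ < 0) (hfμ : f ∈ Sp {q | μ ≤ V q}) :
    ∃ f' ∈ I, f' - 1 ∈ Sp {q | 0 < C q} ∧
      f' ∈ Sp {q | (f.coeff q ≠ 0 ∧ μ < V q) ∨ μ + δ ≤ V q} := by
  classical
  have hV1 : V 1 = 0 := by
    have := hV 1 1
    rw [mul_one] at this
    linarith
  have hVi : ∀ q, V q⁻¹ = - V q := by
    intro q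
    have := hV q q⁻¹
    rw [mul_inv_cancel, hV1] at this
    linarith
  by_cases h : ∃ q0, f.coeff q0 ≠ 0 ∧ V q0 = μ
  swap
  · refine ⟨f, hf, hf1, fun q hq => Or.inl ⟨hq, ?_⟩⟩
    refine lt_of_le_of_ne (hfμ q hq) fun h' => h ⟨q, hq, h'.symm⟩
  obtain ⟨q0, hq0, hVq0⟩ := h
  -- positivity of `C` at `q0`
  have hq01 : q0 ≠ 1 := by
    rintro rfl
    rw [hV1] at hVq0
    linarith
  have hCq0 : 0 < C q0 := by
    refine hf1 q0 ?_
    rw [MonoidAlgebra.coeff_sub, Finsupp.sub_apply]
    have h1 : (1 : MonoidAlgebra ℤ Q).coeff q0 = 0 := by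
      rw [MonoidAlgebra.one_def, MonoidAlgebra.coeff_single, Finsupp.single_apply,
        if_neg (Ne.symm hq01)]
    rw [h1, sub_zero]
    exact hq0
  set kk := sl K q0 f with hkk
  have hjk : ∀ q, (j K kk).coeff q = if q ∈ K then f.coeff (q0 * q) else 0 := by
    intro q
    split_ifs with hq
    · have h1 := j_mem K kk ⟨q, hq⟩
      rw [sl_coeff] at h1
      exact h1
    · exact j_notMem K kk hq
  have hmem : kk ∈ i0 V hV K hK I := by
    refine ⟨MonoidAlgebra.of ℤ Q q0⁻¹ * f, I.mul_mem_left _ hf, ?_⟩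
    intro q hq
    rw [MonoidAlgebra.coeff_sub, Finsupp.sub_apply, of_mul_coeff, inv_inv, hjk] at hq
    by_cases hqK : q ∈ K
    · rw [if_pos hqK, sub_self] at hq
      exact absurd rfl hq
    · rw [if_neg hqK, sub_zero] at hq
      have h1 := hfμ _ hq
      have h2 : μ ≤ V (q0 * q) := h1
      rw [hV, hVq0] at h2
      have h3 : V q ≠ 0 := fun h' => hqK ((hK q).2 h')
      exact lt_of_le_of_ne (by linarith) (Ne.symm h3)
  rw [← hspan, Ideal.mem_span_range_iff_exists_fun] at hmem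
  obtain ⟨c, hc⟩ := hmem
  set P := MonoidAlgebra.of ℤ Q q0 * ∑ l, j K (c l) * (fl l - j K (k l)) with hP
  have hPsp : P ∈ Sp {q | ∃ κ ∈ K, ∃ x ∈ X, q = q0 * (κ * x)} := by
    have h1 : ∑ l, j K (c l) * (fl l - j K (k l)) ∈ Sp {q | ∃ κ ∈ K, ∃ x ∈ X, q = κ * x} := by
      refine sum_mem fun l _ => ?_
      refine Sp_mul (j_Sp K (c l)) (hX l) ?_
      intro s hs t ht
      exact ⟨s, hs, t, ht, rfl⟩
    refine Sp_mul (Sp_of (S := {q0}) rfl) h1 ?_
    rintro s rfl t ⟨κ, hκ, x, hx, rfl⟩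
    exact ⟨κ, hκ, x, hx, rfl⟩
  have hjsp : MonoidAlgebra.of ℤ Q q0 * j K kk ∈ Sp {q | ∃ κ ∈ K, q = q0 * κ} := by
    refine Sp_mul (Sp_of (S := {q0}) rfl) (j_Sp K kk) ?_
    rintro s rfl t ht
    exact ⟨t, ht, rfl⟩
  have hsum : ∑ l, j K (c l) * fl l = j K kk + ∑ l, j K (c l) * (fl l - j K (k l)) := by
    rw [← hc, map_sum, ← Finset.sum_add_distrib]
    refine Finset.sum_congr rfl fun l _ => ?_
    rw [map_mul]
    ring
  have hf' : f - MonoidAlgebra.of ℤ Q q0 * ∑ l, j K (c l) * fl l =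
      f - MonoidAlgebra.of ℤ Q q0 * j K kk - P := by
    rw [hsum, mul_add, ← hP]
    ring
  refine ⟨f - MonoidAlgebra.of ℤ Q q0 * ∑ l, j K (c l) * fl l, ?_, ?_, ?_⟩
  · refine sub_mem hf (I.mul_mem_left _ (sum_mem fun l _ => I.mul_mem_left _ (hfl l)))
  · rw [hf']
    have e : f - MonoidAlgebra.of ℤ Q q0 * j K kk - P - 1 =
        (f - 1) - MonoidAlgebra.of ℤ Q q0 * j K kk - P := by ring
    rw [e]
    refine sub_mem (sub_mem hf1 (Sp_mono ?_ hjsp)) (Sp_mono ?_ hPsp)
    · rintro q ⟨κ, hκ, rfl⟩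
      show 0 < C (q0 * κ)
      rw [hC, hCK κ ((hK κ).1 hκ), add_zero]
      exact hCq0
    · rintro q ⟨κ, hκ, x, hx, rfl⟩
      show 0 < C (q0 * (κ * x))
      rw [hC, hC, hCK κ ((hK κ).1 hκ), zero_add]
      exact add_pos hCq0 (hCX x hx)
  · rw [hf']
    refine sub_mem ?_ (Sp_mono ?_ hPsp)
    · intro q hq
      rw [MonoidAlgebra.coeff_sub, Finsupp.sub_apply, of_mul_coeff, hjk] at hq
      by_cases hqK : q0⁻¹ * q ∈ K
      · rw [if_pos hqK, mul_inv_cancel_left, sub_self] at hq
        exact absurd rfl hq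
      · rw [if_neg hqK, sub_zero] at hq
        refine Or.inl ⟨hq, lt_of_le_of_ne (hfμ q hq) fun h' => hqK ((hK _).2 ?_)⟩
        rw [hV, hVi, hVq0, ← h']
        ring
    · rintro q ⟨κ, hκ, x, hx, rfl⟩
      refine Or.inr ?_
      rw [hV, hV, (hK κ).1 hκ, zero_add, hVq0]
      have := hδ x hx
      linarith

/-- one round of the reduction -/
theorem claimA (V : Q → ℝ) (hV : ∀ a b, V (a * b) = V a + V b) (K : Subgroup Q)
    (hK : ∀ q, q ∈ K ↔ V q = 0) (I : Ideal (MonoidAlgebra ℤ Q)) (r : ℕ)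
    (k : Fin r → MonoidAlgebra ℤ K) (fl : Fin r → MonoidAlgebra ℤ Q) (hfl : ∀ l, fl l ∈ I)
    (hspan : Ideal.span (Set.range k) = i0 V hV K hK I) (X : Finset Q)
    (hX : ∀ l, fl l - j K (k l) ∈ Sp (X : Set Q)) (δ : ℝ) (hδ : ∀ x ∈ X, δ ≤ V x)
    (C : Q → ℝ) (hC : ∀ a b, C (a * b) = C a + C b) (hCK : ∀ q, V q = 0 → C q = 0)
    (hCX : ∀ x ∈ X, 0 < C x) (μ : ℝ) (n : ℕ) : ∀ f : MonoidAlgebra ℤ Q, f ∈ I →
    f - 1 ∈ Sp {q | 0 < C q} → f ∈ Sp {q | μ ≤ V q} →
    ((f.coeff.support.image V).filter (fun t => t < min (μ + δ) 0)).card = n →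
    ∃ f' ∈ I, f' - 1 ∈ Sp {q | 0 < C q} ∧ f' ∈ Sp {q | min (μ + δ) 0 ≤ V q} := by
  classical
  induction n using Nat.strong_induction_on with
  | _ n ih =>
    intro f hf hf1 hfμ hn
    set F := (f.coeff.support.image V).filter (fun t => t < min (μ + δ) 0) with hF
    rcases F.eq_empty_or_nonempty with hem | hne
    · refine ⟨f, hf, hf1, fun q hq => ?_⟩
      by_contra hlt
      have h1 : V q ∈ F := by
        rw [hF, Finset.mem_filter, Finset.mem_image]
        exact ⟨⟨q, Finsupp.mem_support_iff.2 hq, rfl⟩, not_le.1 hlt⟩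
      rw [hem] at h1
      exact absurd h1 (Finset.notMem_empty _)
    · set μ' := F.min' hne with hμ'
      have hμF : μ' ∈ F := F.min'_mem hne
      have hμF' := hμF
      rw [hF, Finset.mem_filter, Finset.mem_image] at hμF'
      obtain ⟨⟨q0, hq0, hVq0⟩, hlt⟩ := hμF'
      have hle : μ ≤ μ' := by
        rw [← hVq0]
        exact hfμ q0 (Finsupp.mem_support_iff.1 hq0)
      have hlt1 : μ' < μ + δ := lt_of_lt_of_le hlt (min_le_left _ _)
      have hlt0 : μ' < 0 := lt_of_lt_of_le hlt (min_le_right _ _)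
      have hfμ' : f ∈ Sp {q | μ' ≤ V q} := by
        intro q hq
        by_contra hlt'
        have h1 : V q < μ' := not_le.1 hlt'
        have h2 : V q ∈ F := by
          rw [hF, Finset.mem_filter, Finset.mem_image]
          exact ⟨⟨q, Finsupp.mem_support_iff.2 hq, rfl⟩, h1.trans hlt⟩
        have := F.min'_le _ h2
        linarith
      obtain ⟨f', hf', hf'1, hf'2⟩ := step V hV K hK I r k fl hfl hspan X hX δ hδ C hC hCK hCX f
        hf hf1 μ' hlt0 hfμ'
      have hsub : (f'.coeff.support.image V).filter (fun t => t < min (μ + δ) 0) ⊆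
          F.erase μ' := by
        intro t ht
        rw [Finset.mem_filter, Finset.mem_image] at ht
        obtain ⟨⟨q, hq, rfl⟩, hqlt⟩ := ht
        rcases hf'2 q (Finsupp.mem_support_iff.1 hq) with ⟨h1, h2⟩ | h1
        · rw [Finset.mem_erase]
          refine ⟨ne_of_gt h2, ?_⟩
          rw [hF, Finset.mem_filter, Finset.mem_image]
          exact ⟨⟨q, Finsupp.mem_support_iff.2 h1, rfl⟩, hqlt⟩
        · have h2 : V q < μ + δ := lt_of_lt_of_le hqlt (min_le_left _ _)
          linarith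
      have hcard : ((f'.coeff.support.image V).filter (fun t => t < min (μ + δ) 0)).card < n := by
        refine lt_of_le_of_lt (Finset.card_le_card hsub) ?_
        rw [Finset.card_erase_of_mem hμF, ← hn]
        have := hne.card_pos
        omega
      refine ih _ hcard f' hf' hf'1 ?_ rfl
      intro q hq
      rcases hf'2 q hq with ⟨h1, h2⟩ | h1
      · exact hfμ q h1
      · show μ ≤ V q
        have hδ0 : 0 < δ := by linarith
        linarith

/-- the theorem for functions -/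
theorem core [Group.FG Q] (V : Q → ℝ) (hV : ∀ a b, V (a * b) = V a + V b)
    (I : Ideal (MonoidAlgebra ℤ Q)) (hI : Avoid V I) :
    ∃ X : Finset Q, (∀ x ∈ X, 0 < V x) ∧ ∀ C : Q → ℝ, (∀ a b, C (a * b) = C a + C b) →
      (∀ q, V q = 0 → C q = 0) → (∀ x ∈ X, 0 < C x) → Avoid C I := by
  classical
  have hV1 : V 1 = 0 := by
    have := hV 1 1
    rw [mul_one] at this
    linarith
  have hVi : ∀ q, V q⁻¹ = - V q := by
    intro q
    have := hV q q⁻¹
    rw [mul_inv_cancel, hV1] at this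
    linarith
  let K : Subgroup Q :=
    { carrier := {q | V q = 0}
      one_mem' := hV1
      mul_mem' := by
        intro a b ha hb
        show V (a * b) = 0
        have h1 : V a = 0 := ha
        have h2 : V b = 0 := hb
        rw [hV, h1, h2, add_zero]
      inv_mem' := by
        intro a ha
        show V a⁻¹ = 0
        have h1 : V a = 0 := ha
        rw [hVi, h1, neg_zero] }
  have hK : ∀ q, q ∈ K ↔ V q = 0 := fun q => Iff.rfl
  have hKfg : Group.FG K := sub_fg K
  have hN : IsNoetherianRing (MonoidAlgebra ℤ K) := by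
    have hft : Algebra.FiniteType ℤ (MonoidAlgebra ℤ K) := inferInstance
    exact Algebra.FiniteType.isNoetherianRing ℤ (MonoidAlgebra ℤ K)
  obtain ⟨r, k, hk⟩ := Submodule.fg_iff_exists_fin_generating_family.1
    (IsNoetherian.noetherian (i0 V hV K hK I))
  have hki : ∀ l, k l ∈ i0 V hV K hK I := by
    intro l
    rw [← hk]
    exact Submodule.subset_span ⟨l, rfl⟩
  choose fl hfl hfl2 using hki
  set X : Finset Q := Finset.univ.biUnion fun l => (fl l - j K (k l)).coeff.support with hX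
  have hXsp : ∀ l, fl l - j K (k l) ∈ Sp (X : Set Q) := by
    intro l q hq
    rw [hX, Finset.mem_coe, Finset.mem_biUnion]
    exact ⟨l, Finset.mem_univ l, Finsupp.mem_support_iff.2 hq⟩
  have hXpos : ∀ x ∈ X, 0 < V x := by
    intro x hx
    rw [hX, Finset.mem_biUnion] at hx
    obtain ⟨l, _, hl⟩ := hx
    exact hfl2 l x (Finsupp.mem_support_iff.1 hl)
  obtain ⟨δ, hδ0, hδ⟩ : ∃ δ : ℝ, 0 < δ ∧ ∀ x ∈ X, δ ≤ V x := by
    rcases X.eq_empty_or_nonempty with he | hne
    · exact ⟨1, one_pos, fun x hx => by rw [he] at hx; exact absurd hx (Finset.notMem_empty _)⟩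
    · obtain ⟨x, hx, hmin⟩ := X.exists_min_image V hne
      exact ⟨V x, hXpos x hx, hmin⟩
  refine ⟨X, hXpos, fun C hC hCK hCX => ?_⟩
  have hC1 : C 1 = 0 := hCK 1 hV1
  intro f hf hf1
  rw [mem_posI] at hf1
  have hB : ∀ n : ℕ, ∀ f : MonoidAlgebra ℤ Q, f ∈ I → f - 1 ∈ Sp {q | 0 < C q} →
      f ∈ Sp {q | -(n * δ) ≤ V q} →
      ∃ f' ∈ I, f' - 1 ∈ Sp {q | 0 < C q} ∧ f' ∈ Sp {q | 0 ≤ V q} := by
    intro n
    induction n with
    | zero =>
      intro f hf hf1 hf2
      refine ⟨f, hf, hf1, Sp_mono ?_ hf2⟩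
      intro q hq
      have : -(((0 : ℕ) : ℝ) * δ) ≤ V q := hq
      show 0 ≤ V q
      simpa using this
    | succ n ih =>
      intro f hf hf1 hf2
      obtain ⟨f', hf', hf'1, hf'2⟩ := claimA V hV K hK I r k fl hfl hk X hXsp δ hδ C hC hCK hCX
        (-((n + 1 : ℕ) * δ)) _ f hf hf1 hf2 rfl
      refine ih f' hf' hf'1 (Sp_mono ?_ hf'2)
      intro q hq
      have h1 : min (-((n + 1 : ℕ) * δ) + δ) 0 ≤ V q := hq
      show -(n * δ) ≤ V q
      have h2 : -(((n + 1 : ℕ) : ℝ) * δ) + δ = -(n * δ) := by push_cast; ring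
      rw [h2, min_eq_left (by have : 0 ≤ (n : ℝ) * δ := by positivity
                              linarith)] at h1
      exact h1
  obtain ⟨n, hn⟩ : ∃ n : ℕ, f ∈ Sp {q | -(n * δ) ≤ V q} := by
    rcases f.coeff.support.eq_empty_or_nonempty with he | hne
    · refine ⟨0, fun q hq => ?_⟩
      have := Finsupp.mem_support_iff.2 hq
      rw [he] at this
      exact absurd this (Finset.notMem_empty _)
    · obtain ⟨x, hx, hmin⟩ := f.coeff.support.exists_min_image V hne
      obtain ⟨n, hn⟩ := exists_nat_ge (-(V x) / δ)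
      refine ⟨n, fun q hq => ?_⟩
      have h1 := hmin q (Finsupp.mem_support_iff.2 hq)
      rw [div_le_iff₀ hδ0] at hn
      show -(n * δ) ≤ V q
      linarith
  obtain ⟨f', hf', hf'1, hf'2⟩ := hB n f hf hf1 hn
  refine hI f' hf' ?_
  rw [mem_posI]
  intro q hq
  have h1 : 0 < C q := hf'1 q hq
  have hne : V q ≠ 0 := fun h0 => by rw [hCK q h0] at h1; exact lt_irrefl _ h1
  have hq1 : q ≠ 1 := by
    rintro rfl
    exact hne hV1
  have hq' : f'.coeff q ≠ 0 := by
    rw [MonoidAlgebra.coeff_sub, Finsupp.sub_apply] at hq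
    have h2 : (1 : MonoidAlgebra ℤ Q).coeff q = 0 := by
      rw [MonoidAlgebra.one_def, MonoidAlgebra.coeff_single, Finsupp.single_apply,
        if_neg (Ne.symm hq1)]
    rw [h2, sub_zero] at hq
    exact hq
  exact lt_of_le_of_ne (hf'2 q hq') (Ne.symm hne)

end RAT

theorem I_RAT : StRAT := by
  intro Q _ _ v I hI
  obtain ⟨X, hX, h⟩ := RAT.core (fun q => v (Additive.ofMul q))
    (fun a b => by rw [ofMul_mul, map_add]) I hI
  exact ⟨X, hX, fun χ h1 h2 => h (fun q => χ (Additive.ofMul q))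
    (fun a b => by rw [ofMul_mul, map_add]) h1 h2⟩

end Pool.Agent.Work.MP_e9e200_al.LZ

end

section

/-!
# Project LZ: from a real relation to an integral relation
-/

set_option autoImplicit false

namespace Pool.Agent.Work.MP_e9e200_al.LZ

open Pool.Agent.Work.MP_e9e200_al.LC

namespace RREL

theorem vl_mul {G : Type} [Group G] (χ : Chr G) (x y : G) : vl χ (x * y) = vl χ x + vl χ y := by
  simp [vl]

theorem vl_one {G : Type} [Group G] (χ : Chr G) : vl χ 1 = 0 := by simp [vl]

theorem vl_inv {G : Type} [Group G] (χ : Chr G) (x : G) : vl χ x⁻¹ = -vl χ x := by simp [vl]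

/-- division of an integral character -/
theorem prim {Q : Type} [Group Q] (χ : Chr Q) (q : Q) (hq : 0 < vl χ q) :
    ∃ (n : ℕ) (ξ : Chr Q), 0 < n ∧ (∃ t, vl ξ t = 1) ∧ ∀ q, vl χ q = n * vl ξ q := by
  let H : AddSubgroup ℤ :=
    { carrier := {z | ∃ q, vl χ q = z}
      zero_mem' := ⟨1, vl_one χ⟩
      add_mem' := by
        rintro a b ⟨x, rfl⟩ ⟨y, rfl⟩
        exact ⟨x * y, vl_mul χ x y⟩
      neg_mem' := by
        rintro a ⟨x, rfl⟩
        exact ⟨x⁻¹, vl_inv χ x⟩ }
  obtain ⟨a, ha⟩ := Int.subgroup_cyclic H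
  have hmem : ∀ q, a ∣ vl χ q := by
    intro q
    have h1 : vl χ q ∈ H := ⟨q, rfl⟩
    rw [ha, ← AddSubgroup.zmultiples_eq_closure] at h1
    exact Int.mem_zmultiples_iff.1 h1
  have ha0 : a ≠ 0 := by
    intro h
    have h1 := hmem q
    rw [h, zero_dvd_iff] at h1
    omega
  have hn0 : (a.natAbs : ℤ) ≠ 0 := by
    rw [Int.natCast_natAbs]
    exact abs_ne_zero.2 ha0
  have hdvd : ∀ q, (a.natAbs : ℤ) ∣ vl χ q := fun q => Int.natAbs_dvd.2 (hmem q)
  have hmem' : (a.natAbs : ℤ) ∈ H := by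
    rw [ha, ← AddSubgroup.zmultiples_eq_closure]
    exact Int.mem_zmultiples_iff.2 (Int.dvd_natAbs.2 dvd_rfl)
  refine ⟨a.natAbs, ⟨⟨fun q => Multiplicative.ofAdd (vl χ q / (a.natAbs : ℤ)), ?_⟩, ?_⟩,
    Int.natAbs_pos.2 ha0, ?_, ?_⟩
  · rw [vl_one, Int.zero_ediv]
    rfl
  · intro x y
    show Multiplicative.ofAdd (vl χ (x * y) / (a.natAbs : ℤ)) = _
    rw [vl_mul, Int.add_ediv_of_dvd_left (hdvd x), ofAdd_add]
  · obtain ⟨t, ht⟩ := hmem'
    refine ⟨t, ?_⟩
    show vl χ t / (a.natAbs : ℤ) = 1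
    rw [ht, Int.ediv_self hn0]
  · intro q
    show vl χ q = (a.natAbs : ℤ) * (vl χ q / (a.natAbs : ℤ))
    rw [Int.mul_ediv_cancel' (hdvd q)]

/-- the sum of characters on a power -/
noncomputable def sumc {Q : Type} [CommGroup Q] {k : ℕ} (v : Fin k → (Additive Q →+ ℝ)) :
    Additive (Fin k → Q) →+ ℝ :=
  AddMonoidHom.mk' (fun q => ∑ j, v j (Additive.ofMul ((Additive.toMul q : Fin k → Q) j))) (by
    intro a b
    rw [← Finset.sum_add_distrib]
    refine Finset.sum_congr rfl fun j _ => ?_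
    rw [← map_add]
    rfl)

theorem sumc_apply {Q : Type} [CommGroup Q] {k : ℕ} (v : Fin k → (Additive Q →+ ℝ))
    (q : Fin k → Q) : sumc v (Additive.ofMul q) = ∑ j, v j (Additive.ofMul (q j)) := rfl

theorem sumc_single {Q : Type} [CommGroup Q] {k : ℕ} (v : Fin k → (Additive Q →+ ℝ)) (j : Fin k)
    (x : Q) : sumc v (Additive.ofMul (Pi.mulSingle j x)) = v j (Additive.ofMul x) := by
  rw [sumc_apply, Finset.sum_eq_single j]
  · rw [Pi.mulSingle_eq_same]
  · intro i _ hi
    rw [Pi.mulSingle_eq_of_ne hi]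
    exact map_zero (v i)
  · intro h
    exact absurd (Finset.mem_univ j) h

/-- the composition with the embedding of a factor -/
noncomputable def cj {Q : Type} [CommGroup Q] {k : ℕ} (χ : Chr (Fin k → Q)) (j : Fin k) : Chr Q :=
  χ.comp (MonoidHom.mulSingle (fun _ : Fin k => Q) j)

theorem vl_cj {Q : Type} [CommGroup Q] {k : ℕ} (χ : Chr (Fin k → Q)) (j : Fin k) (q : Q) :
    vl (cj χ j) q = vl χ (Pi.mulSingle j q) := rfl

theorem vl_prod {Q ι : Type} [CommGroup Q] (χ : Chr Q) (I : Finset ι) (f : ι → Q) :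
    vl χ (∏ i ∈ I, f i) = ∑ i ∈ I, vl χ (f i) := by
  classical
  induction I using Finset.induction_on with
  | empty => simp [vl_one]
  | insert a s ha ih => rw [Finset.prod_insert ha, Finset.sum_insert ha, vl_mul, ih]

theorem sum_cj {Q : Type} [CommGroup Q] {k : ℕ} (χ : Chr (Fin k → Q)) (q : Q) :
    ∑ j, vl (cj χ j) q = vl χ (fun _ => q) := by
  have h : (fun _ => q : Fin k → Q) = ∏ j, Pi.mulSingle j q := by
    funext i
    rw [Finset.prod_apply, Finset.prod_eq_single i]
    · rw [Pi.mulSingle_eq_same]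
    · intro j _ hj
      rw [Pi.mulSingle_eq_of_ne hj.symm]
    · intro h
      exact absurd (Finset.mem_univ i) h
  rw [h, vl_prod]
  rfl

end RREL

open RREL DENS in
theorem I_RREL (hRAT : StRAT) (hINT : StINT) (hMOD : StMOD) (hCRA : StCRA) (hCRB : StCRB) :
    StRREL := by
  intro G _ _ hmet k γ hγ0 hng hsum
  classical
  obtain ⟨M, i1, i2, y, hy⟩ := hMOD G hmet
  have hFG : Group.FG (Abelianization G) := QuotientGroup.fg _
  set I := Module.annihilator (MonoidAlgebra ℤ (Abelianization G)) M with hI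
  set v : Fin k → (Additive (Abelianization G) →+ ℝ) := fun j => ab (γ j) with hvdef
  have hv : ∀ j g, v j (Additive.ofMul (Abelianization.of g)) = γ j (Additive.ofMul g) :=
    fun j g => ab_of (γ j) g
  have hA : ∀ j, Avoid (fun q => v j (Additive.ofMul q)) I := by
    intro j f hf hf1
    rw [hI, Module.mem_annihilator] at hf
    obtain ⟨V, hV, hV'⟩ := hCRA G M y hy (γ j) (fun q => v j (Additive.ofMul q)) (hv j) f hf hf1
    obtain ⟨a, ha, ha'⟩ := hng j V hV
    exact ha' (hV' a ha)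
  choose X hX0 hX using fun j => hRAT (Abelianization G) (v j) I (hA j)
  have hq : ∀ j, ∃ q : Abelianization G, 0 < v j (Additive.ofMul q) := by
    intro j
    by_contra hcon
    push Not at hcon
    apply hγ0 j
    ext g
    have h1 := hcon (Abelianization.of (Additive.toMul g))
    have h2 := hcon (Abelianization.of (Additive.toMul g)⁻¹)
    rw [hv] at h1 h2
    have h3 : γ j (Additive.ofMul (Additive.toMul g)⁻¹) = - γ j g := by
      rw [ofMul_inv, map_neg]
      rfl
    rw [h3] at h2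
    have h4 : γ j (Additive.ofMul (Additive.toMul g)) = γ j g := rfl
    rw [h4] at h1
    show γ j g = 0
    linarith
  choose q0 hq0 using hq
  set X' : Finset (Fin k → Abelianization G) :=
    Finset.univ.biUnion fun j => (insert (q0 j) (X j)).image (fun x => Pi.mulSingle j x) with hX'
  obtain ⟨χ, hχ0, hχ1⟩ := hINT (Fin k → Abelianization G) (sumc v) X' (by
    intro x hx
    rw [hX'] at hx
    simp only [Finset.mem_biUnion, Finset.mem_image, Finset.mem_univ, true_and] at hx
    obtain ⟨j, z, hz, rfl⟩ := hx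
    rw [sumc_single]
    rcases Finset.mem_insert.1 hz with h | h
    · rw [h]
      exact hq0 j
    · exact hX0 j z h)
  have hχpos : ∀ j, ∀ z ∈ insert (q0 j) (X j), 0 < vl (cj χ j) z := by
    intro j z hz
    rw [vl_cj]
    apply hχ1
    rw [hX']
    simp only [Finset.mem_biUnion, Finset.mem_image, Finset.mem_univ, true_and]
    exact ⟨j, z, hz, rfl⟩
  have hχker : ∀ j q, v j (Additive.ofMul q) = 0 → vl (cj χ j) q = 0 := by
    intro j q h
    rw [vl_cj]
    apply hχ0
    rw [sumc_single]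
    exact h
  have hχsum : ∀ q, ∑ j, vl (cj χ j) q = 0 := by
    intro q
    rw [sum_cj]
    apply hχ0
    rw [sumc_apply]
    obtain ⟨g, rfl⟩ := QuotientGroup.mk_surjective q
    have h1 : ∀ j, v j (Additive.ofMul ((QuotientGroup.mk g : Abelianization G))) =
      γ j (Additive.ofMul g) := fun j => hv j g
    rw [Finset.sum_congr rfl fun j _ => h1 j, ← AddMonoidHom.finsetSum_apply, hsum]
    rfl
  choose n ξ hn ht hξ using fun j =>
    prim (cj χ j) (q0 j) (hχpos j _ (Finset.mem_insert_self _ _))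
  refine ⟨fun j => (ξ j).comp Abelianization.of, n, hn, ?_, ?_, ?_⟩
  · intro j
    obtain ⟨t, ht⟩ := ht j
    obtain ⟨g, rfl⟩ := QuotientGroup.mk_surjective t
    exact ⟨g, ht⟩
  · intro j V hV
    by_contra hcon
    push Not at hcon
    have hgen : ∀ a ∈ commutator G, a ∈ Gen G (rch ((ξ j).comp Abelianization.of)) V := by
      intro a ha
      refine Subgroup.closure_mono ?_ (hcon a ha)
      rintro w ⟨g, v, hg, hv, rfl⟩
      refine ⟨g, v, ?_, hv, rfl⟩
      rw [rch_apply]
      exact_mod_cast hg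
    obtain ⟨t, ht⟩ := ht j
    have hr0 : rch ((ξ j).comp Abelianization.of) ≠ 0 := by
      intro h
      obtain ⟨g, rfl⟩ := QuotientGroup.mk_surjective t
      have h1 := rch_apply ((ξ j).comp Abelianization.of) g
      rw [h] at h1
      have h2 : vl ((ξ j).comp Abelianization.of) g = 1 := ht
      rw [h2] at h1
      simp at h1
    obtain ⟨f, hf, hf1⟩ := hCRB G M y hy (rch ((ξ j).comp Abelianization.of)) hr0
      (fun q => (vl (ξ j) q : ℝ)) (fun g => rfl) V hV hgen
    have hav : Avoid (fun q => rch (cj χ j) (Additive.ofMul q)) I := by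
      apply hX j (rch (cj χ j))
      · intro q h
        rw [rch_apply, hχker j q h]
        simp
      · intro x hx
        rw [rch_apply]
        exact_mod_cast hχpos j x (Finset.mem_insert_of_mem hx)
    refine hav f (Module.mem_annihilator.2 hf) ?_
    have hle : posI (fun q => (vl (ξ j) q : ℝ)) ≤
        posI (fun q => rch (cj χ j) (Additive.ofMul q)) := by
      refine Submodule.span_mono ?_
      rintro f ⟨q, hq, rfl⟩
      refine ⟨q, ?_, rfl⟩
      show 0 < rch (cj χ j) (Additive.ofMul q)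
      have hq' : (0 : ℝ) < (vl (ξ j) q : ℝ) := hq
      rw [rch_apply, hξ]
      have : 0 < vl (ξ j) q := by exact_mod_cast hq'
      have h2 : (0 : ℤ) < n j := by exact_mod_cast hn j
      exact_mod_cast mul_pos h2 this
    exact hle hf1
  · intro g
    have h1 := hχsum (Abelianization.of g)
    rw [← h1]
    refine Finset.sum_congr rfl fun j _ => ?_
    rw [hξ]
    rfl

end Pool.Agent.Work.MP_e9e200_al.LZ

end

section

/-!
# The functions `φ` and `σ` for a minimal relation
-/

set_option autoImplicit false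

namespace Pool.Agent.Work.MP_e9e200_al.LZ

open Pool.Agent.Work.MP_e9e200_al.LC

namespace SIG0

open Pool.Agent.Work.MP_e9e200_al.LC.SIG

variable {G : Type} [Group G]

theorem vl_P' {ι : Type} [DecidableEq ι] {χ : Chr G} {h : ι → G} (f : ι → ℤ) (s : Finset ι)
    (hh : ∀ j ∈ s, vl χ (h j) = f j) : vl χ (P h s) = ∑ j ∈ s, f j := by
  unfold P
  rw [vl_list, Finset.sum_map_toList]
  exact Finset.sum_congr rfl hh

end SIG0

open SIG SIG0 in
theorem I_SIG0 : StSIG0 := by
  classical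
  intro G _ hM ι _ _ χs a c h hC hPsi J hJ
  choose ψ hψ0 hψm hψK T hTc hT using hPsi
  choose tt htt using hC.prim
  have hapos := hC.apos
  have hcpos := hC.cpos
  have hrel := hC.rel
  have hdual := hC.dual
  -- the bounds
  obtain ⟨Kf, hKf0, hKf⟩ : ∃ Kf : ι → G → ℤ, (∀ i a, 0 ≤ Kf i a) ∧ ∀ i, ∀ a ∈ commutator G,
      ∀ g, Kf i a ≤ vl (χs i) g → ψ i (g * a * g⁻¹) = 1 := by
    refine ⟨fun i a => if ha : a ∈ commutator G then |(hψK i a ha).choose| else 0, ?_, ?_⟩
    · intro i a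
      dsimp only
      split_ifs
      · exact abs_nonneg _
      · exact le_rfl
    · intro i a ha g hg
      dsimp only at hg
      rw [dif_pos ha] at hg
      exact (hψK i a ha).choose_spec g ((le_abs_self _).trans hg)
  -- two indices
  have htwo : ∀ l : ι, ∃ i, i ≠ l := by
    intro l
    by_contra hcon
    push Not at hcon
    have h1 := hrel (tt l)
    rw [Fintype.sum_eq_single l (fun i hi => absurd (hcon i) hi), htt l] at h1
    have h2 := hapos l
    norm_num at h1
    linarith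
  obtain ⟨j0, hj0⟩ := hJ
  obtain ⟨l0, hl0⟩ := htwo j0
  -- the elements `g0 j`
  set Mz : ℤ := ∑ i, ∑ t ∈ T i, (Kf i t + 1) with hMz
  have hMz1 : ∀ i, ∀ t ∈ T i, Kf i t + 1 ≤ Mz := by
    intro i t ht
    have h1 : Kf i t + 1 ≤ ∑ t ∈ T i, (Kf i t + 1) :=
      Finset.single_le_sum (f := fun t => Kf i t + 1)
        (fun t _ => by have := hKf0 i t; linarith) ht
    have h2 : ∑ t ∈ T i, (Kf i t + 1) ≤ Mz :=
      Finset.single_le_sum (f := fun i => ∑ t ∈ T i, (Kf i t + 1))
        (fun i _ => Finset.sum_nonneg fun t _ => by have := hKf0 i t; linarith)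
        (Finset.mem_univ i)
    linarith
  set M : ℕ := Mz.toNat with hMdef
  have hM1 : Mz ≤ M := Int.self_le_toNat _
  set g0 : ι → G := fun j => tt j ^ M with hg0
  have hvg0 : ∀ j, vl (χs j) (g0 j) = M := by
    intro j
    rw [hg0]
    dsimp only
    rw [vl_pow, htt, mul_one]
  have hMc : ∀ i, ∀ t ∈ T i, Kf i t + 1 ≤ M := by
    intro i t ht
    have h1 := hMz1 i t ht
    linarith
  refine ⟨fun y => ∑ j, Kf j (dl (g0 j) y), fun y => Finset.sum_nonneg fun j _ => hKf0 _ _, ?_⟩
  intro K' hK'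
  -- the elements near the faces
  set Nz : ℤ := K' + (∑ i, ∑ j, (K' + 1) * |vl (χs j) (tt i)|) +
    ∑ i, ∑ j, ∑ t ∈ T i, Kf j t with hNz
  set N : ℕ := Nz.toNat with hNdef
  have hN1 : Nz ≤ N := Int.self_le_toNat _
  have hNc : ∀ l i j, ∀ t ∈ T i, K' + (K' + 1) * |vl (χs j) (tt i)| + Kf j t ≤ N * c l := by
    intro l i j t ht
    have e1 : (K' + 1) * |vl (χs j) (tt i)| ≤ ∑ i, ∑ j, (K' + 1) * |vl (χs j) (tt i)| := by
      have a1 : (K' + 1) * |vl (χs j) (tt i)| ≤ ∑ j, (K' + 1) * |vl (χs j) (tt i)| :=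
        Finset.single_le_sum (f := fun j => (K' + 1) * |vl (χs j) (tt i)|)
          (fun j _ => by positivity) (Finset.mem_univ j)
      have a2 : ∑ j, (K' + 1) * |vl (χs j) (tt i)| ≤
          ∑ i, ∑ j, (K' + 1) * |vl (χs j) (tt i)| :=
        Finset.single_le_sum (f := fun i => ∑ j, (K' + 1) * |vl (χs j) (tt i)|)
          (fun i _ => Finset.sum_nonneg fun j _ => by positivity) (Finset.mem_univ i)
      exact a1.trans a2
    have e2 : Kf j t ≤ ∑ i, ∑ j, ∑ t ∈ T i, Kf j t := by
      have a1 : Kf j t ≤ ∑ t ∈ T i, Kf j t :=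
        Finset.single_le_sum (f := fun t => Kf j t) (fun t _ => hKf0 j t) ht
      have a2 : ∑ t ∈ T i, Kf j t ≤ ∑ j, ∑ t ∈ T i, Kf j t :=
        Finset.single_le_sum (f := fun j => ∑ t ∈ T i, Kf j t)
          (fun j _ => Finset.sum_nonneg fun t _ => hKf0 j t) (Finset.mem_univ j)
      have a3 : ∑ j, ∑ t ∈ T i, Kf j t ≤ ∑ i, ∑ j, ∑ t ∈ T i, Kf j t :=
        Finset.single_le_sum (f := fun i => ∑ j, ∑ t ∈ T i, Kf j t)
          (fun i _ => Finset.sum_nonneg fun j _ => Finset.sum_nonneg fun t _ => hKf0 j t)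
          (Finset.mem_univ i)
      exact a1.trans (a2.trans a3)
    have hcl := hcpos l
    have h2 : (N : ℤ) * 1 ≤ N * c l := mul_le_mul_of_nonneg_left (by linarith) (Nat.cast_nonneg _)
    linarith
  set y : ι → ι → ℤ → G := fun i l d => tt i ^ d * P (h l) ((J.erase i).erase l) ^ N with hy
  have hyi : ∀ i l d, i ≠ l → vl (χs i) (y i l d) = d := by
    intro i l d hil
    rw [hy]
    dsimp only
    rw [vl_mul, vl_zpow, vl_pow, htt, vl_P' (fun j => 0), Finset.sum_const_zero]
    · ring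
    · intro j hj
      rw [Finset.mem_erase, Finset.mem_erase] at hj
      rw [hdual l i j hil hj.1, if_neg (fun e => hj.2.1 e.symm)]
  have hyj : ∀ i l d, ∀ j ∈ J, j ≠ i → j ≠ l →
      vl (χs j) (y i l d) = d * vl (χs j) (tt i) + N * c l := by
    intro i l d j hj hji hjl
    rw [hy]
    dsimp only
    rw [vl_mul, vl_zpow, vl_pow, vl_P' (fun j' => if j = j' then c l else 0),
      Finset.sum_ite_eq, if_pos (Finset.mem_erase.2 ⟨hjl, Finset.mem_erase.2 ⟨hji, hj⟩⟩)]
    intro j' hj'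
    rw [Finset.mem_erase, Finset.mem_erase] at hj'
    exact hdual l j j' hjl hj'.1
  set IC : Finset ℤ := Finset.Icc (-(K' + 1)) (K' + 1) with hIC
  set T0 : Finset G := J.biUnion fun i => (Finset.univ : Finset ι).biUnion fun l =>
    IC.biUnion fun d => (T i).image fun t => y i l d * t * (y i l d)⁻¹ with hT0
  have hT0c : ∀ t ∈ T0, t ∈ commutator G := by
    intro t ht
    rw [hT0] at ht
    simp only [Finset.mem_biUnion, Finset.mem_image] at ht
    obtain ⟨i, _, l, _, d, _, t', ht', rfl⟩ := ht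
    exact conj_mem (hTc i t' ht') _
  -- the bound `Λ`
  obtain ⟨Lam, hLam0, hLam⟩ : ∃ Lam : ℤ, 0 ≤ Lam ∧ ∀ i l, ∀ d ∈ IC, ∀ t ∈ T i,
      Kf l t ≤ Lam + vl (χs l) (y i l d) := by
    refine ⟨∑ i, ∑ l, ∑ d ∈ IC, ∑ t ∈ T i, |Kf l t - vl (χs l) (y i l d)|,
      Finset.sum_nonneg fun _ _ => Finset.sum_nonneg fun _ _ => Finset.sum_nonneg fun _ _ =>
        Finset.sum_nonneg fun _ _ => abs_nonneg _, ?_⟩
    intro i l d hd t ht
    have a0 : |Kf l t - vl (χs l) (y i l d)| ≤ ∑ t ∈ T i, |Kf l t - vl (χs l) (y i l d)| :=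
      Finset.single_le_sum (f := fun t => |Kf l t - vl (χs l) (y i l d)|)
        (fun t _ => abs_nonneg _) ht
    have a1 : ∑ t ∈ T i, |Kf l t - vl (χs l) (y i l d)| ≤
        ∑ d ∈ IC, ∑ t ∈ T i, |Kf l t - vl (χs l) (y i l d)| :=
      Finset.single_le_sum (f := fun d => ∑ t ∈ T i, |Kf l t - vl (χs l) (y i l d)|)
        (fun d _ => Finset.sum_nonneg fun _ _ => abs_nonneg _) hd
    have a2 : ∑ d ∈ IC, ∑ t ∈ T i, |Kf l t - vl (χs l) (y i l d)| ≤
        ∑ l, ∑ d ∈ IC, ∑ t ∈ T i, |Kf l t - vl (χs l) (y i l d)| :=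
      Finset.single_le_sum (f := fun l => ∑ d ∈ IC, ∑ t ∈ T i, |Kf l t - vl (χs l) (y i l d)|)
        (fun d _ => Finset.sum_nonneg fun _ _ => Finset.sum_nonneg fun _ _ => abs_nonneg _)
        (Finset.mem_univ l)
    have a3 : ∑ l, ∑ d ∈ IC, ∑ t ∈ T i, |Kf l t - vl (χs l) (y i l d)| ≤
        ∑ i, ∑ l, ∑ d ∈ IC, ∑ t ∈ T i, |Kf l t - vl (χs l) (y i l d)| :=
      Finset.single_le_sum
        (f := fun i => ∑ l, ∑ d ∈ IC, ∑ t ∈ T i, |Kf l t - vl (χs l) (y i l d)|)
        (fun d _ => Finset.sum_nonneg fun _ _ => Finset.sum_nonneg fun _ _ =>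
          Finset.sum_nonneg fun _ _ => abs_nonneg _) (Finset.mem_univ i)
    have a4 := le_abs_self (Kf l t - vl (χs l) (y i l d))
    linarith
  refine ⟨T0, hT0c, ?_⟩
  intro s1
  -- the number `q`
  obtain ⟨q, hq1, hq2⟩ : ∃ q : ℕ, -s1 ≤ q ∧
      ∀ i, a i * ((-((q : ℤ) * c l0) : ℤ) + K') + (∑ j, a j) * Lam < 0 := by
    obtain ⟨q, hq⟩ := exists_nat_gt
      (|(s1 : ℝ)| + K' + ∑ i, (a i)⁻¹ * ((∑ j, a j) * Lam))
    have hS : 0 ≤ (∑ j, a j) * (Lam : ℝ) :=
      mul_nonneg (Finset.sum_nonneg fun j _ => (hapos j).le) (by exact_mod_cast hLam0)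
    have hS2 : ∀ i, (a i)⁻¹ * ((∑ j, a j) * Lam) ≤ ∑ i, (a i)⁻¹ * ((∑ j, a j) * Lam) := by
      intro i
      exact Finset.single_le_sum (f := fun i => (a i)⁻¹ * ((∑ j, a j) * (Lam : ℝ)))
        (fun i _ => mul_nonneg (inv_nonneg.2 (hapos i).le) hS) (Finset.mem_univ i)
    have hS3 : 0 ≤ ∑ i, (a i)⁻¹ * ((∑ j, a j) * (Lam : ℝ)) :=
      Finset.sum_nonneg fun i _ => mul_nonneg (inv_nonneg.2 (hapos i).le) hS
    have hK'R : (0 : ℝ) ≤ K' := by exact_mod_cast hK'
    refine ⟨q, ?_, ?_⟩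
    · have h1 := neg_abs_le (s1 : ℝ)
      have h2 : (-(s1 : ℝ)) ≤ q := by linarith
      exact_mod_cast h2
    · intro i
      have hc1 : (1 : ℝ) ≤ c l0 := by exact_mod_cast hcpos l0
      have h1 : (q : ℝ) * 1 ≤ q * c l0 := mul_le_mul_of_nonneg_left hc1 (Nat.cast_nonneg _)
      have h2 := hS2 i
      have h3 := abs_nonneg (s1 : ℝ)
      have h4 : K' + (a i)⁻¹ * ((∑ j, a j) * (Lam : ℝ)) < q * c l0 := by linarith
      have h5 : a i * (K' + (a i)⁻¹ * ((∑ j, a j) * (Lam : ℝ))) < a i * (q * c l0) :=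
        mul_lt_mul_of_pos_left h4 (hapos i)
      have h6 : a i * (K' + (a i)⁻¹ * ((∑ j, a j) * (Lam : ℝ))) =
          a i * K' + (∑ j, a j) * Lam := by
        have := (hapos i).ne'
        field_simp
      push_cast
      nlinarith [h5, h6]
  set s : ℤ := -(q * c l0) with hs
  have hs0 : s ≤ 0 := by
    have := hcpos l0
    have h1 : (0 : ℤ) ≤ q * c l0 := by positivity
    linarith
  set u : ι → G := fun j => tt j ^ (-s) with hu
  have hvu : ∀ j, vl (χs j) (u j) = -s := by
    intro j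
    rw [hu]
    dsimp only
    rw [vl_zpow, htt, mul_one]
  set σ : G → ℂ := fun x => ∏ j ∈ J, ψ j (u j * dl (g0 j) x * (u j)⁻¹) with hσ
  have hσ0 : ∀ x, σ x ≠ 0 := by
    intro x
    rw [hσ]
    exact Finset.prod_ne_zero_iff.2 fun j _ => hψ0 j _ (conj_mem (dl_mem (g0 j) x) _)
  have hσm : ∀ a ∈ commutator G, ∀ x, σ (a * x) = σ a * σ x := by
    intro a ha x
    rw [hσ]
    dsimp only
    rw [← Finset.prod_mul_distrib]
    exact Finset.prod_congr rfl fun j _ => pq_mul' hM (hψm j) _ (g0 j) a x ha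
  -- the value at a conjugate
  have hσ1 : ∀ (g : G), ∀ t ∈ commutator G, ∀ j, s + Kf j t ≤ vl (χs j) g →
      ψ j (u j * dl (g0 j) (g * t * g⁻¹) * (u j)⁻¹) = 1 := by
    intro g t ht j hj
    rw [pq_conj (hψ0 j) (hψm j) _ _ _ ht, hKf j t ht, hKf j t ht, inv_one, mul_one]
    · rw [vl_mul, vl_mul, hvu, hvg0]
      have : 0 ≤ (M : ℤ) := by positivity
      linarith
    · rw [vl_mul, hvu]
      linarith
  have hnear : ∀ g, (∀ j ∈ J, s - K' ≤ vl (χs j) g) → (∃ j ∈ J, vl (χs j) g ≤ s + K') →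
      ∃ t ∈ T0, σ (g * t * g⁻¹) ≠ 1 := by
    rintro g hg1 ⟨i, hi, hg2⟩
    have hg3 := hg1 i hi
    -- the choice of `l`
    obtain ⟨l, hli, hl⟩ : ∃ l, l ≠ i ∧ (l ∈ J → Lam ≤ vl (χs l) g) := by
      by_cases hJu : ∃ l, l ∉ J
      · obtain ⟨l, hl⟩ := hJu
        exact ⟨l, fun e => hl (e ▸ hi), fun h => absurd h hl⟩
      · push Not at hJu
        by_contra hcon
        push Not at hcon
        have h1 := hrel g
        have h2 : ∀ j, j ≠ i → (vl (χs j) g : ℝ) ≤ Lam := by
          intro j hj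
          have := (hcon j hj).2
          exact_mod_cast this.le
        have h3 : (vl (χs i) g : ℝ) ≤ s + K' := by exact_mod_cast hg2
        have h4 : ∑ j, a j * (vl (χs j) g : ℝ) ≤ a i * (s + K') + (∑ j, a j) * Lam := by
          rw [← Finset.add_sum_erase _ _ (Finset.mem_univ i)]
          refine add_le_add (mul_le_mul_of_nonneg_left h3 (hapos i).le) ?_
          have h5 : ∑ j ∈ Finset.univ.erase i, a j * (vl (χs j) g : ℝ) ≤
              ∑ j ∈ Finset.univ.erase i, a j * Lam :=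
            Finset.sum_le_sum fun j hj =>
              mul_le_mul_of_nonneg_left (h2 j (Finset.ne_of_mem_erase hj)) (hapos j).le
          refine h5.trans ?_
          rw [← Finset.sum_mul]
          refine mul_le_mul_of_nonneg_right ?_ (by exact_mod_cast hLam0)
          exact Finset.sum_le_sum_of_subset_of_nonneg (Finset.erase_subset _ _)
            fun j _ _ => (hapos j).le
        have h6 := hq2 i
        linarith
    set d : ℤ := s - 1 - vl (χs i) g with hd
    have hdI : d ∈ IC := by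
      rw [hIC, Finset.mem_Icc]
      exact ⟨by linarith, by linarith⟩
    have hvi : vl (χs i) (g * y i l d) = s - 1 := by
      rw [vl_mul, hyi i l d (Ne.symm hli)]
      linarith
    obtain ⟨t, ht, hne⟩ := hT i (u i * (g * y i l d)) (by
      rw [vl_mul, hvu, hvi]
      linarith)
    refine ⟨y i l d * t * (y i l d)⁻¹, ?_, ?_⟩
    · rw [hT0]
      simp only [Finset.mem_biUnion, Finset.mem_image]
      exact ⟨i, hi, l, Finset.mem_univ l, d, hdI, t, ht, rfl⟩
    · have e1 : g * (y i l d * t * (y i l d)⁻¹) * g⁻¹ =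
          (g * y i l d) * t * (g * y i l d)⁻¹ := by group
      rw [e1, hσ]
      dsimp only
      rw [Finset.prod_eq_single_of_mem i hi]
      · rw [pq_conj (hψ0 i) (hψm i) _ _ _ (hTc i t ht),
          hKf i t (hTc i t ht) (u i * g0 i * (g * y i l d)), inv_one, mul_one]
        · exact hne
        · rw [vl_mul, vl_mul, hvu, hvg0, hvi]
          have := hMc i t ht
          linarith
      · intro j hj hji
        apply hσ1 _ t (hTc i t ht)
        by_cases hjl : j = l
        · subst hjl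
          rw [vl_mul]
          have b1 := hl hj
          have b2 := hLam i j d hdI t ht
          linarith
        · rw [vl_mul, hyj i l d j hj hji hjl]
          have a1 := hg1 j hj
          have a2 := hNc l i j t ht
          have a3 : -((K' + 1) * |vl (χs j) (tt i)|) ≤ d * vl (χs j) (tt i) := by
            have b1 : |d| ≤ K' + 1 := abs_le.2 (Finset.mem_Icc.1 hdI)
            have b2 : |d * vl (χs j) (tt i)| ≤ (K' + 1) * |vl (χs j) (tt i)| := by
              rw [abs_mul]
              exact mul_le_mul_of_nonneg_right b1 (abs_nonneg _)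
            exact (abs_le.1 b2).1
          linarith
  refine ⟨s, ?_, σ, σ, fun a _ => hσ0 a, fun a ha b _ => hσm a ha b, hσ0, hσm, ?_, ?_, hnear⟩
  · have hcl := hcpos l0
    have h1 : (q : ℤ) * 1 ≤ q * c l0 := mul_le_mul_of_nonneg_left (by linarith) (Nat.cast_nonneg _)
    linarith
  · intro x z hx
    rw [hσ]
    dsimp only
    refine Finset.prod_congr rfl fun j hj => ?_
    rw [pq_mul (hψm j), hKf j _ (dl_mem (g0 j) z), one_mul]
    rw [vl_mul, hvu]
    have h1 := hx j hj
    have h2 : Kf j (dl (g0 j) z) ≤ ∑ j, Kf j (dl (g0 j) z) :=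
      Finset.single_le_sum (f := fun j => Kf j (dl (g0 j) z)) (fun j _ => hKf0 _ _)
        (Finset.mem_univ j)
    linarith
  · set E : Finset ι := Finset.univ.erase l0 with hE
    have hv : ∀ j, j ≠ l0 → vl (χs j) ((P (h l0) E ^ q)⁻¹) = s := by
      intro j hj
      rw [vl_inv, vl_pow, vl_P' (fun j' => if j = j' then c l0 else 0), Finset.sum_ite_eq,
        if_pos (Finset.mem_erase.2 ⟨hj, Finset.mem_univ j⟩)]
      intro j' hj'
      exact hdual l0 j j' hj (Finset.ne_of_mem_erase hj')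
    have hv0 : s ≤ vl (χs l0) ((P (h l0) E ^ q)⁻¹) := by
      have h1 := hrel ((P (h l0) E ^ q)⁻¹)
      rw [← Finset.add_sum_erase _ _ (Finset.mem_univ l0)] at h1
      have h2 : ∑ j ∈ Finset.univ.erase l0, a j * (vl (χs j) ((P (h l0) E ^ q)⁻¹) : ℝ) ≤ 0 := by
        refine Finset.sum_nonpos fun j hj => ?_
        rw [hv j (Finset.ne_of_mem_erase hj)]
        exact mul_nonpos_of_nonneg_of_nonpos (hapos j).le (by exact_mod_cast hs0)
      have h3 : 0 ≤ a l0 * (vl (χs l0) ((P (h l0) E ^ q)⁻¹) : ℝ) := by linarith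
      have h4 : (0 : ℝ) ≤ (vl (χs l0) ((P (h l0) E ^ q)⁻¹) : ℝ) :=
        nonneg_of_mul_nonneg_right h3 (hapos l0)
      have h5 : 0 ≤ vl (χs l0) ((P (h l0) E ^ q)⁻¹) := by exact_mod_cast h4
      linarith
    obtain ⟨t, ht, hne⟩ := hnear ((P (h l0) E ^ q)⁻¹)
      (fun j hj => by
        by_cases hjl : j = l0
        · rw [hjl]; linarith
        · rw [hv j hjl]; linarith)
      ⟨j0, hj0, by rw [hv j0 hl0.symm]; linarith⟩
    exact ⟨_, conj_mem (hT0c t ht) _, hne⟩

end Pool.Agent.Work.MP_e9e200_al.LZ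

end

section

/-!
# Project LZ: item TAME
-/

set_option autoImplicit false

namespace Pool.Agent.Work.MP_e9e200_al.LZ

open Pool.Agent.Work.MP_e9e200_al.LC

theorem I_TAME (hTOP : StTOP) (hLOW0 : StLOW0) : StTAME := by
  intro m G _ _ hmet hfp γ hγ a ha hne
  exact hLOW0 m G hmet (hTOP G m hfp) γ hγ a ha hne

end Pool.Agent.Work.MP_e9e200_al.LZ

end

section

/-!
# Project LZ, item TOP: from type `FP_m` of the group to a based partial resolution
-/

set_option autoImplicit false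
set_option linter.style.haveILetI false

namespace Pool.Agent.Work.MP_e9e200_al.LZ

open Pool.Agent.Work.MP_e9e200_al.LC

namespace TOP

/-- type `FP_m` is invariant under ring isomorphisms -/
theorem isFP_ringEquiv {R R' : Type} [Ring R] [Ring R'] (e : R ≃+* R') {M M' : Type}
    [AddCommGroup M] [Module R M] [AddCommGroup M'] [Module R' M'] (f : M ≃+ M')
    (hf : ∀ (r : R) (x : M), f (r • x) = e r • f x) (m : ℕ) (h : IsFP R M m) : IsFP R' M' m := by
  obtain ⟨P, d, ε, hproj, hfin, hsurj, hex0, hex⟩ := h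
  let inst : ∀ i, Module R' (P i) := fun i => Module.compHom (P i) (e.symm : R' →+* R)
  haveI : RingHomInvPair (e : R →+* R') (e.symm : R' →+* R) := RingHomInvPair.of_ringEquiv e
  haveI : RingHomInvPair (e.symm : R' →+* R) (e : R →+* R') := RingHomInvPair.of_ringEquiv e.symm
  refine ⟨fun i => letI := inst i; ModuleCat.of R' (P i),
    fun i => letI := inst i; letI := inst (i + 1);
      { toFun := d i
        map_add' := (d i).map_add
        map_smul' := fun r x => (d i).map_smul (e.symm r) x },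
    letI := inst 0;
      { toFun := fun x => f (ε x)
        map_add' := fun x y => by rw [map_add, map_add]
        map_smul' := fun r x => by
          show f (ε (e.symm r • x)) = r • f (ε x)
          rw [map_smul, hf, RingEquiv.apply_symm_apply] }, ?_, ?_, ?_, ?_, ?_⟩
  · intro i
    letI := inst i
    haveI := hproj i
    let e2 : P i ≃ₛₗ[(e : R →+* R')] P i :=
      { toFun := id
        invFun := id
        map_add' := fun _ _ => rfl
        map_smul' := fun r x => by
          show r • x = e.symm (e r) • x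
          rw [RingEquiv.symm_apply_apply]
        left_inv := fun _ => rfl
        right_inv := fun _ => rfl }
    exact Module.Projective.of_equiv e2
  · intro i hi
    letI := inst i
    haveI := hfin i hi
    let e2 : P i ≃ₛₗ[(e : R →+* R')] P i :=
      { toFun := id
        invFun := id
        map_add' := fun _ _ => rfl
        map_smul' := fun r x => by
          show r • x = e.symm (e r) • x
          rw [RingEquiv.symm_apply_apply]
        left_inv := fun _ => rfl
        right_inv := fun _ => rfl }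
    exact Module.Finite.of_surjective e2.toLinearMap e2.surjective
  · exact f.surjective.comp hsurj
  · intro y
    show f (ε y) = 0 ↔ y ∈ Set.range (d 0)
    exact f.map_eq_zero_iff.trans (hex0 y)
  · intro i
    exact hex i

theorem aug_map {S T : Type} [Monoid S] [Monoid T] (e : S ≃* T) (r : MonoidAlgebra ℤ S) :
    Pool.Agent.Work.MP_e9e200_al.aug T (MonoidAlgebra.domCongr ℤ ℤ e r) =
      Pool.Agent.Work.MP_e9e200_al.aug S r := by
  induction r using MonoidAlgebra.induction_on with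
  | of s =>
    unfold Pool.Agent.Work.MP_e9e200_al.aug
    simp
  | add x y hx hy => rw [map_add, map_add, map_add, hx, hy]
  | smul n x hx => rw [map_zsmul, map_zsmul, map_zsmul, hx]

end TOP

open TOP in
theorem I_TOP (hRES : StRES) : StTOP := by
  intro G _ m h
  have h1 : IsFP (MonoidAlgebra ℤ (⊤ : Submonoid G)) (Triv (⊤ : Submonoid G)) m := by
    let e0 : G ≃* (⊤ : Submonoid G) := Submonoid.topEquiv.symm
    let e : MonoidAlgebra ℤ G ≃+* MonoidAlgebra ℤ (⊤ : Submonoid G) :=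
      (MonoidAlgebra.domCongr ℤ ℤ e0).toRingEquiv
    let f : Triv G ≃+ Triv (⊤ : Submonoid G) := AddEquiv.refl ℤ
    refine isFP_ringEquiv e f ?_ m h
    intro r x
    have h2 : ∀ z : ℤ, Pool.Agent.Work.MP_e9e200_al.aug G r * z =
        Pool.Agent.Work.MP_e9e200_al.aug (⊤ : Submonoid G) (e r) * z := by
      intro z
      rw [show e r = MonoidAlgebra.domCongr ℤ ℤ e0 r from rfl, aug_map]
    exact h2 x
  exact hRES G ⊤ m h1

end Pool.Agent.Work.MP_e9e200_al.LZ

end

section

/-!
# Project LZ: item TRU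
-/

set_option autoImplicit false

namespace Pool.Agent.Work.MP_e9e200_al.LZ

open Pool.Agent.Work.MP_e9e200_al.LC
open Finsupp (single)

namespace TRU

variable {k : Type} [CommRing k] {G : Type} [Group G] {B : Type} (deg : B → ℕ) (n : ℕ)

/-- the cells of degree at most `n` -/
abbrev Bn := {b : B // deg b ≤ n}

/-- the inclusion of cells -/
def iota (p : G × Bn deg n) : G × B := (p.1, p.2.1)

theorem iota_inj : Function.Injective (iota deg n : G × Bn deg n → G × B) := by
  rintro ⟨g, b, hb⟩ ⟨g', b', hb'⟩ h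
  simp only [iota, Prod.mk.injEq] at h
  obtain ⟨h1, h2⟩ := h
  subst h1
  subst h2
  rfl

variable (k) in
/-- the inclusion of chains -/
noncomputable def im : (G × Bn deg n →₀ k) →ₗ[k] (G × B →₀ k) :=
  Finsupp.lmapDomain k k (iota deg n)

theorem im_single (p : G × Bn deg n) (c : k) :
    im k deg n (single p c) = single (iota deg n p) c := by
  simp [im, Finsupp.mapDomain_single]

theorem im_inj : Function.Injective (im k deg n : (G × Bn deg n →₀ k) →ₗ[k] (G × B →₀ k)) :=
  Finsupp.mapDomain_injective (iota_inj deg n)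

/-- restriction of chains -/
noncomputable def res (x : G × B →₀ k) : G × Bn deg n →₀ k :=
  Finsupp.comapDomain (iota deg n) x (iota_inj deg n).injOn

theorem im_res (x : G × B →₀ k) (hx : ∀ p ∈ x.support, deg p.2 ≤ n) :
    im k deg n (res deg n x) = x := by
  unfold im res
  rw [Finsupp.lmapDomain_apply]
  refine Finsupp.mapDomain_comapDomain _ (iota_inj deg n) _ ?_
  intro p hp
  exact ⟨(p.1, ⟨p.2, hx p hp⟩), rfl⟩

theorem res_supp (x : G × B →₀ k) (P : G × B → Prop)
    (hx : x ∈ Finsupp.supported k k {p : G × B | P p}) :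
    res deg n x ∈ Finsupp.supported k k {p : G × Bn deg n | P (iota deg n p)} := by
  rw [Finsupp.mem_supported] at hx ⊢
  intro p hp
  have h1 : iota deg n p ∈ x.support := by
    simpa [res, Finsupp.comapDomain] using hp
  exact hx h1

theorem im_supp (x : G × Bn deg n →₀ k) (P : G × B → Prop)
    (hx : x ∈ Finsupp.supported k k {p : G × Bn deg n | P (iota deg n p)}) :
    im k deg n x ∈ Finsupp.supported k k {p : G × B | P p} := by
  classical
  rw [Finsupp.mem_supported] at hx ⊢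
  intro p hp
  have h1 := Finsupp.mapDomain_support (f := iota deg n) hp
  rw [Finset.mem_image] at h1
  obtain ⟨q, hq, rfl⟩ := h1
  exact hx hq

theorem im_tr (h : G) (x : G × Bn deg n →₀ k) : im k deg n (tr k h x) = tr k h (im k deg n x) := by
  unfold im tr
  simp only [Finsupp.lmapDomain_apply]
  rw [← Finsupp.mapDomain_comp, ← Finsupp.mapDomain_comp]
  rfl

theorem im_ext (db : B → (G × B →₀ k)) (hdb : ∀ b, deg b ≤ n → ∀ p ∈ (db b).support, deg p.2 ≤ n)
    (x : G × Bn deg n →₀ k) :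
    im k deg n (LC.ext k (fun b : Bn deg n => res deg n (db b.1)) x) =
      LC.ext k db (im k deg n x) := by
  induction x using Finsupp.induction_linear with
  | zero => simp
  | add x y hx hy => rw [map_add, map_add, hx, hy, map_add, map_add]
  | single p c =>
    rw [im_single]
    unfold LC.ext
    rw [Finsupp.linearCombination_single, Finsupp.linearCombination_single, map_smul, im_tr,
      im_res deg n _ (hdb p.2.1 p.2.2)]
    rfl

theorem aug_im (eb : B → k) (x : G × Bn deg n →₀ k) :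
    LC.aug k (fun b : Bn deg n => eb b.1) x = LC.aug k eb (im k deg n x) := by
  induction x using Finsupp.induction_linear with
  | zero => simp
  | add x y hx hy => rw [map_add, hx, hy, map_add, map_add]
  | single p c =>
    rw [im_single]
    unfold LC.aug
    rw [Finsupp.linearCombination_single, Finsupp.linearCombination_single]
    rfl

end TRU

theorem I_TRU : StTRU := by
  intro k _ G _ S m n B _ deg db eb h hn
  have hdb : ∀ b, deg b ≤ n → ∀ p ∈ (db b).support, deg p.2 ≤ n := by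
    intro b hb p hp
    have h1 := (Finsupp.mem_supported _ _).1 (h.db_sup b) hp
    have h2 : deg p.2 + 1 = deg b := h1.2
    omega
  refine ⟨TRU.Bn deg n, inferInstance, fun b => deg b.1,
    fun b => TRU.res deg n (db b.1), fun b => eb b.1, ?_⟩
  constructor
  · intro b
    exact b.2
  · intro b
    exact TRU.res_supp deg n _ (fun p : G × B => p.1 ∈ S ∧ deg p.2 + 1 = deg b.1) (h.db_sup b.1)
  · intro b hb
    exact h.eb_deg b.1 hb
  · intro b
    apply TRU.im_inj deg n
    rw [TRU.im_ext deg n db hdb, TRU.im_res deg n _ (hdb b.1 b.2), h.dd, map_zero]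
  · intro b
    rw [TRU.aug_im, TRU.im_res deg n _ (hdb b.1 b.2), h.ed]
  · obtain ⟨x, hx, hx1⟩ := h.surj
    refine ⟨TRU.res deg n x, TRU.res_supp deg n x (fun p : G × B => p.1 ∈ S ∧ deg p.2 = 0) hx, ?_⟩
    rw [TRU.aug_im, TRU.im_res, hx1]
    intro p hp
    have h1 := (Finsupp.mem_supported _ _).1 hx hp
    have h2 : deg p.2 = 0 := h1.2
    omega
  · intro d hd x hx hx1 hx2
    obtain ⟨y, hy, hyx⟩ := h.exact d (by omega) (TRU.im k deg n x)
      (TRU.im_supp deg n x (fun p : G × B => p.1 ∈ S ∧ deg p.2 = d) hx)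
      (by rw [← TRU.im_ext deg n db hdb, hx1, map_zero])
      (by rw [← TRU.aug_im, hx2])
    have hy' : ∀ p ∈ y.support, deg p.2 ≤ n := by
      intro p hp
      have h1 := (Finsupp.mem_supported _ _).1 hy hp
      have h2 : deg p.2 = d + 1 := h1.2
      omega
    refine ⟨TRU.res deg n y,
      TRU.res_supp deg n y (fun p : G × B => p.1 ∈ S ∧ deg p.2 = d + 1) hy, ?_⟩
    apply TRU.im_inj deg n
    rw [TRU.im_ext deg n db hdb, TRU.im_res deg n y hy', hyx]

end Pool.Agent.Work.MP_e9e200_al.LZ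

end
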