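import Pool.Agent.Work.MP_e9e200_al.Bd.B24
import Pool.Agent.Work.MP_e9e200_al.Bd.B15
import Pool.Agent.Work.MP_e9e200_al.Bd.B22

/-! Bundle of small proof modules (one section per former module). -/

section

/-!
# Project LZ: assembly of all items
-/

set_option autoImplicit false

namespace Pool.Agent.Work.MP_e9e200_al.LZ

open Pool.Agent.Work.MP_e9e200_al.LC

theorem A_RREL : StRREL := I_RREL I_RAT I_INT I_MOD I_CRA I_CRB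
theorem A_CIRC : StCIRC := I_CIRC I_LIN
theorem A_DISC0 : StDISC0 := I_DISC0 A_CORE I_HOP I_BG I_NOE A_TWD I_SIG0 A_PSI
theorem A_CHU : StCHU := I_CHU I_CHG
theorem A_TOP : StTOP := I_TOP I_RES
theorem A_LOW0 : StLOW0 := I_LOW0 A_RREL A_CIRC A_DISC0 I_TRU A_CHU (I_Sig1 I_Build)
theorem A_TAME : StTAME := I_TAME A_TOP A_LOW0

/-- `m`-tameness of metabelian groups of type `FP_m`: in the form of project UP -/
theorem tame : ∀ (m : ℕ) (G : Type) [Group G] [Group.FG G], Metab G → GroupFP G m →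
    ∀ γ : Fin m → (Additive G →+ ℝ), (∀ j, γ j ∈ SigC G 1) → ∀ a : Fin m → ℝ, (∀ j, 0 ≤ a j) →
      (∃ j, a j ≠ 0) → ∑ j, a j • γ j ≠ 0 := A_TAME

end Pool.Agent.Work.MP_e9e200_al.LZ

end

section

/-!
# Project TL: statements of the items

Each `def StXXX : Prop` is to be proved as `theorem I_XXX : StXXX` in `TL/P_XXX.lean`.
-/

set_option autoImplicit false

namespace Pool.Agent.Work.MP_e9e200_al.TL

open Finsupp Topology Topology.RelCWComplex Pool.Agent.Work.MP_e9e200_al.LC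

/-! ### Algebra of cubical chains -/

/-- INS: interchange of two insertions -/
def StINS : Prop :=
  (∀ (α : Type) (k : ℕ) (i j : Fin (k + 1)) (s t : α) (e : Fin k → α), i ≤ j →
    ins i.castSucc s (ins j t e) = ins j.succ t (ins i s e)) ∧
  ∀ (α : Type) (k : ℕ) (i j : Fin (k + 2)) (a b : α) (x y : Fin (k + 1) → α),
    ins i a x = ins j b y → (i = j ∧ a = b ∧ x = y) ∨ ∃ (i' j' : Fin (k + 1)) (z : Fin k → α),
      x = ins j' b z ∧ y = ins i' a z ∧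
      ∀ (β : Type) (s t : β) (e : Fin k → β), ins i s (ins j' t e) = ins j t (ins i' s e)

/-- BB: `∂∂ = 0` and `ε∂ = 0` (uses INS) -/
def StBB : Prop := ∀ (G : Type) (k : ℕ), (∀ z, bd G k (bd G (k + 1) z) = 0) ∧
  ∀ z, eps G k (bd G k z) = 0

/-- CN: the cone -/
def StCN : Prop := ∀ (G : Type) (v : G) (k : ℕ),
  (∀ z, bd G 0 (cn v 0 z) = z - eps G 0 z • single (fun _ => v) (1 : ℂ)) ∧
  (∀ z, bd G (k + 1) (cn v (k + 1) z) =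
    z - eps G (k + 1) z • single (fun _ => v) (1 : ℂ) - cn v k (bd G k z)) ∧
  ∀ z, eps G (k + 1) (cn v k z) = eps G k z

/-- GR: the boundary of a grid -/
def StGR : Prop := ∀ (G : Type) (N k : ℕ),
  (∀ F : (Fin (k + 1) → ℕ) → G, bd G k (grid N (k + 1) F) =
    ∑ i : Fin (k + 1), ((-1 : ℂ) ^ (i : ℕ)) •
      (grid N k (fun b => F (ins i N b)) - grid N k (fun b => F (ins i 0 b)))) ∧
  (∀ F : (Fin k → ℕ) → G, eps G k (grid N k F) = 1) ∧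
  ∀ F F' : (Fin k → ℕ) → G, (∀ b, (∀ i, b i ≤ N) → F b = F' b) → grid N k F = grid N k F'

/-- AC: comparison of a cubical chain with its subdivision (uses BB, CN, GR) -/
def StAC : Prop := ∀ (G : Type) (N : ℕ) (A : ∀ k, Set (Cb G k)) (S : ∀ k, Cb G k → Set G)
  (F : ∀ k, Cb G k → (Fin k → ℕ) → G), 0 < N →
  (∀ k, ∀ c ∈ A (k + 1), ∀ i s, fc i s c ∈ A k ∧ S k (fc i s c) ⊆ S (k + 1) c) →
  (∀ k, ∀ c ∈ A k, (∀ e, c e ∈ S k c) ∧ ∀ b, (∀ i, b i ≤ N) → F k c b ∈ S k c) →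
  (∀ k, ∀ c ∈ A (k + 1), ∀ (i : Fin (k + 1)) (b : Fin k → ℕ), (∀ j, b j ≤ N) →
    F (k + 1) c (ins i N b) = F k (fc i true c) b ∧
    F (k + 1) c (ins i 0 b) = F k (fc i false c) b) →
  ∀ k, ∀ z ∈ Finsupp.supported ℂ ℂ (A k), Cyc k z →
    ∃ w ∈ Finsupp.supported ℂ ℂ {c' : Cb G (k + 1) | ∃ c ∈ z.support, ∀ e, c' e ∈ S k c},
      bd G k w = z - linearCombination ℂ (fun c => grid N k (F k c)) z

/-- AL: chain map from a partial resolution to the cubical chains (uses BB, CN) -/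
def StAL : Prop := ∀ (G : Type) [Group G] (m : ℕ) (B : Type) [Finite B] (deg : B → ℕ)
  (db : B → (G × B →₀ ℂ)) (eb : B → ℂ), PRes ℂ (Set.univ : Set G) m B deg db eb →
  ∃ α : ∀ d : ℕ, B → (Cb G d →₀ ℂ), (∀ b, deg b = 0 → eps G 0 (α 0 b) = eb b) ∧
    (∀ d b, deg b = d + 1 → bd G d (α (d + 1) b) = extc (α d) (db b)) ∧
    ∀ d b, deg b = d + 1 → eps G (d + 1) (α (d + 1) b) = 0

/-- BE: chain map from the cubical chains to a partial resolution (uses BB) -/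
def StBE : Prop := ∀ (G : Type) [Group G] (m : ℕ) (B : Type) [Finite B] (deg : B → ℕ)
  (db : B → (G × B →₀ ℂ)) (eb : B → ℂ), PRes ℂ (Set.univ : Set G) m B deg db eb →
  ∃ β : ∀ k : ℕ, Cb G k → (G × B →₀ ℂ),
    (∀ k ≤ m, ∀ c, β k c ∈ Finsupp.supported ℂ ℂ {p : G × B | deg p.2 = k}) ∧
    (∀ k g c, β k (fun e => g * c e) = tr ℂ g (β k c)) ∧ (∀ c, LC.aug ℂ eb (β 0 c) = 1) ∧
    ∀ k, k + 1 ≤ m → ∀ c : Cb G (k + 1),
      ext ℂ db (β (k + 1) c) = linearCombination ℂ (β k) (bd G k (single c 1))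

/-- the conclusion of the topological part: cycles of size `D` in a half space are boundaries -/
def TopC (G : Type) [Group G] (χ : Additive G →+ ℝ) (m : ℕ) : Prop :=
  ∀ D : Set G, D.Finite → ∃ (D' : Set G) (C : ℝ), D'.Finite ∧ 0 ≤ C ∧ ∀ t : ℝ, ∀ k < m,
    ∀ z ∈ Finsupp.supported ℂ ℂ (CubeIn D χ t k), Cyc k z →
      ∃ w ∈ Finsupp.supported ℂ ℂ (CubeIn D' χ (t - C) (k + 1)), bd G k w = z

/-- ESS: essential exactness of the partial resolution (uses AL, BE, BB and the item HT of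
project LC) -/
def StESS : Prop := ∀ (G : Type) [Group G] (χ : Additive G →+ ℝ), χ ≠ 0 → ∀ (m : ℕ) (B : Type)
  [Finite B] (deg : B → ℕ) (db : B → (G × B →₀ ℂ)) (eb : B → ℂ),
  PRes ℂ (Set.univ : Set G) m B deg db eb → TopC G χ m → ∃ C : ℝ, Ess χ C m B deg db eb

/-! ### Topology of cubes -/

/-- GL: a cube with prescribed faces -/
def StGL : Prop := ∀ (X : Type) [TopologicalSpace X] (T : Set X) (k : ℕ), CubeExt (k + 1) T →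
  ∀ φ : Fin (k + 1) → Bool → (Fin k → ℝ) → X, (∀ i s, Box T k (φ i s)) →
  (∀ i s j t, ∀ x ∈ II k, ∀ y ∈ II k, ins i (vb s) x = ins j (vb t) y → φ i s x = φ j t y) →
  ∃ Φ : (Fin (k + 1) → ℝ) → X, Box T (k + 1) Φ ∧ ∀ i s, ∀ x ∈ II k,
    Φ (ins i (vb s) x) = φ i s x

/-- EQ: equivariant families of singular cubes (uses INS, GL) -/
def StEQ : Prop := ∀ (G X : Type) [Group G] [TopologicalSpace X] [MulAction G X],
  (∀ g : G, Continuous (fun x : X => g • x)) → ∀ T : Set X, (∀ g : G, ∀ x ∈ T, g • x ∈ T) →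
  T.Nonempty → ∀ m : ℕ, (∀ k ≤ m, CubeExt k T) → ∃ f : ∀ k, Cb G k → (Fin k → ℝ) → X,
    Fam T (fun _ => Set.univ) m f ∧
    ∀ k ≤ m, ∀ (g : G) (c : Cb G k), ∀ x ∈ II k, f k (fun e => g * c e) x = g • f k c x

/-- CF: cones over families of singular cubes (uses INS, GL) -/
def StCF : Prop := ∀ (G X : Type) [TopologicalSpace X] (T : Set X) (m : ℕ),
  (∀ k ≤ m, CubeExt k T) → ∀ (A : ∀ k, Set (Cb G k)),
  (∀ k, ∀ c ∈ A (k + 1), ∀ i s, fc i s c ∈ A k) → ∀ f : ∀ k, Cb G k → (Fin k → ℝ) → X,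
  Fam T A m f → ∀ y0 ∈ T, ∃ F : ∀ k, Cb G k → (Fin (k + 1) → ℝ) → X,
    (∀ k, k + 1 ≤ m → ∀ c ∈ A k, Box T (k + 1) (F k c) ∧ ∀ x ∈ II k,
      F k c (ins 0 1 x) = f k c x ∧ F k c (ins 0 (-1) x) = y0) ∧
    ∀ k, k + 2 ≤ m → ∀ c ∈ A (k + 1), ∀ (i : Fin (k + 1)) (s : Bool), ∀ x ∈ II (k + 1),
      F (k + 1) c (ins i.succ (vb s) x) = F k (fc i s c) x

/-- LEB: small cubes -/
def StLEB : Prop := ∀ (G X : Type) [Group G] [TopologicalSpace X] (T : Set X) (γ : X → G)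
  (B : Set G), (∀ x ∈ T, ∃ U : Set X, IsOpen U ∧ x ∈ U ∧ ∀ y ∈ U ∩ T, ∀ y' ∈ U ∩ T,
    (γ y)⁻¹ * γ y' ∈ B) → ∀ (k : ℕ) (F : (Fin k → ℝ) → X), Box T k F →
  ∃ N0 : ℕ, ∀ N, N0 ≤ N → 0 < N ∧ ∀ (a : Fin k → Option (Fin N)) (e e' : Fin k → Bool),
    (γ (F (gp N (pos a e))))⁻¹ * γ (F (gp N (pos a e'))) ∈ B

/-! ### CW complexes -/

/-- LAR: properties of the largest subcomplexes -/
def StLAR : Prop := ∀ (X : Type) [TopologicalSpace X] [T2Space X] [CWComplex (Set.univ : Set X)]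
  (h : X → ℝ), (∀ s, ∃ Y : CWComplex.Subcomplex (Set.univ : Set X), (Y : Set X) = lev h s) ∧
  (∀ s, lev h s ⊆ {x | s ≤ h x}) ∧ (∀ s s', s ≤ s' → lev h s' ⊆ lev h s) ∧
  ∀ (G : Type) [Group G] [MulAction G X], O3.IsFreeGCW G X → ∀ g : G,
    (∀ c : ℝ, (∀ x, h (g • x) = h x + c) → ∀ s, ∀ x ∈ lev h s, g • x ∈ lev h (s + c)) ∧
    ∀ m, ∀ x ∈ skm X m, g • x ∈ skm X m

/-- CPL: compact sets lie in a level (uses the items FIN and FSC of project O3) -/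
def StCPL : Prop := ∀ (X : Type) [TopologicalSpace X] [T2Space X]
  [CWComplex (Set.univ : Set X)] (h : X → ℝ), Continuous h → ∀ Z : Set X, IsCompact Z →
  ∃ s : ℝ, Z ⊆ lev h s

/-- SKL: cellular approximation (uses the item CAP of project O3) -/
def StSKL : Prop := ∀ (X : Type) [TopologicalSpace X] [T2Space X] [CWComplex (Set.univ : Set X)]
  (Y : CWComplex.Subcomplex (Set.univ : Set X)) (k m : ℕ), k ≤ m → CubeExt k (Y : Set X) →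
  CubeExt k ((Y : Set X) ∩ skm X m)

/-- NB: the coarse inverse (uses the item FIN of project O3) -/
def StNB : Prop := ∀ (G X : Type) [Group G] [TopologicalSpace X] [T2Space X] [MulAction G X]
  [CWComplex (Set.univ : Set X)], O3.IsFreeGCW G X → ∀ m : ℕ, O3.FinSk G X m →
  ∀ (χ : Additive G →+ ℝ) (h : X → ℝ), Continuous h →
  (∀ (g : G) (x : X), h (g • x) = h x + χ (Additive.ofMul g)) →
  ∃ (γ : X → G) (B : Set G) (C : ℝ), Coarse χ h m γ B C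

/-- LEV: all levels (uses SKL, LAR) -/
def StLEV : Prop := ∀ (G X : Type) [Group G] [TopologicalSpace X] [T2Space X] [MulAction G X]
  [CWComplex (Set.univ : Set X)], O3.IsFreeGCW G X → ∀ (m : ℕ) (χ : Additive G →+ ℝ), χ ≠ 0 →
  ∀ h : X → ℝ, (∀ (g : G) (x : X), h (g • x) = h x + χ (Additive.ofMul g)) →
  O3.Conn (O3.half h) m → ∃ C : ℝ, 0 ≤ C ∧ ∀ s : ℝ, ∃ s' : ℝ, s ≤ s' ∧ s' ≤ s + C ∧
    ∀ k ≤ m, CubeExt k (lev h s' ∩ skm X m)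

/-- BDD: boundedness of an equivariant family (uses LAR, CPL) -/
def StBDD : Prop := ∀ (G X : Type) [Group G] [TopologicalSpace X] [T2Space X] [MulAction G X]
  [CWComplex (Set.univ : Set X)], O3.IsFreeGCW G X → ∀ (m : ℕ) (χ : Additive G →+ ℝ)
  (h : X → ℝ), Continuous h → (∀ (g : G) (x : X), h (g • x) = h x + χ (Additive.ofMul g)) →
  ∀ (γ : X → G) (B : Set G) (C : ℝ), Coarse χ h m γ B C → ∀ f : ∀ k, Cb G k → (Fin k → ℝ) → X,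
  Fam (skm X m) (fun _ => Set.univ) m f →
  (∀ k ≤ m, ∀ (g : G) (c : Cb G k), ∀ x ∈ II k, f k (fun e => g * c e) x = g • f k c x) →
  ∀ D : Set G, D.Finite → ∃ (D1 : Set G) (C1 : ℝ), D1.Finite ∧ 0 ≤ C1 ∧ ∀ k ≤ m, ∀ t : ℝ,
    ∀ c ∈ CubeIn D χ t k, ∀ x ∈ II k, f k c x ∈ lev h (t - C1) ∧
      ∀ e, (c e)⁻¹ * γ (f k c x) ∈ D1

/-- ASB: the assembly for one family of cones (uses CF, LEB, GR, AC) -/
def StASB : Prop := ∀ (G X : Type) [Group G] [TopologicalSpace X] (T : Set X) (γ : X → G)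
  (B : Set G) (m : ℕ), T.Nonempty → (∀ k ≤ m, CubeExt k T) →
  (∀ x ∈ T, ∃ U : Set X, IsOpen U ∧ x ∈ U ∧ ∀ y ∈ U ∩ T, ∀ y' ∈ U ∩ T,
    (γ y)⁻¹ * γ y' ∈ B) → ∀ A : ∀ k, Set (Cb G k),
  (∀ k, ∀ c ∈ A (k + 1), ∀ i s, fc i s c ∈ A k) → ∀ f : ∀ k, Cb G k → (Fin k → ℝ) → X,
  Fam T A m f → ∀ k < m, ∀ z ∈ Finsupp.supported ℂ ℂ (A k), Cyc k z →
    ∃ w ∈ Finsupp.supported ℂ ℂ {c' : Cb G (k + 1) |
      (∃ c ∈ A k, ∀ e, (∃ e', c' e = c e') ∨ ∃ x ∈ II k, c' e = γ (f k c x)) ∨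
      ((∀ e e', (c' e)⁻¹ * c' e' ∈ B) ∧ ∀ e, ∃ y ∈ T, c' e = γ y)}, bd G k w = z

/-- TOP: the topological part (uses SKL, LAR, EQ, NB, LEV, BDD, ASB) -/
def StTOP : Prop := ∀ (G X : Type) [Group G] [TopologicalSpace X] [T2Space X] [MulAction G X]
  [CWComplex (Set.univ : Set X)], O3.IsFreeGCW G X → ∀ (m : ℕ) (χ : Additive G →+ ℝ), χ ≠ 0 →
  (∀ k, O3.Conn (Set.univ : Set X) k) → O3.FinSk G X m → ∀ h : X → ℝ, Continuous h →
  (∀ (g : G) (x : X), h (g • x) = h x + χ (Additive.ofMul g)) → O3.Conn (O3.half h) m →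
  TopC G χ m

/-! ### The result -/

/-- PRL: from the homotopical invariant to a partial resolution (uses TOP, ESS and the items
TOP, CHU of project LZ and PRS of project HT) -/
def StPRL : Prop := ∀ (G : Type) [Group G] (m : ℕ), GroupFP G m → ∀ χ ∈ O3.LSig G m,
  ∃ (B : Type) (_ : Finite B) (deg : B → ℕ) (db : B → (G × B →₀ ℂ)) (eb : B → ℂ),
    PRes ℂ (hs χ 0) m B deg db eb

/-- LOW: the lower inclusion for the homotopical invariants (uses PRL and the item LOW1 of project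
HT) -/
def StLOW : Prop := ∀ (m : ℕ) (G : Type) [Group G] [Group.FG G], 1 ≤ m → Metab G →
  GroupFP G m → ConvLE G m (SigC G 1) ⊆ O3.LSigC G m

end Pool.Agent.Work.MP_e9e200_al.TL

end

section

/-!
# Project O3L: statements of the items

Each `def StXXX : Prop` is to be proved as `theorem I_XXX ... : StXXX` in `O3L/P_XXX.lean`.
-/

set_option autoImplicit false

namespace Pool.Agent.Work.MP_e9e200_al.O3L

open Set Metric Topology Pool.Agent.Work.MP_e9e200_al.O3A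

/-- CNV: homotopies of loops as maps of the line and as paths -/
def StCNV : Prop := ∀ (Z : Type) [TopologicalSpace Z] (z : Z) (F : E 1 → Z) (γ : Path z z),
  O3.Lo z F → (∀ t : unitInterval, γ t = F (fun _ => 2 * (t : ℝ) - 1)) →
  (O3.Ho z F (fun _ => z) ↔ γ.Homotopic (Path.refl z))

/-- EDP: the oriented edges -/
def StEDP : Prop := ∀ (G : Type) [Group G] (Y : HT.Cel G) (ψ : Atl G Y.B), Lo1 Y ψ →
  (∀ (e : (G × Y.B 1) × Bool) (s : ℝ), -1 ≤ s → s ≤ 1 →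
    ed Y e s = Ph ψ 1 e.1 (fun _ => if e.2 then s else -s)) ∧
  (∀ (e : (G × Y.B 1) × Bool) (s : ℝ), s ≤ -1 → ed Y e s = vx Y (Y.st e)) ∧
  (∀ (e : (G × Y.B 1) × Bool) (s : ℝ), 1 ≤ s → ed Y e s = vx Y (Y.en e)) ∧
  (∀ (e : (G × Y.B 1) × Bool) (s : ℝ), ed Y (e.1, !e.2) s = ed Y e (-s)) ∧
  (∀ N : ℕ∞, 1 < N → ∀ e : (G × Y.B 1) × Bool,
    Continuous (fun s : ℝ => pt ψ N (ed Y e s))) ∧
  (∀ (S : Set (Pt G Y.B)) (e : (G × Y.B 1) × Bool) (s : ℝ), vx Y (Y.st e) ∈ S →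
    vx Y (Y.en e) ∈ S → oc 1 e.1 ⊆ S → ed Y e s ∈ S) ∧
  ∀ (g : G) (e : (G × Y.B 1) × Bool) (s : ℝ),
    g • ed Y e s = ed Y ((g * e.1.1, e.1.2), e.2) s

/-- LOP: the edge paths (uses EDP) -/
def StLOP : Prop := ∀ (G : Type) [Group G] (Y : HT.Cel G) (ψ : Atl G Y.B), Lo1 Y ψ →
  ∀ (P : G × Y.B 1 → Prop) (v w : G × Y.B 0) (p : List ((G × Y.B 1) × Bool)),
  Y.IsPath P v p w →
  (∀ t : ℝ, t ≤ -1 → lo Y v p t = vx Y v) ∧ (∀ t : ℝ, 1 ≤ t → lo Y v p t = vx Y w) ∧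
  (∀ N : ℕ∞, 1 < N → Continuous (fun t : ℝ => pt ψ N (lo Y v p t))) ∧
  (∀ S : Set (Pt G Y.B), vx Y v ∈ S → (∀ c, P c → vx Y (Y.st (c, true)) ∈ S ∧
    vx Y (Y.en (c, true)) ∈ S ∧ oc 1 c ⊆ S) → ∀ t : ℝ, lo Y v p t ∈ S) ∧
  ∀ (g : G) (t : ℝ), g • lo Y v p t = lo Y (g * v.1, v.2) (Y.mv g p) t

/-- GDL: the attaching maps of the edges and of the 2-cells are continuous (uses EDP, LOP) -/
def StGDL : Prop := ∀ (G : Type) [Group G] (Y : HT.Cel G) (ψ : Atl G Y.B),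
  (Lo1 Y ψ → Gd ψ 2) ∧ (Y.Good → Lo2 Y ψ → Gd ψ 3) ∧
  ∀ χ : Additive G →+ ℝ, Y.Good → Y.Hgt χ (fun _ _ => 0) → Lo2 Y ψ →
    ∀ (n : ℕ) (b : Y.B n), n < 3 → ∀ y ∈ sphere (0 : E n) 1, ψ n b y ∈ Pp χ

/-- DGL: the degrees of an edge path (uses EDP, LOP and QPB, DADD, DIO, DPR, DEG, HO, CL4, HOMD
of O3) -/
def StDGL : Prop := ∀ (G : Type) [Group G] (Y : HT.Cel G) (c : G × Y.B 1)
  (P : G × Y.B 1 → Prop) (v w : G × Y.B 0) (p : List ((G × Y.B 1) × Bool)), Y.IsPath P v p w →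
  O3.CS OnePoint.infty (fun x : E 1 => O3.qp 1 c (lo Y v p (x 0))) ∧
  (∀ x : E 1, 1 ≤ ‖x‖ → O3.qp 1 c (lo Y v p (x 0)) = OnePoint.infty) ∧
  O3.deg (0 : Fin 1) (fun x : E 1 => O3.qp 1 c (lo Y v p (x 0))) = Y.chn p c

/-- ICL: the incidence numbers of the 2-cells and the edges (uses DGL and SUSP of O3) -/
def StICL : Prop := ∀ (G : Type) [Group G] (Y : HT.Cel G), Y.Good → ∀ (b : Y.B 2)
  (c : G × Y.B 1), O3.icn 1 (psi2 Y b) c = Y.d 1 b c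

/-- IC0: the incidence numbers of the edges and the vertices (uses QPB, COMB, DADD, DNRM, DIO,
DPR, DEG, HO, CL4, HOMD of O3) -/
def StIC0 : Prop := ∀ (G : Type) [Group G] (Y : HT.Cel G), Y.Good → ∀ (b : Y.B 1)
  (c : G × Y.B 0), O3.icn 0 (psi1 Y b) c = Y.d 0 b c

/-- EX0: the graph is path connected (uses EDP, LOP) -/
def StEX0 : Prop := ∀ (G : Type) [Group G] (Y : HT.Cel G) (χ : Additive G →+ ℝ)
  (ψ : Atl G Y.B), Y.Hgt χ (fun _ _ => 0) → Lo1 Y ψ →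
  (∀ v w : G × Y.B 0, 0 ≤ χ (Additive.ofMul v.1) → 0 ≤ χ (Additive.ofMul w.1) →
    ∃ p, Y.IsPath (HE Y χ) v p w) → O3.Ext (st ψ 2 (Pp χ ∩ Lt 2)) 0

/-- GRD: a homotopy of the graph (uses EDP, GDL, PHB, CRT, T2, CWS and CNT of O3) -/
def StGRD : Prop := ∀ (G : Type) [Group G] (Y : HT.Cel G) (ψ : Atl G Y.B), Lo1 Y ψ →
  ∃ D : ℝ → Pt G Y.B → Pt G Y.B,
  ContinuousOn (fun q : ℝ × Sp ψ 2 => pt ψ 2 (D q.1 q.2)) (Icc 0 1 ×ˢ st ψ 2 (Lt 2)) ∧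
  (∀ x ∈ Lt (G := G) (B := Y.B) 2, D 0 x = x) ∧
  (∀ (τ : ℝ) (v : G × Y.B 0), D τ (vx Y v) = vx Y v) ∧
  (∀ (τ : ℝ) (c : G × Y.B 1), ∀ x ∈ oc 1 c, D τ x ∈ oc 1 c ∨ D τ x = vx Y (Y.st (c, true)) ∨
    D τ x = vx Y (Y.en (c, true))) ∧
  ∀ (c : G × Y.B 1) (s : ℝ), |s| ≤ 1 →
    D 1 (Ph ψ 1 c (fun _ => s)) = Ph ψ 1 c (fun _ => max (-1) (min 1 (4 * s)))

/-- the star of the vertex `v` -/
def Star {G : Type} [Group G] (Y : HT.Cel G) (v : G × Y.B 0) : Set (Pt G Y.B) :=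
  {q | q = vx Y v ∨ ∃ (e : (G × Y.B 1) × Bool) (s : ℝ), Y.st e = v ∧ -1 < s ∧ s < -(1 / 4) ∧
    q = ed Y e s}

/-- OPE: open subsets of the graph (uses EDP, PHB, CRT) -/
def StOPE : Prop := ∀ (G : Type) [Group G] (Y : HT.Cel G) (ψ : Atl G Y.B), Lo1 Y ψ →
  (∀ c : G × Y.B 1, IsOpen (st ψ 2 (oc 1 c))) ∧
  (∀ v : G × Y.B 0, IsOpen (st ψ 2 (Star Y v))) ∧
  ∀ x ∈ Lt (G := G) (B := Y.B) 2, (∃ c : G × Y.B 1, x ∈ oc 1 c) ∨ ∃ v : G × Y.B 0, x = vx Y v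

/-- RCE: existence of the edge paths as paths in the half space (uses EDP, LOP) -/
def StRCE : Prop := ∀ (G : Type) [Group G] (Y : HT.Cel G) (χ : Additive G →+ ℝ)
  (ψ : Atl G Y.B), Y.Hgt χ (fun _ _ => 0) → Lo1 Y ψ → ∀ N : ℕ∞, 1 < N →
  ∀ (v w : G × Y.B 0) (p : List ((G × Y.B 1) × Bool)) (x y : Hs Y ψ χ N),
  Y.IsPath (HE Y χ) v p w → x.1 = pt ψ N (vx Y v) → y.1 = pt ψ N (vx Y w) →
  ∃ γ : Path x y, Rel Y γ v p

/-- APP: composition of edge paths (uses EDP, LOP, RCE) -/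
def StAPP : Prop := ∀ (G : Type) [Group G] (Y : HT.Cel G) (χ : Additive G →+ ℝ)
  (ψ : Atl G Y.B), Y.Hgt χ (fun _ _ => 0) → Lo1 Y ψ → ∀ N : ℕ∞, 1 < N →
  ∀ (p q : List ((G × Y.B 1) × Bool)) (u v w : G × Y.B 0) (x y z : Hs Y ψ χ N) (γ : Path x y)
    (δ : Path y z) (ε : Path x z), Y.IsPath (HE Y χ) u p v → Y.IsPath (HE Y χ) v q w →
    Rel Y γ u p → Rel Y δ v q → Rel Y ε u (p ++ q) → (γ.trans δ).Homotopic ε

/-- SEG: a path in a closed edge (uses EDP, PHB, CRT) -/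
def StSEG : Prop := ∀ (G : Type) [Group G] (Y : HT.Cel G) (χ : Additive G →+ ℝ)
  (ψ : Atl G Y.B), Y.Hgt χ (fun _ _ => 0) → Lo1 Y ψ → ∀ N : ℕ∞, 1 < N →
  ∀ (c : G × Y.B 1), HE Y χ c → ∀ (x y : Hs Y ψ χ N) (γ γ' : Path x y)
    (f f' : unitInterval → ℝ), Continuous f → Continuous f' → f 0 = f' 0 → f 1 = f' 1 →
    (∀ t, |f t| ≤ 1 ∧ (γ t).1 = pt ψ N (Ph ψ 1 c (fun _ => f t))) →
    (∀ t, |f' t| ≤ 1 ∧ (γ' t).1 = pt ψ N (Ph ψ 1 c (fun _ => f' t))) → γ.Homotopic γ'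

/-- EDG: every path in the graph is homotopic to an edge path (uses EDP, LOP, GRD, OPE, RCE, APP,
SEG) -/
def StEDG : Prop := ∀ (G : Type) [Group G] (Y : HT.Cel G) (χ : Additive G →+ ℝ)
  (ψ : Atl G Y.B), Y.Hgt χ (fun _ _ => 0) → Lo1 Y ψ →
  ∀ (v w : G × Y.B 0) (x y : Hs Y ψ χ 2) (γ : Path x y), x.1 = pt ψ 2 (vx Y v) →
  y.1 = pt ψ 2 (vx Y w) → ∃ p, Y.IsPath (HE Y χ) v p w ∧
    ∀ γ' : Path x y, Rel Y γ' v p → γ.Homotopic γ'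

/-- DSC: the boundary of a 2-cell is null homotopic (uses EDP, LOP, GDL, PHB, CRT, CNV and NUL of
O3) -/
def StDSC : Prop := ∀ (G : Type) [Group G] (Y : HT.Cel G) (χ : Additive G →+ ℝ)
  (ψ : Atl G Y.B), Y.Good → Y.Hgt χ (fun _ _ => 0) → Lo2 Y ψ →
  ∀ c : G × Y.B 2, HC Y χ c → ∀ (x : Hs Y ψ χ 3) (γ : Path x x),
    Rel Y γ (c.1 * (Y.bas c.2).1, (Y.bas c.2).2) (Y.mv c.1 (Y.att c.2)) →
    γ.Homotopic (Path.refl x)

/-- HTY: homotopic edge paths are homotopic (uses EDP, LOP, RCE, APP, SEG, DSC) -/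
def StHTY : Prop := ∀ (G : Type) [Group G] (Y : HT.Cel G) (χ : Additive G →+ ℝ)
  (ψ : Atl G Y.B), Y.Good → Y.Hgt χ (fun _ _ => 0) → Lo2 Y ψ →
  ∀ (v w : G × Y.B 0) (p q : List ((G × Y.B 1) × Bool)), Y.Hty (HE Y χ) (HC Y χ) v p q →
  (Y.IsPath (HE Y χ) v p w ↔ Y.IsPath (HE Y χ) v q w) ∧
  (Y.IsPath (HE Y χ) v p w → ∀ (x y : Hs Y ψ χ 3) (γ γ' : Path x y), Rel Y γ v p →
    Rel Y γ' v q → γ.Homotopic γ')

/-- EX1: the skeleton of dimension two is simply connected (uses EX0, EDG, HTY, RCE, LOP, GDL, CNV,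
PHB, SKM, T2, CWS, SBC and SK, CAP, EXT, ESK of O3) -/
def StEX1 : Prop := ∀ (G : Type) [Group G] (Y : HT.Cel G) (χ : Additive G →+ ℝ)
  (ψ : Atl G Y.B), Y.Good → Y.Hgt χ (fun _ _ => 0) → Lo2 Y ψ →
  (∃ v : G × Y.B 0, 0 ≤ χ (Additive.ofMul v.1)) →
  (∀ v w : G × Y.B 0, 0 ≤ χ (Additive.ofMul v.1) → 0 ≤ χ (Additive.ofMul w.1) →
    ∃ p, Y.IsPath (HE Y χ) v p w) →
  (∀ (v : G × Y.B 0) (p : List ((G × Y.B 1) × Bool)), 0 ≤ χ (Additive.ofMul v.1) →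
    Y.IsPath (HE Y χ) v p v → Y.Hty (HE Y χ) (HC Y χ) v p []) →
  O3.Ext (st ψ 3 (Pp χ ∩ Lt 3)) 1

end Pool.Agent.Work.MP_e9e200_al.O3L

end
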