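import Pool.Agent.Work.MP_e9e200_al.Bd.B13
import Pool.Agent.Work.MP_e9e200_al.Bd.B22
import Pool.Agent.Work.MP_e9e200_al.Bd.B04

/-! Bundle of small proof modules (one section per former module). -/

section

/-!
# Project UP: item A8
-/

set_option autoImplicit false

namespace Pool.Agent.Work.MP_e9e200_al.UP

open Filter Topology

namespace A8

theorem floor_tendsto (y : ℝ) :
    Tendsto (fun N : ℕ => ((⌊(N : ℝ) * y⌋ : ℤ) : ℝ) / (N : ℝ)) atTop (𝓝 y) := by
  have h1 : Tendsto (fun N : ℕ => (1 : ℝ) / (N : ℝ)) atTop (𝓝 0) :=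
    tendsto_one_div_atTop_nhds_zero_nat
  have h2 : Tendsto (fun N : ℕ => y - (1 : ℝ) / (N : ℝ)) atTop (𝓝 y) := by
    simpa using tendsto_const_nhds.sub h1
  refine tendsto_of_tendsto_of_tendsto_of_le_of_le' h2 tendsto_const_nhds ?_ ?_
  · filter_upwards [eventually_gt_atTop 0] with N hN
    have hN' : (0 : ℝ) < N := by exact_mod_cast hN
    rw [le_div_iff₀ hN', sub_mul, div_mul_cancel₀ _ hN'.ne']
    have := Int.sub_one_lt_floor ((N : ℝ) * y)
    linarith
  · filter_upwards [eventually_gt_atTop 0] with N hN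
    have hN' : (0 : ℝ) < N := by exact_mod_cast hN
    rw [div_le_iff₀ hN']
    have := Int.floor_le ((N : ℝ) * y)
    linarith

theorem rv_tendsto {n : ℕ} (y : EuclideanSpace ℝ (Fin n)) :
    Tendsto (fun N : ℕ => (N : ℝ)⁻¹ • rv (fun i => ⌊(N : ℝ) * y i⌋)) atTop (𝓝 y) := by
  have h : Tendsto (fun N : ℕ => (fun i : Fin n => ((⌊(N : ℝ) * y i⌋ : ℤ) : ℝ) / (N : ℝ))) atTop
      (𝓝 (fun i => y i)) := by
    rw [tendsto_pi_nhds]
    intro i
    exact floor_tendsto (y i)
  have h2 := ((PiLp.continuous_toLp 2 (fun _ : Fin n => ℝ)).tendsto (fun i => y i)).comp h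
  have h3 : WithLp.toLp 2 (fun i => y i) = y := by
    ext i
    simp
  rw [h3] at h2
  refine h2.congr fun N => ?_
  ext i
  simp [rv, div_eq_inv_mul]

end A8

theorem I_A8 : StA8 := by
  intro n A B y hA hB
  have h1 : ∀ᶠ N : ℕ in atTop, ∀ w ∈ A,
      inner ℝ w ((N : ℝ)⁻¹ • rv (fun i => ⌊(N : ℝ) * y i⌋)) < 0 := by
    rw [Filter.eventually_all_finset]
    intro w hw
    have := (Continuous.tendsto (f := fun x : EuclideanSpace ℝ (Fin n) => inner ℝ w x)
      (by fun_prop) y).comp (A8.rv_tendsto y)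
    exact this.eventually (eventually_lt_nhds (hA w hw))
  have h2 : ∀ᶠ N : ℕ in atTop, ∀ w ∈ B,
      0 < inner ℝ w ((N : ℝ)⁻¹ • rv (fun i => ⌊(N : ℝ) * y i⌋)) := by
    rw [Filter.eventually_all_finset]
    intro w hw
    have := (Continuous.tendsto (f := fun x : EuclideanSpace ℝ (Fin n) => inner ℝ w x)
      (by fun_prop) y).comp (A8.rv_tendsto y)
    exact this.eventually (eventually_gt_nhds (hB w hw))
  obtain ⟨N, ⟨h1, h2⟩, hN⟩ := ((h1.and h2).and (eventually_gt_atTop 0)).exists
  have hN' : (0 : ℝ) < (N : ℝ)⁻¹ := by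
    have : (0 : ℝ) < N := by exact_mod_cast hN
    positivity
  refine ⟨fun i => ⌊(N : ℝ) * y i⌋, fun w hw => ?_, fun w hw => ?_⟩
  · have := h1 w hw
    rw [inner_smul_right] at this
    by_contra hc
    have := mul_nonneg hN'.le (not_lt.1 hc)
    linarith
  · have := h2 w hw
    rw [inner_smul_right] at this
    exact (mul_pos_iff_of_pos_left hN').1 this

end Pool.Agent.Work.MP_e9e200_al.UP

end

section

/-!
# Project UP: item D2, the tuples which meet all the sets of a list
-/

set_option autoImplicit false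

namespace Pool.Agent.Work.MP_e9e200_al.UP

open Finsupp

namespace D2

variable {ι : Type} [DecidableEq ι]

/-- the subgroup `⊥` if `J` meets all the members of `L` and `⊤` otherwise -/
def RL (L : List (Finset ι)) (J : Finset ι) : AddSubgroup ℤ :=
  if ∀ σ ∈ L, ¬ Disjoint J σ then ⊥ else ⊤

lemma mem_RL {L : List (Finset ι)} {J : Finset ι} {z : ℤ} :
    z ∈ RL L J ↔ ((∀ σ ∈ L, ¬ Disjoint J σ) → z = 0) := by
  unfold RL
  split_ifs with h
  · exact ⟨fun hz _ => AddSubgroup.mem_bot.1 hz, fun hz => AddSubgroup.mem_bot.2 (hz h)⟩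
  · exact ⟨fun _ h' => absurd h' h, fun _ => AddSubgroup.mem_top z⟩

lemma RL_anti (L : List (Finset ι)) (J J' : Finset ι) (h : J ⊆ J') : RL L J' ≤ RL L J := by
  intro z hz
  rw [mem_RL] at hz ⊢
  intro hJ
  refine hz (fun σ hσ hd => hJ σ hσ ?_)
  exact Finset.disjoint_of_subset_left h hd

lemma RL_cons (σ : Finset ι) (L : List (Finset ι)) (J : Finset ι) : RL L J ≤ RL (σ :: L) J := by
  intro z hz
  rw [mem_RL] at hz ⊢
  exact fun h => hz (fun τ hτ => h τ (List.mem_cons_of_mem _ hτ))

lemma main (Δ : Set (Finset ι)) (hΔ : Dn Δ) :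
    ∀ (L : List (Finset ι)), (∀ σ ∈ L, σ ∈ Δ) → ∀ (I : Finset ι) (j : ℕ), ¬ Un Δ j I →
      ∀ c ∈ Ch (fun _ => (⊤ : AddSubgroup ℤ)) I j, del ℤ c ∈ Ch (RL L) I (j - 1) →
        ∃ e ∈ Ch (fun _ => (⊤ : AddSubgroup ℤ)) I (j + 1), c - del ℤ e ∈ Ch (RL L) I j := by
  intro L
  induction L with
  | nil =>
    intro _ I j hU c hc hd
    have hI : I.Nonempty := by
      by_contra h
      rw [Finset.not_nonempty_iff_eq_empty] at h
      exact hU (Un_mono hΔ.1 (Nat.zero_le j) (show Un Δ 0 I from h))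
    obtain ⟨i, hi⟩ := hI
    have h0 : del ℤ c = 0 := by
      ext l
      exact mem_RL.1 (hd l).1 (by simp)
    refine ⟨pre ℤ i c, pre_mem hi (fun _ => le_refl _) hc, ?_⟩
    rw [del_pre, h0, map_zero, sub_zero, sub_self]
    exact zero_mem _
  | cons σ L ih =>
    intro hL I j hU c hc hd
    have hL' : ∀ τ ∈ L, τ ∈ Δ := fun τ hτ => hL τ (List.mem_cons_of_mem _ hτ)
    cases j with
    | zero =>
      refine ⟨0, zero_mem _, ?_⟩
      rw [map_zero, sub_zero]
      intro l
      refine ⟨?_, (hc l).2⟩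
      rw [mem_RL]
      intro h
      by_contra h1
      have h2 := ((hc l).2 h1).1
      rw [List.length_eq_zero_iff] at h2
      subst h2
      exact h σ (by simp) (by simp)
    | succ j =>
      classical
      obtain ⟨p, hp⟩ : ∃ p : List ι → Prop, p = fun l =>
        (∀ τ ∈ L, ¬ Disjoint l.toFinset τ) ∧ Disjoint l.toFinset σ := ⟨_, rfl⟩
      obtain ⟨b, hb⟩ : ∃ b, b = Finsupp.filter p (del ℤ c) := ⟨_, rfl⟩
      have hb1 : ∀ l, p l → b l = del ℤ c l := by
        intro l hl; rw [hb, Finsupp.filter_apply_pos p _ hl]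
      have hb2 : ∀ l, ¬ p l → b l = 0 := by
        intro l hl; rw [hb, Finsupp.filter_apply_neg p _ hl]
      have hbt : b ∈ Ch (fun _ => (⊤ : AddSubgroup ℤ)) (I \ σ) j := by
        intro l
        refine ⟨AddSubgroup.mem_top _, fun h => ?_⟩
        have hpl : p l := by
          by_contra h'
          exact h (hb2 l h')
        rw [hb1 l hpl] at h
        have h3 := (hd l).2 h
        refine ⟨by simpa using h3.1, fun i hi => ?_⟩
        rw [Finset.mem_sdiff]
        refine ⟨h3.2 i hi, fun hiσ => ?_⟩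
        rw [hp] at hpl
        exact Finset.disjoint_left.1 hpl.2 (List.mem_toFinset.2 hi) hiσ
      have hcb : del ℤ c - b ∈ Ch (RL L) I j := by
        intro l
        constructor
        · rw [mem_RL, Finsupp.sub_apply]
          intro h
          by_cases hs : Disjoint l.toFinset σ
          · rw [hb1 l (by rw [hp]; exact ⟨h, hs⟩), sub_self]
          · rw [hb2 l (by rw [hp]; exact fun h' => hs h'.2), sub_zero]
            refine mem_RL.1 (hd l).1 ?_
            intro τ hτ
            rcases List.mem_cons.1 hτ with h' | h'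
            · rw [h']; exact hs
            · exact h τ h'
        · intro h
          have h4 : del ℤ c l ≠ 0 := by
            intro h'
            apply h
            rw [Finsupp.sub_apply, h']
            by_cases hpl : p l
            · rw [hb1 l hpl, h', sub_zero]
            · rw [hb2 l hpl, sub_zero]
          have h3 := (hd l).2 h4
          exact ⟨by simpa using h3.1, h3.2⟩
      have hdb : del ℤ b ∈ Ch (RL L) (I \ σ) (j - 1) := by
        have h1 : del ℤ b ∈ Ch (fun _ => (⊤ : AddSubgroup ℤ)) (I \ σ) (j - 1) :=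
          del_mem (fun _ _ _ => le_refl _) hbt
        have h2 : del ℤ (del ℤ c - b) ∈ Ch (RL L) I (j - 1) := del_mem (RL_anti L) hcb
        rw [map_sub, del_del, zero_sub] at h2
        have h3 : del ℤ b ∈ Ch (RL L) I (j - 1) := by
          have := neg_mem h2
          rwa [neg_neg] at this
        exact fun l => ⟨(h3 l).1, (h1 l).2⟩
      have hU' : ¬ Un Δ j (I \ σ) := fun h => hU ⟨σ, hL σ (by simp), h⟩
      obtain ⟨f, hf, hf2⟩ := ih hL' (I \ σ) j hU' b hbt hdb
      have hfI : f ∈ Ch (fun _ => (⊤ : AddSubgroup ℤ)) I (j + 1) := fun l =>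
        ⟨(hf l).1, fun h => ⟨((hf l).2 h).1, fun i hi =>
          (Finset.mem_sdiff.1 (((hf l).2 h).2 i hi)).1⟩⟩
      have hcf : del ℤ (c - f) ∈ Ch (RL L) I (j + 1 - 1) := by
        have h1 : b - del ℤ f ∈ Ch (RL L) I j := fun l =>
          ⟨(hf2 l).1, fun h => ⟨((hf2 l).2 h).1, fun i hi =>
            (Finset.mem_sdiff.1 (((hf2 l).2 h).2 i hi)).1⟩⟩
        have h2 := add_mem hcb h1
        have h3 : del ℤ (c - f) = del ℤ c - b + (b - del ℤ f) := by
          rw [map_sub]; abel
        rw [h3]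
        exact h2
      obtain ⟨e, he, he2⟩ := ih hL' I (j + 1) hU (c - f) (sub_mem hc hfI) hcf
      refine ⟨e, he, ?_⟩
      have h5 : c - del ℤ e = f + (c - f - del ℤ e) := by abel
      rw [h5]
      refine add_mem ?_ (Ch_mono (RL_cons σ L) he2)
      intro l
      refine ⟨?_, (hfI l).2⟩
      rw [mem_RL]
      intro h
      by_contra h1
      refine h σ (by simp) ?_
      rw [Finset.disjoint_left]
      intro i hi
      exact (Finset.mem_sdiff.1 (((hf l).2 h1).2 i (List.mem_toFinset.1 hi))).2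

end D2

theorem I_D2 : StD2 := by
  intro ι _ Δ hΔ L hL I j hU c hc hd
  exact D2.main Δ hΔ L hL I j hU c hc hd

end Pool.Agent.Work.MP_e9e200_al.UP

end

section

/-!
# Project UP: item E4
-/

set_option autoImplicit false

namespace Pool.Agent.Work.MP_e9e200_al.UP

open Finsupp

namespace E4

section

variable {G : Type} [Group G]

lemma KS_mono {S : Submonoid G} {N N' : Subgroup G} (h : N ≤ N') : KS S N ≤ KS S N' := by
  refine Submodule.span_mono ?_
  rintro x ⟨n, hn, rfl⟩
  exact ⟨n, h hn, rfl⟩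

variable {D : Type} {L : Lev G D}

lemma ch_inv (hL : L.Good) (g : G) : L.ch g⁻¹ = - L.ch g := by
  funext i
  have h1 : L.χ i 1 = 0 := by
    have := hL.χ_mul i 1 1
    rw [mul_one] at this
    linarith
  have h2 := hL.χ_mul i (Abelianization.of g⁻¹) (Abelianization.of g)
  rw [← map_mul, inv_mul_cancel, map_one, h1] at h2
  show L.χ i (Abelianization.of g⁻¹) = - L.χ i (Abelianization.of g)
  linarith

lemma N_sub (hL : L.Good) (E : D → ℤ) : ∀ n ∈ L.N E, n ∈ L.S := by
  intro n hn
  have h1 : n ∈ commutator G := hL.N_le E hn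
  rw [← Abelianization.ker_of G] at h1
  have h2 : Abelianization.of n = 1 := h1
  show Abelianization.of n ∈ L.QS
  rw [h2]
  exact one_mem _

lemma of_sec (q : L.QS) : Abelianization.of ((L.sec q : L.S) : G) = (q : Abelianization G) :=
  Quotient.out_eq (q : Abelianization G)

lemma mul_of (h2 : StKS2) (hL : L.Good) {E E' : D → ℤ} (q : L.QS)
    (h : ∀ i, E i + L.χ i q ≤ E' i) {x : MonoidAlgebra ℤ L.S} (hx : x ∈ KS L.S (L.N E)) :
    x * MonoidAlgebra.of ℤ L.S (L.sec q) ∈ KS L.S (L.N E') := by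
  refine h2 G L.S (L.N E) (L.N E') (L.sec q) (fun n hn => ?_) (N_sub hL E') x hx
  have h3 := hL.N_conj E ((L.sec q : L.S) : G)⁻¹ n hn
  rw [inv_inv, ch_inv hL] at h3
  refine hL.N_mono _ _ ?_ h3
  intro i
  have h4 : L.ch ((L.sec q : L.S) : G) i = L.χ i q := by
    show L.χ i (Abelianization.of ((L.sec q : L.S) : G)) = _
    rw [of_sec]
  rw [Pi.sub_apply, Pi.neg_apply, h4]
  linarith [h i]

lemma lif_eq (x : MonoidAlgebra ℤ L.QS) :
    L.lif x = ∑ q ∈ x.coeff.support, x.coeff q • MonoidAlgebra.of ℤ L.S (L.sec q) := by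
  apply MonoidAlgebra.ext
  rw [MonoidAlgebra.coeff_sum]
  show Finsupp.mapDomain L.sec x.coeff = _
  rw [Finsupp.mapDomain, Finsupp.sum]
  refine Finset.sum_congr rfl (fun q _ => ?_)
  rw [MonoidAlgebra.coeff_smul, MonoidAlgebra.of_apply, MonoidAlgebra.coeff_single,
    Finsupp.smul_single, smul_eq_mul, mul_one]

lemma mul_lif (h2 : StKS2) (hL : L.Good) {E E' : D → ℤ} (u : MonoidAlgebra ℤ L.QS)
    (h : ∀ q, u.coeff q ≠ 0 → ∀ i, E i + L.χ i q ≤ E' i) {x : MonoidAlgebra ℤ L.S}
    (hx : x ∈ KS L.S (L.N E)) : x * L.lif u ∈ KS L.S (L.N E') := by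
  rw [lif_eq, Finset.mul_sum]
  refine sum_mem (fun q hq => ?_)
  rw [mul_smul_comm]
  exact zsmul_mem (mul_of h2 hL q (h q (Finsupp.mem_support_iff.1 hq)) hx) _

lemma prj_lif (x : MonoidAlgebra ℤ L.QS) : L.prj (L.lif x) = x := by
  rw [lif_eq, map_sum]
  have h1 : ∀ q ∈ x.coeff.support, L.prj (x.coeff q • MonoidAlgebra.of ℤ L.S (L.sec q)) =
      MonoidAlgebra.single q (x.coeff q) := by
    intro q _
    rw [map_zsmul, MonoidAlgebra.of_apply]
    show x.coeff q • (MonoidAlgebra.mapDomainRingHom ℤ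
      ((Abelianization.of.comp L.S.subtype).codRestrict L.QS (fun s => s.2)))
        (MonoidAlgebra.single (L.sec q) 1) = _
    rw [MonoidAlgebra.mapDomainRingHom_apply, MonoidAlgebra.mapDomain_single]
    have h3 : ((Abelianization.of.comp L.S.subtype).codRestrict L.QS (fun s => s.2)) (L.sec q) =
        q := Subtype.ext (of_sec q)
    rw [h3]
    apply MonoidAlgebra.ext
    rw [MonoidAlgebra.coeff_smul, MonoidAlgebra.coeff_single, MonoidAlgebra.coeff_single,
      Finsupp.smul_single, smul_eq_mul, mul_one]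
  rw [Finset.sum_congr rfl h1]
  exact MonoidAlgebra.sum_coeff_single x

end

end E4

open E4 in
theorem I_E4 (h2 : StKS2) (h3 : StKS3) : StE4 := by
  classical
  intro G _ D _ L hL n δ M hM
  refine ⟨?_, ?_, ?_⟩
  · intro p F F' hF z hz b
    obtain ⟨t0, ht0⟩ := hz b
    refine ⟨t0, fun t ht => KS_mono (hL.N_mono _ _ ?_) (ht0 t ht)⟩
    intro i
    simp only [Pi.sub_apply, Pi.add_apply]
    linarith [hF i]
  · intro p F z hz b'
    choose t1 ht1 using hz
    refine ⟨Finset.univ.sup t1, fun t ht => ?_⟩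
    show ∑ a, z a t * L.lif (M p a b') ∈ _
    refine sum_mem (fun a _ => ?_)
    refine mul_lif h2 hL (E := (t : ℤ) • L.e + F - δ (p + 1) a) (M p a b') ?_
      (ht1 a t (le_trans (Finset.le_sup (Finset.mem_univ a)) ht))
    intro q hq i
    have h4 := hM.wt p a b' q hq i
    simp only [Pi.sub_apply, Pi.add_apply]
    linarith
  · intro p F z b''
    have hu : ∀ b : Fin (n (p + 2)), ∃ t0 : ℕ, ∀ t : ℕ, t0 ≤ t → ∀ w : MonoidAlgebra ℤ L.S,
        w * (∑ b', L.lif (M (p + 1) b b') * L.lif (M p b' b'')) ∈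
          KS L.S (L.N ((t : ℤ) • L.e + (F - δ p b''))) := by
      intro b
      refine h3 G D L hL _ ?_ (F - δ p b'')
      rw [map_sum]
      have h5 := congrFun (hM.dd p (Pi.single b 1)) b''
      have h6 : ∀ b', mu (M (p + 1)) (Pi.single b 1) b' = M (p + 1) b b' := by
        intro b'
        show ∑ i, (Pi.single b 1 : Fin (n (p + 2)) → MonoidAlgebra ℤ L.QS) i * M (p + 1) i b' = _
        rw [Finset.sum_eq_single b]
        · rw [Pi.single_eq_same, one_mul]
        · intro i _ hi
          rw [Pi.single_eq_of_ne hi, zero_mul]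
        · intro h
          exact absurd (Finset.mem_univ b) h
      have h7 : (mu (M p)) (mu (M (p + 1)) (Pi.single b 1)) b'' =
          ∑ b', mu (M (p + 1)) (Pi.single b 1) b' * M p b' b'' := rfl
      rw [h7] at h5
      rw [← show ∑ b', mu (M (p + 1)) (Pi.single b 1) b' * M p b' b'' = 0 from h5]
      refine Finset.sum_congr rfl (fun b' _ => ?_)
      rw [map_mul, prj_lif, prj_lif, h6]
    choose t1 ht1 using hu
    refine ⟨Finset.univ.sup t1, fun t ht => ?_⟩
    show ∑ b', (∑ b, z b t * L.lif (M (p + 1) b b')) * L.lif (M p b' b'') ∈ _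
    have h8 : ∑ b', (∑ b, z b t * L.lif (M (p + 1) b b')) * L.lif (M p b' b'') =
        ∑ b, z b t * (∑ b', L.lif (M (p + 1) b b') * L.lif (M p b' b'')) := by
      simp only [Finset.sum_mul, Finset.mul_sum, mul_assoc]
      exact Finset.sum_comm
    rw [h8]
    refine sum_mem (fun b _ => ?_)
    have h9 := ht1 b t (le_trans (Finset.le_sup (Finset.mem_univ b)) ht) (z b t)
    have h10 : (t : ℤ) • L.e + (F - δ p b'') = (t : ℤ) • L.e + F - δ p b'' := by abel
    rw [h10] at h9
    exact h9

end Pool.Agent.Work.MP_e9e200_al.UP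

end

section

/-!
# Project UP: item F0
-/

set_option autoImplicit false

namespace Pool.Agent.Work.MP_e9e200_al.UP

/-- item F0 -/
theorem I_F0 : StF0 := by
  intro R _ M _ _ hM
  obtain ⟨n, g, hg⟩ := Module.Finite.exists_fin' R M
  have hres : Build.Res R M 1 :=
    Build.res_succ (ModuleCat.of R (Fin n → R)) g
      (inferInstanceAs (Module.Projective R (Fin n → R)))
      (inferInstanceAs (Module.Finite R (Fin n → R))) hg (Build.res_zero R (LinearMap.ker g))
  obtain ⟨P, d, ε, hP, hfin', hε, h0, hd⟩ := hres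
  exact ⟨P, d, ε, hP, fun i hi => hfin' i (by omega), hε, h0, hd⟩

end Pool.Agent.Work.MP_e9e200_al.UP

end

section

/-!
# Project UP: item F1 (shifting)
-/

set_option autoImplicit false

namespace Pool.Agent.Work.MP_e9e200_al.UP

namespace F1

variable {R : Type} [Ring R] {F : Type} [AddCommGroup F] [Module R F]

/-- the spliced modules -/
def Q (F : Type) [AddCommGroup F] [Module R F] (P : ℕ → ModuleCat.{0} R) : ℕ → ModuleCat.{0} R
  | 0 => ModuleCat.of R F
  | i + 1 => P i

/-- the spliced maps -/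
def δ {N : Submodule R F} (P : ℕ → ModuleCat.{0} R) (d : ∀ i, P (i + 1) →ₗ[R] P i)
    (ε : P 0 →ₗ[R] N) : ∀ i, Q F P (i + 1) →ₗ[R] Q F P i
  | 0 => N.subtype ∘ₗ ε
  | i + 1 => d i

end F1

/-- F1: shifting -/
theorem I_F1 : StF1 := by
  intro R _ F M _ _ _ _ f j hFp hFf hf hK
  obtain ⟨P, d, ε, h1, h2, h3, h4, h5⟩ := hK
  refine ⟨F1.Q F P, F1.δ P d ε, f, ?_, ?_, hf, ?_, ?_⟩
  · intro i
    cases i with
    | zero => exact hFp
    | succ i => exact h1 i
  · intro i hi
    cases i with
    | zero => exact hFf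
    | succ i => exact h2 i (by omega)
  · intro x
    show f x = 0 ↔ x ∈ Set.range ((LinearMap.ker f).subtype ∘ₗ ε)
    constructor
    · intro hx
      obtain ⟨y, hy⟩ := h3 ⟨x, hx⟩
      exact ⟨y, congrArg Subtype.val hy⟩
    · rintro ⟨y, rfl⟩
      exact (ε y).2
  · intro i
    cases i with
    | zero =>
      intro x
      exact (Subtype.ext_iff (a1 := ε x) (a2 := 0)).symm.trans (h4 x)
    | succ i => exact h5 i

end Pool.Agent.Work.MP_e9e200_al.UP

end

section

/-!
# Project UP, item F2: extensions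
-/

set_option autoImplicit false

namespace Pool.Agent.Work.MP_e9e200_al.UP

namespace F2

lemma fin_ext {R : Type} [Ring R] {M' M M'' : Type} [AddCommGroup M'] [Module R M']
    [AddCommGroup M] [Module R M] [AddCommGroup M''] [Module R M''] (f : M' →ₗ[R] M)
    (g : M →ₗ[R] M'') (hfg : Function.Exact f g) (hg : Function.Surjective g)
    (h' : Module.Finite R M') (h'' : Module.Finite R M'') : Module.Finite R M := by
  refine ⟨Submodule.fg_of_fg_map_of_fg_inf_ker g ?_ ?_⟩
  · rw [Submodule.map_top, LinearMap.range_eq_top.2 hg]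
    exact h''.1
  · rw [top_inf_eq, LinearMap.exact_iff.1 hfg, LinearMap.range_eq_map]
    exact h'.1.map f

end F2

theorem I_F2 (hu : StUnshift) (h0 : StF0) (h1 : StF1) : StF2 := by
  have key : ∀ (j : ℕ) (R : Type) [Ring R] (M' M M'' : Type) [AddCommGroup M'] [Module R M']
    [AddCommGroup M] [Module R M] [AddCommGroup M''] [Module R M''] (f : M' →ₗ[R] M)
    (g : M →ₗ[R] M''), Function.Injective f → Function.Exact f g → Function.Surjective g →
    IsFP R M' j → IsFP R M'' j → IsFP R M j := by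
    intro j
    induction j with
    | zero =>
      intro R _ M' M M'' _ _ _ _ _ _ f g _ hfg hg hM' hM''
      exact h0 R M (F2.fin_ext f g hfg hg ((hu R M' 0).1 hM') ((hu R M'' 0).1 hM''))
    | succ j ih =>
      intro R _ M' M M'' _ _ _ _ _ _ f g hf hfg hg hM' hM''
      obtain ⟨F', f', hp', hn', hs', hk'⟩ := (hu R M' j).2 hM'
      obtain ⟨F'', f'', hp'', hn'', hs'', hk''⟩ := (hu R M'' j).2 hM''
      obtain ⟨l, hl⟩ := Module.projective_lifting_property g f'' hg
      have hl' : ∀ y, g (l y) = f'' y := fun y => by rw [← hl]; rfl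
      have hgf : ∀ x, g (f x) = 0 := fun x => (hfg (f x)).2 ⟨x, rfl⟩
      let φ : (F' × F'') →ₗ[R] M := (f.comp f').coprod l
      have hφ : ∀ x y, φ (x, y) = f (f' x) + l y := fun x y => by
        simp [φ]
      refine h1 R (F' × F'') M φ j inferInstance inferInstance ?_ ?_
      · intro m
        obtain ⟨y, hy⟩ := hs'' (g m)
        obtain ⟨x, hx⟩ := (hfg (m - l y)).1 (by rw [map_sub, hl', hy, sub_self])
        obtain ⟨x', hx'⟩ := hs' x
        exact ⟨(x', y), by rw [hφ, hx', hx, sub_add_cancel]⟩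
      · let α : LinearMap.ker f' →ₗ[R] LinearMap.ker φ :=
          LinearMap.codRestrict (LinearMap.ker φ)
            ((LinearMap.inl R F' F'').comp (LinearMap.ker f').subtype) (fun x => by
              show φ (x, 0) = 0
              rw [hφ, show f' (x : F') = 0 from x.2, map_zero, map_zero, add_zero])
        let β : LinearMap.ker φ →ₗ[R] LinearMap.ker f'' :=
          LinearMap.codRestrict (LinearMap.ker f'')
            ((LinearMap.snd R F' F'').comp (LinearMap.ker φ).subtype) (fun x => by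
              show f'' (x : F' × F'').2 = 0
              have h2 : φ ((x : F' × F'').1, (x : F' × F'').2) = 0 := x.2
              rw [hφ] at h2
              have h3 := congrArg g h2
              rwa [map_add, hgf, zero_add, hl', map_zero] at h3)
        refine ih R (LinearMap.ker f') (LinearMap.ker φ) (LinearMap.ker f'') α β ?_ ?_ ?_ hk' hk''
        · intro a b hab
          have h2 : ((a : F'), (0 : F'')) = ((b : F'), (0 : F'')) := congrArg Subtype.val hab
          exact Subtype.ext (congrArg Prod.fst h2)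
        · intro x
          constructor
          · intro hx
            have h2 : (x : F' × F'').2 = 0 := congrArg Subtype.val hx
            have h3 : φ ((x : F' × F'').1, (x : F' × F'').2) = 0 := x.2
            rw [hφ, h2, map_zero, add_zero] at h3
            have h4 : f' (x : F' × F'').1 = 0 := hf (by rw [h3, map_zero])
            refine ⟨⟨(x : F' × F'').1, h4⟩, Subtype.ext ?_⟩
            show ((x : F' × F'').1, (0 : F'')) = (x : F' × F'')
            exact Prod.ext rfl h2.symm
          · rintro ⟨y, rfl⟩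
            exact Subtype.ext rfl
        · intro y
          have h2 : g (l (y : F'')) = 0 := by rw [hl']; exact y.2
          obtain ⟨x, hx⟩ := (hfg _).1 h2
          obtain ⟨x', hx'⟩ := hs' (-x)
          refine ⟨⟨(x', (y : F'')), ?_⟩, Subtype.ext rfl⟩
          show φ (x', (y : F'')) = 0
          rw [hφ, hx', map_neg, hx, neg_add_cancel]
  exact fun R _ M' M M'' _ _ _ _ _ _ f g j => key j R M' M M'' f g

end Pool.Agent.Work.MP_e9e200_al.UP

end

section

/-!
# Project UP: item F3 (quotients)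
-/

set_option autoImplicit false

namespace Pool.Agent.Work.MP_e9e200_al.UP

namespace F3

section

variable {R : Type} [Ring R] {F M' M M'' : Type} [AddCommGroup F] [Module R F]
  [AddCommGroup M'] [Module R M'] [AddCommGroup M] [Module R M] [AddCommGroup M'']
  [Module R M''] (f : M' →ₗ[R] M) (g : M →ₗ[R] M'') (φ : F →ₗ[R] M)

lemma le_ker : LinearMap.ker φ ≤ LinearMap.ker (g ∘ₗ φ) := by
  intro x hx
  rw [LinearMap.mem_ker] at hx ⊢
  rw [LinearMap.comp_apply, hx, map_zero]

/-- the restriction of `φ` to the kernel of `g ∘ φ` -/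
noncomputable def res (hfg : Function.Exact f g) :
    LinearMap.ker (g ∘ₗ φ) →ₗ[R] LinearMap.range f :=
  (φ.domRestrict (LinearMap.ker (g ∘ₗ φ))).codRestrict (LinearMap.range f) (fun x => by
    rw [LinearMap.domRestrict_apply]
    exact (hfg _).1 (LinearMap.mem_ker.1 x.2))

/-- the map to `M'` -/
noncomputable def toM (hf : Function.Injective f) (hfg : Function.Exact f g) :
    LinearMap.ker (g ∘ₗ φ) →ₗ[R] M' :=
  (LinearEquiv.ofInjective f hf).symm.toLinearMap ∘ₗ res f g φ hfg

lemma f_toM (hf : Function.Injective f) (hfg : Function.Exact f g)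
    (x : LinearMap.ker (g ∘ₗ φ)) : f (toM f g φ hf hfg x) = φ x := by
  have h : (LinearEquiv.ofInjective f hf) (toM f g φ hf hfg x) = res f g φ hfg x := by
    show (LinearEquiv.ofInjective f hf) ((LinearEquiv.ofInjective f hf).symm _) = _
    rw [LinearEquiv.apply_symm_apply]
  have h2 := congrArg Subtype.val h
  exact h2

end

end F3

/-- F3: quotients -/
theorem I_F3 (hu : StUnshift) (h1 : StF1) (h2 : StF2) : StF3 := by
  intro R _ M' M M'' _ _ _ _ _ _ f g j hf hfg hg hM' hM
  obtain ⟨F, φ, hFp, hFf, hφ, hK⟩ := (hu R M j).2 hM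
  refine h1 R F M'' (g ∘ₗ φ) j hFp hFf (hg.comp hφ) ?_
  refine h2 R (LinearMap.ker φ) (LinearMap.ker (g ∘ₗ φ)) M'
    (Submodule.inclusion (F3.le_ker g φ)) (F3.toM f g φ hf hfg) j
    (Submodule.inclusion_injective _) ?_ ?_ hK hM'
  · intro x
    constructor
    · intro hx
      have h := F3.f_toM f g φ hf hfg x
      rw [hx, map_zero] at h
      exact ⟨⟨x, LinearMap.mem_ker.2 h.symm⟩, rfl⟩
    · rintro ⟨y, rfl⟩
      apply hf
      rw [F3.f_toM, map_zero]
      exact LinearMap.mem_ker.1 y.2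
  · intro y
    obtain ⟨x, hx⟩ := hφ (f y)
    have hx' : x ∈ LinearMap.ker (g ∘ₗ φ) := by
      rw [LinearMap.mem_ker, LinearMap.comp_apply, hx]
      exact (hfg _).2 ⟨y, rfl⟩
    refine ⟨⟨x, hx'⟩, hf ?_⟩
    rw [F3.f_toM]
    exact hx

end Pool.Agent.Work.MP_e9e200_al.UP

end

section

/-!
# Project UP: item H1
-/

set_option autoImplicit false

namespace Pool.Agent.Work.MP_e9e200_al.UP

open Finsupp

namespace H1

theorem mem_of_closure {G M : Type} [Group G] [AddCommGroup M] (y : G → M)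
    (hadd : ∀ a ∈ commutator G, ∀ b ∈ commutator G, y (a * b) = y a + y b)
    (S : Set G) (hS : ∀ s ∈ S, s ∈ commutator G) (L : AddSubgroup M) (hL : ∀ s ∈ S, y s ∈ L)
    (a : G) (ha : a ∈ Subgroup.closure S) : a ∈ commutator G ∧ y a ∈ L := by
  have h1 : y 1 = 0 := by
    have := hadd 1 (one_mem _) 1 (one_mem _)
    rw [mul_one] at this
    exact left_eq_add.mp this
  induction ha using Subgroup.closure_induction with
  | mem x hx => exact ⟨hS x hx, hL x hx⟩
  | one => exact ⟨one_mem _, by rw [h1]; exact zero_mem _⟩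
  | mul x z _ _ hx hz =>
    exact ⟨mul_mem hx.1 hz.1, by rw [hadd x hx.1 z hz.1]; exact add_mem hx.2 hz.2⟩
  | inv x _ hx =>
    refine ⟨inv_mem hx.1, ?_⟩
    have h2 := hadd x hx.1 x⁻¹ (inv_mem hx.1)
    rw [mul_inv_cancel, h1] at h2
    have h3 : y x⁻¹ = - y x := by
      rw [eq_neg_iff_add_eq_zero, add_comm]
      exact h2.symm
    rw [h3]
    exact neg_mem hx.2

theorem conj_mem_comm {G : Type} [Group G] (g v : G) (hv : v ∈ commutator G) :
    g * v * g⁻¹ ∈ commutator G :=
  (inferInstance : (commutator G).Normal).conj_mem v hv g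

end H1

open H1 in
theorem I_H1 (hn : StNC) : StH1 := by
  classical
  intro G _ _ _ M _ _ y hadd hinj hsurj hconj
  refine ⟨?_, ?_⟩
  · obtain ⟨V, hV, hVn⟩ := hn G
    refine ⟨V.image y, fun x => ?_⟩
    obtain ⟨a, ha, rfl⟩ := hsurj x
    have ha' := hVn ha
    refine (mem_of_closure y hadd (Group.conjugatesOfSet (V : Set G)) ?_ _ ?_ a ha').2
    · intro s hs
      rw [Group.mem_conjugatesOfSet_iff] at hs
      obtain ⟨v, hv, hvs⟩ := hs
      obtain ⟨c, rfl⟩ := isConj_iff.mp hvs
      exact conj_mem_comm c v (hV v hv)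
    · intro s hs
      rw [Group.mem_conjugatesOfSet_iff] at hs
      obtain ⟨v, hv, hvs⟩ := hs
      obtain ⟨c, rfl⟩ := isConj_iff.mp hvs
      refine AddSubgroup.subset_closure ⟨Abelianization.of c, y v,
        Finset.mem_image_of_mem y hv, ?_⟩
      exact hconj c v (hV v hv)
  · rintro γ ⟨hγ0, hγ⟩
    refine ⟨?_, ?_⟩
    · intro h
      apply hγ0
      refine AddMonoidHom.ext fun q => ?_
      obtain ⟨g, hg⟩ := QuotientGroup.mk_surjective (Additive.toMul q)
      have h1 : γ.comp (MonoidHom.toAdditive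
          (Abelianization.of : G →* Abelianization G)) (Additive.ofMul g) = 0 := by
        rw [h]; rfl
      have h2 : q = Additive.ofMul (Abelianization.of g) := hg.symm
      rw [h2]
      exact h1
    · intro V hV
      obtain ⟨x, hx⟩ := hγ (V.image y)
      obtain ⟨a, ha, rfl⟩ := hsurj x
      refine ⟨a, ha, fun hGen => hx ?_⟩
      refine (mem_of_closure y hadd _ ?_ _ ?_ a hGen).2
      · rintro s ⟨g, v, _, hv, rfl⟩
        exact conj_mem_comm g v (hV v hv)
      · rintro s ⟨g, v, hg, hv, rfl⟩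
        refine AddSubgroup.subset_closure ⟨Abelianization.of g, y v,
          Finset.mem_image_of_mem y hv, ?_, ?_⟩
        · exact hg
        · exact hconj g v (hV v hv)

end Pool.Agent.Work.MP_e9e200_al.UP

end

section

/-!
# Project UP: the upper inclusion
-/

set_option autoImplicit false

namespace Pool.Agent.Work.MP_e9e200_al.UP

namespace UP

/-- a nonnegative combination of `m` elements of `T` is in `ConvLE G m T` -/
theorem conv {G : Type} [Group G] (m : ℕ) (hm : 1 ≤ m) (T : Set (Additive G →+ ℝ))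
    (hT : ∀ χ ∈ T, χ ≠ 0) (v : Additive G →+ ℝ) (hv : v ≠ 0) (γ : Fin m → (Additive G →+ ℝ))
    (hγ : ∀ j, γ j ∈ T) (a : Fin m → ℝ) (ha : ∀ j, 0 ≤ a j) (hs : v = ∑ j, a j • γ j) :
    v ∈ ConvLE G m T := by
  classical
  set J : Finset (Fin m) := Finset.univ.filter (fun j => 0 < a j) with hJ
  have hsum : v = ∑ j ∈ J, a j • γ j := by
    rw [hs, hJ, Finset.sum_filter]
    refine Finset.sum_congr rfl fun j _ => ?_
    split_ifs with h
    · rfl
    · have : a j = 0 := le_antisymm (not_lt.1 h) (ha j)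
      rw [this, zero_smul]
  have hJne : J.Nonempty := by
    by_contra h
    rw [Finset.not_nonempty_iff_eq_empty] at h
    rw [h, Finset.sum_empty] at hsum
    exact hv hsum
  have hr : (0 : ℝ) < J.card := by exact_mod_cast hJne.card_pos
  set C : Set (Additive G →+ ℝ) := {w | ∃ χ ∈ T, ∃ c : ℝ, 0 < c ∧ w = c • χ} with hC
  let w : Fin m → (Additive G →+ ℝ) := fun j => ((J.card : ℝ) * a j) • γ j
  have hwC : ∀ j ∈ J, w j ∈ C := by
    intro j hj
    have h1 : 0 < a j := (Finset.mem_filter.1 hj).2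
    exact ⟨γ j, hγ j, _, mul_pos hr h1, rfl⟩
  -- the cone is infinite
  have hinf : C.Infinite := by
    obtain ⟨j, hj⟩ := hJne
    refine Set.infinite_of_injective_forall_mem (f := fun n : ℕ => ((n : ℝ) + 1) • γ j) ?_ ?_
    · intro n k h
      have hne := hT _ (hγ j)
      have h2 : ((n : ℝ) + 1 - ((k : ℝ) + 1)) • γ j = 0 := by
        rw [sub_smul]
        exact sub_eq_zero.2 h
      have h3 : ∃ x, γ j x ≠ 0 := by
        by_contra h4
        push Not at h4
        exact hne (AddMonoidHom.ext h4)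
      obtain ⟨x, hx⟩ := h3
      have h5 : ((n : ℝ) + 1 - ((k : ℝ) + 1)) * γ j x = 0 := by
        have := congrArg (fun f : Additive G →+ ℝ => f x) h2
        simpa using this
      have h6 := (mul_eq_zero.1 h5).resolve_right hx
      have h7 : (n : ℝ) = k := by linarith
      exact_mod_cast h7
    · intro n
      exact ⟨γ j, hγ j, _, by positivity, rfl⟩
  have hsub : ((J.image w : Finset (Additive G →+ ℝ)) : Set (Additive G →+ ℝ)) ⊆ C := by
    intro x hx
    obtain ⟨j, hj, rfl⟩ := Finset.mem_image.1 (Finset.mem_coe.1 hx)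
    exact hwC j hj
  have hcard : ((J.image w : Finset (Additive G →+ ℝ)) : Set (Additive G →+ ℝ)).ncard ≤ m := by
    rw [Set.ncard_coe_finset]
    calc (J.image w).card ≤ J.card := Finset.card_image_le
      _ ≤ (Finset.univ : Finset (Fin m)).card := Finset.card_le_card (Finset.filter_subset _ _)
      _ = m := by simp
  obtain ⟨s', hs1, hs2, hs3⟩ := hinf.exists_superset_ncard_eq hsub (Finset.finite_toSet _) hcard
  have hfin : s'.Finite := Set.finite_of_ncard_ne_zero (by omega)
  refine ⟨hv, hfin.toFinset, ?_, ?_, ?_⟩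
  · rw [← Set.ncard_eq_toFinset_card s' hfin]; exact hs3
  · intro x hx
    exact hs2 (hfin.mem_toFinset.1 hx)
  · rw [hfin.coe_toFinset]
    have h1 : v = ∑ j ∈ J, ((J.card : ℝ)⁻¹) • w j := by
      rw [hsum]
      refine Finset.sum_congr rfl fun j _ => ?_
      show a j • γ j = ((J.card : ℝ)⁻¹) • (((J.card : ℝ) * a j) • γ j)
      rw [smul_smul, ← mul_assoc, inv_mul_cancel₀ hr.ne', one_mul]
    rw [h1]
    refine (convex_convexHull ℝ s').sum_mem (fun j _ => inv_nonneg.2 hr.le) ?_ ?_
    · rw [Finset.sum_const, nsmul_eq_mul, mul_inv_cancel₀ hr.ne']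
    · intro j hj
      exact subset_convexHull ℝ s' (hs1 (Finset.mem_coe.2 (Finset.mem_image_of_mem w hj)))

end UP

theorem I_UP (u : StU) (g3 : StG3)
    (hs : ∀ (G : Type) [Group G] [Group.FG G], Metab G → ∀ χ : Additive G →+ ℝ, NFr χ →
      χ ∈ SigC G 1) : StUP := by
  intro m G _ _ hm hG hγ v hv
  by_contra hcon
  obtain ⟨hv0, hvF⟩ := hv
  have hrel : ∀ γ : Fin m → (Additive G →+ ℝ), (∀ j, NFr (γ j)) →
      ∀ (a : Fin m → ℝ) (b : ℝ), (∀ j, 0 ≤ a j) → (∃ j, a j ≠ 0) → 0 ≤ b →
        ∑ j, a j • γ j ≠ b • v := by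
    intro γ hγN a b ha haj hb heq
    have hγS : ∀ j, γ j ∈ SigC G 1 := fun j => hs G hG (γ j) (hγN j)
    rcases hb.eq_or_lt with h0 | h0
    · rw [← h0, zero_smul] at heq
      exact hγ γ hγS a ha haj heq
    · refine hcon (UP.conv m hm (SigC G 1) (fun χ h => h.1) v hv0 γ hγS (fun j => b⁻¹ * a j)
        (fun j => mul_nonneg (inv_nonneg.2 hb) (ha j)) ?_)
      have h1 : v = b⁻¹ • (b • v) := by rw [smul_smul, inv_mul_cancel₀ h0.ne', one_smul]
      rw [h1, ← heq, Finset.smul_sum]
      exact Finset.sum_congr rfl fun j _ => smul_smul _ _ _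
  obtain ⟨B, _, deg, db, eb, hP⟩ := u m G hG v hrel
  exact hvF (g3 G (Gmon v) m B deg db eb hP)

end Pool.Agent.Work.MP_e9e200_al.UP

end
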