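import Pool.Agent.Work.MP_e9e200_al.Bd.B13
import Pool.Agent.Work.MP_e9e200_al.Bd.B22

/-! Bundle of small proof modules (one section per former module). -/

section

set_option autoImplicit false

namespace Pool.Agent.Work.MP_e9e200_al.UP

theorem I_A4 : StA4 := by
  intro E _ _ ι τ d p v ρ hρ hρ4 hp hv hd hdp hx i hi
  obtain ⟨c, hc⟩ : ∃ c : ℝ, c = inner ℝ v p := ⟨_, rfl⟩
  obtain ⟨w, hw⟩ : ∃ w : E, w = v - c • p := ⟨_, rfl⟩
  have hpp : inner ℝ p p = 1 := by rw [real_inner_self_eq_norm_sq, hp, one_pow]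
  have hvv : inner ℝ v v = 1 := by rw [real_inner_self_eq_norm_sq, hv, one_pow]
  have hpw : inner ℝ p w = 0 := by
    rw [hw, inner_sub_right, inner_smul_right, hpp, mul_one, real_inner_comm, ← hc, sub_self]
  have hvw : inner ℝ v w = 1 - c ^ 2 := by
    rw [hw, inner_sub_right, inner_smul_right, hvv, ← hc]; ring
  have hww : ‖w‖ ^ 2 = 1 - c ^ 2 := by
    rw [← real_inner_self_eq_norm_sq]
    nth_rw 1 [hw]
    rw [inner_sub_left, inner_smul_left, hvw, hpw]
    simp
  have hc1 : c ≤ 1 := by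
    have := real_inner_le_norm v p
    rw [hv, hp, one_mul] at this
    rw [hc]; exact this
  have hdi : ∀ j ∈ τ, 1 / 2 ≤ inner ℝ (d j) p := by
    intro j hj
    have h1 := norm_sub_sq_real (d j) p
    rw [hd j hj, hp] at h1
    have h2 : ‖d j - p‖ ^ 2 ≤ (1 / 4) ^ 2 :=
      pow_le_pow_left₀ (norm_nonneg _) ((hdp j hj).trans hρ4) 2
    linarith
  have hdw : ∀ j ∈ τ, |inner ℝ (d j) w| ≤ ρ * ‖w‖ := by
    intro j hj
    have h1 : inner ℝ (d j) w = inner ℝ (d j - p) w := by
      rw [inner_sub_left, hpw, sub_zero]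
    rw [h1]
    exact (abs_real_inner_le_norm _ _).trans
      (mul_le_mul_of_nonneg_right (hdp j hj) (norm_nonneg _))
  have hc0 : 0 ≤ c := by
    rw [hc]
    exact hx p fun j hj => by linarith [hdi j hj]
  have h3 : 0 ≤ inner ℝ v ((2 * ρ * ‖w‖) • p - w) := by
    apply hx
    intro j hj
    rw [inner_sub_right, inner_smul_right]
    have a1 := hdi j hj
    have a2 := (abs_le.1 (hdw j hj)).2
    have a3 : 0 ≤ ρ * ‖w‖ := mul_nonneg hρ.le (norm_nonneg _)
    nlinarith
  rw [inner_sub_right, inner_smul_right, hvw, ← hww, ← hc] at h3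
  have hw0 : 0 ≤ ‖w‖ := norm_nonneg w
  have h4 : ‖w‖ ^ 2 ≤ 2 * ρ * ‖w‖ := by
    have : 2 * ρ * ‖w‖ * c ≤ 2 * ρ * ‖w‖ * 1 :=
      mul_le_mul_of_nonneg_left hc1 (by positivity)
    linarith
  have h5 : ‖w‖ ≤ 2 * ρ := by
    rcases hw0.eq_or_lt with h0 | h0
    · rw [← h0]; positivity
    · nlinarith
  have h6 : ‖w‖ ^ 2 ≤ (2 * ρ) ^ 2 := pow_le_pow_left₀ hw0 h5 2
  have h7 : 1 - 4 * ρ ^ 2 ≤ c := by nlinarith
  have h8 : ‖v - p‖ ^ 2 ≤ (3 * ρ) ^ 2 := by
    have h1 := norm_sub_sq_real v p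
    rw [hv, hp, ← hc] at h1
    nlinarith
  have h9 : ‖v - p‖ ≤ 3 * ρ := le_of_sq_le_sq h8 (by positivity)
  have h10 : ‖v - d i‖ ≤ ‖v - p‖ + ‖p - d i‖ := norm_sub_le_norm_sub_add_norm_sub _ _ _
  rw [norm_sub_rev p (d i)] at h10
  linarith [hdp i hi]

end Pool.Agent.Work.MP_e9e200_al.UP

end

section

/-!
# Project UP, item C3: pushing cycles in a good direction
-/

set_option autoImplicit false

namespace Pool.Agent.Work.MP_e9e200_al.UP

open Finsupp

namespace C3

lemma chi_one {Q D : Type} [CommGroup Q] {χ : D → Q → ℤ}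
    (hχ : ∀ i a b, χ i (a * b) = χ i a + χ i b) (i : D) : χ i 1 = 0 := by
  have h := hχ i 1 1
  rw [mul_one] at h
  omega

lemma chi_pow {Q D : Type} [CommGroup Q] {χ : D → Q → ℤ}
    (hχ : ∀ i a b, χ i (a * b) = χ i a + χ i b) (i : D) (q : Q) (n : ℕ) :
    χ i (q ^ n) = n * χ i q := by
  induction n with
  | zero => rw [pow_zero, chi_one hχ]; simp
  | succ n ih => rw [pow_succ, hχ, ih]; push_cast; ring

lemma push {Q : Type} [CommGroup Q] {M : Type} [AddCommGroup M]
    [Module (MonoidAlgebra ℤ Q) M] {D : Type} [Fintype D] {χ : D → Q → ℤ}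
    (hχ : ∀ i a b, χ i (a * b) = χ i a + χ i b) {T : Finset M} {τ : Finset D}
    (hgen : ∀ x : M, x ∈ AddSubgroup.closure {x | ∃ q : Q, ∃ t ∈ T, (∀ i ∈ τ, 0 ≤ χ i q) ∧
      x = MonoidAlgebra.of ℤ Q q • t}) (hq : ∃ q, ∀ i ∈ τ, 0 < χ i q) (x : M) (B : ℤ) :
    ∃ s0 : ℤ, ∀ E : D → ℤ, (∀ i ∈ τ, -B ≤ E i) → (∀ i ∉ τ, s0 ≤ E i) → x ∈ NN χ T E := by
  obtain ⟨q0, hq0⟩ := hq
  have key : ∀ y ∈ AddSubgroup.closure {x | ∃ q : Q, ∃ t ∈ T, (∀ i ∈ τ, 0 ≤ χ i q) ∧
      x = MonoidAlgebra.of ℤ Q q • t}, ∃ s0 : ℤ, ∀ E : D → ℤ, (∀ i ∈ τ, -B ≤ E i) →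
      (∀ i ∉ τ, s0 ≤ E i) → MonoidAlgebra.of ℤ Q (q0 ^ B.toNat) • y ∈ NN χ T E := by
    intro y hy
    refine AddSubgroup.closure_induction (p := fun y _ => ∃ s0 : ℤ, ∀ E : D → ℤ,
      (∀ i ∈ τ, -B ≤ E i) → (∀ i ∉ τ, s0 ≤ E i) →
      MonoidAlgebra.of ℤ Q (q0 ^ B.toNat) • y ∈ NN χ T E) ?_ ?_ ?_ ?_ hy
    · rintro y ⟨q, t, ht, hq, rfl⟩
      refine ⟨∑ i, |χ i (q0 ^ B.toNat * q)|, fun E h1 h2 => ?_⟩
      rw [smul_smul, ← map_mul]
      refine AddSubgroup.subset_closure ⟨q0 ^ B.toNat * q, t, ht, fun i => ?_, rfl⟩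
      by_cases hi : i ∈ τ
      · have h3 := h1 i hi
        have h4 : B ≤ χ i (q0 ^ B.toNat) := by
          rw [chi_pow hχ]
          have h5 := hq0 i hi
          have h6 : B ≤ (B.toNat : ℤ) := Int.self_le_toNat B
          nlinarith
        have h5 := hq i hi
        rw [hχ]
        linarith
      · have h3 := h2 i hi
        have h4 : |χ i (q0 ^ B.toNat * q)| ≤ ∑ i, |χ i (q0 ^ B.toNat * q)| :=
          Finset.single_le_sum (f := fun i => |χ i (q0 ^ B.toNat * q)|)
            (fun i _ => abs_nonneg _) (Finset.mem_univ i)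
        have h5 := neg_abs_le (χ i (q0 ^ B.toNat * q))
        linarith
    · exact ⟨0, fun E _ _ => by rw [smul_zero]; exact zero_mem _⟩
    · rintro a b _ _ ⟨s1, h1⟩ ⟨s2, h2⟩
      refine ⟨max s1 s2, fun E hE hE' => ?_⟩
      rw [smul_add]
      exact add_mem (h1 E hE (fun i hi => le_trans (le_max_left _ _) (hE' i hi)))
        (h2 E hE (fun i hi => le_trans (le_max_right _ _) (hE' i hi)))
    · rintro a _ ⟨s1, h1⟩
      refine ⟨s1, fun E hE hE' => ?_⟩
      rw [smul_neg]
      exact neg_mem (h1 E hE hE')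
  obtain ⟨s0, h⟩ := key (MonoidAlgebra.of ℤ Q (q0 ^ B.toNat)⁻¹ • x) (hgen _)
  refine ⟨s0, fun E h1 h2 => ?_⟩
  have h3 := h E h1 h2
  rwa [smul_smul, ← map_mul, mul_inv_cancel, map_one, one_smul] at h3

lemma ind_le {D : Type} [DecidableEq D] (J : Finset D) (i : D) : ind J i ≤ 1 := by
  rw [ind]
  split_ifs <;> norm_num

end C3

theorem I_C3 : StC3 := by
  intro Q _ M _ _ D _ _ χ hχ T τ hgen hq I hI k E z hz hdz
  obtain ⟨i0, hi0⟩ := hI
  choose s hs using fun x : M => C3.push hχ hgen hq x (∑ i, |1 - E i|)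
  refine ⟨1 + ∑ l ∈ z.support, |s (z l)|, fun E' h1 h2 => ⟨pre M i0 z, ?_, ?_⟩⟩
  · intro l
    by_cases hl : ∃ l', l = i0 :: l'
    · obtain ⟨l', rfl⟩ := hl
      rw [pre_apply_cons]
      constructor
      · by_cases h0 : z l' = 0
        · rw [h0]; exact zero_mem _
        · refine hs (z l') _ (fun i hi => ?_) (fun i hi => ?_)
          · have h3 := h1 i hi
            have h4 : |1 - E i| ≤ ∑ i, |1 - E i| :=
              Finset.single_le_sum (f := fun i => |1 - E i|)
                (fun i _ => abs_nonneg _) (Finset.mem_univ i)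
            have h5 := le_abs_self (1 - E i)
            have h6 := C3.ind_le (i0 :: l').toFinset i
            rw [Pi.sub_apply]
            linarith
          · have h3 := h2 i hi
            have h4 : |s (z l')| ≤ ∑ l ∈ z.support, |s (z l)| :=
              Finset.single_le_sum (f := fun l => |s (z l)|)
                (fun i _ => abs_nonneg _) (Finsupp.mem_support_iff.2 h0)
            have h5 := le_abs_self (s (z l'))
            have h6 := C3.ind_le (i0 :: l').toFinset i
            rw [Pi.sub_apply]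
            linarith
      · intro h0
        obtain ⟨h3, h4⟩ := (hz l').2 h0
        refine ⟨by rw [List.length_cons, h3], fun i hi => ?_⟩
        rcases List.mem_cons.1 hi with h | h
        · rw [h]; exact hi0
        · exact h4 i h
    · rw [pre_apply_ne i0 z l (fun l' h => hl ⟨l', h⟩)]
      exact ⟨zero_mem _, fun h => absurd rfl h⟩
  · rw [del_pre, hdz, map_zero, sub_zero]

end Pool.Agent.Work.MP_e9e200_al.UP

end

section

/-!
# Project UP, item C5
-/

set_option autoImplicit false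

namespace Pool.Agent.Work.MP_e9e200_al.UP

open Finsupp

namespace C5

variable {Q M D : Type} [CommGroup Q] [AddCommGroup M] [Module (MonoidAlgebra ℤ Q) M]

lemma NN_mono (χ : D → Q → ℤ) (T : Finset M) {E E' : D → ℤ} (h : E ≤ E') :
    NN χ T E ≤ NN χ T E' := by
  refine AddSubgroup.closure_mono ?_
  rintro x ⟨q, t, ht, hq, rfl⟩
  exact ⟨q, t, ht, fun i => (neg_le_neg (h i)).trans (hq i), rfl⟩

lemma ind_nonneg [DecidableEq D] (J : Finset D) : 0 ≤ ind J := by
  intro i
  show (0 : ℤ) ≤ if i ∈ J then 1 else 0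
  split_ifs <;> norm_num

lemma bot_zero {ι Z : Type} [DecidableEq ι] [AddCommGroup Z] {I : Finset ι} {k : ℕ}
    {c : List ι →₀ Z} (hc : c ∈ Ch (fun _ => (⊥ : AddSubgroup Z)) I k) : c = 0 := by
  ext l
  exact AddSubgroup.mem_bot.1 (hc l).1

/-- transfer of exactness to a subgroup -/
lemma transfer {ι Z : Type} [DecidableEq ι] [AddCommGroup Z] (P1 P : Finset ι → AddSubgroup Z)
    (N0 : AddSubgroup Z) (J I : Finset ι) (k : ℕ) (hdis : Disjoint J I)
    (h1 : ∀ K : Finset ι, Disjoint J K → P1 K = P (J ∪ K)) (h0 : ∀ K, P1 K ≤ N0)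
    (h : Ex P1 (fun _ => ⊥) I k) :
    Ex (fun K => (P (J ∪ K)).addSubgroupOf N0) (fun _ => ⊥) I k := by
  intro c hc hdc
  have hsub : ∀ l : List ι, (∀ i ∈ l, i ∈ I) → Disjoint J l.toFinset := by
    intro l hl
    refine hdis.mono_right ?_
    intro i hi
    exact hl i (List.mem_toFinset.1 hi)
  set g : (List ι →₀ N0) →+ (List ι →₀ Z) := Finsupp.mapRange.addMonoidHom N0.subtype with hg
  have hgl : ∀ (x : List ι →₀ N0) (l : List ι), g x l = (x l : Z) := by
    intro x l
    simp [hg]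
  have hginj : Function.Injective g := by
    intro x y hxy
    ext l
    rw [← hgl x l, ← hgl y l, hxy]
  have hc1 : g c ∈ Ch P1 I k := by
    intro l
    rw [hgl]
    refine ⟨?_, fun hne => (hc l).2 (fun h2 => hne (by rw [h2]; rfl))⟩
    by_cases h2 : c l = 0
    · rw [h2]; exact zero_mem _
    · rw [h1 _ (hsub l ((hc l).2 h2).2)]
      exact AddSubgroup.mem_addSubgroupOf.1 (hc l).1
  have hd1 : del Z (g c) = 0 := by
    rw [hg, del_mapRange, bot_zero hdc, map_zero]
  obtain ⟨e1, he1, hce⟩ := h (g c) hc1 (by rw [hd1]; exact zero_mem _)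
  have hce' : g c = del Z e1 := sub_eq_zero.1 (bot_zero hce)
  have hmem : ∀ l, e1 l ∈ N0 := fun l => h0 _ (he1 l).1
  set e : List ι →₀ N0 := ⟨e1.support, fun l => ⟨e1 l, hmem l⟩, fun l => by
    rw [Finsupp.mem_support_iff, ne_eq, ne_eq, Subtype.ext_iff]
    rfl⟩ with he
  have hel : ∀ l, (e l : Z) = e1 l := fun l => rfl
  have hge : g e = e1 := by
    ext l
    rw [hgl, hel]
  refine ⟨e, ?_, ?_⟩
  · intro l
    have hne : e l ≠ 0 → e1 l ≠ 0 := by
      intro h2 h3
      apply h2
      apply Subtype.ext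
      rw [hel, h3]
      rfl
    refine ⟨?_, fun h2 => (he1 l).2 (hne h2)⟩
    by_cases h2 : e l = 0
    · rw [h2]; exact zero_mem _
    · rw [AddSubgroup.mem_addSubgroupOf, hel, ← h1 _ (hsub l ((he1 l).2 (hne h2)).2)]
      exact (he1 l).1
  · have : c = del N0 e := by
      apply hginj
      rw [hce', ← hge, hg, del_mapRange]
    rw [← this, sub_self]
    exact zero_mem _

end C5

theorem I_C5 : StC5 := by
  intro Q _ M _ _ D _ _ χ T e Δ h m F I
  have h' : ∀ (J I' : Finset D) (k : ℕ), ∃ t0 : ℕ, I' ∉ Δ → ∀ t : ℕ, t0 ≤ t →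
      Ex (fun K => NN χ T ((t : ℤ) • e + (F - ind J) - ind K)) (fun _ => ⊥) I' k := by
    intro J I' k
    by_cases hI : I' ∈ Δ
    · exact ⟨0, fun h1 => absurd hI h1⟩
    · obtain ⟨t0, ht0⟩ := h k (F - ind J) I' hI
      exact ⟨t0, fun _ => ht0⟩
  choose t0 ht0 using h'
  refine ⟨((Finset.univ : Finset (Finset D)) ×ˢ (Finset.univ : Finset (Finset D)) ×ˢ
    Finset.range m).sup (fun p => t0 p.1 p.2.1 p.2.2), ?_⟩
  intro t ht J I' _ _ hdis hI' k hk
  have hle : t0 J I' k ≤ t := by
    refine le_trans ?_ ht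
    exact Finset.le_sup (f := fun p : Finset D × Finset D × ℕ => t0 p.1 p.2.1 p.2.2)
      (b := (J, I', k)) (by simp [hk])
  have hex := ht0 J I' k hI' t hle
  refine C5.transfer (fun K => NN χ T ((t : ℤ) • e + (F - ind J) - ind K))
    (fun K => NN χ T ((t : ℤ) • e + F - ind K)) (NN χ T ((t : ℤ) • e + F)) J I' k hdis ?_ ?_ hex
  · intro K hK
    show NN χ T ((t : ℤ) • e + (F - ind J) - ind K) = NN χ T ((t : ℤ) • e + F - ind (J ∪ K))
    rw [ind_union hK]
    congr 1
    abel
  · intro K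
    refine C5.NN_mono χ T ?_
    intro i
    have h1 := C5.ind_nonneg J i
    have h2 := C5.ind_nonneg K i
    simp only [Pi.zero_apply, Pi.sub_apply, Pi.add_apply] at *
    linarith

end Pool.Agent.Work.MP_e9e200_al.UP

end

section

set_option autoImplicit false

namespace Pool.Agent.Work.MP_e9e200_al.UP

open Finsupp

namespace D

theorem Kr_map {M M' : Type} [AddCommGroup M] [AddCommGroup M'] (g : M →+ M')
    (N : AddSubgroup M) (N' : AddSubgroup M') (h : ∀ x, x ∈ N ↔ g x ∈ N') (z : M →₀ ℤ) :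
    z ∈ Kr N ↔ Finsupp.mapDomain g z ∈ Kr N' := by
  have hle : N ≤ N'.comap g := fun x hx => (h x).1 hx
  have hinj : Function.Injective (QuotientAddGroup.map N N' g hle) := by
    rw [injective_iff_map_eq_zero]
    intro a
    induction a using QuotientAddGroup.induction_on with
    | H x =>
      intro hx
      rw [QuotientAddGroup.map_mk, QuotientAddGroup.eq_zero_iff] at hx
      rw [QuotientAddGroup.eq_zero_iff]
      exact (h x).2 hx
  have hcomp : Finsupp.mapDomain (QuotientAddGroup.mk : M' → M' ⧸ N') (Finsupp.mapDomain g z) =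
      Finsupp.mapDomain (QuotientAddGroup.map N N' g hle)
        (Finsupp.mapDomain (QuotientAddGroup.mk : M → M ⧸ N) z) := by
    rw [← Finsupp.mapDomain_comp, ← Finsupp.mapDomain_comp]
    rfl
  rw [mem_Kr, mem_Kr, hcomp]
  constructor
  · intro h0
    rw [h0, Finsupp.mapDomain_zero]
  · intro h0
    refine Finsupp.mapDomain_injective hinj ?_
    rw [h0, Finsupp.mapDomain_zero]

theorem Kr_mono {M : Type} [AddCommGroup M] {N N' : AddSubgroup M} (h : N ≤ N') :
    Kr N ≤ Kr N' := by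
  intro z hz
  rw [mem_Kr] at hz ⊢
  have hcomp : Finsupp.mapDomain (QuotientAddGroup.mk : M → M ⧸ N') z =
      Finsupp.mapDomain (QuotientAddGroup.map N N' (AddMonoidHom.id M) h)
        (Finsupp.mapDomain (QuotientAddGroup.mk : M → M ⧸ N) z) := by
    rw [← Finsupp.mapDomain_comp]
    rfl
  rw [hcomp, hz, Finsupp.mapDomain_zero]

theorem Ex_transport {ι : Type} [DecidableEq ι] {Z Z' : Type} [AddCommGroup Z] [AddCommGroup Z']
    (f : Z ≃+ Z') (R : Finset ι → AddSubgroup Z) (R' : Finset ι → AddSubgroup Z')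
    (h : ∀ J z, z ∈ R J ↔ f z ∈ R' J) (I : Finset ι) (k : ℕ)
    (hE : Ex (fun _ => ⊤) R' I k) : Ex (fun _ => ⊤) R I k := by
  intro c hc hd
  have h1 : Finsupp.mapRange.addMonoidHom (f : Z →+ Z') c ∈ Ch (fun _ => (⊤ : AddSubgroup Z')) I k := by
    intro l
    refine ⟨AddSubgroup.mem_top _, fun hl => (hc l).2 (fun h0 => hl ?_)⟩
    simp [h0]
  have h2 : del Z' (Finsupp.mapRange.addMonoidHom (f : Z →+ Z') c) ∈ Ch R' I (k - 1) := by
    rw [del_mapRange]
    intro l
    refine ⟨?_, fun hl => (hd l).2 (fun h0 => hl ?_)⟩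
    · have := (h l.toFinset (del Z c l)).1 (hd l).1
      simpa using this
    · simp [h0]
  obtain ⟨e', he', hce'⟩ := hE _ h1 h2
  refine ⟨Finsupp.mapRange.addMonoidHom (f.symm : Z' →+ Z) e', ?_, ?_⟩
  · intro l
    refine ⟨AddSubgroup.mem_top _, fun hl => (he' l).2 (fun h0 => hl ?_)⟩
    simp [h0]
  · intro l
    have hval : f ((c - del Z (Finsupp.mapRange.addMonoidHom (f.symm : Z' →+ Z) e')) l) =
        (Finsupp.mapRange.addMonoidHom (f : Z →+ Z') c - del Z' e') l := by
      rw [del_mapRange]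
      simp
    refine ⟨?_, fun hl => ?_⟩
    · rw [h, hval]
      exact (hce' l).1
    · refine (hce' l).2 ?_
      rw [← hval]
      intro h0
      exact hl ((map_eq_zero_iff f f.injective).1 h0)

theorem KK_mono {ι : Type} [DecidableEq ι] {m m' : ℕ} (hm : m ≤ m') {M : Type} [AddCommGroup M]
    {Ms : Finset ι → AddSubgroup M} {Δ : Set (Finset ι)} {I : Finset ι} (h : KK m' Ms Δ I) :
    KK m Ms Δ I :=
  fun J I' hJ hI' hd hn k hk => h J I' hJ hI' hd hn k (lt_of_lt_of_le hk hm)

/-- the sum of the values -/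
noncomputable def pi {ι M : Type} [DecidableEq ι] [AddCommGroup M] (s : Finset (Finset ι))
    (W : Finset ι → AddSubgroup M) (I : Finset ι) : VV s W →+ M where
  toFun := fun v => ∑ σ ∈ I.powerset, (v : Finset ι → M) σ
  map_zero' := by simp
  map_add' := fun v w => by
    simp only [AddSubgroup.coe_add, Pi.add_apply, Finset.sum_add_distrib]

/-- tuples of length one -/
def eqv {V M : Type} [AddCommGroup V] [AddCommGroup M] (π : V →+ M) : FP π 0 ≃+ V where
  toFun := fun v => (v : Fin 1 → V) 0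
  invFun := fun v => ⟨fun _ => v, fun _ _ => rfl⟩
  left_inv := fun v => by
    apply Subtype.ext
    funext a
    have ha : a = 0 := Fin.ext (by have := a.2; simp at this ⊢)
    rw [ha]
  right_inv := fun v => rfl
  map_add' := fun v w => rfl

end D

theorem I_D (h4 : StD4) (h5 : StD5) (h6 : StD6) (h7 : StD7) (h8 : StD8) (h9 : StD9)
    (h10 : StD10) : StD := by
  intro ι _ Δ hΔ j
  induction j using Nat.strong_induction_on with
  | _ j ih =>
  intro M _ Ms hMs hMs0 I hKK hUn
  rcases Nat.eq_zero_or_pos j with hj | hj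
  · subst hj
    have hI : I.Nonempty := Finset.nonempty_iff_ne_empty.2 hUn
    obtain ⟨i, hi⟩ := hI
    intro c hc _
    obtain ⟨z, _, rfl⟩ := Ch_zero.1 hc
    refine ⟨single [i] z, Ch_single (AddSubgroup.mem_top _) rfl (by simpa using hi), ?_⟩
    have : single ([] : List ι) z - del (M →₀ ℤ) (single [i] z) = 0 := by
      rw [del_single_cons, del_single_nil, map_zero, sub_zero, sub_self]
    rw [this]
    exact zero_mem _
  · obtain ⟨j', rfl⟩ : ∃ j', j = j' + 1 := ⟨j - 1, by omega⟩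
    classical
    let s : Finset (Finset ι) := I.powerset.filter (fun σ => σ ∈ Δ)
    let W : Finset ι → AddSubgroup M := fun σ => Ms (I \ σ)
    have hs : ∀ σ ∈ s, σ ∈ Δ := fun σ hσ => (Finset.mem_filter.1 hσ).2
    let Vs : Finset ι → AddSubgroup (VV s W) := fun J => VJ s W J
    let π : VV s W →+ M := D.pi s W I
    have hπ : ∀ v : VV s W, π v = ∑ σ ∈ I.powerset, (v : Finset ι → M) σ := fun v => rfl
    have hVs : ∀ J J' : Finset ι, J ⊆ J' → Vs J' ≤ Vs J := by
      intro J J' hJ v hv σ hσ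
      exact hv σ (fun h => hσ (Finset.disjoint_of_subset_right hJ h))
    have hVs0 : Vs ∅ = ⊤ := by
      rw [eq_top_iff]
      intro v _ σ hσ
      exact absurd (Finset.disjoint_empty_right σ) hσ
    have hf1 : ∀ J ⊆ I, ∀ v ∈ Vs J, π v ∈ Ms J := by
      intro J hJ v hv
      rw [hπ]
      refine sum_mem fun σ hσ => ?_
      by_cases hd : Disjoint σ J
      · refine hMs J (I \ σ) ?_ (v.2 σ).1
        intro x hx
        rw [Finset.mem_sdiff]
        exact ⟨hJ hx, fun h => Finset.disjoint_left.1 hd h hx⟩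
      · have := hv σ hd
        rw [this]
        exact zero_mem _
    have hf2 : ∀ J ⊆ I, ∀ x ∈ Ms J, ∃ v ∈ Vs J, π v = x := by
      intro J hJ x hx
      obtain ⟨f, hfa, hfb, hfc⟩ := h7 ι Δ M Ms I (D.KK_mono (by omega) hKK) J hJ x hx
      have hfV : f ∈ VV s W := by
        intro σ
        refine ⟨hfa σ, fun hσ => ?_⟩
        by_contra hne
        refine hσ (Finset.mem_filter.2 ⟨Finset.mem_powerset.2 (hfb σ hne).2.1, (hfb σ hne).1⟩)
      refine ⟨⟨f, hfV⟩, ?_, ?_⟩
      · intro σ hσ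
        by_contra hne
        exact hσ (hfb σ hne).2.2
      · rw [hπ]; exact hfc.symm
    have hπs : Function.Surjective π := by
      intro x
      obtain ⟨v, _, hv⟩ := hf2 ∅ (Finset.empty_subset _) x (by rw [hMs0]; exact AddSubgroup.mem_top _)
      exact ⟨v, hv⟩
    have hKV : ∀ m, KK m Vs Δ I := fun m J I' _ _ _ hn k _ => h5 ι Δ hΔ M s hs W J I' hn k
    have hKU : KK j' (fun J => (Vs J).addSubgroupOf π.ker) Δ I :=
      h6 ι Δ (VV s W) M π Vs Ms hVs I hf1 hf2 j' hKK (hKV j')
    have hKF : ∀ s', KK j' (fun J => FJ π s' (Vs J)) Δ I := fun s' =>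
      h8 ι Δ (VV s W) M π Vs I j' s' (hKV j') hKU
    have hFm : ∀ s' (J J' : Finset ι), J ⊆ J' → FJ π s' (Vs J') ≤ FJ π s' (Vs J) :=
      fun s' J J' hJ v hv a => hVs J J' hJ (hv a)
    have h9' := fun (J : Finset ι) (hJ : J ⊆ I) =>
      h9 (VV s W) M π (Vs J) (Ms J) hπs (hf1 J hJ) (hf2 J hJ)
    have h90 := h9' ∅ (Finset.empty_subset _)
    refine h10 ι (fun s' => (FP π s' →₀ ℤ)) (M →₀ ℤ) (fun s' J => Kr (FJ π s' (Vs J)))
      (fun J => Kr (Ms J)) (fun s' => cd π s') (ce π) I
      (fun s' J J' hJ => D.Kr_mono (hFm s' J J' hJ)) (fun J J' hJ => D.Kr_mono (hMs J J' hJ))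
      (fun s' J hJ => (h9' J hJ).1 s') (fun J hJ => (h9' J hJ).2.1)
      h90.2.2.1 h90.2.2.2.1 h90.2.2.2.2.1
      (fun J hJ => (h9' J hJ).2.2.2.2.2.1) (fun s' J hJ => (h9' J hJ).2.2.2.2.2.2 s')
      (j' + 1) ?_
    intro s' hs'
    rcases Nat.eq_zero_or_pos s' with h0 | hpos
    · subst h0
      have h4' := h4 ι Δ hΔ M s hs W [] (by simp) I (j' + 1) hUn
      refine D.Ex_transport (Finsupp.domCongr (D.eqv π).toEquiv) _ _ ?_ I (j' + 1 - 0) h4'
      intro J z
      have hcond : (∀ σ ∈ ([] : List (Finset ι)), ¬ Disjoint J σ) := by simp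
      rw [if_pos hcond]
      have hk := D.Kr_map ((D.eqv π : FP π 0 ≃+ VV s W) : FP π 0 →+ VV s W)
        (FJ π 0 (Vs J)) (VJ s W J) (fun v => ?_) z
      · rw [hk]
        have : (Finsupp.domCongr (D.eqv π).toEquiv) z =
            Finsupp.mapDomain ((D.eqv π : FP π 0 ≃+ VV s W) : FP π 0 →+ VV s W) z := by
          rw [Finsupp.domCongr_apply, Finsupp.equivMapDomain_eq_mapDomain]
          rfl
        rw [this]
      · constructor
        · intro hv
          exact hv 0
        · intro hv a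
          have ha : a = 0 := Fin.ext (by have := a.2; simp at this ⊢)
          rw [ha]
          exact hv
    · refine ih (j' + 1 - s') (by omega) (FP π s') (fun J => FJ π s' (Vs J)) (hFm s') ?_ I
        (D.KK_mono (by omega) (hKF s')) (fun hU => hUn (Un_mono hΔ.1 (by omega) hU))
      rw [eq_top_iff]
      intro v _ a
      have : (v : Fin (s' + 1) → VV s W) a ∈ (⊤ : AddSubgroup (VV s W)) := AddSubgroup.mem_top _
      rw [← hVs0] at this
      exact this

end Pool.Agent.Work.MP_e9e200_al.UP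

end

section

/-!
# Project UP: item D4, split systems
-/

set_option autoImplicit false

namespace Pool.Agent.Work.MP_e9e200_al.UP

open Finsupp

namespace D4

section slices

variable {X A B K C : Type}

lemma md_congr (a : X → A) (b : X → B) (h : ∀ x y, a x = a y ↔ b x = b y) (z : X →₀ ℤ)
    (h0 : mapDomain a z = 0) : mapDomain b z = 0 := by
  classical
  ext t
  rw [Finsupp.mapDomain, Finsupp.sum_apply, Finsupp.zero_apply, Finsupp.sum]
  by_cases ht : ∃ x, b x = t
  · obtain ⟨x, rfl⟩ := ht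
    have h1 := DFunLike.congr_fun h0 (a x)
    rw [Finsupp.mapDomain, Finsupp.sum_apply, Finsupp.zero_apply, Finsupp.sum] at h1
    rw [← h1]
    refine Finset.sum_congr rfl (fun y _ => ?_)
    rw [Finsupp.single_apply, Finsupp.single_apply]
    by_cases hy : b y = b x
    · rw [if_pos hy, if_pos ((h y x).2 hy)]
    · rw [if_neg hy, if_neg (fun h2 => hy ((h y x).1 h2))]
  · refine Finset.sum_eq_zero (fun y _ => ?_)
    rw [Finsupp.single_apply, if_neg (fun h2 => ht ⟨y, h2⟩)]

lemma md_iff (a : X → A) (b : X → B) (h : ∀ x y, a x = a y ↔ b x = b y) (z : X →₀ ℤ) :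
    mapDomain a z = 0 ↔ mapDomain b z = 0 :=
  ⟨md_congr a b h z, md_congr b a (fun x y => (h x y).symm) z⟩

open Classical in
lemma slice (f : X → K) (c : X → C) (z : X →₀ ℤ) (κ : K) (t : C) :
    mapDomain c (Finsupp.filterAddHom (fun v => f v = κ) z) t =
      mapDomain (fun v => (f v, c v)) z (κ, t) := by
  induction z using Finsupp.induction_linear with
  | zero => simp
  | add a b ha hb =>
    rw [map_add, Finsupp.mapDomain_add, Finsupp.add_apply, ha, hb, Finsupp.mapDomain_add,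
      Finsupp.add_apply]
  | single x m =>
    rw [Finsupp.mapDomain_single, Finsupp.single_apply]
    by_cases hx : f x = κ
    · have : (Finsupp.filterAddHom (fun v => f v = κ)) (single x m) = single x m :=
        Finsupp.filter_single_of_pos _ hx
      rw [this, Finsupp.mapDomain_single, Finsupp.single_apply]
      by_cases hc : c x = t
      · rw [if_pos hc, if_pos (by rw [hx, hc])]
      · rw [if_neg hc, if_neg (fun h => hc (Prod.ext_iff.1 h).2)]
    · have : (Finsupp.filterAddHom (fun v => f v = κ)) (single x m) = 0 :=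
        Finsupp.filter_single_of_neg _ hx
      rw [this, Finsupp.mapDomain_zero, Finsupp.zero_apply,
        if_neg (fun h => hx (Prod.ext_iff.1 h).1)]

open Classical in
lemma md_pair (f : X → K) (c : X → C) (z : X →₀ ℤ) :
    mapDomain (fun v => (f v, c v)) z = 0 ↔
      ∀ κ, mapDomain c (Finsupp.filterAddHom (fun v => f v = κ) z) = 0 := by
  constructor
  · intro h κ
    ext t
    rw [slice, h]
    rfl
  · intro h
    ext ⟨κ, t⟩
    rw [← slice, h κ]
    rfl

open Classical in
lemma sum_slices (f : X → K) (z : X →₀ ℤ) (S : Finset K) (hS : ∀ x ∈ z.support, f x ∈ S) :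
    z = ∑ κ ∈ S, Finsupp.filterAddHom (fun v => f v = κ) z := by
  ext v
  rw [Finsupp.finsetSum_apply]
  have h1 : ∀ κ, (Finsupp.filterAddHom (fun v => f v = κ) z) v = if f v = κ then z v else 0 :=
    fun κ => Finsupp.filter_apply _ _ _
  simp only [h1]
  rw [Finset.sum_ite_eq]
  by_cases hv : v ∈ z.support
  · rw [if_pos (hS v hv)]
  · rw [Finsupp.notMem_support_iff.1 hv, ite_self]

open Classical in
lemma all_of (f : X → K) (c : X → C) (z : X →₀ ℤ) (κ0 : K) :
    (mapDomain c z = 0 ∧ ∀ κ, κ ≠ κ0 →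
      mapDomain c (Finsupp.filterAddHom (fun v => f v = κ) z) = 0) ↔
    ∀ κ, mapDomain c (Finsupp.filterAddHom (fun v => f v = κ) z) = 0 := by
  set S : Finset K := insert κ0 (z.support.image f) with hSdef
  have hz := sum_slices f z S (fun x hx =>
    Finset.mem_insert_of_mem (Finset.mem_image_of_mem f hx))
  have hm : mapDomain c z = ∑ κ ∈ S, mapDomain c (Finsupp.filterAddHom (fun v => f v = κ) z) := by
    conv_lhs => rw [hz]
    exact map_sum (Finsupp.mapDomain.addMonoidHom c : (X →₀ ℤ) →+ (C →₀ ℤ)) _ _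
  constructor
  · rintro ⟨h0, h1⟩ κ
    by_cases hκ : κ = κ0
    · subst hκ
      rw [h0, Finset.sum_eq_single κ (fun κ' _ h => h1 κ' h)
        (fun h => absurd (Finset.mem_insert_self _ _) h)] at hm
      exact hm.symm
    · exact h1 κ hκ
  · intro h
    refine ⟨?_, fun κ _ => h κ⟩
    rw [hm]
    exact Finset.sum_eq_zero (fun κ _ => h κ)

open Classical in
/-- the projections -/
noncomputable def pp (f : X → K) (g : X → B) (κ0 κ : K) : (X →₀ ℤ) →+ (B →₀ ℤ) :=
  if κ = κ0 then (Finsupp.mapDomain.addMonoidHom g : (X →₀ ℤ) →+ (B →₀ ℤ))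
  else (Finsupp.mapDomain.addMonoidHom g : (X →₀ ℤ) →+ (B →₀ ℤ)).comp
    (Finsupp.filterAddHom (fun v => f v = κ))

open Classical in
/-- the sections -/
noncomputable def qq (h : K → B → X) (κ0 κ : K) : (B →₀ ℤ) →+ (X →₀ ℤ) :=
  if κ = κ0 then (Finsupp.mapDomain.addMonoidHom (h κ0) : (B →₀ ℤ) →+ (X →₀ ℤ))
  else (Finsupp.mapDomain.addMonoidHom (h κ) : (B →₀ ℤ) →+ (X →₀ ℤ)) -
    (Finsupp.mapDomain.addMonoidHom (h κ0) : (B →₀ ℤ) →+ (X →₀ ℤ))

open Classical in
lemma fil_pos (f : X → K) (h : K → B → X) (hf : ∀ κ b, f (h κ b) = κ) (κ : K) (y : B →₀ ℤ) :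
    Finsupp.filterAddHom (fun v => f v = κ) (mapDomain (h κ) y) = mapDomain (h κ) y := by
  induction y using Finsupp.induction_linear with
  | zero => rw [Finsupp.mapDomain_zero, map_zero]
  | add a b ha hb => rw [Finsupp.mapDomain_add, map_add, ha, hb]
  | single x m =>
    rw [Finsupp.mapDomain_single]
    exact Finsupp.filter_single_of_pos _ (hf κ x)

open Classical in
lemma fil_neg (f : X → K) (h : K → B → X) (hf : ∀ κ b, f (h κ b) = κ) (κ κ' : K) (hκ : κ ≠ κ')
    (y : B →₀ ℤ) :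
    Finsupp.filterAddHom (fun v => f v = κ) (mapDomain (h κ') y) = 0 := by
  induction y using Finsupp.induction_linear with
  | zero => rw [Finsupp.mapDomain_zero, map_zero]
  | add a b ha hb => rw [Finsupp.mapDomain_add, map_add, ha, hb, add_zero]
  | single x m =>
    rw [Finsupp.mapDomain_single]
    exact Finsupp.filter_single_of_neg _ (by rw [hf κ' x]; exact fun h2 => hκ h2.symm)

lemma md_id (g : X → B) (h : B → X) (hg : ∀ b, g (h b) = b) (y : B →₀ ℤ) :
    mapDomain g (mapDomain h y) = y := by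
  rw [← Finsupp.mapDomain_comp]
  have : g ∘ h = id := funext hg
  rw [this, Finsupp.mapDomain_id]

lemma pq_same (f : X → K) (g : X → B) (h : K → B → X) (hf : ∀ κ b, f (h κ b) = κ)
    (hg : ∀ κ b, g (h κ b) = b) (κ0 κ : K) (y : B →₀ ℤ) :
    pp f g κ0 κ (qq h κ0 κ y) = y := by
  classical
  by_cases hκ : κ = κ0
  · rw [pp, qq, if_pos hκ, if_pos hκ]
    exact md_id g (h κ0) (hg κ0) y
  · rw [pp, qq, if_neg hκ, if_neg hκ]
    show mapDomain g (Finsupp.filterAddHom (fun v => f v = κ)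
      (mapDomain (h κ) y - mapDomain (h κ0) y)) = y
    rw [map_sub, fil_pos f h hf, fil_neg f h hf κ κ0 hκ, sub_zero]
    exact md_id g (h κ) (hg κ) y

lemma pq_diff (f : X → K) (g : X → B) (h : K → B → X) (hf : ∀ κ b, f (h κ b) = κ)
    (hg : ∀ κ b, g (h κ b) = b) (κ0 κ κ' : K) (y : B →₀ ℤ) (hκκ : κ ≠ κ') :
    pp f g κ0 κ (qq h κ0 κ' y) = 0 := by
  classical
  by_cases hκ : κ = κ0
  · subst hκ
    rw [pp, qq, if_pos rfl, if_neg (fun h2 => hκκ h2.symm)]
    show (Finsupp.mapDomain.addMonoidHom g : (X →₀ ℤ) →+ (B →₀ ℤ))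
      (mapDomain (h κ') y - mapDomain (h κ) y) = 0
    rw [map_sub]
    show mapDomain g (mapDomain (h κ') y) - mapDomain g (mapDomain (h κ) y) = 0
    rw [md_id g (h κ') (hg κ') y, md_id g (h κ) (hg κ) y, sub_self]
  · rw [pp, if_neg hκ, qq]
    by_cases hκ' : κ' = κ0
    · rw [if_pos hκ']
      show mapDomain g (Finsupp.filterAddHom (fun v => f v = κ) (mapDomain (h κ0) y)) = 0
      rw [fil_neg f h hf κ κ0 hκ, Finsupp.mapDomain_zero]
    · rw [if_neg hκ']
      show mapDomain g (Finsupp.filterAddHom (fun v => f v = κ)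
        (mapDomain (h κ') y - mapDomain (h κ0) y)) = 0
      rw [map_sub, fil_neg f h hf κ κ0 hκ, fil_neg f h hf κ κ' hκκ, sub_zero,
        Finsupp.mapDomain_zero]

lemma p_fin (f : X → K) (g : X → B) (κ0 : K) (z : X →₀ ℤ) :
    ∃ s : Finset K, ∀ κ, κ ∉ s → pp f g κ0 κ z = 0 := by
  classical
  refine ⟨insert κ0 (z.support.image f), fun κ hκ => ?_⟩
  have h1 : κ ≠ κ0 := fun h => hκ (h ▸ Finset.mem_insert_self _ _)
  rw [pp, if_neg h1]
  show mapDomain g (Finsupp.filterAddHom (fun v => f v = κ) z) = 0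
  have h2 : Finsupp.filterAddHom (fun v => f v = κ) z = 0 := by
    ext v
    show Finsupp.filter (fun v => f v = κ) z v = 0
    rw [Finsupp.filter_apply]
    split_ifs with h3
    · by_contra h4
      exact hκ (Finset.mem_insert_of_mem (Finset.mem_image.2
        ⟨v, Finsupp.mem_support_iff.2 h4, h3⟩))
    · rfl
  rw [h2, Finsupp.mapDomain_zero]

lemma p_zero (f : X → K) (g : X → B) (κ0 : K) (z : X →₀ ℤ) :
    pp f g κ0 κ0 z = mapDomain g z := by
  rw [pp, if_pos rfl]; rfl

open Classical in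
lemma p_ne (f : X → K) (g : X → B) (κ0 κ : K) (hκ : κ ≠ κ0) (z : X →₀ ℤ) :
    pp f g κ0 κ z = mapDomain g (Finsupp.filterAddHom (fun v => f v = κ) z) := by
  rw [pp, if_neg hκ]; rfl

end slices

section groups

variable {ι M : Type} [DecidableEq ι] [AddCommGroup M] (β : Finset ι) (s : Finset (Finset ι))
  (W : Finset ι → AddSubgroup M)

/-- restriction -/
def rs (v : VV (insert β s) W) : VV s W :=
  ⟨Function.update (v : Finset ι → M) β 0, by
    intro σ
    by_cases h : σ = β
    · subst h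
      rw [Function.update_self]
      exact ⟨zero_mem _, fun _ => rfl⟩
    · rw [Function.update_of_ne h]
      exact ⟨(v.2 σ).1, fun h2 => (v.2 σ).2 (fun h3 => (Finset.mem_insert.1 h3).elim h h2)⟩⟩

/-- evaluation -/
def ev (v : VV (insert β s) W) : W β := ⟨(v : Finset ι → M) β, (v.2 β).1⟩

/-- extension -/
def ex (w : W β) (v : VV s W) : VV (insert β s) W :=
  ⟨Function.update (v : Finset ι → M) β (w : M), by
    intro σ
    by_cases h : σ = β
    · subst h
      rw [Function.update_self]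
      exact ⟨w.2, fun h2 => absurd (Finset.mem_insert_self _ _) h2⟩
    · rw [Function.update_of_ne h]
      exact ⟨(v.2 σ).1, fun h2 => (v.2 σ).2 (fun h3 => h2 (Finset.mem_insert_of_mem h3))⟩⟩

lemma ev_ex (w : W β) (v : VV s W) : ev β s W (ex β s W w v) = w := by
  apply Subtype.ext
  show Function.update (v : Finset ι → M) β (w : M) β = w
  rw [Function.update_self]

lemma rs_ex (hβ : β ∉ s) (w : W β) (v : VV s W) : rs β s W (ex β s W w v) = v := by
  apply Subtype.ext
  show Function.update (Function.update (v : Finset ι → M) β (w : M)) β 0 = v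
  rw [Function.update_idem]
  have h : (v : Finset ι → M) β = 0 := (v.2 β).2 hβ
  rw [← h, Function.update_eq_self]

lemma rs_apply (v : VV (insert β s) W) (σ : Finset ι) (h : σ ≠ β) :
    (rs β s W v : Finset ι → M) σ = (v : Finset ι → M) σ := by
  show Function.update (v : Finset ι → M) β 0 σ = _
  rw [Function.update_of_ne h]

lemma rs_self (v : VV (insert β s) W) : (rs β s W v : Finset ι → M) β = 0 := by
  show Function.update (v : Finset ι → M) β 0 β = _
  rw [Function.update_self]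

/-- `J` meets `β` -/
lemma mk_meet (J : Finset ι) (hJ : ¬ Disjoint β J) (v w : VV (insert β s) W) :
    (QuotientAddGroup.mk v : VV (insert β s) W ⧸ VJ (insert β s) W J) = QuotientAddGroup.mk w ↔
      (ev β s W v, (QuotientAddGroup.mk (rs β s W v) : VV s W ⧸ VJ s W J)) =
        (ev β s W w, QuotientAddGroup.mk (rs β s W w)) := by
  rw [Prod.mk.injEq, QuotientAddGroup.eq, QuotientAddGroup.eq]
  constructor
  · intro h
    constructor
    · apply Subtype.ext
      have h1 := h β hJ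
      have h2 : -((v : Finset ι → M) β) + (w : Finset ι → M) β = 0 := h1
      exact neg_add_eq_zero.1 h2
    · intro σ hσ
      show -((rs β s W v : Finset ι → M) σ) + (rs β s W w : Finset ι → M) σ = 0
      by_cases hσβ : σ = β
      · rw [hσβ, rs_self, rs_self, neg_zero, add_zero]
      · rw [rs_apply β s W v σ hσβ, rs_apply β s W w σ hσβ]
        exact h σ hσ
  · rintro ⟨h1, h2⟩ σ hσ
    show -((v : Finset ι → M) σ) + (w : Finset ι → M) σ = 0
    by_cases hσβ : σ = β
    · rw [hσβ, neg_add_eq_zero]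
      exact congrArg Subtype.val h1
    · rw [← rs_apply β s W v σ hσβ, ← rs_apply β s W w σ hσβ]
      exact h2 σ hσ

/-- `J` does not meet `β` -/
lemma mk_not (J : Finset ι) (hJ : Disjoint β J) (v w : VV (insert β s) W) :
    (QuotientAddGroup.mk v : VV (insert β s) W ⧸ VJ (insert β s) W J) = QuotientAddGroup.mk w ↔
      (QuotientAddGroup.mk (rs β s W v) : VV s W ⧸ VJ s W J) =
        QuotientAddGroup.mk (rs β s W w) := by
  rw [QuotientAddGroup.eq, QuotientAddGroup.eq]
  constructor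
  · intro h σ hσ
    show -((rs β s W v : Finset ι → M) σ) + (rs β s W w : Finset ι → M) σ = 0
    by_cases hσβ : σ = β
    · rw [hσβ, rs_self, rs_self, neg_zero, add_zero]
    · rw [rs_apply β s W v σ hσβ, rs_apply β s W w σ hσβ]
      exact h σ hσ
  · intro h2 σ hσ
    show -((v : Finset ι → M) σ) + (w : Finset ι → M) σ = 0
    by_cases hσβ : σ = β
    · exact absurd (hσβ ▸ hJ) hσ
    · rw [← rs_apply β s W v σ hσβ, ← rs_apply β s W w σ hσβ]
      exact h2 σ hσ

/-- `J` does not meet `β` -/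
lemma Kr_not (J : Finset ι) (hJ : Disjoint β J) (z : VV (insert β s) W →₀ ℤ) :
    z ∈ Kr (VJ (insert β s) W J) ↔ mapDomain (rs β s W) z ∈ Kr (VJ s W J) := by
  rw [mem_Kr, mem_Kr, ← Finsupp.mapDomain_comp]
  exact md_iff _ _ (fun x y => mk_not β s W J hJ x y) z

/-- `J` meets `β` -/
lemma Kr_meet (J : Finset ι) (hJ : ¬ Disjoint β J) (κ0 : W β) (z : VV (insert β s) W →₀ ℤ) :
    z ∈ Kr (VJ (insert β s) W J) ↔ ∀ κ, pp (ev β s W) (rs β s W) κ0 κ z ∈ Kr (VJ s W J) := by
  classical
  rw [mem_Kr]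
  have h1 := md_iff _ _ (fun x y => mk_meet β s W J hJ x y) z
  rw [h1, md_pair, ← all_of (ev β s W) _ z κ0]
  constructor
  · rintro ⟨h2, h3⟩ κ
    by_cases hκ : κ = κ0
    · rw [hκ, p_zero, mem_Kr, ← Finsupp.mapDomain_comp]
      exact h2
    · rw [p_ne _ _ _ _ hκ, mem_Kr, ← Finsupp.mapDomain_comp]
      exact h3 κ hκ
  · intro h
    constructor
    · have h2 := h κ0
      rw [p_zero, mem_Kr, ← Finsupp.mapDomain_comp] at h2
      exact h2
    · intro κ hκ
      have h2 := h κ
      rw [p_ne _ _ _ _ hκ, mem_Kr, ← Finsupp.mapDomain_comp] at h2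
      exact h2

end groups

/-- the case of the empty set -/
lemma base (h2 : StD2) (h3 : StD3) (ι : Type) [DecidableEq ι] (Δ : Set (Finset ι)) (hΔ : Dn Δ)
    (M : Type) [AddCommGroup M] (W : Finset ι → AddSubgroup M) (L : List (Finset ι))
    (hL : ∀ σ ∈ L, σ ∈ Δ) (I : Finset ι) (j : ℕ) (hj : ¬ Un Δ j I) :
    Ex (fun _ => (⊤ : AddSubgroup (VV (∅ : Finset (Finset ι)) W →₀ ℤ)))
      (fun J => if ∀ σ ∈ L, ¬ Disjoint J σ then Kr (VJ ∅ W J) else ⊤) I j := by
  have hz : ∀ v : VV (∅ : Finset (Finset ι)) W, v = 0 := fun v =>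
    Subtype.ext (funext (fun σ => (v.2 σ).2 (Finset.notMem_empty σ)))
  refine h3 ι (VV (∅ : Finset (Finset ι)) W →₀ ℤ) Unit ℤ
    (fun _ => Finsupp.applyAddHom 0) (fun _ => Finsupp.singleAddHom 0) _
    (fun _ J => if ∀ σ ∈ L, ¬ Disjoint J σ then ⊥ else ⊤) ?_ ?_ ?_ ?_ I j
    (fun _ => h2 ι Δ hΔ L hL I j hj)
  · intro J z
    have h0 : z = 0 ↔ z 0 = 0 := by
      constructor
      · intro h; rw [h]; rfl
      · intro h; ext v; rw [hz v, h]; rfl
    constructor
    · intro h κ
      show Finsupp.applyAddHom 0 z ∈ _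
      split_ifs at h ⊢ with hc
      · rw [mem_Kr] at h
        have h1 := md_congr _ (id : VV (∅ : Finset (Finset ι)) W → VV (∅ : Finset (Finset ι)) W)
          (fun x y => ⟨fun _ => by rw [hz x, hz y], fun _ => by rw [hz x, hz y]⟩) z h
        rw [Finsupp.mapDomain_id] at h1
        exact AddSubgroup.mem_bot.2 (h0.1 h1)
      · exact AddSubgroup.mem_top _
    · intro h
      have h' := h ()
      show z ∈ _
      change Finsupp.applyAddHom 0 z ∈ _ at h'
      split_ifs at h' ⊢ with hc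
      · have h1 : z = 0 := h0.2 (AddSubgroup.mem_bot.1 h')
        rw [h1]; exact zero_mem _
      · exact AddSubgroup.mem_top _
  · intro κ y
    show (single (0 : VV (∅ : Finset (Finset ι)) W) y) 0 = y
    rw [Finsupp.single_eq_same]
  · intro κ κ' y h
    exact absurd rfl h
  · intro z
    exact ⟨{()}, fun κ hκ => absurd (Finset.mem_singleton.2 rfl) hκ⟩

end D4

theorem I_D4 (h2 : StD2) (h3 : StD3) : StD4 := by
  intro ι _ Δ hΔ M _ s
  induction s using Finset.induction_on with
  | empty => exact fun _ W L hL I j hj => D4.base h2 h3 ι Δ hΔ M W L hL I j hj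
  | insert β s hβ ih =>
    intro hs W L hL I j hj
    classical
    have hs' : ∀ σ ∈ s, σ ∈ Δ := fun σ hσ => hs σ (Finset.mem_insert_of_mem hσ)
    have hβΔ : β ∈ Δ := hs β (Finset.mem_insert_self _ _)
    refine h3 ι (VV (insert β s) W →₀ ℤ) (W β) (VV s W →₀ ℤ)
      (fun κ => D4.pp (D4.ev β s W) (D4.rs β s W) 0 κ) (fun κ => D4.qq (D4.ex β s W) 0 κ) _
      (fun κ => if κ = 0 then
        (fun J => if ∀ σ ∈ L, ¬ Disjoint J σ then Kr (VJ s W J) else ⊤) else
        (fun J => if ∀ σ ∈ β :: L, ¬ Disjoint J σ then Kr (VJ s W J) else ⊤)) ?_ ?_ ?_ ?_ I j ?_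
    · intro J z
      by_cases hJL : ∀ σ ∈ L, ¬ Disjoint J σ
      · rw [if_pos hJL]
        by_cases hJβ : Disjoint β J
        · rw [D4.Kr_not β s W J hJβ]
          constructor
          · intro h κ
            by_cases hκ : κ = 0
            · rw [if_pos hκ, if_pos hJL, hκ, D4.p_zero]
              exact h
            · rw [if_neg hκ, if_neg (fun hc => hc β (List.mem_cons_self) hJβ.symm)]
              exact AddSubgroup.mem_top _
          · intro h
            have h1 := h 0
            rw [if_pos rfl, if_pos hJL, D4.p_zero] at h1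
            exact h1
        · rw [D4.Kr_meet β s W J hJβ 0]
          have hJ' : ∀ σ ∈ β :: L, ¬ Disjoint J σ := by
            intro σ hσ
            rcases List.mem_cons.1 hσ with h | h
            · rw [h]; exact fun hc => hJβ hc.symm
            · exact hJL σ h
          refine forall_congr' (fun κ => ?_)
          by_cases hκ : κ = 0
          · rw [if_pos hκ, if_pos hJL]
          · rw [if_neg hκ, if_pos hJ']
      · rw [if_neg hJL]
        refine ⟨fun _ κ => ?_, fun _ => AddSubgroup.mem_top _⟩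
        by_cases hκ : κ = 0
        · rw [if_pos hκ, if_neg hJL]
          exact AddSubgroup.mem_top _
        · rw [if_neg hκ, if_neg (fun hc => hJL (fun σ hσ => hc σ (List.mem_cons_of_mem _ hσ)))]
          exact AddSubgroup.mem_top _
    · intro κ y
      exact D4.pq_same _ _ _ (D4.ev_ex β s W) (D4.rs_ex β s W hβ) 0 κ y
    · intro κ κ' y h
      exact D4.pq_diff _ _ _ (D4.ev_ex β s W) (D4.rs_ex β s W hβ) 0 κ κ' y h
    · intro z
      exact D4.p_fin _ _ 0 z
    · intro κ
      by_cases hκ : κ = 0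
      · have h1 := ih hs' W L hL I j hj
        simp only [if_pos hκ]
        exact h1
      · have h1 := ih hs' W (β :: L) (by
          intro σ hσ
          rcases List.mem_cons.1 hσ with h | h
          · rw [h]; exact hβΔ
          · exact hL σ h) I j hj
        simp only [if_neg hκ]
        exact h1

end Pool.Agent.Work.MP_e9e200_al.UP

end

section

set_option autoImplicit false

namespace Pool.Agent.Work.MP_e9e200_al.UP

open Finsupp

namespace D6

lemma Ch_bot {ι : Type} [DecidableEq ι] {Z : Type} [AddCommGroup Z] {I : Finset ι} {k : ℕ}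
    {c : List ι →₀ Z} : c ∈ Ch (fun _ => (⊥ : AddSubgroup Z)) I k ↔ c = 0 := by
  constructor
  · intro h
    ext l
    exact AddSubgroup.mem_bot.1 (h l).1
  · rintro rfl
    exact zero_mem _

end D6

theorem I_D6 : StD6 := by
  intro ι _ Δ V M _ _ π Vs Ms hanti I hVM hlift m hKM hKV J I' hJ hI' hdisj hΔ k hk c hc hdc
  rw [D6.Ch_bot] at hdc
  have hsub : ∀ l : List ι, (∀ i ∈ l, i ∈ I') → J ∪ l.toFinset ⊆ I := by
    intro l hl
    refine Finset.union_subset hJ (fun i hi => hI' (hl i (List.mem_toFinset.1 hi)))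
  -- the chain in V
  set c1 : List ι →₀ V := Finsupp.mapRange.addMonoidHom π.ker.subtype c with hc1
  have hc1l : ∀ l, c1 l = (c l : V) := fun l => by rw [hc1]; simp
  have hc1m : c1 ∈ Ch (fun K => Vs (J ∪ K)) I' k := by
    intro l
    refine ⟨?_, fun h => (hc l).2 (fun h1 => h ?_)⟩
    · rw [hc1l]
      exact AddSubgroup.mem_addSubgroupOf.1 (hc l).1
    · rw [hc1l, h1]; rfl
  have hdc1 : del V c1 = 0 := by
    rw [hc1, del_mapRange, hdc, map_zero]
  obtain ⟨e, he, hee⟩ := hKV J I' hJ hI' hdisj hΔ k hk c1 hc1m (by rw [hdc1]; exact zero_mem _)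
  rw [D6.Ch_bot, sub_eq_zero] at hee
  set f : List ι →₀ M := Finsupp.mapRange.addMonoidHom π e with hf
  have hfl : ∀ l, f l = π (e l) := fun l => by rw [hf]; simp
  have hfm : f ∈ Ch (fun K => Ms (J ∪ K)) I' (k + 1) := by
    intro l
    by_cases h0 : e l = 0
    · rw [hfl, h0, map_zero]
      exact ⟨zero_mem _, fun h => absurd rfl h⟩
    · refine ⟨?_, fun _ => (he l).2 h0⟩
      rw [hfl]
      exact hVM _ (hsub l ((he l).2 h0).2) _ (he l).1
  have hdf : del M f = 0 := by
    rw [hf, del_mapRange, ← hee]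
    ext l
    have h1 : Finsupp.mapRange.addMonoidHom π c1 l = π (c1 l) := by simp
    rw [h1, hc1l]
    exact (c l).2
  obtain ⟨g, hg, hfg⟩ := hKM J I' hJ hI' hdisj hΔ (k + 1) (by omega) f hfm
    (by rw [hdf]; exact zero_mem _)
  rw [D6.Ch_bot, sub_eq_zero] at hfg
  classical
  -- lift of g
  have hex : ∀ l : List ι, ∃ v : V, v ∈ Vs (J ∪ l.toFinset) ∧ π v = g l ∧ (g l = 0 → v = 0) := by
    intro l
    by_cases h0 : g l = 0
    · exact ⟨0, zero_mem _, by rw [h0, map_zero], fun _ => rfl⟩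
    · obtain ⟨v, hv, hv'⟩ := hlift _ (hsub l ((hg l).2 h0).2) (g l) (hg l).1
      exact ⟨v, hv, hv', fun h => absurd h h0⟩
  choose φ hφ1 hφ2 hφ3 using hex
  let g1 : List ι →₀ V := Finsupp.onFinset g.support φ
    (fun l hl => Finsupp.mem_support_iff.2 (fun h => hl (hφ3 l h)))
  have hg1l : ∀ l, g1 l = φ l := fun l => rfl
  have hg1m : g1 ∈ Ch (fun K => Vs (J ∪ K)) I' (k + 2) := by
    intro l
    rw [hg1l]
    exact ⟨hφ1 l, fun h => (hg l).2 (fun h1 => h (hφ3 l h1))⟩
  have hg1g : Finsupp.mapRange.addMonoidHom π g1 = g := by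
    ext l
    have h1 : Finsupp.mapRange.addMonoidHom π g1 l = π (g1 l) := by simp
    rw [h1, hg1l, hφ2]
  set e1 : List ι →₀ V := e - del V g1 with he1
  have hd1 : del V g1 ∈ Ch (fun K => Vs (J ∪ K)) I' (k + 1) :=
    del_mem (P := fun K => Vs (J ∪ K))
      (fun A B h => hanti _ _ (Finset.union_subset_union_right h)) hg1m
  have he1m : e1 ∈ Ch (fun K => Vs (J ∪ K)) I' (k + 1) := sub_mem he hd1
  have hpe1 : Finsupp.mapRange.addMonoidHom π e1 = 0 := by
    rw [he1, map_sub, ← del_mapRange, hg1g, ← hfg, ← hf, sub_self]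
  have hker : ∀ l, e1 l ∈ π.ker := by
    intro l
    have h1 : Finsupp.mapRange.addMonoidHom π e1 l = π (e1 l) := by simp
    rw [AddMonoidHom.mem_ker, ← h1, hpe1, Finsupp.zero_apply]
  let e2 : List ι →₀ π.ker := Finsupp.onFinset e1.support (fun l => ⟨e1 l, hker l⟩)
    (fun l hl => Finsupp.mem_support_iff.2 (fun h => hl (Subtype.ext h)))
  have he2l : ∀ l, (e2 l : V) = e1 l := fun l => rfl
  have he2e : Finsupp.mapRange.addMonoidHom π.ker.subtype e2 = e1 := by
    ext l
    have h1 : Finsupp.mapRange.addMonoidHom π.ker.subtype e2 l = (e2 l : V) := by simp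
    rw [h1, he2l]
  refine ⟨e2, ?_, ?_⟩
  · intro l
    refine ⟨AddSubgroup.mem_addSubgroupOf.2 (he1m l).1, fun h => (he1m l).2 (fun h1 => h ?_)⟩
    exact Subtype.ext h1
  · rw [D6.Ch_bot]
    have h2 : Finsupp.mapRange.addMonoidHom π.ker.subtype (c - del π.ker e2) = 0 := by
      rw [map_sub, ← del_mapRange, he2e, he1, map_sub, del_del, sub_zero, ← hc1, hee, sub_self]
    ext l
    have h3 : Finsupp.mapRange.addMonoidHom π.ker.subtype (c - del π.ker e2) l =
      ((c - del π.ker e2) l : V) := by simp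
    rw [h2] at h3
    exact h3.symm

end Pool.Agent.Work.MP_e9e200_al.UP

end

section

/-!
# Project UP: item D7
-/

set_option autoImplicit false

namespace Pool.Agent.Work.MP_e9e200_al.UP

open Finsupp

namespace D7

variable {ι : Type} [DecidableEq ι] {M : Type} [AddCommGroup M]

/-- the boundary of a chain of length one -/
lemma del_one (Ms : Finset ι → AddSubgroup M) (J I : Finset ι) (e : List ι →₀ M)
    (he : e ∈ Ch (fun K => Ms (J ∪ K)) I 1) :
    ∃ g : ι → M, (∀ i ∈ I, g i ∈ Ms (J ∪ {i})) ∧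
      del M e = single ([] : List ι) (∑ i ∈ I, g i) := by
  refine Ch_induction (p := fun e => ∃ g : ι → M, (∀ i ∈ I, g i ∈ Ms (J ∪ {i})) ∧
      del M e = single ([] : List ι) (∑ i ∈ I, g i)) ?_ ?_ ?_ he
  · exact ⟨fun _ => 0, fun i _ => zero_mem _, by simp⟩
  · rintro a b ⟨g, hg, hg'⟩ ⟨h, hh, hh'⟩
    refine ⟨fun i => g i + h i, fun i hi => add_mem (hg i hi) (hh i hi), ?_⟩
    rw [map_add, hg', hh', Finset.sum_add_distrib, Finsupp.single_add]
  · intro l z hz hl hI
    obtain ⟨i, rfl⟩ := List.length_eq_one_iff.1 hl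
    have hi : i ∈ I := hI i (by simp)
    refine ⟨fun j => if j = i then z else 0, fun j _ => ?_, ?_⟩
    · dsimp only
      split_ifs with h
      · subst h
        simpa using hz
      · exact zero_mem _
    · rw [del_single_cons, del_single_nil, map_zero, sub_zero]
      rw [Finset.sum_ite_eq' I i (fun _ => z), if_pos hi]

/-- the step of the induction -/
lemma step (Δ : Set (Finset ι)) (Ms : Finset ι → AddSubgroup M) (I : Finset ι)
    (hK : KK 1 Ms Δ I) (J : Finset ι) (hJ : J ⊆ I) (hn : I \ J ∉ Δ) (x : M) (hx : x ∈ Ms J) :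
    ∃ g : ι → M, (∀ i ∈ I \ J, g i ∈ Ms (J ∪ {i})) ∧ x = ∑ i ∈ I \ J, g i := by
  have h0 := hK J (I \ J) hJ Finset.sdiff_subset Finset.disjoint_sdiff hn 0 Nat.zero_lt_one
    (single ([] : List ι) x) (Ch_single (by simpa using hx) rfl (by simp))
    (by rw [del_single_nil]; exact zero_mem _)
  obtain ⟨e, he, he'⟩ := h0
  obtain ⟨g, hg, hg'⟩ := del_one Ms J (I \ J) e he
  refine ⟨g, hg, ?_⟩
  have h1 := (he' []).1
  rw [AddSubgroup.mem_bot, hg', Finsupp.sub_apply, Finsupp.single_eq_same,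
    Finsupp.single_eq_same, sub_eq_zero] at h1
  exact h1

end D7

/-- item D7 -/
theorem I_D7 : StD7 := by
  intro ι _ Δ M _ Ms I hK
  have main : ∀ n : ℕ, ∀ J ⊆ I, (I \ J).card = n → ∀ x ∈ Ms J,
      ∃ f : Finset ι → M, (∀ σ, f σ ∈ Ms (I \ σ)) ∧
        (∀ σ, f σ ≠ 0 → σ ∈ Δ ∧ σ ⊆ I ∧ Disjoint σ J) ∧ x = ∑ σ ∈ I.powerset, f σ := by
    intro n
    induction n using Nat.strong_induction_on with
    | _ n ih =>
      intro J hJ hn x hx
      by_cases hD : I \ J ∈ Δ
      · refine ⟨fun σ => if σ = I \ J then x else 0, fun σ => ?_, fun σ hσ => ?_, ?_⟩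
        · dsimp only
          split_ifs with h
          · subst h
            rw [Finset.sdiff_sdiff_eq_self hJ]
            exact hx
          · exact zero_mem _
        · dsimp only at hσ
          split_ifs at hσ with h
          · subst h
            exact ⟨hD, Finset.sdiff_subset, Finset.sdiff_disjoint⟩
          · exact absurd rfl hσ
        · rw [Finset.sum_ite_eq' I.powerset (I \ J) (fun _ => x),
            if_pos (Finset.mem_powerset.2 Finset.sdiff_subset)]
      · obtain ⟨g, hg, hx'⟩ := D7.step Δ Ms I hK J hJ hD x hx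
        have key : ∀ i ∈ I \ J, ∃ f : Finset ι → M, (∀ σ, f σ ∈ Ms (I \ σ)) ∧
            (∀ σ, f σ ≠ 0 → σ ∈ Δ ∧ σ ⊆ I ∧ Disjoint σ (J ∪ {i})) ∧
              g i = ∑ σ ∈ I.powerset, f σ := by
          intro i hi
          have hiI : i ∈ I := (Finset.mem_sdiff.1 hi).1
          have hiJ : i ∉ J := (Finset.mem_sdiff.1 hi).2
          refine ih ((I \ (J ∪ {i})).card) ?_ (J ∪ {i})
            (Finset.union_subset hJ (Finset.singleton_subset_iff.2 hiI)) rfl (g i) (hg i hi)
          rw [← hn]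
          refine Finset.card_lt_card ?_
          refine ⟨Finset.sdiff_subset_sdiff (Finset.Subset.refl _) Finset.subset_union_left,
            fun h => ?_⟩
          have h1 := h hi
          rw [Finset.mem_sdiff] at h1
          exact h1.2 (Finset.mem_union_right _ (Finset.mem_singleton_self i))
        classical
        choose! F hF1 hF2 hF3 using key
        refine ⟨fun σ => ∑ i ∈ I \ J, F i σ, fun σ => ?_, fun σ hσ => ?_, ?_⟩
        · exact sum_mem (fun i hi => hF1 i hi σ)
        · obtain ⟨i, hi, hne⟩ := Finset.exists_ne_zero_of_sum_ne_zero hσ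
          obtain ⟨h1, h2, h3⟩ := hF2 i hi σ hne
          exact ⟨h1, h2, Finset.disjoint_of_subset_right Finset.subset_union_left h3⟩
        · rw [hx', Finset.sum_comm]
          exact Finset.sum_congr rfl (fun i hi => hF3 i hi)
  intro J hJ x hx
  exact main _ J hJ rfl x hx

end Pool.Agent.Work.MP_e9e200_al.UP

end

section

/-!
# Project UP, item E3: from levels to germs
-/

set_option autoImplicit false

namespace Pool.Agent.Work.MP_e9e200_al.UP

namespace E3

open Finsupp

/-- the evaluation at `b` and `t` -/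
noncomputable def ev {G : Type} [Group G] {D : Type} (L : Lev G D) (n : ℕ → ℕ) (p : ℕ)
    (b : Fin (n p)) (t : ℕ) : L.Zg n p →+ MonoidAlgebra ℤ L.S where
  toFun := fun z => z b t
  map_zero' := rfl
  map_add' := fun _ _ => rfl

lemma ev_apply {G : Type} [Group G] {D : Type} (L : Lev G D) (n : ℕ → ℕ) (p : ℕ)
    (b : Fin (n p)) (t : ℕ) (z : L.Zg n p) : ev L n p b t z = z b t := rfl

/-- finitely many thresholds -/
lemma sup_bound {α : Type} [Zero α] {D : Type} (c : List D →₀ α) (P : List D → ℕ → Prop)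
    (h0 : ∀ l, c l = 0 → ∀ t, P l t) (h : ∀ l, ∃ t0 : ℕ, ∀ t : ℕ, t0 ≤ t → P l t) :
    ∃ t1 : ℕ, ∀ t : ℕ, t1 ≤ t → ∀ l, P l t := by
  classical
  choose t0 ht0 using h
  refine ⟨c.support.sup t0, fun t ht l => ?_⟩
  by_cases hl : l ∈ c.support
  · exact ht0 l t (le_trans (Finset.le_sup (f := t0) hl) ht)
  · exact h0 l (Finsupp.notMem_support_iff.1 hl) t

end E3

open E3 in
theorem I_E3 : StE3 := by
  intro G _ D _ _ L hL m hLvl n δ I hI p F q hq c hc hdc
  classical
  -- the components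
  have hcb : ∀ (b : Fin (n p)) (t : ℕ), Finsupp.mapRange.addMonoidHom (ev L n p b t) c ∈
      Ch (fun _ => (⊤ : AddSubgroup (MonoidAlgebra ℤ L.S))) I q := by
    intro b t l
    refine ⟨AddSubgroup.mem_top _, fun h => (hc l).2 (fun h0 => h ?_)⟩
    change ev L n p b t (c l) = 0
    rw [h0, map_zero]
  have key : ∀ b : Fin (n p), ∃ t0 : ℕ, ∀ t : ℕ, ∃ e ∈
      Ch (fun _ => (⊤ : AddSubgroup (MonoidAlgebra ℤ L.S))) I (q + 1), t0 ≤ t →
      Finsupp.mapRange.addMonoidHom (ev L n p b t) c - del (MonoidAlgebra ℤ L.S) e ∈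
        Ch (fun J => (KS L.S (L.N ((t : ℤ) • L.e + (F - ind J) - δ p b))).toAddSubgroup) I q := by
    intro b
    obtain ⟨t2, ht2⟩ := hLvl I hI q hq (F - δ p b)
    obtain ⟨t1, ht1⟩ := sup_bound (del (L.Zg n p) c)
      (fun l t => (del (L.Zg n p) c) l b t ∈
        KS L.S (L.N ((t : ℤ) • L.e + (F - ind l.toFinset) - δ p b)))
      (by
        intro l hl t
        rw [hl]
        exact zero_mem _)
      (fun l => (hdc l).1 b)
    refine ⟨max t1 t2, fun t => ?_⟩
    by_cases ht : max t1 t2 ≤ t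
    · have e1 : ∀ J : Finset D, (t : ℤ) • L.e + (F - δ p b) - ind J =
          (t : ℤ) • L.e + (F - ind J) - δ p b := fun J => by abel
      have hEx := ht2 t (le_trans (le_max_right _ _) ht) _ (hcb b t) (by
        intro l
        constructor
        · rw [del_mapRange]
          change (del (L.Zg n p) c) l b t ∈
            KS L.S (L.N ((t : ℤ) • L.e + (F - δ p b) - ind l.toFinset))
          rw [e1]
          exact ht1 t (le_trans (le_max_left _ _) ht) l
        · intro h
          refine (hdc l).2 (fun h0 => h ?_)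
          rw [del_mapRange]
          change ev L n p b t ((del (L.Zg n p) c) l) = 0
          rw [h0, map_zero])
      obtain ⟨e, he, hce⟩ := hEx
      refine ⟨e, he, fun _ => ?_⟩
      refine Ch_mono (fun J => ?_) hce
      rw [e1]
    · exact ⟨0, zero_mem _, fun h => absurd h ht⟩
  choose t0 e he hce using key
  have hfin : (Function.support (fun (l : List D) => (fun b t => e b t l : L.Zg n p))).Finite := by
    refine (List.finite_length_eq D (q + 1)).subset ?_
    intro l hl
    rw [Function.mem_support] at hl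
    have : ∃ b t, e b t l ≠ 0 := by
      by_contra hcon
      push Not at hcon
      exact hl (by funext b t; exact hcon b t)
    obtain ⟨b, t, hbt⟩ := this
    exact ((he b t l).2 hbt).1
  let E : List D →₀ L.Zg n p := Finsupp.ofSupportFinite _ hfin
  have hE : ∀ l b t, E l b t = e b t l := fun l b t => rfl
  have hEm : ∀ b t, Finsupp.mapRange.addMonoidHom (ev L n p b t) E = e b t := by
    intro b t
    ext1 l
    exact hE l b t
  have hECh : E ∈ Ch (fun _ => (⊤ : AddSubgroup (L.Zg n p))) I (q + 1) := by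
    intro l
    refine ⟨AddSubgroup.mem_top _, fun h => ?_⟩
    have : ∃ b t, e b t l ≠ 0 := by
      by_contra hcon
      push Not at hcon
      exact h (by funext b t; exact hcon b t)
    obtain ⟨b, t, hbt⟩ := this
    exact (he b t l).2 hbt
  refine ⟨E, hECh, fun l => ⟨?_, ?_⟩⟩
  · intro b
    refine ⟨t0 b, fun t ht => ?_⟩
    have h1 := (hce b t ht l).1
    have h2 : (Finsupp.mapRange.addMonoidHom (ev L n p b t) c -
        del (MonoidAlgebra ℤ L.S) (e b t)) l = (c - del (L.Zg n p) E) l b t := by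
      rw [← hEm b t, del_mapRange, ← map_sub]
      rfl
    rw [h2] at h1
    exact h1
  · have h3 := del_mem (P := fun _ => (⊤ : AddSubgroup (L.Zg n p))) (fun _ _ _ => le_refl _) hECh
    have h4 : c - del (L.Zg n p) E ∈ Ch (fun _ => (⊤ : AddSubgroup (L.Zg n p))) I q :=
      sub_mem hc h3
    exact (h4 l).2

end Pool.Agent.Work.MP_e9e200_al.UP

end

section

/-!
# Project UP: item E6
-/

set_option autoImplicit false

namespace Pool.Agent.Work.MP_e9e200_al.UP

open Finsupp

theorem I_E6 : StE6 := by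
  classical
  intro G _ D _ L hL n δ M m H
  have key : ∀ i < m, ∃ t0 : ℕ, ∀ t : ℕ, t0 ≤ t → ∀ x, L.LCyc δ M t i x →
      L.LBd δ M (t + 1) i x → L.LBd δ M t i x := by
    intro i hi
    by_contra hcon
    push Not at hcon
    have hc : ∀ t : ℕ, ∃ x : Fin (n i) → MonoidAlgebra ℤ L.S, L.LCyc δ M t i x ∧
        L.LBd δ M (t + 1) i x ∧
        ((∃ x', L.LCyc δ M t i x' ∧ L.LBd δ M (t + 1) i x' ∧ ¬ L.LBd δ M t i x') →
          ¬ L.LBd δ M t i x) := by
      intro t
      by_cases hb : ∃ x', L.LCyc δ M t i x' ∧ L.LBd δ M (t + 1) i x' ∧ ¬ L.LBd δ M t i x'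
      · obtain ⟨x', h1, h2, h3⟩ := hb
        exact ⟨x', h1, h2, fun _ => h3⟩
      · refine ⟨0, ?_, ?_, fun h => absurd h hb⟩
        · cases i with
          | zero => exact trivial
          | succ j =>
            intro b
            rw [map_zero]
            exact zero_mem _
        · refine ⟨0, fun b => ?_⟩
          rw [map_zero]
          show (0 : MonoidAlgebra ℤ L.S) - 0 ∈ _
          rw [sub_zero]
          exact zero_mem _
    choose x hx1 hx2 hx3 using hc
    choose y hy using hx2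
    have hz : Cyc (L.dg M) (L.Rg δ) i 0 (fun b t => x t b) := by
      cases i with
      | zero => exact trivial
      | succ j =>
        intro b
        refine ⟨0, fun t _ => ?_⟩
        have h1 := hx1 t b
        rw [add_zero]
        exact h1
    have hw : (fun b t => x t b : L.Zg n i) - L.dg M i (fun a t => y t a) ∈
        L.Rg δ i (0 + L.e) := by
      intro b
      refine ⟨0, fun t _ => ?_⟩
      have h1 := hy t b
      have h2 : (t : ℤ) • L.e + (0 + L.e) - δ i b = ((t + 1 : ℕ) : ℤ) • L.e - δ i b := by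
        rw [zero_add]
        push_cast
        rw [add_smul, one_smul]
      rw [h2]
      exact h1
    obtain ⟨w, hw'⟩ := H i hi 0 _ hz ⟨_, hw⟩
    choose t1 ht1 using hw'
    obtain ⟨t, ht, x', h1, h2, h3⟩ := hcon (Finset.univ.sup t1)
    refine hx3 t ⟨x', h1, h2, h3⟩ ⟨fun a => w a t, fun b => ?_⟩
    have h4 := ht1 b t (le_trans (Finset.le_sup (Finset.mem_univ b)) ht)
    rw [add_zero] at h4
    exact h4
  choose! t0 ht0 using key
  refine ⟨(Finset.range m).sup t0, fun t ht i hi x h1 h2 => ?_⟩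
  exact ht0 i hi t (le_trans (Finset.le_sup (Finset.mem_range.2 hi)) ht) x h1 h2

end Pool.Agent.Work.MP_e9e200_al.UP

end

section

/-!
# Project UP, item FG: monoids defined by integral characters are finitely generated
-/

set_option autoImplicit false

namespace Pool.Agent.Work.MP_e9e200_al.UP

namespace FG

/-- subgroups of finitely generated abelian groups are finitely generated -/
theorem sub_fg (Q : Type) [CommGroup Q] [Group.FG Q] (K : Subgroup Q) : K.FG := by
  have : AddGroup.FG (Additive Q) := inferInstance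
  have : Module.Finite ℤ (Additive Q) := Module.Finite.iff_addGroup_fg.2 inferInstance
  have : IsNoetherian ℤ (Additive Q) := isNoetherian_of_isNoetherianRing_of_finite ℤ _
  have h := IsNoetherian.noetherian (AddSubgroup.toIntSubmodule (Subgroup.toAddSubgroup K))
  rw [Submodule.fg_iff_addSubgroup_fg] at h
  exact (Subgroup.fg_iff_add_fg K).2 h

end FG

open FG in
theorem I_FG : StFG := by
  intro Q _ _ L _ u hu QS hQS
  classical
  have := Fintype.ofFinite L
  rw [Monoid.fg_iff_submonoid_fg]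
  have hu1 : ∀ l, u l 1 = 0 := fun l => by
    have := hu l 1 1
    rw [one_mul] at this
    omega
  have huinv : ∀ l q, u l q⁻¹ = - u l q := fun l q => by
    have := hu l q q⁻¹
    rw [mul_inv_cancel, hu1] at this
    omega
  -- the image
  let U : Q → (L → ℕ) := fun q l => (u l q).toNat
  have hUmul : ∀ a ∈ QS, ∀ b ∈ QS, U (a * b) = U a + U b := by
    intro a ha b hb
    funext l
    have h1 := (hQS a).1 ha l
    have h2 := (hQS b).1 hb l
    show (u l (a * b)).toNat = (u l a).toNat + (u l b).toNat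
    rw [hu l a b]
    omega
  let P : AddSubmonoid (L → ℕ) :=
    { carrier := {x | ∃ q ∈ QS, U q = x}
      zero_mem' := ⟨1, QS.one_mem, by funext l; show (u l 1).toNat = 0; rw [hu1]; rfl⟩
      add_mem' := by
        rintro _ _ ⟨a, ha, rfl⟩ ⟨b, hb, rfl⟩
        exact ⟨a * b, QS.mul_mem ha hb, hUmul a ha b hb⟩ }
  have hP : P.FG := by
    apply AddSubmonoid.fg_of_subtractive
    rintro _ ⟨a, ha, rfl⟩ y ⟨b, hb, hb2⟩
    have h3 : ∀ l, u l (a⁻¹ * b) = (y l : ℤ) := by
      intro l
      have h4 := congrFun hb2 l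
      have h5 : (u l b).toNat = (u l a).toNat + y l := h4
      have h1 := (hQS a).1 ha l
      have h2 := (hQS b).1 hb l
      rw [hu, huinv]
      omega
    refine ⟨a⁻¹ * b, (hQS _).2 fun l => ?_, ?_⟩
    · rw [h3]
      exact Int.natCast_nonneg _
    · funext l
      show (u l (a⁻¹ * b)).toNat = y l
      rw [h3]
      rfl
  obtain ⟨S0, hS0⟩ := hP
  have hlift : ∀ x ∈ S0, ∃ q ∈ QS, U q = x := by
    intro x hx
    have : x ∈ AddSubmonoid.closure (S0 : Set (L → ℕ)) := AddSubmonoid.subset_closure hx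
    rw [hS0] at this
    exact this
  choose! g hg1 hg2 using hlift
  -- the kernel
  let K : Subgroup Q :=
    { carrier := {q | ∀ l, u l q = 0}
      one_mem' := hu1
      mul_mem' := by
        intro a b ha hb l
        rw [hu, ha l, hb l, add_zero]
      inv_mem' := by
        intro a ha l
        rw [huinv, ha l, neg_zero] }
  obtain ⟨S1, hS1⟩ := (Subgroup.fg_iff_submonoid_fg K).1 (sub_fg Q K)
  refine ⟨S0.image g ∪ S1, le_antisymm ?_ ?_⟩
  · rw [Submonoid.closure_le]
    intro q hq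
    rw [Finset.coe_union, Finset.coe_image, Set.mem_union] at hq
    rcases hq with ⟨x, hx, rfl⟩ | hq
    · exact hg1 x hx
    · have h1 : q ∈ Submonoid.closure (S1 : Set Q) := Submonoid.subset_closure hq
      rw [hS1] at h1
      have h2 : ∀ l, u l q = 0 := h1
      exact (hQS q).2 fun l => (h2 l).ge
  · intro q hq
    have key : ∀ x ∈ AddSubmonoid.closure (S0 : Set (L → ℕ)),
        ∃ q' ∈ Submonoid.closure ((S0.image g ∪ S1 : Finset Q) : Set Q), q' ∈ QS ∧ U q' = x := by
      intro x hx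
      induction hx using AddSubmonoid.closure_induction with
      | mem x hx =>
        refine ⟨g x, Submonoid.subset_closure ?_, hg1 x hx, hg2 x hx⟩
        rw [Finset.coe_union, Finset.coe_image]
        exact Or.inl ⟨x, hx, rfl⟩
      | zero =>
        refine ⟨1, Submonoid.one_mem _, QS.one_mem, ?_⟩
        funext l
        show (u l 1).toNat = 0
        rw [hu1]
        rfl
      | add x y _ _ hx hy =>
        obtain ⟨a, ha1, ha2, ha3⟩ := hx
        obtain ⟨b, hb1, hb2, hb3⟩ := hy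
        exact ⟨a * b, Submonoid.mul_mem _ ha1 hb1, QS.mul_mem ha2 hb2, by
          rw [hUmul a ha2 b hb2, ha3, hb3]⟩
    have hUq : U q ∈ AddSubmonoid.closure (S0 : Set (L → ℕ)) := by
      rw [hS0]
      exact ⟨q, hq, rfl⟩
    obtain ⟨q', h1, h2, h3⟩ := key _ hUq
    have h4 : q'⁻¹ * q ∈ K := by
      intro l
      have h5 := congrFun h3 l
      have h6 : (u l q').toNat = (u l q).toNat := h5
      have h7 := (hQS q').1 h2 l
      have h8 := (hQS q).1 hq l
      rw [hu, huinv]
      omega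
    have h5 : q'⁻¹ * q ∈ Submonoid.closure ((S0.image g ∪ S1 : Finset Q) : Set Q) := by
      have h6 : q'⁻¹ * q ∈ Submonoid.closure (S1 : Set Q) := by
        rw [hS1]
        exact h4
      refine Submonoid.closure_mono ?_ h6
      rw [Finset.coe_union]
      exact Set.subset_union_right
    have h6 := Submonoid.mul_mem _ h1 h5
    rwa [mul_inv_cancel_left] at h6

end Pool.Agent.Work.MP_e9e200_al.UP

end

section

set_option autoImplicit false

namespace Pool.Agent.Work.MP_e9e200_al.UP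

namespace KS1

variable {G : Type} [Group G]

/-- the projection to cosets -/
noncomputable def f (S : Submonoid G) (N : Subgroup G) (x : MonoidAlgebra ℤ S) : (G ⧸ N) →₀ ℤ :=
  Finsupp.mapDomain (fun s : S => ((s : G) : G ⧸ N)) x.coeff

lemma f_zero (S : Submonoid G) (N : Subgroup G) : f S N 0 = 0 := by
  simp [f]

lemma f_add (S : Submonoid G) (N : Subgroup G) (x y : MonoidAlgebra ℤ S) :
    f S N (x + y) = f S N x + f S N y := by
  simp [f, Finsupp.mapDomain_add]

lemma f_single (S : Submonoid G) (N : Subgroup G) (s : S) (k : ℤ) :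
    f S N (MonoidAlgebra.single s k) = Finsupp.single ((s : G) : G ⧸ N) k := by
  simp [f, Finsupp.mapDomain_single]

lemma f_sub (S : Submonoid G) (N : Subgroup G) (x y : MonoidAlgebra ℤ S) :
    f S N (x - y) = f S N x - f S N y := by
  rw [eq_sub_iff_add_eq, ← f_add, sub_add_cancel]

lemma single_mul (S : Submonoid G) (s n : S) (k : ℤ) :
    (MonoidAlgebra.single s k : MonoidAlgebra ℤ S) * (MonoidAlgebra.of ℤ S n - 1) =
      MonoidAlgebra.single (s * n) k - MonoidAlgebra.single s k := by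
  rw [mul_sub, mul_one, MonoidAlgebra.of_apply, MonoidAlgebra.single_mul_single, mul_one]

lemma gen (S : Submonoid G) (N : Subgroup G) (n : S) (hn : (n : G) ∈ N)
    (y : MonoidAlgebra ℤ S) : f S N (y * (MonoidAlgebra.of ℤ S n - 1)) = 0 := by
  induction y using MonoidAlgebra.induction_linear with
  | zero => rw [zero_mul, f_zero]
  | add a b ha hb => rw [add_mul, f_add, ha, hb, add_zero]
  | single s k =>
    rw [single_mul, f_sub, f_single, f_single]
    have : (((s * n : S) : G) : G ⧸ N) = ((s : G) : G ⧸ N) := by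
      rw [QuotientGroup.eq]
      simpa [mul_assoc] using hn
    rw [this, sub_self]

lemma out_mem (S : Submonoid G) (N : Subgroup G) (hN : ∀ n ∈ N, n ∈ S) (s : S) :
    ((s : G) : G ⧸ N).out ∈ S := by
  have h : ((s : G) : G ⧸ N) = ((((s : G) : G ⧸ N).out : G) : G ⧸ N) := by
    rw [QuotientGroup.out_eq']
  rw [QuotientGroup.eq] at h
  have := S.mul_mem s.2 (hN _ h)
  simpa using this

open Classical in
/-- the representative of a coset -/
noncomputable def h (S : Submonoid G) (N : Subgroup G) (c : G ⧸ N) : S :=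
  if hc : c.out ∈ S then ⟨c.out, hc⟩ else 1

/-- the representative of the coset of an element -/
noncomputable def rep (S : Submonoid G) (N : Subgroup G) (s : S) : S :=
  h S N ((s : G) : G ⧸ N)

lemma rep_coe (S : Submonoid G) (N : Subgroup G) (hN : ∀ n ∈ N, n ∈ S) (s : S) :
    (rep S N s : G) = ((s : G) : G ⧸ N).out := by
  rw [rep, h, dif_pos (out_mem S N hN s)]

lemma single_sub (S : Submonoid G) (N : Subgroup G) (hN : ∀ n ∈ N, n ∈ S) (s : S) (k : ℤ) :
    (MonoidAlgebra.single s k - MonoidAlgebra.single (rep S N s) k : MonoidAlgebra ℤ S) ∈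
      KS S N := by
  have h1 : ((((s : G) : G ⧸ N).out : G) : G ⧸ N) = ((s : G) : G ⧸ N) := by
    rw [QuotientGroup.out_eq']
  rw [QuotientGroup.eq] at h1
  have h2 : (rep S N s) * (⟨_, hN _ h1⟩ : S) = s := by
    apply Subtype.ext
    rw [Submonoid.coe_mul, rep_coe S N hN]
    simp
  have h3 := single_mul S (rep S N s) (⟨_, hN _ h1⟩ : S) k
  rw [h2] at h3
  rw [← h3, ← smul_eq_mul]
  exact Submodule.smul_mem _ _ (Submodule.subset_span ⟨_, h1, rfl⟩)

/-- replace every element by its representative -/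
noncomputable def r (S : Submonoid G) (N : Subgroup G) (x : MonoidAlgebra ℤ S) :
    MonoidAlgebra ℤ S :=
  MonoidAlgebra.ofCoeff (Finsupp.mapDomain (rep S N) x.coeff)

lemma sub_r (S : Submonoid G) (N : Subgroup G) (hN : ∀ n ∈ N, n ∈ S) (x : MonoidAlgebra ℤ S) :
    x - r S N x ∈ KS S N := by
  induction x using MonoidAlgebra.induction_linear with
  | zero => simp [r]
  | add a b ha hb =>
    have : a + b - r S N (a + b) = (a - r S N a) + (b - r S N b) := by
      have : r S N (a + b) = r S N a + r S N b := by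
        apply MonoidAlgebra.ext
        simp [r, Finsupp.mapDomain_add]
      rw [this]; abel
    rw [this]
    exact Submodule.add_mem _ ha hb
  | single s k =>
    have : r S N (MonoidAlgebra.single s k) = MonoidAlgebra.single (rep S N s) k := by
      apply MonoidAlgebra.ext
      simp [r, Finsupp.mapDomain_single]
    rw [this]
    exact single_sub S N hN s k

lemma r_eq (S : Submonoid G) (N : Subgroup G) (x : MonoidAlgebra ℤ S) (hx : f S N x = 0) :
    r S N x = 0 := by
  apply MonoidAlgebra.ext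
  have : Finsupp.mapDomain (rep S N) x.coeff = Finsupp.mapDomain (h S N) (f S N x) := by
    rw [f, ← Finsupp.mapDomain_comp]
    rfl
  simp [r, this, hx]

end KS1

open KS1 in
theorem I_KS1 : StKS1 := by
  intro G _ S N hN x
  constructor
  · intro hx
    have key : ∀ y : MonoidAlgebra ℤ S, f S N (y * x) = 0 := by
      refine Submodule.span_induction (p := fun x _ => ∀ y : MonoidAlgebra ℤ S,
        f S N (y * x) = 0) ?_ ?_ ?_ ?_ hx
      · rintro _ ⟨n, hn, rfl⟩ y
        exact gen S N n hn y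
      · intro y; rw [mul_zero, f_zero]
      · intro a b _ _ ha hb y
        rw [mul_add, f_add, ha, hb, add_zero]
      · intro a b _ hb y
        rw [smul_eq_mul, ← mul_assoc]
        exact hb _
    simpa [f] using key 1
  · intro hx
    have h1 := sub_r S N hN x
    rwa [r_eq S N x hx, sub_zero] at h1

end Pool.Agent.Work.MP_e9e200_al.UP

end

section

set_option autoImplicit false

namespace Pool.Agent.Work.MP_e9e200_al.UP

open Finsupp

namespace T3

section cone

variable {ι : Type}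

/-- the shifted groups -/
def Zs (Z : ℕ → Type) : ℕ → Type
  | 0 => PUnit
  | p + 1 => Z p

instance instZs (Z : ℕ → Type) [∀ p, AddCommGroup (Z p)] : ∀ p, AddCommGroup (Zs Z p)
  | 0 => inferInstanceAs (AddCommGroup PUnit)
  | p + 1 => inferInstanceAs (AddCommGroup (Z p))

/-- the cone -/
def Zc (Z : ℕ → Type) (p : ℕ) : Type := Z p × Zs Z p

instance instZc (Z : ℕ → Type) [∀ p, AddCommGroup (Z p)] (p : ℕ) : AddCommGroup (Zc Z p) :=
  inferInstanceAs (AddCommGroup (Z p × Zs Z p))

variable {Z : ℕ → Type} [∀ p, AddCommGroup (Z p)] (d : ∀ p, Z (p + 1) →+ Z p)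
  (R : ∀ p, (ι → ℤ) → AddSubgroup (Z p)) (e : ι → ℤ)

/-- the differential of the cone -/
def dc : ∀ p, Zc Z (p + 1) →+ Zc Z p
  | 0 => (AddMonoidHom.prod ((d 0).comp (AddMonoidHom.fst (Z 1) (Z 0)) - AddMonoidHom.snd (Z 1) (Z 0))
      (0 : Z 1 × Z 0 →+ Zs Z 0) : Z 1 × Z 0 →+ Z 0 × Zs Z 0)
  | p + 1 => (AddMonoidHom.prod ((d (p + 1)).comp (AddMonoidHom.fst (Z (p + 2)) (Z (p + 1))) -
      AddMonoidHom.snd (Z (p + 2)) (Z (p + 1)))
      (-((d p).comp (AddMonoidHom.snd (Z (p + 2)) (Z (p + 1))))) :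
        Z (p + 2) × Z (p + 1) →+ Z (p + 1) × Z p)

/-- the shifted subgroups -/
def Rs : ∀ p, (ι → ℤ) → AddSubgroup (Zs Z p)
  | 0, _ => ⊤
  | p + 1, F => R p (F - e)

/-- the subgroups of the cone -/
def Rc (p : ℕ) (F : ι → ℤ) : AddSubgroup (Zc Z p) := ((R p F).prod (Rs R e p F) :
  AddSubgroup (Z p × Zs Z p))

variable {d R e}

theorem la1 (hS : Sys Z d R) (he : ∀ i, 0 ≤ e i) {F : ι → ℤ} (p : ℕ) (w : Z (p + 1)) (z : Z p)
    (hw : w ∈ R (p + 1) F) (hz : z ∈ R p (F - e)) : d p w - z ∈ R p F :=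
  sub_mem (hS.dR p F w hw) (hS.mono p _ _ (by intro i; simp [he i]) hz)

theorem la2 (hS : Sys Z d R) {F : ι → ℤ} (p : ℕ) (w : Z (p + 2)) (z : Z (p + 1)) :
    d p (d (p + 1) w - z) - (-d p z) ∈ R p F := by
  have h1 : d p (d (p + 1) w - z) - (-d p z) = d p (d (p + 1) w) := by
    rw [map_sub]; abel
  rw [h1]
  exact hS.dd p F w

theorem la3 (hS : Sys Z d R) {F : ι → ℤ} (p : ℕ) (z : Z (p + 2)) :
    -(d p (-d (p + 1) z)) ∈ R p F := by
  rw [map_neg, neg_neg]
  exact hS.dd p F z

theorem ln0 {H : ι → ℤ} {r : ∀ p, Z p →+ Z p} {hh : ∀ p, Z p →+ Z (p + 1)}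
    (hN : Nul d R e H r hh) {F : ι → ℤ} (w : Z 0) :
    w - (d 0 (hh 0 w) - -r 0 w) ∈ R 0 F := by
  have h1 : w - (d 0 (hh 0 w) - -r 0 w) = w - r 0 w - d 0 (hh 0 w) := by abel
  rw [h1]
  exact hN.h0 F w

theorem ln1 {H : ι → ℤ} {r : ∀ p, Z p →+ Z p} {hh : ∀ p, Z p →+ Z (p + 1)}
    (hN : Nul d R e H r hh) {F : ι → ℤ} (p : ℕ) (w : Z (p + 1)) (z : Z p)
    (h2 : d p w - z ∈ R p (F - H)) :
    w - (d (p + 1) (hh (p + 1) w) - (-hh p z - r (p + 1) w)) ∈ R (p + 1) F := by
  have h1 : w - (d (p + 1) (hh (p + 1) w) - (-hh p z - r (p + 1) w)) =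
      (w - r (p + 1) w - d (p + 1) (hh (p + 1) w) - hh p (d p w)) + hh p (d p w - z) := by
    rw [map_sub]; abel
  rw [h1]
  refine add_mem (hN.hs p F w) ?_
  have h3 := hN.hR p _ _ h2
  rwa [sub_add_cancel] at h3

theorem ln2 {H : ι → ℤ} {r : ∀ p, Z p →+ Z p} {hh : ∀ p, Z p →+ Z (p + 1)}
    (hN : Nul d R e H r hh) {F : ι → ℤ} (w : Z 1) (z : Z 0)
    (h2 : d 0 w - z ∈ R 0 (F - H)) :
    z - -(d 0 (-hh 0 z - r 1 w)) ∈ R 0 (F - e) := by
  have h3 := hN.rR 0 _ _ h2
  rw [sub_add_cancel] at h3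
  have h4 := hN.rd 0 (F - e) w
  have h5 := hN.h0 (F - e) z
  have h6 : z - -(d 0 (-hh 0 z - r 1 w)) =
      (z - r 0 z - d 0 (hh 0 z)) - r 0 (d 0 w - z) + (r 0 (d 0 w) - d 0 (r 1 w)) := by
    rw [map_sub, map_neg, map_sub]; abel
  rw [h6]
  exact add_mem (sub_mem h5 h3) h4

theorem ln3 {H : ι → ℤ} {r : ∀ p, Z p →+ Z p} {hh : ∀ p, Z p →+ Z (p + 1)}
    (hN : Nul d R e H r hh) {F : ι → ℤ} (p : ℕ) (w : Z (p + 2)) (z : Z (p + 1))
    (h2 : d (p + 1) w - z ∈ R (p + 1) (F - H)) (h7' : -d p z ∈ R p (F - H - e)) :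
    z - -(d (p + 1) (-hh (p + 1) z - r (p + 2) w)) ∈ R (p + 1) (F - e) := by
  have h3 := hN.rR (p + 1) _ _ h2
  rw [sub_add_cancel] at h3
  have h4 := hN.rd (p + 1) (F - e) w
  have h5 := hN.hs p (F - e) z
  have h7 : d p z ∈ R p (F - H - e) := by
    rw [← neg_neg (d p z)]
    exact neg_mem h7'
  have h8 := hN.hR p _ _ h7
  rw [sub_right_comm, sub_add_cancel] at h8
  have h6 : z - -(d (p + 1) (-hh (p + 1) z - r (p + 2) w)) =
      (z - r (p + 1) z - d (p + 1) (hh (p + 1) z) - hh p (d p z)) + hh p (d p z) -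
        r (p + 1) (d (p + 1) w - z) +
        (r (p + 1) (d (p + 1) w) - d (p + 1) (r (p + 2) w)) := by
    rw [map_sub, map_neg, map_sub]; abel
  rw [h6]
  exact add_mem (sub_mem (add_mem h5 h8) h3) h4

theorem sys (hS : Sys Z d R) (he : ∀ i, 0 ≤ e i) : Sys (Zc Z) (dc d) (Rc R e) where
  mono := by
    rintro p F F' hF ⟨w, z⟩ ⟨hw, hz⟩
    match p, w, z, hw, hz with
    | 0, w, z, hw, hz => exact ⟨hS.mono 0 F F' hF hw, trivial⟩
    | p + 1, w, z, hw, hz =>
      exact ⟨hS.mono (p + 1) F F' hF hw, hS.mono p _ _ (sub_le_sub_right hF e) hz⟩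
  dR := by
    rintro p F ⟨w, z⟩ ⟨hw, hz⟩
    match p, w, z, hw, hz with
    | 0, w, z, hw, hz => exact ⟨la1 hS he 0 w z hw hz, trivial⟩
    | p + 1, w, z, hw, hz =>
      exact ⟨la1 hS he (p + 1) w z hw hz, (neg_mem (hS.dR p (F - e) z hz) : -d p z ∈ R p (F - e))⟩
  dd := by
    rintro p F ⟨w, z⟩
    match p, w, z with
    | 0, w, z => exact ⟨la2 hS 0 w z, trivial⟩
    | p + 1, w, z => exact ⟨la2 hS (p + 1) w z, la3 hS p z⟩

end cone

section rows

variable {ι : Type} [DecidableEq ι] {A B : Type} [AddCommGroup A] [AddCommGroup B]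

theorem mem_Ch_prod (PA : Finset ι → AddSubgroup A) (PB : Finset ι → AddSubgroup B)
    (I : Finset ι) (k : ℕ) (c : List ι →₀ A × B) :
    c ∈ Ch (fun J => (PA J).prod (PB J)) I k ↔
      Finsupp.mapRange.addMonoidHom (AddMonoidHom.fst A B) c ∈ Ch PA I k ∧
      Finsupp.mapRange.addMonoidHom (AddMonoidHom.snd A B) c ∈ Ch PB I k := by
  constructor
  · intro h
    refine ⟨fun l => ⟨(h l).1.1, fun h1 => (h l).2 fun h2 => h1 ?_⟩,
      fun l => ⟨(h l).1.2, fun h1 => (h l).2 fun h2 => h1 ?_⟩⟩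
    · change (c l).1 = 0
      rw [h2]; rfl
    · change (c l).2 = 0
      rw [h2]; rfl
  · rintro ⟨h1, h2⟩ l
    refine ⟨⟨(h1 l).1, (h2 l).1⟩, fun h => ?_⟩
    by_cases h3 : (c l).1 = 0
    · refine (h2 l).2 fun h4 => h (Prod.ext h3 h4)
    · exact (h1 l).2 h3

theorem Ex_prod (RA : Finset ι → AddSubgroup A) (RB : Finset ι → AddSubgroup B)
    (I : Finset ι) (q : ℕ) (hA : Ex (fun _ => ⊤) RA I q) (hB : Ex (fun _ => ⊤) RB I q) :
    Ex (fun _ => (⊤ : AddSubgroup (A × B))) (fun J => (RA J).prod (RB J)) I q := by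
  have htop : (fun _ : Finset ι => (⊤ : AddSubgroup (A × B))) =
      fun J => ((fun _ : Finset ι => (⊤ : AddSubgroup A)) J).prod
        ((fun _ : Finset ι => (⊤ : AddSubgroup B)) J) := by
    funext J
    exact AddSubgroup.top_prod_top.symm
  rw [htop]
  intro c hc hd
  rw [mem_Ch_prod] at hc hd
  obtain ⟨ea, hea, hea'⟩ := hA _ hc.1 (by
    have := hd.1
    rwa [← del_mapRange] at this)
  obtain ⟨eb, heb, heb'⟩ := hB _ hc.2 (by
    have := hd.2
    rwa [← del_mapRange] at this)
  have k1 : Finsupp.mapRange.addMonoidHom (AddMonoidHom.fst A B)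
      (Finsupp.mapRange.addMonoidHom (AddMonoidHom.inl A B) ea +
        Finsupp.mapRange.addMonoidHom (AddMonoidHom.inr A B) eb) = ea := by
    ext l
    simp
  have k2 : Finsupp.mapRange.addMonoidHom (AddMonoidHom.snd A B)
      (Finsupp.mapRange.addMonoidHom (AddMonoidHom.inl A B) ea +
        Finsupp.mapRange.addMonoidHom (AddMonoidHom.inr A B) eb) = eb := by
    ext l
    simp
  refine ⟨Finsupp.mapRange.addMonoidHom (AddMonoidHom.inl A B) ea +
    Finsupp.mapRange.addMonoidHom (AddMonoidHom.inr A B) eb, ?_, ?_⟩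
  · rw [mem_Ch_prod, k1, k2]
    exact ⟨hea, heb⟩
  · rw [mem_Ch_prod, map_sub, map_sub, ← del_mapRange, ← del_mapRange, k1, k2]
    exact ⟨hea', heb'⟩

end rows

end T3

open T3

theorem I_T3 (h : StT2) : StT3 := by
  intro ι _ _ Z _ d R hS m Dep hRows e he s0 hNul i hi F z hz hw
  have hcone := h ι (Zc Z) (dc d) (Rc R e) (sys hS he) m Dep ?_ s0 ?_
  · obtain ⟨w0, hw0⟩ := hw
    have hcyc : Cyc (dc d) (Rc R e) (i + 1) (F + e) (w0, z) := by
      match i, z, w0, hz, hw0 with
      | 0, z, w0, hz, hw0 =>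
        have h1 : d 0 w0 - z ∈ R 0 (F + e) := by
          rw [← neg_sub]
          exact neg_mem hw0
        exact ⟨h1, trivial⟩
      | i + 1, z, w0, hz, hw0 =>
        have h1 : d (i + 1) w0 - z ∈ R (i + 1) (F + e) := by
          rw [← neg_sub]
          exact neg_mem hw0
        have h2 : -d i z ∈ R i (F + e - e) := by
          rw [add_sub_cancel_right]
          exact neg_mem hz
        exact ⟨h1, h2⟩
    obtain ⟨⟨w', z'⟩, hwz⟩ := hcone (i + 1) hi _ _ hcyc
    have h3 : ∀ y : Z (i + 1), z - -d i y ∈ R i (F + e - e) → z - d i (-y) ∈ R i F := by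
      intro y hy
      rw [add_sub_cancel_right] at hy
      rwa [map_neg]
    exact ⟨_, h3 z' hwz.2⟩
  · intro I hI p F q hq
    refine Ex_prod _ _ I q (hRows I hI p F q hq) ?_
    match p with
    | 0 =>
      intro c hc _
      exact ⟨0, zero_mem _, by rw [map_zero, sub_zero]; exact hc⟩
    | p + 1 =>
      have h1 := hRows I hI p (F - e) q hq
      have h2 : (fun J : Finset ι => R p (F - e - ind J)) = fun J => R p (F - ind J - e) := by
        funext J
        rw [sub_right_comm]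
      rw [h2] at h1
      exact h1
  · intro I hI H hH hH' p hp F x hx
    obtain ⟨r, hh, hN⟩ := hNul I hI H hH hH'
    obtain ⟨w, z⟩ := x
    match p, w, z, hx with
    | 0, w, z, hx => exact ⟨(show Zc Z 1 from (hh 0 w, -r 0 w)), ln0 hN w, trivial⟩
    | 1, w, z, hx =>
      exact ⟨(show Zc Z 2 from (hh 1 w, -hh 0 z - r 1 w)), ln1 hN 0 w z hx.1, ln2 hN w z hx.1⟩
    | p + 2, w, z, hx =>
      exact ⟨(show Zc Z (p + 3) from (hh (p + 2) w, -hh (p + 1) z - r (p + 2) w)),
        ln1 hN (p + 1) w z hx.1, ln3 hN p w z hx.1 hx.2⟩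

end Pool.Agent.Work.MP_e9e200_al.UP

end
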