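import Pool.Agent.Work.MP_e9e200_al.Bd.B13
import Pool.Agent.Work.MP_e9e200_al.Bd.B22
import Pool.Agent.Work.MP_e9e200_al.Bd.B10
import Pool.Agent.Work.MP_e9e200_al.Bd.B02
import Pool.Agent.Work.MP_e9e200_al.LC.Stmts3

/-! Bundle of small proof modules (one section per former module). -/

section

/-! Item A1: coordinates of a finitely generated abelian group. -/

namespace Pool.Agent.Work.MP_e9e200_al.UP

namespace A1

theorem v_eq_zero {A : Type*} [AddCommGroup A] {B : Type*} [AddCommGroup B] [Finite B]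
    {F : Type*} [AddCommGroup F] (f : A ≃+ F × B) (v : A →+ ℝ) (a : A) (ha : (f a).1 = 0) :
    v a = 0 := by
  obtain ⟨n, hn, hnb⟩ : ∃ n : ℕ, 0 < n ∧ n • (f a).2 = 0 := by
    have h := isOfFinAddOrder_of_finite (f a).2
    exact ⟨_, h.addOrderOf_pos, addOrderOf_nsmul_eq_zero _⟩
  have h1 : n • a = 0 := by
    apply f.injective
    rw [map_nsmul, map_zero]
    ext
    · simp [ha]
    · simpa using hnb
  have h2 : (n : ℝ) * v a = 0 := by
    have := congrArg v h1
    rw [map_nsmul, map_zero, nsmul_eq_mul] at this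
    exact this
  rcases mul_eq_zero.mp h2 with h | h
  · have : n = 0 := by exact_mod_cast h
    omega
  · exact h

end A1

theorem I_A1 : StA1 := by
  intro Q _ _
  have : AddGroup.FG (Additive Q) := inferInstance
  obtain ⟨n, ι, _, p, hp, e, ⟨f⟩⟩ := AddCommGroup.equiv_free_prod_directSum_zmod (Additive Q)
  have : ∀ i, NeZero (p i ^ e i) := fun i => ⟨pow_ne_zero _ (hp i).ne_zero⟩
  have : ∀ i, Finite (ZMod (p i ^ e i)) := fun i => inferInstance
  have hfin : Finite (DirectSum ι fun i => ZMod (p i ^ e i)) :=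
    Finite.of_injective (fun (x : DirectSum ι fun i => ZMod (p i ^ e i)) i => x i)
      (fun x y h => DFinsupp.ext fun i => congrFun h i)
  have hk0 : ∀ q : Q, (fun i => (f (Additive.ofMul q)).1 i) = (0 : Fin n → ℤ) ↔
      (f (Additive.ofMul q)).1 = 0 := by
    intro q
    constructor
    · intro h
      ext i
      exact congrFun h i
    · intro h
      funext i
      rw [h]
      rfl
  refine ⟨n, fun q i => (f (Additive.ofMul q)).1 i, ?_, ?_, ?_, ?_⟩
  · intro a b
    funext i
    change (f (Additive.ofMul a + Additive.ofMul b)).1 i = _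
    rw [map_add]
    rfl
  · intro k
    refine ⟨Additive.toMul (f.symm (Finsupp.equivFunOnFinite.symm k, 0)), ?_⟩
    funext i
    simp
  · have hinj : Set.InjOn (fun q : Q => (f (Additive.ofMul q)).2)
        {q | (fun i => (f (Additive.ofMul q)).1 i) = (0 : Fin n → ℤ)} := by
      intro a ha b hb hab
      have ha' := (hk0 a).1 ha
      have hb' := (hk0 b).1 hb
      have h : f (Additive.ofMul a) = f (Additive.ofMul b) :=
        Prod.ext (ha'.trans hb'.symm) hab
      exact Additive.ofMul.injective (f.injective h)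
    exact Set.Finite.of_finite_image (Set.toFinite _) hinj
  · intro v
    let bs : Fin n → Additive Q := fun i => f.symm (Finsupp.single i 1, 0)
    refine ⟨WithLp.toLp 2 (fun i => v (bs i)), ?_⟩
    intro q
    have h1 : v (Additive.ofMul q - ∑ i, (f (Additive.ofMul q)).1 i • bs i) = 0 := by
      apply A1.v_eq_zero f
      rw [map_sub, map_sum]
      simp only [map_zsmul, bs, AddEquiv.apply_symm_apply]
      rw [Prod.fst_sub, Prod.fst_sum]
      simp only [Prod.smul_fst, Finsupp.smul_single, smul_eq_mul, mul_one]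
      rw [sub_eq_zero]
      exact (Finsupp.univ_sum_single _).symm
    rw [map_sub, map_sum, sub_eq_zero] at h1
    rw [h1, PiLp.inner_apply]
    apply Finset.sum_congr rfl
    intro i _
    rw [map_zsmul, zsmul_eq_mul]
    simp [rv]

end Pool.Agent.Work.MP_e9e200_al.UP

end

section

/-!
# Project UP, item A2: finite generation in the positive direction
-/

set_option autoImplicit false

namespace Pool.Agent.Work.MP_e9e200_al.UP

open Finsupp

namespace A2

lemma rv_add {n : ℕ} (k l : Fin n → ℤ) : rv (k + l) = rv k + rv l := by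
  unfold rv
  ext i
  simp

section
variable {Q : Type} [CommGroup Q] {M : Type} [AddCommGroup M] [Module (MonoidAlgebra ℤ Q) M]

/-- translates of `T` by elements `q` with `-c ≤ f q` -/
def Sc (f : Q → ℝ) (T : Finset M) (c : ℝ) : Set M :=
  {w | ∃ q : Q, ∃ t ∈ T, -c ≤ f q ∧ w = MonoidAlgebra.of ℤ Q q • t}

lemma Sc_mono (f : Q → ℝ) (T : Finset M) {c c' : ℝ} (h : c ≤ c') : Sc f T c ⊆ Sc f T c' := by
  rintro w ⟨q, t, ht, hq, rfl⟩
  exact ⟨q, t, ht, by linarith, rfl⟩

lemma cl_mono (f : Q → ℝ) (T : Finset M) {c c' : ℝ} (h : c ≤ c') {y : M}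
    (hy : y ∈ AddSubgroup.closure (Sc f T c)) : y ∈ AddSubgroup.closure (Sc f T c') :=
  AddSubgroup.closure_mono (Sc_mono f T h) hy

lemma step1 (f : Q → ℝ) (T : Finset M) (y : M) (hy : y ∈ AddSubgroup.closure
    {w | ∃ q : Q, ∃ t ∈ T, w = MonoidAlgebra.of ℤ Q q • t}) :
    ∃ c : ℝ, y ∈ AddSubgroup.closure (Sc f T c) := by
  induction hy using AddSubgroup.closure_induction with
  | mem w hw =>
    obtain ⟨q, t, ht, rfl⟩ := hw
    exact ⟨-f q, AddSubgroup.subset_closure ⟨q, t, ht, by simp, rfl⟩⟩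
  | zero => exact ⟨0, zero_mem _⟩
  | add a b _ _ ha hb =>
    obtain ⟨c1, h1⟩ := ha
    obtain ⟨c2, h2⟩ := hb
    exact ⟨max c1 c2, add_mem (cl_mono f T (le_max_left _ _) h1)
      (cl_mono f T (le_max_right _ _) h2)⟩
  | neg a _ ha =>
    obtain ⟨c, h⟩ := ha
    exact ⟨c, neg_mem h⟩

lemma step2 (f : Q → ℝ) (T V : Finset M) (hT : ∀ x : M, x ∈ AddSubgroup.closure
    {w | ∃ q : Q, ∃ t ∈ T, w = MonoidAlgebra.of ℤ Q q • t}) :
    ∃ c : ℝ, ∀ t ∈ V, t ∈ AddSubgroup.closure (Sc f T c) := by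
  choose c hc using fun y => step1 f T y (hT y)
  refine ⟨∑ t ∈ V, |c t|, fun t ht => cl_mono f T ?_ (hc t)⟩
  exact (le_abs_self _).trans
    (Finset.single_le_sum (f := fun t => |c t|) (fun i _ => abs_nonneg _) ht)

lemma shift (f : Q → ℝ) (hf : ∀ a b, f (a * b) = f a + f b) (T : Finset M) (q : Q) (c : ℝ)
    (y : M) (hy : y ∈ AddSubgroup.closure (Sc f T c)) :
    MonoidAlgebra.of ℤ Q q • y ∈ AddSubgroup.closure (Sc f T (c - f q)) := by
  induction hy using AddSubgroup.closure_induction with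
  | mem w hw =>
    obtain ⟨q', t, ht, hq, rfl⟩ := hw
    refine AddSubgroup.subset_closure ⟨q * q', t, ht, ?_, ?_⟩
    · rw [hf]; linarith
    · rw [smul_smul, map_mul]
  | zero => rw [smul_zero]; exact zero_mem _
  | add a b _ _ ha hb => rw [smul_add]; exact add_mem ha hb
  | neg a _ ha => rw [smul_neg]; exact neg_mem ha

lemma fin [DecidableEq Q] (f : Q → ℝ) (T : Finset M) (a : ℝ) (ha : 0 < a) (y : M)
    (hy : y ∈ AddSubgroup.closure (Sc f T (-a))) : ∃ Φ : Finset Q, (∀ q ∈ Φ, 0 < f q) ∧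
      y ∈ AddSubgroup.closure {w | ∃ q ∈ Φ, ∃ t' ∈ T, w = MonoidAlgebra.of ℤ Q q • t'} := by
  induction hy using AddSubgroup.closure_induction with
  | mem w hw =>
    obtain ⟨q, t, ht, hq, rfl⟩ := hw
    refine ⟨{q}, fun q' hq' => ?_, AddSubgroup.subset_closure
      ⟨q, Finset.mem_singleton_self q, t, ht, rfl⟩⟩
    rw [Finset.mem_singleton.1 hq']
    linarith
  | zero => exact ⟨∅, by simp, zero_mem _⟩
  | add u v _ _ hu hv =>
    obtain ⟨A, hA, h1⟩ := hu
    obtain ⟨B, hB, h2⟩ := hv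
    refine ⟨A ∪ B, fun q hq => ?_, add_mem ?_ ?_⟩
    · rcases Finset.mem_union.1 hq with h | h
      · exact hA q h
      · exact hB q h
    · refine AddSubgroup.closure_mono ?_ h1
      rintro w ⟨q, hq, t, ht, rfl⟩
      exact ⟨q, Finset.mem_union_left _ hq, t, ht, rfl⟩
    · refine AddSubgroup.closure_mono ?_ h2
      rintro w ⟨q, hq, t, ht, rfl⟩
      exact ⟨q, Finset.mem_union_right _ hq, t, ht, rfl⟩
  | neg u _ hu =>
    obtain ⟨A, hA, h1⟩ := hu
    exact ⟨A, hA, neg_mem h1⟩

end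

lemma inner_single {n : ℕ} (x : EuclideanSpace ℝ (Fin n)) (i : Fin n) (a : ℤ) :
    inner ℝ x (rv (Pi.single i a)) = a * x i := by
  have h : rv (Pi.single i a) = EuclideanSpace.single i (a : ℝ) := by
    unfold rv
    ext j
    by_cases hj : j = i
    · subst hj; simp
    · simp [hj]
  rw [h, EuclideanSpace.inner_single_right]
  simp

end A2

theorem I_A2 : StA2 := by
  classical
  intro Q _ M _ _ n κ hκ hsurj T hT x hx hbad
  obtain ⟨f, hf⟩ : ∃ f : Q → ℝ, ∀ q, f q = inner ℝ x (rv (κ q)) := ⟨_, fun _ => rfl⟩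
  have hadd : ∀ a b, f (a * b) = f a + f b := by
    intro a b
    rw [hf, hf, hf, hκ, A2.rv_add, inner_add_right]
  have hV : ∃ V : Finset M, ∀ y : M, y ∈ AddSubgroup.closure {w | ∃ q : Q, ∃ t ∈ V,
      0 ≤ inner ℝ x (rv (κ q)) ∧ w = MonoidAlgebra.of ℤ Q q • t} := by
    by_contra hn
    push Not at hn
    exact hbad ⟨hx, hn⟩
  obtain ⟨V, hV⟩ := hV
  obtain ⟨c, hc⟩ := A2.step2 f T V hT
  have hall : ∀ y : M, y ∈ AddSubgroup.closure (A2.Sc f T c) := by
    intro y
    have hle : AddSubgroup.closure {w | ∃ q : Q, ∃ t ∈ V,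
        0 ≤ inner ℝ x (rv (κ q)) ∧ w = MonoidAlgebra.of ℤ Q q • t} ≤
        AddSubgroup.closure (A2.Sc f T c) := by
      rw [AddSubgroup.closure_le]
      rintro w ⟨q, t, ht, hq, rfl⟩
      rw [← hf] at hq
      exact A2.cl_mono f T (by linarith) (A2.shift f hadd T q c t (hc t ht))
    exact hle (hV y)
  have hpos : ∃ q1, 0 < f q1 := by
    by_contra hn
    push Not at hn
    apply hx
    ext i
    obtain ⟨q, hq⟩ := hsurj (Pi.single i 1)
    obtain ⟨q', hq'⟩ := hsurj (Pi.single i (-1))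
    have h1 := hn q
    have h2 := hn q'
    rw [hf, hq, A2.inner_single] at h1
    rw [hf, hq', A2.inner_single] at h2
    push_cast at h1 h2
    have h3 : x i = 0 := by linarith
    rw [h3]
    rfl
  obtain ⟨q1, hq1⟩ := hpos
  have hone : f 1 = 0 := by
    have h := hadd 1 1
    rw [mul_one] at h
    linarith
  have hpow : ∀ N : ℕ, f (q1 ^ N) = N * f q1 := by
    intro N
    induction N with
    | zero => rw [pow_zero, hone]; simp
    | succ N ih => rw [pow_succ, hadd, ih]; push_cast; ring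
  obtain ⟨N, hN⟩ := exists_nat_gt (c / f q1)
  have hbig : c < f (q1 ^ N) := by
    rw [hpow]
    exact (div_lt_iff₀ hq1).1 hN
  have hall2 : ∀ y : M, y ∈ AddSubgroup.closure (A2.Sc f T (-(f (q1 ^ N) - c))) := by
    intro y
    have h := A2.shift f hadd T (q1 ^ N) c _ (hall (MonoidAlgebra.of ℤ Q (q1 ^ N)⁻¹ • y))
    rw [smul_smul, ← map_mul, mul_inv_cancel, map_one, one_smul] at h
    rw [neg_sub]
    exact h
  choose Φ hΦ1 hΦ2 using fun y => A2.fin f T (f (q1 ^ N) - c) (by linarith) y (hall2 y)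
  refine ⟨T.biUnion Φ, fun q hq => ?_, fun t ht => ?_⟩
  · obtain ⟨t, _, h⟩ := Finset.mem_biUnion.1 hq
    rw [← hf]
    exact hΦ1 t q h
  · refine AddSubgroup.closure_mono ?_ (hΦ2 t)
    rintro w ⟨q, hq, t', ht', rfl⟩
    exact ⟨q, Finset.mem_biUnion.2 ⟨t, ht, hq⟩, t', ht', rfl⟩

end Pool.Agent.Work.MP_e9e200_al.UP

end

section

/-!
# Project UP: item A7, separation
-/

set_option autoImplicit false

namespace Pool.Agent.Work.MP_e9e200_al.UP

open Finsupp Topology

namespace A7

variable {E : Type} [NormedAddCommGroup E] [InnerProductSpace ℝ E]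

/-- the lemma of Gordan -/
lemma gordan {ι : Type} [Fintype ι] (w : ι → E)
    (h : ∀ a : ι → ℝ, (∀ i, 0 ≤ a i) → ∑ i, a i = 1 → ∑ i, a i • w i ≠ 0) :
    ∃ y : E, ‖y‖ ≤ 1 ∧ ∀ i, inner ℝ (w i) y < 0 := by
  classical
  rcases isEmpty_or_nonempty ι with hι | hι
  · exact ⟨0, by simp, fun i => (hι.false i).elim⟩
  let f : (ι → ℝ) →ₗ[ℝ] E := Fintype.linearCombination ℝ w
  have hf : ∀ a, f a = ∑ i, a i • w i := fun a => Fintype.linearCombination_apply ℝ w a
  have hfc : Continuous f := f.continuous_of_finiteDimensional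
  have hK : IsCompact (f '' stdSimplex ℝ ι) := (isCompact_stdSimplex ℝ ι).image hfc
  have hKc : Convex ℝ (f '' stdSimplex ℝ ι) := (convex_stdSimplex ℝ ι).linear_image f
  have hw : ∀ i, w i ∈ f '' stdSimplex ℝ ι := by
    intro i
    refine ⟨Pi.single i 1, single_mem_stdSimplex ℝ i, ?_⟩
    rw [hf, Finset.sum_eq_single i]
    · simp
    · intro j _ hj; simp [hj]
    · intro hi; exact absurd (Finset.mem_univ i) hi
  obtain ⟨v, hv, hmin⟩ := exists_norm_eq_iInf_of_complete_convex ⟨_, hw (Classical.arbitrary ι)⟩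
    hK.isComplete hKc 0
  rw [norm_eq_iInf_iff_real_inner_le_zero hKc hv] at hmin
  have hv0 : v ≠ 0 := by
    rintro rfl
    obtain ⟨a, ha, h0⟩ := hv
    rw [hf] at h0
    exact h a ha.1 ha.2 h0
  have hn : 0 < ‖v‖ := norm_pos_iff.2 hv0
  refine ⟨-(‖v‖⁻¹ • v), ?_, fun i => ?_⟩
  · rw [norm_neg, norm_smul, norm_inv, norm_norm, inv_mul_cancel₀ hn.ne']
  · have h1 := hmin (w i) (hw i)
    rw [zero_sub, inner_neg_left, inner_sub_right, real_inner_self_eq_norm_sq] at h1
    have h2 : 0 < inner ℝ v (w i) := by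
      have : 0 < ‖v‖ ^ 2 := by positivity
      linarith
    rw [inner_neg_right, inner_smul_right, real_inner_comm]
    have : 0 < ‖v‖⁻¹ * inner ℝ v (w i) := by positivity
    linarith

/-- separation of one tuple -/
lemma sep {m : ℕ} (x : E) (γ : Fin m → E)
    (h : ∀ (a : Fin m → ℝ) (b : ℝ), (∀ j, 0 ≤ a j) → (∃ j, a j ≠ 0) → 0 ≤ b →
      ∑ j, a j • γ j ≠ b • x) :
    ∃ y : E, ‖y‖ ≤ 1 ∧ (∀ j, inner ℝ (γ j) y < 0) ∧ (x ≠ 0 → 0 < inner ℝ (un x) y) := by
  by_cases hx : x = 0
  · subst hx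
    obtain ⟨y, hy, h1⟩ := gordan γ (by
      intro a ha hs h0
      refine h a 0 ha ?_ le_rfl (by rw [h0, smul_zero])
      by_contra hc
      push Not at hc
      rw [Finset.sum_eq_zero (fun j _ => hc j)] at hs
      exact zero_ne_one hs)
    exact ⟨y, hy, h1, fun h => absurd rfl h⟩
  · have hn : 0 < ‖x‖ := norm_pos_iff.2 hx
    obtain ⟨y, hy, h1⟩ := gordan (ι := Option (Fin m)) (fun o => o.elim (-(un x)) γ) (by
      intro a ha hs h0
      rw [Fintype.sum_option] at hs h0
      simp only [Option.elim_none, Option.elim_some] at h0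
      have h2 : ∑ j, a (some j) • γ j = (a none * ‖x‖⁻¹) • x := by
        rw [smul_neg, neg_add_eq_zero] at h0
        rw [← h0, un, smul_smul]
      refine h (fun j => a (some j)) (a none * ‖x‖⁻¹) (fun j => ha _) ?_
        (mul_nonneg (ha _) (by positivity)) h2
      by_contra hc
      push Not at hc
      rw [Finset.sum_eq_zero (fun j _ => hc j), add_zero] at hs
      rw [Finset.sum_eq_zero (fun j _ => by rw [hc j, zero_smul]), hs, one_mul] at h2
      rcases smul_eq_zero.1 h2.symm with h3 | h3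
      · exact hn.ne' (inv_eq_zero.1 h3)
      · exact hx h3)
    refine ⟨y, hy, fun j => h1 (some j), fun _ => ?_⟩
    have h2 := h1 none
    simp only [Option.elim_none, inner_neg_left] at h2
    linarith

end A7

theorem I_A7 : StA7 := by
  intro n m C hC hC1 x hx
  have hCc : IsCompact C := by
    refine Metric.isCompact_of_isClosed_isBounded hC ?_
    refine (Metric.isBounded_closedBall (x := (0 : EuclideanSpace ℝ (Fin n))) (r := 1)).subset ?_
    intro γ hγ
    rw [mem_closedBall_zero_iff]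
    exact (hC1 γ hγ).le
  have hS : IsCompact (Set.pi Set.univ fun _ : Fin m => C) := isCompact_univ_pi fun _ => hCc
  have key : ∃ δ : ℝ, 0 < δ ∧ ∀ γ ∈ (Set.pi Set.univ fun _ : Fin m => C),
      ∃ y : EuclideanSpace ℝ (Fin n), ‖y‖ ≤ 1 ∧ (∀ j, inner ℝ (γ j) y ≤ -δ) ∧
      (x ≠ 0 → δ ≤ inner ℝ (un x) y) := by
    refine IsCompact.induction_on (p := fun S : Set (Fin m → EuclideanSpace ℝ (Fin n)) =>
      ∃ δ : ℝ, 0 < δ ∧ ∀ γ ∈ S,
      ∃ y : EuclideanSpace ℝ (Fin n), ‖y‖ ≤ 1 ∧ (∀ j, inner ℝ (γ j) y ≤ -δ) ∧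
      (x ≠ 0 → δ ≤ inner ℝ (un x) y)) hS ?_ ?_ ?_ ?_
    · exact ⟨1, one_pos, fun γ h => absurd h (Set.notMem_empty γ)⟩
    · rintro s t hst ⟨δ, h1, h2⟩
      exact ⟨δ, h1, fun γ h => h2 γ (hst h)⟩
    · rintro s t ⟨δ, h1, h2⟩ ⟨δ', h1', h2'⟩
      refine ⟨min δ δ', lt_min h1 h1', fun γ h => ?_⟩
      rcases h with h | h
      · obtain ⟨y, h3, h4, h5⟩ := h2 γ h
        exact ⟨y, h3, fun j => (h4 j).trans (neg_le_neg (min_le_left _ _)),
          fun h => (min_le_left _ _).trans (h5 h)⟩
      · obtain ⟨y, h3, h4, h5⟩ := h2' γ h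
        exact ⟨y, h3, fun j => (h4 j).trans (neg_le_neg (min_le_right _ _)),
          fun h => (min_le_right _ _).trans (h5 h)⟩
    · intro γ hγ
      obtain ⟨y, hy1, hy2, hy3⟩ := A7.sep x γ (hx γ fun j => hγ j (Set.mem_univ j))
      have h1 : ∀ᶠ δ in 𝓝[>] (0 : ℝ), ∀ j, δ < -inner ℝ (γ j) y := by
        rw [Filter.eventually_all]
        intro j
        have h : (0 : ℝ) < -inner ℝ (γ j) y := by have := hy2 j; linarith
        exact nhdsWithin_le_nhds (eventually_lt_nhds h)
      have h2 : ∀ᶠ δ in 𝓝[>] (0 : ℝ), x ≠ 0 → δ < inner ℝ (un x) y := by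
        by_cases hx0 : x = 0
        · exact Filter.Eventually.of_forall fun δ h => absurd hx0 h
        · filter_upwards [nhdsWithin_le_nhds (eventually_lt_nhds (hy3 hx0))] with δ h _ using h
      obtain ⟨δ, ⟨h1, h2⟩, h0⟩ := ((h1.and h2).and self_mem_nhdsWithin).exists
      refine ⟨{γ' | ∀ j, δ < -inner ℝ (γ' j) y}, ?_, δ, h0, fun γ' h' =>
        ⟨y, hy1, fun j => ?_, fun h => (h2 h).le⟩⟩
      · refine mem_nhdsWithin_of_mem_nhds (IsOpen.mem_nhds ?_ h1)
        have : {γ' : Fin m → EuclideanSpace ℝ (Fin n) | ∀ j, δ < -inner ℝ (γ' j) y} =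
            ⋂ j, {γ' | δ < -inner ℝ (γ' j) y} := by
          ext γ'; simp
        rw [this]
        refine isOpen_iInter_of_finite fun j => isOpen_lt continuous_const ?_
        exact ((continuous_apply j).inner continuous_const).neg
      · have := h' j
        linarith
  obtain ⟨δ, h0, h1⟩ := key
  exact ⟨δ, h0, fun γ hγ => h1 γ fun j _ => hγ j⟩

end Pool.Agent.Work.MP_e9e200_al.UP

end

section

/-!
# Project UP: the cycles are finitely generated
-/

set_option autoImplicit false

namespace Pool.Agent.Work.MP_e9e200_al.UP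

open Finsupp

namespace C1

section

variable {Q M D : Type} [CommGroup Q] [AddCommGroup M] [Module (MonoidAlgebra ℤ Q) M]
  {χ : D → Q → ℤ}

lemma chi_one (hχ : ∀ i a b, χ i (a * b) = χ i a + χ i b) (i : D) : χ i 1 = 0 := by
  have h := hχ i 1 1
  rw [mul_one] at h
  omega

/-- the action of `Q` on the subgroups `NN` -/
lemma NN_smul (hχ : ∀ i a b, χ i (a * b) = χ i a + χ i b) (T : Finset M) (E E' : D → ℤ) (q : Q)
    (h : ∀ i, E i - χ i q ≤ E' i) {x : M} (hx : x ∈ NN χ T E) :
    MonoidAlgebra.of ℤ Q q • x ∈ NN χ T E' := by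
  unfold NN at hx
  induction hx using AddSubgroup.closure_induction with
  | mem x hx =>
    obtain ⟨q', t, ht, hq, rfl⟩ := hx
    refine AddSubgroup.subset_closure ⟨q * q', t, ht, fun i => ?_, ?_⟩
    · rw [hχ]
      have h1 := hq i
      have h2 := h i
      omega
    · rw [map_mul, mul_smul]
  | zero => rw [smul_zero]; exact zero_mem _
  | add x y _ _ hx hy => rw [smul_add]; exact add_mem hx hy
  | neg x _ hx => rw [smul_neg]; exact neg_mem hx

/-- the action commutes with the boundary -/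
lemma del_smul (r : MonoidAlgebra ℤ Q) (c : List D →₀ M) : del M (r • c) = r • del M c := by
  have h : ∀ c : List D →₀ M, r • c =
      Finsupp.mapRange.addMonoidHom (DistribSMul.toAddMonoidHom M r) c := by
    intro c
    ext l
    simp
  rw [h c, del_mapRange, ← h]

variable [DecidableEq D]

lemma Ch_smul (hχ : ∀ i a b, χ i (a * b) = χ i a + χ i b) (T : Finset M) (I : Finset D) (k : ℕ)
    (E E' : D → ℤ) (q : Q) (h : ∀ i, E i - χ i q ≤ E' i) {c : List D →₀ M}
    (hc : c ∈ Ch (fun J => NN χ T (E - ind J)) I k) :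
    MonoidAlgebra.of ℤ Q q • c ∈ Ch (fun J => NN χ T (E' - ind J)) I k := by
  refine fun l => ⟨?_, fun h0 => (hc l).2 (fun h1 => h0 ?_)⟩
  · rw [Finsupp.smul_apply]
    refine NN_smul hχ T _ _ q (fun i => ?_) (hc l).1
    have h1 := h i
    simp only [Pi.sub_apply]
    omega
  · rw [Finsupp.smul_apply, h1, smul_zero]

end

/-- the degree of an element of the monoid -/
def dg {Q D : Type} (χ : D → Q → ℤ) (p : Multiplicative (D → ℕ) × Q) : D → ℤ :=
  fun i => ((Multiplicative.toAdd p.1 i : ℕ) : ℤ) - χ i p.2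

/-- the action of the monoid on chains -/
noncomputable def ro (Q M D : Type) [CommGroup Q] [AddCommGroup M]
    [Module (MonoidAlgebra ℤ Q) M] :
    Multiplicative (D → ℕ) × Q →* AddMonoid.End (List D →₀ M) :=
  (Module.toAddMonoidEnd (MonoidAlgebra ℤ Q) (List D →₀ M)).toMonoidHom.comp
    ((MonoidAlgebra.of ℤ Q).comp (MonoidHom.snd _ _))

lemma ro_apply {Q M D : Type} [CommGroup Q] [AddCommGroup M]
    [Module (MonoidAlgebra ℤ Q) M] (p : Multiplicative (D → ℕ) × Q) (c : List D →₀ M) :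
    ro Q M D p c = MonoidAlgebra.of ℤ Q p.2 • c := rfl

/-- the chains are generated by finitely many elements -/
lemma gen {Q M D : Type} [CommGroup Q] [AddCommGroup M] [Module (MonoidAlgebra ℤ Q) M]
    [DecidableEq D] (χ : D → Q → ℤ) (hχ : ∀ i a b, χ i (a * b) = χ i a + χ i b)
    (T : Finset M) (I : Finset D) (k : ℕ) :
    ∃ (n : ℕ) (g : Fin n → D → ℤ) (y : Fin n → (List D →₀ M)),
      (∀ a, y a ∈ Ch (fun J => NN χ T (g a - ind J)) I k) ∧
      ∀ γ : D → ℤ, ∀ x ∈ Ch (fun J => NN χ T (γ - ind J)) I k,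
        x ∈ AddSubgroup.closure {z | ∃ a μ, g a + dg χ μ = γ ∧ z = ro Q M D μ (y a)} := by
  let A := (Fin k → I) × T
  let e : A ≃ Fin (Fintype.card A) := Fintype.equivFin A
  let ls : A → List D := fun a => List.ofFn (fun j => (a.1 j : D))
  refine ⟨Fintype.card A, fun a => ind (ls (e.symm a)).toFinset,
    fun a => single (ls (e.symm a)) ((e.symm a).2 : M), fun a => ?_, fun γ x hx => ?_⟩
  · refine Ch_single ?_ (by simp [ls]) ?_
    · refine AddSubgroup.subset_closure ⟨1, ((e.symm a).2 : M), (e.symm a).2.2, fun i => ?_, ?_⟩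
      · rw [chi_one hχ]
        simp
      · rw [map_one, one_smul]
    · intro i hi
      simp only [ls, List.mem_ofFn] at hi
      obtain ⟨j, rfl⟩ := hi
      exact ((e.symm a).1 j).2
  · refine Ch_induction (p := fun x => x ∈ AddSubgroup.closure
      {z | ∃ a μ, ind (ls (e.symm a)).toFinset + dg χ μ = γ ∧
        z = ro Q M D μ (single (ls (e.symm a)) ((e.symm a).2 : M))}) (zero_mem _)
      (fun a b ha hb => add_mem ha hb) (fun l z hz hk hI => ?_) hx
    unfold NN at hz
    induction hz using AddSubgroup.closure_induction with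
    | mem z hz =>
      obtain ⟨q, t, ht, hq, rfl⟩ := hz
      let a0 : A := (fun j => ⟨l.get (Fin.cast hk.symm j), hI _ (List.get_mem _ _)⟩, ⟨t, ht⟩)
      have hls : ls a0 = l := by
        subst hk
        exact List.ofFn_get l
      refine AddSubgroup.subset_closure ⟨e a0,
        (Multiplicative.ofAdd (fun i => (γ i - ind l.toFinset i + χ i q).toNat), q), ?_, ?_⟩
      · rw [Equiv.symm_apply_apply, hls]
        funext i
        have h1 := hq i
        simp only [Pi.add_apply, dg, toAdd_ofAdd]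
        simp only [Pi.sub_apply] at h1
        rw [Int.toNat_of_nonneg (by omega)]
        omega
      · rw [Equiv.symm_apply_apply, hls, ro_apply]
        simp [a0]
    | zero => rw [Finsupp.single_zero]; exact zero_mem _
    | add x y _ _ hx hy => rw [Finsupp.single_add]; exact add_mem hx hy
    | neg x _ hx => rw [Finsupp.single_neg]; exact neg_mem hx

end C1

open C1 in
theorem I_C1 (h : StGN) : StC1 := by
  intro Q _ _ M _ _ D _ _ χ hχ T I k
  obtain ⟨n, g, y, hy, hgen⟩ := h (Multiplicative (D → ℕ) × Q) (D → ℤ) (dg χ)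
    (fun a b => by
      funext i
      simp only [dg, Prod.fst_mul, Prod.snd_mul, hχ, toAdd_mul, Pi.add_apply, Nat.cast_add]
      ring)
    (List D →₀ M) (ro Q M D) (fun γ => Ch (fun J => NN χ T (γ - ind J)) I k)
    (fun γ => Ch (fun J => NN χ T (γ - ind J)) I k ⊓ (del M).ker)
    (fun γ => inf_le_left)
    (fun μ γ c hc => by
      refine ⟨?_, ?_⟩
      · rw [ro_apply]
        refine Ch_smul hχ T I k γ (γ + dg χ μ) μ.2 (fun i => ?_) hc.1
        simp only [Pi.add_apply, dg]
        omega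
      · rw [ro_apply]
        show del M _ = 0
        rw [del_smul, show del M c = 0 from hc.2, smul_zero])
    (gen χ hχ T I k)
  refine ⟨n, g, y, fun a => ⟨(hy a).1, (hy a).2⟩, fun E' c hc hdc => ?_⟩
  refine AddSubgroup.closure_mono ?_ (hgen E' c ⟨hc, hdc⟩)
  rintro z ⟨a, μ, h1, rfl⟩
  refine ⟨a, μ.2, fun i => ?_, rfl⟩
  have h2 := congrFun h1 i
  simp only [Pi.add_apply, dg] at h2
  omega

end Pool.Agent.Work.MP_e9e200_al.UP

end

section

/-!
# Project UP: item D3, direct sums
-/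

set_option autoImplicit false

namespace Pool.Agent.Work.MP_e9e200_al.UP

open Finsupp

namespace D3

section

variable {ι : Type} [DecidableEq ι] {Z Y : Type} [AddCommGroup Z] [AddCommGroup Y]

lemma mapRange_apply' (f : Z →+ Y) (c : List ι →₀ Z) (l : List ι) :
    (Finsupp.mapRange.addMonoidHom f c) l = f (c l) := by
  simp [Finsupp.mapRange.addMonoidHom]

lemma mapRange_mem (f : Z →+ Y) {P : Finset ι → AddSubgroup Z} {Q : Finset ι → AddSubgroup Y}
    {I : Finset ι} {k : ℕ} {c : List ι →₀ Z} (h : ∀ J z, z ∈ P J → f z ∈ Q J)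
    (hc : c ∈ Ch P I k) : Finsupp.mapRange.addMonoidHom f c ∈ Ch Q I k := by
  intro l
  rw [mapRange_apply']
  refine ⟨h _ _ (hc l).1, fun h1 => (hc l).2 (fun h2 => h1 ?_)⟩
  rw [h2, map_zero]

end

end D3

theorem I_D3 : StD3 := by
  intro ι _ Z _ K Y _ p q R RY hR hpq hpq0 hfin I j hEx
  classical
  intro c hc hdc
  -- the components
  have hcomp : ∀ κ, ∃ e ∈ Ch (fun _ => (⊤ : AddSubgroup Y)) I (j + 1),
      Finsupp.mapRange.addMonoidHom (p κ) c - del Y e ∈ Ch (RY κ) I j := by
    intro κ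
    refine hEx κ _ (D3.mapRange_mem (p κ) (fun _ _ _ => AddSubgroup.mem_top _) hc) ?_
    rw [del_mapRange]
    exact D3.mapRange_mem (p κ) (fun J z hz => (hR J z).1 hz κ) hdc
  choose e he1 he2 using hcomp
  -- the finite set of components
  choose s hs using hfin
  let s0 : Finset K := c.support.biUnion (fun l => s (c l))
  have hs0 : ∀ κ, κ ∉ s0 → ∀ l, p κ (c l) = 0 := by
    intro κ hκ l
    by_cases hl : c l = 0
    · rw [hl, map_zero]
    · refine hs (c l) κ (fun h => hκ ?_)
      exact Finset.mem_biUnion.2 ⟨l, Finsupp.mem_support_iff.2 hl, h⟩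
  have hsum : ∀ κ ∈ s0, Finsupp.mapRange.addMonoidHom (q κ) (e κ) ∈
      Ch (fun _ => (⊤ : AddSubgroup Z)) I (j + 1) := fun κ _ =>
    D3.mapRange_mem (q κ) (fun _ _ _ => AddSubgroup.mem_top _) (he1 κ)
  refine ⟨∑ κ ∈ s0, Finsupp.mapRange.addMonoidHom (q κ) (e κ), sum_mem hsum, ?_⟩
  have hdel : ∀ l, (del Z (∑ κ ∈ s0, Finsupp.mapRange.addMonoidHom (q κ) (e κ))) l =
      ∑ κ ∈ s0, q κ ((del Y (e κ)) l) := by
    intro l
    rw [map_sum, Finsupp.finset_sum_apply]
    refine Finset.sum_congr rfl (fun κ _ => ?_)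
    rw [del_mapRange, D3.mapRange_apply']
  have hp : ∀ κ' l, p κ' ((del Z (∑ κ ∈ s0, Finsupp.mapRange.addMonoidHom (q κ) (e κ))) l) =
      if κ' ∈ s0 then (del Y (e κ')) l else 0 := by
    intro κ' l
    rw [hdel, map_sum]
    by_cases h : κ' ∈ s0
    · rw [if_pos h, Finset.sum_eq_single κ']
      · exact hpq _ _
      · intro κ _ hne
        exact hpq0 κ' κ _ (Ne.symm hne)
      · intro h'; exact absurd h h'
    · rw [if_neg h]
      refine Finset.sum_eq_zero (fun κ hκ => ?_)
      exact hpq0 κ' κ _ (fun h' => h (by rw [h']; exact hκ))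
  have htop : c - del Z (∑ κ ∈ s0, Finsupp.mapRange.addMonoidHom (q κ) (e κ)) ∈
      Ch (fun _ => (⊤ : AddSubgroup Z)) I j :=
    sub_mem hc (del_mem (P := fun _ => (⊤ : AddSubgroup Z)) (fun _ _ _ => le_refl _)
      (sum_mem hsum))
  intro l
  refine ⟨(hR _ _).2 (fun κ => ?_), (htop l).2⟩
  rw [Finsupp.sub_apply, map_sub, hp]
  by_cases h : κ ∈ s0
  · rw [if_pos h]
    have h1 := (he2 κ l).1
    rw [Finsupp.sub_apply, D3.mapRange_apply'] at h1
    exact h1
  · rw [if_neg h, hs0 κ h l, sub_zero]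
    exact zero_mem _

end Pool.Agent.Work.MP_e9e200_al.UP

end

section

/-!
# Project UP: item D8
-/

set_option autoImplicit false

namespace Pool.Agent.Work.MP_e9e200_al.UP

open Finsupp

namespace D8

section

variable {V M : Type} [AddCommGroup V] [AddCommGroup M] (π : V →+ M) (s : ℕ)

/-- evaluation -/
def pr (a : Fin (s + 1)) : FP π s →+ V where
  toFun := fun v => (v : Fin (s + 1) → V) a
  map_zero' := rfl
  map_add' := fun _ _ => rfl

/-- difference with the entry `0` -/
def df (a : Fin (s + 1)) : FP π s →+ π.ker where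
  toFun := fun v => ⟨(v : Fin (s + 1) → V) a - (v : Fin (s + 1) → V) 0, by
    rw [AddMonoidHom.mem_ker, map_sub, v.2 a 0, sub_self]⟩
  map_zero' := by
    apply Subtype.ext
    show (0 : V) - 0 = 0
    exact sub_zero _
  map_add' := fun x y => by
    apply Subtype.ext
    show ((x : Fin (s + 1) → V) a + (y : Fin (s + 1) → V) a) -
      ((x : Fin (s + 1) → V) 0 + (y : Fin (s + 1) → V) 0) =
      ((x : Fin (s + 1) → V) a - (x : Fin (s + 1) → V) 0) +
      ((y : Fin (s + 1) → V) a - (y : Fin (s + 1) → V) 0)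
    abel

/-- constant tuples -/
def co : V →+ FP π s where
  toFun := fun x => ⟨fun _ => x, fun _ _ => rfl⟩
  map_zero' := rfl
  map_add' := fun _ _ => rfl

/-- tuples with one nonzero entry -/
def sg (a : Fin (s + 1)) : π.ker →+ FP π s where
  toFun := fun x => ⟨Pi.single a (x : V), by
    have h : ∀ b, π ((Pi.single a (x : V) : Fin (s + 1) → V) b) = 0 := by
      intro b
      by_cases hb : b = a
      · subst hb
        rw [Pi.single_eq_same]; exact x.2
      · rw [Pi.single_eq_of_ne hb, map_zero]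
    intro b c
    rw [h b, h c]⟩
  map_zero' := by
    apply Subtype.ext
    show (Pi.single a (0 : V) : Fin (s + 1) → V) = 0
    exact Pi.single_zero a
  map_add' := fun x y => by
    apply Subtype.ext
    show (Pi.single a ((x : V) + (y : V)) : Fin (s + 1) → V) =
      Pi.single a (x : V) + Pi.single a (y : V)
    exact Pi.single_add a _ _

lemma decomp (v : FP π s) : v = co π s (pr π s 0 v) + ∑ a, sg π s a (df π s a v) := by
  apply Subtype.ext
  funext b
  rw [AddSubgroup.coe_add, Pi.add_apply, AddSubgroup.val_finsetSum, Finset.sum_apply]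
  have h1 : ∀ a, ((sg π s a (df π s a v) : FP π s) : Fin (s + 1) → V) b =
      if b = a then (v : Fin (s + 1) → V) a - (v : Fin (s + 1) → V) 0 else 0 := by
    intro a
    show (Pi.single a ((v : Fin (s + 1) → V) a - (v : Fin (s + 1) → V) 0) :
      Fin (s + 1) → V) b = _
    split_ifs with h
    · rw [h, Pi.single_eq_same]
    · rw [Pi.single_eq_of_ne h]
  rw [Finset.sum_congr rfl (fun a _ => h1 a), Finset.sum_ite_eq]
  simp only [Finset.mem_univ, if_true]
  show (v : Fin (s + 1) → V) b = (v : Fin (s + 1) → V) 0 +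
    ((v : Fin (s + 1) → V) b - (v : Fin (s + 1) → V) 0)
  abel

end

section

variable {ι : Type} [DecidableEq ι]

lemma mr_mem {Y Z : Type} [AddCommGroup Y] [AddCommGroup Z] (f : Y →+ Z)
    {P : Finset ι → AddSubgroup Y} {Q : Finset ι → AddSubgroup Z} {I : Finset ι} {k : ℕ}
    (h : ∀ J, ∀ y ∈ P J, f y ∈ Q J) {c : List ι →₀ Y} (hc : c ∈ Ch P I k) :
    Finsupp.mapRange.addMonoidHom f c ∈ Ch Q I k := by
  intro l
  have h1 : Finsupp.mapRange.addMonoidHom f c l = f (c l) := by simp
  rw [h1]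
  exact ⟨h _ _ (hc l).1, fun hl => (hc l).2 (fun h0 => hl (by rw [h0, map_zero]))⟩

lemma Ch_bot {Z : Type} [AddCommGroup Z] {I : Finset ι} {k : ℕ} {c : List ι →₀ Z} :
    c ∈ Ch (fun _ => (⊥ : AddSubgroup Z)) I k ↔ c = 0 := by
  constructor
  · intro hc
    ext l
    exact AddSubgroup.mem_bot.1 (hc l).1
  · rintro rfl
    exact zero_mem _

end

end D8

open D8 in
theorem I_D8 : StD8 := by
  intro ι _ Δ V M _ _ π Vs I m s hV hK J I' hJ hI' hd hI'Δ k hk c hc hdc
  rw [Ch_bot] at hdc
  have h0 := hV J I' hJ hI' hd hI'Δ k hk (Finsupp.mapRange.addMonoidHom (pr π s 0) c)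
    (mr_mem (P := fun K => FJ π s (Vs (J ∪ K))) (Q := fun K => Vs (J ∪ K)) (pr π s 0)
      (fun K y hy => hy 0) hc)
    (by rw [del_mapRange, hdc, map_zero]; exact zero_mem _)
  obtain ⟨e0, he0, h0⟩ := h0
  rw [Ch_bot, sub_eq_zero] at h0
  have h1 : ∀ a : Fin (s + 1), ∃ e ∈ Ch (fun K => (Vs (J ∪ K)).addSubgroupOf π.ker) I' (k + 1),
      Finsupp.mapRange.addMonoidHom (df π s a) c = del π.ker e := by
    intro a
    have h1 := hK J I' hJ hI' hd hI'Δ k hk (Finsupp.mapRange.addMonoidHom (df π s a) c)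
      (mr_mem (P := fun K => FJ π s (Vs (J ∪ K)))
        (Q := fun K => (Vs (J ∪ K)).addSubgroupOf π.ker) (df π s a) (fun K y hy => by
        rw [AddSubgroup.mem_addSubgroupOf]
        exact sub_mem (hy a) (hy 0)) hc)
      (by rw [del_mapRange, hdc, map_zero]; exact zero_mem _)
    obtain ⟨e, he, h1⟩ := h1
    rw [Ch_bot, sub_eq_zero] at h1
    exact ⟨e, he, h1⟩
  choose e he h1 using h1
  refine ⟨Finsupp.mapRange.addMonoidHom (co π s) e0 +
    ∑ a, Finsupp.mapRange.addMonoidHom (sg π s a) (e a), ?_, ?_⟩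
  · refine add_mem (mr_mem (P := fun K => Vs (J ∪ K)) (Q := fun K => FJ π s (Vs (J ∪ K)))
      (co π s) (fun K y hy => fun _ => hy) he0) (sum_mem fun a _ => ?_)
    refine mr_mem (P := fun K => (Vs (J ∪ K)).addSubgroupOf π.ker)
      (Q := fun K => FJ π s (Vs (J ∪ K))) (sg π s a) (fun K y hy => ?_) (he a)
    intro b
    show (Pi.single a (y : V) : Fin (s + 1) → V) b ∈ Vs (J ∪ K)
    by_cases hb : b = a
    · subst hb
      rw [Pi.single_eq_same]
      exact AddSubgroup.mem_addSubgroupOf.1 hy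
    · rw [Pi.single_eq_of_ne hb]; exact zero_mem _
  · rw [Ch_bot, sub_eq_zero, map_add, del_mapRange, ← h0, map_sum]
    have h2 : ∀ a, del (FP π s) (Finsupp.mapRange.addMonoidHom (sg π s a) (e a)) =
        Finsupp.mapRange.addMonoidHom (sg π s a) (Finsupp.mapRange.addMonoidHom (df π s a) c) := by
      intro a
      rw [del_mapRange, ← h1 a]
    rw [Finset.sum_congr rfl (fun a _ => h2 a)]
    apply Finsupp.ext
    intro l
    rw [Finsupp.add_apply, Finsupp.finsetSum_apply]
    have h3 := decomp π s (c l)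
    simpa using h3

end Pool.Agent.Work.MP_e9e200_al.UP

end

section

/-!
# Project UP, item E7
-/

set_option autoImplicit false

namespace Pool.Agent.Work.MP_e9e200_al.UP

open Finsupp

namespace E7

variable {G : Type} [Group G] {D : Type} (L : Lev G D)

lemma lif_single (q : L.QS) (r : ℤ) :
    L.lif (MonoidAlgebra.single q r) = MonoidAlgebra.single (L.sec q) r := by
  rw [Lev.lif]
  ext s
  simp

lemma lif_zero : L.lif 0 = 0 := by
  rw [Lev.lif]
  ext s
  simp

lemma lif_add (x y : MonoidAlgebra ℤ L.QS) : L.lif (x + y) = L.lif x + L.lif y := by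
  rw [Lev.lif, Lev.lif, Lev.lif, MonoidAlgebra.coeff_add, Finsupp.mapDomain_add]
  rfl

lemma prj_single (s : L.S) (r : ℤ) :
    L.prj (MonoidAlgebra.single s r) =
      MonoidAlgebra.single (⟨Abelianization.of (s : G), s.2⟩ : L.QS) r := by
  rw [Lev.prj]
  show MonoidAlgebra.mapDomain _ (MonoidAlgebra.single s r) = _
  rw [MonoidAlgebra.mapDomain_single]
  rfl

lemma of_sec (q : L.QS) : (⟨Abelianization.of ((L.sec q : L.S) : G), (L.sec q).2⟩ : L.QS) = q := by
  apply Subtype.ext
  exact Quotient.out_eq (q : Abelianization G)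

lemma prj_lif (x : MonoidAlgebra ℤ L.QS) : L.prj (L.lif x) = x := by
  induction x using MonoidAlgebra.induction_linear with
  | zero => rw [lif_zero, map_zero]
  | add f g hf hg => rw [lif_add, map_add, hf, hg]
  | single q r => rw [lif_single, prj_single, of_sec]

lemma aug_single {S : Type} [Monoid S] (s : S) (r : ℤ) :
    aug S (MonoidAlgebra.single s r) = r := by
  show (MonoidAlgebra.lift ℤ ℤ S (1 : S →* ℤ)) (MonoidAlgebra.single s r) = r
  rw [MonoidAlgebra.lift_single]
  simp

lemma aug_prj (x : MonoidAlgebra ℤ L.S) : aug L.QS (L.prj x) = aug L.S x := by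
  induction x using MonoidAlgebra.induction_linear with
  | zero => rw [map_zero, map_zero, map_zero]
  | add f g hf hg => rw [map_add, map_add, hf, hg, map_add]
  | single s r => rw [prj_single, aug_single, aug_single]

lemma prj_KS (hL : L.Good) (E : D → ℤ) {x : MonoidAlgebra ℤ L.S} (hx : x ∈ KS L.S (L.N E)) :
    L.prj x = 0 := by
  rw [KS] at hx
  induction hx using Submodule.span_induction with
  | mem x hx =>
    obtain ⟨n, hn, rfl⟩ := hx
    have h1 : Abelianization.of (n : G) = 1 := by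
      have h2 : (n : G) ∈ commutator G := hL.N_le E hn
      rw [← Abelianization.ker_of, MonoidHom.mem_ker] at h2
      exact h2
    rw [map_sub, map_one]
    show L.prj (MonoidAlgebra.single n 1) - 1 = 0
    rw [prj_single, sub_eq_zero, MonoidAlgebra.one_def]
    congr 1
    exact Subtype.ext h1
  | zero => exact map_zero _
  | add x y _ _ hx hy => rw [map_add, hx, hy, add_zero]
  | smul a x _ hx => rw [smul_eq_mul, map_mul, hx, mul_zero]

lemma prj_mu {a b : ℕ} (M : Fin a → Fin b → MonoidAlgebra ℤ L.QS)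
    (y : Fin a → MonoidAlgebra ℤ L.S) (c : Fin b) :
    L.prj (mu (fun a b => L.lif (M a b)) y c) = mu M (fun a => L.prj (y a)) c := by
  show L.prj (∑ i, y i * L.lif (M i c)) = ∑ i, L.prj (y i) * M i c
  rw [map_sum]
  refine Finset.sum_congr rfl (fun i _ => ?_)
  rw [map_mul, prj_lif]

lemma exists_Wt [Fintype D] {P : Type} [Monoid P] {n : ℕ} (χ : D → P → ℤ) (δ : Fin n → D → ℤ)
    (x : Fin n → MonoidAlgebra ℤ P) : ∃ F : D → ℤ, Wt χ δ F x := by
  have h : ∀ i : D, ∃ F : ℤ, ∀ b q, (x b).coeff q ≠ 0 → χ i q + δ b i ≤ F := by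
    intro i
    have hfin : (⋃ b : Fin n, (fun q => χ i q + δ b i) '' ((x b).coeff.support : Set P)).Finite :=
      Set.finite_iUnion (fun b => (Finset.finite_toSet _).image _)
    obtain ⟨F, hF⟩ := hfin.bddAbove
    refine ⟨F, fun b q hq => hF ?_⟩
    rw [Set.mem_iUnion]
    exact ⟨b, q, by simpa using hq, rfl⟩
  choose F hF using h
  exact ⟨F, fun b q hq i => hF i b q hq⟩

lemma KS_mono {S : Submonoid G} {N N' : Subgroup G} (h : N ≤ N') : KS S N ≤ KS S N' := by
  refine Submodule.span_mono ?_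
  rintro x ⟨n, hn, rfl⟩
  exact ⟨n, h hn, rfl⟩

lemma level_mono (hL : L.Good) {t t' : ℕ} (h : t ≤ t') (F : D → ℤ) :
    KS L.S (L.N ((t : ℤ) • L.e - F)) ≤ KS L.S (L.N ((t' : ℤ) • L.e - F)) := by
  refine KS_mono (hL.N_mono _ _ ?_)
  intro i
  have h1 := hL.e_pos i
  have h2 : (t : ℤ) ≤ (t' : ℤ) := by exact_mod_cast h
  simp only [Pi.sub_apply, Pi.smul_apply, smul_eq_mul]
  have := mul_le_mul_of_nonneg_right h2 h1.le
  linarith

lemma LCyc_mono (hL : L.Good) {n : ℕ → ℕ} (δ : ∀ j, Fin (n j) → D → ℤ)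
    (M : ∀ j, Fin (n (j + 1)) → Fin (n j) → MonoidAlgebra ℤ L.QS) {t t' : ℕ} (h : t ≤ t') :
    ∀ (i : ℕ) (x : Fin (n i) → MonoidAlgebra ℤ L.S), L.LCyc δ M t i x → L.LCyc δ M t' i x
  | 0, _, _ => trivial
  | i + 1, _, hx => fun b => level_mono L hL h (δ i b) (hx b)

end E7

theorem I_E7 (h3 : StKS3) : StE7 := by
  intro G _ D _ L hL n δ M hM m t0 hstep t ht i hi x hx h0
  -- a boundary in the quotient
  have c1 : ∃ y : Fin (n (i + 1)) → MonoidAlgebra ℤ L.QS, mu (M i) y = fun b => L.prj (x b) := by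
    cases i with
    | zero =>
      obtain ⟨F, hF⟩ := E7.exists_Wt (fun i (q : L.QS) => L.χ i q) (δ 0) (fun b => L.prj (x b))
      have hs : ∑ b, aug L.QS (L.prj (x b)) = 0 := by
        rw [← h0 rfl]
        exact Finset.sum_congr rfl (fun b _ => E7.aug_prj L (x b))
      obtain ⟨y, _, hy⟩ := hM.ex0 F _ hF hs
      exact ⟨y, hy⟩
    | succ j =>
      obtain ⟨F, hF⟩ := E7.exists_Wt (fun i (q : L.QS) => L.χ i q) (δ (j + 1))
        (fun b => L.prj (x b))
      have hs : mu (M j) (fun b => L.prj (x b)) = 0 := by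
        funext b
        rw [← E7.prj_mu L (M j) x b]
        exact E7.prj_KS L hL _ (hx b)
      obtain ⟨y, _, hy⟩ := hM.ex j F _ hF hs
      exact ⟨y, hy⟩
  obtain ⟨y, hy⟩ := c1
  -- a boundary at a large level
  have c2 : ∃ s : ℕ, L.LBd δ M (t + s) i x := by
    have h4 : ∀ b : Fin (n i), ∃ t1 : ℕ, ∀ t' : ℕ, t1 ≤ t' →
        x b - mu (fun a b => L.lif (M i a b)) (fun a => L.lif (y a)) b ∈
          KS L.S (L.N ((t' : ℤ) • L.e - δ i b)) := by
      intro b
      have h5 : L.prj (x b - mu (fun a b => L.lif (M i a b)) (fun a => L.lif (y a)) b) = 0 := by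
        rw [map_sub, E7.prj_mu]
        have h6 : (fun a => L.prj (L.lif (y a))) = y := funext (fun a => E7.prj_lif L (y a))
        rw [h6, hy, sub_self]
      obtain ⟨t1, ht1⟩ := h3 G D L hL _ h5 (- δ i b)
      refine ⟨t1, fun t' ht' => ?_⟩
      have h7 := ht1 t' ht' 1
      rw [one_mul, ← sub_eq_add_neg] at h7
      exact h7
    choose t1 ht1 using h4
    refine ⟨Finset.univ.sup t1, fun a => L.lif (y a), fun b => ht1 b _ ?_⟩
    exact (Finset.le_sup (Finset.mem_univ b)).trans (Nat.le_add_left _ _)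
  obtain ⟨s, hs⟩ := c2
  -- descent
  clear h0
  induction s with
  | zero => exact hs
  | succ s ih =>
    exact ih (hstep (t + s) (ht.trans (Nat.le_add_right _ _)) i hi x
      (E7.LCyc_mono L hL δ M (Nat.le_add_right _ _) i x hx) hs)

end Pool.Agent.Work.MP_e9e200_al.UP

end

section

/-!
# Project UP: item F6, induced modules
-/

set_option autoImplicit false

namespace Pool.Agent.Work.MP_e9e200_al.UP

open Finsupp

namespace F6

section

variable {G : Type} [Group G] {S : Submonoid G} {N : Subgroup G}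

/-- the inclusion of `N` in `S` -/
def inc (hN : ∀ n ∈ N, n ∈ S) : N →* S where
  toFun := fun n => ⟨n, hN n n.2⟩
  map_one' := rfl
  map_mul' := fun _ _ => rfl

/-- the inclusion of the group ring -/
noncomputable def io (hN : ∀ n ∈ N, n ∈ S) : MonoidAlgebra ℤ N →+* MonoidAlgebra ℤ S :=
  MonoidAlgebra.mapDomainRingHom ℤ (inc hN)

lemma io_single (hN : ∀ n ∈ N, n ∈ S) (n : N) (c : ℤ) :
    io hN (MonoidAlgebra.single n c) = MonoidAlgebra.single (inc hN n) c := by
  simp [io]

variable (S N) in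
/-- representatives -/
noncomputable def rp (κ : G ⧸ N) : S := Function.invFun (fun s : S => ((s : G) : G ⧸ N)) κ

lemma rp_eq (s : S) : ((rp S N ((s : G) : G ⧸ N) : G) : G ⧸ N) = ((s : G) : G ⧸ N) :=
  Function.invFun_eq (f := fun s : S => ((s : G) : G ⧸ N)) ⟨s, rfl⟩

/-- the component in `N` -/
noncomputable def nn (N : Subgroup G) (s : S) : N :=
  ⟨(rp S N ((s : G) : G ⧸ N) : G)⁻¹ * s, QuotientGroup.eq.1 (rp_eq s)⟩

lemma mul_nn (hN : ∀ n ∈ N, n ∈ S) (s : S) :
    rp S N ((s : G) : G ⧸ N) * inc hN (nn N s) = s := by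
  apply Subtype.ext
  show (rp S N ((s : G) : G ⧸ N) : G) * ((rp S N ((s : G) : G ⧸ N) : G)⁻¹ * s) = s
  rw [mul_inv_cancel_left]

lemma coe_mul (hN : ∀ n ∈ N, n ∈ S) (s : S) (n : N) :
    (((s * inc hN n : S) : G) : G ⧸ N) = ((s : G) : G ⧸ N) := by
  rw [QuotientGroup.eq]
  show ((s : G) * n)⁻¹ * s ∈ N
  rw [mul_inv_rev, mul_assoc, inv_mul_cancel, mul_one]
  exact N.inv_mem n.2

lemma nn_mul (hN : ∀ n ∈ N, n ∈ S) (s : S) (n : N) : nn N (s * inc hN n) = nn N s * n := by
  apply Subtype.ext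
  show (rp S N (((s * inc hN n : S) : G) : G ⧸ N) : G)⁻¹ * ((s : G) * n) =
    ((rp S N ((s : G) : G ⧸ N) : G)⁻¹ * s) * n
  rw [coe_mul hN, mul_assoc]

variable (S N) in
/-- the components -/
noncomputable def cp : MonoidAlgebra ℤ S →+ ((G ⧸ N) →₀ MonoidAlgebra ℤ N) :=
  (Finsupp.liftAddHom (fun s : S => (Finsupp.singleAddHom ((s : G) : G ⧸ N)).comp
    (MonoidAlgebra.singleAddHom (nn N s)))).comp
    (MonoidAlgebra.coeffAddEquiv : MonoidAlgebra ℤ S ≃+ (S →₀ ℤ)).toAddMonoidHom

lemma cp_single (s : S) (c : ℤ) : cp S N (MonoidAlgebra.single s c) =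
    Finsupp.single ((s : G) : G ⧸ N) (MonoidAlgebra.single (nn N s) c) := by
  show Finsupp.liftAddHom _ (MonoidAlgebra.single s c).coeff = _
  rw [MonoidAlgebra.coeff_single, Finsupp.liftAddHom_apply_single]
  rfl

lemma cp_mul (hN : ∀ n ∈ N, n ∈ S) (x : MonoidAlgebra ℤ S) (r : MonoidAlgebra ℤ N) (κ : G ⧸ N) :
    cp S N (x * io hN r) κ = cp S N x κ * r := by
  classical
  induction x using MonoidAlgebra.induction_linear with
  | zero => simp
  | add a b ha hb => rw [add_mul, map_add, Finsupp.add_apply, ha, hb, map_add, Finsupp.add_apply,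
      add_mul]
  | single s c =>
    induction r using MonoidAlgebra.induction_linear with
    | zero => simp
    | add a b ha hb => rw [map_add, mul_add, map_add, Finsupp.add_apply, ha, hb, mul_add]
    | single n d =>
      rw [io_single, MonoidAlgebra.single_mul_single, cp_single, cp_single, coe_mul hN, nn_mul hN,
        Finsupp.single_apply, Finsupp.single_apply]
      split_ifs
      · rw [MonoidAlgebra.single_mul_single]
      · rw [zero_mul]

/-- the decomposition -/
lemma cp_sum (hN : ∀ n ∈ N, n ∈ S) (x : MonoidAlgebra ℤ S) (s : Finset (G ⧸ N))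
    (hs : (cp S N x).support ⊆ s) :
    x = ∑ κ ∈ s, MonoidAlgebra.of ℤ S (rp S N κ) * io hN (cp S N x κ) := by
  classical
  have h1 : x = (cp S N x).sum (fun κ r => MonoidAlgebra.of ℤ S (rp S N κ) * io hN r) := by
    clear hs
    induction x using MonoidAlgebra.induction_linear with
    | zero => simp
    | add a b ha hb =>
      rw [map_add, Finsupp.sum_add_index' (fun κ => by rw [map_zero, mul_zero])
        (fun κ r r' => by rw [map_add, mul_add]), ← ha, ← hb]
    | single t c =>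
      rw [cp_single, Finsupp.sum_single_index (by rw [map_zero, mul_zero]), io_single,
        MonoidAlgebra.of_apply, MonoidAlgebra.single_mul_single, mul_nn hN, one_mul]
  conv_lhs => rw [h1]
  rw [Finsupp.sum]
  refine Finset.sum_subset hs fun κ _ hκ => ?_
  rw [Finsupp.notMem_support_iff.1 hκ, map_zero, mul_zero]

/-- the induced submodule -/
noncomputable def hat (hN : ∀ n ∈ N, n ∈ S) {k : ℕ}
    (U : Submodule (MonoidAlgebra ℤ N) (Fin k → MonoidAlgebra ℤ N)) :
    Submodule (MonoidAlgebra ℤ S) (Fin k → MonoidAlgebra ℤ S) :=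
  Submodule.span _ {x | ∃ u ∈ U, x = fun i => io hN (u i)}

lemma mu_io (hN : ∀ n ∈ N, n ∈ S) {l k : ℕ} (u : Fin l → Fin k → MonoidAlgebra ℤ N)
    (c : Fin l → MonoidAlgebra ℤ N) :
    mu (fun a i => io hN (u a i)) (fun a => io hN (c a)) = fun i => io hN (mu u c i) := by
  funext i
  show ∑ a, io hN (c a) * io hN (u a i) = io hN (∑ a, c a * u a i)
  rw [map_sum]
  exact Finset.sum_congr rfl fun a _ => (map_mul _ _ _).symm

lemma hat_eq_range (hN : ∀ n ∈ N, n ∈ S) {l k : ℕ} (u : Fin l → Fin k → MonoidAlgebra ℤ N) :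
    hat hN (Submodule.span _ (Set.range u)) =
      LinearMap.range (mu (fun a i => io hN (u a i))) := by
  apply le_antisymm
  · refine Submodule.span_le.2 ?_
    rintro _ ⟨w, hw, rfl⟩
    obtain ⟨c, rfl⟩ := (Submodule.mem_span_range_iff_exists_fun _).1 hw
    refine ⟨fun a => io hN (c a), ?_⟩
    rw [mu_io]
    funext i
    congr 1
    show ∑ a, c a * u a i = (∑ a, c a • u a) i
    rw [Finset.sum_apply]
    rfl
  · rintro _ ⟨x, rfl⟩
    have h : mu (fun a i => io hN (u a i)) x = ∑ a, x a • (fun i => io hN (u a i)) := by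
      funext i
      rw [Finset.sum_apply]
      rfl
    rw [h]
    refine Submodule.sum_mem _ fun a _ => Submodule.smul_mem _ _ ?_
    exact Submodule.subset_span ⟨u a, Submodule.subset_span ⟨a, rfl⟩, rfl⟩

lemma ker_eq_hat (hN : ∀ n ∈ N, n ∈ S) {l k : ℕ} (u : Fin l → Fin k → MonoidAlgebra ℤ N) :
    LinearMap.ker (mu (fun a i => io hN (u a i))) = hat hN (LinearMap.ker (mu u)) := by
  classical
  apply le_antisymm
  · intro x hx
    rw [LinearMap.mem_ker] at hx
    set s : Finset (G ⧸ N) := Finset.univ.biUnion fun a => (cp S N (x a)).support with hs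
    have h1 : x = ∑ κ ∈ s, MonoidAlgebra.of ℤ S (rp S N κ) •
        (fun a => io hN (cp S N (x a) κ)) := by
      funext a
      rw [Finset.sum_apply]
      exact cp_sum hN (x a) s (fun κ hκ => Finset.mem_biUnion.2 ⟨a, Finset.mem_univ _, hκ⟩)
    rw [h1]
    refine Submodule.sum_mem _ fun κ _ => Submodule.smul_mem _ _ ?_
    refine Submodule.subset_span ⟨fun a => cp S N (x a) κ, ?_, rfl⟩
    rw [LinearMap.mem_ker]
    funext i
    have h2 : (∑ a, x a * io hN (u a i)) = 0 := congrFun hx i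
    have h3 := congrArg (fun y => cp S N y κ) h2
    simp only [map_zero, Finsupp.zero_apply, map_sum] at h3
    rw [Finsupp.finsetSum_apply] at h3
    show ∑ a, cp S N (x a) κ * u a i = 0
    rw [← h3]
    exact Finset.sum_congr rfl fun a _ => (cp_mul hN _ _ _).symm
  · refine Submodule.span_le.2 ?_
    rintro _ ⟨w, hw, rfl⟩
    rw [SetLike.mem_coe, LinearMap.mem_ker] at *
    rw [mu_io, hw]
    funext i
    exact map_zero _

end

lemma IsFP_congr {R : Type} [Ring R] {M M' : Type} [AddCommGroup M] [Module R M]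
    [AddCommGroup M'] [Module R M'] (e : M ≃ₗ[R] M') {j : ℕ} (h : IsFP R M j) : IsFP R M' j := by
  obtain ⟨P, d, ε, h1, h2, h3, h4, h5⟩ := h
  refine ⟨P, d, e.toLinearMap ∘ₗ ε, h1, h2, e.surjective.comp h3, ?_, h5⟩
  intro y
  rw [← h4 y]
  show e (ε y) = 0 ↔ _
  exact e.map_eq_zero_iff

variable {G : Type} [Group G] {S : Submonoid G} {N : Subgroup G}

theorem claim [IsNoetherianRing (MonoidAlgebra ℤ N)] (h0 : StF0) (h1 : StF1)
    (hN : ∀ n ∈ N, n ∈ S) : ∀ (j k : ℕ)
    (U : Submodule (MonoidAlgebra ℤ N) (Fin k → MonoidAlgebra ℤ N)),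
    IsFP (MonoidAlgebra ℤ S) (hat hN U) j := by
  intro j
  induction j with
  | zero =>
    intro k U
    obtain ⟨l, u, hu⟩ := Submodule.fg_iff_exists_fin_generating_family.1
      (IsNoetherian.noetherian U)
    apply h0
    rw [← hu, hat_eq_range]
    infer_instance
  | succ j ih =>
    intro k U
    obtain ⟨l, u, hu⟩ := Submodule.fg_iff_exists_fin_generating_family.1
      (IsNoetherian.noetherian U)
    rw [← hu, hat_eq_range]
    refine h1 _ (Fin l → MonoidAlgebra ℤ S) _
      (mu (fun a i => io hN (u a i))).rangeRestrict j inferInstance inferInstance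
      (LinearMap.surjective_rangeRestrict _) ?_
    rw [LinearMap.ker_rangeRestrict, ker_eq_hat]
    exact ih _ _

end F6

theorem I_F6 (h0 : StF0) (h1 : StF1) (h3 : StF3) : StF6 := by
  have _ := h3
  intro G _ S N hN hfg hab j
  cases j with
  | zero =>
    exact h0 _ _ inferInstance
  | succ j =>
    refine h1 _ (MonoidAlgebra ℤ S) _ (KS S N).mkQ j inferInstance inferInstance
      (Submodule.mkQ_surjective _) ?_
    rw [Submodule.ker_mkQ]
    have hnoeth : IsNoetherianRing (MonoidAlgebra ℤ N) := by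
      let _ : CommGroup N := { (inferInstance : Group N) with
        mul_comm := fun a b => Subtype.ext (hab a a.2 b b.2) }
      have : Monoid.FG N := by
        have : Group.FG N := (Group.fg_iff_subgroup_fg N).2 hfg
        exact (Group.fg_iff_monoid_fg).1 inferInstance
      exact Algebra.FiniteType.isNoetherianRing ℤ (MonoidAlgebra ℤ N)
    set U : Submodule (MonoidAlgebra ℤ N) (Fin 1 → MonoidAlgebra ℤ N) :=
      Submodule.span _ {x | ∃ n : N, x = fun _ => MonoidAlgebra.of ℤ N n - 1} with hU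
    have key : (KS S N) = (F6.hat hN U).map
        (LinearEquiv.funUnique (Fin 1) (MonoidAlgebra ℤ S) (MonoidAlgebra ℤ S)).toLinearMap := by
      apply le_antisymm
      · refine Submodule.span_le.2 ?_
        rintro _ ⟨n, hn, rfl⟩
        refine ⟨fun _ => MonoidAlgebra.of ℤ S n - 1, ?_, rfl⟩
        refine Submodule.subset_span ⟨fun _ => MonoidAlgebra.of ℤ N ⟨n, hn⟩ - 1,
          Submodule.subset_span ⟨⟨n, hn⟩, rfl⟩, ?_⟩
        funext i
        rw [map_sub, map_one, MonoidAlgebra.of_apply, MonoidAlgebra.of_apply, F6.io_single]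
        rfl
      · rw [F6.hat, Submodule.map_span_le]
        rintro _ ⟨w, hw, rfl⟩
        show F6.io hN (w 0) ∈ KS S N
        rw [hU] at hw
        refine Submodule.span_induction (p := fun w _ => F6.io hN (w 0) ∈ KS S N) ?_ ?_ ?_ ?_ hw
        · rintro _ ⟨n, rfl⟩
          refine Submodule.subset_span ⟨F6.inc hN n, n.2, ?_⟩
          rw [map_sub, map_one, MonoidAlgebra.of_apply, MonoidAlgebra.of_apply, F6.io_single]
        · rw [Pi.zero_apply, map_zero]; exact zero_mem _
        · intro x y _ _ hx hy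
          rw [Pi.add_apply, map_add]; exact add_mem hx hy
        · intro a x _ hx
          rw [Pi.smul_apply, smul_eq_mul, map_mul]
          exact Submodule.smul_mem _ _ hx
    rw [key]
    exact F6.IsFP_congr (LinearEquiv.submoduleMap _ _) (F6.claim h0 h1 hN j 1 U)

end Pool.Agent.Work.MP_e9e200_al.UP

end

section

/-!
# Project UP, item F7: from exactness at large levels to type FP_m
-/

set_option autoImplicit false

namespace Pool.Agent.Work.MP_e9e200_al.UP

open Finsupp

namespace F7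

variable {G : Type} [Group G] {D : Type} (L : Lev G D)

/-! ### The lift and the projection -/

theorem lif_sum (y : MonoidAlgebra ℤ L.QS) :
    L.lif y = ∑ q ∈ y.coeff.support, y.coeff q • MonoidAlgebra.of ℤ L.S (L.sec q) := by
  unfold Lev.lif
  rw [Finsupp.mapDomain, Finsupp.sum, MonoidAlgebra.ofCoeff_sum]
  refine Finset.sum_congr rfl fun q _ => ?_
  rw [MonoidAlgebra.ofCoeff_single, MonoidAlgebra.of_apply, MonoidAlgebra.smul_single, smul_eq_mul,
    mul_one]

theorem of_sec (q : L.QS) : Abelianization.of ((L.sec q : L.S) : G) = (q : Abelianization G) :=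
  Quotient.out_eq (q : Abelianization G)

theorem prj_of (s : L.S) : L.prj (MonoidAlgebra.of ℤ L.S s) =
    MonoidAlgebra.of ℤ L.QS ⟨Abelianization.of (s : G), s.2⟩ := by
  unfold Lev.prj
  rw [MonoidAlgebra.of_apply, MonoidAlgebra.of_apply]
  simp only [MonoidAlgebra.mapDomainRingHom_apply, MonoidAlgebra.mapDomain_single]
  rfl

theorem prj_lif (y : MonoidAlgebra ℤ L.QS) : L.prj (L.lif y) = y := by
  rw [lif_sum, map_sum]
  have h : ∀ q ∈ y.coeff.support, L.prj (y.coeff q • MonoidAlgebra.of ℤ L.S (L.sec q)) =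
      MonoidAlgebra.single q (y.coeff q) := by
    intro q _
    rw [map_zsmul, prj_of]
    have h1 : (⟨Abelianization.of ((L.sec q : L.S) : G), (L.sec q).2⟩ : L.QS) = q :=
      Subtype.ext (of_sec L q)
    rw [h1, MonoidAlgebra.of_apply, MonoidAlgebra.smul_single, smul_eq_mul, mul_one]
  rw [Finset.sum_congr rfl h]
  apply MonoidAlgebra.coeff_injective
  rw [MonoidAlgebra.coeff_sum]
  simp only [MonoidAlgebra.coeff_single]
  exact Finsupp.sum_single y.coeff

theorem aug_of {S : Type} [Monoid S] (s : S) : aug S (MonoidAlgebra.of ℤ S s) = 1 := by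
  unfold aug
  simp

theorem aug_prj (x : MonoidAlgebra ℤ L.S) : aug L.QS (L.prj x) = aug L.S x := by
  induction x using MonoidAlgebra.induction_on with
  | of s => rw [prj_of, aug_of, aug_of]
  | add x y hx hy => rw [map_add, map_add, map_add, hx, hy]
  | smul r x hx => rw [map_zsmul, map_zsmul, map_zsmul, hx]

theorem prj_mu {a b : ℕ} (M : Fin a → Fin b → MonoidAlgebra ℤ L.QS)
    (y : Fin a → MonoidAlgebra ℤ L.S) (j : Fin b) :
    L.prj (mu (fun a b => L.lif (M a b)) y j) = mu M (fun a => L.prj (y a)) j := by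
  show L.prj (∑ i, y i * L.lif (M i j)) = ∑ i, L.prj (y i) * M i j
  rw [map_sum]
  refine Finset.sum_congr rfl fun i _ => ?_
  rw [map_mul, prj_lif]

/-! ### The left ideals -/

theorem N_sub (hL : L.Good) (E : D → ℤ) : ∀ x ∈ L.N E, x ∈ L.S := by
  intro x hx
  have h := hL.N_le E hx
  show Abelianization.of x ∈ L.QS
  have h1 : Abelianization.of x = 1 := by
    have h2 : x ∈ (Abelianization.of : G →* Abelianization G).ker := by
      rw [Abelianization.ker_of]
      exact h
    exact h2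
  rw [h1]
  exact L.QS.one_mem

theorem χ_one (hL : L.Good) (i : D) : L.χ i 1 = 0 := by
  have := hL.χ_mul i 1 1
  rw [one_mul] at this
  omega

theorem χ_inv (hL : L.Good) (i : D) (a : Abelianization G) : L.χ i a⁻¹ = - L.χ i a := by
  have := hL.χ_mul i a a⁻¹
  rw [mul_inv_cancel, χ_one L hL] at this
  omega

theorem mul_lif (hL : L.Good) (k2 : StKS2) (E E' : D → ℤ) (y : MonoidAlgebra ℤ L.QS)
    (hy : ∀ q, y.coeff q ≠ 0 → ∀ i, E i + L.χ i q ≤ E' i) :
    ∀ x ∈ KS L.S (L.N E), x * L.lif y ∈ KS L.S (L.N E') := by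
  intro x hx
  rw [lif_sum, Finset.mul_sum]
  refine Submodule.sum_mem _ fun q hq => ?_
  rw [mul_smul_comm]
  refine Submodule.smul_of_tower_mem _ _ ?_
  refine k2 G L.S (L.N E) (L.N E') (L.sec q) ?_ (N_sub L hL E') x hx
  intro n hn
  have h1 := hL.N_conj E (((L.sec q : L.S) : G)⁻¹) n hn
  rw [inv_inv] at h1
  refine hL.N_mono _ _ ?_ h1
  intro i
  have h2 := hy q (Finsupp.mem_support_iff.1 hq) i
  show E i - L.χ i (Abelianization.of (((L.sec q : L.S) : G)⁻¹)) ≤ E' i
  rw [map_inv, χ_inv L hL, of_sec]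
  omega

theorem aug_KS (N : Subgroup G) (x : MonoidAlgebra ℤ L.S) (hx : x ∈ KS L.S N) :
    aug L.S x = 0 := by
  refine Submodule.span_induction (p := fun x _ => aug L.S x = 0) ?_ ?_ ?_ ?_ hx
  · rintro _ ⟨n, -, rfl⟩
    rw [map_sub, aug_of, map_one, sub_self]
  · exact map_zero _
  · intro x y _ _ hx hy
    rw [map_add, hx, hy, add_zero]
  · intro a x _ hx
    rw [smul_eq_mul, map_mul, hx, mul_zero]

/-- the augmentation as a linear map -/
noncomputable def augL (S : Type) [Monoid S] : MonoidAlgebra ℤ S →ₗ[MonoidAlgebra ℤ S] Triv S where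
  toFun := fun x => (aug S x : ℤ)
  map_add' := fun x y => by rw [map_add]; rfl
  map_smul' := fun r x => by
    show (aug S (r * x) : ℤ) = _
    rw [map_mul]
    rfl

theorem augL_eq {S : Type} [Monoid S] (x : MonoidAlgebra ℤ S) :
    (augL S x : Triv S) = (aug S x : ℤ) := rfl

/-! ### The complex -/

section

variable {n : ℕ → ℕ} (δ : ∀ j, Fin (n j) → D → ℤ) (t : ℕ)

/-- the left ideals at the level `t` -/
noncomputable abbrev Kt (i : ℕ) (b : Fin (n i)) :
    Submodule (MonoidAlgebra ℤ L.S) (MonoidAlgebra ℤ L.S) :=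
  KS L.S (L.N ((t : ℤ) • L.e - δ i b))

/-- the modules at the level `t` -/
abbrev CC (i : ℕ) : Type := ∀ b : Fin (n i), MonoidAlgebra ℤ L.S ⧸ Kt L δ t i b

/-- the projection -/
noncomputable def pj (i : ℕ) : (Fin (n i) → MonoidAlgebra ℤ L.S) →ₗ[MonoidAlgebra ℤ L.S]
    CC L δ t i :=
  LinearMap.pi fun b => (Kt L δ t i b).mkQ ∘ₗ LinearMap.proj b

theorem pj_apply (i : ℕ) (x : Fin (n i) → MonoidAlgebra ℤ L.S) (b : Fin (n i)) :
    pj L δ t i x b = (Kt L δ t i b).mkQ (x b) := rfl

theorem pj_surj (i : ℕ) : Function.Surjective (pj L δ t i) := by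
  intro y
  choose x hx using fun b => Submodule.mkQ_surjective (Kt L δ t i b) (y b)
  exact ⟨x, funext hx⟩

theorem pj_eq_zero (i : ℕ) (x : Fin (n i) → MonoidAlgebra ℤ L.S) :
    pj L δ t i x = 0 ↔ ∀ b, x b ∈ Kt L δ t i b := by
  rw [funext_iff]
  refine forall_congr' fun b => ?_
  rw [pj_apply, Pi.zero_apply, Submodule.mkQ_apply, Submodule.Quotient.mk_eq_zero]

variable (M : ∀ j, Fin (n (j + 1)) → Fin (n j) → MonoidAlgebra ℤ L.QS)

/-- right multiplication -/
noncomputable def rm (i : ℕ) (b : Fin (n (i + 1))) (b' : Fin (n i)) :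
    MonoidAlgebra ℤ L.S →ₗ[MonoidAlgebra ℤ L.S] MonoidAlgebra ℤ L.S ⧸ Kt L δ t i b' :=
  (Kt L δ t i b').mkQ ∘ₗ
    LinearMap.toSpanSingleton (MonoidAlgebra ℤ L.S) (MonoidAlgebra ℤ L.S) (L.lif (M i b b'))

theorem rm_ker (hL : L.Good) (k2 : StKS2) (hF : FRes (fun i (q : L.QS) => L.χ i q) n δ M) (i : ℕ)
    (b : Fin (n (i + 1))) (b' : Fin (n i)) :
    Kt L δ t (i + 1) b ≤ LinearMap.ker (rm L δ t M i b b') := by
  intro x hx
  rw [LinearMap.mem_ker]
  show (Kt L δ t i b').mkQ (x * L.lif (M i b b')) = 0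
  rw [Submodule.mkQ_apply, Submodule.Quotient.mk_eq_zero]
  refine mul_lif L hL k2 _ _ _ ?_ x hx
  intro q hq j
  have h := hF.wt i b b' q hq j
  have h' : L.χ j q + δ i b' j ≤ δ (i + 1) b j := h
  show ((t : ℤ) • L.e) j - δ (i + 1) b j + L.χ j q ≤ ((t : ℤ) • L.e) j - δ i b' j
  omega

/-- the differential -/
noncomputable def dq (hL : L.Good) (k2 : StKS2)
    (hF : FRes (fun i (q : L.QS) => L.χ i q) n δ M) (i : ℕ) :
    CC L δ t (i + 1) →ₗ[MonoidAlgebra ℤ L.S] CC L δ t i :=
  LinearMap.pi fun b' => ∑ b, ((Kt L δ t (i + 1) b).liftQ (rm L δ t M i b b')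
    (rm_ker L δ t M hL k2 hF i b b')) ∘ₗ LinearMap.proj b

theorem dq_pj (hL : L.Good) (k2 : StKS2) (hF : FRes (fun i (q : L.QS) => L.χ i q) n δ M) (i : ℕ)
    (x : Fin (n (i + 1)) → MonoidAlgebra ℤ L.S) :
    dq L δ t M hL k2 hF i (pj L δ t (i + 1) x) =
      pj L δ t i (mu (fun a b => L.lif (M i a b)) x) := by
  funext b'
  rw [pj_apply]
  show (∑ b, ((Kt L δ t (i + 1) b).liftQ (rm L δ t M i b b')
    (rm_ker L δ t M hL k2 hF i b b')) ∘ₗ LinearMap.proj b) (pj L δ t (i + 1) x) =
    (Kt L δ t i b').mkQ (∑ b, x b * L.lif (M i b b'))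
  rw [LinearMap.sum_apply, map_sum]
  refine Finset.sum_congr rfl fun b _ => ?_
  rfl

theorem aug_ker (i : ℕ) (b : Fin (n i)) :
    Kt L δ t i b ≤ LinearMap.ker (augL L.S) := by
  intro x hx
  rw [LinearMap.mem_ker]
  exact aug_KS L _ x hx

/-- the augmentation -/
noncomputable def ep : CC L δ t 0 →ₗ[MonoidAlgebra ℤ L.S] Triv L.S :=
  ∑ b, ((Kt L δ t 0 b).liftQ (augL L.S) (aug_ker L δ t 0 b)) ∘ₗ LinearMap.proj b

theorem ep_pj (x : Fin (n 0) → MonoidAlgebra ℤ L.S) :
    (ep L δ t (pj L δ t 0 x) : Triv L.S) = (∑ b, aug L.S (x b) : ℤ) := by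
  unfold ep
  rw [LinearMap.sum_apply]
  have h : ∀ b : Fin (n 0), (((Kt L δ t 0 b).liftQ (augL L.S) (aug_ker L δ t 0 b)) ∘ₗ
      LinearMap.proj b) (pj L δ t 0 x) = (augL L.S (x b) : Triv L.S) := fun b => rfl
  rw [Finset.sum_congr rfl fun b _ => h b]
  rfl

end

end F7

open F7 in
theorem I_F7 (h4 : StF4) (h5 : StF5) (h6 : StF6) (k2 : StKS2) (k3 : StKS3) : StF7 := by
  classical
  intro G _ hM D _ L hL hfg n δ M hF m hex
  obtain ⟨t0, ht0⟩ := hex
  -- the level
  have hu : ∀ i, ∀ b : Fin (n (i + 2)), ∀ b'' : Fin (n i),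
      L.prj (∑ b' : Fin (n (i + 1)), L.lif (M (i + 1) b b') * L.lif (M i b' b'')) = 0 := by
    intro i b b''
    have h := congrFun (hF.dd i (Pi.single b 1)) b''
    rw [map_sum]
    have h1 : mu (M i) (mu (M (i + 1)) (Pi.single b 1)) b'' =
        ∑ b' : Fin (n (i + 1)), M (i + 1) b b' * M i b' b'' := by
      show ∑ b', (∑ a, (Pi.single b (1 : MonoidAlgebra ℤ L.QS) : Fin (n (i + 2)) → _) a *
        M (i + 1) a b') * M i b' b'' = _
      refine Finset.sum_congr rfl fun b' _ => ?_
      congr 1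
      rw [Finset.sum_eq_single b]
      · rw [Pi.single_eq_same, one_mul]
      · intro a _ ha
        rw [Pi.single_eq_of_ne ha, zero_mul]
      · intro hb
        exact absurd (Finset.mem_univ b) hb
    refine Eq.trans (Finset.sum_congr rfl fun b' _ => ?_) (h1.symm.trans h)
    rw [map_mul, prj_lif, prj_lif]
  have hT : ∃ t1 : ℕ, ∀ t : ℕ, t1 ≤ t → ∀ i < m, ∀ b : Fin (n (i + 2)), ∀ b'' : Fin (n i),
      ∀ z : MonoidAlgebra ℤ L.S,
        z * (∑ b' : Fin (n (i + 1)), L.lif (M (i + 1) b b') * L.lif (M i b' b'')) ∈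
          Kt L δ t i b'' := by
    choose f hf using fun (i : ℕ) (b : Fin (n (i + 2))) (b'' : Fin (n i)) =>
      k3 G D L hL _ (hu i b b'') (-δ i b'')
    refine ⟨(Finset.range m).sup fun i => Finset.univ.sup fun b => Finset.univ.sup fun b'' =>
      f i b b'', ?_⟩
    intro t ht i hi b b'' z
    have h1 : f i b b'' ≤ t := by
      refine le_trans ?_ ht
      refine le_trans ?_ (Finset.le_sup (f := fun i => Finset.univ.sup fun b =>
        Finset.univ.sup fun b'' => f i b b'') (Finset.mem_range.2 hi))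
      refine le_trans ?_ (Finset.le_sup (f := fun b => Finset.univ.sup fun b'' => f i b b'')
        (Finset.mem_univ b))
      exact Finset.le_sup (f := fun b'' => f i b b'') (Finset.mem_univ b'')
    have h2 := hf i b b'' t h1 z
    rw [← sub_eq_add_neg] at h2
    exact h2
  obtain ⟨t1, ht1⟩ := hT
  set t := max t0 t1 with htdef
  have hex' := ht0 t (le_max_left _ _)
  have hdd := ht1 t (le_max_right _ _)
  have hn0 : ∃ b0 : Fin (n 0), True := ⟨⟨0, by rw [hF.n0]; exact one_pos⟩, trivial⟩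
  obtain ⟨b0, -⟩ := hn0
  refine h5 (MonoidAlgebra ℤ L.S) (CC L δ t) (dq L δ t M hL k2 hF) (Triv L.S) (ep L δ t) m
    ?_ ?_ ?_ ?_
  · intro i _
    refine h4 _ _ _ _ fun b => ?_
    exact h6 G L.S _ (N_sub L hL _) (hfg _)
      (fun a ha b hb => hM a (hL.N_le _ ha) b (hL.N_le _ hb)) _
  · intro z
    refine ⟨pj L δ t 0 (Pi.single b0 ((show ℤ from z) • (1 : MonoidAlgebra ℤ L.S))), ?_⟩
    rw [ep_pj]
    show (∑ b, aug L.S ((Pi.single b0 ((show ℤ from z) • (1 : MonoidAlgebra ℤ L.S)) :
      Fin (n 0) → MonoidAlgebra ℤ L.S) b) : ℤ) = (show ℤ from z)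
    rw [Finset.sum_eq_single b0]
    · rw [Pi.single_eq_same, map_zsmul, map_one, smul_eq_mul, mul_one]
    · intro b _ hb
      rw [Pi.single_eq_of_ne hb, map_zero]
    · intro hb
      exact absurd (Finset.mem_univ b0) hb
  · intro hm y
    obtain ⟨x, rfl⟩ := pj_surj L δ t 0 y
    constructor
    · intro h
      rw [ep_pj] at h
      obtain ⟨y', hy'⟩ := hex' 0 hm x trivial (fun _ => h)
      refine ⟨pj L δ t 1 y', ?_⟩
      rw [dq_pj]
      have h1 : pj L δ t 0 (x - mu (fun a b => L.lif (M 0 a b)) y') = 0 := by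
        rw [pj_eq_zero]
        exact hy'
      rw [map_sub, sub_eq_zero] at h1
      exact h1.symm
    · rintro ⟨y', hy'⟩
      obtain ⟨x', rfl⟩ := pj_surj L δ t 1 y'
      rw [dq_pj] at hy'
      rw [← hy', ep_pj]
      have h1 := hF.aug0 (fun a => L.prj (x' a))
      show (∑ b, aug L.S (mu (fun a b => L.lif (M 0 a b)) x' b) : ℤ) = 0
      refine Eq.trans (Finset.sum_congr rfl fun b _ => ?_) h1
      rw [← prj_mu, aug_prj]
  · intro i hi y
    obtain ⟨x, rfl⟩ := pj_surj L δ t (i + 1) y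
    constructor
    · intro h
      rw [dq_pj, pj_eq_zero] at h
      obtain ⟨y', hy'⟩ := hex' (i + 1) hi x h (fun h0 => absurd h0 (Nat.succ_ne_zero i))
      refine ⟨pj L δ t (i + 2) y', ?_⟩
      rw [dq_pj]
      have h1 : pj L δ t (i + 1) (x - mu (fun a b => L.lif (M (i + 1) a b)) y') = 0 := by
        rw [pj_eq_zero]
        exact hy'
      rw [map_sub, sub_eq_zero] at h1
      exact h1.symm
    · rintro ⟨y', hy'⟩
      obtain ⟨x', rfl⟩ := pj_surj L δ t (i + 2) y'
      rw [dq_pj] at hy'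
      rw [← hy', dq_pj, pj_eq_zero]
      intro b''
      have h1 : mu (fun a b => L.lif (M i a b)) (mu (fun a b => L.lif (M (i + 1) a b)) x') b'' =
          ∑ b, x' b * ∑ b', L.lif (M (i + 1) b b') * L.lif (M i b' b'') := by
        show ∑ b', (∑ b, x' b * L.lif (M (i + 1) b b')) * L.lif (M i b' b'') = _
        simp only [Finset.sum_mul, Finset.mul_sum]
        rw [Finset.sum_comm]
        refine Finset.sum_congr rfl fun b _ => Finset.sum_congr rfl fun b' _ => ?_
        rw [mul_assoc]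
      rw [h1]
      exact Submodule.sum_mem _ fun b _ => hdd i (by omega) b b'' (x' b)

end Pool.Agent.Work.MP_e9e200_al.UP

end

section

/-!
# Project UP: existence of a filtered free resolution
-/

set_option autoImplicit false

namespace Pool.Agent.Work.MP_e9e200_al.UP

open Finsupp

namespace FR

variable {P : Type} [CommMonoid P] {D : Type}

lemma coeff_of_mul {q q' : P} {x : MonoidAlgebra ℤ P}
    (h : (MonoidAlgebra.of ℤ P q * x).coeff q' ≠ 0) : ∃ m, q * m = q' ∧ x.coeff m ≠ 0 := by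
  classical
  by_contra hc
  push Not at hc
  apply h
  rw [MonoidAlgebra.of_apply, MonoidAlgebra.coeff_mul, MonoidAlgebra.coeff_single,
    Finsupp.sum_single_index (by simp)]
  refine Finset.sum_eq_zero fun m _ => ?_
  beta_reduce
  by_cases hm : q * m = q'
  · rw [if_pos hm, hc m hm, mul_zero]
  · rw [if_neg hm]

lemma wt_of_mul {n : ℕ} {χ : D → P → ℤ} (hχ : ∀ i a b, χ i (a * b) = χ i a + χ i b)
    {δ : Fin n → D → ℤ} {F F' : D → ℤ} {q : P} (hF : ∀ i, F i + χ i q ≤ F' i)
    {x : Fin n → MonoidAlgebra ℤ P} (hx : Wt χ δ F x) :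
    Wt χ δ F' (fun b => MonoidAlgebra.of ℤ P q * x b) := by
  intro b q' hq' i
  obtain ⟨m, hm, hne⟩ := coeff_of_mul hq'
  have h1 := hx b m hne i
  have h2 := hF i
  rw [← hm, hχ]
  linarith

/-- vectors of weight at most `F` -/
def W1 {n : ℕ} (χ : D → P → ℤ) (δ : Fin n → D → ℤ) (F : D → ℤ) :
    AddSubgroup (Fin n → MonoidAlgebra ℤ P) where
  carrier := {x | Wt χ δ F x}
  zero_mem' := fun b q h => absurd rfl h
  add_mem' := by
    intro x y hx hy b q h i
    by_cases h1 : (x b).coeff q = 0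
    · refine hy b q (fun h2 => h ?_) i
      show ((x b) + (y b)).coeff q = 0
      rw [MonoidAlgebra.coeff_add, Finsupp.add_apply, h1, h2, add_zero]
    · exact hx b q h1 i
  neg_mem' := by
    intro x hx b q h i
    refine hx b q (fun h2 => h ?_) i
    show (-(x b)).coeff q = 0
    rw [MonoidAlgebra.coeff_neg, Finsupp.neg_apply, h2, neg_zero]

lemma mem_W1 {n : ℕ} {χ : D → P → ℤ} {δ : Fin n → D → ℤ} {F : D → ℤ}
    {x : Fin n → MonoidAlgebra ℤ P} : x ∈ W1 χ δ F ↔ Wt χ δ F x := Iff.rfl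

lemma mu_eq {R : Type} [Ring R] {a b : ℕ} (M : Fin a → Fin b → R) (y : Fin a → R) :
    mu M y = ∑ i, y i • M i := by
  funext j
  rw [Finset.sum_apply]
  rfl

lemma mu_single {R : Type} [Ring R] {a b : ℕ} (M : Fin a → Fin b → R) (i : Fin a) (r : R) :
    mu M (Pi.single i r) = r • M i := by
  rw [mu_eq, Finset.sum_eq_single i]
  · rw [Pi.single_eq_same]
  · intro j _ hj
    rw [Pi.single_eq_of_ne hj, zero_smul]
  · intro h
    exact absurd (Finset.mem_univ i) h

/-- the general step -/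
lemma step (h : StGN) [Monoid.FG P] [Finite D] (χ : D → P → ℤ)
    (hχ : ∀ i a b, χ i (a * b) = χ i a + χ i b) {n : ℕ} (δ : Fin n → D → ℤ)
    (Kc : (D → ℤ) → AddSubgroup (Fin n → MonoidAlgebra ℤ P))
    (h1 : ∀ F, ∀ x ∈ Kc F, Wt χ δ F x)
    (h2 : ∀ F F' q, (∀ i, F i + χ i q ≤ F' i) → ∀ x ∈ Kc F,
      (fun b => MonoidAlgebra.of ℤ P q * x b) ∈ Kc F') :
    ∃ (n' : ℕ) (δ' : Fin n' → D → ℤ) (M : Fin n' → Fin n → MonoidAlgebra ℤ P),
      (∀ a, M a ∈ Kc (δ' a)) ∧ ∀ F, ∀ x ∈ Kc F, ∃ y, Wt χ δ' F y ∧ mu M y = x := by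
  classical
  have hfg : Monoid.FG (Multiplicative (D → ℕ) × P) := by
    constructor
    rw [← Submonoid.top_prod_top]
    exact Submonoid.FG.prod Monoid.FG.fg_top Monoid.FG.fg_top
  have hone : ∀ i, χ i 1 = 0 := fun i => by
    have := hχ i 1 1
    rw [mul_one] at this
    linarith
  obtain ⟨n', g, y, hy, hgen⟩ := h (Multiplicative (D → ℕ) × P) (D → ℤ)
    (fun μ i => ((Multiplicative.toAdd μ.1 i : ℕ) : ℤ) + χ i μ.2)
    (by
      intro a b
      funext i
      show ((Multiplicative.toAdd (a.1 * b.1) i : ℕ) : ℤ) + χ i (a.2 * b.2) =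
        (((Multiplicative.toAdd a.1 i : ℕ) : ℤ) + χ i a.2) +
        (((Multiplicative.toAdd b.1 i : ℕ) : ℤ) + χ i b.2)
      rw [hχ, toAdd_mul, Pi.add_apply]
      push_cast
      ring)
    (Fin n → MonoidAlgebra ℤ P)
    ((((Module.toAddMonoidEnd (MonoidAlgebra ℤ P) (Fin n → MonoidAlgebra ℤ P)) :
      MonoidAlgebra ℤ P →* AddMonoid.End (Fin n → MonoidAlgebra ℤ P)).comp
        (MonoidAlgebra.of ℤ P)).comp (MonoidHom.snd _ _))
    (W1 χ δ) Kc
    (fun γ x hx => h1 γ x hx)
    (by
      intro μ γ x hx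
      have := h2 γ (γ + fun i => ((Multiplicative.toAdd μ.1 i : ℕ) : ℤ) + χ i μ.2) μ.2
        (fun i => by
          show γ i + χ i μ.2 ≤ γ i + (((Multiplicative.toAdd μ.1 i : ℕ) : ℤ) + χ i μ.2)
          have : (0 : ℤ) ≤ ((Multiplicative.toAdd μ.1 i : ℕ) : ℤ) := Int.natCast_nonneg _
          linarith) x hx
      exact this)
    (by
      refine ⟨n, δ, fun b => Pi.single b 1, ?_, ?_⟩
      · intro b
        rw [mem_W1]
        intro b' q hq i
        beta_reduce at hq
        by_cases hb : b' = b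
        · subst hb
          rw [Pi.single_eq_same, MonoidAlgebra.one_def, MonoidAlgebra.coeff_single,
            Finsupp.single_apply] at hq
          by_cases hq1 : 1 = q
          · rw [← hq1, hone]
            linarith
          · rw [if_neg hq1] at hq
            exact absurd rfl hq
        · rw [Pi.single_eq_of_ne hb] at hq
          exact absurd rfl hq
      · intro γ x hx
        rw [mem_W1] at hx
        have hsum : x = ∑ b, ∑ q ∈ (x b).coeff.support,
            (x b).coeff q • (MonoidAlgebra.of ℤ P q • (Pi.single b 1 :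
              Fin n → MonoidAlgebra ℤ P)) := by
          funext b'
          rw [Finset.sum_apply, Finset.sum_eq_single b']
          · rw [Finset.sum_apply]
            conv_lhs => rw [← MonoidAlgebra.sum_coeff_single (x b')]
            rw [Finsupp.sum]
            refine Finset.sum_congr rfl fun q _ => ?_
            simp
          · intro b _ hb
            rw [Finset.sum_apply]
            refine Finset.sum_eq_zero fun q _ => ?_
            simp [Pi.single_eq_of_ne (Ne.symm hb)]
          · intro h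
            exact absurd (Finset.mem_univ b') h
        rw [hsum]
        refine AddSubgroup.sum_mem _ fun b _ => AddSubgroup.sum_mem _ fun q hq => ?_
        refine AddSubgroup.zsmul_mem _ (AddSubgroup.subset_closure ?_) _
        refine ⟨b, (Multiplicative.ofAdd (fun i => (γ i - δ b i - χ i q).toNat), q), ?_, rfl⟩
        funext i
        have := hx b q (Finsupp.mem_support_iff.1 hq) i
        show δ b i + (((γ i - δ b i - χ i q).toNat : ℤ) + χ i q) = γ i
        rw [Int.toNat_of_nonneg (by linarith)]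
        ring)
  refine ⟨n', g, y, hy, ?_⟩
  intro F x hx
  have hcl := hgen F x hx
  let S : AddSubgroup (Fin n → MonoidAlgebra ℤ P) :=
    (W1 χ g F).map (mu y).toAddMonoidHom
  have hS : x ∈ S := by
    refine (AddSubgroup.closure_le S).2 ?_ hcl
    rintro z ⟨a, μ, hμ, rfl⟩
    refine ⟨Pi.single a (MonoidAlgebra.of ℤ P μ.2), ?_, ?_⟩
    · intro b q hq i
      by_cases hb : b = a
      · subst hb
        rw [Pi.single_eq_same, MonoidAlgebra.of_apply, MonoidAlgebra.coeff_single,
          Finsupp.single_apply] at hq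
        by_cases hq1 : μ.2 = q
        · rw [← hq1, ← hμ]
          show χ i μ.2 + g b i ≤ g b i + (((Multiplicative.toAdd μ.1 i : ℕ) : ℤ) + χ i μ.2)
          have : (0 : ℤ) ≤ ((Multiplicative.toAdd μ.1 i : ℕ) : ℤ) := Int.natCast_nonneg _
          linarith
        · rw [if_neg hq1] at hq
          exact absurd rfl hq
      · rw [Pi.single_eq_of_ne hb] at hq
        exact absurd rfl hq
    · show mu y (Pi.single a (MonoidAlgebra.of ℤ P μ.2)) = _
      rw [mu_single]
      rfl
  obtain ⟨w, hw, hwx⟩ := hS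
  exact ⟨w, hw, hwx⟩

/-- the states of the recursion -/
structure St (P : Type) [CommMonoid P] (D : Type) where
  k0 : ℕ
  k : ℕ
  del0 : Fin k0 → D → ℤ
  del : Fin k → D → ℤ
  M : Fin k → Fin k0 → MonoidAlgebra ℤ P

/-- the kernel of `mu M` -/
noncomputable def Ker {n n0 : ℕ} (χ : D → P → ℤ) (δ : Fin n → D → ℤ) (M : Fin n → Fin n0 → MonoidAlgebra ℤ P)
    (F : D → ℤ) : AddSubgroup (Fin n → MonoidAlgebra ℤ P) :=
  W1 χ δ F ⊓ (mu M).toAddMonoidHom.ker

lemma mem_Ker {n n0 : ℕ} {χ : D → P → ℤ} {δ : Fin n → D → ℤ}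
    {M : Fin n → Fin n0 → MonoidAlgebra ℤ P} {F : D → ℤ} {x : Fin n → MonoidAlgebra ℤ P} :
    x ∈ Ker χ δ M F ↔ Wt χ δ F x ∧ mu M x = 0 := Iff.rfl

/-- the kernel of the augmentation -/
noncomputable def Ker0 {n : ℕ} (χ : D → P → ℤ) (δ : Fin n → D → ℤ) (F : D → ℤ) :
    AddSubgroup (Fin n → MonoidAlgebra ℤ P) where
  carrier := {x | Wt χ δ F x ∧ ∑ b, aug P (x b) = 0}
  zero_mem' := ⟨(W1 χ δ F).zero_mem, by simp⟩
  add_mem' := by
    rintro x y ⟨hx, hx'⟩ ⟨hy, hy'⟩
    refine ⟨(W1 χ δ F).add_mem hx hy, ?_⟩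
    simp only [Pi.add_apply, map_add, Finset.sum_add_distrib]
    rw [hx', hy', add_zero]
  neg_mem' := by
    rintro x ⟨hx, hx'⟩
    refine ⟨(W1 χ δ F).neg_mem hx, ?_⟩
    simp only [Pi.neg_apply, map_neg, Finset.sum_neg_distrib]
    rw [hx', neg_zero]

lemma exists_first (h : StGN) [Monoid.FG P] [Finite D] (χ : D → P → ℤ)
    (hχ : ∀ i a b, χ i (a * b) = χ i a + χ i b) :
    ∃ (n' : ℕ) (δ' : Fin n' → D → ℤ) (M : Fin n' → Fin 1 → MonoidAlgebra ℤ P),
      (∀ a, Wt χ (0 : Fin 1 → D → ℤ) (δ' a) (M a) ∧ ∑ b, aug P (M a b) = 0) ∧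
      ∀ F x, Wt χ (0 : Fin 1 → D → ℤ) F x → ∑ b, aug P (x b) = 0 →
        ∃ y, Wt χ δ' F y ∧ mu M y = x := by
  obtain ⟨n', δ', M, h1, h2⟩ := step h χ hχ (0 : Fin 1 → D → ℤ) (Ker0 χ 0)
    (fun F x hx => hx.1)
    (fun F F' q hF x hx => ⟨wt_of_mul hχ hF hx.1, by
      simp only [map_mul, ← Finset.mul_sum]
      rw [hx.2, mul_zero]⟩)
  exact ⟨n', δ', M, h1, fun F x hx hx' => h2 F x ⟨hx, hx'⟩⟩

lemma exists_next (h : StGN) [Monoid.FG P] [Finite D] (χ : D → P → ℤ)
    (hχ : ∀ i a b, χ i (a * b) = χ i a + χ i b) (s : St P D) :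
    ∃ (n' : ℕ) (δ' : Fin n' → D → ℤ) (M : Fin n' → Fin s.k → MonoidAlgebra ℤ P),
      (∀ a, Wt χ s.del (δ' a) (M a) ∧ mu s.M (M a) = 0) ∧
      ∀ F x, Wt χ s.del F x → mu s.M x = 0 → ∃ y, Wt χ δ' F y ∧ mu M y = x := by
  obtain ⟨n', δ', M, h1, h2⟩ := step h χ hχ s.del (Ker χ s.del s.M)
    (fun F x hx => hx.1)
    (fun F F' q hF x hx => ⟨wt_of_mul hχ hF hx.1, by
      have h3 : mu s.M x = 0 := hx.2
      have h4 : mu s.M (MonoidAlgebra.of ℤ P q • x) = 0 := by
        rw [map_smul, h3, smul_zero]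
      exact h4⟩)
  exact ⟨n', δ', M, h1, fun F x hx hx' => h2 F x ⟨hx, hx'⟩⟩

end FR

theorem I_FR (h : StGN) : StFR := by
  intro P _ _ D _ χ hχ
  obtain ⟨k1, δ1, M1, hM1, hex1⟩ := FR.exists_first h χ hχ
  choose nk nδ nM hnM hnex using FR.exists_next h χ hχ
  let s : ℕ → FR.St P D := fun j => Nat.rec (motive := fun _ => FR.St P D)
    ⟨1, k1, 0, δ1, M1⟩ (fun _ s => ⟨s.k, nk s, s.del, nδ s, nM s⟩) j
  refine ⟨fun j => (s j).k0, fun j => (s j).del0, fun j => (s j).M, ?_⟩
  refine ⟨rfl, fun _ => rfl, ?_, ?_, ?_, ?_, ?_⟩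
  · intro j b
    cases j with
    | zero => exact (hM1 b).1
    | succ j => exact (hnM (s j) b).1
  · intro y
    show ∑ b : Fin 1, aug P (mu M1 y b) = 0
    have h1 : ∀ b : Fin 1, aug P (mu M1 y b) = ∑ a, aug P (y a) * aug P (M1 a b) := by
      intro b
      show aug P (∑ a, y a * M1 a b) = _
      rw [map_sum]
      simp only [map_mul]
    simp_rw [h1]
    rw [Finset.sum_comm]
    refine Finset.sum_eq_zero fun a _ => ?_
    rw [← Finset.mul_sum]
    rw [(hM1 a).2, mul_zero]
  · intro j y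
    show mu (s j).M (mu (nM (s j)) y) = 0
    rw [FR.mu_eq (nM (s j)), map_sum]
    refine Finset.sum_eq_zero fun a _ => ?_
    rw [map_smul, (hnM (s j) a).2, smul_zero]
  · intro F x hx hx'
    exact hex1 F x hx hx'
  · intro j F x hx hx'
    exact hnex (s j) F x hx hx'

end Pool.Agent.Work.MP_e9e200_al.UP

end

section

/-!
# Project UP: item G1 (the push map)
-/

set_option autoImplicit false

namespace Pool.Agent.Work.MP_e9e200_al.UP

open Finsupp

namespace G1

open LC LC.PU

section general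

variable {k : Type} [CommRing k] {G B B' : Type} [Group G]

lemma tr_supp {A A' : Set G} {P : B → Prop} (g : G) (hA : ∀ a ∈ A, g * a ∈ A')
    {x : G × B →₀ k} (hx : x ∈ Finsupp.supported k k {p : G × B | p.1 ∈ A ∧ P p.2}) :
    tr k g x ∈ Finsupp.supported k k {p : G × B | p.1 ∈ A' ∧ P p.2} := by
  refine map_mem _ (fun p hp => ?_) hx
  rw [tr_single]
  exact Finsupp.single_mem_supported _ _ ⟨hA _ hp.1, hp.2⟩

lemma ext_supp {A T A' : Set G} {P : B → Prop} {Q : B' → Prop} (hA : ∀ a ∈ A, ∀ t ∈ T, a * t ∈ A')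
    {u : B → (G × B' →₀ k)}
    (hu : ∀ b, P b → u b ∈ Finsupp.supported k k {p : G × B' | p.1 ∈ T ∧ Q p.2})
    {x : G × B →₀ k} (hx : x ∈ Finsupp.supported k k {p : G × B | p.1 ∈ A ∧ P p.2}) :
    ext k u x ∈ Finsupp.supported k k {p : G × B' | p.1 ∈ A' ∧ Q p.2} := by
  refine map_mem _ (fun p hp => ?_) hx
  rw [ext_single_one]
  exact tr_supp p.1 (fun t ht => hA _ hp.1 t ht) (hu _ hp.2)

end general

section main

variable {G : Type} [Group G] {S : Submonoid G} {m : ℕ} {B : Type} {deg : B → ℕ}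
  {db : B → (G × B →₀ ℤ)} {eb : B → ℤ}

lemma aug_zero (hR : PRes ℤ (S : Set G) m B deg db eb) {x : G × B →₀ ℤ}
    (hx : x ∈ Finsupp.supported ℤ ℤ {p : G × B | deg p.2 ≠ 0}) : LC.aug ℤ eb x = 0 :=
  eq_on (LC.aug ℤ eb) 0 (fun p hp => by
    rw [aug_single, hR.eb_deg _ hp, mul_zero]; rfl) hx

lemma db_zero (hR : PRes ℤ (S : Set G) m B deg db eb) {b : B} (hb : deg b = 0) : db b = 0 := by
  have h := hR.db_sup b
  have he : {p : G × B | p.1 ∈ (S : Set G) ∧ deg p.2 + 1 = deg b} = ∅ := by
    ext p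
    simp only [Set.mem_ofPred_eq, Set.mem_empty_iff_false, iff_false]
    rintro ⟨-, h⟩
    omega
  rw [he, Finsupp.supported_empty] at h
  exact h

/-- exactness in a translated region -/
lemma exact_tr (hR : PRes ℤ (S : Set G) m B deg db eb) (q : G) {d : ℕ} (hd : d < m)
    {x : G × B →₀ ℤ}
    (hx : x ∈ Finsupp.supported ℤ ℤ {p : G × B | p.1 ∈ {g : G | q⁻¹ * g ∈ S} ∧ deg p.2 = d})
    (h1 : ext ℤ db x = 0) (h2 : LC.aug ℤ eb x = 0) :
    ∃ y ∈ Finsupp.supported ℤ ℤ
      {p : G × B | p.1 ∈ {g : G | q⁻¹ * g ∈ S} ∧ deg p.2 = d + 1}, ext ℤ db y = x := by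
  have h3 := tr_supp (A' := (S : Set G)) (P := fun b => deg b = d) q⁻¹ (fun a ha => ha) hx
  obtain ⟨y, hy, hy2⟩ := hR.exact d hd _ h3 (by rw [ext_tr, h1, map_zero]) (by rw [aug_tr, h2])
  refine ⟨tr ℤ q y, ?_, ?_⟩
  · refine tr_supp (A := (S : Set G)) (P := fun b => deg b = d + 1) q (fun a ha => ?_) hy
    show q⁻¹ * (q * a) ∈ S
    rw [inv_mul_cancel_left]
    exact ha
  · rw [ext_tr, hy2, ← tr_mul, mul_inv_cancel, tr_one]

lemma exists_ph (hS : ∀ g, ∀ s ∈ S, g * s * g⁻¹ ∈ S)
    (hR : PRes ℤ (S : Set G) m B deg db eb) (q : G) (n : ℕ) : n ≤ m →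
    ∃ ph : B → (G × B →₀ ℤ),
      (∀ b, ph b ∈ Finsupp.supported ℤ ℤ
        {p : G × B | p.1 ∈ {g : G | q⁻¹ * g ∈ S} ∧ deg p.2 = deg b}) ∧
      (∀ b, deg b ≤ n → ext ℤ db (ph b) = ext ℤ ph (db b)) ∧
      ∀ b, deg b ≤ n → LC.aug ℤ eb (ph b) = eb b := by
  classical
  induction n with
  | zero =>
    intro _
    obtain ⟨x0, hx0, hx1⟩ := hR.surj
    refine ⟨fun b => if deg b = 0 then eb b • tr ℤ q x0 else 0, ?_, ?_, ?_⟩
    · intro b
      beta_reduce
      split_ifs with h
      · refine Submodule.smul_mem _ _ ?_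
        rw [h]
        refine tr_supp (A := (S : Set G)) (P := fun b => deg b = 0) q (fun a ha => ?_) hx0
        show q⁻¹ * (q * a) ∈ S
        rw [inv_mul_cancel_left]
        exact ha
      · exact Submodule.zero_mem _
    · intro b hb
      have hb0 : deg b = 0 := by omega
      simp only [hb0, if_true, db_zero hR hb0, map_zero, map_smul, ext_tr]
      have : ext ℤ db x0 = 0 :=
        eq_on (ext ℤ db) 0 (fun p hp => by
          rw [ext_single_one, db_zero hR hp.2, map_zero]; rfl) hx0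
      rw [this, map_zero, smul_zero]
    · intro b hb
      have hb0 : deg b = 0 := by omega
      simp only [hb0, if_true, map_smul, aug_tr, hx1, smul_eq_mul, mul_one]
  | succ n ih =>
    intro hn
    obtain ⟨ph, h1, h2, h3⟩ := ih (by omega)
    have hex : ∀ b, ∃ y : G × B →₀ ℤ, deg b = n + 1 →
        y ∈ Finsupp.supported ℤ ℤ
          {p : G × B | p.1 ∈ {g : G | q⁻¹ * g ∈ S} ∧ deg p.2 = n + 1} ∧
        ext ℤ db y = ext ℤ ph (db b) := by
      intro b
      by_cases hb : deg b = n + 1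
      · have hs1 : db b ∈ Finsupp.supported ℤ ℤ
            {p : G × B | p.1 ∈ (S : Set G) ∧ deg p.2 = n} := by
          refine mono_supp ?_ (hR.db_sup b)
          intro p hp
          exact ⟨hp.1, by have := hp.2; omega⟩
        have hs2 : db b ∈ Finsupp.supported ℤ ℤ {p : G × B | deg p.2 ≤ n} :=
          mono_supp (fun p hp => le_of_eq hp.2) hs1
        have hz : ext ℤ ph (db b) ∈ Finsupp.supported ℤ ℤ
            {p : G × B | p.1 ∈ {g : G | q⁻¹ * g ∈ S} ∧ deg p.2 = n} := by
          refine ext_supp (A := (S : Set G)) (T := {g : G | q⁻¹ * g ∈ S})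
            (P := fun b => deg b = n) (Q := fun b => deg b = n) (u := ph)
            (fun a ha t ht => ?_) (fun b hb => ?_) hs1
          · show q⁻¹ * (a * t) ∈ S
            have h5 := S.mul_mem (hS q⁻¹ a ha) ht
            rw [inv_inv] at h5
            have h6 : q⁻¹ * a * q * (q⁻¹ * t) = q⁻¹ * (a * t) := by group
            rwa [h6] at h5
          · have := h1 b
            rwa [hb] at this
        obtain ⟨y, hy1, hy2⟩ := exact_tr hR q (by omega) hz
          (by rw [ext_ext (P := fun b => deg b ≤ n) h2 hs2, hR.dd, map_zero])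
          (by rw [aug_ext (P := fun b => deg b ≤ n) h3 hs2, hR.ed])
        exact ⟨y, fun _ => ⟨hy1, hy2⟩⟩
      · exact ⟨0, fun h => absurd h hb⟩
    choose y hy using hex
    refine ⟨fun b => if deg b = n + 1 then y b else ph b, ?_, ?_, ?_⟩
    · intro b
      beta_reduce
      split_ifs with h
      · have := (hy b h).1
        rwa [← h] at this
      · exact h1 b
    · intro b hb
      have hs2 : db b ∈ Finsupp.supported ℤ ℤ {p : G × B | deg p.2 ≤ n} :=
        mono_supp (fun p hp => by have := hp.2; show deg p.2 ≤ n; omega) (hR.db_sup b)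
      have hc : ext ℤ (fun b => if deg b = n + 1 then y b else ph b) (db b) =
          ext ℤ ph (db b) :=
        ext_congr (P := fun b => deg b ≤ n) (fun b' hb' => by
          rw [if_neg (by omega)]) hs2
      rw [hc]
      by_cases h : deg b = n + 1
      · simp only [h, if_true]
        exact (hy b h).2
      · simp only [h, if_false]
        exact h2 b (by omega)
    · intro b hb
      by_cases h : deg b = n + 1
      · simp only [h, if_true]
        rw [hR.eb_deg b (by omega)]
        refine aug_zero hR (mono_supp ?_ (hy b h).1)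
        intro p hp
        have := hp.2
        show deg p.2 ≠ 0
        omega
      · simp only [h, if_false]
        exact h3 b (by omega)

lemma exists_hh (hR : PRes ℤ (S : Set G) m B deg db eb) {q : G} (hq : q ∈ S)
    {ph : B → (G × B →₀ ℤ)}
    (hp1 : ∀ b, ph b ∈ Finsupp.supported ℤ ℤ
      {p : G × B | p.1 ∈ {g : G | q⁻¹ * g ∈ S} ∧ deg p.2 = deg b})
    (hp2 : ∀ b, ext ℤ db (ph b) = ext ℤ ph (db b)) (hp3 : ∀ b, LC.aug ℤ eb (ph b) = eb b)
    (n : ℕ) : n ≤ m → ∃ hh : B → (G × B →₀ ℤ),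
      (∀ b, hh b ∈ Finsupp.supported ℤ ℤ
        {p : G × B | p.1 ∈ (S : Set G) ∧ deg p.2 = deg b + 1}) ∧
      ∀ b, deg b < n → ext ℤ db (hh b) + ext ℤ hh (db b) = single (1, b) 1 - ph b := by
  classical
  induction n with
  | zero =>
    intro _
    exact ⟨fun _ => 0, fun b => Submodule.zero_mem _, fun b hb => absurd hb (Nat.not_lt_zero _)⟩
  | succ n ih =>
    intro hn
    obtain ⟨hh, h1, h2⟩ := ih (by omega)
    have hex : ∀ b, ∃ y : G × B →₀ ℤ, deg b = n →
        y ∈ Finsupp.supported ℤ ℤ {p : G × B | p.1 ∈ (S : Set G) ∧ deg p.2 = n + 1} ∧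
        ext ℤ db y = single (1, b) 1 - ph b - ext ℤ hh (db b) := by
      intro b
      by_cases hb : deg b = n
      · have hs2 : db b ∈ Finsupp.supported ℤ ℤ {p : G × B | deg p.2 < n} :=
          mono_supp (fun p hp => by have := hp.2; show deg p.2 < n; omega) (hR.db_sup b)
        have hsup : single (1, b) 1 - ph b - ext ℤ hh (db b) ∈ Finsupp.supported ℤ ℤ
            {p : G × B | p.1 ∈ (S : Set G) ∧ deg p.2 = n} := by
          refine Submodule.sub_mem _ (Submodule.sub_mem _ ?_ ?_) ?_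
          · exact Finsupp.single_mem_supported _ _ ⟨S.one_mem, hb⟩
          · refine mono_supp ?_ (hp1 b)
            rintro p ⟨h3, h4⟩
            refine ⟨?_, h4.trans hb⟩
            have h5 := S.mul_mem hq h3
            rwa [mul_inv_cancel_left] at h5
          · have hs1 : db b ∈ Finsupp.supported ℤ ℤ
                {p : G × B | p.1 ∈ (S : Set G) ∧ deg p.2 + 1 = n} := by
              refine mono_supp ?_ (hR.db_sup b)
              intro p hp
              exact ⟨hp.1, by have := hp.2; omega⟩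
            exact ext_supp (A := (S : Set G)) (T := (S : Set G)) (P := fun b => deg b + 1 = n)
              (Q := fun b => deg b = n) (u := hh) (fun a ha t ht => S.mul_mem ha ht)
              (fun b hb => by
                have := h1 b
                rwa [hb] at this) hs1
        have hkey : ext ℤ db (ext ℤ hh (db b)) + ext ℤ hh (ext ℤ db (db b)) =
            db b - ext ℤ ph (db b) :=
          eq_on ((ext ℤ db) ∘ₗ (ext ℤ hh) + (ext ℤ hh) ∘ₗ (ext ℤ db))
            (LinearMap.id - ext ℤ ph) (fun p hp => by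
              rw [LinearMap.add_apply, LinearMap.comp_apply, LinearMap.comp_apply,
                LinearMap.sub_apply, LinearMap.id_apply, ext_single_one, ext_single_one,
                ext_single_one, ext_tr, ext_tr, ← map_add, h2 _ hp, map_sub, tr_single, mul_one])
            hs2
        rw [hR.dd, map_zero, add_zero] at hkey
        have hsing : ext ℤ db (single (1, b) 1) = db b := by
          rw [ext_single_one, tr_one]
        have haug : LC.aug ℤ eb (ext ℤ hh (db b)) = 0 := by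
          have h5 := aug_ext (e := eb) (e' := fun _ => 0) (P := fun _ => True) (u := hh)
            (fun b' _ => aug_zero hR (mono_supp (fun p hp => by
              have := hp.2
              show deg p.2 ≠ 0
              omega) (h1 b'))) (x := db b) (mono_supp (fun p _ => trivial) (hR.db_sup b))
          rw [h5]
          exact eq_on (LC.aug ℤ (fun _ : B => (0 : ℤ))) 0 (fun p _ => by
            rw [aug_single, mul_zero]; rfl) (hR.db_sup b)
        obtain ⟨y, hy1, hy2⟩ := hR.exact n (by omega) _ hsup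
          (by rw [map_sub, map_sub, hsing, hp2, hkey]; abel)
          (by rw [map_sub, map_sub, haug, hp3, aug_single]; simp)
        exact ⟨y, fun _ => ⟨hy1, hy2⟩⟩
      · exact ⟨0, fun h => absurd h hb⟩
    choose y hy using hex
    refine ⟨fun b => if deg b = n then y b else hh b, ?_, ?_⟩
    · intro b
      beta_reduce
      split_ifs with h
      · have := (hy b h).1
        rwa [← h] at this
      · exact h1 b
    · intro b hb
      have hs2 : db b ∈ Finsupp.supported ℤ ℤ {p : G × B | deg p.2 < n} :=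
        mono_supp (fun p hp => by have := hp.2; show deg p.2 < n; omega) (hR.db_sup b)
      have hc : ext ℤ (fun b => if deg b = n then y b else hh b) (db b) =
          ext ℤ hh (db b) :=
        ext_congr (P := fun b => deg b < n) (fun b' hb' => by
          rw [if_neg (by omega)]) hs2
      rw [hc]
      by_cases h : deg b = n
      · simp only [h, if_true]
        rw [(hy b h).2]
        abel
      · simp only [h, if_false]
        exact h2 b (by omega)

end main

end G1

/-- item G1 -/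
theorem I_G1 : StG1 := by
  intro G _ S hS h hh m B deg db eb hR
  obtain ⟨ph, h1, h2, h3⟩ := G1.exists_ph hS hR h m le_rfl
  have h2' : ∀ b, LC.ext ℤ db (ph b) = LC.ext ℤ ph (db b) := fun b => h2 b (hR.le b)
  have h3' : ∀ b, LC.aug ℤ eb (ph b) = eb b := fun b => h3 b (hR.le b)
  obtain ⟨hc, h4, h5⟩ := G1.exists_hh hR hh h1 h2' h3' m le_rfl
  exact ⟨ph, hc, h1, h4, h2', h3', h5⟩

end Pool.Agent.Work.MP_e9e200_al.UP

end

section

/-!
# Project UP, item T2: vanishing
-/

set_option autoImplicit false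

namespace Pool.Agent.Work.MP_e9e200_al.UP

open Finsupp

namespace T2

/-- `H` is a sum of indicators of selected elements of the members of the list -/
def Sel {ι : Type} [DecidableEq ι] : List (Finset ι) → (ι → ℤ) → Prop
  | [], H => H = 0
  | I :: l, H => ∃ j ∈ I, ∃ H', Sel l H' ∧ H = ind {j} + H'

lemma ind_nonneg {ι : Type} [DecidableEq ι] (J : Finset ι) (i : ι) : 0 ≤ ind J i := by
  unfold ind
  split_ifs <;> norm_num

lemma sum_ind {ι : Type} [DecidableEq ι] (I : Finset ι) (j : ι) :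
    ∑ k ∈ I, ind {j} k = if j ∈ I then 1 else 0 := by
  unfold ind
  simp [Finset.sum_ite_eq']

lemma Sel_nonneg {ι : Type} [DecidableEq ι] (l : List (Finset ι)) :
    ∀ H : ι → ℤ, Sel l H → ∀ i, 0 ≤ H i := by
  induction l with
  | nil =>
    intro H h i
    rw [show H = 0 from h]
    exact le_refl _
  | cons I l ih =>
    rintro H ⟨j, hj, H', h, rfl⟩ i
    rw [Pi.add_apply]
    have h1 := ind_nonneg {j} i
    have h2 := ih H' h i
    linarith

lemma Sel_count {ι : Type} [DecidableEq ι] (l : List (Finset ι)) :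
    ∀ H : ι → ℤ, Sel l H → ∀ I : Finset ι, (l.count I : ℤ) ≤ ∑ j ∈ I, H j := by
  induction l with
  | nil =>
    intro H h I
    rw [show H = 0 from h]
    simp
  | cons J l ih =>
    rintro H ⟨j, hj, H', h, rfl⟩ I
    simp only [Pi.add_apply, Finset.sum_add_distrib]
    rw [sum_ind, List.count_cons]
    have h1 := ih H' h I
    by_cases hJ : J = I
    · subst hJ
      rw [if_pos hj]
      simp only [beq_self_eq_true, if_true]
      push_cast
      linarith
    · have h2 : (J == I) = false := by simpa using hJ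
      rw [h2]
      simp only [Bool.false_eq_true, if_false, add_zero]
      have h3 : (0 : ℤ) ≤ if j ∈ I then 1 else 0 := by split_ifs <;> norm_num
      linarith

lemma exists_list {ι : Type} [DecidableEq ι] (N : ℕ) (S : Finset (Finset ι)) :
    ∃ l : List (Finset ι), (∀ I ∈ l, I ∈ S) ∧ ∀ I ∈ S, N ≤ l.count I := by
  induction S using Finset.induction_on with
  | empty => exact ⟨[], by simp, by simp⟩
  | insert a S ha ih =>
    obtain ⟨l, h1, h2⟩ := ih
    refine ⟨List.replicate N a ++ l, fun I hI => ?_, fun I hI => ?_⟩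
    · rcases List.mem_append.1 hI with h | h
      · rw [List.eq_of_mem_replicate h]
        exact Finset.mem_insert_self _ _
      · exact Finset.mem_insert_of_mem (h1 I h)
    · rw [List.count_append]
      rcases Finset.mem_insert.1 hI with h | h
      · rw [h, List.count_replicate_self]
        exact Nat.le_add_right _ _
      · exact le_trans (h2 I h) (Nat.le_add_left _ _)

lemma big {ι : Type} [Fintype ι] [DecidableEq ι] (H : ι → ℤ) (s0 : ℤ) :
    ∑ j ∈ Finset.univ.filter (fun i => H i < s0), H j ≤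
      ((Fintype.card ι * s0.toNat : ℕ) : ℤ) := by
  have h1 : ∑ j ∈ Finset.univ.filter (fun i => H i < s0), H j ≤
      ∑ j ∈ Finset.univ.filter (fun i => H i < s0), (s0.toNat : ℤ) := by
    refine Finset.sum_le_sum fun j hj => ?_
    have h2 := (Finset.mem_filter.1 hj).2
    have h3 := Int.self_le_toNat s0
    linarith
  refine h1.trans ?_
  rw [Finset.sum_const, nsmul_eq_mul]
  push_cast
  refine mul_le_mul_of_nonneg_right ?_ (by positivity)
  have h4 : (Finset.univ.filter (fun i => H i < s0)).card ≤ Fintype.card ι :=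
    Finset.card_le_univ _
  exact_mod_cast h4

end T2

theorem I_T2 (h : StT1) : StT2 := by
  classical
  intro ι _ _ Z _ d R hS m Dep hRows s0 hnull i
  induction i using Nat.strong_induction_on with
  | _ i ihi =>
  intro hi F₀ z₀ hz₀
  have hcol : ∀ i' < i, Col d R i' := fun i' h' => ihi i' h' (by omega)
  -- the subgroup of boundaries modulo `R`
  let G : AddSubgroup (Z i) :=
    { carrier := {z | ∃ w, z - d i w ∈ R i F₀}
      zero_mem' := ⟨0, by simp⟩
      add_mem' := by
        rintro a b ⟨v, hv⟩ ⟨w, hw⟩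
        refine ⟨v + w, ?_⟩
        have h1 : a + b - d i (v + w) = (a - d i v) + (b - d i w) := by
          rw [map_add]; abel
        rw [h1]
        exact add_mem hv hw
      neg_mem' := by
        rintro a ⟨v, hv⟩
        refine ⟨-v, ?_⟩
        have h1 : -a - d i (-v) = -(a - d i v) := by
          rw [map_neg]; abel
        rw [h1]
        exact neg_mem hv }
  have hG : ∀ z, z ∈ G ↔ ∃ w, z - d i w ∈ R i F₀ := fun z => Iff.rfl
  have key : ∀ l : List (Finset ι), (∀ I ∈ l, I ∈ Dep) → ∀ F, F ≤ F₀ →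
      (∀ H, T2.Sel l H → ∀ z', Cyc d R i (F - H) z' → z' ∈ G) →
      ∀ z, Cyc d R i F z → z ∈ G := by
    intro l
    induction l with
    | nil =>
      intro _ F _ hyp z hz
      refine hyp 0 rfl z ?_
      rw [sub_zero]
      exact hz
    | cons I l ih =>
      intro hl F hF hyp z hz
      obtain ⟨f, hf, hr⟩ := h ι Z d R hS m I (hRows I (hl I List.mem_cons_self)) i hi hcol F z hz
      have h1 : ∀ j ∈ I, f j ∈ G := by
        intro j hj
        refine ih (fun J hJ => hl J (List.mem_cons_of_mem _ hJ)) (F - ind {j}) ?_ ?_ (f j)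
          (hf j hj)
        · intro k
          have h2 := T2.ind_nonneg ({j} : Finset ι) k
          have h3 := hF k
          show F k - ind {j} k ≤ F₀ k
          linarith
        · intro H' hH' z' hz'
          refine hyp (ind {j} + H') ⟨j, hj, H', hH', rfl⟩ z' ?_
          rw [← sub_sub]
          exact hz'
      have h2 : z - ∑ j ∈ I, f j ∈ G := (hG _).2 ⟨0, by
        rw [map_zero, sub_zero]
        exact hS.mono i F F₀ hF hr⟩
      have h3 : ∑ j ∈ I, f j ∈ G := sum_mem h1
      have h4 := add_mem h2 h3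
      rwa [sub_add_cancel] at h4
  obtain ⟨l, hl1, hl2⟩ := T2.exists_list (Fintype.card ι * s0.toNat + 1)
    (Finset.univ.filter (fun I : Finset ι => I ∈ Dep))
  have hfin := key l (fun I hI => (Finset.mem_filter.1 (hl1 I hI)).2) F₀ le_rfl ?_ z₀ hz₀
  · exact (hG _).1 hfin
  · intro H hH z' hz'
    rw [hG]
    refine hnull (Finset.univ.filter (fun i => H i < s0)) ?_ H (T2.Sel_nonneg l H hH) ?_ i hi F₀
      z' hz'
    · intro hK
      have h1 := T2.Sel_count l H hH (Finset.univ.filter (fun i => H i < s0))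
      have h2 := T2.big H s0
      have h3 := hl2 _ (Finset.mem_filter.2 ⟨Finset.mem_univ _, hK⟩)
      have h4 : ((Fintype.card ι * s0.toNat + 1 : ℕ) : ℤ) ≤
          ((l.count (Finset.univ.filter (fun i => H i < s0)) : ℕ) : ℤ) := by
        exact_mod_cast h3
      push_cast at h1 h2 h4
      linarith
    · intro k hk
      by_contra hn
      exact hk (Finset.mem_filter.2 ⟨Finset.mem_univ _, by omega⟩)

end Pool.Agent.Work.MP_e9e200_al.UP

end

section

set_option autoImplicit false

namespace Pool.Agent.Work.MP_e9e200_al.UP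

open Finsupp

namespace U

theorem of_surj (G : Type) [Group G] :
    Function.Surjective (Abelianization.of : G →* Abelianization G) :=
  fun x => QuotientGroup.mk_surjective x

theorem fgAb (G : Type) [Group G] [Group.FG G] : Group.FG (Abelianization G) :=
  Group.fg_of_surjective (of_surj G)

/-- the homomorphism on the abelianization -/
noncomputable def vb {G : Type} [Group G] (v : Additive G →+ ℝ) :
    Additive (Abelianization G) →+ ℝ where
  toFun := fun q => Multiplicative.toAdd (Abelianization.lift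
    ({ toFun := fun g => Multiplicative.ofAdd (v (Additive.ofMul g))
       map_one' := by simp
       map_mul' := fun a b => by simp } : G →* Multiplicative ℝ) (Additive.toMul q))
  map_zero' := by simp
  map_add' := fun a b => by simp

theorem vb_of {G : Type} [Group G] (v : Additive G →+ ℝ) (g : G) :
    vb v (Additive.ofMul (Abelianization.of g)) = v (Additive.ofMul g) := by
  simp [vb]

theorem u_pow {Q : Type} [CommGroup Q] (u : Q → ℤ) (hu : ∀ a b, u (a * b) = u a + u b) (x : Q)
    (N : ℕ) : u (x ^ N) = N * u x := by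
  have h1 : u 1 = 0 := by
    have := hu 1 1
    rw [mul_one] at this
    linarith
  induction N with
  | zero => simp [h1]
  | succ N ih => rw [pow_succ, hu, ih]; push_cast; ring

end U

open U in
theorem I_U (a12 : StA12) (h1 : StH1) (h2 : StH2) (h3 : StH3) (h4 : StH4) (fg : StFG)
    (g2 : StG2) (hmod : LC.StMOD) (hres : LC.StRES) : StU := by
  intro m G _ _ hMet v hv
  obtain ⟨M, iM, iMod, y, hy⟩ := hmod G hMet
  obtain ⟨⟨T, hT⟩, hbad⟩ := h1 G hMet M y hy.mul hy.inj hy.surj hy.conj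
  have hfgA : Group.FG (Abelianization G) := fgAb G
  obtain ⟨D, iD, decD, χ, e, Sm, Δ, K, iK, u, c, hG⟩ := a12 (Abelianization G) M T m (vb v) hT (by
    intro γ hγ a b ha hne hb heq
    refine hv (fun j => (γ j).comp (MonoidHom.toAdditive
      (Abelianization.of : G →* Abelianization G))) (fun j => hbad _ (hγ j)) a b ha hne hb ?_
    refine DFunLike.ext _ _ fun g => ?_
    have h := DFunLike.congr_fun heq (Additive.ofMul (Abelianization.of (Additive.toMul g)))
    rw [AddMonoidHom.smul_apply, vb_of] at h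
    rw [AddMonoidHom.smul_apply]
    rw [AddMonoidHom.finsetSum_apply] at h ⊢
    exact h)
  obtain ⟨hgood, hfg, hQS, hN⟩ := h2 G hMet M y hy.mul hy.inj hy.surj hy.conj T hT D χ e K u
    hG.χ_mul hG.u_mul hG.e_pos hG.fin
  have hLvl := h4 G hMet M y hy.mul hy.inj hy.surj hy.conj T hT m (vb v) D χ e Sm Δ K u c hG
  have hMFG := fg (Abelianization G) K u hG.u_mul (mkLev y T χ e u).QS hQS
  have hFP := h3 G hMet D (mkLev y T χ e u) hgood hfg m hLvl hMFG
  obtain ⟨B, hB, deg, db, eb, hPR⟩ := hres G (mkLev y T χ e u).S m hFP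
  have hS : ∀ g : G, g ∈ (mkLev y T χ e u).S ↔ ∀ k, 0 ≤ u k (Abelianization.of g) :=
    fun g => hQS (Abelianization.of g)
  have hvsum : ∀ g : G, v (Additive.ofMul g) = ∑ k, c k * (u k (Abelianization.of g) : ℝ) := by
    intro g
    rw [← vb_of, hG.v_eq]
  refine ⟨B, hB, deg, db, eb, ?_⟩
  by_cases hv0 : v = 0
  · have hvb0 : vb v = 0 := by
      refine DFunLike.ext _ _ fun q => ?_
      obtain ⟨g, hg⟩ := of_surj G (Additive.toMul q)
      have : q = Additive.ofMul (Abelianization.of g) := by rw [hg]; rfl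
      rw [this, vb_of, hv0]
      rfl
    have hK := hG.v_zero hvb0
    have hset : {g : G | 0 ≤ v (Additive.ofMul g)} = ((mkLev y T χ e u).S : Set G) := by
      ext g
      constructor
      · intro _
        exact (hS g).2 (fun k => (hK.false k).elim)
      · intro _
        show 0 ≤ v (Additive.ofMul g)
        rw [hv0]
        exact le_refl _
    rw [hset]
    exact hPR
  · have hvb0 : vb v ≠ 0 := by
      intro h0
      apply hv0
      refine DFunLike.ext _ _ fun g => ?_
      have := vb_of v (Additive.toMul g)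
      rw [h0] at this
      exact this.symm
    have hKne : Nonempty K := by
      by_contra hemp
      rw [not_nonempty_iff] at hemp
      apply hv0
      refine DFunLike.ext _ _ fun g => ?_
      have := hvsum (Additive.toMul g)
      rw [Finset.univ_eq_empty, Finset.sum_empty] at this
      exact this
    obtain ⟨h0, hh0⟩ := hG.v_pos hvb0
    obtain ⟨h, rfl⟩ := of_surj G h0
    refine g2 G (mkLev y T χ e u).S ?_ v ?_ h ((hS h).2 fun k => (hh0 k).le) ?_ ?_ m B deg db eb
      hPR
    · intro g s hs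
      rw [hS] at hs ⊢
      intro k
      have : (Abelianization.of (g * s * g⁻¹) : Abelianization G) = Abelianization.of s := by
        rw [map_mul, map_mul, map_inv, mul_comm (Abelianization.of g), mul_assoc, mul_inv_cancel,
          mul_one]
      rw [this]
      exact hs k
    · intro s hs
      rw [hvsum]
      refine Finset.sum_nonneg fun k _ => mul_nonneg (hG.c_pos k).le ?_
      exact_mod_cast (hS s).1 hs k
    · rw [hvsum]
      refine Finset.sum_pos (fun k _ => mul_pos (hG.c_pos k) ?_) ?_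
      · exact_mod_cast hh0 k
      · exact Finset.univ_nonempty
    · intro g
      refine ⟨∑ k, (u k (Abelianization.of g)).natAbs, (hS _).2 fun k => ?_⟩
      rw [map_mul, map_pow, hG.u_mul, u_pow (u k) (hG.u_mul k)]
      have h5 : (u k (Abelianization.of g)).natAbs ≤
          ∑ k, (u k (Abelianization.of g)).natAbs :=
        Finset.single_le_sum (f := fun k => (u k (Abelianization.of g)).natAbs)
          (fun _ _ => Nat.zero_le _) (Finset.mem_univ k)
      have h6 := hh0 k
      generalize (∑ k, (u k (Abelianization.of g)).natAbs) = N at h5 ⊢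
      have h7 : (N : ℤ) ≤ (N : ℤ) * u k (Abelianization.of h) := by
        nlinarith [Int.natCast_nonneg N]
      omega

end Pool.Agent.Work.MP_e9e200_al.UP

end
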