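import Pool.Agent.Work.MP_e9e200_al.Bd.B05
import Pool.Agent.Work.MP_e9e200_al.Bd.B04

/-! Bundle of small proof modules (one section per former module). -/

section

/-!
# Project O3, item CL1: the class of a map with compact support
-/

set_option autoImplicit false

namespace Pool.Agent.Work.MP_e9e200_al.O3

open Set Metric Topology OnePoint Filter

namespace XCL1

theorem gl_apply {n : ℕ} {Z : Type} [TopologicalSpace Z] (z : Z) (f : E n → Z) (r : ℝ)
    (hf : Continuous f) (h : ∀ x, r ≤ ‖x‖ → f x = z) (y : Fin n → unitInterval) :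
    (gl z f r hf h).1 y = f (fun i => r * (2 * (y i : ℝ) - 1)) := rfl

theorem bdry {n : ℕ} (s : ℝ) (y : Fin n → unitInterval) (hy : y ∈ Cube.boundary (Fin n)) :
    s ≤ ‖(fun i => s * (2 * (y i : ℝ) - 1) : E n)‖ := by
  obtain ⟨i, hi⟩ := hy
  refine le_trans ?_ (norm_le_pi_norm _ i)
  rcases hi with hi | hi <;> simp only [hi] <;> norm_num <;> exact le_abs_self s

/-- a general homotopy -/
theorem homotopic_of {n : ℕ} {Z : Type} [TopologicalSpace Z] (z : Z) (p q : GenLoop (Fin n) Z z)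
    (H : ℝ × E n → Z) (hH : Continuous H) (s : ℝ → ℝ) (hs : Continuous s)
    (hb : ∀ t : unitInterval, ∀ x, s t ≤ ‖x‖ → H (t, x) = z)
    (h0 : ∀ y : Fin n → unitInterval, H (0, fun i => s 0 * (2 * (y i : ℝ) - 1)) = p.1 y)
    (h1 : ∀ y : Fin n → unitInterval, H (1, fun i => s 1 * (2 * (y i : ℝ) - 1)) = q.1 y) :
    GenLoop.Homotopic p q := by
  refine ⟨⟨⟨⟨fun w => H ((w.1 : ℝ), fun i => s w.1 * (2 * (w.2 i : ℝ) - 1)), by fun_prop⟩,
    fun y => ?_, fun y => ?_⟩, fun t y hy => ?_⟩⟩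
  · simpa using h0 y
  · simpa using h1 y
  · have e : p.1 y = z := p.2 y hy
    change H ((t : ℝ), fun i => s t * (2 * (y i : ℝ) - 1)) = p.1 y
    rw [e]
    exact hb t _ (bdry (s t) y hy)

theorem gl_rad {n : ℕ} {Z : Type} [TopologicalSpace Z] (z : Z) (f : E n → Z) (r r' : ℝ)
    (hf : Continuous f) (h : ∀ x, r ≤ ‖x‖ → f x = z) (h' : ∀ x, r' ≤ ‖x‖ → f x = z) :
    GenLoop.Homotopic (gl z f r hf h) (gl z f r' hf h') := by
  refine homotopic_of z _ _ (fun p => f p.2) (by fun_prop) (fun t => (1 - t) * r + t * r')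
    (by fun_prop) (fun t x hx => ?_) (fun y => ?_) (fun y => ?_)
  · change f x = z
    have ht0 := t.2.1
    have ht1 := t.2.2
    rcases le_total r r' with hr | hr
    · refine h x (le_trans ?_ hx)
      change r ≤ (1 - (t : ℝ)) * r + t * r'
      nlinarith
    · refine h' x (le_trans ?_ hx)
      change r' ≤ (1 - (t : ℝ)) * r + t * r'
      nlinarith
  · rw [gl_apply]
    simp
  · rw [gl_apply]
    simp

theorem cl_eq {n : ℕ} {Z : Type} [TopologicalSpace Z] (z : Z) (f : E n → Z) (r : ℝ) (hr : 0 < r)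
    (hf : Continuous f) (h : ∀ x, r ≤ ‖x‖ → f x = z) :
    cl z f = (Quotient.mk (GenLoop.Homotopic.setoid (Fin n) z) (gl z f r hf h) :
      Quotient (GenLoop.Homotopic.setoid (Fin n) z)) := by
  have hex : ∃ r : ℝ, 0 < r ∧ Continuous f ∧ ∀ x, r ≤ ‖x‖ → f x = z := ⟨r, hr, hf, h⟩
  unfold cl
  rw [dif_pos hex]
  exact Quotient.sound (gl_rad z f _ _ hf _ h)

theorem proj_val (u : ℝ) (h0 : 0 ≤ u) (h1 : u ≤ 1) :
    ((projIcc (0 : ℝ) 1 zero_le_one u : unitInterval) : ℝ) = u := by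
  rw [projIcc_of_mem zero_le_one ⟨h0, h1⟩]

/-- the coordinates of the cube -/
noncomputable def co {n : ℕ} (r : ℝ) (x : E n) (i : Fin n) : unitInterval :=
  projIcc (0 : ℝ) 1 zero_le_one ((x i / r + 1) / 2)

theorem co_cont {n : ℕ} (r : ℝ) : Continuous (co r : E n → Fin n → unitInterval) := by
  unfold co
  refine continuous_pi fun i => continuous_projIcc.comp ?_
  fun_prop

theorem co_bd {n : ℕ} (r : ℝ) (hr : 0 < r) (x : E n) (hx : r ≤ ‖x‖) :
    co r x ∈ Cube.boundary (Fin n) := by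
  have h : ∃ i, r ≤ ‖x i‖ := by
    by_contra hcon
    push Not at hcon
    exact absurd ((pi_norm_lt_iff hr).2 hcon) (not_lt.mpr hx)
  obtain ⟨i, hi⟩ := h
  refine ⟨i, ?_⟩
  unfold co
  rw [Real.norm_eq_abs, le_abs] at hi
  rcases hi with hi | hi
  · right
    refine projIcc_of_right_le _ ?_
    have : 1 ≤ x i / r := by rwa [one_le_div hr]
    linarith
  · left
    refine projIcc_of_le_left _ ?_
    have : x i / r ≤ -1 := by
      rw [div_le_iff₀ hr]
      linarith
    linarith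

theorem co_in {n : ℕ} (r : ℝ) (hr : 0 < r) (x : E n) (hx : ‖x‖ ≤ r) :
    (fun i => r * (2 * (co r x i : ℝ) - 1)) = x := by
  funext i
  have h1 : |x i| ≤ r := le_trans (norm_le_pi_norm x i) hx
  obtain ⟨h2, h3⟩ := abs_le.mp h1
  have h4 : -1 ≤ x i / r := by
    rw [le_div_iff₀ hr]
    linarith
  have h5 : x i / r ≤ 1 := by rwa [div_le_one hr]
  unfold co
  rw [proj_val _ (by linarith) (by linarith)]
  field_simp
  ring

theorem proj_zero : (projIcc (0 : ℝ) 1 zero_le_one 0 : unitInterval) = 0 := by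
  rw [projIcc_left]
  rfl

theorem proj_one : (projIcc (0 : ℝ) 1 zero_le_one 1 : unitInterval) = 1 := by
  rw [projIcc_right]
  rfl

theorem gl_co {n : ℕ} {Z : Type} [TopologicalSpace Z] (z : Z) (f : E n → Z) (r : ℝ) (hr : 0 < r)
    (hf : Continuous f) (h : ∀ x, r ≤ ‖x‖ → f x = z) (x : E n) :
    (gl z f r hf h).1 (co r x) = f x := by
  rcases le_total ‖x‖ r with hx | hx
  · rw [gl_apply, co_in r hr x hx]
  · rw [h x hx]
    exact (gl z f r hf h).2 _ (co_bd r hr x hx)

theorem ho_of {n : ℕ} {Z : Type} [TopologicalSpace Z] (z : Z) (f g : E n → Z) (r : ℝ) (hr : 0 < r)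
    (hf : Continuous f) (h : ∀ x, r ≤ ‖x‖ → f x = z) (hg : Continuous g)
    (h' : ∀ x, r ≤ ‖x‖ → g x = z)
    (hom : GenLoop.Homotopic (gl z f r hf h) (gl z g r hg h')) : Ho z f g := by
  obtain ⟨K⟩ := hom
  refine ⟨fun p => K (projIcc (0 : ℝ) 1 zero_le_one p.1, co r p.2), ?_, ⟨r, fun t x hx => ?_⟩,
    fun x => ?_, fun x => ?_⟩
  · exact K.continuous.comp ((continuous_projIcc.comp continuous_fst).prodMk
      ((co_cont r).comp continuous_snd))
  · have hb := co_bd r hr x hx
    change K (projIcc (0 : ℝ) 1 zero_le_one t, co r x) = z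
    rw [K.eq_fst _ hb]
    exact (gl z f r hf h).2 _ hb
  · change K (projIcc (0 : ℝ) 1 zero_le_one 0, co r x) = f x
    rw [proj_zero, K.apply_zero]
    exact gl_co z f r hr hf h x
  · change K (projIcc (0 : ℝ) 1 zero_le_one 1, co r x) = g x
    rw [proj_one, K.apply_one]
    exact gl_co z g r hr hg h' x

end XCL1

theorem I_CL1 : StCL1 := by
  rintro n Z _ z f g ⟨hf, rf, hrf⟩ ⟨hg, rg, hrg⟩
  constructor
  · intro heq
    have hr : 0 < max 1 (max rf rg) := lt_of_lt_of_le one_pos (le_max_left _ _)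
    have h1 : ∀ x, max 1 (max rf rg) ≤ ‖x‖ → f x = z := fun x hx =>
      hrf x (le_trans (le_trans (le_max_left _ _) (le_max_right _ _)) hx)
    have h2 : ∀ x, max 1 (max rf rg) ≤ ‖x‖ → g x = z := fun x hx =>
      hrg x (le_trans (le_trans (le_max_right _ _) (le_max_right _ _)) hx)
    rw [XCL1.cl_eq z f _ hr hf h1, XCL1.cl_eq z g _ hr hg h2] at heq
    exact XCL1.ho_of z f g _ hr hf h1 hg h2 (Quotient.exact heq)
  · rintro ⟨H, hH, ⟨r, hr⟩, h0, h1⟩
    have hpos : 0 < max 1 r := lt_of_lt_of_le one_pos (le_max_left _ _)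
    have hb : ∀ t x, max 1 r ≤ ‖x‖ → H (t, x) = z := fun t x hx =>
      hr t x (le_trans (le_max_right _ _) hx)
    rw [XCL1.cl_eq z f _ hpos hf (fun x hx => by rw [← h0, hb 0 x hx]),
      XCL1.cl_eq z g _ hpos hg (fun x hx => by rw [← h1, hb 1 x hx])]
    refine Quotient.sound ?_
    refine XCL1.homotopic_of z _ _ H hH (fun _ => max 1 r) continuous_const
      (fun t x hx => hb t x hx) (fun y => ?_) (fun y => ?_)
    · rw [XCL1.gl_apply, h0]
    · rw [XCL1.gl_apply, h1]

end Pool.Agent.Work.MP_e9e200_al.O3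

end

section

/-!
# Project O3, item CL2
-/

set_option autoImplicit false

namespace Pool.Agent.Work.MP_e9e200_al.O3

open Set Metric Topology OnePoint

namespace XCL2

/-- the class of `gl z f r` does not depend on `r` -/
theorem gl_hom {n : ℕ} {Z : Type} [TopologicalSpace Z] (z : Z) (f : E n → Z) (r s : ℝ)
    (hf : Continuous f) (hr : ∀ x, r ≤ ‖x‖ → f x = z) (hs : ∀ x, s ≤ ‖x‖ → f x = z) :
    GenLoop.Homotopic (gl z f r hf hr) (gl z f s hf hs) := by
  have key : ∀ t : unitInterval, ∀ x : E n,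
      (1 - (t : ℝ)) * r + t * s ≤ ‖x‖ → f x = z := by
    intro t x hx
    rcases le_total r s with h | h
    · refine hr x (le_trans ?_ hx)
      nlinarith [t.2.1, t.2.2]
    · refine hs x (le_trans ?_ hx)
      nlinarith [t.2.1, t.2.2]
  refine ⟨⟨⟨⟨fun p => f (fun i => ((1 - (p.1 : ℝ)) * r + p.1 * s) * (2 * (p.2 i : ℝ) - 1)), by fun_prop⟩, ?_, ?_⟩, ?_⟩⟩
  · intro y
    simp [gl]
  · intro y
    simp [gl]
  · rintro t y ⟨i, hi⟩
    have e1 : f (fun i => ((1 - (t : ℝ)) * r + t * s) * (2 * (y i : ℝ) - 1)) = z := by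
      refine key t _ (le_trans ?_ (norm_le_pi_norm _ i))
      simp only [Real.norm_eq_abs]
      generalize ((1 - (t : ℝ)) * r + t * s) = u
      rcases hi with hi | hi <;> simp only [hi] <;> norm_num <;> exact le_abs_self u
    have e2 : f (fun i => r * (2 * (y i : ℝ) - 1)) = z := by
      refine hr _ (le_trans ?_ (norm_le_pi_norm _ i))
      rcases hi with hi | hi <;> simp only [hi] <;> norm_num <;> exact le_abs_self r
    change f (fun i => ((1 - (t : ℝ)) * r + t * s) * (2 * (y i : ℝ) - 1))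
      = f (fun i => r * (2 * (y i : ℝ) - 1))
    rw [e1, e2]

theorem cl_eq {n : ℕ} {Z : Type} [TopologicalSpace Z] (z : Z) (f : E n → Z) (r : ℝ) (r0 : 0 < r)
    (hf : Continuous f) (hr : ∀ x, r ≤ ‖x‖ → f x = z) :
    cl z f = (Quotient.mk (GenLoop.Homotopic.setoid (Fin n) z) (gl z f r hf hr) :
        Quotient (GenLoop.Homotopic.setoid (Fin n) z)) := by
  have h : ∃ r : ℝ, 0 < r ∧ Continuous f ∧ ∀ x, r ≤ ‖x‖ → f x = z := ⟨r, r0, hf, hr⟩
  refine (dif_pos h).trans ?_
  exact Quotient.sound (gl_hom z f _ _ hf _ _)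

/-- the coordinate of the cube -/
noncomputable def kl (t : ℝ) : unitInterval := projIcc 0 1 zero_le_one ((t + 1) / 2)

theorem kl_cont : Continuous kl := continuous_projIcc.comp (by fun_prop)

theorem kl_one {t : ℝ} (ht : 1 ≤ t) : kl t = 1 := by
  unfold kl
  rw [projIcc_of_right_le _ (by linarith)]
  rfl

theorem kl_zero {t : ℝ} (ht : t ≤ -1) : kl t = 0 := by
  unfold kl
  rw [projIcc_of_le_left _ (by linarith)]
  rfl

theorem kl_mid (s : unitInterval) : kl (1 * (2 * (s : ℝ) - 1)) = s := by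
  unfold kl
  have : (1 * (2 * (s : ℝ) - 1) + 1) / 2 = s := by ring
  rw [this, projIcc_val]

end XCL2

open XCL2 in
theorem I_CL2 (_hCL1 : StCL1) : StCL2 := by
  intro n Z _ z
  constructor
  · intro α
    obtain ⟨p, rfl⟩ := Quotient.exists_rep α
    have hc : Continuous (fun x : E (n + 1) => p (fun i => kl (x i))) := by
      refine p.1.continuous.comp (continuous_pi fun i => kl_cont.comp (continuous_apply i))
    have hz : ∀ x : E (n + 1), 1 ≤ ‖x‖ → p (fun i => kl (x i)) = z := by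
      intro x hx
      obtain ⟨i, hi⟩ : ∃ i, 1 ≤ |x i| := by
        by_contra hcon
        push Not at hcon
        have : ‖x‖ < 1 := (pi_norm_lt_iff one_pos).2 hcon
        linarith
      refine p.2 _ ⟨i, ?_⟩
      rcases le_abs.1 hi with h | h
      · exact Or.inr (kl_one h)
      · exact Or.inl (kl_zero (by linarith))
    refine ⟨fun x => p (fun i => kl (x i)), ⟨hc, hz⟩, ?_⟩
    rw [cl_eq z _ 1 one_pos hc hz]
    congr 1
    ext y
    change p (fun i => kl (1 * (2 * (y i : ℝ) - 1))) = p y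
    congr 1
    funext i
    exact kl_mid (y i)
  · rw [HomotopyGroup.one_def, cl_eq z _ 1 one_pos continuous_const (fun _ _ => rfl)]
    rfl

end Pool.Agent.Work.MP_e9e200_al.O3

end

section

/-!
# Project O3, item CL3: splitting along a hyperplane
-/

set_option autoImplicit false

namespace Pool.Agent.Work.MP_e9e200_al.O3

open Set Metric Topology OnePoint

namespace XCL3

/-- the radius does not matter -/
theorem gl_rad {n : ℕ} {Z : Type} [TopologicalSpace Z] (z : Z) (f : E n → Z) (r r' : ℝ)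
    (hf : Continuous f) (h : ∀ x, r ≤ ‖x‖ → f x = z) (h' : ∀ x, r' ≤ ‖x‖ → f x = z) :
    GenLoop.Homotopic (gl z f r hf h) (gl z f r' hf h') := by
  refine ⟨⟨⟨⟨fun p => f (fun i => ((1 - (p.1 : ℝ)) * r + (p.1 : ℝ) * r') *
    (2 * (p.2 i : ℝ) - 1)), by fun_prop⟩, ?_, ?_⟩, ?_⟩⟩
  · intro y
    simp [gl]
  · intro y
    simp [gl]
  · rintro t y ⟨i, hi⟩
    have h1 : (gl z f r hf h).1 y = z := (gl z f r hf h).2 y ⟨i, hi⟩
    rw [h1]
    change f _ = z
    have ht0 := t.2.1
    have ht1 := t.2.2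
    have hn : |(1 - (t : ℝ)) * r + (t : ℝ) * r'| ≤
        ‖(fun i => ((1 - (t : ℝ)) * r + (t : ℝ) * r') * (2 * (y i : ℝ) - 1) : E n)‖ := by
      refine le_trans ?_ (norm_le_pi_norm _ i)
      have h2 : |2 * (y i : ℝ) - 1| = 1 := by
        rcases hi with hi | hi <;> simp only [hi] <;> norm_num
      rw [Real.norm_eq_abs, abs_mul, h2, mul_one]
    have hn' := le_trans (le_abs_self _) hn
    rcases le_total r r' with hr | hr
    · exact h _ (le_trans (by nlinarith) hn')
    · exact h' _ (le_trans (by nlinarith) hn')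

theorem cl_eq {n : ℕ} {Z : Type} [TopologicalSpace Z] (z : Z) (f : E n → Z) (r : ℝ) (hr : 0 < r)
    (hf : Continuous f) (h : ∀ x, r ≤ ‖x‖ → f x = z) :
    cl z f = (Quotient.mk (GenLoop.Homotopic.setoid (Fin n) z) (gl z f r hf h) :
      Quotient (GenLoop.Homotopic.setoid (Fin n) z)) := by
  have hex : ∃ r : ℝ, 0 < r ∧ Continuous f ∧ ∀ x, r ≤ ‖x‖ → f x = z := ⟨r, hr, hf, h⟩
  exact (dif_pos hex).trans (Quotient.sound (gl_rad z f _ r hf _ h))

theorem trans_hom {n : ℕ} {Z : Type} [TopologicalSpace Z] (z : Z) (f f₁ f₂ : E (n + 1) → Z)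
    (i : Fin (n + 1)) (c r : ℝ) (hc : |c| < r) (hf : Continuous f) (hf₁ : Continuous f₁)
    (hf₂ : Continuous f₂) (h : ∀ x, r ≤ ‖x‖ → f x = z) (h₁ : ∀ x, r ≤ ‖x‖ → f₁ x = z)
    (h₂ : ∀ x, r ≤ ‖x‖ → f₂ x = z)
    (e₁ : ∀ x, f₁ x = f (Function.update x i (min c (x i))))
    (e₂ : ∀ x, f₂ x = f (Function.update x i (max c (x i)))) :
    GenLoop.Homotopic (GenLoop.transAt i (gl z f₁ r hf₁ h₁) (gl z f₂ r hf₂ h₂))
      (gl z f r hf h) := by
  have hc' := abs_lt.mp hc
  set la : ℝ → ℝ := fun s => max (min c (r * (4 * s - 1))) (r * (4 * s - 3)) with hla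
  have hlac : Continuous la := by fun_prop
  have hr : 0 < r := lt_of_le_of_lt (abs_nonneg c) hc
  have key : ∀ y : Fin (n + 1) → unitInterval,
      f (Function.update (fun j => r * (2 * (y j : ℝ) - 1)) i (la (y i))) =
        (GenLoop.transAt i (gl z f₁ r hf₁ h₁) (gl z f₂ r hf₂ h₂)) y := by
    intro y
    have hy0 := (y i).2.1
    have hy1 := (y i).2.2
    change _ = if (y i : ℝ) ≤ 1 / 2 then _ else _
    split_ifs with hy
    · change _ = f₁ _
      rw [e₁]
      congr 1
      have hp : ((Set.projIcc (0 : ℝ) 1 zero_le_one (2 * (y i : ℝ)) : unitInterval) : ℝ) =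
          2 * (y i : ℝ) := by
        rw [Set.projIcc_of_mem zero_le_one ⟨by linarith, by linarith⟩]
      funext j
      by_cases hj : j = i
      · subst hj
        simp only [Function.update_self, hp, hla]
        rw [max_eq_left]
        · congr 1; ring
        · apply le_min
          · nlinarith
          · nlinarith
      · simp only [Function.update_of_ne hj]
    · push Not at hy
      change _ = f₂ _
      rw [e₂]
      congr 1
      have hp : ((Set.projIcc (0 : ℝ) 1 zero_le_one (2 * (y i : ℝ) - 1) : unitInterval) : ℝ) =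
          2 * (y i : ℝ) - 1 := by
        rw [Set.projIcc_of_mem zero_le_one ⟨by linarith, by linarith⟩]
      funext j
      by_cases hj : j = i
      · subst hj
        simp only [Function.update_self, hp, hla]
        rw [min_eq_left]
        · congr 1; ring
        · nlinarith
      · simp only [Function.update_of_ne hj]
  have hcont : Continuous (fun p : unitInterval × (Fin (n + 1) → unitInterval) =>
      f (Function.update (fun j => r * (2 * (p.2 j : ℝ) - 1)) i
        ((1 - (p.1 : ℝ)) * la (p.2 i) + (p.1 : ℝ) * (r * (2 * (p.2 i : ℝ) - 1))))) := by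
    refine hf.comp ?_
    refine Continuous.update ?_ i ?_
    · fun_prop
    · fun_prop
  refine ⟨⟨⟨⟨_, hcont⟩, ?_, ?_⟩, ?_⟩⟩
  · intro y
    change f _ = (GenLoop.transAt i (gl z f₁ r hf₁ h₁) (gl z f₂ r hf₂ h₂)) y
    rw [← key y]
    simp
  · intro y
    change f _ = f _
    congr 1
    funext j
    by_cases hj : j = i
    · subst hj
      simp
    · simp only [Function.update_of_ne hj]
  · rintro t y ⟨j, hj⟩
    have hz : (GenLoop.transAt i (gl z f₁ r hf₁ h₁) (gl z f₂ r hf₂ h₂)).1 y = z :=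
      (GenLoop.transAt i (gl z f₁ r hf₁ h₁) (gl z f₂ r hf₂ h₂)).2 y ⟨j, hj⟩
    rw [hz]
    change f _ = z
    refine h _ (le_trans ?_ (norm_le_pi_norm _ j))
    by_cases hji : j = i
    · subst hji
      simp only [Function.update_self]
      rcases hj with hj | hj
      · have hl : la 0 = -r := by
          simp only [hla]
          rw [min_eq_right (by nlinarith), max_eq_left (by nlinarith)]
          ring
        rw [hj]
        simp only [Set.Icc.coe_zero, hl]
        rw [Real.norm_eq_abs]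
        have : (1 - (t : ℝ)) * -r + (t : ℝ) * (r * (2 * 0 - 1)) = -r := by ring
        rw [this, abs_neg]
        exact le_abs_self r
      · have hl : la 1 = r := by
          simp only [hla]
          rw [min_eq_left (by nlinarith), max_eq_right (by nlinarith)]
          ring
        rw [hj]
        simp only [Set.Icc.coe_one, hl]
        rw [Real.norm_eq_abs]
        have : (1 - (t : ℝ)) * r + (t : ℝ) * (r * (2 * 1 - 1)) = r := by ring
        rw [this]
        exact le_abs_self r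
    · rw [Function.update_of_ne hji]
      rcases hj with hj | hj <;> simp only [hj] <;> norm_num <;> exact le_abs_self r

end XCL3

theorem I_CL3 (hCL1 : StCL1) : StCL3 := by
  have _ := hCL1
  intro n Z _ z f f₁ f₂ i c hf hfc h₁ h₂
  obtain ⟨hfc', r₀, hr₀⟩ := hf
  have e₁ : ∀ x, f₁ x = f (Function.update x i (min c (x i))) := by
    intro x
    rcases le_total (x i) c with hx | hx
    · rw [min_eq_right hx, Function.update_eq_self, (h₁ x hx).1]
    · rw [min_eq_left hx, (h₂ x hx).2, hfc]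
      simp
  have e₂ : ∀ x, f₂ x = f (Function.update x i (max c (x i))) := by
    intro x
    rcases le_total (x i) c with hx | hx
    · rw [max_eq_left hx, (h₁ x hx).2, hfc]
      simp
    · rw [max_eq_right hx, Function.update_eq_self, (h₂ x hx).1]
  have c₁ : Continuous f₁ := by
    have : f₁ = fun x => f (Function.update x i (min c (x i))) := funext e₁
    rw [this]
    exact hfc'.comp (continuous_id.update i (by fun_prop))
  have c₂ : Continuous f₂ := by
    have : f₂ = fun x => f (Function.update x i (max c (x i))) := funext e₂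
    rw [this]
    exact hfc'.comp (continuous_id.update i (by fun_prop))
  have s₁ : ∀ x, r₀ ≤ ‖x‖ → f₁ x = z := by
    intro x hx
    rcases le_total (x i) c with hxc | hxc
    · rw [(h₁ x hxc).1, hr₀ x hx]
    · exact (h₂ x hxc).2
  have s₂ : ∀ x, r₀ ≤ ‖x‖ → f₂ x = z := by
    intro x hx
    rcases le_total (x i) c with hxc | hxc
    · exact (h₁ x hxc).2
    · rw [(h₂ x hxc).1, hr₀ x hx]
  refine ⟨⟨c₁, r₀, s₁⟩, ⟨c₂, r₀, s₂⟩, ?_⟩
  set r : ℝ := max r₀ (|c| + 1) with hr
  have hr1 : r₀ ≤ r := le_max_left _ _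
  have hr2 : |c| < r := lt_of_lt_of_le (by linarith) (le_max_right r₀ (|c| + 1))
  have hrpos : 0 < r := lt_of_le_of_lt (abs_nonneg c) hr2
  have t : ∀ x, r ≤ ‖x‖ → f x = z := fun x hx => hr₀ x (hr1.trans hx)
  have t₁ : ∀ x, r ≤ ‖x‖ → f₁ x = z := fun x hx => s₁ x (hr1.trans hx)
  have t₂ : ∀ x, r ≤ ‖x‖ → f₂ x = z := fun x hx => s₂ x (hr1.trans hx)
  rw [XCL3.cl_eq z f r hrpos hfc' t, XCL3.cl_eq z f₁ r hrpos c₁ t₁,
    XCL3.cl_eq z f₂ r hrpos c₂ t₂]
  refine Eq.trans ?_ (HomotopyGroup.mul_spec (i := i) (p := gl z f₂ r c₂ t₂)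
    (q := gl z f₁ r c₁ t₁)).symm
  exact Quotient.sound (XCL3.trans_hom z f f₁ f₂ i c r hr2 hfc' c₁ c₂ t t₁ t₂ e₁ e₂).symm

end Pool.Agent.Work.MP_e9e200_al.O3

end

section

/-!
# Project O3, item CL4: the class of the reflected map
-/

set_option autoImplicit false

namespace Pool.Agent.Work.MP_e9e200_al.O3

open Set Metric Topology OnePoint

namespace XCL4

theorem norm_mir {n : ℕ} (i : Fin n) (x : E n) : ‖mir i x‖ = ‖x‖ := by
  have key : ∀ y : E n, ‖mir i y‖ ≤ ‖y‖ := by
    intro y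
    refine (pi_norm_le_iff_of_nonneg (norm_nonneg _)).2 fun j => ?_
    rcases eq_or_ne j i with rfl | hj
    · simp only [mir, Function.update_self, norm_neg]
      exact norm_le_pi_norm y j
    · simp only [mir, Function.update_of_ne hj]
      exact norm_le_pi_norm y j
  refine le_antisymm (key x) ?_
  have h := key (mir i x)
  have h2 : mir i (mir i x) = x := by
    funext j
    rcases eq_or_ne j i with rfl | hj
    · simp [mir]
    · simp [mir, Function.update_of_ne hj]
  rwa [h2] at h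

theorem mir_mir {n : ℕ} (i : Fin n) (x : E n) : mir i (mir i x) = x := by
  funext j
  rcases eq_or_ne j i with rfl | hj
  · simp [mir]
  · simp [mir, Function.update_of_ne hj]

theorem cont_mir {n : ℕ} (i : Fin n) : Continuous (mir i : E n → E n) := by
  unfold mir
  fun_prop

theorem pred_eq {n : ℕ} {Z : Type} [TopologicalSpace Z] (z : Z) (f : E n → Z) (i : Fin n) :
    (fun r : ℝ => 0 < r ∧ Continuous (fun x => f (mir i x)) ∧
      ∀ x, r ≤ ‖x‖ → (fun x => f (mir i x)) x = z) =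
    (fun r : ℝ => 0 < r ∧ Continuous f ∧ ∀ x, r ≤ ‖x‖ → f x = z) := by
  funext r
  refine propext ⟨fun h => ⟨h.1, ?_, fun x hx => ?_⟩, fun h => ⟨h.1, ?_, fun x hx => ?_⟩⟩
  · have h1 := h.2.1.comp (cont_mir i)
    have h2 : (fun x => f (mir i x)) ∘ mir i = f := by
      funext x
      simp only [Function.comp_apply, mir_mir]
    rwa [h2] at h1
  · have h1 := h.2.2 (mir i x) (by rw [norm_mir]; exact hx)
    simpa only [mir_mir] using h1
  · exact h.2.1.comp (cont_mir i)
  · exact h.2.2 _ (by rw [norm_mir]; exact hx)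

theorem symm_gl {n : ℕ} {Z : Type} [TopologicalSpace Z] (z : Z) (f : E n → Z) (i : Fin n) (r : ℝ)
    (hf : Continuous f) (h : ∀ x, r ≤ ‖x‖ → f x = z) (hf' : Continuous fun x => f (mir i x))
    (h' : ∀ x, r ≤ ‖x‖ → (fun x => f (mir i x)) x = z) :
    GenLoop.symmAt i (gl z f r hf h) = gl z (fun x => f (mir i x)) r hf' h' := by
  ext y
  change f (fun j => r * (2 * ((if j = i then unitInterval.symm (y i) else y j : unitInterval) : ℝ)
    - 1)) = f (mir i (fun j => r * (2 * (y j : ℝ) - 1)))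
  congr 1
  funext j
  rcases eq_or_ne j i with rfl | hj
  · simp only [if_true, mir, Function.update_self, unitInterval.coe_symm_eq]
    ring
  · simp only [if_neg hj, mir, Function.update_of_ne hj]

end XCL4

open XCL4 in
theorem I_CL4 (_hCL1 : StCL1) : StCL4 := by
  intro n Z _ z f i hf
  obtain ⟨hc, r, hr⟩ := hf
  have hex : ∃ r : ℝ, 0 < r ∧ Continuous f ∧ ∀ x, r ≤ ‖x‖ → f x = z :=
    ⟨max r 1, lt_of_lt_of_le one_pos (le_max_right _ _), hc,
      fun x hx => hr x ((le_max_left _ _).trans hx)⟩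
  have hex' : ∃ r : ℝ, 0 < r ∧ Continuous (fun x => f (mir i x)) ∧
      ∀ x, r ≤ ‖x‖ → (fun x => f (mir i x)) x = z := by
    have h := hex
    rw [show (∃ r : ℝ, 0 < r ∧ Continuous (fun x => f (mir i x)) ∧
      ∀ x, r ≤ ‖x‖ → (fun x => f (mir i x)) x = z) ↔ _ from by
        have h2 := pred_eq z f i
        exact Iff.of_eq (congrArg Exists h2)]
    exact h
  have hch : hex'.choose = hex.choose := by
    have h2 := pred_eq z f i
    have key : ∀ (p q : ℝ → Prop) (hp : ∃ r, p r) (hq : ∃ r, q r), p = q →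
        hp.choose = hq.choose := by
      rintro p q hp hq rfl
      rfl
    exact key _ _ hex' hex h2
  have e1 : cl z f = (Quotient.mk (GenLoop.Homotopic.setoid (Fin (n + 1)) z)
      (gl z f hex.choose hex.choose_spec.2.1 hex.choose_spec.2.2) :
        Quotient (GenLoop.Homotopic.setoid (Fin (n + 1)) z)) := by
    unfold cl
    exact dif_pos hex
  have e2 : cl z (fun x => f (mir i x)) = (Quotient.mk (GenLoop.Homotopic.setoid (Fin (n + 1)) z)
      (gl z (fun x => f (mir i x)) hex'.choose hex'.choose_spec.2.1 hex'.choose_spec.2.2) :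
        Quotient (GenLoop.Homotopic.setoid (Fin (n + 1)) z)) := by
    unfold cl
    exact dif_pos hex'
  rw [e1, e2]
  have e3 := HomotopyGroup.inv_spec (i := i)
    (p := gl z f hex.choose hex.choose_spec.2.1 hex.choose_spec.2.2)
  refine Eq.trans ?_ e3.symm
  have hp' : ∀ x, hex.choose ≤ ‖x‖ → (fun x => f (mir i x)) x = z := by
    intro x hx
    exact hex'.choose_spec.2.2 x (by rw [hch]; exact hx)
  rw [symm_gl z f i hex.choose _ _ hex'.choose_spec.2.1 hp']
  have key : ∀ (a b : ℝ) (g : E (n + 1) → Z) (hg : Continuous g) (ha : ∀ x, a ≤ ‖x‖ → g x = z)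
      (hb : ∀ x, b ≤ ‖x‖ → g x = z), a = b → gl z g a hg ha = gl z g b hg hb := by
    rintro a b g hg ha hb rfl
    rfl
  exact congrArg _ (key _ _ _ _ _ _ hch)

end Pool.Agent.Work.MP_e9e200_al.O3

end

section

/-!
# Project O3, item CL5: the induced homomorphism
-/

set_option autoImplicit false

namespace Pool.Agent.Work.MP_e9e200_al.O3

open Set Metric Topology OnePoint

namespace XCL5

/-- the radius does not matter -/
theorem gl_rad {n : ℕ} {Z : Type} [TopologicalSpace Z] (z : Z) (f : E n → Z) (r r' : ℝ)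
    (hf : Continuous f) (h : ∀ x, r ≤ ‖x‖ → f x = z) (h' : ∀ x, r' ≤ ‖x‖ → f x = z) :
    GenLoop.Homotopic (gl z f r hf h) (gl z f r' hf h') := by
  refine ⟨⟨⟨⟨fun p => f (fun i => ((1 - (p.1 : ℝ)) * r + (p.1 : ℝ) * r') *
    (2 * (p.2 i : ℝ) - 1)), by fun_prop⟩, ?_, ?_⟩, ?_⟩⟩
  · intro y
    simp [gl]
  · intro y
    simp [gl]
  · rintro t y ⟨i, hi⟩
    have h1 : (gl z f r hf h).1 y = z := (gl z f r hf h).2 y ⟨i, hi⟩
    rw [h1]
    change f _ = z
    have ht0 := t.2.1
    have ht1 := t.2.2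
    have hn : |(1 - (t : ℝ)) * r + (t : ℝ) * r'| ≤
        ‖(fun i => ((1 - (t : ℝ)) * r + (t : ℝ) * r') * (2 * (y i : ℝ) - 1) : E n)‖ := by
      refine le_trans ?_ (norm_le_pi_norm _ i)
      have h2 : |2 * (y i : ℝ) - 1| = 1 := by
        rcases hi with hi | hi <;> simp only [hi] <;> norm_num
      rw [Real.norm_eq_abs, abs_mul, h2, mul_one]
    have hn' := le_trans (le_abs_self _) hn
    rcases le_total r r' with hr | hr
    · exact h _ (le_trans (by nlinarith) hn')
    · exact h' _ (le_trans (by nlinarith) hn')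

theorem cl_eq {n : ℕ} {Z : Type} [TopologicalSpace Z] (z : Z) (f : E n → Z) (r : ℝ) (hr : 0 < r)
    (hf : Continuous f) (h : ∀ x, r ≤ ‖x‖ → f x = z) :
    cl z f = (Quotient.mk (GenLoop.Homotopic.setoid (Fin n) z) (gl z f r hf h) :
      Quotient (GenLoop.Homotopic.setoid (Fin n) z)) := by
  have hex : ∃ r : ℝ, 0 < r ∧ Continuous f ∧ ∀ x, r ≤ ‖x‖ → f x = z := ⟨r, hr, hf, h⟩
  exact (dif_pos hex).trans (Quotient.sound (gl_rad z f _ r hf _ h))

section

variable {n : ℕ} {Z Z' : Type} [TopologicalSpace Z] [TopologicalSpace Z'] {z : Z} {z' : Z'}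

/-- composition of a generalised loop with a map -/
def post (φ : Z → Z') (hφ : Continuous φ) (hz : φ z = z') (p : GenLoop (Fin n) Z z) :
    GenLoop (Fin n) Z' z' :=
  ⟨(⟨φ, hφ⟩ : C(Z, Z')).comp p.1, fun y hy => by
    change φ (p.1 y) = z'
    rw [p.2 y hy, hz]⟩

theorem post_hom (φ : Z → Z') (hφ : Continuous φ) (hz : φ z = z') (p q : GenLoop (Fin n) Z z)
    (h : GenLoop.Homotopic p q) :
    GenLoop.Homotopic (post φ hφ hz p) (post φ hφ hz q) := by
  obtain ⟨H⟩ := h
  exact ⟨H.compContinuousMap ⟨φ, hφ⟩⟩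

theorem post_trans (φ : Z → Z') (hφ : Continuous φ) (hz : φ z = z')
    (i : Fin n) (p q : GenLoop (Fin n) Z z) :
    post φ hφ hz (GenLoop.transAt i p q) =
      GenLoop.transAt i (post φ hφ hz p) (post φ hφ hz q) := by
  apply GenLoop.ext
  intro y
  change φ (if (y i : ℝ) ≤ 1 / 2 then _ else _) = (if (y i : ℝ) ≤ 1 / 2 then _ else _)
  split_ifs with hy <;> rfl

/-- the induced map of classes -/
def ind (φ : Z → Z') (hφ : Continuous φ) (hz : φ z = z') :
    HomotopyGroup (Fin n) Z z → HomotopyGroup (Fin n) Z' z' :=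
  Quotient.map (post φ hφ hz) (fun p q h => post_hom φ hφ hz p q h)

end

end XCL5

theorem I_CL5 (hCL1 : StCL1) (hCL2 : StCL2) : StCL5 := by
  have _ := hCL1
  have _ := hCL2
  intro n Z Z' _ _ z z' φ hφ hz
  refine ⟨MonoidHom.mk' (XCL5.ind (n := n + 1) φ hφ hz) ?_, ?_⟩
  · intro a b
    induction a using Quotient.inductionOn with
    | h p =>
      induction b using Quotient.inductionOn with
      | h q =>
        have e1 := HomotopyGroup.mul_spec (i := (0 : Fin (n + 1))) (p := p) (q := q)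
        have e2 := HomotopyGroup.mul_spec (i := (0 : Fin (n + 1)))
          (p := XCL5.post φ hφ hz p) (q := XCL5.post φ hφ hz q)
        have e3 := congrArg (XCL5.ind (n := n + 1) φ hφ hz) e1
        refine e3.trans (Eq.trans ?_ e2.symm)
        change (⟦XCL5.post φ hφ hz (GenLoop.transAt 0 q p)⟧ :
          Quotient (GenLoop.Homotopic.setoid (Fin (n + 1)) z')) = _
        rw [XCL5.post_trans]
  · rintro f ⟨hf, r₀, hr₀⟩
    have hr : 0 < max r₀ 1 := lt_of_lt_of_le one_pos (le_max_right _ _)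
    have h1 : ∀ x, max r₀ 1 ≤ ‖x‖ → f x = z := fun x hx => hr₀ x ((le_max_left _ _).trans hx)
    have h2 : ∀ x, max r₀ 1 ≤ ‖x‖ → φ (f x) = z' := fun x hx => by rw [h1 x hx, hz]
    rw [XCL5.cl_eq z f _ hr hf h1, XCL5.cl_eq z' (fun x => φ (f x)) _ hr (hφ.comp hf) h2]
    rfl

end Pool.Agent.Work.MP_e9e200_al.O3

end

section

set_option autoImplicit false

namespace Pool.Agent.Work.MP_e9e200_al.O3

open Set Metric Topology OnePoint

namespace XCLOSE

lemma lv_cases {k n : ℕ} (a : Fin k) (w : W k n) :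
    lv a w = 0 ∨ ∃ y : E n, w = ((a, y) : Fin k × E n) ∧ ‖y‖ < 1 ∧
      lv a w = Pi.single (ell y) 1 := by
  induction w using OnePoint.rec with
  | infty => left; rfl
  | coe p =>
    obtain ⟨b, y⟩ := p
    by_cases h : b = a ∧ ‖y‖ < 1
    · right
      obtain ⟨rfl, h2⟩ := h
      refine ⟨y, rfl, h2, ?_⟩
      simp [lv, h2]
    · left
      simp only [lv, OnePoint.elim_some]
      rw [if_neg h]

/-- the closed set of the points which may have the label `j` -/
def Z {k n : ℕ} (a : Fin k) (j : Fin (n + 1)) : Set (Fin k × E n) :=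
  {p | p.1 = a ∧ ‖p.2‖ ≤ 1 ∧ (j = 0 → ∀ i, p.2 i ≤ 0) ∧ ∀ i, j = Fin.succ i → 0 ≤ p.2 i}

lemma Z_closed {k n : ℕ} (a : Fin k) (j : Fin (n + 1)) : IsClosed (Z (n := n) a j) := by
  have h1 : IsClosed {p : Fin k × E n | p.1 = a} := isClosed_eq continuous_fst continuous_const
  have h2 : IsClosed {p : Fin k × E n | ‖p.2‖ ≤ 1} :=
    isClosed_le (continuous_norm.comp continuous_snd) continuous_const
  have h3 : IsClosed {p : Fin k × E n | j = 0 → ∀ i, p.2 i ≤ 0} := by
    simp only [Set.setOf_forall]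
    refine isClosed_iInter fun _ => isClosed_iInter fun i => ?_
    exact isClosed_le ((continuous_apply i).comp continuous_snd) continuous_const
  have h4 : IsClosed {p : Fin k × E n | ∀ i, j = Fin.succ i → 0 ≤ p.2 i} := by
    simp only [Set.setOf_forall]
    refine isClosed_iInter fun i => isClosed_iInter fun _ => ?_
    exact isClosed_le continuous_const ((continuous_apply i).comp continuous_snd)
  exact h1.inter (h2.inter (h3.inter h4))

lemma Z_compact {k n : ℕ} (a : Fin k) (j : Fin (n + 1)) : IsCompact (Z (n := n) a j) := by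
  have h : IsCompact ((Set.univ : Set (Fin k)) ×ˢ (closedBall (0 : E n) 1)) :=
    (isCompact_univ).prod (isCompact_closedBall _ _)
  refine h.of_isClosed_subset (Z_closed a j) ?_
  rintro ⟨b, y⟩ hp
  exact ⟨trivial, by simpa using hp.2.1⟩

lemma ell_mem {n : ℕ} (y : E n) (i : Fin n) (h : ell y = i.succ) : 0 ≤ y i := by
  classical
  unfold ell at h
  have hne : (Finset.univ.filter (fun i : Fin n => 0 ≤ y i)).Nonempty := by
    by_contra hc
    rw [Finset.not_nonempty_iff_eq_empty] at hc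
    rw [hc] at h
    simp only [Finset.sup_empty] at h
    exact (Fin.succ_ne_zero i) h.symm
  obtain ⟨i', hi', he⟩ := Finset.exists_mem_eq_sup _ hne (Fin.succ : Fin n → Fin (n + 1))
  rw [he] at h
  have := Fin.succ_injective _ h
  subst this
  simpa using hi'

lemma ell_zero {n : ℕ} (y : E n) (h : ell y = 0) (i : Fin n) : y i ≤ 0 := by
  classical
  unfold ell at h
  by_contra hc
  push Not at hc
  have hm : i ∈ Finset.univ.filter (fun i : Fin n => 0 ≤ y i) := by simp [hc.le]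
  have := Finset.le_sup (f := (Fin.succ : Fin n → Fin (n + 1))) hm
  rw [h] at this
  exact absurd this (not_le.mpr (Fin.succ_pos i))

lemma mem_Z {k n : ℕ} (a : Fin k) (y : E n) (hy : ‖y‖ < 1) :
    ((a, y) : Fin k × E n) ∈ Z a (ell y) :=
  ⟨rfl, hy.le, fun h i => ell_zero y h i, fun i h => ell_mem y i h⟩

lemma eq_zero_of_mem {k n : ℕ} (a : Fin k) (w : W k n)
    (h : ∀ j : Fin (n + 1), w ∈ ((↑) : Fin k × E n → W k n) '' Z a j) :
    w = ((a, 0) : Fin k × E n) := by
  obtain ⟨p, hp, rfl⟩ := h 0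
  obtain ⟨b, y⟩ := p
  obtain ⟨hb, -, h0, -⟩ := hp
  simp only at hb
  subst hb
  congr 2
  funext i
  apply le_antisymm (h0 rfl i)
  obtain ⟨q, hq, he⟩ := h i.succ
  have : q = (b, y) := OnePoint.coe_injective he
  subst this
  exact hq.2.2.2 i rfl

/-- near a point of the wedge the orientation is closed -/
lemma localC {k n : ℕ} (a : Fin k) (w : W k n) : ∃ O : Set (W k n), IsOpen O ∧ w ∈ O ∧
    ∀ u : Fin (n + 2) → W k n, (∀ i, u i ∈ O) →
      ∑ i : Fin (n + 2), (-1) ^ (i : ℕ) * kap a (fun j => u (i.succAbove j)) = 0 := by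
  classical
  by_cases hw : w = ((a, 0) : Fin k × E n)
  · refine ⟨((↑) : Fin k × E n → W k n) '' {p | p.1 = a ∧ ‖p.2‖ < 1}, ?_, ?_, ?_⟩
    · rw [OnePoint.isOpen_image_coe]
      refine IsOpen.inter ?_ ?_
      · exact (isOpen_discrete ({a} : Set (Fin k))).preimage continuous_fst
      · exact isOpen_lt (continuous_norm.comp continuous_snd) continuous_const
    · exact ⟨(a, 0), ⟨rfl, by simp⟩, hw.symm⟩
    · intro u hu
      let M : Matrix (Fin (n + 2)) (Fin (n + 2)) ℤ :=
        Matrix.of fun i => Fin.cons 1 (lv a (u i))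
      have hdet : M.det = 0 := by
        rw [← Matrix.exists_mulVec_eq_zero_iff]
        refine ⟨Fin.cons (-1) (fun _ => 1), ?_, ?_⟩
        · intro hc
          have := congrFun hc 0
          simp at this
        · funext i
          obtain ⟨p, ⟨hp1, hp2⟩, he⟩ := hu i
          obtain ⟨b, y⟩ := p
          simp only at hp1 hp2
          subst hp1
          simp only [Matrix.mulVec, dotProduct, M, Matrix.of_apply, Fin.sum_univ_succ,
            Fin.cons_zero, Fin.cons_succ, Pi.zero_apply]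
          rw [← he]
          have hlv : lv b (((b, y) : Fin k × E n) : W k n) = Pi.single (ell y) 1 := by
            simp [lv, hp2]
          rw [hlv]
          simp only [mul_one]
          rw [← Fin.sum_univ_succ (f := fun j => (Pi.single (ell y) (1 : ℤ) : Fin (n + 1) → ℤ) j)]
          rw [Finset.sum_pi_single']
          simp
      rw [Matrix.det_succ_column_zero] at hdet
      rw [← hdet]
      refine Finset.sum_congr rfl fun i _ => ?_
      simp only [M, Matrix.of_apply, Fin.cons_zero, mul_one, kap]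
      congr 2
  · have hj : ∃ j : Fin (n + 1), w ∉ ((↑) : Fin k × E n → W k n) '' Z a j := by
      by_contra hc
      push Not at hc
      exact hw (eq_zero_of_mem a w hc)
    obtain ⟨j, hj⟩ := hj
    refine ⟨(((↑) : Fin k × E n → W k n) '' Z a j)ᶜ, ?_, hj, ?_⟩
    · rw [isOpen_compl_iff, OnePoint.isClosed_image_coe]
      exact ⟨Z_closed a j, Z_compact a j⟩
    · intro u hu
      refine Finset.sum_eq_zero fun i _ => ?_
      have : kap a (fun l => u (i.succAbove l)) = 0 := by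
        unfold kap
        refine Matrix.det_eq_zero_of_column_eq_zero j fun l => ?_
        rw [Matrix.of_apply]
        rcases lv_cases a (u (i.succAbove l)) with h | ⟨y, h1, h2, h3⟩
        · rw [h]; rfl
        · rw [h3]
          by_cases he : j = ell y
          · exfalso
            refine hu (i.succAbove l) ⟨(a, y), ?_, h1.symm⟩
            rw [he]
            exact mem_Z a y h2
          · rw [Pi.single_apply, if_neg he]
      rw [this, mul_zero]

end XCLOSE

open XCLOSE in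
theorem I_CLOSE : StCLOSE := by
  intro V _ k n a H C hC hH
  have hO := fun x : V => localC a (H x)
  choose O hO1 hO2 hO3 using hO
  have hU : ∀ x : V, ∃ U : Set V, IsOpen U ∧ H ⁻¹' (O x) ∩ C = U ∩ C := fun x =>
    continuousOn_iff'.1 hH (O x) (hO1 x)
  choose U hU1 hU2 using hU
  obtain ⟨δ, hδ, hL⟩ := lebesgue_number_lemma_of_metric hC (c := U) hU1 (by
    intro x hx
    have : x ∈ H ⁻¹' (O x) ∩ C := ⟨hO2 x, hx⟩
    rw [hU2 x] at this
    exact Set.mem_iUnion.2 ⟨x, this.1⟩)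
  refine ⟨δ / 2, by positivity, fun v hv hd => ?_⟩
  obtain ⟨x, hx⟩ := hL (v 0) (hv 0)
  refine hO3 x (fun i => H (v i)) fun i => ?_
  have h1 : v i ∈ U x := hx (by
    rw [mem_ball]
    have := hd i 0
    linarith)
  have h2 : v i ∈ U x ∩ C := ⟨h1, hv i⟩
  rw [← hU2 x] at h2
  exact h2.1

end Pool.Agent.Work.MP_e9e200_al.O3

end

section

/-!
# Project O3, item DADD: additivity of the degree for disjoint supports
-/

set_option autoImplicit false

namespace Pool.Agent.Work.MP_e9e200_al.O3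

open Set Metric Topology OnePoint

namespace XDADD

theorem lv_infty {k n : ℕ} (a : Fin k) : lv a (∞ : W k n) = 0 := rfl

theorem lv_ne {k n : ℕ} (a : Fin k) (w : W k n) (h : lv a w ≠ 0) :
    ∃ y : E n, w = ((a, y) : Fin k × E n) ∧ ‖y‖ < 1 := by
  induction w using OnePoint.rec with
  | infty => exact absurd (lv_infty a) h
  | coe p =>
    obtain ⟨b, y⟩ := p
    by_cases hb : b = a ∧ ‖y‖ < 1
    · obtain ⟨rfl, hy⟩ := hb
      exact ⟨y, rfl, hy⟩
    · exfalso
      apply h
      show (if b = a ∧ ‖y‖ < 1 then _ else 0) = _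
      rw [if_neg hb]

theorem kap_ne {k n : ℕ} (a : Fin k) (v : Fin (n + 1) → W k n) (h : kap a v ≠ 0) (i : Fin (n + 1)) :
    lv a (v i) ≠ 0 := by
  intro h0
  apply h
  refine Matrix.det_eq_zero_of_row_eq_zero i ?_
  intro j
  simp [h0]

theorem kap_inf {k n : ℕ} (a : Fin k) (v : Fin (n + 1) → W k n) (h : ∀ i, v i = ∞) :
    kap a v = 0 := by
  by_contra hk
  exact kap_ne a v hk 0 (by rw [h 0]; rfl)

theorem kap_ne_inf {k n : ℕ} (a : Fin k) (v : Fin (n + 1) → W k n) (h : kap a v ≠ 0)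
    (i : Fin (n + 1)) : v i ≠ ∞ := by
  intro h0
  exact kap_ne a v h i (by rw [h0]; rfl)

/-- the set of points of the wedge in the closed unit ball of the sphere `a` is closed -/
theorem closed_ball {k n : ℕ} (a : Fin k) :
    IsClosed ((fun p : Fin k × E n => (p : W k n)) '' ({a} ×ˢ closedBall (0 : E n) 1)) := by
  apply IsCompact.isClosed
  apply IsCompact.image
  · exact isCompact_singleton.prod (isCompact_closedBall _ _)
  · exact OnePoint.continuous_coe

theorem key {k n : ℕ} (a : Fin k) (f g u : E n → W k n) (hf : Continuous f) (hg : Continuous g)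
    (hu : CS ∞ u) (h1 : ∀ x, f x = ∞ ∨ g x = ∞) (h2 : ∀ x, u x = f x ∨ f x = ∞)
    (h3 : ∀ x, u x = g x ∨ g x = ∞) (h4 : ∀ x, f x = ∞ → g x = ∞ → u x = ∞) :
    ∃ δ : ℝ, 0 < δ ∧ ∀ v : Fin (n + 1) → E n, (∀ i j, dist (v i) (v j) < δ) →
      kap a (fun i => u (v i)) = kap a (fun i => f (v i)) + kap a (fun i => g (v i)) := by
  obtain ⟨huc, R, hR⟩ := hu
  set K : Set (E n) := closedBall 0 R ∩
    u ⁻¹' ((fun p : Fin k × E n => (p : W k n)) '' ({a} ×ˢ closedBall (0 : E n) 1)) with hK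
  have hKc : IsCompact K :=
    (isCompact_closedBall _ _).inter_right ((closed_ball a).preimage huc)
  have hoA : IsOpen {x | f x ≠ ∞} := by
    have : IsOpen ({∞}ᶜ : Set (W k n)) := isClosed_singleton.isOpen_compl
    exact this.preimage hf
  have hoB : IsOpen {x | g x ≠ ∞} := by
    have : IsOpen ({∞}ᶜ : Set (W k n)) := isClosed_singleton.isOpen_compl
    exact this.preimage hg
  let c : Bool → Set (E n) := fun b => if b then {x | f x ≠ ∞} else {x | g x ≠ ∞}
  have hco : ∀ b, IsOpen (c b) := by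
    intro b
    cases b
    · simpa [c] using hoB
    · simpa [c] using hoA
  have hcov : K ⊆ ⋃ b, c b := by
    rintro x ⟨-, p, -, hp⟩
    have hux : u x ≠ ∞ := by
      rw [← hp]
      exact OnePoint.coe_ne_infty _
    rw [mem_iUnion]
    by_cases hfx : f x = ∞
    · refine ⟨false, ?_⟩
      have : g x ≠ ∞ := fun hgx => hux (h4 x hfx hgx)
      simpa [c] using this
    · exact ⟨true, by simpa [c] using hfx⟩
  obtain ⟨δ, hδ, hL⟩ := lebesgue_number_lemma_of_metric hKc hco hcov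
  refine ⟨δ, hδ, fun v hv => ?_⟩
  -- all the vertices in the support of `f`
  have hF : (∀ i, f (v i) ≠ ∞) →
      kap a (fun i => u (v i)) = kap a (fun i => f (v i)) + kap a (fun i => g (v i)) := by
    intro hall
    have e1 : ∀ i, u (v i) = f (v i) := fun i => (h2 (v i)).resolve_right (hall i)
    have e2 : ∀ i, g (v i) = ∞ := fun i => (h1 (v i)).resolve_left (hall i)
    rw [kap_inf a (fun i => g (v i)) e2]
    simp [e1]
  have hG : (∀ i, g (v i) ≠ ∞) →
      kap a (fun i => u (v i)) = kap a (fun i => f (v i)) + kap a (fun i => g (v i)) := by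
    intro hall
    have e1 : ∀ i, u (v i) = g (v i) := fun i => (h3 (v i)).resolve_right (hall i)
    have e2 : ∀ i, f (v i) = ∞ := fun i => (h1 (v i)).resolve_right (hall i)
    rw [kap_inf a (fun i => f (v i)) e2]
    simp [e1]
  by_cases hkf : kap a (fun i => f (v i)) = 0
  · by_cases hkg : kap a (fun i => g (v i)) = 0
    · by_cases hku : kap a (fun i => u (v i)) = 0
      · rw [hkf, hkg, hku]; rfl
      · obtain ⟨y, hy, hy1⟩ := lv_ne a _ (kap_ne a (fun i => u (v i)) hku 0)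
        have hmem : v 0 ∈ K := by
          refine ⟨?_, (a, y), ⟨rfl, ?_⟩, hy.symm⟩
          · rw [mem_closedBall_zero_iff]
            by_contra hlt
            have := hR (v 0) (le_of_lt (not_le.1 hlt))
            exact kap_ne_inf a (fun i => u (v i)) hku 0 this
          · rw [mem_closedBall_zero_iff]
            exact hy1.le
        obtain ⟨b, hb⟩ := hL (v 0) hmem
        have hin : ∀ i, v i ∈ c b := fun i => hb (mem_ball.2 (hv i 0))
        cases b
        · exact hG (fun i => by simpa [c] using hin i)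
        · exact hF (fun i => by simpa [c] using hin i)
    · exact hG (kap_ne_inf a (fun i => g (v i)) hkg)
  · exact hF (kap_ne_inf a (fun i => f (v i)) hkf)

theorem vx_dist {n : ℕ} (p : Fin n → ℤ) (σ : Equiv.Perm (Fin n)) (i i' : Fin (n + 1)) (N : ℕ) :
    dist (fun j => (vx p σ i j : ℝ) / N) (fun j => (vx p σ i' j : ℝ) / N) ≤ 1 / N := by
  rw [dist_pi_le_iff (by positivity)]
  intro j
  rw [Real.dist_eq, ← sub_div, abs_div, Nat.abs_cast]
  refine div_le_div_of_nonneg_right ?_ (Nat.cast_nonneg N)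
  unfold vx
  split_ifs <;> simp

theorem vx_zero {n : ℕ} (p : Fin n → ℤ) (σ : Equiv.Perm (Fin n)) (j : Fin n) :
    vx p σ 0 j = p j := by
  unfold vx
  simp

theorem supp_fin {k n : ℕ} (a : Fin k) (f : E n → W k n) (hf : CS ∞ f) (N : ℕ) (hN : 0 < N) :
    (Function.support (fun p : Fin n → ℤ => ∑ σ : Equiv.Perm (Fin n),
      (Equiv.Perm.sign σ : ℤ) * kap a (fun i => f (fun j => (vx p σ i j : ℝ) / N)))).Finite := by
  obtain ⟨-, R, hR⟩ := hf
  refine (Set.finite_Icc (fun _ : Fin n => -⌈R * N⌉) (fun _ : Fin n => ⌈R * N⌉)).subset ?_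
  intro p hp
  rw [Function.mem_support] at hp
  obtain ⟨σ, -, hσ⟩ := Finset.exists_ne_zero_of_sum_ne_zero hp
  have hk : kap a (fun i => f (fun j => (vx p σ i j : ℝ) / N)) ≠ 0 := by
    intro h0
    apply hσ
    rw [h0, mul_zero]
  have h0 := kap_ne_inf a _ hk 0
  have hlt : ‖(fun j => (vx p σ 0 j : ℝ) / N : E n)‖ < R := by
    by_contra hge
    exact h0 (hR _ (not_lt.1 hge))
  have hNp : (0 : ℝ) < N := Nat.cast_pos.2 hN
  have hj : ∀ j, |(p j : ℝ)| < R * N := by
    intro j
    have h5 := lt_of_le_of_lt (norm_le_pi_norm (fun j => (vx p σ 0 j : ℝ) / N : E n) j) hlt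
    rw [Real.norm_eq_abs, vx_zero, abs_div, Nat.abs_cast, div_lt_iff₀ hNp] at h5
    exact h5
  constructor
  · intro j
    have h6 := (abs_lt.1 (hj j)).1
    have h7 : (R * N : ℝ) ≤ ⌈R * N⌉ := Int.le_ceil _
    have : (-(⌈R * N⌉ : ℝ)) ≤ (p j : ℝ) := by linarith
    exact_mod_cast this
  · intro j
    have h6 := (abs_lt.1 (hj j)).2
    have h7 : (R * N : ℝ) ≤ ⌈R * N⌉ := Int.le_ceil _
    have : (p j : ℝ) ≤ (⌈R * N⌉ : ℝ) := by linarith
    exact_mod_cast this

end XDADD

theorem I_DADD (hDEG : StDEG) (hGLUE : StGLUE) (hCLOSE : StCLOSE) : StDADD := by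
  have _ := hCLOSE
  intro k n a f g u hf hg h1 h2 h3 h4
  have hu : CS ∞ u := by
    refine ⟨hGLUE (E n) (W k n) ∞ f g u hf.1 hg.1 h1 h2 h3 h4, ?_⟩
    obtain ⟨-, r₁, hr₁⟩ := hf
    obtain ⟨-, r₂, hr₂⟩ := hg
    refine ⟨max r₁ r₂, fun x hx => ?_⟩
    exact h4 x (hr₁ x (le_trans (le_max_left _ _) hx)) (hr₂ x (le_trans (le_max_right _ _) hx))
  refine ⟨hu, ?_⟩
  obtain ⟨δ, hδ, hkey⟩ := XDADD.key a f g u hf.1 hg.1 hu h1 h2 h3 h4
  have e1 : ∀ᶠ N : ℕ in Filter.atTop, SN a u N = SN a f N + SN a g N := by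
    obtain ⟨N₀, hN₀⟩ := exists_nat_gt (1 / δ)
    filter_upwards [Filter.eventually_ge_atTop N₀, Filter.eventually_gt_atTop 0] with N hN hN0
    have hNp : (0 : ℝ) < N := Nat.cast_pos.2 hN0
    have hlt : 1 / (N : ℝ) < δ := by
      have h5 : 1 / δ < (N : ℝ) := lt_of_lt_of_le hN₀ (by exact_mod_cast hN)
      rw [div_lt_iff₀ hδ] at h5
      rw [div_lt_iff₀ hNp]
      linarith
    unfold SN
    rw [← finsum_add_distrib (XDADD.supp_fin a f hf N hN0) (XDADD.supp_fin a g hg N hN0)]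
    refine finsum_congr fun p => ?_
    rw [← Finset.sum_add_distrib]
    refine Finset.sum_congr rfl fun σ _ => ?_
    rw [← mul_add]
    congr 1
    exact hkey (fun i => (fun j => (vx p σ i j : ℝ) / N))
      (fun i j => lt_of_le_of_lt (XDADD.vx_dist p σ i j N) hlt)
  obtain ⟨N, hN1, hN2, hN3, hN4⟩ :=
    (e1.and (((hDEG k n a).1 f hf).and (((hDEG k n a).1 g hg).and ((hDEG k n a).1 u hu)))).exists
  rw [← hN2, ← hN3, ← hN4, hN1]

end Pool.Agent.Work.MP_e9e200_al.O3

end

section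

/-!
# Project O3, item EXPD: expansion
-/

set_option autoImplicit false

namespace Pool.Agent.Work.MP_e9e200_al.O3

open Set Metric Topology OnePoint Filter

namespace XEXPD

section gen

variable {Z : Type} [TopologicalSpace Z] {k n : ℕ}

lemma at_inf {w : Z → W k n} {z : Z} (hz : w z = ∞)
    (h : ∀ R : ℝ, ∀ᶠ z' in 𝓝 z, ∀ (a : Fin k) (y : E n), w z' = ((a, y) : Fin k × E n) →
      R ≤ ‖y‖) : ContinuousAt w z := by
  rw [ContinuousAt, hz, hasBasis_nhds_infty.tendsto_right_iff]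
  rintro s ⟨_, h2⟩
  obtain ⟨R, hR⟩ := ((h2.image continuous_snd).isBounded).exists_norm_le
  filter_upwards [h (R + 1)] with z' hz'
  induction hw : w z' using OnePoint.rec with
  | infty => right; rfl
  | coe p =>
    left
    refine ⟨p, ?_, rfl⟩
    intro hs
    have h3 := hR _ ⟨p, hs, rfl⟩
    have h4 := hz' p.1 p.2 hw
    linarith

lemma of_inf {w : Z → W k n} {z : Z} (hc : ContinuousAt w z) (hz : w z = ∞) (R : ℝ) :
    ∀ᶠ z' in 𝓝 z, ∀ (a : Fin k) (y : E n), w z' = ((a, y) : Fin k × E n) → R ≤ ‖y‖ := by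
  rw [ContinuousAt, hz, hasBasis_nhds_infty.tendsto_right_iff] at hc
  have hK : IsCompact ((univ : Set (Fin k)) ×ˢ closedBall (0 : E n) R) :=
    isCompact_univ.prod (isCompact_closedBall 0 R)
  filter_upwards [hc _ ⟨hK.isClosed, hK⟩] with z' hz' a y hw
  rw [hw] at hz'
  rcases hz' with ⟨p, hp, hpe⟩ | h
  · have hpe' : p = (a, y) := OnePoint.coe_injective hpe
    subst hpe'
    by_contra hc'
    apply hp
    refine ⟨mem_univ _, ?_⟩
    rw [mem_closedBall_zero_iff]
    exact (not_le.1 hc').le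
  · exact absurd h (OnePoint.coe_ne_infty _)

lemma of_coe {w : Z → W k n} {z : Z} (hc : ContinuousAt w z) {a : Fin k} {y : E n}
    (hz : w z = ((a, y) : Fin k × E n)) {ε : ℝ} (hε : 0 < ε) :
    ∀ᶠ z' in 𝓝 z, ∃ y' : E n, w z' = ((a, y') : Fin k × E n) ∧ ‖y' - y‖ < ε := by
  rw [ContinuousAt, hz, nhds_coe_eq] at hc
  have h1 : {p : Fin k × E n | p.1 = a ∧ ‖p.2 - y‖ < ε} ∈ 𝓝 ((a, y) : Fin k × E n) := by
    have h2 : ({a} : Set (Fin k)) ×ˢ ball y ε ∈ 𝓝 ((a, y) : Fin k × E n) :=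
      prod_mem_nhds (by simp) (ball_mem_nhds _ hε)
    filter_upwards [h2] with p hp
    refine ⟨hp.1, ?_⟩
    have := hp.2
    rwa [mem_ball, dist_eq_norm] at this
  have h3 := hc (image_mem_map h1)
  filter_upwards [h3] with z' hz'
  obtain ⟨p, ⟨hp1, hp2⟩, hp⟩ := hz'
  refine ⟨p.2, ?_, hp2⟩
  rw [← hp, ← hp1]

lemma at_coe {w : Z → W k n} {z : Z} {a : Fin k} {y : E n} (hz : w z = ((a, y) : Fin k × E n))
    (h : ∀ ε : ℝ, 0 < ε → ∀ᶠ z' in 𝓝 z, ∃ y' : E n, w z' = ((a, y') : Fin k × E n) ∧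
      ‖y' - y‖ < ε) : ContinuousAt w z := by
  rw [ContinuousAt, hz, nhds_coe_eq]
  intro s hs
  rw [Filter.mem_map] at hs
  have hcont : Continuous (fun y' : E n => ((a, y') : Fin k × E n)) := by fun_prop
  have h1 := hcont.continuousAt (x := y) hs
  obtain ⟨ε, hε, hb⟩ := Metric.mem_nhds_iff.1 h1
  change ∀ᶠ z' in 𝓝 z, w z' ∈ s
  filter_upwards [h ε hε] with z' hz'
  obtain ⟨y', h2, h3⟩ := hz'
  rw [h2]
  exact hb (by rw [mem_ball, dist_eq_norm]; exact h3)

end gen

variable {k n : ℕ}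

/-- the clamped time -/
noncomputable def clp (t : ℝ) : ℝ := max 0 (min 1 t)

lemma clp_cont : Continuous clp := by unfold clp; fun_prop

lemma clp_nonneg (t : ℝ) : 0 ≤ clp t := le_max_left _ _

lemma clp_le (t : ℝ) : clp t ≤ 1 := by
  unfold clp
  exact max_le zero_le_one (min_le_left _ _)

/-- the moved vector -/
noncomputable def hv (ε : ℝ) (y0 : E n) (q : ℝ × E n) : E n :=
  ((1 - q.1 + q.1 / ε) * (1 - q.1 * ‖q.2 - q.1 • y0‖ / ε)⁻¹) • (q.2 - q.1 • y0)

lemma hv_cont {ε : ℝ} (hε : 0 < ε) (y0 : E n) {q : ℝ × E n}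
    (hq : q.1 * ‖q.2 - q.1 • y0‖ < ε) : ContinuousAt (hv ε y0) q := by
  unfold hv
  have h1 : 1 - q.1 * ‖q.2 - q.1 • y0‖ / ε ≠ 0 := by
    have : q.1 * ‖q.2 - q.1 • y0‖ / ε < 1 := by rw [div_lt_one hε]; exact hq
    linarith
  have h2 : ContinuousAt (fun q : ℝ × E n => (1 - q.1 * ‖q.2 - q.1 • y0‖ / ε)⁻¹) q :=
    ContinuousAt.inv₀ (by fun_prop) h1
  exact ContinuousAt.smul (ContinuousAt.mul (by fun_prop) h2) (by fun_prop)

lemma coef {ε s : ℝ} (hε : 0 < ε) (h0 : 0 ≤ s) (h1 : s ≤ 1) : min 1 (1 / ε) ≤ 1 - s + s / ε := by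
  have h2 : min 1 (1 / ε) ≤ 1 := min_le_left _ _
  have h3 : min 1 (1 / ε) ≤ 1 / ε := min_le_right _ _
  have h4 : s * min 1 (1 / ε) ≤ s * (1 / ε) := mul_le_mul_of_nonneg_left h3 h0
  have h5 : (1 - s) * min 1 (1 / ε) ≤ (1 - s) * 1 := mul_le_mul_of_nonneg_left h2 (by linarith)
  have h6 : s / ε = s * (1 / ε) := by ring
  rw [h6]
  nlinarith

lemma hv_norm {ε : ℝ} (hε : 0 < ε) (y0 : E n) {q : ℝ × E n} (h0 : 0 ≤ q.1) (h1 : q.1 ≤ 1)
    (hq : q.1 * ‖q.2 - q.1 • y0‖ < ε) :
    min 1 (1 / ε) * ‖q.2 - q.1 • y0‖ * (1 - q.1 * ‖q.2 - q.1 • y0‖ / ε)⁻¹ ≤ ‖hv ε y0 q‖ := by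
  have hlt : q.1 * ‖q.2 - q.1 • y0‖ / ε < 1 := by rw [div_lt_one hε]; exact hq
  have hpos : 0 < (1 - q.1 * ‖q.2 - q.1 • y0‖ / ε)⁻¹ := inv_pos.2 (by linarith)
  have hm : 0 < min 1 (1 / ε) := lt_min one_pos (by positivity)
  have hc := coef hε h0 h1
  unfold hv
  rw [norm_smul, Real.norm_eq_abs, abs_of_pos (mul_pos (lt_of_lt_of_le hm hc) hpos)]
  have h2 := norm_nonneg (q.2 - q.1 • y0)
  have h3 : min 1 (1 / ε) * (‖q.2 - q.1 • y0‖ * (1 - q.1 * ‖q.2 - q.1 • y0‖ / ε)⁻¹) ≤
    (1 - q.1 + q.1 / ε) * (‖q.2 - q.1 • y0‖ * (1 - q.1 * ‖q.2 - q.1 • y0‖ / ε)⁻¹) :=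
    mul_le_mul_of_nonneg_right hc (mul_nonneg h2 hpos.le)
  linarith [h3]

open scoped Classical in
/-- the homotopy -/
noncomputable def HH (f : E n → W k n) (ε : ℝ) (y0 : E n) (p : ℝ × E n) : W k n :=
  (f p.2).elim ∞ (fun q => if clp p.1 * ‖q.2 - clp p.1 • y0‖ < ε then
    (((q.1, hv ε y0 (clp p.1, q.2)) : Fin k × E n) : W k n) else ∞)

lemma HH_inf (f : E n → W k n) (ε : ℝ) (y0 : E n) (p : ℝ × E n) (h : f p.2 = ∞) :
    HH f ε y0 p = ∞ := by
  unfold HH; rw [h]; rfl

open scoped Classical in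
lemma HH_coe (f : E n → W k n) (ε : ℝ) (y0 : E n) (p : ℝ × E n) {a : Fin k} {y : E n}
    (h : f p.2 = ((a, y) : Fin k × E n)) :
    HH f ε y0 p = if clp p.1 * ‖y - clp p.1 • y0‖ < ε then
    (((a, hv ε y0 (clp p.1, y)) : Fin k × E n) : W k n) else ∞ := by
  unfold HH; rw [h]; rfl

lemma HH_cont {f : E n → W k n} (hf : Continuous f) {ε : ℝ} (hε : 0 < ε) (y0 : E n) :
    Continuous (HH f ε y0) := by
  classical
  rw [continuous_iff_continuousAt]
  intro p
  have hm : 0 < min 1 (1 / ε) := lt_min one_pos (by positivity)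
  have hfc : ContinuousAt (fun p : ℝ × E n => f p.2) p := (hf.comp continuous_snd).continuousAt
  have hcl : ContinuousAt (fun p : ℝ × E n => clp p.1) p :=
    (clp_cont.comp continuous_fst).continuousAt
  induction hw : f p.2 using OnePoint.rec with
  | infty =>
    apply at_inf (HH_inf f ε y0 p hw)
    intro R
    filter_upwards [of_inf hfc hw (|R| / min 1 (1 / ε) + ‖y0‖)] with p' hp' a y hy
    induction hw' : f p'.2 using OnePoint.rec with
    | infty => rw [HH_inf f ε y0 p' hw'] at hy; exact absurd hy (OnePoint.infty_ne_coe _)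
    | coe q =>
      obtain ⟨b, v⟩ := q
      rw [HH_coe f ε y0 p' hw'] at hy
      split_ifs at hy with hlt
      · have hy' := OnePoint.coe_injective hy
        have h1 : hv ε y0 (clp p'.1, v) = y := congrArg Prod.snd hy'
        rw [← h1]
        have h2 := hv_norm hε y0 (q := (clp p'.1, v)) (clp_nonneg _) (clp_le _) hlt
        have h3 := hp' b v hw'
        simp only at h2
        refine le_trans ?_ h2
        have h4 : 0 ≤ clp p'.1 * ‖v - clp p'.1 • y0‖ / ε :=
          div_nonneg (mul_nonneg (clp_nonneg _) (norm_nonneg _)) hε.le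
        have h5 : clp p'.1 * ‖v - clp p'.1 • y0‖ / ε < 1 := by rw [div_lt_one hε]; exact hlt
        have h6 : 1 ≤ (1 - clp p'.1 * ‖v - clp p'.1 • y0‖ / ε)⁻¹ :=
          (one_le_inv₀ (by linarith)).2 (by linarith)
        have h7 : ‖v‖ - ‖y0‖ ≤ ‖v - clp p'.1 • y0‖ := by
          have h8 := norm_sub_norm_le v (clp p'.1 • y0)
          have h9 : ‖clp p'.1 • y0‖ ≤ ‖y0‖ := by
            rw [norm_smul, Real.norm_eq_abs, abs_of_nonneg (clp_nonneg _)]
            exact mul_le_of_le_one_left (norm_nonneg _) (clp_le _)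
          linarith
        have h10 : |R| / min 1 (1 / ε) ≤ ‖v - clp p'.1 • y0‖ := by linarith
        have h11 : |R| ≤ min 1 (1 / ε) * ‖v - clp p'.1 • y0‖ := by
          rw [div_le_iff₀ hm] at h10; linarith
        calc R ≤ |R| := le_abs_self R
          _ ≤ min 1 (1 / ε) * ‖v - clp p'.1 • y0‖ := h11
          _ ≤ min 1 (1 / ε) * ‖v - clp p'.1 • y0‖ *
            (1 - clp p'.1 * ‖v - clp p'.1 • y0‖ / ε)⁻¹ :=
              le_mul_of_one_le_right (mul_nonneg hm.le (norm_nonneg _)) h6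
      · exact absurd hy (OnePoint.infty_ne_coe _)
  | coe q =>
    obtain ⟨b, y⟩ := q
    by_cases hlt : clp p.1 * ‖y - clp p.1 • y0‖ < ε
    · have he : HH f ε y0 p = ((b, hv ε y0 (clp p.1, y)) : Fin k × E n) := by
        rw [HH_coe f ε y0 p hw, if_pos hlt]
      apply at_coe he
      intro η hη
      have hc1 := hv_cont hε y0 (q := (clp p.1, y)) hlt
      have hS : {q : ℝ × E n | q.1 * ‖q.2 - q.1 • y0‖ < ε ∧
          ‖hv ε y0 q - hv ε y0 (clp p.1, y)‖ < η} ∈ 𝓝 ((clp p.1, y) : ℝ × E n) := by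
        have hA : ∀ᶠ q : ℝ × E n in 𝓝 (clp p.1, y), q.1 * ‖q.2 - q.1 • y0‖ < ε :=
          (isOpen_lt (by fun_prop) continuous_const).mem_nhds hlt
        have hB : ∀ᶠ q : ℝ × E n in 𝓝 (clp p.1, y), ‖hv ε y0 q - hv ε y0 (clp p.1, y)‖ < η := by
          have := Metric.tendsto_nhds.1 hc1 η hη
          filter_upwards [this] with q hq
          rwa [dist_eq_norm] at hq
        exact hA.and hB
      obtain ⟨δ, hδ, hb⟩ := Metric.mem_nhds_iff.1 hS
      filter_upwards [of_coe hfc hw hδ, Metric.tendsto_nhds.1 hcl δ hδ] with p' h1 h2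
      obtain ⟨y', h3, h4⟩ := h1
      have h5 : ((clp p'.1, y') : ℝ × E n) ∈ ball ((clp p.1, y) : ℝ × E n) δ := by
        rw [mem_ball, Prod.dist_eq]
        exact max_lt h2 (by rw [dist_eq_norm]; exact h4)
      obtain ⟨h6, h7⟩ := hb h5
      exact ⟨hv ε y0 (clp p'.1, y'), by rw [HH_coe f ε y0 p' h3, if_pos h6], h7⟩
    · have he : HH f ε y0 p = ∞ := by
        rw [HH_coe f ε y0 p hw, if_neg hlt]
      apply at_inf he
      intro R
      have hS : {q : ℝ × E n | ε < q.1 * ‖q.2 - q.1 • y0‖ ∨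
          R * (1 - q.1 * ‖q.2 - q.1 • y0‖ / ε) < min 1 (1 / ε) * (q.1 * ‖q.2 - q.1 • y0‖)} ∈
          𝓝 ((clp p.1, y) : ℝ × E n) := by
        rcases (not_lt.1 hlt).lt_or_eq with h | h
        · have hA : ∀ᶠ q : ℝ × E n in 𝓝 (clp p.1, y), ε < q.1 * ‖q.2 - q.1 • y0‖ :=
            (isOpen_lt continuous_const (by fun_prop)).mem_nhds h
          exact hA.mono fun q hq => Or.inl hq
        · have hA : ∀ᶠ q : ℝ × E n in 𝓝 (clp p.1, y), R * (1 - q.1 * ‖q.2 - q.1 • y0‖ / ε) <
              min 1 (1 / ε) * (q.1 * ‖q.2 - q.1 • y0‖) := by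
            refine (isOpen_lt (by fun_prop) (by fun_prop)).mem_nhds ?_
            change R * (1 - clp p.1 * ‖y - clp p.1 • y0‖ / ε) <
              min 1 (1 / ε) * (clp p.1 * ‖y - clp p.1 • y0‖)
            rw [← h, div_self hε.ne', sub_self, mul_zero]
            exact mul_pos hm hε
          exact hA.mono fun q hq => Or.inr hq
      obtain ⟨δ, hδ, hb⟩ := Metric.mem_nhds_iff.1 hS
      filter_upwards [of_coe hfc hw hδ, Metric.tendsto_nhds.1 hcl δ hδ] with p' h1 h2 a v hv'
      obtain ⟨y', h3, h4⟩ := h1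
      have h5 : ((clp p'.1, y') : ℝ × E n) ∈ ball ((clp p.1, y) : ℝ × E n) δ := by
        rw [mem_ball, Prod.dist_eq]
        exact max_lt h2 (by rw [dist_eq_norm]; exact h4)
      have h6 := hb h5
      rw [HH_coe f ε y0 p' h3] at hv'
      split_ifs at hv' with hlt'
      · have h7 := OnePoint.coe_injective hv'
        have h8 : hv ε y0 (clp p'.1, y') = v := congrArg Prod.snd h7
        rw [← h8]
        have h9 := hv_norm hε y0 (q := (clp p'.1, y')) (clp_nonneg _) (clp_le _) hlt'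
        simp only at h9
        refine le_trans ?_ h9
        have h10 : clp p'.1 * ‖y' - clp p'.1 • y0‖ / ε < 1 := by rw [div_lt_one hε]; exact hlt'
        rw [le_mul_inv_iff₀ (by linarith)]
        rcases h6 with h6 | h6
        · exact absurd h6 (not_lt.2 hlt'.le)
        · simp only at h6
          refine le_trans h6.le ?_
          apply mul_le_mul_of_nonneg_left _ hm.le
          exact mul_le_of_le_one_left (norm_nonneg _) (clp_le _)
      · exact absurd hv' (OnePoint.infty_ne_coe _)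

end XEXPD

open XEXPD in
theorem I_EXPD : StEXPD := by
  classical
  intro k n f y₀ ε r a c L hf hε hdis hin hout
  have hn : ∀ (i : Fin r) (x : E n), ‖(((L i).trans
      (ContinuousLinearEquiv.smulLeft (Units.mk0 ε⁻¹ (inv_ne_zero hε.ne')))) : E n ≃L[ℝ] E n) x‖ =
      ε⁻¹ * ‖L i x‖ := by
    intro i x
    change ‖ε⁻¹ • L i x‖ = _
    rw [norm_smul, Real.norm_eq_abs, abs_of_pos (inv_pos.2 hε)]
  have hlt : ∀ u : ℝ, ε⁻¹ * u < 1 ↔ u < ε := by
    intro u
    rw [inv_mul_lt_iff₀ hε, mul_one]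
  have hge : ∀ u : ℝ, 1 ≤ ε⁻¹ * u ↔ ε ≤ u := by
    intro u
    rw [← not_lt, ← not_lt, hlt]
  refine ⟨⟨a, c, fun i => (L i).trans
    (ContinuousLinearEquiv.smulLeft (Units.mk0 ε⁻¹ (inv_ne_zero hε.ne'))), ?_⟩,
    fun x => HH f ε y₀ (1, x), ⟨?_, ?_⟩, HH f ε y₀, HH_cont hf.1 hε y₀, ?_, ?_, fun x => rfl⟩
  · intro i j hij x hx
    rw [hn, hlt] at hx
    rw [hn, hge]
    exact hdis i j hij x hx
  · intro i x hx
    simp only at hx ⊢
    rw [hn, hlt] at hx
    have h1 := hin i x hx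
    have h2 : clp 1 = 1 := by simp [clp]
    rw [HH_coe f ε y₀ (1, x) h1]
    simp only [h2, one_smul, add_sub_cancel_left, one_mul]
    rw [if_pos hx]
    congr 2
    unfold hv psi
    simp only [one_smul, add_sub_cancel_left, one_mul, sub_self, zero_add]
    rw [hn]
    change _ = (1 - ε⁻¹ * ‖L i (x - c i)‖)⁻¹ • (ε⁻¹ • L i (x - c i))
    rw [smul_smul]
    congr 1
    rw [div_eq_inv_mul ‖L i (x - c i)‖ ε]
    ring
  · intro x hx
    simp only at hx ⊢
    have h2 : clp 1 = 1 := by simp [clp]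
    induction hw : f x using OnePoint.rec with
    | infty => exact HH_inf f ε y₀ (1, x) hw
    | coe q =>
      obtain ⟨b, y⟩ := q
      rw [HH_coe f ε y₀ (1, x) hw]
      simp only [h2, one_smul, one_mul]
      rw [if_neg]
      intro hl
      obtain ⟨i, hi⟩ := hout x b y hw hl
      have := hx i
      rw [hn, hge] at this
      exact absurd hi (not_lt.2 this)
  · obtain ⟨ρ, hρ⟩ := hf.2
    exact ⟨ρ, fun t x hx => HH_inf f ε y₀ (t, x) (hρ x hx)⟩
  · intro x
    have h2 : clp 0 = 0 := by simp [clp]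
    induction hw : f x using OnePoint.rec with
    | infty => exact HH_inf f ε y₀ (0, x) hw
    | coe q =>
      obtain ⟨b, y⟩ := q
      rw [HH_coe f ε y₀ (0, x) hw]
      simp only [h2, zero_mul, hv]
      rw [if_pos hε]
      simp

end Pool.Agent.Work.MP_e9e200_al.O3

end

section

set_option autoImplicit false

namespace Pool.Agent.Work.MP_e9e200_al.O3

open Set Metric Topology OnePoint

theorem I_GLUE : StGLUE := by
  intro V Z _ _ _ z f g u hf hg hfg huf hug hz
  have hop : ∀ k : V → Z, Continuous k → IsOpen {x | k x ≠ z} := by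
    intro k hk
    exact (isClosed_singleton.preimage hk).isOpen_compl
  rw [continuous_iff_continuousAt]
  intro x
  by_cases h1 : f x ≠ z
  · have h2 : ∀ᶠ x' in 𝓝 x, f x' = u x' := by
      filter_upwards [(hop f hf).mem_nhds h1] with x' hx'
      rcases huf x' with h | h
      · exact h.symm
      · exact absurd h hx'
    exact hf.continuousAt.congr h2
  · by_cases h2 : g x ≠ z
    · have h3 : ∀ᶠ x' in 𝓝 x, g x' = u x' := by
        filter_upwards [(hop g hg).mem_nhds h2] with x' hx'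
        rcases hug x' with h | h
        · exact h.symm
        · exact absurd h hx'
      exact hg.continuousAt.congr h3
    · push Not at h1 h2
      have h3 : u x = z := hz x h1 h2
      unfold ContinuousAt
      rw [h3]
      intro N hN
      have h4 : ∀ᶠ x' in 𝓝 x, f x' ∈ N := by
        have := hf.continuousAt (x := x)
        unfold ContinuousAt at this
        rw [h1] at this
        exact this hN
      have h5 : ∀ᶠ x' in 𝓝 x, g x' ∈ N := by
        have := hg.continuousAt (x := x)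
        unfold ContinuousAt at this
        rw [h2] at this
        exact this hN
      rw [Filter.mem_map]
      filter_upwards [h4, h5] with x' h6 h7
      show u x' ∈ N
      by_cases h8 : f x' = z
      · by_cases h9 : g x' = z
        · rw [hz x' h8 h9]; exact mem_of_mem_nhds hN
        · rcases hug x' with h | h
          · rw [h]; exact h7
          · exact absurd h h9
      · rcases huf x' with h | h
        · rw [h]; exact h6
        · exact absurd h h8

end Pool.Agent.Work.MP_e9e200_al.O3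

end

section

/-!
# Project O3, item HO: homotopy with compact support is an equivalence relation
-/

set_option autoImplicit false

namespace Pool.Agent.Work.MP_e9e200_al.O3

open Set Metric Topology OnePoint

namespace XHO

variable {n : ℕ} {Z : Type} [TopologicalSpace Z] {z : Z}

theorem refl' {f : E n → Z} (hf : CS z f) : Ho z f f := by
  obtain ⟨hc, r, hr⟩ := hf
  exact ⟨fun p => f p.2, hc.comp continuous_snd, ⟨r, fun _ x hx => hr x hx⟩, fun _ => rfl,
    fun _ => rfl⟩

theorem symm' {f g : E n → Z} (h : Ho z f g) : Ho z g f := by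
  obtain ⟨H, hH, ⟨r, hr⟩, h0, h1⟩ := h
  refine ⟨fun p => H (1 - p.1, p.2), hH.comp (by fun_prop), ⟨r, fun t x hx => hr _ x hx⟩, ?_, ?_⟩
  · intro x
    show H (1 - 0, x) = g x
    rw [sub_zero]
    exact h1 x
  · intro x
    show H (1 - 1, x) = f x
    rw [sub_self]
    exact h0 x

theorem trans' {f g h : E n → Z} (h1 : Ho z f g) (h2 : Ho z g h) : Ho z f h := by
  obtain ⟨H, hH, ⟨r, hr⟩, hH0, hH1⟩ := h1
  obtain ⟨K, hK, ⟨s, hs⟩, hK0, hK1⟩ := h2
  refine ⟨fun p => if p.1 ≤ 1 / 2 then H (2 * p.1, p.2) else K (2 * p.1 - 1, p.2), ?_,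
    ⟨max r s, ?_⟩, ?_, ?_⟩
  · refine Continuous.if_le (hH.comp (by fun_prop)) (hK.comp (by fun_prop)) continuous_fst
      continuous_const ?_
    intro p hp
    have e1 : 2 * p.1 = 1 := by rw [hp]; norm_num
    have e2 : 2 * p.1 - 1 = 0 := by rw [e1]; norm_num
    rw [e1, sub_self, hH1, hK0]
  · intro t x hx
    show (if t ≤ 1 / 2 then H (2 * t, x) else K (2 * t - 1, x)) = z
    split_ifs
    · exact hr _ x (le_trans (le_max_left _ _) hx)
    · exact hs _ x (le_trans (le_max_right _ _) hx)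
  · intro x
    show (if (0 : ℝ) ≤ 1 / 2 then H (2 * 0, x) else K (2 * 0 - 1, x)) = f x
    rw [if_pos (by norm_num), mul_zero]
    exact hH0 x
  · intro x
    show (if (1 : ℝ) ≤ 1 / 2 then H (2 * 1, x) else K (2 * 1 - 1, x)) = h x
    rw [if_neg (by norm_num), show (2 * 1 - 1 : ℝ) = 1 by norm_num]
    exact hK1 x

theorem ends {f g : E n → Z} (h : Ho z f g) : CS z f ∧ CS z g := by
  obtain ⟨H, hH, ⟨r, hr⟩, h0, h1⟩ := h
  constructor
  · refine ⟨?_, r, fun x hx => ?_⟩
    · have : f = fun x => H (0, x) := funext fun x => (h0 x).symm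
      rw [this]
      exact hH.comp (by fun_prop)
    · rw [← h0 x]
      exact hr 0 x hx
  · refine ⟨?_, r, fun x hx => ?_⟩
    · have : g = fun x => H (1, x) := funext fun x => (h1 x).symm
      rw [this]
      exact hH.comp (by fun_prop)
    · rw [← h1 x]
      exact hr 1 x hx

theorem clamp {H : ℝ × E n → Z} {r : ℝ} (hH : ContinuousOn H (Icc 0 1 ×ˢ univ))
    (hr : ∀ t ∈ Icc (0 : ℝ) 1, ∀ x, r ≤ ‖x‖ → H (t, x) = z) :
    Ho z (fun x => H (0, x)) (fun x => H (1, x)) := by
  have hm : ∀ t : ℝ, max 0 (min 1 t) ∈ Icc (0 : ℝ) 1 := fun t =>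
    ⟨le_max_left _ _, max_le zero_le_one (min_le_left _ _)⟩
  refine ⟨fun p => H (max 0 (min 1 p.1), p.2), ?_, ⟨r, fun t x hx => hr _ (hm t) x hx⟩, ?_, ?_⟩
  · exact hH.comp_continuous (by fun_prop) fun p => ⟨hm p.1, mem_univ _⟩
  · intro x
    show H (max 0 (min 1 0), x) = H (0, x)
    rw [min_eq_right zero_le_one, max_self]
  · intro x
    show H (max 0 (min 1 1), x) = H (1, x)
    rw [min_self, max_eq_right zero_le_one]

end XHO

theorem I_HO : StHO := by
  intro n Z _ z
  exact ⟨fun f hf => XHO.refl' hf, fun f g h => XHO.symm' h, fun f g h h1 h2 => XHO.trans' h1 h2,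
    fun f g h => XHO.ends h, fun H r hH hr => XHO.clamp hH hr⟩

end Pool.Agent.Work.MP_e9e200_al.O3

end

section

/-!
# Project O3: the maps `phi` and `psi` are inverse homeomorphisms
-/

set_option autoImplicit false

namespace Pool.Agent.Work.MP_e9e200_al.O3

open Set Metric Topology OnePoint

theorem XPHI.norm_phi {n : ℕ} (y : E n) : ‖phi y‖ = ‖y‖ / (1 + ‖y‖) := by
  have h : 0 < 1 + ‖y‖ := by positivity
  unfold phi
  rw [norm_smul, norm_inv, Real.norm_of_nonneg h.le, div_eq_inv_mul]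

theorem XPHI.norm_psi {n : ℕ} (x : E n) (hx : ‖x‖ < 1) : ‖psi x‖ = ‖x‖ / (1 - ‖x‖) := by
  have h : 0 < 1 - ‖x‖ := by linarith
  unfold psi
  rw [norm_smul, norm_inv, Real.norm_of_nonneg h.le, div_eq_inv_mul]

theorem XPHI.phi_lt {n : ℕ} (y : E n) : ‖phi y‖ < 1 := by
  rw [XPHI.norm_phi, div_lt_one (by positivity)]
  linarith

theorem XPHI.psi_phi {n : ℕ} (y : E n) : psi (phi y) = y := by
  have h : 1 + ‖y‖ ≠ 0 := by positivity
  have h1 : 1 - ‖phi y‖ = (1 + ‖y‖)⁻¹ := by
    rw [XPHI.norm_phi]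
    field_simp
    ring
  unfold psi
  rw [h1, inv_inv]
  unfold phi
  rw [smul_smul, mul_inv_cancel₀ h, one_smul]

theorem XPHI.phi_psi {n : ℕ} (x : E n) (hx : ‖x‖ < 1) : phi (psi x) = x := by
  have h : 1 - ‖x‖ ≠ 0 := by linarith
  have h1 : 1 + ‖psi x‖ = (1 - ‖x‖)⁻¹ := by
    rw [XPHI.norm_psi x hx]
    field_simp
    ring
  unfold phi
  rw [h1, inv_inv]
  unfold psi
  rw [smul_smul, mul_inv_cancel₀ h, one_smul]

/-- the maps `phi` and `psi` are inverse homeomorphisms -/
theorem I_PHI : StPHI := by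
  intro n
  refine ⟨fun y => ⟨XPHI.phi_lt y, XPHI.psi_phi y, XPHI.norm_phi y⟩,
    fun x hx => ⟨XPHI.phi_psi x hx, XPHI.norm_psi x hx⟩, ?_, ?_⟩
  · unfold phi
    have hc : Continuous (fun y : E n => (1 + ‖y‖)⁻¹) := by
      refine Continuous.inv₀ (by fun_prop) ?_
      intro y
      positivity
    exact hc.smul continuous_id
  · unfold psi
    have hc : ContinuousOn (fun x : E n => (1 - ‖x‖)⁻¹) (ball 0 1) := by
      refine ContinuousOn.inv₀ (by fun_prop) ?_
      intro x hx
      have : ‖x‖ < 1 := by simpa using hx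
      linarith
    exact hc.smul continuousOn_id

end Pool.Agent.Work.MP_e9e200_al.O3

end

section

/-!
# Project O3: item SMO (smooth approximation near the preimage of the unit ball)
-/

set_option autoImplicit false

namespace Pool.Agent.Work.MP_e9e200_al.O3

open Set Metric Topology OnePoint

namespace XSMO

noncomputable section

/-- the cut-off function of the proof -/
def lam (s : ℝ) : ℝ := max 0 (min 1 (3 - s))

/-- the clamped time -/
def clp (t : ℝ) : ℝ := max 0 (min 1 t)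

lemma continuous_lam : Continuous lam := by unfold lam; fun_prop

lemma continuous_clp : Continuous clp := by unfold clp; fun_prop

lemma lam_one {s : ℝ} (h : s ≤ 2) : lam s = 1 := by
  unfold lam
  rw [min_eq_left (by linarith), max_eq_right zero_le_one]

lemma lam_zero {s : ℝ} (h : 3 ≤ s) : lam s = 0 := by
  unfold lam
  rw [max_eq_left]
  exact le_trans (min_le_right _ _) (by linarith)

lemma lam_nonneg (s : ℝ) : 0 ≤ lam s := le_max_left _ _

lemma lam_le_one (s : ℝ) : lam s ≤ 1 := max_le zero_le_one (min_le_left _ _)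

lemma clp_zero : clp 0 = 0 := by
  unfold clp
  rw [max_eq_left (min_le_right _ _)]

lemma clp_one : clp 1 = 1 := by
  unfold clp
  rw [min_self, max_eq_right zero_le_one]

/-- the universal homotopy -/
def Phi {k n : ℕ} (u : Fin k → E n → E n) (q : (ℝ × E n) × W k n) : W k n :=
  q.2.elim ∞ (fun p => ((p.1, p.2 + (clp q.1.1 * lam ‖p.2‖) • (u p.1 q.1.2 - p.2)) :
    Fin k × E n))

lemma isOpen_big {k n : ℕ} (r : ℝ) :
    IsOpen (((↑) '' {p : Fin k × E n | ‖p.2‖ ≤ r} : Set (W k n))ᶜ) := by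
  rw [OnePoint.isOpen_compl_image_coe]
  have h : {p : Fin k × E n | ‖p.2‖ ≤ r} = univ ×ˢ closedBall (0 : E n) r := by
    ext p
    simp
  rw [h]
  exact ⟨isClosed_univ.prod isClosed_closedBall, isCompact_univ.prod (isCompact_closedBall _ _)⟩

lemma continuous_Phi {k n : ℕ} (u : Fin k → E n → E n) (hu : ∀ b, Continuous (u b)) :
    Continuous (Phi u) := by
  rw [continuous_iff_continuousAt]
  rintro ⟨s, w⟩
  induction w using OnePoint.rec with
  | infty =>
    have h1 : (Phi u) =ᶠ[𝓝 (s, (∞ : W k n))] fun q => q.2 := by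
      have h2 : ∀ᶠ q : (ℝ × E n) × W k n in 𝓝 (s, (∞ : W k n)),
          q.2 ∈ (((↑) '' {p : Fin k × E n | ‖p.2‖ ≤ 3} : Set (W k n))ᶜ) := by
        apply continuous_snd.continuousAt.eventually
        exact (isOpen_big 3).mem_nhds OnePoint.infty_notMem_image_coe
      filter_upwards [h2]
      rintro ⟨s', w'⟩ h3
      induction w' using OnePoint.rec with
      | infty => rfl
      | coe p =>
        have h4 : 3 < ‖p.2‖ := by
          by_contra h5
          exact h3 ⟨p, not_lt.mp h5, rfl⟩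
        show (((p.1, p.2 + (clp s'.1 * lam ‖p.2‖) • (u p.1 s'.2 - p.2)) :
          Fin k × E n) : W k n) = (p : W k n)
        rw [lam_zero h4.le]
        simp
    rw [continuousAt_congr h1]
    exact continuous_snd.continuousAt
  | coe p =>
    have h1 : IsOpenEmbedding (Prod.map id (↑) : (ℝ × E n) × (Fin k × E n) → (ℝ × E n) × W k n) :=
      IsOpenEmbedding.prodMap IsOpenEmbedding.id OnePoint.isOpenEmbedding_coe
    have h2 := h1.continuousAt_iff (f := (Prod.map id (↑) : (ℝ × E n) × (Fin k × E n) →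
      (ℝ × E n) × W k n)) (g := Phi u) (x := (s, p))
    have h3 : Continuous (Phi u ∘ (Prod.map id (↑) : (ℝ × E n) × (Fin k × E n) →
      (ℝ × E n) × W k n)) := by
      have h4 : (Phi u ∘ (Prod.map id (↑) : (ℝ × E n) × (Fin k × E n) → (ℝ × E n) × W k n)) =
          fun q => (((q.2.1, q.2.2 + (clp q.1.1 * lam ‖q.2.2‖) • (u q.2.1 q.1.2 - q.2.2)) :
          Fin k × E n) : W k n) := rfl
      rw [h4]
      apply OnePoint.continuous_coe.comp
      have h5 : Continuous (fun r : Fin k × E n => u r.1 r.2) :=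
        continuous_prod_of_discrete_left.mpr hu
      have h6 : Continuous (fun q : (ℝ × E n) × (Fin k × E n) => u q.2.1 q.1.2) :=
        h5.comp ((continuous_fst.comp continuous_snd).prodMk
          (continuous_snd.comp continuous_fst))
      have h7 := continuous_lam
      have h8 := continuous_clp
      fun_prop
    exact h2.mp h3.continuousAt

/-- the smooth approximations -/
lemma approx {k n : ℕ} (f : E n → W k n) (hf : Continuous f) (b : Fin k) :
    ∃ u : E n → E n, ContDiff ℝ 1 u ∧ ∀ x y, f x = ((b, y) : Fin k × E n) → ‖y‖ ≤ 3 →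
      ‖u x - y‖ ≤ 1 / 4 := by
  let t : E n → Set (E n) := fun x => {c | ∀ y, f x = ((b, y) : Fin k × E n) → ‖y‖ ≤ 3 →
      ‖c - y‖ ≤ 1 / 4}
  have ht : ∀ x, Convex ℝ (t x) := by
    intro x
    have h1 : t x = ⋂ (y : E n) (_ : f x = ((b, y) : Fin k × E n)) (_ : ‖y‖ ≤ 3),
        closedBall y (1 / 4) := by
      ext c
      simp only [t, mem_ofPred_eq, mem_iInter, mem_closedBall, dist_eq_norm]
    rw [h1]
    exact convex_iInter fun y => convex_iInter fun _ => convex_iInter fun _ =>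
      convex_closedBall _ _
  have hloc : ∀ x : E n, ∃ c : E n, ∀ᶠ y in 𝓝 x, c ∈ t y := by
    intro x
    rcases h0 : f x with _ | p
    · refine ⟨0, ?_⟩
      have h2 : ∀ᶠ y in 𝓝 x, f y ∈ (((↑) '' {p : Fin k × E n | ‖p.2‖ ≤ 3} : Set (W k n))ᶜ) := by
        apply hf.continuousAt.eventually
        apply (isOpen_big 3).mem_nhds
        rw [h0]
        exact OnePoint.infty_notMem_image_coe
      filter_upwards [h2]
      intro y hy v hv hv3
      exact absurd ⟨(b, v), hv3, hv.symm⟩ hy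
    · refine ⟨p.2, ?_⟩
      have h2 : ∀ᶠ y in 𝓝 x, f y ∈ ((↑) '' {q : Fin k × E n | ‖p.2 - q.2‖ < 1 / 4} :
          Set (W k n)) := by
        apply hf.continuousAt.eventually
        have h3 : IsOpen {q : Fin k × E n | ‖p.2 - q.2‖ < 1 / 4} :=
          isOpen_lt (by fun_prop) continuous_const
        apply (OnePoint.isOpen_image_coe.mpr h3).mem_nhds
        rw [h0]
        exact ⟨p, by simp, rfl⟩
      filter_upwards [h2]
      rintro y ⟨q, hq, hqy⟩ v hv hv3
      have h4 : q = (b, v) := OnePoint.coe_injective (hqy.trans hv)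
      subst h4
      exact le_of_lt hq
  obtain ⟨g, hg⟩ := exists_contMDiffMap_forall_mem_convex_of_local_const (n := 1)
    (modelWithCornersSelf ℝ (E n)) (M := E n) (F := E n) (t := t) ht hloc
  refine ⟨g, ?_, fun x y hxy hy => hg x y hxy hy⟩
  exact contMDiff_iff_contDiff.mp g.contMDiff

end

end XSMO

open XSMO in
theorem I_SMO : StSMO := by
  intro k n f hf
  obtain ⟨hfc, r, hr⟩ := hf
  choose u hu hua using fun b => approx f hfc b
  have hPc : Continuous (Phi u) := continuous_Phi u fun b => (hu b).continuous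
  refine ⟨fun x => Phi u ((1, x), f x), ⟨fun q => Phi u (q, f q.2), ?_, ⟨r, ?_⟩, ?_, ?_⟩, ?_⟩
  · exact hPc.comp (continuous_id.prodMk (hfc.comp continuous_snd))
  · intro t x hx
    show Phi u ((t, x), f x) = ∞
    rw [hr x hx]
    rfl
  · intro x
    show Phi u ((0, x), f x) = f x
    induction h0 : f x using OnePoint.rec with
    | infty => rfl
    | coe p =>
      show (((p.1, p.2 + (clp 0 * lam ‖p.2‖) • (u p.1 x - p.2)) :
          Fin k × E n) : W k n) = (p : W k n)
      rw [clp_zero]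
      simp
  · intro x
    rfl
  · intro x b y hxy hy
    have hxy' : Phi u ((1, x), f x) = ((b, y) : Fin k × E n) := hxy
    induction h0 : f x using OnePoint.rec with
    | infty =>
      rw [h0] at hxy'
      exact absurd hxy' (OnePoint.infty_ne_coe _)
    | coe p =>
      rw [h0] at hxy'
      have h1 : ((p.1, p.2 + (clp 1 * lam ‖p.2‖) • (u p.1 x - p.2)) : Fin k × E n) = (b, y) :=
        OnePoint.coe_injective hxy'
      rw [clp_one, one_mul] at h1
      obtain ⟨h2, h3⟩ := Prod.mk.inj h1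
      have h4 : ‖p.2‖ < 2 := by
        by_cases h5 : 3 ≤ ‖p.2‖
        · rw [lam_zero h5, zero_smul, add_zero] at h3
          rw [h3] at h5
          linarith
        · have h6 : ‖u p.1 x - p.2‖ ≤ 1 / 4 := hua p.1 x p.2 h0 (not_le.mp h5).le
          have h7 : p.2 = y - lam ‖p.2‖ • (u p.1 x - p.2) := by
            rw [← h3]
            abel
          have h8 : ‖lam ‖p.2‖ • (u p.1 x - p.2)‖ ≤ 1 / 4 := by
            rw [norm_smul, Real.norm_eq_abs, abs_of_nonneg (lam_nonneg _)]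
            calc lam ‖p.2‖ * ‖u p.1 x - p.2‖ ≤ 1 * (1 / 4) :=
                  mul_le_mul (lam_le_one _) h6 (norm_nonneg _) zero_le_one
              _ = 1 / 4 := one_mul _
          calc ‖p.2‖ = ‖y - lam ‖p.2‖ • (u p.1 x - p.2)‖ := by rw [← h7]
            _ ≤ ‖y‖ + ‖lam ‖p.2‖ • (u p.1 x - p.2)‖ := norm_sub_le _ _
            _ < 2 := by linarith
      refine ⟨u b, f ⁻¹' ((↑) '' {q : Fin k × E n | q.1 = b ∧ ‖q.2‖ < 2} : Set (W k n)), ?_, ?_,
        hu b, ?_⟩
      · apply IsOpen.preimage hfc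
        rw [OnePoint.isOpen_image_coe]
        have h9 : IsOpen {q : Fin k × E n | ‖q.2‖ < 2} := isOpen_lt (by fun_prop) continuous_const
        exact ((isOpen_discrete {b}).preimage continuous_fst).inter h9
      · exact ⟨p, ⟨h2, h4⟩, h0.symm⟩
      · rintro x' ⟨q, ⟨hq1, hq2⟩, hq⟩
        show Phi u ((1, x'), f x') = _
        rw [← hq]
        show (((q.1, q.2 + (clp 1 * lam ‖q.2‖) • (u q.1 x' - q.2)) :
          Fin k × E n) : W k n) = _
        rw [clp_one, lam_one hq2.le, hq1]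
        simp

end Pool.Agent.Work.MP_e9e200_al.O3

end

section

/-!
# Item SPH: maps of the sphere are homotopic to maps constant on all faces but one
-/

set_option autoImplicit false

namespace Pool.Agent.Work.MP_e9e200_al.O3

open Set Metric Topology OnePoint

noncomputable section

namespace XSPH

/-- the tail of a vector -/
def tl {n : ℕ} (x : E (n + 1)) : E n := fun i => x i.succ

/-- the vector with given first coordinate and tail -/
def cn {n : ℕ} (a : ℝ) (y : E n) : E (n + 1) := Fin.cons a y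

/-- normalisation -/
def nm {n : ℕ} (v : E n) : E n := ‖v‖⁻¹ • v

/-- the radius -/
def rho {n : ℕ} (x : E (n + 1)) : ℝ := max ‖tl x‖ (min 1 (1 - x 0))

/-- the target vector -/
def w {n : ℕ} (x : E (n + 1)) : E (n + 1) := cn (1 - 2 * rho x) ((1 - rho x) • tl x)

/-- the vector on the face -/
def V {n : ℕ} (y : E n) : E (n + 1) := cn (1 - 2 * min ‖y‖ 1) ((1 - min ‖y‖ 1) • y)

lemma continuous_tl {n : ℕ} : Continuous (tl : E (n + 1) → E n) := by
  unfold tl; fun_prop

lemma continuous_cn {n : ℕ} {X : Type*} [TopologicalSpace X] {a : X → ℝ} {y : X → E n}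
    (ha : Continuous a) (hy : Continuous y) : Continuous fun x => cn (a x) (y x) := by
  refine continuous_pi fun i => ?_
  refine Fin.cases ?_ (fun j => ?_) i
  · simpa [cn] using ha
  · exact (continuous_apply j).comp hy

lemma continuous_rho {n : ℕ} : Continuous (rho : E (n + 1) → ℝ) := by
  unfold rho
  have := continuous_tl (n := n)
  fun_prop

lemma continuous_w {n : ℕ} : Continuous (w : E (n + 1) → E (n + 1)) := by
  unfold w
  have h1 := continuous_tl (n := n)
  have h2 := continuous_rho (n := n)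
  exact continuous_cn (by fun_prop) (by fun_prop)

lemma continuous_V {n : ℕ} : Continuous (V : E n → E (n + 1)) := by
  unfold V
  exact continuous_cn (by fun_prop) (by fun_prop)

lemma cn_zero {n : ℕ} (a : ℝ) (y : E n) : cn a y 0 = a := rfl

lemma tl_cn {n : ℕ} (a : ℝ) (y : E n) : tl (cn a y) = y := rfl

lemma cn_eta {n : ℕ} (x : E (n + 1)) : cn (x 0) (tl x) = x := by
  funext i
  refine Fin.cases rfl (fun j => rfl) i

lemma norm_tl_le {n : ℕ} (x : E (n + 1)) : ‖tl x‖ ≤ ‖x‖ := by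
  refine (pi_norm_le_iff_of_nonneg (norm_nonneg _)).2 fun i => ?_
  exact norm_le_pi_norm x i.succ

lemma norm_cn {n : ℕ} (a : ℝ) (y : E n) : ‖cn a y‖ = max |a| ‖y‖ := by
  apply le_antisymm
  · refine (pi_norm_le_iff_of_nonneg (le_max_of_le_left (abs_nonneg _))).2 fun i => ?_
    refine Fin.cases ?_ (fun j => ?_) i
    · exact le_max_left _ _
    · exact le_trans (norm_le_pi_norm y j) (le_max_right _ _)
  · refine max_le ?_ ?_
    · exact norm_le_pi_norm (cn a y) 0
    · exact norm_tl_le (cn a y)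

lemma norm_eq {n : ℕ} (x : E (n + 1)) : ‖x‖ = max |x 0| ‖tl x‖ := by
  conv_lhs => rw [← cn_eta x]
  exact norm_cn _ _

lemma norm_nm {n : ℕ} {v : E n} (h : v ≠ 0) : ‖nm v‖ = 1 := by
  unfold nm
  rw [norm_smul, norm_inv, norm_norm]
  exact inv_mul_cancel₀ (norm_ne_zero_iff.2 h)

lemma nm_of {n : ℕ} {v : E n} (h : ‖v‖ = 1) : nm v = v := by
  unfold nm
  rw [h]; simp

lemma V_ne {n : ℕ} (y : E n) : V y ≠ 0 := by
  intro h
  have h0 : (1 : ℝ) - 2 * min ‖y‖ 1 = 0 := congrFun h 0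
  have h1 : (1 - min ‖y‖ 1) • y = 0 := congrArg tl h
  rcases smul_eq_zero.1 h1 with h2 | h2
  · linarith
  · rw [h2] at h0
    simp at h0

lemma V_of_le {n : ℕ} {y : E n} (hy : 1 ≤ ‖y‖) : V y = cn (-1) 0 := by
  unfold V
  rw [min_eq_right hy]
  norm_num

lemma rho_of_eq {n : ℕ} {x : E (n + 1)} (h0 : x 0 = 1) : rho x = ‖tl x‖ := by
  unfold rho
  rw [h0]
  simp

lemma rho_of_ne {n : ℕ} {x : E (n + 1)} (hx : ‖x‖ = 1) (h0 : x 0 ≠ 1) : rho x = 1 := by
  have hle : |x 0| ≤ 1 := by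
    rw [← hx]; exact norm_le_pi_norm x 0
  have hlt : x 0 < 1 := lt_of_le_of_ne (le_trans (le_abs_self _) hle) h0
  have htl : ‖tl x‖ ≤ 1 := by rw [← hx]; exact norm_tl_le x
  unfold rho
  by_cases hc : x 0 ≤ 0
  · rw [min_eq_left (by linarith)]
    exact max_eq_right htl
  · push Not at hc
    have habs : |x 0| < 1 := by rw [abs_of_pos hc]; exact hlt
    have h1 : ‖tl x‖ = 1 := by
      have h2 := norm_eq x
      rw [hx] at h2
      rcases max_choice |x 0| ‖tl x‖ with h3 | h3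
      · rw [h3] at h2; linarith
      · rw [h3] at h2; exact h2.symm
    rw [h1]
    exact max_eq_left (min_le_left _ _)

lemma w_of_eq {n : ℕ} {x : E (n + 1)} (hx : ‖x‖ = 1) (h0 : x 0 = 1) : w x = V (tl x) := by
  have htl : ‖tl x‖ ≤ 1 := by rw [← hx]; exact norm_tl_le x
  unfold w V
  rw [rho_of_eq h0, min_eq_left htl]

lemma w_of_ne {n : ℕ} {x : E (n + 1)} (hx : ‖x‖ = 1) (h0 : x 0 ≠ 1) : w x = cn (-1) 0 := by
  unfold w
  rw [rho_of_ne hx h0]
  norm_num

lemma rho_nonneg {n : ℕ} (x : E (n + 1)) : 0 ≤ rho x := le_max_of_le_left (norm_nonneg _)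

lemma rho_le {n : ℕ} {x : E (n + 1)} (hx : ‖x‖ = 1) : rho x ≤ 1 := by
  have htl : ‖tl x‖ ≤ 1 := by rw [← hx]; exact norm_tl_le x
  exact max_le htl (min_le_left _ _)

/-- the straight line -/
def u {n : ℕ} (p : ℝ × E (n + 1)) : E (n + 1) := (1 - p.1) • p.2 + p.1 • w p.2

lemma u_ne {n : ℕ} {t : ℝ} {x : E (n + 1)} (ht0 : 0 ≤ t) (ht1 : t ≤ 1) (hx : ‖x‖ = 1) :
    u (t, x) ≠ 0 := by
  intro h
  have h0 : (1 - t) * x 0 + t * (1 - 2 * rho x) = 0 := congrFun h 0
  have h1 : (1 - t) • tl x + t • ((1 - rho x) • tl x) = 0 := congrArg tl h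
  have h2 : (1 - t * rho x) • tl x = 0 := by
    rw [← h1, smul_smul, ← add_smul]; congr 1; ring
  rcases smul_eq_zero.1 h2 with h3 | h3
  · have hr := rho_le hx
    have hr0 := rho_nonneg x
    have ht : t = 1 := by nlinarith
    have hrr : rho x = 1 := by rw [ht] at h3; linarith
    rw [ht, hrr] at h0
    linarith
  · by_cases hc : x 0 = 1
    · rw [rho_of_eq hc, h3, hc] at h0
      simp at h0
    · have hn := norm_eq x
      rw [hx, h3, norm_zero, max_eq_left (abs_nonneg _)] at hn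
      have hx0 : x 0 = -1 := by
        rcases abs_eq (zero_le_one' ℝ) |>.1 hn.symm with h4 | h4
        · exact absurd h4 hc
        · exact h4
      rw [rho_of_ne hx hc, hx0] at h0
      linarith

lemma continuous_u {n : ℕ} : Continuous (u : ℝ × E (n + 1) → E (n + 1)) := by
  unfold u
  have := continuous_w (n := n)
  fun_prop

lemma continuousOn_nm {n : ℕ} : ContinuousOn (nm : E n → E n) {v | v ≠ 0} := by
  have h : ContinuousOn (fun v : E n => ‖v‖⁻¹) {v | v ≠ 0} :=
    continuous_norm.continuousOn.inv₀ fun v hv => norm_ne_zero_iff.2 hv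
  exact h.smul continuousOn_id

end XSPH

open XSPH in
theorem I_SPH : StSPH := by
  intro n Z _ g hg
  have hm1 : ‖(cn (-1) 0 : E (n + 1))‖ = 1 := by rw [norm_cn]; simp
  have hVs : ∀ y : E n, nm (V y) ∈ sphere (0 : E (n + 1)) 1 := fun y => by
    rw [mem_sphere_zero_iff_norm]; exact norm_nm (V_ne y)
  have hus : ∀ p ∈ Icc (0 : ℝ) 1 ×ˢ sphere (0 : E (n + 1)) 1,
      nm (u p) ∈ sphere (0 : E (n + 1)) 1 := by
    rintro ⟨t, x⟩ ⟨⟨ht0, ht1⟩, hx⟩
    rw [mem_sphere_zero_iff_norm] at hx ⊢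
    exact norm_nm (u_ne ht0 ht1 hx)
  refine ⟨g (cn (-1) 0), fun y => g (nm (V y)), fun p => g (nm (u p)), ⟨?_, ?_⟩, ?_, ?_, ?_, ?_,
    ?_, ?_⟩
  · rw [← continuousOn_univ]
    refine hg.comp (continuousOn_nm.comp continuous_V.continuousOn fun y _ => V_ne y)
      fun y _ => hVs y
  · intro y hy
    show g (nm (V y)) = _
    rw [V_of_le hy, nm_of hm1]
  · exact ⟨_, by rw [mem_sphere_zero_iff_norm]; exact hm1, rfl⟩
  · exact fun y => ⟨_, hVs y, rfl⟩
  · refine hg.comp (continuousOn_nm.comp continuous_u.continuousOn ?_) hus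
    rintro ⟨t, x⟩ ⟨⟨ht0, ht1⟩, hx⟩
    exact u_ne ht0 ht1 (mem_sphere_zero_iff_norm.1 hx)
  · intro x hx
    have hx' := mem_sphere_zero_iff_norm.1 hx
    show g (nm (u (0, x))) = g x
    have : u ((0 : ℝ), x) = x := by simp [u]
    rw [this, nm_of hx']
  · intro x hx
    have hx' := mem_sphere_zero_iff_norm.1 hx
    show g (nm (u (1, x))) = fac _ _ x
    have h1 : u ((1 : ℝ), x) = w x := by simp [u]
    rw [h1]
    unfold fac
    by_cases hc : x 0 = 1
    · rw [if_pos hc, w_of_eq hx' hc]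
      rfl
    · rw [if_neg hc, w_of_ne hx' hc, nm_of hm1]
  · intro t ht x hx
    exact ⟨_, hus (t, x) ⟨ht, hx⟩, rfl⟩

end

end Pool.Agent.Work.MP_e9e200_al.O3

end

section

/-!
# Project O3, item SUSP: the degree of the suspension
-/

set_option autoImplicit false

namespace Pool.Agent.Work.MP_e9e200_al.O3

open Set Metric Topology OnePoint

namespace XSUSP

/-- the suspension of a map with compact support -/
noncomputable def SS {k n : ℕ} (f : E n → W k n) (x : E (n + 1)) : W k (n + 1) :=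
  comb (f (fun i => x i.succ)) (2 * x 0 - 1)

theorem comb_infty {k n : ℕ} (τ : ℝ) : comb (∞ : W k n) τ = ∞ := rfl

theorem comb_ge {k n : ℕ} (w : W k n) (τ : ℝ) (h : 1 ≤ |τ|) : comb w τ = ∞ := by
  induction w using OnePoint.rec with
  | infty => rfl
  | coe p =>
    change (if |τ| < 1 then _ else _) = _
    rw [if_neg (not_lt.mpr h)]

theorem comb_coe {k n : ℕ} (b : Fin k) (y : E n) (τ : ℝ) (h : |τ| < 1) :
    comb (((b, y) : Fin k × E n) : W k n) τ =
      (((b, Fin.cons (τ / (1 - |τ|)) y) : Fin k × E (n + 1)) : W k (n + 1)) := by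
  change (if |τ| < 1 then _ else _) = _
  rw [if_pos h]

theorem abs_ge {s : ℝ} (h : 1 ≤ |s|) : 1 ≤ |2 * s - 1| := by
  rcases le_abs.mp h with h | h
  · exact le_trans (by linarith) (le_abs_self _)
  · exact le_trans (by linarith) (neg_le_abs _)

/-- outside a compact set either the first coordinate or the tail is large -/
theorem big {n : ℕ} (x : E (n + 1)) (r : ℝ) (h : max r 1 ≤ ‖x‖) :
    1 ≤ |2 * x 0 - 1| ∨ r ≤ ‖(fun i : Fin n => x i.succ : E n)‖ := by
  by_contra hc
  push Not at hc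
  obtain ⟨h0, h1⟩ := hc
  have h2 : |x 0| < 1 := by
    by_contra h3
    exact absurd (abs_ge (not_lt.mp h3)) (not_le.mpr h0)
  have h4 : ‖x‖ < max r 1 := by
    refine (pi_norm_lt_iff (lt_of_lt_of_le one_pos (le_max_right _ _))).mpr fun i => ?_
    refine Fin.cases ?_ (fun j => ?_) i
    · exact lt_of_lt_of_le h2 (le_max_right _ _)
    · exact lt_of_le_of_lt (norm_le_pi_norm (fun i : Fin n => x i.succ : E n) j)
        (lt_of_lt_of_le h1 (le_max_left _ _))
  exact absurd h (not_le.mpr h4)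

theorem cs_SS (hCOMB : StCOMB) {k n : ℕ} (f : E n → W k n) (hf : CS ∞ f) : CS ∞ (SS f) := by
  obtain ⟨hc, r, hr⟩ := hf
  refine ⟨?_, max r 1, fun x hx => ?_⟩
  · refine hCOMB (E (n + 1)) k n (fun x => f (fun i => x i.succ)) (fun x => 2 * x 0 - 1)
      (by fun_prop) (Continuous.continuousOn ?_)
    exact hc.comp (by fun_prop)
  · rcases big x r hx with h | h
    · exact comb_ge _ _ h
    · unfold SS
      rw [hr _ h, comb_infty]

theorem ho_SS (hCOMB : StCOMB) {k n : ℕ} (f g : E n → W k n) (h : Ho ∞ f g) :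
    Ho ∞ (SS f) (SS g) := by
  obtain ⟨H, hH, ⟨r, hr⟩, h0, h1⟩ := h
  refine ⟨fun p => comb (H (p.1, fun i => p.2 i.succ)) (2 * p.2 0 - 1), ?_, ⟨max r 1, ?_⟩, ?_, ?_⟩
  · refine hCOMB (ℝ × E (n + 1)) k n (fun p => H (p.1, fun i => p.2 i.succ))
      (fun p => 2 * p.2 0 - 1) (by fun_prop) (Continuous.continuousOn ?_)
    exact hH.comp (by fun_prop)
  · intro t x hx
    rcases big x r hx with h | h
    · exact comb_ge _ _ h
    · simp only [hr t _ h, comb_infty]
  · intro x
    simp only [h0]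
    rfl
  · intro x
    simp only [h1]
    rfl

theorem io_lt {k n : ℕ} (b : Fin k) (x : E n) (h : ‖x‖ < 1) :
    (io b x : W k n) = ((b, psi x) : Fin k × E n) := by
  unfold io
  rw [if_pos h]

theorem io_ge {k n : ℕ} (b : Fin k) (x : E n) (h : ¬ ‖x‖ < 1) :
    (io b x : W k n) = ∞ := by
  unfold io
  rw [if_neg h]

/-- the values of the suspension of the inclusion of a sphere -/
theorem SS_io {k n : ℕ} (b : Fin k) (x : E (n + 1)) (b' : Fin k) (y : E (n + 1))
    (h : SS (io b : E n → W k n) x = ((b', y) : Fin k × E (n + 1))) :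
    b' = b ∧ |2 * x 0 - 1| < 1 ∧ ‖(fun i : Fin n => x i.succ : E n)‖ < 1 ∧
      y = Fin.cons ((2 * x 0 - 1) / (1 - |2 * x 0 - 1|)) (psi (fun i : Fin n => x i.succ)) := by
  have h1 : |2 * x 0 - 1| < 1 := by
    by_contra hc
    have : SS (io b : E n → W k n) x = ∞ := comb_ge _ _ (not_lt.mp hc)
    rw [this] at h
    exact absurd h (OnePoint.infty_ne_coe _)
  have h2 : ‖(fun i : Fin n => x i.succ : E n)‖ < 1 := by
    by_contra hc
    have : SS (io b : E n → W k n) x = ∞ := by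
      unfold SS
      rw [io_ge b _ hc, comb_infty]
    rw [this] at h
    exact absurd h (OnePoint.infty_ne_coe _)
  unfold SS at h
  rw [io_lt b _ h2, comb_coe _ _ _ h1] at h
  have h3 := OnePoint.coe_injective h
  rw [Prod.mk.injEq] at h3
  exact ⟨h3.1.symm, h1, h2, h3.2.symm⟩

theorem deg_SS_io (hDNRM : StDNRM) (hDPR : StDPR) (hCOMB : StCOMB) {k n : ℕ} (a b : Fin k) :
    deg a (SS (io b : E n → W k n)) = if a = b then 1 else 0 := by
  have hcs : CS ∞ (SS (io b : E n → W k n)) := cs_SS hCOMB _ ((hDPR k n b).2.2.2 b).1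
  by_cases hab : a = b
  · rw [if_pos hab]
    subst hab
    refine hDNRM k (n + 1) a (SS (io a : E n → W k n)) (Fin.cons (1 / 2) 0) hcs ?_ ?_
    · intro x b' y h
      obtain ⟨h1, h2, h3, h4⟩ := SS_io a x b' y h
      refine ⟨h1, fun i => ?_⟩
      subst h4
      refine Fin.cases ?_ (fun j => ?_) i
      · rw [Fin.cons_zero, Fin.cons_zero]
        have h5 : 0 < 1 - |2 * x 0 - 1| := by linarith
        rw [le_div_iff₀ h5]
        constructor
        · intro h6
          linarith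
        · intro h6
          linarith
      · rw [Fin.cons_succ, Fin.cons_succ]
        unfold psi
        have h5 : 0 < (1 - ‖(fun i : Fin n => x i.succ : E n)‖)⁻¹ := inv_pos.mpr (by linarith)
        change 0 ≤ (1 - ‖(fun i : Fin n => x i.succ : E n)‖)⁻¹ * x j.succ ↔ (0 : ℝ) ≤ x j.succ
        exact mul_nonneg_iff_of_pos_left h5
    · have h1 : ‖(fun i : Fin n => (Fin.cons (1 / 2) (0 : E n) : E (n + 1)) i.succ : E n)‖ < 1 := by
        have : (fun i : Fin n => (Fin.cons (1 / 2) (0 : E n) : E (n + 1)) i.succ : E n) = 0 := by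
          funext i
          simp
        rw [this, norm_zero]
        exact one_pos
      unfold SS
      rw [io_lt a _ h1, comb_coe _ _ _ (by rw [Fin.cons_zero]; norm_num)]
      exact OnePoint.coe_ne_infty _
  · rw [if_neg hab]
    refine (hDPR k (n + 1) a).2.2.1 _ fun x b' y h => ?_
    rw [(SS_io b x b' y h).1]
    exact fun h => hab h.symm

end XSUSP

open XSUSP in
theorem I_SUSP (hU2G : StU2G) (hFACC : StFACC) (hDADD : StDADD) (hDEG : StDEG) (hDNRM : StDNRM)
    (hDPR : StDPR) (hDIO : StDIO) (hCOMB : StCOMB) (hHO : StHO) (hGLUE : StGLUE) : StSUSP := by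
  intro k n a f hf
  have h1 : Ho ∞ (Sus (fac ∞ f)) (SS f) := (hFACC k (n + 1) f hf).2
  rw [(hDEG k (n + 2) a).2 _ _ h1]
  have hcs : CS ∞ f := ⟨hf.1, 1, hf.2⟩
  have h2 := hU2G k n ℤ (fun f => deg a (SS f))
    (fun f g hfg => (hDEG k (n + 2) a).2 _ _ (ho_SS hCOMB f g hfg)) ?_ f hcs
  · refine h2.trans ?_
    simp only [deg_SS_io hDNRM hDPR hCOMB]
    simp
  · intro f f₁ f₂ hf h0 hl hr
    have hc1 : CS ∞ f₁ := by
      obtain ⟨hc, r, hr'⟩ := hf
      have he : f₁ = fun x => if x 0 ≤ 0 then f x else ∞ := by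
        funext x
        by_cases hx : x 0 ≤ 0
        · rw [if_pos hx]
          exact (hl x hx).1
        · rw [if_neg hx]
          exact (hr x (not_le.mp hx).le).2
      refine ⟨?_, r, fun x hx => ?_⟩
      · rw [he]
        exact Continuous.if_le hc continuous_const (continuous_apply 0) continuous_const
          fun x hx => h0 x hx
      · rw [he]
        simp only [hr' x hx, ite_self]
    have hc2 : CS ∞ f₂ := by
      obtain ⟨hc, r, hr'⟩ := hf
      have he : f₂ = fun x => if 0 ≤ x 0 then f x else ∞ := by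
        funext x
        by_cases hx : 0 ≤ x 0
        · rw [if_pos hx]
          exact (hr x hx).1
        · rw [if_neg hx]
          exact (hl x (not_le.mp hx).le).2
      refine ⟨?_, r, fun x hx => ?_⟩
      · rw [he]
        exact Continuous.if_le hc continuous_const continuous_const (continuous_apply 0)
          fun x hx => h0 x hx.symm
      · rw [he]
        simp only [hr' x hx, ite_self]
    have hS1 : ∀ x : E (n + 2), x (Fin.succ 0) ≤ 0 → SS f₁ x = SS f x ∧ SS f₂ x = ∞ := by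
      intro x hx
      have h3 := hl (fun i => x i.succ) hx
      unfold SS
      rw [h3.1, h3.2]
      exact ⟨rfl, comb_infty _⟩
    have hS2 : ∀ x : E (n + 2), 0 ≤ x (Fin.succ 0) → SS f₂ x = SS f x ∧ SS f₁ x = ∞ := by
      intro x hx
      have h3 := hr (fun i => x i.succ) hx
      unfold SS
      rw [h3.1, h3.2]
      exact ⟨rfl, comb_infty _⟩
    refine (hDADD k (n + 2) a (SS f₁) (SS f₂) (SS f) (cs_SS hCOMB _ hc1) (cs_SS hCOMB _ hc2)
      (fun x => ?_) (fun x => ?_) (fun x => ?_) (fun x h3 h4 => ?_)).2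
    · rcases le_total (x (Fin.succ 0)) 0 with h | h
      · exact Or.inr (hS1 x h).2
      · exact Or.inl (hS2 x h).2
    · rcases le_total (x (Fin.succ 0)) 0 with h | h
      · exact Or.inl (hS1 x h).1.symm
      · exact Or.inr (hS2 x h).2
    · rcases le_total (x (Fin.succ 0)) 0 with h | h
      · exact Or.inr (hS1 x h).2
      · exact Or.inl (hS2 x h).1.symm
    · rcases le_total (x (Fin.succ 0)) 0 with h | h
      · rw [← (hS1 x h).1, h3]
      · rw [← (hS2 x h).1, h4]

end Pool.Agent.Work.MP_e9e200_al.O3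

end

section

/-!
# Project O3: the degree of a composition (U2)
-/

set_option autoImplicit false

namespace Pool.Agent.Work.MP_e9e200_al.O3

open Set Metric Topology OnePoint

namespace XU2

/-- composition preserves compact supports -/
theorem cs_comp {n : ℕ} {Z Z' : Type} [TopologicalSpace Z] [TopologicalSpace Z'] {z : Z} {z' : Z'}
    {Φ : Z → Z'} (hΦ : Continuous Φ) (h0 : Φ z = z') {f : E n → Z} (hf : CS z f) :
    CS z' (fun x => Φ (f x)) := by
  obtain ⟨hc, r, hr⟩ := hf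
  exact ⟨hΦ.comp hc, r, fun x hx => by
    show Φ (f x) = z'
    rw [hr x hx, h0]⟩

/-- composition preserves homotopies -/
theorem ho_comp {n : ℕ} {Z Z' : Type} [TopologicalSpace Z] [TopologicalSpace Z'] {z : Z} {z' : Z'}
    {Φ : Z → Z'} (hΦ : Continuous Φ) (h0 : Φ z = z') {f g : E n → Z} (hfg : Ho z f g) :
    Ho z' (fun x => Φ (f x)) (fun x => Φ (g x)) := by
  obtain ⟨H, hc, ⟨r, hr⟩, hH0, hH1⟩ := hfg
  exact ⟨fun p => Φ (H p), hΦ.comp hc, ⟨r, fun t x hx => by
    show Φ (H (t, x)) = z'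
    rw [hr t x hx, h0]⟩,
    fun x => by
      show Φ (H (0, x)) = Φ (f x)
      rw [hH0], fun x => by
      show Φ (H (1, x)) = Φ (g x)
      rw [hH1]⟩

/-- the lower half of a map -/
theorem cs_low {n : ℕ} {Z : Type} [TopologicalSpace Z] {z : Z} {f f₁ : E (n + 1) → Z}
    (hf : CS z f) (h0 : ∀ x, x 0 = 0 → f x = z) (h1 : ∀ x, x 0 ≤ 0 → f₁ x = f x)
    (h2 : ∀ x, 0 ≤ x 0 → f₁ x = z) : CS z f₁ := by
  obtain ⟨hc, r, hr⟩ := hf
  constructor
  · have : f₁ = fun x : E (n + 1) => if x 0 ≤ (0 : ℝ) then f x else z := by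
      funext x
      by_cases hx : x 0 ≤ 0
      · rw [if_pos hx, h1 x hx]
      · rw [if_neg hx, h2 x (le_of_lt (not_le.1 hx))]
    rw [this]
    exact Continuous.if_le hc continuous_const (continuous_apply 0) continuous_const h0
  · refine ⟨r, fun x hx => ?_⟩
    rcases le_total (x 0) 0 with h | h
    · rw [h1 x h, hr x hx]
    · exact h2 x h

/-- the upper half of a map -/
theorem cs_upp {n : ℕ} {Z : Type} [TopologicalSpace Z] {z : Z} {f f₁ : E (n + 1) → Z}
    (hf : CS z f) (h0 : ∀ x, x 0 = 0 → f x = z) (h1 : ∀ x, 0 ≤ x 0 → f₁ x = f x)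
    (h2 : ∀ x, x 0 ≤ 0 → f₁ x = z) : CS z f₁ := by
  obtain ⟨hc, r, hr⟩ := hf
  constructor
  · have : f₁ = fun x : E (n + 1) => if (0 : ℝ) ≤ x 0 then f x else z := by
      funext x
      by_cases hx : 0 ≤ x 0
      · rw [if_pos hx, h1 x hx]
      · rw [if_neg hx, h2 x (le_of_lt (not_le.1 hx))]
    rw [this]
    exact Continuous.if_le hc continuous_const continuous_const (continuous_apply 0)
      (fun x hx => h0 x hx.symm)
  · refine ⟨r, fun x hx => ?_⟩
    rcases le_total (x 0) 0 with h | h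
    · exact h2 x h
    · rw [h1 x h, hr x hx]

end XU2

/-- U2: the degree of a composition -/
theorem I_U2 (hU2G : StU2G) (hDEG : StDEG) (hDADD : StDADD) (hHO : StHO) (hGLUE : StGLUE) :
    StU2 := by
  intro k l n b Φ hΦ h0 f hf
  have key := hU2G k n ℤ (fun f => deg b (fun x => Φ (f x)))
    (fun f g hfg => (hDEG l (n + 1) b).2 _ _ (XU2.ho_comp hΦ h0 hfg)) ?_ f hf
  · simpa only [smul_eq_mul] using key
  · intro f f₁ f₂ hf hz hlo hup
    have c1 : CS ∞ f₁ := XU2.cs_low hf hz (fun x hx => (hlo x hx).1) (fun x hx => (hup x hx).2)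
    have c2 : CS ∞ f₂ := XU2.cs_upp hf hz (fun x hx => (hup x hx).1) (fun x hx => (hlo x hx).2)
    refine (hDADD l (n + 1) b (fun x => Φ (f₁ x)) (fun x => Φ (f₂ x)) (fun x => Φ (f x))
      (XU2.cs_comp hΦ h0 c1) (XU2.cs_comp hΦ h0 c2) ?_ ?_ ?_ ?_).2
    · intro x
      rcases le_total (x 0) 0 with h | h
      · right
        show Φ (f₂ x) = ∞
        rw [(hlo x h).2, h0]
      · left
        show Φ (f₁ x) = ∞
        rw [(hup x h).2, h0]
    · intro x
      rcases le_total (x 0) 0 with h | h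
      · left
        show Φ (f x) = Φ (f₁ x)
        rw [(hlo x h).1]
      · right
        show Φ (f₁ x) = ∞
        rw [(hup x h).2, h0]
    · intro x
      rcases le_total (x 0) 0 with h | h
      · right
        show Φ (f₂ x) = ∞
        rw [(hlo x h).2, h0]
      · left
        show Φ (f x) = Φ (f₂ x)
        rw [(hup x h).1]
    · intro x h1 h2
      rcases le_total (x 0) 0 with h | h
      · show Φ (f x) = ∞
        rw [← (hlo x h).1]
        exact h1
      · show Φ (f x) = ∞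
        rw [← (hup x h).1]
        exact h2

end Pool.Agent.Work.MP_e9e200_al.O3

end

section

/-! # O3A, item CWS: the structure of a CW complex -/

set_option autoImplicit false

namespace Pool.Agent.Work.MP_e9e200_al.O3A

open Set Metric Topology

namespace CWS

noncomputable section

variable {G : Type} [Group G] {B : ℕ → Type}

open scoped Classical in
/-- the coordinate of a point in the open cell `c` -/
def cinv (n : ℕ) (c : G × B n) (p : Pt G B) : E n :=
  if h : ∃ y : E n, ∃ hb : y ∈ ball (0 : E n) 1, p = mk n c y hb then h.choose else 0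

lemma cinv_mk (hPHB : StPHB) (ψ : Atl G B) (n : ℕ) (c : G × B n) (y : E n)
    (h : y ∈ ball (0 : E n) 1) : cinv n c (mk n c y h) = y := by
  have hex : ∃ y' : E n, ∃ hb : y' ∈ ball (0 : E n) 1, mk n c y h = mk n c y' hb := ⟨y, h, rfl⟩
  unfold cinv
  rw [dif_pos hex]
  obtain ⟨hb, he⟩ := hex.choose_spec
  exact (((hPHB G B ψ).2.2.2.2.1 n c c y _ h hb he).2).symm

omit [Group G] in
lemma mk_cinv (n : ℕ) (c : G × B n) (p : Pt G B) (hp : p ∈ oc n c) :
    ∃ hb : cinv n c p ∈ ball (0 : E n) 1, p = mk n c (cinv n c p) hb := by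
  have hex : ∃ y : E n, ∃ hb : y ∈ ball (0 : E n) 1, p = mk n c y hb := hp
  unfold cinv
  rw [dif_pos hex]
  exact hex.choose_spec

/-- the characteristic map as a partial equivalence -/
def pe (hPHB : StPHB) (ψ : Atl G B) (N : ℕ∞) (n : ℕ) (c : G × B n) :
    PartialEquiv (E n) (Sp ψ N) where
  toFun y := pt ψ N (Ph ψ n c y)
  invFun p := cinv n c p
  source := ball 0 1
  target := st ψ N (oc n c)
  map_source' := by
    intro y hy
    show Ph ψ n c y ∈ oc n c
    rw [(hPHB G B ψ).1 n c y hy]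
    exact ⟨y, hy, rfl⟩
  map_target' := by
    intro p hp
    obtain ⟨hb, _⟩ := mk_cinv n c p hp
    exact hb
  left_inv' := by
    intro y hy
    show cinv n c (Ph ψ n c y) = y
    rw [(hPHB G B ψ).1 n c y hy]
    exact cinv_mk hPHB ψ n c y hy
  right_inv' := by
    intro p hp
    obtain ⟨hb, he⟩ := mk_cinv n c p hp
    show Ph ψ n c (cinv n c p) = p
    rw [(hPHB G B ψ).1 n c _ hb]
    exact he.symm

lemma Ph_dim (hPHB : StPHB) (ψ : Atl G B) (N : ℕ∞) (hG : Gd ψ N) (n : ℕ) (hn : (n : ℕ∞) < N)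
    (c : G × B n) (y : E n) (hy : y ∈ sphere (0 : E n) 1) : (Ph ψ n c y).dim < n := by
  rw [(hPHB G B ψ).2.1 n c y hy, ((hPHB G B ψ).2.2.2.1 c.1 (ψ n c.2 y)).1]
  exact (hG n hn c.2).1 y hy

/-- the structure of a CW complex -/
@[instance_reducible]
def cw (hCRT : StCRT) (hPHB : StPHB) (hFIN : StFIN) (hSYM : StSYM) (ψ : Atl G B) (N : ℕ∞)
    (hG : Gd ψ N) : CWComplex (st ψ N (Lt N)) where
  cell n := {c : G × B n // (n : ℕ∞) < N}
  map n j := pe hPHB ψ N n j.1
  source_eq n j := rfl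
  continuousOn n j := (hCRT G B ψ N).2.2 n j.2 j.1
  continuousOn_symm n j := hSYM G B ψ N hG n j.2 j.1 (cinv n j.1) (cinv_mk hPHB ψ n j.1)
  pairwiseDisjoint' := by
    rintro ⟨n, j⟩ _ ⟨n', j'⟩ _ hne
    show Disjoint _ _
    rw [Set.disjoint_left]
    rintro p ⟨y, hy, rfl⟩ ⟨y', hy', h⟩
    apply hne
    have h1 : Ph ψ n' j'.1 y' = Ph ψ n j.1 y := h
    rw [(hPHB G B ψ).1 n' j'.1 y' hy', (hPHB G B ψ).1 n j.1 y hy] at h1
    have h2 : n' = n := by
      rw [← ((hPHB G B ψ).2.2.2.2.2.2 n' j'.1 y' hy').1, h1,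
        ((hPHB G B ψ).2.2.2.2.2.2 n j.1 y hy).1]
    subst h2
    have h3 := ((hPHB G B ψ).2.2.2.2.1 n' j'.1 j.1 y' y hy' hy h1).1
    have h4 : j' = j := Subtype.ext h3
    rw [h4]
  mapsTo' := by
    intro n j
    set K : Set (Pt G B) := Ph ψ n j.1 '' sphere (0 : E n) 1 with hK
    have hKc : IsCompact (st ψ N K) :=
      (isCompact_sphere (0 : E n) 1).image_of_continuousOn
        (((hCRT G B ψ N).2.2 n j.2 j.1).mono sphere_subset_closedBall)
    have hKL : K ⊆ Lt N := by
      rintro p ⟨y, hy, rfl⟩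
      show ((Ph ψ n j.1 y).dim : ℕ∞) < N
      refine lt_trans ?_ j.2
      exact_mod_cast Ph_dim hPHB ψ N hG n j.2 j.1 y hy
    have hF := hFIN G B ψ N hG K hKc hKL
    have hfin : ∀ m : ℕ, {j' : {c : G × B m // (m : ℕ∞) < N} | (K ∩ oc m j'.1).Nonempty}.Finite := by
      intro m
      refine Set.Finite.preimage
        (f := fun j' : {c : G × B m // (m : ℕ∞) < N} => (⟨m, j'.1⟩ : Σ n : ℕ, G × B n)) ?_ hF
      intro a _ b _ hab
      apply Subtype.ext
      have h5 : (⟨m, a.1⟩ : Σ n : ℕ, G × B n) = ⟨m, b.1⟩ := hab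
      exact eq_of_heq (Sigma.mk.inj h5).2
    refine ⟨fun m => (hfin m).toFinset, ?_⟩
    intro y hy
    have hdim := Ph_dim hPHB ψ N hG n j.2 j.1 y hy
    obtain ⟨m, c, y', h', hp⟩ := (hPHB G B ψ).2.2.2.2.2.1 (Ph ψ n j.1 y)
    rw [hp, ((hPHB G B ψ).2.2.2.2.2.2 m c y' h').1] at hdim
    have hmN : (m : ℕ∞) < N := lt_trans (by exact_mod_cast hdim) j.2
    rw [mem_iUnion₂]
    refine ⟨m, hdim, ?_⟩
    rw [mem_iUnion₂]
    refine ⟨⟨c, hmN⟩, ?_, ?_⟩
    · rw [Set.Finite.mem_toFinset]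
      exact ⟨Ph ψ n j.1 y, ⟨y, hy, rfl⟩, y', h', hp⟩
    · refine ⟨y', ball_subset_closedBall h', ?_⟩
      show Ph ψ m c y' = Ph ψ n j.1 y
      rw [hp, (hPHB G B ψ).1 m c y' h']
  closed' := by
    intro A hAC h
    refine ((hCRT G B ψ N).1 A).2 ?_
    intro n hn c
    have h1 := ((hCRT G B ψ N).2.2 n hn c).preimage_isClosed_of_isClosed
      (isClosed_closedBall (x := (0 : E n)) (ε := 1)) (h n ⟨c, hn⟩)
    have heq : closedBall (0 : E n) 1 ∩ {y | Ph ψ n c y ∈ A} =
        closedBall (0 : E n) 1 ∩ (fun y => pt ψ N (Ph ψ n c y)) ⁻¹'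
          (A ∩ (pe hPHB ψ N n c) '' closedBall (0 : E n) 1) := by
      ext y
      constructor
      · rintro ⟨hy, hyA⟩
        exact ⟨hy, hyA, y, hy, rfl⟩
      · rintro ⟨hy, hyA, _⟩
        exact ⟨hy, hyA⟩
    exact (congrArg IsClosed heq).mpr h1
  union' := by
    ext p
    constructor
    · intro hp
      rw [mem_iUnion₂] at hp
      obtain ⟨n, j, y, hy, rfl⟩ := hp
      show ((Ph ψ n j.1 y).dim : ℕ∞) < N
      by_cases hb : y ∈ ball (0 : E n) 1
      · rw [(hPHB G B ψ).1 n j.1 y hb, ((hPHB G B ψ).2.2.2.2.2.2 n j.1 y hb).1]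
        exact j.2
      · have hs : y ∈ sphere (0 : E n) 1 := by
          rw [mem_sphere]
          rw [mem_closedBall] at hy
          rw [mem_ball] at hb
          exact le_antisymm hy (not_lt.1 hb)
        refine lt_trans ?_ j.2
        exact_mod_cast Ph_dim hPHB ψ N hG n j.2 j.1 y hs
    · intro hp
      have hp' : ((Pt.dim (G := G) (B := B) p : ℕ) : ℕ∞) < N := hp
      obtain ⟨m, c, y', h', hp2⟩ := (hPHB G B ψ).2.2.2.2.2.1 p
      have hp3 : ((Pt.dim (mk m c y' h') : ℕ) : ℕ∞) < N := by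
        rw [← hp2]
        exact hp'
      rw [((hPHB G B ψ).2.2.2.2.2.2 m c y' h').1] at hp3
      rw [mem_iUnion₂]
      refine ⟨m, ⟨c, hp3⟩, y', ball_subset_closedBall h', ?_⟩
      show Ph ψ m c y' = p
      rw [(hPHB G B ψ).1 m c y' h']
      exact hp2.symm

end

end CWS

theorem I_CWS (hCRT : StCRT) (hPHB : StPHB) (_hSKM : StSKM) (_hT2 : StT2) (hFIN : StFIN)
    (hSYM : StSYM) (_hACT : StACT) : StCWS := by
  intro G _ B ψ N hG C hC
  subst hC
  refine ⟨CWS.cw hCRT hPHB hFIN hSYM ψ N hG, fun n => Equiv.refl {c : G × B n // (n : ℕ∞) < N}, ?_⟩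
  intro n j y _
  rfl

end Pool.Agent.Work.MP_e9e200_al.O3A

end

section

/-!
# Project O3A, item HLF: the largest subcomplex in the set where the height is nonnegative
-/

set_option autoImplicit false

namespace Pool.Agent.Work.MP_e9e200_al.O3A

open Set Metric Topology

open RelCWComplex in
theorem I_HLF (hPHB : StPHB) (_hCRT : StCRT) (hT2 : StT2) (_hACT : StACT) : StHLF := by
  intro G _ B ψ χ hG hψ inst e he h hctr hle
  have t2 : T2Space (Sp ψ ⊤) := hT2 G B ψ ⊤ hG
  obtain ⟨p1, p2, -, p4, -, p6, p7⟩ := hPHB G B ψ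
  have key : ∀ (n : ℕ) (c : G × B n) (y : E n), 0 ≤ χ (Additive.ofMul c.1) →
      y ∈ closedBall (0 : E n) 1 → Ph ψ n c y ∈ Pp χ := by
    intro n c y hc hy
    by_cases hb : y ∈ ball (0 : E n) 1
    · rw [p1 n c y hb]
      change 0 ≤ χ (Additive.ofMul (mk n c y hb).gr)
      rw [(p7 n c y hb).2]
      exact hc
    · have hs : y ∈ sphere (0 : E n) 1 := by
        rw [mem_sphere]
        rw [mem_closedBall] at hy
        rw [mem_ball, not_lt] at hb
        exact le_antisymm hy hb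
      rw [p2 n c y hs]
      change 0 ≤ χ (Additive.ofMul (c.1 • ψ n c.2 y).gr)
      rw [(p4 c.1 (ψ n c.2 y)).2.1, ofMul_mul, map_add]
      have : 0 ≤ χ (Additive.ofMul (ψ n c.2 y).gr) := hψ n c.2 y hs
      exact add_nonneg hc this
  apply Set.Subset.antisymm
  · intro x hx
    unfold O3.half at hx
    simp only [mem_iUnion] at hx
    obtain ⟨Y, hY, hxY⟩ := hx
    have hun := CWComplex.Subcomplex.union (E := Y)
    have hx' := hxY
    rw [← hun] at hx'
    simp only [mem_iUnion] at hx'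
    obtain ⟨n, j, hj⟩ := hx'
    obtain ⟨y, hy, hyx⟩ := hj
    have hc0 : map n (j : cell (univ : Set (Sp ψ ⊤)) n) 0 ∈ (Y : Set (Sp ψ ⊤)) := by
      rw [← hun]
      simp only [mem_iUnion]
      exact ⟨n, j, 0, by simp, rfl⟩
    have h0 : 0 ≤ h (Ph ψ n (e n j) 0) := by
      have h1 := hY hc0
      rw [he n j 0 (by simp)] at h1
      exact h1
    have h2 : Ph ψ n (e n j) 0 = ctr n (e n j) := p1 n (e n j) 0 (by simp)
    rw [h2, hctr] at h0
    have h3 := key n (e n j) y h0 (ball_subset_closedBall hy)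
    rw [← hyx]
    change map n (j : cell (univ : Set (Sp ψ ⊤)) n) y ∈ _
    rw [he n j y (ball_subset_closedBall hy)]
    exact h3
  · intro x hx
    unfold O3.half
    simp only [mem_iUnion]
    refine ⟨CWComplex.Subcomplex.mk' (univ : Set (Sp ψ ⊤)) (st ψ ⊤ (Pp χ))
      (fun n => {j | 0 ≤ χ (Additive.ofMul (e n j).1)}) ?_ ?_, ?_, hx⟩
    · rintro n ⟨i, hi⟩ x ⟨y, hy, rfl⟩
      change map n i y ∈ _
      rw [he n i y hy]
      exact key n (e n i) y hi hy
    · apply Set.Subset.antisymm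
      · intro x hx
        simp only [mem_iUnion] at hx
        obtain ⟨n, ⟨i, hi⟩, y, hy, rfl⟩ := hx
        change map n i y ∈ _
        rw [he n i y (ball_subset_closedBall hy)]
        exact key n (e n i) y hi (ball_subset_closedBall hy)
      · intro x hx
        obtain ⟨n, c, y, h, hx'⟩ := p6 x
        have hx1 : 0 ≤ χ (Additive.ofMul (mk n c y h).gr) := by
          rw [← hx']
          exact hx
        rw [(p7 n c y h).2] at hx1
        simp only [mem_iUnion]
        refine ⟨n, ⟨(e n).symm c, ?_⟩, y, h, ?_⟩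
        · change 0 ≤ χ (Additive.ofMul (e n ((e n).symm c)).1)
          rw [Equiv.apply_symm_apply]
          exact hx1
        · change map n ((e n).symm c) y = x
          rw [he n _ y (ball_subset_closedBall h), Equiv.apply_symm_apply]
          change Ph ψ n c y = x
          rw [p1 n c y h]
          exact hx'.symm
    · intro q hq
      change 0 ≤ h q
      have h1 : 0 ≤ χ (Additive.ofMul (q : Pt G B).gr) := hq
      exact h1.trans (hle q)

end Pool.Agent.Work.MP_e9e200_al.O3A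

end

section

/-!
# Item LIM: extension of maps of spheres in the limit
-/

set_option autoImplicit false

namespace Pool.Agent.Work.MP_e9e200_al.O3A

open Set Metric Topology

theorem I_LIM (hPHB : StPHB) (hSKM : StSKM) (hFIN : StFIN) : StLIM := by
  intro G _ B ψ hψ A j hA f hf hfA
  let f' : E (j + 1) → Pt G B := fun z => f z
  let K : Set (Pt G B) := f' '' sphere 0 1
  have hK : IsCompact (st ψ ⊤ K) := (isCompact_sphere (0 : E (j + 1)) 1).image_of_continuousOn hf
  have hfin := hFIN G B ψ ⊤ hψ K hK fun p _ => ENat.natCast_lt_top _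
  obtain ⟨b, hb⟩ := (hfin.image Sigma.fst).bddAbove
  obtain ⟨M, hM, hE⟩ := hA (b + 1)
  have hKM : K ⊆ Lt (M : ℕ∞) := by
    intro p hp
    obtain ⟨n, c, y, h, rfl⟩ := (hPHB G B ψ).2.2.2.2.2.1 p
    have h1 : n ≤ b := hb ⟨⟨n, c⟩, ⟨_, hp, y, h, rfl⟩, rfl⟩
    have h2 : (mk n c y h).dim = n := ((hPHB G B ψ).2.2.2.2.2.2 n c y h).1
    show ((mk n c y h).dim : ℕ∞) < M
    rw [h2]
    exact_mod_cast (by omega : n < M)
  obtain ⟨-, hS, -, -⟩ := hSKM G B ψ ⊤ M hψ le_top
  have hf' : ContinuousOn (fun z => pt ψ M (f' z)) (sphere 0 1) :=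
    (hS (E (j + 1)) f' (sphere 0 1) fun z hz => hKM ⟨z, hz, rfl⟩).1 hf
  obtain ⟨F, hF1, hF2, hF3⟩ := hE (fun z => pt ψ M (f' z)) hf' fun z hz =>
    ⟨hfA hz, hKM ⟨z, hz, rfl⟩⟩
  let F' : E (j + 1) → Pt G B := fun z => F z
  refine ⟨fun z => pt ψ ⊤ (F' z), ?_, fun z hz => (hF2 hz).1, fun z hz => hF3 hz⟩
  exact (hS (E (j + 1)) F' (closedBall 0 1) fun z hz => (hF2 hz).2).2 hF1

end Pool.Agent.Work.MP_e9e200_al.O3A

end

section

set_option autoImplicit false

namespace Pool.Agent.Work.MP_e9e200_al.O3A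

open Set Metric Topology

theorem I_LIT (hPHB : StPHB) (hCRT : StCRT) (hACT : StACT) (hT2 : StT2) (hCWS : StCWS)
    (hHTF : StHTF) (hHLF : StHLF) (hUNI : StUNI) : StLIT := by
  intro G _ B χ hχ m hB ψ hG hψ hconn
  have hC : (univ : Set (Sp ψ ⊤)) = st ψ ⊤ (Lt ⊤) := by
    ext p
    exact ⟨fun _ => ENat.natCast_lt_top _, fun _ => mem_univ _⟩
  obtain ⟨inst, e', he'⟩ := hCWS G B ψ ⊤ hG univ hC
  let e : ∀ n : ℕ, RelCWComplex.cell (univ : Set (Sp ψ ⊤)) n ≃ G × B n := fun n =>
    (e' n).trans (Equiv.subtypeUnivEquiv (fun _ => ENat.natCast_lt_top n))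
  have he : ∀ (n : ℕ) (j : RelCWComplex.cell (univ : Set (Sp ψ ⊤)) n),
      ∀ y ∈ closedBall (0 : E n) 1,
        RelCWComplex.map n j y = pt ψ ⊤ (Ph ψ n (e n j) y) := he'
  obtain ⟨-, -, hact, hfree, -, -, -⟩ := hPHB G B ψ
  obtain ⟨h, hc, heq, hctr, hpos⟩ := hHTF G B ψ ⊤ χ hG
  have hlow := hpos (fun n b _ => hψ n b)
  have hhalf := hHLF G B ψ χ hG hψ inst e he h hctr hlow
  have hmap : ∀ (g : G) (n : ℕ) (j : RelCWComplex.cell (univ : Set (Sp ψ ⊤)) n) (c : G × B n),
      c = (g * (e n j).1, (e n j).2) → ∀ y ∈ closedBall (0 : E n) 1,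
      RelCWComplex.map n ((e n).symm c) y = g • RelCWComplex.map n j y := by
    intro g n j c hc y hy
    rw [he n _ y hy, he n j y hy, Equiv.apply_symm_apply, hc]
    exact (hact g n (e n j) y).symm
  refine ⟨hχ, Sp ψ ⊤, inferInstance, hT2 G B ψ ⊤ hG, inferInstance, inst, ?_, ?_, ?_, h, hc, heq,
    ?_⟩
  · refine ⟨fun g => hACT G B ψ ⊤ g, fun g x hx => (hfree g x).2.2 hx, fun g n j => ?_⟩
    exact ⟨(e n).symm (g * (e n j).1, (e n j).2), hmap g n j _ rfl⟩
  · intro k
    exact hUNI G B ψ χ hχ hG k (hconn k)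
  · intro n hn
    have := hB n hn
    refine ⟨(e n).symm '' (({1} : Set G) ×ˢ (univ : Set (B n))),
      ((finite_singleton (1 : G)).prod finite_univ).image _, fun j => ?_⟩
    refine ⟨(e n j).1, (e n).symm (1, (e n j).2), mem_image_of_mem _ ⟨rfl, mem_univ _⟩, ?_⟩
    intro y hy
    have h1 := hmap (e n j).1 n ((e n).symm (1, (e n j).2)) (e n j)
      (by rw [Equiv.apply_symm_apply, mul_one]) y hy
    rw [Equiv.symm_apply_apply] at h1
    exact h1
  · show O3.Conn (O3.half (fun p : Sp ψ ⊤ => h p)) m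
    rw [hhalf]
    exact hconn m

end Pool.Agent.Work.MP_e9e200_al.O3A

end

section

/-!
# Project O3A, item PHB: basic facts on the characteristic maps
-/

set_option autoImplicit false

namespace Pool.Agent.Work.MP_e9e200_al.O3A

open Set Metric Topology

namespace PHB

variable {G : Type} [Group G] {B : ℕ → Type}

theorem Ph_ball (ψ : Atl G B) (n : ℕ) (c : G × B n) (y : E n) (h : y ∈ ball (0 : E n) 1) :
    Ph ψ n c y = mk n c y h := by
  unfold Ph
  rw [dif_pos h]

theorem Ph_out (ψ : Atl G B) (n : ℕ) (c : G × B n) (y : E n) (h : y ∉ ball (0 : E n) 1) :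
    Ph ψ n c y = c.1 • ψ n c.2 y := by
  unfold Ph
  rw [dif_neg h]

theorem smul_mk (g : G) (n : ℕ) (c : G × B n) (y : E n) (h : y ∈ ball (0 : E n) 1) :
    g • (mk n c y h : Pt G B) = mk n (g * c.1, c.2) y h := rfl

omit [Group G] in
theorem mk_inj (n : ℕ) (c c' : G × B n) (y y' : E n) (h : y ∈ ball (0 : E n) 1)
    (h' : y' ∈ ball (0 : E n) 1) (H : (mk n c y h : Pt G B) = mk n c' y' h') :
    c = c' ∧ y = y' := by
  have H1 : (⟨n, (c, ⟨y, h⟩)⟩ : Σ n : ℕ, (G × B n) × ball (0 : E n) 1) =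
    ⟨n, (c', ⟨y', h'⟩)⟩ := H
  rw [Sigma.mk.injEq] at H1
  have H2 := eq_of_heq H1.2
  rw [Prod.mk.injEq] at H2
  exact ⟨H2.1, congrArg Subtype.val H2.2⟩

end PHB

open PHB in
theorem I_PHB : StPHB := by
  intro G _ B ψ
  refine ⟨Ph_ball ψ, ?_, ?_, ?_, mk_inj, ?_, ?_⟩
  · intro n c y hy
    refine Ph_out ψ n c y ?_
    rw [mem_sphere_zero_iff_norm] at hy
    rw [mem_ball_zero_iff, hy]
    exact lt_irrefl _
  · intro g n c y
    by_cases h : y ∈ ball (0 : E n) 1
    · rw [Ph_ball ψ n c y h, Ph_ball ψ n _ y h, smul_mk]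
    · rw [Ph_out ψ n c y h, Ph_out ψ n _ y h, mul_smul]
  · intro g p
    refine ⟨rfl, rfl, fun h => ?_⟩
    have h2 : (g • p).gr = p.gr := by rw [h]
    have h3 : g * p.gr = p.gr := h2
    exact mul_eq_right.mp h3
  · rintro ⟨n, c, y, h⟩
    exact ⟨n, c, y, h, rfl⟩
  · intro n c y h
    exact ⟨rfl, rfl⟩

end Pool.Agent.Work.MP_e9e200_al.O3A

end

section

/-!
# Project O3A, item SKM: continuous maps to the skeleta
-/

set_option autoImplicit false

namespace Pool.Agent.Work.MP_e9e200_al.O3A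

open Set Metric Topology

namespace SKM

variable {G : Type} [Group G] {B : ℕ → Type} {ψ : Atl G B} {N M : ℕ∞}

/-- the characteristic maps of small cells take values in the skeleton -/
lemma ph_mem (hPHB : StPHB) (hG : Gd ψ N) (hMN : M ≤ N) {n : ℕ} (hn : (n : ℕ∞) < M)
    (c : G × B n) {y : E n} (hy : y ∈ closedBall (0 : E n) 1) :
    Ph ψ n c y ∈ (Lt M : Set (Pt G B)) := by
  obtain ⟨h1, h2, -, h4, -, -, h7⟩ := hPHB G B ψ
  show ((Ph ψ n c y).dim : ℕ∞) < M
  by_cases hb : y ∈ ball (0 : E n) 1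
  · rw [h1 n c y hb, (h7 n c y hb).1]
    exact hn
  · have hs : y ∈ sphere (0 : E n) 1 := by
      rw [mem_closedBall] at hy
      rw [mem_ball, not_lt] at hb
      exact mem_sphere.mpr (le_antisymm hy hb)
    rw [h2 n c y hs, (h4 c.1 (ψ n c.2 y)).1]
    have h5 := (hG n (lt_of_lt_of_le hn hMN) c.2).1 y hs
    exact lt_trans (by exact_mod_cast h5) hn

lemma closed_M (hCRT : StCRT) (hPHB : StPHB) (hG : Gd ψ N) (hMN : M ≤ N) :
    IsClosed (st ψ M (Lt M)) := by
  rw [(hCRT G B ψ M).1]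
  intro n hn c
  have : closedBall (0 : E n) 1 ∩ {y | Ph ψ n c y ∈ (Lt M : Set (Pt G B))} =
      closedBall (0 : E n) 1 :=
    inter_eq_left.mpr fun y hy => ph_mem hPHB hG hMN hn c hy
  rw [this]
  exact isClosed_closedBall

lemma cont_iff (hCRT : StCRT) (hPHB : StPHB) (hSKC : StSKC) (hG : Gd ψ N) (hMN : M ≤ N)
    (Z : Type) [TopologicalSpace Z] (f : Z → Pt G B) (S : Set Z) (hf : MapsTo f S (Lt M)) :
    ContinuousOn (fun z => pt ψ N (f z)) S ↔ ContinuousOn (fun z => pt ψ M (f z)) S := by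
  have cM : IsClosed (st ψ M (Lt M)) := closed_M hCRT hPHB hG hMN
  have cN : IsClosed (st ψ N (Lt M)) := (hSKC G B ψ N M hG hMN (Lt M) subset_rfl).mpr cM
  have key : ∀ A : Set (Pt G B), f ⁻¹' (A ∩ Lt M) ∩ S = f ⁻¹' A ∩ S := by
    intro A
    ext z
    constructor
    · rintro ⟨⟨h1, -⟩, h2⟩
      exact ⟨h1, h2⟩
    · rintro ⟨h1, h2⟩
      exact ⟨⟨h1, hf h2⟩, h2⟩
  rw [continuousOn_iff_isClosed, continuousOn_iff_isClosed]
  constructor
  · intro h A hA
    have h1 : IsClosed (st ψ M ((A : Set (Pt G B)) ∩ Lt M)) := IsClosed.inter hA cM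
    have h2 : IsClosed (st ψ N ((A : Set (Pt G B)) ∩ Lt M)) :=
      (hSKC G B ψ N M hG hMN _ inter_subset_right).mpr h1
    obtain ⟨u, hu1, hu2⟩ := h _ h2
    refine ⟨u, hu1, ?_⟩
    rw [← hu2]
    exact (key A).symm
  · intro h A hA
    have h1 : IsClosed (st ψ N ((A : Set (Pt G B)) ∩ Lt M)) := IsClosed.inter hA cN
    have h2 : IsClosed (st ψ M ((A : Set (Pt G B)) ∩ Lt M)) :=
      (hSKC G B ψ N M hG hMN _ inter_subset_right).mp h1
    obtain ⟨u, hu1, hu2⟩ := h _ h2
    refine ⟨u, hu1, ?_⟩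
    rw [← hu2]
    exact (key A).symm

end SKM

open SKM in
theorem I_SKM (hCRT : StCRT) (hPHB : StPHB) (hSKC : StSKC) : StSKM := by
  intro G _ B ψ N M hG hMN
  have cM : IsClosed (st ψ M (Lt M)) := closed_M hCRT hPHB hG hMN
  have cN : IsClosed (st ψ N (Lt M)) := (hSKC G B ψ N M hG hMN (Lt M) subset_rfl).mpr cM
  have ci := fun (Z : Type) [TopologicalSpace Z] (f : Z → Pt G B) (S : Set Z)
    (hf : MapsTo f S (Lt M)) => cont_iff hCRT hPHB hSKC hG hMN Z f S hf
  refine ⟨cN, ci, ?_, ?_⟩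
  · intro K hK
    constructor
    · intro h
      have h1 : ContinuousOn (fun z : Sp ψ N => pt ψ M z) (st ψ N K) :=
        (ci (Sp ψ N) (fun z => z) (st ψ N K) hK).mp continuousOn_id
      have h2 := h.image_of_continuousOn h1
      have h3 : (fun z : Sp ψ N => pt ψ M z) '' (st ψ N K) = st ψ M K := image_id K
      rwa [h3] at h2
    · intro h
      have h1 : ContinuousOn (fun z : Sp ψ M => pt ψ N z) (st ψ M K) :=
        (ci (Sp ψ M) (fun z => z) (st ψ M K) hK).mpr continuousOn_id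
      have h2 := h.image_of_continuousOn h1
      have h3 : (fun z : Sp ψ M => pt ψ N z) '' (st ψ M K) = st ψ N K := image_id K
      rwa [h3] at h2
  · intro A j hA
    constructor
    · intro h f hf1 hf2
      have h1 : ContinuousOn (fun z => pt ψ N (f z)) (sphere 0 1) :=
        (ci _ f (sphere 0 1) fun z hz => hA (hf2 hz)).mpr hf1
      obtain ⟨F, hF1, hF2, hF3⟩ := h (fun z => pt ψ N (f z)) h1 hf2
      exact ⟨fun z => pt ψ M (F z),
        (ci _ F (closedBall 0 1) fun z hz => hA (hF2 hz)).mp hF1, hF2, hF3⟩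
    · intro h f hf1 hf2
      have h1 : ContinuousOn (fun z => pt ψ M (f z)) (sphere 0 1) :=
        (ci _ f (sphere 0 1) fun z hz => hA (hf2 hz)).mp hf1
      obtain ⟨F, hF1, hF2, hF3⟩ := h (fun z => pt ψ M (f z)) h1 hf2
      exact ⟨fun z => pt ψ N (F z),
        (ci _ F (closedBall 0 1) fun z hz => hA (hF2 hz)).mpr hF1, hF2, hF3⟩

end Pool.Agent.Work.MP_e9e200_al.O3A

end

section

/-!
# Project O3A, item SYM: the inverse of a characteristic map is continuous on the open cell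
-/

set_option autoImplicit false

namespace Pool.Agent.Work.MP_e9e200_al.O3A

open Set Metric Topology

theorem I_SYM (hCRT : StCRT) (hPHB : StPHB) (hT2 : StT2) : StSYM := by
  intro G _ B ψ N hG n hn c f hf
  have : T2Space (Sp ψ N) := hT2 G B ψ N hG
  obtain ⟨p1, p2, _, p4, p5, _, p7⟩ := hPHB G B ψ
  have hc := (hCRT G B ψ N).2.2 n hn c
  rw [continuousOn_iff_isClosed]
  intro F hF
  refine ⟨(fun y => pt ψ N (Ph ψ n c y)) '' (closedBall 0 1 ∩ F), ?_, ?_⟩
  · exact (((isCompact_closedBall (0 : E n) 1).inter_right hF).image_of_continuousOn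
      (hc.mono inter_subset_left)).isClosed
  · ext p
    constructor
    · rintro ⟨hpF, hp⟩
      refine ⟨?_, hp⟩
      obtain ⟨y, h, hy⟩ := hp
      have h1 : f p = y := by
        rw [← hf y h]
        exact congrArg f hy
      refine ⟨y, ⟨ball_subset_closedBall h, ?_⟩, ?_⟩
      · rw [← h1]
        exact hpF
      · exact (p1 n c y h).trans hy.symm
    · rintro ⟨⟨z, ⟨hz, hzF⟩, hzp⟩, hp⟩
      refine ⟨?_, hp⟩
      obtain ⟨y, h, hy⟩ := hp
      have h1 : f p = y := by
        rw [← hf y h]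
        exact congrArg f hy
      have h2 : Ph ψ n c z = mk n c y h := (show Ph ψ n c z = p from hzp).trans hy
      rcases lt_or_eq_of_le (mem_closedBall_zero_iff.1 hz) with hlt | heq
      · have hz' : z ∈ ball (0 : E n) 1 := mem_ball_zero_iff.2 hlt
        rw [p1 n c z hz'] at h2
        have h3 := (p5 n c c z y hz' h h2).2
        show f p ∈ F
        rw [h1, ← h3]
        exact hzF
      · exfalso
        have hz' : z ∈ sphere (0 : E n) 1 := mem_sphere_zero_iff_norm.2 heq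
        have h3 : (Ph ψ n c z).dim < n := by
          rw [p2 n c z hz', (p4 c.1 _).1]
          exact (hG n hn c.2).1 z hz'
        rw [h2, (p7 n c y h).1] at h3
        exact lt_irrefl _ h3

end Pool.Agent.Work.MP_e9e200_al.O3A

end

section

/-!
# Project O3A, item T2: the space is Hausdorff
-/

set_option autoImplicit false

namespace Pool.Agent.Work.MP_e9e200_al.O3A

open Set Metric Topology

namespace T2

variable {G : Type} [Group G] {B : ℕ → Type}

theorem dim_Ph_ball (hPHB : StPHB) (ψ : Atl G B) (k : ℕ) (c : G × B k) (y : E k)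
    (hy : y ∈ ball (0 : E k) 1) : (Ph ψ k c y).dim = k := by
  rw [(hPHB G B ψ).1 k c y hy]
  exact ((hPHB G B ψ).2.2.2.2.2.2 k c y hy).1

theorem dim_Ph_sphere (hPHB : StPHB) (ψ : Atl G B) (N : ℕ∞) (hG : Gd ψ N) (k : ℕ)
    (hk : (k : ℕ∞) < N) (c : G × B k) (y : E k)
    (hy : y ∈ sphere (0 : E k) 1) : (Ph ψ k c y).dim < k := by
  rw [(hPHB G B ψ).2.1 k c y hy, ((hPHB G B ψ).2.2.2.1 _ _).1]
  exact (hG k hk c.2).1 y hy

theorem ball_or_sphere {k : ℕ} {y : E k} (hy : y ∈ closedBall (0 : E k) 1) :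
    y ∈ ball (0 : E k) 1 ∨ y ∈ sphere (0 : E k) 1 := by
  rw [mem_closedBall_zero_iff] at hy
  rcases lt_or_eq_of_le hy with h | h
  · left
    simpa using h
  · right
    simpa using h

theorem dim_Ph_le (hPHB : StPHB) (ψ : Atl G B) (N : ℕ∞) (hG : Gd ψ N) (k : ℕ)
    (hk : (k : ℕ∞) < N) (c : G × B k) (y : E k)
    (hy : y ∈ closedBall (0 : E k) 1) : (Ph ψ k c y).dim ≤ k := by
  rcases ball_or_sphere hy with h | h
  · exact (dim_Ph_ball hPHB ψ k c y h).le
  · exact (dim_Ph_sphere hPHB ψ N hG k hk c y h).le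

/-- the bump -/
noncomputable def bp {n : ℕ} (y0 y : E n) : ℝ := max 0 (1 - ‖y - y0‖ / (1 - ‖y0‖))

open scoped Classical in
/-- the bump function on the open cell -/
noncomputable def uu (n : ℕ) (c : G × B n) (y0 : E n) (p : Pt G B) : ℝ :=
  if h : ∃ y : ball (0 : E n) 1, p = mk n c y y.2 then bp y0 h.choose else 0

theorem uu_mk (hPHB : StPHB) (ψ : Atl G B) (n : ℕ) (c : G × B n) (y0 y : E n)
    (hy : y ∈ ball (0 : E n) 1) : uu n c y0 (mk n c y hy) = bp y0 y := by
  have h : ∃ y' : ball (0 : E n) 1, mk n c y hy = mk n c y' y'.2 := ⟨⟨y, hy⟩, rfl⟩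
  unfold uu
  rw [dif_pos h]
  have h2 := ((hPHB G B ψ).2.2.2.2.1 n c c y h.choose hy h.choose.2 h.choose_spec).2
  rw [← h2]

omit [Group G] in
theorem uu_not (n : ℕ) (c : G × B n) (y0 : E n) (p : Pt G B)
    (hp : ∀ (y : E n) (hy : y ∈ ball (0 : E n) 1), p ≠ mk n c y hy) : uu n c y0 p = 0 := by
  unfold uu
  rw [dif_neg]
  rintro ⟨y, hy⟩
  exact hp y y.2 hy

theorem uu_dim (hPHB : StPHB) (ψ : Atl G B) (n : ℕ) (c : G × B n) (y0 : E n) (p : Pt G B)
    (hp : p.dim ≠ n) : uu n c y0 p = 0 := by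
  apply uu_not
  rintro y hy rfl
  exact hp ((hPHB G B ψ).2.2.2.2.2.2 n c y hy).1

theorem bp_cont {n : ℕ} (y0 : E n) : Continuous (bp y0) := by
  unfold bp
  have h1 : Continuous fun y : E n => ‖y - y0‖ := (continuous_id.sub continuous_const).norm
  exact continuous_const.max (continuous_const.sub (h1.div_const _))

theorem bp_sphere {n : ℕ} (y0 y : E n) (h0 : ‖y0‖ < 1) (hy : ‖y‖ = 1) : bp y0 y = 0 := by
  unfold bp
  apply max_eq_left
  have h1 : 0 < 1 - ‖y0‖ := by linarith
  have h2 : 1 - ‖y0‖ ≤ ‖y - y0‖ := by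
    rw [← hy]
    exact norm_sub_norm_le y y0
  have h3 : 1 ≤ ‖y - y0‖ / (1 - ‖y0‖) := by
    rw [le_div_iff₀ h1]
    linarith
  linarith

theorem bp_self {n : ℕ} (y0 : E n) : bp y0 y0 = 1 := by
  unfold bp
  simp

theorem bp_lt {n : ℕ} (y0 y : E n) (h0 : ‖y0‖ < 1) (hy : y ≠ y0) : bp y0 y < 1 := by
  unfold bp
  have h1 : 0 < 1 - ‖y0‖ := by linarith
  have h2 : 0 < ‖y - y0‖ := norm_pos_iff.mpr (sub_ne_zero.mpr hy)
  have h3 : 0 < ‖y - y0‖ / (1 - ‖y0‖) := div_pos h2 h1
  exact max_lt zero_lt_one (by linarith)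

theorem uu_cont (hCRT : StCRT) (hPHB : StPHB) (ψ : Atl G B) (N : ℕ∞) (hG : Gd ψ N) (n : ℕ)
    (hn : (n : ℕ∞) < N) (c : G × B n) (y0 : E n) (h0 : ‖y0‖ < 1) :
    Continuous (fun p : Sp ψ ((n + 1 : ℕ) : ℕ∞) => uu n c y0 p) := by
  refine ((hCRT G B ψ ((n + 1 : ℕ) : ℕ∞)).2.1 ℝ (uu n c y0)).mpr ?_
  intro k hk c'
  have hkn : k ≤ n := by
    have h1 : k < n + 1 := by exact_mod_cast hk
    omega
  have hkN : (k : ℕ∞) < N := lt_of_le_of_lt (by exact_mod_cast hkn) hn
  by_cases hkc : ∃ h : k = n, h ▸ c' = c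
  · obtain ⟨rfl, hc⟩ := hkc
    have hc : c' = c := hc
    subst hc
    refine (bp_cont y0).continuousOn.congr ?_
    intro y hy
    show uu k c' y0 (Ph ψ k c' y) = bp y0 y
    rcases ball_or_sphere hy with h | h
    · rw [(hPHB G B ψ).1 k c' y h]
      exact uu_mk hPHB ψ k c' y0 y h
    · rw [bp_sphere y0 y h0 (by simpa using h)]
      apply uu_dim hPHB ψ
      exact (dim_Ph_sphere hPHB ψ N hG k hkN c' y h).ne
  · have h2 : ContinuousOn (fun _ : E k => (0 : ℝ)) (closedBall 0 1) := continuousOn_const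
    refine h2.congr ?_
    intro y hy
    show uu n c y0 (Ph ψ k c' y) = 0
    rcases ball_or_sphere hy with h | h
    · rw [(hPHB G B ψ).1 k c' y h]
      by_cases hkn' : k = n
      · subst hkn'
        apply uu_not
        intro y' hy' heq
        have h3 := ((hPHB G B ψ).2.2.2.2.1 k c' c y y' h hy' heq).1
        exact hkc ⟨rfl, h3⟩
      · apply uu_dim hPHB ψ
        rw [((hPHB G B ψ).2.2.2.2.2.2 k c' y h).1]
        exact hkn'
    · apply uu_dim hPHB ψ
      have := dim_Ph_sphere hPHB ψ N hG k hkN c' y h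
      omega

open scoped Classical in
theorem sep (hCRT : StCRT) (hPHB : StPHB) (hEXF : StEXF) (ψ : Atl G B) (N : ℕ∞) (hG : Gd ψ N)
    (p q : Pt G B) (hpq : p ≠ q) (hd : q.dim ≤ p.dim) :
    ∃ v : Pt G B → ℝ, Continuous (fun p : Sp ψ N => v p) ∧ v p ≠ v q := by
  obtain ⟨n, c, y0, h0, rfl⟩ := (hPHB G B ψ).2.2.2.2.2.1 p
  rw [((hPHB G B ψ).2.2.2.2.2.2 n c y0 h0).1] at hd
  have h0' : ‖y0‖ < 1 := by simpa using h0
  rcases lt_or_ge (n : ℕ∞) N with hn | hn
  · have hM : ((n + 1 : ℕ) : ℕ∞) ≤ N := by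
      have := Order.add_one_le_of_lt hn
      exact_mod_cast this
    obtain ⟨v, hv, hvu⟩ := hEXF G B ψ N (n + 1) hG hM (uu n c y0)
      (uu_cont hCRT hPHB ψ N hG n hn c y0 h0')
    refine ⟨v, hv, ?_⟩
    have hLp : mk n c y0 h0 ∈ Lt (G := G) (B := B) ((n + 1 : ℕ) : ℕ∞) := by
      show (((mk n c y0 h0).dim : ℕ) : ℕ∞) < ((n + 1 : ℕ) : ℕ∞)
      rw [((hPHB G B ψ).2.2.2.2.2.2 n c y0 h0).1]
      exact_mod_cast Nat.lt_succ_self n
    have hLq : q ∈ Lt (G := G) (B := B) ((n + 1 : ℕ) : ℕ∞) := by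
      show ((q.dim : ℕ) : ℕ∞) < ((n + 1 : ℕ) : ℕ∞)
      exact_mod_cast Nat.lt_succ_of_le hd
    rw [hvu _ hLp, hvu _ hLq, uu_mk hPHB ψ, bp_self]
    by_cases hq : ∃ (y : E n) (hy : y ∈ ball (0 : E n) 1), q = mk n c y hy
    · obtain ⟨y, hy, rfl⟩ := hq
      rw [uu_mk hPHB ψ]
      have hy0 : y ≠ y0 := by
        rintro rfl
        exact hpq rfl
      exact (bp_lt y0 y h0' hy0).ne'
    · rw [uu_not n c y0 q (fun y hy h => hq ⟨y, hy, h⟩)]
      exact one_ne_zero
  · refine ⟨fun r => if r = mk n c y0 h0 then 1 else 0, ?_, ?_⟩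
    · refine ((hCRT G B ψ N).2.1 ℝ (fun r => if r = mk n c y0 h0 then 1 else 0)).mpr ?_
      intro k hk c'
      have h2 : ContinuousOn (fun _ : E k => (0 : ℝ)) (closedBall 0 1) := continuousOn_const
      refine h2.congr ?_
      intro y hy
      have h3 : Ph ψ k c' y ≠ mk n c y0 h0 := by
        intro h4
        have h5 := dim_Ph_le hPHB ψ N hG k hk c' y hy
        rw [h4, ((hPHB G B ψ).2.2.2.2.2.2 n c y0 h0).1] at h5
        have h6 : (n : ℕ∞) ≤ (k : ℕ∞) := by exact_mod_cast h5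
        exact absurd (lt_of_lt_of_le hk hn) (not_lt.mpr h6)
      show (if Ph ψ k c' y = mk n c y0 h0 then (1 : ℝ) else 0) = 0
      rw [if_neg h3]
    · show (if mk n c y0 h0 = mk n c y0 h0 then (1 : ℝ) else 0) ≠
        (if q = mk n c y0 h0 then (1 : ℝ) else 0)
      rw [if_pos rfl, if_neg (fun h => hpq h.symm)]
      exact one_ne_zero

end T2

open T2 in
theorem I_T2 (hCRT : StCRT) (hPHB : StPHB) (hEXF : StEXF) : StT2 := by
  intro G _ B ψ N hG
  refine ⟨fun p q hpq => ?_⟩
  obtain ⟨v, hv, hne⟩ : ∃ v : Pt G B → ℝ, Continuous (fun p : Sp ψ N => v p) ∧ v p ≠ v q := by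
    rcases le_total (Pt.dim (q : Pt G B)) (Pt.dim (p : Pt G B)) with h | h
    · exact sep hCRT hPHB hEXF ψ N hG p q hpq h
    · obtain ⟨v, hv, hne⟩ := sep hCRT hPHB hEXF ψ N hG q p (Ne.symm hpq) h
      exact ⟨v, hv, hne.symm⟩
  exact separated_by_continuous hv hne

end Pool.Agent.Work.MP_e9e200_al.O3A

end
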