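import Pool.Agent.Work.MP_e9e200_al.Bd.B05
import Pool.Agent.Work.MP_e9e200_al.Bd.B04

/-! Bundle of small proof modules (one section per former module). -/

section

/-!
# Project O3, item COMB: continuity of the suspension coordinates
-/

set_option autoImplicit false

namespace Pool.Agent.Work.MP_e9e200_al.O3

open Set Metric Topology OnePoint

namespace XCOMB

theorem comb_infty {k n : ℕ} (τ : ℝ) : comb (∞ : W k n) τ = ∞ := rfl

theorem comb_coe_lt {k n : ℕ} (a : Fin k) (y : E n) {τ : ℝ} (h : |τ| < 1) :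
    comb (((a, y) : Fin k × E n) : W k n) τ =
      (((a, Fin.cons (τ / (1 - |τ|)) y) : Fin k × E (n + 1)) : W k (n + 1)) := by
  unfold comb
  rw [OnePoint.elim_some, if_pos h]

theorem comb_coe_ge {k n : ℕ} (p : Fin k × E n) {τ : ℝ} (h : 1 ≤ |τ|) :
    comb (p : W k n) τ = ∞ := by
  unfold comb
  rw [OnePoint.elim_some, if_neg (not_lt.mpr h)]

theorem comb_ge {k n : ℕ} (w : W k n) {τ : ℝ} (h : 1 ≤ |τ|) : comb w τ = ∞ := by
  induction w using OnePoint.rec with
  | infty => rfl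
  | coe p => exact comb_coe_ge p h

/-- a finite value of `comb` -/
theorem comb_eq_coe {k n : ℕ} {w : W k n} {τ : ℝ} {a : Fin k} {y : E (n + 1)}
    (h : comb w τ = ((a, y) : Fin k × E (n + 1))) :
    |τ| < 1 ∧ ∃ y' : E n, w = ((a, y') : Fin k × E n) ∧ y = Fin.cons (τ / (1 - |τ|)) y' := by
  rcases lt_or_ge |τ| 1 with ht | ht
  · refine ⟨ht, ?_⟩
    induction w using OnePoint.rec with
    | infty => exact absurd h (OnePoint.infty_ne_coe _)
    | coe p =>
      obtain ⟨b, y'⟩ := p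
      rw [comb_coe_lt b y' ht] at h
      have h2 := OnePoint.coe_injective h
      rw [Prod.mk.injEq] at h2
      obtain ⟨rfl, rfl⟩ := h2
      exact ⟨y', rfl, rfl⟩
  · rw [comb_ge w ht] at h
    exact absurd h (OnePoint.infty_ne_coe _)

theorem norm_cons_ge_left {n : ℕ} (s : ℝ) (y : E n) : |s| ≤ ‖(Fin.cons s y : E (n + 1))‖ := by
  have := norm_le_pi_norm (Fin.cons s y : E (n + 1)) 0
  simpa using this

theorem norm_cons_ge_right {n : ℕ} (s : ℝ) (y : E n) : ‖y‖ ≤ ‖(Fin.cons s y : E (n + 1))‖ := by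
  refine (pi_norm_le_iff_of_nonneg (norm_nonneg _)).mpr fun i => ?_
  have := norm_le_pi_norm (Fin.cons s y : E (n + 1)) i.succ
  simpa using this

theorem norm_cons_sub_lt {n : ℕ} {s s' ε : ℝ} {y y' : E n} (hε : 0 < ε) (h1 : |s' - s| < ε)
    (h2 : ‖y' - y‖ < ε) :
    ‖(Fin.cons s' y' : E (n + 1)) - Fin.cons s y‖ < ε := by
  rw [pi_norm_lt_iff hε]
  intro i
  refine Fin.cases ?_ (fun j => ?_) i
  · simpa using h1
  · have := norm_le_pi_norm (y' - y) j
    simpa using lt_of_le_of_lt this h2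

end XCOMB

open XCOMB in
theorem I_COMB (hOPC : StOPC) : StCOMB := by
  intro Z _ k n w τ hτ hw
  rw [continuous_iff_continuousAt]
  intro z0
  rcases lt_trichotomy |τ z0| 1 with ht | ht | ht
  · -- inside
    have hopen : IsOpen {z | |τ z| < 1} := isOpen_lt hτ.abs continuous_const
    have hwc : ContinuousAt w z0 := hw.continuousAt (hopen.mem_nhds ht)
    have hev : ∀ᶠ z in 𝓝 z0, |τ z| < 1 := hopen.mem_nhds ht
    rcases h0 : w z0 with _ | p
    · -- value infinity
      change w z0 = ∞ at h0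
      have h1 := ((hOPC Z k n w z0).1 h0).mp hwc
      have hc : comb (w z0) (τ z0) = ∞ := by rw [h0]; rfl
      refine ((hOPC Z k (n + 1) (fun z => comb (w z) (τ z)) z0).1 hc).mpr fun R => ?_
      filter_upwards [h1 R] with z hz a y hy
      obtain ⟨_, y', hy', rfl⟩ := comb_eq_coe hy
      exact (hz a y' hy').trans (norm_cons_ge_right _ _)
    · obtain ⟨a, y0⟩ := p
      change w z0 = (((a, y0) : Fin k × E n) : W k n) at h0
      have h1 := ((hOPC Z k n w z0).2 a y0 h0).mp hwc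
      have hc : comb (w z0) (τ z0) =
          (((a, Fin.cons (τ z0 / (1 - |τ z0|)) y0) : Fin k × E (n + 1)) : W k (n + 1)) := by
        rw [h0, comb_coe_lt a y0 ht]
      refine ((hOPC Z k (n + 1) (fun z => comb (w z) (τ z)) z0).2 a _ hc).mpr fun ε hε => ?_
      have hs : ContinuousAt (fun z => τ z / (1 - |τ z|)) z0 :=
        hτ.continuousAt.div (continuousAt_const.sub hτ.continuousAt.abs) (by linarith)
      have hs2 : ∀ᶠ z in 𝓝 z0, |τ z / (1 - |τ z|) - τ z0 / (1 - |τ z0|)| < ε := by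
        have := Metric.tendsto_nhds.mp hs ε hε
        simpa [Real.dist_eq] using this
      filter_upwards [h1 ε hε, hev, hs2] with z hz htz hsz
      obtain ⟨y', hy', hyn⟩ := hz
      refine ⟨Fin.cons (τ z / (1 - |τ z|)) y', ?_, norm_cons_sub_lt hε hsz hyn⟩
      rw [hy', comb_coe_lt a y' htz]
  · -- boundary
    have hc : comb (w z0) (τ z0) = ∞ := comb_ge _ ht.ge
    refine ((hOPC Z k (n + 1) (fun z => comb (w z) (τ z)) z0).1 hc).mpr fun R => ?_
    -- |τ z| close to one
    have hclose : ∀ᶠ z in 𝓝 z0, 1 - 1 / (|R| + 2) < |τ z| := by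
      have h3 : 1 - 1 / (|R| + 2) < |τ z0| := by
        rw [ht]
        have : 0 < 1 / (|R| + 2) := by positivity
        linarith
      exact (hτ.abs.continuousAt).eventually (lt_mem_nhds h3)
    filter_upwards [hclose] with z hz a y hy
    obtain ⟨htz, y', _, rfl⟩ := comb_eq_coe hy
    refine le_trans ?_ (norm_cons_ge_left _ _)
    have h1t : 0 < 1 - |τ z| := by linarith
    rw [abs_div, abs_of_pos h1t, le_div_iff₀ h1t]
    have hRpos : 0 < |R| + 2 := by positivity
    have h4 : 1 - |τ z| < 1 / (|R| + 2) := by linarith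
    have h5 : (1 - |τ z|) * (|R| + 2) < 1 := by
      rw [lt_div_iff₀ hRpos] at h4
      exact h4
    have h6 : R ≤ |R| := le_abs_self R
    nlinarith [abs_nonneg R, abs_nonneg (τ z), mul_le_mul_of_nonneg_right h6 h1t.le]
  · -- outside
    have hc : comb (w z0) (τ z0) = ∞ := comb_ge _ ht.le
    refine ((hOPC Z k (n + 1) (fun z => comb (w z) (τ z)) z0).1 hc).mpr fun R => ?_
    have hev : ∀ᶠ z in 𝓝 z0, 1 < |τ z| := (hτ.abs.continuousAt).eventually (lt_mem_nhds ht)
    filter_upwards [hev] with z hz a y hy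
    obtain ⟨htz, _⟩ := comb_eq_coe hy
    exact absurd htz (not_lt.mpr hz.le)

end Pool.Agent.Work.MP_e9e200_al.O3

end

section

set_option autoImplicit false

namespace Pool.Agent.Work.MP_e9e200_al.O3

open Set Metric Topology OnePoint

namespace XDEG

/-- if the sums are eventually constant then the degree is the eventual value -/
theorem deg_spec {k n : ℕ} (a : Fin k) (f : E n → W k n)
    (h : ∃ d : ℤ, ∀ᶠ N : ℕ in Filter.atTop, SN a f N = d) :
    ∀ᶠ N : ℕ in Filter.atTop, SN a f N = deg a f := by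
  unfold deg
  rw [dif_pos h]
  exact h.choose_spec

theorem ev_const (hDSTB : StDSTB) {k n : ℕ} (a : Fin k) (f g : E n → W k n) (hfg : Ho ∞ f g) :
    ∃ d : ℤ, (∀ᶠ N : ℕ in Filter.atTop, SN a f N = d) ∧
      ∀ᶠ N : ℕ in Filter.atTop, SN a g N = d := by
  obtain ⟨N₀, hN⟩ := hDSTB k n a f g hfg
  refine ⟨SN a f N₀, ?_, ?_⟩
  · filter_upwards [Filter.eventually_ge_atTop N₀] with N h
    rw [hN N N₀ h le_rfl, hN N₀ N₀ le_rfl le_rfl]
  · filter_upwards [Filter.eventually_ge_atTop N₀] with N h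
    exact (hN N₀ N le_rfl h).symm

end XDEG

theorem I_DEG (hDSTB : StDSTB) (hHO : StHO) : StDEG := by
  intro k n a
  refine ⟨fun f hf => ?_, fun f g hfg => ?_⟩
  · obtain ⟨d, h1, -⟩ := XDEG.ev_const hDSTB a f f ((hHO n (W k n) ∞).1 f hf)
    exact XDEG.deg_spec a f ⟨d, h1⟩
  · obtain ⟨d, h1, h2⟩ := XDEG.ev_const hDSTB a f g hfg
    have e1 := XDEG.deg_spec a f ⟨d, h1⟩
    have e2 := XDEG.deg_spec a g ⟨d, h2⟩
    obtain ⟨N, h3, h4, h5, h6⟩ := (h1.and (h2.and (e1.and e2))).exists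
    rw [← h5, ← h6, h3, h4]

end Pool.Agent.Work.MP_e9e200_al.O3

end

section

set_option autoImplicit false

namespace Pool.Agent.Work.MP_e9e200_al.O3

open Set Metric Topology OnePoint

namespace XDIO

theorem io_coe {k n : ℕ} (a b : Fin k) (x y : E n)
    (h : (io a x : W k n) = ((b, y) : Fin k × E n)) : ‖x‖ < 1 ∧ b = a ∧ y = psi x := by
  classical
  unfold io at h
  by_cases hx : ‖x‖ < 1
  · rw [if_pos hx] at h
    have h' := OnePoint.coe_injective h
    have h1 := congrArg Prod.fst h'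
    have h2 := congrArg Prod.snd h'
    exact ⟨hx, h1.symm, h2.symm⟩
  · rw [if_neg hx] at h
    exact absurd h.symm (OnePoint.coe_ne_infty _)

end XDIO

theorem I_DIO (hDNRM : StDNRM) (hDPR : StDPR) : StDIO := by
  classical
  intro k n a b
  by_cases hab : a = b
  · subst hab
    rw [if_pos rfl]
    refine hDNRM k n a (io a) 0 ((hDPR k n a).2.2.2 a).1 ?_ ?_
    · intro x b y h
      obtain ⟨hx, hb, hy⟩ := XDIO.io_coe a b x y h
      refine ⟨hb, fun i => ?_⟩
      subst hy
      have hpos : 0 < (1 - ‖x‖)⁻¹ := inv_pos.mpr (by linarith)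
      simp only [psi, Pi.smul_apply, smul_eq_mul, Pi.zero_apply]
      exact mul_nonneg_iff_of_pos_left hpos
    · unfold io
      rw [if_pos (by simp)]
      exact OnePoint.coe_ne_infty _
  · rw [if_neg hab]
    refine (hDPR k n a).2.2.1 (io b) ?_
    intro x c y h hc
    obtain ⟨_, hb, _⟩ := XDIO.io_coe b c x y h
    exact hab (hc.symm.trans hb)

end Pool.Agent.Work.MP_e9e200_al.O3

end

section

/-!
# Project O3, item DPR: the degree and the projections of the wedge
-/

set_option autoImplicit false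

namespace Pool.Agent.Work.MP_e9e200_al.O3

open Set Metric Topology OnePoint Filter

namespace XDPR

theorem pr_inf {k n : ℕ} (a : Fin k) : pr a (∞ : W k n) = ∞ := rfl

theorem pr_coe {k n : ℕ} (a b : Fin k) (y : E n) :
    pr a (((b, y) : Fin k × E n) : W k n) =
      if b = a then (((0, y) : Fin 1 × E n) : W 1 n) else ∞ := rfl

theorem pr_eq {k n : ℕ} (a : Fin k) (w : W k n) (c : Fin 1) (y : E n)
    (h : pr a w = (((c, y) : Fin 1 × E n) : W 1 n)) : w = (((a, y) : Fin k × E n) : W k n) := by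
  rcases w with _ | ⟨b, y'⟩
  · exact absurd h.symm (OnePoint.coe_ne_infty _)
  · change pr a (((b, y') : Fin k × E n) : W k n) = _ at h
    rw [pr_coe] at h
    split_ifs at h with hb
    · have h' := OnePoint.coe_injective h
      have h2 : y' = y := congrArg Prod.snd h'
      subst hb
      subst h2
      rfl
    · exact absurd h.symm (OnePoint.coe_ne_infty _)

theorem lv_inf {k n : ℕ} (a : Fin k) : lv a (∞ : W k n) = 0 := rfl

open scoped Classical in
theorem lv_coe {k n : ℕ} (a b : Fin k) (y : E n) :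
    lv a (((b, y) : Fin k × E n) : W k n) =
      if b = a ∧ ‖y‖ < 1 then Pi.single (ell y) 1 else 0 := rfl

theorem lv_pr {k n : ℕ} (a : Fin k) (w : W k n) : lv 0 (pr a w) = lv a w := by
  rcases w with _ | ⟨b, y⟩
  · rfl
  · change lv 0 (pr a (((b, y) : Fin k × E n) : W k n)) = lv a (((b, y) : Fin k × E n) : W k n)
    rw [pr_coe, lv_coe]
    by_cases hb : b = a
    · rw [if_pos hb, lv_coe]
      simp [hb]
    · rw [if_neg hb, lv_inf]
      simp [hb]

theorem cont_pr (hOPC : StOPC) {k n : ℕ} (a : Fin k) : Continuous (pr a : W k n → W 1 n) := by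
  rw [continuous_iff_continuousAt]
  intro w
  obtain ⟨h1, h2⟩ := hOPC (W k n) 1 n (pr a) w
  obtain ⟨g1, g2⟩ := hOPC (W k n) k n id w
  rcases w with _ | ⟨b, y⟩
  · refine (h1 rfl).2 fun R => ?_
    have h := (g1 rfl).1 continuousAt_id R
    filter_upwards [h] with z hz c y hy
    exact hz a y (pr_eq a z c y hy)
  · have h := (g2 b y rfl).1 continuousAt_id
    by_cases hb : b = a
    · refine (h2 0 y (by
        change pr a (((b, y) : Fin k × E n) : W k n) = _
        rw [pr_coe, if_pos hb])).2 fun ε hε => ?_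
      filter_upwards [h ε hε] with z hz
      obtain ⟨y', hz', hy'⟩ := hz
      refine ⟨y', ?_, hy'⟩
      change z = _ at hz'
      rw [hz', pr_coe, if_pos hb]
    · refine (h1 (by
        change pr a (((b, y) : Fin k × E n) : W k n) = _
        rw [pr_coe, if_neg hb])).2 fun R => ?_
      filter_upwards [h 1 one_pos] with z hz c y'' hy''
      obtain ⟨y', hz', hy'⟩ := hz
      change z = _ at hz'
      rw [hz', pr_coe, if_neg hb] at hy''
      exact absurd hy''.symm (OnePoint.coe_ne_infty _)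

theorem cont_io (hOPC : StOPC) {k n : ℕ} (b : Fin k) : Continuous (io b : E n → W k n) := by
  rw [continuous_iff_continuousAt]
  intro x
  obtain ⟨h1, h2⟩ := hOPC (E n) k n (io b) x
  by_cases hx : ‖x‖ < 1
  · refine (h2 b (psi x) (by unfold io; rw [if_pos hx])).2 fun ε hε => ?_
    have hc : ContinuousAt (psi : E n → E n) x := by
      unfold psi
      have h0 : (1 : ℝ) - ‖x‖ ≠ 0 := by linarith
      have hn : ContinuousAt (fun x : E n => (1 : ℝ) - ‖x‖) x := by fun_prop
      exact (hn.inv₀ h0).smul continuousAt_id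
    have e1 : ∀ᶠ x' in 𝓝 x, ‖x'‖ < 1 :=
      (continuous_norm.continuousAt (x := x)).eventually_lt_const hx
    have e2 : ∀ᶠ x' in 𝓝 x, psi x' ∈ ball (psi x) ε := hc.eventually (ball_mem_nhds _ hε)
    filter_upwards [e1, e2] with x' h1' h2'
    refine ⟨psi x', ?_, by simpa [dist_eq_norm] using h2'⟩
    unfold io
    rw [if_pos h1']
  · refine (h1 (by unfold io; rw [if_neg hx])).2 fun R => ?_
    have hx' : 1 ≤ ‖x‖ := not_lt.mp hx
    have hR : 0 < |R| + 2 := by positivity
    have e1 : ∀ᶠ x' in 𝓝 x, 1 - 1 / (|R| + 2) < ‖x'‖ := by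
      refine (continuous_norm.continuousAt (x := x)).eventually_const_lt ?_
      have : 0 < 1 / (|R| + 2) := by positivity
      linarith
    filter_upwards [e1] with x' h' a y hy
    unfold io at hy
    split_ifs at hy with hlt
    · have hy' := OnePoint.coe_injective hy
      have hy2 : psi x' = y := congrArg Prod.snd hy'
      rw [← hy2]
      unfold psi
      have hs : 0 < 1 - ‖x'‖ := by linarith
      rw [norm_smul, norm_inv, Real.norm_eq_abs, abs_of_pos hs]
      have h3 : (1 - ‖x'‖) * (|R| + 2) < 1 := by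
        have : 1 - ‖x'‖ < 1 / (|R| + 2) := by linarith
        rwa [lt_div_iff₀ hR] at this
      have h4 : R ≤ |R| := le_abs_self R
      rw [inv_mul_eq_div, le_div_iff₀ hs]
      have h5 : R * (1 - ‖x'‖) ≤ |R| * (1 - ‖x'‖) := mul_le_mul_of_nonneg_right h4 hs.le
      nlinarith
    · exact absurd hy.symm (OnePoint.coe_ne_infty _)

end XDPR

theorem I_DPR (hOPC : StOPC) : StDPR := by
  intro k n a
  refine ⟨XDPR.cont_pr hOPC a, fun f => ?_, fun f hf => ?_, fun b => ?_⟩
  · have hS : ∀ N, SN a f N = SN 0 (fun x => pr a (f x)) N := by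
      intro N
      unfold SN kap
      simp only [XDPR.lv_pr]
    have hS' : (fun N => SN a f N) = fun N => SN 0 (fun x => pr a (f x)) N := funext hS
    unfold deg
    classical
    have key : ∀ u v : ℕ → ℤ, u = v → (if h : ∃ d : ℤ, ∀ᶠ N : ℕ in Filter.atTop, u N = d then
        h.choose else 0) = if h : ∃ d : ℤ, ∀ᶠ N : ℕ in Filter.atTop, v N = d then
        h.choose else 0 := by
      rintro u v rfl
      rfl
    convert key _ _ hS'
  · have hl : ∀ x, lv a (f x) = 0 := by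
      intro x
      rcases hw : f x with _ | ⟨b, y⟩
      · rfl
      · change lv a (((b, y) : Fin k × E n) : W k n) = 0
        rw [XDPR.lv_coe, if_neg (fun h => hf x b y hw h.1)]
    have hS : ∀ N, SN a f N = 0 := by
      intro N
      unfold SN kap
      have : ∀ (p : Fin n → ℤ) (σ : Equiv.Perm (Fin n)),
          Matrix.det (Matrix.of fun i : Fin (n + 1) =>
            lv a (f (fun j => (vx p σ i j : ℝ) / N))) = 0 := by
        intro p σ
        refine Matrix.det_eq_zero_of_row_eq_zero 0 fun j => ?_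
        rw [Matrix.of_apply, hl]
        rfl
      simp [this]
    have hex : ∃ d : ℤ, ∀ᶠ N : ℕ in Filter.atTop, SN a f N = d :=
      ⟨0, Eventually.of_forall hS⟩
    unfold deg
    rw [dif_pos hex]
    have := hex.choose_spec
    obtain ⟨N, hN⟩ := this.exists
    rw [← hN, hS]
  · have hc := XDPR.cont_io hOPC (n := n) b
    have h0 : ∀ x : E n, 1 ≤ ‖x‖ → (io b x : W k n) = ∞ := by
      intro x hx
      unfold io
      rw [if_neg (not_lt.mpr hx)]
    exact ⟨⟨hc, 1, h0⟩, hc, h0⟩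

end Pool.Agent.Work.MP_e9e200_al.O3

end

section

/-!
# Project O3, item DSTB: the sums over all simplices do not depend on the mesh
-/

set_option autoImplicit false

namespace Pool.Agent.Work.MP_e9e200_al.O3

open Set Metric Topology OnePoint

namespace XDSTB

theorem kap_inf {k n : ℕ} (a : Fin k) (v : Fin (n + 1) → W k n) (i : Fin (n + 1))
    (h : v i = ∞) : kap a v = 0 := by
  refine Matrix.det_eq_zero_of_row_eq_zero i ?_
  intro j
  show lv a (v i) j = 0
  rw [h]
  rfl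

/-- the time -/
noncomputable def cc (T : ℕ) (s : ℤ) : ℝ := max 0 (min 1 ((s : ℝ) / T))

/-- the mesh -/
noncomputable def mu (T N N' : ℕ) (s : ℤ) : ℝ := (1 - cc T s) / N + cc T s / N'

theorem cc_nonneg (T : ℕ) (s : ℤ) : 0 ≤ cc T s := le_max_left _ _

theorem cc_le_one (T : ℕ) (s : ℤ) : cc T s ≤ 1 := by
  unfold cc
  exact max_le zero_le_one (min_le_left _ _)

theorem cc_zero (T : ℕ) : cc T 0 = 0 := by
  unfold cc
  simp

theorem cc_top (T : ℕ) (hT : 0 < T) : cc T (T : ℤ) = 1 := by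
  unfold cc
  have : ((T : ℤ) : ℝ) / (T : ℝ) = 1 := by
    have h : (T : ℝ) ≠ 0 := by positivity
    push_cast
    exact div_self h
  rw [this]
  simp

theorem cc_eq (T : ℕ) (s : ℤ) (h0 : 0 ≤ s) (h1 : s ≤ T) (hT : 0 < T) : cc T s = (s : ℝ) / T := by
  have hT' : (0 : ℝ) < T := by exact_mod_cast hT
  have h0' : (0 : ℝ) ≤ s := by exact_mod_cast h0
  have h1' : (s : ℝ) ≤ T := by exact_mod_cast h1
  unfold cc
  rw [min_eq_right ((div_le_one hT').2 h1'), max_eq_right (div_nonneg h0' hT'.le)]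

theorem cc_dist (T : ℕ) (s t u : ℤ) (h0 : 0 ≤ s) (h1 : s + 1 ≤ T) (hT : 0 < T)
    (ht : t = s ∨ t = s + 1) (hu : u = s ∨ u = s + 1) : |cc T t - cc T u| ≤ 1 / T := by
  have hT' : (0 : ℝ) < T := by exact_mod_cast hT
  have e1 : cc T s = (s : ℝ) / T := cc_eq T s h0 (by omega) hT
  have e2 : cc T (s + 1) = (s : ℝ) / T + 1 / T := by
    rw [cc_eq T (s + 1) (by omega) h1 hT]
    push_cast
    ring
  have h3 : (0 : ℝ) ≤ 1 / T := by positivity
  rcases ht with rfl | rfl <;> rcases hu with rfl | rfl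
  · simpa using h3
  · rw [e1, e2, abs_le]
    constructor <;> linarith
  · rw [e1, e2, abs_le]
    constructor <;> linarith
  · simpa using h3

theorem mu_le (T N N' N₀ : ℕ) (s : ℤ) (h0 : 0 < N₀) (hN : N₀ ≤ N) (hN' : N₀ ≤ N') :
    mu T N N' s ≤ 1 / N₀ := by
  have h0' : (0 : ℝ) < N₀ := by exact_mod_cast h0
  have hN1 : (N₀ : ℝ) ≤ N := by exact_mod_cast hN
  have hN2 : (N₀ : ℝ) ≤ N' := by exact_mod_cast hN'
  have hc0 := cc_nonneg T s
  have hc1 := cc_le_one T s
  unfold mu
  have e1 : (1 - cc T s) / N ≤ (1 - cc T s) / N₀ :=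
    div_le_div_of_nonneg_left (by linarith) h0' hN1
  have e2 : cc T s / N' ≤ cc T s / N₀ := div_le_div_of_nonneg_left hc0 h0' hN2
  calc (1 - cc T s) / N + cc T s / N' ≤ (1 - cc T s) / N₀ + cc T s / N₀ := add_le_add e1 e2
    _ = 1 / N₀ := by ring

theorem le_mu (T N N' : ℕ) (s : ℤ) (m : ℝ) (h1 : m ≤ 1 / N) (h2 : m ≤ 1 / N') :
    m ≤ mu T N N' s := by
  have hc0 := cc_nonneg T s
  have hc1 := cc_le_one T s
  have e1 : (1 - cc T s) * m ≤ (1 - cc T s) * (1 / N) :=
    mul_le_mul_of_nonneg_left h1 (by linarith)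
  have e2 : cc T s * m ≤ cc T s * (1 / N') := mul_le_mul_of_nonneg_left h2 hc0
  have e3 : mu T N N' s = (1 - cc T s) * (1 / N) + cc T s * (1 / N') := by
    unfold mu
    ring
  rw [e3]
  linarith

theorem mu_dist (T N N' : ℕ) (hN : 0 < N) (hN' : 0 < N') (s t : ℤ) :
    |mu T N N' s - mu T N N' t| ≤ |cc T s - cc T t| := by
  have h1 : (1 : ℝ) ≤ N := by exact_mod_cast hN
  have h2 : (1 : ℝ) ≤ N' := by exact_mod_cast hN'
  have e1 : mu T N N' s - mu T N N' t = (cc T s - cc T t) * (1 / N' - 1 / N) := by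
    unfold mu
    ring
  rw [e1, abs_mul]
  have e2 : |(1 : ℝ) / N' - 1 / N| ≤ 1 := by
    have a1 : (1 : ℝ) / N' ≤ 1 := by
      rw [div_le_one (by linarith)]
      exact h2
    have a2 : (1 : ℝ) / N ≤ 1 := by
      rw [div_le_one (by linarith)]
      exact h1
    have a3 : (0 : ℝ) ≤ 1 / N' := by positivity
    have a4 : (0 : ℝ) ≤ 1 / N := by positivity
    rw [abs_le]
    constructor <;> linarith
  calc |cc T s - cc T t| * |(1 : ℝ) / N' - 1 / N| ≤ |cc T s - cc T t| * 1 :=
        mul_le_mul_of_nonneg_left e2 (abs_nonneg _)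
    _ = |cc T s - cc T t| := mul_one _

/-- the point of `ℝ × E n` with the integral coordinates `(s, p)` -/
noncomputable def pt {n : ℕ} (T N N' : ℕ) (q : ℤ × (Fin n → ℤ)) : ℝ × E n :=
  (cc T q.1, fun j => mu T N N' q.1 * (q.2 j : ℝ))

theorem far {n : ℕ} (T N N' : ℕ) (hN : 0 < N) (hN' : 0 < N') (M : ℤ) (r m : ℝ) (hm : 0 < m)
    (h1 : m ≤ 1 / N) (h2 : m ≤ 1 / N') (hM : r ≤ M * m) (hM0 : 0 ≤ M) (q : ℤ × (Fin n → ℤ))
    (j : Fin n) (hq : M ≤ |q.2 j|) : r ≤ ‖(pt T N N' q).2‖ := by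
  have e1 : m ≤ mu T N N' q.1 := le_mu T N N' q.1 m h1 h2
  have e2 : (M : ℝ) ≤ |(q.2 j : ℝ)| := by exact_mod_cast hq
  have e3 : (0 : ℝ) ≤ M := by exact_mod_cast hM0
  have e4 : ‖(pt T N N' q).2 j‖ ≤ ‖(pt T N N' q).2‖ := norm_le_pi_norm _ j
  refine le_trans ?_ e4
  show r ≤ ‖mu T N N' q.1 * (q.2 j : ℝ)‖
  rw [Real.norm_eq_abs, abs_mul, abs_of_nonneg (by linarith)]
  calc r ≤ M * m := hM
    _ = m * M := mul_comm _ _
    _ ≤ mu T N N' q.1 * |(q.2 j : ℝ)| := mul_le_mul e1 e2 e3 (by linarith)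

theorem near {n : ℕ} (T N N' : ℕ) (N₀ : ℕ) (hN₀ : 0 < N₀) (hN : N₀ ≤ N) (hN' : N₀ ≤ N')
    (M : ℤ) (d : ℝ) (hd : 0 < d) (hT : 0 < T) (h1 : 1 / (N₀ : ℝ) ≤ d / 2)
    (h2 : 1 / (T : ℝ) ≤ d) (h3 : 1 / (T : ℝ) * (M + 1) ≤ d / 2) (hM0 : 0 ≤ M)
    (s : ℤ) (hs0 : 0 ≤ s) (hs1 : s + 1 ≤ T) (q q' : ℤ × (Fin n → ℤ)) (hq : q.1 = s ∨ q.1 = s + 1)
    (hq' : q'.1 = s ∨ q'.1 = s + 1) (hd1 : ∀ l, |q.2 l - q'.2 l| ≤ 1)
    (hb : ∀ l, |q'.2 l| ≤ M + 1) : dist (pt T N N' q) (pt T N N' q') ≤ d := by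
  have hc := cc_dist T s q.1 q'.1 hs0 hs1 hT hq hq'
  rw [Prod.dist_eq]
  refine max_le ?_ ?_
  · rw [Real.dist_eq]
    exact le_trans hc h2
  · rw [dist_pi_le_iff hd.le]
    intro l
    show dist (mu T N N' q.1 * (q.2 l : ℝ)) (mu T N N' q'.1 * (q'.2 l : ℝ)) ≤ d
    rw [Real.dist_eq]
    have e1 : mu T N N' q.1 * (q.2 l : ℝ) - mu T N N' q'.1 * (q'.2 l : ℝ) =
        mu T N N' q.1 * ((q.2 l : ℝ) - (q'.2 l : ℝ)) +
          (mu T N N' q.1 - mu T N N' q'.1) * (q'.2 l : ℝ) := by ring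
    rw [e1]
    refine le_trans (abs_add_le _ _) ?_
    rw [abs_mul, abs_mul]
    have e2 : |((q.2 l : ℝ) - (q'.2 l : ℝ))| ≤ 1 := by exact_mod_cast hd1 l
    have e3 : |(q'.2 l : ℝ)| ≤ M + 1 := by exact_mod_cast hb l
    have e4 : mu T N N' q.1 ≤ 1 / N₀ := mu_le T N N' N₀ q.1 hN₀ hN hN'
    have e5 : 0 ≤ mu T N N' q.1 := le_mu T N N' q.1 0 (by positivity) (by positivity)
    have e6 : |mu T N N' q.1 - mu T N N' q'.1| ≤ 1 / T :=
      le_trans (mu_dist T N N' (by omega) (by omega) _ _) hc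
    have e7 : (0 : ℝ) ≤ 1 / T := by positivity
    have e8 : |mu T N N' q.1| * |((q.2 l : ℝ) - (q'.2 l : ℝ))| ≤ d / 2 := by
      rw [abs_of_nonneg e5]
      calc mu T N N' q.1 * |((q.2 l : ℝ) - (q'.2 l : ℝ))| ≤ mu T N N' q.1 * 1 :=
            mul_le_mul_of_nonneg_left e2 e5
        _ ≤ d / 2 := by linarith
    have e9 : |mu T N N' q.1 - mu T N N' q'.1| * |(q'.2 l : ℝ)| ≤ d / 2 := by
      calc |mu T N N' q.1 - mu T N N' q'.1| * |(q'.2 l : ℝ)| ≤ 1 / T * (M + 1) :=
            mul_le_mul e6 e3 (abs_nonneg _) e7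
        _ ≤ d / 2 := h3
    linarith

end XDSTB

open XDSTB in
theorem I_DSTB (hSTOK : StSTOK) (hCLOSE : StCLOSE) : StDSTB := by
  intro k n a f g hfg
  obtain ⟨H, hHc, ⟨r0, hr0⟩, hH0, hH1⟩ := hfg
  set r : ℝ := max r0 1 with hr
  have hr1 : 1 ≤ r := le_max_right _ _
  have hHr : ∀ t x, r ≤ ‖x‖ → H (t, x) = ∞ := fun t x hx => hr0 t x (le_trans (le_max_left _ _) hx)
  set C : Set (ℝ × E n) := Icc 0 1 ×ˢ closedBall 0 (r + 2) with hC
  have hCc : IsCompact C := isCompact_Icc.prod (isCompact_closedBall _ _)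
  obtain ⟨δ, hδ, hcl⟩ := hCLOSE (ℝ × E n) k n a H C hCc hHc.continuousOn
  set d : ℝ := min δ 1 with hdd
  have hd : 0 < d := lt_min hδ one_pos
  have hdδ : d ≤ δ := min_le_left _ _
  have hd1 : d ≤ 1 := min_le_right _ _
  obtain ⟨N₀, hN₀⟩ := exists_nat_gt (2 / d)
  have hN₀p' : (0 : ℝ) < N₀ := lt_trans (by positivity) hN₀
  have hN₀p : 0 < N₀ := by exact_mod_cast hN₀p'
  have hN₀d : 1 / (N₀ : ℝ) ≤ d / 2 := by
    rw [div_le_iff₀ hN₀p']
    have := (div_lt_iff₀ hd).1 hN₀
    linarith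
  refine ⟨N₀, fun N N' hN hN' => ?_⟩
  have hNp : 0 < N := lt_of_lt_of_le hN₀p hN
  have hNp' : 0 < N' := lt_of_lt_of_le hN₀p hN'
  set m : ℝ := min (1 / (N : ℝ)) (1 / (N' : ℝ)) with hm
  have hmp : 0 < m := lt_min (by positivity) (by positivity)
  have hm1 : m ≤ 1 / N := min_le_left _ _
  have hm2 : m ≤ 1 / N' := min_le_right _ _
  obtain ⟨M', hM'⟩ := exists_nat_gt (r / m)
  set M : ℤ := (M' : ℤ) with hMM
  have hM0 : 0 ≤ M := by positivity
  have hM : r ≤ M * m := by
    have := (div_lt_iff₀ hmp).1 hM'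
    have e : ((M : ℤ) : ℝ) = (M' : ℝ) := by simp [hMM]
    rw [e]
    exact this.le
  obtain ⟨T, hT⟩ := exists_nat_gt (max (1 / d) (2 * (M + 1) / d))
  have hT1 : 1 / d < T := lt_of_le_of_lt (le_max_left _ _) hT
  have hT2 : 2 * (M + 1) / d < T := lt_of_le_of_lt (le_max_right _ _) hT
  have hTp' : (0 : ℝ) < T := lt_trans (by positivity) hT1
  have hTp : 0 < T := by exact_mod_cast hTp'
  have hT3 : 1 / (T : ℝ) ≤ d := by
    rw [div_le_iff₀ hTp']
    have := (div_lt_iff₀ hd).1 hT1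
    linarith
  have hT4 : 1 / (T : ℝ) * (M + 1) ≤ d / 2 := by
    have h1 := (div_lt_iff₀ hd).1 hT2
    rw [div_mul_eq_mul_div, one_mul, div_le_iff₀ hTp']
    linarith
  set K : (Fin (n + 1) → (ℤ × (Fin n → ℤ))) → ℤ :=
    fun v => kap a (fun i => H (pt T N N' (v i))) with hK
  have hinf : ∀ q : ℤ × (Fin n → ℤ), r ≤ ‖(pt T N N' q).2‖ → H (pt T N N' q) = ∞ := by
    intro q hq
    exact hHr (pt T N N' q).1 (pt T N N' q).2 hq
  have hK1 : ∀ v, (∃ i j, M ≤ |(v i).2 j|) → K v = 0 := by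
    rintro v ⟨i, j, hij⟩
    exact kap_inf a _ i (hinf _ (far T N N' hNp hNp' M r m hmp hm1 hm2 hM hM0 (v i) j hij))
  have hstep : ∀ s : ℤ, 0 ≤ s → s + 1 ≤ T → slc K s = slc K (s + 1) := by
    intro s hs0 hs1
    refine hSTOK n K M s hK1 ?_
    intro v hv1 hv2
    by_cases hA : ∀ i l, |(v i).2 l| ≤ M + 1
    · have hdist : ∀ i j, dist (pt T N N' (v i)) (pt T N N' (v j)) ≤ d := by
        intro i j
        exact near T N N' N₀ hN₀p hN hN' M d hd hTp hN₀d hT3 hT4 hM0 s hs0 hs1 (v i) (v j)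
          (hv1 i) (hv1 j) (hv2 i j) (hA j)
      by_cases hB : ∀ i, pt T N N' (v i) ∈ C
      · exact hcl (fun i => pt T N N' (v i)) hB (fun i j => le_trans (hdist i j) hdδ)
      · push Not at hB
        obtain ⟨i0, hi0⟩ := hB
        have h1 : r + 2 < ‖(pt T N N' (v i0)).2‖ := by
          by_contra hlt
          apply hi0
          rw [hC]
          refine ⟨⟨cc_nonneg _ _, cc_le_one _ _⟩, ?_⟩
          rw [mem_closedBall_zero_iff]
          exact not_lt.1 hlt
        have h2 : ∀ i, H (pt T N N' (v i)) = ∞ := by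
          intro i
          apply hinf
          have h3 : dist (pt T N N' (v i0)).2 (pt T N N' (v i)).2 ≤ d :=
            le_trans (by rw [Prod.dist_eq]; exact le_max_right _ _) (hdist i0 i)
          have h4 : ‖(pt T N N' (v i0)).2‖ ≤ ‖(pt T N N' (v i)).2‖ + d := by
            rw [dist_eq_norm] at h3
            have := norm_le_norm_add_norm_sub' (pt T N N' (v i0)).2 (pt T N N' (v i)).2
            linarith
          linarith
        refine Finset.sum_eq_zero ?_
        intro i _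
        have : K (fun j => v (i.succAbove j)) = 0 := kap_inf a _ 0 (h2 _)
        rw [this, mul_zero]
    · push Not at hA
      obtain ⟨i0, l, hi0⟩ := hA
      refine Finset.sum_eq_zero ?_
      intro i _
      have : K (fun j => v (i.succAbove j)) = 0 := by
        refine hK1 _ ⟨0, l, ?_⟩
        have h3 := hv2 i0 (i.succAbove 0) l
        have h4 : |(v i0).2 l| ≤ |(v (i.succAbove 0)).2 l| +
            |(v i0).2 l - (v (i.succAbove 0)).2 l| := by
          have := abs_add_le ((v (i.succAbove 0)).2 l) ((v i0).2 l - (v (i.succAbove 0)).2 l)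
          simpa using this
        show M ≤ |(v (i.succAbove 0)).2 l|
        linarith
      rw [this, mul_zero]
  have hall : ∀ s : ℕ, s ≤ T → slc K 0 = slc K (s : ℤ) := by
    intro s
    induction s with
    | zero => intro _; simp
    | succ s ih =>
      intro hs
      rw [ih (by omega)]
      have := hstep (s : ℤ) (by positivity) (by exact_mod_cast hs)
      rw [this]
      push_cast
      rfl
  have hfin := hall T le_rfl
  have e0 : slc K 0 = SN a f N := by
    unfold slc SN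
    refine finsum_congr fun p => Finset.sum_congr rfl fun σ _ => ?_
    congr 1
    show kap a _ = kap a _
    congr 1
    funext i
    rw [← hH0]
    congr 1
    refine Prod.ext ?_ ?_
    · exact cc_zero T
    · funext j
      show mu T N N' 0 * (vx p σ i j : ℝ) = (vx p σ i j : ℝ) / N
      unfold mu
      rw [cc_zero]
      ring
  have e1 : slc K (T : ℤ) = SN a g N' := by
    unfold slc SN
    refine finsum_congr fun p => Finset.sum_congr rfl fun σ _ => ?_
    congr 1
    show kap a _ = kap a _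
    congr 1
    funext i
    rw [← hH1]
    congr 1
    refine Prod.ext ?_ ?_
    · exact cc_top T hTp
    · funext j
      show mu T N N' (T : ℤ) * (vx p σ i j : ℝ) = (vx p σ i j : ℝ) / N'
      unfold mu
      rw [cc_top T hTp]
      ring
  rw [← e0, ← e1]
  exact hfin

end Pool.Agent.Work.MP_e9e200_al.O3

end

section

/-!
# Project O3: FACC, the suspension of a map of a face
-/

set_option autoImplicit false

namespace Pool.Agent.Work.MP_e9e200_al.O3

open Set Metric Topology OnePoint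

namespace XFACC

/-- the tail of a vector -/
def tl {n : ℕ} (x : E (n + 1)) : E n := fun i => x i.succ

theorem tl_cont {n : ℕ} : Continuous (tl : E (n + 1) → E n) := by
  unfold tl; fun_prop

theorem norm_le_max {n : ℕ} (x : E (n + 1)) : ‖x‖ ≤ max |x 0| ‖tl x‖ := by
  refine (pi_norm_le_iff_of_nonneg (le_max_of_le_left (abs_nonneg _))).2 ?_
  intro i
  refine Fin.cases ?_ (fun i => ?_) i
  · exact le_max_left _ _
  · exact le_max_of_le_right (norm_le_pi_norm (tl x) i)

theorem abs_le_norm {n : ℕ} (x : E (n + 1)) : |x 0| ≤ ‖x‖ := norm_le_pi_norm x 0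

theorem comb_inf {k n : ℕ} (τ : ℝ) : comb (∞ : W k n) τ = ∞ := rfl

theorem comb_big {k n : ℕ} (w : W k n) (τ : ℝ) (h : ¬ |τ| < 1) : comb w τ = ∞ := by
  unfold comb
  induction w using OnePoint.rec with
  | infty => rfl
  | coe p => simp [h]

theorem fac_one {n : ℕ} {Z : Type} (z : Z) (F : E n → Z) (x : E (n + 1)) (h : x 0 = 1) :
    fac z F x = F (tl x) := by
  unfold fac; rw [if_pos h]; rfl

theorem fac_ne {n : ℕ} {Z : Type} (z : Z) (F : E n → Z) (x : E (n + 1)) (h : x 0 ≠ 1) :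
    fac z F x = z := by
  unfold fac; rw [if_neg h]

theorem part1 {k n : ℕ} (f : E n → W k n) (hf : Lo ∞ f) :
    ContinuousOn (fac ∞ f) (sphere 0 1) := by
  have hcov : (sphere (0 : E (n + 1)) 1) =
      (sphere 0 1 ∩ {x | 0 ≤ x 0}) ∪ (sphere 0 1 ∩ {x | x 0 ≤ 0}) := by
    ext x
    constructor
    · intro hx
      rcases le_total 0 (x 0) with h | h
      · exact Or.inl ⟨hx, h⟩
      · exact Or.inr ⟨hx, h⟩
    · rintro (h | h) <;> exact h.1
  rw [hcov]
  refine ContinuousOn.union_of_isClosed ?_ ?_ ?_ ?_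
  · refine ((hf.1.comp tl_cont).continuousOn (s := _)).congr ?_
    rintro x ⟨hx, h0⟩
    by_cases h1 : x 0 = 1
    · exact fac_one _ _ _ h1
    · rw [fac_ne _ _ _ h1]
      refine (hf.2 _ ?_).symm
      have hn : ‖x‖ = 1 := by simpa using hx
      have h2 : |x 0| ≤ 1 := hn ▸ abs_le_norm x
      have h3 : |x 0| = x 0 := abs_of_nonneg h0
      have h4 := norm_le_max x
      rw [hn, h3] at h4
      rcases le_max_iff.1 h4 with h5 | h5
      · exact absurd (le_antisymm (h3 ▸ h2) h5) h1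
      · exact h5
  · refine (continuousOn_const (c := (∞ : W k n))).congr ?_
    rintro x ⟨_, h0⟩
    refine fac_ne _ _ _ ?_
    have : x 0 ≤ 0 := h0
    intro h; rw [h] at this; norm_num at this
  · exact isClosed_sphere.inter (isClosed_le continuous_const (continuous_apply 0))
  · exact isClosed_sphere.inter (isClosed_le (continuous_apply 0) continuous_const)

/-- the parameter in the unit interval -/
noncomputable def cl01 (t : ℝ) : ℝ := max 0 (min 1 t)

theorem cl01_nonneg (t : ℝ) : 0 ≤ cl01 t := le_max_left _ _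

theorem cl01_le (t : ℝ) : cl01 t ≤ 1 := max_le zero_le_one (min_le_left _ _)

theorem cl01_cont : Continuous cl01 := by unfold cl01; fun_prop

/-- the denominator -/
noncomputable def dn {n : ℕ} (p : ℝ × E (n + 1)) : ℝ := (1 - cl01 p.1) * p.2 0 + cl01 p.1

theorem dn_cont {n : ℕ} : Continuous (dn : ℝ × E (n + 1) → ℝ) := by
  unfold dn
  have := cl01_cont
  fun_prop

theorem dn_pos {n : ℕ} (p : ℝ × E (n + 1)) (h : 0 < p.2 0) : 0 < dn p := by
  unfold dn
  have h1 := cl01_nonneg p.1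
  have h2 := cl01_le p.1
  rcases h1.eq_or_lt with h3 | h3
  · rw [← h3]; simpa using h
  · have : 0 ≤ (1 - cl01 p.1) * p.2 0 := mul_nonneg (by linarith) h.le
    linarith

theorem dn_le {n : ℕ} (p : ℝ × E (n + 1)) (h : p.2 0 ≤ 1) : dn p ≤ 1 := by
  unfold dn
  have h1 := cl01_nonneg p.1
  have h2 := cl01_le p.1
  nlinarith

theorem abs_lt_iff' (s : ℝ) : |2 * s - 1| < 1 ↔ 0 < s ∧ s < 1 := by
  rw [abs_lt]
  constructor
  · rintro ⟨h1, h2⟩; constructor <;> linarith
  · rintro ⟨h1, h2⟩; constructor <;> linarith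

theorem f_big {k n : ℕ} (f : E n → W k n) (hf : Lo ∞ f) (x : E n) (s : ℝ) (hs : 0 < s)
    (h : s ≤ ‖x‖) : f (s⁻¹ • x) = ∞ := by
  refine hf.2 _ ?_
  rw [norm_smul, norm_inv, Real.norm_of_nonneg hs.le, inv_mul_eq_div, le_div_iff₀ hs]
  linarith

end XFACC

open XFACC in
theorem I_FACC (hCOMB : StCOMB) (hHO : StHO) (hSUSC : StSUSC) : StFACC := by
  intro k n f hf
  refine ⟨part1 f hf, ?_⟩
  refine ⟨fun p => comb (f ((dn p)⁻¹ • tl p.2)) (2 * p.2 0 - 1), ?_, ⟨1, ?_⟩, ?_, ?_⟩
  · refine hCOMB (ℝ × E (n + 1)) k n (fun p => f ((dn p)⁻¹ • tl p.2)) (fun p => 2 * p.2 0 - 1)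
      (by fun_prop) ?_
    refine hf.1.comp_continuousOn ?_
    have h1 : ContinuousOn (fun p : ℝ × E (n + 1) => (dn p)⁻¹) {p | |2 * p.2 0 - 1| < 1} :=
      dn_cont.continuousOn.inv₀ fun p hp => (dn_pos p ((abs_lt_iff' _).1 hp).1).ne'
    have h2 : ContinuousOn (fun p : ℝ × E (n + 1) => tl p.2) {p | |2 * p.2 0 - 1| < 1} :=
      (tl_cont.comp continuous_snd).continuousOn
    exact h1.smul h2
  · intro t x hx
    show comb (f ((dn (t, x))⁻¹ • tl x)) (2 * x 0 - 1) = ∞
    by_cases h : |2 * x 0 - 1| < 1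
    · obtain ⟨h0, h1⟩ := (abs_lt_iff' _).1 h
      rw [f_big f hf (tl x) (dn (t, x)) (dn_pos _ h0) ?_]
      · rfl
      · have h2 := hx.trans (norm_le_max x)
        rw [abs_of_pos h0] at h2
        rcases le_max_iff.1 h2 with h3 | h3
        · linarith
        · exact (dn_le (t, x) h1.le).trans h3
    · exact comb_big _ _ h
  · intro x
    show comb (f ((dn ((0 : ℝ), x))⁻¹ • tl x)) (2 * x 0 - 1) = Sus (fac ∞ f) x
    have hd : dn ((0 : ℝ), x) = x 0 := by simp [dn, cl01]
    rw [hd]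
    unfold Sus
    rcases le_or_gt (x 0) 0 with h0 | h0
    · rw [comb_big _ _ (fun h => by have := ((abs_lt_iff' _).1 h).1; linarith)]
      rw [fac_ne]
      · rfl
      · intro h
        have h1 : ‖x‖⁻¹ * x 0 = 1 := h
        have h2 : ‖x‖⁻¹ * x 0 ≤ 0 :=
          mul_nonpos_of_nonneg_of_nonpos (inv_nonneg.2 (norm_nonneg x)) h0
        linarith
    · have ha := abs_le_norm x
      rw [abs_of_pos h0] at ha
      rcases ha.eq_or_lt with h1 | h1
      · have hn : ‖x‖ ≠ 0 := by rw [← h1]; exact h0.ne'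
        rw [fac_one]
        · rw [← h1]; rfl
        · show ‖x‖⁻¹ * x 0 = 1
          rw [h1]; exact inv_mul_cancel₀ hn
      · have hn : 0 < ‖x‖ := h0.trans h1
        rw [fac_ne]
        · rw [f_big f hf (tl x) (x 0) h0 ?_]
          · rfl
          · have h2 := norm_le_max x
            rw [abs_of_pos h0] at h2
            rcases le_max_iff.1 h2 with h3 | h3
            · linarith
            · linarith
        · intro h
          have h4 : ‖x‖⁻¹ * x 0 = 1 := h
          rw [inv_mul_eq_div, div_eq_one_iff_eq hn.ne'] at h4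
          linarith
  · intro x
    show comb (f ((dn ((1 : ℝ), x))⁻¹ • tl x)) (2 * x 0 - 1)
      = comb (f (fun i => x i.succ)) (2 * x 0 - 1)
    have hd : dn ((1 : ℝ), x) = 1 := by simp [dn, cl01]
    rw [hd, inv_one, one_smul]
    rfl

end Pool.Agent.Work.MP_e9e200_al.O3

end

section

/-!
# Project O3, item GLP
-/

set_option autoImplicit false

namespace Pool.Agent.Work.MP_e9e200_al.O3

open Set Metric Topology OnePoint

namespace XGLP

variable {m : ℕ}

/-- the invertible matrices -/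
def S (m : ℕ) : Set (Matrix (Fin m) (Fin m) ℝ) := {M | M.det ≠ 0}

theorem joined_mul {A A' B B' : Matrix (Fin m) (Fin m) ℝ} (h : JoinedIn (S m) A A')
    (h' : JoinedIn (S m) B B') : JoinedIn (S m) (A * B) (A' * B') := by
  obtain ⟨γ, hγ⟩ := h
  obtain ⟨γ', hγ'⟩ := h'
  refine ⟨⟨⟨fun t => γ t * γ' t, ?_⟩, ?_, ?_⟩, ?_⟩
  · exact γ.continuous.matrix_mul γ'.continuous
  · simp
  · simp
  · intro t
    show (γ t * γ' t).det ≠ 0
    rw [Matrix.det_mul]
    exact mul_ne_zero (hγ t) (hγ' t)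

/-- the reflection in the vector `v` -/
noncomputable def Rf (v : Fin m → ℝ) : Matrix (Fin m) (Fin m) ℝ :=
  1 - (2 / (v ⬝ᵥ v)) • Matrix.vecMulVec v v

theorem Rf_sq (v : Fin m → ℝ) (hv : v ⬝ᵥ v ≠ 0) : Rf v * Rf v = 1 := by
  unfold Rf
  have h1 : Matrix.vecMulVec v v * Matrix.vecMulVec v v = (v ⬝ᵥ v) • Matrix.vecMulVec v v := by
    rw [Matrix.vecMulVec_mul_vecMulVec]
    ext i j
    simp [Matrix.vecMulVec_apply, Matrix.smul_apply, smul_eq_mul]
    ring
  rw [sub_mul, mul_sub, mul_sub, one_mul, mul_one, one_mul, Matrix.smul_mul, Matrix.mul_smul, h1,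
    smul_smul, smul_smul]
  have h2 : 2 / (v ⬝ᵥ v) * (2 / (v ⬝ᵥ v)) * (v ⬝ᵥ v) = 2 / (v ⬝ᵥ v) + 2 / (v ⬝ᵥ v) := by
    field_simp
    norm_num
  rw [h2, add_smul]
  abel

theorem Rf_mem (v : Fin m → ℝ) (hv : v ⬝ᵥ v ≠ 0) : Rf v ∈ S m := by
  intro h
  have h1 : (Rf v * Rf v).det = 1 := by rw [Rf_sq v hv, Matrix.det_one]
  rw [Matrix.det_mul, h, zero_mul] at h1
  exact zero_ne_one h1

theorem Rf_single (i : Fin m) : Rf (Pi.single i (1 : ℝ)) =
    Matrix.diagonal (Function.update 1 i (-1)) := by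
  unfold Rf
  have h1 : (Pi.single i (1 : ℝ)) ⬝ᵥ (Pi.single i (1 : ℝ)) = 1 := by simp
  rw [h1]
  ext a b
  rw [Matrix.sub_apply, Matrix.smul_apply, Matrix.vecMulVec_apply, smul_eq_mul]
  by_cases hab : a = b
  · subst hab
    rw [Matrix.one_apply_eq, Matrix.diagonal_apply_eq]
    by_cases hai : a = i
    · subst hai
      simp
      norm_num
    · simp [hai]
  · rw [Matrix.one_apply_ne hab, Matrix.diagonal_apply_ne _ hab]
    by_cases hai : a = i
    · subst hai
      simp [Ne.symm hab]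
    · simp [hai]

theorem joined_Rf (i j : Fin m) : JoinedIn (S m) (Rf (Pi.single i (1 : ℝ)))
    (Rf (Pi.single j (1 : ℝ))) := by
  set v : ℝ → Fin m → ℝ := fun t => (1 - t) • Pi.single i (1 : ℝ) + t • Pi.single j (1 : ℝ)
    with hv
  have hvc : Continuous v := by
    rw [hv]
    fun_prop
  have hne : ∀ t ∈ Icc (0 : ℝ) 1, v t ⬝ᵥ v t ≠ 0 := by
    intro t ht h
    have h0 : v t = 0 := dotProduct_self_eq_zero.1 h
    have hi := congrFun h0 i
    have hj := congrFun h0 j
    by_cases hij : i = j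
    · subst hij
      simp [hv] at hi
    · simp [hv, hij, Ne.symm hij] at hi hj
      linarith
  have hc : ContinuousOn (fun t : ℝ => Rf (v t)) (Icc 0 1) := by
    unfold Rf
    refine continuousOn_const.sub (ContinuousOn.fun_smul ?_ ?_)
    · refine ContinuousOn.div continuousOn_const ?_ hne
      exact (hvc.dotProduct hvc).continuousOn
    · refine (continuous_matrix fun a b => ?_).continuousOn
      simp only [Matrix.vecMulVec_apply]
      exact ((continuous_apply a).comp hvc).mul ((continuous_apply b).comp hvc)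
  refine ⟨⟨⟨fun t => Rf (v t), ?_⟩, ?_, ?_⟩, ?_⟩
  · exact hc.comp_continuous continuous_subtype_val fun t => t.2
  · show Rf (v ((0 : unitInterval) : ℝ)) = _
    congr 1
    simp [hv]
  · show Rf (v ((1 : unitInterval) : ℝ)) = _
    congr 1
    simp [hv]
  · intro t
    exact Rf_mem _ (hne t t.2)

/-- a segment of diagonal matrices -/
theorem joined_diag (D D' : Fin m → ℝ) (h : ∀ i, 0 < D i * D' i) :
    JoinedIn (S m) (Matrix.diagonal D) (Matrix.diagonal D') := by
  refine ⟨⟨⟨fun t => Matrix.diagonal (fun i => (1 - (t : ℝ)) * D i + t * D' i), ?_⟩, ?_, ?_⟩, ?_⟩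
  · refine Continuous.matrix_diagonal (continuous_pi fun i => ?_)
    fun_prop
  · simp
  · simp
  · intro t
    show (Matrix.diagonal _).det ≠ 0
    rw [Matrix.det_diagonal]
    refine Finset.prod_ne_zero_iff.2 fun i _ => ?_
    have h0 := t.2.1
    have h1 := t.2.2
    rcases pos_and_pos_or_neg_and_neg_of_mul_pos (h i) with ⟨a, b⟩ | ⟨a, b⟩
    · have : 0 < (1 - (t : ℝ)) * D i + t * D' i := by
        rcases h0.eq_or_lt with h2 | h2
        · rw [← h2]
          simpa using a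
        · have := mul_pos h2 b
          have := mul_nonneg (sub_nonneg.2 h1) a.le
          linarith
      exact this.ne'
    · have : (1 - (t : ℝ)) * D i + t * D' i < 0 := by
        rcases h0.eq_or_lt with h2 | h2
        · rw [← h2]
          simpa using a
        · have := mul_neg_of_pos_of_neg h2 b
          have := mul_nonpos_of_nonneg_of_nonpos (sub_nonneg.2 h1) a.le
          linarith
      exact this.ne

/-- the property -/
def P (n : ℕ) (M : Matrix (Fin (n + 1)) (Fin (n + 1)) ℝ) : Prop :=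
  JoinedIn (S (n + 1)) M 1 ∨ JoinedIn (S (n + 1)) M (Rf (Pi.single 0 (1 : ℝ)))

theorem P_mul {n : ℕ} {A B : Matrix (Fin (n + 1)) (Fin (n + 1)) ℝ} (hA : P n A) (hB : P n B) :
    P n (A * B) := by
  have hR := Rf_sq (Pi.single (0 : Fin (n + 1)) (1 : ℝ)) (by simp)
  rcases hA with hA | hA <;> rcases hB with hB | hB
  · left
    simpa using joined_mul hA hB
  · right
    simpa using joined_mul hA hB
  · right
    simpa using joined_mul hA hB
  · left
    have := joined_mul hA hB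
    rwa [hR] at this

theorem P_one {n : ℕ} : P n 1 := Or.inl (JoinedIn.refl (by show Matrix.det _ ≠ 0; simp))

theorem P_upd {n : ℕ} (i : Fin (n + 1)) (d : ℝ) (hd : d ≠ 0) :
    P n (Matrix.diagonal (Function.update 1 i d)) := by
  rcases lt_or_gt_of_ne hd with h | h
  · right
    refine (joined_diag _ (Function.update 1 i (-1)) fun j => ?_).trans ?_
    · by_cases hj : j = i
      · subst hj
        simp only [Function.update_self]
        linarith
      · simp [hj]
    · rw [← Rf_single]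
      exact joined_Rf i 0
  · left
    rw [← Matrix.diagonal_one]
    refine joined_diag _ _ fun j => ?_
    by_cases hj : j = i
    · subst hj
      simpa using h
    · simp [hj]

theorem P_diag {n : ℕ} (D : Fin (n + 1) → ℝ) (hD : ∀ i, D i ≠ 0) : P n (Matrix.diagonal D) := by
  classical
  have key : ∀ s : Finset (Fin (n + 1)),
      P n (Matrix.diagonal (fun i => if i ∈ s then D i else 1)) := by
    intro s
    induction s using Finset.induction with
    | empty =>
      simpa using (P_one (n := n))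
    | insert a s ha ih =>
      have h1 := P_mul (P_upd a (D a) (hD a)) ih
      rw [Matrix.diagonal_mul_diagonal] at h1
      have h2 : (fun i => if i ∈ insert a s then D i else 1) =
          fun i => Function.update (1 : Fin (n + 1) → ℝ) a (D a) i * if i ∈ s then D i else 1 := by
        funext i
        by_cases hi : i = a
        · subst hi
          simp [ha]
        · simp [hi]
      rw [h2]
      exact h1
  simpa using key Finset.univ

theorem P_trans {n : ℕ} (t : Matrix.TransvectionStruct (Fin (n + 1)) ℝ) : P n t.toMatrix := by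
  left
  refine ⟨⟨⟨fun s => Matrix.transvection t.i t.j ((1 - (s : ℝ)) * t.c), ?_⟩, ?_, ?_⟩, ?_⟩
  · unfold Matrix.transvection
    refine continuous_const.add ?_
    refine continuous_matrix fun a b => ?_
    simp only [Matrix.single_apply]
    split_ifs
    · fun_prop
    · exact continuous_const
  · simp [Matrix.TransvectionStruct.toMatrix]
  · simp [Matrix.transvection]
  · intro s
    show (Matrix.transvection t.i t.j ((1 - (s : ℝ)) * t.c)).det ≠ 0
    rw [Matrix.det_transvection_of_ne _ _ t.hij]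
    exact one_ne_zero

theorem P_all {n : ℕ} (M : Matrix (Fin (n + 1)) (Fin (n + 1)) ℝ) (hM : M.det ≠ 0) : P n M := by
  refine Matrix.diagonal_transvection_induction_of_det_ne_zero (P n) M hM ?_ P_trans ?_
  · intro D hD
    refine P_diag D fun i hi => hD ?_
    rw [Matrix.det_diagonal]
    exact Finset.prod_eq_zero (Finset.mem_univ i) hi
  · intro A B _ _ hA hB
    exact P_mul hA hB

end XGLP

theorem I_GLP : StGLP := by
  intro n L
  set M : Matrix (Fin (n + 1)) (Fin (n + 1)) ℝ :=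
    LinearMap.toMatrix' (L.toLinearEquiv : E (n + 1) →ₗ[ℝ] E (n + 1)) with hM
  have hdet : M.det ≠ 0 := by
    rw [hM, LinearMap.det_toMatrix']
    exact (LinearEquiv.isUnit_det' L.toLinearEquiv).ne_zero
  have key : ∀ M' : Matrix (Fin (n + 1)) (Fin (n + 1)) ℝ, JoinedIn (XGLP.S (n + 1)) M M' →
      ∃ (Λ : ℝ → (E (n + 1) →L[ℝ] E (n + 1))) (δ : ℝ), Continuous Λ ∧ 0 < δ ∧
        (∀ t x, δ * ‖x‖ ≤ ‖Λ t x‖) ∧ Λ 0 = (L : E (n + 1) →L[ℝ] E (n + 1)) ∧
        ∀ x, Λ 1 x = M'.mulVec x := by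
    rintro M' ⟨γ, hγ⟩
    let T : Matrix (Fin (n + 1)) (Fin (n + 1)) ℝ →ₗ[ℝ] (E (n + 1) →L[ℝ] E (n + 1)) :=
      (LinearMap.toContinuousLinearMap (𝕜 := ℝ) (E := E (n + 1)) (F' := E (n + 1))).toLinearMap ∘ₗ
        (Matrix.toLin' (R := ℝ) (m := Fin (n + 1)) (n := Fin (n + 1))).toLinearMap
    have hT : ∀ (A : Matrix (Fin (n + 1)) (Fin (n + 1)) ℝ) (x : E (n + 1)),
        T A x = A.mulVec x := fun A x => rfl
    have hTc : Continuous T := T.continuous_of_finiteDimensional
    have hΛ : Continuous (fun t : ℝ => T (γ.extend t)) := hTc.comp γ.continuous_extend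
    -- the minimum
    have hK : IsCompact (Icc (0 : ℝ) 1 ×ˢ sphere (0 : E (n + 1)) 1) :=
      isCompact_Icc.prod (isCompact_sphere _ _)
    have hne : (Icc (0 : ℝ) 1 ×ˢ sphere (0 : E (n + 1)) 1).Nonempty := by
      refine ⟨(0, fun _ => 1), ⟨by norm_num, by norm_num⟩, ?_⟩
      rw [mem_sphere_zero_iff_norm]
      simp [pi_norm_const]
    have hcont : Continuous (fun p : ℝ × E (n + 1) => ‖T (γ.extend p.1) p.2‖) := by
      refine continuous_norm.comp ?_
      exact (hΛ.comp continuous_fst).clm_apply continuous_snd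
    obtain ⟨⟨t0, x0⟩, ⟨ht0, hx0⟩, hmin⟩ := hK.exists_isMinOn hne hcont.continuousOn
    refine ⟨fun t => T (γ.extend t), ‖T (γ.extend t0) x0‖, hΛ, ?_, ?_, ?_, ?_⟩
    · rw [norm_pos_iff]
      intro h0
      have hx : x0 ≠ 0 := by
        intro h
        rw [h, mem_sphere_zero_iff_norm, norm_zero] at hx0
        exact zero_ne_one hx0
      have hd : (γ.extend t0).det ≠ 0 := by
        rw [γ.extend_apply ht0]
        exact hγ _
      rw [hT] at h0
      exact hx (Matrix.eq_zero_of_mulVec_eq_zero hd h0)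
    · intro t x
      have hproj : γ.extend t = γ.extend (Set.projIcc 0 1 zero_le_one t : ℝ) := by
        rw [Path.extend_apply γ (Set.projIcc 0 1 zero_le_one t).2]
        rfl
      rcases eq_or_ne x 0 with rfl | hx
      · simp
      · have hn : 0 < ‖x‖ := norm_pos_iff.2 hx
        have h1 := hmin (a := ((Set.projIcc 0 1 zero_le_one t : ℝ), (‖x‖)⁻¹ • x))
          ⟨(Set.projIcc 0 1 zero_le_one t).2, by
            rw [mem_sphere_zero_iff_norm, norm_smul, norm_inv, norm_norm,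
              inv_mul_cancel₀ hn.ne']⟩
        have h2 : ‖T (γ.extend t0) x0‖ ≤
            ‖T (γ.extend (Set.projIcc 0 1 zero_le_one t : ℝ)) ((‖x‖)⁻¹ • x)‖ := h1
        rw [_root_.map_smul, norm_smul, norm_inv, norm_norm, ← hproj] at h2
        calc ‖T (γ.extend t0) x0‖ * ‖x‖ ≤ (‖x‖⁻¹ * ‖T (γ.extend t) x‖) * ‖x‖ :=
              mul_le_mul_of_nonneg_right h2 hn.le
          _ = ‖T (γ.extend t) x‖ := by
              field_simp
    · show T (γ.extend 0) = _
      rw [γ.extend_zero]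
      ext x : 1
      rw [hT, hM]
      have := LinearMap.toMatrix'_mulVec (L.toLinearEquiv : E (n + 1) →ₗ[ℝ] E (n + 1)) x
      rw [this]
      rfl
    · intro x
      show T (γ.extend 1) x = _
      rw [γ.extend_one, hT]
  rcases XGLP.P_all M hdet with h | h
  · obtain ⟨Λ, δ, h1, h2, h3, h4, h5⟩ := key _ h
    refine ⟨Λ, δ, h1, h2, h3, h4, Or.inl fun x => ?_⟩
    rw [h5, Matrix.one_mulVec]
  · obtain ⟨Λ, δ, h1, h2, h3, h4, h5⟩ := key _ h
    refine ⟨Λ, δ, h1, h2, h3, h4, Or.inr fun x => ?_⟩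
    rw [h5, XGLP.Rf_single]
    funext i
    rw [Matrix.mulVec_diagonal]
    unfold mir
    by_cases hi : i = 0
    · subst hi
      simp
    · simp [hi]

end Pool.Agent.Work.MP_e9e200_al.O3

end

section

/-!
# Project O3: item HGLUE (homotopies of maps with disjoint supports)
-/

set_option autoImplicit false

namespace Pool.Agent.Work.MP_e9e200_al.O3

open Set Metric Topology OnePoint

namespace XHGLUE

open scoped Classical in
/-- the union of finitely many maps with disjoint supports -/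
noncomputable def un {P Z : Type} {r : ℕ} (z : Z) (H : Fin r → P → Z) (p : P) : Z :=
  if h : ∃ i, H i p ≠ z then H h.choose p else z

lemma un_of_all {P Z : Type} {r : ℕ} {z : Z} {H : Fin r → P → Z} {p : P}
    (h : ∀ i, H i p = z) : un z H p = z := by
  unfold un
  rw [dif_neg]
  push Not
  exact h

lemma un_spec {P Z : Type} {r : ℕ} (z : Z) (H : Fin r → P → Z) (p : P)
    (h : ∃ i, H i p ≠ z) : ∃ i, H i p ≠ z ∧ un z H p = H i p := by
  refine ⟨h.choose, h.choose_spec, ?_⟩
  unfold un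
  rw [dif_pos h]

lemma un_eq {P Z : Type} {r : ℕ} {z : Z} {H : Fin r → P → Z}
    (hd : ∀ i j, i ≠ j → ∀ p, H i p = z ∨ H j p = z) {p : P} {i : Fin r} (h : H i p ≠ z) :
    un z H p = H i p := by
  obtain ⟨j, hj, he⟩ := un_spec z H p ⟨i, h⟩
  by_cases hij : i = j
  · rw [hij]; exact he
  · rcases hd i j hij p with h1 | h1
    · exact absurd h1 h
    · exact absurd h1 hj

lemma un_cont {P Z : Type} [TopologicalSpace P] [TopologicalSpace Z] [T1Space Z] {r : ℕ} {z : Z}
    {H : Fin r → P → Z} (hc : ∀ i, Continuous (H i))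
    (hd : ∀ i j, i ≠ j → ∀ p, H i p = z ∨ H j p = z) : Continuous (un z H) := by
  rw [continuous_iff_continuousAt]
  intro p
  by_cases hp : ∃ i, H i p ≠ z
  · obtain ⟨i, hi⟩ := hp
    have ho : IsOpen {q | H i q ≠ z} := (isOpen_compl_singleton (x := z)).preimage (hc i)
    have he : un z H =ᶠ[𝓝 p] H i := by
      filter_upwards [ho.mem_nhds hi] with q hq
      exact un_eq hd hq
    exact (hc i).continuousAt.congr he.symm
  · push Not at hp
    unfold ContinuousAt
    rw [un_of_all hp]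
    intro N hN
    have h1 : ∀ᶠ q in 𝓝 p, ∀ i, H i q ∈ N := by
      rw [Filter.eventually_all]
      intro i
      have h2 : Filter.Tendsto (H i) (𝓝 p) (𝓝 z) := by
        have := (hc i).continuousAt (x := p)
        unfold ContinuousAt at this
        rwa [hp i] at this
      exact h2 hN
    rw [Filter.mem_map]
    filter_upwards [h1] with q hq
    by_cases hq2 : ∃ i, H i q ≠ z
    · obtain ⟨i, _, he⟩ := un_spec z H q hq2
      show un z H q ∈ N
      rw [he]
      exact hq i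
    · push Not at hq2
      show un z H q ∈ N
      rw [un_of_all hq2]
      exact mem_of_mem_nhds hN

end XHGLUE

open XHGLUE in
theorem I_HGLUE : StHGLUE := by
  intro n Z _ _ z r H hc hs hd f g hf0 hf1 hg0 hg1
  refine ⟨un z H, un_cont hc hd, ?_, ?_, ?_⟩
  · obtain ⟨ρ, hρ⟩ := hs
    exact ⟨ρ, fun t x hx => un_of_all fun i => hρ i t x hx⟩
  · intro x
    by_cases h : ∃ i, H i (0, x) ≠ z
    · obtain ⟨i, hi, he⟩ := un_spec z H (0, x) h
      rw [he]
      exact ((hf1 i x).resolve_left hi).symm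
    · push Not at h
      rw [un_of_all h, hf0 x h]
  · intro x
    by_cases h : ∃ i, H i (1, x) ≠ z
    · obtain ⟨i, hi, he⟩ := un_spec z H (1, x) h
      rw [he]
      exact ((hg1 i x).resolve_left hi).symm
    · push Not at h
      rw [un_of_all h, hg0 x h]

end Pool.Agent.Work.MP_e9e200_al.O3

end

section

/-!
# O3, item STOK: the discrete theorem of Stokes
-/

set_option autoImplicit false

namespace Pool.Agent.Work.MP_e9e200_al.O3

namespace XSTOK

open Equiv

/-- split off the time -/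
def F {n : ℕ} (y : Fin (n + 1) → ℤ) : ℤ × (Fin n → ℤ) := (y 0, fun j => y j.succ)

/-- space-time point -/
def co {n : ℕ} (t : ℤ) (p : Fin n → ℤ) : Fin (n + 1) → ℤ := Fin.cons t p

lemma fs {n : ℕ} (K : (Fin (n + 1) → (ℤ × (Fin n → ℤ))) → ℤ) (M : ℤ)
    (hM : ∀ v, (∃ i j, M ≤ |(v i).2 j|) → K v = 0)
    (v : (Fin n → ℤ) → Fin (n + 1) → (ℤ × (Fin n → ℤ)))
    (hv : ∀ p i j, |(v p i).2 j - p j| ≤ 1) : (Function.support fun p => K (v p)).Finite := by
  refine Set.Finite.subset (Set.Finite.pi' (fun _ : Fin n => Set.finite_Icc (-M - 1) (M + 1))) ?_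
  intro p hp j
  by_contra hc
  apply hp
  apply hM
  refine ⟨0, j, ?_⟩
  have h1 := hv p 0 j
  rw [Set.mem_Icc, not_and_or] at hc
  rw [abs_le] at h1
  rw [le_abs]
  rcases hc with hc | hc <;> omega

/-- the vertices of the simplices of space-time -/
def w {n : ℕ} (t : ℤ) (π : Perm (Fin (n + 1))) (p : Fin n → ℤ) (i : Fin (n + 2)) :
    ℤ × (Fin n → ℤ) := F (vx (co t p) π i)

lemma w2 {n : ℕ} (t : ℤ) (π : Perm (Fin (n + 1))) (p : Fin n → ℤ) (i : Fin (n + 2)) (j : Fin n) :
    (w t π p i).2 j = p j + if (π.symm j.succ).castSucc < i then 1 else 0 := rfl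

lemma w1 {n : ℕ} (t : ℤ) (π : Perm (Fin (n + 1))) (p : Fin n → ℤ) (i : Fin (n + 2)) :
    (w t π p i).1 = t + if (π.symm 0).castSucc < i then 1 else 0 := rfl

lemma fsw {n : ℕ} (K : (Fin (n + 1) → (ℤ × (Fin n → ℤ))) → ℤ) (M t : ℤ)
    (hM : ∀ v, (∃ i j, M ≤ |(v i).2 j|) → K v = 0) (π : Perm (Fin (n + 1)))
    (u : Fin (n + 1) → Fin (n + 2)) :
    (Function.support fun p => K (fun j => w t π p (u j))).Finite := by
  refine fs K M hM _ ?_
  intro p i j
  rw [w2]
  split_ifs <;> simp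

/-- the sum of the faces of number `i` -/
noncomputable def T {n : ℕ} (K : (Fin (n + 1) → (ℤ × (Fin n → ℤ))) → ℤ) (t : ℤ)
    (u : Fin (n + 1) → Fin (n + 2)) : ℤ :=
  ∑ π : Perm (Fin (n + 1)), (Perm.sign π : ℤ) * ∑ᶠ p, K (fun j => w t π p (u j))

lemma sumT {n : ℕ} (K : (Fin (n + 1) → (ℤ × (Fin n → ℤ))) → ℤ) (M t : ℤ)
    (hM : ∀ v, (∃ i j, M ≤ |(v i).2 j|) → K v = 0)
    (hK : ∀ v : Fin (n + 2) → (ℤ × (Fin n → ℤ)), (∀ i, (v i).1 = t ∨ (v i).1 = t + 1) →
      (∀ i j l, |(v i).2 l - (v j).2 l| ≤ 1) →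
      ∑ i : Fin (n + 2), (-1) ^ (i : ℕ) * K (fun j => v (i.succAbove j)) = 0) :
    ∑ i : Fin (n + 2), (-1) ^ (i : ℕ) * T K t i.succAbove = 0 := by
  have h0 : ∀ (π : Perm (Fin (n + 1))) (p : Fin n → ℤ),
      ∑ i : Fin (n + 2), (-1) ^ (i : ℕ) * K (fun j => w t π p (i.succAbove j)) = 0 := by
    intro π p
    refine hK (w t π p) ?_ ?_
    · intro i
      rw [w1]
      split_ifs <;> simp
    · intro i j l
      rw [w2, w2]
      split_ifs <;> simp
  have h1 : ∀ π : Perm (Fin (n + 1)),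
      ∑ i : Fin (n + 2), (-1) ^ (i : ℕ) * ∑ᶠ p, K (fun j => w t π p (i.succAbove j)) = 0 := by
    intro π
    have h2 : ∀ i : Fin (n + 2), (-1) ^ (i : ℕ) * ∑ᶠ p, K (fun j => w t π p (i.succAbove j)) =
        ∑ᶠ p, (-1) ^ (i : ℕ) * K (fun j => w t π p (i.succAbove j)) := fun i =>
      mul_finsum _ _
    rw [Finset.sum_congr rfl fun i _ => h2 i, ← finsum_sum_comm]
    · simp_rw [h0 π]
      simp
    · intro i _
      refine (fsw K M t hM π i.succAbove).subset ?_
      intro p hp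
      rw [Function.mem_support] at hp ⊢
      exact right_ne_zero_of_mul hp
  unfold T
  simp_rw [Finset.mul_sum]
  rw [Finset.sum_comm]
  refine Finset.sum_eq_zero fun π _ => ?_
  have h3 := h1 π
  calc _ = (Perm.sign π : ℤ) *
        ∑ i : Fin (n + 2), (-1) ^ (i : ℕ) * ∑ᶠ p, K (fun j => w t π p (i.succAbove j)) := by
        rw [Finset.mul_sum]
        exact Finset.sum_congr rfl fun i _ => by ring
    _ = 0 := by rw [h3, mul_zero]

lemma wswap {n : ℕ} (t : ℤ) (π : Perm (Fin (n + 1))) (p : Fin n → ℤ) (a : Fin n) (i : Fin (n + 2))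
    (hi : i ≠ a.castSucc.succ) : w t (π * swap a.castSucc a.succ) p i = w t π p i := by
  have h : ∀ c : Fin (n + 1), (((π * swap a.castSucc a.succ).symm c).castSucc < i ↔
      (π.symm c).castSucc < i) := by
    intro c
    have h1 : (π * swap a.castSucc a.succ).symm c = swap a.castSucc a.succ (π.symm c) := by
      rfl
    rw [h1]
    generalize π.symm c = m
    have hi' : (i : ℕ) ≠ a + 1 := by
      intro h
      apply hi
      apply Fin.ext
      simpa using h
    by_cases h2 : m = a.castSucc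
    · rw [h2, swap_apply_left, Fin.lt_def, Fin.lt_def]
      simp only [Fin.val_castSucc, Fin.val_succ]
      omega
    · by_cases h3 : m = a.succ
      · rw [h3, swap_apply_right, Fin.lt_def, Fin.lt_def]
        simp only [Fin.val_castSucc, Fin.val_succ]
        omega
      · rw [swap_apply_of_ne_of_ne h2 h3]
  refine Prod.ext ?_ (funext fun j => ?_)
  · rw [w1, w1]
    simp only [h]
  · rw [w2, w2]
    simp only [h]

lemma Tmid {n : ℕ} (K : (Fin (n + 1) → (ℤ × (Fin n → ℤ))) → ℤ) (t : ℤ) (a : Fin n) :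
    T K t (a.castSucc.succ).succAbove = 0 := by
  have h1 : T K t (a.castSucc.succ).succAbove = - T K t (a.castSucc.succ).succAbove := by
    conv_lhs => unfold T
    rw [← Equiv.sum_comp (Equiv.mulRight (swap a.castSucc a.succ))]
    unfold T
    rw [← Finset.sum_neg_distrib]
    refine Finset.sum_congr rfl fun π _ => ?_
    simp only [Equiv.coe_mulRight]
    have h2 : (Perm.sign (π * swap a.castSucc a.succ) : ℤ) = - (Perm.sign π : ℤ) := by
      rw [Perm.sign_mul, Perm.sign_swap (by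
        intro h
        have := congrArg Fin.val h
        simp at this)]
      simp
    rw [h2, neg_mul]
    congr 2
    refine finsum_congr fun p => ?_
    congr 1
    funext j
    exact wswap t π p a _ (Fin.succAbove_ne _ _)
  omega

lemma sgnrot {n : ℕ} (π : Perm (Fin (n + 1))) :
    (Perm.sign (π * finRotate (n + 1)) : ℤ) = (-1) ^ n * (Perm.sign π : ℤ) := by
  rw [Perm.sign_mul, sign_finRotate]
  push_cast
  ring

/-- the unit vectors of space-time -/
def ev {n : ℕ} (c : Fin (n + 1)) : Fin (n + 1) → ℤ := Pi.single c 1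

lemma vxrot {n : ℕ} (x : Fin (n + 1) → ℤ) (π : Perm (Fin (n + 1))) (j : Fin (n + 1)) :
    vx x π j.succ = vx (x + ev (π 0)) (π * finRotate (n + 1)) j.castSucc := by
  funext c
  have h1 : (π * finRotate (n + 1)).symm c = (finRotate (n + 1)).symm (π.symm c) := rfl
  unfold vx
  rw [h1]
  obtain ⟨m, rfl⟩ : ∃ m, c = π m := ⟨π.symm c, by simp⟩
  rw [Equiv.symm_apply_apply]
  obtain ⟨l, rfl⟩ : ∃ l, m = finRotate (n + 1) l := ⟨(finRotate (n + 1)).symm m, by simp⟩
  rw [Equiv.symm_apply_apply, Pi.add_apply, ev, Pi.single_apply]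
  simp only [EmbeddingLike.apply_eq_iff_eq]
  rcases Fin.eq_castSucc_or_eq_last l with ⟨l', rfl⟩ | rfl
  · have h2 : finRotate (n + 1) l'.castSucc = l'.succ := by
      rw [finRotate_apply]
      apply Fin.ext
      simp
    rw [h2, if_neg (Fin.succ_ne_zero l'), add_zero]
    congr 1
    refine if_congr ?_ rfl rfl
    rw [Fin.lt_def, Fin.lt_def]
    simp
  · rw [finRotate_last, if_pos rfl, if_pos, if_neg]
    · ring
    · rw [Fin.lt_def]
      simp
      omega
    · rw [Fin.lt_def]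
      simp

/-- the sum of the simplices with directions `π` and base points `x + y`, `y` spatial -/
noncomputable def D {n : ℕ} (K : (Fin (n + 1) → (ℤ × (Fin n → ℤ))) → ℤ)
    (π : Perm (Fin (n + 1))) (x : Fin (n + 1) → ℤ) : ℤ :=
  ∑ᶠ p : Fin n → ℤ, K (fun j => F (vx (x + co 0 p) (π * finRotate (n + 1)) j.castSucc))

lemma co_add {n : ℕ} (t s : ℤ) (p q : Fin n → ℤ) : co t p + co s q = co (t + s) (p + q) := by
  funext c
  refine Fin.cases ?_ (fun j => ?_) c <;> simp [co]

lemma Dsp {n : ℕ} (K : (Fin (n + 1) → (ℤ × (Fin n → ℤ))) → ℤ)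
    (π : Perm (Fin (n + 1))) (x : Fin (n + 1) → ℤ) (q : Fin n → ℤ) :
    D K π (x + co 0 q) = D K π x := by
  have h := finsum_comp_equiv (Equiv.addLeft q) (f := fun p : Fin n → ℤ =>
    K (fun j => F (vx (x + co 0 p) (π * finRotate (n + 1)) j.castSucc)))
  unfold D
  rw [← h]
  refine finsum_congr fun p => ?_
  simp only [Equiv.coe_addLeft]
  rw [add_assoc, co_add, zero_add]

lemma T0 {n : ℕ} (K : (Fin (n + 1) → (ℤ × (Fin n → ℤ))) → ℤ) (t : ℤ) :
    T K t Fin.succ = ∑ π : Perm (Fin (n + 1)), (Perm.sign π : ℤ) * D K π (co t 0 + ev (π 0)) := by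
  unfold T D w
  refine Finset.sum_congr rfl fun π _ => ?_
  congr 1
  refine finsum_congr fun p => ?_
  congr 1
  funext j
  rw [vxrot]
  congr 2
  rw [add_right_comm, co_add, add_zero, zero_add]

lemma Tl {n : ℕ} (K : (Fin (n + 1) → (ℤ × (Fin n → ℤ))) → ℤ) (t : ℤ) :
    T K t Fin.castSucc =
      (-1) ^ n * ∑ π : Perm (Fin (n + 1)), (Perm.sign π : ℤ) * D K π (co t 0) := by
  unfold T D w
  rw [← Equiv.sum_comp (Equiv.mulRight (finRotate (n + 1))), Finset.mul_sum]
  refine Finset.sum_congr rfl fun π _ => ?_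
  simp only [Equiv.coe_mulRight]
  rw [sgnrot, mul_assoc]
  congr 2
  refine finsum_congr fun p => ?_
  congr 1
  funext j
  rw [co_add, add_zero, zero_add]

lemma key {n : ℕ} (K : (Fin (n + 1) → (ℤ × (Fin n → ℤ))) → ℤ) (t : ℤ)
    (h : ∑ i : Fin (n + 2), (-1) ^ (i : ℕ) * T K t i.succAbove = 0) :
    ∑ π : Perm (Fin (n + 1)), (Perm.sign π : ℤ) * D K π (co t 0 + ev (π 0)) =
      ∑ π : Perm (Fin (n + 1)), (Perm.sign π : ℤ) * D K π (co t 0) := by
  rw [Fin.sum_univ_succ, Fin.sum_univ_castSucc] at h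
  have h1 : ∀ a : Fin n, (-1 : ℤ) ^ ((a.castSucc.succ : Fin (n + 2)) : ℕ) *
      T K t (a.castSucc.succ).succAbove = 0 := fun a => by rw [Tmid, mul_zero]
  rw [Finset.sum_eq_zero fun a _ => h1 a] at h
  have h2 : (0 : Fin (n + 2)).succAbove = Fin.succ := by
    funext j
    simp
  have h3 : ((Fin.last n).succ : Fin (n + 2)).succAbove = Fin.castSucc := by
    funext j
    simp
  rw [h2, h3, T0, Tl] at h
  have h4 : (-1 : ℤ) ^ (((Fin.last n).succ : Fin (n + 2)) : ℕ) = - (-1) ^ n := by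
    simp [pow_succ]
  rw [h4] at h
  have h5 : (-1 : ℤ) ^ n * (-1) ^ n = 1 := by
    rw [← pow_add, ← two_mul, pow_mul]
    simp
  have h6 : ∀ s : ℤ, -(-1) ^ n * ((-1) ^ n * s) = -s := fun s => by
    rw [← mul_assoc, neg_mul, h5]
    ring
  rw [h6] at h
  simp only [Fin.val_zero, pow_zero, one_mul, zero_add] at h
  linarith

lemma evsucc {n : ℕ} (j : Fin n) : ev j.succ = co 0 (Pi.single j 1) := by
  funext c
  refine Fin.cases ?_ (fun i => ?_) c
  · simp [ev, co]
  · simp only [ev, co, Fin.cons_succ, Pi.single_apply]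
    simp

lemma evzero {n : ℕ} : (ev 0 : Fin (n + 1) → ℤ) = co 1 0 := by
  funext c
  refine Fin.cases ?_ (fun i => ?_) c
  · simp [ev, co]
  · simp [ev, co]

lemma Dtime {n : ℕ} (K : (Fin (n + 1) → (ℤ × (Fin n → ℤ))) → ℤ) (σ : Perm (Fin n)) (t : ℤ) :
    D K (Perm.decomposeFin.symm (0, σ)) (co t 0) = ∑ᶠ p : Fin n → ℤ, K (fun i => (t, vx p σ i)) := by
  unfold D
  refine finsum_congr fun p => ?_
  congr 1
  funext i
  rw [co_add, add_zero, zero_add]
  have h0 : (Perm.decomposeFin.symm (0, σ) * finRotate (n + 1)).symm 0 = Fin.last n := by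
    rw [Equiv.symm_apply_eq, Perm.mul_apply, finRotate_last]
    simp
  have h1 : ∀ j : Fin n, (Perm.decomposeFin.symm (0, σ) * finRotate (n + 1)).symm j.succ =
      (σ.symm j).castSucc := by
    intro j
    rw [Equiv.symm_apply_eq, Perm.mul_apply]
    have h2 : finRotate (n + 1) (σ.symm j).castSucc = (σ.symm j).succ := by
      rw [finRotate_apply]
      apply Fin.ext
      simp
    rw [h2, Perm.decomposeFin_symm_apply_succ]
    simp
  refine Prod.ext ?_ (funext fun j => ?_)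
  · change (co t p) 0 + (if _ then 1 else 0) = t
    rw [h0, if_neg]
    · simp [co]
    · rw [Fin.lt_def]
      simp
      omega
  · change (co t p) j.succ + (if _ then 1 else 0) = p j + if _ then 1 else 0
    rw [h1]
    simp only [co, Fin.cons_succ]
    congr 1

lemma slc_eq {n : ℕ} (K : (Fin (n + 1) → (ℤ × (Fin n → ℤ))) → ℤ) (M t : ℤ)
    (hM : ∀ v, (∃ i j, M ≤ |(v i).2 j|) → K v = 0) :
    slc K t = ∑ σ : Perm (Fin n), (Perm.sign σ : ℤ) *
      D K (Perm.decomposeFin.symm (0, σ)) (co t 0) := by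
  have h : ∀ σ : Perm (Fin n), (Function.support fun p : Fin n → ℤ =>
      K (fun i => (t, vx p σ i))).Finite := by
    intro σ
    refine fs K M hM _ ?_
    intro p i j
    change |vx p σ i j - p j| ≤ 1
    unfold vx
    split_ifs <;> simp
  unfold slc
  rw [finsum_sum_comm]
  · refine Finset.sum_congr rfl fun σ _ => ?_
    rw [Dtime, mul_finsum]
  · intro σ _
    refine (h σ).subset ?_
    intro p hp
    rw [Function.mem_support] at hp ⊢
    exact right_ne_zero_of_mul hp

end XSTOK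

theorem I_STOK : StSTOK := by
  intro n K M t hM hK
  have h := XSTOK.key K t (XSTOK.sumT K M t hM hK)
  rw [← Equiv.sum_comp Equiv.Perm.decomposeFin.symm, Fintype.sum_prod_type,
    ← Equiv.sum_comp Equiv.Perm.decomposeFin.symm, Fintype.sum_prod_type, Fin.sum_univ_succ,
    Fin.sum_univ_succ] at h
  have h1 : ∀ (j : Fin n) (σ : Equiv.Perm (Fin n)),
      XSTOK.D K (Equiv.Perm.decomposeFin.symm (j.succ, σ)) (XSTOK.co t 0 +
        XSTOK.ev j.succ) =
      XSTOK.D K (Equiv.Perm.decomposeFin.symm (j.succ, σ)) (XSTOK.co t 0) := by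
    intro j σ
    rw [XSTOK.evsucc, XSTOK.Dsp]
  simp only [Equiv.Perm.decomposeFin_symm_apply_zero, h1] at h
  replace h := add_right_cancel h
  rw [XSTOK.slc_eq K M t hM, XSTOK.slc_eq K M (t + 1) hM]
  simp only [XSTOK.evzero, XSTOK.co_add, add_zero, Equiv.Perm.decomposeFin.symm_sign, if_true,
    one_mul] at h
  exact h.symm

end Pool.Agent.Work.MP_e9e200_al.O3

end

section

set_option autoImplicit false

namespace Pool.Agent.Work.MP_e9e200_al.O3

open Set Metric Topology OnePoint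

namespace XSUS0

theorem comb_ge {k n : ℕ} (w : W k n) (τ : ℝ) (h : 1 ≤ |τ|) :
    (comb w τ : W k (n + 1)) = (∞ : W k (n + 1)) := by
  unfold comb
  have h' : ¬ |τ| < 1 := not_lt.2 h
  induction w using OnePoint.rec with
  | infty => rfl
  | coe p =>
    change (if |τ| < 1 then _ else _) = _
    exact if_neg h'

end XSUS0

open XSUS0 in
theorem I_SUS0 (hCOMB : StCOMB) (hHO : StHO) : StSUS0 := by
  intro k n g hg
  obtain ⟨-, -, htr, -, -⟩ := hHO (n + 1) (W k (n + 1)) (∞ : W k (n + 1))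
  refine htr _ (fun x => comb (g 0) (2 * ‖x‖ - 1)) _ ?_ ?_
  · refine ⟨fun p => comb (g ((1 - max 0 (min 1 p.1)) • (‖p.2‖⁻¹ • p.2))) (2 * ‖p.2‖ - 1), ?_,
      ⟨1, ?_⟩, ?_, ?_⟩
    · refine hCOMB (ℝ × E (n + 1)) k n
        (fun p => g ((1 - max 0 (min 1 p.1)) • (‖p.2‖⁻¹ • p.2))) (fun p => 2 * ‖p.2‖ - 1)
        (by fun_prop) ?_
      have hpos : ∀ p ∈ {z : ℝ × E (n + 1) | |2 * ‖z.2‖ - 1| < 1}, ‖p.2‖ ≠ 0 := by
        intro p hp h0
        simp only [mem_ofPred_eq, h0] at hp
        norm_num at hp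
      refine hg.comp (t := closedBall 0 1)
        (f := fun p : ℝ × E (n + 1) => (1 - max 0 (min 1 p.1)) • (‖p.2‖⁻¹ • p.2)) ?_ ?_
      · have h1 : ContinuousOn (fun p : ℝ × E (n + 1) => 1 - max 0 (min 1 p.1))
            {z : ℝ × E (n + 1) | |2 * ‖z.2‖ - 1| < 1} := by
          refine Continuous.continuousOn ?_
          fun_prop
        have h2 : ContinuousOn (fun p : ℝ × E (n + 1) => ‖p.2‖⁻¹)
            {z : ℝ × E (n + 1) | |2 * ‖z.2‖ - 1| < 1} :=
          ContinuousOn.inv₀ (continuous_snd.norm.continuousOn) hpos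
        exact h1.smul (h2.smul continuous_snd.continuousOn)
      · intro p hp
        have h0 := hpos p hp
        rw [mem_closedBall_zero_iff, norm_smul, norm_smul, norm_inv, norm_norm,
          inv_mul_cancel₀ h0, mul_one, Real.norm_eq_abs, abs_le]
        constructor
        · have : max 0 (min 1 p.1) ≤ 1 := max_le zero_le_one (min_le_left _ _)
          linarith
        · have : (0 : ℝ) ≤ max 0 (min 1 p.1) := le_max_left _ _
          linarith
    · intro t x hx
      refine comb_ge _ _ ?_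
      rw [abs_of_nonneg (by linarith)]
      linarith
    · intro x
      simp [Sus]
    · intro x
      simp
  · refine ⟨fun p => comb (g 0) (max (2 * ‖p.2‖ - 1) (2 * p.1 - 1)), ?_, ⟨1, ?_⟩, ?_, ?_⟩
    · exact hCOMB (ℝ × E (n + 1)) k n (fun _ => g 0)
        (fun p => max (2 * ‖p.2‖ - 1) (2 * p.1 - 1)) (by fun_prop) continuousOn_const
    · intro t x hx
      refine comb_ge _ _ (le_trans ?_ (le_abs_self _))
      exact le_max_of_le_left (by linarith)
    · intro x
      have : max (2 * ‖x‖ - 1) (2 * (0 : ℝ) - 1) = 2 * ‖x‖ - 1 :=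
        max_eq_left (by have := norm_nonneg x; linarith)
      simp only [this]
    · intro x
      refine comb_ge _ _ (le_trans ?_ (le_abs_self _))
      exact le_max_of_le_right (by norm_num)

end Pool.Agent.Work.MP_e9e200_al.O3

end

section

/-!
# Project O3, item SUSC: suspensions of maps and homotopies
-/

set_option autoImplicit false

namespace Pool.Agent.Work.MP_e9e200_al.O3

open Set Metric Topology OnePoint Filter

namespace XSUSC

theorem comb_inf {k n : ℕ} (w : W k n) (τ : ℝ) (h : 1 ≤ |τ|) : comb w τ = ∞ := by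
  unfold comb
  rcases w with _ | p
  · rfl
  · exact if_neg (not_lt.mpr h)

theorem norm_pos {n : ℕ} {x : E (n + 1)} (h : |2 * ‖x‖ - 1| < 1) : ‖x‖ ≠ 0 := by
  intro h0
  rw [h0] at h
  norm_num at h

theorem far {n : ℕ} {x : E (n + 1)} (h : 1 ≤ ‖x‖) : 1 ≤ |2 * ‖x‖ - 1| :=
  le_trans (by linarith) (le_abs_self _)

theorem mem_sph {n : ℕ} {x : E (n + 1)} (h : ‖x‖ ≠ 0) : ‖x‖⁻¹ • x ∈ sphere (0 : E (n + 1)) 1 := by
  rw [mem_sphere_zero_iff_norm, norm_smul, norm_inv, norm_norm, inv_mul_cancel₀ h]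

/-- the clamp to the unit interval -/
noncomputable def cla (t : ℝ) : ℝ := max 0 (min t 1)

theorem cla_cont : Continuous cla := by unfold cla; fun_prop

theorem cla_mem (t : ℝ) : cla t ∈ Icc (0 : ℝ) 1 :=
  ⟨le_max_left _ _, max_le zero_le_one (min_le_right _ _)⟩

theorem cla_zero : cla 0 = 0 := by simp [cla]

theorem cla_one : cla 1 = 1 := by simp [cla]

theorem key {n : ℕ} : ContinuousOn (fun q : ℝ × E (n + 1) => (cla q.1, ‖q.2‖⁻¹ • q.2))
    {q | |2 * ‖q.2‖ - 1| < 1} := by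
  have h1 : Continuous (fun q : ℝ × E (n + 1) => cla q.1) := cla_cont.comp continuous_fst
  have h2 : Continuous (fun q : ℝ × E (n + 1) => q.2) := continuous_snd
  have h3 : ContinuousOn (fun q : ℝ × E (n + 1) => ‖q.2‖⁻¹) {q | |2 * ‖q.2‖ - 1| < 1} :=
    ContinuousOn.inv₀ h2.norm.continuousOn fun q hq => norm_pos hq
  have h4 : ContinuousOn (fun q : ℝ × E (n + 1) => ‖q.2‖⁻¹ • q.2) {q | |2 * ‖q.2‖ - 1| < 1} :=
    h3.smul h2.continuousOn
  exact h1.continuousOn.prodMk h4

end XSUSC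

open XSUSC in
theorem I_SUSC (hCOMB : StCOMB) (_hHO : StHO) : StSUSC := by
  intro k n
  refine ⟨fun g hg => ⟨?_, fun x hx => ?_⟩, fun g hg => ?_⟩
  · refine hCOMB (E (n + 1)) k n (fun x => g (‖x‖⁻¹ • x)) (fun x => 2 * ‖x‖ - 1) (by fun_prop) ?_
    refine hg.comp ?_ fun x hx => mem_sph (norm_pos hx)
    have h3 : ContinuousOn (fun x : E (n + 1) => ‖x‖⁻¹) {x | |2 * ‖x‖ - 1| < 1} :=
      ContinuousOn.inv₀ continuous_norm.continuousOn fun x hx => norm_pos hx
    exact h3.smul continuousOn_id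
  · exact comb_inf _ _ (far hx)
  · refine ⟨fun q => comb (g (cla q.1, ‖q.2‖⁻¹ • q.2)) (2 * ‖q.2‖ - 1), ?_, ⟨1, ?_⟩, ?_, ?_⟩
    · refine hCOMB (ℝ × E (n + 1)) k n (fun q => g (cla q.1, ‖q.2‖⁻¹ • q.2))
        (fun q => 2 * ‖q.2‖ - 1) (by fun_prop) ?_
      exact hg.comp key fun q hq => ⟨cla_mem q.1, mem_sph (norm_pos hq)⟩
    · intro t x hx
      exact comb_inf _ _ (far hx)
    · intro x
      simp only [Sus, cla_zero]
    · intro x
      simp only [Sus, cla_one]

end Pool.Agent.Work.MP_e9e200_al.O3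

end

section

/-!
# Project O3, item U1: maps of degree zero are null homotopic in dimension at least two
-/

set_option autoImplicit false

namespace Pool.Agent.Work.MP_e9e200_al.O3

open Set Metric Topology OnePoint

namespace XU1

/-- an element of the subgroup generated by `g` on which all dual homomorphisms vanish -/
theorem aux {G : Type*} [Group G] (hc : ∀ x y : G, x * y = y * x) {k : ℕ} (g : Fin k → G)
    (D : Fin k → (G →* Multiplicative ℤ))
    (h : ∀ a b, D a (g b) = Multiplicative.ofAdd (if a = b then (1 : ℤ) else 0)) (α : G)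
    (hα : α ∈ Subgroup.closure (Set.range g)) (h0 : ∀ a, D a α = 1) : α = 1 := by
  let _ : CommGroup G := { (inferInstance : Group G) with mul_comm := hc }
  have key : ∀ β ∈ Subgroup.closure (Set.range g),
      β = ∏ a : Fin k, g a ^ (Multiplicative.toAdd (D a β)) := by
    intro β hβ
    induction hβ using Subgroup.closure_induction with
    | mem x hx =>
      obtain ⟨b, rfl⟩ := hx
      simp only [h, toAdd_ofAdd]
      rw [Finset.prod_eq_single b]
      · simp
      · intro a _ hab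
        simp [hab]
      · intro hb
        exact absurd (Finset.mem_univ b) hb
    | one => simp
    | mul x y _ _ hx hy =>
      conv_lhs => rw [hx, hy]
      rw [← Finset.prod_mul_distrib]
      refine Finset.prod_congr rfl fun a _ => ?_
      rw [map_mul, toAdd_mul, zpow_add]
    | inv x _ hx =>
      conv_lhs => rw [hx]
      rw [← Finset.prod_inv_distrib]
      refine Finset.prod_congr rfl fun a _ => ?_
      rw [map_inv, toAdd_inv, zpow_neg]
  have := key α hα
  rw [this]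
  refine Finset.prod_eq_one fun a _ => ?_
  rw [h0 a, toAdd_one, zpow_zero]

/-- higher homotopy groups are commutative -/
theorem comm (n : ℕ) (Z : Type) [TopologicalSpace Z] (z : Z)
    (α β : HomotopyGroup (Fin (n + 1 + 1)) Z z) : α * β = β * α :=
  @mul_comm _ (HomotopyGroup.commGroup (N := Fin (n + 1 + 1)) (X := Z) (x := z)).toCommMonoid.toCommSemigroup.toCommMagma α β

/-- continuity at a point with value `∞` -/
theorem contAt_infty {Z : Type} [TopologicalSpace Z] {k n : ℕ} (w : Z → W k n) (z : Z)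
    (hz : w z = ∞) (h : ∀ R : ℝ, ∀ᶠ z' in 𝓝 z, ∀ (a : Fin k) (y : E n),
      w z' = ((a, y) : Fin k × E n) → R ≤ ‖y‖) : ContinuousAt w z := by
  unfold ContinuousAt
  rw [hz, OnePoint.hasBasis_nhds_infty.tendsto_right_iff]
  rintro s ⟨_, hs⟩
  obtain ⟨R, hR⟩ := (hs.image continuous_snd).isBounded.exists_norm_le
  filter_upwards [h (R + 1)] with z' hz'
  rcases hw : w z' with _ | p
  · exact Or.inr rfl
  · refine Or.inl ⟨p, fun hps => ?_, rfl⟩
    have h1 := hz' p.1 p.2 hw
    have h2 := hR p.2 ⟨p, hps, rfl⟩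
    linarith

/-- the inclusions of the spheres have compact support -/
theorem io_CS {k n : ℕ} (a : Fin k) : CS ∞ (io a : E n → W k n) := by
  classical
  refine ⟨continuous_iff_continuousAt.2 fun x => ?_, 1, fun x hx => ?_⟩
  · rcases lt_or_ge ‖x‖ 1 with hx | hx
    · have h1 : ContinuousAt (fun x' : E n => (((a, psi x') : Fin k × E n) : W k n)) x := by
        refine ContinuousAt.comp (f := fun x' : E n => ((a, psi x') : Fin k × E n))
          OnePoint.continuous_coe.continuousAt ?_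
        refine ContinuousAt.prodMk continuousAt_const ?_
        unfold psi
        have h0 : ContinuousAt (fun x' : E n => 1 - ‖x'‖) x := by fun_prop
        exact (h0.inv₀ (by intro h0; linarith)).smul (f := fun x' : E n => (1 - ‖x'‖)⁻¹)
          (g := fun x' : E n => x') (continuousAt_id' x)
      refine h1.congr ?_
      have h2 : ∀ᶠ x' in 𝓝 x, ‖x'‖ < 1 :=
        (isOpen_lt continuous_norm continuous_const).mem_nhds hx
      filter_upwards [h2] with x' hx'
      unfold io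
      rw [if_pos hx']
    · refine contAt_infty (io a : E n → W k n) x (by unfold io; rw [if_neg (not_lt.2 hx)])
        fun R => ?_
      have h2 : ∀ᶠ x' in 𝓝 x, 1 - (|R| + 1)⁻¹ * 2⁻¹ < ‖x'‖ := by
        refine (isOpen_lt (continuous_const (y := 1 - (|R| + 1)⁻¹ * 2⁻¹))
          (continuous_norm (E := E n))).mem_nhds ?_
        have : (0 : ℝ) < (|R| + 1)⁻¹ * 2⁻¹ := by positivity
        show 1 - (|R| + 1)⁻¹ * 2⁻¹ < ‖x‖
        linarith
      filter_upwards [h2] with x' hx' b y hy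
      unfold io at hy
      split_ifs at hy with hlt
      · have h3 := congrArg Prod.snd (OnePoint.coe_injective hy)
        simp only at h3
        subst h3
        have hR : (0 : ℝ) < |R| + 1 := by positivity
        have hR2 : (|R| + 1)⁻¹ ≤ 1 := inv_le_one_of_one_le₀ (by linarith [abs_nonneg R])
        have hhalf : (2 : ℝ)⁻¹ ≤ ‖x'‖ := by
          have : (|R| + 1)⁻¹ * (2 : ℝ)⁻¹ ≤ 1 * 2⁻¹ :=
            mul_le_mul_of_nonneg_right hR2 (by norm_num)
          norm_num at this ⊢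
          linarith
        have hpos : 0 < 1 - ‖x'‖ := by linarith
        unfold psi
        rw [norm_smul, norm_inv, Real.norm_eq_abs, abs_of_pos hpos, ← div_eq_inv_mul,
          le_div_iff₀ hpos]
        have h4 : (1 - ‖x'‖) * (|R| + 1) ≤ 2⁻¹ := by
          have h5 : 1 - ‖x'‖ ≤ (|R| + 1)⁻¹ * 2⁻¹ := by linarith
          calc (1 - ‖x'‖) * (|R| + 1) ≤ ((|R| + 1)⁻¹ * 2⁻¹) * (|R| + 1) :=
                mul_le_mul_of_nonneg_right h5 hR.le
            _ = 2⁻¹ := by field_simp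
        calc R * (1 - ‖x'‖) ≤ (|R| + 1) * (1 - ‖x'‖) :=
              mul_le_mul_of_nonneg_right (by linarith [le_abs_self R]) hpos.le
          _ = (1 - ‖x'‖) * (|R| + 1) := mul_comm _ _
          _ ≤ 2⁻¹ := h4
          _ ≤ ‖x'‖ := hhalf
      · exact absurd hy.symm (OnePoint.coe_ne_infty _)
  · unfold io
    rw [if_neg (not_lt.2 hx)]

end XU1

/-- U1 -/
theorem I_U1 (hPT : StPT) (hCL1 : StCL1) (hCL2 : StCL2) (hHOMD : StHOMD) (hDIO : StDIO) :
    StU1 := by
  intro k n f hf hdeg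
  have hdpr : ∀ a : Fin k, CS ∞ (io a : E (n + 2) → W k (n + 2)) := fun a => XU1.io_CS a
  choose D hD using fun a : Fin k => hHOMD k (n + 1) a
  have h1 : cl ∞ f = (1 : HomotopyGroup (Fin (n + 1 + 1)) (W k (n + 1 + 1)) ∞) := by
    refine XU1.aux (XU1.comm n _ _) (fun a : Fin k => cl ∞ (io a)) D ?_ _ (hPT k (n + 1) f hf) ?_
    · intro a b
      rw [hD a _ (hdpr b), hDIO]
    · intro a
      rw [hD a f hf, hdeg a]
      rfl
  have h2 : CS ∞ (fun _ : E (n + 1 + 1) => (∞ : W k (n + 1 + 1))) :=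
    ⟨continuous_const, 0, fun _ _ => rfl⟩
  refine (hCL1 (n + 2) _ ∞ f _ hf h2).1 ?_
  rw [h1]
  exact (hCL2 (n + 1) _ ∞).2.symm

end Pool.Agent.Work.MP_e9e200_al.O3

end

section

/-!
# Project O3A, item CNG: the space only depends on the attaching maps of dimension below `N`
-/

set_option autoImplicit false

namespace Pool.Agent.Work.MP_e9e200_al.O3A

open Set Metric Topology

namespace CNG

variable {G : Type} [Group G] {B : ℕ → Type}

/-- the topology of `Sp ψ N` as a topology on the set of points -/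
@[reducible] noncomputable def tp (ψ : Atl G B) (N : ℕ∞) : TopologicalSpace (Pt G B) :=
  (inferInstance : TopologicalSpace (Sp ψ N))

theorem tp_eq (ψ ψ' : Atl G B) (N : ℕ∞) (h : ∀ n : ℕ, (n : ℕ∞) < N → ψ n = ψ' n) :
    tp ψ N = tp ψ' N := by
  show (⨆ (n : ℕ) (_ : (n : ℕ∞) < N) (c : G × B n),
      TopologicalSpace.coinduced
        (fun y : closedBall (0 : E n) 1 => (Ph ψ n c y : Pt G B)) inferInstance) =
    ⨆ (n : ℕ) (_ : (n : ℕ∞) < N) (c : G × B n),
      TopologicalSpace.coinduced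
        (fun y : closedBall (0 : E n) 1 => (Ph ψ' n c y : Pt G B)) inferInstance
  refine iSup_congr fun n => iSup_congr fun hn => iSup_congr fun c => ?_
  have e : (fun y : closedBall (0 : E n) 1 => (Ph ψ n c y : Pt G B)) =
      fun y : closedBall (0 : E n) 1 => Ph ψ' n c y := by
    funext y
    unfold Ph
    rw [h n hn]
  rw [e]

theorem closed_iff (ψ ψ' : Atl G B) (N : ℕ∞) (h : tp ψ N = tp ψ' N) (A : Set (Pt G B)) :
    IsClosed (st ψ N A) ↔ IsClosed (st ψ' N A) := by
  show @IsClosed (Pt G B) (tp ψ N) A ↔ @IsClosed (Pt G B) (tp ψ' N) A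
  rw [h]

theorem cont_iff (ψ ψ' : Atl G B) (N : ℕ∞) (h : tp ψ N = tp ψ' N) (Z : Type)
    [TopologicalSpace Z] (f : Z → Pt G B) (S : Set Z) :
    ContinuousOn (fun z => pt ψ N (f z)) S ↔ ContinuousOn (fun z => pt ψ' N (f z)) S := by
  show @ContinuousOn Z (Pt G B) _ (tp ψ N) f S ↔ @ContinuousOn Z (Pt G B) _ (tp ψ' N) f S
  rw [h]

theorem ext_iff (ψ ψ' : Atl G B) (N : ℕ∞) (h : tp ψ N = tp ψ' N) (A : Set (Pt G B)) (j : ℕ) :
    O3.Ext (st ψ N A) j ↔ O3.Ext (st ψ' N A) j := by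
  show @O3.Ext (Pt G B) (tp ψ N) A j ↔ @O3.Ext (Pt G B) (tp ψ' N) A j
  rw [h]

end CNG

theorem I_CNG : StCNG := by
  intro G _ B ψ ψ' N h
  have ht := CNG.tp_eq ψ ψ' N h
  refine ⟨CNG.closed_iff ψ ψ' N ht, ?_, ?_, CNG.ext_iff ψ ψ' N ht⟩
  · intro Z _ f S
    exact CNG.cont_iff ψ ψ' N ht Z f S
  · unfold Gd
    refine forall_congr' fun n => forall_congr' fun hn => forall_congr' fun b => ?_
    have hn' : CNG.tp ψ (n : ℕ∞) = CNG.tp ψ' (n : ℕ∞) :=
      CNG.tp_eq ψ ψ' n fun k hk => h k (hk.trans hn)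
    rw [CNG.cont_iff ψ ψ' n hn' _ (fun y => ψ n b y) (sphere 0 1), h n hn]

end Pool.Agent.Work.MP_e9e200_al.O3A

end

section

/-!
# Project O3A, item EXF: extension of real functions
-/

set_option autoImplicit false

namespace Pool.Agent.Work.MP_e9e200_al.O3A

open Set Metric Topology

namespace EXF

variable {G : Type} [Group G] {B : ℕ → Type}

/-- the radial projection of a point to the boundary of its cell -/
noncomputable def nxt (ψ : Atl G B) (p : Pt G B) : Pt G B :=
  p.2.1.1 • ψ p.1 p.2.1.2 (‖(p.2.2 : E p.1)‖⁻¹ • (p.2.2 : E p.1))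

open scoped Classical in
/-- the extended function -/
noncomputable def V (ψ : Atl G B) (M : ℕ) (u : Pt G B → ℝ) (p : Pt G B) : ℝ :=
  if p.dim < M then u p
  else if _h : (nxt ψ p).dim < p.dim then ‖(p.2.2 : E p.1)‖ * V ψ M u (nxt ψ p) else 0
termination_by p.dim

theorem V_lt (ψ : Atl G B) (M : ℕ) (u : Pt G B → ℝ) (p : Pt G B) (h : p.dim < M) :
    V ψ M u p = u p := by
  rw [V, if_pos h]

theorem V_ge (ψ : Atl G B) (M : ℕ) (u : Pt G B → ℝ) (p : Pt G B) (h : ¬ p.dim < M)
    (h' : (nxt ψ p).dim < p.dim) :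
    V ψ M u p = ‖(p.2.2 : E p.1)‖ * V ψ M u (nxt ψ p) := by
  rw [V, if_neg h, dif_pos h']

theorem V_zero (ψ : Atl G B) (M : ℕ) (u : Pt G B → ℝ) (p : Pt G B) (h : ¬ p.dim < M)
    (h' : (p.2.2 : E p.1) = 0) : V ψ M u p = 0 := by
  rw [V, if_neg h]
  split_ifs with h1
  · rw [h', norm_zero, zero_mul]
  · rfl

theorem cone_cont {n : ℕ} (g : E n → ℝ) (hg : ContinuousOn g (sphere 0 1)) :
    Continuous (fun y : E n => ‖y‖ * g (‖y‖⁻¹ • y)) := by
  have hsph : ∀ y : E n, y ≠ 0 → ‖y‖⁻¹ • y ∈ sphere (0 : E n) 1 := by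
    intro y hy
    have hn : ‖y‖ ≠ 0 := norm_ne_zero_iff.mpr hy
    rw [mem_sphere_zero_iff_norm, norm_smul, norm_inv, norm_norm, inv_mul_cancel₀ hn]
  obtain ⟨K, hK⟩ := (isCompact_sphere (0 : E n) 1).exists_bound_of_continuousOn hg
  rw [continuous_iff_continuousAt]
  intro y
  by_cases hy : y = 0
  · subst hy
    have h0 : (fun y : E n => ‖y‖ * g (‖y‖⁻¹ • y)) 0 = 0 := by simp
    unfold ContinuousAt
    rw [h0]
    have hb : ∀ y : E n, ‖‖y‖ * g (‖y‖⁻¹ • y)‖ ≤ ‖y‖ * |K| := by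
      intro y
      by_cases hy : y = 0
      · subst hy
        simp
      · rw [norm_mul, norm_norm]
        exact mul_le_mul_of_nonneg_left ((hK _ (hsph y hy)).trans (le_abs_self K))
          (norm_nonneg y)
    refine squeeze_zero_norm hb ?_
    have h1 : Continuous (fun y : E n => ‖y‖ * |K|) := by fun_prop
    have h2 := h1.tendsto (0 : E n)
    simpa using h2
  · have h1 : ContinuousOn (fun y : E n => ‖y‖⁻¹ • y) {0}ᶜ := by
      refine ContinuousOn.smul (ContinuousOn.inv₀ continuous_norm.continuousOn ?_)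
        continuousOn_id
      intro z hz
      exact norm_ne_zero_iff.mpr hz
    have h2 : ContinuousOn (fun y : E n => ‖y‖ * g (‖y‖⁻¹ • y)) {0}ᶜ :=
      continuous_norm.continuousOn.mul (hg.comp h1 (fun z hz => hsph z hz))
    exact h2.continuousAt (isOpen_compl_singleton.mem_nhds hy)

end EXF

theorem I_EXF (hCRT : StCRT) (hPHB : StPHB) (hACT : StACT) (hSKM : StSKM) : StEXF := by
  have _ := hSKM
  intro G _ B ψ N M hGd hMN u hu
  obtain ⟨hb, hs, -, hgd, -, -, hmk⟩ := hPHB G B ψ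
  have hdim : ∀ n : ℕ, (n : ℕ∞) < N → ∀ (c : G × B n), ∀ y ∈ sphere (0 : E n) 1,
      (c.1 • ψ n c.2 y).dim < n := by
    intro n hn c y hy
    rw [(hgd _ _).1]
    exact (hGd n hn c.2).1 y hy
  have key : ∀ n : ℕ, (n : ℕ∞) < N → ∀ c : G × B n,
      ContinuousOn (fun y => EXF.V ψ M u (Ph ψ n c y)) (closedBall (0 : E n) 1) := by
    intro n
    induction n using Nat.strong_induction_on with
    | _ n ih =>
      intro hn c
      by_cases hnM : n < M
      · have h1 := ((hCRT G B ψ M).2.1 ℝ u).1 hu n (by exact_mod_cast hnM) c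
        refine h1.congr ?_
        intro y hy
        apply EXF.V_lt
        rcases lt_or_eq_of_le (mem_closedBall_zero_iff.mp hy) with h2 | h2
        · rw [hb n c y (mem_ball_zero_iff.mpr h2), (hmk n c y (mem_ball_zero_iff.mpr h2)).1]
          exact hnM
        · rw [hs n c y (mem_sphere_zero_iff_norm.mpr h2)]
          exact (hdim n hn c y (mem_sphere_zero_iff_norm.mpr h2)).trans hnM
      · have hVn : Continuous (fun p : Sp ψ (n : ℕ∞) => EXF.V ψ M u p) := by
          rw [(hCRT G B ψ n).2.1 ℝ (EXF.V ψ M u)]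
          intro m hm c'
          exact ih m (by exact_mod_cast hm) (hm.trans hn) c'
        have hg : ContinuousOn (fun s => EXF.V ψ M u (c.1 • ψ n c.2 s)) (sphere (0 : E n) 1) := by
          have h1 := (hGd n hn c.2).2
          have h2 : Continuous (fun p : Sp ψ (n : ℕ∞) => c.1 • p) := hACT G B ψ n c.1
          exact (hVn.comp h2).comp_continuousOn h1
        refine (EXF.cone_cont _ hg).continuousOn.congr ?_
        intro y hy
        change EXF.V ψ M u (Ph ψ n c y) = ‖y‖ * EXF.V ψ M u (c.1 • ψ n c.2 (‖y‖⁻¹ • y))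
        rcases lt_or_eq_of_le (mem_closedBall_zero_iff.mp hy) with h2 | h2
        · have hyb : y ∈ ball (0 : E n) 1 := mem_ball_zero_iff.mpr h2
          rw [hb n c y hyb]
          have hd : ¬ (mk n c y hyb).dim < M := hnM
          by_cases hy0 : y = 0
          · rw [EXF.V_zero ψ M u (mk n c y hyb) hd hy0, hy0, norm_zero, zero_mul]
          · have hyn : ‖y‖ ≠ 0 := norm_ne_zero_iff.mpr hy0
            have hsp : ‖y‖⁻¹ • y ∈ sphere (0 : E n) 1 := by
              rw [mem_sphere_zero_iff_norm, norm_smul, norm_inv, norm_norm, inv_mul_cancel₀ hyn]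
            exact EXF.V_ge ψ M u (mk n c y hyb) hd (hdim n hn c _ hsp)
        · rw [hs n c y (mem_sphere_zero_iff_norm.mpr h2), h2, one_mul, inv_one, one_smul]
  refine ⟨EXF.V ψ M u, ?_, ?_⟩
  · rw [(hCRT G B ψ N).2.1 ℝ (EXF.V ψ M u)]
    exact key
  · intro p hp
    apply EXF.V_lt
    have hp' : (p.dim : ℕ∞) < (M : ℕ∞) := hp
    exact_mod_cast hp'

end Pool.Agent.Work.MP_e9e200_al.O3A

end

section

/-!
# Project O3A: compact sets meet finitely many cells
-/

set_option autoImplicit false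

namespace Pool.Agent.Work.MP_e9e200_al.O3A

open Set Metric Topology

/-- at most one point in every open cell -/
def FIN.One {G : Type} {B : ℕ → Type} (T : Set (Pt G B)) : Prop :=
  ∀ (n : ℕ) (c : G × B n), (T ∩ oc n c).Subsingleton

theorem FIN.one_mono {G : Type} {B : ℕ → Type} {T T' : Set (Pt G B)} (h : FIN.One T)
    (hT : T' ⊆ T) : FIN.One T' :=
  fun n c => (h n c).anti (inter_subset_inter_left _ hT)

theorem FIN.smul_mk {G : Type} [Group G] {B : ℕ → Type} (g : G) (n : ℕ) (c : G × B n) (y : E n)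
    (h : y ∈ ball (0 : E n) 1) : g • mk n c y h = mk n (g * c.1, c.2) y h := rfl

theorem FIN.closed_aux (hCRT : StCRT) (hPHB : StPHB) (G : Type) [Group G] (B : ℕ → Type)
    (ψ : Atl G B) (N : ℕ∞) (hG : Gd ψ N) (n : ℕ) : (n : ℕ∞) < N → ∀ T : Set (Pt G B),
    FIN.One T → ∀ c : G × B n, IsClosed (closedBall (0 : E n) 1 ∩ {y | Ph ψ n c y ∈ T}) := by
  obtain ⟨h1, h2, -, -, h5, -, -⟩ := hPHB G B ψ
  induction n using Nat.strong_induction_on with
  | _ n ih =>
    intro hn T hT c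
    obtain ⟨hd, hc⟩ := hG n hn c.2
    set T' : Set (Pt G B) := {p | c.1 • p ∈ T} with hT'
    have hT1 : FIN.One T' := by
      intro m c' p hp q hq
      obtain ⟨hp1, y, hy, rfl⟩ := hp
      obtain ⟨hq1, z, hz, rfl⟩ := hq
      have := hT m (c.1 * c'.1, c'.2) ⟨hp1, y, hy, FIN.smul_mk _ _ _ _ _⟩
        ⟨hq1, z, hz, FIN.smul_mk _ _ _ _ _⟩
      rw [FIN.smul_mk, FIN.smul_mk] at this
      obtain ⟨-, h⟩ := h5 _ _ _ _ _ _ _ this
      subst h
      rfl
    have hcl : IsClosed (st ψ n T') := by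
      rw [(hCRT G B ψ n).1]
      intro m hm c'
      have hm' : m < n := by exact_mod_cast hm
      exact ih m hm' (hm.trans hn) T' hT1 c'
    have e : closedBall (0 : E n) 1 ∩ {y | Ph ψ n c y ∈ T} =
        {y | ∃ h : y ∈ ball (0 : E n) 1, mk n c y h ∈ T} ∪
          (sphere (0 : E n) 1 ∩ (fun y => pt ψ n (ψ n c.2 y)) ⁻¹' (st ψ n T')) := by
      ext y
      simp only [mem_inter_iff, mem_union, mem_ofPred_eq, mem_preimage]
      constructor
      · rintro ⟨hy, hy1⟩
        by_cases h : y ∈ ball (0 : E n) 1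
        · left
          rw [h1 n c y h] at hy1
          exact ⟨h, hy1⟩
        · right
          have hs : y ∈ sphere (0 : E n) 1 := by
            simp only [mem_closedBall, mem_ball, mem_sphere] at *
            exact le_antisymm hy (not_lt.1 h)
          rw [h2 n c y hs] at hy1
          exact ⟨hs, hy1⟩
      · rintro (⟨h, hy1⟩ | ⟨hs, hy1⟩)
        · refine ⟨ball_subset_closedBall h, ?_⟩
          rw [h1 n c y h]
          exact hy1
        · refine ⟨sphere_subset_closedBall hs, ?_⟩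
          rw [h2 n c y hs]
          exact hy1
    rw [e]
    refine IsClosed.union ?_ (hc.preimage_isClosed_of_isClosed isClosed_sphere hcl)
    refine Set.Subsingleton.isClosed ?_
    rintro y ⟨hy, hy1⟩ z ⟨hz, hz1⟩
    have := hT n c ⟨hy1, y, hy, rfl⟩ ⟨hz1, z, hz, rfl⟩
    exact (h5 _ _ _ _ _ _ _ this).2

theorem FIN.closed (hCRT : StCRT) (hPHB : StPHB) (G : Type) [Group G] (B : ℕ → Type)
    (ψ : Atl G B) (N : ℕ∞) (hG : Gd ψ N) (T : Set (Pt G B)) (hT : FIN.One T) :
    IsClosed (st ψ N T) := by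
  rw [(hCRT G B ψ N).1]
  intro n hn c
  exact FIN.closed_aux hCRT hPHB G B ψ N hG n hn T hT c

/-- a compact set all of whose subsets are closed is finite -/
theorem FIN.finite {X : Type} [TopologicalSpace X] (K T : Set X) (hK : IsCompact K) (hT : T ⊆ K)
    (h : ∀ T' ⊆ T, IsClosed T') : T.Finite := by
  have hTc : IsCompact T := hK.of_isClosed_subset (h T subset_rfl) hT
  obtain ⟨F, hF⟩ := hTc.elim_finite_subcover (fun t : T => (T \ {(t : X)})ᶜ)
    (fun t => (h _ sdiff_subset).isOpen_compl) (by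
      intro x hx
      rw [mem_iUnion]
      exact ⟨⟨x, hx⟩, fun hh => hh.2 rfl⟩)
  refine (F.finite_toSet.image (fun t : T => (t : X))).subset ?_
  intro x hx
  obtain ⟨t, ht, hxt⟩ := mem_iUnion₂.1 (hF hx)
  refine ⟨t, ht, ?_⟩
  by_contra hne
  exact hxt ⟨hx, fun hh => hne (mem_singleton_iff.1 hh).symm⟩

/-- compact sets meet finitely many cells -/
theorem I_FIN (hCRT : StCRT) (hPHB : StPHB) (hSKC : StSKC) (hACT : StACT) : StFIN := by
  intro G _ B ψ N hG K hK _
  obtain ⟨-, -, -, -, -, h6, -⟩ := hPHB G B ψ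
  have h5 : ∀ (m m' : ℕ) (c : G × B m) (c' : G × B m') (y : E m) (y' : E m')
      (h : y ∈ ball (0 : E m) 1) (h' : y' ∈ ball (0 : E m') 1), mk m c y h = mk m' c' y' h' →
      (⟨m, c⟩ : Σ n : ℕ, G × B n) = ⟨m', c'⟩ := by
    intro m m' c c' y y' h h' he
    have := congrArg (fun p : Pt G B => (⟨p.1, p.2.1⟩ : Σ n : ℕ, G × B n)) he
    exact this
  set S : Set (Σ n : ℕ, G × B n) := {q | (K ∩ oc q.1 q.2).Nonempty} with hS
  have hch : ∀ q : Σ n : ℕ, G × B n, ∃ p : Pt G B, q ∈ S → p ∈ K ∩ oc q.1 q.2 := by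
    intro q
    by_cases hq : q ∈ S
    · obtain ⟨p, hp⟩ := hq
      exact ⟨p, fun _ => hp⟩
    · exact ⟨ctr q.1 q.2, fun h => absurd h hq⟩
  choose t ht using hch
  have hone : FIN.One (t '' S) := by
    rintro n c p ⟨⟨q, hq, rfl⟩, hp⟩ p' ⟨⟨q', hq', rfl⟩, hp'⟩
    obtain ⟨y, hy, e1⟩ := hp
    obtain ⟨y', hy', e1'⟩ := hp'
    obtain ⟨-, z, hz, e2⟩ := ht q hq
    obtain ⟨-, z', hz', e2'⟩ := ht q' hq'
    have a1 := h5 _ _ _ _ _ _ _ _ (e2.symm.trans e1)
    have a2 := h5 _ _ _ _ _ _ _ _ (e2'.symm.trans e1')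
    have : q = q' := a1.trans a2.symm
    rw [this]
  have hfin : (t '' S).Finite := by
    refine FIN.finite (X := Sp ψ N) (st ψ N K) (st ψ N (t '' S)) hK ?_ ?_
    · rintro _ ⟨q, hq, rfl⟩
      exact (ht q hq).1
    · intro T' hT'
      exact FIN.closed hCRT hPHB G B ψ N hG T' (FIN.one_mono hone hT')
  refine Set.Finite.of_finite_image hfin ?_
  intro q hq q' hq' he
  obtain ⟨-, z, hz, e2⟩ := ht q hq
  obtain ⟨-, z', hz', e2'⟩ := ht q' hq'
  exact h5 _ _ _ _ _ _ _ _ (e2.symm.trans (he.trans e2'))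

end Pool.Agent.Work.MP_e9e200_al.O3A

end

section

/-!
# Project O3A, item HTF: height functions
-/

set_option autoImplicit false

namespace Pool.Agent.Work.MP_e9e200_al.O3A

open Set Metric Topology

namespace HTF

variable {G : Type} [Group G] {B : ℕ → Type}

open scoped Classical in
/-- the height function, by recursion on the dimension -/
noncomputable def ht (ψ : Atl G B) (N : ℕ∞) (χ : Additive G →+ ℝ) (p : Pt G B) : ℝ :=
  if h : (p.1 : ℕ∞) < N ∧ (p.2.2 : E p.1) ≠ 0 ∧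
      (ψ p.1 p.2.1.2 (‖(p.2.2 : E p.1)‖⁻¹ • (p.2.2 : E p.1))).dim < p.dim then
    χ (Additive.ofMul p.gr) + ‖(p.2.2 : E p.1)‖ *
      ht ψ N χ (ψ p.1 p.2.1.2 (‖(p.2.2 : E p.1)‖⁻¹ • (p.2.2 : E p.1)))
  else χ (Additive.ofMul p.gr)
termination_by p.dim
decreasing_by exact h.2.2

lemma unit_mem {n : ℕ} {y : E n} (hy : y ≠ 0) : ‖y‖⁻¹ • y ∈ sphere (0 : E n) 1 := by
  rw [mem_sphere_zero_iff_norm, norm_smul, norm_inv, norm_norm, inv_mul_cancel₀]
  exact norm_ne_zero_iff.mpr hy

lemma ht_mk (ψ : Atl G B) (N : ℕ∞) (χ : Additive G →+ ℝ) (hG : Gd ψ N) (n : ℕ)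
    (hn : (n : ℕ∞) < N) (c : G × B n) (y : E n) (h : y ∈ ball (0 : E n) 1) (hy : y ≠ 0) :
    ht ψ N χ (mk n c y h) = χ (Additive.ofMul c.1) + ‖y‖ * ht ψ N χ (ψ n c.2 (‖y‖⁻¹ • y)) := by
  rw [ht]
  exact dif_pos ⟨hn, hy, (hG n hn c.2).1 _ (unit_mem hy)⟩

lemma ht_ctr (ψ : Atl G B) (N : ℕ∞) (χ : Additive G →+ ℝ) (n : ℕ) (c : G × B n)
    (h : (0 : E n) ∈ ball (0 : E n) 1) :
    ht ψ N χ (mk n c 0 h) = χ (Additive.ofMul c.1) := by
  rw [ht]
  exact dif_neg (fun hh => hh.2.1 rfl)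

lemma ht_smul (ψ : Atl G B) (N : ℕ∞) (χ : Additive G →+ ℝ) (g : G) (p : Pt G B) :
    ht ψ N χ (g • p) = ht ψ N χ p + χ (Additive.ofMul g) := by
  have e : χ (Additive.ofMul (g • p).gr) = χ (Additive.ofMul p.gr) + χ (Additive.ofMul g) := by
    have : Additive.ofMul (g • p).gr = Additive.ofMul g + Additive.ofMul p.gr := rfl
    rw [this, map_add, add_comm]
  rw [ht.eq_def ψ N χ (g • p), ht.eq_def ψ N χ p]
  by_cases h : (p.1 : ℕ∞) < N ∧ (p.2.2 : E p.1) ≠ 0 ∧
      (ψ p.1 p.2.1.2 (‖(p.2.2 : E p.1)‖⁻¹ • (p.2.2 : E p.1))).dim < p.dim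
  · rw [dif_pos h, dif_pos (show ((g • p).1 : ℕ∞) < N ∧ ((g • p).2.2 : E (g • p).1) ≠ 0 ∧
      (ψ (g • p).1 (g • p).2.1.2 (‖((g • p).2.2 : E (g • p).1)‖⁻¹ •
        ((g • p).2.2 : E (g • p).1))).dim < (g • p).dim from h), e]
    show _ + ‖(p.2.2 : E p.1)‖ *
      ht ψ N χ (ψ p.1 p.2.1.2 (‖(p.2.2 : E p.1)‖⁻¹ • (p.2.2 : E p.1))) = _
    ring
  · rw [dif_neg h, dif_neg (show ¬ (((g • p).1 : ℕ∞) < N ∧ ((g • p).2.2 : E (g • p).1) ≠ 0 ∧
      (ψ (g • p).1 (g • p).2.1.2 (‖((g • p).2.2 : E (g • p).1)‖⁻¹ •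
        ((g • p).2.2 : E (g • p).1))).dim < (g • p).dim) from h), e]

lemma ht_ge (ψ : Atl G B) (N : ℕ∞) (χ : Additive G →+ ℝ)
    (hP : ∀ (n : ℕ) (b : B n), (n : ℕ∞) < N → ∀ y ∈ sphere (0 : E n) 1, ψ n b y ∈ Pp χ) :
    ∀ (m : ℕ) (p : Pt G B), p.dim = m → χ (Additive.ofMul p.gr) ≤ ht ψ N χ p := by
  intro m
  induction m using Nat.strong_induction_on with
  | _ m ih =>
    intro p hp
    rw [ht]
    split_ifs with h
    · have h1 := hP p.1 p.2.1.2 h.1 _ (unit_mem h.2.1)
      have h2 := ih _ (hp ▸ h.2.2) _ rfl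
      have h3 : 0 ≤ ht ψ N χ (ψ p.1 p.2.1.2 (‖(p.2.2 : E p.1)‖⁻¹ • (p.2.2 : E p.1))) :=
        le_trans h1 h2
      have := mul_nonneg (norm_nonneg (p.2.2 : E p.1)) h3
      linarith
    · exact le_rfl

lemma ht_Ph (hPHB : StPHB) (ψ : Atl G B) (N : ℕ∞) (χ : Additive G →+ ℝ) (hG : Gd ψ N) (n : ℕ)
    (hn : (n : ℕ∞) < N) (c : G × B n) (y : E n) (h : y ∈ closedBall (0 : E n) 1) (hy : y ≠ 0) :
    ht ψ N χ (Ph ψ n c y) = χ (Additive.ofMul c.1) + ‖y‖ * ht ψ N χ (ψ n c.2 (‖y‖⁻¹ • y)) := by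
  obtain ⟨p1, p2, -⟩ := hPHB G B ψ
  rw [mem_closedBall_zero_iff] at h
  rcases lt_or_eq_of_le h with h | h
  · rw [p1 n c y (mem_ball_zero_iff.mpr h)]
    exact ht_mk ψ N χ hG n hn c y _ hy
  · rw [p2 n c y (mem_sphere_zero_iff_norm.mpr h), ht_smul, h]
    simp [add_comm]

lemma ht_cont (hCRT : StCRT) (hPHB : StPHB) (ψ : Atl G B) (N : ℕ∞) (χ : Additive G →+ ℝ)
    (hG : Gd ψ N) : ∀ n : ℕ, (n : ℕ∞) < N → ∀ c : G × B n,
      ContinuousOn (fun y => ht ψ N χ (Ph ψ n c y)) (closedBall (0 : E n) 1) := by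
  intro n
  induction n using Nat.strong_induction_on with
  | _ n ih =>
    intro hn c
    have h1 : Continuous (fun p : Sp ψ (n : ℕ∞) => ht ψ N χ p) := by
      rw [(hCRT G B ψ n).2.1 ℝ (ht ψ N χ)]
      intro m hm c'
      exact ih m (by exact_mod_cast hm) (hm.trans hn) c'
    have h2 : ContinuousOn (fun s => ht ψ N χ (ψ n c.2 s)) (sphere (0 : E n) 1) :=
      h1.comp_continuousOn (hG n hn c.2).2
    obtain ⟨K, hK⟩ := (isCompact_sphere (0 : E n) 1).exists_bound_of_continuousOn h2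
    intro y hy
    by_cases hy0 : y = 0
    · subst hy0
      have e0 : ht ψ N χ (Ph ψ n c 0) = χ (Additive.ofMul c.1) := by
        rw [(hPHB G B ψ).1 n c 0 (by simp)]
        exact ht_ctr ψ N χ n c _
      show Filter.Tendsto _ _ (𝓝 (ht ψ N χ (Ph ψ n c 0)))
      rw [e0, tendsto_iff_norm_sub_tendsto_zero]
      refine squeeze_zero' (g := fun y : E n => ‖y‖ * |K|) (Filter.Eventually.of_forall
        fun _ => norm_nonneg _) ?_ ?_
      · filter_upwards [self_mem_nhdsWithin] with y hy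
        by_cases hy0 : y = 0
        · subst hy0
          rw [e0]
          simp
        · rw [ht_Ph hPHB ψ N χ hG n hn c y hy hy0, add_sub_cancel_left, norm_mul, norm_norm]
          exact mul_le_mul_of_nonneg_left ((hK _ (unit_mem hy0)).trans (le_abs_self K))
            (norm_nonneg _)
      · have : ContinuousWithinAt (fun y : E n => ‖y‖ * |K|) (closedBall 0 1) 0 := by
          fun_prop
        simpa [ContinuousWithinAt] using this
    · have hU : {y : E n | y ≠ 0} ∈ 𝓝 y := isOpen_ne.mem_nhds hy0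
      rw [← continuousWithinAt_inter hU]
      have h3 : ContinuousOn (fun y : E n => χ (Additive.ofMul c.1) +
          ‖y‖ * ht ψ N χ (ψ n c.2 (‖y‖⁻¹ • y))) {y | y ≠ 0} := by
        refine continuousOn_const.add (continuous_norm.continuousOn.mul ?_)
        refine h2.comp (f := fun y : E n => ‖y‖⁻¹ • y) ?_ (fun y hy => unit_mem hy)
        exact (continuous_norm.continuousOn.inv₀ fun y hy => norm_ne_zero_iff.mpr hy).smul
          continuousOn_id
      refine ((h3 y hy0).mono inter_subset_right).congr_of_eventuallyEq_of_mem ?_ ⟨hy, hy0⟩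
      filter_upwards [self_mem_nhdsWithin] with y hy
      exact ht_Ph hPHB ψ N χ hG n hn c y hy.1 hy.2

end HTF

theorem I_HTF (hCRT : StCRT) (hPHB : StPHB) (hACT : StACT) (hSKM : StSKM) : StHTF := by
  intro G _ B ψ N χ hG
  refine ⟨HTF.ht ψ N χ, ?_, HTF.ht_smul ψ N χ, fun n c => HTF.ht_ctr ψ N χ n c _, fun hP p =>
    HTF.ht_ge ψ N χ hP _ p rfl⟩
  rw [(hCRT G B ψ N).2.1 ℝ (HTF.ht ψ N χ)]
  exact HTF.ht_cont hCRT hPHB ψ N χ hG

end Pool.Agent.Work.MP_e9e200_al.O3A

end

section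

/-!
# Project O3A, item SBC: the half space is a subcomplex
-/

set_option autoImplicit false

namespace Pool.Agent.Work.MP_e9e200_al.O3A

open Set Metric Topology

open RelCWComplex in
theorem I_SBC (hPHB : StPHB) (_hCRT : StCRT) (hT2 : StT2) : StSBC := by
  intro G _ B ψ N χ hG hψ C hC inst e he
  have t2 : T2Space (Sp ψ N) := hT2 G B ψ N hG
  obtain ⟨p1, p2, -, p4, -, p6, p7⟩ := hPHB G B ψ
  have key : ∀ (n : ℕ) (c : G × B n) (y : E n), (n : ℕ∞) < N → 0 ≤ χ (Additive.ofMul c.1) →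
      y ∈ closedBall (0 : E n) 1 → Ph ψ n c y ∈ Pp χ ∩ Lt N := by
    intro n c y hn hc hy
    by_cases hb : y ∈ ball (0 : E n) 1
    · rw [p1 n c y hb]
      refine ⟨?_, ?_⟩
      · change 0 ≤ χ (Additive.ofMul (mk n c y hb).gr)
        rw [(p7 n c y hb).2]
        exact hc
      · change ((mk n c y hb).dim : ℕ∞) < N
        rw [(p7 n c y hb).1]
        exact hn
    · have hs : y ∈ sphere (0 : E n) 1 := by
        rw [mem_sphere]
        rw [mem_closedBall] at hy
        rw [mem_ball, not_lt] at hb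
        exact le_antisymm hy hb
      rw [p2 n c y hs]
      refine ⟨?_, ?_⟩
      · change 0 ≤ χ (Additive.ofMul (c.1 • ψ n c.2 y).gr)
        rw [(p4 c.1 (ψ n c.2 y)).2.1, ofMul_mul, map_add]
        have : 0 ≤ χ (Additive.ofMul (ψ n c.2 y).gr) := hψ n c.2 hn y hs
        exact add_nonneg hc this
      · change ((c.1 • ψ n c.2 y).dim : ℕ∞) < N
        rw [(p4 c.1 (ψ n c.2 y)).1]
        have h1 : (ψ n c.2 y).dim < n := (hG n hn c.2).1 y hs
        exact lt_trans (by exact_mod_cast h1) hn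
  refine ⟨CWComplex.Subcomplex.mk' C (st ψ N (Pp χ ∩ Lt N))
    (fun n => {j | 0 ≤ χ (Additive.ofMul (e n j).1.1)}) ?_ ?_, rfl, fun n j => Iff.rfl⟩
  · rintro n ⟨i, hi⟩ x ⟨y, hy, rfl⟩
    change map n i y ∈ _
    rw [he n i y hy]
    exact key n (e n i).1 y (e n i).2 hi hy
  · apply Set.Subset.antisymm
    · intro x hx
      simp only [mem_iUnion] at hx
      obtain ⟨n, ⟨i, hi⟩, y, hy, rfl⟩ := hx
      change map n i y ∈ _
      rw [he n i y (ball_subset_closedBall hy)]
      exact key n (e n i).1 y (e n i).2 hi (ball_subset_closedBall hy)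
    · intro x hx
      obtain ⟨n, c, y, h, hx'⟩ := p6 x
      have hx1 : 0 ≤ χ (Additive.ofMul (mk n c y h).gr) := by
        rw [← hx']
        exact hx.1
      have hx2 : ((mk n c y h).dim : ℕ∞) < N := by
        rw [← hx']
        exact hx.2
      rw [(p7 n c y h).2] at hx1
      rw [(p7 n c y h).1] at hx2
      simp only [mem_iUnion]
      refine ⟨n, ⟨(e n).symm ⟨c, hx2⟩, ?_⟩, y, h, ?_⟩
      · change 0 ≤ χ (Additive.ofMul (e n ((e n).symm ⟨c, hx2⟩)).1.1)
        rw [Equiv.apply_symm_apply]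
        exact hx1
      · change map n ((e n).symm ⟨c, hx2⟩) y = x
        rw [he n _ y (ball_subset_closedBall h), Equiv.apply_symm_apply]
        change Ph ψ n c y = x
        rw [p1 n c y h]
        exact hx'.symm

end Pool.Agent.Work.MP_e9e200_al.O3A

end
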