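import Pool.Agent.Work.MP_e9e200_al.Bd.B18
import Pool.Agent.Work.MP_e9e200_al.Bd.B12

/-! Bundle of small proof modules (one section per former module). -/

section

set_option autoImplicit false

namespace Pool.Agent.Work.MP_e9e200_al.HS

open Loc
open scoped Pointwise

namespace XBASE

variable {G Q : Type} [Group G] [CommGroup Q] {n : ℕ} (S : Loc G Q n)

theorem pos_one : S.pos 1 = 0 := by
  have h := S.pos_mul 1 1
  rw [mul_one] at h
  exact left_eq_add.1 h

theorem pos_inv (q : Q) : S.pos q⁻¹ = -S.pos q := by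
  have h := S.pos_mul q q⁻¹
  rw [mul_inv_cancel, pos_one] at h
  exact (neg_eq_of_add_eq_zero_right h.symm).symm

theorem Lt_fin (l : ℝ) : (S.Lt l).Finite := by
  have h1 : (S.sec '' {q | ‖S.pos q‖ ≤ l}).Finite := (S.fin l).image _
  have h2 : ((fun q => (S.sec q)⁻¹) '' {q | ‖S.pos q‖ ≤ l}).Finite := (S.fin l).image _
  refine (h1.union h2).subset ?_
  rintro x ⟨q, hq, rfl | rfl⟩
  · exact Or.inl ⟨q, hq, rfl⟩
  · exact Or.inr ⟨q, hq, rfl⟩

theorem comm_closure {H : Type} [Group H] (s : Set H) (hs : ∀ a ∈ s, ∀ b ∈ s, a * b = b * a)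
    {x y : H} (hx : x ∈ Subgroup.closure s) (hy : y ∈ Subgroup.closure s) : x * y = y * x := by
  have h1 : Subgroup.closure s ≤ Subgroup.centralizer s := by
    rw [Subgroup.closure_le]
    intro a ha
    rw [SetLike.mem_coe, Subgroup.mem_centralizer_iff]
    intro b hb
    exact hs b hb a ha
  have h2 : Subgroup.closure s ≤ Subgroup.centralizer (Subgroup.closure s : Set H) := by
    rw [Subgroup.closure_le]
    intro a ha
    rw [SetLike.mem_coe, Subgroup.mem_centralizer_iff]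
    intro b hb
    exact ((Subgroup.mem_centralizer_iff.1 (h1 hb)) a ha).symm
  exact ((Subgroup.mem_centralizer_iff.1 (h2 hx)) y hy).symm

end XBASE

open XBASE

theorem I_BASE : StBASE := by
  intro G Q _ _ n S T hT R
  set L0 : Set G := S.sec '' {f | ‖S.pos f‖ ≤ 2 * R} with hL0
  set A1 : Set G := {g | S.pr g = 1 ∧ ∃ u ∈ L0, ∃ x ∈ S.B T, ∃ w ∈ L0, g = u * x * w⁻¹} with hA1
  have hL0f : L0.Finite := (S.fin _).image _
  have hBf : (S.B T).Finite := (Lt_fin S _).union hT.fin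
  have hA1f : A1.Finite := by
    refine ((hL0f.mul hBf).mul hL0f.inv).subset ?_
    rintro g ⟨_, u, hu, x, hx, w, hw, rfl⟩
    exact Set.mul_mem_mul (Set.mul_mem_mul hu hx) (Set.inv_mem_inv.2 hw)
  refine ⟨{1} ∪ (L0 ∪ (S.B T ∪ (L0 * S.B T ∪ (A1 ∪ (A1 * A1))))),
    (Set.finite_singleton 1).union (hL0f.union (hBf.union ((hL0f.mul hBf).union
      (hA1f.union (hA1f.mul hA1f))))), ?_⟩
  intro H _ c hflat b0 hb0 b h h' hh hh'
  set X₀ : Set G := {1} ∪ (L0 ∪ (S.B T ∪ (L0 * S.B T ∪ (A1 ∪ (A1 * A1))))) with hX₀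
  have m1 : (1 : G) ∈ X₀ := Or.inl rfl
  have m2 : ∀ g ∈ L0, g ∈ X₀ := fun g hg => Or.inr (Or.inl hg)
  have m3 : ∀ g ∈ S.B T, g ∈ X₀ := fun g hg => Or.inr (Or.inr (Or.inl hg))
  have m4 : ∀ g ∈ L0 * S.B T, g ∈ X₀ := fun g hg => Or.inr (Or.inr (Or.inr (Or.inl hg)))
  have m5 : ∀ g ∈ A1, g ∈ X₀ := fun g hg => Or.inr (Or.inr (Or.inr (Or.inr (Or.inl hg))))
  have m6 : ∀ g ∈ A1 * A1, g ∈ X₀ := fun g hg => Or.inr (Or.inr (Or.inr (Or.inr (Or.inr hg))))
  have hstart : ∀ {p q : Q} {k : H}, S.Pth c (S.B T) (S.ball b0 R) p q k →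
      p ∈ S.ball b0 R ∧ q ∈ S.ball b0 R := by
    intro p q k hp
    induction hp with
    | nil hq => exact ⟨hq, hq⟩
    | snoc x _ _ hx ih => exact ⟨ih.1, hx⟩
  have hb : b ∈ S.ball b0 R := (hstart hh).1
  have hsec : ∀ q ∈ S.ball b0 R, S.sec (b⁻¹ * q) ∈ L0 := by
    intro q hq
    refine ⟨b⁻¹ * q, ?_, rfl⟩
    rw [Set.mem_ofPred_eq, S.pos_mul, pos_inv]
    have e : -S.pos b + S.pos q = (S.pos q - S.pos b0) - (S.pos b - S.pos b0) := by abel
    rw [e]
    refine (norm_sub_le _ _).trans ?_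
    have h1 := hq.2
    have h2 := hb.2
    linarith
  have hone : c b 1 = 1 := by
    have h1 := hflat b 1 1 m1 m1 (by rw [mul_one]; exact m1) hb.1
      (by rw [map_one, mul_one]; exact hb.1) (by rw [map_one, mul_one, mul_one]; exact hb.1)
    rw [map_one, mul_one, mul_one] at h1
    exact left_eq_mul.1 h1
  have key : ∀ {p q : Q} {k : H}, S.Pth c (S.B T) (S.ball b0 R) p q k → p = b →
      k * (c b (S.sec (b⁻¹ * q)))⁻¹ ∈ Subgroup.closure {g : H | ∃ a ∈ A1, g = c b a} := by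
    intro p q k hp
    induction hp with
    | nil hq =>
      intro hq'
      subst hq'
      rw [inv_mul_cancel, S.sec_one, hone, inv_one, mul_one]
      exact one_mem _
    | @snoc q k x hpq hx hqx ih =>
      intro hpb
      have ih' := ih hpb
      have hq : q ∈ S.ball b0 R := (hstart hpq).2
      have e1 : b * S.pr (S.sec (b⁻¹ * q)) = q := by rw [S.pr_sec]; group
      have f1 := hflat b (S.sec (b⁻¹ * q)) x (m2 _ (hsec q hq)) (m3 _ hx)
        (m4 _ (Set.mul_mem_mul (hsec q hq) hx)) hb.1 (by rw [e1]; exact hq.1)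
        (by rw [e1]; exact hqx.1)
      rw [e1] at f1
      set a : G := S.sec (b⁻¹ * q) * x * (S.sec (b⁻¹ * (q * S.pr x)))⁻¹ with ha
      have hpra : S.pr a = 1 := by
        rw [ha, map_mul, map_mul, map_inv, S.pr_sec, S.pr_sec]
        group
      have haA : a ∈ A1 := ⟨hpra, _, hsec q hq, x, hx, _, hsec _ hqx, rfl⟩
      have e2 : a * S.sec (b⁻¹ * (q * S.pr x)) = S.sec (b⁻¹ * q) * x := by
        rw [ha]; group
      have f2 := hflat b a (S.sec (b⁻¹ * (q * S.pr x))) (m5 _ haA) (m2 _ (hsec _ hqx))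
        (by rw [e2]; exact m4 _ (Set.mul_mem_mul (hsec q hq) hx)) hb.1
        (by rw [hpra, mul_one]; exact hb.1)
        (by
          rw [hpra, mul_one, S.pr_sec]
          have : b * (b⁻¹ * (q * S.pr x)) = q * S.pr x := by group
          rw [this]
          exact hqx.1)
      rw [e2, hpra, mul_one, f1] at f2
      have e3 : k * c q x * (c b (S.sec (b⁻¹ * (q * S.pr x))))⁻¹ =
          k * (c b (S.sec (b⁻¹ * q)))⁻¹ * c b a := by
        have : c b a = c b (S.sec (b⁻¹ * q)) * c q x * (c b (S.sec (b⁻¹ * (q * S.pr x))))⁻¹ := by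
          rw [f2]; group
        rw [this]
        group
      rw [e3]
      exact mul_mem ih' (Subgroup.subset_closure ⟨a, haA, rfl⟩)
  have k1 := key hh rfl
  have k2 := key hh' rfl
  rw [inv_mul_cancel, S.sec_one, hone, inv_one, mul_one] at k1 k2
  refine comm_closure _ ?_ k1 k2
  rintro _ ⟨a, ha, rfl⟩ _ ⟨a', ha', rfl⟩
  have g1 := hflat b a a' (m5 _ ha) (m5 _ ha') (m6 _ (Set.mul_mem_mul ha ha')) hb.1
    (by rw [ha.1, mul_one]; exact hb.1) (by rw [ha.1, ha'.1, mul_one, mul_one]; exact hb.1)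
  have g2 := hflat b a' a (m5 _ ha') (m5 _ ha) (m6 _ (Set.mul_mem_mul ha' ha)) hb.1
    (by rw [ha'.1, mul_one]; exact hb.1) (by rw [ha.1, ha'.1, mul_one, mul_one]; exact hb.1)
  rw [ha.1, mul_one] at g1
  rw [ha'.1, mul_one] at g2
  rw [← g1, ← g2, S.comm a a' ha.1 ha'.1]

end Pool.Agent.Work.MP_e9e200_al.HS

end

section

/-!
# Project HS: item GL
-/

set_option autoImplicit false

namespace Pool.Agent.Work.MP_e9e200_al.HS

open Loc

namespace XGL

section
variable {G Q : Type} [Group G] [CommGroup Q] {n : ℕ} (S : Loc G Q n)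

theorem cl_mono {T : Set G} {P P' : Q → Prop} (h : ∀ f, P f → P' f) :
    S.cl T P ≤ S.cl T P' := by
  refine Subgroup.closure_mono ?_
  rintro g ⟨f, hf, t, ht, rfl⟩
  exact ⟨f, h f hf, t, ht, rfl⟩

theorem pos_one : S.pos 1 = 0 := by
  have h := S.pos_mul 1 1
  rw [mul_one] at h
  exact left_eq_add.1 h

theorem conj_sec {t : G} (ht : S.pr t = 1) (y f : Q) :
    S.sec y * (S.sec f * t * (S.sec f)⁻¹) * (S.sec y)⁻¹ =
      S.sec (y * f) * t * (S.sec (y * f))⁻¹ := by
  have hk : S.pr (S.sec y * S.sec f * (S.sec (y * f))⁻¹) = 1 := by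
    rw [map_mul, map_mul, map_inv, S.pr_sec, S.pr_sec, S.pr_sec, mul_inv_cancel]
  have hc : S.pr (S.sec (y * f) * t * (S.sec (y * f))⁻¹) = 1 := by
    rw [map_mul, map_mul, map_inv, ht, mul_one, mul_inv_cancel]
  have h := S.comm _ _ hk hc
  have e1 : S.sec y * (S.sec f * t * (S.sec f)⁻¹) * (S.sec y)⁻¹ =
      (S.sec y * S.sec f * (S.sec (y * f))⁻¹) * (S.sec (y * f) * t * (S.sec (y * f))⁻¹) *
        (S.sec y * S.sec f * (S.sec (y * f))⁻¹)⁻¹ := by group
  rw [e1, h, mul_inv_cancel_right]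

theorem conj_cl {T : Set G} (hT : ∀ t ∈ T, S.pr t = 1) {P P' : Q → Prop} (y : Q)
    (h : ∀ f, P f → P' (y * f)) {g : G} (hg : g ∈ S.cl T P) :
    S.sec y * g * (S.sec y)⁻¹ ∈ S.cl T P' := by
  refine Subgroup.closure_induction
    (p := fun g _ => S.sec y * g * (S.sec y)⁻¹ ∈ S.cl T P') ?_ ?_ ?_ ?_ hg
  · rintro _ ⟨f, hf, t, ht, rfl⟩
    rw [conj_sec S (hT t ht)]
    exact Subgroup.subset_closure ⟨y * f, h f hf, t, ht, rfl⟩
  · rw [mul_one, mul_inv_cancel]
    exact one_mem _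
  · intro a b _ _ ha hb
    have e1 : S.sec y * (a * b) * (S.sec y)⁻¹ =
        (S.sec y * a * (S.sec y)⁻¹) * (S.sec y * b * (S.sec y)⁻¹) := by group
    rw [e1]
    exact mul_mem ha hb
  · intro a _ ha
    have e1 : S.sec y * a⁻¹ * (S.sec y)⁻¹ = (S.sec y * a * (S.sec y)⁻¹)⁻¹ := by group
    rw [e1]
    exact inv_mem ha

theorem cl_sub {T : Set G} {P P' : Q → Prop}
    (h : ∀ f, P f → ∀ t ∈ T, S.sec f * t * (S.sec f)⁻¹ ∈ S.cl T P') :
    S.cl T P ≤ S.cl T P' := by
  rw [Loc.cl, Subgroup.closure_le]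
  rintro _ ⟨f, hf, t, ht, rfl⟩
  exact h f hf t ht

end

theorem max_sq (s r : ℝ) : (max 0 (s - r)) ^ 2 ≤ (max 0 s) ^ 2 - 2 * r * max 0 s + r ^ 2 := by
  have h1 : (max 0 s) ^ 2 - 2 * r * max 0 s + r ^ 2 = (max 0 s - r) ^ 2 := by ring
  rw [h1]
  rcases le_total (s - r) 0 with h | h
  · rw [max_eq_left h]
    nlinarith [sq_nonneg (max 0 s - r)]
  · rw [max_eq_right h]
    exact pow_le_pow_left₀ h (by linarith [le_max_right 0 s]) 2

section
variable {n : ℕ}

/-- the potential -/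
noncomputable def Phi (M : ℝ) (z u y : Eu n) : ℝ :=
  (max 0 (M + inner ℝ y z)) ^ 2 + (max 0 (M - inner ℝ y u)) ^ 2

theorem Phi_nonneg (M : ℝ) (z u y : Eu n) : 0 ≤ Phi M z u y := by
  unfold Phi; positivity

theorem Phi_zero (M : ℝ) (hM : 0 ≤ M) (z u : Eu n) : Phi M z u 0 = 2 * M ^ 2 := by
  rw [Phi, inner_zero_left, inner_zero_left, add_zero, sub_zero, max_eq_right hM]
  ring

/-- the direction of the move -/
noncomputable def gg (M : ℝ) (z u y : Eu n) : Eu n :=
  (max 0 (M - inner ℝ y u)) • u - (max 0 (M + inner ℝ y z)) • z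

theorem gg_norm (M : ℝ) (z u y : Eu n) (hz : ‖z‖ = 1) (hu : ‖u‖ = 1)
    (hzu : 2 * inner ℝ z u ≤ (1 : ℝ)) : Phi M z u y / 2 ≤ ‖gg M z u y‖ ^ 2 := by
  have ha : 0 ≤ max 0 (M + inner ℝ y z) := le_max_left _ _
  have hb : 0 ≤ max 0 (M - inner ℝ y u) := le_max_left _ _
  unfold gg Phi
  generalize max 0 (M + inner ℝ y z) = a at *
  generalize max 0 (M - inner ℝ y u) = b at *
  rw [norm_sub_sq_real, norm_smul, norm_smul, hz, hu, inner_smul_left, inner_smul_right,
    Real.norm_eq_abs, Real.norm_eq_abs, mul_one, mul_one, sq_abs, sq_abs, real_inner_comm]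
  simp only [conj_trivial]
  nlinarith [mul_nonneg ha hb, sq_nonneg (a - b), mul_nonneg (mul_nonneg ha hb)
    (sub_nonneg.2 hzu)]

theorem Phi_move (M : ℝ) (z u y f : Eu n) (hz : ‖z‖ = 1) (hu : ‖u‖ = 1) (D : ℝ)
    (hf : ‖f‖ ≤ D) :
    Phi M z u (y + f) ≤ Phi M z u y - 2 * inner ℝ f (gg M z u y) + 2 * D ^ 2 := by
  have h1 := max_sq (M + inner ℝ y z) (- inner ℝ f z)
  have h2 := max_sq (M - inner ℝ y u) (inner ℝ f u)
  have e1 : M + inner ℝ (y + f) z = M + inner ℝ y z - - inner ℝ f z := by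
    rw [inner_add_left]; ring
  have e2 : M - inner ℝ (y + f) u = M - inner ℝ y u - inner ℝ f u := by
    rw [inner_add_left]; ring
  have h3 : (inner ℝ f z : ℝ) ^ 2 ≤ D ^ 2 := by
    have h4 := abs_real_inner_le_norm f z
    rw [hz, mul_one] at h4
    exact sq_le_sq.2 (le_trans h4 (le_trans hf (le_abs_self D)))
  have h5 : (inner ℝ f u : ℝ) ^ 2 ≤ D ^ 2 := by
    have h4 := abs_real_inner_le_norm f u
    rw [hu, mul_one] at h4
    exact sq_le_sq.2 (le_trans h4 (le_trans hf (le_abs_self D)))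
  unfold Phi gg
  rw [e1, e2, inner_sub_right, inner_smul_right, inner_smul_right]
  nlinarith

end

section
variable {G Q : Type} [Group G] [CommGroup Q] {n : ℕ} (S : Loc G Q n)

theorem main_ind {T : Set G} (hT : ∀ t ∈ T, S.pr t = 1) (D1 d1 M P0 : ℝ) (hM : 0 ≤ M)
    (z u : Eu n) (hz : ‖z‖ = 1) (hu : ‖u‖ = 1)
    (hD1 : 0 ≤ D1)
    (hg : ∀ y : Eu n, P0 < Phi M z u y → ∃ w : Eu n, gg M z u y = ‖gg M z u y‖ • w ∧
      2 * D1 ^ 2 + 1 ≤ 2 * d1 * ‖gg M z u y‖ ∧ ∀ t ∈ T,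
        t ∈ S.cl T (fun f => ‖S.pos f‖ ≤ D1 ∧ d1 ≤ inner ℝ (S.pos f) w)) (k : ℕ) :
    ∀ t ∈ T, t ∈ S.cl T (fun f => ‖S.pos f‖ ≤ k * D1 ∧
      (Phi M z u (S.pos f) ≤ P0 ∨ Phi M z u (S.pos f) ≤ 2 * M ^ 2 - k)) := by
  induction k with
  | zero =>
    intro t ht
    refine Subgroup.subset_closure ⟨1, ⟨?_, ?_⟩, t, ht, ?_⟩
    · rw [pos_one]; simp
    · right
      rw [pos_one, Phi_zero M hM]
      simp
    · rw [S.sec_one]; simp
  | succ k ih =>
    intro t ht
    refine cl_sub S ?_ (ih t ht)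
    rintro y ⟨hy1, hy2⟩ t' ht'
    by_cases hP : Phi M z u (S.pos y) ≤ P0
    · refine Subgroup.subset_closure ⟨y, ⟨?_, Or.inl hP⟩, t', ht', rfl⟩
      push_cast
      nlinarith
    · have hP2 : Phi M z u (S.pos y) ≤ 2 * M ^ 2 - k := by
        rcases hy2 with h | h
        · exact absurd h hP
        · exact h
      obtain ⟨w, hw1, hw2, hw3⟩ := hg (S.pos y) (not_le.1 hP)
      refine conj_cl S hT y ?_ (hw3 t' ht')
      rintro f ⟨hf1, hf2⟩
      rw [S.pos_mul]
      refine ⟨?_, Or.inr ?_⟩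
      · push_cast
        refine (norm_add_le _ _).trans ?_
        linarith
      · have h1 := Phi_move M z u (S.pos y) (S.pos f) hz hu D1 hf1
        rw [hw1, inner_smul_right] at h1
        have h2 : d1 * ‖gg M z u (S.pos y)‖ ≤
            ‖gg M z u (S.pos y)‖ * inner ℝ (S.pos f) w := by
          rw [mul_comm]
          exact mul_le_mul_of_nonneg_left hf2 (norm_nonneg _)
        push_cast
        linarith

end

end XGL

open XGL in
theorem I_GL (hM1 : StM1) : StGL := by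
  intro G Q _ _ n S T hTOK ρ hρ
  have hcomp : IsCompact {w : Eu n | ‖w‖ = 1 ∧ ∀ g : Eu n, ‖g‖ = 1 → ¬ S.Mov T g →
      ρ ≤ ‖g - w‖} := by
    refine Metric.isCompact_of_isClosed_isBounded ?_ ?_
    · have e : {w : Eu n | ‖w‖ = 1 ∧ ∀ g : Eu n, ‖g‖ = 1 → ¬ S.Mov T g → ρ ≤ ‖g - w‖} =
          {w : Eu n | ‖w‖ = 1} ∩ ⋂ (g : Eu n) (_ : ‖g‖ = 1) (_ : ¬ S.Mov T g),
            {w : Eu n | ρ ≤ ‖g - w‖} := by
        ext w
        simp
      rw [e]
      refine IsClosed.inter (isClosed_eq continuous_norm continuous_const) ?_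
      refine isClosed_iInter fun g => isClosed_iInter fun _ => isClosed_iInter fun _ => ?_
      exact isClosed_le continuous_const (by fun_prop)
    · refine (Metric.isBounded_closedBall (x := (0 : Eu n)) (r := 1)).subset ?_
      rintro w ⟨hw, _⟩
      rw [mem_closedBall_zero_iff, hw]
  obtain ⟨D', d1, hd1, hC⟩ := hM1 G Q n S T _ hcomp (by
    rintro w ⟨hw1, hw2⟩
    by_contra hmov
    have h := hw2 w hw1 hmov
    rw [sub_self, norm_zero] at h
    linarith)
  -- constants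
  obtain ⟨D1, hD1, hD'⟩ : ∃ D1 : ℝ, 0 ≤ D1 ∧ D' ≤ D1 := ⟨max 0 D', le_max_left _ _,
    le_max_right _ _⟩
  obtain ⟨c, hc⟩ : ∃ c : ℝ, c = (2 * D1 ^ 2 + 1) / (2 * d1) := ⟨_, rfl⟩
  have hc0 : 0 < c := by rw [hc]; positivity
  have hc1 : 2 * d1 * c = 2 * D1 ^ 2 + 1 := by rw [hc]; field_simp
  obtain ⟨M, hM⟩ : ∃ M : ℝ, M = Real.sqrt (2 * c ^ 2) + 1 := ⟨_, rfl⟩
  have hM0 : 0 ≤ M := by rw [hM]; positivity
  obtain ⟨k, hk⟩ := exists_nat_gt (2 * M ^ 2)
  refine ⟨max (k * D1) D1, min 1 d1, le_max_of_le_right hD1, lt_min one_pos hd1, ?_⟩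
  intro z hz hbad s hs hcase t ht
  have hin : ∀ (w : Eu n) (α β : ℝ), 0 ≤ α → 0 ≤ β → w = β • S.nuh - α • z → ‖w‖ = 1 →
      w ∈ {w : Eu n | ‖w‖ = 1 ∧ ∀ g : Eu n, ‖g‖ = 1 → ¬ S.Mov T g → ρ ≤ ‖g - w‖} := by
    intro w α β hα hβ hw hw1
    refine ⟨hw1, fun g hg hmov => ?_⟩
    by_contra hlt
    exact hbad ⟨g, hg, hmov, α, β, hα, hβ, by rw [← hw]; exact (not_le.1 hlt).le⟩
  by_cases hfar : max (k * D1) D1 * ‖S.nu‖ ≤ s
  · have h1 := hC (-z) (hin (-z) 1 0 zero_le_one le_rfl (by simp) (by rw [norm_neg, hz])) t ht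
    refine cl_mono S ?_ h1
    rintro f ⟨hf1, hf2⟩
    rw [inner_neg_right] at hf2
    refine ⟨(hf1.trans hD').trans (le_max_right _ _), (min_le_right _ _).trans hf2, ?_⟩
    have h2 := abs_le.1 (abs_real_inner_le_norm S.nu (S.pos f))
    have h3 : ‖S.nu‖ * ‖S.pos f‖ ≤ max (k * D1) D1 * ‖S.nu‖ := by
      rw [mul_comm]
      exact mul_le_mul_of_nonneg_right ((hf1.trans hD').trans (le_max_right _ _))
        (norm_nonneg _)
    have h4 : S.v f = inner ℝ S.nu (S.pos f) := rfl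
    rw [h4]
    linarith [h2.1]
  · have hzu : 2 * inner ℝ z S.nuh ≤ (1 : ℝ) := by
      rcases hcase with h | h
      · exact absurd h hfar
      · exact h
    have hnu : 0 < ‖S.nu‖ := by
      refine lt_of_le_of_ne (norm_nonneg _) fun h => hfar ?_
      rw [← h, mul_zero]
      exact hs
    have hu : ‖S.nuh‖ = 1 := by
      rw [Loc.nuh, norm_smul, norm_inv, norm_norm, inv_mul_cancel₀ hnu.ne']
    have h1 := main_ind S hTOK.ker D1 d1 M (2 * c ^ 2) hM0 z S.nuh hz hu hD1 (by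
      intro y hy
      have h2 := gg_norm M z S.nuh y hz hu hzu
      have h3 : c ^ 2 < ‖gg M z S.nuh y‖ ^ 2 := by linarith
      have h4 : c < ‖gg M z S.nuh y‖ := lt_of_pow_lt_pow_left₀ 2 (norm_nonneg _) h3
      have h5 : 0 < ‖gg M z S.nuh y‖ := hc0.trans h4
      refine ⟨‖gg M z S.nuh y‖⁻¹ • gg M z S.nuh y, ?_, ?_, ?_⟩
      · rw [smul_smul, mul_inv_cancel₀ h5.ne', one_smul]
      · rw [← hc1]
        exact mul_le_mul_of_nonneg_left h4.le (by positivity)
      · intro t ht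
        refine cl_mono S ?_ (hC (‖gg M z S.nuh y‖⁻¹ • gg M z S.nuh y)
          (hin (‖gg M z S.nuh y‖⁻¹ • gg M z S.nuh y)
          (‖gg M z S.nuh y‖⁻¹ * max 0 (M + inner ℝ y z))
          (‖gg M z S.nuh y‖⁻¹ * max 0 (M - inner ℝ y S.nuh)) (by positivity) (by positivity)
          ?_ ?_) t ht)
        · rintro f ⟨hf1, hf2⟩
          exact ⟨hf1.trans hD', hf2⟩
        · rw [mul_smul, mul_smul, ← smul_sub]
          rfl
        · rw [norm_smul, norm_inv, norm_norm, inv_mul_cancel₀ h5.ne']) k t ht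
    refine cl_mono S ?_ h1
    rintro f ⟨hf1, hf2⟩
    have h6 : Phi M z S.nuh (S.pos f) ≤ 2 * c ^ 2 := by
      rcases hf2 with h | h
      · exact h
      · have := Phi_nonneg M z S.nuh (S.pos f)
        linarith
    have hr : 0 ≤ Real.sqrt (2 * c ^ 2) := Real.sqrt_nonneg _
    have hr2 : Real.sqrt (2 * c ^ 2) ^ 2 = 2 * c ^ 2 := Real.sq_sqrt (by positivity)
    have h7 : M + inner ℝ (S.pos f) z ≤ Real.sqrt (2 * c ^ 2) := by
      refine (le_max_right 0 _).trans (le_of_sq_le_sq ?_ hr)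
      rw [hr2]
      refine le_trans ?_ h6
      unfold Phi
      nlinarith [sq_nonneg (max 0 (M - inner ℝ (S.pos f) S.nuh))]
    have h8 : M - inner ℝ (S.pos f) S.nuh ≤ Real.sqrt (2 * c ^ 2) := by
      refine (le_max_right 0 _).trans (le_of_sq_le_sq ?_ hr)
      rw [hr2]
      refine le_trans ?_ h6
      unfold Phi
      nlinarith [sq_nonneg (max 0 (M + inner ℝ (S.pos f) z))]
    refine ⟨hf1.trans (le_max_left _ _), (min_le_left _ _).trans (by linarith), ?_⟩
    have h9 : S.v f = ‖S.nu‖ * inner ℝ (S.pos f) S.nuh := by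
      have e1 : S.nu = ‖S.nu‖ • S.nuh := by
        rw [Loc.nuh, smul_smul, mul_inv_cancel₀ hnu.ne', one_smul]
      have e2 : S.v f = inner ℝ S.nu (S.pos f) := rfl
      rw [e2]
      conv_lhs => rw [e1]
      rw [inner_smul_left, real_inner_comm]
      simp
    rw [h9]
    have h10 : 0 ≤ inner ℝ (S.pos f) S.nuh := by linarith
    positivity

end Pool.Agent.Work.MP_e9e200_al.HS

end

section

/-!
# Project HS, item HOL: the holonomy of closed words is trivial
-/

set_option autoImplicit false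

namespace Pool.Agent.Work.MP_e9e200_al.HS

open Loc

namespace XHOL

variable {G Q : Type} [Group G] [CommGroup Q] {n : ℕ}

lemma Flat_mono (S : Loc G Q n) {H : Type} [Group H] {X X' : Set G} (h : X ⊆ X') {c : Q → G → H}
    (hc : S.Flat X' c) : S.Flat X c :=
  fun q x y hx hy hxy h1 h2 h3 => hc q x y (h hx) (h hy) (h hxy) h1 h2 h3

lemma v_one (S : Loc G Q n) : S.v 1 = 0 := by
  have h : S.pos 1 = 0 := by
    have h1 := S.pos_mul 1 1
    rw [mul_one] at h1
    simpa using h1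
  unfold Loc.v
  rw [h, inner_zero_right]

/-- words give paths -/
lemma word_path (S : Loc G Q n) (χ : Additive G →+ ℝ)
    (hχ : ∀ g, χ (Additive.ofMul g) = S.v (S.pr g)) {H : Type} [Group H] (c : Q → G → H)
    (X B : Set G) (hXB : X ⊆ B)
    (hcomp : ∀ p q r h h', S.Pth c B S.half p q h → S.Pth c B S.half q r h' →
      S.Pth c B S.half p r (h * h')) :
    ∀ (w : List G) (g : G), Ok χ X g w →
      S.Pth c B S.half (S.pr g) (S.pr (g * w.prod)) (S.hol c (S.pr g) w) := by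
  intro w
  induction w with
  | nil =>
    intro g hg
    have h1 : 0 ≤ χ (Additive.ofMul g) := hg
    rw [hχ] at h1
    rw [List.prod_nil, mul_one]
    exact Pth.nil (S.pr g) h1
  | cons x w ih =>
    intro g hg
    obtain ⟨h1, hx, hw⟩ := hg
    have h2 := ih (g * x) hw
    rw [hχ] at h1
    have h3 : 0 ≤ S.v (S.pr g * S.pr x) := by
      rw [← map_mul, ← hχ]
      cases w with
      | nil => exact hw
      | cons y w => exact hw.1
    have h4 : S.Pth c B S.half (S.pr g) (S.pr g * S.pr x) (1 * c (S.pr g) x) :=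
      Pth.snoc x (Pth.nil (S.pr g) h1) (hXB hx) h3
    rw [one_mul] at h4
    rw [List.prod_cons, ← mul_assoc]
    rw [map_mul S.pr g x] at h2
    exact hcomp _ _ _ _ _ h4 h2

end XHOL

theorem I_HOL (hCYC : StCYC) (hPB : StPB) : StHOL := by
  classical
  intro G Q _ _ n S χ hχ hFP hComm X₁ hX₁ hX₁inv hX₁one hCon
  obtain ⟨X₂, hX₂, hX₁₂, hcyc⟩ := hCYC G χ hFP X₁ hX₁ hX₁inv hX₁one hCon
  set B : Set G := X₂ ∪ X₂⁻¹ ∪ {1} with hB
  have hBfin : B.Finite := (hX₂.union hX₂.inv).union (Set.finite_singleton 1)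
  have hX₂B : X₂ ⊆ B := fun x hx => Or.inl (Or.inl hx)
  have hBinv : ∀ x ∈ B, x⁻¹ ∈ B := by
    rintro x ((hx | hx) | hx)
    · exact Or.inl (Or.inr (by rw [Set.mem_inv, inv_inv]; exact hx))
    · exact Or.inl (Or.inl hx)
    · rw [Set.mem_singleton_iff] at hx
      subst hx
      exact Or.inr (by simp)
  obtain ⟨X₀', hX₀', hcomm⟩ := hComm B hBfin
  refine ⟨X₀' ∪ B, hX₀'.union hBfin, ?_⟩
  intro H _ c hc
  have hcomm' := hcomm H c (XHOL.Flat_mono S Set.subset_union_left hc)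
  have hcB : S.Flat B c := XHOL.Flat_mono S Set.subset_union_right hc
  obtain ⟨hcomp, hrev, -⟩ := hPB G Q n S H c B B S.half hcB (Set.Subset.refl _)
    (Or.inr rfl) hBinv (Set.Subset.refl _)
  have hwp := XHOL.word_path S χ hχ c X₁ B (hX₁₂.trans hX₂B) hcomp
  have hχ1 : 0 ≤ χ (Additive.ofMul (1 : G)) := by
    rw [hχ, map_one, XHOL.v_one]
  -- the base point and the paths
  have hpath : ∀ g : G, 0 ≤ χ (Additive.ofMul g) → ∃ h : H,
      S.Pth c B S.half 1 (S.pr g) h := by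
    intro g hg
    obtain ⟨w, hw, hwg⟩ := hCon 1 g hχ1 hg
    have h1 := hwp w 1 hw
    rw [hwg, map_one] at h1
    exact ⟨_, h1⟩
  let P : G → H := fun g => if h : 0 ≤ χ (Additive.ofMul g) then (hpath g h).choose else 1
  have hP : ∀ g, 0 ≤ χ (Additive.ofMul g) → S.Pth c B S.half 1 (S.pr g) (P g) := by
    intro g hg
    have h1 : P g = (hpath g hg).choose := dif_pos hg
    rw [h1]
    exact (hpath g hg).choose_spec
  -- the subgroup of holonomies
  let K : Subgroup H :=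
    { carrier := {h | S.Pth c B S.half 1 1 h}
      mul_mem' := fun {a b} ha hb => hcomp _ _ _ _ _ ha hb
      one_mem' := Pth.nil 1 (by show 0 ≤ S.v 1; rw [XHOL.v_one])
      inv_mem' := fun {a} ha => hrev _ _ _ ha }
  have hKc : ∀ a b : K, a * b = b * a := by
    intro a b
    apply Subtype.ext
    exact hcomm' 1 a b a.2 b.2
  letI : CommGroup K := { (inferInstance : Group K) with mul_comm := hKc }
  have hmem : ∀ g x, (0 ≤ χ (Additive.ofMul g) ∧ 0 ≤ χ (Additive.ofMul (g * x)) ∧ x ∈ B) →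
      P g * c (S.pr g) x * (P (g * x))⁻¹ ∈ K := by
    rintro g x ⟨h1, h2, hx⟩
    show S.Pth c B S.half 1 1 (P g * c (S.pr g) x * (P (g * x))⁻¹)
    refine hcomp _ (S.pr (g * x)) _ _ _ ?_ (hrev _ _ _ (hP _ h2))
    rw [map_mul]
    refine Pth.snoc x (hP g h1) hx ?_
    show 0 ≤ S.v (S.pr g * S.pr x)
    rw [← map_mul, ← hχ]
    exact h2
  let φ : G → G → Additive K := fun g x =>
    if h : 0 ≤ χ (Additive.ofMul g) ∧ 0 ≤ χ (Additive.ofMul (g * x)) ∧ x ∈ B then
      Additive.ofMul ⟨_, hmem g x h⟩ else 0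
  have hφ : ∀ g x, 0 ≤ χ (Additive.ofMul g) → 0 ≤ χ (Additive.ofMul (g * x)) → x ∈ B →
      ((Additive.toMul (φ g x) : K) : H) = P g * c (S.pr g) x * (P (g * x))⁻¹ := by
    intro g x h1 h2 h3
    have h4 : φ g x = Additive.ofMul ⟨_, hmem g x ⟨h1, h2, h3⟩⟩ := dif_pos ⟨h1, h2, h3⟩
    rw [h4]
    rfl
  have htri : ∀ g x y, x ∈ X₂ → y ∈ X₂ → x * y ∈ X₂ → 0 ≤ χ (Additive.ofMul g) →
      0 ≤ χ (Additive.ofMul (g * x)) → 0 ≤ χ (Additive.ofMul (g * x * y)) →
      φ g (x * y) = φ g x + φ (g * x) y := by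
    intro g x y hx hy hxy h1 h2 h3
    apply Additive.toMul.injective
    apply Subtype.ext
    rw [toMul_add, Subgroup.coe_mul, hφ g x h1 h2 (hX₂B hx), hφ (g * x) y h2 h3 (hX₂B hy),
      hφ g (x * y) h1 (by rw [← mul_assoc]; exact h3) (hX₂B hxy)]
    rw [hcB (S.pr g) x y (hX₂B hx) (hX₂B hy) (hX₂B hxy) (by rw [← hχ]; exact h1)
      (by rw [← map_mul, ← hχ]; exact h2) (by rw [← map_mul, ← map_mul, ← hχ]; exact h3),
      map_mul S.pr g x, ← mul_assoc g x y]
    group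
  have htel : ∀ (w : List G) (g : G), Ok χ X₁ g w →
      ((Additive.toMul (sm φ g w) : K) : H) =
        P g * S.hol c (S.pr g) w * (P (g * w.prod))⁻¹ := by
    intro w
    induction w with
    | nil =>
      intro g _
      rw [List.prod_nil, mul_one]
      show (1 : H) = P g * 1 * (P g)⁻¹
      rw [mul_one, mul_inv_cancel]
    | cons x w ih =>
      intro g hg
      obtain ⟨h1, hx, hw⟩ := hg
      have h2 := ih (g * x) hw
      have h3 : 0 ≤ χ (Additive.ofMul (g * x)) := by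
        cases w with
        | nil => exact hw
        | cons y w => exact hw.1
      show ((Additive.toMul (φ g x + sm φ (g * x) w) : K) : H) =
        P g * (c (S.pr g) x * S.hol c (S.pr g * S.pr x) w) * (P (g * (x :: w).prod))⁻¹
      rw [toMul_add, Subgroup.coe_mul, h2, hφ g x h1 h3 (hX₂B (hX₁₂ hx)), List.prod_cons,
        map_mul S.pr g x, ← mul_assoc g x w.prod]
      group
  intro g w hw hprod
  have h1 := hcyc (Additive K) φ htri g w hw hprod
  have h2 := htel w g hw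
  rw [h1, hprod, mul_one] at h2
  have h3 : (1 : H) = P g * S.hol c (S.pr g) w * (P g)⁻¹ := h2
  have h4 : P g * S.hol c (S.pr g) w = P g := (eq_mul_inv_iff_mul_eq.1 h3 ▸ (by rw [one_mul]))
  exact mul_eq_left.1 h4

end Pool.Agent.Work.MP_e9e200_al.HS

end

section

/-!
# Project HS, item MFG: finite generation of the kernel over a half space implies movability
-/

set_option autoImplicit false

namespace Pool.Agent.Work.MP_e9e200_al.HS

open Loc

namespace XMFG

variable {G Q : Type} [Group G] [CommGroup Q] {n : ℕ}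

theorem cl_mono (S : Loc G Q n) (T : Set G) {P P' : Q → Prop} (h : ∀ f, P f → P' f) :
    S.cl T P ≤ S.cl T P' := by
  refine Subgroup.closure_mono ?_
  rintro g ⟨f, hf, t, ht, rfl⟩
  exact ⟨f, h f hf, t, ht, rfl⟩

/-- conjugation in the kernel depends only on the image in `Q` -/
theorem conj_eq (S : Loc G Q n) (g t : G) (ht : S.pr t = 1) :
    g * t * g⁻¹ = S.sec (S.pr g) * t * (S.sec (S.pr g))⁻¹ := by
  have ha : S.pr ((S.sec (S.pr g))⁻¹ * g) = 1 := by
    rw [map_mul, map_inv, S.pr_sec, inv_mul_cancel]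
  have hc := S.comm _ _ ha ht
  have h1 : g = S.sec (S.pr g) * ((S.sec (S.pr g))⁻¹ * g) := by group
  calc g * t * g⁻¹ = S.sec (S.pr g) * (((S.sec (S.pr g))⁻¹ * g) * t) *
        ((S.sec (S.pr g))⁻¹ * g)⁻¹ * (S.sec (S.pr g))⁻¹ := by group
    _ = S.sec (S.pr g) * t * (S.sec (S.pr g))⁻¹ := by
        rw [hc]
        group

theorem cl_conj (S : Loc G Q n) (T : Set G) (hT : ∀ t ∈ T, S.pr t = 1) (u : G)
    {P P' : Q → Prop} (h : ∀ f, P f → P' (S.pr u * f)) {g : G} (hg : g ∈ S.cl T P) :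
    u * g * u⁻¹ ∈ S.cl T P' := by
  unfold cl at hg
  induction hg using Subgroup.closure_induction with
  | mem x hx =>
    obtain ⟨f, hf, t, ht, rfl⟩ := hx
    refine Subgroup.subset_closure ⟨S.pr u * f, h f hf, t, ht, ?_⟩
    have h1 := conj_eq S (u * S.sec f) t (hT t ht)
    rw [map_mul, S.pr_sec] at h1
    rw [← h1]
    group
  | one =>
    rw [mul_one, mul_inv_cancel]
    exact one_mem _
  | mul x y _ _ hx hy =>
    have e : u * (x * y) * u⁻¹ = (u * x * u⁻¹) * (u * y * u⁻¹) := by group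
    rw [e]
    exact mul_mem hx hy
  | inv x _ hx =>
    have e : u * x⁻¹ * u⁻¹ = (u * x * u⁻¹)⁻¹ := by group
    rw [e]
    exact inv_mem hx

theorem cl_bdd (S : Loc G Q n) (T : Set G) {P : Q → Prop} {g : G} (hg : g ∈ S.cl T P) :
    ∃ D : ℝ, g ∈ S.cl T (fun f => ‖S.pos f‖ ≤ D ∧ P f) := by
  unfold cl at hg
  induction hg using Subgroup.closure_induction with
  | mem x hx =>
    obtain ⟨f, hf, t, ht, rfl⟩ := hx
    exact ⟨‖S.pos f‖, Subgroup.subset_closure ⟨f, ⟨le_rfl, hf⟩, t, ht, rfl⟩⟩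
  | one => exact ⟨0, one_mem _⟩
  | mul x y _ _ hx hy =>
    obtain ⟨D, hD⟩ := hx
    obtain ⟨E, hE⟩ := hy
    exact ⟨max D E, mul_mem (cl_mono S T (fun f hf => ⟨hf.1.trans (le_max_left _ _), hf.2⟩) hD)
      (cl_mono S T (fun f hf => ⟨hf.1.trans (le_max_right _ _), hf.2⟩) hE)⟩
  | inv x _ hx =>
    obtain ⟨D, hD⟩ := hx
    exact ⟨D, inv_mem hD⟩

theorem cl_bdd_fin (S : Loc G Q n) (T : Set G) {P : Q → Prop} {V : Set G} (hV : V.Finite)
    (h : ∀ v ∈ V, v ∈ S.cl T P) :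
    ∃ D : ℝ, 0 ≤ D ∧ ∀ v ∈ V, v ∈ S.cl T (fun f => ‖S.pos f‖ ≤ D ∧ P f) := by
  induction V, hV using Set.Finite.induction_on with
  | empty => exact ⟨0, le_rfl, fun v hv => absurd hv (Set.notMem_empty v)⟩
  | @insert a s _ _ ih =>
    obtain ⟨D, hD0, hD⟩ := ih fun v hv => h v (Set.mem_insert_of_mem _ hv)
    obtain ⟨E, hE⟩ := cl_bdd S T (h a (Set.mem_insert _ _))
    refine ⟨max D E, hD0.trans (le_max_left _ _), ?_⟩
    rintro v (rfl | hv)
    · exact cl_mono S T (fun f hf => ⟨hf.1.trans (le_max_right _ _), hf.2⟩) hE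
    · exact cl_mono S T (fun f hf => ⟨hf.1.trans (le_max_left _ _), hf.2⟩) (hD v hv)

/-- elements of `Q` far in the direction `w` -/
theorem exists_far (S : Loc G Q n) {w : Eu n} (hw : w ≠ 0) (C : ℝ) :
    ∃ z : Q, C ≤ inner ℝ (S.pos z) w := by
  have hw0 : 0 < ‖w‖ := norm_pos_iff.2 hw
  set r := (C + S.a * ‖w‖) / ‖w‖ ^ 2 with hr
  refine ⟨S.rd (r • w), ?_⟩
  have h1 : S.pos (S.rd (r • w)) = r • w + (S.pos (S.rd (r • w)) - r • w) := by abel
  have h2 : -(S.a * ‖w‖) ≤ inner ℝ (S.pos (S.rd (r • w)) - r • w) w := by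
    have h3 := abs_real_inner_le_norm (S.pos (S.rd (r • w)) - r • w) w
    have h4 : ‖S.pos (S.rd (r • w)) - r • w‖ * ‖w‖ ≤ S.a * ‖w‖ :=
      mul_le_mul_of_nonneg_right (S.rd_spec _) hw0.le
    have h5 := (abs_le.1 h3).1
    linarith
  have h6 : inner ℝ (r • w) w = C + S.a * ‖w‖ := by
    rw [real_inner_smul_left, real_inner_self_eq_norm_sq, hr]
    field_simp
  rw [h1, inner_add_left, h6]
  linarith

end XMFG

open XMFG in
theorem I_MFG : StMFG := by
  rintro G Q _ _ n S T hT w hw ⟨V, hV, hVk, hgen⟩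
  have hk := hT.ker
  obtain ⟨D, hD0, hD⟩ := cl_bdd_fin S T hV fun v hv => hT.gen v (hVk v hv)
  -- everything is in the group generated by a half space
  have h1 : ∀ g, S.pr g = 1 → g ∈ S.cl T (fun f => -(D * ‖w‖) ≤ inner ℝ (S.pos f) w) := by
    intro g hg
    refine (Subgroup.closure_le _).2 ?_ (hgen g hg)
    rintro x ⟨u, v, hu, hv, rfl⟩
    refine cl_conj S T hk u ?_ (hD v hv)
    intro f hf
    rw [S.pos_mul, inner_add_left]
    have h3 := (abs_le.1 (abs_real_inner_le_norm (S.pos f) w)).1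
    have h4 : ‖S.pos f‖ * ‖w‖ ≤ D * ‖w‖ := mul_le_mul_of_nonneg_right hf.1 (norm_nonneg _)
    linarith
  obtain ⟨z, hz⟩ := exists_far S hw (D * ‖w‖ + 1)
  have h2 : ∀ g, S.pr g = 1 → g ∈ S.cl T (fun f => 1 ≤ inner ℝ (S.pos f) w) := by
    intro g hg
    have hg' : S.pr ((S.sec z)⁻¹ * g * S.sec z) = 1 := by
      rw [map_mul, map_mul, hg, mul_one, map_inv, inv_mul_cancel]
    have h3 := cl_conj S T hk (S.sec z) (P' := fun f => 1 ≤ inner ℝ (S.pos f) w)
      (fun f hf => by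
        rw [S.pr_sec, S.pos_mul, inner_add_left]
        linarith) (h1 _ hg')
    have e : S.sec z * ((S.sec z)⁻¹ * g * S.sec z) * (S.sec z)⁻¹ = g := by group
    rw [e] at h3
    exact h3
  refine ⟨?_, fun g hg => cl_mono S T (fun f hf => zero_le_one.trans hf) (h2 g hg)⟩
  obtain ⟨E, _, hE⟩ := cl_bdd_fin S T hT.fin fun t ht => h2 t (hk t ht)
  exact ⟨E, 1, one_pos, hE⟩

end Pool.Agent.Work.MP_e9e200_al.HS

end

section

/-!
# Project HS: moving the elements `tau`
-/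

set_option autoImplicit false

namespace Pool.Agent.Work.MP_e9e200_al.HS

open Loc

namespace XMOVE

section

variable {G Q : Type} [Group G] [CommGroup Q] {n : ℕ} (S : Loc G Q n)

lemma Lt_fin (l : ℝ) : (S.Lt l).Finite := by
  have h : S.Lt l ⊆ (S.sec '' {q | ‖S.pos q‖ ≤ l}) ∪
      ((fun q => (S.sec q)⁻¹) '' {q | ‖S.pos q‖ ≤ l}) := by
    rintro x ⟨q, hq, h | h⟩
    · exact Or.inl ⟨q, hq, h.symm⟩
    · exact Or.inr ⟨q, hq, h.symm⟩
  exact (((S.fin l).image _).union ((S.fin l).image _)).subset h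

lemma B_fin {T : Set G} (hT : S.TOK T) : (S.B T).Finite := (Lt_fin S _).union hT.fin

lemma B_inv {T : Set G} (hT : S.TOK T) : ∀ x ∈ S.B T, x⁻¹ ∈ S.B T := by
  rintro x (⟨q, hq, h | h⟩ | hx)
  · exact Or.inl ⟨q, hq, Or.inr (by rw [h])⟩
  · exact Or.inl ⟨q, hq, Or.inl (by rw [h, inv_inv])⟩
  · exact Or.inr (hT.inv x hx)

lemma flat_mono {H : Type} [Group H] {X X' : Set G} {c : Q → G → H} (h : X' ⊆ X)
    (hc : S.Flat X c) : S.Flat X' c :=
  fun q x y hx hy hxy h1 h2 h3 => hc q x y (h hx) (h hy) (h hxy) h1 h2 h3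

lemma exists_J {D : ℝ} : ∃ J : ℕ, 1 ≤ J ∧ D ≤ 8 * S.a * J := by
  have ha : 0 < 8 * S.a := by have := S.a_pos; linarith
  obtain ⟨J, hJ⟩ := exists_nat_ge (D / (8 * S.a))
  refine ⟨J + 1, by omega, ?_⟩
  rw [div_le_iff₀ ha] at hJ
  push_cast
  nlinarith

end

end XMOVE

open XMOVE in
theorem I_MOVE (hPB : StPB) (hPI : StPI) (hST : StST) (hHS : StHS) (hLOC : StLOC)
    (hEXPR : StEXPR) (hCOV : StCOV) : StMOVE := by
  intro G Q _ _ n S T hT D hD
  obtain ⟨J₂, hJ₂, hDJ₂⟩ := exists_J S (D := D)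
  obtain ⟨XE, hXE, hexpr⟩ := hEXPR G Q n S T T {f | ‖S.pos f‖ ≤ D} hT.fin hT.ker hT.fin (S.fin D)
  obtain ⟨A₂, XL, -, hXL, -, hloc⟩ := hLOC G Q n S T hT (S.sec '' {f | ‖S.pos f‖ ≤ D})
    ((S.fin D).image _) D J₂ (by
      rintro x ⟨f, hf, rfl⟩
      rw [S.pr_sec]
      exact hf) hJ₂ hDJ₂
  obtain ⟨η, R₁, hη, hcov⟩ := hCOV G Q n S (D + 2 * S.a) (by have := S.a_pos; linarith)
  refine ⟨max (max η R₁) 0, (XE ∪ XL) ∪ (S.B T ∪ {1}), (hXE.union hXL).union
    ((B_fin S hT).union (Set.finite_singleton _)), ?_⟩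
  intro H _ c hflat R hR hComm b J hb hJ hRJ hJR p hp P hP hTP t ht
  have hRη : η ≤ R := le_trans (le_trans (le_max_left _ _) (le_max_left _ _)) hR
  have hRR : R₁ ≤ R := le_trans (le_trans (le_max_right _ _) (le_max_left _ _)) hR
  have hJη : 2 * S.a * J ≤ R - η := by
    have h1 : η ≤ max (max η R₁) 0 := le_trans (le_max_left _ _) (le_max_left _ _)
    linarith
  have ha := S.a_pos
  have hBX : S.B T ⊆ (XE ∪ XL) ∪ (S.B T ∪ {1}) := fun x hx => Or.inr (Or.inl hx)
  have h1X : (1 : G) ∈ (XE ∪ XL) ∪ (S.B T ∪ {1}) := Or.inr (Or.inr rfl)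
  have hfE : S.Flat XE c := flat_mono S (fun x hx => Or.inl (Or.inl hx)) hflat
  have hfL : S.Flat XL c := flat_mono S (fun x hx => Or.inl (Or.inr hx)) hflat
  have hE := hexpr H c hfE p P hp.1 (fun f hf => ⟨(hP f hf).1, (hP f hf).2.1⟩) t ht (hTP t ht)
  -- the key property
  have key : ∀ f, P f → ∀ t' ∈ T, S.hs c b p J J *
      (c p (S.sec f) * c (p * f) t' * (c p (S.sec f))⁻¹) * (S.hs c b p J J)⁻¹ =
      S.tau c b J (p * f) t' := by
    intro f hf t' ht'
    obtain ⟨hfD, hpf⟩ := hP f hf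
    obtain ⟨a, -, ha1, ha2⟩ := hloc H c hfL p (S.sec f) ⟨f, hfD, rfl⟩ hp.1
      (by rw [S.pr_sec]; exact hpf.1)
    rw [S.pr_sec] at ha1 ha2
    obtain ⟨c', hc', hbc, hqc⟩ := hcov R hRR b p hb hp.1 hp.2
    have hposf : ‖S.pos (p * f) - S.pos p‖ ≤ D := by
      rw [S.pos_mul, add_sub_cancel_left]; exact hfD
    have hpc : ‖S.pos p - S.pos c'‖ ≤ R := hqc p (by rw [sub_self, norm_zero]; linarith)
    have hpfc : ‖S.pos (p * f) - S.pos c'‖ ≤ R := hqc (p * f) (by linarith)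
    obtain ⟨st1, -, -, st4, -⟩ := hST G Q n S b p p c' J hJ
    have hall : ∀ j, S.st b p J j ∈ S.ball c' R := fun j =>
      ⟨st1 hb hp.1 j, st4 η R hbc hpc hJη j⟩
    obtain ⟨st1', -, -, st4', -⟩ := hST G Q n S b (p * f) p c' J hJ
    have hall' : ∀ j, S.st b (p * f) J j ∈ S.ball c' R := fun j =>
      ⟨st1' hb hpf.1 j, st4' η R hbc hpfc hJη j⟩
    obtain ⟨st1'', -, -, -, st5⟩ := hST G Q n S p (p * f) p c' J₂ hJ₂
    have hall'' : ∀ j, S.st p (p * f) J₂ j ∈ S.ball c' R := fun j =>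
      ⟨st1'' hp.1 hpf.1 j, hqc _ (le_trans (st5 j) (by linarith))⟩
    have p1 := (hHS G Q n S H c T (S.ball c' R) b p J hJ (le_trans hp.2 hRJ) hall).2
    have p2 := (hHS G Q n S H c T (S.ball c' R) p (p * f) J₂ hJ₂ (le_trans hposf hDJ₂)
      hall'').2
    have p3 := (hHS G Q n S H c T (S.ball c' R) b (p * f) J hJ (le_trans hpf.2 hRJ) hall').2
    have p12 := (hPB G Q n S H c ((XE ∪ XL) ∪ (S.B T ∪ {1})) (S.B T) (S.ball c' R) hflat hBX h1X
      (B_inv S hT) (fun x hx => hx.1)).1 b p (p * f) _ _ p1 p2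
    have hpi := hPI G Q n S H c ((XE ∪ XL) ∪ (S.B T ∪ {1})) (S.B T) (S.ball c' R) hflat hBX h1X
      (B_inv S hT) (fun x hx => hx.1) (hComm c' hc') b (p * f) _ _ t' p12 p3 (Or.inr ht')
      (hT.ker t' ht')
    rw [tau, ← hpi, ha1]
    have h3 := ha2 t' ht'
    generalize c (p * f) a = A at h3 ⊢
    generalize c (p * f) t' = C at h3 ⊢
    generalize S.hs c b p J J = g
    generalize S.hs c p (p * f) J₂ J₂ = h
    calc g * (h * A * C * (h * A)⁻¹) * g⁻¹ = g * h * (A * C) * A⁻¹ * h⁻¹ * g⁻¹ := by group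
      _ = g * h * (C * A) * A⁻¹ * h⁻¹ * g⁻¹ := by rw [h3]
      _ = g * h * C * (g * h)⁻¹ := by group
  -- conjugation of the closure
  show S.hs c b p J J * c p t * (S.hs c b p J J)⁻¹ ∈ _
  generalize c p t = w at hE ⊢
  induction hE using Subgroup.closure_induction with
  | mem x hx =>
    obtain ⟨f, hf, t', ht', rfl⟩ := hx
    rw [key f hf t' ht']
    exact Subgroup.subset_closure ⟨f, hf, t', ht', rfl⟩
  | one => rw [mul_one, mul_inv_cancel]; exact one_mem _
  | mul x y _ _ hx hy =>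
    have h4 : S.hs c b p J J * (x * y) * (S.hs c b p J J)⁻¹ =
        (S.hs c b p J J * x * (S.hs c b p J J)⁻¹) * (S.hs c b p J J * y * (S.hs c b p J J)⁻¹) := by
      group
    rw [h4]
    exact mul_mem hx hy
  | inv x _ hx =>
    have h4 : S.hs c b p J J * x⁻¹ * (S.hs c b p J J)⁻¹ =
        (S.hs c b p J J * x * (S.hs c b p J J)⁻¹)⁻¹ := by group
    rw [h4]
    exact inv_mem hx

end Pool.Agent.Work.MP_e9e200_al.HS

end

section

/-! Item N of project HS: two bad directions lie in a common open half space together with `nu`. -/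

set_option autoImplicit false

namespace Pool.Agent.Work.MP_e9e200_al.HS

open Loc

namespace XN

/-- three vectors whose convex hull does not contain zero lie in an open half space -/
theorem sep {n : ℕ} (a b c : Eu n)
    (h : ∀ x y z : ℝ, 0 ≤ x → 0 ≤ y → 0 ≤ z → x + y + z = 1 → x • a + y • b + z • c ≠ 0) :
    ∃ w : Eu n, ‖w‖ = 1 ∧ ∃ e : ℝ, 0 < e ∧ inner ℝ a w ≤ -e ∧ inner ℝ b w ≤ -e ∧
      inner ℝ c w ≤ -e := by
  classical
  have hconv : Convex ℝ {p : Eu n | ∃ x y z : ℝ, 0 ≤ x ∧ 0 ≤ y ∧ 0 ≤ z ∧ x + y + z = 1 ∧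
      p = x • a + y • b + z • c} := by
    rintro p ⟨x, y, z, hx, hy, hz, hs, rfl⟩ q ⟨x', y', z', hx', hy', hz', hs', rfl⟩ s t hs0 ht0 hst
    refine ⟨s * x + t * x', s * y + t * y', s * z + t * z', by positivity, by positivity,
      by positivity, ?_, ?_⟩
    · have : s * x + t * x' + (s * y + t * y') + (s * z + t * z') =
          s * (x + y + z) + t * (x' + y' + z') := by ring
      rw [this, hs, hs']
      linarith
    · module
  have hsub : convexHull ℝ ({a, b, c} : Set (Eu n)) ⊆ {p : Eu n | ∃ x y z : ℝ, 0 ≤ x ∧ 0 ≤ y ∧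
      0 ≤ z ∧ x + y + z = 1 ∧ p = x • a + y • b + z • c} := by
    apply convexHull_min _ hconv
    intro p hp
    simp only [Set.mem_insert_iff, Set.mem_singleton_iff] at hp
    rcases hp with rfl | rfl | rfl
    · exact ⟨1, 0, 0, by norm_num, le_refl _, le_refl _, by norm_num, by simp⟩
    · exact ⟨0, 1, 0, le_refl _, by norm_num, le_refl _, by norm_num, by simp⟩
    · exact ⟨0, 0, 1, le_refl _, le_refl _, by norm_num, by norm_num, by simp⟩
  have h0 : (0 : Eu n) ∉ convexHull ℝ ({a, b, c} : Set (Eu n)) := by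
    intro h0
    obtain ⟨x, y, z, hx, hy, hz, hs, he⟩ := hsub h0
    exact h x y z hx hy hz hs he.symm
  have hfin : ({a, b, c} : Set (Eu n)).Finite := Set.toFinite _
  obtain ⟨f, u, hf0, hfb⟩ := geometric_hahn_banach_point_closed (convex_convexHull ℝ _)
    (hfin.isClosed_convexHull ℝ) h0
  have hu : 0 < u := by simpa using hf0
  have ha := hfb a (subset_convexHull ℝ _ (by simp))
  have hb := hfb b (subset_convexHull ℝ _ (by simp))
  have hc := hfb c (subset_convexHull ℝ _ (by simp))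
  set y : Eu n := (InnerProductSpace.toDual ℝ (Eu n)).symm f with hy
  have hfy : ∀ v : Eu n, inner ℝ v y = f v := by
    intro v
    rw [real_inner_comm, hy]
    exact InnerProductSpace.toDual_symm_apply
  have hy0 : y ≠ 0 := by
    intro h0
    have := hfy a
    rw [h0, inner_zero_right] at this
    linarith
  have hny : 0 < ‖y‖ := norm_pos_iff.mpr hy0
  refine ⟨-(‖y‖⁻¹ • y), ?_, u / ‖y‖, by positivity, ?_, ?_, ?_⟩
  · rw [norm_neg, norm_smul, norm_inv, norm_norm]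
    field_simp
  · rw [inner_neg_right, inner_smul_right, hfy, neg_le_neg_iff, div_eq_inv_mul]
    exact mul_le_mul_of_nonneg_left ha.le (by positivity)
  · rw [inner_neg_right, inner_smul_right, hfy, neg_le_neg_iff, div_eq_inv_mul]
    exact mul_le_mul_of_nonneg_left hb.le (by positivity)
  · rw [inner_neg_right, inner_smul_right, hfy, neg_le_neg_iff, div_eq_inv_mul]
    exact mul_le_mul_of_nonneg_left hc.le (by positivity)

/-- the movable vectors form an open set -/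
theorem mov_open {G Q : Type} [Group G] [CommGroup Q] {n : ℕ} (S : Loc G Q n) (T : Set G) :
    IsOpen {w : Eu n | S.Mov T w} := by
  rw [Metric.isOpen_iff]
  rintro w ⟨D, δ, hδ, hD⟩
  refine ⟨δ / (2 * (|D| + 1)), by positivity, ?_⟩
  intro w' hw'
  refine ⟨D, δ / 2, by positivity, ?_⟩
  intro t ht
  have hle : S.cl T (fun f => ‖S.pos f‖ ≤ D ∧ δ ≤ inner ℝ (S.pos f) w) ≤
      S.cl T (fun f => ‖S.pos f‖ ≤ D ∧ δ / 2 ≤ inner ℝ (S.pos f) w') := by
    apply Subgroup.closure_mono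
    rintro g ⟨f, ⟨hf1, hf2⟩, t', ht', rfl⟩
    refine ⟨f, ⟨hf1, ?_⟩, t', ht', rfl⟩
    have h1 : |inner ℝ (S.pos f) (w' - w)| ≤ ‖S.pos f‖ * ‖w' - w‖ := abs_real_inner_le_norm _ _
    rw [mem_ball_iff_norm] at hw'
    have h2 : ‖S.pos f‖ * ‖w' - w‖ ≤ (|D| + 1) * (δ / (2 * (|D| + 1))) := by
      apply mul_le_mul _ hw'.le (norm_nonneg _) (by positivity)
      have := le_abs_self D
      linarith
    have h3 : (|D| + 1) * (δ / (2 * (|D| + 1))) = δ / 2 := by
      field_simp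
    rw [inner_sub_right] at h1
    have h4 := (abs_le.mp h1).1
    linarith
  exact hle (hD t ht)

/-- the unit vectors which are not movable form a compact set -/
theorem gam_compact {G Q : Type} [Group G] [CommGroup Q] {n : ℕ} (S : Loc G Q n) (T : Set G) :
    IsCompact {w : Eu n | ‖w‖ = 1 ∧ ¬ S.Mov T w} := by
  have h1 : {w : Eu n | ‖w‖ = 1 ∧ ¬ S.Mov T w} =
      Metric.sphere (0 : Eu n) 1 ∩ {w : Eu n | S.Mov T w}ᶜ := by
    ext w
    simp
  rw [h1]
  exact (isCompact_sphere (0 : Eu n) 1).inter_right (mov_open S T).isClosed_compl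

/-- step 1 -/
theorem step1 {G Q : Type} [Group G] [CommGroup Q] {n : ℕ} (S : Loc G Q n) (T : Set G)
    (hN : S.NoRel T) (g₁ g₂ : Eu n) (h₁ : ‖g₁‖ = 1) (h₂ : ‖g₂‖ = 1) (m₁ : ¬ S.Mov T g₁)
    (m₂ : ¬ S.Mov T g₂) : ∃ w : Eu n, ‖w‖ = 1 ∧ ∃ e : ℝ, 0 < e ∧ inner ℝ g₁ w ≤ -e ∧
      inner ℝ g₂ w ≤ -e ∧ (S.nu ≠ 0 → e ≤ inner ℝ S.nuh w) := by
  by_cases hnu : S.nu = 0
  · obtain ⟨w, hw, e, he, ha, hb, -⟩ := sep g₁ g₂ g₂ (by
      intro x y z hx hy hz hs h0
      apply hN g₁ g₂ h₁ h₂ m₁ m₂ x (y + z) 0 hx (by positivity) le_rfl (by linarith)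
      rw [zero_smul, ← h0]
      module)
    exact ⟨w, hw, e, he, ha, hb, fun h => absurd hnu h⟩
  · obtain ⟨w, hw, e, he, ha, hb, hc⟩ := sep g₁ g₂ (-S.nuh) (by
      intro x y z hx hy hz hs h0
      have hnn : 0 < ‖S.nu‖ := norm_pos_iff.mpr hnu
      rcases lt_or_ge 0 (x + y) with hxy | hxy
      · apply hN g₁ g₂ h₁ h₂ m₁ m₂ x y (z * ‖S.nu‖⁻¹) hx hy (by positivity) hxy
        have h5 : x • g₁ + y • g₂ = (x • g₁ + y • g₂ + z • -S.nuh) + z • S.nuh := by module
        rw [h5, h0, zero_add, Loc.nuh, smul_smul]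
      · have hx0 : x = 0 := by linarith
        have hy0 : y = 0 := by linarith
        have hz1 : z = 1 := by linarith
        rw [hx0, hy0, hz1] at h0
        have h6 : S.nuh = 0 := by
          have : (0 : ℝ) • g₁ + (0 : ℝ) • g₂ + (1 : ℝ) • -S.nuh = -S.nuh := by module
          rw [this] at h0
          exact neg_eq_zero.mp h0
        rw [Loc.nuh, smul_eq_zero] at h6
        rcases h6 with h6 | h6
        · exact absurd (inv_eq_zero.mp h6) hnn.ne'
        · exact hnu h6)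
    refine ⟨w, hw, e, he, ha, hb, fun _ => ?_⟩
    rw [inner_neg_left] at hc
    linarith

/-- step 2 -/
theorem step2 {G Q : Type} [Group G] [CommGroup Q] {n : ℕ} (S : Loc G Q n) (T : Set G)
    (hN : S.NoRel T) : ∃ e : ℝ, 0 < e ∧ ∀ g₁ g₂ : Eu n, ‖g₁‖ = 1 → ‖g₂‖ = 1 → ¬ S.Mov T g₁ →
      ¬ S.Mov T g₂ → ∃ w : Eu n, ‖w‖ = 1 ∧ inner ℝ g₁ w ≤ -e ∧
      inner ℝ g₂ w ≤ -e ∧ (S.nu ≠ 0 → e ≤ inner ℝ S.nuh w) := by
  have hC := (gam_compact S T).prod (gam_compact S T)
  have key := hC.induction_on (p := fun s : Set (Eu n × Eu n) => ∃ e : ℝ, 0 < e ∧ ∀ p ∈ s,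
    ∃ w : Eu n, ‖w‖ = 1 ∧ inner ℝ p.1 w ≤ -e ∧ inner ℝ p.2 w ≤ -e ∧
      (S.nu ≠ 0 → e ≤ inner ℝ S.nuh w)) ?_ ?_ ?_ ?_
  · obtain ⟨e, he, h⟩ := key
    exact ⟨e, he, fun g₁ g₂ h₁ h₂ m₁ m₂ => h (g₁, g₂) ⟨⟨h₁, m₁⟩, ⟨h₂, m₂⟩⟩⟩
  · exact ⟨1, one_pos, by simp⟩
  · rintro s t hst ⟨e, he, h⟩
    exact ⟨e, he, fun p hp => h p (hst hp)⟩
  · rintro s t ⟨e, he, h⟩ ⟨e', he', h'⟩
    refine ⟨min e e', lt_min he he', ?_⟩
    rintro p (hp | hp)
    · obtain ⟨w, hw, h1, h2, h3⟩ := h p hp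
      have := min_le_left e e'
      exact ⟨w, hw, by linarith, by linarith, fun h => this.trans (h3 h)⟩
    · obtain ⟨w, hw, h1, h2, h3⟩ := h' p hp
      have := min_le_right e e'
      exact ⟨w, hw, by linarith, by linarith, fun h => this.trans (h3 h)⟩
  · rintro ⟨g₁, g₂⟩ ⟨⟨h₁, m₁⟩, ⟨h₂, m₂⟩⟩
    obtain ⟨w, hw, e, he, h3, h4, h5⟩ := step1 S T hN g₁ g₂ h₁ h₂ m₁ m₂
    refine ⟨{p : Eu n × Eu n | inner ℝ p.1 w < -(e / 2) ∧ inner ℝ p.2 w < -(e / 2)}, ?_, e / 2,
      by positivity, ?_⟩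
    · apply mem_nhdsWithin_of_mem_nhds
      have o1 : IsOpen {p : Eu n × Eu n | inner ℝ p.1 w < -(e / 2)} :=
        isOpen_lt (continuous_fst.inner continuous_const) continuous_const
      have o2 : IsOpen {p : Eu n × Eu n | inner ℝ p.2 w < -(e / 2)} :=
        isOpen_lt (continuous_snd.inner continuous_const) continuous_const
      apply IsOpen.mem_nhds
      · exact o1.inter o2
      · constructor
        · change inner ℝ g₁ w < -(e / 2)
          linarith
        · change inner ℝ g₂ w < -(e / 2)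
          linarith
    · rintro p ⟨hp1, hp2⟩
      exact ⟨w, hw, hp1.le, hp2.le, fun h => by linarith [h5 h]⟩

/-- step 3 -/
theorem step3 {n : ℕ} (nuh w g z : Eu n) (e α β : ℝ) (he : 0 < e) (he1 : e ≤ 1) (hw : ‖w‖ = 1)
    (hg : inner ℝ g w ≤ -e) (hα : 0 ≤ α) (hβ : 0 ≤ β) (hz : ‖z‖ = 1)
    (hnu : nuh = 0 ∨ (‖nuh‖ = 1 ∧ e ≤ inner ℝ nuh w)) (hgn : ‖g‖ = 1)
    (h : ‖g - (β • nuh - α • z)‖ ≤ e / 2) : e / 8 ≤ inner ℝ z w := by
  have h1 : |inner ℝ (g - (β • nuh - α • z)) w| ≤ ‖g - (β • nuh - α • z)‖ * ‖w‖ :=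
    abs_real_inner_le_norm _ _
  rw [hw, mul_one] at h1
  have h2 := (abs_le.mp (h1.trans h)).2
  have h2' := (abs_le.mp (h1.trans h)).1
  rw [inner_sub_left, inner_sub_left, inner_smul_left, inner_smul_left] at h2 h2'
  simp only [conj_trivial] at h2 h2'
  have hb0 : 0 ≤ β * inner ℝ nuh w := by
    rcases hnu with h0 | ⟨-, h0⟩
    · rw [h0, inner_zero_left, mul_zero]
    · have := mul_nonneg hβ (he.le.trans h0)
      exact this
  have h3 : e / 2 + β * inner ℝ nuh w ≤ α * inner ℝ z w := by linarith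
  have hαpos : 0 < α := by
    rcases hα.lt_or_eq with h0 | h0
    · exact h0
    · rw [← h0, zero_mul] at h3
      linarith
  rcases le_or_gt α 3 with h4 | h4
  · have h5 : e / 2 ≤ α * inner ℝ z w := by linarith
    by_contra hcon
    push Not at hcon
    have : α * inner ℝ z w ≤ α * (e / 8) := mul_le_mul_of_nonneg_left hcon.le hα
    have : α * (e / 8) ≤ 3 * (e / 8) := mul_le_mul_of_nonneg_right h4 (by positivity)
    linarith
  · have h6 : α ≤ 1 + e / 2 + β * ‖nuh‖ := by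
      have : α • z = (g - (β • nuh - α • z)) - g + β • nuh := by module
      have h7 : ‖α • z‖ ≤ ‖g - (β • nuh - α • z)‖ + ‖g‖ + ‖β • nuh‖ := by
        calc ‖α • z‖ = ‖(g - (β • nuh - α • z)) - g + β • nuh‖ := by rw [← this]
          _ ≤ ‖(g - (β • nuh - α • z)) - g‖ + ‖β • nuh‖ := norm_add_le _ _
          _ ≤ ‖g - (β • nuh - α • z)‖ + ‖g‖ + ‖β • nuh‖ := by
            have := norm_sub_le (g - (β • nuh - α • z)) g
            linarith
      rw [norm_smul, norm_smul, hz, hgn, Real.norm_eq_abs, Real.norm_eq_abs, abs_of_nonneg hα,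
        abs_of_nonneg hβ] at h7
      linarith
    rcases hnu with h0 | ⟨h0, h8⟩
    · rw [h0, norm_zero, mul_zero] at h6
      linarith
    · rw [h0, mul_one] at h6
      have h9 : α - 2 ≤ β := by linarith
      have h10 : (α - 2) * e ≤ β * inner ℝ nuh w := by
        calc (α - 2) * e ≤ β * e := mul_le_mul_of_nonneg_right h9 he.le
          _ ≤ β * inner ℝ nuh w := mul_le_mul_of_nonneg_left h8 hβ
      by_contra hcon
      push Not at hcon
      have h11 : α * inner ℝ z w ≤ α * (e / 8) := mul_le_mul_of_nonneg_left hcon.le hα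
      nlinarith

end XN

theorem I_N : StN := by
  intro G Q _ _ n S T hN
  obtain ⟨e₀, he₀, h⟩ := XN.step2 S T hN
  set e := min e₀ 1 with hedef
  have he : 0 < e := lt_min he₀ one_pos
  have he1 : e ≤ 1 := min_le_right _ _
  have hee : e ≤ e₀ := min_le_left _ _
  refine ⟨e / 2, e / 8, by positivity, by positivity, ?_⟩
  rintro z z' hz hz' ⟨g, hg, hgm, α, β, hα, hβ, hc⟩ ⟨g', hg', hgm', α', β', hα', hβ', hc'⟩
  obtain ⟨w, hw, h1, h2, h3⟩ := h g g' hg hg' hgm hgm'
  have hnu : S.nuh = 0 ∨ (‖S.nuh‖ = 1 ∧ e ≤ inner ℝ S.nuh w) := by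
    by_cases h0 : S.nu = 0
    · left
      rw [Loc.nuh, h0, smul_zero]
    · right
      constructor
      · rw [Loc.nuh, norm_smul, norm_inv, norm_norm]
        exact inv_mul_cancel₀ (norm_pos_iff.mpr h0).ne'
      · exact hee.trans (h3 h0)
  refine ⟨w, hw, ?_, ?_, ?_⟩
  · exact XN.step3 S.nuh w g z e α β he he1 hw (by linarith) hα hβ hz hnu hg hc
  · exact XN.step3 S.nuh w g' z' e α' β' he he1 hw (by linarith) hα' hβ' hz' hnu hg' hc'
  · by_cases h0 : S.nu = 0
    · rw [h0, inner_zero_left]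
    · have h4 : S.nu = ‖S.nu‖ • S.nuh := by
        rw [Loc.nuh, smul_smul, mul_inv_cancel₀ (norm_pos_iff.mpr h0).ne', one_smul]
      rw [h4, inner_smul_left]
      have h5 : 0 ≤ inner ℝ S.nuh w := he.le.trans (hee.trans (h3 h0))
      simp only [conj_trivial]
      positivity

end Pool.Agent.Work.MP_e9e200_al.HS

end

section

/-!
# Project HS: from radius `R` to radius `R + 1`
-/

set_option autoImplicit false

namespace Pool.Agent.Work.MP_e9e200_al.HS

open Loc

namespace XSTEP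

section

variable {G Q : Type} [Group G] [CommGroup Q] {n : ℕ} (S : Loc G Q n)

lemma Lt_fin (l : ℝ) : (S.Lt l).Finite := by
  have h : S.Lt l ⊆ (S.sec '' {q | ‖S.pos q‖ ≤ l}) ∪
      ((fun q => (S.sec q)⁻¹) '' {q | ‖S.pos q‖ ≤ l}) := by
    rintro x ⟨q, hq, h | h⟩
    · exact Or.inl ⟨q, hq, h.symm⟩
    · exact Or.inr ⟨q, hq, h.symm⟩
  exact (((S.fin l).image _).union ((S.fin l).image _)).subset h

lemma B_fin {T : Set G} (hT : S.TOK T) : (S.B T).Finite := (Lt_fin S _).union hT.fin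

lemma B_inv {T : Set G} (hT : S.TOK T) : ∀ x ∈ S.B T, x⁻¹ ∈ S.B T := by
  rintro x (⟨q, hq, h | h⟩ | hx)
  · exact Or.inl ⟨q, hq, Or.inr (by rw [h])⟩
  · exact Or.inl ⟨q, hq, Or.inl (by rw [h, inv_inv])⟩
  · exact Or.inr (hT.inv x hx)

lemma flat_mono {H : Type} [Group H] {X X' : Set G} {c : Q → G → H} (h : X' ⊆ X)
    (hc : S.Flat X c) : S.Flat X' c :=
  fun q x y hx hy hxy h1 h2 h3 => hc q x y (h hx) (h hy) (h hxy) h1 h2 h3

lemma v_mul (p f : Q) : S.v (p * f) = S.v p + S.v f := by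
  rw [v, S.pos_mul, inner_add_right]; rfl

/-- commuting generators -/
lemma closure_comm {H : Type} [Group H] {s : Set H} (h : ∀ x ∈ s, ∀ y ∈ s, x * y = y * x) :
    ∀ x ∈ Subgroup.closure s, ∀ y ∈ Subgroup.closure s, x * y = y * x := by
  have h1 : Subgroup.closure s ≤ Subgroup.centralizer s := by
    rw [Subgroup.closure_le]
    intro x hx
    rw [SetLike.mem_coe, Subgroup.mem_centralizer_iff]
    intro y hy
    exact h y hy x hx
  have h2 : Subgroup.closure s ≤ Subgroup.centralizer (Subgroup.closure s : Set H) := by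
    rw [Subgroup.closure_le]
    intro x hx
    rw [SetLike.mem_coe, Subgroup.mem_centralizer_iff]
    intro y hy
    exact ((Subgroup.mem_centralizer_iff.1 (h1 hy)) x hx).symm
  intro x hx y hy
  exact (Subgroup.mem_centralizer_iff.1 (h2 hy)) x hx

/-- the number of steps -/
lemma exists_J {R : ℝ} (hR : 0 ≤ R) : ∃ J : ℕ, 1 ≤ J ∧ R + 1 ≤ 8 * S.a * J ∧
    2 * S.a * J ≤ (R + 1) / 4 + 2 * S.a := by
  have ha := S.a_pos
  have ha8 : 0 < 8 * S.a := by linarith
  have h0 : 0 < (R + 1) / (8 * S.a) := by positivity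
  refine ⟨⌈(R + 1) / (8 * S.a)⌉₊, Nat.ceil_pos.2 h0, ?_, ?_⟩
  · have h1 := Nat.le_ceil ((R + 1) / (8 * S.a))
    rw [div_le_iff₀ ha8] at h1
    linarith
  · have h1 := (Nat.ceil_lt_add_one h0.le).le
    have h2 : 2 * S.a * ((R + 1) / (8 * S.a) + 1) = (R + 1) / 4 + 2 * S.a := by
      field_simp
      ring
    rw [← h2]
    exact mul_le_mul_of_nonneg_left h1 (by linarith)

/-- the distance decreases -/
lemma dist_dec {p b f : Q} {D δ r : ℝ} (hr : ‖S.pos p - S.pos b‖ = r) (hr0 : 0 < r)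
    (hf : ‖S.pos f‖ ≤ D) (hδ : δ ≤ - inner ℝ (S.pos f) (r⁻¹ • (S.pos p - S.pos b)))
    (h : D ^ 2 + 1 ≤ 2 * δ * r) : ‖S.pos (p * f) - S.pos b‖ ^ 2 ≤ r ^ 2 - 1 := by
  have h1 : S.pos (p * f) - S.pos b = (S.pos p - S.pos b) + S.pos f := by
    rw [S.pos_mul]; abel
  rw [h1, norm_add_sq_real, hr]
  rw [inner_smul_right] at hδ
  have h2 : inner ℝ (S.pos p - S.pos b) (S.pos f) = inner ℝ (S.pos f) (S.pos p - S.pos b) :=
    real_inner_comm _ _
  rw [h2]
  generalize inner ℝ (S.pos f) (S.pos p - S.pos b) = u at hδ ⊢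
  have h3 : δ * r ≤ -u := by
    have h4 := mul_le_mul_of_nonneg_right hδ hr0.le
    have h5 : -(r⁻¹ * u) * r = -u := by field_simp
    linarith
  have h6 : ‖S.pos f‖ ^ 2 ≤ D ^ 2 := pow_le_pow_left₀ (norm_nonneg _) hf 2
  linarith

/-- the alternative in the lemma on moves -/
lemma alt {p b : Q} {D r : ℝ} (hr0 : 0 < r)
    (hb : 0 ≤ S.v b) (hp : 0 ≤ S.v p) (h : 2 * D ≤ r) :
    D * ‖S.nu‖ ≤ S.v p ∨ 2 * inner ℝ (r⁻¹ • (S.pos p - S.pos b)) S.nuh ≤ (1 : ℝ) := by
  by_cases h1 : D * ‖S.nu‖ ≤ S.v p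
  · exact Or.inl h1
  · right
    push Not at h1
    have h2 : 0 < ‖S.nu‖ := by
      rcases (norm_nonneg S.nu).lt_or_eq with h3 | h3
      · exact h3
      · rw [← h3, mul_zero] at h1
        exact absurd h1 (not_lt.2 hp)
    have h3 : inner ℝ (S.pos p - S.pos b) S.nu = S.v p - S.v b := by
      rw [inner_sub_left, v, v, real_inner_comm, real_inner_comm S.nu (S.pos b)]
    rw [nuh, inner_smul_left, inner_smul_right, h3]
    simp only [conj_trivial]
    have h4 : S.v p - S.v b ≤ D * ‖S.nu‖ := by linarith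
    have h5 : ‖S.nu‖⁻¹ * (S.v p - S.v b) ≤ D := by
      rw [inv_mul_le_iff₀ h2]; linarith
    have h6 : r⁻¹ * (‖S.nu‖⁻¹ * (S.v p - S.v b)) ≤ r⁻¹ * D :=
      mul_le_mul_of_nonneg_left h5 (inv_nonneg.2 hr0.le)
    have h7 : r⁻¹ * D ≤ 1 / 2 := by
      rw [inv_mul_le_iff₀ hr0]; linarith
    linarith

end

end XSTEP

open XSTEP in
theorem I_STEP (hPB : StPB) (hST : StST) (hHS : StHS) (hGENR : StGENR) (hMOVE : StMOVE)
    (hPAIR : StPAIR) (hN : StN) (hGL : StGL) : StSTEP := by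
  intro G Q _ _ n S T hT hNR
  obtain ⟨ρ, ε, hρ, hε, hbad⟩ := hN G Q n S T hNR
  obtain ⟨D, δ, hD, hδ, hgl⟩ := hGL G Q n S T hT ρ hρ
  obtain ⟨η, η₁, R₁, hη, hη₁, hpair⟩ := hPAIR G Q n S ε hε
  obtain ⟨R₂, X₂, hX₂, hgenr⟩ := hGENR G Q n S T hT
  obtain ⟨R₃, X₃, hX₃, hmove⟩ := hMOVE G Q n S T hT D hD
  have ha := S.a_pos
  have hq : 0 ≤ (D ^ 2 + 1) / (2 * δ) := by positivity
  refine ⟨1 + 8 * S.a + 4 * (|R₁| + |R₂| + |R₃| + η + η₁) + 2 * D + (D ^ 2 + 1) / (2 * δ),
    (X₂ ∪ X₃) ∪ (S.B T ∪ {1}), (hX₂.union hX₃).union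
    ((B_fin S hT).union (Set.finite_singleton _)), ?_⟩
  intro H _ c hflat R hR hComm b hb
  have hR1 := abs_nonneg R₁
  have hR2 := abs_nonneg R₂
  have hR3 := abs_nonneg R₃
  have hR1' := le_abs_self R₁
  have hR2' := le_abs_self R₂
  have hR3' := le_abs_self R₃
  obtain ⟨J, hJ, hRJ, hJR⟩ := exists_J S (R := R) (by linarith)
  have hBX : S.B T ⊆ (X₂ ∪ X₃) ∪ (S.B T ∪ {1}) := fun x hx => Or.inr (Or.inl hx)
  have h1X : (1 : G) ∈ (X₂ ∪ X₃) ∪ (S.B T ∪ {1}) := Or.inr (Or.inr rfl)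
  have hf2 : S.Flat X₂ c := flat_mono S (fun x hx => Or.inl (Or.inl hx)) hflat
  have hf3 : S.Flat X₃ c := flat_mono S (fun x hx => Or.inl (Or.inr hx)) hflat
  have hgen := hgenr H c hf2 R (by linarith) hComm b J hb hJ hRJ (by linarith)
  have hmov := hmove H c hf3 R (by linarith) hComm b J hb hJ hRJ (by linarith)
  -- the set of generators
  let Fi : Q → Prop := fun p => ‖S.pos p - S.pos b‖ ≤ R - η₁ ∨
    S.Bad T ρ (‖S.pos p - S.pos b‖⁻¹ • (S.pos p - S.pos b))
  let C : Set H := {h : H | ∃ p ∈ S.ball b (R + 1), Fi p ∧ ∃ t ∈ T, h = S.tau c b J p t}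
  -- descent
  have desc : ∀ N : ℕ, ∀ p ∈ S.ball b (R + 1), ‖S.pos p - S.pos b‖ ^ 2 < N → ∀ t ∈ T,
      S.tau c b J p t ∈ Subgroup.closure C := by
    intro N
    induction N with
    | zero =>
      intro p _ h
      exact absurd h (not_lt.2 (by push_cast; positivity))
    | succ N ih =>
      intro p hp hpN t ht
      by_cases hFi : Fi p
      · exact Subgroup.subset_closure ⟨p, hp, hFi, t, ht, rfl⟩
      · have hFi1 : ¬ ‖S.pos p - S.pos b‖ ≤ R - η₁ := fun h => hFi (Or.inl h)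
        have hFi2 : ¬ S.Bad T ρ (‖S.pos p - S.pos b‖⁻¹ • (S.pos p - S.pos b)) :=
          fun h => hFi (Or.inr h)
        push Not at hFi1
        have hr0 : 0 < ‖S.pos p - S.pos b‖ := by linarith
        have hz : ‖‖S.pos p - S.pos b‖⁻¹ • (S.pos p - S.pos b)‖ = 1 := by
          rw [norm_smul, norm_inv, norm_norm, inv_mul_cancel₀ hr0.ne']
        have hT' := hgl _ hz hFi2 (S.v p) hp.1 (alt S hr0 hb hp.1 (by linarith))
        have hdec : D ^ 2 + 1 ≤ 2 * δ * ‖S.pos p - S.pos b‖ := by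
          have h1 : (D ^ 2 + 1) / (2 * δ) ≤ ‖S.pos p - S.pos b‖ := by linarith
          rw [div_le_iff₀ (by linarith)] at h1
          linarith
        have hd : ∀ f, (‖S.pos f‖ ≤ D ∧ δ ≤ - inner ℝ (S.pos f)
            (‖S.pos p - S.pos b‖⁻¹ • (S.pos p - S.pos b)) ∧ 0 ≤ S.v p + S.v f) →
            ‖S.pos (p * f) - S.pos b‖ ^ 2 ≤ ‖S.pos p - S.pos b‖ ^ 2 - 1 := fun f hf =>
          dist_dec S rfl hr0 hf.1 hf.2.1 hdec
        have hK : ∀ f, (‖S.pos f‖ ≤ D ∧ δ ≤ - inner ℝ (S.pos f)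
            (‖S.pos p - S.pos b‖⁻¹ • (S.pos p - S.pos b)) ∧ 0 ≤ S.v p + S.v f) →
            p * f ∈ S.ball b (R + 1) := by
          intro f hf
          refine ⟨by rw [v_mul]; exact hf.2.2, ?_⟩
          have h1 := hd f hf
          have h2 : ‖S.pos (p * f) - S.pos b‖ ≤ ‖S.pos p - S.pos b‖ :=
            le_of_sq_le_sq (by linarith) hr0.le
          exact le_trans h2 hp.2
        have hm := hmov p hp _ (fun f hf => ⟨hf.1, hK f hf⟩) hT' t ht
        refine (Subgroup.closure_le _).2 ?_ hm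
        rintro g ⟨f, hf, t', ht', rfl⟩
        refine ih (p * f) (hK f hf) ?_ t' ht'
        have h1 := hd f hf
        push_cast at hpN
        linarith
  -- all elements `tau` are in the closure
  have htau : ∀ p ∈ S.ball b (R + 1), ∀ t ∈ T, S.tau c b J p t ∈ Subgroup.closure C := by
    intro p hp t ht
    obtain ⟨N, hN'⟩ := exists_nat_gt (‖S.pos p - S.pos b‖ ^ 2)
    exact desc N p hp hN' t ht
  -- closed paths
  have hloop : ∀ c' : Q, 0 ≤ S.v c' → ‖S.pos b - S.pos c'‖ ≤ η → ∀ p, 0 ≤ S.v p →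
      ‖S.pos p - S.pos b‖ ≤ R + 1 → ‖S.pos p - S.pos c'‖ ≤ R → ∀ t ∈ T,
      S.Pth c (S.B T) (S.ball c' R) b b (S.tau c b J p t) := by
    intro c' hc' hbc p hp hpb hpc t ht
    obtain ⟨st1, -, -, st4, -⟩ := hST G Q n S b p p c' J hJ
    have hall : ∀ j, S.st b p J j ∈ S.ball c' R := fun j =>
      ⟨st1 hb hp j, st4 η R hbc hpc (by linarith) j⟩
    have p1 := (hHS G Q n S H c T (S.ball c' R) b p J hJ (le_trans hpb hRJ) hall).2
    have p2 : S.Pth c (S.B T) (S.ball c' R) b (p * S.pr t) (S.hs c b p J J * c p t) :=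
      Pth.snoc t p1 (Or.inr ht) (by rw [hT.ker t ht, mul_one]; exact ⟨hp, hpc⟩)
    rw [hT.ker t ht, mul_one] at p2
    obtain ⟨pb1, pb2, -⟩ := hPB G Q n S H c ((X₂ ∪ X₃) ∪ (S.B T ∪ {1})) (S.B T) (S.ball c' R)
      hflat hBX h1X (B_inv S hT) (fun x hx => hx.1)
    exact pb1 b p b _ _ p2 (pb2 b p _ p1)
  -- the generators commute
  have hCC : ∀ x ∈ C, ∀ y ∈ C, x * y = y * x := by
    rintro x ⟨p, hp, hFp, t, ht, rfl⟩ y ⟨p', hp', hFp', t', ht', rfl⟩
    obtain ⟨c', hc', h1, h2, h3⟩ := hpair R (by linarith) b p p' hb hp.1 hp'.1 hp.2 hp'.2 (by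
      by_cases h1 : ‖S.pos p - S.pos b‖ ≤ R - η₁
      · exact Or.inl h1
      by_cases h2 : ‖S.pos p' - S.pos b‖ ≤ R - η₁
      · exact Or.inr (Or.inl h2)
      have h1' := hFp.resolve_left h1
      have h2' := hFp'.resolve_left h2
      push Not at h1 h2
      have hr : 0 < ‖S.pos p - S.pos b‖ := by linarith
      have hr' : 0 < ‖S.pos p' - S.pos b‖ := by linarith
      obtain ⟨x, hx, hx1, hx2, hx3⟩ := hbad _ _
        (by rw [norm_smul, norm_inv, norm_norm, inv_mul_cancel₀ hr.ne'])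
        (by rw [norm_smul, norm_inv, norm_norm, inv_mul_cancel₀ hr'.ne']) h1' h2'
      refine Or.inr (Or.inr ⟨x, hx, ?_, ?_, hx3⟩)
      · rw [inner_smul_left, conj_trivial, inv_mul_eq_div, le_div_iff₀ hr] at hx1
        exact hx1
      · rw [inner_smul_left, conj_trivial, inv_mul_eq_div, le_div_iff₀ hr'] at hx2
        exact hx2)
    exact hComm c' hc' b _ _ (hloop c' hc' h1 p hp.1 hp.2 h2 t ht)
      (hloop c' hc' h1 p' hp'.1 hp'.2 h3 t' ht')
  -- closed paths at `b` are in the closure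
  have hcl : ∀ h, S.Pth c (S.B T) (S.ball b (R + 1)) b b h → h ∈ Subgroup.closure C := by
    intro h hh
    refine (Subgroup.closure_le _).2 ?_ (hgen h hh)
    rintro g ⟨p, hp, t, ht, rfl⟩
    exact htau p hp t ht
  -- change of the base point
  obtain ⟨pb1, pb2, pb3⟩ := hPB G Q n S H c ((X₂ ∪ X₃) ∪ (S.B T ∪ {1})) (S.B T)
    (S.ball b (R + 1)) hflat hBX h1X (B_inv S hT) (fun x hx => hx.1)
  intro b' h h' hh hh'
  have hb' := (pb3 b' b' h hh).1
  obtain ⟨st1, -, -, st4, -⟩ := hST G Q n S b b' b' b J hJ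
  have hall : ∀ j, S.st b b' J j ∈ S.ball b (R + 1) := fun j =>
    ⟨st1 hb hb'.1 j, st4 0 (R + 1) (by rw [sub_self, norm_zero]) hb'.2 (by linarith) j⟩
  have p1 := (hHS G Q n S H c T (S.ball b (R + 1)) b b' J hJ (le_trans hb'.2 hRJ) hall).2
  have q1 := hcl _ (pb1 b b' b _ _ (pb1 b b' b' _ _ p1 hh) (pb2 b b' _ p1))
  have q2 := hcl _ (pb1 b b' b _ _ (pb1 b b' b' _ _ p1 hh') (pb2 b b' _ p1))
  have h5 := closure_comm hCC _ q1 _ q2
  generalize S.hs c b b' J J = g at h5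
  have h6 : g * (h * h') * g⁻¹ = g * (h' * h) * g⁻¹ := by
    calc g * (h * h') * g⁻¹ = g * h * g⁻¹ * (g * h' * g⁻¹) := by group
      _ = g * h' * g⁻¹ * (g * h * g⁻¹) := h5
      _ = g * (h' * h) * g⁻¹ := by group
  have h7 := mul_right_cancel h6
  exact mul_left_cancel h7

end Pool.Agent.Work.MP_e9e200_al.HS

end

section

set_option autoImplicit false

namespace Pool.Agent.Work.MP_e9e200_al.HS

open Loc

namespace XTHIN

variable {G Q : Type} [Group G] [CommGroup Q] {n : ℕ} (S : Loc G Q n)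

lemma pos_one : S.pos 1 = 0 := by
  have h := S.pos_mul 1 1
  rw [mul_one] at h
  exact (left_eq_add.1 h)

lemma pos_inv (q : Q) : S.pos q⁻¹ = -S.pos q := by
  have h := S.pos_mul q q⁻¹
  rw [mul_inv_cancel, pos_one] at h
  exact (neg_eq_of_add_eq_zero_right h.symm).symm

lemma Lt_sec {l : ℝ} {q : Q} (h : ‖S.pos q‖ ≤ l) : S.sec q ∈ S.Lt l := ⟨q, h, Or.inl rfl⟩

lemma Lt_one {l : ℝ} (h : 0 ≤ l) : (1 : G) ∈ S.Lt l :=
  ⟨1, by rw [pos_one, norm_zero]; exact h, Or.inl S.sec_one.symm⟩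

lemma Lt_inv {l : ℝ} {x : G} (h : x ∈ S.Lt l) : x⁻¹ ∈ S.Lt l := by
  obtain ⟨q, hq, h | h⟩ := h
  · exact ⟨q, hq, Or.inr (by rw [h])⟩
  · exact ⟨q, hq, Or.inl (by rw [h, inv_inv])⟩

lemma Lt_mono {l l' : ℝ} (h : l ≤ l') {x : G} (hx : x ∈ S.Lt l) : x ∈ S.Lt l' := by
  obtain ⟨q, hq, h'⟩ := hx
  exact ⟨q, hq.trans h, h'⟩

lemma Lt_pos {l : ℝ} {x : G} (hx : x ∈ S.Lt l) : ‖S.pos (S.pr x)‖ ≤ l := by
  obtain ⟨q, hq, h | h⟩ := hx
  · rw [h, S.pr_sec]; exact hq
  · rw [h, map_inv, S.pr_sec, pos_inv, norm_neg]; exact hq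

lemma Lt_fin (l : ℝ) : (S.Lt l).Finite := by
  refine (((S.fin l).image S.sec).union ((S.fin l).image (fun q => (S.sec q)⁻¹))).subset ?_
  rintro x ⟨q, hq, h | h⟩
  · exact Or.inl ⟨q, hq, h.symm⟩
  · exact Or.inr ⟨q, hq, h.symm⟩

/-- products of four letters -/
def P4 : Set G := {w | ∃ x ∈ S.Lt (16 * S.a), ∃ y ∈ S.Lt (16 * S.a), ∃ z ∈ S.Lt (16 * S.a),
  ∃ u ∈ S.Lt (16 * S.a), w = x * y * z * u}

lemma P4_fin : (P4 S).Finite := by
  have h := Lt_fin S (16 * S.a)
  refine ((((h.prod h).prod h).prod h).image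
    (fun w : ((G × G) × G) × G => w.1.1.1 * w.1.1.2 * w.1.2 * w.2)).subset ?_
  rintro w ⟨x, hx, y, hy, z, hz, u, hu, rfl⟩
  exact ⟨(((x, y), z), u), ⟨⟨⟨hx, hy⟩, hz⟩, hu⟩, rfl⟩

lemma a16 : 0 ≤ 16 * S.a := by have := S.a_pos; linarith

lemma P4_one {x : G} (hx : x ∈ S.Lt (16 * S.a)) : x ∈ P4 S :=
  ⟨x, hx, 1, Lt_one S (a16 S), 1, Lt_one S (a16 S), 1, Lt_one S (a16 S), by simp⟩

lemma P4_two {x y : G} (hx : x ∈ S.Lt (16 * S.a)) (hy : y ∈ S.Lt (16 * S.a)) : x * y ∈ P4 S :=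
  ⟨x, hx, y, hy, 1, Lt_one S (a16 S), 1, Lt_one S (a16 S), by simp⟩

lemma st_zero (b p : Q) (J : ℕ) : S.st b p J 0 = b := by simp [Loc.st]

lemma st_ge (b p : Q) (J j : ℕ) (h0 : j ≠ 0) (h : J ≤ j) : S.st b p J j = p := by
  simp [Loc.st, h0, h]

lemma norm_step (p q : Q) : ‖S.pos (p⁻¹ * q)‖ = ‖S.pos q - S.pos p‖ := by
  rw [S.pos_mul, pos_inv, neg_add_eq_sub]

end XTHIN

open XTHIN in
theorem I_THIN (hST : StST) : StTHIN := by
  intro G Q _ _ n S T hT
  refine ⟨T ∪ P4 S, hT.fin.union (P4_fin S), ?_⟩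
  intro H _ c hflat
  have hapos := S.a_pos
  have hone : ∀ q, 0 ≤ S.v q → c q 1 = 1 := by
    intro q hq
    have h1 : (1 : G) ∈ T ∪ P4 S := Or.inr (P4_one S (Lt_one S (a16 S)))
    have h2 := hflat q 1 1 h1 h1 (by rw [mul_one]; exact h1) hq
      (by rw [map_one, mul_one]; exact hq) (by rw [map_one, mul_one, mul_one]; exact hq)
    rw [mul_one, map_one, mul_one] at h2
    exact (left_eq_mul.1 h2)
  refine ⟨?_, ?_⟩
  · intro b p x J hJ hx hvb hvp hvp' hbp hbp'
    set p' := p * S.pr x with hp'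
    have hJ0 : (0 : ℝ) < J := by exact_mod_cast hJ
    obtain ⟨hv1, hs1, hc1, -, -⟩ := hST G Q n S b p p' 1 J hJ
    obtain ⟨hv2, hs2, -, -, -⟩ := hST G Q n S b p' p 1 J hJ
    have hpp : ‖S.pos p - S.pos p'‖ ≤ 12 * S.a := by
      rw [hp', S.pos_mul, sub_add_cancel_left, norm_neg]
      exact Lt_pos S hx
    have hdiv : ∀ r : ℝ, r ≤ 8 * S.a * J → r / J + 4 * S.a ≤ 16 * S.a := by
      intro r hr
      have : r / J ≤ 8 * S.a := (div_le_iff₀ hJ0).2 hr
      linarith
    -- the letters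
    have hsL : ∀ j, S.sec ((S.st b p J j)⁻¹ * S.st b p J (j + 1)) ∈ S.Lt (16 * S.a) := by
      intro j
      refine Lt_sec S ?_
      rw [norm_step]
      exact (hs1 j).trans (hdiv _ hbp)
    have hsL' : ∀ j, S.sec ((S.st b p' J j)⁻¹ * S.st b p' J (j + 1)) ∈ S.Lt (16 * S.a) := by
      intro j
      refine Lt_sec S ?_
      rw [norm_step]
      exact (hs2 j).trans (hdiv _ hbp')
    let δ : ℕ → G := fun j => if j = 0 then 1 else if J ≤ j then x
      else S.sec ((S.st b p J j)⁻¹ * S.st b p' J j)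
    have hδL : ∀ j, δ j ∈ S.Lt (16 * S.a) := by
      intro j
      by_cases h0 : j = 0
      · simp only [δ, h0, if_true]; exact Lt_one S (a16 S)
      · by_cases h1 : J ≤ j
        · simp only [δ, h0, h1, if_false, if_true]
          exact Lt_mono S (by linarith) hx
        · simp only [δ, h0, h1, if_false]
          refine Lt_sec S ?_
          rw [norm_step, norm_sub_rev]
          refine (hc1 j).trans ?_
          linarith
    have hδp : ∀ j, S.pr (δ j) = (S.st b p J j)⁻¹ * S.st b p' J j := by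
      intro j
      by_cases h0 : j = 0
      · simp only [δ, h0, if_true]; rw [st_zero, st_zero, map_one, inv_mul_cancel]
      · by_cases h1 : J ≤ j
        · simp only [δ, h0, h1, if_false, if_true]
          rw [st_ge S b p J j h0 h1, st_ge S b p' J j h0 h1, hp', inv_mul_cancel_left]
        · simp only [δ, h0, h1, if_false]
          rw [S.pr_sec]
    have key : ∀ j ≤ J, S.hs c b p J j * c (S.st b p J j) (δ j) * (S.hs c b p' J j)⁻¹ ∈
        Subgroup.closure {h : H | ∃ j < J, ∃ t ∈ T,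
          h = S.hs c b p J j * c (S.st b p J j) t * (S.hs c b p J j)⁻¹} := by
      intro j
      induction j with
      | zero =>
        intro _
        have h1 : S.hs c b p J 0 * c (S.st b p J 0) (δ 0) * (S.hs c b p' J 0)⁻¹ = 1 := by
          have h2 : δ 0 = 1 := by simp [δ]
          rw [h2, st_zero, hone b hvb]
          simp [Loc.hs]
        rw [h1]; exact one_mem _
      | succ j ih =>
        intro hj
        have ih' := ih (by omega)
        set y := S.st b p J j with hy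
        set y1 := S.st b p J (j + 1) with hy1
        set z := S.st b p' J j with hz
        set z1 := S.st b p' J (j + 1) with hz1
        set s := S.sec (y⁻¹ * y1) with hs
        set s' := S.sec (z⁻¹ * z1) with hs'
        have hvy : 0 ≤ S.v y := hv1 hvb hvp j
        have hvy1 : 0 ≤ S.v y1 := hv1 hvb hvp (j + 1)
        have hvz : 0 ≤ S.v z := hv2 hvb hvp' j
        have hvz1 : 0 ≤ S.v z1 := hv2 hvb hvp' (j + 1)
        have hprs : S.pr s = y⁻¹ * y1 := by rw [hs, S.pr_sec]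
        have hprs' : S.pr s' = z⁻¹ * z1 := by rw [hs', S.pr_sec]
        have hd : S.pr (δ j) = y⁻¹ * z := hδp j
        have hd1 : S.pr (δ (j + 1)) = y1⁻¹ * z1 := hδp (j + 1)
        have hsm : s ∈ S.Lt (16 * S.a) := hsL j
        have hsm' : s' ∈ S.Lt (16 * S.a) := hsL' j
        set a := s * δ (j + 1) * s'⁻¹ * (δ j)⁻¹ with ha
        have hpra : S.pr a = 1 := by
          rw [ha, map_mul, map_mul, map_mul, map_inv, map_inv, hprs, hprs', hd, hd1]
          rw [mul_inv_rev, mul_inv_rev, inv_inv, inv_inv]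
          group
        have haT : a ∈ T := hT.four _ hsm _ (hδL (j + 1)) _ (Lt_inv S hsm') _ (Lt_inv S (hδL j)) hpra
        have hprod : a * (δ j * s') = s * δ (j + 1) := by rw [ha]; group
        have e1 : c y (s * δ (j + 1)) = c y s * c y1 (δ (j + 1)) := by
          have h := hflat y s (δ (j + 1)) (Or.inr (P4_one S hsm)) (Or.inr (P4_one S (hδL _)))
            (Or.inr (P4_two S hsm (hδL _))) hvy
            (by rw [hprs, mul_inv_cancel_left]; exact hvy1)
            (by rw [hprs, mul_inv_cancel_left, hd1, mul_inv_cancel_left]; exact hvz1)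
          rwa [hprs, mul_inv_cancel_left] at h
        have e2 : c y (a * (δ j * s')) = c y a * c y (δ j * s') := by
          have h := hflat y a (δ j * s') (Or.inl haT) (Or.inr (P4_two S (hδL j) hsm'))
            (by rw [hprod]; exact Or.inr (P4_two S hsm (hδL _))) hvy
            (by rw [hpra, mul_one]; exact hvy)
            (by rw [hpra, mul_one, map_mul, hd, hprs', ← mul_assoc, mul_inv_cancel_left,
                  mul_inv_cancel_left]; exact hvz1)
          rwa [hpra, mul_one] at h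
        have e3 : c y (δ j * s') = c y (δ j) * c z s' := by
          have h := hflat y (δ j) s' (Or.inr (P4_one S (hδL j))) (Or.inr (P4_one S hsm'))
            (Or.inr (P4_two S (hδL j) hsm')) hvy
            (by rw [hd, mul_inv_cancel_left]; exact hvz)
            (by rw [hd, mul_inv_cancel_left, hprs', mul_inv_cancel_left]; exact hvz1)
          rwa [hd, mul_inv_cancel_left] at h
        have e4 : c y s * c y1 (δ (j + 1)) = c y a * (c y (δ j) * c z s') := by
          rw [← e1, ← hprod, e2, e3]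
        have e5 : S.hs c b p J (j + 1) = S.hs c b p J j * c y s := rfl
        have e6 : S.hs c b p' J (j + 1) = S.hs c b p' J j * c z s' := rfl
        have e7 : S.hs c b p J (j + 1) * c y1 (δ (j + 1)) * (S.hs c b p' J (j + 1))⁻¹ =
            (S.hs c b p J j * c y a * (S.hs c b p J j)⁻¹) *
            (S.hs c b p J j * c y (δ j) * (S.hs c b p' J j)⁻¹) := by
          rw [e5, e6, mul_assoc (S.hs c b p J j), e4]
          group
        rw [e7]
        exact mul_mem (Subgroup.subset_closure ⟨j, by omega, a, haT, rfl⟩) ih'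
    have h := key J le_rfl
    have hJ1 : J ≠ 0 := by omega
    have h1 : δ J = x := by simp [δ, hJ1]
    rw [h1, st_ge S b p J J hJ1 le_rfl] at h
    exact h
  · intro b J hJ hvb
    obtain ⟨hv1, hs1, -, -, -⟩ := hST G Q n S b b b 1 J hJ
    have hL1 := Lt_one S (a16 S)
    have hstep : ∀ j, ‖S.pos ((S.st b b J j)⁻¹ * S.st b b J (j + 1))‖ ≤ 16 * S.a := by
      intro j
      rw [norm_step]
      refine (hs1 j).trans ?_
      rw [sub_self, norm_zero, zero_div]
      linarith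
    rcases Nat.lt_or_ge J 2 with h2 | h2
    · have hJ1 : J = 1 := by omega
      subst hJ1
      refine ⟨1, ?_, ?_⟩
      · have := hT.four 1 hL1 1 hL1 1 hL1 1 hL1 (by simp)
        simpa using this
      · show S.hs c b b 1 0 * c (S.st b b 1 0) (S.sec ((S.st b b 1 0)⁻¹ * S.st b b 1 1)) = _
        rw [st_zero, st_ge S b b 1 1 (by omega) le_rfl, inv_mul_cancel, S.sec_one]
        simp [Loc.hs]
    · set y := S.st b b J 1 with hy
      have hmid : ∀ j, j ≠ 0 → j < J → S.st b b J j = y := by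
        intro j h0 h1
        rw [hy]
        have h3 : ¬ J ≤ j := by omega
        have h4 : ¬ J ≤ 1 := by omega
        simp [Loc.st, h0, h3, h4]
      have hvy : 0 ≤ S.v y := hv1 hvb hvb 1
      set s := S.sec (b⁻¹ * y) with hs
      have hsm : s ∈ S.Lt (16 * S.a) := by
        refine Lt_sec S ?_
        have := hstep 0
        rwa [st_zero] at this
      have hind : ∀ j, j + 1 < J → S.hs c b b J (j + 1) = c b s := by
        intro j
        induction j with
        | zero =>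
          intro _
          show S.hs c b b J 0 * c (S.st b b J 0) (S.sec ((S.st b b J 0)⁻¹ * S.st b b J 1)) = _
          rw [st_zero]
          show 1 * _ = _
          rw [one_mul]
        | succ j ih =>
          intro hj
          show S.hs c b b J (j + 1) * c (S.st b b J (j + 1))
            (S.sec ((S.st b b J (j + 1))⁻¹ * S.st b b J (j + 1 + 1))) = _
          rw [ih (by omega), hmid (j + 1) (by omega) (by omega), hmid (j + 1 + 1) (by omega) hj,
            inv_mul_cancel, S.sec_one, hone y hvy, mul_one]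
      obtain ⟨m, rfl⟩ : ∃ m, J = m + 1 + 1 := ⟨J - 2, by omega⟩
      set s' := S.sec (y⁻¹ * b) with hs'
      have hsm' : s' ∈ S.Lt (16 * S.a) := by
        refine Lt_sec S ?_
        have := hstep (m + 1)
        rwa [hmid (m + 1) (by omega) (by omega), st_ge S b b _ (m + 1 + 1) (by omega) le_rfl] at this
      have hprs : S.pr s = b⁻¹ * y := by rw [hs, S.pr_sec]
      have hprs' : S.pr s' = y⁻¹ * b := by rw [hs', S.pr_sec]
      refine ⟨s * s', ?_, ?_⟩
      · have h3 := hT.four s hsm s' hsm' 1 hL1 1 hL1 (by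
          rw [mul_one, mul_one, map_mul, hprs, hprs']
          group)
        simpa using h3
      · show S.hs c b b (m + 1 + 1) (m + 1) * c (S.st b b (m + 1 + 1) (m + 1))
            (S.sec ((S.st b b (m + 1 + 1) (m + 1))⁻¹ * S.st b b (m + 1 + 1) (m + 1 + 1))) = _
        rw [hind m (by omega), hmid (m + 1) (by omega) (by omega),
          st_ge S b b _ (m + 1 + 1) (by omega) le_rfl]
        have h := hflat b s s' (Or.inr (P4_one S hsm)) (Or.inr (P4_one S hsm'))
          (Or.inr (P4_two S hsm hsm')) hvb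
          (by rw [hprs, mul_inv_cancel_left]; exact hvy)
          (by rw [hprs, mul_inv_cancel_left, hprs', mul_inv_cancel_left]; exact hvb)
        rw [hprs, mul_inv_cancel_left] at h
        exact h.symm

end Pool.Agent.Work.MP_e9e200_al.HS

end

section

/-!
# Project O3, item QQ: the collapse map
-/

set_option autoImplicit false

namespace Pool.Agent.Work.MP_e9e200_al.O3

open Set Metric Topology OnePoint

open Topology.RelCWComplex

namespace XQQ

theorem qq_mem {X : Type} {k n : ℕ} (c : Fin k → PartialEquiv (E n) X)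
    (hd : ∀ a b, a ≠ b → Disjoint (c a).target (c b).target) (a : Fin k) (x : X)
    (hx : x ∈ (c a).target) :
    qq c x = (((a, psi ((c a).symm x)) : Fin k × E n) : W k n) := by
  have h : ∃ a, x ∈ (c a).target := ⟨a, hx⟩
  have ha : h.choose = a := by
    by_contra hne
    exact (Set.disjoint_left.mp (hd _ _ hne)) h.choose_spec hx
  have h1 : qq c x = (((h.choose, psi ((c h.choose).symm x)) : Fin k × E n) : W k n) :=
    dif_pos h
  rw [h1, ha]

theorem qq_not_mem {X : Type} {k n : ℕ} (c : Fin k → PartialEquiv (E n) X) (x : X)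
    (hx : ∀ a, x ∉ (c a).target) : qq c x = ∞ := by
  have h : ¬ ∃ a, x ∈ (c a).target := by
    rintro ⟨a, ha⟩
    exact hx a ha
  exact dif_neg h

theorem target_eq {X : Type} [TopologicalSpace X] {C : Set X} [CWComplex C] {n : ℕ}
    (e : cell C n) : (map n e).target = openCell n e := by
  rw [← (map n e).image_source_eq_target, source_eq]
  rfl

theorem io_one {k n : ℕ} (a : Fin k) {y : E n} (h : 1 ≤ ‖y‖) : (io a y : W k n) = ∞ := by
  unfold io
  rw [if_neg (not_lt.mpr h)]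

theorem io_lt {k n : ℕ} (a : Fin k) {y : E n} (h : ‖y‖ < 1) :
    (io a y : W k n) = (((a, psi y) : Fin k × E n) : W k n) := by
  unfold io
  rw [if_pos h]

theorem io_cont (hOPC : StOPC) (hPHI : StPHI) {k n : ℕ} (a : Fin k) :
    Continuous (io a : E n → W k n) := by
  obtain ⟨_, hpsi, _, hcont⟩ := hPHI n
  rw [continuous_iff_continuousAt]
  intro x
  rcases lt_or_ge ‖x‖ 1 with hx | hx
  · rw [(hOPC (E n) k n (io a) x).2 a (psi x) (io_lt a hx)]
    intro ε hε
    have hxb : x ∈ ball (0 : E n) 1 := by simpa using hx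
    have h1 : ContinuousAt (psi : E n → E n) x := hcont.continuousAt (isOpen_ball.mem_nhds hxb)
    have h2 := (Metric.tendsto_nhds.mp h1) ε hε
    filter_upwards [h2, isOpen_ball.mem_nhds hxb] with y hy hyb
    have hy1 : ‖y‖ < 1 := by simpa using hyb
    exact ⟨psi y, io_lt a hy1, by rwa [← dist_eq_norm]⟩
  · rw [(hOPC (E n) k n (io a) x).1 (io_one a hx)]
    intro R
    have h1 : ∀ᶠ y in 𝓝 x, (max R 1) / (max R 1 + 1) < ‖y‖ := by
      have hR : (max R 1) / (max R 1 + 1) < 1 := by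
        rw [div_lt_one (by positivity)]
        linarith
      exact continuous_norm.continuousAt.eventually (lt_mem_nhds (lt_of_lt_of_le hR hx))
    filter_upwards [h1] with y hy b z hz
    rcases lt_or_ge ‖y‖ 1 with hy1 | hy1
    · rw [io_lt a hy1] at hz
      have hz' : ((a, psi y) : Fin k × E n) = (b, z) := OnePoint.coe_injective hz
      have hz2 : z = psi y := (congrArg Prod.snd hz').symm
      rw [hz2, (hpsi y hy1).2]
      have hm : (0 : ℝ) < max R 1 := lt_of_lt_of_le one_pos (le_max_right _ _)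
      have h3 : max R 1 < ‖y‖ * (max R 1 + 1) := by
        rwa [div_lt_iff₀ (by positivity)] at hy
      rw [le_div_iff₀ (by linarith)]
      have h4 : R ≤ max R 1 := le_max_left _ _
      nlinarith
    · rw [io_one a hy1] at hz
      exact absurd hz (OnePoint.infty_ne_coe _)

end XQQ

theorem I_QQ (hSK : StSK) (hCNT : StCNT) (hOPC : StOPC) (hPHI : StPHI) : StQQ := by
  intro X _ _ C _ k n e he
  obtain ⟨-, -, hfr, -⟩ := hSK X C
  have hd : ∀ a b : Fin k, a ≠ b → Disjoint (map n (e a)).target (map n (e b)).target := by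
    intro a b hab
    rw [XQQ.target_eq, XQQ.target_eq]
    apply disjoint_openCell_of_ne
    intro h
    exact hab (he (eq_of_heq (Sigma.mk.inj h).2))
  have p2 : ∀ a, ∀ y ∈ ball (0 : E n) 1, qq (fun a => map n (e a)) (map n (e a) y) =
      ((a, psi y) : Fin k × E n) := by
    intro a y hy
    have hs : y ∈ (map n (e a)).source := by rw [source_eq]; exact hy
    have hm : map n (e a) y ∈ (map n (e a)).target := (map n (e a)).map_source hs
    rw [XQQ.qq_mem (fun a => map n (e a)) hd a _ hm, (map n (e a)).left_inv hs]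
  have p3 : ∀ x, (∀ a, x ∉ openCell n (e a)) → qq (fun a => map n (e a)) x = ∞ := by
    intro x hx
    apply XQQ.qq_not_mem
    intro a
    rw [XQQ.target_eq]
    exact hx a
  refine ⟨?_, p2, p3, ?_⟩
  · have h1 := (hCNT X (W k n) C).2.2 (n + 1) (fun p => qq (fun a => map n (e a)) p.2) ?_
    · have h2 : ContinuousOn (fun x : X => ((0 : ℝ), x)) (sk C (n + 1)) := by fun_prop
      exact h1.comp h2 (fun x hx => ⟨⟨le_rfl, zero_le_one⟩, hx⟩)
    · intro m hm e'
      have hsph : ∀ (e₀ : cell C n) (y : E n), ‖y‖ = 1 →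
          qq (fun a => map n (e a)) (map n e₀ y) = ∞ := by
        intro e₀ y hy
        apply p3
        intro a ha
        have h1 : map n e₀ y ∈ cellFrontier n e₀ := ⟨y, by simpa using hy, rfl⟩
        exact Set.disjoint_left.mp (hfr n (e a)).2.1 ha ((hfr n e₀).1 h1)
      rcases Nat.lt_succ_iff_lt_or_eq.mp hm with hm | rfl
      · refine (continuousOn_const (c := (∞ : W k n))).congr ?_
        rintro ⟨t, y⟩ ⟨ht, hy⟩
        apply p3
        intro a ha
        refine Set.disjoint_left.mp (hfr n (e a)).2.1 ha ?_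
        unfold sk
        simp only [mem_iUnion]
        exact ⟨m, hm, e', y, hy, rfl⟩
      · by_cases hex : ∃ a, e a = e'
        · obtain ⟨a, rfl⟩ := hex
          refine ((XQQ.io_cont hOPC hPHI a).comp continuous_snd).continuousOn.congr ?_
          rintro ⟨t, y⟩ ⟨ht, hy⟩
          have hy1 : ‖y‖ ≤ 1 := by simpa using hy
          rcases lt_or_eq_of_le hy1 with hy2 | hy2
          · exact (p2 a y (by simpa using hy2)).trans (XQQ.io_lt a hy2).symm
          · exact (hsph (e a) y hy2).trans (XQQ.io_one a hy2.ge).symm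
        · refine (continuousOn_const (c := (∞ : W k m))).congr ?_
          rintro ⟨t, y⟩ ⟨ht, hy⟩
          have hy1 : ‖y‖ ≤ 1 := by simpa using hy
          rcases lt_or_eq_of_le hy1 with hy2 | hy2
          · apply p3
            intro a ha
            have hne : (⟨m, e a⟩ : Σ n, cell C n) ≠ ⟨m, e'⟩ := by
              intro h
              exact hex ⟨a, eq_of_heq (Sigma.mk.inj h).2⟩
            exact Set.disjoint_left.mp (disjoint_openCell_of_ne hne) ha
              ⟨y, by simpa using hy2, rfl⟩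
          · exact hsph e' y hy2
  · intro a x
    by_cases hx : x ∈ (map n (e a)).target
    · rw [XQQ.qq_mem (fun a => map n (e a)) hd a x hx]
      have h1 : qq (fun _ : Fin 1 => map n (e a)) x =
          (((0, psi ((map n (e a)).symm x)) : Fin 1 × E n) : W 1 n) :=
        XQQ.qq_mem (fun _ : Fin 1 => map n (e a))
          (fun i j hij => absurd (Subsingleton.elim i j) hij) 0 x hx
      rw [h1]
      exact if_pos rfl
    · have h1 : qq (fun _ : Fin 1 => map n (e a)) x = ∞ :=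
        XQQ.qq_not_mem (fun _ : Fin 1 => map n (e a)) x (fun _ => hx)
      rw [h1]
      by_cases hex : ∃ b, x ∈ (map n (e b)).target
      · obtain ⟨b, hb⟩ := hex
        rw [XQQ.qq_mem (fun a => map n (e a)) hd b x hb]
        have hba : b ≠ a := by
          rintro rfl
          exact hx hb
        exact if_neg hba
      · push Not at hex
        rw [XQQ.qq_not_mem (fun a => map n (e a)) x hex]
        rfl

end Pool.Agent.Work.MP_e9e200_al.O3

end
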