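import Pool.Agent.Work.MP_e9e200_al.Bd.B18
import Pool.Agent.Work.MP_e9e200_al.Bd.B04

/-! Bundle of small proof modules (one section per former module). -/

section

/-!
# Project HS, item COV: covering by balls
-/

set_option autoImplicit false

namespace Pool.Agent.Work.MP_e9e200_al.HS

open Loc

namespace XCOV

variable {G Q : Type} [Group G] [CommGroup Q] {n : ℕ} (S : Loc G Q n)

lemma norm_nuh : ‖S.nuh‖ ≤ 1 := by
  rw [Loc.nuh, norm_smul, norm_inv, norm_norm]
  by_cases h : ‖S.nu‖ = 0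
  · rw [h]; norm_num
  · rw [inv_mul_cancel₀ h]

lemma inner_nuh : inner ℝ S.nu S.nuh = ‖S.nu‖ := by
  rw [Loc.nuh, real_inner_smul_right, real_inner_self_eq_norm_sq]
  by_cases h : ‖S.nu‖ = 0
  · rw [h]; norm_num
  · field_simp

lemma up_norm (x : Eu n) : ‖S.pos (S.up x) - x‖ ≤ 2 * S.a := by
  have h1 := S.rd_spec (x + S.a • S.nuh)
  have h2 : ‖S.a • S.nuh‖ ≤ S.a := by
    rw [norm_smul, Real.norm_of_nonneg S.a_pos.le]
    have := norm_nuh S
    nlinarith [S.a_pos]
  have h3 : S.pos (S.up x) - x = (S.pos (S.rd (x + S.a • S.nuh)) - (x + S.a • S.nuh)) +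
      S.a • S.nuh := by
    rw [Loc.up]; abel
  rw [h3]
  refine le_trans (norm_add_le _ _) ?_
  linarith

lemma up_inner (x : Eu n) : inner ℝ S.nu x ≤ inner ℝ S.nu (S.pos (S.up x)) := by
  have h1 := S.rd_spec (x + S.a • S.nuh)
  have h2 : inner ℝ S.nu (S.pos (S.up x)) = inner ℝ S.nu x + S.a * ‖S.nu‖ +
      inner ℝ S.nu (S.pos (S.rd (x + S.a • S.nuh)) - (x + S.a • S.nuh)) := by
    rw [inner_sub_right, inner_add_right, real_inner_smul_right, inner_nuh, Loc.up]; ring
  have h3 := abs_real_inner_le_norm S.nu (S.pos (S.rd (x + S.a • S.nuh)) - (x + S.a • S.nuh))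
  have h4 := neg_abs_le (inner ℝ S.nu (S.pos (S.rd (x + S.a • S.nuh)) - (x + S.a • S.nuh)))
  have h5 := mul_le_mul_of_nonneg_left h1 (norm_nonneg S.nu)
  rw [h2]
  linarith

end XCOV

theorem I_COV : StCOV := by
  intro G Q _ _ n S D hD
  have ha := S.a_pos
  refine ⟨D + 1 + 4 * S.a, 2 * D + 3 + 4 * S.a, by linarith, fun R hR b p hb hp hbp => ?_⟩
  by_cases hs : ‖S.pos p - S.pos b‖ < D + 1 + 2 * S.a
  · refine ⟨b, hb, ?_, fun q hq => ?_⟩
    · rw [sub_self, norm_zero]; linarith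
    · have h1 : S.pos q - S.pos b = (S.pos q - S.pos p) + (S.pos p - S.pos b) := by abel
      rw [h1]
      refine le_trans (norm_add_le _ _) ?_
      linarith
  · push Not at hs
    set r : ℝ := ‖S.pos p - S.pos b‖ with hr
    set s : ℝ := D + 1 + 2 * S.a with hsd
    have hs0 : 0 < s := by linarith
    have hr0 : 0 < r := lt_of_lt_of_le hs0 hs
    have hq0 : 0 ≤ s / r := (div_pos hs0 hr0).le
    have hq1 : s / r ≤ 1 := (div_le_one hr0).2 hs
    have hqr : s / r * r = s := div_mul_cancel₀ s hr0.ne'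
    set y : Eu n := S.pos b + (s / r) • (S.pos p - S.pos b) with hy
    have h1 := XCOV.up_norm S y
    refine ⟨S.up y, ?_, ?_, fun q hq => ?_⟩
    · refine le_trans ?_ (XCOV.up_inner S y)
      have h2 : inner ℝ S.nu y = (1 - s / r) * S.v b + (s / r) * S.v p := by
        rw [hy, inner_add_right, real_inner_smul_right, inner_sub_right, Loc.v, Loc.v]; ring
      rw [h2]
      exact add_nonneg (mul_nonneg (by linarith) hb) (mul_nonneg hq0 hp)
    · have h2 : S.pos b - S.pos (S.up y) = -((S.pos (S.up y) - y) +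
          (s / r) • (S.pos p - S.pos b)) := by rw [hy]; abel
      rw [h2, norm_neg]
      refine le_trans (norm_add_le _ _) ?_
      rw [norm_smul, Real.norm_of_nonneg hq0, ← hr, hqr]
      linarith
    · have h2 : S.pos q - S.pos (S.up y) = (S.pos q - S.pos p) +
          ((1 - s / r) • (S.pos p - S.pos b) - (S.pos (S.up y) - y)) := by
        rw [hy, sub_smul, one_smul]; abel
      rw [h2]
      refine le_trans (norm_add_le _ _) ?_
      have h3 : ‖(1 - s / r) • (S.pos p - S.pos b) - (S.pos (S.up y) - y)‖ ≤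
          (1 - s / r) * r + 2 * S.a := by
        refine le_trans (norm_sub_le _ _) ?_
        rw [norm_smul, Real.norm_of_nonneg (by linarith : (0 : ℝ) ≤ 1 - s / r), ← hr]
        linarith
      have h4 : (1 - s / r) * r = r - s := by rw [sub_mul, hqr, one_mul]
      linarith

end Pool.Agent.Work.MP_e9e200_al.HS

end

section

/-!
# Project HS: item CYC, cycles in the half space of the Cayley graph are generated by small loops
-/

set_option autoImplicit false

namespace Pool.Agent.Work.MP_e9e200_al.HS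

open Loc

namespace XCYC

variable {G : Type} [Group G] (χ : Additive G →+ ℝ)

/-- the monoid ring -/
abbrev RR := MonoidAlgebra ℤ (Gmon χ)

/-- the additive map with given values on the basis -/
noncomputable def U {M : Type} [AddCommGroup M] (u : Gmon χ → M) : RR χ →+ M :=
  (Finsupp.liftAddHom (fun s : Gmon χ => zmultiplesHom M (u s))).comp
    (MonoidAlgebra.coeffAddEquiv (R := ℤ) (M := Gmon χ)).toAddMonoidHom

lemma U_of {M : Type} [AddCommGroup M] (u : Gmon χ → M) (s : Gmon χ) :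
    U χ u (MonoidAlgebra.of ℤ (Gmon χ) s) = u s := by
  have h : U χ u (MonoidAlgebra.of ℤ (Gmon χ) s) =
      Finsupp.liftAddHom (fun s => zmultiplesHom M (u s)) (Finsupp.single s (1 : ℤ)) := rfl
  rw [h, Finsupp.liftAddHom_apply_single, zmultiplesHom_apply, one_zsmul]

/-- elements of the monoid ring are integral combinations of the basis -/
lemma sum_of (r : RR χ) :
    r = ∑ s ∈ r.coeff.support, r.coeff s • MonoidAlgebra.of ℤ (Gmon χ) s := by
  apply MonoidAlgebra.coeff_injective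
  rw [MonoidAlgebra.coeff_sum]
  conv_lhs => rw [← Finsupp.sum_single r.coeff]
  rw [Finsupp.sum]
  refine Finset.sum_congr rfl (fun s _ => ?_)
  rw [MonoidAlgebra.coeff_smul, MonoidAlgebra.of_apply, MonoidAlgebra.coeff_single,
    Finsupp.smul_single, smul_eq_mul, mul_one]

/-- induction for additive predicates -/
lemma ind_of {p : RR χ → Prop} (h0 : p 0) (ha : ∀ a b, p a → p b → p (a + b))
    (hs : ∀ (n : ℤ) (s : Gmon χ), p (n • MonoidAlgebra.of ℤ (Gmon χ) s)) (r : RR χ) : p r := by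
  rw [sum_of χ r]
  exact Finset.sum_induction _ p ha h0 (fun s _ => hs _ _)

open Classical in
/-- the element of the monoid ring which belongs to `g` -/
noncomputable def o (g : G) : RR χ :=
  if h : 0 ≤ χ (Additive.ofMul g) then MonoidAlgebra.of ℤ (Gmon χ) ⟨g, h⟩ else 0

lemma o_eq {g : G} (h : 0 ≤ χ (Additive.ofMul g)) :
    o χ g = MonoidAlgebra.of ℤ (Gmon χ) ⟨g, h⟩ := by
  unfold o
  rw [dif_pos h]

lemma o_coe (s : Gmon χ) : o χ (s : G) = MonoidAlgebra.of ℤ (Gmon χ) s := by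
  rw [o_eq χ s.2]

variable {k : ℕ} (x : Fin k → Gmon χ)

/-- the boundary -/
noncomputable def f1 : (Fin k → RR χ) →ₗ[RR χ] RR χ :=
  Fintype.linearCombination (RR χ) (fun i => MonoidAlgebra.of ℤ (Gmon χ) (x i) - 1)

lemma f1_apply (v : Fin k → RR χ) :
    f1 χ x v = ∑ i, v i * (MonoidAlgebra.of ℤ (Gmon χ) (x i) - 1) := by
  rw [f1, Fintype.linearCombination_apply]
  rfl

lemma f1_single (i : Fin k) (r : RR χ) :
    f1 χ x (Pi.single i r) = r * (MonoidAlgebra.of ℤ (Gmon χ) (x i) - 1) := by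
  rw [f1, Fintype.linearCombination_apply_single]
  rfl

/-- evaluation of a function on edges on chains -/
noncomputable def Φ {M : Type} [AddCommGroup M] (φ : G → G → M) : (Fin k → RR χ) →+ M :=
  ∑ i : Fin k, (U χ (fun s => φ (s : G) (x i : G))).comp (Pi.evalAddMonoidHom (fun _ => RR χ) i)

lemma Φ_apply {M : Type} [AddCommGroup M] (φ : G → G → M) (v : Fin k → RR χ) :
    Φ χ x φ v = ∑ i : Fin k, U χ (fun s => φ (s : G) (x i : G)) (v i) := by
  rw [Φ, AddMonoidHom.finsetSum_apply]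
  rfl

lemma Φ_single {M : Type} [AddCommGroup M] (φ : G → G → M) (i : Fin k) (s : Gmon χ) :
    Φ χ x φ (Pi.single i (MonoidAlgebra.of ℤ (Gmon χ) s)) = φ (s : G) (x i : G) := by
  rw [Φ_apply, Finset.sum_eq_single i]
  · rw [Pi.single_eq_same, U_of]
  · intro j _ hj
    rw [Pi.single_eq_of_ne hj, map_zero]
  · intro h; exact absurd (Finset.mem_univ i) h

/-- the chain of a word -/
lemma word (X₁ : Set G) (hinv : ∀ y ∈ X₁, y⁻¹ ∈ X₁)
    (hx : ∀ y : Gmon χ, (y : G) ∈ X₁ → ∃ i, x i = y) {M : Type} [AddCommGroup M]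
    (φ : G → G → M) (hφ : ∀ g, ∀ y ∈ X₁, 0 ≤ χ (Additive.ofMul g) →
      0 ≤ χ (Additive.ofMul (g * y)) → φ (g * y) y⁻¹ = - φ g y) :
    ∀ (w : List G) (g : G), Ok χ X₁ g w → ∃ c : Fin k → RR χ,
      f1 χ x c = o χ (g * w.prod) - o χ g ∧ Φ χ x φ c = sm φ g w := by
  intro w
  induction w with
  | nil =>
    intro g _
    refine ⟨0, ?_, ?_⟩
    · rw [map_zero, List.prod_nil, mul_one, sub_self]
    · rw [map_zero]; rfl
  | cons y w ih =>
    intro g hok
    obtain ⟨hg, hy, hok'⟩ := hok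
    have hgy : 0 ≤ χ (Additive.ofMul (g * y)) := by
      cases w with
      | nil => exact hok'
      | cons z w => exact hok'.1
    obtain ⟨c, hc1, hc2⟩ := ih (g * y) hok'
    have hmul : χ (Additive.ofMul (g * y)) = χ (Additive.ofMul g) + χ (Additive.ofMul y) := by
      rw [ofMul_mul, map_add]
    by_cases hpos : 0 ≤ χ (Additive.ofMul y)
    · obtain ⟨i, hi⟩ := hx ⟨y, hpos⟩ hy
      refine ⟨Pi.single i (o χ g) + c, ?_, ?_⟩
      · rw [map_add, f1_single, hc1, hi, List.prod_cons, ← mul_assoc, mul_sub, mul_one]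
        have h1 : o χ g * MonoidAlgebra.of ℤ (Gmon χ) ⟨y, hpos⟩ = o χ (g * y) := by
          rw [o_eq χ hg, o_eq χ hgy, ← map_mul (MonoidAlgebra.of ℤ (Gmon χ))]
          rfl
        rw [h1]; abel
      · rw [map_add, o_eq χ hg, Φ_single, hi, hc2]
        rfl
    · have hneg : 0 ≤ χ (Additive.ofMul y⁻¹) := by
        have h2 : χ (Additive.ofMul y⁻¹) = - χ (Additive.ofMul y) := by
          rw [ofMul_inv, map_neg]
        rw [h2]; linarith [not_le.1 hpos]
      obtain ⟨i, hi⟩ := hx ⟨y⁻¹, hneg⟩ (hinv y hy)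
      refine ⟨- Pi.single i (o χ (g * y)) + c, ?_, ?_⟩
      · rw [map_add, map_neg, f1_single, hc1, hi, List.prod_cons, ← mul_assoc, mul_sub, mul_one]
        have h1 : o χ (g * y) * MonoidAlgebra.of ℤ (Gmon χ) ⟨y⁻¹, hneg⟩ = o χ g := by
          rw [o_eq χ hg, o_eq χ hgy, ← map_mul (MonoidAlgebra.of ℤ (Gmon χ))]
          congr 1
          apply Subtype.ext
          show g * y * y⁻¹ = g
          rw [mul_inv_cancel_right]
        rw [h1]; abel
      · rw [map_add, map_neg, o_eq χ hgy, Φ_single, hi, hc2]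
        show - φ (g * y) y⁻¹ + _ = φ g y + sm φ (g * y) w
        rw [hφ g y hy hg hgy, neg_neg]

/-- the element `1` of the trivial module -/
def t1 : Triv (Gmon χ) := (1 : ℤ)

lemma smul_t1 (r : RR χ) : r • t1 χ = (aug (Gmon χ) r : ℤ) := by
  show (aug (Gmon χ) r : ℤ) * 1 = _
  rw [mul_one]

lemma aug_of (s : Gmon χ) : aug (Gmon χ) (MonoidAlgebra.of ℤ (Gmon χ) s) = 1 := by
  show (MonoidAlgebra.lift ℤ ℤ (Gmon χ) (1 : Gmon χ →* ℤ)) (MonoidAlgebra.of ℤ (Gmon χ) s) = 1
  rw [MonoidAlgebra.lift_of]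
  rfl

/-- the range of the boundary contains the augmentation ideal -/
lemma range_f1 (X₁ : Set G) (hinv : ∀ y ∈ X₁, y⁻¹ ∈ X₁)
    (hx : ∀ y : Gmon χ, (y : G) ∈ X₁ → ∃ i, x i = y) (hcon : Con χ X₁) (r : RR χ) :
    r - (aug (Gmon χ) r) • (1 : RR χ) ∈ LinearMap.range (f1 χ x) := by
  have hone : ∀ s : Gmon χ, MonoidAlgebra.of ℤ (Gmon χ) s - 1 ∈ LinearMap.range (f1 χ x) := by
    intro s
    obtain ⟨w, hw, hw2⟩ := hcon 1 (s : G) (by rw [ofMul_one, map_zero]) s.2
    obtain ⟨c, hc, _⟩ := word χ x X₁ hinv hx (fun _ _ => (0 : ℤ)) (by intros; simp) w 1 hw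
    refine ⟨c, ?_⟩
    rw [hc, hw2, o_coe]
    congr 1
    rw [o_eq χ (by rw [ofMul_one, map_zero])]
    exact map_one (MonoidAlgebra.of ℤ (Gmon χ))
  induction r using ind_of χ with
  | h0 => rw [map_zero, zero_smul, sub_zero]; exact zero_mem _
  | ha a b ha hb =>
    rw [map_add, add_smul, add_sub_add_comm]
    exact add_mem ha hb
  | hs n s =>
    rw [map_zsmul, aug_of, smul_eq_mul, mul_one, ← smul_sub]
    exact zsmul_mem (hone s) n

/-- the boundary with values in the free module of rank one -/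
noncomputable def F1 : (Fin k → RR χ) →ₗ[RR χ] (Fin 1 → RR χ) := LinearMap.pi (fun _ => f1 χ x)

/-- the augmentation -/
noncomputable def F0 : (Fin 1 → RR χ) →ₗ[RR χ] Triv (Gmon χ) :=
  (LinearMap.toSpanSingleton (RR χ) (Triv (Gmon χ)) (t1 χ)).comp (LinearMap.proj 0)

lemma F0_apply (v : Fin 1 → RR χ) : F0 χ v = (aug (Gmon χ) (v 0) : ℤ) := by
  rw [F0, LinearMap.comp_apply, LinearMap.toSpanSingleton_apply, LinearMap.proj_apply, smul_t1]

lemma F0_surj : Function.Surjective (F0 χ) := by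
  intro n
  refine ⟨fun _ => (show ℤ from n) • (1 : RR χ), ?_⟩
  rw [F0_apply, map_zsmul, map_one]
  show (show ℤ from n) * 1 = n
  exact mul_one _

lemma F_exact (X₁ : Set G) (hinv : ∀ y ∈ X₁, y⁻¹ ∈ X₁)
    (hx : ∀ y : Gmon χ, (y : G) ∈ X₁ → ∃ i, x i = y) (hcon : Con χ X₁) :
    Function.Exact (F1 χ x) (F0 χ) := by
  intro v
  constructor
  · intro hv
    rw [F0_apply] at hv
    have h1 := range_f1 χ x X₁ hinv hx hcon (v 0)
    have hv' : aug (Gmon χ) (v 0) = 0 := hv
    rw [hv', zero_smul, sub_zero] at h1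
    obtain ⟨c, hc⟩ := h1
    refine ⟨c, ?_⟩
    funext j
    have hj : j = 0 := Subsingleton.elim _ _
    subst hj
    exact hc
  · rintro ⟨c, rfl⟩
    rw [F0_apply]
    show (aug (Gmon χ) (f1 χ x c) : ℤ) = (0 : ℤ)
    rw [f1_apply, map_sum]
    refine Finset.sum_eq_zero (fun i _ => ?_)
    rw [map_mul (aug (Gmon χ)), map_sub, aug_of, map_one, sub_self, mul_zero]

/-- the key computation: translates of short cycles are evaluated to zero -/
lemma eval_cycle {M : Type} [AddCommGroup M] (φ : G → G → M) (z : Fin k → RR χ) (s : Gmon χ)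
    (hz : ∀ i, ∀ h ∈ (z i).coeff.support,
      φ (s : G) ((h : G) * (x i : G)) = φ (s : G) (h : G) + φ ((s : G) * (h : G)) (x i : G)) :
    Φ χ x φ (MonoidAlgebra.of ℤ (Gmon χ) s • z) = U χ (fun u => φ (s : G) (u : G)) (f1 χ x z) := by
  rw [Φ_apply, f1_apply, map_sum]
  refine Finset.sum_congr rfl (fun i _ => ?_)
  show U χ (fun s => φ (s : G) (x i : G)) (MonoidAlgebra.of ℤ (Gmon χ) s * z i) = _
  have h1 := sum_of χ (z i)
  conv_lhs => rw [h1]
  conv_rhs => rw [h1]
  rw [Finset.mul_sum, Finset.sum_mul, map_sum, map_sum]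
  refine Finset.sum_congr rfl (fun h hh => ?_)
  rw [mul_smul_comm, smul_mul_assoc, map_zsmul, map_zsmul, mul_sub, mul_one,
    ← map_mul (MonoidAlgebra.of ℤ (Gmon χ)), ← map_mul (MonoidAlgebra.of ℤ (Gmon χ)), map_sub,
    U_of, U_of, U_of]
  congr 1
  have h2 := hz i h hh
  show φ ((s : G) * (h : G)) (x i : G) = φ (s : G) ((h : G) * (x i : G)) - φ (s : G) (h : G)
  rw [h2]; abel

lemma eval_span {M : Type} [AddCommGroup M] (φ : G → G → M) (Z : Set (Fin k → RR χ))
    (hZ : ∀ z ∈ Z, ∀ s : Gmon χ, Φ χ x φ (MonoidAlgebra.of ℤ (Gmon χ) s • z) = 0)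
    (v : Fin k → RR χ) (hv : v ∈ Submodule.span (RR χ) Z) : Φ χ x φ v = 0 := by
  have key : ∀ r : RR χ, Φ χ x φ (r • v) = 0 := by
    induction hv using Submodule.span_induction with
    | mem z hz =>
      intro r
      induction r using ind_of χ with
      | h0 => rw [zero_smul, map_zero]
      | ha a b ha hb => rw [add_smul, map_add, ha, hb, add_zero]
      | hs n s => rw [smul_assoc, map_zsmul, hZ z hz s, smul_zero]
    | zero => intro r; rw [smul_zero, map_zero]
    | add a b _ _ ha hb => intro r; rw [smul_add, map_add, ha, hb, add_zero]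
    | smul a v _ hv => intro r; rw [smul_smul]; exact hv _
  have h := key 1
  rwa [one_smul] at h

end XCYC

theorem I_CYC (hKER : StKER) : StCYC := by
  intro G _ χ hFP X₁ hfin hinv hone hcon
  -- enumeration of the letters in the monoid
  have hE : {y : Gmon χ | (y : G) ∈ X₁}.Finite :=
    Set.Finite.preimage (fun a _ b _ h => Subtype.ext h) hfin
  obtain ⟨k, x, hxr⟩ : ∃ (k : ℕ) (x : Fin k → Gmon χ),
      ∀ y : Gmon χ, (y : G) ∈ X₁ ↔ ∃ i, x i = y := by
    obtain ⟨l, hl⟩ := hE.exists_finset_coe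
    refine ⟨l.card, fun i => (l.equivFin.symm i).1, fun y => ?_⟩
    constructor
    · intro hy
      have hy' : y ∈ l := by
        have : y ∈ (l : Set (Gmon χ)) := by rw [hl]; exact hy
        exact this
      exact ⟨l.equivFin ⟨y, hy'⟩, by simp⟩
    · rintro ⟨i, rfl⟩
      have h1 : (l.equivFin.symm i).1 ∈ (l : Set (Gmon χ)) := (l.equivFin.symm i).2
      rw [hl] at h1
      exact h1
  have hx : ∀ y : Gmon χ, (y : G) ∈ X₁ → ∃ i, x i = y := fun y hy => (hxr y).1 hy
  have hx' : ∀ i, ((x i : Gmon χ) : G) ∈ X₁ := fun i => (hxr (x i)).2 ⟨i, rfl⟩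
  -- the kernel of the boundary is finitely generated
  have hker := hKER (XCYC.RR χ) (Triv (Gmon χ)) hFP k 1 (XCYC.F1 χ x) (XCYC.F0 χ)
    (XCYC.F0_surj χ) (XCYC.F_exact χ x X₁ hinv hx hcon)
  obtain ⟨Z, hZ⟩ := hker
  refine ⟨X₁ ∪ ⋃ z ∈ (Z : Set (Fin k → XCYC.RR χ)), ⋃ i : Fin k,
    ((fun h : Gmon χ => (h : G)) '' ((z i).coeff.support : Set (Gmon χ)) ∪
     (fun h : Gmon χ => (h : G) * (x i : G)) '' ((z i).coeff.support : Set (Gmon χ))),
    ?_, Set.subset_union_left, ?_⟩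
  · refine hfin.union (Set.Finite.biUnion Z.finite_toSet (fun z _ => ?_))
    refine Set.finite_iUnion (fun i => ?_)
    exact ((Finset.finite_toSet _).image _).union ((Finset.finite_toSet _).image _)
  · intro M _ φ hφ g w hok hw
    have hsub : ∀ y ∈ X₁, y ∈ X₁ ∪ ⋃ z ∈ (Z : Set (Fin k → XCYC.RR χ)), ⋃ i : Fin k,
        ((fun h : Gmon χ => (h : G)) '' ((z i).coeff.support : Set (Gmon χ)) ∪
        (fun h : Gmon χ => (h : G) * (x i : G)) '' ((z i).coeff.support : Set (Gmon χ))) :=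
      fun y hy => Or.inl hy
    have h1 : ∀ g, 0 ≤ χ (Additive.ofMul g) → φ g 1 = 0 := by
      intro g hg
      have h := hφ g 1 1 (hsub 1 hone) (hsub 1 hone) (by rw [mul_one]; exact hsub 1 hone) hg
        (by rw [mul_one]; exact hg) (by rw [mul_one, mul_one]; exact hg)
      rw [mul_one, mul_one] at h
      exact left_eq_add.1 h
    have h2 : ∀ g, ∀ y ∈ X₁, 0 ≤ χ (Additive.ofMul g) →
        0 ≤ χ (Additive.ofMul (g * y)) → φ (g * y) y⁻¹ = - φ g y := by
      intro g y hy hg hgy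
      have h := hφ g y y⁻¹ (hsub y hy) (hsub _ (hinv y hy))
        (by rw [mul_inv_cancel]; exact hsub 1 hone) hg hgy
        (by rw [mul_inv_cancel_right]; exact hg)
      rw [mul_inv_cancel, h1 g hg] at h
      exact eq_neg_of_add_eq_zero_right h.symm
    obtain ⟨c, hc1, hc2⟩ := XCYC.word χ x X₁ hinv hx φ h2 w g hok
    rw [hw, mul_one, sub_self] at hc1
    rw [← hc2]
    have hck : c ∈ LinearMap.ker (XCYC.F1 χ x) := by
      rw [LinearMap.mem_ker]
      funext j
      exact hc1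
    rw [← hZ] at hck
    refine XCYC.eval_span χ x φ _ (fun z hz s => ?_) c hck
    have hz0 : XCYC.f1 χ x z = 0 := by
      have h3 : z ∈ Submodule.span (XCYC.RR χ) (Z : Set (Fin k → XCYC.RR χ)) :=
        Submodule.subset_span hz
      rw [hZ, LinearMap.mem_ker] at h3
      exact congrFun h3 0
    rw [XCYC.eval_cycle χ x φ z s ?_, hz0, map_zero]
    intro i h hh
    have hm : ∀ (a b : G), 0 ≤ χ (Additive.ofMul a) → 0 ≤ χ (Additive.ofMul b) →
        0 ≤ χ (Additive.ofMul (a * b)) := by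
      intro a b ha hb
      rw [ofMul_mul, map_add]; exact add_nonneg ha hb
    refine hφ (s : G) (h : G) (x i : G) ?_ (hsub _ (hx' i)) ?_ s.2 (hm _ _ s.2 h.2)
      (hm _ _ (hm _ _ s.2 h.2) (x i).2)
    · refine Or.inr (Set.mem_biUnion hz (Set.mem_iUnion.2 ⟨i, Or.inl ⟨h, hh, rfl⟩⟩))
    · refine Or.inr (Set.mem_biUnion hz (Set.mem_iUnion.2 ⟨i, Or.inr ⟨h, hh, rfl⟩⟩))

end Pool.Agent.Work.MP_e9e200_al.HS

end

section

/-!
# EXACT: from essential to exact simple connectivity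
-/

set_option autoImplicit false

namespace Pool.Agent.Work.MP_e9e200_al.HS

open Loc

namespace XEXACT

variable {G : Type} [Group G] {χ : Additive G →+ ℝ} {X X₁ X₀ : Set G}

/-- the value of the character -/
def c (χ : Additive G →+ ℝ) (g : G) : ℝ := χ (Additive.ofMul g)

lemma c_mul (g h : G) : c χ (g * h) = c χ g + c χ h := by
  unfold c; rw [ofMul_mul, map_add]

lemma c_inv (g : G) : c χ g⁻¹ = - c χ g := by
  unfold c; rw [ofMul_inv, map_neg]

lemma c_one : c χ (1 : G) = 0 := by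
  unfold c; rw [ofMul_one, map_zero]

lemma ok_head {g : G} {w : List G} (h : Ok χ X g w) : 0 ≤ c χ g := by
  cases w with
  | nil => exact h
  | cons x w => exact h.1

lemma ok_mono (hX : X₁ ⊆ X) : ∀ {w : List G} {g : G}, Ok χ X₁ g w → Ok χ X g w := by
  intro w
  induction w with
  | nil => intro g h; exact h
  | cons x w ih => intro g h; exact ⟨h.1, hX h.2.1, ih h.2.2⟩

lemma ok_last : ∀ {w : List G} {g : G}, Ok χ X g w → 0 ≤ c χ (g * w.prod) := by
  intro w
  induction w with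
  | nil =>
    intro g h
    have h' : 0 ≤ c χ g := h
    simpa using h'
  | cons x w ih =>
    intro g h
    have := ih h.2.2
    rwa [List.prod_cons, ← mul_assoc]

lemma hpy_mono (hX : X₀ ⊆ X) {g : G} {w w' : List G} (h : Hpy χ X₀ g w w') : Hpy χ X g w w' := by
  induction h with
  | refl g w => exact Hpy.refl g w
  | symm _ ih => exact Hpy.symm ih
  | trans _ _ ih₁ ih₂ => exact Hpy.trans ih₁ ih₂
  | cons x _ ih => exact Hpy.cons x ih
  | one g w h1 => exact Hpy.one g w (hX h1)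
  | tri g x y w hx hy hxy h0 h1 h2 => exact Hpy.tri g x y w (hX hx) (hX hy) (hX hxy) h0 h1 h2

lemma hpy_append : ∀ (v : List G) {g : G} {w w' : List G}, Hpy χ X (g * v.prod) w w' →
    Hpy χ X g (v ++ w) (v ++ w') := by
  intro v
  induction v with
  | nil => intro g w w' h; simpa using h
  | cons x v ih =>
    intro g w w' h
    rw [List.cons_append, List.cons_append]
    apply Hpy.cons
    apply ih
    rw [List.prod_cons, ← mul_assoc] at h
    exact h

/-- the products of short words which start at `1` and stay in the half space -/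
def Y (χ : Additive G →+ ℝ) (X₁ : Set G) (N : ℕ) : Set G :=
  {x | ∃ w : List G, w.length ≤ N ∧ Ok χ X₁ 1 w ∧ w.prod = x}

/-- the alphabet -/
def XN (χ : Additive G →+ ℝ) (X₁ : Set G) (N : ℕ) : Set G :=
  {x | x ∈ Y χ X₁ N ∨ x⁻¹ ∈ Y χ X₁ N}

lemma ok_mem : ∀ {w : List G} {g : G}, Ok χ X₁ g w → ∀ y ∈ w, y ∈ X₁ := by
  intro w
  induction w with
  | nil => intro g _ y hy; simp at hy
  | cons x w ih =>
    intro g h y hy
    rcases List.mem_cons.1 hy with rfl | hy
    · exact h.2.1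
    · exact ih h.2.2 y hy

lemma fin_words (hX : X₁.Finite) : ∀ N : ℕ,
    {x | ∃ w : List G, w.length ≤ N ∧ (∀ y ∈ w, y ∈ X₁) ∧ w.prod = x}.Finite := by
  intro N
  induction N with
  | zero =>
    apply (Set.finite_singleton (1 : G)).subset
    rintro x ⟨w, hw, _, rfl⟩
    have : w = [] := List.length_eq_zero_iff.1 (Nat.le_zero.1 hw)
    subst this
    simp
  | succ N ih =>
    apply ((Set.finite_singleton (1 : G)).union (Set.Finite.image2 (fun a b => a * b) hX ih)).subset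
    rintro x ⟨w, hw, hm, rfl⟩
    cases w with
    | nil => left; simp
    | cons y w =>
      right
      refine ⟨y, hm y (List.mem_cons_self), w.prod, ⟨w, ?_, ?_, rfl⟩, ?_⟩
      · simpa using hw
      · intro z hz
        exact hm z (List.mem_cons_of_mem _ hz)
      · simp

lemma fin_Y (hX : X₁.Finite) (N : ℕ) : (Y χ X₁ N).Finite := by
  apply (fin_words hX N).subset
  rintro x ⟨w, hw, ho, hp⟩
  exact ⟨w, hw, ok_mem ho, hp⟩

lemma fin_XN (hX : X₁.Finite) (N : ℕ) : (XN χ X₁ N).Finite := by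
  have h := fin_Y (χ := χ) hX N
  apply (h.union (h.image (fun x => x⁻¹))).subset
  rintro x (hx | hx)
  · left; exact hx
  · right; exact ⟨x⁻¹, hx, by simp⟩

lemma XN_inv {N : ℕ} {x : G} (h : x ∈ XN χ X₁ N) : x⁻¹ ∈ XN χ X₁ N := by
  rcases h with h | h
  · right; rw [inv_inv]; exact h
  · left; exact h

lemma one_Y (N : ℕ) : (1 : G) ∈ Y χ X₁ N := by
  refine ⟨[], by simp, ?_, by simp⟩
  show 0 ≤ c χ 1
  rw [c_one]

lemma Y_mono {M N : ℕ} (h : M ≤ N) : Y χ X₁ M ⊆ Y χ X₁ N := by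
  rintro x ⟨w, hw, ho⟩
  exact ⟨w, hw.trans h, ho⟩

lemma XN_mono {M N : ℕ} (h : M ≤ N) : XN χ X₁ M ⊆ XN χ X₁ N := by
  rintro x (hx | hx)
  · left; exact Y_mono h hx
  · right; exact Y_mono h hx

lemma sub_XN (hs : ∀ x ∈ X₁, x⁻¹ ∈ X₁) {N : ℕ} (hN : 1 ≤ N) : X₁ ⊆ XN χ X₁ N := by
  intro x hx
  rcases le_total 0 (c χ x) with h | h
  · left
    refine ⟨[x], by simpa using hN, ⟨?_, hx, ?_⟩, by simp⟩
    · show 0 ≤ c χ 1
      rw [c_one]
    · show 0 ≤ c χ (1 * x)
      rwa [one_mul]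
  · right
    refine ⟨[x⁻¹], by simpa using hN, ⟨?_, hs x hx, ?_⟩, by simp⟩
    · show 0 ≤ c χ 1
      rw [c_one]
    · show 0 ≤ c χ (1 * x⁻¹)
      rw [one_mul, c_inv]
      linarith

lemma exh (hc : Con χ X₁) (x : G) : ∃ N, x ∈ XN χ X₁ N := by
  have h1 : 0 ≤ χ (Additive.ofMul (1 : G)) := by
    show 0 ≤ c χ 1
    rw [c_one]
  rcases le_total 0 (c χ x) with h | h
  · obtain ⟨w, hw, hp⟩ := hc 1 x h1 h
    exact ⟨w.length, Or.inl ⟨w, le_rfl, hw, by rwa [one_mul] at hp⟩⟩
  · have h' : 0 ≤ χ (Additive.ofMul x⁻¹) := by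
      show 0 ≤ c χ x⁻¹
      rw [c_inv]; linarith
    obtain ⟨w, hw, hp⟩ := hc 1 x⁻¹ h1 h'
    exact ⟨w.length, Or.inr ⟨w, le_rfl, hw, by rwa [one_mul] at hp⟩⟩

lemma exh_fin (hc : Con χ X₁) (hX : X₀.Finite) : ∃ N, 1 ≤ N ∧ X₀ ⊆ XN χ X₁ N := by
  choose f hf using exh (χ := χ) hc
  obtain ⟨B, hB⟩ := (hX.image f).bddAbove
  refine ⟨B + 1, by omega, fun x hx => ?_⟩
  have : f x ≤ B := hB (Set.mem_image_of_mem f hx)
  exact XN_mono (by omega) (hf x)

/-- `Ok` for appended words -/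
lemma ok_snoc : ∀ {w : List G} {g x : G}, Ok χ X₁ g w → x ∈ X₁ → 0 ≤ c χ (g * w.prod * x) →
    Ok χ X₁ g (w ++ [x]) := by
  intro w
  induction w with
  | nil =>
    intro g x h hx h2
    refine ⟨h, hx, ?_⟩
    have : g * ([] : List G).prod * x = g * x := by simp
    rw [this] at h2
    exact h2
  | cons y w ih =>
    intro g x h hx h2
    refine ⟨h.1, h.2.1, ih h.2.2 hx ?_⟩
    rwa [List.prod_cons, ← mul_assoc] at h2

/-- appending one letter stays in `Y` -/
lemma Y_snoc {k : ℕ} {p x : G} (hp : p ∈ Y χ X₁ k) (hx : x ∈ X₁) (h : 0 ≤ c χ (p * x)) :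
    p * x ∈ Y χ X₁ (k + 1) := by
  obtain ⟨w, hw, ho, rfl⟩ := hp
  refine ⟨w ++ [x], by simpa using hw, ok_snoc ho hx ?_, by simp⟩
  rwa [one_mul]

/-- replacing an upward edge by its path -/
lemma edgeA (hs : ∀ x ∈ X₁, x⁻¹ ∈ X₁) {N : ℕ} (hN : 1 ≤ N) {g : G} (hg : 0 ≤ c χ g)
    (u : List G) : ∀ (w : List G) (k : ℕ) (p : G), p ∈ Y χ X₁ k → k + w.length ≤ N →
    Ok χ X₁ p w → Hpy χ (XN χ X₁ N) g ((p * w.prod) :: u) (p :: (w ++ u)) := by
  intro w
  induction w with
  | nil =>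
    intro k p _ _ _
    simpa using Hpy.refl g (p :: u)
  | cons x w ih =>
    intro k p hp hk ho
    have hpx : 0 ≤ c χ (p * x) := ok_head ho.2.2
    have hp0 : 0 ≤ c χ p := ho.1
    have h1 : p * x ∈ Y χ X₁ (k + 1) := Y_snoc hp ho.2.1 hpx
    have hk' : k + 1 + w.length ≤ N := by
      have : (x :: w).length = w.length + 1 := by simp
      omega
    have h2 := ih (k + 1) (p * x) h1 hk' ho.2.2
    have h3 : Hpy χ (XN χ X₁ N) g (p :: x :: (w ++ u)) ((p * x) :: (w ++ u)) := by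
      apply Hpy.tri
      · left; exact Y_mono (by omega) hp
      · exact sub_XN hs hN ho.2.1
      · left; exact Y_mono (by omega) h1
      · exact hg
      · show 0 ≤ c χ (g * p)
        rw [c_mul]; linarith
      · show 0 ≤ c χ (g * p * x)
        rw [mul_assoc, c_mul]; linarith
    have h4 := Hpy.trans h2 (Hpy.symm h3)
    rw [List.prod_cons, ← mul_assoc]
    exact h4

/-- the inverse word -/
def rv (w : List G) : List G := (w.map (fun y => y⁻¹)).reverse

lemma rv_cons (x : G) (w : List G) : rv (x :: w) = rv w ++ [x⁻¹] := by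
  simp [rv]

lemma rv_prod (w : List G) : (rv w).prod = w.prod⁻¹ := by
  induction w with
  | nil => simp [rv]
  | cons x w ih => rw [rv_cons, List.prod_append, ih]; simp

/-- replacing a downward edge by its path -/
lemma edgeB (hs : ∀ x ∈ X₁, x⁻¹ ∈ X₁) {N : ℕ} (hN : 1 ≤ N) {g : G} :
    ∀ (w : List G) (u : List G) (k : ℕ) (p : G), p ∈ Y χ X₁ k → k + w.length ≤ N →
    Ok χ X₁ p w → 0 ≤ c χ (g * (p * w.prod)⁻¹) →
    Hpy χ (XN χ X₁ N) g ((p * w.prod)⁻¹ :: u) (rv w ++ (p⁻¹ :: u)) := by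
  intro w
  induction w with
  | nil =>
    intro u k p _ _ _ _
    simpa [rv] using Hpy.refl g (p⁻¹ :: u)
  | cons x w ih =>
    intro u k p hp hk ho hg
    have hpx : 0 ≤ c χ (p * x) := ok_head ho.2.2
    have hp0 : 0 ≤ c χ p := ho.1
    have h1 : p * x ∈ Y χ X₁ (k + 1) := Y_snoc hp ho.2.1 hpx
    have hk' : k + 1 + w.length ≤ N := by
      have : (x :: w).length = w.length + 1 := by simp
      omega
    have e : p * (x :: w).prod = p * x * w.prod := by rw [List.prod_cons, mul_assoc]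
    rw [e] at hg ⊢
    have h2 := ih u (k + 1) (p * x) h1 hk' ho.2.2 hg
    have hg' : 0 ≤ c χ g - c χ p - c χ x - c χ w.prod := by
      rw [c_mul, c_inv, c_mul, c_mul] at hg
      linarith
    rw [c_mul] at hpx
    have h3 : Hpy χ (XN χ X₁ N) (g * (rv w).prod) (x⁻¹ :: p⁻¹ :: u) ((x⁻¹ * p⁻¹) :: u) := by
      apply Hpy.tri
      · exact sub_XN hs hN (hs x ho.2.1)
      · right; rw [inv_inv]; exact Y_mono (by omega) hp
      · right
        have : (x⁻¹ * p⁻¹)⁻¹ = p * x := by group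
        rw [this]
        exact Y_mono (by omega) h1
      · show 0 ≤ c χ (g * (rv w).prod)
        rw [rv_prod, c_mul, c_inv]; linarith
      · show 0 ≤ c χ (g * (rv w).prod * x⁻¹)
        rw [rv_prod, c_mul, c_mul, c_inv, c_inv]; linarith
      · show 0 ≤ c χ (g * (rv w).prod * x⁻¹ * p⁻¹)
        rw [rv_prod, c_mul, c_mul, c_mul, c_inv, c_inv, c_inv]; linarith
    have h4 := hpy_append (rv w) (Hpy.symm h3)
    rw [rv_cons, List.append_assoc, List.singleton_append]
    have e2 : (p * x)⁻¹ = x⁻¹ * p⁻¹ := by group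
    rw [e2] at h2
    exact Hpy.trans h2 h4

lemma okA {g : G} (hg : 0 ≤ c χ g) (u : List G) : ∀ (w : List G) (p : G), Ok χ X₁ p w →
    Ok χ X₁ (g * p * w.prod) u → Ok χ X₁ (g * p) (w ++ u) := by
  intro w
  induction w with
  | nil => intro p _ h; simpa using h
  | cons x w ih =>
    intro p ho h
    refine ⟨?_, ho.2.1, ?_⟩
    · show 0 ≤ c χ (g * p)
      have : 0 ≤ c χ p := ho.1
      rw [c_mul]; linarith
    · have h2 := ih (p * x) ho.2.2
      have e : g * (p * x) = g * p * x := by group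
      rw [e] at h2
      apply h2
      rwa [List.prod_cons, ← mul_assoc] at h

lemma okB (hs : ∀ x ∈ X₁, x⁻¹ ∈ X₁) {g : G} : ∀ (w : List G) (u : List G) (p : G),
    Ok χ X₁ p w → 0 ≤ c χ (g * (p * w.prod)⁻¹) → Ok χ X₁ (g * w.prod⁻¹) u →
    Ok χ X₁ g (rv w ++ u) := by
  intro w
  induction w with
  | nil => intro u p _ _ h; simpa [rv] using h
  | cons x w ih =>
    intro u p ho hg h
    have hpx : 0 ≤ c χ (p * x) := ok_head ho.2.2
    have e : p * (x :: w).prod = p * x * w.prod := by rw [List.prod_cons, mul_assoc]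
    rw [e] at hg
    rw [rv_cons, List.append_assoc, List.singleton_append]
    apply ih (x⁻¹ :: u) (p * x) ho.2.2 hg
    refine ⟨?_, hs x ho.2.1, ?_⟩
    · show 0 ≤ c χ (g * w.prod⁻¹)
      rw [c_mul, c_inv, c_mul] at hg
      rw [c_mul, c_inv]
      linarith
    · have e2 : g * (x :: w).prod⁻¹ = g * w.prod⁻¹ * x⁻¹ := by
        rw [List.prod_cons]; group
      rwa [e2] at h

/-- one edge over the large alphabet -/
lemma edge (hs : ∀ x ∈ X₁, x⁻¹ ∈ X₁) (h1 : (1 : G) ∈ X₁) {N : ℕ} (hN : 1 ≤ N) {g x : G}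
    (hx : x ∈ XN χ X₁ N) (hg : 0 ≤ c χ g) (hgx : 0 ≤ c χ (g * x)) (u : List G)
    (hu : Ok χ X₁ (g * x) u) : ∃ w : List G, Ok χ X₁ g (w ++ u) ∧ w.prod = x ∧
      Hpy χ (XN χ X₁ N) g (x :: u) (w ++ u) := by
  have hone : (1 : G) ∈ XN χ X₁ N := sub_XN hs hN h1
  rcases hx with hx | hx
  · obtain ⟨w, hw, ho, rfl⟩ := hx
    refine ⟨w, ?_, rfl, ?_⟩
    · have := okA hg u w 1 ho (by rwa [mul_one])
      rwa [mul_one] at this
    · have h2 := edgeA hs hN hg u w 0 1 (one_Y 0) (by omega) ho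
      rw [one_mul] at h2
      exact Hpy.trans h2 (Hpy.one g _ hone)
  · obtain ⟨w, hw, ho, hwx⟩ := hx
    have hx' : x = w.prod⁻¹ := by rw [hwx, inv_inv]
    subst hx'
    refine ⟨rv w, ?_, rv_prod w, ?_⟩
    · exact okB hs w u 1 ho (by rwa [one_mul]) hu
    · have h2 := edgeB hs hN w u 0 1 (one_Y 0) (by omega) ho (g := g) (by rwa [one_mul])
      rw [one_mul, inv_one] at h2
      exact Hpy.trans h2 (hpy_append (rv w) (Hpy.one _ _ hone))

/-- every path over the large alphabet is homotopic to a path over the small alphabet -/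
lemma path (hs : ∀ x ∈ X₁, x⁻¹ ∈ X₁) (h1 : (1 : G) ∈ X₁) {N : ℕ} (hN : 1 ≤ N) :
    ∀ (w : List G) (g : G), Ok χ (XN χ X₁ N) g w → ∃ w' : List G, Ok χ X₁ g w' ∧
      w'.prod = w.prod ∧ Hpy χ (XN χ X₁ N) g w w' := by
  intro w
  induction w with
  | nil => intro g h; exact ⟨[], h, rfl, Hpy.refl g []⟩
  | cons x w ih =>
    intro g h
    obtain ⟨u, hu, hp, hh⟩ := ih (g * x) h.2.2
    obtain ⟨v, hv, hvx, hhv⟩ := edge hs h1 hN h.2.1 h.1 (ok_head h.2.2) u hu
    refine ⟨v ++ u, hv, ?_, Hpy.trans (Hpy.cons x hh) hhv⟩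
    rw [List.prod_append, List.prod_cons, hvx, hp]

end XEXACT

open XEXACT in
/-- EXACT: from essential to exact simple connectivity -/
theorem I_EXACT : StEXACT := by
  intro G _ χ X₁ X₀ hf₁ hf₀ hs h1 hc h
  obtain ⟨N, hN, hX⟩ := exh_fin (χ := χ) hc hf₀
  refine ⟨XN χ X₁ N, fin_XN hf₁ N, fun x hx => XN_inv hx, Or.inl (one_Y N), sub_XN hs hN, ?_, ?_⟩
  · intro g k hg hk
    obtain ⟨w, hw, hp⟩ := hc g k hg hk
    exact ⟨w, ok_mono (sub_XN hs hN) hw, hp⟩
  · intro g w hw hp
    obtain ⟨w', hw', hp', hh⟩ := path hs h1 hN w g hw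
    exact Hpy.trans hh (hpy_mono hX (h g w' hw' (hp'.trans hp)))

end Pool.Agent.Work.MP_e9e200_al.HS

end

section

/-! Item EXPR: relations in the kernel hold for the holonomies. -/

set_option autoImplicit false

namespace Pool.Agent.Work.MP_e9e200_al.HS

open Loc

namespace XEXPR

variable {G Q : Type} [Group G] [CommGroup Q] {n : ℕ} (S : Loc G Q n)

/-- the conclusion for one element -/
def Cn (T : Set G) (F' : Set Q) (X : Set G) (t : G) : Prop :=
  ∀ (H : Type) [Group H] (c : Q → G → H), S.Flat X c → ∀ p : Q, 0 ≤ S.v p →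
    (∀ f, f ∈ F' → 0 ≤ S.v (p * f)) →
    c p t ∈ Subgroup.closure {h : H | ∃ f, f ∈ F' ∧ ∃ t' ∈ T,
      h = c p (S.sec f) * c (p * f) t' * (c p (S.sec f))⁻¹}

theorem flat_mono {H : Type} [Group H] {X Y : Set G} (h : X ⊆ Y) {c : Q → G → H}
    (hc : S.Flat Y c) : S.Flat X c :=
  fun q x y hx hy hxy => hc q x y (h hx) (h hy) (h hxy)

theorem Cn.mono {T : Set G} {F' : Set Q} {X Y : Set G} (h : X ⊆ Y) {t : G}
    (hc : Cn S T F' X t) : Cn S T F' Y t :=
  fun H _ c hY => hc H c (flat_mono S h hY)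

theorem flat_one {H : Type} [Group H] {X : Set G} {c : Q → G → H} (hc : S.Flat X c)
    (h1 : (1 : G) ∈ X) {q : Q} (hq : 0 ≤ S.v q) : c q 1 = 1 := by
  have h := hc q 1 1 h1 h1 (by simpa using h1) hq (by simpa using hq) (by simpa using hq)
  simpa using h

theorem flat_ker {H : Type} [Group H] {X : Set G} {c : Q → G → H} (hc : S.Flat X c)
    {a b : G} (ha : a ∈ X) (hb : b ∈ X) (hab : a * b ∈ X) (pa : S.pr a = 1) (pb : S.pr b = 1)
    {q : Q} (hq : 0 ≤ S.v q) : c q (a * b) = c q a * c q b := by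
  have h := hc q a b ha hb hab hq (by simpa [pa] using hq) (by simpa [pa, pb] using hq)
  simpa [pa] using h

theorem main (T : Set G) (hT : ∀ t ∈ T, S.pr t = 1) (F' : Set Q) (t : G)
    (ht : t ∈ S.cl T (fun f => f ∈ F')) :
    S.pr t = 1 ∧ ∃ X : Set G, X.Finite ∧ Cn S T F' X t := by
  unfold Loc.cl at ht
  induction ht using Subgroup.closure_induction with
  | mem x hx =>
    obtain ⟨f, hf, t, ht, rfl⟩ := hx
    refine ⟨by simp [hT t ht], {1, S.sec f, t, S.sec f * t, (S.sec f)⁻¹,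
      S.sec f * t * (S.sec f)⁻¹}, Set.toFinite _, ?_⟩
    intro H _ c hc p hp hF
    have hpf := hF f hf
    have e1 : c p (S.sec f * t) = c p (S.sec f) * c (p * f) t := by
      have h := hc p (S.sec f) t (by simp) (by simp) (by simp) hp
        (by simpa [S.pr_sec] using hpf) (by simpa [S.pr_sec, hT t ht] using hpf)
      simpa [S.pr_sec] using h
    have e2 : c p (S.sec f * t * (S.sec f)⁻¹) =
        c p (S.sec f * t) * c (p * f) (S.sec f)⁻¹ := by
      have h := hc p (S.sec f * t) (S.sec f)⁻¹ (by simp) (by simp) (by simp) hp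
        (by simpa [S.pr_sec, hT t ht] using hpf) (by simpa [S.pr_sec, hT t ht] using hp)
      simpa [S.pr_sec, hT t ht] using h
    have e3 : c p (S.sec f) * c (p * f) (S.sec f)⁻¹ = 1 := by
      have h := hc p (S.sec f) (S.sec f)⁻¹ (by simp) (by simp) (by simp) hp
        (by simpa [S.pr_sec] using hpf) (by simpa [S.pr_sec] using hp)
      rw [mul_inv_cancel, flat_one S hc (by simp) hp] at h
      simpa [S.pr_sec] using h.symm
    have e4 : c (p * f) (S.sec f)⁻¹ = (c p (S.sec f))⁻¹ := (inv_eq_of_mul_eq_one_right e3).symm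
    rw [e2, e1, e4]
    exact Subgroup.subset_closure ⟨f, hf, t, ht, rfl⟩
  | one =>
    refine ⟨map_one _, {1}, Set.toFinite _, ?_⟩
    intro H _ c hc p hp hF
    rw [flat_one S hc (by simp) hp]
    exact Subgroup.one_mem _
  | mul a b _ _ iha ihb =>
    obtain ⟨pa, Xa, fa, ca⟩ := iha
    obtain ⟨pb, Xb, fb, cb⟩ := ihb
    refine ⟨by simp [pa, pb], Xa ∪ Xb ∪ {a, b, a * b}, (fa.union fb).union (Set.toFinite _), ?_⟩
    intro H _ c hc p hp hF
    rw [flat_ker S hc (by simp) (by simp) (by simp) pa pb hp]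
    exact Subgroup.mul_mem _
      (ca H c (flat_mono S (fun x hx => Or.inl (Or.inl hx)) hc) p hp hF)
      (cb H c (flat_mono S (fun x hx => Or.inl (Or.inr hx)) hc) p hp hF)
  | inv a _ iha =>
    obtain ⟨pa, Xa, fa, ca⟩ := iha
    refine ⟨by simp [pa], Xa ∪ {a, a⁻¹, 1}, fa.union (Set.toFinite _), ?_⟩
    intro H _ c hc p hp hF
    have e := flat_ker S hc (a := a) (b := a⁻¹) (by simp) (by simp) (by simp) pa
      (by simp [pa]) hp
    rw [mul_inv_cancel, flat_one S hc (by simp) hp] at e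
    rw [← inv_eq_of_mul_eq_one_right e.symm]
    exact Subgroup.inv_mem _
      (ca H c (flat_mono S (fun x hx => Or.inl hx) hc) p hp hF)

end XEXPR

theorem I_EXPR : StEXPR := by
  intro G Q _ _ n S T A₁ F _ hT hA hF
  have hex : ∀ (F' : Set Q) (t : G), ∃ X : Set G, X.Finite ∧
      (t ∈ S.cl T (fun f => f ∈ F') → XEXPR.Cn S T F' X t) := by
    intro F' t
    by_cases ht : t ∈ S.cl T (fun f => f ∈ F')
    · obtain ⟨-, X, hX, hc⟩ := XEXPR.main S T hT F' t ht
      exact ⟨X, hX, fun _ => hc⟩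
    · exact ⟨∅, Set.finite_empty, fun h => absurd h ht⟩
  choose X hXf hXc using hex
  refine ⟨⋃ F' ∈ {F' : Set Q | F' ⊆ F}, ⋃ t ∈ A₁, X F' t, ?_, ?_⟩
  · exact hF.finite_subsets.biUnion fun F' _ => hA.biUnion fun t _ => hXf F' t
  · intro H _ c hc p P hp hP t ht htc
    have hsub : X {f | P f} t ⊆ ⋃ F' ∈ {F' : Set Q | F' ⊆ F}, ⋃ t ∈ A₁, X F' t := by
      intro x hx
      simp only [Set.mem_iUnion]
      exact ⟨{f | P f}, fun f hf => (hP f hf).1, t, ht, hx⟩
    exact hXc {f | P f} t htc H c (XEXPR.flat_mono S hsub hc) p hp fun f hf => (hP f hf).2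

end Pool.Agent.Work.MP_e9e200_al.HS

end

section

/-!
# Project HS, item FP2: simple connectivity implies type `FP_2`
-/

set_option autoImplicit false

namespace Pool.Agent.Work.MP_e9e200_al.HS

open Loc

namespace XFP2

variable {G : Type} [Group G] (χ : Additive G →+ ℝ) (X : Set G)

/-- the monoid ring -/
abbrev RR := MonoidAlgebra ℤ (Gmon χ)

/-- the edges which start at `1` -/
abbrev E := {x : G // x ∈ X ∧ 0 ≤ χ (Additive.ofMul x)}

theorem chi_mul (a b : G) :
    χ (Additive.ofMul (a * b)) = χ (Additive.ofMul a) + χ (Additive.ofMul b) := by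
  rw [ofMul_mul, map_add]

theorem chi_inv (a : G) : χ (Additive.ofMul a⁻¹) = -χ (Additive.ofMul a) := by
  rw [ofMul_inv, map_neg]

theorem chi_one : χ (Additive.ofMul (1 : G)) = 0 := by
  rw [ofMul_one, map_zero]

open Classical in
/-- a group element as an element of the monoid ring -/
noncomputable def o (g : G) : RR χ :=
  if h : 0 ≤ χ (Additive.ofMul g) then MonoidAlgebra.of ℤ (Gmon χ) ⟨g, h⟩ else 0

variable {χ X}

theorem o_pos {g : G} (h : 0 ≤ χ (Additive.ofMul g)) :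
    o χ g = MonoidAlgebra.of ℤ (Gmon χ) ⟨g, h⟩ := dif_pos h

theorem o_of (s : Gmon χ) : MonoidAlgebra.of ℤ (Gmon χ) s = o χ (s : G) :=
  (o_pos (g := (s : G)) s.2).symm

theorem o_one : o χ (1 : G) = 1 := by
  rw [o_pos (by rw [chi_one]), MonoidAlgebra.one_def]
  rfl

theorem o_mul {g h : G} (hg : 0 ≤ χ (Additive.ofMul g)) (hh : 0 ≤ χ (Additive.ofMul h)) :
    o χ (g * h) = o χ g * o χ h := by
  rw [o_pos hg, o_pos hh, o_pos (by rw [chi_mul]; exact add_nonneg hg hh), ← map_mul]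
  rfl

variable (χ X)

open Classical in
/-- the chain of an edge -/
noncomputable def ed (g x : G) : E χ X →₀ RR χ :=
  if hx : x ∈ X ∧ 0 ≤ χ (Additive.ofMul x) then Finsupp.single ⟨x, hx⟩ (o χ g)
  else if hx' : x⁻¹ ∈ X ∧ 0 ≤ χ (Additive.ofMul x⁻¹) then
    -Finsupp.single ⟨x⁻¹, hx'⟩ (o χ (g * x))
  else 0

/-- the boundary -/
noncomputable def f1 : (E χ X →₀ RR χ) →ₗ[RR χ] RR χ :=
  Finsupp.linearCombination (RR χ) (fun e : E χ X => o χ (e : G) - 1)

variable {χ X}

theorem smul_ed {s g x : G} (hs : 0 ≤ χ (Additive.ofMul s)) (hg : 0 ≤ χ (Additive.ofMul g))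
    (hx : 0 ≤ χ (Additive.ofMul (g * x))) : o χ s • ed χ X g x = ed χ X (s * g) x := by
  unfold ed
  split_ifs with h1 h2
  · rw [Finsupp.smul_single, smul_eq_mul, o_mul hs hg]
  · rw [smul_neg, Finsupp.smul_single, smul_eq_mul, mul_assoc, o_mul hs hx]
  · exact smul_zero _

theorem f1_ed (hsym : ∀ x ∈ X, x⁻¹ ∈ X) {g x : G} (hxX : x ∈ X)
    (hg : 0 ≤ χ (Additive.ofMul g)) (hx : 0 ≤ χ (Additive.ofMul (g * x))) :
    f1 χ X (ed χ X g x) = o χ (g * x) - o χ g := by
  by_cases h1 : 0 ≤ χ (Additive.ofMul x)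
  · unfold ed
    rw [dif_pos ⟨hxX, h1⟩]
    unfold f1
    rw [Finsupp.linearCombination_single, smul_eq_mul, mul_sub, mul_one, o_mul hg h1]
  · have h2 : 0 ≤ χ (Additive.ofMul x⁻¹) := by
      rw [chi_inv]
      linarith
    unfold ed
    rw [dif_neg (fun h => h1 h.2), dif_pos ⟨hsym x hxX, h2⟩]
    unfold f1
    rw [map_neg, Finsupp.linearCombination_single, smul_eq_mul, mul_sub, mul_one,
      ← o_mul hx h2, mul_inv_cancel_right]
    abel

theorem f1_sm (hsym : ∀ x ∈ X, x⁻¹ ∈ X) : ∀ (w : List G) (g : G), Ok χ X g w →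
    f1 χ X (sm (ed χ X) g w) = o χ (g * w.prod) - o χ g
  | [], g, _ => by
    simp [sm]
  | x :: w, g, h => by
    obtain ⟨hg, hx, hw⟩ := h
    have hgx : 0 ≤ χ (Additive.ofMul (g * x)) := by
      cases w with
      | nil => exact hw
      | cons a l => exact hw.1
    have ih := f1_sm hsym w (g * x) hw
    show f1 χ X (ed χ X g x + sm (ed χ X) (g * x) w) = _
    rw [map_add, ih, f1_ed hsym hx hg hgx, List.prod_cons, mul_assoc]
    abel

/-- the start of an admissible word -/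
theorem ok_start {g : G} {w : List G} (h : Ok χ X g w) : 0 ≤ χ (Additive.ofMul g) := by
  cases w with
  | nil => exact h
  | cons a l => exact h.1

theorem ok_append : ∀ (w w' : List G) (g : G), Ok χ X g w → Ok χ X (g * w.prod) w' →
    Ok χ X g (w ++ w')
  | [], w', g, _, h' => by simpa using h'
  | x :: w, w', g, h, h' => by
    refine ⟨h.1, h.2.1, ok_append w w' (g * x) h.2.2 ?_⟩
    rw [List.prod_cons, ← mul_assoc] at h'
    exact h'

theorem sm_append {M : Type} [AddCommGroup M] (φ : G → G → M) : ∀ (w w' : List G) (g : G),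
    sm φ g (w ++ w') = sm φ g w + sm φ (g * w.prod) w'
  | [], w', g => by simp [sm]
  | x :: w, w', g => by
    show φ g x + sm φ (g * x) (w ++ w') = φ g x + sm φ (g * x) w + _
    rw [sm_append φ w w' (g * x), List.prod_cons, mul_assoc, add_assoc]

variable (χ X)

/-- the chain of a triangle -/
noncomputable def tr3 (g x y : G) : E χ X →₀ RR χ :=
  ed χ X g x + ed χ X (g * x) y - ed χ X g (x * y)

/-- the chains of the small triangles -/
def gens : Set (E χ X →₀ RR χ) := {r | ∃ x ∈ X, ∃ y ∈ X, ∃ g0 ∈ ({1, x⁻¹, (x * y)⁻¹} : Set G),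
  x * y ∈ X ∧ 0 ≤ χ (Additive.ofMul g0) ∧ 0 ≤ χ (Additive.ofMul (g0 * x)) ∧
    0 ≤ χ (Additive.ofMul (g0 * x * y)) ∧ r = tr3 χ X g0 x y}

/-- the module generated by the small triangles -/
noncomputable def N : Submodule (RR χ) (E χ X →₀ RR χ) := Submodule.span (RR χ) (gens χ X)

variable {χ X}

theorem gens_finite (hX : X.Finite) : (gens χ X).Finite := by
  have h1 : (⋃ x ∈ X, ⋃ y ∈ X, ({tr3 χ X 1 x y, tr3 χ X x⁻¹ x y, tr3 χ X (x * y)⁻¹ x y} :
      Set (E χ X →₀ RR χ))).Finite :=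
    hX.biUnion fun x _ => hX.biUnion fun y _ => by simp
  refine h1.subset ?_
  rintro r ⟨x, hx, y, hy, g0, hg0, _, _, _, _, rfl⟩
  simp only [Set.mem_iUnion]
  refine ⟨x, hx, y, hy, ?_⟩
  simp only [Set.mem_insert_iff, Set.mem_singleton_iff] at hg0 ⊢
  rcases hg0 with rfl | rfl | rfl
  · exact Or.inl rfl
  · exact Or.inr (Or.inl rfl)
  · exact Or.inr (Or.inr rfl)

theorem smul_tr3 {s g x y : G} (hs : 0 ≤ χ (Additive.ofMul s)) (hg : 0 ≤ χ (Additive.ofMul g))
    (hx : 0 ≤ χ (Additive.ofMul (g * x))) (hy : 0 ≤ χ (Additive.ofMul (g * x * y))) :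
    o χ s • tr3 χ X g x y = tr3 χ X (s * g) x y := by
  unfold tr3
  rw [smul_sub, smul_add, smul_ed hs hg hx, smul_ed hs hx hy,
    smul_ed hs hg (by rw [← mul_assoc]; exact hy), mul_assoc s g x]

theorem tr3_mem {g x y : G} (hx : x ∈ X) (hy : y ∈ X) (hxy : x * y ∈ X)
    (h0 : 0 ≤ χ (Additive.ofMul g)) (h1 : 0 ≤ χ (Additive.ofMul (g * x)))
    (h2 : 0 ≤ χ (Additive.ofMul (g * x * y))) : tr3 χ X g x y ∈ N χ X := by
  have key : ∀ g0 ∈ ({1, x⁻¹, (x * y)⁻¹} : Set G), 0 ≤ χ (Additive.ofMul g0) →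
      0 ≤ χ (Additive.ofMul (g0 * x)) → 0 ≤ χ (Additive.ofMul (g0 * x * y)) →
      0 ≤ χ (Additive.ofMul (g * g0⁻¹)) → tr3 χ X g x y ∈ N χ X := by
    intro g0 hg0 a0 a1 a2 a3
    have e1 := smul_tr3 (X := X) a3 a0 a1 a2
    rw [inv_mul_cancel_right] at e1
    rw [← e1]
    exact (N χ X).smul_mem _ (Submodule.subset_span ⟨x, hx, y, hy, g0, hg0, hxy, a0, a1, a2, rfl⟩)
  have e2 : χ (Additive.ofMul (g * x)) = χ (Additive.ofMul g) + χ (Additive.ofMul x) :=
    chi_mul χ g x
  have e3 : χ (Additive.ofMul (g * x * y)) = χ (Additive.ofMul g) + χ (Additive.ofMul x) +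
      χ (Additive.ofMul y) := by rw [chi_mul, e2]
  by_cases c1 : 0 ≤ χ (Additive.ofMul x) ∧ 0 ≤ χ (Additive.ofMul x) + χ (Additive.ofMul y)
  · refine key 1 (by simp) (by rw [chi_one]) ?_ ?_ ?_
    · rw [one_mul]
      exact c1.1
    · rw [one_mul, chi_mul]
      exact c1.2
    · simpa using h0
  · by_cases c2 : χ (Additive.ofMul x) ≤ χ (Additive.ofMul x) + χ (Additive.ofMul y)
    · have c3 : χ (Additive.ofMul x) < 0 := by
        by_contra hcon
        push Not at hcon
        exact c1 ⟨hcon, hcon.trans c2⟩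
      refine key x⁻¹ (by simp) ?_ ?_ ?_ ?_
      · rw [chi_inv]
        linarith
      · rw [inv_mul_cancel, chi_one]
      · rw [inv_mul_cancel, one_mul]
        linarith
      · rw [inv_inv]
        exact h1
    · have c3 : χ (Additive.ofMul x) + χ (Additive.ofMul y) < 0 := by
        by_contra hcon
        push Not at hcon c2
        exact c1 ⟨by linarith, hcon⟩
      push Not at c2
      refine key (x * y)⁻¹ (by simp) ?_ ?_ ?_ ?_
      · rw [chi_inv, chi_mul]
        linarith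
      · rw [chi_mul, chi_inv, chi_mul]
        linarith
      · rw [mul_assoc, inv_mul_cancel, chi_one]
      · rw [inv_inv, ← mul_assoc]
        exact h2

theorem ed_one_mem (h1 : (1 : G) ∈ X) {g : G} (hg : 0 ≤ χ (Additive.ofMul g)) :
    ed χ X g 1 ∈ N χ X := by
  have h2 := tr3_mem (χ := χ) (g := g) h1 h1 (by rw [mul_one]; exact h1) hg
    (by rw [mul_one]; exact hg) (by rw [mul_one, mul_one]; exact hg)
  unfold tr3 at h2
  rw [mul_one, mul_one] at h2
  simpa using h2

theorem hpy_mem (h1 : (1 : G) ∈ X) {g : G} {w w' : List G} (h : Hpy χ X g w w') :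
    (Ok χ X g w ↔ Ok χ X g w') ∧
      (Ok χ X g w → sm (ed χ X) g w - sm (ed χ X) g w' ∈ N χ X) := by
  induction h with
  | refl g w => exact ⟨Iff.rfl, fun _ => by simp⟩
  | symm _ ih =>
    refine ⟨ih.1.symm, fun h => ?_⟩
    have := (N χ X).neg_mem (ih.2 (ih.1.2 h))
    rwa [neg_sub] at this
  | trans _ _ ih ih' =>
    refine ⟨ih.1.trans ih'.1, fun h => ?_⟩
    have := (N χ X).add_mem (ih.2 h) (ih'.2 (ih.1.1 h))
    rwa [sub_add_sub_cancel] at this
  | @cons g x w w' _ ih =>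
    refine ⟨⟨fun h => ⟨h.1, h.2.1, ih.1.1 h.2.2⟩, fun h => ⟨h.1, h.2.1, ih.1.2 h.2.2⟩⟩,
      fun h => ?_⟩
    have := ih.2 h.2.2
    show ed χ X g x + sm (ed χ X) (g * x) w - (ed χ X g x + sm (ed χ X) (g * x) w') ∈ N χ X
    rwa [add_sub_add_left_eq_sub]
  | one g w hX =>
    refine ⟨⟨fun h => ?_, fun h => ⟨ok_start h, hX, by rwa [mul_one]⟩⟩, fun h => ?_⟩
    · have := h.2.2
      rwa [mul_one] at this
    · show ed χ X g 1 + sm (ed χ X) (g * 1) w - sm (ed χ X) g w ∈ N χ X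
      rw [mul_one, add_sub_cancel_right]
      exact ed_one_mem h1 h.1
  | tri g x y w hx hy hxy c0 c1 c2 =>
    refine ⟨⟨fun h => ⟨h.1, hxy, ?_⟩, fun h => ⟨h.1, hx, c1, hy, ?_⟩⟩, fun h => ?_⟩
    · have := h.2.2.2.2
      rwa [mul_assoc] at this
    · have := h.2.2
      rwa [← mul_assoc] at this
    · show ed χ X g x + (ed χ X (g * x) y + sm (ed χ X) (g * x * y) w) -
        (ed χ X g (x * y) + sm (ed χ X) (g * (x * y)) w) ∈ N χ X
      rw [← mul_assoc]
      have := tr3_mem (χ := χ) hx hy hxy c0 c1 c2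
      unfold tr3 at this
      have e : ed χ X g x + (ed χ X (g * x) y + sm (ed χ X) (g * x * y) w) -
          (ed χ X g (x * y) + sm (ed χ X) (g * x * y) w) =
          ed χ X g x + ed χ X (g * x) y - ed χ X g (x * y) := by abel
      rwa [e]

theorem closed_mem (h1 : (1 : G) ∈ X) (hsic : Sic χ X) {g : G} {w : List G}
    (h : Ok χ X g w) (hw : w.prod = 1) : sm (ed χ X) g w ∈ N χ X := by
  have := (hpy_mem h1 (hsic g w h hw)).2 h
  simpa [sm] using this

/-- the additive map with given values at the elements of the monoid -/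
noncomputable def bt {A : Type} [AddCommGroup A] (c : Gmon χ → A) : RR χ →+ A :=
  (Finsupp.liftAddHom (fun s : Gmon χ => (zmultiplesHom A) (c s))).comp
    (MonoidAlgebra.coeffAddEquiv (R := ℤ) (M := Gmon χ)).toAddMonoidHom

theorem bt_of {A : Type} [AddCommGroup A] (c : Gmon χ → A) (s : Gmon χ) :
    bt c (MonoidAlgebra.of ℤ (Gmon χ) s) = c s := by
  have e : (MonoidAlgebra.coeffAddEquiv (R := ℤ) (M := Gmon χ))
      (MonoidAlgebra.of ℤ (Gmon χ) s) = Finsupp.single s 1 := rfl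
  unfold bt
  rw [AddMonoidHom.comp_apply]
  show (Finsupp.liftAddHom _) ((MonoidAlgebra.coeffAddEquiv (R := ℤ) (M := Gmon χ))
    (MonoidAlgebra.of ℤ (Gmon χ) s)) = _
  rw [e, Finsupp.liftAddHom_apply_single, zmultiplesHom_apply, one_zsmul]

/-- the words from `1` -/
theorem beta_eq (h1 : (1 : G) ∈ X) (hcon : Con χ X) (hsic : Sic χ X) :
    ∃ β : RR χ →+ ((E χ X →₀ RR χ) ⧸ N χ X), ∀ z, β (f1 χ X z) = (N χ X).mkQ z := by
  have hw : ∀ s : Gmon χ, ∃ w, Ok χ X 1 w ∧ w.prod = (s : G) := by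
    intro s
    obtain ⟨w, a1, a2⟩ := hcon 1 s (by rw [chi_one]) s.2
    exact ⟨w, a1, by simpa using a2⟩
  choose π hπ hπp using hw
  refine ⟨bt fun s => (N χ X).mkQ (sm (ed χ X) 1 (π s)), ?_⟩
  intro z
  induction z using Finsupp.induction_linear with
  | zero => simp
  | add x y hx hy => rw [map_add, map_add, map_add, hx, hy]
  | single e r =>
    induction r using MonoidAlgebra.induction_on with
    | add r r' h h' =>
      rw [Finsupp.single_add, map_add, map_add, map_add, h, h']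
    | smul n r h =>
      have e1 : Finsupp.single e (n • r) = n • Finsupp.single e r :=
        (Finsupp.smul_single n e r).symm
      rw [e1, map_zsmul, map_zsmul, map_zsmul, h]
    | of s =>
      have hse : 0 ≤ χ (Additive.ofMul ((s : G) * (e : G))) := by
        rw [chi_mul]
        exact add_nonneg s.2 e.2.2
      have e1 : f1 χ X (Finsupp.single e (MonoidAlgebra.of ℤ (Gmon χ) s)) =
          MonoidAlgebra.of ℤ (Gmon χ) ⟨(s : G) * e, hse⟩ - MonoidAlgebra.of ℤ (Gmon χ) s := by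
        unfold f1
        rw [Finsupp.linearCombination_single, smul_eq_mul, mul_sub, mul_one, o_pos e.2.2,
          ← map_mul]
        rfl
      rw [e1, map_sub, bt_of, bt_of, ← map_sub]
      obtain ⟨ρ, b1, b2⟩ := hcon ((s : G) * e) 1 hse (by rw [chi_one])
      have e2 : Finsupp.single e (MonoidAlgebra.of ℤ (Gmon χ) s) = ed χ X (s : G) (e : G) := by
        unfold ed
        rw [dif_pos e.2, o_of]
      rw [e2]
      have c1 : sm (ed χ X) 1 (π s ++ ((e : G) :: ρ)) ∈ N χ X := by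
        apply closed_mem h1 hsic
        · apply ok_append _ _ _ (hπ s)
          rw [one_mul, hπp s]
          exact ⟨s.2, e.2.1, b1⟩
        · rw [List.prod_append, hπp s, List.prod_cons, ← mul_assoc]
          exact b2
      have c2 : sm (ed χ X) 1 (π ⟨(s : G) * e, hse⟩ ++ ρ) ∈ N χ X := by
        apply closed_mem h1 hsic
        · apply ok_append _ _ _ (hπ _)
          rw [one_mul, hπp]
          exact b1
        · rw [List.prod_append, hπp]
          exact b2
      rw [sm_append, one_mul, hπp] at c1 c2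
      have c3 := (N χ X).sub_mem c2 c1
      have e3 : sm (ed χ X) 1 (π ⟨(s : G) * e, hse⟩) + sm (ed χ X) ((s : G) * e) ρ -
          (sm (ed χ X) 1 (π s) + sm (ed χ X) (s : G) ((e : G) :: ρ)) =
          (sm (ed χ X) 1 (π ⟨(s : G) * e, hse⟩) - sm (ed χ X) 1 (π s)) - ed χ X (s : G) e := by
        show _ + _ - (_ + (ed χ X (s : G) e + sm (ed χ X) ((s : G) * e) ρ)) = _
        abel
      rw [← sub_eq_zero, ← map_sub]
      have c4 : (sm (ed χ X) 1 (π ⟨(s : G) * e, hse⟩) - sm (ed χ X) 1 (π s)) -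
          ed χ X (s : G) e ∈ N χ X := by
        rw [← e3]
        exact c3
      exact (Submodule.Quotient.mk_eq_zero _).2 c4

theorem ker_f1 (h1 : (1 : G) ∈ X) (hsym : ∀ x ∈ X, x⁻¹ ∈ X) (hcon : Con χ X)
    (hsic : Sic χ X) : LinearMap.ker (f1 χ X) = N χ X := by
  apply le_antisymm
  · intro z hz
    obtain ⟨β, hβ⟩ := beta_eq h1 hcon hsic
    have h2 := hβ z
    rw [LinearMap.mem_ker.1 hz, map_zero] at h2
    exact (Submodule.Quotient.mk_eq_zero _).1 h2.symm
  · rw [N, Submodule.span_le]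
    rintro r ⟨x, hx, y, hy, g0, _, hxy, a0, a1, a2, rfl⟩
    show f1 χ X (tr3 χ X g0 x y) = 0
    unfold tr3
    rw [map_sub, map_add, f1_ed hsym hx a0 a1, f1_ed hsym hy a1 a2,
      f1_ed hsym hxy a0 (by rw [← mul_assoc]; exact a2), ← mul_assoc]
    abel

variable (χ) in
/-- the augmentation as a linear map -/
noncomputable def f0 : RR χ →ₗ[RR χ] Triv (Gmon χ) :=
  LinearMap.toSpanSingleton (RR χ) (Triv (Gmon χ)) (show Triv (Gmon χ) from (1 : ℤ))

theorem f0_apply (r : RR χ) : f0 χ r = (show Triv (Gmon χ) from (aug (Gmon χ) r : ℤ)) := by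
  show (aug (Gmon χ) r) * (1 : ℤ) = aug (Gmon χ) r
  exact mul_one _

theorem aug_of (s : Gmon χ) : aug (Gmon χ) (MonoidAlgebra.of ℤ (Gmon χ) s) = 1 := by
  simp [aug]

theorem f0_o {g : G} (h : 0 ≤ χ (Additive.ofMul g)) :
    f0 χ (o χ g) = (show Triv (Gmon χ) from (1 : ℤ)) := by
  rw [f0_apply, o_pos h, aug_of]

theorem f0_surj : Function.Surjective (f0 χ) := by
  intro n
  refine ⟨(show ℤ from n) • (1 : RR χ), ?_⟩
  rw [f0_apply, map_zsmul, map_one]
  exact (smul_eq_mul (show ℤ from n) (1 : ℤ)).trans (mul_one (show ℤ from n))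

theorem f0_f1 (z : E χ X →₀ RR χ) : f0 χ (f1 χ X z) = 0 := by
  induction z using Finsupp.induction_linear with
  | zero => simp
  | add x y hx hy => rw [map_add, map_add, hx, hy, add_zero]
  | single e r =>
    unfold f1
    rw [Finsupp.linearCombination_single, map_smul, map_sub, f0_o e.2.2]
    have : f0 χ 1 = (show Triv (Gmon χ) from (1 : ℤ)) := by
      rw [f0_apply, map_one]
    rw [this, sub_self, smul_zero]

theorem sub_mem_range (hsym : ∀ x ∈ X, x⁻¹ ∈ X) (hcon : Con χ X) (r : RR χ) :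
    ∃ z, f1 χ X z = r - (aug (Gmon χ) r) • (1 : RR χ) := by
  induction r using MonoidAlgebra.induction_on with
  | of s =>
    obtain ⟨w, a1, a2⟩ := hcon 1 s (by rw [chi_one]) s.2
    refine ⟨sm (ed χ X) 1 w, ?_⟩
    rw [f1_sm hsym w 1 a1, a2, aug_of, one_smul, o_one, o_of]
  | add r r' h h' =>
    obtain ⟨z, hz⟩ := h
    obtain ⟨z', hz'⟩ := h'
    refine ⟨z + z', ?_⟩
    rw [map_add, hz, hz', map_add, add_smul]
    abel
  | smul n r h =>
    obtain ⟨z, hz⟩ := h
    refine ⟨n • z, ?_⟩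
    rw [map_zsmul, hz, map_zsmul, smul_sub, smul_assoc]

end XFP2

open XFP2 in
theorem I_FP2 : StFP2 := by
  intro G _ χ X hX hsym h1 hcon hsic
  have hEfin : Finite (E χ X) := by
    have : ({x : G | x ∈ X ∧ 0 ≤ χ (Additive.ofMul x)}).Finite := hX.subset fun x hx => hx.1
    exact this.to_subtype
  -- the map onto the kernel of the augmentation
  let g1 : (E χ X →₀ RR χ) →ₗ[RR χ] LinearMap.ker (f0 χ) :=
    (f1 χ X).codRestrict (LinearMap.ker (f0 χ)) fun z => LinearMap.mem_ker.2 (f0_f1 z)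
  have hg1 : Function.Surjective g1 := by
    rintro ⟨r, hr⟩
    obtain ⟨z, hz⟩ := sub_mem_range hsym hcon r
    refine ⟨z, Subtype.ext ?_⟩
    show f1 χ X z = r
    have h2 : aug (Gmon χ) r = 0 := by
      have := LinearMap.mem_ker.1 hr
      rw [f0_apply] at this
      exact this
    rw [hz, h2, zero_smul, sub_zero]
  have hker : (LinearMap.ker g1).FG := by
    have e1 : LinearMap.ker g1 = N χ X := by
      rw [← ker_f1 h1 hsym hcon hsic]
      exact LinearMap.ker_codRestrict _ _ _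
    rw [e1]
    exact Submodule.fg_span (gens_finite hX)
  have hFP1 : IsFP (RR χ) (LinearMap.ker (f0 χ)) 1 :=
    I_Build (RR χ) (LinearMap.ker (f0 χ)) (ModuleCat.of (RR χ) (E χ X →₀ RR χ)) g1
      (inferInstanceAs (Module.Projective (RR χ) (E χ X →₀ RR χ)))
      (inferInstanceAs (Module.Finite (RR χ) (E χ X →₀ RR χ))) hg1 hker
  obtain ⟨P, d, ε, p1, p2, p3, p4, p5⟩ := hFP1
  have hres : Build.Res (RR χ) (LinearMap.ker (f0 χ)) 2 :=
    ⟨P, d, ε, p1, fun i hi => p2 i (by omega), p3, p4, p5⟩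
  obtain ⟨P', d', ε', q1, q2, q3, q4, q5⟩ := Build.res_succ (M := Triv (Gmon χ))
    (ModuleCat.of (RR χ) (RR χ)) (f0 χ)
    (inferInstanceAs (Module.Projective (RR χ) (RR χ)))
    (inferInstanceAs (Module.Finite (RR χ) (RR χ))) f0_surj hres
  exact ⟨P', d', ε', q1, fun i hi => q2 i (by omega), q3, q4, q5⟩

end Pool.Agent.Work.MP_e9e200_al.HS

end

section

/-!
# Project HS: generators of the holonomies in a slightly larger ball
-/

set_option autoImplicit false

namespace Pool.Agent.Work.MP_e9e200_al.HS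

open Loc

namespace XGENR

section

variable {G Q : Type} [Group G] [CommGroup Q] {n : ℕ} (S : Loc G Q n)

lemma Lt_fin (l : ℝ) : (S.Lt l).Finite := by
  have h : S.Lt l ⊆ (S.sec '' {q | ‖S.pos q‖ ≤ l}) ∪
      ((fun q => (S.sec q)⁻¹) '' {q | ‖S.pos q‖ ≤ l}) := by
    rintro x ⟨q, hq, h | h⟩
    · exact Or.inl ⟨q, hq, h.symm⟩
    · exact Or.inr ⟨q, hq, h.symm⟩
  exact (((S.fin l).image _).union ((S.fin l).image _)).subset h

lemma B_fin {T : Set G} (hT : S.TOK T) : (S.B T).Finite := (Lt_fin S _).union hT.fin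

lemma B_inv {T : Set G} (hT : S.TOK T) : ∀ x ∈ S.B T, x⁻¹ ∈ S.B T := by
  rintro x (⟨q, hq, h | h⟩ | hx)
  · exact Or.inl ⟨q, hq, Or.inr (by rw [h])⟩
  · exact Or.inl ⟨q, hq, Or.inl (by rw [h, inv_inv])⟩
  · exact Or.inr (hT.inv x hx)

lemma flat_mono {H : Type} [Group H] {X X' : Set G} {c : Q → G → H} (h : X' ⊆ X)
    (hc : S.Flat X c) : S.Flat X' c :=
  fun q x y hx hy hxy h1 h2 h3 => hc q x y (h hx) (h hy) (h hxy) h1 h2 h3

lemma pth_end {H : Type} [Group H] {c : Q → G → H} {B : Set G} {K : Set Q} {p q : Q} {h : H}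
    (hp : S.Pth c B K p q h) : q ∈ K := by
  cases hp with
  | nil hq => exact hq
  | snoc x _ _ hq => exact hq

end

end XGENR

open XGENR in
theorem I_GENR (hPB : StPB) (hPI : StPI) (hST : StST) (hHS : StHS) (hTHIN : StTHIN)
    (hCOV : StCOV) : StGENR := by
  intro G Q _ _ n S T hT
  obtain ⟨η, R₁, hη, hcov⟩ := hCOV G Q n S 0 le_rfl
  obtain ⟨X₁, hX₁, hthin⟩ := hTHIN G Q n S T hT
  refine ⟨max (max η R₁) 0, X₁ ∪ (S.B T ∪ {1}), hX₁.union ((B_fin S hT).union
    (Set.finite_singleton _)), ?_⟩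
  intro H _ c hflat R hR hComm b J hb hJ hRJ hJR h hh
  have hRη : η ≤ R := le_trans (le_trans (le_max_left _ _) (le_max_left _ _)) hR
  have hRR : R₁ ≤ R := le_trans (le_trans (le_max_right _ _) (le_max_left _ _)) hR
  have hR0 : 0 ≤ R := le_trans (le_max_right _ _) hR
  have hJη : 2 * S.a * J ≤ R - η := by
    have h1 : η ≤ max (max η R₁) 0 := le_trans (le_max_left _ _) (le_max_left _ _)
    linarith
  have hJ0 : 2 * S.a * J ≤ R + 1 - 0 := by linarith
  have hf1 : S.Flat X₁ c := flat_mono S Set.subset_union_left hflat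
  obtain ⟨hth1, hth2⟩ := hthin H c hf1
  have hBX : S.B T ⊆ X₁ ∪ (S.B T ∪ {1}) := fun x hx => Or.inr (Or.inl hx)
  have h1X : (1 : G) ∈ X₁ ∪ (S.B T ∪ {1}) := Or.inr (Or.inr rfl)
  set TT : Subgroup H := Subgroup.closure
    {h : H | ∃ p ∈ S.ball b (R + 1), ∃ t ∈ T, h = S.tau c b J p t} with hTT
  -- the key property
  have key : ∀ q ∈ S.ball b (R + 1), ∀ i, ∀ t ∈ T,
      S.hs c b q J i * c (S.st b q J i) t * (S.hs c b q J i)⁻¹ ∈ TT := by
    intro q hq i t ht
    obtain ⟨st1, -, -, st4, -⟩ := hST G Q n S b q q b J hJ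
    have hvy : 0 ≤ S.v (S.st b q J i) := st1 hb hq.1 i
    have hyb : ‖S.pos (S.st b q J i) - S.pos b‖ ≤ R + 1 :=
      st4 0 (R + 1) (by rw [sub_self, norm_zero]) hq.2 hJ0 i
    obtain ⟨c', hc', hbc, hqc⟩ := hcov R hRR b q hb hq.1 hq.2
    have hqc' : ‖S.pos q - S.pos c'‖ ≤ R := hqc q (by rw [sub_self, norm_zero])
    obtain ⟨-, -, -, st4', -⟩ := hST G Q n S b q q c' J hJ
    have hall : ∀ j, S.st b q J j ∈ S.ball c' R := fun j =>
      ⟨st1 hb hq.1 j, st4' η R hbc hqc' hJη j⟩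
    obtain ⟨st1'', -, -, st4'', -⟩ := hST G Q n S b (S.st b q J i) q c' J hJ
    have hall' : ∀ j, S.st b (S.st b q J i) J j ∈ S.ball c' R := fun j =>
      ⟨st1'' hb hvy j, st4'' η R hbc (hall i).2 hJη j⟩
    have p1 := (hHS G Q n S H c T (S.ball c' R) b q J hJ (le_trans hq.2 hRJ) hall).1 i
    have p2 := (hHS G Q n S H c T (S.ball c' R) b (S.st b q J i) J hJ (le_trans hyb hRJ)
      hall').2
    have hpi := hPI G Q n S H c (X₁ ∪ (S.B T ∪ {1})) (S.B T) (S.ball c' R) hflat hBX h1X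
      (B_inv S hT) (fun x hx => hx.1) (hComm c' hc') b (S.st b q J i) _ _ t p1 p2 (Or.inr ht)
      (hT.ker t ht)
    rw [hpi]
    exact Subgroup.subset_closure ⟨S.st b q J i, ⟨hvy, hyb⟩, t, ht, rfl⟩
  -- the initial point
  have hb0 : S.hs c b b J J ∈ TT := by
    obtain ⟨t0, ht0, h0⟩ := hth2 b J hJ hb
    refine Subgroup.subset_closure ⟨b, ⟨hb, by rw [sub_self, norm_zero]; linarith⟩, t0, ht0, ?_⟩
    rw [tau, h0]
    group
  -- the claim
  have claim : ∀ q h, S.Pth c (S.B T) (S.ball b (R + 1)) b q h →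
      h * (S.hs c b q J J)⁻¹ ∈ TT := by
    intro q h hp
    induction hp with
    | nil hq =>
      rw [one_mul]
      exact inv_mem hb0
    | @snoc q h x hp hx hq' ih =>
      have hq : q ∈ S.ball b (R + 1) := pth_end S hp
      have h1 : h * c q x * (S.hs c b (q * S.pr x) J J)⁻¹ = (h * (S.hs c b q J J)⁻¹) *
          (S.hs c b q J J * c q x * (S.hs c b (q * S.pr x) J J)⁻¹) := by group
      rw [h1]
      refine mul_mem ih ?_
      rcases hx with hx | hx
      · have h2 := hth1 b q x J hJ hx hb hq.1 hq'.1 (le_trans hq.2 hRJ) (le_trans hq'.2 hRJ)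
        refine (Subgroup.closure_le _).2 ?_ h2
        rintro g ⟨j, -, t, ht, rfl⟩
        exact key q hq j t ht
      · rw [hT.ker x hx, mul_one]
        exact Subgroup.subset_closure ⟨q, hq, x, hx, rfl⟩
  have h2 := claim b h hh
  have h3 : h = (h * (S.hs c b b J J)⁻¹) * S.hs c b b J J := by group
  rw [h3]
  exact mul_mem h2 hb0

end Pool.Agent.Work.MP_e9e200_al.HS

end

section

/-!
# Project HS: item HS, the straight path is a path
-/

set_option autoImplicit false

namespace Pool.Agent.Work.MP_e9e200_al.HS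

open Loc

namespace XHS

variable {G Q : Type} [Group G] [CommGroup Q] {n : ℕ} (S : Loc G Q n)

lemma pos_one : S.pos 1 = 0 := by
  have h := S.pos_mul 1 1
  rw [mul_one] at h
  exact left_eq_add.1 h

lemma pos_inv (q : Q) : S.pos q⁻¹ = - S.pos q := by
  have h := S.pos_mul q⁻¹ q
  rw [inv_mul_cancel, pos_one] at h
  exact eq_neg_of_add_eq_zero_left h.symm

lemma st_zero (b p : Q) (J : ℕ) : S.st b p J 0 = b := by
  unfold Loc.st
  rw [if_pos rfl]

lemma st_last (b p : Q) (J : ℕ) (hJ : 1 ≤ J) : S.st b p J J = p := by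
  unfold Loc.st
  rw [if_neg (by omega), if_pos (le_refl J)]

end XHS

theorem I_HS (hST : StST) : StHS := by
  intro G Q _ _ n S H _ c T K b p J hJ hd hK
  have hmain : ∀ j, S.Pth c (S.B T) K b (S.st b p J j) (S.hs c b p J j) := by
    intro j
    induction j with
    | zero =>
      have h0 := hK 0
      rw [XHS.st_zero] at h0 ⊢
      exact Loc.Pth.nil b h0
    | succ j ih =>
      have h2 := (hST G Q n S b p p b J hJ).2.1 j
      have hJr : (0 : ℝ) < J := by
        have : 0 < J := hJ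
        exact_mod_cast this
      have h3 : ‖S.pos p - S.pos b‖ / J ≤ 8 * S.a := by
        rw [div_le_iff₀ hJr]
        exact hd
      have h4 : ‖S.pos ((S.st b p J j)⁻¹ * S.st b p J (j + 1))‖ ≤ 12 * S.a := by
        rw [S.pos_mul, XHS.pos_inv, neg_add_eq_sub]
        linarith
      have h5 : S.sec ((S.st b p J j)⁻¹ * S.st b p J (j + 1)) ∈ S.B T :=
        Or.inl ⟨_, h4, Or.inl rfl⟩
      have h6 : S.st b p J j * S.pr (S.sec ((S.st b p J j)⁻¹ * S.st b p J (j + 1))) =
          S.st b p J (j + 1) := by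
        rw [S.pr_sec, mul_inv_cancel_left]
      have h7 := Loc.Pth.snoc (S := S) _ ih h5 (by rw [h6]; exact hK (j + 1))
      rw [h6] at h7
      exact h7
  refine ⟨hmain, ?_⟩
  have h := hmain J
  rw [XHS.st_last S b p J hJ] at h
  exact h

end Pool.Agent.Work.MP_e9e200_al.HS

end

section

/-!
# KER: the second syzygy of a finite presentation of a module of type `FP_2`
-/

set_option autoImplicit false

namespace Pool.Agent.Work.MP_e9e200_al.HS

open Loc

namespace XKER

/-- the kernel of a map from a finite projective module is finitely presented once this holds for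
one such map -/
theorem fp_ker {R : Type} [Ring R] {M P F : Type} [AddCommGroup M] [Module R M] [AddCommGroup P]
    [Module R P] [AddCommGroup F] [Module R F] [Module.Projective R P] [Module.Projective R F]
    [Module.Finite R F] (e : P →ₗ[R] M) (he : Function.Surjective e) (f : F →ₗ[R] M)
    (hf : Function.Surjective f) (hk : Module.FinitePresentation R (LinearMap.ker e)) :
    Module.FinitePresentation R (LinearMap.ker f) := by
  set X := LinearMap.ker (f ∘ₗ LinearMap.fst R F P - e ∘ₗ LinearMap.snd R F P) with hX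
  have hmem : ∀ x : F × P, x ∈ X ↔ f x.1 = e x.2 := by
    intro x
    rw [hX, LinearMap.mem_ker]
    simp only [LinearMap.sub_apply, LinearMap.comp_apply, LinearMap.fst_apply,
      LinearMap.snd_apply, sub_eq_zero]
  have h1 : Module.FinitePresentation R F := Module.finitePresentation_of_projective R F
  -- the projection to F
  let p : X →ₗ[R] F := (LinearMap.fst R F P) ∘ₗ X.subtype
  have hp : Function.Surjective p := by
    intro y
    obtain ⟨z, hz⟩ := he (f y)
    exact ⟨⟨(y, z), (hmem _).2 hz.symm⟩, rfl⟩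
  have h2 : Module.FinitePresentation R (LinearMap.ker p) := by
    let g : LinearMap.ker e →ₗ[R] LinearMap.ker p :=
      LinearMap.codRestrict _ (LinearMap.codRestrict X ((LinearMap.inr R F P) ∘ₗ
        (LinearMap.ker e).subtype) (by
          intro c
          rw [hmem]
          have := c.2
          rw [LinearMap.mem_ker] at this
          simp [this])) (by
          intro c
          rw [LinearMap.mem_ker]
          rfl)
    have hg : Function.Bijective g := by
      constructor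
      · intro a b hab
        have h := congrArg (fun t => (t.1.1.2 : P)) hab
        exact Subtype.ext h
      · rintro ⟨⟨⟨a, b⟩, hab⟩, h⟩
        rw [LinearMap.mem_ker] at h
        have h' : a = 0 := h
        subst h'
        have hb : e b = 0 := by
          have := (hmem _).1 hab
          simpa using this.symm
        exact ⟨⟨b, hb⟩, rfl⟩
    exact Module.FinitePresentation.of_equiv (R := R) (M := LinearMap.ker e)
      (N := LinearMap.ker p) (LinearEquiv.ofBijective g hg)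
  have h3 : Module.FinitePresentation R X := Module.finitePresentation_of_ker p hp
  -- the projection to P
  let q : X →ₗ[R] P := (LinearMap.snd R F P) ∘ₗ X.subtype
  have hq : Function.Surjective q := by
    intro y
    obtain ⟨z, hz⟩ := hf (e y)
    exact ⟨⟨(z, y), (hmem _).2 hz⟩, rfl⟩
  let i : LinearMap.ker f →ₗ[R] X :=
    LinearMap.codRestrict X ((LinearMap.inl R F P) ∘ₗ (LinearMap.ker f).subtype) (by
      intro c
      rw [hmem]
      have := c.2
      rw [LinearMap.mem_ker] at this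
      simp [this])
  have hi : Function.Injective i := by
    intro a b hab
    have h := congrArg (fun t => (t.1.1 : F)) hab
    exact Subtype.ext h
  have hex : Function.Exact i q := by
    rintro ⟨⟨a, b⟩, hab⟩
    constructor
    · intro h
      have h' : b = 0 := h
      subst h'
      have ha : f a = 0 := by
        have := (hmem _).1 hab
        simpa using this
      exact ⟨⟨a, ha⟩, rfl⟩
    · rintro ⟨c, hc⟩
      have h := congrArg (fun t => (t.1.2 : P)) hc
      exact h.symm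
  exact Module.finitePresentation_of_projective_of_exact i q hi hq hex

end XKER

theorem I_KER : StKER := by
  intro R _ M _ _ hM k l f₁ f₀ hs hex
  obtain ⟨P, d, ε, hproj, hfin, hsurj, hex0, hexd⟩ := hM
  have i0 := hfin 0 (by omega)
  have i1 := hfin 1 (by omega)
  have i2 := hfin 2 (by omega)
  have j0 := hproj 0
  have j1 := hproj 1
  have hK' : Module.FinitePresentation R (LinearMap.ker ε) := by
    have hmem : ∀ x : P 1, d 0 x ∈ LinearMap.ker ε := fun x =>
      LinearMap.mem_ker.2 ((hex0 (d 0 x)).2 ⟨x, rfl⟩)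
    have hP1 : Module.FinitePresentation R (P 1) := Module.finitePresentation_of_projective R (P 1)
    refine Module.finitePresentation_of_surjective ((d 0).codRestrict (LinearMap.ker ε) hmem) ?_ ?_
    · rintro ⟨y, hy⟩
      obtain ⟨x, hx⟩ := (hex0 y).1 (LinearMap.mem_ker.1 hy)
      exact ⟨x, Subtype.ext hx⟩
    · rw [LinearMap.ker_codRestrict, (LinearMap.exact_iff.1 (hexd 0))]
      exact Submodule.fg_range (d 1)
  have hK : Module.FinitePresentation R (LinearMap.ker f₀) := XKER.fp_ker ε hsurj f₀ hs hK'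
  have hmem : ∀ x : Fin k → R, f₁ x ∈ LinearMap.ker f₀ := fun x =>
    LinearMap.mem_ker.2 ((hex (f₁ x)).2 ⟨x, rfl⟩)
  have hs1 : Function.Surjective (f₁.codRestrict (LinearMap.ker f₀) hmem) := by
    rintro ⟨y, hy⟩
    obtain ⟨x, hx⟩ := (hex y).1 (LinearMap.mem_ker.1 hy)
    exact ⟨x, Subtype.ext hx⟩
  have := Module.FinitePresentation.fg_ker _ hs1
  rwa [LinearMap.ker_codRestrict] at this

end Pool.Agent.Work.MP_e9e200_al.HS

end

section

/-!
# Project HS: item LETT

Holonomies of closed paths with labels in a given finite set commute.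
-/

set_option autoImplicit false

namespace Pool.Agent.Work.MP_e9e200_al.HS

open Loc

namespace XLETT

variable {G Q : Type} [Group G] [CommGroup Q] {n : ℕ} (S : Loc G Q n)

theorem v_mul (p q : Q) : S.v (p * q) = S.v p + S.v q := by
  unfold Loc.v
  rw [S.pos_mul, inner_add_right]

theorem Lt_fin (l : ℝ) : (S.Lt l).Finite := by
  have h := S.fin l
  have h' : S.Lt l ⊆ (S.sec '' {q | ‖S.pos q‖ ≤ l}) ∪
      ((fun q => (S.sec q)⁻¹) '' {q | ‖S.pos q‖ ≤ l}) := by
    rintro x ⟨q, hq, h | h⟩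
    · exact Or.inl ⟨q, hq, h.symm⟩
    · exact Or.inr ⟨q, hq, h.symm⟩
  exact ((h.image _).union (h.image _)).subset h'

theorem B_fin {T : Set G} (hT : S.TOK T) : (S.B T).Finite := (Lt_fin S _).union hT.fin

theorem B_inv {T : Set G} (hT : S.TOK T) : ∀ x ∈ S.B T, x⁻¹ ∈ S.B T := by
  rintro x (⟨q, hq, h | h⟩ | h)
  · exact Or.inl ⟨q, hq, Or.inr (by rw [h])⟩
  · exact Or.inl ⟨q, hq, Or.inl (by rw [h, inv_inv])⟩
  · exact Or.inr (hT.inv x h)

theorem Flat_mono {H : Type} [Group H] {c : Q → G → H} {X Y : Set G} (hXY : X ⊆ Y)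
    (h : S.Flat Y c) : S.Flat X c :=
  fun q x y hx hy hxy => h q x y (hXY hx) (hXY hy) (hXY hxy)

theorem Pth_mono {H : Type} [Group H] {c : Q → G → H} {B : Set G} {K K' : Set Q}
    (hK : K ⊆ K') {p q : Q} {h : H} (hp : S.Pth c B K p q h) : S.Pth c B K' p q h := by
  induction hp with
  | nil hq => exact Loc.Pth.nil _ (hK hq)
  | snoc x _ hx hq ih => exact Loc.Pth.snoc x ih hx (hK hq)

theorem Pth_ball {H : Type} [Group H] {c : Q → G → H} {B : Set G} (b : Q) {p q : Q} {h : H}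
    (hp : S.Pth c B S.half p q h) : ∃ R : ℝ, ∀ R', R ≤ R' → S.Pth c B (S.ball b R') p q h := by
  induction hp with
  | nil hq =>
      exact ⟨‖S.pos p - S.pos b‖, fun R' hR' => Loc.Pth.nil p ⟨hq, hR'⟩⟩
  | @snoc q h x _ hx hq ih =>
      obtain ⟨R, hR⟩ := ih
      refine ⟨max R ‖S.pos (q * S.pr x) - S.pos b‖, fun R' hR' => ?_⟩
      exact Loc.Pth.snoc x (hR R' (le_trans (le_max_left _ _) hR')) hx
        ⟨hq, le_trans (le_max_right _ _) hR'⟩

theorem Pth_end {H : Type} [Group H] {c : Q → G → H} {B : Set G} {K : Set Q} {p q : Q} {h : H}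
    (hp : S.Pth c B K p q h) : q ∈ K := by
  cases hp with
  | nil hq => exact hq
  | snoc _ _ _ hq => exact hq

theorem Comm_mono {H : Type} [Group H] {c : Q → G → H} {T : Set G} {R R' : ℝ} (hR : R ≤ R')
    (h : S.Comm c T R') : S.Comm c T R := by
  intro b hb x g g' hg hg'
  have hK : S.ball b R ⊆ S.ball b R' := fun q hq => ⟨hq.1, hq.2.trans hR⟩
  exact h b hb x g g' (Pth_mono S hK hg) (Pth_mono S hK hg')

theorem commHalf (hSTEP : StSTEP) (hBASE : StBASE) {T : Set G} (hT : S.TOK T)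
    (hN : S.NoRel T) : ∃ X : Set G, X.Finite ∧ ∀ (H : Type) [Group H] (c : Q → G → H),
      S.Flat X c → S.CommOn c (S.B T) S.half := by
  obtain ⟨R₀, X', hX', hstep⟩ := hSTEP G Q n S T hT hN
  obtain ⟨X'', hX'', hbase⟩ := hBASE G Q n S T hT R₀
  refine ⟨X' ∪ X'', hX'.union hX'', ?_⟩
  intro H _ c hc
  have hk : ∀ k : ℕ, S.Comm c T (R₀ + k) := by
    intro k
    induction k with
    | zero =>
        simpa using hbase H c (Flat_mono S Set.subset_union_right hc)
    | succ k ih =>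
        have := hstep H c (Flat_mono S Set.subset_union_left hc) (R₀ + k) (by
          have : (0 : ℝ) ≤ (k : ℝ) := Nat.cast_nonneg k
          linarith) ih
        have h2 : R₀ + ((k + 1 : ℕ) : ℝ) = R₀ + k + 1 := by push_cast; ring
        rw [h2]
        exact this
  intro b h h' hh hh'
  obtain ⟨R, hR⟩ := Pth_ball S b hh
  obtain ⟨R', hR'⟩ := Pth_ball S b hh'
  obtain ⟨k, hk'⟩ := exists_nat_ge (max R R' - R₀)
  have h1 : R ≤ R₀ + k := by
    have := le_max_left R R'
    linarith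
  have h2 : R' ≤ R₀ + k := by
    have := le_max_right R R'
    linarith
  exact hk k b (Pth_end S hh) b h h' (hR _ h1) (hR' _ h2)

theorem cl_fin {T : Set G} {P : Q → Prop} {g : G} (hg : g ∈ S.cl T P) :
    ∃ F : Set Q, F.Finite ∧ g ∈ S.cl T (fun f => f ∈ F ∧ P f) := by
  have mono : ∀ F F' : Set Q, F ⊆ F' →
      S.cl T (fun f => f ∈ F ∧ P f) ≤ S.cl T (fun f => f ∈ F' ∧ P f) := by
    intro F F' hF
    apply Subgroup.closure_mono
    rintro g ⟨f, ⟨hf, hPf⟩, t, ht, rfl⟩
    exact ⟨f, ⟨hF hf, hPf⟩, t, ht, rfl⟩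
  unfold Loc.cl at hg
  induction hg using Subgroup.closure_induction with
  | mem x hx =>
      obtain ⟨f, hf, t, ht, rfl⟩ := hx
      exact ⟨{f}, Set.finite_singleton f, Subgroup.subset_closure
        ⟨f, ⟨Set.mem_singleton f, hf⟩, t, ht, rfl⟩⟩
  | one => exact ⟨∅, Set.finite_empty, Subgroup.one_mem _⟩
  | mul x y _ _ hx hy =>
      obtain ⟨F, hF, hx⟩ := hx
      obtain ⟨F', hF', hy⟩ := hy
      exact ⟨F ∪ F', hF.union hF', Subgroup.mul_mem _
        (mono F _ Set.subset_union_left hx) (mono F' _ Set.subset_union_right hy)⟩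
  | inv x _ hx =>
      obtain ⟨F, hF, hx⟩ := hx
      exact ⟨F, hF, Subgroup.inv_mem _ hx⟩

theorem cl_fin_set {T : Set G} {P : Q → Prop} {A : Set G} (hA : A.Finite)
    (hg : ∀ g ∈ A, g ∈ S.cl T P) :
    ∃ F : Set Q, F.Finite ∧ ∀ g ∈ A, g ∈ S.cl T (fun f => f ∈ F ∧ P f) := by
  have h1 : ∀ g : G, ∃ F : Set Q, F.Finite ∧ (g ∈ A → g ∈ S.cl T (fun f => f ∈ F ∧ P f)) := by
    intro g
    by_cases h : g ∈ A
    · obtain ⟨F, hF, hg'⟩ := cl_fin S (hg g h)
      exact ⟨F, hF, fun _ => hg'⟩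
    · exact ⟨∅, Set.finite_empty, fun h' => absurd h' h⟩
  choose F hF hF' using h1
  refine ⟨⋃ g ∈ A, F g, hA.biUnion (fun g _ => hF g), ?_⟩
  intro g hgA
  have h2 := hF' g hgA
  unfold Loc.cl at h2 ⊢
  refine Subgroup.closure_mono ?_ h2
  rintro x ⟨f, ⟨hf, hPf⟩, t, ht, rfl⟩
  exact ⟨f, ⟨Set.mem_biUnion hgA hf, hPf⟩, t, ht, rfl⟩

theorem exists_DJ {X : Set G} (hX : X.Finite) : ∃ (D : ℝ) (J : ℕ),
    (∀ x ∈ X, ‖S.pos (S.pr x)‖ ≤ D) ∧ 1 ≤ J ∧ D ≤ 8 * S.a * J := by
  obtain ⟨D, hD⟩ := (hX.image (fun x => ‖S.pos (S.pr x)‖)).bddAbove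
  obtain ⟨J, hJ⟩ := exists_nat_ge (D / (8 * S.a))
  have ha := S.a_pos
  refine ⟨D, J + 1, fun x hx => hD ⟨x, hx, rfl⟩, by omega, ?_⟩
  rw [div_le_iff₀ (by positivity)] at hJ
  push_cast
  nlinarith

theorem letter (hPB : StPB) (hST : StST) (hHS : StHS) (hLOC : StLOC) (hEXPR : StEXPR)
    {T : Set G} (hT : S.TOK T)
    (hg : ∀ g, S.pr g = 1 → g ∈ S.cl T (fun f => 0 ≤ S.v f)) (X₁ : Set G) (hX₁ : X₁.Finite) :
    ∃ X₀ : Set G, X₀.Finite ∧ ∀ (H : Type) [Group H] (c : Q → G → H), S.Flat X₀ c →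
      ∀ q x, x ∈ X₁ → 0 ≤ S.v q → 0 ≤ S.v (q * S.pr x) →
        S.Pth c (S.B T) S.half q (q * S.pr x) (c q x) := by
  obtain ⟨D, J, hD, hJ, hDJ⟩ := exists_DJ S hX₁
  obtain ⟨A₂, Xa, hA₂, hXa, hpA, hloc⟩ := hLOC G Q n S T hT X₁ hX₁ D J hD hJ hDJ
  obtain ⟨F₂, hF₂, hcl⟩ := cl_fin_set S (P := fun f => 0 ≤ S.v f) hA₂
    (fun g hgA => hg g (hpA g hgA))
  obtain ⟨Xb, hXb, hexpr⟩ := hEXPR G Q n S T A₂ F₂ hT.fin hT.ker hA₂ hF₂
  have hX₂ : (S.sec '' F₂).Finite := hF₂.image _
  obtain ⟨D', J', hD', hJ', hDJ'⟩ := exists_DJ S hX₂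
  obtain ⟨A₃, Xc, hA₃, hXc, hpA', hloc'⟩ := hLOC G Q n S T hT _ hX₂ D' J' hD' hJ' hDJ'
  refine ⟨(S.B T ∪ {1}) ∪ (Xa ∪ (Xb ∪ Xc)),
    ((B_fin S hT).union (Set.finite_singleton 1)).union (hXa.union (hXb.union hXc)), ?_⟩
  intro H _ c hc q x hx hq hqx
  have hca : S.Flat Xa c := Flat_mono S (fun y hy => Or.inr (Or.inl hy)) hc
  have hcb : S.Flat Xb c := Flat_mono S (fun y hy => Or.inr (Or.inr (Or.inl hy))) hc
  have hcc : S.Flat Xc c := Flat_mono S (fun y hy => Or.inr (Or.inr (Or.inr hy))) hc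
  obtain ⟨pb1, pb2, _⟩ := hPB G Q n S H c _ (S.B T) S.half hc
    (fun y hy => Or.inl (Or.inl hy)) (Or.inl (Or.inr rfl)) (B_inv S hT) subset_rfl
  -- straight paths
  have str : ∀ (p p' : Q) (K : ℕ), 0 ≤ S.v p → 0 ≤ S.v p' → 1 ≤ K →
      ‖S.pos p' - S.pos p‖ ≤ 8 * S.a * K → S.Pth c (S.B T) S.half p p' (S.hs c p p' K K) := by
    intro p p' K hp hp' hK hn
    exact (hHS G Q n S H c T S.half p p' K hK hn
      (fun j => (hST G Q n S p p' p p K hK).1 hp hp' j)).2
  have posmul : ∀ p y : Q, S.pos (p * y) - S.pos p = S.pos y := by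
    intro p y
    rw [S.pos_mul]
    abel
  obtain ⟨a, ha, hcx, -⟩ := hloc H c hca q x hx hq hqx
  rw [hcx]
  refine pb1 _ _ _ _ _ (str q _ J hq hqx hJ ?_) ?_
  · rw [posmul]
    exact (hD x hx).trans hDJ
  -- the element of the kernel
  generalize q * S.pr x = q' at hqx
  have hmem := hexpr H c hcb q' (fun f => f ∈ F₂ ∧ 0 ≤ S.v f) hqx (by
    rintro f ⟨hf, hvf⟩
    refine ⟨hf, ?_⟩
    rw [v_mul]
    linarith) a ha (hcl a ha)
  generalize c q' a = z at hmem
  induction hmem using Subgroup.closure_induction with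
  | one => exact Loc.Pth.nil q' hqx
  | mul x y _ _ hx hy => exact pb1 _ _ _ _ _ hx hy
  | inv x _ hx => exact pb2 _ _ _ hx
  | mem x hx =>
      obtain ⟨f, ⟨hf, hvf⟩, t, ht, rfl⟩ := hx
      have hq'f : 0 ≤ S.v (q' * f) := by
        rw [v_mul]
        linarith
      obtain ⟨a', ha', hcs, hcomm⟩ := hloc' H c hcc q' (S.sec f) ⟨f, hf, rfl⟩ hqx
        (by rw [S.pr_sec]; exact hq'f)
      rw [S.pr_sec] at hcs hcomm
      have e : c q' (S.sec f) * c (q' * f) t * (c q' (S.sec f))⁻¹ =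
          S.hs c q' (q' * f) J' J' * c (q' * f) t * (S.hs c q' (q' * f) J' J')⁻¹ := by
        have h1 := hcomm t ht
        rw [hcs]
        calc S.hs c q' (q' * f) J' J' * c (q' * f) a' * c (q' * f) t *
              (S.hs c q' (q' * f) J' J' * c (q' * f) a')⁻¹
            = S.hs c q' (q' * f) J' J' * (c (q' * f) a' * c (q' * f) t) *
              ((c (q' * f) a')⁻¹ * (S.hs c q' (q' * f) J' J')⁻¹) := by group
          _ = S.hs c q' (q' * f) J' J' * (c (q' * f) t * c (q' * f) a') *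
              ((c (q' * f) a')⁻¹ * (S.hs c q' (q' * f) J' J')⁻¹) := by rw [h1]
          _ = _ := by group
      rw [e]
      have hs1 := str q' (q' * f) J' hqx hq'f hJ' (by
        rw [posmul]
        have h3 := hD' (S.sec f) ⟨f, hf, rfl⟩
        rw [S.pr_sec] at h3
        exact h3.trans hDJ')
      have hs2 : S.Pth c (S.B T) S.half (q' * f) (q' * f) (c (q' * f) t) := by
        have h4 := Loc.Pth.snoc (S := S) (c := c) (B := S.B T) (K := S.half) t
          (Loc.Pth.nil (q' * f) hq'f) (Or.inr ht) (by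
            rw [hT.ker t ht, mul_one]
            exact hq'f)
        rw [hT.ker t ht, mul_one, one_mul] at h4
        exact h4
      exact pb1 _ _ _ _ _ (pb1 _ _ _ _ _ hs1 hs2) (pb2 _ _ _ hs1)

end XLETT

open XLETT in
theorem I_LETT (hPB : StPB) (hST : StST) (hHS : StHS) (hLOC : StLOC) (hEXPR : StEXPR)
    (hSTEP : StSTEP) (hBASE : StBASE) : StLETT := by
  intro G Q _ _ n S T hT hN hg X₁ hX₁
  obtain ⟨X, hX, hcomm⟩ := commHalf S hSTEP hBASE hT hN
  obtain ⟨X', hX', hlet⟩ := letter S hPB hST hHS hLOC hEXPR hT hg X₁ hX₁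
  refine ⟨(S.B T ∪ {1}) ∪ (X ∪ X'),
    ((B_fin S hT).union (Set.finite_singleton 1)).union (hX.union hX'), ?_⟩
  intro H _ c hc
  have hc1 : S.Flat X c := Flat_mono S (fun y hy => Or.inr (Or.inl hy)) hc
  have hc2 : S.Flat X' c := Flat_mono S (fun y hy => Or.inr (Or.inr hy)) hc
  obtain ⟨pb1, pb2, _⟩ := hPB G Q n S H c _ (S.B T) S.half hc
    (fun y hy => Or.inl (Or.inl hy)) (Or.inl (Or.inr rfl)) (B_inv S hT) subset_rfl
  have key : ∀ p q h, S.Pth c X₁ S.half p q h → S.Pth c (S.B T) S.half p q h := by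
    intro p q h hp
    induction hp with
    | nil hq => exact Loc.Pth.nil _ hq
    | @snoc q h x hp hx hq ih =>
        exact pb1 _ _ _ _ _ ih (hlet H c hc2 q x hx (Pth_end S ih) hq)
  intro b h h' hh hh'
  exact hcomm H c hc1 b h h' (key _ _ _ hh) (key _ _ _ hh')

end Pool.Agent.Work.MP_e9e200_al.HS

end

section

/-!
# Item LEX: the structure `Loc` of a finitely generated metabelian group with a character
-/

set_option autoImplicit false

namespace Pool.Agent.Work.MP_e9e200_al.HS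

open Loc

namespace XLEX

/-- integer vectors in the Euclidean space -/
noncomputable def rv {n : ℕ} (k : Fin n → ℤ) : Eu n := WithLp.toLp 2 (fun i => (k i : ℝ))

theorem v_eq_zero {A : Type*} [AddCommGroup A] {B : Type*} [AddCommGroup B] [Finite B]
    {F : Type*} [AddCommGroup F] (f : A ≃+ F × B) (v : A →+ ℝ) (a : A) (ha : (f a).1 = 0) :
    v a = 0 := by
  obtain ⟨n, hn, hnb⟩ : ∃ n : ℕ, 0 < n ∧ n • (f a).2 = 0 := by
    have h := isOfFinAddOrder_of_finite (f a).2
    exact ⟨_, h.addOrderOf_pos, addOrderOf_nsmul_eq_zero _⟩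
  have h1 : n • a = 0 := by
    apply f.injective
    rw [map_nsmul, map_zero]
    ext
    · simp [ha]
    · simpa using hnb
  have h2 : (n : ℝ) * v a = 0 := by
    have := congrArg v h1
    rw [map_nsmul, map_zero, nsmul_eq_mul] at this
    exact this
  rcases mul_eq_zero.mp h2 with h | h
  · have : n = 0 := by exact_mod_cast h
    omega
  · exact h

theorem coords (Q : Type) [CommGroup Q] [Group.FG Q] : ∃ (n : ℕ) (κ : Q → Fin n → ℤ),
    (∀ a b, κ (a * b) = κ a + κ b) ∧ Function.Surjective κ ∧ {q | κ q = 0}.Finite ∧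
    ∀ v : Additive Q →+ ℝ, ∃ x : Eu n, ∀ q, v (Additive.ofMul q) = inner ℝ x (rv (κ q)) := by
  have : AddGroup.FG (Additive Q) := inferInstance
  obtain ⟨n, ι, _, p, hp, e, ⟨f⟩⟩ := AddCommGroup.equiv_free_prod_directSum_zmod (Additive Q)
  have : ∀ i, NeZero (p i ^ e i) := fun i => ⟨pow_ne_zero _ (hp i).ne_zero⟩
  have : ∀ i, Finite (ZMod (p i ^ e i)) := fun i => inferInstance
  have hfin : Finite (DirectSum ι fun i => ZMod (p i ^ e i)) :=
    Finite.of_injective (fun (x : DirectSum ι fun i => ZMod (p i ^ e i)) i => x i)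
      (fun x y h => DFinsupp.ext fun i => congrFun h i)
  have hk0 : ∀ q : Q, (fun i => (f (Additive.ofMul q)).1 i) = (0 : Fin n → ℤ) ↔
      (f (Additive.ofMul q)).1 = 0 := by
    intro q
    constructor
    · intro h
      ext i
      exact congrFun h i
    · intro h
      funext i
      rw [h]
      rfl
  refine ⟨n, fun q i => (f (Additive.ofMul q)).1 i, ?_, ?_, ?_, ?_⟩
  · intro a b
    funext i
    change (f (Additive.ofMul a + Additive.ofMul b)).1 i = _
    rw [map_add]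
    rfl
  · intro k
    refine ⟨Additive.toMul (f.symm (Finsupp.equivFunOnFinite.symm k, 0)), ?_⟩
    funext i
    simp
  · have hinj : Set.InjOn (fun q : Q => (f (Additive.ofMul q)).2)
        {q | (fun i => (f (Additive.ofMul q)).1 i) = (0 : Fin n → ℤ)} := by
      intro a ha b hb hab
      have ha' := (hk0 a).1 ha
      have hb' := (hk0 b).1 hb
      have h : f (Additive.ofMul a) = f (Additive.ofMul b) :=
        Prod.ext (ha'.trans hb'.symm) hab
      exact Additive.ofMul.injective (f.injective h)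
    exact Set.Finite.of_finite_image (Set.toFinite _) hinj
  · intro v
    let bs : Fin n → Additive Q := fun i => f.symm (Finsupp.single i 1, 0)
    refine ⟨WithLp.toLp 2 (fun i => v (bs i)), ?_⟩
    intro q
    have h1 : v (Additive.ofMul q - ∑ i, (f (Additive.ofMul q)).1 i • bs i) = 0 := by
      apply v_eq_zero f
      rw [map_sub, map_sum]
      simp only [map_zsmul, bs, AddEquiv.apply_symm_apply]
      rw [Prod.fst_sub, Prod.fst_sum]
      simp only [Prod.smul_fst, Finsupp.smul_single, smul_eq_mul, mul_one]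
      rw [sub_eq_zero]
      exact (Finsupp.univ_sum_single _).symm
    rw [map_sub, map_sum, sub_eq_zero] at h1
    rw [h1, PiLp.inner_apply]
    apply Finset.sum_congr rfl
    intro i _
    rw [map_zsmul, zsmul_eq_mul]
    simp [rv]

theorem rv_add {n : ℕ} (a b : Fin n → ℤ) : rv (a + b) = rv a + rv b := by
  ext i
  simp [rv]

theorem round_spec {n : ℕ} (x : Eu n) : ‖rv (fun i => round (x i)) - x‖ ≤ √n + 1 := by
  have h1 : ‖rv (fun i => round (x i)) - x‖ ≤ √n := by
    rw [EuclideanSpace.norm_eq]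
    apply Real.sqrt_le_sqrt
    calc ∑ i, ‖(rv (fun i => round (x i)) - x) i‖ ^ 2 ≤ ∑ _i : Fin n, (1 : ℝ) := by
          apply Finset.sum_le_sum
          intro i _
          have h2 : (rv (fun i => round (x i)) - x) i = (round (x i) : ℝ) - x i := rfl
          rw [h2, Real.norm_eq_abs, abs_sub_comm]
          have h3 := abs_sub_round (x i)
          have h4 := abs_nonneg (x i - (round (x i) : ℝ))
          nlinarith
      _ = (n : ℝ) := by simp
  linarith

theorem fin_ball {Q : Type} [CommGroup Q] {n : ℕ} {κ : Q → Fin n → ℤ}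
    (hκ : ∀ a b, κ (a * b) = κ a + κ b) (hk : {q | κ q = 0}.Finite) (R : ℝ) :
    {q | ‖rv (κ q)‖ ≤ R}.Finite := by
  have h1 : {k : Fin n → ℤ | ‖rv k‖ ≤ R}.Finite := by
    have h2 : (Set.Icc (fun _ : Fin n => -⌈R⌉) (fun _ => ⌈R⌉)).Finite := Set.finite_Icc _ _
    refine h2.subset ?_
    intro k hk
    have h3 : ∀ i, |k i| ≤ ⌈R⌉ := by
      intro i
      have h4 : ‖rv k i‖ ≤ ‖rv k‖ := PiLp.norm_apply_le _ i
      have h5 : ‖rv k i‖ = |(k i : ℝ)| := rfl
      have h6 : |(k i : ℝ)| ≤ R := by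
        rw [← h5]
        exact h4.trans hk
      have h7 : ((|k i| : ℤ) : ℝ) ≤ (⌈R⌉ : ℝ) := by
        push_cast
        exact h6.trans (Int.le_ceil R)
      exact_mod_cast h7
    exact ⟨fun i => (abs_le.1 (h3 i)).1, fun i => (abs_le.1 (h3 i)).2⟩
  have h2 : (κ ⁻¹' {k : Fin n → ℤ | ‖rv k‖ ≤ R}).Finite := by
    refine h1.preimage' ?_
    intro k _
    by_cases hq : ∃ q, κ q = k
    · obtain ⟨q0, hq0⟩ := hq
      have h3 : κ ⁻¹' {k} ⊆ (fun q => q * q0) '' {q | κ q = 0} := by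
        intro q hq
        have hq' : κ q = k := hq
        refine ⟨q * q0⁻¹, ?_, by simp⟩
        have h4 := hκ (q * q0⁻¹) q0
        rw [inv_mul_cancel_right, hq', hq0] at h4
        exact left_eq_add.1 (by rw [add_comm]; exact h4)
      exact (hk.image _).subset h3
    · have h3 : κ ⁻¹' {k} = ∅ := by
        ext q
        constructor
        · intro hq'
          exact hq ⟨q, hq'⟩
        · intro h
          exact absurd h (Set.notMem_empty q)
      rw [h3]
      exact Set.finite_empty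
  exact h2

end XLEX

theorem I_LEX : StLEX := by
  intro G _ _ hmet χ
  classical
  have hof : Function.Surjective (Abelianization.of : G →* Abelianization G) :=
    QuotientGroup.mk_surjective
  have hfgQ : Group.FG (Abelianization G) := Group.fg_of_surjective hof
  obtain ⟨n, κ, hκ, hs, hk, hv⟩ := XLEX.coords (Abelianization G)
  let f : G →* Multiplicative ℝ :=
    { toFun := fun g => Multiplicative.ofAdd (χ (Additive.ofMul g))
      map_one' := by
        rw [ofMul_one, map_zero]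
        rfl
      map_mul' := by
        intro a b
        rw [ofMul_mul, map_add]
        rfl }
  let vv : Additive (Abelianization G) →+ ℝ :=
    { toFun := fun q => Multiplicative.toAdd (Abelianization.lift f (Additive.toMul q))
      map_zero' := by
        rw [toMul_zero, map_one]
        rfl
      map_add' := by
        intro a b
        rw [toMul_add, map_mul]
        rfl }
  have hvv : ∀ g, vv (Additive.ofMul (Abelianization.of g)) = χ (Additive.ofMul g) := by
    intro g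
    show Multiplicative.toAdd (Abelianization.lift f (Abelianization.of g)) = _
    rw [Abelianization.lift_apply_of]
    rfl
  obtain ⟨nu, hnu⟩ := hv vv
  let S : Loc G (Abelianization G) n :=
    { pr := Abelianization.of
      sec := fun q => if q = 1 then 1 else Function.surjInv hof q
      pos := fun q => XLEX.rv (κ q)
      rd := fun x => Function.surjInv hs (fun i => round (x i))
      a := √n + 1
      nu := nu
      pr_sec := by
        intro q
        by_cases hq : q = 1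
        · rw [if_pos hq, hq, map_one]
        · rw [if_neg hq]
          exact Function.surjInv_eq hof q
      sec_one := if_pos rfl
      comm := by
        intro x y hx hy
        refine hmet x ?_ y ?_
        · rw [← Abelianization.ker_of]
          exact hx
        · rw [← Abelianization.ker_of]
          exact hy
      pos_mul := by
        intro p q
        rw [hκ, XLEX.rv_add]
      a_pos := by positivity
      rd_spec := by
        intro x
        rw [Function.surjInv_eq hs]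
        exact XLEX.round_spec x
      fin := fun R => XLEX.fin_ball hκ hk R }
  refine ⟨n, S, rfl, ?_, ?_⟩
  · intro g
    rw [← hvv g]
    exact hnu _
  · intro w
    refine ⟨{ toFun := fun g => inner ℝ (S.pos (Abelianization.of (Additive.toMul g))) w
              map_zero' := ?_
              map_add' := ?_ }, ?_, fun g => rfl⟩
    · have h1 := S.pos_mul 1 1
      rw [mul_one] at h1
      have h2 : S.pos 1 = 0 := left_eq_add.1 h1
      rw [toMul_zero, map_one, h2, inner_zero_left]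
    · intro a b
      rw [toMul_add, map_mul, S.pos_mul, inner_add_left]
    · intro hw h0
      obtain ⟨g, hg⟩ := hof (S.rd (((S.a + 1) / ‖w‖) • w))
      have h1 : inner ℝ (S.pos (Abelianization.of g)) w = 0 := by
        have := DFunLike.congr_fun h0 (Additive.ofMul g)
        exact this
      rw [hg] at h1
      have h2 := S.rd_spec (((S.a + 1) / ‖w‖) • w)
      have hwn : 0 < ‖w‖ := norm_pos_iff.2 hw
      have h3 : inner ℝ (S.pos (S.rd (((S.a + 1) / ‖w‖) • w))) w =
          inner ℝ (S.pos (S.rd (((S.a + 1) / ‖w‖) • w)) - ((S.a + 1) / ‖w‖) • w) w +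
          (S.a + 1) * ‖w‖ := by
        rw [inner_sub_left, real_inner_smul_left, real_inner_self_eq_norm_sq]
        field_simp
        ring
      have h4 := abs_le.1 (abs_real_inner_le_norm
        (S.pos (S.rd (((S.a + 1) / ‖w‖) • w)) - ((S.a + 1) / ‖w‖) • w) w)
      have h5 : ‖S.pos (S.rd (((S.a + 1) / ‖w‖) • w)) - ((S.a + 1) / ‖w‖) • w‖ * ‖w‖ ≤
          S.a * ‖w‖ := mul_le_mul_of_nonneg_right h2 hwn.le
      rw [h3] at h1
      nlinarith [h4.1]

end Pool.Agent.Work.MP_e9e200_al.HS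

end

section

/-!
# Project HS, item LOC: a long letter is a straight path followed by an element of the kernel
-/

set_option autoImplicit false

namespace Pool.Agent.Work.MP_e9e200_al.HS

open Loc

namespace XLOC

variable {G Q : Type} [Group G] [CommGroup Q] {n : ℕ}

lemma Lt_finite (S : Loc G Q n) (l : ℝ) : (S.Lt l).Finite := by
  have h1 := (S.fin l).image S.sec
  have h2 := (S.fin l).image (fun q => (S.sec q)⁻¹)
  refine (h1.union h2).subset ?_
  rintro x ⟨q, hq, hx⟩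
  rcases hx with hx | hx
  · exact Or.inl ⟨q, hq, hx.symm⟩
  · exact Or.inr ⟨q, hq, hx.symm⟩

/-- products of `j` elements of `L` -/
def PP (L : Set G) : ℕ → Set G
  | 0 => {1}
  | j + 1 => Set.image2 (fun g s => g * s) (PP L j) L

lemma PP_finite {L : Set G} (hL : L.Finite) (j : ℕ) : (PP L j).Finite := by
  induction j with
  | zero => exact Set.finite_singleton _
  | succ j ih => exact Set.Finite.image2 _ ih hL

lemma pos_inv_mul (S : Loc G Q n) (p q : Q) : S.pos (p⁻¹ * q) = S.pos q - S.pos p := by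
  have h := S.pos_mul p (p⁻¹ * q)
  rw [mul_inv_cancel_left] at h
  rw [h, add_sub_cancel_left]

end XLOC

open XLOC in
theorem I_LOC (hST : StST) : StLOC := by
  intro G Q _ _ n S T hT X₁ hX₁ D J hD hJ hDJ
  set L := S.Lt (12 * S.a) with hL
  have hLf : L.Finite := Lt_finite S _
  set A₂ : Set G := {a | S.pr a = 1 ∧ a ∈ Set.image2 (fun g x => g⁻¹ * x) (PP L J) X₁} with hA₂
  have hA₂f : A₂.Finite :=
    (Set.Finite.image2 (fun g x => g⁻¹ * x) (PP_finite hLf J) hX₁).subset (fun a ha => ha.2)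
  set X₀ : Set G := (⋃ j ∈ Set.Iic J, PP L j) ∪ (X₁ ∪ (A₂ ∪ (L ∪
    (Set.image2 (fun a t => a * t) A₂ T ∪ T)))) with hX₀
  have hX₀f : X₀.Finite := by
    refine Set.Finite.union ?_ (hX₁.union (hA₂f.union (hLf.union
      ((Set.Finite.image2 _ hA₂f hT.fin).union hT.fin))))
    exact (Set.finite_Iic J).biUnion (fun j _ => PP_finite hLf j)
  have mPP : ∀ j, j ≤ J → ∀ g ∈ PP L j, g ∈ X₀ := fun j hj g hg =>
    Or.inl (Set.mem_biUnion (Set.mem_Iic.2 hj) hg)
  have mX₁ : ∀ g ∈ X₁, g ∈ X₀ := fun g hg => Or.inr (Or.inl hg)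
  have mA₂ : ∀ g ∈ A₂, g ∈ X₀ := fun g hg => Or.inr (Or.inr (Or.inl hg))
  have mL : ∀ g ∈ L, g ∈ X₀ := fun g hg => Or.inr (Or.inr (Or.inr (Or.inl hg)))
  have mAT : ∀ a ∈ A₂, ∀ t ∈ T, a * t ∈ X₀ := fun a ha t ht =>
    Or.inr (Or.inr (Or.inr (Or.inr (Or.inl ⟨a, ha, t, ht, rfl⟩))))
  have mT : ∀ t ∈ T, t ∈ X₀ := fun g hg => Or.inr (Or.inr (Or.inr (Or.inr (Or.inr hg))))
  refine ⟨A₂, X₀, hA₂f, hX₀f, fun a ha => ha.1, ?_⟩
  intro H _ c hc q x hx hq hqx
  set q' := q * S.pr x with hq'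
  obtain ⟨hv, hstep, -⟩ := hST G Q n S q q' q q J hJ
  have hv' := hv hq hqx
  have hJ0 : (0 : ℝ) < J := by exact_mod_cast hJ
  have hpos : ‖S.pos q' - S.pos q‖ ≤ D := by
    rw [hq', S.pos_mul, add_sub_cancel_left]
    exact hD x hx
  have hlet : ∀ j, S.sec ((S.st q q' J j)⁻¹ * S.st q q' J (j + 1)) ∈ L := by
    intro j
    refine ⟨_, ?_, Or.inl rfl⟩
    rw [pos_inv_mul]
    refine (hstep j).trans ?_
    have : ‖S.pos q' - S.pos q‖ / J ≤ 8 * S.a := by
      rw [div_le_iff₀ hJ0]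
      exact hpos.trans hDJ
    linarith
  have c1 : ∀ r, 0 ≤ S.v r → c r 1 = 1 := by
    intro r hr
    have h1 : (1 : G) ∈ X₀ := mPP 0 (Nat.zero_le _) 1 rfl
    have hr1 : r * S.pr 1 = r := by rw [map_one, mul_one]
    have h := hc r 1 1 h1 h1 (by rw [mul_one]; exact h1) hr (by rw [hr1]; exact hr)
      (by rw [hr1, hr1]; exact hr)
    rw [mul_one, hr1] at h
    exact (left_eq_mul.1 h)
  have key : ∀ j, j ≤ J → ∃ g ∈ PP L j, q * S.pr g = S.st q q' J j ∧
      S.hs c q q' J j = c q g := by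
    intro j
    induction j with
    | zero =>
      intro _
      refine ⟨1, rfl, ?_, ?_⟩
      · rw [map_one, mul_one]
        simp [Loc.st]
      · rw [c1 q hq]
        rfl
    | succ j ih =>
      intro hj
      obtain ⟨g, hg, hqg, hhs⟩ := ih (by omega)
      have hsm := hlet j
      set s := S.sec ((S.st q q' J j)⁻¹ * S.st q q' J (j + 1)) with hs
      have hprs : S.pr s = (S.st q q' J j)⁻¹ * S.st q q' J (j + 1) := S.pr_sec _
      have hgs : g * s ∈ PP L (j + 1) := ⟨g, hg, s, hsm, rfl⟩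
      have hqgs : q * S.pr g * S.pr s = S.st q q' J (j + 1) := by
        rw [hqg, hprs, mul_inv_cancel_left]
      refine ⟨g * s, hgs, ?_, ?_⟩
      · rw [map_mul, ← mul_assoc, hqgs]
      · have h := hc q g s (mPP j (by omega) g hg) (mL s hsm) (mPP (j + 1) hj _ hgs) hq
          (by rw [hqg]; exact hv' j) (by rw [hqgs]; exact hv' (j + 1))
        rw [h, hqg, ← hhs]
        rfl
  obtain ⟨g, hg, hqg, hhs⟩ := key J le_rfl
  have hst : S.st q q' J J = q' := by
    have : J ≠ 0 := by omega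
    simp [Loc.st, this]
  rw [hst] at hqg
  have hpra : S.pr (g⁻¹ * x) = 1 := by
    have h1 : S.pr g = S.pr x := mul_left_cancel hqg
    rw [map_mul, map_inv, h1, inv_mul_cancel]
  have haA : g⁻¹ * x ∈ A₂ := ⟨hpra, g, hg, x, hx, rfl⟩
  refine ⟨g⁻¹ * x, haA, ?_, ?_⟩
  · have h := hc q g (g⁻¹ * x) (mPP J le_rfl g hg) (mA₂ _ haA)
      (by rw [mul_inv_cancel_left]; exact mX₁ x hx) hq (by rw [hqg]; exact hqx)
      (by rw [hqg, hpra, mul_one]; exact hqx)
    rw [mul_inv_cancel_left, hqg, ← hhs] at h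
    exact h
  · intro t ht
    have hprt : S.pr t = 1 := hT.ker t ht
    have h1 := hc q' (g⁻¹ * x) t (mA₂ _ haA) (mT t ht) (mAT _ haA t ht) hqx
      (by rw [hpra, mul_one]; exact hqx) (by rw [hpra, hprt, mul_one, mul_one]; exact hqx)
    have hcm : g⁻¹ * x * t = t * (g⁻¹ * x) := S.comm _ _ hpra hprt
    have h2 := hc q' t (g⁻¹ * x) (mT t ht) (mA₂ _ haA) (by rw [← hcm]; exact mAT _ haA t ht) hqx
      (by rw [hprt, mul_one]; exact hqx) (by rw [hpra, hprt, mul_one, mul_one]; exact hqx)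
    rw [hpra, mul_one] at h1
    rw [hprt, mul_one] at h2
    rw [← h1, ← h2, hcm]

end Pool.Agent.Work.MP_e9e200_al.HS

end

section

/-!
# Project HS: item M1
-/

set_option autoImplicit false

namespace Pool.Agent.Work.MP_e9e200_al.HS

open Loc

namespace XM1

lemma cl_mono {G Q : Type} [Group G] [CommGroup Q] {n : ℕ} (S : Loc G Q n) (T : Set G)
    {P P' : Q → Prop} (h : ∀ f, P f → P' f) : S.cl T P ≤ S.cl T P' := by
  refine Subgroup.closure_mono ?_
  rintro g ⟨f, hf, t, ht, rfl⟩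
  exact ⟨f, h f hf, t, ht, rfl⟩

end XM1

open XM1 in
theorem I_M1 : StM1 := by
  intro G Q _ _ n S T C hC hM
  refine hC.induction_on (p := fun C' => ∃ D δ : ℝ, 0 < δ ∧ ∀ w ∈ C', ∀ t ∈ T,
    t ∈ S.cl T (fun f => ‖S.pos f‖ ≤ D ∧ δ ≤ inner ℝ (S.pos f) w)) ?_ ?_ ?_ ?_
  · exact ⟨0, 1, one_pos, fun w hw => absurd hw (Set.notMem_empty w)⟩
  · rintro A B hAB ⟨D, δ, hδ, h⟩
    exact ⟨D, δ, hδ, fun w hw => h w (hAB hw)⟩
  · rintro A B ⟨D, δ, hδ, h⟩ ⟨D', δ', hδ', h'⟩
    refine ⟨max D D', min δ δ', lt_min hδ hδ', fun w hw t ht => ?_⟩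
    rcases hw with hw | hw
    · refine cl_mono S T ?_ (h w hw t ht)
      rintro f ⟨h1, h2⟩
      exact ⟨le_trans h1 (le_max_left _ _), le_trans (min_le_left _ _) h2⟩
    · refine cl_mono S T ?_ (h' w hw t ht)
      rintro f ⟨h1, h2⟩
      exact ⟨le_trans h1 (le_max_right _ _), le_trans (min_le_right _ _) h2⟩
  · intro w hw
    obtain ⟨D, δ, hδ, h⟩ := hM w hw
    have hD : 0 < |D| + 1 := by positivity
    have hr : 0 < δ / 2 / (|D| + 1) := by positivity
    refine ⟨Metric.ball w (δ / 2 / (|D| + 1)), mem_nhdsWithin_of_mem_nhds (Metric.ball_mem_nhds w hr),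
      D, δ / 2, half_pos hδ, ?_⟩
    intro w' hw' t ht
    refine cl_mono S T ?_ (h t ht)
    rintro f ⟨h1, h2⟩
    refine ⟨h1, ?_⟩
    have h3 : inner ℝ (S.pos f) w' = inner ℝ (S.pos f) w + inner ℝ (S.pos f) (w' - w) := by
      rw [← inner_add_right]
      congr 1
      abel
    have h4 : |inner ℝ (S.pos f) (w' - w)| ≤ ‖S.pos f‖ * ‖w' - w‖ := abs_real_inner_le_norm _ _
    have h5 : ‖w' - w‖ < δ / 2 / (|D| + 1) := by
      rw [← dist_eq_norm]
      exact Metric.mem_ball.1 hw'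
    have h6 : ‖S.pos f‖ * ‖w' - w‖ ≤ (|D| + 1) * (δ / 2 / (|D| + 1)) := by
      refine mul_le_mul ?_ h5.le (norm_nonneg _) hD.le
      exact le_trans h1 (le_trans (le_abs_self D) (by linarith))
    have h7 : (|D| + 1) * (δ / 2 / (|D| + 1)) = δ / 2 := by
      field_simp
    have h8 := (abs_le.1 h4).1
    rw [h3]
    linarith

end Pool.Agent.Work.MP_e9e200_al.HS

end

section

set_option autoImplicit false

namespace Pool.Agent.Work.MP_e9e200_al.HS

open Loc

namespace XPAIR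

variable {G Q : Type} [Group G] [CommGroup Q] {n : ℕ} (S : Loc G Q n)

theorem nuh_norm : ‖S.nuh‖ ≤ 1 := by
  unfold Loc.nuh
  rw [norm_smul, norm_inv, norm_norm]
  exact inv_mul_le_one

theorem nu_nuh : inner ℝ S.nu S.nuh = ‖S.nu‖ := by
  unfold Loc.nuh
  rw [inner_smul_right, real_inner_self_eq_norm_sq]
  by_cases h : ‖S.nu‖ = 0
  · rw [h]; simp
  · field_simp

theorem up_dist (x : Eu n) : ‖S.pos (S.up x) - x‖ ≤ 2 * S.a := by
  have h1 := S.rd_spec (x + S.a • S.nuh)
  have h2 : ‖S.a • S.nuh‖ ≤ S.a := by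
    rw [norm_smul, Real.norm_eq_abs, abs_of_pos S.a_pos]
    nlinarith [nuh_norm S, S.a_pos]
  have h3 : S.pos (S.up x) - x = (S.pos (S.rd (x + S.a • S.nuh)) - (x + S.a • S.nuh)) +
      S.a • S.nuh := by
    unfold Loc.up; abel
  rw [h3]
  calc _ ≤ ‖S.pos (S.rd (x + S.a • S.nuh)) - (x + S.a • S.nuh)‖ + ‖S.a • S.nuh‖ :=
        norm_add_le _ _
    _ ≤ 2 * S.a := by linarith

theorem up_v (x : Eu n) : inner ℝ S.nu x ≤ S.v (S.up x) := by
  have h1 := S.rd_spec (x + S.a • S.nuh)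
  have h3 : S.pos (S.up x) = (S.pos (S.rd (x + S.a • S.nuh)) - (x + S.a • S.nuh)) +
      x + S.a • S.nuh := by
    unfold Loc.up; abel
  unfold Loc.v
  rw [h3, inner_add_right, inner_add_right, inner_smul_right, nu_nuh]
  have h4 := abs_real_inner_le_norm S.nu (S.pos (S.rd (x + S.a • S.nuh)) - (x + S.a • S.nuh))
  have h5 := neg_abs_le (inner ℝ S.nu (S.pos (S.rd (x + S.a • S.nuh)) - (x + S.a • S.nuh)))
  have h6 : ‖S.nu‖ * ‖S.pos (S.rd (x + S.a • S.nuh)) - (x + S.a • S.nuh)‖ ≤ ‖S.nu‖ * S.a :=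
    mul_le_mul_of_nonneg_left h1 (norm_nonneg _)
  linarith

theorem one_far (R : ℝ) (b p p' : Q) (hb : 0 ≤ S.v b) (hp : 0 ≤ S.v p)
    (h1 : ‖S.pos p - S.pos b‖ ≤ R + 1) (h2 : 1 + 2 * S.a < ‖S.pos p - S.pos b‖)
    (h3 : ‖S.pos p' - S.pos b‖ ≤ R - (1 + 4 * S.a)) :
    ∃ c' : Q, 0 ≤ S.v c' ∧ ‖S.pos b - S.pos c'‖ ≤ (1 + 2 * S.a) + 2 * S.a ∧
      ‖S.pos p - S.pos c'‖ ≤ R ∧ ‖S.pos p' - S.pos c'‖ ≤ R := by
  have ha := S.a_pos
  set r := ‖S.pos p - S.pos b‖ with hr
  have hr0 : 0 < r := by linarith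
  set s := 1 + 2 * S.a with hs
  have hs0 : 0 < s := by linarith
  set x0 : Eu n := S.pos b + (s / r) • (S.pos p - S.pos b) with hx0
  have hq : s / r ≤ 1 := by rw [div_le_one hr0]; linarith
  have hq0 : 0 ≤ s / r := by positivity
  have hd := up_dist S x0
  have hv := up_v S x0
  have e1 : ‖S.pos b - x0‖ = s := by
    have : S.pos b - x0 = -((s / r) • (S.pos p - S.pos b)) := by rw [hx0]; abel
    rw [this, norm_neg, norm_smul, Real.norm_eq_abs, abs_of_nonneg hq0, ← hr]
    field_simp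
  have e2 : ‖S.pos p - x0‖ = r - s := by
    have : S.pos p - x0 = (1 - s / r) • (S.pos p - S.pos b) := by
      rw [hx0, sub_smul, one_smul]; abel
    rw [this, norm_smul, Real.norm_eq_abs, abs_of_nonneg (by linarith), ← hr]
    field_simp
  have e3 : ‖x0 - S.pos (S.up x0)‖ ≤ 2 * S.a := by rw [norm_sub_rev]; exact hd
  have e4 : ‖S.pos b - S.pos (S.up x0)‖ ≤ s + 2 * S.a := by
    calc _ ≤ ‖S.pos b - x0‖ + ‖x0 - S.pos (S.up x0)‖ := norm_sub_le_norm_sub_add_norm_sub _ _ _
      _ ≤ _ := by linarith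
  refine ⟨S.up x0, ?_, e4, ?_, ?_⟩
  · refine le_trans ?_ hv
    rw [hx0, inner_add_right, inner_smul_right, inner_sub_right]
    have g1 : inner ℝ S.nu (S.pos b) = S.v b := rfl
    have g2 : inner ℝ S.nu (S.pos p) = S.v p := rfl
    rw [g1, g2]
    nlinarith [mul_nonneg hq0 hp, mul_nonneg (sub_nonneg.2 hq) hb]
  · calc _ ≤ ‖S.pos p - x0‖ + ‖x0 - S.pos (S.up x0)‖ := norm_sub_le_norm_sub_add_norm_sub _ _ _
      _ ≤ _ := by linarith
  · calc _ ≤ ‖S.pos p' - S.pos b‖ + ‖S.pos b - S.pos (S.up x0)‖ :=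
          norm_sub_le_norm_sub_add_norm_sub _ _ _
      _ ≤ _ := by linarith

theorem both_far (R ε e' : ℝ) (hε : 0 < ε) (he : e' = 2 * (1 + 2 * S.a) / ε)
    (hR : 4 * (1 + 4 * S.a) + 1 + 2 * e' ^ 2 ≤ 2 * R)
    (d x : Eu n) (hx : ‖x‖ = 1)
    (h1 : ‖d‖ ≤ R + 1) (h2 : R - (1 + 4 * S.a) < ‖d‖) (h3 : ε * ‖d‖ ≤ inner ℝ d x) :
    ‖d - e' • x‖ ≤ R - 2 * S.a := by
  have ha := S.a_pos
  have he0 : 0 < e' := by rw [he]; positivity
  have hee : e' * ε = 2 * (1 + 2 * S.a) := by rw [he]; field_simp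
  have hR2 : 2 * S.a ≤ R := by nlinarith [sq_nonneg e']
  have e1 : ‖d - e' • x‖ ^ 2 = ‖d‖ ^ 2 - 2 * e' * inner ℝ d x + e' ^ 2 := by
    rw [norm_sub_sq_real, inner_smul_right, norm_smul, hx, Real.norm_eq_abs, mul_one, sq_abs]
    ring
  have e2 : e' * (ε * ‖d‖) ≤ e' * inner ℝ d x := mul_le_mul_of_nonneg_left h3 he0.le
  have e3 : e' * (ε * ‖d‖) = 2 * (1 + 2 * S.a) * ‖d‖ := by rw [← hee]; ring
  have e4 : 2 * (1 + 2 * S.a) * (R - (1 + 4 * S.a)) ≤ 2 * (1 + 2 * S.a) * ‖d‖ :=
    mul_le_mul_of_nonneg_left h2.le (by linarith)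
  have e5 : ‖d‖ ^ 2 ≤ (R + 1) ^ 2 := pow_le_pow_left₀ (norm_nonneg _) h1 2
  have e6 : ‖d - e' • x‖ ^ 2 ≤ (R - 2 * S.a) ^ 2 := by
    rw [e1]
    have e7 : (1 + 2 * S.a) * (4 * (1 + 4 * S.a) + 1 + 2 * e' ^ 2) ≤ (1 + 2 * S.a) * (2 * R) :=
      mul_le_mul_of_nonneg_left hR (by linarith)
    nlinarith [sq_nonneg e', mul_nonneg ha.le (sq_nonneg e')]
  exact (pow_le_pow_iff_left₀ (norm_nonneg _) (by linarith) two_ne_zero).1 e6

end XPAIR

open XPAIR in
theorem I_PAIR : StPAIR := by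
  intro G Q _ _ n S ε hε
  have ha := S.a_pos
  set e' := 2 * (1 + 2 * S.a) / ε with he
  have he0 : 0 < e' := by rw [he]; positivity
  refine ⟨max e' (1 + 2 * S.a) + 2 * S.a, 1 + 4 * S.a,
    2 * (1 + 4 * S.a) + 1 + e' ^ 2 + (1 + 2 * S.a), by positivity, by positivity, ?_⟩
  intro R hR b p p' hb hp hp' h1 h1' h
  have hm1 := le_max_left e' (1 + 2 * S.a)
  have hm2 := le_max_right e' (1 + 2 * S.a)
  have he2 := sq_nonneg e'
  rcases le_or_gt ‖S.pos p - S.pos b‖ (R - (1 + 4 * S.a)) with hc | hc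
  · rcases le_or_gt ‖S.pos p' - S.pos b‖ (R - (1 + 4 * S.a)) with hc' | hc'
    · refine ⟨b, hb, ?_, by linarith, by linarith⟩
      rw [sub_self, norm_zero]; positivity
    · obtain ⟨c', g1, g2, g3, g4⟩ := one_far S R b p' p hb hp' h1' (by nlinarith) hc
      exact ⟨c', g1, by linarith, g4, g3⟩
  · rcases le_or_gt ‖S.pos p' - S.pos b‖ (R - (1 + 4 * S.a)) with hc' | hc'
    · obtain ⟨c', g1, g2, g3, g4⟩ := one_far S R b p p' hb hp h1 (by nlinarith) hc'
      exact ⟨c', g1, by linarith, g3, g4⟩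
    · rcases h with h | h | ⟨x, hx, hx1, hx2, hx3⟩
      · exact absurd h (not_le.2 hc)
      · exact absurd h (not_le.2 hc')
      · have f1 := both_far S R ε e' hε he (by nlinarith) (S.pos p - S.pos b) x hx h1 hc hx1
        have f2 := both_far S R ε e' hε he (by nlinarith) (S.pos p' - S.pos b) x hx h1' hc' hx2
        have hd := up_dist S (S.pos b + e' • x)
        have hv := up_v S (S.pos b + e' • x)
        have e3 : ‖(S.pos b + e' • x) - S.pos (S.up (S.pos b + e' • x))‖ ≤ 2 * S.a := by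
          rw [norm_sub_rev]; exact hd
        refine ⟨S.up (S.pos b + e' • x), ?_, ?_, ?_, ?_⟩
        · refine le_trans ?_ hv
          rw [inner_add_right, inner_smul_right]
          have g1 : inner ℝ S.nu (S.pos b) = S.v b := rfl
          rw [g1]
          have := mul_nonneg he0.le hx3
          linarith
        · have g : ‖S.pos b - (S.pos b + e' • x)‖ = e' := by
            have : S.pos b - (S.pos b + e' • x) = -(e' • x) := by abel
            rw [this, norm_neg, norm_smul, hx, Real.norm_eq_abs, abs_of_pos he0, mul_one]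
          calc _ ≤ ‖S.pos b - (S.pos b + e' • x)‖ +
                ‖(S.pos b + e' • x) - S.pos (S.up (S.pos b + e' • x))‖ :=
                norm_sub_le_norm_sub_add_norm_sub _ _ _
            _ ≤ _ := by linarith
        · have g : S.pos p - (S.pos b + e' • x) = (S.pos p - S.pos b) - e' • x := by abel
          calc _ ≤ ‖S.pos p - (S.pos b + e' • x)‖ +
                ‖(S.pos b + e' • x) - S.pos (S.up (S.pos b + e' • x))‖ :=
                norm_sub_le_norm_sub_add_norm_sub _ _ _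
            _ ≤ _ := by rw [g]; linarith
        · have g : S.pos p' - (S.pos b + e' • x) = (S.pos p' - S.pos b) - e' • x := by abel
          calc _ ≤ ‖S.pos p' - (S.pos b + e' • x)‖ +
                ‖(S.pos b + e' • x) - S.pos (S.up (S.pos b + e' • x))‖ :=
                norm_sub_le_norm_sub_add_norm_sub _ _ _
            _ ≤ _ := by rw [g]; linarith

end Pool.Agent.Work.MP_e9e200_al.HS

end

section

/-!
# Project HS: item PB (composition and reversal of paths)
-/

set_option autoImplicit false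

namespace Pool.Agent.Work.MP_e9e200_al.HS

open Loc

namespace XPB

variable {G Q : Type} [Group G] [CommGroup Q] {n : ℕ} {S : Loc G Q n} {H : Type}
  [Group H] {c : Q → G → H} {X B : Set G} {K : Set Q}

lemma ends {p q : Q} {h : H} (hp : S.Pth c B K p q h) : p ∈ K ∧ q ∈ K := by
  induction hp with
  | nil hq => exact ⟨hq, hq⟩
  | snoc x _ _ hK ih => exact ⟨ih.1, hK⟩

lemma comp {p q r : Q} {h h' : H} (hp : S.Pth c B K p q h) (hq : S.Pth c B K q r h') :
    S.Pth c B K p r (h * h') := by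
  induction hq with
  | nil hq => rw [mul_one]; exact hp
  | snoc x _ hx hK ih =>
    rw [← mul_assoc]
    exact Loc.Pth.snoc x ih hx hK

lemma c_one (hF : S.Flat X c) (h1 : (1 : G) ∈ X) {q : Q} (hq : 0 ≤ S.v q) : c q 1 = 1 := by
  have h := hF q 1 1 h1 h1 (by rw [mul_one]; exact h1) hq (by rw [map_one, mul_one]; exact hq)
    (by rw [map_one, mul_one, mul_one]; exact hq)
  rw [mul_one, map_one, mul_one] at h
  exact (mul_eq_left.1 h.symm)

lemma c_inv (hF : S.Flat X c) (h1 : (1 : G) ∈ X) {q : Q} {x : G} (hx : x ∈ X) (hx' : x⁻¹ ∈ X)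
    (hq : 0 ≤ S.v q) (hq' : 0 ≤ S.v (q * S.pr x)) :
    c (q * S.pr x) x⁻¹ = (c q x)⁻¹ := by
  have h := hF q x x⁻¹ hx hx' (by rw [mul_inv_cancel]; exact h1) hq hq'
    (by rw [map_inv, mul_inv_cancel_right]; exact hq)
  rw [mul_inv_cancel, c_one hF h1 hq] at h
  exact eq_inv_of_mul_eq_one_right h.symm

lemma rev (hF : S.Flat X c) (hB : B ⊆ X) (h1 : (1 : G) ∈ X) (hi : ∀ x ∈ B, x⁻¹ ∈ B)
    (hK : K ⊆ S.half) {p q : Q} {h : H} (hp : S.Pth c B K p q h) : S.Pth c B K q p h⁻¹ := by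
  induction hp with
  | nil hq => rw [inv_one]; exact Loc.Pth.nil _ hq
  | snoc x hp hx hxK ih =>
    rename_i q h
    have hq : q ∈ K := (ends hp).2
    have e1 : q * S.pr x * S.pr x⁻¹ = q := by rw [map_inv, mul_inv_cancel_right]
    have h2 : S.Pth c B K (q * S.pr x) (q * S.pr x * S.pr x⁻¹) (1 * c (q * S.pr x) x⁻¹) :=
      Loc.Pth.snoc x⁻¹ (Loc.Pth.nil _ hxK) (hi x hx) (by rw [e1]; exact hq)
    rw [e1, one_mul, c_inv hF h1 (hB hx) (hB (hi x hx)) (hK hq) (hK hxK)] at h2
    rw [mul_inv_rev]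
    exact comp h2 ih

end XPB

theorem I_PB : StPB := by
  intro G Q _ _ n S H _ c X B K hF hB h1 hi hK
  exact ⟨fun p q r h h' hp hq => XPB.comp hp hq, fun p q h hp => XPB.rev hF hB h1 hi hK hp,
    fun p q h hp => XPB.ends hp⟩

end Pool.Agent.Work.MP_e9e200_al.HS

end

section

set_option autoImplicit false

namespace Pool.Agent.Work.MP_e9e200_al.HS

open Loc

/-- the conjugates of `c p t` by two paths in `K` agree -/
theorem I_PI (hPB : StPB) : StPI := by
  intro G Q _ _ n S H _ c X B K hF hBX h1 hinv hK hcomm b p h h' t hp hp' htB ht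
  obtain ⟨hcomp, hrev, hmem⟩ := hPB G Q n S H c X B K hF hBX h1 hinv hK
  have hpK : p ∈ K := (hmem b p h hp).2
  have e : p * S.pr t = p := by rw [ht, mul_one]
  have hs : S.Pth c B K b p (h' * c p t) := by
    have := Pth.snoc (S := S) (c := c) t hp' htB (by rw [e]; exact hpK)
    rwa [e] at this
  have hu : S.Pth c B K b b (h * h'⁻¹) := hcomp b p b h h'⁻¹ hp (hrev b p h' hp')
  have hw : S.Pth c B K b b (h' * c p t * h'⁻¹) := hcomp b p b _ _ hs (hrev b p h' hp')
  have hc := hcomm b _ _ hu hw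
  have hc2 : h * c p t * h'⁻¹ = (h' * c p t * h'⁻¹) * (h * h'⁻¹) := by
    rw [← hc]; group
  have hc3 : h * c p t = (h' * c p t * h'⁻¹) * h := by
    have := congrArg (fun z => z * h') hc2
    simpa [mul_assoc] using this
  rw [hc3, mul_inv_cancel_right]

end Pool.Agent.Work.MP_e9e200_al.HS

end

section

set_option autoImplicit false

namespace Pool.Agent.Work.MP_e9e200_al.HS

open Loc

namespace XS2

theorem ok_mono {G : Type} [Group G] (χ : Additive G →+ ℝ) {X Y : Set G} (h : X ⊆ Y) (g : G)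
    (w : List G) (hw : Ok χ X g w) : Ok χ Y g w := by
  induction w generalizing g with
  | nil => exact hw
  | cons x w ih => exact ⟨hw.1, h hw.2.1, ih _ hw.2.2⟩

theorem conj_eq {G Q : Type} [Group G] [CommGroup Q] {n : ℕ} (S : Loc G Q n) (g t : G)
    (ht : S.pr t = 1) : g * t * g⁻¹ = S.sec (S.pr g) * t * (S.sec (S.pr g))⁻¹ := by
  have h1 : S.pr ((S.sec (S.pr g))⁻¹ * g) = 1 := by
    rw [map_mul, map_inv, S.pr_sec]; simp
  have h2 := S.comm _ _ h1 ht
  have h3 : g * t = S.sec (S.pr g) * (t * ((S.sec (S.pr g))⁻¹ * g)) := by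
    rw [← h2]; group
  rw [h3]; group

end XS2

theorem I_S2 (hNC : StNC) (hTEX : StTEX) (hMFG : StMFG) (hLEX : StLEX) (hLETT : StLETT)
    (hHOL : StHOL) (hUNIV : StUNIV) (hEXACT : StEXACT) : StS2 := by
  intro G _ _ hm χ hχ hrel hfp hcon
  obtain ⟨n, S, hpr, hv, hw⟩ := hLEX G hm χ
  have hker : ∀ g : G, S.pr g = 1 ↔ g ∈ commutator G := by
    intro g
    rw [hpr]
    exact (QuotientGroup.eq_one_iff g)
  obtain ⟨V₀, hV₀, hgen⟩ := hNC G
  obtain ⟨T, hT⟩ : ∃ T : Set G, S.TOK T := by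
    refine hTEX G _ n S (V₀ : Set G) V₀.finite_toSet (fun t ht => (hker t).2 (hV₀ t ht)) ?_
    intro g hg
    have h1 : g ∈ Subgroup.normalClosure (V₀ : Set G) := hgen ((hker g).1 hg)
    refine (Subgroup.closure_le _).2 ?_ h1
    intro x hx
    obtain ⟨v, hv', hc⟩ := Group.mem_conjugatesOfSet_iff.1 hx
    obtain ⟨c, hc⟩ := isConj_iff.1 hc
    refine Subgroup.subset_closure ⟨S.pr c, trivial, v, hv', ?_⟩
    rw [← hc, XS2.conj_eq S c v ((hker v).2 (hV₀ v hv'))]
  -- movability from finite generation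
  have key : ∀ (w : Eu n) (ψ : Additive G →+ ℝ), w ≠ 0 →
      (∀ g, ψ (Additive.ofMul g) = inner ℝ (S.pos (Abelianization.of g)) w) →
      (∃ V : Finset G, (∀ v ∈ V, v ∈ commutator G) ∧ ∀ a ∈ commutator G, a ∈ Gen G ψ V) →
      S.Mov T w ∧ ∀ g, S.pr g = 1 → g ∈ S.cl T (fun f => 0 ≤ inner ℝ (S.pos f) w) := by
    intro w ψ hw0 hψ ⟨V, hV, hVg⟩
    refine hMFG G _ n S T hT w hw0 ⟨(V : Set G), V.finite_toSet,
      fun v hv' => (hker v).2 (hV v hv'), ?_⟩
    intro g hg
    have h1 := hVg g ((hker g).1 hg)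
    refine (Subgroup.closure_mono ?_) h1
    rintro x ⟨u, v, hu, hv', rfl⟩
    refine ⟨u, v, ?_, hv', rfl⟩
    rw [hpr]
    rw [← hψ u]; exact hu
  have hnu : S.nu ≠ 0 := by
    intro h0
    apply hχ
    refine AddMonoidHom.ext fun g => ?_
    have h1 := hv (Additive.toMul g)
    simp only [Loc.v, h0, inner_zero_left, ofMul_toMul] at h1
    simpa using h1
  have hχv : ∀ g, χ (Additive.ofMul g) = inner ℝ (S.pos (Abelianization.of g)) S.nu := by
    intro g; rw [hv g, Loc.v, real_inner_comm]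
  have hχg : ∃ V : Finset G, (∀ v ∈ V, v ∈ commutator G) ∧ ∀ a ∈ commutator G, a ∈ Gen G χ V := by
    by_contra hcn
    push Not at hcn
    exact hrel χ χ hχ hχ hcn hcn 1 0 1 zero_le_one le_rfl zero_le_one (by norm_num) (by simp)
  have hVF : ∀ g, S.pr g = 1 → g ∈ S.cl T (fun f => 0 ≤ S.v f) := by
    have h1 := (key S.nu χ hnu hχv hχg).2
    intro g hg
    have h2 := h1 g hg
    simpa only [Loc.v, real_inner_comm] using h2
  have hNR : S.NoRel T := by
    intro w₁ w₂ h1 h2 hm1 hm2 a₁ a₂ b ha₁ ha₂ hb hab he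
    obtain ⟨ψ₁, hn1, hψ₁⟩ := hw w₁
    obtain ⟨ψ₂, hn2, hψ₂⟩ := hw w₂
    have hw1 : w₁ ≠ 0 := by rintro rfl; simp at h1
    have hw2 : w₂ ≠ 0 := by rintro rfl; simp at h2
    refine hrel ψ₁ ψ₂ (hn1 hw1) (hn2 hw2) ?_ ?_ a₁ a₂ b ha₁ ha₂ hb hab ?_
    · by_contra hcn
      push Not at hcn
      exact hm1 (key w₁ ψ₁ hw1 hψ₁ hcn).1
    · by_contra hcn
      push Not at hcn
      exact hm2 (key w₂ ψ₂ hw2 hψ₂ hcn).1
    · refine AddMonoidHom.ext fun g => ?_
      have e1 := hψ₁ (Additive.toMul g)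
      have e2 := hψ₂ (Additive.toMul g)
      have e3 := hχv (Additive.toMul g)
      simp only [ofMul_toMul] at e1 e2 e3
      simp only [AddMonoidHom.add_apply, AddMonoidHom.smul_apply, smul_eq_mul, e1, e2, e3]
      rw [← real_inner_smul_right, ← real_inner_smul_right, ← real_inner_smul_right,
        ← inner_add_right, he]
  obtain ⟨X₁, hX₁, hC₁⟩ := hcon
  -- symmetrize
  let Y : Set G := X₁ ∪ X₁⁻¹ ∪ {1}
  have hYf : Y.Finite := (hX₁.union hX₁.inv).union (Set.finite_singleton 1)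
  have hYi : ∀ x ∈ Y, x⁻¹ ∈ Y := by
    rintro x ((h | h) | h)
    · exact Or.inl (Or.inr (by simpa using h))
    · exact Or.inl (Or.inl h)
    · rcases h with rfl; exact Or.inr (by simp)
  have hY1 : (1 : G) ∈ Y := Or.inr rfl
  have hYC : Con χ Y := by
    intro g h hg hh
    obtain ⟨w, hw1, hw2⟩ := hC₁ g h hg hh
    exact ⟨w, XS2.ok_mono χ (fun x hx => Or.inl (Or.inl hx)) g w hw1, hw2⟩
  have hχS : ∀ g, χ (Additive.ofMul g) = S.v (S.pr g) := by
    intro g; rw [hv g, hpr]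
  have hL := hLETT G _ n S T hT hNR hVF
  obtain ⟨X₀, hX₀, hH⟩ := hHOL G _ n S χ hχS hfp hL Y hYf hYi hY1 hYC
  let Z : Set G := X₀ ∪ X₀⁻¹ ∪ Y
  have hZf : Z.Finite := (hX₀.union hX₀.inv).union hYf
  have hZi : ∀ x ∈ Z, x⁻¹ ∈ Z := by
    rintro x ((h | h) | h)
    · exact Or.inl (Or.inr (by simpa using h))
    · exact Or.inl (Or.inl h)
    · exact Or.inr (hYi x h)
  have hN := hUNIV G _ n S χ hχS Y Z (fun x hx => Or.inr hx) (Or.inr hY1) hZi hYC ?_
  · obtain ⟨X, h1, h2, h3, h4, h5, h6⟩ := hEXACT G χ Y Z hYf hZf hYi hY1 hYC hN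
    exact ⟨X, h1, h2, h3, h5, h6⟩
  · intro H _ c hc
    refine hH H c ?_
    intro q x y hx hy hxy
    exact hc q x y (Or.inl (Or.inl hx)) (Or.inl (Or.inl hy)) (Or.inl (Or.inl hxy))

end Pool.Agent.Work.MP_e9e200_al.HS

end

section

/-!
# Project HS: item ST (the straight path)
-/

set_option autoImplicit false

namespace Pool.Agent.Work.MP_e9e200_al.HS

open Loc

namespace XST

variable {G Q : Type} [Group G] [CommGroup Q] {n : ℕ} (S : Loc G Q n)

lemma norm_nuh : ‖S.nuh‖ ≤ 1 := by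
  rw [nuh, norm_smul, norm_inv, norm_norm]
  exact inv_mul_le_one

lemma inner_nuh : (inner ℝ S.nu S.nuh : ℝ) = ‖S.nu‖ := by
  rw [nuh, inner_smul_right, real_inner_self_eq_norm_sq]
  by_cases h : ‖S.nu‖ = 0
  · rw [h]; simp
  · field_simp

lemma up_dist (x : Eu n) : ‖S.pos (S.up x) - x‖ ≤ 2 * S.a := by
  have h1 := S.rd_spec (x + S.a • S.nuh)
  have h2 : ‖S.a • S.nuh‖ ≤ S.a := by
    rw [norm_smul, Real.norm_of_nonneg S.a_pos.le]
    have := mul_le_mul_of_nonneg_left (norm_nuh S) S.a_pos.le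
    linarith
  have h3 : S.pos (S.up x) - x =
      (S.pos (S.rd (x + S.a • S.nuh)) - (x + S.a • S.nuh)) + S.a • S.nuh := by
    rw [up]; abel
  rw [h3]
  refine (norm_add_le _ _).trans ?_
  linarith

lemma up_v (x : Eu n) : (inner ℝ S.nu x : ℝ) ≤ inner ℝ S.nu (S.pos (S.up x)) := by
  have h1 := S.rd_spec (x + S.a • S.nuh)
  have h3 : S.pos (S.up x) =
      x + S.a • S.nuh + (S.pos (S.rd (x + S.a • S.nuh)) - (x + S.a • S.nuh)) := by
    rw [up]; abel
  rw [h3, inner_add_right, inner_add_right, inner_smul_right, inner_nuh]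
  have h4 := abs_real_inner_le_norm S.nu
    (S.pos (S.rd (x + S.a • S.nuh)) - (x + S.a • S.nuh))
  have h5 := (abs_le.1 h4).1
  have h6 := mul_le_mul_of_nonneg_left h1 (norm_nonneg S.nu)
  linarith

/-- the parameter of a point -/
noncomputable def th (J j : ℕ) : ℝ := ((min j J : ℕ) : ℝ) / (J : ℝ)

/-- the point of the segment -/
noncomputable def sg (b p : Q) (J j : ℕ) : Eu n := S.pos b + th J j • (S.pos p - S.pos b)

lemma th_nonneg (J j : ℕ) : 0 ≤ th J j := div_nonneg (Nat.cast_nonneg _) (Nat.cast_nonneg _)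

lemma th_le_one {J : ℕ} (hJ : 1 ≤ J) (j : ℕ) : th J j ≤ 1 := by
  have hJ' : (0 : ℝ) < J := by exact_mod_cast hJ
  rw [th, div_le_one hJ']
  exact_mod_cast min_le_right j J

lemma th_zero (J : ℕ) : th J 0 = 0 := by simp [th]

lemma th_ge {J j : ℕ} (hJ : 1 ≤ J) (h : J ≤ j) : th J j = 1 := by
  have hJ' : (J : ℝ) ≠ 0 := by
    have : J ≠ 0 := by omega
    exact_mod_cast this
  rw [th, min_eq_right h, div_self hJ']

lemma th_lt {J j : ℕ} (h : j < J) : th J j = (j : ℝ) / (J : ℝ) := by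
  rw [th, min_eq_left h.le]

lemma th_mono (J j : ℕ) : th J j ≤ th J (j + 1) := by
  refine div_le_div_of_nonneg_right ?_ (Nat.cast_nonneg _)
  exact_mod_cast min_le_min_right J (Nat.le_succ j)

lemma th_step {J : ℕ} (j : ℕ) : th J (j + 1) - th J j ≤ 1 / J := by
  rw [th, th, ← sub_div]
  refine div_le_div_of_nonneg_right ?_ (Nat.cast_nonneg _)
  have h : min (j + 1) J ≤ min j J + 1 := by omega
  have h' : ((min (j + 1) J : ℕ) : ℝ) ≤ ((min j J : ℕ) : ℝ) + 1 := by exact_mod_cast h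
  linarith

lemma st_zero (b p : Q) (J : ℕ) : S.st b p J 0 = b := by simp [st]

lemma st_ge {b p : Q} {J j : ℕ} (hJ : 1 ≤ J) (h : J ≤ j) : S.st b p J j = p := by
  have h0 : j ≠ 0 := by omega
  simp [st, h0, h]

lemma st_mid {b p : Q} {J j : ℕ} (h0 : j ≠ 0) (h : j < J) :
    S.st b p J j = S.up (sg S b p J j) := by
  rw [st, if_neg h0, if_neg (not_le.2 h), sg, th_lt h]

lemma st_dist {b p : Q} {J : ℕ} (hJ : 1 ≤ J) (j : ℕ) :
    ‖S.pos (S.st b p J j) - sg S b p J j‖ ≤ 2 * S.a := by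
  have ha := S.a_pos
  by_cases h0 : j = 0
  · subst h0
    rw [st_zero, sg, th_zero, zero_smul, add_zero, sub_self, norm_zero]
    linarith
  · by_cases h : J ≤ j
    · rw [st_ge S hJ h, sg, th_ge hJ h, one_smul, add_sub_cancel, sub_self, norm_zero]
      linarith
    · rw [st_mid S h0 (not_le.1 h)]
      exact up_dist S _

lemma st_v {b p : Q} {J : ℕ} (hJ : 1 ≤ J) (j : ℕ) :
    (inner ℝ S.nu (sg S b p J j) : ℝ) ≤ S.v (S.st b p J j) := by
  rw [v]
  by_cases h0 : j = 0
  · subst h0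
    rw [st_zero, sg, th_zero, zero_smul, add_zero]
  · by_cases h : J ≤ j
    · rw [st_ge S hJ h, sg, th_ge hJ h, one_smul, add_sub_cancel]
    · rw [st_mid S h0 (not_le.1 h)]
      exact up_v S _

lemma tri {x x' y y' : Eu n} {r s : ℝ} (h : ‖x - y‖ ≤ r) (h' : ‖x' - y'‖ ≤ s) :
    ‖x - x'‖ ≤ ‖y - y'‖ + (r + s) := by
  have e : x - x' = (y - y') + ((x - y) - (x' - y')) := by abel
  rw [e]
  refine (norm_add_le _ _).trans ?_
  have := norm_sub_le (x - y) (x' - y')
  linarith

end XST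

open XST in
/-- ST: the straight path -/
theorem I_ST : StST := by
  intro G Q _ _ n S b p p' c' J hJ
  have ha := S.a_pos
  have hJ' : (0 : ℝ) < J := by exact_mod_cast hJ
  refine ⟨fun hb hp j => ?_, fun j => ?_, fun j => ?_, fun η R hη hR hJR j => ?_, fun j => ?_⟩
  · refine le_trans ?_ (st_v S hJ j)
    have e : sg S b p J j = (1 - th J j) • S.pos b + th J j • S.pos p := by
      rw [sg, smul_sub, sub_smul, one_smul]; abel
    rw [e, inner_add_right, inner_smul_right, inner_smul_right]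
    have h1 := mul_nonneg (sub_nonneg.2 (th_le_one hJ j)) hb
    have h2 := mul_nonneg (th_nonneg J j) hp
    exact add_nonneg h1 h2
  · refine (tri (st_dist S hJ (j + 1)) (st_dist S hJ j)).trans ?_
    have e : sg S b p J (j + 1) - sg S b p J j =
        (th J (j + 1) - th J j) • (S.pos p - S.pos b) := by
      rw [sg, sg, sub_smul]; abel
    rw [e, norm_smul, Real.norm_of_nonneg (sub_nonneg.2 (th_mono J j))]
    have h1 := mul_le_mul_of_nonneg_right (th_step (J := J) j) (norm_nonneg (S.pos p - S.pos b))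
    have h2 : 1 / (J : ℝ) * ‖S.pos p - S.pos b‖ = ‖S.pos p - S.pos b‖ / J := by ring
    rw [h2] at h1
    linarith
  · refine (tri (st_dist S hJ j) (st_dist S hJ j)).trans ?_
    have e : sg S b p J j - sg S b p' J j = th J j • (S.pos p - S.pos p') := by
      rw [sg, sg, smul_sub, smul_sub, smul_sub]; abel
    rw [e, norm_smul, Real.norm_of_nonneg (th_nonneg J j)]
    have h1 := mul_le_mul_of_nonneg_right (th_le_one hJ j) (norm_nonneg (S.pos p - S.pos p'))
    linarith
  · have hηR : η ≤ R := by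
      have : 0 ≤ 2 * S.a * J := by positivity
      linarith
    by_cases h0 : j = 0
    · subst h0
      rw [st_zero]
      exact hη.trans hηR
    · by_cases h : J ≤ j
      · rw [st_ge S hJ h]
        exact hR
      · have h3 := not_le.1 h
        have e0 : S.pos (S.st b p J j) - S.pos c' =
            (S.pos (S.st b p J j) - sg S b p J j) + (sg S b p J j - S.pos c') := by abel
        have e : sg S b p J j - S.pos c' =
            (1 - th J j) • (S.pos b - S.pos c') + th J j • (S.pos p - S.pos c') := by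
          rw [sg, smul_sub, smul_sub, smul_sub, sub_smul, sub_smul, one_smul, one_smul]; abel
        have h4 : ‖sg S b p J j - S.pos c'‖ ≤ (1 - th J j) * η + th J j * R := by
          rw [e]
          refine (norm_add_le _ _).trans ?_
          rw [norm_smul, norm_smul, Real.norm_of_nonneg (th_nonneg J j),
            Real.norm_of_nonneg (sub_nonneg.2 (th_le_one hJ j))]
          exact add_le_add
            (mul_le_mul_of_nonneg_left hη (sub_nonneg.2 (th_le_one hJ j)))
            (mul_le_mul_of_nonneg_left hR (th_nonneg J j))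
        have h5 : 1 / (J : ℝ) ≤ 1 - th J j := by
          rw [th_lt h3]
          have h6 : (j : ℝ) + 1 ≤ J := by exact_mod_cast h3
          rw [le_sub_iff_add_le, ← add_div, div_le_one hJ']
          linarith
        have h7 : 2 * S.a ≤ (1 - th J j) * (R - η) := by
          have h8 : 2 * S.a ≤ 1 / (J : ℝ) * (R - η) := by
            rw [one_div, inv_mul_eq_div, le_div_iff₀ hJ']
            exact hJR
          exact h8.trans (mul_le_mul_of_nonneg_right h5 (sub_nonneg.2 hηR))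
        rw [e0]
        refine (norm_add_le _ _).trans ?_
        have h9 := st_dist S (b := b) (p := p) hJ j
        nlinarith [h4, h7, h9]
  · have e0 : S.pos (S.st b p J j) - S.pos b =
        (S.pos (S.st b p J j) - sg S b p J j) + (sg S b p J j - S.pos b) := by abel
    have e : sg S b p J j - S.pos b = th J j • (S.pos p - S.pos b) := by
      rw [sg]; abel
    rw [e0]
    refine (norm_add_le _ _).trans ?_
    rw [e, norm_smul, Real.norm_of_nonneg (th_nonneg J j)]
    have h1 := mul_le_mul_of_nonneg_right (th_le_one hJ j) (norm_nonneg (S.pos p - S.pos b))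
    have h9 := st_dist S (b := b) (p := p) hJ j
    linarith

end Pool.Agent.Work.MP_e9e200_al.HS

end

section

set_option autoImplicit false

namespace Pool.Agent.Work.MP_e9e200_al.HS

open Loc

namespace XTEX

variable {G Q : Type} [Group G] [CommGroup Q] {n : ℕ} (S : Loc G Q n)

/-- products of four letters in the kernel -/
def W4 : Set G := {g | (∃ x ∈ S.Lt (16 * S.a), ∃ y ∈ S.Lt (16 * S.a), ∃ z ∈ S.Lt (16 * S.a),
  ∃ w ∈ S.Lt (16 * S.a), g = x * y * z * w) ∧ S.pr g = 1}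

theorem Lt_finite (l : ℝ) : (S.Lt l).Finite := by
  have h : S.Lt l = (S.sec '' {q | ‖S.pos q‖ ≤ l}) ∪
      ((fun q => (S.sec q)⁻¹) '' {q | ‖S.pos q‖ ≤ l}) := by
    ext x
    simp only [Loc.Lt, Set.mem_ofPred_eq, Set.mem_union, Set.mem_image]
    constructor
    · rintro ⟨q, hq, h | h⟩
      · exact Or.inl ⟨q, hq, h.symm⟩
      · exact Or.inr ⟨q, hq, h.symm⟩
    · rintro (⟨q, hq, h⟩ | ⟨q, hq, h⟩)
      · exact ⟨q, hq, Or.inl h.symm⟩
      · exact ⟨q, hq, Or.inr h.symm⟩
  rw [h]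
  exact ((S.fin l).image _).union ((S.fin l).image _)

theorem Lt_inv {l : ℝ} {x : G} (hx : x ∈ S.Lt l) : x⁻¹ ∈ S.Lt l := by
  obtain ⟨q, hq, h | h⟩ := hx
  · exact ⟨q, hq, Or.inr (by rw [h])⟩
  · exact ⟨q, hq, Or.inl (by rw [h, inv_inv])⟩

theorem W4_finite : (W4 S).Finite := by
  have hL := Lt_finite S (16 * S.a)
  refine Set.Finite.subset (((hL.prod (hL.prod (hL.prod hL))).image
    (fun p => p.1 * p.2.1 * p.2.2.1 * p.2.2.2))) ?_
  rintro g ⟨⟨x, hx, y, hy, z, hz, w, hw, h⟩, -⟩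
  exact ⟨(x, y, z, w), ⟨hx, hy, hz, hw⟩, h.symm⟩

theorem W4_inv {g : G} (hg : g ∈ W4 S) : g⁻¹ ∈ W4 S := by
  obtain ⟨⟨x, hx, y, hy, z, hz, w, hw, h⟩, h1⟩ := hg
  refine ⟨⟨w⁻¹, Lt_inv S hw, z⁻¹, Lt_inv S hz, y⁻¹, Lt_inv S hy, x⁻¹, Lt_inv S hx, ?_⟩, ?_⟩
  · rw [h]; group
  · rw [map_inv, h1, inv_one]

end XTEX

open XTEX

theorem I_TEX : StTEX := by
  intro G Q _ _ n S T₀ hfin hker hgen
  refine ⟨T₀ ∪ T₀⁻¹ ∪ W4 S, ?_, ?_, ?_, ?_, ?_⟩
  · exact (hfin.union hfin.inv).union (W4_finite S)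
  · rintro t ((ht | ht) | ht)
    · exact hker t ht
    · have := hker _ (Set.mem_inv.1 ht)
      rw [map_inv] at this
      exact inv_eq_one.1 this
    · exact ht.2
  · rintro t ((ht | ht) | ht)
    · exact Or.inl (Or.inr (Set.mem_inv.2 (by rwa [inv_inv])))
    · exact Or.inl (Or.inl (Set.mem_inv.1 ht))
    · exact Or.inr (W4_inv S ht)
  · intro x hx y hy z hz w hw h
    exact Or.inr ⟨⟨x, hx, y, hy, z, hz, w, hw, rfl⟩, h⟩
  · intro g hg
    have h := hgen g hg
    refine Subgroup.closure_mono ?_ h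
    rintro x ⟨f, hf, t, ht, rfl⟩
    exact ⟨f, hf, t, Or.inl (Or.inl ht), rfl⟩

end Pool.Agent.Work.MP_e9e200_al.HS

end

section

/-!
# Item UNIV: the universal local system
-/

set_option autoImplicit false

namespace Pool.Agent.Work.MP_e9e200_al.HS

open Loc

namespace XUNIV

variable {G : Type} [Group G] {χ : Additive G →+ ℝ} {X : Set G}

lemma Ok_first {g : G} {w : List G} (h : Ok χ X g w) : 0 ≤ χ (Additive.ofMul g) := by
  cases w with
  | nil => exact h
  | cons x w => exact h.1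

lemma height_mul (g x : G) :
    χ (Additive.ofMul (g * x)) = χ (Additive.ofMul g) + χ (Additive.ofMul x) := by
  rw [ofMul_mul, map_add]

lemma Ok_height {g g' : G} (h : χ (Additive.ofMul g) = χ (Additive.ofMul g')) {w : List G}
    (hw : Ok χ X g w) : Ok χ X g' w := by
  induction w generalizing g g' with
  | nil =>
    show 0 ≤ _
    rw [← h]
    exact hw
  | cons x w ih =>
    obtain ⟨h1, h2, h3⟩ := hw
    refine ⟨by rw [← h]; exact h1, h2, ih ?_ h3⟩
    rw [height_mul, height_mul, h]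

lemma Ok_mono {Y : Set G} (hXY : X ⊆ Y) {g : G} {w : List G} (hw : Ok χ X g w) :
    Ok χ Y g w := by
  induction w generalizing g with
  | nil => exact hw
  | cons x w ih => exact ⟨hw.1, hXY hw.2.1, ih hw.2.2⟩

lemma Ok_append {g : G} {u w : List G} (hu : Ok χ X g u) (hw : Ok χ X (g * u.prod) w) :
    Ok χ X g (u ++ w) := by
  induction u generalizing g with
  | nil =>
    rw [List.prod_nil, mul_one] at hw
    exact hw
  | cons x u ih =>
    refine ⟨hu.1, hu.2.1, ih hu.2.2 ?_⟩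
    rw [List.prod_cons, ← mul_assoc] at hw
    exact hw

lemma Ok_last {g : G} {w : List G} (hw : Ok χ X g w) :
    0 ≤ χ (Additive.ofMul (g * w.prod)) := by
  induction w generalizing g with
  | nil =>
    rw [List.prod_nil, mul_one]
    exact hw
  | cons x w ih =>
    rw [List.prod_cons, ← mul_assoc]
    exact ih hw.2.2

lemma Hpy_height {g : G} {w w' : List G} (h : Hpy χ X g w w') :
    ∀ g', χ (Additive.ofMul g) = χ (Additive.ofMul g') → Hpy χ X g' w w' := by
  induction h with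
  | refl g w => exact fun g' _ => Hpy.refl g' w
  | symm _ ih => exact fun g' h => (ih g' h).symm
  | trans _ _ ih1 ih2 => exact fun g' h => (ih1 g' h).trans (ih2 g' h)
  | cons x _ ih =>
    intro g' h
    exact Hpy.cons x (ih (g' * x) (by rw [height_mul, height_mul, h]))
  | one g w h1 => exact fun g' _ => Hpy.one g' w h1
  | tri g x y w hx hy hxy h1 h2 h3 =>
    intro g' h
    refine Hpy.tri g' x y w hx hy hxy (by rw [← h]; exact h1) ?_ ?_
    · rw [height_mul] at h2 ⊢
      rw [← h]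
      exact h2
    · rw [height_mul, height_mul] at h3 ⊢
      rw [← h]
      exact h3

lemma Hpy_append {g : G} {w w' : List G} (h : Hpy χ X g w w') (u : List G) :
    Hpy χ X g (w ++ u) (w' ++ u) := by
  induction h with
  | refl g w => exact Hpy.refl g _
  | symm _ ih => exact ih.symm
  | trans _ _ ih1 ih2 => exact ih1.trans ih2
  | cons x _ ih => exact Hpy.cons x ih
  | one g w h1 => exact Hpy.one g (w ++ u) h1
  | tri g x y w hx hy hxy h1 h2 h3 => exact Hpy.tri g x y (w ++ u) hx hy hxy h1 h2 h3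

lemma Hpy_prefix {g : G} (u : List G) {w w' : List G} (h : Hpy χ X (g * u.prod) w w') :
    Hpy χ X g (u ++ w) (u ++ w') := by
  induction u generalizing g with
  | nil =>
    rw [List.prod_nil, mul_one] at h
    exact h
  | cons x u ih =>
    rw [List.prod_cons, ← mul_assoc] at h
    exact Hpy.cons x (ih h)

/-- the reversed word -/
def rev (w : List G) : List G := (w.map (fun x => x⁻¹)).reverse

lemma rev_cons (x : G) (w : List G) : rev (x :: w) = rev w ++ [x⁻¹] := by
  simp [rev]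

lemma rev_rev (w : List G) : rev (rev w) = w := by
  simp [rev, List.map_reverse]

lemma prod_rev (w : List G) : (rev w).prod = w.prod⁻¹ := by
  rw [List.prod_inv_reverse]
  rfl

lemma Ok_rev (hX : ∀ x ∈ X, x⁻¹ ∈ X) {g : G} {w : List G} (hw : Ok χ X g w) :
    Ok χ X (g * w.prod) (rev w) := by
  induction w generalizing g with
  | nil =>
    rw [List.prod_nil, mul_one]
    exact hw
  | cons x w ih =>
    rw [rev_cons, List.prod_cons, ← mul_assoc]
    refine Ok_append (ih hw.2.2) ?_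
    rw [prod_rev, mul_inv_cancel_right]
    refine ⟨Ok_first hw.2.2, hX x hw.2.1, ?_⟩
    show 0 ≤ _
    rw [mul_inv_cancel_right]
    exact hw.1

lemma Hpy_rev (h1 : (1 : G) ∈ X) (hX : ∀ x ∈ X, x⁻¹ ∈ X) {g : G} {w : List G}
    (hw : Ok χ X g w) : Hpy χ X g (w ++ rev w) [] := by
  induction w generalizing g with
  | nil => exact Hpy.refl g _
  | cons x w ih =>
    have h2 := Hpy.cons x (Hpy_append (ih hw.2.2) [x⁻¹])
    rw [List.nil_append] at h2
    have h3 : (x :: w) ++ rev (x :: w) = x :: (w ++ rev w ++ [x⁻¹]) := by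
      rw [rev_cons]
      simp
    rw [h3]
    refine h2.trans ?_
    have h4 : Hpy χ X g (x :: x⁻¹ :: []) ((x * x⁻¹) :: []) := by
      refine Hpy.tri g x x⁻¹ [] hw.2.1 (hX x hw.2.1) (by rw [mul_inv_cancel]; exact h1) hw.1
        (Ok_first hw.2.2) ?_
      rw [mul_inv_cancel_right]
      exact hw.1
    refine h4.trans ?_
    rw [mul_inv_cancel]
    exact Hpy.one g [] h1

lemma Hpy_rev' (h1 : (1 : G) ∈ X) (hX : ∀ x ∈ X, x⁻¹ ∈ X) {g : G} {w : List G}
    (hw : Ok χ X g w) : Hpy χ X (g * w.prod) (rev w ++ w) [] := by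
  have h2 := Hpy_rev h1 hX (Ok_rev hX hw)
  rw [rev_rev] at h2
  exact h2

/-- words from `1` to a point of height `0` -/
def Null (χ : Additive G →+ ℝ) (X : Set G) (w : List G) : Prop :=
  Ok χ X 1 w ∧ χ (Additive.ofMul w.prod) = 0

lemma height_one : χ (Additive.ofMul (1 : G)) = 0 := by
  rw [ofMul_one, map_zero]

lemma Null_nil : Null χ X [] := ⟨by show 0 ≤ _; rw [height_one], height_one⟩

lemma Null_append {w w' : List G} (h : Null χ X w) (h' : Null χ X w') :
    Null χ X (w ++ w') := by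
  refine ⟨Ok_append h.1 (Ok_height ?_ h'.1), ?_⟩
  · rw [one_mul, h.2, height_one]
  · rw [List.prod_append, height_mul, h.2, h'.2, add_zero]

/-- homotopy of null words -/
def std (χ : Additive G →+ ℝ) (X : Set G) : Setoid {w : List G // Null χ X w} where
  r := fun w w' => Hpy χ X 1 w.1 w'.1
  iseqv := ⟨fun w => Hpy.refl 1 w.1, fun h => h.symm, fun h h' => h.trans h'⟩

/-- the group of null words -/
def HH (χ : Additive G →+ ℝ) (X : Set G) : Type := Quotient (std χ X)

/-- the class of a null word -/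
def mk (w : List G) (h : Null χ X w) : HH χ X := Quotient.mk (std χ X) ⟨w, h⟩

lemma mk_eq {w w' : List G} {h : Null χ X w} {h' : Null χ X w'} :
    mk w h = mk w' h' ↔ Hpy χ X 1 w w' := by
  constructor
  · intro h
    exact Quotient.exact h
  · intro h
    exact Quotient.sound h

lemma mul_wd {w₁ w₂ v₁ v₂ : List G} (h₂ : Null χ X w₂)
    (h : Hpy χ X 1 w₁ w₂) (h' : Hpy χ X 1 v₁ v₂) : Hpy χ X 1 (w₁ ++ v₁) (w₂ ++ v₂) := by
  refine (Hpy_append h v₁).trans (Hpy_prefix w₂ (Hpy_height h' _ ?_))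
  rw [one_mul, h₂.2, height_one]

instance : Mul (HH χ X) where
  mul := Quotient.map₂ (fun w w' => ⟨w.1 ++ w'.1, Null_append w.2 w'.2⟩)
    (fun _ w₂ h _ _ h' => mul_wd w₂.2 h h')

instance : One (HH χ X) where
  one := mk [] Null_nil

lemma mk_mul {w w' : List G} {h : Null χ X w} {h' : Null χ X w'} :
    mk w h * mk w' h' = mk (w ++ w') (Null_append h h') := rfl

lemma mk_one : mk [] Null_nil = (1 : HH χ X) := rfl

lemma exists_mk (a : HH χ X) : ∃ w h, a = mk w h := by
  obtain ⟨⟨w, h⟩, rfl⟩ := Quotient.exists_rep a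
  exact ⟨w, h, rfl⟩

lemma Null_rev (hX : ∀ x ∈ X, x⁻¹ ∈ X) {w : List G} (h : Null χ X w) : Null χ X (rev w) := by
  constructor
  · refine Ok_height ?_ (Ok_rev hX h.1)
    rw [one_mul, h.2, height_one]
  · rw [prod_rev, ofMul_inv, map_neg, h.2, neg_zero]

lemma exists_inv (h1 : (1 : G) ∈ X) (hX : ∀ x ∈ X, x⁻¹ ∈ X) (a : HH χ X) :
    ∃ b : HH χ X, b * a = 1 := by
  obtain ⟨w, h, rfl⟩ := exists_mk a
  refine ⟨mk (rev w) (Null_rev hX h), ?_⟩
  rw [mk_mul, ← mk_one, mk_eq]
  refine Hpy_height (Hpy_rev' h1 hX h.1) 1 ?_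
  rw [one_mul, h.2, height_one]

/-- the group structure -/
@[reducible] noncomputable def grp (h1 : (1 : G) ∈ X) (hX : ∀ x ∈ X, x⁻¹ ∈ X) :
    Group (HH χ X) :=
  letI : Inv (HH χ X) := ⟨fun a => Classical.choose (exists_inv h1 hX a)⟩
  Group.ofLeftAxioms
    (by
      intro a b c
      obtain ⟨u, hu, rfl⟩ := exists_mk a
      obtain ⟨v, hv, rfl⟩ := exists_mk b
      obtain ⟨w, hw, rfl⟩ := exists_mk c
      rw [mk_mul, mk_mul, mk_mul, mk_mul, mk_eq, List.append_assoc]
      exact Hpy.refl _ _)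
    (by
      intro a
      obtain ⟨u, hu, rfl⟩ := exists_mk a
      rw [← mk_one, mk_mul, mk_eq, List.nil_append]
      exact Hpy.refl _ _)
    (fun a => Classical.choose_spec (exists_inv h1 hX a))

open Classical in
/-- the class of a word (one if it is not a null word) -/
noncomputable def cls (χ : Additive G →+ ℝ) (X : Set G) (w : List G) : HH χ X :=
  if h : Null χ X w then mk w h else 1

lemma cls_eq {w : List G} (h : Null χ X w) : cls χ X w = mk w h := dif_pos h

section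

variable {Q : Type} [CommGroup Q] {n : ℕ} (S : Loc G Q n)

/-- the label of an edge -/
def lab (τ : Q → List G) (q : Q) (x : G) : List G := τ q ++ (x :: rev (τ (q * S.pr x)))

end

end XUNIV

open XUNIV in
theorem I_UNIV : StUNIV := by
  intro G Q _ _ n S χ hχ X₁ X₀ hX h1 hinv hcon hhol
  classical
  have hsec : ∀ q, χ (Additive.ofMul (S.sec q)) = S.v q := by
    intro q
    rw [hχ, S.pr_sec]
  have hτ : ∀ q : Q, ∃ w : List G, 0 ≤ S.v q → Ok χ X₁ 1 w ∧ w.prod = S.sec q := by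
    intro q
    by_cases hq : 0 ≤ S.v q
    · obtain ⟨w, hw, hw'⟩ := hcon 1 (S.sec q) (by rw [height_one]) (by rw [hsec]; exact hq)
      rw [one_mul] at hw'
      exact ⟨w, fun _ => ⟨hw, hw'⟩⟩
    · exact ⟨[], fun h => absurd h hq⟩
  choose τ hτ using hτ
  have hτ0 : ∀ q, 0 ≤ S.v q → Ok χ X₀ 1 (τ q) := fun q hq => Ok_mono hX (hτ q hq).1
  have hτr : ∀ q, 0 ≤ S.v q → ∀ g, χ (Additive.ofMul g) = S.v q → Ok χ X₀ g (rev (τ q)) := by
    intro q hq g hg
    refine Ok_height ?_ (Ok_rev hinv (hτ0 q hq))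
    rw [one_mul, (hτ q hq).2, hsec, hg]
  have hv : ∀ (q : Q) (g x : G), χ (Additive.ofMul g) = S.v q →
      χ (Additive.ofMul (g * x)) = S.v (q * S.pr x) := by
    intro q g x hg
    rw [height_mul, hg, hχ x]
    show inner ℝ S.nu (S.pos q) + inner ℝ S.nu (S.pos (S.pr x)) =
      inner ℝ S.nu (S.pos (q * S.pr x))
    rw [S.pos_mul, inner_add_right]
  -- words of the form `τ q ++ w ++ rev (τ q')`
  have hnull : ∀ (q q' : Q) (w : List G), 0 ≤ S.v q → 0 ≤ S.v q' → Ok χ X₀ (S.sec q) w →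
      χ (Additive.ofMul (S.sec q * w.prod)) = S.v q' →
      Null χ X₀ (τ q ++ (w ++ rev (τ q'))) := by
    intro q q' w hq hq' hw hh
    constructor
    · refine Ok_append (hτ0 q hq) (Ok_append ?_ ?_)
      · rw [one_mul, (hτ q hq).2]
        exact hw
      · rw [one_mul, (hτ q hq).2]
        exact hτr q' hq' _ hh
    · rw [List.prod_append, List.prod_append, prod_rev, (hτ q hq).2, (hτ q' hq').2,
        ← mul_assoc, height_mul, hh, ofMul_inv, map_neg, hsec]
      ring
  have hmid : ∀ (q' : Q) (g : G) (u : List G), 0 ≤ S.v q' → χ (Additive.ofMul g) = S.v q' →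
      Hpy χ X₀ g (rev (τ q') ++ (τ q' ++ u)) u := by
    intro q' g u hq' hg
    rw [← List.append_assoc]
    have h2 := Hpy_rev' h1 hinv (hτ0 q' hq')
    have h3 := Hpy_append (Hpy_height h2 g (by rw [one_mul, (hτ q' hq').2, hsec, hg])) u
    exact h3
  let _ : Group (HH χ X₀) := grp h1 hinv
  let c : Q → G → HH χ X₀ := fun q x => cls χ X₀ (lab S τ q x)
  have hlab : ∀ q x, x ∈ X₀ → 0 ≤ S.v q → 0 ≤ S.v (q * S.pr x) →
      Null χ X₀ (lab S τ q x) := by
    intro q x hx hq hq'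
    have := hnull q (q * S.pr x) [x] hq hq' ⟨by rw [hsec]; exact hq, hx, by
      show 0 ≤ _
      rw [hv q _ x (hsec q)]
      exact hq'⟩ (by
      rw [List.prod_singleton]
      exact hv q _ x (hsec q))
    exact this
  have hflat : S.Flat X₀ c := by
    intro q x y hx hy hxy hq hq1 hq2
    have hq2' : q * S.pr (x * y) = q * S.pr x * S.pr y := by
      rw [map_mul, mul_assoc]
    have hn1 := hlab q x hx hq hq1
    have hn2 := hlab (q * S.pr x) y hy hq1 hq2
    have hn3 := hlab q (x * y) hxy hq (by rw [hq2']; exact hq2)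
    show cls χ X₀ _ = cls χ X₀ _ * cls χ X₀ _
    rw [cls_eq hn1, cls_eq hn2, cls_eq hn3]
    refine Eq.trans ?_ (mk_mul (h := hn1) (h' := hn2)).symm
    rw [mk_eq]
    have e1 : lab S τ q x ++ lab S τ (q * S.pr x) y =
        τ q ++ (x :: (rev (τ (q * S.pr x)) ++ (τ (q * S.pr x) ++
          (y :: rev (τ (q * S.pr x * S.pr y)))))) := by
      simp [lab]
    have e2 : lab S τ q (x * y) = τ q ++ ((x * y) :: rev (τ (q * S.pr x * S.pr y))) := by
      rw [lab, hq2']
    rw [e1, e2]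
    refine Hpy.symm (Hpy_prefix (τ q) ?_)
    rw [one_mul, (hτ q hq).2]
    refine (Hpy.cons x (hmid (q * S.pr x) (S.sec q * x) _ hq1 (hv q _ x (hsec q)))).trans ?_
    refine Hpy.tri (S.sec q) x y _ hx hy hxy (by rw [hsec]; exact hq) ?_ ?_
    · rw [hv q _ x (hsec q)]
      exact hq1
    · rw [hv (q * S.pr x) _ y (hv q _ x (hsec q))]
      exact hq2
  have hpr : ∀ g : G, S.v (S.pr g) = χ (Additive.ofMul g) := fun g => (hχ g).symm
  have hword : ∀ (w : List G) (g : G), Ok χ X₁ g w →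
      ∃ h : Null χ X₀ (τ (S.pr g) ++ (w ++ rev (τ (S.pr (g * w.prod))))),
        S.hol c (S.pr g) w = mk _ h := by
    intro w
    induction w with
    | nil =>
      intro g hg
      have hg' : 0 ≤ S.v (S.pr g) := by
        rw [hpr]
        exact hg
      have hn := hnull (S.pr g) (S.pr (g * ([] : List G).prod)) [] hg'
        (by rw [List.prod_nil, mul_one]; exact hg')
        (by show 0 ≤ _; rw [hsec]; exact hg')
        (by rw [List.prod_nil, mul_one, mul_one, hsec])
      refine ⟨hn, ?_⟩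
      show (1 : HH χ X₀) = _
      refine Eq.trans (mk_one (χ := χ) (X := X₀)).symm ?_
      rw [mk_eq]
      refine Hpy.symm ?_
      rw [List.prod_nil, mul_one, List.nil_append]
      exact Hpy_rev h1 hinv (hτ0 _ hg')
    | cons x w ih =>
      intro g hg
      obtain ⟨hg1, hg2, hg3⟩ := hg
      have hg' : 0 ≤ S.v (S.pr g) := by
        rw [hpr]
        exact hg1
      have hgx : 0 ≤ S.v (S.pr (g * x)) := by
        rw [hpr]
        exact Ok_first hg3
      have hlast : 0 ≤ S.v (S.pr (g * x * w.prod)) := by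
        rw [hpr]
        exact Ok_last hg3
      have hmx : S.pr g * S.pr x = S.pr (g * x) := (map_mul _ _ _).symm
      obtain ⟨h2, h3⟩ := ih (g * x) hg3
      have hpe : g * (x :: w).prod = g * x * w.prod := by
        rw [List.prod_cons, mul_assoc]
      have hn : Null χ X₀ (τ (S.pr g) ++ ((x :: w) ++ rev (τ (S.pr (g * (x :: w).prod))))) := by
        refine hnull (S.pr g) _ (x :: w) hg' (by rw [hpe]; exact hlast) ?_ ?_
        · refine Ok_height (g := g) ?_ (Ok_mono hX ⟨hg1, hg2, hg3⟩)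
          rw [hsec, hpr]
        · rw [height_mul, hsec, hpr, ← height_mul, hpr]
      refine ⟨hn, ?_⟩
      show c (S.pr g) x * S.hol c (S.pr g * S.pr x) w = _
      rw [hmx, h3]
      have hn1 := hlab (S.pr g) x (hX hg2) hg' (by rw [hmx]; exact hgx)
      show cls χ X₀ _ * _ = _
      rw [cls_eq hn1]
      refine Eq.trans (mk_mul (h := hn1) (h' := h2)) ?_
      rw [mk_eq]
      have e1 : lab S τ (S.pr g) x ++
          (τ (S.pr (g * x)) ++ (w ++ rev (τ (S.pr (g * x * w.prod))))) =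
          τ (S.pr g) ++ (x :: (rev (τ (S.pr (g * x))) ++ (τ (S.pr (g * x)) ++
            (w ++ rev (τ (S.pr (g * x * w.prod))))))) := by
        rw [lab, hmx]
        simp only [List.append_assoc, List.cons_append]
      rw [e1, hpe]
      refine Hpy_prefix (τ (S.pr g)) ?_
      rw [one_mul, (hτ _ hg').2]
      refine Hpy.cons x (hmid (S.pr (g * x)) (S.sec (S.pr g) * x) _ hgx ?_)
      rw [height_mul, hsec, hpr, ← height_mul, hpr]
  intro g w hw hw1
  have hg' : 0 ≤ S.v (S.pr g) := by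
    rw [hpr]
    exact Ok_first hw
  obtain ⟨h2, h3⟩ := hword w g hw
  have h4 := hhol (HH χ X₀) c hflat g w hw hw1
  rw [h4] at h3
  have h5 : Hpy χ X₀ 1 [] (τ (S.pr g) ++ (w ++ rev (τ (S.pr (g * w.prod))))) := by
    rw [← mk_eq (h := Null_nil) (h' := h2)]
    exact h3
  rw [hw1, mul_one] at h5
  -- `τ ++ w` is homotopic to `τ`
  have h6 := Hpy_append h5 (τ (S.pr g))
  rw [List.nil_append] at h6
  have e1 : τ (S.pr g) ++ (w ++ rev (τ (S.pr g))) ++ τ (S.pr g) =
      (τ (S.pr g) ++ w) ++ (rev (τ (S.pr g)) ++ (τ (S.pr g) ++ [])) := by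
    simp
  rw [e1] at h6
  have h7 : Hpy χ X₀ 1 ((τ (S.pr g) ++ w) ++ (rev (τ (S.pr g)) ++ (τ (S.pr g) ++ [])))
      ((τ (S.pr g) ++ w) ++ []) := by
    refine Hpy_prefix _ (hmid (S.pr g) _ [] hg' ?_)
    rw [one_mul, List.prod_append, hw1, mul_one, (hτ _ hg').2, hsec]
  rw [List.append_nil (τ (S.pr g) ++ w)] at h7
  have h8 : Hpy χ X₀ 1 (τ (S.pr g)) (τ (S.pr g) ++ w) := h6.trans h7
  have h9 : Hpy χ X₀ (S.sec (S.pr g)) (rev (τ (S.pr g)) ++ (τ (S.pr g) ++ []))
      (rev (τ (S.pr g)) ++ (τ (S.pr g) ++ w)) := by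
    rw [List.append_nil]
    refine Hpy_prefix _ (Hpy_height h8 _ ?_)
    rw [prod_rev, (hτ _ hg').2, mul_inv_cancel]
  have h10 := hmid (S.pr g) (S.sec (S.pr g)) [] hg' (hsec _)
  have h11 := hmid (S.pr g) (S.sec (S.pr g)) w hg' (hsec _)
  have h12 : Hpy χ X₀ (S.sec (S.pr g)) w [] := (h11.symm.trans h9.symm).trans h10
  exact Hpy_height h12 g (by rw [hsec, hpr])

end Pool.Agent.Work.MP_e9e200_al.HS

end
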