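import Pool.Agent.Work.MP_e9e200_al.Bd.B05
import Pool.Agent.Work.MP_e9e200_al.Bd.B20
import Pool.Agent.Work.MP_e9e200_al.Bd.B19
import Pool.Agent.Work.MP_e9e200_al.Bd.B13

/-! Bundle of small proof modules (one section per former module). -/

section

/-!
# Assembly of the project HS
-/

namespace Pool.Agent.Work.MP_e9e200_al.HS

theorem A_GENR : StGENR := I_GENR I_PB (I_PI I_PB) I_ST (I_HS I_ST) (I_THIN I_ST) I_COV

theorem A_MOVE : StMOVE :=
  I_MOVE I_PB (I_PI I_PB) I_ST (I_HS I_ST) (I_LOC I_ST) I_EXPR I_COV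

theorem A_STEP : StSTEP :=
  I_STEP I_PB I_ST (I_HS I_ST) A_GENR A_MOVE I_PAIR I_N (I_GL I_M1)

theorem A_LETT : StLETT :=
  I_LETT I_PB I_ST (I_HS I_ST) (I_LOC I_ST) I_EXPR A_STEP I_BASE

theorem A_HOL : StHOL := I_HOL (I_CYC I_KER) I_PB

/-- the theorem on `Σ²` -/
theorem A_S2 : StS2 := I_S2 I_NC I_TEX I_MFG I_LEX A_LETT A_HOL I_UNIV I_EXACT

theorem A_FP2 : StFP2 := I_FP2

end Pool.Agent.Work.MP_e9e200_al.HS

end

section

/-!
# Project O3, item CNX: connectivity of the half space of dimension `n + 3`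
-/

set_option autoImplicit false

namespace Pool.Agent.Work.MP_e9e200_al.O3

namespace XCNX

open Finsupp

/-- the value of the equivariant extension of a map on the basis -/
theorem ext_apply {G B B' : Type} [Group G] (u : B → (G × B' →₀ ℤ)) (x : G × B →₀ ℤ)
    (q : G × B') :
    (Pool.Agent.Work.MP_e9e200_al.LC.ext ℤ u x) q =
      ∑ p ∈ x.support, x p * u p.2 (p.1⁻¹ * q.1, q.2) := by
  classical
  have h1 : ∀ (g : G) (v : G × B' →₀ ℤ),
      (Pool.Agent.Work.MP_e9e200_al.LC.tr ℤ g v) q = v (g⁻¹ * q.1, q.2) := by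
    intro g v
    have hinj : Function.Injective (fun p : G × B' => (g * p.1, p.2)) := by
      rintro ⟨a, b⟩ ⟨a', b'⟩ h
      simpa using h
    have h2 : q = (fun p : G × B' => (g * p.1, p.2)) (g⁻¹ * q.1, q.2) := by
      simp
    unfold Pool.Agent.Work.MP_e9e200_al.LC.tr
    rw [Finsupp.lmapDomain_apply]
    conv_lhs => rw [h2]
    rw [Finsupp.mapDomain_apply hinj]
  unfold Pool.Agent.Work.MP_e9e200_al.LC.ext
  rw [Finsupp.linearCombination_apply, Finsupp.sum, Finsupp.finsetSum_apply]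
  refine Finset.sum_congr rfl fun p _ => ?_
  rw [Finsupp.smul_apply, h1, smul_eq_mul]

/-- the value of the equivariant extension on a sum of generators -/
theorem ext_sum {G B B' : Type} [Group G] (u : B → (G × B' →₀ ℤ)) (k : ℕ) (a : Fin k → G × B)
    (z : Fin k → ℤ) (q : G × B') :
    (Pool.Agent.Work.MP_e9e200_al.LC.ext ℤ u (∑ i, single (a i) (z i))) q =
      ∑ i, z i * u (a i).2 ((a i).1⁻¹ * q.1, q.2) := by
  classical
  rw [map_sum, Finsupp.finsetSum_apply]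
  refine Finset.sum_congr rfl fun i _ => ?_
  rw [ext_apply]
  by_cases hz : z i = 0
  · simp [hz]
  · rw [Finsupp.support_single _ hz, Finset.sum_singleton, Finsupp.single_eq_same]

/-- the algebraic part -/
theorem core {G B1 B2 B3 : Type} [Group G] (d1 : B2 → (G × B1 →₀ ℤ)) (d2 : B3 → (G × B2 →₀ ℤ))
    (S1 : Set (G × B1)) (S2 : Set (G × B2)) (S3 : Set (G × B3)) {C1 C2 C3 : Type}
    (e1 : C1 → G × B1) (e2 : C2 → G × B2) (e3 : C3 → G × B3)
    (inj : Function.Injective e2) (r1 : ∀ q ∈ S1, ∃ c, e1 c = q) (r3 : ∀ q ∈ S3, ∃ c, e3 c = q)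
    (m2 : ∀ c, e2 c ∈ S2)
    (hd : ∀ p ∈ S2, ∀ q, d1 p.2 (p.1⁻¹ * q.1, q.2) ≠ 0 → q ∈ S1)
    (i1 : C2 → C1 → ℤ) (i2 : C3 → C2 → ℤ)
    (h1 : ∀ a c, i1 a c = d1 (e2 a).2 ((e2 a).1⁻¹ * (e1 c).1, (e1 c).2))
    (h2 : ∀ a c, i2 a c = d2 (e3 a).2 ((e3 a).1⁻¹ * (e2 c).1, (e2 c).2))
    (ex : ∀ x ∈ Finsupp.supported ℤ ℤ S2, Pool.Agent.Work.MP_e9e200_al.LC.ext ℤ d1 x = 0 →
      ∃ y ∈ Finsupp.supported ℤ ℤ S3, Pool.Agent.Work.MP_e9e200_al.LC.ext ℤ d2 y = x)
    (k : ℕ) (a : Fin k → C2) (z : Fin k → ℤ) (ha : Function.Injective a)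
    (hz : ∀ c : C1, ∑ i, z i * i1 (a i) c = 0) :
    ∃ (l : ℕ) (b : Fin l → C3) (w : Fin l → ℤ), (∀ i, ∑ j, w j * i2 (b j) (a i) = z i) ∧
      ∀ c : C2, (∀ i, a i ≠ c) → ∑ j, w j * i2 (b j) c = 0 := by
  classical
  have hx : (∑ i, single (e2 (a i)) (z i)) ∈ Finsupp.supported ℤ ℤ S2 :=
    Submodule.sum_mem _ fun i _ => Finsupp.single_mem_supported ℤ _ (m2 _)
  have hx0 : Pool.Agent.Work.MP_e9e200_al.LC.ext ℤ d1 (∑ i, single (e2 (a i)) (z i)) = 0 := by
    ext q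
    rw [ext_sum, Finsupp.zero_apply]
    by_cases hq : q ∈ S1
    · obtain ⟨c, rfl⟩ := r1 q hq
      rw [← hz c]
      refine Finset.sum_congr rfl fun i _ => ?_
      rw [h1]
    · refine Finset.sum_eq_zero fun i _ => ?_
      have h3 : d1 (e2 (a i)).2 ((e2 (a i)).1⁻¹ * q.1, q.2) = 0 := by
        by_contra h
        exact hq (hd _ (m2 _) q h)
      rw [h3, mul_zero]
  obtain ⟨y, hy, hyx⟩ := ex _ hx hx0
  have hex : ∀ p : y.support, ∃ c, e3 c = p.1 := fun p =>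
    r3 _ ((Finsupp.mem_supported ℤ y).1 hy p.2)
  choose f hf using hex
  have key : ∀ c : C2, ∑ j, y (y.support.equivFin.symm j).1 *
      i2 (f (y.support.equivFin.symm j)) c = ∑ i, (single (e2 (a i)) (z i)) (e2 c) := by
    intro c
    have h4 : (Pool.Agent.Work.MP_e9e200_al.LC.ext ℤ d2 y) (e2 c) =
        ∑ i, (single (e2 (a i)) (z i)) (e2 c) := by
      rw [hyx, Finsupp.finsetSum_apply]
    rw [← h4, ext_apply, ← Finset.sum_coe_sort y.support]
    rw [← Equiv.sum_comp y.support.equivFin.symm fun p : y.support =>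
      y p.1 * d2 p.1.2 (p.1.1⁻¹ * (e2 c).1, (e2 c).2)]
    refine Finset.sum_congr rfl fun j _ => ?_
    rw [h2, hf]
  refine ⟨y.support.card, fun j => f (y.support.equivFin.symm j),
    fun j => y (y.support.equivFin.symm j).1, fun i => ?_, fun c hc => ?_⟩
  · rw [key, Finset.sum_eq_single i, Finsupp.single_eq_same]
    · intro i' _ hne
      rw [Finsupp.single_apply, if_neg]
      intro h
      exact hne (ha (inj h))
    · intro h
      exact absurd (Finset.mem_univ i) h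
  · rw [key]
    refine Finset.sum_eq_zero fun i _ => ?_
    rw [Finsupp.single_apply, if_neg]
    intro h
    exact hc i (inj h)

end XCNX

open Set Metric Topology OnePoint
open Pool.Agent.Work.MP_e9e200_al.O3A (Pt mk Atl Ph Sp pt st Lt oc Gd Pp ctr)

open Topology.RelCWComplex in
theorem I_CNX (hHCW : StHCW) (hSKH : StSKH) (hICN : StICN) (hQPB : StQPB) (hHUR : StHUR)
    (hAT2 : O3A.StT2) (hAPHB : O3A.StPHB) (hSK : StSK) : StCNX := by
  intro G _ Y χ hy n ψ hgd hpp hinc hext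
  have _ : T2Space (Sp ψ ((n + 4 : ℕ) : ℕ∞)) := hAT2 G Y.B ψ _ hgd
  obtain ⟨cw, e, he⟩ := hHCW G Y.B ψ ((n + 4 : ℕ) : ℕ∞) χ hgd
    (fun i b hi y hy' => hpp i (by exact_mod_cast hi) b y hy')
  obtain ⟨hsk, -⟩ := hSKH G Y.B ψ ((n + 4 : ℕ) : ℕ∞) χ hgd _ rfl cw e he
  obtain ⟨-, -, hic⟩ := hICN G Y.B ψ ((n + 4 : ℕ) : ℕ∞) χ hgd _ rfl cw e he
  obtain ⟨v, hv⟩ := ((hy.conn 1).1 le_rfl).1
  have hv' : 0 ≤ χ (Additive.ofMul v.1) := by
    have h1 : (0 : ℝ) ≤ χ (Additive.ofMul v.1) + 0 := hv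
    simpa using h1
  have lt : ∀ i : ℕ, i < n + 4 → ((i : ℕ) : ℕ∞) < ((n + 4 : ℕ) : ℕ∞) := fun i hi => by
    exact_mod_cast hi
  have hur := hHUR (Sp ψ ((n + 4 : ℕ) : ℕ∞)) (st ψ ((n + 4 : ℕ) : ℕ∞)
    (Pp χ ∩ Lt ((n + 4 : ℕ) : ℕ∞))) n ((e 0).symm ⟨v, lt 0 (by omega), hv'⟩)
  rw [hsk (n + 4) le_rfl] at hur
  refine hur ?_ ?_
  · intro j hj
    rw [hsk (j + 2) (by exact_mod_cast (by omega : j + 2 ≤ n + 4))]
    exact hext j (by omega)
  · refine XCNX.core (Y.d (n + 1)) (Y.d (n + 2)) {c | 0 ≤ χ (Additive.ofMul c.1)}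
      {c | 0 ≤ χ (Additive.ofMul c.1)} {c | 0 ≤ χ (Additive.ofMul c.1)}
      (fun c => (e (n + 1) c).1) (fun c => (e (n + 2) c).1) (fun c => (e (n + 3) c).1)
      ?_ ?_ ?_ ?_ ?_ (fun a c => inc (map (n + 2) a) (map (n + 1) c))
      (fun a c => inc (map (n + 3) a) (map (n + 2) c)) ?_ ?_ ?_
    · intro a b hab
      exact (e (n + 2)).injective (Subtype.ext hab)
    · intro q hq
      exact ⟨(e (n + 1)).symm ⟨q, lt _ (by omega), hq⟩, by simp⟩
    · intro q hq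
      exact ⟨(e (n + 3)).symm ⟨q, lt _ (by omega), hq⟩, by simp⟩
    · intro c
      exact (e (n + 2) c).2.2
    · intro p hp q hq
      have h1 := hy.hgt.d (n + 1) p.2 (p.1⁻¹ * q.1, q.2) (Finsupp.mem_support_iff.2 hq)
      have h2 : χ (Additive.ofMul (p.1⁻¹ * q.1)) =
          - χ (Additive.ofMul p.1) + χ (Additive.ofMul q.1) := by
        rw [ofMul_mul, map_add, ofMul_inv, map_neg]
      have h3 : 0 ≤ χ (Additive.ofMul p.1) := hp
      have h4 : (0 : ℝ) ≤ χ (Additive.ofMul (p.1⁻¹ * q.1)) + 0 := h1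
      show 0 ≤ χ (Additive.ofMul q.1)
      linarith
    · intro a c
      rw [hic (n + 1) a c, hinc (n + 1) (by omega)]
    · intro a c
      rw [hic (n + 2) a c, hinc (n + 2) (by omega)]
    · intro x hx hx0
      have h1 := (hy.conn (n + 3)).2.2 (n + 1) (by omega) x
      have e2 : {c : G × Y.B (n + 1 + 1) | Y.Ge χ (fun _ _ => 0) 0 (n + 1 + 1) c} =
          {c | 0 ≤ χ (Additive.ofMul c.1)} := by
        ext c
        simp [HT.Cel.Ge]
      have e3 : {c : G × Y.B (n + 1 + 2) | Y.Ge χ (fun _ _ => 0) 0 (n + 1 + 2) c} =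
          {c | 0 ≤ χ (Additive.ofMul c.1)} := by
        ext c
        simp [HT.Cel.Ge]
      rw [e2, e3] at h1
      exact h1 hx hx0

end Pool.Agent.Work.MP_e9e200_al.O3

end

section

/-!
# Project O3, item HCW
-/

set_option autoImplicit false

namespace Pool.Agent.Work.MP_e9e200_al.O3

open Set Metric Topology OnePoint Pool.Agent.Work.MP_e9e200_al.LC
open Pool.Agent.Work.MP_e9e200_al.O3A (Pt mk Atl Ph Sp pt st Lt oc Gd Pp ctr)
open Topology.RelCWComplex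

theorem I_HCW (hACWS : O3A.StCWS) (hASBC : O3A.StSBC) (hAT2 : O3A.StT2) : StHCW := by
  intro G _ B ψ N χ hgd hpp
  have := hAT2 G B ψ N hgd
  obtain ⟨inst, e, he⟩ := hACWS G B ψ N hgd (st ψ N (Lt N)) rfl
  obtain ⟨Y, hY, hI⟩ := hASBC G B ψ N χ hgd hpp (st ψ N (Lt N)) rfl inst e he
  rw [← hY]
  refine ⟨CWComplex.Subcomplex.instCWComplex Y, fun n => ?_, ?_⟩
  · exact
      { toFun := fun j => ⟨(e n j.1).1, (e n j.1).2, (hI n j.1).1 j.2⟩
        invFun := fun c => ⟨(e n).symm ⟨c.1, c.2.1⟩, by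
          rw [hI, Equiv.apply_symm_apply]
          exact c.2.2⟩
        left_inv := fun j => by
          apply Subtype.ext
          exact (e n).symm_apply_apply j.1
        right_inv := fun c => by
          apply Subtype.ext
          show ((e n) ((e n).symm _)).1 = c.1
          rw [Equiv.apply_symm_apply] }
  · intro n j y hy
    exact he n j.1 y hy

end Pool.Agent.Work.MP_e9e200_al.O3

end

section

/-!
# Project O3, item ICN: the incidence numbers of the half space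
-/

set_option autoImplicit false

namespace Pool.Agent.Work.MP_e9e200_al.O3

open Set Metric Topology OnePoint Pool.Agent.Work.MP_e9e200_al.LC
open Pool.Agent.Work.MP_e9e200_al.O3A (Pt mk Atl Ph Sp pt st Lt oc Gd Pp ctr)
open Topology.RelCWComplex

namespace XICN

theorem comb_neg {k n : ℕ} (w : W k n) : comb w (-1) = ∞ := by
  cases w with
  | none => rfl
  | some p => exact if_neg (by norm_num)

/-- the suspension only depends on the values on the unit sphere -/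
theorem sus_congr {k n : ℕ} {f g : E (n + 1) → W k n}
    (h : ∀ y ∈ sphere (0 : E (n + 1)) 1, f y = g y) : Sus f = Sus g := by
  funext x
  unfold Sus
  by_cases hx : x = 0
  · have e : 2 * ‖x‖ - 1 = -1 := by rw [hx, norm_zero]; norm_num
    rw [e, comb_neg, comb_neg]
  · have h1 : ‖x‖⁻¹ • x ∈ sphere (0 : E (n + 1)) 1 := by
      rw [mem_sphere_zero_iff_norm, norm_smul, norm_inv, norm_norm,
        inv_mul_cancel₀ (norm_ne_zero_iff.2 hx)]
    rw [h _ h1]

end XICN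

theorem I_ICN (hAT2 : O3A.StT2) (hAPHB : O3A.StPHB) (hQPB : StQPB) (hSKH : StSKH) : StICN := by
  intro G _ B ψ N χ hGd H hH inst e he
  obtain ⟨hb, hs, -, -, -, -, -⟩ := hAPHB G B ψ
  have key : ∀ (i : ℕ) (c : cell H i) (p : Pt G B),
      qq (fun _ : Fin 1 => map i c) (pt ψ N p) = qp i (e i c).1 p := by
    intro i c p
    obtain ⟨q1, q2, -, -, -⟩ := hQPB G B i (e i c).1
    by_cases h : ∃ (y : E i) (hy : y ∈ ball (0 : E i) 1), p = mk i (e i c).1 y hy
    · obtain ⟨y, hy, rfl⟩ := h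
      have h1 : map i c y = pt ψ N (mk i (e i c).1 y hy) := by
        rw [he i c y (ball_subset_closedBall hy), hb i _ y hy]
      have h2 : y ∈ (map i c).source := by rw [source_eq]; exact hy
      have h3 : map i c y ∈ (map i c).target := (map i c).map_source h2
      rw [q1 y hy, ← h1, XQQ.qq_mem (fun _ : Fin 1 => map i c)
        (fun a b hab => absurd (Subsingleton.elim a b) hab) 0 _ h3, (map i c).left_inv h2]
    · rw [q2 p fun y hy hp => h ⟨y, hy, hp⟩]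
      refine XQQ.qq_not_mem _ _ fun _ hx => ?_
      rw [XQQ.target_eq] at hx
      obtain ⟨y, hy, hp⟩ := hx
      refine h ⟨y, hy, ?_⟩
      rw [he i c y (ball_subset_closedBall hy), hb i _ y hy] at hp
      exact hp.symm
  refine ⟨key, ?_, ?_⟩
  · intro i f c
    show deg (0 : Fin 1) (Sus fun x => qq (fun _ : Fin 1 => map i c) (pt ψ N (f x))) =
      deg (0 : Fin 1) (Sus fun y => qp i (e i c).1 (f y))
    have h1 : (fun x => qq (fun _ : Fin 1 => map i c) (pt ψ N (f x))) =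
      fun y => qp i (e i c).1 (f y) := funext fun x => key i c (f x)
    rw [h1]
  · intro i a c
    obtain ⟨-, -, -, q4, -⟩ := hQPB G B i
      (((e (i + 1) a).1.1)⁻¹ * (e i c).1.1, (e i c).1.2)
    have h1 := q4 (e (i + 1) a).1.1 (ψ (i + 1) (e (i + 1) a).1.2)
    have h2 : ((e (i + 1) a).1.1 * (((e (i + 1) a).1.1)⁻¹ * (e i c).1.1), (e i c).1.2) =
        (e i c).1 := by rw [mul_inv_cancel_left]
    have h3 : ((e (i + 1) a).1.1 * ((((e (i + 1) a).1.1)⁻¹ * (e i c).1.1, (e i c).1.2) :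
      G × B i).1, ((((e (i + 1) a).1.1)⁻¹ * (e i c).1.1, (e i c).1.2) : G × B i).2) =
        (e i c).1 := h2
    rw [h3] at h1
    rw [← h1]
    show deg (0 : Fin 1) (Sus fun x => qq (fun _ : Fin 1 => map i c) (map (i + 1) a x)) =
      deg (0 : Fin 1) (Sus fun y => qp i (e i c).1 ((e (i + 1) a).1.1 •
        ψ (i + 1) (e (i + 1) a).1.2 y))
    congr 1
    refine XICN.sus_congr fun y hy => ?_
    rw [he (i + 1) a y (sphere_subset_closedBall hy), hs (i + 1) _ y hy]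
    exact key i c _

end Pool.Agent.Work.MP_e9e200_al.O3

end

section

/-!
# Project O3, item QPB: elementary facts on the collapse
-/

set_option autoImplicit false

namespace Pool.Agent.Work.MP_e9e200_al.O3

open Set Metric Topology OnePoint
open Pool.Agent.Work.MP_e9e200_al.O3A (Pt mk Atl Ph Sp pt st Lt oc Gd Pp ctr)

namespace XQPB

theorem mk_inj {G : Type} {B : ℕ → Type} (n : ℕ) (c c' : G × B n) (y y' : E n)
    (h : y ∈ ball (0 : E n) 1) (h' : y' ∈ ball (0 : E n) 1)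
    (H : (mk n c y h : Pt G B) = mk n c' y' h') : c = c' ∧ y = y' := by
  have H1 : (⟨n, (c, ⟨y, h⟩)⟩ : Σ n : ℕ, (G × B n) × ball (0 : E n) 1) =
    ⟨n, (c', ⟨y', h'⟩)⟩ := H
  rw [Sigma.mk.injEq] at H1
  have H2 := eq_of_heq H1.2
  rw [Prod.mk.injEq] at H2
  exact ⟨H2.1, congrArg Subtype.val H2.2⟩

theorem qp_mk {G : Type} {B : ℕ → Type} (i : ℕ) (c : G × B i) (y : E i)
    (hy : y ∈ ball (0 : E i) 1) : qp i c (mk i c y hy) = ((0, psi y) : Fin 1 × E i) := by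
  have h : ∃ y' : E i, ∃ hy' : y' ∈ ball (0 : E i) 1, (mk i c y hy : Pt G B) = mk i c y' hy' :=
    ⟨y, hy, rfl⟩
  unfold qp
  rw [dif_pos h]
  have h2 := h.choose_spec.choose_spec
  rw [← (mk_inj i c c y _ hy _ h2).2]

theorem qp_out {G : Type} {B : ℕ → Type} (i : ℕ) (c : G × B i) (p : Pt G B)
    (h : ∀ (y : E i) (hy : y ∈ ball (0 : E i) 1), p ≠ mk i c y hy) : qp i c p = ∞ := by
  unfold qp
  rw [dif_neg]
  rintro ⟨y, hy, e⟩
  exact h y hy e

theorem smul_mk {G : Type} [Group G] {B : ℕ → Type} (g : G) (n : ℕ) (c : G × B n) (y : E n)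
    (h : y ∈ ball (0 : E n) 1) : g • (mk n c y h : Pt G B) = mk n (g * c.1, c.2) y h := rfl

theorem qp_smul {G : Type} [Group G] {B : ℕ → Type} (i : ℕ) (c : G × B i) (g : G) (p : Pt G B) :
    qp i (g * c.1, c.2) (g • p) = qp i c p := by
  by_cases h : ∃ y : E i, ∃ hy : y ∈ ball (0 : E i) 1, p = mk i c y hy
  · obtain ⟨y, hy, rfl⟩ := h
    rw [smul_mk, qp_mk, qp_mk]
  · rw [qp_out i c p fun y hy e => h ⟨y, hy, e⟩, qp_out]
    intro y hy e
    refine h ⟨y, hy, ?_⟩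
    have e2 := congrArg (fun q => g⁻¹ • q) e
    change g⁻¹ • g • p = g⁻¹ • (mk i (g * c.1, c.2) y hy : Pt G B) at e2
    rw [inv_smul_smul, smul_mk] at e2
    simpa using e2

theorem comb_infty {k n : ℕ} (τ : ℝ) : comb (∞ : W k n) τ = ∞ := rfl

theorem comb_far {k n : ℕ} (w : W k n) {τ : ℝ} (h : 1 ≤ |τ|) : comb w τ = ∞ := by
  induction w using OnePoint.rec with
  | infty => rfl
  | coe p =>
    change (if |τ| < 1 then (((p.1, Fin.cons (τ / (1 - |τ|)) p.2) : Fin k × E (n + 1)) :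
      W k (n + 1)) else ∞) = ∞
    rw [if_neg (not_lt.2 h)]

end XQPB

open XQPB in
theorem I_QPB (hAPHB : O3A.StPHB) (hDPR : StDPR) : StQPB := by
  intro G _ B i c
  refine ⟨qp_mk i c, qp_out i c, qp_smul i c, ?_, ?_⟩
  · intro g f
    unfold icn
    congr 2
    funext y
    exact qp_smul i c g (f y)
  · intro f hf
    unfold icn
    refine (hDPR 1 (i + 1) 0).2.2.1 _ ?_
    intro x b' y hx
    exfalso
    have key : Sus (fun y => qp i c (f y)) x = (∞ : W 1 (i + 1)) := by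
      unfold Sus
      by_cases h0 : x = 0
      · refine comb_far _ ?_
        rw [h0, norm_zero]
        norm_num
      · have : ‖x‖⁻¹ • x ∈ sphere (0 : E (i + 1)) 1 := by
          rw [mem_sphere_zero_iff_norm, norm_smul, norm_inv, norm_norm,
            inv_mul_cancel₀ (norm_ne_zero_iff.2 h0)]
        have e : qp i c (f (‖x‖⁻¹ • x)) = ∞ :=
          qp_out i c _ fun y hy e => hf _ this ⟨y, hy, e⟩
        change comb (qp i c (f (‖x‖⁻¹ • x))) _ = _
        rw [e]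
        rfl
    rw [key] at hx
    exact OnePoint.infty_ne_coe _ hx

end Pool.Agent.Work.MP_e9e200_al.O3

end

section

/-!
# Project O3, item RZN: the realization theorem
-/

set_option autoImplicit false

namespace Pool.Agent.Work.MP_e9e200_al.O3

open Set Metric Topology OnePoint Pool.Agent.Work.MP_e9e200_al.LC
open Pool.Agent.Work.MP_e9e200_al.O3A (Pt mk Atl Ph Sp pt st Lt oc Gd Pp ctr)

namespace XRZN

theorem Qr_congr (hACNG : O3A.StCNG) {G : Type} [Group G] (Y : HT.Cel G) (χ : Additive G →+ ℝ)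
    (n : ℕ) (ψ ψ' : Atl G Y.B) (h : ∀ i < n, ψ i = ψ' i) (hQ : Qr Y χ n ψ) : Qr Y χ n ψ' := by
  have hc := hACNG G Y.B ψ ψ' (n : ℕ∞) (fun k hk => h k (by exact_mod_cast hk))
  refine ⟨hc.2.2.1.1 hQ.gd, ?_, ?_, ?_⟩
  · intro i hi b y hy
    rw [← h i hi]
    exact hQ.pp i hi b y hy
  · intro i hi b c
    rw [← h (i + 1) hi]
    exact hQ.inc i hi b c
  · intro j hj
    exact (hc.2.2.2 _ j).1 (hQ.ext j hj)

theorem Gd_mono {G : Type} [Group G] {B : ℕ → Type} (ψ : Atl G B) (M N : ℕ∞) (h : M ≤ N)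
    (hG : Gd ψ N) : Gd ψ M := fun n hn b => hG n (lt_of_lt_of_le hn h) b

end XRZN

open XRZN Topology.RelCWComplex in
theorem I_RZN (hLOW : StLOW) (hSTEP : StSTEP) (hHCW : StHCW) (hSKH : StSKH) (hESK : StESK)
    (hAREC : O3A.StREC) (hACNG : O3A.StCNG) (hASTP : O3A.StSTP) (_hASKM : O3A.StSKM)
    (hAT2 : O3A.StT2) (hALIM : O3A.StLIM) (hALIT : O3A.StLIT) : StRZN := by
  intro G _ Y χ hY m hfin
  obtain ⟨ψ0, h0⟩ := hLOW G Y χ hY
  obtain ⟨ψ, hψ⟩ := hAREC G Y.B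
    (fun n ψ => (n ≤ 3 → ∀ i < n, ψ i = ψ0 i) ∧ (3 ≤ n → Qr Y χ n ψ)) ψ0
    (by
      intro n ψ ψ' h hQ
      refine ⟨fun hn i hi => ?_, fun hn => Qr_congr hACNG Y χ n ψ ψ' h (hQ.2 hn)⟩
      rw [← h i hi]
      exact hQ.1 hn i hi)
    ⟨fun _ i hi => absurd hi (Nat.not_lt_zero i), fun h => absurd h (by norm_num)⟩
    (by
      intro n ψ hQ
      rcases Nat.lt_or_ge n 3 with hn | hn
      · refine ⟨ψ0, fun i hi => (hQ.1 hn.le i hi).symm, fun _ _ _ => rfl, fun h3 => ?_⟩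
        have : n + 1 = 3 := by omega
        rw [this]
        exact h0
      · obtain ⟨k, rfl⟩ := Nat.exists_eq_add_of_le hn
        have hQ2 : Qr Y χ (k + 3) ψ := by
          have := hQ.2 hn
          rwa [Nat.add_comm 3 k] at this
        obtain ⟨ψ', h1, h2⟩ := hSTEP G Y χ hY k ψ hQ2
        refine ⟨ψ', fun i hi => h1 i (by omega), fun h => absurd h (by omega), fun _ => ?_⟩
        have : 3 + k + 1 = k + 4 := by omega
        rw [this]
        exact h2)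
  have hQ : ∀ n, 3 ≤ n → Qr Y χ n ψ := fun n hn => (hψ n).2 hn
  have hgd : ∀ n : ℕ, Gd ψ (n : ℕ∞) := by
    intro n
    refine Gd_mono ψ _ ((n + 3 : ℕ) : ℕ∞) ?_ (hQ (n + 3) (by omega)).gd
    exact_mod_cast Nat.le_add_right n 3
  have hgdt : Gd ψ ⊤ := (hASTP G Y.B ψ 0).2 hgd
  have hpp : ∀ (n : ℕ) (b : Y.B n), ∀ y ∈ sphere (0 : E n) 1, ψ n b y ∈ Pp χ := by
    intro n b y hy
    exact (hQ (n + 3) (by omega)).pp n (by omega) b y hy
  refine hALIT G Y.B χ hY.ne m hfin ψ hgdt hpp ?_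
  intro k
  refine ⟨?_, fun j _ => ?_⟩
  · obtain ⟨v, hv⟩ := ((hY.conn 1).1 le_rfl).1
    refine ⟨ctr 0 v, ?_⟩
    have hv' : (0 : ℝ) ≤ χ (Additive.ofMul v.1) + 0 := hv
    rw [add_zero] at hv'
    exact hv'
  · refine hALIM G Y.B ψ hgdt (Pp χ) j ?_
    intro M₀
    refine ⟨max M₀ (j + 3), le_max_left _ _, ?_⟩
    generalize hM : max M₀ (j + 3) = M
    have hM3 : j + 3 ≤ M := hM ▸ le_max_right _ _
    obtain ⟨inst, e, he⟩ := hHCW G Y.B ψ (M : ℕ∞) χ (hgd M) (fun n b _ y hy => hpp n b y hy)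
    have hs := (hSKH G Y.B ψ (M : ℕ∞) χ (hgd M) (st ψ M (Pp χ ∩ Lt (M : ℕ∞))) rfl inst e he).1
      (j + 2) (by exact_mod_cast (by omega : j + 2 ≤ M))
    have t2 : T2Space (Sp ψ (M : ℕ∞)) := hAT2 G Y.B ψ (M : ℕ∞) (hgd M)
    have hE := hESK (Sp ψ (M : ℕ∞)) (st ψ M (Pp χ ∩ Lt (M : ℕ∞))) j (j + 2) le_rfl
    refine hE.1 ?_
    rw [hs]
    exact (hQ M (by omega)).ext j (by omega)

end Pool.Agent.Work.MP_e9e200_al.O3

end

section

/-!
# Project O3, item SKH: the skeleta of the half space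
-/

set_option autoImplicit false

namespace Pool.Agent.Work.MP_e9e200_al.O3

open Set Metric Topology OnePoint Pool.Agent.Work.MP_e9e200_al.LC
open Pool.Agent.Work.MP_e9e200_al.O3A (Pt mk Atl Ph Sp pt st Lt oc Gd Pp ctr)
open Topology.RelCWComplex

theorem I_SKH (hAT2 : O3A.StT2) (hAPHB : O3A.StPHB) (hSK : StSK) : StSKH := by
  intro G _ B ψ N χ hGd H hH inst e he
  have _ : T2Space (Sp ψ N) := hAT2 G B ψ N hGd
  obtain ⟨hb, -, -, -, -, hex, hmk⟩ := hAPHB G B ψ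
  have hopen : ∀ (n : ℕ) (j : cell H n), openCell n j = st ψ N (oc n (e n j).1) := by
    intro n j
    ext p
    constructor
    · rintro ⟨y, hy, rfl⟩
      have h1 := he n j y (ball_subset_closedBall hy)
      rw [h1, hb n _ y hy]
      exact ⟨y, hy, rfl⟩
    · rintro ⟨y, hy, hp⟩
      refine ⟨y, hy, ?_⟩
      have h1 := he n j y (ball_subset_closedBall hy)
      rw [h1, hb n _ y hy]
      exact hp.symm
  refine ⟨fun M hM => ?_, hopen⟩
  rw [(hSK (Sp ψ N) H).2.1 M]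
  ext p
  simp only [mem_iUnion, exists_prop]
  constructor
  · rintro ⟨m, hm, j, hj⟩
    rw [hopen m j] at hj
    obtain ⟨y, hy, hp⟩ := hj
    have h1 := hmk m (e m j).1 y hy
    rw [← hp] at h1
    refine ⟨?_, ?_⟩
    · change 0 ≤ χ (Additive.ofMul (Pt.gr p))
      have h2 : Pt.gr p = (e m j).1.1 := h1.2
      rw [h2]
      exact (e m j).2.2
    · change ((Pt.dim p : ℕ) : ℕ∞) < (M : ℕ∞)
      have h2 : Pt.dim p = m := h1.1
      rw [h2]
      exact_mod_cast hm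
  · rintro ⟨hp1, hp2⟩
    obtain ⟨n, c, y, hy, hp⟩ := hex p
    have h1 := hmk n c y hy
    rw [← hp] at h1
    have h2 : 0 ≤ χ (Additive.ofMul c.1) := by
      have h3 : 0 ≤ χ (Additive.ofMul (Pt.gr p)) := hp1
      have h4 : Pt.gr p = c.1 := h1.2
      rwa [h4] at h3
    have h5 : ((n : ℕ) : ℕ∞) < (M : ℕ∞) := by
      have h3 : ((Pt.dim p : ℕ) : ℕ∞) < (M : ℕ∞) := hp2
      have h4 : Pt.dim p = n := h1.1
      rwa [h4] at h3
    refine ⟨n, by exact_mod_cast h5, (e n).symm ⟨c, lt_of_lt_of_le h5 hM, h2⟩, ?_⟩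
    rw [hopen n, Equiv.apply_symm_apply]
    exact ⟨y, hy, hp⟩

end Pool.Agent.Work.MP_e9e200_al.O3

end

section

set_option autoImplicit false

namespace Pool.Agent.Work.MP_e9e200_al.O3

open Set Metric Topology OnePoint Pool.Agent.Work.MP_e9e200_al.LC
open Pool.Agent.Work.MP_e9e200_al.O3A (Pt mk Atl Ph Sp pt st Lt oc Gd Pp ctr)

theorem I_STEP (hATC : StATC) (hCNX : StCNX) (hASTP : O3A.StSTP) (hACNG : O3A.StCNG)
    (hASKM : O3A.StSKM) : StSTEP := by
  classical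
  intro G _ Y χ hY n ψ hQ
  choose f hf1 hf2 hf3 using hATC G Y χ hY n ψ hQ
  let ψ' : Atl G Y.B := Function.update ψ (n + 3) f
  have hold : ∀ i, i < n + 3 → ψ' i = ψ i := fun i hi =>
    Function.update_of_ne (by omega) _ _
  have hnew : ψ' (n + 3) = f := Function.update_self _ _ _
  obtain ⟨-, c2, c3, c4⟩ := hACNG G Y.B ψ ψ' ((n + 3 : ℕ) : ℕ∞) (fun m hm =>
    (hold m (by exact_mod_cast hm)).symm)
  have gd : Gd ψ' ((n + 4 : ℕ) : ℕ∞) := by
    refine (hASTP G Y.B ψ' (n + 3)).1.2 ⟨c3.1 hQ.gd, fun b => ⟨fun y hy => ?_, ?_⟩⟩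
    · rw [hnew]
      exact (hf1 b y hy).2
    · rw [hnew]
      exact (c2 _ (f b) (sphere 0 1)).1 (hf2 b)
  have pp : ∀ i < n + 4, ∀ b : Y.B i, ∀ y ∈ sphere (0 : E i) 1, ψ' i b y ∈ Pp χ := by
    intro i hi b y hy
    rcases Nat.lt_succ_iff_lt_or_eq.1 hi with h | h
    · rw [hold i h]
      exact hQ.pp i h b y hy
    · subst h
      rw [hnew]
      exact (hf1 b y hy).1
  have inc : ∀ i, i + 1 < n + 4 → ∀ (b : Y.B (i + 1)) (c : G × Y.B i),
      icn i (ψ' (i + 1) b) c = Y.d i b c := by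
    intro i hi b c
    rcases Nat.lt_succ_iff_lt_or_eq.1 hi with h | h
    · rw [hold (i + 1) h]
      exact hQ.inc i h b c
    · obtain rfl : i = n + 2 := by omega
      rw [hnew]
      exact hf3 b c
  have ext0 : ∀ j, j + 2 ≤ n + 3 →
      Ext (st ψ' ((n + 4 : ℕ) : ℕ∞) (Pp χ ∩ Lt ((j + 2 : ℕ) : ℕ∞))) j := by
    intro j hj
    have h1 := (c4 _ j).1 (hQ.ext j hj)
    refine ((hASKM G Y.B ψ' ((n + 4 : ℕ) : ℕ∞) ((n + 3 : ℕ) : ℕ∞) gd
      (by exact_mod_cast Nat.le_succ (n + 3))).2.2.2 _ j ?_).2 h1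
    intro p hp
    have h2 : (p.dim : ℕ∞) < ((j + 2 : ℕ) : ℕ∞) := hp.2
    show (p.dim : ℕ∞) < ((n + 3 : ℕ) : ℕ∞)
    exact lt_of_lt_of_le h2 (by exact_mod_cast hj)
  refine ⟨ψ', hold, gd, pp, inc, ?_⟩
  intro j hj
  rcases Nat.le_succ_iff.1 hj with h | h
  · exact ext0 j h
  · obtain rfl : j = n + 2 := by omega
    exact hCNX G Y χ hY n ψ' gd pp inc ext0

end Pool.Agent.Work.MP_e9e200_al.O3

end
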