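import Pool.Agent.Work.MP_e9e200_al.Bd.B25

/-! Bundle of small proof modules (one section per former module). -/

section

/-!
# Project O3L, item APP
-/

set_option autoImplicit false

namespace Pool.Agent.Work.MP_e9e200_al.O3L

open Set Metric Topology Pool.Agent.Work.MP_e9e200_al.O3A

namespace APP

variable {G : Type} [Group G] (Y : HT.Cel G)

theorem mem_vx {χ : Additive G →+ ℝ} {N : ℕ∞} (hN : 1 < N) {v : G × Y.B 0}
    (h : 0 ≤ χ (Additive.ofMul v.1)) : vx Y v ∈ Pp (G := G) (B := Y.B) χ ∩ Lt N := by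
  refine ⟨h, ?_⟩
  change ((0 : ℕ) : ℕ∞) < N
  exact lt_trans (by exact_mod_cast (zero_lt_one : (0 : ℕ) < 1)) hN

theorem oc_sub {χ : Additive G →+ ℝ} {N : ℕ∞} (hN : 1 < N) {c : G × Y.B 1} (h : HE Y χ c) :
    oc 1 c ⊆ Pp (G := G) (B := Y.B) χ ∩ Lt N := by
  rintro q ⟨y, hy, rfl⟩
  refine ⟨h, ?_⟩
  change ((1 : ℕ) : ℕ∞) < N
  exact_mod_cast hN

theorem st_nonneg {χ : Additive G →+ ℝ} (hH : Y.Hgt χ (fun _ _ => 0))
    (e : (G × Y.B 1) × Bool) (he : HE Y χ e.1) : 0 ≤ χ (Additive.ofMul (Y.st e).1) := by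
  have he' : 0 ≤ χ (Additive.ofMul e.1.1) := he
  unfold HT.Cel.st
  split_ifs
  · have h1 := hH.src e.1.2
    change 0 ≤ χ (Additive.ofMul (e.1.1 * (Y.src e.1.2).1))
    rw [ofMul_mul, map_add]
    linarith
  · have h1 := hH.tgt e.1.2
    change 0 ≤ χ (Additive.ofMul (e.1.1 * (Y.tgt e.1.2).1))
    rw [ofMul_mul, map_add]
    linarith

theorem en_nonneg {χ : Additive G →+ ℝ} (hH : Y.Hgt χ (fun _ _ => 0))
    (e : (G × Y.B 1) × Bool) (he : HE Y χ e.1) : 0 ≤ χ (Additive.ofMul (Y.en e).1) :=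
  st_nonneg Y hH (e.1, !e.2) he

theorem path_append (P : G × Y.B 1 → Prop) (p q : List ((G × Y.B 1) × Bool))
    (u v w : G × Y.B 0) (h1 : Y.IsPath P u p v) (h2 : Y.IsPath P v q w) :
    Y.IsPath P u (p ++ q) w := by
  induction p generalizing u with
  | nil =>
    have h' : u = v := h1
    subst h'
    exact h2
  | cons e p ih =>
    obtain ⟨a, b, c⟩ := h1
    exact ⟨a, b, ih (Y.en e) c⟩

variable {Y}
variable {ψ : Atl G Y.B} {χ : Additive G →+ ℝ} {N : ℕ∞}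

theorem edge_ex (hEDP : StEDP) (hN : 1 < N) (hH : Y.Hgt χ (fun _ _ => 0)) (hL : Lo1 Y ψ)
    (e : (G × Y.B 1) × Bool) (he : HE Y χ e.1) (x y : Hs Y ψ χ N)
    (hx : x.1 = pt ψ N (vx Y (Y.st e))) (hy : y.1 = pt ψ N (vx Y (Y.en e))) :
    ∃ γ : Path x y, ∀ t : unitInterval, (γ t).1 = pt ψ N (ed Y e (2 * (t : ℝ) - 1)) := by
  obtain ⟨-, h2, h3, -, h5, h6, -⟩ := hEDP G Y ψ hL
  have hmem : ∀ s : ℝ, ed Y e s ∈ Pp (G := G) (B := Y.B) χ ∩ Lt N := fun s =>
    h6 _ e s (mem_vx Y hN (st_nonneg Y hH e he)) (mem_vx Y hN (en_nonneg Y hH e he))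
      (oc_sub Y hN he)
  have hc : Continuous (fun t : unitInterval => pt ψ N (ed Y e (2 * (t : ℝ) - 1))) := by
    have h := h5 N hN e
    exact h.comp (by fun_prop)
  refine ⟨⟨⟨fun t => ⟨pt ψ N (ed Y e (2 * (t : ℝ) - 1)), hmem _⟩, ?_⟩, ?_, ?_⟩, fun t => rfl⟩
  · exact hc.subtype_mk _
  · apply Subtype.ext
    change pt ψ N (ed Y e (2 * ((0 : unitInterval) : ℝ) - 1)) = x.1
    rw [hx, h2 e _ (by simp)]
  · apply Subtype.ext
    change pt ψ N (ed Y e (2 * ((1 : unitInterval) : ℝ) - 1)) = y.1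
    rw [hy, h3 e _ (by norm_num)]

theorem cons_eq {x m y : Hs Y ψ χ N} (e : (G × Y.B 1) × Bool) (v : G × Y.B 0)
    (p : List ((G × Y.B 1) × Bool)) (γ : Path x y) (γ₁ : Path x m) (γ₂ : Path m y)
    (h1 : ∀ t : unitInterval, (γ₁ t).1 = pt ψ N (ed Y e (2 * (t : ℝ) - 1)))
    (h2 : Rel Y γ₂ (Y.en e) p) (h : Rel Y γ v (e :: p)) : γ = γ₁.trans γ₂ := by
  ext t
  apply congrArg
  apply Subtype.ext
  rw [h t, Path.trans_apply]
  change pt ψ N (if 2 * (t : ℝ) - 1 ≤ 0 then _ else _) = _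
  by_cases ht : (t : ℝ) ≤ 1 / 2
  · rw [if_pos (by linarith), dif_pos ht, h1]
    congr 2
    change 2 * (2 * (t : ℝ) - 1) + 1 = 2 * (2 * (t : ℝ)) - 1
    ring
  · rw [if_neg (by push Not at ht ⊢; linarith), dif_neg ht, h2]

theorem ends (hLOP : StLOP) (hL : Lo1 Y ψ) {x y : Hs Y ψ χ N} (γ : Path x y)
    (v w : G × Y.B 0) (p : List ((G × Y.B 1) × Bool)) (hp : Y.IsPath (HE Y χ) v p w)
    (h : Rel Y γ v p) : x.1 = pt ψ N (vx Y v) ∧ y.1 = pt ψ N (vx Y w) := by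
  obtain ⟨l1, l2, -⟩ := hLOP G Y ψ hL (HE Y χ) v w p hp
  constructor
  · have h0 := h 0
    rw [γ.source, l1 _ (by simp)] at h0
    exact h0
  · have h0 := h 1
    rw [γ.target, l2 _ (by norm_num)] at h0
    exact h0

theorem rel_unique {x y : Hs Y ψ χ N} (γ γ' : Path x y) (v : G × Y.B 0)
    (p : List ((G × Y.B 1) × Bool)) (h : Rel Y γ v p) (h' : Rel Y γ' v p) : γ = γ' := by
  ext t
  apply congrArg
  apply Subtype.ext
  rw [h t, h' t]

end APP

open APP in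
theorem I_APP (hEDP : StEDP) (hLOP : StLOP) (hRCE : StRCE) : StAPP := by
  intro G _ Y χ ψ hH hL N hN p q
  have rce := hRCE G Y χ ψ hH hL N hN
  induction p with
  | nil =>
    intro u v w x y z γ δ ε hp hq hγ hδ hε
    have huv : u = v := hp
    subst huv
    obtain ⟨hx, hy⟩ := ends hLOP hL γ u u [] rfl hγ
    have hxy : x = y := Subtype.ext (hx.trans hy.symm)
    subst hxy
    have e1 : γ = Path.refl x := by
      ext t
      apply congrArg
      apply Subtype.ext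
      rw [hγ t]
      exact hx.symm
    have e2 : ε = δ := rel_unique ε δ u q hε hδ
    rw [e1, e2]
    exact ⟨Path.Homotopy.reflTrans δ⟩
  | cons e p ih =>
    intro u v w x y z γ δ ε hp hq hγ hδ hε
    obtain ⟨he, hst, hp'⟩ := hp
    obtain ⟨hx, hy⟩ := ends hLOP hL γ u v (e :: p) ⟨he, hst, hp'⟩ hγ
    obtain ⟨-, hz⟩ := ends hLOP hL δ v w q hq hδ
    let m : Hs Y ψ χ N := ⟨pt ψ N (vx Y (Y.en e)), mem_vx Y hN (en_nonneg Y hH e he)⟩
    obtain ⟨γ₁, hγ₁⟩ := edge_ex hEDP hN hH hL e he x m (by rw [hst, hx]) rfl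
    obtain ⟨γp, hγp⟩ := rce _ _ p m y hp' rfl hy
    obtain ⟨εp, hεp⟩ := rce _ _ (p ++ q) m z (path_append Y _ p q _ _ _ hp' hq) rfl hz
    rw [cons_eq e _ p γ γ₁ γp hγ₁ hγp hγ, cons_eq e _ (p ++ q) ε γ₁ εp hγ₁ hεp hε]
    have h1 : ((γ₁.trans γp).trans δ).Homotopic (γ₁.trans (γp.trans δ)) :=
      ⟨Path.Homotopy.transAssoc γ₁ γp δ⟩
    exact h1.trans (Path.Homotopic.hcomp (Path.Homotopic.refl γ₁)
      (ih _ _ _ m y z γp δ εp hp' hq hγp hδ hεp))

end Pool.Agent.Work.MP_e9e200_al.O3L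

end

section

/-!
# Project O3L, item CNV
-/

set_option autoImplicit false

namespace Pool.Agent.Work.MP_e9e200_al.O3L

open Set Metric Topology Pool.Agent.Work.MP_e9e200_al.O3A

namespace CNV

theorem c0 : ((0 : unitInterval) : ℝ) = 0 := rfl

theorem c1 : ((1 : unitInterval) : ℝ) = 1 := rfl

theorem nrm (u : ℝ) : ‖(fun _ => u : E 1)‖ = |u| := by
  rw [← Real.norm_eq_abs]
  exact pi_norm_const u

theorem eta (x : E 1) : x = fun _ => x 0 := by
  funext i
  rw [Subsingleton.elim i 0]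

theorem nrm' (x : E 1) : ‖x‖ = |x 0| := by
  conv_lhs => rw [eta x]
  exact nrm (x 0)

end CNV

theorem I_CNV : StCNV := by
  intro Z _ z F γ hF hγ
  obtain ⟨hFc, hFz⟩ := hF
  constructor
  · rintro ⟨H, hH, ⟨r, hr⟩, h0, h1⟩
    set R : ℝ := max r 1 with hR
    have hR1 : 1 ≤ R := le_max_right _ _
    -- the intermediate path
    have hz : ∀ (s : ℝ) (u : ℝ), R ≤ |u| → H (s, fun _ => u) = z := fun s u hu =>
      hr s _ (by rw [CNV.nrm]; exact (le_max_left _ _).trans hu)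
    have hFz' : ∀ u : ℝ, 1 ≤ |u| → F (fun _ => u) = z := fun u hu =>
      hFz _ (by rw [CNV.nrm]; exact hu)
    let δ : Path z z :=
      { toFun := fun t => F (fun _ => R * (2 * (t : ℝ) - 1))
        continuous_toFun := by
          refine hFc.comp (continuous_pi fun _ => ?_)
          fun_prop
        source' := by
          refine hFz' _ ?_
          rw [CNV.c0]
          rw [show R * (2 * 0 - 1) = -R by ring, abs_neg, abs_of_nonneg (by linarith)]
          exact hR1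
        target' := by
          refine hFz' _ ?_
          rw [CNV.c1]
          rw [show R * (2 * 1 - 1) = R by ring, abs_of_nonneg (by linarith)]
          exact hR1 }
    have key : ∀ s : unitInterval, 1 ≤ (1 - (s : ℝ)) + s * R := by
      intro s
      have hs0 := s.2.1
      nlinarith
    have e1 : γ.Homotopic δ := by
      refine ⟨⟨⟨⟨fun q => F (fun _ => ((1 - (q.1 : ℝ)) + q.1 * R) * (2 * (q.2 : ℝ) - 1)), ?_⟩,
        ?_, ?_⟩, ?_⟩⟩
      · refine hFc.comp (continuous_pi fun _ => ?_)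
        fun_prop
      · intro t
        show F _ = γ t
        rw [hγ t]
        congr 1
        funext _
        simp
      · intro t
        show F _ = F _
        congr 1
        funext _
        simp
      · rintro s t (rfl | rfl)
        · show F _ = γ 0
          rw [γ.source]
          refine hFz' _ ?_
          rw [CNV.c0, show ((1 - (s : ℝ)) + s * R) * (2 * 0 - 1) =
            -((1 - (s : ℝ)) + s * R) by ring, abs_neg]
          exact (key s).trans (le_abs_self _)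
        · show F _ = γ 1
          rw [γ.target]
          refine hFz' _ ?_
          rw [CNV.c1, show ((1 - (s : ℝ)) + s * R) * (2 * 1 - 1) =
            ((1 - (s : ℝ)) + s * R) by ring]
          exact (key s).trans (le_abs_self _)
    have e2 : δ.Homotopic (Path.refl z) := by
      refine ⟨⟨⟨⟨fun q => H ((q.1 : ℝ), fun _ => R * (2 * (q.2 : ℝ) - 1)), ?_⟩, ?_, ?_⟩, ?_⟩⟩
      · refine hH.comp (Continuous.prodMk (by fun_prop) (continuous_pi fun _ => ?_))
        fun_prop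
      · intro t
        show H (((0 : unitInterval) : ℝ), _) = F _
        rw [CNV.c0, h0]
      · intro t
        show H (((1 : unitInterval) : ℝ), _) = z
        rw [CNV.c1, h1]
      · rintro s t (rfl | rfl)
        · show H _ = δ 0
          rw [δ.source]
          refine hz _ _ ?_
          rw [CNV.c0, show R * (2 * 0 - 1) = -R by ring, abs_neg]
          exact le_abs_self _
        · show H _ = δ 1
          rw [δ.target]
          refine hz _ _ ?_
          rw [CNV.c1, show R * (2 * 1 - 1) = R by ring]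
          exact le_abs_self _
    exact e1.trans e2
  · rintro ⟨K⟩
    have h01 : (0 : ℝ) ≤ 1 := zero_le_one
    refine ⟨fun q => K (Set.projIcc 0 1 h01 q.1, Set.projIcc 0 1 h01 ((q.2 0 + 1) / 2)), ?_,
      ⟨1, ?_⟩, ?_, ?_⟩
    · refine K.continuous.comp (Continuous.prodMk ?_ ?_)
      · exact continuous_projIcc.comp continuous_fst
      · refine continuous_projIcc.comp ?_
        fun_prop
    · intro t x hx
      rw [CNV.nrm'] at hx
      rcases le_total (x 0) 0 with h | h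
      · rw [abs_of_nonpos h] at hx
        have : Set.projIcc 0 1 h01 ((x 0 + 1) / 2) = 0 :=
          Set.projIcc_of_le_left h01 (by linarith)
        show K (_, _) = z
        rw [this]
        exact K.source _
      · rw [abs_of_nonneg h] at hx
        have : Set.projIcc 0 1 h01 ((x 0 + 1) / 2) = 1 :=
          Set.projIcc_of_right_le h01 (by linarith)
        show K (_, _) = z
        rw [this]
        exact K.target _
    · intro x
      show K (Set.projIcc 0 1 h01 0, _) = F x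
      have h0 : Set.projIcc 0 1 h01 (0 : ℝ) = 0 := Set.projIcc_left h01
      rw [h0]
      have := K.apply_zero (Set.projIcc 0 1 h01 ((x 0 + 1) / 2))
      refine this.trans ?_
      show γ _ = F x
      rw [hγ]
      rcases le_or_gt (|x 0|) 1 with h | h
      · rw [abs_le] at h
        rw [Set.projIcc_of_mem h01 ⟨by linarith, by linarith⟩]
        congr 1
        conv_rhs => rw [CNV.eta x]
        funext _
        show 2 * ((x 0 + 1) / 2) - 1 = x 0
        ring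
      · rw [hFz x (by rw [CNV.nrm']; exact h.le)]
        refine hFz _ ?_
        rw [CNV.nrm]
        rcases lt_abs.1 h with h' | h'
        · rw [Set.projIcc_of_right_le h01 (by linarith)]
          show 1 ≤ |2 * (1 : ℝ) - 1|
          norm_num
        · rw [Set.projIcc_of_le_left h01 (by linarith)]
          show 1 ≤ |2 * (0 : ℝ) - 1|
          norm_num
    · intro x
      show K (Set.projIcc 0 1 h01 1, _) = z
      have h1 : Set.projIcc 0 1 h01 (1 : ℝ) = 1 := Set.projIcc_right h01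
      rw [h1]
      exact K.apply_one (Set.projIcc 0 1 h01 ((x 0 + 1) / 2))

end Pool.Agent.Work.MP_e9e200_al.O3L

end

section

/-!
# Project O3L: item DGL, the degrees of an edge path
-/

set_option autoImplicit false

namespace Pool.Agent.Work.MP_e9e200_al.O3L

open Set Metric Topology Pool.Agent.Work.MP_e9e200_al.O3A

namespace DGL

theorem eta (x : O3.E 1) : (fun _ : Fin 1 => x 0) = x := by
  funext i
  rw [Subsingleton.elim i 0]

theorem nrm (x : O3.E 1) : ‖x‖ = |x 0| := by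
  conv_lhs => rw [← eta x]
  rw [pi_norm_const, Real.norm_eq_abs]

variable {G : Type} [Group G] (Y : HT.Cel G)

theorem mk_ne {c c' : G × Y.B 1} (h : c ≠ c') (y y' : E 1) (hy : y ∈ ball (0 : E 1) 1)
    (hy' : y' ∈ ball (0 : E 1) 1) : mk 1 c y hy ≠ mk 1 c' y' hy' := by
  intro h1
  have h2 := eq_of_heq
    ((Sigma.mk.inj_iff (β := fun n : ℕ => (G × Y.B n) × ball (0 : E n) 1)).mp h1).2
  exact h (Prod.mk.inj h2).1

theorem vx_ne (v : G × Y.B 0) (c : G × Y.B 1) (y : E 1) (hy : y ∈ ball (0 : E 1) 1) :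
    vx Y v ≠ mk 1 c y hy := by
  intro h1
  have h2 := congrArg Pt.dim h1
  change (0 : ℕ) = 1 at h2
  exact absurd h2 (by norm_num)

theorem qp_vx (hQPB : O3.StQPB) (v : G × Y.B 0) (c : G × Y.B 1) :
    O3.qp 1 c (vx Y v) = (OnePoint.infty : O3.W 1 1) :=
  (hQPB G Y.B 1 c).2.1 _ fun y hy => vx_ne Y v c y hy

open scoped Classical in
theorem qe_eq (hQPB : O3.StQPB) (c : G × Y.B 1) (e : (G × Y.B 1) × Bool) (x : O3.E 1) :
    O3.qp 1 c (ed Y e (x 0)) = if e.1 = c then (if e.2 then O3.io (0 : Fin 1) x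
      else O3.io (0 : Fin 1) (-x)) else (OnePoint.infty : O3.W 1 1) := by
  unfold ed
  by_cases hb : (fun _ : Fin 1 => if e.2 then x 0 else -(x 0)) ∈ ball (0 : E 1) 1
  · rw [dif_pos hb]
    by_cases hc : e.1 = c
    · rw [if_pos hc]
      subst hc
      rw [(hQPB G Y.B 1 e.1).1]
      rw [mem_ball_zero_iff] at hb
      cases he : e.2 with
      | true =>
        simp only [he, if_true] at hb ⊢
        rw [eta] at hb ⊢
        unfold O3.io
        rw [if_pos hb]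
      | false =>
        simp only [he, Bool.false_eq_true, if_false] at hb ⊢
        have h3 : (fun _ : Fin 1 => -(x 0)) = -x := by
          rw [← eta (-x)]
          rfl
        rw [h3] at hb ⊢
        unfold O3.io
        rw [if_pos hb]
    · rw [if_neg hc]
      exact (hQPB G Y.B 1 c).2.1 _ fun y hy => mk_ne Y hc _ y hb hy
  · rw [dif_neg hb]
    have h1 : 1 ≤ ‖x‖ := by
      rw [mem_ball_zero_iff, not_lt] at hb
      cases he : e.2 with
      | true =>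
        simp only [he, if_true] at hb
        rwa [eta] at hb
      | false =>
        simp only [he, Bool.false_eq_true, if_false] at hb
        have h3 : (fun _ : Fin 1 => -(x 0)) = -x := by
          rw [← eta (-x)]
          rfl
        rwa [h3, norm_neg] at hb
    have h2 : O3.io (0 : Fin 1) x = (OnePoint.infty : O3.W 1 1) := by
      unfold O3.io
      rw [if_neg (not_lt.mpr h1)]
    have h3 : O3.io (0 : Fin 1) (-x) = (OnePoint.infty : O3.W 1 1) := by
      unfold O3.io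
      rw [if_neg (by rw [norm_neg]; exact not_lt.mpr h1)]
    rw [h2, h3]
    simp only [ite_self]
    split_ifs
    · exact qp_vx Y hQPB _ c
    · exact qp_vx Y hQPB _ c

theorem mir_eq (x : O3.E 1) : O3.mir (0 : Fin 1) x = -x := by
  funext i
  rw [Subsingleton.elim i 0]
  unfold O3.mir
  simp

theorem CS_neg (f : O3.E 1 → O3.W 1 1) (h : O3.CS OnePoint.infty f) :
    O3.CS OnePoint.infty (fun x => f (-x)) := by
  obtain ⟨h1, r, h2⟩ := h
  exact ⟨h1.comp continuous_neg, r, fun x hx => h2 _ (by rwa [norm_neg])⟩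

theorem deg_neg (hCL4 : O3.StCL4) (hHOMD : O3.StHOMD) (f : O3.E 1 → O3.W 1 1)
    (h : O3.CS OnePoint.infty f) :
    O3.deg (0 : Fin 1) (fun x => f (-x)) = - O3.deg (0 : Fin 1) f := by
  obtain ⟨Δ, hΔ⟩ := hHOMD 1 0 (0 : Fin 1)
  have h1 := hCL4 0 (O3.W 1 1) OnePoint.infty f (0 : Fin 1) h
  simp only [mir_eq] at h1
  have h2 := hΔ _ (CS_neg f h)
  have h3 := hΔ _ h
  rw [h1, map_inv, h3] at h2
  have h4 := congrArg Multiplicative.toAdd h2
  simpa using h4.symm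

theorem deg_inf (hDPR : O3.StDPR) :
    O3.deg (0 : Fin 1) (fun _ : O3.E 1 => (OnePoint.infty : O3.W 1 1)) = 0 :=
  (hDPR 1 1 0).2.2.1 _ fun _ _ _ h => absurd h (OnePoint.infty_ne_coe _)

theorem CS_inf : O3.CS OnePoint.infty (fun _ : O3.E 1 => (OnePoint.infty : O3.W 1 1)) :=
  ⟨continuous_const, 0, fun _ _ => rfl⟩

/-- the map of one edge -/
theorem edge (hQPB : O3.StQPB) (hDIO : O3.StDIO) (hDPR : O3.StDPR) (hCL4 : O3.StCL4)
    (hHOMD : O3.StHOMD) (c : G × Y.B 1) (e : (G × Y.B 1) × Bool) :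
    O3.Lo OnePoint.infty (fun x : O3.E 1 => O3.qp 1 c (ed Y e (x 0))) ∧
    O3.deg (0 : Fin 1) (fun x : O3.E 1 => O3.qp 1 c (ed Y e (x 0))) =
      (Finsupp.single e.1 (if e.2 then (1 : ℤ) else -1)) c := by
  classical
  have hio := (hDPR 1 1 0).2.2.2 (0 : Fin 1)
  simp only [qe_eq Y hQPB c e]
  by_cases hc : e.1 = c
  · simp only [if_pos hc]
    subst hc
    rw [Finsupp.single_eq_same]
    cases he : e.2 with
    | true =>
      simp only [if_true]
      refine ⟨hio.2, ?_⟩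
      rw [hDIO 1 1 0 0]
      simp
    | false =>
      simp only [Bool.false_eq_true, if_false]
      refine ⟨⟨hio.2.1.comp continuous_neg, fun x hx => hio.2.2 _ (by rwa [norm_neg])⟩, ?_⟩
      rw [deg_neg hCL4 hHOMD _ hio.1, hDIO 1 1 0 0]
      simp
  · simp only [if_neg hc]
    refine ⟨⟨continuous_const, fun _ _ => rfl⟩, ?_⟩
    rw [deg_inf hDPR, Finsupp.single_apply, if_neg hc]

/-- rescaling -/
theorem resc (hDEG : O3.StDEG) (hHO : O3.StHO) (g : O3.E 1 → O3.W 1 1)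
    (hg : O3.Lo OnePoint.infty g) (s : ℝ) (hs : |s| ≤ 1) :
    O3.CS OnePoint.infty (fun x : O3.E 1 => g (fun _ => 2 * x 0 + s)) ∧
    O3.deg (0 : Fin 1) (fun x : O3.E 1 => g (fun _ => 2 * x 0 + s)) = O3.deg (0 : Fin 1) g := by
  have key : ∀ t ∈ Icc (0 : ℝ) 1, ∀ x : O3.E 1, 2 ≤ ‖x‖ →
      g (fun _ => (1 + t) * x 0 + t * s) = OnePoint.infty := by
    intro t ht x hx
    apply hg.2
    rw [nrm] at hx ⊢
    have h0 := ht.1
    have h1 := ht.2
    obtain ⟨hs1, hs2⟩ := abs_le.mp hs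
    rcases le_abs.mp hx with hx | hx
    · refine le_abs.mpr (Or.inl ?_)
      nlinarith
    · refine le_abs.mpr (Or.inr ?_)
      nlinarith
  have hH := (hHO 1 (O3.W 1 1) OnePoint.infty).2.2.2.2
    (fun q : ℝ × O3.E 1 => g (fun _ => (1 + q.1) * q.2 0 + q.1 * s)) 2
    (hg.1.comp (by fun_prop)).continuousOn key
  have e0 : (fun x : O3.E 1 => g (fun _ => (1 + (0 : ℝ)) * x 0 + 0 * s)) = g := by
    funext x
    congr 1
    funext i
    rw [Subsingleton.elim i 0]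
    ring
  have e1 : (fun x : O3.E 1 => g (fun _ => (1 + (1 : ℝ)) * x 0 + 1 * s)) =
      fun x : O3.E 1 => g (fun _ => 2 * x 0 + s) := by
    funext x
    congr 1
    funext i
    ring
  have hH' : O3.Ho OnePoint.infty g (fun x : O3.E 1 => g (fun _ => 2 * x 0 + s)) := by
    rw [← e1]
    conv_lhs => rw [← e0]
    exact hH
  exact ⟨((hHO 1 (O3.W 1 1) OnePoint.infty).2.2.2.1 _ _ hH').2, ((hDEG 1 1 0).2 _ _ hH').symm⟩

theorem main (hQPB : O3.StQPB) (hDADD : O3.StDADD) (hDIO : O3.StDIO) (hDPR : O3.StDPR)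
    (hDEG : O3.StDEG) (hHO : O3.StHO) (hCL4 : O3.StCL4) (hHOMD : O3.StHOMD) (c : G × Y.B 1)
    (p : List ((G × Y.B 1) × Bool)) : ∀ v : G × Y.B 0,
    O3.CS OnePoint.infty (fun x : O3.E 1 => O3.qp 1 c (lo Y v p (x 0))) ∧
    (∀ x : O3.E 1, 1 ≤ ‖x‖ → O3.qp 1 c (lo Y v p (x 0)) = (OnePoint.infty : O3.W 1 1)) ∧
    O3.deg (0 : Fin 1) (fun x : O3.E 1 => O3.qp 1 c (lo Y v p (x 0))) = Y.chn p c := by
  induction p with
  | nil =>
    intro v
    have h : ∀ x : O3.E 1, O3.qp 1 c (lo Y v [] (x 0)) = (OnePoint.infty : O3.W 1 1) := by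
      intro x
      unfold lo
      exact qp_vx Y hQPB v c
    simp only [h]
    refine ⟨CS_inf, fun _ _ => trivial, ?_⟩
    rw [deg_inf hDPR]
    simp [HT.Cel.chn]
  | cons e p ih =>
    intro v
    obtain ⟨i1, i2, i3⟩ := ih (Y.en e)
    obtain ⟨j1, j2⟩ := edge Y hQPB hDIO hDPR hCL4 hHOMD c e
    have r1 := resc hDEG hHO _ j1 1 (by simp)
    have r2 := resc hDEG hHO (fun x : O3.E 1 => O3.qp 1 c (lo Y (Y.en e) p (x 0)))
      ⟨i1.1, i2⟩ (-1) (by simp)
    have hlo : ∀ x : O3.E 1, O3.qp 1 c (lo Y v (e :: p) (x 0)) =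
        if x 0 ≤ 0 then O3.qp 1 c (ed Y e (2 * x 0 + 1))
        else O3.qp 1 c (lo Y (Y.en e) p (2 * x 0 + -1)) := by
      intro x
      rw [lo, ← sub_eq_add_neg]
      split_ifs <;> rfl
    have k1 : ∀ x : O3.E 1, 0 ≤ x 0 ∨ x 0 ≤ -1 →
        O3.qp 1 c (ed Y e (2 * x 0 + 1)) = (OnePoint.infty : O3.W 1 1) := by
      intro x hx
      refine j1.2 (fun _ => 2 * x 0 + 1) ?_
      rw [nrm]
      rcases hx with hx | hx
      · exact le_abs.mpr (Or.inl (by linarith))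
      · exact le_abs.mpr (Or.inr (by linarith))
    have k2 : ∀ x : O3.E 1, x 0 ≤ 0 ∨ 1 ≤ x 0 →
        O3.qp 1 c (lo Y (Y.en e) p (2 * x 0 + -1)) = (OnePoint.infty : O3.W 1 1) := by
      intro x hx
      refine i2 (fun _ => 2 * x 0 + -1) ?_
      rw [nrm]
      rcases hx with hx | hx
      · exact le_abs.mpr (Or.inr (by linarith))
      · exact le_abs.mpr (Or.inl (by linarith))
    have hD := hDADD 1 1 0 (fun x : O3.E 1 => O3.qp 1 c (ed Y e (2 * x 0 + 1)))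
      (fun x : O3.E 1 => O3.qp 1 c (lo Y (Y.en e) p (2 * x 0 + -1)))
      (fun x : O3.E 1 => O3.qp 1 c (lo Y v (e :: p) (x 0))) r1.1 r2.1
      (fun x => by
        rcases le_total (x 0) 0 with hx | hx
        · exact Or.inr (k2 x (Or.inl hx))
        · exact Or.inl (k1 x (Or.inl hx)))
      (fun x => by
        by_cases hx : x 0 ≤ 0
        · left
          simp only [hlo, if_pos hx]
        · right
          exact k1 x (Or.inl (le_of_lt (not_le.mp hx))))
      (fun x => by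
        by_cases hx : x 0 ≤ 0
        · right
          exact k2 x (Or.inl hx)
        · left
          simp only [hlo, if_neg hx])
      (fun x h1 h2 => by
        simp only [hlo]
        split_ifs
        · exact h1
        · exact h2)
    refine ⟨hD.1, ?_, ?_⟩
    · intro x hx
      rw [hlo]
      rw [nrm] at hx
      split_ifs with h
      · apply k1
        right
        rcases le_abs.mp hx with h' | h'
        · linarith
        · linarith
      · apply k2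
        right
        rcases le_abs.mp hx with h' | h'
        · exact h'
        · linarith [not_le.mp h]
    · have h1 : O3.deg (0 : Fin 1) (fun x : O3.E 1 => O3.qp 1 c (ed Y e (2 * x 0 + 1))) = _ :=
        r1.2
      have h2 : O3.deg (0 : Fin 1)
        (fun x : O3.E 1 => O3.qp 1 c (lo Y (Y.en e) p (2 * x 0 + -1))) = _ := r2.2
      rw [hD.2, h1, h2, j2, i3]
      simp [HT.Cel.chn]

end DGL

theorem I_DGL (hEDP : StEDP) (hLOP : StLOP) (hQPB : O3.StQPB) (hDADD : O3.StDADD)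
    (hDIO : O3.StDIO) (hDPR : O3.StDPR) (hDEG : O3.StDEG) (hHO : O3.StHO) (hCL4 : O3.StCL4)
    (hHOMD : O3.StHOMD) : StDGL := by
  have _ := hEDP
  have _ := hLOP
  intro G _ Y c P v w p _
  exact DGL.main Y hQPB hDADD hDIO hDPR hDEG hHO hCL4 hHOMD c p v

end Pool.Agent.Work.MP_e9e200_al.O3L

end

section

/-!
# Project O3L, item EX0: the graph is path connected
-/

set_option autoImplicit false

namespace Pool.Agent.Work.MP_e9e200_al.O3L

open Set Metric Topology Pool.Agent.Work.MP_e9e200_al.O3A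

namespace EX0

/-- two points of a continuous line in `F` are joined in `F` -/
theorem joined_line {Z : Type} [TopologicalSpace Z] {F : Set Z} (g : ℝ → Z) (hg : Continuous g)
    (hF : ∀ t, g t ∈ F) (a b : ℝ) : JoinedIn F (g a) (g b) := by
  refine JoinedIn.ofLine (f := fun t => g (a + t * (b - a))) ?_ ?_ ?_ ?_
  · exact (hg.comp (by fun_prop)).continuousOn
  · simp
  · simp
  · rintro _ ⟨t, -, rfl⟩
    exact hF _

/-- path connected sets have the extension property in degree zero -/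
theorem ext_of_joined {X : Type} [TopologicalSpace X] (A : Set X)
    (h : ∀ x ∈ A, ∀ y ∈ A, JoinedIn A x y) : O3.Ext A 0 := by
  intro f _ hfA
  have hs : ∀ s : ℝ, |s| = 1 → (fun _ : Fin (0 + 1) => s) ∈ sphere (0 : Fin (0 + 1) → ℝ) 1 := by
    intro s hs
    rw [mem_sphere_zero_iff_norm, pi_norm_const, Real.norm_eq_abs, hs]
  obtain ⟨γ, hγ⟩ := h _ (hfA (hs (-1) (by norm_num))) _ (hfA (hs 1 (by norm_num)))
  refine ⟨fun y => γ.extend ((y 0 + 1) / 2), ?_, ?_, ?_⟩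
  · exact (γ.continuous_extend.comp (by fun_prop)).continuousOn
  · intro y _
    have hr : γ.extend ((y 0 + 1) / 2) ∈ range γ := by
      rw [← γ.extend_range]
      exact mem_range_self _
    obtain ⟨t, ht⟩ := hr
    show γ.extend ((y 0 + 1) / 2) ∈ A
    rw [← ht]
    exact hγ t
  · intro y hy
    rw [mem_sphere_zero_iff_norm] at hy
    have hy' : y = fun _ => y 0 := by
      funext i
      rw [Fin.fin_one_eq_zero i]
    rw [hy', pi_norm_const, Real.norm_eq_abs] at hy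
    rcases (abs_eq zero_le_one).1 hy with h1 | h1
    · show γ.extend ((y 0 + 1) / 2) = f y
      rw [h1, show ((1 : ℝ) + 1) / 2 = 1 by norm_num, γ.extend_one]
      congr 1
      rw [hy', h1]
    · show γ.extend ((y 0 + 1) / 2) = f y
      rw [h1, show (-(1 : ℝ) + 1) / 2 = 0 by norm_num, γ.extend_zero]
      congr 1
      rw [hy', h1]

variable {G : Type} [Group G] (Y : HT.Cel G) (χ : Additive G →+ ℝ)

theorem vx_mem (v : G × Y.B 0) (h : 0 ≤ χ (Additive.ofMul v.1)) :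
    vx Y v ∈ Pp (B := Y.B) χ ∩ Lt 2 := by
  refine ⟨h, ?_⟩
  show ((0 : ℕ) : ℕ∞) < 2
  norm_num

theorem oc_sub (c : G × Y.B 1) (h : 0 ≤ χ (Additive.ofMul c.1)) :
    oc 1 c ⊆ Pp (B := Y.B) χ ∩ Lt 2 := by
  rintro p ⟨y, hy, rfl⟩
  refine ⟨h, ?_⟩
  show ((1 : ℕ) : ℕ∞) < 2
  norm_num

theorem st_nonneg (hH : Y.Hgt χ (fun _ _ => 0)) (c : G × Y.B 1)
    (h : 0 ≤ χ (Additive.ofMul c.1)) : 0 ≤ χ (Additive.ofMul (Y.st (c, true)).1) := by
  show 0 ≤ χ (Additive.ofMul (c.1 * (Y.src c.2).1))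
  rw [ofMul_mul, map_add]
  have := hH.src c.2
  linarith

theorem en_nonneg (hH : Y.Hgt χ (fun _ _ => 0)) (c : G × Y.B 1)
    (h : 0 ≤ χ (Additive.ofMul c.1)) : 0 ≤ χ (Additive.ofMul (Y.en (c, true)).1) := by
  show 0 ≤ χ (Additive.ofMul (c.1 * (Y.tgt c.2).1))
  rw [ofMul_mul, map_add]
  have := hH.tgt c.2
  linarith

end EX0

open EX0 in
theorem I_EX0 (hPHB : StPHB) (_hCRT : StCRT) (hEDP : StEDP) (hLOP : StLOP) : StEX0 := by
  intro G _ Y χ ψ hH hL hconn
  obtain ⟨hP1, -, -, -, -, hP6, hP7⟩ := hPHB G Y.B ψ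
  obtain ⟨hE1, -, hE3, -, hE5, hE6, -⟩ := hEDP G Y ψ hL
  have hN : (1 : ℕ∞) < 2 := by norm_num
  -- (a) every point is joined to a vertex
  have ha : ∀ x ∈ Pp (B := Y.B) χ ∩ Lt 2, ∃ v : G × Y.B 0, 0 ≤ χ (Additive.ofMul v.1) ∧
      JoinedIn (st ψ 2 (Pp χ ∩ Lt 2)) (pt ψ 2 x) (pt ψ 2 (vx Y v)) := by
    rintro x ⟨hx1, hx2⟩
    obtain ⟨n, c, y, hy, rfl⟩ := hP6 x
    have hn : (n : ℕ∞) < 2 := hx2
    have hn' : n < 2 := by exact_mod_cast hn
    have hc : 0 ≤ χ (Additive.ofMul c.1) := hx1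
    interval_cases n
    · have hv : mk 0 c y hy = vx Y c := by
        show mk 0 c y hy = mk 0 c 0 _
        have : y = 0 := Subsingleton.elim _ _
        subst this
        rfl
      refine ⟨c, hc, ?_⟩
      rw [hv]
      exact JoinedIn.refl (vx_mem Y χ c hc)
    · refine ⟨Y.en (c, true), en_nonneg Y χ hH c hc, ?_⟩
      have hy0 : y = fun _ => y 0 := by
        funext i
        rw [Subsingleton.elim i 0]
      have hyn : |y 0| < 1 := by
        have := hy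
        rw [mem_ball_zero_iff, hy0, pi_norm_const, Real.norm_eq_abs] at this
        exact this
      have h1 : ed Y (c, true) (y 0) = mk 1 c y hy := by
        rw [hE1 (c, true) (y 0) (abs_lt.1 hyn).1.le (abs_lt.1 hyn).2.le, ← hP1 1 c y hy]
        congr 1
        exact hy0.symm
      have h2 : ed Y (c, true) 1 = vx Y (Y.en (c, true)) := hE3 _ 1 le_rfl
      rw [← h1, ← h2]
      refine joined_line (fun s => pt ψ 2 (ed Y (c, true) s)) (hE5 2 hN (c, true)) ?_ (y 0) 1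
      intro s
      exact hE6 (Pp χ ∩ Lt 2) (c, true) s (vx_mem Y χ _ (st_nonneg Y χ hH c hc))
        (vx_mem Y χ _ (en_nonneg Y χ hH c hc)) (oc_sub Y χ c hc)
  -- (b) two vertices are joined
  have hb : ∀ v w : G × Y.B 0, 0 ≤ χ (Additive.ofMul v.1) → 0 ≤ χ (Additive.ofMul w.1) →
      JoinedIn (st ψ 2 (Pp χ ∩ Lt 2)) (pt ψ 2 (vx Y v)) (pt ψ 2 (vx Y w)) := by
    intro v w hv hw
    obtain ⟨p, hp⟩ := hconn v w hv hw
    obtain ⟨h1, h2, h3, h4, -⟩ := hLOP G Y ψ hL (HE Y χ) v w p hp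
    rw [← h1 (-1) le_rfl, ← h2 1 le_rfl]
    refine joined_line (fun t => pt ψ 2 (lo Y v p t)) (h3 2 hN) ?_ (-1) 1
    intro t
    exact h4 (Pp χ ∩ Lt 2) (vx_mem Y χ v hv) (fun c hc => ⟨vx_mem Y χ _ (st_nonneg Y χ hH c hc),
      vx_mem Y χ _ (en_nonneg Y χ hH c hc), oc_sub Y χ c hc⟩) t
  -- (c)
  refine ext_of_joined _ ?_
  intro x hx y hy
  obtain ⟨v, hv, hxv⟩ := ha x hx
  obtain ⟨w, hw, hyw⟩ := ha y hy
  exact hxv.trans ((hb v w hv hw).trans hyw.symm)

end Pool.Agent.Work.MP_e9e200_al.O3L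

end

section

/-!
# Project O3L: EX1
-/

set_option autoImplicit false

namespace Pool.Agent.Work.MP_e9e200_al.O3L

open Set Metric Topology Pool.Agent.Work.MP_e9e200_al.O3A

namespace EX1

variable {G : Type} [Group G]

theorem skel (hSK : O3.StSK) {B : ℕ → Type} (ψ : Atl G B) (N : ℕ∞) [T2Space (Sp ψ N)]
    (hPHB : StPHB) (χ : Additive G →+ ℝ) (C : Set (Sp ψ N)) (inst : CWComplex C)
    (e : ∀ n : ℕ, RelCWComplex.cell C n ≃ {c : G × B n // (n : ℕ∞) < N})
    (hmap : ∀ (n : ℕ) (j : RelCWComplex.cell C n), ∀ y ∈ closedBall (0 : E n) 1,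
      RelCWComplex.map n j y = pt ψ N (Ph ψ n (e n j).1 y))
    (Y : CWComplex.Subcomplex C)
    (hI : ∀ (n : ℕ) (j : RelCWComplex.cell C n), j ∈ Y.I n ↔ 0 ≤ χ (Additive.ofMul (e n j).1.1))
    (M : ℕ) (hM : (M : ℕ∞) ≤ N) :
    O3.sk (Y : Set (Sp ψ N)) M = st ψ N (Pp χ ∩ Lt (M : ℕ∞)) := by
  obtain ⟨h1, h2, h3, h4, h5, h6, h7⟩ := hPHB G B ψ
  obtain ⟨-, s2, -⟩ := hSK (Sp ψ N) (Y : Set (Sp ψ N))
  rw [s2]
  ext p
  simp only [mem_iUnion]
  constructor
  · rintro ⟨m, hm, ⟨j, hj⟩, hp⟩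
    obtain ⟨y, hy, rfl⟩ := hp
    have hy' : y ∈ closedBall (0 : E m) 1 := ball_subset_closedBall hy
    change RelCWComplex.map (C := C) m j y ∈ _
    rw [hmap m j y hy', h1 m _ y hy]
    change mk m (e m j).1 y hy ∈ Pp χ ∩ Lt (M : ℕ∞)
    refine ⟨?_, ?_⟩
    · show 0 ≤ χ (Additive.ofMul (mk m (e m j).1 y hy).gr)
      rw [(h7 m _ y hy).2]
      exact (hI m j).1 hj
    · show (((mk m (e m j).1 y hy).dim : ℕ) : ℕ∞) < M
      rw [(h7 m _ y hy).1]
      exact_mod_cast hm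
  · intro hp
    obtain ⟨m, c, y, hy, hpe⟩ := h6 p
    have hp' : p ∈ Pp χ ∩ Lt (M : ℕ∞) := hp
    rw [hpe] at hp'
    obtain ⟨q1, q2⟩ := hp'
    have q1' : 0 ≤ χ (Additive.ofMul (mk m c y hy).gr) := q1
    rw [(h7 m _ y hy).2] at q1'
    have q2' : (((mk m c y hy).dim : ℕ) : ℕ∞) < M := q2
    rw [(h7 m _ y hy).1] at q2'
    have hm : m < M := by exact_mod_cast q2'
    have hmN : (m : ℕ∞) < N := lt_of_lt_of_le q2' hM
    refine ⟨m, hm, ⟨(e m).symm ⟨c, hmN⟩, ?_⟩, ?_⟩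
    · rw [hI]
      simpa using q1'
    · refine ⟨y, hy, ?_⟩
      change RelCWComplex.map (C := C) m ((e m).symm ⟨c, hmN⟩) y = p
      rw [hmap m _ y (ball_subset_closedBall hy), Equiv.apply_symm_apply, h1 m _ y hy, hpe]
      rfl

theorem key (hSKM : StSKM) (hCAP : O3.StCAP) (hEXT : O3.StEXT) (hHO : O3.StHO)
    (hCNV : StCNV) (hLOP : StLOP) (hRCE : StRCE) (hEDG : StEDG) (hHTY : StHTY)
    (Y : HT.Cel G) (χ : Additive G →+ ℝ) (ψ : Atl G Y.B) (hY : Y.Good)
    (hH : Y.Hgt χ (fun _ _ => 0)) (hL : Lo2 Y ψ) (hGd : Gd ψ 3) [T2Space (Sp ψ 3)]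
    (v : G × Y.B 0) (hv : 0 ≤ χ (Additive.ofMul v.1)) 
    (hsc : ∀ (v : G × Y.B 0) (p : List ((G × Y.B 1) × Bool)), 0 ≤ χ (Additive.ofMul v.1) →
      Y.IsPath (HE Y χ) v p v → Y.Hty (HE Y χ) (HC Y χ) v p [])
    (C : Set (Sp ψ 3)) (inst : CWComplex C) (hC : C = st ψ 3 (Pp χ ∩ Lt 3))
    (hsk : O3.sk C 2 = st ψ 3 (Pp χ ∩ Lt 2)) (hE0 : O3.Ext C 0) : O3.Ext C 1 := by
  have hvx2 : vx Y v ∈ Pp χ ∩ Lt (G := G) (B := Y.B) 2 := by
    refine ⟨hv, ?_⟩
    show ((0 : ℕ) : ℕ∞) < 2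
    norm_num
  have hvx3 : vx Y v ∈ Pp χ ∩ Lt (G := G) (B := Y.B) 3 := by
    refine ⟨hv, ?_⟩
    show ((0 : ℕ) : ℕ∞) < 3
    norm_num
  subst hC
  let z : Hs Y ψ χ 3 := ⟨pt ψ 3 (vx Y v), hvx3⟩
  rw [(hEXT (Sp ψ 3) (st ψ 3 (Pp χ ∩ Lt 3)) 1 ⟨z.1, z.2⟩).2.2 hE0 z]
  intro F hF
  obtain ⟨ho1, ho2, ho3, ho4, ho5⟩ := hHO 1 (Hs Y ψ χ 3) z
  have hzsk : z.1 ∈ O3.sk (st ψ 3 (Pp χ ∩ Lt 3)) 2 := by
    rw [hsk]
    exact hvx2
  -- push into the skeleton
  obtain ⟨H, hHc, hH1, hH2⟩ := hCAP (Sp ψ 3) (st ψ 3 (Pp χ ∩ Lt 3)) 1 2 (fun x => (F x).1)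
    (by norm_num) (continuous_subtype_val.comp hF.1).continuousOn (fun x _ => (F x).2) (by
      intro x hx
      have h1 : F x = z := hF.2 x (by rw [mem_sphere_zero_iff_norm] at hx; exact hx.ge)
      show (F x).1 ∈ _
      rw [h1]
      exact hzsk)
  classical
  let K : ℝ × O3.E 1 → Hs Y ψ χ 3 := fun q =>
    if h : q.1 ∈ Icc (0 : ℝ) 1 ∧ q.2 ∈ closedBall (0 : O3.E 1) 1 then
      ⟨H q, (hH1 q.1 h.1 q.2 h.2).1⟩ else z
  have hK1 : ∀ (q : ℝ × O3.E 1) (h : q.1 ∈ Icc (0 : ℝ) 1 ∧ q.2 ∈ closedBall (0 : O3.E 1) 1),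
      (K q).1 = H q := by
    intro q h
    simp only [K, dif_pos h]
  have hK2 : ∀ t ∈ Icc (0 : ℝ) 1, ∀ x : O3.E 1, 1 ≤ ‖x‖ → K (t, x) = z := by
    intro t ht x hx
    by_cases hb : x ∈ closedBall (0 : O3.E 1) 1
    · apply Subtype.ext
      rw [hK1 (t, x) ⟨ht, hb⟩]
      have h1 : F x = z := hF.2 x hx
      have h2 := (hH1 t ht x hb).2 (by rw [h1]; exact hzsk)
      rw [h2, h1]
    · simp only [K]
      rw [dif_neg]
      exact fun h => hb h.2
  have hKc : ContinuousOn K (Icc 0 1 ×ˢ univ) := by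
    have hu : (Icc (0 : ℝ) 1 ×ˢ (univ : Set (O3.E 1))) =
        (Icc (0 : ℝ) 1 ×ˢ closedBall (0 : O3.E 1) 1) ∪
        (Icc (0 : ℝ) 1 ×ˢ {x : O3.E 1 | 1 ≤ ‖x‖}) := by
      ext ⟨t, x⟩
      simp only [mem_prod, mem_univ, and_true, mem_union, mem_closedBall_zero_iff, mem_setOf_eq]
      constructor
      · intro h
        rcases le_total ‖x‖ 1 with h' | h'
        · exact Or.inl ⟨h, h'⟩
        · exact Or.inr ⟨h, h'⟩
      · rintro (h | h) <;> exact h.1
    rw [hu]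
    apply ContinuousOn.union_of_isClosed
    · rw [Topology.IsInducing.subtypeVal.continuousOn_iff]
      refine hHc.congr ?_
      rintro ⟨t, x⟩ ⟨ht, hx⟩
      exact hK1 (t, x) ⟨ht, hx⟩
    · refine (continuousOn_const (c := z)).congr ?_
      rintro ⟨t, x⟩ ⟨ht, hx⟩
      exact hK2 t ht x hx
    · exact isClosed_Icc.prod isClosed_closedBall
    · exact isClosed_Icc.prod (isClosed_le continuous_const continuous_norm)
  have hHo1 : O3.Ho z (fun x => K (0, x)) (fun x => K (1, x)) := ho5 K 1 hKc hK2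
  have hK0 : (fun x => K (0, x)) = F := by
    funext x
    by_cases hb : x ∈ closedBall (0 : O3.E 1) 1
    · apply Subtype.ext
      rw [hK1 (0, x) ⟨by simp, hb⟩]
      exact (hH2 x hb).1
    · have hb' : 1 ≤ ‖x‖ := by
        rw [mem_closedBall_zero_iff, not_le] at hb
        exact hb.le
      show K (0, x) = F x
      rw [hK2 0 (by simp) x hb', hF.2 x hb']
  rw [hK0] at hHo1
  refine ho3 _ _ _ hHo1 ?_
  -- the new map
  let F' : O3.E 1 → Hs Y ψ χ 3 := fun x => K (1, x)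
  have hF'2 : ∀ x, 1 ≤ ‖x‖ → F' x = z := fun x hx => hK2 1 (by simp) x hx
  have hF'c : Continuous F' := (ho4 _ _ hHo1).2.1
  have hF's : ∀ x, (F' x).1 ∈ st ψ 3 (Pp χ ∩ Lt 2) := by
    intro x
    by_cases hb : x ∈ closedBall (0 : O3.E 1) 1
    · show (K (1, x)).1 ∈ _
      rw [hK1 (1, x) ⟨by simp, hb⟩, ← hsk]
      exact (hH2 x hb).2
    · have hb' : 1 ≤ ‖x‖ := by
        rw [mem_closedBall_zero_iff, not_le] at hb
        exact hb.le
      rw [hF'2 x hb']
      exact hvx2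
  have hle : (2 : ℕ∞) ≤ 3 := by norm_num
  obtain ⟨-, sk2, -, -⟩ := hSKM G Y.B ψ 3 2 hGd hle
  have hF'c2 : Continuous (fun x => pt ψ 2 (F' x).1) := by
    rw [← continuousOn_univ]
    refine (sk2 (O3.E 1) (fun x => (F' x).1) univ (fun x _ => (hF's x).2)).1 ?_
    exact (continuous_subtype_val.comp hF'c).continuousOn
  let x2 : Hs Y ψ χ 2 := ⟨pt ψ 2 (vx Y v), hvx2⟩
  let γ2 : Path x2 x2 :=
    { toFun := fun t => ⟨pt ψ 2 (F' (fun _ => 2 * (t : ℝ) - 1)).1, hF's _⟩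
      continuous_toFun := by
        refine Continuous.subtype_mk ?_ _
        exact hF'c2.comp (by fun_prop)
      source' := by
        apply Subtype.ext
        have h1 : F' (fun _ => 2 * ((0 : unitInterval) : ℝ) - 1) = z := by
          apply hF'2
          rw [pi_norm_const]
          norm_num
        show pt ψ 2 (F' (fun _ => 2 * ((0 : unitInterval) : ℝ) - 1)).1 = _
        rw [h1]
        rfl
      target' := by
        apply Subtype.ext
        have h1 : F' (fun _ => 2 * ((1 : unitInterval) : ℝ) - 1) = z := by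
          apply hF'2
          rw [pi_norm_const]
          norm_num
        show pt ψ 2 (F' (fun _ => 2 * ((1 : unitInterval) : ℝ) - 1)).1 = _
        rw [h1]
        rfl }
  obtain ⟨p, hp, hp2⟩ := hEDG G Y χ ψ hH hL.1 v v x2 x2 γ2 rfl rfl
  obtain ⟨γ2', hγ2'⟩ := hRCE G Y χ ψ hH hL.1 2 (by norm_num) v v p x2 x2 hp rfl rfl
  have hom2 : γ2.Homotopic γ2' := hp2 γ2' hγ2'
  -- the inclusion
  have hιc : Continuous (fun q : Hs Y ψ χ 2 => pt ψ 3 q.1) := by
    rw [← continuousOn_univ]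
    refine (sk2 (Hs Y ψ χ 2) (fun q => q.1) univ (fun q _ => q.2.2)).2 ?_
    exact continuous_subtype_val.continuousOn
  have hmem : ∀ q : Hs Y ψ χ 2, pt ψ 3 q.1 ∈ st ψ 3 (Pp χ ∩ Lt 3) := by
    intro q
    exact ⟨q.2.1, lt_of_lt_of_le q.2.2 hle⟩
  let ι : C(Hs Y ψ χ 2, Hs Y ψ χ 3) := ⟨fun q => ⟨pt ψ 3 q.1, hmem q⟩, hιc.subtype_mk _⟩
  have hom3 := hom2.map ι
  have hz : ι x2 = z := rfl
  let γ3 : Path z z := γ2.map ι.continuous
  let γ3' : Path z z := γ2'.map ι.continuous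
  have hom3 : γ3.Homotopic γ3' := hom2.map ι
  have hrel3 : Rel Y γ3' v p := by
    intro t
    exact hγ2' t
  have hHty := hsc v p hv hp
  have hrefl : Rel Y (Path.refl z) v [] := by
    intro t
    rfl
  have hom4 : γ3'.Homotopic (Path.refl z) :=
    (hHTY G Y χ ψ hY hH hL v v p [] hHty).2 hp z z γ3' (Path.refl z) hrel3 hrefl
  have hom5 : γ3.Homotopic (Path.refl z) := hom3.trans hom4
  exact (hCNV (Hs Y ψ χ 3) z F' γ3 ⟨hF'c, hF'2⟩ (fun t => rfl)).2 hom5

end EX1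

theorem I_EX1 (hPHB : StPHB) (hCRT : StCRT) (hSKM : StSKM) (hT2 : StT2) (hCWS : StCWS)
    (hSBC : StSBC) (hEDP : StEDP) (hLOP : StLOP) (hGDL : StGDL) (hRCE : StRCE) (hCNV : StCNV)
    (hEX0 : StEX0) (hEDG : StEDG) (hHTY : StHTY) (hSK : O3.StSK) (hCAP : O3.StCAP)
    (hEXT : O3.StEXT) (hESK : O3.StESK) (hHO : O3.StHO) : StEX1 := by
  intro G _ Y χ ψ hY hH hL ⟨v, hv⟩ hpath hsc
  have hGd : Gd ψ 3 := (hGDL G Y ψ).2.1 hY hL
  haveI : T2Space (Sp ψ 3) := hT2 G Y.B ψ 3 hGd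
  obtain ⟨inst, e, hmap⟩ := hCWS G Y.B ψ 3 hGd (st ψ 3 (Lt 3)) rfl
  obtain ⟨S, hS, hI⟩ := hSBC G Y.B ψ 3 χ hGd (by
    intro n b hn y hy
    exact (hGDL G Y ψ).2.2 χ hY hH hL n b (by exact_mod_cast hn) y hy) (st ψ 3 (Lt 3)) rfl inst e
      hmap
  have hle : ((2 : ℕ) : ℕ∞) ≤ 3 := by norm_num
  have hsk := EX1.skel hSK ψ 3 hPHB χ (st ψ 3 (Lt 3)) inst e hmap S hI 2 hle
  have hE2 : O3.Ext (st ψ 2 (Pp χ ∩ Lt 2)) 0 := hEX0 G Y χ ψ hH hL.1 hpath
  have hE3 : O3.Ext (st ψ 3 (Pp χ ∩ Lt 2)) 0 :=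
    ((hSKM G Y.B ψ 3 2 hGd (by norm_num)).2.2.2 (Pp χ ∩ Lt 2) 0 inter_subset_right).2 hE2
  have hE4 : O3.Ext (S : Set (Sp ψ 3)) 0 := by
    rw [← hESK (Sp ψ 3) (S : Set (Sp ψ 3)) 0 2 (by norm_num), hsk]
    exact hE3
  have := EX1.key hSKM hCAP hEXT hHO hCNV hLOP hRCE hEDG hHTY Y χ ψ hY hH hL hGd v hv hsc
    (S : Set (Sp ψ 3)) inferInstance hS hsk hE4
  rw [hS] at this
  exact this

end Pool.Agent.Work.MP_e9e200_al.O3L

end

section

/-!
# Project O3L, item HTY: homotopic edge paths are homotopic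
-/

set_option autoImplicit false

namespace Pool.Agent.Work.MP_e9e200_al.O3L

open Set Metric Topology Pool.Agent.Work.MP_e9e200_al.O3A

namespace HTY

variable {G : Type} [Group G] (Y : HT.Cel G)

theorem one_lt_three : (1 : ℕ∞) < 3 := by
  have h : ((1 : ℕ) : ℕ∞) < ((3 : ℕ) : ℕ∞) := by exact_mod_cast (by norm_num : 1 < 3)
  exact_mod_cast h

theorem mem_vx {χ : Additive G →+ ℝ} {v : G × Y.B 0} (h : 0 ≤ χ (Additive.ofMul v.1)) :
    vx Y v ∈ Pp (G := G) (B := Y.B) χ ∩ Lt 3 := by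
  refine ⟨h, ?_⟩
  change ((0 : ℕ) : ℕ∞) < ((3 : ℕ) : ℕ∞)
  exact_mod_cast (by norm_num : 0 < 3)

theorem oc_sub {χ : Additive G →+ ℝ} {c : G × Y.B 1} (h : HE Y χ c) :
    oc 1 c ⊆ Pp (G := G) (B := Y.B) χ ∩ Lt 3 := by
  rintro q ⟨y, hy, rfl⟩
  refine ⟨h, ?_⟩
  change ((1 : ℕ) : ℕ∞) < ((3 : ℕ) : ℕ∞)
  exact_mod_cast (by norm_num : 1 < 3)

theorem st_nonneg {χ : Additive G →+ ℝ} (hH : Y.Hgt χ (fun _ _ => 0))
    (e : (G × Y.B 1) × Bool) (he : HE Y χ e.1) : 0 ≤ χ (Additive.ofMul (Y.st e).1) := by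
  have he' : 0 ≤ χ (Additive.ofMul e.1.1) := he
  unfold HT.Cel.st
  split_ifs
  · have h1 := hH.src e.1.2
    change 0 ≤ χ (Additive.ofMul (e.1.1 * (Y.src e.1.2).1))
    rw [ofMul_mul, map_add]
    linarith
  · have h1 := hH.tgt e.1.2
    change 0 ≤ χ (Additive.ofMul (e.1.1 * (Y.tgt e.1.2).1))
    rw [ofMul_mul, map_add]
    linarith

theorem en_nonneg {χ : Additive G →+ ℝ} (hH : Y.Hgt χ (fun _ _ => 0))
    (e : (G × Y.B 1) × Bool) (he : HE Y χ e.1) : 0 ≤ χ (Additive.ofMul (Y.en e).1) :=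
  st_nonneg Y hH (e.1, !e.2) he

theorem en_inv (e : (G × Y.B 1) × Bool) : Y.en (e.1, !e.2) = Y.st e := by
  unfold HT.Cel.en
  simp

theorem path_append (P : G × Y.B 1 → Prop) (p q : List ((G × Y.B 1) × Bool))
    (v w : G × Y.B 0) :
    Y.IsPath P v (p ++ q) w ↔ ∃ u, Y.IsPath P v p u ∧ Y.IsPath P u q w := by
  induction p generalizing v with
  | nil =>
    constructor
    · intro h
      exact ⟨v, rfl, h⟩
    · rintro ⟨u, hu, h⟩
      have hu' : v = u := hu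
      subst hu'
      exact h
  | cons e p ih =>
    constructor
    · rintro ⟨h1, h2, h3⟩
      obtain ⟨u, hu, hq⟩ := (ih (Y.en e)).1 h3
      exact ⟨u, ⟨h1, h2, hu⟩, hq⟩
    · rintro ⟨u, ⟨h1, h2, hu⟩, hq⟩
      exact ⟨h1, h2, (ih (Y.en e)).2 ⟨u, hu, hq⟩⟩

theorem path_unique (P : G × Y.B 1 → Prop) (p : List ((G × Y.B 1) × Bool))
    (v w w' : G × Y.B 0) (h : Y.IsPath P v p w) (h' : Y.IsPath P v p w') : w = w' := by
  induction p generalizing v with
  | nil => exact (Eq.symm h).trans h'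
  | cons e p ih => exact ih (Y.en e) h.2.2 h'.2.2

theorem st_mv (g : G) (e : (G × Y.B 1) × Bool) :
    Y.st ((g * e.1.1, e.1.2), e.2) = (g * (Y.st e).1, (Y.st e).2) := by
  unfold HT.Cel.st
  split_ifs <;> simp [mul_assoc]

theorem path_mv (P P' : G × Y.B 1 → Prop) (g : G) (p : List ((G × Y.B 1) × Bool))
    (v w : G × Y.B 0) (h : Y.IsPath P v p w) (hP : ∀ e ∈ p, P' (g * e.1.1, e.1.2)) :
    Y.IsPath P' (g * v.1, v.2) (Y.mv g p) (g * w.1, w.2) := by
  induction p generalizing v with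
  | nil =>
    have h' : v = w := h
    subst h'
    rfl
  | cons e p ih =>
    obtain ⟨-, h2, h3⟩ := h
    refine ⟨hP e (by simp), ?_, ?_⟩
    · rw [st_mv, h2]
    · have h4 : Y.en ((g * e.1.1, e.1.2), e.2) = (g * (Y.en e).1, (Y.en e).2) :=
        st_mv Y g (e.1, !e.2)
      rw [h4]
      exact ih (Y.en e) h3 (fun e' he' => hP e' (by simp [he']))

variable {Y}
variable {ψ : Atl G Y.B} {χ : Additive G →+ ℝ}

theorem edge_ex (hEDP : StEDP) (hH : Y.Hgt χ (fun _ _ => 0)) (hL : Lo1 Y ψ)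
    (e : (G × Y.B 1) × Bool) (he : HE Y χ e.1) (x y : Hs Y ψ χ 3)
    (hx : x.1 = pt ψ 3 (vx Y (Y.st e))) (hy : y.1 = pt ψ 3 (vx Y (Y.en e))) :
    ∃ γ : Path x y, ∀ t : unitInterval, (γ t).1 = pt ψ 3 (ed Y e (2 * (t : ℝ) - 1)) := by
  obtain ⟨-, h2, h3, -, h5, h6, -⟩ := hEDP G Y ψ hL
  have hmem : ∀ s : ℝ, ed Y e s ∈ Pp (G := G) (B := Y.B) χ ∩ Lt 3 := fun s =>
    h6 _ e s (mem_vx Y (st_nonneg Y hH e he)) (mem_vx Y (en_nonneg Y hH e he)) (oc_sub Y he)
  have hc : Continuous (fun t : unitInterval => pt ψ 3 (ed Y e (2 * (t : ℝ) - 1))) := by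
    have h := h5 3 one_lt_three e
    exact h.comp (by fun_prop)
  refine ⟨⟨⟨fun t => ⟨pt ψ 3 (ed Y e (2 * (t : ℝ) - 1)), hmem _⟩, ?_⟩, ?_, ?_⟩, fun t => rfl⟩
  · exact hc.subtype_mk _
  · apply Subtype.ext
    change pt ψ 3 (ed Y e (2 * ((0 : unitInterval) : ℝ) - 1)) = x.1
    rw [hx, h2 e _ (by simp)]
  · apply Subtype.ext
    change pt ψ 3 (ed Y e (2 * ((1 : unitInterval) : ℝ) - 1)) = y.1
    rw [hy, h3 e _ (by norm_num)]

theorem cons_eq {x m y : Hs Y ψ χ 3} (e : (G × Y.B 1) × Bool) (v : G × Y.B 0)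
    (p : List ((G × Y.B 1) × Bool)) (γ : Path x y) (γ₁ : Path x m) (γ₂ : Path m y)
    (h1 : ∀ t : unitInterval, (γ₁ t).1 = pt ψ 3 (ed Y e (2 * (t : ℝ) - 1)))
    (h2 : Rel Y γ₂ (Y.en e) p) (h : Rel Y γ v (e :: p)) : γ = γ₁.trans γ₂ := by
  ext t
  apply congrArg
  apply Subtype.ext
  rw [h t, Path.trans_apply]
  change pt ψ 3 (if 2 * (t : ℝ) - 1 ≤ 0 then _ else _) = _
  by_cases ht : (t : ℝ) ≤ 1 / 2
  · rw [if_pos (by linarith), dif_pos ht, h1]
    congr 2
    change 2 * (2 * (t : ℝ) - 1) + 1 = 2 * (2 * (t : ℝ)) - 1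
    ring
  · rw [if_neg (by push Not at ht ⊢; linarith), dif_neg ht, h2]

theorem ends (hLOP : StLOP) (hL : Lo1 Y ψ) {x y : Hs Y ψ χ 3} (γ : Path x y)
    (v w : G × Y.B 0) (p : List ((G × Y.B 1) × Bool)) (hp : Y.IsPath (HE Y χ) v p w)
    (h : Rel Y γ v p) : x.1 = pt ψ 3 (vx Y v) ∧ y.1 = pt ψ 3 (vx Y w) := by
  obtain ⟨l1, l2, -⟩ := hLOP G Y ψ hL (HE Y χ) v w p hp
  constructor
  · have h0 := h 0
    rw [γ.source, l1 _ (by simp)] at h0
    exact h0
  · have h0 := h 1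
    rw [γ.target, l2 _ (by norm_num)] at h0
    exact h0

theorem rel_unique {N : ℕ∞} {x y : Hs Y ψ χ N} (γ γ' : Path x y) (v : G × Y.B 0)
    (p : List ((G × Y.B 1) × Bool)) (h : Rel Y γ v p) (h' : Rel Y γ' v p) : γ = γ' := by
  ext t
  apply congrArg
  apply Subtype.ext
  rw [h t, h' t]

end HTY

open HTY in
theorem I_HTY (hEDP : StEDP) (hLOP : StLOP) (hRCE : StRCE) (hAPP : StAPP) (hSEG : StSEG)
    (hDSC : StDSC) : StHTY := by
  have _ := hSEG
  intro G _ Y χ ψ hG hH hL v w p q hpq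
  have hL1 : Lo1 Y ψ := hL.1
  have rce := hRCE G Y χ ψ hH hL1 3 one_lt_three
  induction hpq generalizing w with
  | refl v p =>
    refine ⟨Iff.rfl, fun hp x y γ γ' h h' => ?_⟩
    rw [rel_unique γ γ' v p h h']
  | symm _ ih =>
    refine ⟨(ih w).1.symm, fun hp x y γ γ' h h' => ?_⟩
    exact ((ih w).2 ((ih w).1.2 hp) x y γ' γ h' h).symm
  | @trans v p q r _ _ ih₁ ih₂ =>
    refine ⟨(ih₁ w).1.trans (ih₂ w).1, fun hp x y γ γ' h h' => ?_⟩
    have hq := (ih₁ w).1.1 hp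
    obtain ⟨hx, hy⟩ := ends hLOP hL1 γ v w p hp h
    obtain ⟨δ, hδ⟩ := rce v w q x y hq hx hy
    exact ((ih₁ w).2 hp x y γ δ h hδ).trans ((ih₂ w).2 hq x y δ γ' hδ h')
  | @cons e p q he _ ih =>
    refine ⟨?_, fun hp x y γ γ' h h' => ?_⟩
    · constructor
      · rintro ⟨h1, h2, h3⟩
        exact ⟨h1, h2, (ih w).1.1 h3⟩
      · rintro ⟨h1, h2, h3⟩
        exact ⟨h1, h2, (ih w).1.2 h3⟩
    · obtain ⟨hx, hy⟩ := ends hLOP hL1 γ _ w _ hp h
      have hp2 : Y.IsPath (HE Y χ) (Y.en e) p w := hp.2.2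
      have hq2 : Y.IsPath (HE Y χ) (Y.en e) q w := (ih w).1.1 hp2
      let m : Hs Y ψ χ 3 := ⟨pt ψ 3 (vx Y (Y.en e)), mem_vx Y (en_nonneg Y hH e he)⟩
      obtain ⟨γ₁, hγ₁⟩ := edge_ex hEDP hH hL1 e he x m hx rfl
      obtain ⟨γp, hγp⟩ := rce _ _ p m y hp2 rfl hy
      obtain ⟨γq, hγq⟩ := rce _ _ q m y hq2 rfl hy
      rw [cons_eq e _ p γ γ₁ γp hγ₁ hγp h, cons_eq e _ q γ' γ₁ γq hγ₁ hγq h']
      exact Path.Homotopic.hcomp (Path.Homotopic.refl γ₁) ((ih w).2 hp2 m y γp γq hγp hγq)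
  | back e p he =>
    have he' : HE Y χ ((e.1, !e.2) : (G × Y.B 1) × Bool).1 := he
    have hiff : Y.IsPath (HE Y χ) (Y.st e) (e :: (e.1, !e.2) :: p) w ↔
        Y.IsPath (HE Y χ) (Y.st e) p w := by
      constructor
      · rintro ⟨-, -, -, -, h3⟩
        rwa [en_inv] at h3
      · intro h3
        refine ⟨he, rfl, he, rfl, ?_⟩
        rwa [en_inv]
    refine ⟨hiff, fun hp x y γ γ' h h' => ?_⟩
    obtain ⟨hx, hy⟩ := ends hLOP hL1 γ _ w _ hp h
    let m : Hs Y ψ χ 3 := ⟨pt ψ 3 (vx Y (Y.en e)), mem_vx Y (en_nonneg Y hH e he)⟩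
    obtain ⟨γ₁, hγ₁⟩ := edge_ex hEDP hH hL1 e he x m hx rfl
    obtain ⟨γ₂, hγ₂⟩ := edge_ex hEDP hH hL1 (e.1, !e.2) he' m x rfl (by rw [en_inv, hx])
    obtain ⟨δ, hδ⟩ := rce _ _ ((e.1, !e.2) :: p) m y hp.2.2 rfl hy
    have h'2 : Rel Y γ' (Y.en (e.1, !e.2)) p := by rw [en_inv]; exact h'
    have e1 : δ = γ₂.trans γ' := cons_eq (e.1, !e.2) _ p δ γ₂ γ' hγ₂ h'2 hδ
    have e2 : γ = γ₁.trans δ := cons_eq e _ _ γ γ₁ δ hγ₁ hδ h
    have e3 : γ₂ = γ₁.symm := by
      ext t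
      apply congrArg
      apply Subtype.ext
      rw [hγ₂ t, Path.symm_apply, Function.comp_apply, hγ₁, (hEDP G Y ψ hL1).2.2.2.1 e]
      congr 2
      rw [unitInterval.coe_symm_eq]
      ring
    rw [e2, e1, e3]
    have a1 : (γ₁.trans (γ₁.symm.trans γ')).Homotopic ((γ₁.trans γ₁.symm).trans γ') :=
      ⟨(Path.Homotopy.transAssoc γ₁ γ₁.symm γ').symm⟩
    have a2 : ((γ₁.trans γ₁.symm).trans γ').Homotopic ((Path.refl x).trans γ') :=
      Path.Homotopic.hcomp ⟨(Path.Homotopy.reflTransSymm γ₁).symm⟩ (Path.Homotopic.refl γ')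
    have a3 : ((Path.refl x).trans γ').Homotopic γ' := ⟨Path.Homotopy.reflTrans γ'⟩
    exact a1.trans (a2.trans a3)
  | cell c p hc =>
    set v₀ : G × Y.B 0 := (c.1 * (Y.bas c.2).1, (Y.bas c.2).2) with hv₀
    have hcl : Y.IsPath (HE Y χ) v₀ (Y.mv c.1 (Y.att c.2)) v₀ := by
      refine path_mv Y (fun _ => True) (HE Y χ) c.1 (Y.att c.2) (Y.bas c.2) (Y.bas c.2)
        (hG.clo c.2) ?_
      intro e he
      have h1 := hH.att c.2 e he
      have h2 : 0 ≤ χ (Additive.ofMul c.1) := hc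
      change 0 ≤ χ (Additive.ofMul (c.1 * e.1.1))
      rw [ofMul_mul, map_add]
      linarith
    have hiff : Y.IsPath (HE Y χ) v₀ (Y.mv c.1 (Y.att c.2) ++ p) w ↔
        Y.IsPath (HE Y χ) v₀ p w := by
      rw [path_append]
      constructor
      · rintro ⟨u, hu, h3⟩
        rw [← path_unique Y _ _ _ _ _ hcl hu] at h3
        exact h3
      · intro h3
        exact ⟨v₀, hcl, h3⟩
    refine ⟨hiff, fun hp x y γ γ' h h' => ?_⟩
    obtain ⟨hx, hy⟩ := ends hLOP hL1 γ _ w _ hp h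
    obtain ⟨α, hα⟩ := rce _ _ (Y.mv c.1 (Y.att c.2)) x x hcl hx hx
    have b1 : α.Homotopic (Path.refl x) := hDSC G Y χ ψ hG hH hL c hc x α hα
    have b2 : (α.trans γ').Homotopic γ :=
      hAPP G Y χ ψ hH hL1 3 one_lt_three _ p v₀ v₀ w x x y α γ' γ hcl (hiff.1 hp) hα h' h
    have b3 : (α.trans γ').Homotopic ((Path.refl x).trans γ') :=
      Path.Homotopic.hcomp b1 (Path.Homotopic.refl γ')
    have b4 : ((Path.refl x).trans γ').Homotopic γ' := ⟨Path.Homotopy.reflTrans γ'⟩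
    exact b2.symm.trans (b3.trans b4)

end Pool.Agent.Work.MP_e9e200_al.O3L

end

section

/-!
# Project O3L: item IC0, the incidence numbers of the edges and the vertices
-/

set_option autoImplicit false

namespace Pool.Agent.Work.MP_e9e200_al.O3L

open Set Metric Topology Pool.Agent.Work.MP_e9e200_al.O3A

namespace IC0

theorem eta (x : O3.E 1) : (fun _ : Fin 1 => x 0) = x := by
  funext i
  rw [Subsingleton.elim i 0]

theorem nrm (x : O3.E 1) : ‖x‖ = |x 0| := by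
  conv_lhs => rw [← eta x]
  rw [pi_norm_const, Real.norm_eq_abs]

theorem mir_eq (x : O3.E 1) : O3.mir (0 : Fin 1) x = -x := by
  funext i
  rw [Subsingleton.elim i 0]
  unfold O3.mir
  simp

theorem CS_neg (f : O3.E 1 → O3.W 1 1) (h : O3.CS OnePoint.infty f) :
    O3.CS OnePoint.infty (fun x => f (-x)) := by
  obtain ⟨h1, r, h2⟩ := h
  exact ⟨h1.comp continuous_neg, r, fun x hx => h2 _ (by rwa [norm_neg])⟩

theorem deg_neg (hCL4 : O3.StCL4) (hHOMD : O3.StHOMD) (f : O3.E 1 → O3.W 1 1)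
    (h : O3.CS OnePoint.infty f) :
    O3.deg (0 : Fin 1) (fun x => f (-x)) = - O3.deg (0 : Fin 1) f := by
  obtain ⟨Δ, hΔ⟩ := hHOMD 1 0 (0 : Fin 1)
  have h1 := hCL4 0 (O3.W 1 1) OnePoint.infty f (0 : Fin 1) h
  simp only [mir_eq] at h1
  have h2 := hΔ _ (CS_neg f h)
  have h3 := hΔ _ h
  rw [h1, map_inv, h3] at h2
  have h4 := congrArg Multiplicative.toAdd h2
  simpa using h4.symm

theorem deg_inf (hDPR : O3.StDPR) :
    O3.deg (0 : Fin 1) (fun _ : O3.E 1 => (OnePoint.infty : O3.W 1 1)) = 0 :=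
  (hDPR 1 1 0).2.2.1 _ fun _ _ _ h => absurd h (OnePoint.infty_ne_coe _)

theorem CS_inf : O3.CS OnePoint.infty (fun _ : O3.E 1 => (OnePoint.infty : O3.W 1 1)) :=
  ⟨continuous_const, 0, fun _ _ => rfl⟩

/-- rescaling -/
theorem resc (hDEG : O3.StDEG) (hHO : O3.StHO) (g : O3.E 1 → O3.W 1 1)
    (hg : O3.Lo OnePoint.infty g) (s : ℝ) (hs : |s| ≤ 1) :
    O3.CS OnePoint.infty (fun x : O3.E 1 => g (fun _ => 2 * x 0 + s)) ∧
    O3.deg (0 : Fin 1) (fun x : O3.E 1 => g (fun _ => 2 * x 0 + s)) = O3.deg (0 : Fin 1) g := by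
  have key : ∀ t ∈ Icc (0 : ℝ) 1, ∀ x : O3.E 1, 2 ≤ ‖x‖ →
      g (fun _ => (1 + t) * x 0 + t * s) = OnePoint.infty := by
    intro t ht x hx
    apply hg.2
    rw [nrm] at hx ⊢
    have h0 := ht.1
    have h1 := ht.2
    obtain ⟨hs1, hs2⟩ := abs_le.mp hs
    rcases le_abs.mp hx with hx | hx
    · refine le_abs.mpr (Or.inl ?_)
      nlinarith
    · refine le_abs.mpr (Or.inr ?_)
      nlinarith
  have hH := (hHO 1 (O3.W 1 1) OnePoint.infty).2.2.2.2
    (fun q : ℝ × O3.E 1 => g (fun _ => (1 + q.1) * q.2 0 + q.1 * s)) 2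
    (hg.1.comp (by fun_prop)).continuousOn key
  have e0 : (fun x : O3.E 1 => g (fun _ => (1 + (0 : ℝ)) * x 0 + 0 * s)) = g := by
    funext x
    congr 1
    funext i
    rw [Subsingleton.elim i 0]
    ring
  have e1 : (fun x : O3.E 1 => g (fun _ => (1 + (1 : ℝ)) * x 0 + 1 * s)) =
      fun x : O3.E 1 => g (fun _ => 2 * x 0 + s) := by
    funext x
    congr 1
    funext i
    ring
  have hH' : O3.Ho OnePoint.infty g (fun x : O3.E 1 => g (fun _ => 2 * x 0 + s)) := by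
    rw [← e1]
    conv_lhs => rw [← e0]
    exact hH
  exact ⟨((hHO 1 (O3.W 1 1) OnePoint.infty).2.2.2.1 _ _ hH').2, ((hDEG 1 1 0).2 _ _ hH').symm⟩

variable {G : Type} [Group G] (Y : HT.Cel G)

theorem vx_ne {v c : G × Y.B 0} (h : v ≠ c) (y : E 0) (hy : y ∈ ball (0 : E 0) 1) :
    vx Y v ≠ mk 0 c y hy := by
  intro h1
  have h2 := eq_of_heq
    ((Sigma.mk.inj_iff (β := fun n : ℕ => (G × Y.B n) × ball (0 : E n) 1)).mp h1).2
  exact h (Prod.mk.inj h2).1

open scoped Classical in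
/-- the value of the suspension on a ray -/
theorem cv (hQPB : O3.StQPB) (v c : G × Y.B 0) (τ : ℝ) :
    O3.comb (O3.qp 0 c (vx Y v)) τ = if v = c then O3.io (0 : Fin 1) (fun _ : Fin 1 => τ)
      else (OnePoint.infty : O3.W 1 1) := by
  by_cases h : v = c
  · rw [if_pos h]
    subst h
    have h1 : O3.qp 0 v (vx Y v) = ((((0 : Fin 1), O3.psi (0 : O3.E 0)) : Fin 1 × O3.E 0) :
        O3.W 1 0) := (hQPB G Y.B 0 v).1 0 (by simp)
    rw [h1]
    unfold O3.comb O3.io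
    rw [OnePoint.elim_some, nrm]
    split_ifs with h2
    · congr 2
      funext i
      obtain rfl : i = 0 := Subsingleton.elim (α := Fin 1) i 0
      unfold O3.psi
      rw [nrm]
      simp only [Fin.cons_zero, Pi.smul_apply, smul_eq_mul]
      rw [div_eq_inv_mul]
    · rfl
  · rw [if_neg h]
    have h1 : O3.qp 0 c (vx Y v) = (OnePoint.infty : O3.W 1 0) :=
      (hQPB G Y.B 0 c).2.1 _ fun y hy => vx_ne Y h y hy
    rw [h1]
    rfl

open scoped Classical in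
theorem sus (hQPB : O3.StQPB) (b : Y.B 1) (c : G × Y.B 0) (x : O3.E 1) :
    O3.Sus (fun y => O3.qp 0 c (psi1 Y b y)) x =
      if 0 ≤ x 0 then (if Y.tgt b = c then O3.io (0 : Fin 1) (fun _ : Fin 1 => 2 * x 0 + -1)
        else (OnePoint.infty : O3.W 1 1))
      else (if Y.src b = c then O3.io (0 : Fin 1) (fun _ : Fin 1 => 2 * (-x) 0 + -1)
        else (OnePoint.infty : O3.W 1 1)) := by
  unfold O3.Sus psi1
  by_cases h : 0 ≤ x 0
  · rw [if_pos h]
    have h1 : 0 ≤ (‖x‖⁻¹ • x) 0 := by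
      rw [Pi.smul_apply, smul_eq_mul]
      positivity
    beta_reduce
    rw [if_pos h1, cv Y hQPB, nrm, abs_of_nonneg h, sub_eq_add_neg]
  · rw [if_neg h]
    rw [not_le] at h
    have h1 : ¬ 0 ≤ (‖x‖⁻¹ • x) 0 := by
      rw [Pi.smul_apply, smul_eq_mul, not_le, nrm, abs_of_neg h]
      exact mul_neg_of_pos_of_neg (inv_pos.mpr (by linarith)) h
    beta_reduce
    rw [if_neg h1, cv Y hQPB, nrm, abs_of_neg h, sub_eq_add_neg]
    rfl

end IC0

theorem I_IC0 (hQPB : O3.StQPB) (hCOMB : O3.StCOMB) (hDADD : O3.StDADD) (hDNRM : O3.StDNRM)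
    (hDIO : O3.StDIO) (hDPR : O3.StDPR) (hDEG : O3.StDEG) (hHO : O3.StHO) (hCL4 : O3.StCL4)
    (hHOMD : O3.StHOMD) : StIC0 := by
  classical
  have _ := hCOMB
  have _ := hDNRM
  intro G _ Y hY b c
  have hio := (hDPR 1 1 0).2.2.2 (0 : Fin 1)
  obtain ⟨r1, r2⟩ := IC0.resc hDEG hHO (O3.io (0 : Fin 1)) hio.2 (-1) (by simp)
  have r3 : O3.deg (0 : Fin 1) (O3.io (0 : Fin 1) : O3.E 1 → O3.W 1 1) = 1 := by
    rw [hDIO 1 1 0 0]
    simp
  rw [r3] at r2
  have n1 := IC0.CS_neg _ r1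
  have n2 := IC0.deg_neg hCL4 hHOMD _ r1
  rw [r2] at n2
  have hinf : ∀ x : O3.E 1, x 0 ≤ 0 → O3.io (0 : Fin 1) (fun _ : Fin 1 => 2 * x 0 + -1) =
      (OnePoint.infty : O3.W 1 1) := by
    intro x hx
    refine hio.2.2 _ ?_
    rw [IC0.nrm]
    exact le_abs.mpr (Or.inr (by linarith))
  unfold O3.icn
  have hD := hDADD 1 1 0
    (fun x : O3.E 1 => if Y.tgt b = c then O3.io (0 : Fin 1) (fun _ : Fin 1 => 2 * x 0 + -1)
        else (OnePoint.infty : O3.W 1 1))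
    (fun x : O3.E 1 => if Y.src b = c then O3.io (0 : Fin 1) (fun _ : Fin 1 => 2 * (-x) 0 + -1)
        else (OnePoint.infty : O3.W 1 1))
    (O3.Sus (fun y => O3.qp 0 c (psi1 Y b y)))
    (by
      by_cases h : Y.tgt b = c
      · simp only [if_pos h]
        exact r1
      · simp only [if_neg h]
        exact IC0.CS_inf)
    (by
      by_cases h : Y.src b = c
      · simp only [if_pos h]
        exact n1
      · simp only [if_neg h]
        exact IC0.CS_inf)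
    (fun x => by
      rcases le_total (x 0) 0 with hx | hx
      · left
        simp only [hinf x hx, ite_self]
      · right
        have h1 : (-x) 0 ≤ 0 := by
          rw [Pi.neg_apply]
          linarith
        simp only [hinf (-x) h1, ite_self])
    (fun x => by
      by_cases hx : 0 ≤ x 0
      · left
        rw [IC0.sus Y hQPB, if_pos hx]
      · right
        simp only [hinf x (le_of_lt (not_le.mp hx)), ite_self])
    (fun x => by
      by_cases hx : 0 ≤ x 0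
      · right
        have h1 : (-x) 0 ≤ 0 := by
          rw [Pi.neg_apply]
          linarith
        simp only [hinf (-x) h1, ite_self]
      · left
        rw [IC0.sus Y hQPB, if_neg hx])
    (fun x h1 h2 => by
      rw [IC0.sus Y hQPB]
      by_cases hx : 0 ≤ x 0
      · rw [if_pos hx]
        exact h1
      · rw [if_neg hx]
        exact h2)
  rw [hD.2, hY.d0 b, Finsupp.sub_apply, Finsupp.single_apply, Finsupp.single_apply]
  have d1 : O3.deg (0 : Fin 1) (fun x : O3.E 1 => if Y.tgt b = c then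
      O3.io (0 : Fin 1) (fun _ : Fin 1 => 2 * x 0 + -1) else (OnePoint.infty : O3.W 1 1)) =
      if Y.tgt b = c then 1 else 0 := by
    by_cases h : Y.tgt b = c
    · simp only [if_pos h]
      exact r2
    · simp only [if_neg h]
      exact IC0.deg_inf hDPR
  have d2 : O3.deg (0 : Fin 1) (fun x : O3.E 1 => if Y.src b = c then
      O3.io (0 : Fin 1) (fun _ : Fin 1 => 2 * (-x) 0 + -1) else (OnePoint.infty : O3.W 1 1)) =
      if Y.src b = c then -1 else 0 := by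
    by_cases h : Y.src b = c
    · simp only [if_pos h]
      exact n2
    · simp only [if_neg h]
      exact IC0.deg_inf hDPR
  rw [d1, d2]
  split_ifs <;> ring

end Pool.Agent.Work.MP_e9e200_al.O3L

end

section

/-!
# Item ICL of the project O3L: the incidence numbers of the 2-cells and the edges
-/

set_option autoImplicit false

namespace Pool.Agent.Work.MP_e9e200_al.O3L

open Set Metric Topology Pool.Agent.Work.MP_e9e200_al.O3A

namespace ICL

theorem vx_ne {G : Type} [Group G] (Y : HT.Cel G) (v : G × Y.B 0) (c : G × Y.B 1) (y : E 1)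
    (hy : y ∈ ball (0 : E 1) 1) : vx Y v ≠ mk 1 c y hy := by
  intro h
  have h1 := congrArg Sigma.fst h
  simp [vx, ctr, mk] at h1

theorem qp_vx (hQPB : O3.StQPB) {G : Type} [Group G] (Y : HT.Cel G) (v : G × Y.B 0)
    (c : G × Y.B 1) : O3.qp 1 c (vx Y v) = OnePoint.infty :=
  (hQPB G Y.B 1 c).2.1 _ (fun y hy => vx_ne Y v c y hy)

theorem qp_psi2 (hQPB : O3.StQPB) {G : Type} [Group G] (Y : HT.Cel G) (b : Y.B 2)
    (c : G × Y.B 1) : (fun y : E 2 => O3.qp 1 c (psi2 Y b y)) =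
      O3.fac OnePoint.infty (fun x : E 1 => O3.qp 1 c (lo Y (Y.bas b) (Y.att b) (x 0))) := by
  funext y
  unfold psi2 O3.fac
  by_cases h : y 0 = 1
  · rw [if_pos h, if_pos h]
  · rw [if_neg h, if_neg h]
    exact qp_vx hQPB Y _ c

end ICL

theorem I_ICL (hEDP : StEDP) (hLOP : StLOP) (hDGL : StDGL) (hQPB : O3.StQPB)
    (hSUSP : O3.StSUSP) : StICL := by
  intro G _ Y hg b c
  have _h1 := hEDP
  have _h2 := hLOP
  obtain ⟨hcs, hout, hdeg⟩ := hDGL G Y c (fun _ => True) (Y.bas b) (Y.bas b) (Y.att b) (hg.clo b)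
  have h := hSUSP 1 0 (0 : Fin 1)
    (fun x : O3.E 1 => O3.qp 1 c (lo Y (Y.bas b) (Y.att b) (x 0))) ⟨hcs.1, hout⟩
  have h2 : O3.icn 1 (psi2 Y b) c = O3.deg (0 : Fin 1)
      (O3.Sus (fun y : E 2 => O3.qp 1 c (psi2 Y b y))) := rfl
  rw [h2, ICL.qp_psi2 hQPB Y b c]
  refine h.trans ?_
  rw [hdeg, hg.d1]

end Pool.Agent.Work.MP_e9e200_al.O3L

end

section

/-!
# Project O3L, item LOP
-/

set_option autoImplicit false

namespace Pool.Agent.Work.MP_e9e200_al.O3L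

open Set Metric Topology Pool.Agent.Work.MP_e9e200_al.O3A

theorem I_LOP (hEDP : StEDP) : StLOP := by
  intro G _ Y ψ hψ P v w p
  obtain ⟨-, E2, E3, -, E5, E6, E7⟩ := hEDP G Y ψ hψ
  induction p generalizing v with
  | nil =>
    intro h
    have hvw : v = w := h
    subst hvw
    refine ⟨fun _ _ => rfl, fun _ _ => rfl, fun N _ => ?_, fun S hS _ _ => hS, fun g t => rfl⟩
    exact continuous_const
  | cons e p ih =>
    intro h
    have h1 : P e.1 := h.1
    have h2 : Y.st e = v := h.2.1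
    have h3 : Y.IsPath P (Y.en e) p w := h.2.2
    obtain ⟨I1, I2, I3, I4, I5⟩ := ih (Y.en e) h3
    have hlo : ∀ t : ℝ, lo Y v (e :: p) t =
        if t ≤ 0 then ed Y e (2 * t + 1) else lo Y (Y.en e) p (2 * t - 1) := fun t => rfl
    refine ⟨fun t ht => ?_, fun t ht => ?_, fun N hN => ?_, fun S hS hP t => ?_, fun g t => ?_⟩
    · rw [hlo, if_pos (by linarith), E2 _ _ (by linarith), h2]
    · rw [hlo, if_neg (by linarith), I2 _ (by linarith)]
    · have : (fun t : ℝ => pt ψ N (lo Y v (e :: p) t)) = fun t : ℝ =>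
          if t ≤ 0 then pt ψ N (ed Y e (2 * t + 1)) else pt ψ N (lo Y (Y.en e) p (2 * t - 1)) := by
        funext t
        rw [hlo]
        split_ifs <;> rfl
      rw [this]
      refine Continuous.if_le ?_ ?_ continuous_id continuous_const ?_
      · exact (E5 N hN e).comp (by fun_prop : Continuous fun t : ℝ => 2 * t + 1)
      · exact (I3 N hN).comp (by fun_prop : Continuous fun t : ℝ => 2 * t - 1)
      · intro t ht
        have ht' : t = 0 := ht
        subst ht'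
        rw [E3 _ _ (by norm_num), I1 _ (by norm_num)]
    · rw [hlo]
      have hc := hP e.1 h1
      have hst : vx Y (Y.st e) ∈ S ∧ vx Y (Y.en e) ∈ S := by
        obtain ⟨c, σ⟩ := e
        cases σ
        · refine ⟨?_, ?_⟩
          · exact hc.2.1
          · exact hc.1
        · exact ⟨hc.1, hc.2.1⟩
      split_ifs with h0
      · exact E6 S e _ hst.1 hst.2 hc.2.2
      · exact I4 S hst.2 hP _
    · have hmv : Y.mv g (e :: p) = ((g * e.1.1, e.1.2), e.2) :: Y.mv g p := rfl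
      have hen : Y.en ((g * e.1.1, e.1.2), e.2) = (g * (Y.en e).1, (Y.en e).2) := by
        obtain ⟨⟨g', b⟩, σ⟩ := e
        cases σ <;> simp [HT.Cel.st, HT.Cel.en, mul_assoc]
      rw [hmv, hlo]
      show _ = if t ≤ 0 then ed Y ((g * e.1.1, e.1.2), e.2) (2 * t + 1) else
        lo Y (Y.en ((g * e.1.1, e.1.2), e.2)) (Y.mv g p) (2 * t - 1)
      rw [hen]
      split_ifs with h0
      · exact E7 g e _
      · exact I5 g _

end Pool.Agent.Work.MP_e9e200_al.O3L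

end

section

/-!
# Project O3L, item LOW
-/

set_option autoImplicit false

namespace Pool.Agent.Work.MP_e9e200_al.O3L

open Set Metric Topology Pool.Agent.Work.MP_e9e200_al.O3A

/-- the attaching maps -/
noncomputable def ps {G : Type} [Group G] (Y : HT.Cel G) : Atl G Y.B
  | 0 => fun b _ => ctr 0 (1, b)
  | 1 => fun b y => psi1 Y b y
  | 2 => fun b y => psi2 Y b y
  | (n + 3) => fun b _ => ctr (n + 3) (1, b)

theorem I_LOW (_hPHB : StPHB) (hSKM : StSKM) (hGDL : StGDL) (hICL : StICL) (hIC0 : StIC0)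
    (hEX0 : StEX0) (hEX1 : StEX1) : O3.StLOW := by
  intro G _ Y χ hY
  have hgood := hY.good
  have hhgt := hY.hgt
  have hLo2 : Lo2 Y (ps Y) := ⟨fun _ => rfl, fun _ => rfl⟩
  have hLo1 : Lo1 Y (ps Y) := hLo2.1
  have hG1 : Y.Ge χ (fun _ _ => 0) 0 1 = HE Y χ := by
    funext c
    simp only [HT.Cel.Ge, HE, add_zero]
  have hG2 : Y.Ge χ (fun _ _ => 0) 0 2 = HC Y χ := by
    funext c
    simp only [HT.Cel.Ge, HC, add_zero]
  have hc := hY.conn 2
  have hne : ∃ v : G × Y.B 0, 0 ≤ χ (Additive.ofMul v.1) := by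
    obtain ⟨v, hv⟩ := (hc.1 (by norm_num)).1
    refine ⟨v, ?_⟩
    simpa only [HT.Cel.Ge, add_zero] using hv
  have hp : ∀ v w : G × Y.B 0, 0 ≤ χ (Additive.ofMul v.1) → 0 ≤ χ (Additive.ofMul w.1) →
      ∃ p, Y.IsPath (HE Y χ) v p w := by
    intro v w hv hw
    have := (hc.1 (by norm_num)).2 v w (by simpa only [HT.Cel.Ge, add_zero] using hv)
      (by simpa only [HT.Cel.Ge, add_zero] using hw)
    rwa [hG1] at this
  have hs : ∀ (v : G × Y.B 0) (p : List ((G × Y.B 1) × Bool)), 0 ≤ χ (Additive.ofMul v.1) →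
      Y.IsPath (HE Y χ) v p v → Y.Hty (HE Y χ) (HC Y χ) v p [] := by
    intro v p hv hpa
    have := hc.2.1 (by norm_num) v p (by simpa only [HT.Cel.Ge, add_zero] using hv)
      (by rwa [hG1])
    rwa [hG1, hG2] at this
  have hgd3 : Gd (ps Y) 3 := (hGDL G Y (ps Y)).2.1 hgood hLo2
  have h3 : ((3 : ℕ) : ℕ∞) = 3 := rfl
  have h2 : ((2 : ℕ) : ℕ∞) = 2 := rfl
  refine ⟨ps Y, ?_, ?_, ?_, ?_⟩
  · rw [h3]
    exact hgd3
  · intro i hi b y hy
    exact (hGDL G Y (ps Y)).2.2 χ hgood hhgt hLo2 i b hi y hy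
  · intro i hi b c
    have : i = 0 ∨ i = 1 := by omega
    rcases this with rfl | rfl
    · exact hIC0 G Y hgood b c
    · exact hICL G Y hgood b c
  · intro j hj
    have : j = 0 ∨ j = 1 := by omega
    rcases this with rfl | rfl
    · have h0 := hEX0 G Y χ (ps Y) hhgt hLo1 hp
      have hle : (2 : ℕ∞) ≤ 3 := by
        rw [← h3, ← h2]
        exact_mod_cast (by norm_num : (2 : ℕ) ≤ 3)
      exact ((hSKM G Y.B (ps Y) 3 2 hgd3 hle).2.2.2 _ 0 (fun _ h => h.2)).2 h0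
    · exact hEX1 G Y χ (ps Y) hgood hhgt hLo2 hne hp hs

end Pool.Agent.Work.MP_e9e200_al.O3L

end

section

/-!
# Project O3L, item OPE: open subsets of the graph
-/

set_option autoImplicit false

namespace Pool.Agent.Work.MP_e9e200_al.O3L

open Set Metric Topology Pool.Agent.Work.MP_e9e200_al.O3A

namespace OPE

theorem mem_cb (y : E 1) : y ∈ closedBall (0 : E 1) 1 ↔ -1 ≤ y 0 ∧ y 0 ≤ 1 := by
  rw [mem_closedBall_zero_iff, pi_norm_le_iff_of_nonneg zero_le_one]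
  constructor
  · intro h
    exact abs_le.1 (by simpa using h 0)
  · intro h i
    have : i = 0 := Subsingleton.elim _ _
    rw [this]
    exact abs_le.2 h

theorem mem_b (s : ℝ) : (fun _ : Fin 1 => s) ∈ ball (0 : E 1) 1 ↔ -1 < s ∧ s < 1 := by
  rw [mem_ball_zero_iff, pi_norm_lt_iff zero_lt_one]
  constructor
  · intro h
    exact abs_lt.1 (by simpa using h 0)
  · intro h i
    exact abs_lt.2 h

theorem vx_inj {G : Type} [Group G] (hPHB : StPHB) (Y : HT.Cel G) (ψ : Atl G Y.B)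
    (v w : G × Y.B 0) (h : vx Y v = vx Y w) : v = w :=
  ((hPHB G Y.B ψ).2.2.2.2.1 0 v w 0 0 (by simp) (by simp) h).1

theorem ed_in {G : Type} [Group G] (Y : HT.Cel G) (c : G × Y.B 1) (s : ℝ) (h1 : -1 < s)
    (h2 : s < 1) : ed Y (c, true) s = mk 1 c (fun _ => s) ((mem_b s).2 ⟨h1, h2⟩) := by
  have h : (fun _ : Fin 1 => if ((c, true) : (G × Y.B 1) × Bool).2 then s else -s) ∈
      ball (0 : E 1) 1 := (mem_b s).2 ⟨h1, h2⟩
  unfold ed
  rw [dif_pos h]
  rfl

theorem ed_in' {G : Type} [Group G] (Y : HT.Cel G) (c : G × Y.B 1) (s : ℝ) (h1 : -1 < s)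
    (h2 : s < 1) : ed Y (c, false) s =
      mk 1 c (fun _ => -s) ((mem_b (-s)).2 ⟨by linarith, by linarith⟩) := by
  have h : (fun _ : Fin 1 => if ((c, false) : (G × Y.B 1) × Bool).2 then s else -s) ∈
      ball (0 : E 1) 1 := (mem_b (-s)).2 ⟨by linarith, by linarith⟩
  unfold ed
  rw [dif_pos h]
  rfl

theorem vx_ne {G : Type} [Group G] (hPHB : StPHB) (Y : HT.Cel G) (ψ : Atl G Y.B)
    (v : G × Y.B 0) (c : G × Y.B 1) (y : E 1) (h : y ∈ ball (0 : E 1) 1) :
    vx Y v ≠ mk 1 c y h := by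
  intro H
  have h1 := congrArg Pt.dim H
  have h2 := ((hPHB G Y.B ψ).2.2.2.2.2.2 1 c y h).1
  have h3 := ((hPHB G Y.B ψ).2.2.2.2.2.2 0 v 0 (by simp)).1
  rw [h2] at h1
  have h4 : (vx Y v).dim = 0 := h3
  omega

/-- the criterion for open sets -/
theorem crit {G : Type} [Group G] (hCRT : StCRT) (hEDP : StEDP) (Y : HT.Cel G) (ψ : Atl G Y.B)
    (hψ : Lo1 Y ψ) (U : Set (Pt G Y.B))
    (h : ∀ c : G × Y.B 1, IsClosed {s : ℝ | (-1 ≤ s ∧ s ≤ 1) ∧ ed Y (c, true) s ∉ U}) :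
    IsOpen (st ψ 2 U) := by
  have h1 := ((hCRT G Y.B ψ 2).1 Uᶜ).2 (by
    intro n hn c
    have hn2 : n < 2 := by exact_mod_cast hn
    interval_cases n
    · exact (Set.Subsingleton.isClosed (fun a _ b _ => Subsingleton.elim a b))
    · have h2 : closedBall (0 : E 1) 1 ∩ {y | Ph ψ 1 c y ∈ Uᶜ} =
          (fun y : E 1 => y 0) ⁻¹' {s : ℝ | (-1 ≤ s ∧ s ≤ 1) ∧ ed Y (c, true) s ∉ U} := by
        ext y
        constructor
        · rintro ⟨h3, h4⟩
          have h5 := (mem_cb y).1 h3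
          refine ⟨h5, ?_⟩
          have h6 := (hEDP G Y ψ hψ).1 (c, true) (y 0) h5.1 h5.2
          rw [h6]
          have h7 : (fun _ : Fin 1 => if ((c, true) : (G × Y.B 1) × Bool).2 then y 0 else -y 0) =
              y := by
            funext i
            rw [Subsingleton.elim i 0]
            rfl
          rw [h7]
          exact h4
        · rintro ⟨h5, h4⟩
          refine ⟨(mem_cb y).2 h5, ?_⟩
          have h6 := (hEDP G Y ψ hψ).1 (c, true) (y 0) h5.1 h5.2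
          rw [h6] at h4
          have h7 : (fun _ : Fin 1 => if ((c, true) : (G × Y.B 1) × Bool).2 then y 0 else -y 0) =
              y := by
            funext i
            rw [Subsingleton.elim i 0]
            rfl
          rw [h7] at h4
          exact h4
      rw [h2]
      exact (h c).preimage (continuous_apply 0))
  have h3 : st ψ 2 U = (st ψ 2 Uᶜ)ᶜ := (compl_compl (st ψ 2 U)).symm
  rw [h3]
  exact h1.isOpen_compl

theorem ed_oc {G : Type} [Group G] (hPHB : StPHB) (hEDP : StEDP) (Y : HT.Cel G) (ψ : Atl G Y.B)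
    (hψ : Lo1 Y ψ) (c c' : G × Y.B 1) (s : ℝ) :
    ed Y (c', true) s ∈ oc 1 c ↔ c' = c ∧ -1 < s ∧ s < 1 := by
  constructor
  · rintro ⟨y, h, e⟩
    by_cases h1 : -1 < s
    · by_cases h2 : s < 1
      · rw [ed_in Y c' s h1 h2] at e
        exact ⟨((hPHB G Y.B ψ).2.2.2.2.1 1 c' c _ y _ h e).1, h1, h2⟩
      · rw [(hEDP G Y ψ hψ).2.2.1 (c', true) s (not_lt.1 h2)] at e
        exact absurd e (vx_ne hPHB Y ψ _ _ _ _)
    · rw [(hEDP G Y ψ hψ).2.1 (c', true) s (not_lt.1 h1)] at e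
      exact absurd e (vx_ne hPHB Y ψ _ _ _ _)
  · rintro ⟨rfl, h1, h2⟩
    exact ⟨_, _, ed_in Y c' s h1 h2⟩

theorem ed_star {G : Type} [Group G] (hPHB : StPHB) (hEDP : StEDP) (Y : HT.Cel G) (ψ : Atl G Y.B)
    (hψ : Lo1 Y ψ) (v : G × Y.B 0) (c : G × Y.B 1) (s : ℝ) (hs1 : -1 ≤ s) (hs2 : s ≤ 1) :
    ed Y (c, true) s ∈ Star Y v ↔
      (Y.st (c, true) = v ∧ s < -(1 / 4)) ∨ (Y.st (c, false) = v ∧ 1 / 4 < s) := by
  obtain ⟨-, e2, e3, e4, -⟩ := hEDP G Y ψ hψ
  -- an element `ed Y e s'` with `-1 < s' < -1/4` is never a vertex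
  have hv : ∀ (w : G × Y.B 0) (e : (G × Y.B 1) × Bool) (s' : ℝ), -1 < s' → s' < -(1 / 4) →
      vx Y w ≠ ed Y e s' := by
    rintro w ⟨c', b⟩ s' h1 h2
    cases b
    · rw [ed_in' Y c' s' h1 (by linarith)]
      exact vx_ne hPHB Y ψ _ _ _ _
    · rw [ed_in Y c' s' h1 (by linarith)]
      exact vx_ne hPHB Y ψ _ _ _ _
  rcases lt_or_eq_of_le hs1 with h1 | h1
  · rcases lt_or_eq_of_le hs2 with h2 | h2
    · constructor
      · rintro (h | ⟨⟨c', b⟩, s', hst, h3, h4, he⟩)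
        · rw [ed_in Y c s h1 h2] at h
          exact absurd h.symm (vx_ne hPHB Y ψ _ _ _ _)
        · rw [ed_in Y c s h1 h2] at he
          cases b
          · rw [ed_in' Y c' s' h3 (by linarith)] at he
            obtain ⟨h5, h6⟩ := (hPHB G Y.B ψ).2.2.2.2.1 1 _ _ _ _ _ _ he
            have h7 : s = -s' := congrFun h6 0
            right
            rw [h5]
            exact ⟨hst, by linarith⟩
          · rw [ed_in Y c' s' h3 (by linarith)] at he
            obtain ⟨h5, h6⟩ := (hPHB G Y.B ψ).2.2.2.2.1 1 _ _ _ _ _ _ he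
            have h7 : s = s' := congrFun h6 0
            left
            rw [h5]
            exact ⟨hst, by linarith⟩
      · rintro (⟨h3, h4⟩ | ⟨h3, h4⟩)
        · exact Or.inr ⟨(c, true), s, h3, h1, h4, rfl⟩
        · exact Or.inr ⟨(c, false), -s, h3, by linarith, by linarith, e4 (c, false) s⟩
    · rw [e3 (c, true) s h2.ge]
      constructor
      · rintro (h | ⟨e, s', hst, h3, h4, he⟩)
        · exact Or.inr ⟨vx_inj hPHB Y ψ _ _ h, by linarith⟩
        · exact absurd he (hv _ e s' h3 h4)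
      · rintro (⟨h3, h4⟩ | ⟨h3, h4⟩)
        · exfalso
          linarith
        · left
          rw [← h3]
          rfl
  · rw [e2 (c, true) s h1.ge]
    constructor
    · rintro (h | ⟨e, s', hst, h3, h4, he⟩)
      · exact Or.inl ⟨vx_inj hPHB Y ψ _ _ h, by linarith⟩
      · exact absurd he (hv _ e s' h3 h4)
    · rintro (⟨h3, h4⟩ | ⟨h3, h4⟩)
      · left
        rw [← h3]
      · exfalso
        linarith

end OPE

open OPE in
theorem I_OPE (hPHB : StPHB) (hCRT : StCRT) (hEDP : StEDP) : StOPE := by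
  intro G _ Y ψ hψ
  refine ⟨fun c => ?_, fun v => ?_, ?_⟩
  · refine crit hCRT hEDP Y ψ hψ _ fun c' => ?_
    by_cases hc : c' = c
    · have h : {s : ℝ | (-1 ≤ s ∧ s ≤ 1) ∧ ed Y (c', true) s ∉ oc 1 c} = {-1, 1} := by
        ext s
        rw [mem_setOf_eq, ed_oc hPHB hEDP Y ψ hψ, mem_insert_iff, mem_singleton_iff]
        constructor
        · rintro ⟨⟨h1, h2⟩, h3⟩
          by_contra h4
          rw [not_or] at h4
          exact h3 ⟨hc, lt_of_le_of_ne h1 (Ne.symm h4.1), lt_of_le_of_ne h2 h4.2⟩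
        · rintro (rfl | rfl)
          · exact ⟨⟨le_rfl, by norm_num⟩, fun h => absurd h.2.1 (lt_irrefl _)⟩
          · exact ⟨⟨by norm_num, le_rfl⟩, fun h => absurd h.2.2 (lt_irrefl _)⟩
      rw [h]
      exact (Set.toFinite _).isClosed
    · have h : {s : ℝ | (-1 ≤ s ∧ s ≤ 1) ∧ ed Y (c', true) s ∉ oc 1 c} = Icc (-1) 1 := by
        ext s
        rw [mem_setOf_eq, ed_oc hPHB hEDP Y ψ hψ]
        exact ⟨fun h => h.1, fun h => ⟨h, fun h2 => hc h2.1⟩⟩
      rw [h]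
      exact isClosed_Icc
  · refine crit hCRT hEDP Y ψ hψ _ fun c => ?_
    have h : {s : ℝ | (-1 ≤ s ∧ s ≤ 1) ∧ ed Y (c, true) s ∉ Star Y v} =
        Icc (-1) 1 ∩ ({s : ℝ | Y.st (c, true) = v → -(1 / 4) ≤ s} ∩
          {s : ℝ | Y.st (c, false) = v → s ≤ 1 / 4}) := by
      ext s
      constructor
      · rintro ⟨h1, h2⟩
        rw [ed_star hPHB hEDP Y ψ hψ v c s h1.1 h1.2, not_or] at h2
        refine ⟨h1, fun h3 => ?_, fun h3 => ?_⟩
        · by_contra h4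
          exact h2.1 ⟨h3, not_le.1 h4⟩
        · by_contra h4
          exact h2.2 ⟨h3, not_le.1 h4⟩
      · rintro ⟨h1, h2, h3⟩
        refine ⟨h1, ?_⟩
        rw [ed_star hPHB hEDP Y ψ hψ v c s h1.1 h1.2]
        rintro (⟨h4, h5⟩ | ⟨h4, h5⟩)
        · exact absurd (h2 h4) (not_le.2 h5)
        · exact absurd (h3 h4) (not_le.2 h5)
    rw [h]
    refine isClosed_Icc.inter (IsClosed.inter ?_ ?_)
    · by_cases h1 : Y.st (c, true) = v
      · simp only [h1, true_imp_iff]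
        exact isClosed_Ici
      · simp only [h1, false_imp_iff]
        exact isClosed_univ
    · by_cases h1 : Y.st (c, false) = v
      · simp only [h1, true_imp_iff]
        exact isClosed_Iic
      · simp only [h1, false_imp_iff]
        exact isClosed_univ
  · intro x hx
    obtain ⟨n, c, y, h, rfl⟩ := (hPHB G Y.B ψ).2.2.2.2.2.1 x
    have h1 : (((mk n c y h : Pt G Y.B).dim : ℕ) : ℕ∞) < 2 := hx
    rw [((hPHB G Y.B ψ).2.2.2.2.2.2 n c y h).1] at h1
    have hn2 : n < 2 := by exact_mod_cast h1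
    interval_cases n
    · right
      refine ⟨c, ?_⟩
      have : y = 0 := Subsingleton.elim _ _
      subst this
      rfl
    · left
      exact ⟨c, y, h, rfl⟩

end Pool.Agent.Work.MP_e9e200_al.O3L

end

section

/-!
# Item RCE: existence of the edge paths as paths in the half space
-/

set_option autoImplicit false

namespace Pool.Agent.Work.MP_e9e200_al.O3L

open Set Metric Topology Pool.Agent.Work.MP_e9e200_al.O3A

namespace RCE

variable {G : Type} [Group G] (Y : HT.Cel G)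

theorem vx_mem (χ : Additive G →+ ℝ) (N : ℕ∞) (hN : 1 < N) (c : G × Y.B 0)
    (hc : 0 ≤ χ (Additive.ofMul c.1)) : vx Y c ∈ Pp χ ∩ Lt (G := G) (B := Y.B) N := by
  refine ⟨hc, ?_⟩
  show ((0 : ℕ) : ℕ∞) < N
  exact lt_trans (by norm_num) hN

theorem edge_mem (χ : Additive G →+ ℝ) (hH : Y.Hgt χ (fun _ _ => 0)) (N : ℕ∞) (hN : 1 < N)
    (c : G × Y.B 1) (hc : HE Y χ c) :
    vx Y (Y.st (c, true)) ∈ Pp χ ∩ Lt (G := G) (B := Y.B) N ∧
    vx Y (Y.en (c, true)) ∈ Pp χ ∩ Lt (G := G) (B := Y.B) N ∧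
    oc 1 c ⊆ Pp χ ∩ Lt (G := G) (B := Y.B) N := by
  have hc' : 0 ≤ χ (Additive.ofMul c.1) := hc
  refine ⟨?_, ?_, ?_⟩
  · apply vx_mem Y χ N hN
    have h := hH.src c.2
    have e : (Y.st (c, true)).1 = c.1 * (Y.src c.2).1 := rfl
    rw [e, ofMul_mul, map_add]
    simp only [add_zero] at h
    linarith
  · apply vx_mem Y χ N hN
    have h := hH.tgt c.2
    have e : (Y.en (c, true)).1 = c.1 * (Y.tgt c.2).1 := rfl
    rw [e, ofMul_mul, map_add]
    simp only [add_zero] at h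
    linarith
  · rintro p ⟨y, hy, rfl⟩
    refine ⟨hc', ?_⟩
    show ((1 : ℕ) : ℕ∞) < N
    simpa using hN

end RCE

theorem I_RCE (hEDP : StEDP) (hLOP : StLOP) : StRCE := by
  intro G _ Y χ ψ hH hL N hN v w p x y hp hx hy
  obtain ⟨h1, h2, h3, h4, -⟩ := hLOP G Y ψ hL (HE Y χ) v w p hp
  have hv : vx Y v ∈ Pp χ ∩ Lt (G := G) (B := Y.B) N := by
    have := x.2
    rw [hx] at this
    exact this
  have hmem : ∀ t : ℝ, pt ψ N (lo Y v p t) ∈ st ψ N (Pp χ ∩ Lt N) := fun t =>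
    h4 (Pp χ ∩ Lt N) hv (fun c hc => RCE.edge_mem Y χ hH N hN c hc) t
  have hcont : Continuous (fun t : unitInterval => pt ψ N (lo Y v p (2 * (t : ℝ) - 1))) :=
    (h3 N hN).comp (by fun_prop)
  refine ⟨{ toFun := fun t => ⟨pt ψ N (lo Y v p (2 * (t : ℝ) - 1)), hmem _⟩
            continuous_toFun := hcont.subtype_mk _
            source' := ?_
            target' := ?_ }, ?_⟩
  · apply Subtype.ext
    rw [hx]
    show pt ψ N (lo Y v p (2 * ((0 : unitInterval) : ℝ) - 1)) = pt ψ N (vx Y v)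
    rw [h1 _ (by simp)]
  · apply Subtype.ext
    rw [hy]
    show pt ψ N (lo Y v p (2 * ((1 : unitInterval) : ℝ) - 1)) = pt ψ N (vx Y w)
    rw [h2 _ (by norm_num)]
  · intro t
    rfl

end Pool.Agent.Work.MP_e9e200_al.O3L

end

section

/-!
# Project O3L, item SEG: a path in a closed edge
-/

set_option autoImplicit false

namespace Pool.Agent.Work.MP_e9e200_al.O3L

open Set Metric Topology Pool.Agent.Work.MP_e9e200_al.O3A

namespace SEG

variable {G : Type} [Group G] (Y : HT.Cel G)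

lemma vx_mem (χ : Additive G →+ ℝ) {N : ℕ∞} (hN : 1 < N) (v : G × Y.B 0)
    (hv : 0 ≤ χ (Additive.ofMul v.1)) : vx Y v ∈ Pp χ ∩ Lt (G := G) (B := Y.B) N := by
  refine ⟨hv, ?_⟩
  show ((0 : ℕ) : ℕ∞) < N
  exact lt_of_le_of_lt (by simp) hN

lemma oc_mem (χ : Additive G →+ ℝ) {N : ℕ∞} (hN : 1 < N) (c : G × Y.B 1)
    (hc : 0 ≤ χ (Additive.ofMul c.1)) : oc 1 c ⊆ Pp χ ∩ Lt (G := G) (B := Y.B) N := by
  rintro p ⟨y, h, rfl⟩
  refine ⟨hc, ?_⟩
  show ((1 : ℕ) : ℕ∞) < N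
  simpa using hN

lemma st_nonneg (χ : Additive G →+ ℝ) (hH : Y.Hgt χ (fun _ _ => 0)) (c : G × Y.B 1)
    (hc : 0 ≤ χ (Additive.ofMul c.1)) (b : Bool) : 0 ≤ χ (Additive.ofMul (Y.st (c, b)).1) := by
  have h1 := hH.src c.2
  have h2 := hH.tgt c.2
  cases b
  · show 0 ≤ χ (Additive.ofMul (c.1 * (Y.tgt c.2).1))
    rw [ofMul_mul, map_add]
    simp at h2
    linarith
  · show 0 ≤ χ (Additive.ofMul (c.1 * (Y.src c.2).1))
    rw [ofMul_mul, map_add]
    simp at h1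
    linarith

lemma ph_mem (hEDP : StEDP) (χ : Additive G →+ ℝ) (ψ : Atl G Y.B)
    (hH : Y.Hgt χ (fun _ _ => 0)) (hL : Lo1 Y ψ) {N : ℕ∞} (hN : 1 < N) (c : G × Y.B 1)
    (hc : HE Y χ c) (s : ℝ) (hs : |s| ≤ 1) :
    Ph ψ 1 c (fun _ => s) ∈ Pp χ ∩ Lt (G := G) (B := Y.B) N := by
  obtain ⟨h1, -, -, -, -, h6, -⟩ := hEDP G Y ψ hL
  obtain ⟨ha, hb⟩ := abs_le.1 hs
  have e := h1 (c, true) s ha hb
  simp only [if_true] at e
  rw [← e]
  refine h6 _ (c, true) s ?_ ?_ (oc_mem Y χ hN c hc)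
  · exact vx_mem Y χ hN _ (st_nonneg Y χ hH c hc true)
  · exact vx_mem Y χ hN _ (st_nonneg Y χ hH c hc false)

lemma conv (a b s : ℝ) (ha : |a| ≤ 1) (hb : |b| ≤ 1) (hs : 0 ≤ s) (hs' : s ≤ 1) :
    |(1 - s) * a + s * b| ≤ 1 := by
  obtain ⟨a1, a2⟩ := abs_le.1 ha
  obtain ⟨b1, b2⟩ := abs_le.1 hb
  rw [abs_le]
  constructor <;> nlinarith

end SEG

theorem I_SEG (hPHB : StPHB) (hCRT : StCRT) (hEDP : StEDP) : StSEG := by
  intro G _ Y χ ψ hH hL N hN c hc x y γ γ' f f' hf hf' h0 h1 hγ hγ'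
  have _ := hPHB
  have hC := (hCRT G Y.B ψ N).2.2 1 (by simpa using hN) c
  -- the coefficient
  let r : unitInterval × unitInterval → ℝ := fun q => (1 - (q.1 : ℝ)) * f q.2 + (q.1 : ℝ) * f' q.2
  have hr : ∀ q, |r q| ≤ 1 := fun q =>
    SEG.conv _ _ _ (hγ q.2).1 (hγ' q.2).1 q.1.2.1 q.1.2.2
  have hrc : Continuous r := by
    show Continuous fun q : unitInterval × unitInterval =>
      (1 - (q.1 : ℝ)) * f q.2 + (q.1 : ℝ) * f' q.2
    fun_prop
  have hball : ∀ q, (fun _ : Fin 1 => r q) ∈ closedBall (0 : E 1) 1 := by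
    intro q
    rw [mem_closedBall, dist_zero_right]
    refine (pi_norm_le_iff_of_nonneg zero_le_one).2 (fun _ => ?_)
    rw [Real.norm_eq_abs]
    exact hr q
  have hcont : Continuous fun q => pt ψ N (Ph ψ 1 c (fun _ => r q)) :=
    hC.comp_continuous (continuous_pi fun _ => hrc) hball
  let F : unitInterval × unitInterval → Hs Y ψ χ N := fun q =>
    ⟨pt ψ N (Ph ψ 1 c (fun _ => r q)), SEG.ph_mem Y hEDP χ ψ hH hL hN c hc _ (hr q)⟩
  have hF : Continuous F := Continuous.subtype_mk hcont _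
  have e0 : ∀ t, F (0, t) = γ t := by
    intro t
    apply Subtype.ext
    rw [(hγ t).2]
    show pt ψ N (Ph ψ 1 c (fun _ => r (0, t))) = _
    have : r (0, t) = f t := by
      show (1 - ((0 : unitInterval) : ℝ)) * f t + ((0 : unitInterval) : ℝ) * f' t = f t
      simp
    rw [this]
  have e1 : ∀ t, F (1, t) = γ' t := by
    intro t
    apply Subtype.ext
    rw [(hγ' t).2]
    show pt ψ N (Ph ψ 1 c (fun _ => r (1, t))) = _
    have : r (1, t) = f' t := by
      show (1 - ((1 : unitInterval) : ℝ)) * f t + ((1 : unitInterval) : ℝ) * f' t = f' t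
      simp
    rw [this]
  have e2 : ∀ s, F (s, 0) = γ 0 := by
    intro s
    apply Subtype.ext
    rw [(hγ 0).2]
    show pt ψ N (Ph ψ 1 c (fun _ => r (s, 0))) = _
    have : r (s, 0) = f 0 := by
      show (1 - (s : ℝ)) * f 0 + (s : ℝ) * f' 0 = f 0
      rw [← h0]
      ring
    rw [this]
  have e3 : ∀ s, F (s, 1) = γ 1 := by
    intro s
    apply Subtype.ext
    rw [(hγ 1).2]
    show pt ψ N (Ph ψ 1 c (fun _ => r (s, 1))) = _
    have : r (s, 1) = f 1 := by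
      show (1 - (s : ℝ)) * f 1 + (s : ℝ) * f' 1 = f 1
      rw [← h1]
      ring
    rw [this]
  refine ⟨⟨⟨⟨F, hF⟩, fun t => e0 t, fun t => e1 t⟩, ?_⟩⟩
  intro s t ht
  rcases ht with rfl | ht
  · exact e2 s
  · have : t = 1 := ht
    subst this
    exact e3 s

end Pool.Agent.Work.MP_e9e200_al.O3L

end
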