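import Pool.Agent.Work.MP_e9e200_al.Bd.B13
import Pool.Agent.Work.MP_e9e200_al.Bd.B22
import Pool.Agent.Work.MP_e9e200_al.Bd.B21
import Pool.Agent.Work.MP_e9e200_al.Bd.B25

/-! Bundle of small proof modules (one section per former module). -/

section

/-!
# Project O3, item ATC: the attaching maps of the cells of dimension `n + 3`
-/

set_option autoImplicit false

namespace Pool.Agent.Work.MP_e9e200_al.O3

namespace XATC

/-- the algebraic part: enumeration of the support of a cycle -/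
theorem core {G B1 B2 : Type} [Group G] (d1 : B2 → (G × B1 →₀ ℤ)) (x : G × B2 →₀ ℤ)
    (hx : Pool.Agent.Work.MP_e9e200_al.LC.ext ℤ d1 x = 0) {C2 : Type} (e2 : C2 → G × B2)
    (r2 : ∀ q ∈ x.support, ∃ c, e2 c = q) :
    ∃ (k : ℕ) (a : Fin k → C2) (z : Fin k → ℤ), Function.Injective a ∧
      (∀ q : G × B1, ∑ i, z i * d1 (e2 (a i)).2 ((e2 (a i)).1⁻¹ * q.1, q.2) = 0) ∧
      (∀ i, z i = x (e2 (a i))) ∧ (∀ i, e2 (a i) ∈ x.support) ∧
      ∀ q ∈ x.support, ∃ i, e2 (a i) = q := by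
  classical
  have hex : ∀ p : x.support, ∃ c, e2 c = p.1 := fun p => r2 _ p.2
  choose f hf using hex
  refine ⟨x.support.card, fun j => f (x.support.equivFin.symm j),
    fun j => x (x.support.equivFin.symm j).1, ?_, ?_, ?_, ?_, ?_⟩
  · intro i j hij
    have h1 : (x.support.equivFin.symm i).1 = (x.support.equivFin.symm j).1 := by
      rw [← hf, ← hf]
      exact congrArg e2 hij
    exact x.support.equivFin.symm.injective (Subtype.ext h1)
  · intro q
    have h4 := congrArg (fun y : G × B1 →₀ ℤ => y q) hx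
    simp only [XCNX.ext_apply, Finsupp.coe_zero, Pi.zero_apply] at h4
    rw [← Finset.sum_coe_sort x.support] at h4
    rw [← Equiv.sum_comp x.support.equivFin.symm fun p : x.support =>
      x p.1 * d1 p.1.2 (p.1.1⁻¹ * q.1, q.2)] at h4
    rw [← h4]
    refine Finset.sum_congr rfl fun j _ => ?_
    rw [hf]
  · intro i
    rw [hf]
  · intro i
    rw [hf]
    exact (x.support.equivFin.symm i).2
  · intro q hq
    refine ⟨x.support.equivFin ⟨q, hq⟩, ?_⟩
    rw [hf, Equiv.symm_apply_apply]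

end XATC

open Set Metric Topology OnePoint
open Pool.Agent.Work.MP_e9e200_al.O3A (Pt mk Atl Ph Sp pt st Lt oc Gd Pp ctr)

open Topology.RelCWComplex in
/-- the attaching maps of the cells of dimension `n + 3` -/
theorem I_ATC (hHCW : StHCW) (hSKH : StSKH) (hICN : StICN) (hQPB : StQPB) (hRLC : StRLC)
    (hFDG : StFDG) (hAT2 : O3A.StT2) (hAPHB : O3A.StPHB) (hSK : StSK) (hDPR : StDPR) :
    StATC := by
  classical
  intro G _ Y χ hy n ψ hQ b
  have hgd := hQ.gd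
  have _ : T2Space (Sp ψ ((n + 3 : ℕ) : ℕ∞)) := hAT2 G Y.B ψ _ hgd
  obtain ⟨cw, e, he⟩ := hHCW G Y.B ψ ((n + 3 : ℕ) : ℕ∞) χ hgd
    (fun i b hi y hy' => hQ.pp i (by exact_mod_cast hi) b y hy')
  obtain ⟨hsk, -⟩ := hSKH G Y.B ψ ((n + 3 : ℕ) : ℕ∞) χ hgd _ rfl cw e he
  obtain ⟨-, hic2, hic⟩ := hICN G Y.B ψ ((n + 3 : ℕ) : ℕ∞) χ hgd _ rfl cw e he
  obtain ⟨v, hv⟩ := ((hy.conn 1).1 le_rfl).1
  have hv' : 0 ≤ χ (Additive.ofMul v.1) := by
    have h1 : (0 : ℝ) ≤ χ (Additive.ofMul v.1) + 0 := hv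
    simpa using h1
  have lt : ∀ i : ℕ, i < n + 3 → ((i : ℕ) : ℕ∞) < ((n + 3 : ℕ) : ℕ∞) := fun i hi => by
    exact_mod_cast hi
  have hsupp : ∀ q ∈ (Y.d (n + 2) b).support, 0 ≤ χ (Additive.ofMul q.1) := by
    intro q hq
    have h1 : (0 : ℝ) ≤ χ (Additive.ofMul q.1) + 0 := hy.hgt.d (n + 2) b q hq
    simpa using h1
  obtain ⟨k, a, z, ha, hz, hzx, hmem, hsur⟩ := XATC.core (Y.d (n + 1)) (Y.d (n + 2) b)
    (hy.good.dd (n + 1) b) (fun c => (e (n + 2) c).1)
    (fun q hq => ⟨(e (n + 2)).symm ⟨q, lt _ (by omega), hsupp q hq⟩, by simp⟩)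
  obtain ⟨F, hF, hFsk, hFd, hFd0⟩ := hRLC (Sp ψ ((n + 3 : ℕ) : ℕ∞)) (st ψ ((n + 3 : ℕ) : ℕ∞)
    (Pp χ ∩ Lt ((n + 3 : ℕ) : ℕ∞))) (n + 1) ((e 0).symm ⟨v, lt 0 (by omega), hv'⟩) (by
      intro j hj
      rw [hsk (j + 2) (by exact_mod_cast (by omega : j + 2 ≤ n + 3))]
      exact hQ.ext j (by omega)) k a z ha (by
      intro c
      rw [← hz (e (n + 1) c).1]
      refine Finset.sum_congr rfl fun i _ => ?_
      rw [hic (n + 1) (a i) c, hQ.inc (n + 1) (by omega)])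
  set z₀ : Sp ψ ((n + 3 : ℕ) : ℕ∞) := map 0 ((e 0).symm ⟨v, lt 0 (by omega), hv'⟩) 0 with hz₀
  have hz0sk : ∀ M : ℕ, z₀ ∈ sk (st ψ ((n + 3 : ℕ) : ℕ∞)
      (Pp χ ∩ Lt ((n + 3 : ℕ) : ℕ∞))) (M + 1) := by
    intro M
    refine mem_iUnion₂.2 ⟨0, by omega, mem_iUnion.2 ⟨(e 0).symm ⟨v, lt 0 (by omega), hv'⟩, ?_⟩⟩
    exact ⟨0, by simp, rfl⟩
  have hfac : ∀ y, fac z₀ F y ∈ st ψ ((n + 3 : ℕ) : ℕ∞) (Pp χ ∩ Lt ((n + 3 : ℕ) : ℕ∞)) := by
    intro y
    rw [← hsk (n + 3) le_rfl]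
    unfold fac
    split_ifs
    · exact hFsk _
    · exact hz0sk (n + 2)
  refine ⟨fun y => fac z₀ F y, fun y _ => ⟨(hfac y).1, ?_⟩, ?_, ?_⟩
  · have h1 : (((fac z₀ F y : Pt G Y.B).dim : ℕ) : ℕ∞) < ((n + 3 : ℕ) : ℕ∞) := (hfac y).2
    exact_mod_cast h1
  · exact XEXT.facCont z₀ F hF
  · intro c
    by_cases hc : 0 ≤ χ (Additive.ofMul c.1)
    · have h1 := hic2 (n + 2) (fun y => fac z₀ F y) ((e (n + 2)).symm ⟨c, lt _ (by omega), hc⟩)
      have h2 := hFDG (Sp ψ ((n + 3 : ℕ) : ℕ∞)) (st ψ ((n + 3 : ℕ) : ℕ∞)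
        (Pp χ ∩ Lt ((n + 3 : ℕ) : ℕ∞))) (n + 1) z₀ F hF hFsk (hz0sk (n + 1))
        ((e (n + 2)).symm ⟨c, lt _ (by omega), hc⟩)
      rw [Equiv.apply_symm_apply] at h1
      refine h1.symm.trans (h2.trans ?_)
      by_cases hs : c ∈ (Y.d (n + 2) b).support
      · obtain ⟨i, hi⟩ := hsur c hs
        have hai : a i = (e (n + 2)).symm ⟨c, lt _ (by omega), hc⟩ := by
          rw [Equiv.eq_symm_apply]
          exact Subtype.ext hi
        rw [← hai, hFd i, hzx i]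
        exact congrArg _ hi
      · rw [hFd0 _ (by
          intro i hi
          have h3 : (e (n + 2) (a i)).1 = c := by
            rw [hi, Equiv.apply_symm_apply]
          exact hs (h3 ▸ hmem i))]
        exact (Finsupp.notMem_support_iff.1 hs).symm
    · have h1 : c ∉ (Y.d (n + 2) b).support := fun h => hc (hsupp c h)
      rw [Finsupp.notMem_support_iff.1 h1]
      obtain ⟨-, -, -, -, h5⟩ := hQPB G Y.B (n + 2) c
      refine h5 _ ?_
      rintro y _ ⟨y', hy', hyy⟩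
      obtain ⟨-, -, -, -, -, -, h6⟩ := hAPHB G Y.B ψ
      have h7 : 0 ≤ χ (Additive.ofMul (Pt.gr (fac z₀ F y : Pt G Y.B))) := (hfac y).1
      have h8 : Pt.gr (fac z₀ F y : Pt G Y.B) = c.1 := by
        rw [hyy]
        exact (h6 _ _ _ _).2
      rw [h8] at h7
      exact hc h7

end Pool.Agent.Work.MP_e9e200_al.O3

end

section

/-!
# Project O3L: the boundary of a 2-cell is null homotopic
-/

set_option autoImplicit false

namespace Pool.Agent.Work.MP_e9e200_al.O3L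

open Set Metric Topology Pool.Agent.Work.MP_e9e200_al.O3A

namespace DSC

variable {G : Type} [Group G] (Y : HT.Cel G)

theorem st_mul (g : G) (e : (G × Y.B 1) × Bool) :
    Y.st ((g * e.1.1, e.1.2), e.2) = (g * (Y.st e).1, (Y.st e).2) := by
  unfold HT.Cel.st
  split_ifs <;> simp [mul_assoc]

theorem en_mul (g : G) (e : (G × Y.B 1) × Bool) :
    Y.en ((g * e.1.1, e.1.2), e.2) = (g * (Y.en e).1, (Y.en e).2) :=
  st_mul Y g (e.1, !e.2)

theorem mv_path (g : G) (P : G × Y.B 1 → Prop) : ∀ (p : List ((G × Y.B 1) × Bool))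
    (v w : G × Y.B 0), Y.IsPath (fun _ => True) v p w → (∀ e ∈ p, P (g * e.1.1, e.1.2)) →
    Y.IsPath P (g * v.1, v.2) (Y.mv g p) (g * w.1, w.2)
  | [], v, w, h, _ => by
    have h' : v = w := h
    subst h'
    rfl
  | e :: p, v, w, h, hP => by
    obtain ⟨-, h1, h2⟩ := h
    refine ⟨hP e (by simp), ?_, ?_⟩
    · show Y.st ((g * e.1.1, e.1.2), e.2) = _
      rw [st_mul, h1]
    · show Y.IsPath P (Y.en ((g * e.1.1, e.1.2), e.2)) (Y.mv g p) _
      rw [en_mul]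
      exact mv_path g P p _ _ h2 (fun e he => hP e (by simp [he]))

variable {Y}

theorem smul_vx (g : G) (v : G × Y.B 0) : g • vx Y v = vx Y (g * v.1, v.2) := rfl

theorem vx_mem {χ : Additive G →+ ℝ} {v : G × Y.B 0} (h : 0 ≤ χ (Additive.ofMul v.1)) :
    vx Y v ∈ Pp (B := Y.B) χ ∩ Lt 3 := by
  refine ⟨h, ?_⟩
  show ((0 : ℕ) : ℕ∞) < 3
  norm_num

theorem mk_mem {χ : Additive G →+ ℝ} {n : ℕ} (hn : (n : ℕ∞) < 3) {c : G × Y.B n}
    (h : 0 ≤ χ (Additive.ofMul c.1)) (y : E n) (hy : y ∈ ball (0 : E n) 1) :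
    mk n c y hy ∈ Pp (B := Y.B) χ ∩ Lt 3 := ⟨h, hn⟩

theorem chi_mul (χ : Additive G →+ ℝ) (g h : G) :
    χ (Additive.ofMul (g * h)) = χ (Additive.ofMul g) + χ (Additive.ofMul h) := by
  rw [ofMul_mul, map_add]

end DSC

open DSC

theorem I_DSC (hPHB : StPHB) (hCRT : StCRT) (_hEDP : StEDP) (hLOP : StLOP) (_hGDL : StGDL)
    (hCNV : StCNV) (hNUL : O3.StNUL) : StDSC := by
  intro G _ Y χ ψ hY hH hψ c hc x γ hR
  obtain ⟨g, b⟩ := c
  have hc' : 0 ≤ χ (Additive.ofMul g) := hc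
  have hbas : 0 ≤ χ (Additive.ofMul (Y.bas b).1) := by
    have := hH.bas b
    simpa using this
  have hp0 := hY.clo b
  have hHE : ∀ e ∈ Y.att b, HE Y χ (g * e.1.1, e.1.2) := by
    intro e he
    have := hH.att b e he
    show 0 ≤ χ (Additive.ofMul (g * e.1.1))
    rw [chi_mul]
    have h2 : 0 ≤ χ (Additive.ofMul e.1.1) := by simpa using this
    linarith
  have hp := mv_path Y g (HE Y χ) (Y.att b) _ _ hp0 hHE
  have hR' : ∀ t : unitInterval, (γ t).1 =
      pt ψ 3 (lo Y (g * (Y.bas b).1, (Y.bas b).2) (Y.mv g (Y.att b)) (2 * (t : ℝ) - 1)) := hR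
  obtain ⟨-, -, -, -, L5⟩ := hLOP G Y ψ hψ.1 _ _ _ _ hp0
  have L5' := L5 g
  obtain ⟨L1, L2, L3, L4, -⟩ := hLOP G Y ψ hψ.1 _ _ _ _ hp
  clear hR
  generalize hv0 : ((g * (Y.bas b).1, (Y.bas b).2) : G × Y.B 0) = v0 at *
  generalize hq : Y.mv g (Y.att b) = q at *
  have hv : vx Y v0 ∈ Pp (B := Y.B) χ ∩ Lt 3 := by
    refine vx_mem ?_
    rw [← hv0]
    show 0 ≤ χ (Additive.ofMul (g * (Y.bas b).1))
    rw [chi_mul]
    linarith
  have memS : ∀ t : ℝ, lo Y v0 q t ∈ Pp (B := Y.B) χ ∩ Lt 3 := by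
    refine L4 _ hv ?_
    intro e he
    have he' : 0 ≤ χ (Additive.ofMul e.1) := he
    have hs : 0 ≤ χ (Additive.ofMul (Y.src e.2).1) := by simpa using hH.src e.2
    have ht : 0 ≤ χ (Additive.ofMul (Y.tgt e.2).1) := by simpa using hH.tgt e.2
    refine ⟨vx_mem ?_, vx_mem ?_, ?_⟩
    · show 0 ≤ χ (Additive.ofMul (e.1 * (Y.src e.2).1))
      rw [chi_mul]
      linarith
    · show 0 ≤ χ (Additive.ofMul (e.1 * (Y.tgt e.2).1))
      rw [chi_mul]
      linarith
    · rintro _ ⟨y, hy, rfl⟩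
      exact mk_mem (by norm_num) he' y hy
  have hx : x.1 = pt ψ 3 (vx Y v0) := by
    have h0 := hR' 0
    rw [γ.source] at h0
    rw [h0, L1 _ (by norm_num)]
  set F : E 1 → Hs Y ψ χ 3 := fun y => ⟨pt ψ 3 (lo Y v0 q (y 0)), memS _⟩ with hF
  have hLo : O3.Lo x F := by
    refine ⟨((L3 3 (by norm_num)).comp (continuous_apply 0)).subtype_mk _, ?_⟩
    intro y hy
    apply Subtype.ext
    rw [hx]
    show pt ψ 3 (lo Y v0 q (y 0)) = _
    have hn : ‖y‖ = |y 0| := by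
      rw [Pi.norm_def]
      simp
    rw [hn] at hy
    rcases le_abs.1 hy with h | h
    · rw [L2 _ h]
    · rw [L1 _ (by linarith)]
  have hγ : ∀ t : unitInterval, γ t = F (fun _ => 2 * (t : ℝ) - 1) := fun t =>
    Subtype.ext (hR' t)
  refine (hCNV _ x F γ hLo hγ).1 ((hNUL 1 _ x F hLo).2 ?_)
  -- the values of the attaching map
  have hsph : ∀ y ∈ sphere (0 : E 2) 1, Ph ψ 2 (g, b) y =
      if y 0 = 1 then lo Y v0 q (y 1) else vx Y v0 := by
    intro y hy
    rw [(hPHB G Y.B ψ).2.1 2 (g, b) y hy]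
    show g • ψ 2 b y = _
    rw [hψ.2 b]
    unfold psi2 O3.fac
    split_ifs with h
    · exact L5' (y 1)
    · rw [smul_vx, hv0]
  have memC : ∀ y ∈ closedBall (0 : E 2) 1, Ph ψ 2 (g, b) y ∈ Pp (B := Y.B) χ ∩ Lt 3 := by
    intro y hy
    rcases (mem_closedBall.1 hy).lt_or_eq with h | h
    · rw [(hPHB G Y.B ψ).1 2 (g, b) y (mem_ball.2 h)]
      exact mk_mem (by norm_num) hc' y _
    · rw [hsph y (mem_sphere.2 h)]
      split_ifs
      · exact memS _
      · exact hv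
  classical
  refine ⟨fun y => if h : y ∈ closedBall (0 : E 2) 1 then ⟨pt ψ 3 (Ph ψ 2 (g, b) y), memC y h⟩
    else x, ?_, ?_⟩
  · rw [continuousOn_iff_continuous_domRestrict]
    have h1 : (closedBall (0 : E 2) 1).domRestrict (fun y : E 2 =>
        if h : y ∈ closedBall (0 : E 2) 1 then
          (⟨pt ψ 3 (Ph ψ 2 (g, b) y), memC y h⟩ : Hs Y ψ χ 3) else x) =
        fun y => ⟨pt ψ 3 (Ph ψ 2 (g, b) y.1), memC y.1 y.2⟩ := by
      funext y
      rw [domRestrict_apply, dif_pos y.2]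
    rw [h1]
    refine Continuous.subtype_mk ?_ _
    exact continuousOn_iff_continuous_domRestrict.1 ((hCRT G Y.B ψ 3).2.2 2 (by norm_num) (g, b))
  · intro y hy
    have hy' : y ∈ closedBall (0 : E 2) 1 := sphere_subset_closedBall hy
    show (if h : y ∈ closedBall (0 : E 2) 1 then
          (⟨pt ψ 3 (Ph ψ 2 (g, b) y), memC y h⟩ : Hs Y ψ χ 3) else x) = O3.fac x F y
    rw [dif_pos hy']
    apply Subtype.ext
    show pt ψ 3 (Ph ψ 2 (g, b) y) = _
    rw [hsph y hy]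
    unfold O3.fac
    split_ifs with h
    · rfl
    · rw [hx]

end Pool.Agent.Work.MP_e9e200_al.O3L

end

section

/-!
# Project O3L, item EDG: every path in the graph is homotopic to an edge path
-/

set_option autoImplicit false

namespace Pool.Agent.Work.MP_e9e200_al.O3L

open Set Metric Topology Pool.Agent.Work.MP_e9e200_al.O3A

namespace EDG

section gen

variable {Z : Type} [TopologicalSpace Z]

theorem fin_path {x y zx zy : Z} (κx : Path x zx) (κy : Path y zy) (hx : ∀ t, κx t = x)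
    (hy : ∀ t, κy t = y) (γ1 γ' : Path x y)
    (h : ∀ ε : Path zx zy, (∀ t, ε t = γ' t) → (γ1.trans κy).Homotopic (κx.trans ε)) :
    γ1.Homotopic γ' := by
  have h1 : zx = x := by
    rw [← κx.target]
    exact hx 1
  have h2 : zy = y := by
    rw [← κy.target]
    exact hy 1
  subst h1
  subst h2
  have e1 : κx = Path.refl _ := Path.ext (funext fun t => hx t)
  have e2 : κy = Path.refl _ := Path.ext (funext fun t => hy t)
  subst e1
  subst e2
  have h3 := h γ' (fun _ => rfl)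
  exact (Path.Homotopic.symm ⟨Path.Homotopy.transRefl γ1⟩).trans
    (h3.trans ⟨Path.Homotopy.reflTrans γ'⟩)

theorem comp_hom {p q r a b c : Z} (δ : Path p q) (δ' : Path q r) (κp : Path p a)
    (κq : Path q b) (κr : Path r c) (ε : Path a b) (ε' : Path b c) (ε'' : Path a c)
    (h1 : (δ.trans κq).Homotopic (κp.trans ε)) (h2 : (δ'.trans κr).Homotopic (κq.trans ε'))
    (h3 : (ε.trans ε').Homotopic ε'') :
    ((δ.trans δ').trans κr).Homotopic (κp.trans ε'') := by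
  have a1 : ((δ.trans δ').trans κr).Homotopic (δ.trans (δ'.trans κr)) :=
    ⟨Path.Homotopy.transAssoc δ δ' κr⟩
  have a2 : (δ.trans (δ'.trans κr)).Homotopic (δ.trans (κq.trans ε')) :=
    Path.Homotopic.hcomp (Path.Homotopic.refl δ) h2
  have a3 : (δ.trans (κq.trans ε')).Homotopic ((δ.trans κq).trans ε') :=
    Path.Homotopic.symm ⟨Path.Homotopy.transAssoc δ κq ε'⟩
  have a4 : ((δ.trans κq).trans ε').Homotopic ((κp.trans ε).trans ε') :=
    Path.Homotopic.hcomp h1 (Path.Homotopic.refl ε')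
  have a5 : ((κp.trans ε).trans ε').Homotopic (κp.trans (ε.trans ε')) :=
    ⟨Path.Homotopy.transAssoc κp ε ε'⟩
  have a6 : (κp.trans (ε.trans ε')).Homotopic (κp.trans ε'') :=
    Path.Homotopic.hcomp (Path.Homotopic.refl κp) h3
  exact a1.trans (a2.trans (a3.trans (a4.trans (a5.trans a6))))

end gen

theorem mem_cb (s : ℝ) (hs : |s| ≤ 1) : (fun _ : Fin 1 => s) ∈ closedBall (0 : E 1) 1 := by
  rw [mem_closedBall_zero_iff, pi_norm_le_iff_of_nonneg zero_le_one]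
  intro i
  exact hs

theorem mem_b (s : ℝ) (hs : |s| < 1) : (fun _ : Fin 1 => s) ∈ ball (0 : E 1) 1 := by
  rw [mem_ball_zero_iff, pi_norm_lt_iff zero_lt_one]
  intro i
  exact hs

variable {G : Type} [Group G] (Y : HT.Cel G)

lemma vx_mem (χ : Additive G →+ ℝ) (v : G × Y.B 0)
    (hv : 0 ≤ χ (Additive.ofMul v.1)) : vx Y v ∈ Pp χ ∩ Lt (G := G) (B := Y.B) 2 := by
  refine ⟨hv, ?_⟩
  show ((0 : ℕ) : ℕ∞) < 2
  norm_num

lemma oc_mem (χ : Additive G →+ ℝ) (c : G × Y.B 1)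
    (hc : 0 ≤ χ (Additive.ofMul c.1)) : oc 1 c ⊆ Pp χ ∩ Lt (G := G) (B := Y.B) 2 := by
  rintro p ⟨y, h, rfl⟩
  refine ⟨hc, ?_⟩
  show ((1 : ℕ) : ℕ∞) < 2
  norm_num

lemma st_nonneg (χ : Additive G →+ ℝ) (hH : Y.Hgt χ (fun _ _ => 0)) (c : G × Y.B 1)
    (hc : 0 ≤ χ (Additive.ofMul c.1)) (b : Bool) : 0 ≤ χ (Additive.ofMul (Y.st (c, b)).1) := by
  have h1 := hH.src c.2
  have h2 := hH.tgt c.2
  cases b
  · show 0 ≤ χ (Additive.ofMul (c.1 * (Y.tgt c.2).1))
    rw [ofMul_mul, map_add]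
    simp at h2
    linarith
  · show 0 ≤ χ (Additive.ofMul (c.1 * (Y.src c.2).1))
    rw [ofMul_mul, map_add]
    simp at h1
    linarith

/-- the values of the characteristic map of an edge -/
structure Fc (ψ : Atl G Y.B) : Prop where
  ed1 : ∀ (e : (G × Y.B 1) × Bool) (s : ℝ), |s| ≤ 1 →
    ed Y e s = Ph ψ 1 e.1 (fun _ => if e.2 then s else -s)
  en1 : ∀ c : G × Y.B 1, Ph ψ 1 c (fun _ => (1 : ℝ)) = vx Y (Y.en (c, true))
  st1 : ∀ c : G × Y.B 1, Ph ψ 1 c (fun _ => (-1 : ℝ)) = vx Y (Y.st (c, true))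
  inj0 : ∀ v w : G × Y.B 0, vx Y v = vx Y w → v = w
  ne : ∀ (v : G × Y.B 0) (c : G × Y.B 1) (s : ℝ), |s| < 1 → vx Y v ≠ Ph ψ 1 c (fun _ => s)
  inj1 : ∀ (c c' : G × Y.B 1) (s s' : ℝ), |s| < 1 → |s'| < 1 →
    Ph ψ 1 c (fun _ => s) = Ph ψ 1 c' (fun _ => s') → c = c' ∧ s = s'

theorem fc (hPHB : StPHB) (hEDP : StEDP) (ψ : Atl G Y.B) (hL : Lo1 Y ψ) : Fc Y ψ := by
  obtain ⟨hP1, -, -, -, hP5, -, hP7⟩ := hPHB G Y.B ψ
  obtain ⟨hE1, hE2, hE3, -⟩ := hEDP G Y ψ hL
  have ed1 : ∀ (e : (G × Y.B 1) × Bool) (s : ℝ), |s| ≤ 1 →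
      ed Y e s = Ph ψ 1 e.1 (fun _ => if e.2 then s else -s) :=
    fun e s hs => hE1 e s (abs_le.1 hs).1 (abs_le.1 hs).2
  refine ⟨ed1, ?_, ?_, ?_, ?_, ?_⟩
  · intro c
    rw [← hE3 (c, true) 1 le_rfl, ed1 (c, true) 1 (by norm_num)]
    simp
  · intro c
    rw [← hE2 (c, true) (-1) le_rfl, ed1 (c, true) (-1) (by norm_num)]
    simp
  · intro v w h
    exact (hP5 0 v w 0 0 (by simp) (by simp) h).1
  · intro v c s hs H
    rw [hP1 1 c _ (mem_b s hs)] at H
    have h1 := congrArg Pt.dim H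
    rw [(hP7 1 c _ (mem_b s hs)).1] at h1
    have h3 := (hP7 0 v 0 (by simp)).1
    have h4 : (vx Y v).dim = 0 := h3
    omega
  · intro c c' s s' hs hs' H
    rw [hP1 1 c _ (mem_b s hs), hP1 1 c' _ (mem_b s' hs')] at H
    obtain ⟨h1, h2⟩ := hP5 1 c c' _ _ _ _ H
    exact ⟨h1, congrFun h2 0⟩

variable {Y}

/-- the path `δ` runs in the closed edge `c` with the coordinate `φ` -/
def EL {ψ : Atl G Y.B} {χ : Additive G →+ ℝ} (c : G × Y.B 1) {p q : Hs Y ψ χ 2}
    (δ : Path p q) {s s' : ℝ} (φ : Path s s') : Prop :=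
  ∀ t, |φ t| ≤ 1 ∧ (δ t).1 = pt ψ 2 (Ph ψ 1 c (fun _ => φ t))

theorem EL.trans {ψ : Atl G Y.B} {χ : Additive G →+ ℝ} {c : G × Y.B 1} {p q r : Hs Y ψ χ 2}
    {δ : Path p q} {δ' : Path q r} {s s' s'' : ℝ} {φ : Path s s'} {φ' : Path s' s''}
    (h : EL c δ φ) (h' : EL c δ' φ') : EL c (δ.trans δ') (φ.trans φ') := by
  intro t
  rw [Path.trans_apply, Path.trans_apply]
  split_ifs with ht
  · exact h _
  · exact h' _

theorem ph_mem {ψ : Atl G Y.B} {χ : Additive G →+ ℝ} (hP : StPHB) (hF : Fc Y ψ)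
    (hH : Y.Hgt χ (fun _ _ => 0)) (c : G × Y.B 1) (hc : HE Y χ c) (s : ℝ) (hs : |s| ≤ 1) :
    Ph ψ 1 c (fun _ => s) ∈ Pp χ ∩ Lt (G := G) (B := Y.B) 2 := by
  rcases lt_or_eq_of_le hs with h | h
  · rw [(hP G Y.B ψ).1 1 c _ (mem_b s h)]
    exact oc_mem Y χ c hc ⟨_, _, rfl⟩
  · rcases (abs_eq zero_le_one).1 h with h | h
    · rw [h, hF.en1]
      exact vx_mem Y χ _ (st_nonneg Y χ hH c hc false)
    · rw [h, hF.st1]
      exact vx_mem Y χ _ (st_nonneg Y χ hH c hc true)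

theorem mkEL {ψ : Atl G Y.B} {χ : Additive G →+ ℝ} (hP : StPHB) (hCRT : StCRT) (hF : Fc Y ψ)
    (hH : Y.Hgt χ (fun _ _ => 0)) (c : G × Y.B 1) (hc : HE Y χ c) {s s' : ℝ} (φ : Path s s')
    (hφ : ∀ t, |φ t| ≤ 1) (p q : Hs Y ψ χ 2) (hp : p.1 = pt ψ 2 (Ph ψ 1 c (fun _ => s)))
    (hq : q.1 = pt ψ 2 (Ph ψ 1 c (fun _ => s'))) : ∃ δ : Path p q, EL c δ φ := by
  have hC := (hCRT G Y.B ψ 2).2.2 1 (by norm_num) c
  have hcont : Continuous fun t : unitInterval => pt ψ 2 (Ph ψ 1 c (fun _ => φ t)) :=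
    hC.comp_continuous (continuous_pi fun _ => φ.continuous) (fun t => mem_cb _ (hφ t))
  refine ⟨{ toFun := fun t => ⟨pt ψ 2 (Ph ψ 1 c (fun _ => φ t)), ph_mem hP hF hH c hc _ (hφ t)⟩
            continuous_toFun := hcont.subtype_mk _
            source' := ?_
            target' := ?_ }, ?_⟩
  · apply Subtype.ext
    rw [hp]
    show pt ψ 2 (Ph ψ 1 c (fun _ => φ 0)) = _
    rw [φ.source]
  · apply Subtype.ext
    rw [hq]
    show pt ψ 2 (Ph ψ 1 c (fun _ => φ 1)) = _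
    rw [φ.target]
  · intro t
    exact ⟨hφ t, rfl⟩

/-- the straight path from a point to one -/
theorem straight (s : ℝ) (hs : |s| ≤ 1) : ∃ φ : Path s 1, ∀ t, |φ t| ≤ 1 := by
  refine ⟨{ toFun := fun t => (1 - (t : ℝ)) * s + t
            continuous_toFun := by fun_prop
            source' := by simp
            target' := by simp }, ?_⟩
  intro t
  show |(1 - (t : ℝ)) * s + t| ≤ 1
  obtain ⟨h1, h2⟩ := abs_le.1 hs
  have h3 := t.2.1
  have h4 := t.2.2
  rw [abs_le]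
  constructor <;> nlinarith

theorem tail {ψ : Atl G Y.B} {χ : Additive G →+ ℝ} (hP : StPHB) (hCRT : StCRT) (hF : Fc Y ψ)
    (hH : Y.Hgt χ (fun _ _ => 0)) (hL : Lo1 Y ψ) (hOPE : StOPE) (q : Hs Y ψ χ 2) :
    ∃ (u : G × Y.B 0) (z : Hs Y ψ χ 2) (κ : Path q z), z.1 = pt ψ 2 (vx Y u) ∧
      (∀ a, q.1 = pt ψ 2 (vx Y a) → u = a ∧ ∀ t, κ t = q) ∧
      ∀ (c : G × Y.B 1) (s : ℝ), |s| < 1 → q.1 = pt ψ 2 (Ph ψ 1 c (fun _ => s)) →
        u = Y.en (c, true) ∧ ∃ φ : Path s 1, EL c κ φ := by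
  obtain ⟨q, hq⟩ := q
  rcases (hOPE G Y ψ hL).2.2 q hq.2 with ⟨c, y, hy, rfl⟩ | ⟨a, rfl⟩
  · have hc : HE Y χ c := hq.1
    have hy0 : (fun _ : Fin 1 => y 0) = y := by
      funext i
      rw [Subsingleton.elim i 0]
    have hy1 : |y 0| < 1 := by
      have h := hy
      rw [← hy0, mem_ball_zero_iff, pi_norm_const, Real.norm_eq_abs] at h
      exact h
    have hmk : mk 1 c y hy = Ph ψ 1 c (fun _ => y 0) := by
      rw [(hP G Y.B ψ).1 1 c _ (mem_b _ hy1)]
      congr 1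
      exact hy0.symm
    obtain ⟨φ, hφ⟩ := straight (y 0) hy1.le
    have hz : pt ψ 2 (vx Y (Y.en (c, true))) ∈ st ψ 2 (Pp χ ∩ Lt 2) :=
      vx_mem Y χ _ (st_nonneg Y χ hH c hc false)
    obtain ⟨κ, hκ⟩ := mkEL hP hCRT hF hH c hc φ hφ
      (⟨mk 1 c y hy, hq⟩ : Hs Y ψ χ 2) ⟨pt ψ 2 (vx Y (Y.en (c, true))), hz⟩ hmk
      (congrArg (pt ψ 2) (hF.en1 c).symm)
    refine ⟨Y.en (c, true), ⟨pt ψ 2 (vx Y (Y.en (c, true))), hz⟩, κ, rfl, ?_, ?_⟩
    · intro a ha
      exact absurd (ha.symm.trans hmk) (hF.ne a c (y 0) hy1)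
    · intro c' s hs h
      obtain ⟨rfl, rfl⟩ := hF.inj1 c c' (y 0) s hy1 hs (hmk.symm.trans h)
      exact ⟨rfl, φ, hκ⟩
  · refine ⟨a, ⟨vx Y a, hq⟩, Path.refl _, rfl, ?_, ?_⟩
    · intro a' ha
      exact ⟨hF.inj0 _ _ ha, fun _ => rfl⟩
    · intro c s hs h
      exact absurd h (hF.ne a c s hs)

/-- the end of the edge `c` with the parameter `b` -/
def vv (Y : HT.Cel G) (c : G × Y.B 1) (b : Bool) : G × Y.B 0 :=
  if b then Y.en (c, true) else Y.st (c, true)

/-- the coordinate of the end of the edge `c` with the parameter `b` -/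
def rr (b : Bool) : ℝ := if b then 1 else -1

theorem vv_rr {ψ : Atl G Y.B} (hF : Fc Y ψ) (c : G × Y.B 1) (b : Bool) :
    Ph ψ 1 c (fun _ => rr b) = vx Y (vv Y c b) := by
  cases b
  · exact hF.st1 c
  · exact hF.en1 c

theorem abs_rr (b : Bool) : |rr b| ≤ 1 := by
  cases b <;> simp [rr]

/-- the standard path in an edge -/
theorem std : ∃ φ : Path (-1 : ℝ) 1, ∀ t : unitInterval, φ t = min 1 (4 * (t : ℝ) - 1) := by
  refine ⟨{ toFun := fun t => min 1 (4 * (t : ℝ) - 1)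
            continuous_toFun := by fun_prop
            source' := by norm_num
            target' := by norm_num }, fun t => rfl⟩

theorem abs_min (t : unitInterval) : |min 1 (4 * (t : ℝ) - 1)| ≤ 1 := by
  have h3 := t.2.1
  rw [abs_le]
  refine ⟨?_, min_le_left _ _⟩
  apply le_min
  · norm_num
  · linarith

theorem eps {ψ : Atl G Y.B} {χ : Additive G →+ ℝ} (hF : Fc Y ψ) (c : G × Y.B 1)
    (hc : HE Y χ c) (b0 b1 : Bool) : ∃ l : List ((G × Y.B 1) × Bool),
    Y.IsPath (HE Y χ) (vv Y c b0) l (vv Y c b1) ∧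
    ∀ (p q : Hs Y ψ χ 2) (ε : Path p q), Rel Y ε (vv Y c b0) l →
      ∃ φ : Path (rr b0) (rr b1), EL c ε φ := by
  have hr : ∀ b : Bool, ∃ l : List ((G × Y.B 1) × Bool),
      Y.IsPath (HE Y χ) (vv Y c b) l (vv Y c b) ∧
      ∀ (p q : Hs Y ψ χ 2) (ε : Path p q), Rel Y ε (vv Y c b) l →
        ∃ φ : Path (rr b) (rr b), EL c ε φ := by
    intro b
    refine ⟨[], rfl, ?_⟩
    intro p q ε hε
    refine ⟨Path.refl _, ?_⟩
    intro t
    refine ⟨abs_rr b, ?_⟩
    rw [hε t]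
    show pt ψ 2 (vx Y (vv Y c b)) = pt ψ 2 (Ph ψ 1 c (fun _ => rr b))
    rw [vv_rr hF]
  obtain ⟨φ, hφ⟩ := std
  have key : ∀ (e : (G × Y.B 1) × Bool) (t : unitInterval), e.1 = c →
      lo Y (Y.st e) [e] (2 * (t : ℝ) - 1) =
        Ph ψ 1 c (fun _ => if e.2 then min 1 (4 * (t : ℝ) - 1) else -min 1 (4 * (t : ℝ) - 1)) := by
    rintro ⟨c', b⟩ t h
    have h' : c' = c := h
    subst h'
    show (if 2 * (t : ℝ) - 1 ≤ 0 then ed Y (c', b) (2 * (2 * (t : ℝ) - 1) + 1) else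
      lo Y (Y.en (c', b)) [] (2 * (2 * (t : ℝ) - 1) - 1)) = _
    by_cases ht : 2 * (t : ℝ) - 1 ≤ 0
    · rw [if_pos ht]
      have h1 : min 1 (4 * (t : ℝ) - 1) = 4 * (t : ℝ) - 1 := min_eq_right (by linarith)
      have h2 : 2 * (2 * (t : ℝ) - 1) + 1 = 4 * (t : ℝ) - 1 := by ring
      rw [h2, hF.ed1 _ _ (by rw [← h1]; exact abs_min t), h1]
    · rw [if_neg ht]
      have h1 : min 1 (4 * (t : ℝ) - 1) = 1 := min_eq_left (by
        rw [not_le] at ht
        linarith)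
      show vx Y (Y.en (c', b)) = _
      rw [h1]
      cases b
      · exact (hF.st1 c').symm
      · exact (hF.en1 c').symm
  cases b0
  · cases b1
    · exact hr false
    · refine ⟨[(c, true)], ⟨hc, rfl, rfl⟩, ?_⟩
      intro p q ε hε
      refine ⟨φ, ?_⟩
      intro t
      show |φ t| ≤ 1 ∧ (ε t).1 = pt ψ 2 (Ph ψ 1 c (fun _ => φ t))
      rw [hφ t]
      refine ⟨abs_min t, ?_⟩
      rw [hε t]
      exact congrArg (pt ψ 2) (key (c, true) t rfl)
  · cases b1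
    · refine ⟨[(c, false)], ⟨hc, rfl, rfl⟩, ?_⟩
      intro p q ε hε
      refine ⟨⟨⟨fun t => -φ t, by fun_prop⟩, ?_, ?_⟩, ?_⟩
      · show -φ 0 = 1
        rw [φ.source]
        norm_num
      · show -φ 1 = -1
        rw [φ.target]
      · intro t
        show |-φ t| ≤ 1 ∧ (ε t).1 = pt ψ 2 (Ph ψ 1 c (fun _ => -φ t))
        rw [hφ t, abs_neg]
        refine ⟨abs_min t, ?_⟩
        rw [hε t]
        exact congrArg (pt ψ 2) (key (c, false) t rfl)
    · exact hr true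

open scoped Classical in
/-- the coordinate on an open edge -/
theorem coord {ψ : Atl G Y.B} (hP : StPHB) (hCRT : StCRT) (hF : Fc Y ψ) (c : G × Y.B 1) :
    ∃ f : Pt G Y.B → ℝ, (∀ s : ℝ, |s| < 1 → f (Ph ψ 1 c (fun _ => s)) = s) ∧
      ContinuousOn (fun p : Sp ψ 2 => f p) (st ψ 2 (oc 1 c)) := by
  obtain ⟨hP1, -, -, -, hP5, hP6, hP7⟩ := hP G Y.B ψ
  -- an extension by zero
  have hex : ∀ k : ℝ → ℝ, Continuous k → k 1 = 0 → k (-1) = 0 → ∃ f : Pt G Y.B → ℝ,
      (∀ s : ℝ, |s| < 1 → f (Ph ψ 1 c (fun _ => s)) = k s) ∧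
      Continuous (fun p : Sp ψ 2 => f p) := by
    intro k hk h1 h2
    let f : Pt G Y.B → ℝ := fun p =>
      if h : ∃ s : ℝ, |s| < 1 ∧ p = Ph ψ 1 c (fun _ => s) then k h.choose else 0
    have hf : ∀ s : ℝ, |s| < 1 → f (Ph ψ 1 c (fun _ => s)) = k s := by
      intro s hs
      have h : ∃ s' : ℝ, |s'| < 1 ∧ Ph ψ 1 c (fun _ => s) = Ph ψ 1 c (fun _ => s') := ⟨s, hs, rfl⟩
      show (if h : ∃ s' : ℝ, |s'| < 1 ∧ Ph ψ 1 c (fun _ => s) = Ph ψ 1 c (fun _ => s') then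
        k h.choose else 0) = k s
      rw [dif_pos h]
      have h3 := h.choose_spec
      rw [← (hF.inj1 c c s _ hs h3.1 h3.2).2]
    have hf0 : ∀ v, f (vx Y v) = 0 := by
      intro v
      show (if h : ∃ s' : ℝ, |s'| < 1 ∧ vx Y v = Ph ψ 1 c (fun _ => s') then
        k h.choose else 0) = 0
      rw [dif_neg]
      rintro ⟨s, hs, h⟩
      exact hF.ne v c s hs h
    have hf1 : ∀ c' s, c' ≠ c → |s| < 1 → f (Ph ψ 1 c' (fun _ => s)) = 0 := by
      intro c' s hc' hs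
      show (if h : ∃ s' : ℝ, |s'| < 1 ∧ Ph ψ 1 c' (fun _ => s) = Ph ψ 1 c (fun _ => s') then
        k h.choose else 0) = 0
      rw [dif_neg]
      rintro ⟨s', hs', h⟩
      exact hc' (hF.inj1 c' c s s' hs hs' h).1
    have hend : ∀ c' (s : ℝ), |s| = 1 → f (Ph ψ 1 c' (fun _ => s)) = 0 := by
      intro c' s hs
      rcases (abs_eq zero_le_one).1 hs with h | h
      · rw [h, hF.en1]
        exact hf0 _
      · rw [h, hF.st1]
        exact hf0 _
    refine ⟨f, hf, ?_⟩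
    refine ((hCRT G Y.B ψ 2).2.1 ℝ f).2 ?_
    intro n hn c'
    have hn2 : n < 2 := by exact_mod_cast hn
    interval_cases n
    · intro y _
      have hsub : Subsingleton (E 0) := inferInstance
      exact (continuous_of_discreteTopology (α := E 0)).continuousWithinAt
    · have hcb : ∀ y ∈ closedBall (0 : E 1) 1, |y 0| ≤ 1 ∧ (fun _ : Fin 1 => y 0) = y := by
        intro y hy
        rw [mem_closedBall_zero_iff, pi_norm_le_iff_of_nonneg zero_le_one] at hy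
        refine ⟨by simpa using hy 0, ?_⟩
        funext i
        rw [Subsingleton.elim i 0]
      by_cases hc' : c' = c
      · subst hc'
        have heq : ∀ y ∈ closedBall (0 : E 1) 1, f (Ph ψ 1 c' y) = k (y 0) := by
          intro y hy
          obtain ⟨h3, h4⟩ := hcb y hy
          rw [← h4]
          rcases lt_or_eq_of_le h3 with h5 | h5
          · exact hf _ h5
          · rw [hend c' (y 0) h5]
            show 0 = k (y 0)
            rcases (abs_eq zero_le_one).1 h5 with h | h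
            · rw [h, h1]
            · rw [h, h2]
        refine ContinuousOn.congr ?_ heq
        exact (hk.comp (continuous_apply 0)).continuousOn
      · have heq : ∀ y ∈ closedBall (0 : E 1) 1, f (Ph ψ 1 c' y) = 0 := by
          intro y hy
          obtain ⟨h3, h4⟩ := hcb y hy
          rw [← h4]
          rcases lt_or_eq_of_le h3 with h5 | h5
          · exact hf1 _ _ hc' h5
          · exact hend c' (y 0) h5
        exact ContinuousOn.congr continuousOn_const heq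
  obtain ⟨f1, hf1, hc1⟩ := hex (fun s => 1 - |s|) (by fun_prop) (by norm_num) (by norm_num)
  obtain ⟨f2, hf2, hc2⟩ := hex (fun s => s * (1 - |s|)) (by fun_prop) (by norm_num) (by norm_num)
  have hpos : ∀ s : ℝ, |s| < 1 → (1 - |s|) ≠ 0 := fun s hs => by
    have : 0 < 1 - |s| := by linarith
    exact this.ne'
  refine ⟨fun p => f2 p / f1 p, ?_, ?_⟩
  · intro s hs
    show f2 _ / f1 _ = s
    rw [hf1 s hs, hf2 s hs]
    exact mul_div_cancel_right₀ s (hpos s hs)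
  · refine ContinuousOn.div hc2.continuousOn hc1.continuousOn ?_
    rintro p ⟨y, hy, rfl⟩
    have hy0 : (fun _ : Fin 1 => y 0) = y := by
      funext i
      rw [Subsingleton.elim i 0]
    have hy1 : |y 0| < 1 := by
      have h := hy
      rw [← hy0, mem_ball_zero_iff, pi_norm_const, Real.norm_eq_abs] at h
      exact h
    have hmk : mk 1 c y hy = Ph ψ 1 c (fun _ => y 0) := by
      rw [hP1 1 c _ (mem_b _ hy1)]
      congr 1
      exact hy0.symm
    show f1 (mk 1 c y hy) ≠ 0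
    rw [hmk, hf1 _ hy1]
    exact hpos _ hy1

end EDG

open EDG in
theorem I_EDG (hPHB : StPHB) (hCRT : StCRT) (hEDP : StEDP) (hLOP : StLOP) (hGRD : StGRD)
    (hOPE : StOPE) (hRCE : StRCE) (hAPP : StAPP) (hSEG : StSEG) : StEDG := by
  intro G _ Y χ ψ hH hL v w x y γ hx hy
  have _ := hLOP
  have hF := fc Y hPHB hEDP ψ hL
  obtain ⟨D, hDc, hD0, hDv, hDo, hD1⟩ := hGRD G Y ψ hL
  obtain ⟨hO1, hO2, hO3⟩ := hOPE G Y ψ hL
  have hN : (1 : ℕ∞) < 2 := by norm_num
  -- the homotopy preserves the half space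
  have hDm : ∀ (τ : ℝ), ∀ q ∈ Pp χ ∩ Lt (G := G) (B := Y.B) 2, D τ q ∈
      Pp χ ∩ Lt (G := G) (B := Y.B) 2 := by
    intro τ q hq
    rcases hO3 q hq.2 with ⟨c, hc⟩ | ⟨a, rfl⟩
    · have hc' : HE Y χ c := by
        obtain ⟨y', h', rfl⟩ := hc
        exact hq.1
      rcases hDo τ c q hc with h | h | h
      · exact oc_mem Y χ c hc' h
      · rw [h]
        exact vx_mem Y χ _ (st_nonneg Y χ hH c hc' true)
      · rw [h]
        exact vx_mem Y χ _ (st_nonneg Y χ hH c hc' false)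
    · rw [hDv]
      exact hq
  -- the deformed path
  have hFc : Continuous (fun q : unitInterval × unitInterval =>
      pt ψ 2 (D (q.1 : ℝ) ((γ q.2).1))) := by
    refine hDc.comp_continuous (f := fun q : unitInterval × unitInterval =>
      (((q.1 : ℝ), (γ q.2).1) : ℝ × Sp ψ 2)) ?_ ?_
    · fun_prop
    · intro q
      exact ⟨q.1.2, (γ q.2).2.2⟩
  let F : unitInterval × unitInterval → Hs Y ψ χ 2 := fun q =>
    ⟨pt ψ 2 (D (q.1 : ℝ) ((γ q.2).1)), hDm _ _ (γ q.2).2⟩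
  have hF' : Continuous F := hFc.subtype_mk _
  have hfix : ∀ (τ : ℝ) (q : Hs Y ψ χ 2) (a : G × Y.B 0), q.1 = pt ψ 2 (vx Y a) →
      pt ψ 2 (D τ q.1) = q.1 := by
    intro τ q a ha
    rw [ha]
    exact hDv τ a
  let γ1 : Path x y :=
    { toFun := fun t => F (1, t)
      continuous_toFun := by fun_prop
      source' := by
        apply Subtype.ext
        show pt ψ 2 (D _ ((γ 0).1)) = x.1
        rw [γ.source]
        exact hfix _ x v hx
      target' := by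
        apply Subtype.ext
        show pt ψ 2 (D _ ((γ 1).1)) = y.1
        rw [γ.target]
        exact hfix _ y w hy }
  have hγ1 : ∀ t, (γ1 t).1 = pt ψ 2 (D 1 ((γ t).1)) := by
    intro t
    show pt ψ 2 (D ((1 : unitInterval) : ℝ) ((γ t).1)) = _
    rw [Set.Icc.coe_one]
  have hhom : γ.Homotopic γ1 := by
    refine ⟨⟨⟨⟨F, hF'⟩, ?_, ?_⟩, ?_⟩⟩
    · intro t
      apply Subtype.ext
      show pt ψ 2 (D ((0 : unitInterval) : ℝ) ((γ t).1)) = (γ t).1
      rw [Set.Icc.coe_zero]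
      exact hD0 _ (γ t).2.2
    · intro t
      rfl
    · intro s t ht
      rcases ht with rfl | ht
      · apply Subtype.ext
        show pt ψ 2 (D (s : ℝ) ((γ 0).1)) = (γ 0).1
        rw [γ.source]
        exact hfix _ x v hx
      · have ht' : t = 1 := ht
        subst ht'
        apply Subtype.ext
        show pt ψ 2 (D (s : ℝ) ((γ 1).1)) = (γ 1).1
        rw [γ.target]
        exact hfix _ y w hy
  -- the tails
  choose u z κ hz hk1 hk2 using fun q : Hs Y ψ χ 2 => tail hPHB hCRT hF hH hL hOPE q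
  let Good : ∀ {p q : Hs Y ψ χ 2}, Path p q → Prop := fun {p q} δ =>
    ∃ l : List ((G × Y.B 1) × Bool), Y.IsPath (HE Y χ) (u p) l (u q) ∧
      ∀ ε : Path (z p) (z q), Rel Y ε (u p) l → (δ.trans (κ q)).Homotopic ((κ p).trans ε)
  have hgh : ∀ {p q : Hs Y ψ χ 2} (δ δ' : Path p q), δ.Homotopic δ' → Good δ → Good δ' := by
    intro p q δ δ' h hδ
    obtain ⟨l, h1, h2⟩ := hδ
    refine ⟨l, h1, fun ε hε => ?_⟩
    exact (Path.Homotopic.hcomp h.symm (Path.Homotopic.refl _)).trans (h2 ε hε)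
  have happ : ∀ (p q : List ((G × Y.B 1) × Bool)) (a b c : G × Y.B 0),
      Y.IsPath (HE Y χ) a p b → Y.IsPath (HE Y χ) b q c → Y.IsPath (HE Y χ) a (p ++ q) c := by
    intro p
    induction p with
    | nil =>
      intro q a b c h1 h2
      have h1' : a = b := h1
      subst h1'
      exact h2
    | cons e p ih =>
      intro q a b c h1 h2
      exact ⟨h1.1, h1.2.1, ih q _ _ _ h1.2.2 h2⟩
  have hgt : ∀ {p q r : Hs Y ψ χ 2} (δ : Path p q) (δ' : Path q r), Good δ → Good δ' →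
      Good (δ.trans δ') := by
    intro p q r δ δ' h h'
    obtain ⟨l, h1, h2⟩ := h
    obtain ⟨l', h1', h2'⟩ := h'
    refine ⟨l ++ l', happ _ _ _ _ _ h1 h1', fun ε'' hε'' => ?_⟩
    obtain ⟨ε, hε⟩ := hRCE G Y χ ψ hH hL 2 hN _ _ l (z p) (z q) h1 (hz p) (hz q)
    obtain ⟨ε', hε'⟩ := hRCE G Y χ ψ hH hL 2 hN _ _ l' (z q) (z r) h1' (hz q) (hz r)
    exact comp_hom δ δ' (κ p) (κ q) (κ r) ε ε' ε'' (h2 ε hε) (h2' ε' hε')
      (hAPP G Y χ ψ hH hL 2 hN l l' _ _ _ _ _ _ ε ε' ε'' h1 h1' hε hε' hε'')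
  -- constant paths
  have hgc : ∀ {p q : Hs Y ψ χ 2} (δ : Path p q) (a : G × Y.B 0),
      (∀ t, (δ t).1 = pt ψ 2 (vx Y a)) → Good δ := by
    intro p q δ a h
    have hp : p.1 = pt ψ 2 (vx Y a) := by
      have := h 0
      rwa [δ.source] at this
    have hq : q.1 = pt ψ 2 (vx Y a) := by
      have := h 1
      rwa [δ.target] at this
    obtain ⟨h1, h2⟩ := hk1 p a hp
    obtain ⟨h3, h4⟩ := hk1 q a hq
    refine ⟨[], h1.trans h3.symm, fun ε hε => ?_⟩
    have : δ.trans (κ q) = (κ p).trans ε := by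
      apply Path.ext
      funext t
      apply Subtype.ext
      rw [Path.trans_apply, Path.trans_apply]
      split_ifs with ht
      · rw [h, h2, hp]
      · rw [h4, hq, hε]
        show pt ψ 2 (vx Y a) = pt ψ 2 (vx Y (u p))
        rw [h1]
    rw [this]
  -- the tail of a point in a closed edge
  have htl : ∀ (c : G × Y.B 1) (s : ℝ) (p : Hs Y ψ χ 2), |s| ≤ 1 →
      p.1 = pt ψ 2 (Ph ψ 1 c (fun _ => s)) →
      ∃ b : Bool, u p = vv Y c b ∧ ∃ φ : Path s (rr b), EL c (κ p) φ := by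
    intro c s p hs hp
    rcases lt_or_eq_of_le hs with h | h
    · exact ⟨true, (hk2 p c s h hp).1, (hk2 p c s h hp).2⟩
    · have key : ∀ b : Bool, s = rr b → ∃ b : Bool, u p = vv Y c b ∧
          ∃ φ : Path s (rr b), EL c (κ p) φ := by
        intro b hb
        subst hb
        have hp' : p.1 = pt ψ 2 (vx Y (vv Y c b)) := by
          rw [hp, vv_rr hF]
        obtain ⟨h1, h2⟩ := hk1 p _ hp'
        refine ⟨b, h1, Path.refl _, fun t => ⟨abs_rr b, ?_⟩⟩
        rw [h2, hp]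
        rfl
      rcases (abs_eq zero_le_one).1 h with h | h
      · exact key true h
      · exact key false h
  -- paths in a closed edge
  have hge : ∀ {p q : Hs Y ψ χ 2} (δ : Path p q) (c : G × Y.B 1), HE Y χ c → ∀ (s s' : ℝ)
      (φ : Path s s'), EL c δ φ → Good δ := by
    intro p q δ c hc s s' φ hφ
    have hs : |s| ≤ 1 := by
      have := (hφ 0).1
      rwa [φ.source] at this
    have hs' : |s'| ≤ 1 := by
      have := (hφ 1).1
      rwa [φ.target] at this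
    have hp : p.1 = pt ψ 2 (Ph ψ 1 c (fun _ => s)) := by
      have := (hφ 0).2
      rwa [δ.source, φ.source] at this
    have hq : q.1 = pt ψ 2 (Ph ψ 1 c (fun _ => s')) := by
      have := (hφ 1).2
      rwa [δ.target, φ.target] at this
    obtain ⟨b0, hb0, φ0, h0⟩ := htl c s p hs hp
    obtain ⟨b1, hb1, φ1, h1⟩ := htl c s' q hs' hq
    obtain ⟨l, hl, hl'⟩ := eps hF c hc b0 b1
    refine ⟨l, by rw [hb0, hb1]; exact hl, fun ε hε => ?_⟩
    rw [hb0] at hε
    obtain ⟨φ2, h2⟩ := hl' _ _ ε hε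
    have e1 := hφ.trans h1
    have e2 := h0.trans h2
    refine hSEG G Y χ ψ hH hL 2 hN c hc _ _ _ _ (φ.trans φ1) (φ0.trans φ2)
      (φ.trans φ1).continuous (φ0.trans φ2).continuous ?_ ?_ e1 e2
    · rw [Path.source, Path.source]
    · rw [Path.target, Path.target]
  -- the segments
  have hseg : ∀ t₀ t₁ : unitInterval, t₀ ≤ t₁ →
      ((∃ c, ∀ t ∈ Icc t₀ t₁, (γ t).1 ∈ st ψ 2 (oc 1 c)) ∨
        ∃ a, ∀ t ∈ Icc t₀ t₁, (γ t).1 ∈ st ψ 2 (Star Y a)) → Good (γ1.subpath t₀ t₁) := by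
    intro t₀ t₁ hle h
    have hcc : ∀ τ : unitInterval, Set.Icc.convexComb t₀ t₁ τ ∈ Icc t₀ t₁ := by
      intro τ
      have : Set.Icc.convexComb t₀ t₁ τ ∈ range (Set.Icc.convexComb t₀ t₁) := mem_range_self _
      rw [Path.range_subpathAux, uIcc_of_le hle] at this
      exact this
    rcases h with ⟨c, hc⟩ | ⟨a, ha⟩
    · have hcH : HE Y χ c := by
        obtain ⟨y', h', he⟩ := hc t₀ ⟨le_rfl, hle⟩
        have := (γ t₀).2.1
        rw [he] at this
        exact this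
      obtain ⟨f, hf1, hf2⟩ := coord hPHB hCRT hF c
      let g : unitInterval → ℝ := fun τ => f ((γ (Set.Icc.convexComb t₀ t₁ τ)).1)
      have hg : Continuous g := by
        refine hf2.comp_continuous (f := fun τ : unitInterval =>
          (γ (Set.Icc.convexComb t₀ t₁ τ)).1) ?_ (fun τ => hc _ (hcc τ))
        have hcv : Continuous (fun τ : unitInterval => Set.Icc.convexComb t₀ t₁ τ) := by
          have := Set.Icc.continuous_convexComb_prod (a := (0 : ℝ)) (b := 1)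
          fun_prop
        fun_prop
      have hgv : ∀ τ : unitInterval, |g τ| < 1 ∧
          (γ (Set.Icc.convexComb t₀ t₁ τ)).1 = pt ψ 2 (Ph ψ 1 c (fun _ => g τ)) := by
        intro τ
        obtain ⟨y', hy', he⟩ := hc _ (hcc τ)
        have hy0 : (fun _ : Fin 1 => y' 0) = y' := by
          funext i
          rw [Subsingleton.elim i 0]
        have hy1 : |y' 0| < 1 := by
          have h := hy'
          rw [← hy0, mem_ball_zero_iff, pi_norm_const, Real.norm_eq_abs] at h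
          exact h
        have hmk : mk 1 c y' hy' = Ph ψ 1 c (fun _ => y' 0) := by
          rw [(hPHB G Y.B ψ).1 1 c _ (mem_b _ hy1)]
          congr 1
          exact hy0.symm
        have hgτ : g τ = y' 0 := by
          show f ((γ (Set.Icc.convexComb t₀ t₁ τ)).1) = y' 0
          rw [he, hmk]
          exact hf1 _ hy1
        rw [hgτ]
        refine ⟨hy1, ?_⟩
        rw [he, hmk]
        rfl
      let φ : Path (max (-1) (min 1 (4 * g 0))) (max (-1) (min 1 (4 * g 1))) :=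
        { toFun := fun τ => max (-1) (min 1 (4 * g τ))
          continuous_toFun := by fun_prop
          source' := rfl
          target' := rfl }
      refine hge _ c hcH _ _ φ ?_
      intro τ
      show |max (-1) (min 1 (4 * g τ))| ≤ 1 ∧ (γ1 (Set.Icc.convexComb t₀ t₁ τ)).1 =
        pt ψ 2 (Ph ψ 1 c (fun _ => max (-1) (min 1 (4 * g τ))))
      constructor
      · rw [abs_le]
        exact ⟨le_max_left _ _, max_le (by norm_num) (min_le_left _ _)⟩
      · rw [hγ1, (hgv τ).2]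
        exact congrArg (pt ψ 2) (hD1 c (g τ) (hgv τ).1.le)
    · refine hgc _ a ?_
      intro τ
      show (γ1 (Set.Icc.convexComb t₀ t₁ τ)).1 = _
      rw [hγ1]
      rcases ha _ (hcc τ) with h | ⟨⟨c, b⟩, s, hst, h1, h2, h3⟩
      · rw [h]
        exact congrArg (pt ψ 2) (hDv 1 a)
      · rw [h3]
        have hs : |s| ≤ 1 := abs_le.2 ⟨h1.le, by linarith⟩
        rw [hF.ed1 _ _ hs]
        cases b
        · have : (4 : ℝ) * -s ≥ 1 := by linarith
          show pt ψ 2 (D 1 (Ph ψ 1 c (fun _ => -s))) = _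
          rw [hD1 c (-s) (by rwa [abs_neg]), min_eq_left this, max_eq_right (by norm_num), hF.en1]
          rw [← hst]
          rfl
        · have : (4 : ℝ) * s ≤ -1 := by linarith
          show pt ψ 2 (D 1 (Ph ψ 1 c (fun _ => s))) = _
          rw [hD1 c s hs, max_eq_left ((min_le_right _ _).trans this), hF.st1]
          rw [← hst]
  -- the subdivision
  let U : (G × Y.B 1) ⊕ (G × Y.B 0) → Set unitInterval := fun i =>
    Sum.elim (fun c => {t | (γ t).1 ∈ st ψ 2 (oc 1 c)}) (fun a => {t | (γ t).1 ∈ st ψ 2 (Star Y a)}) i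
  have hγc : Continuous (fun t => (γ t).1) := continuous_subtype_val.comp γ.continuous
  have hU : ∀ i, IsOpen (U i) := by
    rintro (c | a)
    · exact (hO1 c).preimage hγc
    · exact (hO2 a).preimage hγc
  have hUc : univ ⊆ ⋃ i, U i := by
    intro t _
    rw [mem_iUnion]
    rcases hO3 (γ t).1 (γ t).2.2 with ⟨c, hc⟩ | ⟨a, ha⟩
    · exact ⟨Sum.inl c, hc⟩
    · exact ⟨Sum.inr a, Or.inl ha⟩
  obtain ⟨t, ht0, htm, ⟨n, htn⟩, hts⟩ := exists_monotone_Icc_subset_open_cover_unitInterval hU hUc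
  have hind : ∀ i : ℕ, Good (γ1.subpath (t 0) (t i)) := by
    intro i
    induction i with
    | zero =>
      refine hseg _ _ le_rfl ?_
      obtain ⟨i, hi⟩ := hts 0
      rcases i with c | a
      · exact Or.inl ⟨c, fun s hs => hi ⟨hs.1, hs.2.trans (htm (Nat.zero_le _))⟩⟩
      · exact Or.inr ⟨a, fun s hs => hi ⟨hs.1, hs.2.trans (htm (Nat.zero_le _))⟩⟩
    | succ i ih =>
      refine hgh _ _ ⟨Path.Homotopy.subpathTransSubpath γ1 (t 0) (t i) (t (i + 1))⟩
        (hgt _ _ ih (hseg _ _ (htm (Nat.le_succ i)) ?_))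
      obtain ⟨j, hj⟩ := hts i
      rcases j with c | a
      · exact Or.inl ⟨c, fun s hs => hj hs⟩
      · exact Or.inr ⟨a, fun s hs => hj hs⟩
  have hcast : ∀ {p q p' q' : Hs Y ψ χ 2} (δ : Path p q) (h : p' = p) (h' : q' = q),
      Good (δ.cast h h') → Good δ := by
    intro p q p' q' δ h h' hg
    subst h
    subst h'
    exact hg
  have hfin : Good γ1 := by
    have h1 := hind n
    rw [ht0, htn n le_rfl, Path.subpath_zero_one] at h1
    exact hcast γ1 _ _ h1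
  obtain ⟨l, hl, hl'⟩ := hfin
  obtain ⟨hx1, hx2⟩ := hk1 x v hx
  obtain ⟨hy1, hy2⟩ := hk1 y w hy
  refine ⟨l, by rw [← hx1, ← hy1]; exact hl, fun γ' hγ' => hhom.trans ?_⟩
  refine fin_path (κ x) (κ y) hx2 hy2 γ1 γ' (fun ε hε => hl' ε ?_)
  intro t'
  rw [hε t', hx1]
  exact hγ' t'

end Pool.Agent.Work.MP_e9e200_al.O3L

end

section

/-!
# Project O3L, item EDP
-/

set_option autoImplicit false

namespace Pool.Agent.Work.MP_e9e200_al.O3L

open Set Metric Topology Pool.Agent.Work.MP_e9e200_al.O3A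

namespace EDP

theorem nrm (u : ℝ) : ‖(fun _ => u : E 1)‖ = |u| := by
  rw [← Real.norm_eq_abs]
  exact pi_norm_const u

theorem aif (b : Bool) (s : ℝ) : |if b = true then s else -s| = |s| := by
  cases b
  · rw [if_neg (by simp), abs_neg]
  · rw [if_pos rfl]

theorem mem (b : Bool) (s : ℝ) :
    (fun _ : Fin 1 => if b = true then s else -s) ∈ ball (0 : E 1) 1 ↔ |s| < 1 := by
  rw [mem_ball_zero_iff, nrm, aif]

theorem mems (b : Bool) (s : ℝ) :
    (fun _ : Fin 1 => if b = true then s else -s) ∈ sphere (0 : E 1) 1 ↔ |s| = 1 := by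
  rw [mem_sphere_zero_iff_norm, nrm, aif]

theorem memc (b : Bool) (s : ℝ) :
    (fun _ : Fin 1 => if b = true then s else -s) ∈ closedBall (0 : E 1) 1 ↔ |s| ≤ 1 := by
  rw [mem_closedBall_zero_iff, nrm, aif]

variable {G : Type} [Group G] (Y : HT.Cel G)

theorem smul_vx (g : G) (c : G × Y.B 0) : g • vx Y c = vx Y (g * c.1, c.2) := rfl

theorem ed_in (e : (G × Y.B 1) × Bool) (s : ℝ) (h : |s| < 1) :
    ed Y e s = mk 1 e.1 (fun _ => if e.2 = true then s else -s) ((mem e.2 s).2 h) := by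
  unfold ed
  rw [dif_pos ((mem e.2 s).2 h)]

theorem ed_left (e : (G × Y.B 1) × Bool) (s : ℝ) (h : s ≤ -1) :
    ed Y e s = vx Y (Y.st e) := by
  unfold ed
  rw [dif_neg, if_pos (by linarith)]
  rw [mem]
  intro h'
  have := (abs_lt.1 h').1
  linarith

theorem ed_right (e : (G × Y.B 1) × Bool) (s : ℝ) (h : 1 ≤ s) :
    ed Y e s = vx Y (Y.en e) := by
  unfold ed
  rw [dif_neg, if_neg (by linarith)]
  rw [mem]
  intro h'
  have := (abs_lt.1 h').2
  linarith

theorem cases3 (s : ℝ) : s ≤ -1 ∨ 1 ≤ s ∨ |s| < 1 := by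
  rcases le_or_gt s (-1) with h | h
  · exact Or.inl h
  · rcases le_or_gt 1 s with h' | h'
    · exact Or.inr (Or.inl h')
    · exact Or.inr (Or.inr (abs_lt.2 ⟨h, h'⟩))

theorem ed_Ph (hPHB : StPHB) (ψ : Atl G Y.B) (hψ : Lo1 Y ψ) (e : (G × Y.B 1) × Bool) (s : ℝ)
    (h1 : -1 ≤ s) (h2 : s ≤ 1) :
    ed Y e s = Ph ψ 1 e.1 (fun _ => if e.2 = true then s else -s) := by
  obtain ⟨p1, p2, -⟩ := hPHB G Y.B ψ
  rcases cases3 s with h | h | h
  · have hs : s = -1 := le_antisymm h h1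
    subst hs
    rw [ed_left Y e _ le_rfl, p2 1 e.1 _ ((mems e.2 (-1)).2 (by norm_num)), hψ]
    unfold psi1
    obtain ⟨⟨g, b⟩, σ⟩ := e
    cases σ
    · simp only [Bool.false_eq_true, if_false, neg_neg, zero_le_one, if_true]
      rfl
    · have : ¬ (0 : ℝ) ≤ -1 := by norm_num
      simp only [if_true, this, if_false]
      rfl
  · have hs : s = 1 := le_antisymm h2 h
    subst hs
    rw [ed_right Y e _ le_rfl, p2 1 e.1 _ ((mems e.2 1).2 (by norm_num)), hψ]
    unfold psi1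
    obtain ⟨⟨g, b⟩, σ⟩ := e
    cases σ
    · have : ¬ (0 : ℝ) ≤ -1 := by norm_num
      simp only [Bool.false_eq_true, if_false, this]
      rfl
    · simp only [if_true, zero_le_one]
      rfl
  · rw [ed_in Y e s h, p1 1 e.1 _ ((mem e.2 s).2 h)]

end EDP

theorem I_EDP (hPHB : StPHB) (hCRT : StCRT) : StEDP := by
  intro G _ Y ψ hψ
  have P1 := EDP.ed_Ph Y hPHB ψ hψ
  have P2 := EDP.ed_left Y
  have P3 := EDP.ed_right Y
  refine ⟨P1, P2, P3, ?_, ?_, ?_, ?_⟩
  · intro e s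
    rcases EDP.cases3 s with h | h | h
    · rw [P2 _ _ h, P3 e (-s) (by linarith)]
      rfl
    · rw [P3 _ _ h, P2 e (-s) (by linarith)]
      obtain ⟨c, σ⟩ := e
      show vx Y (Y.st (c, !!σ)) = vx Y (Y.st (c, σ))
      rw [Bool.not_not]
    · have h' : |(-s)| < 1 := by rwa [abs_neg]
      rw [EDP.ed_in Y _ s h, EDP.ed_in Y _ (-s) h']
      obtain ⟨c, σ⟩ := e
      have : (fun _ : Fin 1 => if (!σ) = true then s else -s) =
          (fun _ : Fin 1 => if σ = true then -s else - -s) := by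
        funext _
        cases σ <;> simp
      simp only [this]
  · intro N hN e
    have hc := (hCRT G Y.B ψ N).2.2 1 (by exact_mod_cast hN) e.1
    have key : ∀ s : ℝ, ed Y e s = Ph ψ 1 e.1
        (fun _ => if e.2 = true then (max (-1) (min 1 s)) else -(max (-1) (min 1 s))) := by
      intro s
      have h1 : -1 ≤ max (-1) (min 1 s) := le_max_left _ _
      have h2 : max (-1) (min 1 s) ≤ 1 := max_le (by norm_num) (min_le_left _ _)
      rw [← P1 e _ h1 h2]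
      rcases EDP.cases3 s with h | h | h
      · rw [P2 _ _ h]
        have : max (-1) (min 1 s) = -1 := max_eq_left ((min_le_right _ _).trans h)
        rw [this, P2 _ _ le_rfl]
      · rw [P3 _ _ h]
        have : max (-1) (min 1 s) = 1 := by
          rw [min_eq_left h]
          norm_num
        rw [this, P3 _ _ le_rfl]
      · rw [abs_lt] at h
        have : max (-1) (min 1 s) = s := by
          rw [min_eq_right h.2.le, max_eq_right h.1.le]
        rw [this]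
    have : (fun s : ℝ => pt ψ N (ed Y e s)) = (fun y => pt ψ N (Ph ψ 1 e.1 y)) ∘
        (fun s : ℝ => (fun _ => if e.2 = true then (max (-1) (min 1 s)) else
          -(max (-1) (min 1 s)) : E 1)) := by
      funext s
      show pt ψ N (ed Y e s) = pt ψ N _
      rw [key s]
      rfl
    rw [this]
    refine hc.comp_continuous ?_ ?_
    · refine continuous_pi fun _ => ?_
      obtain ⟨c, σ⟩ := e
      cases σ
      · simp only [Bool.false_eq_true, if_false]
        fun_prop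
      · simp only [if_true]
        fun_prop
    · intro s
      rw [EDP.memc, abs_le]
      exact ⟨le_max_left _ _, max_le (by norm_num) (min_le_left _ _)⟩
  · intro S e s h1 h2 h3
    rcases EDP.cases3 s with h | h | h
    · rwa [P2 _ _ h]
    · rwa [P3 _ _ h]
    · rw [EDP.ed_in Y _ s h]
      exact h3 ⟨_, _, rfl⟩
  · intro g e s
    rcases EDP.cases3 s with h | h | h
    · rw [P2 _ _ h, P2 _ _ h, EDP.smul_vx]
      obtain ⟨⟨g', b⟩, σ⟩ := e
      cases σ <;> simp [HT.Cel.st, mul_assoc]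
    · rw [P3 _ _ h, P3 _ _ h, EDP.smul_vx]
      obtain ⟨⟨g', b⟩, σ⟩ := e
      cases σ <;> simp [HT.Cel.st, HT.Cel.en, mul_assoc]
    · rw [EDP.ed_in Y _ s h, EDP.ed_in Y _ s h]
      rfl

end Pool.Agent.Work.MP_e9e200_al.O3L

end

section

/-!
# Project O3L, item GDL: the attaching maps of the edges and of the 2-cells are continuous
-/

set_option autoImplicit false

namespace Pool.Agent.Work.MP_e9e200_al.O3L

open Set Metric Topology Pool.Agent.Work.MP_e9e200_al.O3A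

namespace GDL

/-- the sphere of `E 0` is empty -/
theorem sph0 (y : E 0) (hy : y ∈ sphere (0 : E 0) 1) : False := by
  rw [mem_sphere_zero_iff_norm] at hy
  have h : y = 0 := Subsingleton.elim _ _
  rw [h, norm_zero] at hy
  exact zero_ne_one hy

theorem sph1 (y : E 1) (hy : y ∈ sphere (0 : E 1) 1) : 1 ≤ y 0 ∨ y 0 ≤ -1 := by
  rw [mem_sphere_zero_iff_norm] at hy
  by_contra hcon
  push Not at hcon
  have h3 : ‖y‖ < 1 := by
    rw [pi_norm_lt_iff one_pos]
    intro i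
    fin_cases i
    rw [Real.norm_eq_abs, abs_lt]
    exact ⟨hcon.2, hcon.1⟩
  linarith

theorem sph2 (y : E 2) (hy : y ∈ sphere (0 : E 2) 1) :
    y 0 = 1 ∨ y 0 ≤ -1 ∨ y 1 ≤ -1 ∨ 1 ≤ y 1 := by
  rw [mem_sphere_zero_iff_norm] at hy
  have h0 : ‖y 0‖ ≤ 1 := hy ▸ norm_le_pi_norm y 0
  rw [Real.norm_eq_abs, abs_le] at h0
  by_contra hcon
  push Not at hcon
  obtain ⟨c0, c1, c2, c3⟩ := hcon
  have h3 : ‖y‖ < 1 := by
    rw [pi_norm_lt_iff one_pos]
    intro i
    fin_cases i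
    · show ‖y 0‖ < 1
      rw [Real.norm_eq_abs, abs_lt]
      exact ⟨c1, lt_of_le_of_ne h0.2 c0⟩
    · show ‖y 1‖ < 1
      rw [Real.norm_eq_abs, abs_lt]
      exact ⟨c2, c3⟩
  linarith

variable {G : Type} [Group G] {Y : HT.Cel G}

theorem path_imp {P Q : G × Y.B 1 → Prop} (p : List ((G × Y.B 1) × Bool)) :
    ∀ v w : G × Y.B 0, Y.IsPath P v p w → (∀ e ∈ p, Q e.1) → Y.IsPath Q v p w := by
  induction p with
  | nil => exact fun v w h _ => h
  | cons e p ih =>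
    intro v w h hq
    exact ⟨hq e (List.mem_cons_self), h.2.1,
      ih _ _ h.2.2 fun e' he' => hq e' (List.mem_cons_of_mem _ he')⟩

/-- dimension one -/
theorem g1 (hPHB : StPHB) (ψ : Atl G Y.B) (h : ∀ b, ψ 1 b = psi1 Y b) (b : Y.B 1) :
    (∀ y ∈ sphere (0 : E 1) 1, (ψ 1 b y).dim < 1) ∧
    ContinuousOn (fun y => pt ψ ((1 : ℕ) : ℕ∞) (ψ 1 b y)) (sphere 0 1) := by
  obtain ⟨-, -, -, -, -, -, p7⟩ := hPHB G Y.B ψ
  have hv : ∀ c : G × Y.B 0, (vx Y c).dim = 0 := fun c => (p7 0 c 0 (by simp)).1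
  rw [h b]
  constructor
  · intro y _
    unfold psi1
    split_ifs <;> rw [hv] <;> exact one_pos
  · have hA : ContinuousOn (fun y => pt ψ ((1 : ℕ) : ℕ∞) (psi1 Y b y)) {y : E 1 | 1 ≤ y 0} := by
      refine (continuousOn_const (c := pt ψ ((1 : ℕ) : ℕ∞) (vx Y (Y.tgt b)))).congr ?_
      intro y hy
      have hy' : (1 : ℝ) ≤ y 0 := hy
      unfold psi1
      simp only
      rw [if_pos (by linarith)]
    have hB : ContinuousOn (fun y => pt ψ ((1 : ℕ) : ℕ∞) (psi1 Y b y)) {y : E 1 | y 0 ≤ -1} := by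
      refine (continuousOn_const (c := pt ψ ((1 : ℕ) : ℕ∞) (vx Y (Y.src b)))).congr ?_
      intro y hy
      have hy' : y 0 ≤ -1 := hy
      unfold psi1
      simp only
      rw [if_neg (by linarith)]
    refine (hA.union_of_isClosed hB (isClosed_le continuous_const (continuous_apply 0))
      (isClosed_le (continuous_apply 0) continuous_const)).mono ?_
    intro y hy
    exact sph1 y hy

theorem psi2_eq (b : Y.B 2) (y : E 2) : psi2 Y b y =
    if y 0 = 1 then lo Y (Y.bas b) (Y.att b) (y 1) else vx Y (Y.bas b) := by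
  unfold psi2 O3.fac
  rfl

/-- dimension two -/
theorem g2 (hPHB : StPHB) (hLOP : StLOP) (ψ : Atl G Y.B) (hg : Y.Good) (h : Lo2 Y ψ)
    (b : Y.B 2) : (∀ y ∈ sphere (0 : E 2) 1, (ψ 2 b y).dim < 2) ∧
    ContinuousOn (fun y => pt ψ ((2 : ℕ) : ℕ∞) (ψ 2 b y)) (sphere 0 1) := by
  obtain ⟨-, -, -, -, -, -, p7⟩ := hPHB G Y.B ψ
  have hv : ∀ c : G × Y.B 0, (vx Y c).dim = 0 := fun c => (p7 0 c 0 (by simp)).1
  obtain ⟨l1, l2, l3, l4, -⟩ := hLOP G Y ψ h.1 (fun _ => True) (Y.bas b) (Y.bas b) (Y.att b)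
    (hg.clo b)
  rw [h.2 b]
  constructor
  · intro y _
    rw [psi2_eq]
    split_ifs
    · refine l4 {q | q.dim < 2} ?_ ?_ _
      · show (vx Y (Y.bas b)).dim < 2
        rw [hv]
        exact two_pos
      · intro c _
        refine ⟨?_, ?_, ?_⟩
        · show (vx Y _).dim < 2
          rw [hv]
          exact two_pos
        · show (vx Y _).dim < 2
          rw [hv]
          exact two_pos
        · rintro q ⟨z, hz, rfl⟩
          show (mk 1 c z hz).dim < 2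
          rw [(p7 1 c z hz).1]
          exact one_lt_two
    · rw [hv]
      exact two_pos
  · have hA : ContinuousOn (fun y => pt ψ ((2 : ℕ) : ℕ∞) (psi2 Y b y)) {y : E 2 | y 0 = 1} := by
      have h3 : Continuous fun y : E 2 => pt ψ ((2 : ℕ) : ℕ∞) (lo Y (Y.bas b) (Y.att b) (y 1)) :=
        (l3 ((2 : ℕ) : ℕ∞) (by norm_num)).comp (continuous_apply 1)
      refine h3.continuousOn.congr ?_
      intro y hy
      have hy' : y 0 = 1 := hy
      simp only
      rw [psi2_eq, if_pos hy']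
    have hB : ContinuousOn (fun y => pt ψ ((2 : ℕ) : ℕ∞) (psi2 Y b y))
        {y : E 2 | y 0 ≤ -1 ∨ y 1 ≤ -1 ∨ 1 ≤ y 1} := by
      refine (continuousOn_const (c := pt ψ ((2 : ℕ) : ℕ∞) (vx Y (Y.bas b)))).congr ?_
      rintro y (hy | hy | hy)
      · simp only
        rw [psi2_eq, if_neg (by linarith)]
      · simp only
        rw [psi2_eq, l1 _ hy, ite_self]
      · simp only
        rw [psi2_eq, l2 _ hy, ite_self]
    refine (hA.union_of_isClosed hB (isClosed_eq (continuous_apply 0) continuous_const)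
      ((isClosed_le (continuous_apply 0) continuous_const).union
        ((isClosed_le (continuous_apply 1) continuous_const).union
          (isClosed_le continuous_const (continuous_apply 1))))).mono ?_
    intro y hy
    exact sph2 y hy

end GDL

theorem I_GDL (hPHB : StPHB) (_hCRT : StCRT) (_hEDP : StEDP) (hLOP : StLOP) : StGDL := by
  intro G _ Y ψ
  refine ⟨?_, ?_, ?_⟩
  · intro h n hn b
    have hn' : n < 2 := by exact_mod_cast hn
    interval_cases n
    · exact ⟨fun y hy => (GDL.sph0 y hy).elim, fun y hy => (GDL.sph0 y hy).elim⟩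
    · exact GDL.g1 hPHB ψ h b
  · intro hg h n hn b
    have hn' : n < 3 := by exact_mod_cast hn
    interval_cases n
    · exact ⟨fun y hy => (GDL.sph0 y hy).elim, fun y hy => (GDL.sph0 y hy).elim⟩
    · exact GDL.g1 hPHB ψ h.1 b
    · exact GDL.g2 hPHB hLOP ψ hg h b
  · intro χ hg hh h n b hn y hy
    obtain ⟨-, -, -, -, -, -, p7⟩ := hPHB G Y.B ψ
    have hv : ∀ c : G × Y.B 0, (vx Y c).gr = c.1 := fun c => (p7 0 c 0 (by simp)).2
    have hv2 : ∀ c : G × Y.B 0, 0 ≤ χ (Additive.ofMul c.1) → vx Y c ∈ Pp χ := by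
      intro c hc
      show 0 ≤ χ (Additive.ofMul (vx Y c).gr)
      rw [hv]
      exact hc
    have hsrc : ∀ b, 0 ≤ χ (Additive.ofMul (Y.src b).1) := fun b => by
      have := hh.src b
      linarith
    have htgt : ∀ b, 0 ≤ χ (Additive.ofMul (Y.tgt b).1) := fun b => by
      have := hh.tgt b
      linarith
    interval_cases n
    · exact (GDL.sph0 y hy).elim
    · rw [h.1 b]
      unfold psi1
      split_ifs
      · exact hv2 _ (htgt b)
      · exact hv2 _ (hsrc b)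
    · have hbas : vx Y (Y.bas b) ∈ Pp χ := hv2 _ (by
        have := hh.bas b
        linarith)
      have hp : Y.IsPath (HE Y χ) (Y.bas b) (Y.att b) (Y.bas b) := by
        refine GDL.path_imp (Y.att b) _ _ (hg.clo b) fun e he => ?_
        have := hh.att b e he
        show 0 ≤ χ (Additive.ofMul e.1.1)
        linarith
      obtain ⟨-, -, -, l4, -⟩ := hLOP G Y ψ h.1 (HE Y χ) (Y.bas b) (Y.bas b) (Y.att b) hp
      rw [h.2 b, GDL.psi2_eq]
      split_ifs
      · refine l4 (Pp χ) hbas ?_ _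
        intro c hc
        have hc' : 0 ≤ χ (Additive.ofMul c.1) := hc
        refine ⟨hv2 _ ?_, hv2 _ ?_, ?_⟩
        · show 0 ≤ χ (Additive.ofMul (c.1 * (Y.src c.2).1))
          rw [ofMul_mul, map_add]
          exact add_nonneg hc' (hsrc _)
        · show 0 ≤ χ (Additive.ofMul (c.1 * (Y.tgt c.2).1))
          rw [ofMul_mul, map_add]
          exact add_nonneg hc' (htgt _)
        · rintro q ⟨z, hz, rfl⟩
          show 0 ≤ χ (Additive.ofMul (mk 1 c z hz).gr)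
          rw [(p7 1 c z hz).2]
          exact hc'
      · exact hbas

end Pool.Agent.Work.MP_e9e200_al.O3L

end

section

/-!
# Project O3L, item GRD: a homotopy of the graph
-/

set_option autoImplicit false
set_option linter.unusedVariables false

namespace Pool.Agent.Work.MP_e9e200_al.O3L

open Set Metric Topology Pool.Agent.Work.MP_e9e200_al.O3A

namespace GRD

theorem mem_cb (y : E 1) : y ∈ closedBall (0 : E 1) 1 ↔ |y 0| ≤ 1 := by
  rw [mem_closedBall_zero_iff, pi_norm_le_iff_of_nonneg zero_le_one]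
  constructor
  · intro h
    exact h 0
  · intro h i
    have : i = 0 := Subsingleton.elim _ _
    rw [this]
    exact h

theorem mem_b (y : E 1) : y ∈ ball (0 : E 1) 1 ↔ |y 0| < 1 := by
  rw [mem_ball_zero_iff, pi_norm_lt_iff zero_lt_one]
  constructor
  · intro h
    exact h 0
  · intro h i
    have : i = 0 := Subsingleton.elim _ _
    rw [this]
    exact h

theorem fun_eq (y : E 1) : (fun _ : Fin 1 => y 0) = y := by
  funext i
  have : i = 0 := Subsingleton.elim _ _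
  rw [this]

/-- the homotopy on the interval -/
noncomputable def kk (τ s : ℝ) : ℝ :=
  (1 - max 0 (min 1 τ)) * s + max 0 (min 1 τ) * max (-1) (min 1 (4 * s))

theorem kk_cont : Continuous (fun q : ℝ × ℝ => kk q.1 q.2) := by
  unfold kk
  fun_prop

theorem kk_abs (τ s : ℝ) (h : |s| ≤ 1) : |kk τ s| ≤ 1 := by
  have h0 : 0 ≤ max 0 (min 1 τ) := le_max_left _ _
  have h1 : max 0 (min 1 τ) ≤ 1 := max_le zero_le_one (min_le_left _ _)
  have h2 : |max (-1) (min 1 (4 * s))| ≤ 1 :=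
    abs_le.mpr ⟨le_max_left _ _, max_le (by norm_num) (min_le_left _ _)⟩
  unfold kk
  refine le_trans (abs_add_le _ _) ?_
  rw [abs_mul, abs_mul, abs_of_nonneg h0, abs_of_nonneg (sub_nonneg.mpr h1)]
  have h3 := mul_le_mul_of_nonneg_left h (sub_nonneg.mpr h1)
  have h4 := mul_le_mul_of_nonneg_left h2 h0
  linarith

theorem kk_zero (s : ℝ) : kk 0 s = s := by
  unfold kk
  have h : max (0 : ℝ) (min 1 0) = 0 := by norm_num
  rw [h]
  ring

theorem kk_one (s : ℝ) : kk 1 s = max (-1) (min 1 (4 * s)) := by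
  unfold kk
  have h : max (0 : ℝ) (min 1 1) = 1 := by norm_num
  rw [h]
  ring

theorem kk_r (τ : ℝ) : kk τ 1 = 1 := by
  unfold kk
  have h : max (-1 : ℝ) (min 1 (4 * 1)) = 1 := by norm_num
  rw [h]
  ring

theorem kk_l (τ : ℝ) : kk τ (-1) = -1 := by
  unfold kk
  have h : max (-1 : ℝ) (min 1 (4 * -1)) = -1 := by norm_num
  rw [h]
  ring

variable {G : Type} [Group G]

/-- the homotopy of the graph -/
noncomputable def DD (Y : HT.Cel G) (ψ : Atl G Y.B) (τ : ℝ) (p : Pt G Y.B) : Pt G Y.B :=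
  match (p : Σ n : ℕ, (G × Y.B n) × ball (0 : E n) 1) with
  | ⟨1, c, y⟩ => Ph ψ 1 c (fun _ => kk τ (y.1 0))
  | _ => p

theorem DD_vx (Y : HT.Cel G) (ψ : Atl G Y.B) (τ : ℝ) (v : G × Y.B 0) :
    DD Y ψ τ (vx Y v) = vx Y v := rfl

theorem DD_mk (Y : HT.Cel G) (ψ : Atl G Y.B) (τ : ℝ) (c : G × Y.B 1) (y : E 1)
    (h : y ∈ ball (0 : E 1) 1) :
    DD Y ψ τ (mk 1 c y h) = Ph ψ 1 c (fun _ => kk τ (y 0)) := rfl

theorem Ph_r (hEDP : StEDP) (Y : HT.Cel G) (ψ : Atl G Y.B) (hψ : Lo1 Y ψ) (c : G × Y.B 1) :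
    Ph ψ 1 c (fun _ => (1 : ℝ)) = vx Y (Y.en (c, true)) := by
  obtain ⟨h1, h2, h3, -⟩ := hEDP G Y ψ hψ
  have h4 := h1 (c, true) 1 (by norm_num) le_rfl
  rw [h3 (c, true) 1 le_rfl] at h4
  exact h4.symm

theorem Ph_l (hEDP : StEDP) (Y : HT.Cel G) (ψ : Atl G Y.B) (hψ : Lo1 Y ψ) (c : G × Y.B 1) :
    Ph ψ 1 c (fun _ => (-1 : ℝ)) = vx Y (Y.st (c, true)) := by
  obtain ⟨h1, h2, h3, -⟩ := hEDP G Y ψ hψ
  have h4 := h1 (c, true) (-1) le_rfl (by norm_num)
  rw [h2 (c, true) (-1) le_rfl] at h4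
  exact h4.symm

theorem DD_Ph (hPHB : StPHB) (hEDP : StEDP) (Y : HT.Cel G) (ψ : Atl G Y.B) (hψ : Lo1 Y ψ)
    (τ : ℝ) (c : G × Y.B 1) (s : ℝ) (h : |s| ≤ 1) :
    DD Y ψ τ (Ph ψ 1 c (fun _ => s)) = Ph ψ 1 c (fun _ => kk τ s) := by
  rcases h.lt_or_eq with h1 | h1
  · rw [(hPHB G Y.B ψ).1 1 c (fun _ => s) ((mem_b _).mpr h1), DD_mk]
  · rcases (abs_eq zero_le_one).mp h1 with h2 | h2
    · subst h2
      rw [kk_r, Ph_r hEDP Y ψ hψ c, DD_vx]
    · subst h2
      rw [kk_l, Ph_l hEDP Y ψ hψ c, DD_vx]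

end GRD

theorem I_GRD (hPHB : StPHB) (hCRT : StCRT) (hEDP : StEDP) (hGDL : StGDL) (hT2 : StT2)
    (hCWS : StCWS) (hCNT : O3.StCNT) : StGRD := by
  intro G _ Y ψ hψ
  have hGd : Gd ψ 2 := (hGDL G Y ψ).1 hψ
  have hT : T2Space (Sp ψ 2) := hT2 G Y.B ψ 2 hGd
  refine ⟨GRD.DD Y ψ, ?_, ?_, ?_, ?_, ?_⟩
  · obtain ⟨inst, e, he⟩ := hCWS G Y.B ψ 2 hGd (st ψ 2 (Lt 2)) rfl
    refine (hCNT (Sp ψ 2) (Sp ψ 2) (st ψ 2 (Lt 2))).2.1
      (fun q : ℝ × Sp ψ 2 => pt ψ 2 (GRD.DD Y ψ q.1 q.2)) ?_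
    intro n j
    have hn : n < 2 := by exact_mod_cast (e n j).2
    interval_cases n
    · have h0 : ∀ p ∈ Icc (0 : ℝ) 1 ×ˢ closedBall (0 : E 0) 1,
          pt ψ 2 (GRD.DD Y ψ p.1 (RelCWComplex.map 0 j p.2)) = pt ψ 2 (vx Y (e 0 j).1) := by
        intro p hp
        have h1 : (RelCWComplex.map 0 j p.2 : Sp ψ 2) = pt ψ 2 (vx Y (e 0 j).1) := by
          rw [he 0 j p.2 hp.2]
          have h2 : p.2 = 0 := Subsingleton.elim _ _
          rw [h2, (hPHB G Y.B ψ).1 0 (e 0 j).1 0 (by simp)]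
          rfl
        rw [h1]
        exact congrArg (pt ψ 2) (GRD.DD_vx Y ψ p.1 (e 0 j).1)
      exact continuousOn_const.congr h0
    · have h0 : ∀ p ∈ Icc (0 : ℝ) 1 ×ˢ closedBall (0 : E 1) 1,
          pt ψ 2 (GRD.DD Y ψ p.1 (RelCWComplex.map 1 j p.2)) =
            pt ψ 2 (Ph ψ 1 (e 1 j).1 (fun _ => GRD.kk p.1 (p.2 0))) := by
        intro p hp
        rw [he 1 j p.2 hp.2]
        have h1 := GRD.DD_Ph hPHB hEDP Y ψ hψ p.1 (e 1 j).1 (p.2 0) ((GRD.mem_cb _).mp hp.2)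
        rw [GRD.fun_eq] at h1
        exact congrArg (pt ψ 2) h1
      refine ContinuousOn.congr ?_ h0
      have h2 := (hCRT G Y.B ψ 2).2.2 1 (by norm_num) (e 1 j).1
      refine h2.comp (f := fun p : ℝ × E 1 => (fun _ : Fin 1 => GRD.kk p.1 (p.2 0))) ?_ ?_
      · refine Continuous.continuousOn (continuous_pi fun _ => ?_)
        exact GRD.kk_cont.comp (by fun_prop : Continuous fun p : ℝ × E 1 => (p.1, p.2 0))
      · intro p hp
        exact (GRD.mem_cb _).mpr (GRD.kk_abs _ _ ((GRD.mem_cb _).mp hp.2))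
  · intro x hx
    obtain ⟨n, c, y, h, rfl⟩ := (hPHB G Y.B ψ).2.2.2.2.2.1 x
    have hn : n < 2 := by
      have h1 : (((mk n c y h).dim : ℕ) : ℕ∞) < 2 := hx
      rw [((hPHB G Y.B ψ).2.2.2.2.2.2 n c y h).1] at h1
      exact_mod_cast h1
    interval_cases n
    · rfl
    · rw [GRD.DD_mk, GRD.kk_zero, GRD.fun_eq, (hPHB G Y.B ψ).1 1 c y h]
  · exact fun τ v => GRD.DD_vx Y ψ τ v
  · rintro τ c x ⟨y, h, rfl⟩
    rw [GRD.DD_mk]
    have h1 : |GRD.kk τ (y 0)| ≤ 1 := GRD.kk_abs _ _ ((GRD.mem_b _).mp h).le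
    rcases h1.lt_or_eq with h2 | h2
    · left
      exact ⟨fun _ => GRD.kk τ (y 0), (GRD.mem_b _).mpr h2,
        (hPHB G Y.B ψ).1 1 c _ ((GRD.mem_b _).mpr h2)⟩
    · right
      rcases (abs_eq zero_le_one).mp h2 with h3 | h3
      · right
        rw [h3]
        exact GRD.Ph_r hEDP Y ψ hψ c
      · left
        rw [h3]
        exact GRD.Ph_l hEDP Y ψ hψ c
  · intro c s hs
    rw [GRD.DD_Ph hPHB hEDP Y ψ hψ 1 c s hs, GRD.kk_one]

end Pool.Agent.Work.MP_e9e200_al.O3L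

end
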