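import Pool.Agent.Work.MP_e9e200_al.HT.SKC
import Pool.Agent.Work.MP_e9e200_al.Bd.B25

/-! Bundle of small proof modules (one section per former module). -/

section

/-!
# Project HT: the Cayley graph with all closed paths of the half space as 2-cells
-/

set_option autoImplicit false

namespace Pool.Agent.Work.MP_e9e200_al.HT

open Finsupp Pool.Agent.Work.MP_e9e200_al.LC

namespace SK1

open SKC

variable {G : Type} [Group G] {χ : Additive G →+ ℝ} {X : Set G}

/-- a closed word can be cut at its lowest vertex -/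
lemma low {g : G} {w : List G} (h : HS.Ok χ X g w) : ∃ w₁ w₂ : List G, w = w₁ ++ w₂ ∧
    HS.Ok χ X ((g * w₁.prod)⁻¹ * g) w := by
  induction w generalizing g with
  | nil =>
    refine ⟨[], [], rfl, ?_⟩
    show (0 : ℝ) ≤ χ (Additive.ofMul ((g * [].prod)⁻¹ * g))
    simp
  | cons x w ih =>
    obtain ⟨w₁, w₂, hw, hok⟩ := ih h.2.2
    have hu : (g * (x :: w₁).prod)⁻¹ * g * x = (g * x * w₁.prod)⁻¹ * (g * x) := by
      rw [List.prod_cons]; group
    by_cases hlt : χ (Additive.ofMul (g * (x :: w₁).prod)) ≤ χ (Additive.ofMul g)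
    · refine ⟨x :: w₁, w₂, by rw [hw]; rfl, ?_, h.2.1, ?_⟩
      · rw [chi_mul, chi_inv]; linarith
      · rw [hu]; exact hok
    · refine ⟨[], x :: w, rfl, ?_, h.2.1, ?_⟩
      · simp
      · refine ok_mono ?_ hok
        push Not at hlt
        have h3 : χ (Additive.ofMul ((g * x * w₁.prod)⁻¹ * (g * x))) =
            χ (Additive.ofMul (g * x)) - χ (Additive.ofMul (g * (x :: w₁).prod)) := by
          rw [chi_mul, chi_inv, List.prod_cons, mul_assoc]; ring
        have h4 : χ (Additive.ofMul ((g * ([] : List G).prod)⁻¹ * g * x)) =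
            χ (Additive.ofMul (g * x)) - χ (Additive.ofMul g) := by
          rw [List.prod_nil, mul_one, mul_assoc, chi_mul, chi_inv]; ring
        rw [h3, h4]
        linarith

/-- the closed words in the half space which start at `1` -/
def Cw (χ : Additive G →+ ℝ) (X : Set G) : Type := {w : List G // HS.Ok χ X 1 w ∧ w.prod = 1}

/-- the attaching paths -/
noncomputable def att (χ : Additive G →+ ℝ) {X : Set G} (h1 : (1 : G) ∈ X) (c : Cw χ X) :
    List ((G × Edg χ X) × Bool) := PW0 h1 1 c.1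

/-- a cell -/
lemma cellw (h1 : (1 : G) ∈ X) {u : G} (hu : 0 ≤ χ (Additive.ofMul u)) {w : List G}
    (hw : HS.Ok χ X 1 w) (hp : w.prod = 1)
    (p : List ((G × (K χ X (Cw χ X) (att χ h1)).B 1) × Bool)) :
    (K χ X (Cw χ X) (att χ h1)).Hty (H1 χ X _ _) (H2 χ X _ _) (ve u) (PW h1 u w ++ p) p := by
  have h := cell0 (att := att χ h1) (⟨w, hw, hp⟩ : Cw χ X) hu p
  have h2 : (K χ X (Cw χ X) (att χ h1)).att (⟨w, hw, hp⟩ : Cw χ X) = PW h1 1 w := rfl
  rw [h2, mv_PW, mul_one] at h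
  exact h

lemma closed (hX : ∀ x ∈ X, x⁻¹ ∈ X) (h1 : (1 : G) ∈ X) {g : G} {w : List G}
    (hw : HS.Ok χ X g w) (hp : w.prod = 1) :
    (K χ X (Cw χ X) (att χ h1)).Hty (H1 χ X _ _) (H2 χ X _ _) (ve g) (PW h1 g w) [] := by
  obtain ⟨w₁, w₂, rfl, hok⟩ := low hw
  have hg : (g * w₁.prod)⁻¹ * g = (w₁.prod)⁻¹ := by group
  rw [hg, ok_append, inv_mul_cancel] at hok
  rw [List.prod_append] at hp
  have hp2 : w₂.prod = (w₁.prod)⁻¹ := eq_inv_of_mul_eq_one_right hp
  have hok2 : HS.Ok χ X 1 (w₂ ++ w₁) := by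
    rw [ok_append, one_mul, hp2]
    exact ⟨hok.2, hok.1⟩
  have hp3 : (w₂ ++ w₁).prod = 1 := by rw [List.prod_append, hp2, inv_mul_cancel]
  have hw' := ok_append.1 hw
  have hu : 0 ≤ χ (Additive.ofMul (g * w₁.prod)) := ok_start hw'.2
  have h3 := cellw h1 hu hok2 hp3 []
  rw [List.append_nil, PW_append] at h3
  have h4 : g * w₁.prod * w₂.prod = g := by rw [mul_assoc, hp, mul_one]
  rw [h4] at h3
  have p1 := isPath_PW (C := Cw χ X) (att := att χ h1) hX h1 hw'.1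
  have p2 := isPath_PW (C := Cw χ X) (att := att χ h1) hX h1 hw'.2
  rw [h4] at p2
  rw [PW_append]
  exact hty_conj p1 p2 h3

end SK1

open SK1 SKC in
theorem I_SK1 (hE1 : StE1) : StSK1 := by
  intro G _ χ X hXfin hX h1 hCon
  refine ⟨K χ X (Cw χ X) (att χ h1), sk2 hE1 hXfin hX h1 hCon ?_ ?_⟩
  · intro c
    have h := isPath_PW (C := Cw χ X) (att := att χ h1) hX h1
      (show HS.Ok χ X 1 (show Cw χ X from c).1 from (show Cw χ X from c).2.1)
    rw [show (show Cw χ X from c).1.prod = 1 from (show Cw χ X from c).2.2, mul_one] at h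
    exact h
  · intro g p hg hp
    have hT : ∀ h : G, 0 ≤ χ (Additive.ofMul h) → ∀ x ∈ X, χ (Additive.ofMul x) = 0 →
        ∀ p : List ((G × (K χ X (Cw χ X) (att χ h1)).B 1) × Bool),
        Hom (ve h) (L h1 h x :: L h1 (h * x) x⁻¹ :: p) p := by
      intro h hh x hx hx0 p
      have hok : HS.Ok χ X 1 [x, x⁻¹] := by
        refine ⟨by rw [chi_one], hx, by rw [one_mul, hx0], hX x hx, ?_⟩
        show (0 : ℝ) ≤ χ (Additive.ofMul (1 * x * x⁻¹))
        rw [one_mul, mul_inv_cancel, chi_one]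
      exact cellw h1 hh hok (by simp) p
    obtain ⟨h3, h4, h5⟩ := stepA hX h1 hT hg hp
    have h6 : (p.map lab).prod = 1 := by
      have h7 : g * (p.map lab).prod = g * 1 := by rw [mul_one]; exact h5.symm
      exact mul_left_cancel h7
    exact h3.trans (closed hX h1 h4 h6)

end Pool.Agent.Work.MP_e9e200_al.HT

end

section

/-!
# Project HT: the triangular Cayley complex
-/

set_option autoImplicit false

namespace Pool.Agent.Work.MP_e9e200_al.HT

open Finsupp Pool.Agent.Work.MP_e9e200_al.LC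

namespace SK2

open SKC

variable {G : Type} [Group G] {χ : Additive G →+ ℝ} {X : Set G}

/-- the triangles with lowest vertex `1` -/
def Tr (χ : Additive G →+ ℝ) (X : Set G) : Type :=
  {p : G × G // (p.1 ∈ X ∧ p.2 ∈ X ∧ p.1 * p.2 ∈ X) ∧
    0 ≤ χ (Additive.ofMul p.1) ∧ 0 ≤ χ (Additive.ofMul (p.1 * p.2))}

/-- the attaching paths -/
noncomputable def att (χ : Additive G →+ ℝ) {X : Set G} (h1 : (1 : G) ∈ X) (c : Tr χ X) :
    List ((G × Edg χ X) × Bool) :=
  [L0 h1 1 c.1.1, L0 h1 c.1.1 c.1.2, ((L0 h1 1 (c.1.1 * c.1.2)).1,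
    !(L0 (χ := χ) h1 1 (c.1.1 * c.1.2)).2)]

/-- homotopy -/
abbrev Ho (χ : Additive G →+ ℝ) {X : Set G} (h1 : (1 : G) ∈ X) (g : G)
    (p q : List ((G × (K χ X (Tr χ X) (att χ h1)).B 1) × Bool)) : Prop :=
  (K χ X (Tr χ X) (att χ h1)).Hty (H1 χ X _ _) (H2 χ X _ _) (ve g) p q

/-- the reversed edge -/
abbrev re {Y : Cel G} (e : (G × Y.B 1) × Bool) : (G × Y.B 1) × Bool := (e.1, !e.2)

lemma re_re {Y : Cel G} (e : (G × Y.B 1) × Bool) :
    (((re e).1, !(re e).2) : (G × Y.B 1) × Bool) = e := by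
  show ((e.1, !!e.2) : (G × Y.B 1) × Bool) = e
  rw [Bool.not_not]

/-- a cell -/
lemma cellt (h1 : (1 : G) ∈ X) {a x y : G} (ha : 0 ≤ χ (Additive.ofMul a)) (hx : x ∈ X)
    (hy : y ∈ X) (hxy : x * y ∈ X) (hx0 : 0 ≤ χ (Additive.ofMul x))
    (hxy0 : 0 ≤ χ (Additive.ofMul (x * y)))
    (p : List ((G × (K χ X (Tr χ X) (att χ h1)).B 1) × Bool)) :
    Ho χ h1 a (L h1 a x :: L h1 (a * x) y :: re (L h1 a (x * y)) :: p) p := by
  have h := cell0 (att := att χ h1) (⟨(x, y), ⟨hx, hy, hxy⟩, hx0, hxy0⟩ : Tr χ X) ha p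
  have h2 : (K χ X (Tr χ X) (att χ h1)).att (⟨(x, y), ⟨hx, hy, hxy⟩, hx0, hxy0⟩ : Tr χ X) =
      [L h1 1 x, L h1 x y, re (L h1 1 (x * y))] := rfl
  rw [h2, mv_cons, mv_cons, mv_cons, mv_L, mv_L, mul_one] at h
  have h3 := mv_L (χ := χ) (att := att χ h1) h1 a 1 (x * y)
  rw [mul_one] at h3
  rw [← h3]
  exact h

/-- TRI0: the first vertex is a lowest vertex -/
lemma tri0 (hX : ∀ x ∈ X, x⁻¹ ∈ X) (h1 : (1 : G) ∈ X) {a x y : G}
    (ha : 0 ≤ χ (Additive.ofMul a)) (hx : x ∈ X)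
    (hy : y ∈ X) (hxy : x * y ∈ X) (hx0 : 0 ≤ χ (Additive.ofMul x))
    (hxy0 : 0 ≤ χ (Additive.ofMul (x * y)))
    (p : List ((G × (K χ X (Tr χ X) (att χ h1)).B 1) × Bool)) :
    Ho χ h1 a (L h1 a x :: L h1 (a * x) y :: p) (L h1 a (x * y) :: p) := by
  have hax : 0 ≤ χ (Additive.ofMul (a * x)) := by rw [chi_mul]; linarith
  have haxy : 0 ≤ χ (Additive.ofMul (a * (x * y))) := by rw [chi_mul]; linarith
  have haxy' : 0 ≤ χ (Additive.ofMul (a * x * y)) := by rw [mul_assoc]; exact haxy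
  have hL : H1 χ X _ (att χ h1) (L h1 a (x * y)).1 := h1_L hX h1 hxy ha haxy
  have h2 := cellt h1 ha hx hy hxy hx0 hxy0 (L h1 a (x * y) :: p)
  have h3 := Cel.Hty.back (P1 := H1 χ X _ (att χ h1)) (P2 := H2 χ X _ (att χ h1))
    (re (L h1 a (x * y))) p hL
  rw [st_rev, en_L hX h1 a hxy, ← mul_assoc, re_re] at h3
  have h5 := cons_L hX h1 hx ha hax (cons_L hX h1 hy hax haxy' h3)
  exact h5.symm.trans h2

/-- T1: the loop with label `1` -/
lemma t1 (hX : ∀ x ∈ X, x⁻¹ ∈ X) (h1 : (1 : G) ∈ X) {a : G}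
    (ha : 0 ≤ χ (Additive.ofMul a))
    (p : List ((G × (K χ X (Tr χ X) (att χ h1)).B 1) × Bool)) :
    Ho χ h1 a (L h1 a 1 :: p) p := by
  have h11 : (1 : G) * 1 ∈ X := by rw [mul_one]; exact h1
  have h2 := tri0 hX h1 ha h1 h1 h11 (by rw [chi_one]) (by rw [mul_one, chi_one]) p
  rw [mul_one, mul_one] at h2
  have ha1 : 0 ≤ χ (Additive.ofMul (a * 1)) := by rw [mul_one]; exact ha
  have hL : H1 χ X _ (att χ h1) (L h1 a 1).1 := h1_L hX h1 h1 ha ha1
  -- multiply by the reversed edge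
  have hb : ∀ q, Ho χ h1 a (re (L h1 a 1) :: L h1 a 1 :: q) q := by
    intro q
    have h3 := Cel.Hty.back (P1 := H1 χ X _ (att χ h1)) (P2 := H2 χ X _ (att χ h1))
      (re (L h1 a 1)) q hL
    rw [st_rev, en_L hX h1 a h1, mul_one, re_re] at h3
    exact h3
  have h5 : (K χ X (Tr χ X) (att χ h1)).Hty (H1 χ X _ _) (H2 χ X _ _)
      ((K χ X (Tr χ X) (att χ h1)).en (re (L h1 a 1)))
      (L h1 a 1 :: L h1 a 1 :: p) (L h1 a 1 :: p) := by
    rw [en_rev, st_L hX h1 a h1]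
    exact h2
  have h6 := Cel.Hty.cons (re (L h1 a 1)) hL h5
  rw [st_rev, en_L hX h1 a h1, mul_one] at h6
  exact (hb _).symm.trans (h6.trans (hb _))

/-- T2: inverse edges -/
lemma t2 (hX : ∀ x ∈ X, x⁻¹ ∈ X) (h1 : (1 : G) ∈ X) {a x : G}
    (ha : 0 ≤ χ (Additive.ofMul a)) (hx : x ∈ X) (hax : 0 ≤ χ (Additive.ofMul (a * x)))
    (p : List ((G × (K χ X (Tr χ X) (att χ h1)).B 1) × Bool)) :
    Ho χ h1 a (L h1 a x :: L h1 (a * x) x⁻¹ :: p) p := by
  rcases lt_trichotomy (χ (Additive.ofMul x)) 0 with hneg | h0 | hpos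
  · have hx' : 0 ≤ χ (Additive.ofMul x⁻¹) := by rw [chi_inv]; linarith
    have e1 : (L h1 a x : (G × (K χ X (Tr χ X) (att χ h1)).B 1) × Bool) =
        mkE (a * x) ⟨x⁻¹, hX x hx, hx'⟩ false := L_neg h1 a (hX x hx) (not_le.2 hneg) hx'
    have e2 : (L h1 (a * x) x⁻¹ : (G × (K χ X (Tr χ X) (att χ h1)).B 1) × Bool) =
        mkE (a * x) ⟨x⁻¹, hX x hx, hx'⟩ true := L_pos h1 (a * x) (hX x hx) hx'
    rw [e1, e2]
    have h3 := Cel.Hty.back (P1 := H1 χ X _ (att χ h1)) (P2 := H2 χ X _ (att χ h1))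
      (mkE (a * x) ⟨x⁻¹, hX x hx, hx'⟩ false) p (h1_iff.2 hax)
    rw [st_f] at h3
    have h4 : a * x * x⁻¹ = a := by group
    simp only [h4] at h3
    exact h3
  · have hxx : x * x⁻¹ ∈ X := by rw [mul_inv_cancel]; exact h1
    have h2 := tri0 hX h1 ha hx (hX x hx) hxx h0.ge (by rw [mul_inv_cancel, chi_one]) p
    rw [mul_inv_cancel] at h2
    exact h2.trans (t1 hX h1 ha p)
  · have hx' : 0 ≤ χ (Additive.ofMul x⁻¹⁻¹) := by rw [inv_inv]; exact hpos.le
    have hxX : x⁻¹⁻¹ ∈ X := by rw [inv_inv]; exact hx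
    have hn : ¬ 0 ≤ χ (Additive.ofMul x⁻¹) := by rw [chi_inv]; linarith
    have e1 : (L h1 a x : (G × (K χ X (Tr χ X) (att χ h1)).B 1) × Bool) =
        mkE a ⟨x, hx, hpos.le⟩ true := L_pos h1 a hx hpos.le
    have e2 : (L h1 (a * x) x⁻¹ : (G × (K χ X (Tr χ X) (att χ h1)).B 1) × Bool) =
        mkE (a * x * x⁻¹) ⟨x⁻¹⁻¹, hxX, hx'⟩ false := L_neg h1 (a * x) hxX hn hx'
    have h4 : a * x * x⁻¹ = a := by group
    have h5 : (⟨x⁻¹⁻¹, hxX, hx'⟩ : Edg χ X) = ⟨x, hx, hpos.le⟩ := Subtype.ext (inv_inv x)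
    rw [e1, e2, h4, h5]
    have h3 := Cel.Hty.back (P1 := H1 χ X _ (att χ h1)) (P2 := H2 χ X _ (att χ h1))
      (mkE a ⟨x, hx, hpos.le⟩ true) p (h1_iff.2 ha)
    rw [st_t] at h3
    exact h3

/-- TRI: the triangles of the half space -/
lemma tri (hX : ∀ x ∈ X, x⁻¹ ∈ X) (h1 : (1 : G) ∈ X) {a x y : G}
    (ha : 0 ≤ χ (Additive.ofMul a)) (hx : x ∈ X)
    (hy : y ∈ X) (hxy : x * y ∈ X) (hb : 0 ≤ χ (Additive.ofMul (a * x)))
    (hc : 0 ≤ χ (Additive.ofMul (a * x * y)))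
    (p : List ((G × (K χ X (Tr χ X) (att χ h1)).B 1) × Bool)) :
    Ho χ h1 a (L h1 a x :: L h1 (a * x) y :: p) (L h1 a (x * y) :: p) := by
  have hc' : 0 ≤ χ (Additive.ofMul (a * (x * y))) := by rw [← mul_assoc]; exact hc
  have hcm : χ (Additive.ofMul (x * y)) = χ (Additive.ofMul x) + χ (Additive.ofMul y) :=
    chi_mul x y
  by_cases hcase1 : 0 ≤ χ (Additive.ofMul x) ∧ 0 ≤ χ (Additive.ofMul (x * y))
  · exact tri0 hX h1 ha hx hy hxy hcase1.1 hcase1.2 p
  by_cases hcase2 : χ (Additive.ofMul x) ≤ 0 ∧ 0 ≤ χ (Additive.ofMul y)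
  · -- the second vertex is a lowest vertex
    have hp1 : y * (x * y)⁻¹ = x⁻¹ := by group
    have h2 := tri0 hX h1 hb hy (hX _ hxy) (by rw [hp1]; exact hX x hx) hcase2.2
      (by rw [hp1, chi_inv]; linarith [hcase2.1]) (L h1 a (x * y) :: p)
    rw [hp1] at h2
    -- `L a (xy) :: p ~ L a x :: L b x⁻¹ :: L a (xy) :: p`
    have h3 := t2 hX h1 ha hx hb (L h1 a (x * y) :: p)
    have h4 := cons_L hX h1 hx ha hb h2
    have h5 := t2 hX h1 hc (hX _ hxy)
      (by rw [show a * x * y * (x * y)⁻¹ = a by group]; exact ha) p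
    rw [inv_inv, show a * x * y * (x * y)⁻¹ = a by group] at h5
    have h6 := cons_L hX h1 hx ha hb (cons_L hX h1 hy hb hc h5)
    exact h6.symm.trans (h4.trans h3)
  · -- the third vertex is a lowest vertex
    have hxy0 : χ (Additive.ofMul (x * y)) ≤ 0 := by
      by_contra h
      push Not at h
      have h7 : χ (Additive.ofMul x) < 0 := by
        by_contra h8
        push Not at h8
        exact hcase1 ⟨h8, h.le⟩
      exact hcase2 ⟨h7.le, by linarith⟩
    have hy0 : χ (Additive.ofMul y) ≤ 0 := by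
      by_contra h
      push Not at h
      have h7 : 0 < χ (Additive.ofMul x) := by
        by_contra h8
        push Not at h8
        exact hcase2 ⟨h8, h.le⟩
      linarith
    have hp1 : (x * y)⁻¹ * x = y⁻¹ := by group
    have hca : a * x * y * (x * y)⁻¹ = a := by group
    have h2 := tri0 hX h1 hc (hX _ hxy) hx (by rw [hp1]; exact hX y hy)
      (by rw [chi_inv]; linarith) (by rw [hp1, chi_inv]; linarith) (L h1 (a * x) y :: p)
    rw [hp1, hca] at h2
    -- `L c y⁻¹ :: L b y :: p ~ p`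
    have hcb : a * x * y * y⁻¹ = a * x := by group
    have h3 := t2 hX h1 hc (hX y hy) (by rw [hcb]; exact hb) p
    rw [inv_inv, hcb] at h3
    have h4 := h2.trans h3
    have hac : a * (x * y) = a * x * y := (mul_assoc a x y).symm
    have h4' : Ho χ h1 (a * (x * y)) (L h1 (a * x * y) (x * y)⁻¹ :: L h1 a x ::
        L h1 (a * x) y :: p) p := by rw [hac]; exact h4
    have h5 := cons_L hX h1 hxy ha hc' h4'
    have h6 := t2 hX h1 ha hxy hc' (L h1 a x :: L h1 (a * x) y :: p)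
    rw [hac] at h6
    exact h6.symm.trans h5

/-- homotopies of words are homotopies of paths -/
lemma hpy (hX : ∀ x ∈ X, x⁻¹ ∈ X) (h1 : (1 : G) ∈ X) {g : G} {w w' : List G}
    (h : HS.Hpy χ X g w w') : (HS.Ok χ X g w ↔ HS.Ok χ X g w') ∧
      (HS.Ok χ X g w → Ho χ h1 g (PW h1 g w) (PW h1 g w')) := by
  induction h with
  | refl g w => exact ⟨Iff.rfl, fun _ => Cel.Hty.refl _ _⟩
  | symm _ ih => exact ⟨ih.1.symm, fun h => (ih.2 (ih.1.2 h)).symm⟩
  | trans _ _ ih1 ih2 => exact ⟨ih1.1.trans ih2.1, fun h => (ih1.2 h).trans (ih2.2 (ih1.1.1 h))⟩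
  | @cons g x w w' _ ih =>
    refine ⟨⟨fun h => ⟨h.1, h.2.1, ih.1.1 h.2.2⟩, fun h => ⟨h.1, h.2.1, ih.1.2 h.2.2⟩⟩,
      fun h => ?_⟩
    rw [PW_cons, PW_cons]
    exact cons_L hX h1 h.2.1 h.1 (ok_start h.2.2) (ih.2 h.2.2)
  | one g w h1' =>
    refine ⟨⟨fun h => ?_, fun h => ⟨ok_start h, h1', ?_⟩⟩, fun h => ?_⟩
    · have h2 := h.2.2
      rw [mul_one] at h2
      exact h2
    · rw [mul_one]; exact h
    · rw [PW_cons, mul_one]
      exact t1 hX h1 h.1 _
  | tri g x y w hx hy hxy hg hgx hgxy =>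
    refine ⟨⟨fun h => ⟨hg, hxy, ?_⟩, fun h => ⟨hg, hx, hgx, hy, ?_⟩⟩, fun h => ?_⟩
    · rw [← mul_assoc]; exact h.2.2.2.2
    · have h2 := h.2.2
      rw [← mul_assoc] at h2
      exact h2
    · rw [PW_cons, PW_cons, PW_cons, ← mul_assoc]
      exact tri hX h1 hg hx hy hxy hgx hgxy _

end SK2

open SK2 SKC in
theorem I_SK2 (hE1 : StE1) : StSK2 := by
  intro G _ χ X hXfin hX h1 hCon hSic
  refine ⟨K χ X (Tr χ X) (att χ h1), sk2 hE1 hXfin hX h1 hCon ?_ ?_, ?_⟩
  · intro c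
    obtain ⟨⟨x, y⟩, ⟨hx, hy, hxy⟩, hx0, hxy0⟩ : Tr χ X := c
    have h2 : (0 : ℝ) ≤ χ (Additive.ofMul (1 : G)) := by rw [chi_one]
    have h3 : 0 ≤ χ (Additive.ofMul ((1 : G) * x)) := by rw [one_mul]; exact hx0
    have h4 : 0 ≤ χ (Additive.ofMul ((1 : G) * (x * y))) := by rw [one_mul]; exact hxy0
    refine ⟨h1_L hX h1 hx h2 h3, st_L hX h1 1 hx, h1_L hX h1 hy hx0 hxy0, ?_,
      h1_L hX h1 hxy h2 h4, ?_, ?_⟩
    · have h5 : (K χ X (Tr χ X) (att χ h1)).en (L h1 1 x) = ve (1 * x) := en_L hX h1 1 hx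
      rw [one_mul] at h5
      exact (st_L hX h1 x hy).trans h5.symm
    · have h5 : (K χ X (Tr χ X) (att χ h1)).en (L h1 x y) = ve (x * y) := en_L hX h1 x hy
      have h6 : (K χ X (Tr χ X) (att χ h1)).en (L h1 1 (x * y)) = ve (1 * (x * y)) :=
        en_L hX h1 1 hxy
      rw [one_mul] at h6
      exact h6.trans h5.symm
    · exact (en_rev _).trans (st_L hX h1 1 hxy)
  · intro g p hg hp
    have hT : ∀ h : G, 0 ≤ χ (Additive.ofMul h) → ∀ x ∈ X, χ (Additive.ofMul x) = 0 →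
        ∀ p : List ((G × (K χ X (Tr χ X) (att χ h1)).B 1) × Bool),
        Hom (ve h) (L h1 h x :: L h1 (h * x) x⁻¹ :: p) p := by
      intro h hh x hx hx0 p
      exact t2 hX h1 hh hx (by rw [chi_mul, hx0, add_zero]; exact hh) p
    obtain ⟨h3, h4, h5⟩ := stepA hX h1 hT hg hp
    have h6 : (p.map lab).prod = 1 := by
      have h7 : g * (p.map lab).prod = g * 1 := by rw [mul_one]; exact h5.symm
      exact mul_left_cancel h7
    exact h3.trans ((hpy hX h1 (hSic g _ h4 h6)).2 h4)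
  · show Finite (Tr χ X)
    have h : ({p : G × G | (p.1 ∈ X ∧ p.2 ∈ X ∧ p.1 * p.2 ∈ X) ∧
        0 ≤ χ (Additive.ofMul p.1) ∧ 0 ≤ χ (Additive.ofMul (p.1 * p.2))}).Finite :=
      (hXfin.prod hXfin).subset (fun p hp => ⟨hp.1.1, hp.1.2.1⟩)
    exact h.to_subtype

end Pool.Agent.Work.MP_e9e200_al.HT

end

section

/-!
# Project TL: basic lemmas
-/

set_option autoImplicit false

namespace Pool.Agent.Work.MP_e9e200_al.TL

open Finsupp Topology Topology.RelCWComplex Pool.Agent.Work.MP_e9e200_al.LC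

theorem ins_same {α : Type} {k : ℕ} (i : Fin (k + 1)) (s : α) (e : Fin k → α) :
    ins i s e i = s := by simp [ins]

theorem ins_succAbove {α : Type} {k : ℕ} (i : Fin (k + 1)) (s : α) (e : Fin k → α) (j : Fin k) :
    ins i s e (i.succAbove j) = e j := by simp [ins]

theorem ins_zero {α : Type} {k : ℕ} (s : α) (e : Fin k → α) :
    ins 0 s e = Fin.cons (α := fun _ => α) s e := by
  unfold ins; exact Fin.insertNth_zero' s e

theorem tail_ins_zero {α : Type} {k : ℕ} (s : α) (e : Fin k → α) :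
    Fin.tail (ins 0 s e) = e := by
  rw [ins_zero]; exact Fin.tail_cons _ _

theorem ins_succ_zero {α : Type} {k : ℕ} (i : Fin (k + 1)) (s : α) (e : Fin (k + 1) → α) :
    ins i.succ s e 0 = e 0 := by
  have h := ins_succAbove i.succ s e 0
  rwa [Fin.succ_succAbove_zero] at h

theorem tail_ins_succ {α : Type} {k : ℕ} (i : Fin (k + 1)) (s : α) (e : Fin (k + 1) → α) :
    Fin.tail (ins i.succ s e) = ins i s (Fin.tail e) := by
  funext j
  refine Fin.succAboveCases i ?_ ?_ j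
  · simp only [Fin.tail, ins_same]
  · intro j'
    simp only [Fin.tail, ins_succAbove]
    rw [← Fin.succ_succAbove_succ, ins_succAbove]

/-- a function is the insertion of its value -/
theorem ins_self {α : Type} {k : ℕ} (i : Fin (k + 1)) (p : Fin (k + 1) → α) :
    ins i (p i) (fun j => p (i.succAbove j)) = p := by
  funext j
  refine Fin.succAboveCases i ?_ ?_ j
  · simp [ins_same]
  · intro j'; simp [ins_succAbove]

theorem mem_II {k : ℕ} {x : Fin k → ℝ} : x ∈ II k ↔ ∀ i, |x i| ≤ 1 := by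
  rw [II, mem_closedBall_zero_iff, pi_norm_le_iff_of_nonneg zero_le_one]
  simp [Real.norm_eq_abs]

theorem mem_dII {k : ℕ} {x : Fin k → ℝ} : x ∈ dII k ↔ x ∈ II k ∧ ∃ i, |x i| = 1 := by
  constructor
  · intro h
    have h1 : ‖x‖ = 1 := by rwa [dII, mem_sphere_zero_iff_norm] at h
    have h2 : x ∈ II k := by rw [II, mem_closedBall_zero_iff]; exact h1.le
    refine ⟨h2, ?_⟩
    by_contra hne
    push Not at hne
    have h3 : ‖x‖ < 1 := by
      rw [pi_norm_lt_iff zero_lt_one]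
      intro i
      rw [Real.norm_eq_abs]
      exact lt_of_le_of_ne (mem_II.1 h2 i) (hne i)
    exact absurd h1 h3.ne
  · rintro ⟨h, i, hi⟩
    rw [dII, mem_sphere_zero_iff_norm]
    apply le_antisymm
    · rwa [II, mem_closedBall_zero_iff] at h
    · rw [← hi, ← Real.norm_eq_abs]; exact norm_le_pi_norm x i

theorem dII_subset (k : ℕ) : dII k ⊆ II k := Metric.sphere_subset_closedBall

theorem isCompact_II (k : ℕ) : IsCompact (II k) := isCompact_closedBall _ _

theorem isClosed_II (k : ℕ) : IsClosed (II k) := Metric.isClosed_closedBall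

theorem zero_mem_II (k : ℕ) : (0 : Fin k → ℝ) ∈ II k := mem_II.2 (by simp)

theorem abs_vb (s : Bool) : |vb s| = 1 := by cases s <;> simp [vb]

theorem ins_mem_II {k : ℕ} {i : Fin (k + 1)} {a : ℝ} {x : Fin k → ℝ} :
    ins i a x ∈ II (k + 1) ↔ |a| ≤ 1 ∧ x ∈ II k := by
  rw [mem_II, mem_II]
  constructor
  · intro h
    refine ⟨by have := h i; rwa [ins_same] at this, fun j => ?_⟩
    have := h (i.succAbove j)
    rwa [ins_succAbove] at this
  · rintro ⟨h1, h2⟩ j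
    refine Fin.succAboveCases i ?_ ?_ j
    · rw [ins_same]; exact h1
    · intro j'; rw [ins_succAbove]; exact h2 j'

theorem ins_vb_mem_dII {k : ℕ} (i : Fin (k + 1)) (s : Bool) {x : Fin k → ℝ} (hx : x ∈ II k) :
    ins i (vb s) x ∈ dII (k + 1) :=
  mem_dII.2 ⟨ins_mem_II.2 ⟨(abs_vb s).le, hx⟩, i, by rw [ins_same, abs_vb]⟩

theorem ins_vb_mem_II {k : ℕ} (i : Fin (k + 1)) (s : Bool) {x : Fin k → ℝ} (hx : x ∈ II k) :
    ins i (vb s) x ∈ II (k + 1) := ins_mem_II.2 ⟨(abs_vb s).le, hx⟩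

/-- every point of the boundary lies on a face -/
theorem exists_face {k : ℕ} {p : Fin (k + 1) → ℝ} (hp : p ∈ dII (k + 1)) :
    ∃ (i : Fin (k + 1)) (s : Bool) (x : Fin k → ℝ), x ∈ II k ∧ ins i (vb s) x = p := by
  obtain ⟨h1, i, hi⟩ := mem_dII.1 hp
  refine ⟨i, decide (p i = 1), fun j => p (i.succAbove j), mem_II.2 fun j => mem_II.1 h1 _, ?_⟩
  have h2 : vb (decide (p i = 1)) = p i := by
    by_cases h : p i = 1
    · simp [vb, h]
    · have h3 : p i = -1 := by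
        rcases (abs_eq (zero_le_one' ℝ)).1 hi with h4 | h4
        · exact absurd h4 h
        · exact h4
      rw [h3]; simp only [vb]; norm_num
  rw [h2, ins_self]

theorem continuous_ins {k : ℕ} (i : Fin (k + 1)) (a : ℝ) :
    Continuous (fun x : Fin k → ℝ => ins i a x) := by
  refine continuous_pi fun j => ?_
  refine Fin.succAboveCases i ?_ ?_ j
  · simp only [ins_same]; exact continuous_const
  · intro j'; simp only [ins_succAbove]; exact continuous_apply j'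

theorem gp_mem_II {k N : ℕ} (hN : 0 < N) {b : Fin k → ℕ} (hb : ∀ i, b i ≤ N) :
    gp N b ∈ II k := by
  refine mem_II.2 fun i => ?_
  have h1 : (0 : ℝ) < N := by exact_mod_cast hN
  have h2 : (b i : ℝ) ≤ N := by exact_mod_cast hb i
  have h3 : (0 : ℝ) ≤ b i := Nat.cast_nonneg _
  rw [gp, abs_le]
  constructor
  · have : 0 ≤ 2 * (b i : ℝ) / N := by positivity
    linarith
  · have : 2 * (b i : ℝ) / N ≤ 2 := by
      rw [div_le_iff₀ h1]; linarith
    linarith

theorem gp_ins {k N : ℕ} (i : Fin (k + 1)) (n : ℕ) (b : Fin k → ℕ) :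
    gp N (ins i n b) = ins i (2 * (n : ℝ) / (N : ℝ) - 1) (gp N b) := by
  funext j
  refine Fin.succAboveCases i ?_ ?_ j
  · simp only [gp, ins_same]
  · intro j'; simp only [gp, ins_succAbove]

theorem gp_ins_top {k N : ℕ} (hN : 0 < N) (i : Fin (k + 1)) (b : Fin k → ℕ) :
    gp N (ins i N b) = ins i (vb true) (gp N b) := by
  have h1 : (N : ℝ) ≠ 0 := by exact_mod_cast hN.ne'
  rw [gp_ins]; congr 1; simp only [vb, if_true]; field_simp; norm_num

theorem gp_ins_bot {k N : ℕ} (i : Fin (k + 1)) (b : Fin k → ℕ) :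
    gp N (ins i 0 b) = ins i (vb false) (gp N b) := by
  rw [gp_ins]; congr 1; simp [vb]

theorem pos_le {N k : ℕ} (a : Fin k → Option (Fin N)) (e : Fin k → Bool) (i : Fin k) :
    pos a e i ≤ N := by
  unfold pos
  rcases h : a i with _ | j
  · simp
  · have := j.2
    cases e i <;> simp

theorem dII_zero : dII 0 = ∅ := by
  ext x
  simp only [mem_dII, Set.mem_empty_iff_false, iff_false, not_and, not_exists]
  exact fun _ i => i.elim0

theorem cubeExt_zero {X : Type} [TopologicalSpace X] [Nonempty X] {T : Set X} :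
    CubeExt 0 T ↔ T.Nonempty := by
  constructor
  · intro h
    obtain ⟨Φ, _, h2, _⟩ := h (fun _ => Classical.arbitrary X)
      (by rw [dII_zero]; exact continuousOn_empty _) (by rw [dII_zero]; exact Set.mapsTo_empty _ _)
    exact ⟨_, h2 (zero_mem_II 0)⟩
  · rintro ⟨y, hy⟩ φ _ _
    exact ⟨fun _ => y, continuousOn_const, fun _ _ => hy, by
      rw [dII_zero]; exact Set.eqOn_empty _ _⟩

theorem cubeExt_succ {X : Type} [TopologicalSpace X] {T : Set X} {j : ℕ} :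
    CubeExt (j + 1) T ↔ O3.Ext T j := Iff.rfl

theorem cubeExt_of_conn {X : Type} [TopologicalSpace X] {T : Set X} {m : ℕ} (h : O3.Conn T m) :
    ∀ k ≤ m, CubeExt k T := by
  intro k hk
  rcases k with _ | k
  · have : Nonempty X := ⟨h.1.some⟩
    exact cubeExt_zero.2 h.1
  · exact h.2 k hk

theorem lev_zero {X : Type} [TopologicalSpace X] [CWComplex (Set.univ : Set X)] (h : X → ℝ) :
    lev h 0 = O3.half h := rfl

end Pool.Agent.Work.MP_e9e200_al.TL

end
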