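import Pool.Agent.Work.MP_e9e200_al.Bd.B24
import Pool.Agent.Work.MP_e9e200_al.Bd.B05
import Pool.Agent.Work.MP_e9e200_al.Bd.B17
import Pool.Agent.Work.MP_e9e200_al.Bd.B09
import Pool.Agent.Work.MP_e9e200_al.Bd.B31
import Pool.Agent.Work.MP_e9e200_al.LC.Stmts3
import Pool.Agent.Work.MP_e9e200_al.Bd.B11
import Pool.Agent.Work.MP_e9e200_al.Bd.B12
import Pool.Agent.Work.MP_e9e200_al.Bd.B16
import Pool.Agent.Work.MP_e9e200_al.Bd.B10

/-! Bundle of small proof modules (one section per former module). -/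

section

/-!
# Project HT: item ASM, from the 2-skeleton and type `FP_m` to the homotopical invariant
-/

set_option autoImplicit false

namespace Pool.Agent.Work.MP_e9e200_al.HT

open Finsupp Pool.Agent.Work.MP_e9e200_al.LC

namespace ASM

/-- the sets of cells of the extended complex -/
def BB (B E : ℕ → Type) : ℕ → Type
  | 0 => B 0
  | 1 => B 1
  | 2 => B 2
  | n + 3 => E n

variable {G : Type} [Group G]

/-- the extended complex -/
def XX (X : Cel G) (E : ℕ → Type) (e : E 0 → (G × X.B 2 →₀ ℤ))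
    (f : ∀ i, E (i + 1) → (G × E i →₀ ℤ)) : Cel G where
  B := BB X.B E
  src := X.src
  tgt := X.tgt
  bas := X.bas
  att := X.att
  d := fun i => match i with
    | 0 => X.d 0
    | 1 => X.d 1
    | 2 => e
    | n + 3 => f n

variable {X : Cel G} {E : ℕ → Type} {e : E 0 → (G × X.B 2 →₀ ℤ)}
  {f : ∀ i, E (i + 1) → (G × E i →₀ ℤ)}

lemma path {P : G × X.B 1 → Prop} (p : List ((G × X.B 1) × Bool)) :
    ∀ v w : G × X.B 0, X.IsPath P v p w → (XX X E e f).IsPath P v p w := by
  induction p with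
  | nil => intro v w h; exact h
  | cons a p ih =>
    intro v w h
    exact ⟨h.1, h.2.1, ih _ _ h.2.2⟩

lemma path' {P : G × X.B 1 → Prop} (p : List ((G × X.B 1) × Bool)) :
    ∀ v w : G × X.B 0, (XX X E e f).IsPath P v p w → X.IsPath P v p w := by
  induction p with
  | nil => intro v w h; exact h
  | cons a p ih =>
    intro v w h
    exact ⟨h.1, h.2.1, ih _ _ h.2.2⟩

lemma hty {P1 : G × X.B 1 → Prop} {P2 : G × X.B 2 → Prop} {v : G × X.B 0}
    {p q : List ((G × X.B 1) × Bool)} (h : X.Hty P1 P2 v p q) :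
    (XX X E e f).Hty P1 P2 v p q := by
  induction h with
  | refl v p => exact Cel.Hty.refl (X := XX X E e f) v p
  | symm _ ih => exact Cel.Hty.symm (X := XX X E e f) ih
  | trans _ _ ih1 ih2 => exact Cel.Hty.trans (X := XX X E e f) ih1 ih2
  | cons a h1 _ ih => exact Cel.Hty.cons (X := XX X E e f) a h1 ih
  | back a p h1 => exact Cel.Hty.back (X := XX X E e f) a p h1
  | cell c p h1 => exact Cel.Hty.cell (X := XX X E e f) c p h1

omit [Group G] in
lemma sup_iff {B : Type} {S : Set G} {T : Set (G × B)} (hT : ∀ c, c ∈ T ↔ c.1 ∈ S)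
    (x : G × B →₀ ℤ) : x ∈ Finsupp.supported ℤ ℤ T ↔
      x ∈ Finsupp.supported ℤ ℤ {p : G × B | p.1 ∈ S} := by
  have : T = {p : G × B | p.1 ∈ S} := Set.ext hT
  rw [this]

lemma ge_iff (Y : Cel G) (χ : Additive G →+ ℝ) (i : ℕ) (c : G × Y.B i) :
    c ∈ {c | Y.Ge χ (fun _ _ => 0) 0 i c} ↔ c.1 ∈ hs χ 0 := by
  show (0 : ℝ) ≤ χ (Additive.ofMul c.1) + 0 ↔ 0 ≤ χ (Additive.ofMul c.1)
  rw [add_zero]

lemma ge_sup (Y : Cel G) (χ : Additive G →+ ℝ) (i : ℕ) (x : G × Y.B i →₀ ℤ) :
    x ∈ Finsupp.supported ℤ ℤ {c | Y.Ge χ (fun _ _ => 0) 0 i c} ↔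
      x ∈ Finsupp.supported ℤ ℤ {p : G × Y.B i | p.1 ∈ hs χ 0} :=
  sup_iff (ge_iff Y χ i) x

lemma sup_of {B : Type} {χ : Additive G →+ ℝ} {x : G × B →₀ ℤ}
    (h : ∀ c ∈ x.support, (0 : ℝ) ≤ χ (Additive.ofMul c.1) + 0) :
    x ∈ Finsupp.supported ℤ ℤ {p : G × B | p.1 ∈ hs χ 0} := by
  rw [Finsupp.mem_supported]
  intro c hc
  have := h c hc
  rw [add_zero] at this
  exact this

lemma of_sup {B : Type} {χ : Additive G →+ ℝ} {x : G × B →₀ ℤ}
    (h : x ∈ Finsupp.supported ℤ ℤ {p : G × B | p.1 ∈ hs χ 0}) :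
    ∀ c ∈ x.support, (0 : ℝ) ≤ χ (Additive.ofMul c.1) + 0 := by
  intro c hc
  rw [Finsupp.mem_supported] at h
  rw [add_zero]
  exact h hc

omit [Group G] in
lemma aug_single {B : Type} (c : G × B) :
    LC.aug ℤ (fun _ : B => (1 : ℤ)) (single c (1 : ℤ)) = 1 := by
  unfold LC.aug
  rw [Finsupp.linearCombination_single]
  simp

end ASM

open ASM in
theorem I_ASM (hE0 : StE0) (hSEQ : StSEQ) (hGNZ : StGNZ) (hTRW : StTRW) (hMVP : StMVP) :
    StASM := by
  intro G _ χ hχ m hm X hX hB2 hFP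
  obtain ⟨E, e, f, s1, s2, s3, s4, s5, s6⟩ := hSEQ G (hs χ 0) (X.B 1) (X.B 2) (X.d 1)
    (by show (0 : ℝ) ≤ χ (Additive.ofMul 1); simp)
  have hgood := hX.good
  have hhgt := hX.hgt
  have hconn := hX.conn
  -- generation
  have H : ∀ i, GenC (hs χ 0) ((XX X E e f).d i) ((XX X E e f).d (i + 1)) := by
    intro i
    match i with
    | 0 =>
      refine ⟨fun b => sup_of (hhgt.d 1 b), fun b => hgood.dd 0 b, fun x hx hx0 => ?_⟩
      obtain ⟨y, hy, hyx⟩ := hconn.2.2 0 (by norm_num) x ((ge_sup X χ 1 x).2 hx) hx0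
      exact ⟨y, (ge_sup X χ 2 y).1 hy, hyx⟩
    | 1 => exact s1
    | 2 => exact s2
    | n + 3 => exact s3 n
  have hd0 : ∀ b, X.d 0 b ∈ Finsupp.supported ℤ ℤ {p : G × X.B 0 | p.1 ∈ hs χ 0} :=
    fun b => sup_of (hhgt.d 0 b)
  have haug : ∀ b, LC.aug ℤ (fun _ => (1 : ℤ)) (X.d 0 b) = 0 := by
    intro b
    rw [hgood.d0 b, map_sub, aug_single, aug_single, sub_self]
  have hex0 : ∀ x ∈ Finsupp.supported ℤ ℤ {p : G × X.B 0 | p.1 ∈ hs χ 0},
      LC.aug ℤ (fun _ => (1 : ℤ)) x = 0 →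
      ∃ y ∈ Finsupp.supported ℤ ℤ {p : G × X.B 1 | p.1 ∈ hs χ 0}, ext ℤ (X.d 0) y = x := by
    intro x hx hx0
    obtain ⟨y, hy, hyx⟩ := hE0 G X hgood (X.Ge χ (fun _ _ => 0) 0 0) (X.Ge χ (fun _ _ => 0) 0 1)
      (hconn.1 (by norm_num)).2 x ((ge_sup X χ 0 x).2 hx) hx0
    exact ⟨y, (ge_sup X χ 1 y).1 hy, hyx⟩
  have hne : Nonempty (X.B 0) := by
    obtain ⟨v, _⟩ := (hconn.1 (by norm_num)).1
    exact ⟨v.2⟩
  -- finiteness
  have hfin : ∀ i, i ≤ m → Finite ((XX X E e f).B i) := by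
    intro i
    induction i using Nat.strong_induction_on with
    | _ i ih =>
      intro hi
      have key : ∀ n, n + 2 = i → 1 ≤ n → ∃ (N : Type) (_ : Finite N)
          (z : N → (G × (XX X E e f).B (n + 1) →₀ ℤ)), GenC (hs χ 0) ((XX X E e f).d n) z := by
        intro n hn hn1
        exact hGNZ G (Gmon χ) m hFP (XX X E e f).B (XX X E e f).d hne hd0 haug hex0 n (by omega)
          (fun j hj => ih j (by omega) (by omega)) (fun j _ => H j)
      match i, hi, key with
      | 0, _, _ => exact hX.fin0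
      | 1, _, _ => exact hX.fin1
      | 2, hi, _ => exact hB2 hi
      | 3, _, key => exact s4 (key 1 rfl (by norm_num))
      | 4, _, key => exact s5 (key 2 rfl (by norm_num))
      | n + 5, _, key => exact s6 n (key (n + 3) rfl (by omega))
  -- the conditions
  have hG : (XX X E e f).Good := by
    refine ⟨fun b => path _ _ _ (hgood.clo b), hgood.d0, hgood.d1, fun i b => ?_⟩
    exact (H i).2.1 b
  have hH : (XX X E e f).Hgt χ (fun _ _ => 0) := by
    refine ⟨hhgt.src, hhgt.tgt, hhgt.bas, hhgt.att, fun i b => ?_⟩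
    match i with
    | 0 => exact hhgt.d 0 b
    | n + 1 => exact of_sup ((H n).1 b)
  obtain ⟨⟨v0, _⟩, m1, m2⟩ := hMVP G χ hχ X hconn
  refine ⟨hχ, XX X E e f, fun _ _ => 0, hG, fun n => ⟨fun _ => ⟨⟨v0, trivial⟩, ?_⟩, fun _ => ?_,
    fun i _ x _ hx => ?_⟩, hfin, hH, ⟨fun _ => ⟨?_, ?_⟩, fun _ => ?_, fun i _ x hx hx0 => ?_⟩⟩
  · intro v w _ _
    obtain ⟨p, hp⟩ := m1 v w
    exact ⟨p, path _ _ _ hp⟩
  · intro v p _ hp
    exact hty (m2 v p (path' _ _ _ hp))
  · obtain ⟨y, hy⟩ := hTRW G χ hχ _ _ _ _ _ (H i) x hx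
    refine ⟨y, ?_, hy⟩
    rw [Finsupp.mem_supported]
    exact fun c _ => trivial
  · obtain ⟨v, hv⟩ := (hconn.1 (by norm_num)).1
    exact ⟨v, hv⟩
  · intro v w hv hw
    obtain ⟨p, hp⟩ := (hconn.1 (by norm_num)).2 v w hv hw
    exact ⟨p, path _ _ _ hp⟩
  · intro v p hv hp
    exact hty (hconn.2.1 (by norm_num) v p hv (path' _ _ _ hp))
  · obtain ⟨y, hy, hyx⟩ := (H i).2.2 x ((ge_sup (XX X E e f) χ (i + 1) x).1 hx) hx0
    exact ⟨y, (ge_sup (XX X E e f) χ (i + 2) y).2 hy, hyx⟩

end Pool.Agent.Work.MP_e9e200_al.HT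

end

section

/-!
# Project HT: type `FP_1` over the half space monoid implies that the half space is connected
-/

set_option autoImplicit false

namespace Pool.Agent.Work.MP_e9e200_al.HT

open Submodule

namespace CON

section Words

variable {G : Type} [Group G] {χ : Additive G →+ ℝ} {X : Set G}

lemma ok_start {g : G} {w : List G} (h : HS.Ok χ X g w) : 0 ≤ χ (Additive.ofMul g) := by
  cases w with
  | nil => exact h
  | cons x w => exact h.1

lemma ok_append {g : G} {w w' : List G} (h : HS.Ok χ X g w)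
    (h' : HS.Ok χ X (g * w.prod) w') : HS.Ok χ X g (w ++ w') := by
  induction w generalizing g with
  | nil => simpa using h'
  | cons x w ih =>
    refine ⟨h.1, h.2.1, ih h.2.2 ?_⟩
    rw [List.prod_cons, ← mul_assoc] at h'
    exact h'

/-- joined by a path in the half space -/
def Rel (χ : Additive G →+ ℝ) (X : Set G) (g h : G) : Prop :=
  ∃ w, HS.Ok χ X g w ∧ g * w.prod = h

lemma Rel.refl {g : G} (h : 0 ≤ χ (Additive.ofMul g)) : Rel χ X g g :=
  ⟨[], h, by simp⟩

lemma Rel.step {g x : G} (h : 0 ≤ χ (Additive.ofMul g)) (hx : x ∈ X)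
    (h' : 0 ≤ χ (Additive.ofMul (g * x))) : Rel χ X g (g * x) :=
  ⟨[x], ⟨h, hx, h'⟩, by simp⟩

lemma Rel.trans {g h k : G} (h1 : Rel χ X g h) (h2 : Rel χ X h k) : Rel χ X g k := by
  obtain ⟨w, hw, rfl⟩ := h1
  obtain ⟨w', hw', rfl⟩ := h2
  exact ⟨w ++ w', ok_append hw hw', by rw [List.prod_append, mul_assoc]⟩

lemma Rel.symm (hX : ∀ x ∈ X, x⁻¹ ∈ X) {g h : G} (h1 : Rel χ X g h) : Rel χ X h g := by
  obtain ⟨w, hw, rfl⟩ := h1
  induction w generalizing g with
  | nil => simpa using Rel.refl (X := X) hw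
  | cons x w ih =>
    have h2 := ih hw.2.2
    rw [List.prod_cons, ← mul_assoc]
    refine h2.trans ?_
    have h3 : g * x * x⁻¹ = g := by group
    have h4 := Rel.step (X := X) (ok_start hw.2.2) (hX x hw.2.1) (by rw [h3]; exact hw.1)
    rw [h3] at h4
    exact h4

end Words

section Ring

variable {S : Type} [Monoid S]

/-- modulo finitely many elements `y - 1`, an element is its augmentation -/
lemma mod_aug (u : MonoidAlgebra ℤ S) : ∃ Y : Set S, Y.Finite ∧
    u - (aug S u : ℤ) • (1 : MonoidAlgebra ℤ S) ∈ span (MonoidAlgebra ℤ S)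
      {x : MonoidAlgebra ℤ S | ∃ y ∈ Y, x = MonoidAlgebra.of ℤ S y - 1} := by
  induction u using MonoidAlgebra.induction_on with
  | of s =>
    refine ⟨{s}, Set.finite_singleton s, subset_span ⟨s, rfl, ?_⟩⟩
    have h : aug S (MonoidAlgebra.of ℤ S s) = 1 := by
      unfold aug
      simp
    rw [h, one_smul]
  | add a b ha hb =>
    obtain ⟨Y, hY, ha⟩ := ha
    obtain ⟨Y', hY', hb⟩ := hb
    refine ⟨Y ∪ Y', hY.union hY', ?_⟩
    have h1 : a + b - (aug S (a + b) : ℤ) • (1 : MonoidAlgebra ℤ S) =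
        (a - (aug S a : ℤ) • (1 : MonoidAlgebra ℤ S)) +
        (b - (aug S b : ℤ) • (1 : MonoidAlgebra ℤ S)) := by
      rw [map_add, add_smul]; abel
    rw [h1]
    refine add_mem (span_mono ?_ ha) (span_mono ?_ hb)
    · rintro x ⟨y, hy, rfl⟩; exact ⟨y, Or.inl hy, rfl⟩
    · rintro x ⟨y, hy, rfl⟩; exact ⟨y, Or.inr hy, rfl⟩
  | smul n a ha =>
    obtain ⟨Y, hY, ha⟩ := ha
    refine ⟨Y, hY, ?_⟩
    have h1 : n • a - (aug S (n • a) : ℤ) • (1 : MonoidAlgebra ℤ S) =
        n • (a - (aug S a : ℤ) • (1 : MonoidAlgebra ℤ S)) := by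
      rw [map_zsmul, smul_sub, smul_assoc]
    rw [h1]
    exact zsmul_mem ha n

lemma triv_smul (r : MonoidAlgebra ℤ S) :
    r • (show Triv S from (1 : ℤ)) = (show Triv S from (aug S r : ℤ)) := by
  show (aug S r : ℤ) * (1 : ℤ) = aug S r
  rw [mul_one]

/-- the augmentation ideal is generated by finitely many elements `y - 1` -/
lemma fg_aug (h : IsFP (MonoidAlgebra ℤ S) (Triv S) 1) : ∃ Y : Set S, Y.Finite ∧
    ∀ r : MonoidAlgebra ℤ S, aug S r = 0 → r ∈ span (MonoidAlgebra ℤ S)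
      {x : MonoidAlgebra ℤ S | ∃ y ∈ Y, x = MonoidAlgebra.of ℤ S y - 1} := by
  obtain ⟨F, f, hproj, hfin, hsurj, hker⟩ := (I_Unsh (MonoidAlgebra ℤ S) (Triv S) 0).2 h
  have hkfin := (I_Unsh (MonoidAlgebra ℤ S) (LinearMap.ker f) 0).1 hker
  let a : MonoidAlgebra ℤ S →ₗ[MonoidAlgebra ℤ S] Triv S :=
    LinearMap.toSpanSingleton (MonoidAlgebra ℤ S) (Triv S) (show Triv S from (1 : ℤ))
  have ha : ∀ r, a r = (show Triv S from (aug S r : ℤ)) := fun r => by
    show r • (show Triv S from (1 : ℤ)) = _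
    exact triv_smul r
  have hasurj : Function.Surjective a := by
    intro z
    refine ⟨(show ℤ from z) • (1 : MonoidAlgebra ℤ S), ?_⟩
    rw [ha, map_zsmul, map_one]
    show ((show ℤ from z) • (1 : ℤ) : ℤ) = z
    simp
  obtain ⟨φ, hφ⟩ := Module.projective_lifting_property a f hasurj
  obtain ⟨x0, hx0⟩ := hsurj (show Triv S from (1 : ℤ))
  obtain ⟨gens, hgens⟩ := (Module.Finite.iff_fg.1 hkfin)
  -- the finite set of generators
  let U : Set (MonoidAlgebra ℤ S) := {1 - φ x0} ∪ φ '' (gens : Set F)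
  have hUfin : U.Finite := (Set.finite_singleton _).union (gens.finite_toSet.image _)
  have hφa : ∀ x, a (φ x) = f x := fun x => DFunLike.congr_fun hφ x
  have hU0 : ∀ u ∈ U, aug S u = 0 := by
    rintro u (rfl | ⟨x, hx, rfl⟩)
    · have h1 : a (1 - φ x0) = 0 := by
        rw [map_sub, hφa, hx0, ha, map_one]
        exact sub_self _
      rw [ha] at h1
      exact h1
    · have h1 : a (φ x) = 0 := by
        rw [hφa]
        have h2 : x ∈ span (MonoidAlgebra ℤ S) (gens : Set F) := subset_span hx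
        rw [hgens] at h2
        exact h2
      rw [ha] at h1
      exact h1
  choose Y hY1 hY2 using fun u : MonoidAlgebra ℤ S => mod_aug u
  refine ⟨⋃ u ∈ U, Y u, hUfin.biUnion (fun u _ => hY1 u), fun r hr => ?_⟩
  have hUspan : ∀ u ∈ U, u ∈ span (MonoidAlgebra ℤ S)
      {x : MonoidAlgebra ℤ S | ∃ y ∈ ⋃ u ∈ U, Y u, x = MonoidAlgebra.of ℤ S y - 1} := by
    intro u hu
    have h1 := hY2 u
    rw [hU0 u hu, zero_smul, sub_zero] at h1
    refine span_mono ?_ h1
    rintro x ⟨y, hy, rfl⟩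
    exact ⟨y, Set.mem_biUnion hu hy, rfl⟩
  have h1 : r = r * (1 - φ x0) + φ (r • x0) := by
    rw [map_smul, smul_eq_mul, mul_sub, mul_one, sub_add_cancel]
  rw [h1]
  refine add_mem (smul_mem _ r (hUspan _ (Or.inl rfl))) ?_
  have h2 : r • x0 ∈ LinearMap.ker f := by
    rw [LinearMap.mem_ker, map_smul, hx0, triv_smul, hr]
    rfl
  rw [← hgens] at h2
  have h3 : φ (r • x0) ∈ (span (MonoidAlgebra ℤ S) (gens : Set F)).map φ :=
    mem_map_of_mem h2
  rw [map_span] at h3
  refine (span_le.2 ?_) h3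
  intro u hu
  exact hUspan u (Or.inr hu)

end Ring

end CON

open CON in
theorem I_CON : StCON := by
  intro G _ χ h
  classical
  obtain ⟨Y, hY, hspan⟩ := fg_aug h
  let Y' : Set G := (fun y : Gmon χ => (y : G)) '' Y
  have hY' : Y'.Finite := hY.image _
  let X : Set G := (Y' ∪ (fun y => y⁻¹) '' Y') ∪ {1}
  have hXfin : X.Finite := (hY'.union (hY'.image _)).union (Set.finite_singleton _)
  have hXinv : ∀ x ∈ X, x⁻¹ ∈ X := by
    rintro x ((hx | ⟨y, hy, rfl⟩) | hx)
    · exact Or.inl (Or.inr ⟨x, hx, rfl⟩)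
    · exact Or.inl (Or.inl (by simpa using hy))
    · refine Or.inr ?_
      rw [Set.mem_singleton_iff] at hx ⊢
      rw [hx, inv_one]
  refine ⟨X, hXfin, hXinv, Or.inr rfl, ?_⟩
  have h1pos : 0 ≤ χ (Additive.ofMul (1 : G)) := by simp
  -- the component of `1`
  let ψ0 : Gmon χ → ℤ := fun s => if Rel χ X 1 (s : G) then 1 else 0
  let ψ : MonoidAlgebra ℤ (Gmon χ) →+ ℤ :=
    (Finsupp.liftAddHom (fun s : Gmon χ => (AddMonoidHom.mulRight (ψ0 s) : ℤ →+ ℤ))).comp
      MonoidAlgebra.coeffAddEquiv.toAddMonoidHom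
  have hψ : ∀ s, ψ (MonoidAlgebra.of ℤ (Gmon χ) s) = ψ0 s := by
    intro s
    show Finsupp.liftAddHom _ (MonoidAlgebra.coeff (MonoidAlgebra.of ℤ (Gmon χ) s)) = _
    rw [MonoidAlgebra.of_apply, MonoidAlgebra.coeff_single, Finsupp.liftAddHom_apply_single]
    show (1 : ℤ) * ψ0 s = ψ0 s
    rw [one_mul]
  have hstep : ∀ (s y : Gmon χ), y ∈ Y → ψ0 (s * y) = ψ0 s := by
    intro s y hy
    have hyX : (y : G) ∈ X := Or.inl (Or.inl ⟨y, hy, rfl⟩)
    have hs : 0 ≤ χ (Additive.ofMul (s : G)) := s.2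
    have hsy : 0 ≤ χ (Additive.ofMul ((s : G) * (y : G))) := (s * y).2
    have h1 : Rel χ X (s : G) ((s : G) * (y : G)) := Rel.step hs hyX hsy
    have h2 : Rel χ X 1 ((s * y : Gmon χ) : G) ↔ Rel χ X 1 (s : G) := by
      rw [Submonoid.coe_mul]
      exact ⟨fun h => h.trans (h1.symm hXinv), fun h => h.trans h1⟩
    simp only [ψ0, h2]
  have hvan : ∀ x ∈ span (MonoidAlgebra ℤ (Gmon χ)) {x : MonoidAlgebra ℤ (Gmon χ) |
      ∃ y ∈ Y, x = MonoidAlgebra.of ℤ (Gmon χ) y - 1}, ∀ r, ψ (r * x) = 0 := by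
    intro x hx
    induction hx using span_induction with
    | mem x hx =>
      obtain ⟨y, hy, rfl⟩ := hx
      intro r
      rw [mul_sub, mul_one, map_sub, sub_eq_zero]
      induction r using MonoidAlgebra.induction_on with
      | of s => rw [← map_mul, hψ, hψ, hstep s y hy]
      | add a b ha hb => rw [add_mul, map_add, map_add, ha, hb]
      | smul n a ha => rw [smul_mul_assoc, map_zsmul, map_zsmul, ha]
    | zero => intro r; rw [mul_zero, map_zero]
    | add a b _ _ ha hb => intro r; rw [mul_add, map_add, ha, hb, add_zero]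
    | smul s a _ ha => intro r; rw [smul_eq_mul, ← mul_assoc, ha]
  have hone : ∀ s : Gmon χ, Rel χ X 1 (s : G) := by
    intro s
    have h0 : aug (Gmon χ) (MonoidAlgebra.of ℤ (Gmon χ) s - 1) = 0 := by
      rw [map_sub, map_one]
      unfold aug
      simp
    have h2 := hvan _ (hspan _ h0) 1
    rw [one_mul, map_sub, hψ, ← map_one (MonoidAlgebra.of ℤ (Gmon χ)), hψ, sub_eq_zero] at h2
    by_contra hns
    have h3 : ψ0 s = 0 := if_neg hns
    have h4 : ψ0 1 = 1 := if_pos (Rel.refl h1pos)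
    rw [h3, h4] at h2
    exact absurd h2 (by norm_num)
  intro g h hg hh
  exact ((hone ⟨g, hg⟩).symm hXinv).trans (hone ⟨h, hh⟩)

end Pool.Agent.Work.MP_e9e200_al.HT

end

section

set_option autoImplicit false

namespace Pool.Agent.Work.MP_e9e200_al.HT

open Finsupp Pool.Agent.Work.MP_e9e200_al.LC

namespace E0

theorem ext_single {H B B' : Type} [Group H] (u : B → (H × B' →₀ ℤ)) (p : H × B) (c : ℤ) :
    ext ℤ u (single p c) = c • tr ℤ p.1 (u p.2) := by
  unfold LC.ext
  rw [Finsupp.linearCombination_single]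

theorem tr_single {H B : Type} [Group H] (h : H) (p : H × B) (c : ℤ) :
    tr ℤ h (single p c) = single (h * p.1, p.2) c := by
  unfold LC.tr
  rw [Finsupp.lmapDomain_apply, Finsupp.mapDomain_single]

variable {G : Type} [Group G] (X : Cel G)

theorem edge (hX : X.Good) (e : (G × X.B 1) × Bool) :
    ext ℤ (X.d 0) (single e.1 (if e.2 then (1 : ℤ) else -1)) =
      single (X.en e) 1 - single (X.st e) 1 := by
  obtain ⟨⟨g, b⟩, t⟩ := e
  rw [ext_single, hX.d0, map_sub, tr_single, tr_single]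
  cases t
  · simp [Cel.en, Cel.st]
  · simp [Cel.en, Cel.st]

theorem path (hX : X.Good) (P1 : G × X.B 1 → Prop) :
    ∀ (p : List ((G × X.B 1) × Bool)) (v w : G × X.B 0), X.IsPath P1 v p w →
      ext ℤ (X.d 0) (X.chn p) = single w 1 - single v 1 ∧
        X.chn p ∈ Finsupp.supported ℤ ℤ {c | P1 c}
  | [], v, w, h => by
      have h' : v = w := h
      subst h'
      constructor
      · simp [Cel.chn]
      · simp [Cel.chn]
  | e :: p, v, w, h => by
      obtain ⟨h1, h2, h3⟩ := h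
      obtain ⟨ih1, ih2⟩ := path hX P1 p _ _ h3
      have hc : X.chn (e :: p) = single e.1 (if e.2 then (1 : ℤ) else -1) + X.chn p := by
        simp [Cel.chn]
      rw [hc]
      constructor
      · rw [map_add, edge X hX, ih1, h2]
        abel
      · apply Submodule.add_mem _ _ ih2
        exact Finsupp.single_mem_supported ℤ _ h1

end E0

theorem I_E0 : StE0 := by
  classical
  intro G _ X hX P0 P1 hp x hx hx0
  by_cases hz : x = 0
  · exact ⟨0, Submodule.zero_mem _, by simp [hz]⟩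
  · obtain ⟨v0, hv0⟩ := Finsupp.support_nonempty_iff.mpr hz
    have hP : ∀ v ∈ x.support, P0 v := fun v hv => hx (Finset.mem_coe.mpr hv)
    choose p hpp using fun (v : x.support) => hp v0 v.1 (hP _ hv0) (hP _ v.2)
    have hsum : ∀ f : G × X.B 0 → (G × X.B 0 →₀ ℤ),
        ∑ v ∈ x.support.attach, x v.1 • f v.1 = ∑ v ∈ x.support, x v • f v := fun f =>
      Finset.sum_attach x.support (fun v => x v • f v)
    refine ⟨∑ v ∈ x.support.attach, x v.1 • X.chn (p v), ?_, ?_⟩
    · exact Submodule.sum_mem _ fun v _ =>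
        Submodule.smul_mem _ _ (E0.path X hX P1 _ _ _ (hpp v)).2
    · rw [map_sum]
      have h1 : ∀ v ∈ x.support.attach, ext ℤ (X.d 0) (x v.1 • X.chn (p v)) =
          x v.1 • (single v.1 (1 : ℤ) - single v0 1) := by
        intro v _
        rw [map_smul, (E0.path X hX P1 _ _ _ (hpp v)).1]
      rw [Finset.sum_congr rfl h1, hsum (fun v => single v (1 : ℤ) - single v0 1)]
      simp only [smul_sub]
      rw [Finset.sum_sub_distrib]
      have h2 : ∑ v ∈ x.support, x v • single v (1 : ℤ) = x := by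
        conv_rhs => rw [← Finsupp.sum_single x]
        unfold Finsupp.sum
        refine Finset.sum_congr rfl fun v _ => ?_
        rw [Finsupp.smul_single, smul_eq_mul, mul_one]
      have h3 : ∑ v ∈ x.support, x v • single v0 (1 : ℤ) = 0 := by
        rw [← Finset.sum_smul]
        have : ∑ v ∈ x.support, x v = 0 := by
          have := hx0
          unfold LC.aug at this
          rw [Finsupp.linearCombination_apply] at this
          unfold Finsupp.sum at this
          simpa using this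
        rw [this, zero_smul]
      rw [h2, h3, sub_zero]

end Pool.Agent.Work.MP_e9e200_al.HT

end

section

/-!
# Simply connected subcomplexes have no homology in degree one
-/

set_option autoImplicit false

namespace Pool.Agent.Work.MP_e9e200_al.HT

open Finsupp Pool.Agent.Work.MP_e9e200_al.LC

namespace E1

open Cel

variable {G : Type} [Group G]

theorem tr_single {B : Type} (h g : G) (b : B) (c : ℤ) :
    tr ℤ h (single (g, b) c) = single (h * g, b) c := by
  rw [tr, Finsupp.lmapDomain_apply, Finsupp.mapDomain_single]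

theorem ext_single {B B' : Type} (u : B → (G × B' →₀ ℤ)) (p : G × B) (c : ℤ) :
    ext ℤ u (single p c) = c • tr ℤ p.1 (u p.2) := by
  show Finsupp.linearCombination ℤ (fun q : G × B => tr ℤ q.1 (u q.2)) (single p c) = _
  rw [Finsupp.linearCombination_single]

variable (X : Cel G)

/-- the reversed path -/
def rv (p : List ((G × X.B 1) × Bool)) : List ((G × X.B 1) × Bool) :=
  (p.map (fun e => (e.1, !e.2))).reverse

theorem rv_nil : rv X [] = [] := rfl

theorem rv_cons (e : (G × X.B 1) × Bool) (p : List ((G × X.B 1) × Bool)) :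
    rv X (e :: p) = rv X p ++ [(e.1, !e.2)] := by
  simp [rv]

theorem chn_nil : X.chn [] = 0 := rfl

theorem chn_cons (e : (G × X.B 1) × Bool) (p : List ((G × X.B 1) × Bool)) :
    X.chn (e :: p) = single e.1 (if e.2 then (1 : ℤ) else -1) + X.chn p := by
  simp [chn]

theorem chn_append (p q : List ((G × X.B 1) × Bool)) :
    X.chn (p ++ q) = X.chn p + X.chn q := by
  simp [chn]

theorem single_neg' (c : G × X.B 1) (b : Bool) :
    (single c (if (!b) = true then (1 : ℤ) else -1) : G × X.B 1 →₀ ℤ) =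
      - single c (if b = true then (1 : ℤ) else -1) := by
  cases b
  · simp
  · simp

theorem chn_rv (p : List ((G × X.B 1) × Bool)) : X.chn (rv X p) = - X.chn p := by
  induction p with
  | nil => simp [rv_nil, chn_nil]
  | cons e p ih =>
    rw [rv_cons, chn_append, ih, chn_cons, chn_cons, chn_nil, single_neg']
    abel

theorem st_flip (e : (G × X.B 1) × Bool) : X.st (e.1, !e.2) = X.en e := rfl

theorem en_flip (e : (G × X.B 1) × Bool) : X.en (e.1, !e.2) = X.st e := by
  rw [en, Bool.not_not]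

theorem isPath_append (P : G × X.B 1 → Prop) (p q : List ((G × X.B 1) × Bool)) :
    ∀ u v w : G × X.B 0, X.IsPath P u p v → X.IsPath P v q w → X.IsPath P u (p ++ q) w := by
  induction p with
  | nil =>
    intro u v w h1 h2
    have h : u = v := h1
    subst h
    exact h2
  | cons e p ih =>
    intro u v w h1 h2
    obtain ⟨a, b, c⟩ := h1
    exact ⟨a, b, ih _ v w c h2⟩

theorem isPath_rv (P : G × X.B 1 → Prop) (p : List ((G × X.B 1) × Bool)) :
    ∀ u v : G × X.B 0, X.IsPath P u p v → X.IsPath P v (rv X p) u := by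
  induction p with
  | nil =>
    intro u v h
    exact Eq.symm h
  | cons e p ih =>
    intro u v h
    obtain ⟨a, b, c⟩ := h
    rw [rv_cons]
    refine isPath_append X P _ _ v _ u (ih _ v c) ⟨a, st_flip X e, ?_⟩
    have h3 : X.en (e.1, !e.2) = u := by rw [en_flip, b]
    exact h3

theorem isPath_end (P0 : G × X.B 0 → Prop) (P : G × X.B 1 → Prop)
    (hP : ∀ e : (G × X.B 1) × Bool, P e.1 → P0 (X.st e)) (p : List ((G × X.B 1) × Bool)) :
    ∀ u v : G × X.B 0, P0 u → X.IsPath P u p v → P0 v := by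
  induction p with
  | nil =>
    intro u v hu h
    have h' : u = v := h
    subst h'
    exact hu
  | cons e p ih =>
    intro u v _ h
    obtain ⟨a, _, c⟩ := h
    exact ih _ v (hP (e.1, !e.2) a) c

/-- the boundary of an edge -/
theorem bd_edge (hX : X.Good) (c : G × X.B 1) :
    ext ℤ (X.d 0) (single c 1) = single (X.en (c, true)) 1 - single (X.st (c, true)) 1 := by
  rw [ext_single, one_smul, hX.d0, map_sub]
  have h1 : tr ℤ c.1 (single (X.tgt c.2) 1) = single (c.1 * (X.tgt c.2).1, (X.tgt c.2).2) 1 :=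
    tr_single c.1 (X.tgt c.2).1 (X.tgt c.2).2 1
  have h2 : tr ℤ c.1 (single (X.src c.2) 1) = single (c.1 * (X.src c.2).1, (X.src c.2).2) 1 :=
    tr_single c.1 (X.src c.2).1 (X.src c.2).2 1
  rw [h1, h2]
  rfl

theorem mem_chn (P : G × X.B 1 → Prop) (p : List ((G × X.B 1) × Bool)) :
    ∀ u v : G × X.B 0, X.IsPath P u p v → X.chn p ∈ supported ℤ ℤ {c | P c} := by
  induction p with
  | nil =>
    intro u v _
    rw [chn_nil]
    exact Submodule.zero_mem _
  | cons e p ih =>
    intro u v h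
    obtain ⟨a, _, c⟩ := h
    rw [chn_cons]
    exact Submodule.add_mem _ (single_mem_supported ℤ _ a) (ih _ v c)

theorem chn_mv (g : G) (p : List ((G × X.B 1) × Bool)) : X.chn (X.mv g p) = tr ℤ g (X.chn p) := by
  induction p with
  | nil =>
    rw [chn_nil, map_zero]
    rfl
  | cons e p ih =>
    rw [chn_cons, map_add, ← ih]
    have h1 : X.mv g (e :: p) = ((g * e.1.1, e.1.2), e.2) :: X.mv g p := rfl
    have h2 : tr ℤ g (single e.1 (if e.2 then (1 : ℤ) else -1)) =
      single (g * e.1.1, e.1.2) (if e.2 then (1 : ℤ) else -1) := tr_single g e.1.1 e.1.2 _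
    rw [h1, chn_cons, h2]

/-- homotopic paths have homologous chains -/
theorem hty (hX : X.Good) (P1 : G × X.B 1 → Prop) (P2 : G × X.B 2 → Prop) (v : G × X.B 0)
    (p q : List ((G × X.B 1) × Bool)) (h : X.Hty P1 P2 v p q) :
    ∃ y ∈ supported ℤ ℤ {c | P2 c}, ext ℤ (X.d 1) y = X.chn p - X.chn q := by
  induction h with
  | refl v p => exact ⟨0, Submodule.zero_mem _, by rw [map_zero, sub_self]⟩
  | symm _ ih =>
    obtain ⟨y, hy, h⟩ := ih
    exact ⟨-y, Submodule.neg_mem _ hy, by rw [map_neg, h, neg_sub]⟩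
  | trans _ _ ih1 ih2 =>
    obtain ⟨y, hy, h⟩ := ih1
    obtain ⟨z, hz, h'⟩ := ih2
    exact ⟨y + z, Submodule.add_mem _ hy hz, by rw [map_add, h, h', sub_add_sub_cancel]⟩
  | cons e _ _ ih =>
    obtain ⟨y, hy, h⟩ := ih
    exact ⟨y, hy, by rw [h, chn_cons, chn_cons, add_sub_add_left_eq_sub]⟩
  | back e p _ =>
    refine ⟨0, Submodule.zero_mem _, ?_⟩
    rw [map_zero, chn_cons, chn_cons, single_neg']
    abel
  | cell c p hc =>
    refine ⟨single c 1, single_mem_supported ℤ _ hc, ?_⟩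
    rw [ext_single, one_smul, hX.d1, chn_append, chn_mv, add_sub_cancel_right]

end E1

open Cel in
theorem I_E1 : StE1 := by
  classical
  intro G _ X hX P0 P1 P2 hP ⟨v0, hv0⟩ hcon hsc x hx hdx
  -- the paths from the base vertex
  have hpath : ∀ v, ∃ p, P0 v → X.IsPath P1 v0 p v := by
    intro v
    by_cases h : P0 v
    · obtain ⟨p, hp⟩ := hcon v0 v hv0 h
      exact ⟨p, fun _ => hp⟩
    · exact ⟨[], fun h' => absurd h' h⟩
  choose pt hpt using hpath
  -- the fundamental loops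
  have hloop : ∀ c, ∃ y ∈ supported ℤ ℤ {c | P2 c}, P1 c → ext ℤ (X.d 1) y =
      single c 1 + X.chn (pt (X.st (c, true))) - X.chn (pt (X.en (c, true))) := by
    intro c
    by_cases h : P1 c
    · have hu : P0 (X.st (c, true)) := hP (c, true) h
      have hw : P0 (X.en (c, true)) := hP (c, false) h
      have hl : X.IsPath P1 v0 (pt (X.st (c, true)) ++ ([(c, true)] ++
          E1.rv X (pt (X.en (c, true))))) v0 := by
        refine E1.isPath_append X P1 _ _ v0 _ v0 (hpt _ hu)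
          (E1.isPath_append X P1 _ _ _ (X.en (c, true)) v0 ⟨h, rfl, rfl⟩
            (E1.isPath_rv X P1 _ _ _ (hpt _ hw)))
      obtain ⟨y, hy, hy'⟩ := E1.hty X hX P1 P2 v0 _ _ (hsc v0 _ hv0 hl)
      refine ⟨y, hy, fun _ => ?_⟩
      rw [hy', E1.chn_append, E1.chn_append, E1.chn_rv, E1.chn_cons, E1.chn_nil]
      simp only [if_true]
      abel
    · exact ⟨0, Submodule.zero_mem _, fun h' => absurd h' h⟩
  choose yc hyc hyc' using hloop
  -- the linear map given by the paths
  let F : (G × X.B 0 →₀ ℤ) →ₗ[ℤ] (G × X.B 1 →₀ ℤ) :=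
    Finsupp.linearCombination ℤ (fun v => X.chn (pt v))
  let Y : (G × X.B 1 →₀ ℤ) →ₗ[ℤ] (G × X.B 2 →₀ ℤ) := Finsupp.linearCombination ℤ yc
  have hF : ∀ v, F (single v 1) = X.chn (pt v) := fun v => by
    show Finsupp.linearCombination ℤ (fun v => X.chn (pt v)) (single v 1) = _
    rw [Finsupp.linearCombination_single, one_smul]
  have key : ∀ z ∈ supported ℤ ℤ {c | P1 c}, ext ℤ (X.d 1) (Y z) = z - F (ext ℤ (X.d 0) z) := by
    intro z hz
    rw [Finsupp.supported_eq_span_single] at hz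
    induction hz using Submodule.span_induction with
    | mem z hz =>
      obtain ⟨c, hc, rfl⟩ := hz
      have h1 : Y (single c 1) = yc c := by
        show Finsupp.linearCombination ℤ yc (single c 1) = _
        rw [Finsupp.linearCombination_single, one_smul]
      show ext ℤ (X.d 1) (Y (single c 1)) = single c 1 - F (ext ℤ (X.d 0) (single c 1))
      rw [h1, hyc' c hc, E1.bd_edge X hX, map_sub, hF, hF]
      abel
    | zero => simp
    | add a b _ _ ha hb =>
      rw [map_add, map_add, ha, hb, map_add, map_add]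
      abel
    | smul r a _ ha =>
      rw [map_smul, map_smul, ha, map_smul, map_smul, smul_sub]
  refine ⟨Y x, ?_, ?_⟩
  · show Finsupp.linearCombination ℤ yc x ∈ _
    rw [Finsupp.linearCombination_apply]
    exact Submodule.sum_mem _ (fun c _ => Submodule.smul_mem _ _ (hyc c))
  · rw [key x hx, hdx, map_zero, sub_zero]

end Pool.Agent.Work.MP_e9e200_al.HT

end

section

/-! Item EC: the based complex over the complex numbers. -/

set_option autoImplicit false

namespace Pool.Agent.Work.MP_e9e200_al.HT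

open Finsupp Pool.Agent.Work.MP_e9e200_al.LC

namespace EC

theorem msup {A A' : Type} (f : A → A') (x : A →₀ ℤ) (T : Set A')
    (h : ∀ q ∈ x.support, f q ∈ T) : Finsupp.mapDomain f x ∈ Finsupp.supported ℤ ℤ T := by
  classical
  rw [Finsupp.mem_supported]
  intro p hp
  have h1 := Finsupp.mapDomain_support hp
  rw [Finset.mem_image] at h1
  obtain ⟨q, hq, rfl⟩ := h1
  exact h q hq

section

variable {G : Type} [Group G] (X : Cel G) (m : ℕ)

/-- the cells of dimension at most `m` -/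
abbrev Bs : Type := Σ i : Fin (m + 1), X.B i

/-- the inclusion of the `i`-cells -/
def inc (i : ℕ) (hi : i < m + 1) (p : G × X.B i) : G × Bs X m := (p.1, ⟨⟨i, hi⟩, p.2⟩)

theorem inc_inj (i : ℕ) (hi : i < m + 1) : Function.Injective (inc X m i hi) := by
  rintro ⟨g, b⟩ ⟨g', b'⟩ h
  unfold inc at h
  rw [Prod.mk.injEq] at h
  obtain ⟨h1, h2⟩ := h
  have h3 : b = b' := eq_of_heq (Sigma.mk.inj h2).2
  have h4 : g = g' := h1
  rw [h3, h4]

/-- the inclusion of the chains -/
noncomputable def imz (i : ℕ) (hi : i < m + 1) : (G × X.B i →₀ ℤ) →ₗ[ℤ] (G × Bs X m →₀ ℤ) :=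
  Finsupp.lmapDomain ℤ ℤ (inc X m i hi)

theorem imz_inj (i : ℕ) (hi : i < m + 1) : Function.Injective (imz X m i hi) :=
  Finsupp.mapDomain_injective (inc_inj X m i hi)

/-- the degree -/
def dg (b : Bs X m) : ℕ := b.1

/-- the integral boundary -/
noncomputable def dz : Bs X m → (G × Bs X m →₀ ℤ)
  | ⟨⟨0, _⟩, _⟩ => 0
  | ⟨⟨i + 1, h⟩, b⟩ => imz X m i (Nat.lt_of_succ_lt h) (X.d i b)

/-- the integral augmentation -/
def ez : Bs X m → ℤ
  | ⟨⟨0, _⟩, _⟩ => 1
  | ⟨⟨_ + 1, _⟩, _⟩ => 0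

theorem tr_imz (i : ℕ) (hi : i < m + 1) (g : G) (x : G × X.B i →₀ ℤ) :
    tr ℤ g (imz X m i hi x) = imz X m i hi (tr ℤ g x) := by
  unfold tr imz
  simp only [Finsupp.lmapDomain_apply]
  rw [← Finsupp.mapDomain_comp, ← Finsupp.mapDomain_comp]
  rfl

theorem imz_single (i : ℕ) (hi : i < m + 1) (p : G × X.B i) (n : ℤ) :
    imz X m i hi (single p n) = single (inc X m i hi p) n := by
  unfold imz
  rw [Finsupp.lmapDomain_apply, Finsupp.mapDomain_single]

theorem ext_imz (i : ℕ) (hi : i + 1 < m + 1) (x : G × X.B (i + 1) →₀ ℤ) :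
    ext ℤ (dz X m) (imz X m (i + 1) hi x) =
      imz X m i (Nat.lt_of_succ_lt hi) (ext ℤ (X.d i) x) := by
  induction x using Finsupp.induction_linear with
  | zero => simp
  | add x y hx hy => rw [map_add, map_add, hx, hy, map_add, map_add]
  | single p n =>
    rw [imz_single]
    unfold LC.ext
    rw [Finsupp.linearCombination_single, Finsupp.linearCombination_single, map_smul, ← tr_imz]
    rfl

theorem ext_imz0 (hi : 0 < m + 1) (x : G × X.B 0 →₀ ℤ) :
    ext ℤ (dz X m) (imz X m 0 hi x) = 0 := by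
  induction x using Finsupp.induction_linear with
  | zero => simp
  | add x y hx hy => rw [map_add, map_add, hx, hy, add_zero]
  | single p n =>
    rw [imz_single]
    unfold LC.ext
    rw [Finsupp.linearCombination_single]
    have : dz X m (inc X m 0 hi p).2 = 0 := rfl
    rw [this, map_zero, smul_zero]

theorem aug_imz0 (hi : 0 < m + 1) (x : G × X.B 0 →₀ ℤ) :
    LC.aug ℤ (ez X m) (imz X m 0 hi x) = LC.aug ℤ (fun _ => (1 : ℤ)) x := by
  induction x using Finsupp.induction_linear with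
  | zero => simp
  | add x y hx hy => rw [map_add, map_add, hx, hy, map_add]
  | single p n =>
    rw [imz_single]
    unfold LC.aug
    rw [Finsupp.linearCombination_single, Finsupp.linearCombination_single]
    rfl

theorem aug_imz (i : ℕ) (hi : i + 1 < m + 1) (x : G × X.B (i + 1) →₀ ℤ) :
    LC.aug ℤ (ez X m) (imz X m (i + 1) hi x) = 0 := by
  induction x using Finsupp.induction_linear with
  | zero => simp
  | add x y hx hy => rw [map_add, map_add, hx, hy, add_zero]
  | single p n =>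
    rw [imz_single]
    unfold LC.aug
    rw [Finsupp.linearCombination_single]
    have : ez X m (inc X m (i + 1) hi p).2 = 0 := rfl
    rw [this, smul_zero]

theorem exists_imz (i : ℕ) (hi : i < m + 1) (x : G × Bs X m →₀ ℤ)
    (hx : ∀ p ∈ x.support, dg X m p.2 = i) : ∃ y, imz X m i hi y = x := by
  refine ⟨Finsupp.comapDomain (inc X m i hi) x (inc_inj X m i hi).injOn, ?_⟩
  unfold imz
  rw [Finsupp.lmapDomain_apply]
  apply Finsupp.mapDomain_comapDomain _ (inc_inj X m i hi)
  rintro ⟨g, ⟨⟨j, hj⟩, b⟩⟩ hp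
  have h1 : j = i := hx _ hp
  subst h1
  exact ⟨(g, b), rfl⟩

theorem imz_apply (i : ℕ) (hi : i < m + 1) (x : G × X.B i →₀ ℤ) (p : G × X.B i) :
    imz X m i hi x (inc X m i hi p) = x p :=
  Finsupp.mapDomain_apply (inc_inj X m i hi) x p

end

theorem exists_bound {G B : Type} [Group G] (χ : Additive G →+ ℝ) (z : G × B →₀ ℂ) :
    ∃ M : ℝ, 0 ≤ M ∧ ∀ p ∈ z.support, -M ≤ χ (Additive.ofMul p.1) := by
  refine ⟨∑ p ∈ z.support, |χ (Additive.ofMul p.1)|, Finset.sum_nonneg fun _ _ => abs_nonneg _, ?_⟩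
  intro p hp
  have h1 : |χ (Additive.ofMul p.1)| ≤ ∑ p ∈ z.support, |χ (Additive.ofMul p.1)| :=
    Finset.single_le_sum (f := fun p : G × B => |χ (Additive.ofMul p.1)|)
      (fun _ _ => abs_nonneg _) hp
  have h2 := neg_abs_le (χ (Additive.ofMul p.1))
  linarith

theorem exists_max {B : Type} [Finite B] (f : B → ℝ) : ∃ M : ℝ, 0 ≤ M ∧ ∀ b, |f b| ≤ M := by
  have := Fintype.ofFinite B
  refine ⟨∑ b, |f b|, Finset.sum_nonneg fun _ _ => abs_nonneg _, fun b => ?_⟩
  exact Finset.single_le_sum (f := fun b => |f b|) (fun _ _ => abs_nonneg _) (Finset.mem_univ b)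

end EC

open EC CHG in
theorem I_EC : StEC := by
  classical
  intro G _ X χ ht hX hne m hfin C hess
  have hF : Finite (Bs X m) := by
    have : ∀ i : Fin (m + 1), Finite (X.B i) := fun i => hfin i (Nat.lt_succ_iff.1 i.2)
    exact Finite.instSigma
  obtain ⟨H0, hH0, hH⟩ := exists_max (fun b : Bs X m => ht b.1 b.2)
  choose M hM0 hM using fun b : Bs X m => exists_bound χ (ch (dz X m b))
  obtain ⟨M', hM'0, hM'⟩ := exists_max M
  obtain ⟨hC, hE⟩ := hess
  refine ⟨Bs X m, hF, dg X m, fun b => ch (dz X m b), fun b => (ez X m b : ℂ), C + 2 * H0 + M',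
    ?_, ?_⟩
  · refine ⟨?_, ?_, ?_, ?_, ?_⟩
    · rintro ⟨⟨i, hi⟩, b⟩
      apply ch_supported
      cases i with
      | zero => exact Submodule.zero_mem _
      | succ i =>
        apply msup
        intro q _
        rfl
    · rintro ⟨⟨i, hi⟩, b⟩ h
      cases i with
      | zero => exact absurd rfl h
      | succ i =>
        show ((0 : ℤ) : ℂ) = 0
        exact Int.cast_zero
    · rintro ⟨⟨i, hi⟩, b⟩
      rw [ch_ext]
      have h1 : ext ℤ (dz X m) (dz X m ⟨⟨i, hi⟩, b⟩) = 0 := by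
        match i, hi, b with
        | 0, hi, b => exact map_zero _
        | 1, hi, b => exact ext_imz0 X m _ _
        | i + 2, hi, b =>
          have h2 := ext_imz X m i (Nat.lt_of_succ_lt hi) (X.d (i + 1) b)
          rw [hX.dd, map_zero] at h2
          exact h2
      rw [h1, map_zero]
    · rintro ⟨⟨i, hi⟩, b⟩
      rw [ch_aug]
      have h1 : LC.aug ℤ (ez X m) (dz X m ⟨⟨i, hi⟩, b⟩) = 0 := by
        match i, hi, b with
        | 0, hi, b => exact map_zero _
        | 1, hi, b =>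
          have h3 : ∀ p : G × X.B 0, LC.aug ℤ (fun _ => (1 : ℤ)) (single p (1 : ℤ)) = 1 := by
            intro p
            unfold LC.aug
            rw [Finsupp.linearCombination_single, one_smul]
          have h2 : LC.aug ℤ (ez X m) (imz X m 0 (Nat.succ_pos m) (X.d 0 b)) = 0 := by
            rw [aug_imz0, hX.d0, map_sub, h3, h3, sub_self]
          exact h2
        | i + 2, hi, b => exact aug_imz X m i _ _
      rw [h1, Int.cast_zero]
    · obtain ⟨b0⟩ := hne
      refine ⟨ch (imz X m 0 (Nat.succ_pos m) (single ((1 : G), b0) 1)), ?_, ?_⟩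
      · apply ch_supported
        apply msup
        intro q _
        rfl
      · rw [ch_aug, aug_imz0]
        unfold LC.aug
        rw [Finsupp.linearCombination_single, one_smul, Int.cast_one]
  · refine ⟨by positivity, ?_, ?_⟩
    · intro b
      rw [Finsupp.mem_supported]
      intro p hp
      have h1 := hM b p hp
      have h2 := (le_abs_self _).trans (hM' b)
      show -(C + 2 * H0 + M') ≤ χ (Additive.ofMul p.1)
      linarith
    · intro t d hd x hx hDx hax
      -- the integral version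
      have key : ∀ z : G × Bs X m →₀ ℤ,
          z ∈ Finsupp.supported ℤ ℤ {p : G × Bs X m | p.1 ∈ hs χ t ∧ dg X m p.2 = d} →
          ext ℤ (dz X m) z = 0 → LC.aug ℤ (ez X m) z = 0 →
          ∃ y ∈ Finsupp.supported ℤ ℤ
            {p : G × Bs X m | p.1 ∈ hs χ (t - (C + 2 * H0 + M')) ∧ dg X m p.2 = d + 1},
            ext ℤ (dz X m) y = z := by
        intro z hz hDz haz
        rw [Finsupp.mem_supported] at hz
        have hd1 : d < m + 1 := Nat.lt_succ_of_lt hd
        have hd2 : d + 1 < m + 1 := Nat.succ_lt_succ hd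
        obtain ⟨z', rfl⟩ := exists_imz X m d hd1 z fun p hp => (hz hp).2
        have hz' : z' ∈ Finsupp.supported ℤ ℤ {c | X.Ge χ ht (t - H0) d c} := by
          rw [Finsupp.mem_supported]
          intro p hp
          have h1 : inc X m d hd1 p ∈ (imz X m d hd1 z').support := by
            rw [Finsupp.mem_support_iff, imz_apply]
            exact Finsupp.mem_support_iff.1 hp
          have h2 : t ≤ χ (Additive.ofMul p.1) := (hz h1).1
          have h3 : |ht d p.2| ≤ H0 := hH ⟨⟨d, hd1⟩, p.2⟩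
          have h4 := (abs_le.1 h3).1
          show t - H0 ≤ χ (Additive.ofMul p.1) + ht d p.2
          linarith
        have fin : ∀ y' ∈ Finsupp.supported ℤ ℤ {c | X.Ge χ ht (t - H0 - C) (d + 1) c},
            ext ℤ (X.d d) y' = z' → ∃ y ∈ Finsupp.supported ℤ ℤ
            {p : G × Bs X m | p.1 ∈ hs χ (t - (C + 2 * H0 + M')) ∧ dg X m p.2 = d + 1},
            ext ℤ (dz X m) y = imz X m d hd1 z' := by
          intro y' hy' hDy'
          refine ⟨imz X m (d + 1) hd2 y', ?_, ?_⟩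
          · apply msup
            intro p hp
            refine ⟨?_, rfl⟩
            rw [Finsupp.mem_supported] at hy'
            have h1 : t - H0 - C ≤ χ (Additive.ofMul p.1) + ht (d + 1) p.2 := hy' hp
            have h3 : |ht (d + 1) p.2| ≤ H0 := hH ⟨⟨d + 1, hd2⟩, p.2⟩
            have h4 := (abs_le.1 h3).2
            show t - (C + 2 * H0 + M') ≤ χ (Additive.ofMul p.1)
            linarith
          · rw [ext_imz, hDy']
        obtain ⟨hE0, hE1⟩ := hE (t - H0)
        match d, hd, hd1, hd2, z', hz', hDz, haz, fin with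
        | 0, hd, hd1, hd2, z', hz', hDz, haz, fin =>
          rw [aug_imz0] at haz
          obtain ⟨y', hy', h1⟩ := hE0 hd z' hz' haz
          exact fin y' hy' h1
        | d + 1, hd, hd1, hd2, z', hz', hDz, haz, fin =>
          rw [ext_imz] at hDz
          have h0 : ext ℤ (X.d d) z' = 0 := by
            apply imz_inj X m d (Nat.lt_of_succ_lt hd1)
            rw [hDz, map_zero]
          obtain ⟨y', hy', h1⟩ := hE1 d hd z' hz' h0
          exact fin y' hy' h1
      obtain ⟨ι, _, v, y, hv, hxy, hy⟩ := exists_coord x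
      have hys : ∀ i, y i ∈ Finsupp.supported ℤ ℤ
          {p : G × Bs X m | p.1 ∈ hs χ t ∧ dg X m p.2 = d} := by
        intro i
        rw [Finsupp.mem_supported'] at hx ⊢
        intro p hp
        exact hy i p (hx p hp)
      have hD : ∀ i, ext ℤ (dz X m) (y i) = 0 := by
        intro i
        ext q
        have h1 : ∑ i, ((ext ℤ (dz X m) (y i) q : ℤ) : ℂ) * v i = 0 := by
          have h2 : ext ℂ (fun b => ch (dz X m b)) x q = 0 := by rw [hDx]; rfl
          rw [hxy, map_sum, Finsupp.finsetSum_apply] at h2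
          refine Eq.trans (Finset.sum_congr rfl fun i _ => ?_) h2
          rw [map_smul, ch_ext, Finsupp.smul_apply, ch_apply, smul_eq_mul, mul_comm]
        exact hv (fun i => ext ℤ (dz X m) (y i) q) h1 i
      have hA : ∀ i, LC.aug ℤ (ez X m) (y i) = 0 := by
        refine hv (fun i => LC.aug ℤ (ez X m) (y i)) ?_
        have h2 := hax
        rw [hxy, map_sum] at h2
        refine Eq.trans (Finset.sum_congr rfl fun i _ => ?_) h2
        rw [map_smul, ch_aug, smul_eq_mul, mul_comm]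
      choose w hw1 hw2 using fun i => key (y i) (hys i) (hD i) (hA i)
      refine ⟨∑ i, v i • ch (w i), ?_, ?_⟩
      · exact Submodule.sum_mem _ fun i _ => Submodule.smul_mem _ _ (ch_supported (hw1 i))
      · rw [map_sum]
        conv_rhs => rw [hxy]
        refine Finset.sum_congr rfl fun i _ => ?_
        rw [map_smul, ch_ext, hw2]

end Pool.Agent.Work.MP_e9e200_al.HT

end

section

/-!
# Project HT, item EZ: from the level zero to all levels
-/

set_option autoImplicit false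

namespace Pool.Agent.Work.MP_e9e200_al.HT

open Finsupp Pool.Agent.Work.MP_e9e200_al.LC

namespace EZ

variable {G : Type} [Group G]

theorem tr_single {B : Type} (g : G) (p : G × B) (a : ℤ) :
    tr ℤ g (single p a) = single (g * p.1, p.2) a := by
  simp [tr, Finsupp.lmapDomain_apply, Finsupp.mapDomain_single]

theorem tr_tr {B : Type} (g h : G) (x : G × B →₀ ℤ) :
    tr ℤ g (tr ℤ h x) = tr ℤ (g * h) x := by
  induction x using Finsupp.induction_linear with
  | zero => simp
  | add x y hx hy => simp [hx, hy]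
  | single p a => simp [tr_single, mul_assoc]

theorem tr_one {B : Type} (x : G × B →₀ ℤ) : tr ℤ (1 : G) x = x := by
  induction x using Finsupp.induction_linear with
  | zero => simp
  | add x y hx hy => simp [hx, hy]
  | single p a => simp [tr_single]

theorem ext_single {B B' : Type} (u : B → (G × B' →₀ ℤ)) (p : G × B) (a : ℤ) :
    ext ℤ u (single p a) = a • tr ℤ p.1 (u p.2) := by
  simp [LC.ext, Finsupp.linearCombination_single]

theorem ext_tr {B B' : Type} (u : B → (G × B' →₀ ℤ)) (g : G) (x : G × B →₀ ℤ) :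
    ext ℤ u (tr ℤ g x) = tr ℤ g (ext ℤ u x) := by
  induction x using Finsupp.induction_linear with
  | zero => simp
  | add x y hx hy => simp [hx, hy]
  | single p a => rw [tr_single, ext_single, ext_single, map_smul, tr_tr]

theorem aug_tr {B : Type} (e : B → ℤ) (g : G) (x : G × B →₀ ℤ) :
    LC.aug ℤ e (tr ℤ g x) = LC.aug ℤ e x := by
  induction x using Finsupp.induction_linear with
  | zero => simp
  | add x y hx hy => simp [hx, hy]
  | single p a => rw [tr_single]; simp [LC.aug, Finsupp.linearCombination_single]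

theorem tr_sup {B : Type} (P Q : G × B → Prop) (g : G) (h : ∀ p, P p → Q (g * p.1, p.2))
    (x : G × B →₀ ℤ) (hx : x ∈ Finsupp.supported ℤ ℤ {c | P c}) :
    tr ℤ g x ∈ Finsupp.supported ℤ ℤ {c | Q c} := by
  classical
  rw [Finsupp.mem_supported] at hx ⊢
  intro c hc
  have h1 := Finsupp.mapDomain_support (f := fun p : G × B => (g * p.1, p.2)) (s := x)
  have h2 : c ∈ Finset.image (fun p : G × B => (g * p.1, p.2)) x.support := h1 hc
  obtain ⟨p, hp, rfl⟩ := Finset.mem_image.1 h2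
  exact h p (hx hp)

end EZ

open EZ in
theorem I_EZ (hE0 : StE0) : StEZ := by
  intro G _ X χ ht hχ hG m hC
  obtain ⟨q, hq⟩ : ∃ q : G, 0 < χ (Additive.ofMul q) := by
    by_contra hcon
    push Not at hcon
    refine hχ (DFunLike.ext _ _ (fun g => ?_))
    have h1 := hcon (Additive.toMul g)
    have h2 := hcon (Additive.toMul g)⁻¹
    rw [ofMul_inv, map_neg] at h2
    rw [ofMul_toMul] at h1 h2
    rw [AddMonoidHom.zero_apply]
    linarith
  set c : ℝ := χ (Additive.ofMul q) with hc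
  refine ⟨c, hq.le, fun t => ?_⟩
  have hpow : ∀ n : ℤ, χ (Additive.ofMul (q ^ n)) = n * c := by
    intro n
    rw [ofMul_zpow, map_zsmul, zsmul_eq_mul]
  obtain ⟨n, hn1, hn2⟩ : ∃ n : ℤ, (n : ℝ) * c ≤ t ∧ t ≤ n * c + c := by
    refine ⟨⌊t / c⌋, ?_, ?_⟩
    · have := Int.floor_le (t / c)
      rwa [le_div_iff₀ hq] at this
    · have := (Int.lt_floor_add_one (t / c)).le
      rw [div_le_iff₀ hq] at this
      linarith
  have hdown : ∀ i, ∀ x ∈ Finsupp.supported ℤ ℤ {e | X.Ge χ ht t i e},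
      tr ℤ (q ^ n)⁻¹ x ∈ Finsupp.supported ℤ ℤ {e | X.Ge χ ht 0 i e} := by
    intro i x hx
    refine tr_sup _ _ _ (fun p hp => ?_) x hx
    simp only [Cel.Ge] at hp ⊢
    rw [ofMul_mul, map_add, ofMul_inv, map_neg, hpow]
    linarith
  have hup : ∀ i, ∀ x ∈ Finsupp.supported ℤ ℤ {e | X.Ge χ ht 0 i e},
      tr ℤ (q ^ n) x ∈ Finsupp.supported ℤ ℤ {e | X.Ge χ ht (t - c) i e} := by
    intro i x hx
    refine tr_sup _ _ _ (fun p hp => ?_) x hx
    simp only [Cel.Ge] at hp ⊢
    rw [ofMul_mul, map_add, hpow]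
    linarith
  refine ⟨fun h1 x hx hax => ?_, fun i hi x hx hdx => ?_⟩
  · obtain ⟨y, hy, hyx⟩ := hE0 G X hG (X.Ge χ ht 0 0) (X.Ge χ ht 0 1) (hC.1 h1).2
      (tr ℤ (q ^ n)⁻¹ x) (hdown 0 x hx) (by rw [aug_tr]; exact hax)
    refine ⟨tr ℤ (q ^ n) y, hup 1 y hy, ?_⟩
    rw [ext_tr, hyx, tr_tr, mul_inv_cancel, tr_one]
  · obtain ⟨y, hy, hyx⟩ := hC.2.2 i hi (tr ℤ (q ^ n)⁻¹ x) (hdown (i + 1) x hx)
      (by rw [ext_tr, hdx, map_zero])
    refine ⟨tr ℤ (q ^ n) y, hup (i + 2) y hy, ?_⟩
    rw [ext_tr, hyx, tr_tr, mul_inv_cancel, tr_one]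

end Pool.Agent.Work.MP_e9e200_al.HT

end

section

/-!
# Project HT, item GNZ: the cycles of a partial resolution are finitely generated
-/

set_option autoImplicit false

namespace Pool.Agent.Work.MP_e9e200_al.HT

open Finsupp Pool.Agent.Work.MP_e9e200_al.LC

namespace GNZ

/-! ### Modules -/

section Modules

variable {R : Type} [Ring R]

theorem fp_proj (k : ℕ) : ∀ (P : Type) [AddCommGroup P] [Module R P], Module.Projective R P →
    Module.Finite R P → IsFP R P k := by
  induction k with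
  | zero => intro P _ _ _ hf; exact UP.I_F0 R P hf
  | succ k ih =>
    intro P _ _ hp hf
    have hs : Subsingleton (LinearMap.ker (LinearMap.id : P →ₗ[R] P)) := by
      rw [LinearMap.ker_id]; infer_instance
    refine UP.I_F1 R P P LinearMap.id k hp hf Function.surjective_id ?_
    refine ih _ ?_ ?_
    · exact Module.Projective.of_free
    · infer_instance

theorem fp_cancel {K P : Type} [AddCommGroup K] [Module R K] [AddCommGroup P] [Module R P]
    (hP : Module.Projective R P) (hF : Module.Finite R P) (k : ℕ) (h : IsFP R (K × P) k) :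
    IsFP R K k := by
  rcases k with _ | k
  · have h1 := (I_Unsh R (K × P) 0).1 h
    exact UP.I_F0 R K (Module.Finite.of_surjective (LinearMap.fst R K P) Prod.fst_surjective)
  · refine UP.I_F3 I_Unsh UP.I_F1 (UP.I_F2 I_Unsh UP.I_F0 UP.I_F1) R P (K × P) K
      (LinearMap.inr R K P) (LinearMap.fst R K P) k LinearMap.inr_injective ?_
      Prod.fst_surjective (fp_proj k P hP hF) h
    exact Function.Exact.inr_fst

/-- the kernel of any projective cover -/
theorem fp_ker {F M : Type} [AddCommGroup F] [Module R F] [AddCommGroup M] [Module R M]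
    (f : F →ₗ[R] M) (hP : Module.Projective R F) (hF : Module.Finite R F)
    (hf : Function.Surjective f) (k : ℕ) (h : IsFP R M (k + 1)) :
    IsFP R (LinearMap.ker f) k := by
  obtain ⟨F', f', hP', hF', hf', hK⟩ := (I_Unsh R M k).2 h
  obtain ⟨l, hl⟩ := Module.projective_lifting_property f f' hf
  obtain ⟨l', hl'⟩ := Module.projective_lifting_property f' f hf'
  have hl1 : ∀ y, f (l y) = f' y := fun y => LinearMap.congr_fun hl y
  have hl1' : ∀ x, f' (l' x) = f x := fun x => LinearMap.congr_fun hl' x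
  have h1 := LC.RES.isFP_prod hP hF k hK
  have e1 : (LinearMap.ker f' × F) ≃ₗ[R] (LinearMap.ker f × F') :=
    { toFun := fun p => (⟨p.2 + l (p.1 - l' p.2), by
          rw [LinearMap.mem_ker, map_add, hl1, map_sub, hl1', LinearMap.mem_ker.1 p.1.2]
          abel⟩, (p.1 : F') - l' p.2)
      invFun := fun p => (⟨p.2 + l' (p.1 - l p.2), by
          rw [LinearMap.mem_ker, map_add, hl1', map_sub, hl1, LinearMap.mem_ker.1 p.1.2]
          abel⟩, (p.1 : F) - l p.2)
      left_inv := by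
        rintro ⟨⟨u, hu⟩, x⟩
        refine Prod.ext (Subtype.ext ?_) ?_
        · simp only [map_add, map_sub]
          abel
        · simp only [map_sub]
          abel
      right_inv := by
        rintro ⟨⟨u, hu⟩, x⟩
        refine Prod.ext (Subtype.ext ?_) ?_
        · simp only [map_add, map_sub]
          abel
        · simp only [map_sub]
          abel
      map_add' := by
        rintro ⟨⟨u, hu⟩, x⟩ ⟨⟨v, hv⟩, y⟩
        refine Prod.ext (Subtype.ext ?_) ?_
        · simp only [Prod.mk_add_mk, map_add, map_sub, AddMemClass.mk_add_mk]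
          abel
        · simp only [Prod.mk_add_mk, map_add, AddMemClass.mk_add_mk]
          abel
      map_smul' := by
        rintro r ⟨⟨u, hu⟩, x⟩
        refine Prod.ext (Subtype.ext ?_) ?_
        · simp [smul_add, smul_sub]
        · simp [smul_sub] }
  exact fp_cancel hP' hF' k (LC.RES.isFP_equiv e1 k h1)

end Modules

/-! ### Chains -/

section Chains

variable {G : Type} [Group G] {S : Submonoid G} {A B C : Type}

theorem tr_tr (g h : G) (x : G × A →₀ ℤ) : tr ℤ g (tr ℤ h x) = tr ℤ (g * h) x := by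
  show Finsupp.mapDomain _ (Finsupp.mapDomain _ x) = Finsupp.mapDomain _ x
  rw [← Finsupp.mapDomain_comp]
  congr 1
  funext p
  simp [mul_assoc]

theorem ext_tr (u : B → (G × A →₀ ℤ)) (g : G) (x : G × B →₀ ℤ) :
    ext ℤ u (tr ℤ g x) = tr ℤ g (ext ℤ u x) := by
  induction x using Finsupp.induction_linear with
  | zero => simp
  | add a b ha hb => rw [map_add, map_add, map_add, map_add, ha, hb]
  | single p n =>
    obtain ⟨h, b⟩ := p
    rw [LC.RES.tr_single]
    unfold LC.ext
    rw [Finsupp.linearCombination_single, Finsupp.linearCombination_single, map_smul, tr_tr]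

theorem ext_ext_zero (d : B → (G × A →₀ ℤ)) (e : C → (G × B →₀ ℤ))
    (h : ∀ c, ext ℤ d (e c) = 0) (x : G × C →₀ ℤ) : ext ℤ d (ext ℤ e x) = 0 := by
  induction x using Finsupp.induction_linear with
  | zero => simp
  | add a b ha hb => rw [map_add, map_add, ha, hb, add_zero]
  | single p n =>
    obtain ⟨g, c⟩ := p
    have h1 : ext ℤ e (single (g, c) n) = n • tr ℤ g (e c) := by
      unfold LC.ext
      rw [Finsupp.linearCombination_single]
    rw [h1, map_smul, ext_tr, h, map_zero, smul_zero]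

variable [Fintype A] [Fintype B] [Fintype C] [DecidableEq A] [DecidableEq B] [DecidableEq C]

theorem exists_phi' (y : G × A →₀ ℤ)
    (hy : y ∈ Finsupp.supported ℤ ℤ {p : G × A | p.1 ∈ (S : Set G)}) :
    ∃ v : A → MonoidAlgebra ℤ S, LC.RES.phi id v = y :=
  LC.RES.exists_phi id {p : G × A | p.1 ∈ (S : Set G)} (fun p hp => ⟨hp, p.2, rfl⟩) y hy

theorem phi_mem' (v : A → MonoidAlgebra ℤ S) :
    LC.RES.phi id v ∈ Finsupp.supported ℤ ℤ {p : G × A | p.1 ∈ (S : Set G)} :=
  Finsupp.supported_mono (fun _ h => h.1) (LC.RES.phi_mem id v)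

/-- the linear map of a chain map -/
theorem exists_lin (d : B → (G × A →₀ ℤ))
    (hd : ∀ b, d b ∈ Finsupp.supported ℤ ℤ {p : G × A | p.1 ∈ (S : Set G)}) :
    ∃ δ : (B → MonoidAlgebra ℤ S) →ₗ[MonoidAlgebra ℤ S] (A → MonoidAlgebra ℤ S),
      ∀ v, ext ℤ d (LC.RES.phi id v) = LC.RES.phi id (δ v) := by
  choose w hw using fun b => exists_phi' (S := S) (d b) (hd b)
  refine ⟨Fintype.linearCombination (MonoidAlgebra ℤ S) w, fun v => ?_⟩
  refine LC.RES.ext_phi d id id _ (fun b => ?_) v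
  rw [Fintype.linearCombination_apply_single, one_smul, hw]
  rfl

/-- one step of the dimension shift -/
theorem step (d : B → (G × A →₀ ℤ)) (e : C → (G × B →₀ ℤ)) (h : GenC (S : Set G) d e)
    (δ : (B → MonoidAlgebra ℤ S) →ₗ[MonoidAlgebra ℤ S] (A → MonoidAlgebra ℤ S))
    (hδ : ∀ v, ext ℤ d (LC.RES.phi id v) = LC.RES.phi id (δ v))
    (η : (C → MonoidAlgebra ℤ S) →ₗ[MonoidAlgebra ℤ S] (B → MonoidAlgebra ℤ S))
    (hη : ∀ v, ext ℤ e (LC.RES.phi id v) = LC.RES.phi id (η v)) (j : ℕ)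
    (hf : IsFP (MonoidAlgebra ℤ S) (LinearMap.ker δ) (j + 1)) :
    IsFP (MonoidAlgebra ℤ S) (LinearMap.ker η) j := by
  have h0 : ∀ v, δ (η v) = 0 := by
    intro v
    apply LC.RES.phi_inj (S := S) (id : A → A) Function.injective_id
    rw [← hδ, ← hη, map_zero]
    exact ext_ext_zero d e h.2.1 _
  have h1 := fp_ker (η.codRestrict (LinearMap.ker δ) (fun v => LinearMap.mem_ker.2 (h0 v)))
    (by infer_instance) (by infer_instance) (by
      rintro ⟨v, hv⟩
      obtain ⟨y, hy, hyx⟩ := h.2.2 (LC.RES.phi id v) (phi_mem' v)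
        (by rw [hδ, LinearMap.mem_ker.1 hv, map_zero])
      obtain ⟨w, rfl⟩ := exists_phi' y hy
      refine ⟨w, Subtype.ext ?_⟩
      apply LC.RES.phi_inj (S := S) (id : B → B) Function.injective_id
      rw [← hyx, hη]
      rfl) j hf
  rw [LinearMap.ker_codRestrict] at h1
  exact h1

/-- finite generation of the kernel gives finitely many generating cycles -/
theorem gens (d : B → (G × A →₀ ℤ))
    (δ : (B → MonoidAlgebra ℤ S) →ₗ[MonoidAlgebra ℤ S] (A → MonoidAlgebra ℤ S))
    (hδ : ∀ v, ext ℤ d (LC.RES.phi id v) = LC.RES.phi id (δ v))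
    (hf : Module.Finite (MonoidAlgebra ℤ S) (LinearMap.ker δ)) :
    ∃ (N : Type) (_ : Finite N) (z : N → (G × B →₀ ℤ)), GenC (S : Set G) d z := by
  obtain ⟨k, f, hf⟩ := Module.Finite.exists_fin' (MonoidAlgebra ℤ S) (LinearMap.ker δ)
  have hz : ∀ v, ext ℤ (fun l : Fin k => LC.RES.phi id
      ((f (Pi.single l 1) : LinearMap.ker δ) : B → MonoidAlgebra ℤ S)) (LC.RES.phi id v) =
      LC.RES.phi id (((LinearMap.ker δ).subtype ∘ₗ f) v) :=
    fun v => LC.RES.ext_phi _ id id ((LinearMap.ker δ).subtype ∘ₗ f) (fun l => rfl) v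
  refine ⟨Fin k, inferInstance, fun l => LC.RES.phi id
    ((f (Pi.single l 1) : LinearMap.ker δ) : B → MonoidAlgebra ℤ S),
    fun l => phi_mem' _, fun l => ?_, fun x hx hdx => ?_⟩
  · rw [hδ, LinearMap.mem_ker.1 (f (Pi.single l 1)).2, map_zero]
  · obtain ⟨v, rfl⟩ := exists_phi' x hx
    have hv : v ∈ LinearMap.ker δ := by
      rw [LinearMap.mem_ker]
      apply LC.RES.phi_inj (S := S) (id : A → A) Function.injective_id
      rw [← hδ, hdx, map_zero]
    obtain ⟨w, hw⟩ := hf ⟨v, hv⟩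
    refine ⟨LC.RES.phi id w, phi_mem' w, ?_⟩
    rw [hz]
    congr 1
    exact congrArg Subtype.val hw

end Chains

/-- the kernel of the boundary in degree zero -/
theorem base {G : Type} [Group G] {S : Submonoid G} {B0 B1 : Type} [Fintype B0] [Fintype B1]
    [DecidableEq B0] [DecidableEq B1] [Nonempty B0] (m : ℕ)
    (hm : IsFP (MonoidAlgebra ℤ S) (Triv S) (m + 2)) (d : B1 → (G × B0 →₀ ℤ))
    (hd : ∀ b, LC.aug ℤ (fun _ => (1 : ℤ)) (d b) = 0)
    (hex : ∀ x ∈ Finsupp.supported ℤ ℤ {p : G × B0 | p.1 ∈ S},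
      LC.aug ℤ (fun _ => (1 : ℤ)) x = 0 →
      ∃ y ∈ Finsupp.supported ℤ ℤ {p : G × B1 | p.1 ∈ S}, ext ℤ d y = x)
    (δ : (B1 → MonoidAlgebra ℤ S) →ₗ[MonoidAlgebra ℤ S] (B0 → MonoidAlgebra ℤ S))
    (hδ : ∀ v, ext ℤ d (LC.RES.phi id v) = LC.RES.phi id (δ v)) :
    IsFP (MonoidAlgebra ℤ S) (LinearMap.ker δ) m := by
  obtain ⟨t1, ht1⟩ : ∃ t1 : Triv S, t1 = (show Triv S from (1 : ℤ)) := ⟨_, rfl⟩
  obtain ⟨ε, hε1⟩ : ∃ ε : (B0 → MonoidAlgebra ℤ S) →ₗ[MonoidAlgebra ℤ S] Triv S,
      ∀ x, ε (Pi.single x 1) = t1 := by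
    refine ⟨Fintype.linearCombination (MonoidAlgebra ℤ S) (fun _ : B0 => t1), fun x => ?_⟩
    rw [Fintype.linearCombination_apply_single, one_smul]
  have hε : ∀ v, LC.aug ℤ (fun _ => (1 : ℤ)) (LC.RES.phi (id : B0 → B0) v) = ε v :=
    fun v => LC.RES.aug_phi (fun _ => (1 : ℤ)) id ε (fun x => by rw [hε1, ht1]) v
  have hs : Function.Surjective ε := by
    intro t
    obtain ⟨b⟩ := ‹Nonempty B0›
    obtain ⟨z, hz⟩ : ∃ z : ℤ, t = (show Triv S from z) := ⟨t, rfl⟩
    refine ⟨z • (Pi.single b 1 : B0 → MonoidAlgebra ℤ S), ?_⟩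
    rw [map_zsmul ε z, hε1, ht1, hz]
    have h5 : ∀ z : ℤ, z • (1 : ℤ) = z := fun z => by rw [smul_eq_mul, mul_one]
    exact h5 z
  have h1 : IsFP (MonoidAlgebra ℤ S) (LinearMap.ker ε) (m + 1) :=
    fp_ker ε (by infer_instance) (by infer_instance) hs (m + 1) hm
  have h0 : ∀ v, ε (δ v) = 0 := by
    intro v
    rw [← hε, ← hδ]
    have h2 : ∀ x : G × B1 →₀ ℤ, LC.aug ℤ (fun _ => (1 : ℤ)) (ext ℤ d x) = 0 := by
      intro x
      induction x using Finsupp.induction_linear with
      | zero => simp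
      | add a b ha hb => rw [map_add, map_add, ha, hb, add_zero]
      | single p n =>
        obtain ⟨g, c⟩ := p
        have h3 : ext ℤ d (single (g, c) n) = n • tr ℤ g (d c) := by
          unfold LC.ext
          rw [Finsupp.linearCombination_single]
        have h4 : ∀ y : G × B0 →₀ ℤ, LC.aug ℤ (fun _ => (1 : ℤ)) (tr ℤ g y) =
            LC.aug ℤ (fun _ => (1 : ℤ)) y := by
          intro y
          induction y using Finsupp.induction_linear with
          | zero => simp
          | add a b ha hb => rw [map_add, map_add, map_add, ha, hb]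
          | single q k =>
            obtain ⟨h, b⟩ := q
            rw [LC.RES.tr_single]
            unfold LC.aug
            rw [Finsupp.linearCombination_single, Finsupp.linearCombination_single]
        rw [h3, map_smul, h4, hd, smul_zero]
    exact h2 _
  have h2 := fp_ker (δ.codRestrict (LinearMap.ker ε) (fun v => LinearMap.mem_ker.2 (h0 v)))
    (by infer_instance) (by infer_instance) (by
      rintro ⟨v, hv⟩
      have hv1 := LinearMap.mem_ker.1 hv
      have hv0 : LC.aug ℤ (fun _ => (1 : ℤ)) (LC.RES.phi (S := S) (id : B0 → B0) v) = 0 :=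
        (hε v).trans hv1
      obtain ⟨y, hy, hyx⟩ := hex (LC.RES.phi id v) (phi_mem' v) hv0
      obtain ⟨w, rfl⟩ := exists_phi' y hy
      refine ⟨w, Subtype.ext ?_⟩
      apply LC.RES.phi_inj (S := S) (id : B0 → B0) Function.injective_id
      rw [← hyx, hδ]
      rfl) m h1
  rw [LinearMap.ker_codRestrict] at h2
  exact h2

end GNZ

theorem I_GNZ (hRES : StRES) : StGNZ := by
  classical
  intro G _ S m hm B d hne hd0 haug hex n hn hfin hgen
  have hsup : ∀ i ≤ n, ∀ b, d i b ∈ Finsupp.supported ℤ ℤ {p : G × B i | p.1 ∈ (S : Set G)} := by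
    intro i hi b
    rcases i with _ | i
    · exact hd0 b
    · exact (hgen i (by omega)).1 b
  -- the kernels have the right finiteness type
  have key : ∀ i ≤ n, ∀ [Fintype (B i)] [Fintype (B (i + 1))] [DecidableEq (B i)]
      [DecidableEq (B (i + 1))]
      (δ : (B (i + 1) → MonoidAlgebra ℤ S) →ₗ[MonoidAlgebra ℤ S] (B i → MonoidAlgebra ℤ S)),
      (∀ v, ext ℤ (d i) (LC.RES.phi id v) = LC.RES.phi id (δ v)) →
      IsFP (MonoidAlgebra ℤ S) (LinearMap.ker δ) (m - i - 2) := by
    intro i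
    induction i with
    | zero =>
      intro _ _ _ _ _ δ hδ
      refine GNZ.base (m - 0 - 2) ?_ (d 0) haug hex δ hδ
      have : m - 0 - 2 + 2 = m := by omega
      rw [this]
      exact hm
    | succ i ih =>
      intro hi _ _ _ _ η hη
      have := hfin i (by omega)
      have : Fintype (B i) := Fintype.ofFinite _
      obtain ⟨δ, hδ⟩ := GNZ.exists_lin (S := S) (d i) (hsup i (by omega))
      refine GNZ.step (d i) (d (i + 1)) (hgen i (by omega)) δ hδ η hη _ ?_
      have h1 := ih (by omega) δ hδ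
      have h2 : m - i - 2 = m - (i + 1) - 2 + 1 := by omega
      rw [h2] at h1
      exact h1
  have := hfin n (by omega)
  have := hfin (n + 1) le_rfl
  have : Fintype (B n) := Fintype.ofFinite _
  have : Fintype (B (n + 1)) := Fintype.ofFinite _
  obtain ⟨δ, hδ⟩ := GNZ.exists_lin (S := S) (d n) (hsup n le_rfl)
  exact GNZ.gens (d n) δ hδ ((I_Unsh _ _ _).1 (key n le_rfl δ hδ))

end Pool.Agent.Work.MP_e9e200_al.HT

end

section

/-!
# Project HT: the lower inclusion for partial resolutions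
-/

set_option autoImplicit false

namespace Pool.Agent.Work.MP_e9e200_al.HT

open Pool.Agent.Work.MP_e9e200_al.LC Pool.Agent.Work.MP_e9e200_al.LC.LOW



theorem I_LOW1 (hTRU : LZ.StTRU) (hOPEN : StOPEN) (hLIN : StLIN) (hDENS : StDENS)
    (hDISC : StDISC) (hCar : StCar) (hSig : StSig1) : StLOW1 := by
  intro m G _ _ hm hmet v hv hres
  classical
  obtain ⟨hv0, s, hcard, hs, hconv⟩ := hv
  obtain ⟨B0, hB0, deg0, db0, eb0, hP0⟩ := hres
  obtain ⟨n, hn, w, c, hli, hwc, hsum⟩ := hCar _ s v 0 hconv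
  obtain _ | n := n
  · rw [Finset.sum_range_zero] at hsum
    exact hv0 hsum
  let X : Fin (n + 1) → (Additive G →+ ℝ) := fun i => c i • w i
  have hXli : LinearIndependent ℝ X :=
    hli.units_smul (fun i : Fin (n + 1) => Units.mk0 (c i) (hwc i i.2).2.1.ne')
  have hX0 : ∀ i, X i ≠ 0 := fun i => hXli.ne_zero i
  have hXsum : v = ∑ i, X i := by rw [hsum, Finset.sum_range]
  have hXng : ∀ i, ∀ V : Finset G, (∀ v ∈ V, v ∈ commutator G) →
      ∃ a ∈ commutator G, a ∉ Gen G (X i) V := by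
    intro i V hV
    obtain ⟨h1, h2, -⟩ := hwc i i.2
    obtain ⟨χ, hχ, d, hd, hw⟩ := hs _ h1
    have h3 : Gen G (X i) V = Gen G χ V := by
      show Gen G (c i • w i) V = _
      rw [hw, smul_smul, Glue3.gen_smul (mul_pos h2 hd)]
    rw [h3]
    by_contra hcon
    push Not at hcon
    exact hχ.2 (hSig G hmet χ hχ.1 V hV hcon)
  obtain ⟨B1, hB1, deg1, db1, eb1, hP⟩ := hTRU ℂ G _ m (n + 1) B0 deg0 db0 eb0 hP0 (by omega)
  obtain ⟨F1, ε1, hε1, hopen⟩ := hOPEN G v hv0 (n + 1) B1 deg1 _ _ hP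
  obtain ⟨F2, ε2, hε2, hlin⟩ := hLIN G (n + 1) X hXli
  have hn1 : (0 : ℝ) < 2 * ((n : ℝ) + 1) := by positivity
  have hε : 0 < min ε2 (ε1 / (2 * ((n : ℝ) + 1))) := lt_min hε2 (div_pos hε1 hn1)
  choose χ a ha hsurj hclose hnfg using fun i =>
    hDENS G hmet (X i) (hX0 i) (hXng i) (F1 ∪ F2) _ hε
  obtain ⟨c', h, hc', hdual⟩ := hlin χ a ha (fun i g hg =>
    lt_of_lt_of_le (hclose i g (Finset.mem_union_right _ hg)) (min_le_left _ _))
  -- the denominator
  obtain ⟨M, hM⟩ : ∃ M : ℝ, M = ∑ i, ∑ g ∈ F1, |((vl (χ i) g : ℤ) : ℝ)| := ⟨_, rfl⟩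
  have hM0 : 0 ≤ M := by
    rw [hM]
    exact Finset.sum_nonneg fun i _ => Finset.sum_nonneg fun g _ => abs_nonneg _
  obtain ⟨N, hN⟩ := exists_nat_gt (2 * M / ε1)
  have hN0 : (0 : ℝ) < N := lt_of_le_of_lt (by positivity) hN
  have hMN : M / N < ε1 / 2 := by
    rw [div_lt_iff₀ hN0]
    rw [div_lt_iff₀ hε1] at hN
    linarith
  let k : Fin (n + 1) → ℕ := fun i => ⌈(N : ℝ) * a i⌉₊
  have hk : ∀ i, 0 < k i := fun i => Nat.ceil_pos.2 (mul_pos hN0 (ha i))
  have hkb : ∀ i, |(k i : ℝ) / N - a i| ≤ 1 / N := by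
    intro i
    have h1 : (N : ℝ) * a i ≤ k i := Nat.le_ceil _
    have h2 : (k i : ℝ) < (N : ℝ) * a i + 1 := Nat.ceil_lt_add_one (mul_pos hN0 (ha i)).le
    have h3 : (k i : ℝ) / N - a i = ((k i : ℝ) - N * a i) / N := by
      field_simp
    rw [h3, abs_div, abs_of_pos hN0, abs_of_nonneg (by linarith)]
    exact div_le_div_of_nonneg_right (by linarith) hN0.le
  let v' : Additive G →+ ℝ := ∑ i, ((k i : ℝ) / N) • rch (χ i)
  have hv'val : ∀ g, v' (Additive.ofMul g) = ∑ i, ((k i : ℝ) / N) * ((vl (χ i) g : ℤ) : ℝ) := by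
    intro g
    show (∑ i, ((k i : ℝ) / N) • rch (χ i)) (Additive.ofMul g) = _
    rw [AddMonoidHom.finsetSum_apply]
    rfl
  have hvval : ∀ g, v (Additive.ofMul g) = ∑ i, X i (Additive.ofMul g) := by
    intro g
    conv_lhs => rw [hXsum]
    rw [AddMonoidHom.finsetSum_apply]
  have hscale : ∀ g, v' (Additive.ofMul g) =
      ((∑ i, (k i : ℤ) * vl (χ i) g : ℤ) : ℝ) / N := by
    intro g
    rw [hv'val, Int.cast_sum, Finset.sum_div]
    refine Finset.sum_congr rfl fun i _ => ?_
    push_cast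
    ring
  have hv'0 : v' ≠ 0 := by
    intro h0
    have h1 := hscale (h 0)
    rw [h0] at h1
    have h2 : (∑ i, (k i : ℤ) * vl (χ i) (h 0) : ℤ) = (k 0 : ℤ) * c' := by
      rw [Finset.sum_eq_single 0]
      · rw [hdual, if_pos rfl]
      · intro i _ hi
        rw [hdual, if_neg hi, mul_zero]
      · intro h; exact absurd (Finset.mem_univ _) h
    rw [h2] at h1
    have h3 : (0 : ℝ) < (((k 0 : ℤ) * c' : ℤ) : ℝ) / N := by
      apply div_pos _ hN0
      exact_mod_cast mul_pos (by exact_mod_cast hk 0) hc'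
    have h4 : (0 : Additive G →+ ℝ) (Additive.ofMul (h 0)) = 0 := rfl
    rw [h4] at h1
    exact absurd h1 h3.ne
  have hnear : ∀ g ∈ F1, |v' (Additive.ofMul g) - v (Additive.ofMul g)| < ε1 := by
    intro g hg
    rw [hv'val, hvval, ← Finset.sum_sub_distrib]
    have h1 : ∀ i ∈ (Finset.univ : Finset (Fin (n + 1))),
        |((k i : ℝ) / N) * ((vl (χ i) g : ℤ) : ℝ) - X i (Additive.ofMul g)| ≤
        (1 / N) * |((vl (χ i) g : ℤ) : ℝ)| + ε1 / (2 * ((n : ℝ) + 1)) := by
      intro i _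
      have h2 : ((k i : ℝ) / N) * ((vl (χ i) g : ℤ) : ℝ) - X i (Additive.ofMul g) =
          ((k i : ℝ) / N - a i) * ((vl (χ i) g : ℤ) : ℝ) +
          (a i * ((vl (χ i) g : ℤ) : ℝ) - X i (Additive.ofMul g)) := by ring
      rw [h2]
      refine (abs_add_le _ _).trans (add_le_add ?_ ?_)
      · rw [abs_mul]
        exact mul_le_mul_of_nonneg_right (hkb i) (abs_nonneg _)
      · exact (hclose i g (Finset.mem_union_left _ hg)).le.trans (min_le_right _ _)
    refine lt_of_le_of_lt ((Finset.abs_sum_le_sum_abs _ _).trans (Finset.sum_le_sum h1)) ?_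
    rw [Finset.sum_add_distrib, ← Finset.mul_sum, Finset.sum_const, Finset.card_univ,
      Fintype.card_fin, nsmul_eq_mul]
    have h3 : ∑ i, |((vl (χ i) g : ℤ) : ℝ)| ≤ M := by
      rw [hM]
      refine Finset.sum_le_sum fun i _ => ?_
      exact Finset.single_le_sum (f := fun g => |((vl (χ i) g : ℤ) : ℝ)|)
        (fun _ _ => abs_nonneg _) hg
    have h4 : 1 / (N : ℝ) * ∑ i, |((vl (χ i) g : ℤ) : ℝ)| ≤ M / N := by
      rw [one_div, inv_mul_eq_div]
      exact div_le_div_of_nonneg_right h3 hN0.le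
    have h5 : ((n + 1 : ℕ) : ℝ) * (ε1 / (2 * ((n : ℝ) + 1))) = ε1 / 2 := by
      push_cast
      field_simp
    rw [h5]
    linarith
  obtain ⟨B', hB', deg', db', eb', hP'⟩ := hopen v' hv'0 hnear
  have hset : (Pool.Agent.Work.MP_e9e200_al.LC.hs v' 0 : Set G) = {g : G | 0 ≤ ∑ i, (k i : ℤ) * vl (χ i) g} := by
    ext g
    show 0 ≤ v' (Additive.ofMul g) ↔ 0 ≤ ∑ i, (k i : ℤ) * vl (χ i) g
    rw [hscale, div_nonneg_iff]
    constructor
    · rintro (⟨h1, -⟩ | ⟨-, h1⟩)
      · exact_mod_cast h1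
      · exact absurd h1 (not_le.2 hN0)
    · intro h1
      exact Or.inl ⟨by exact_mod_cast h1, hN0.le⟩
  rw [hset] at hP'
  exact hDISC G hmet (n + 1) (by omega) χ k c' h hc' hk hdual hsurj hnfg B' deg' db' eb' hP'

end Pool.Agent.Work.MP_e9e200_al.HT

end

section

/-!
# MVP: from the half space to the whole complex
-/

set_option autoImplicit false

namespace Pool.Agent.Work.MP_e9e200_al.HT

open Finsupp Pool.Agent.Work.MP_e9e200_al.LC

namespace MVP

variable {G : Type} [Group G] {X : Cel G}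

/-- the translate of a cell -/
def tv {β : Type} (g : G) (v : G × β) : G × β := (g * v.1, v.2)

/-- the translate of an oriented edge -/
def te {β : Type} (g : G) (e : (G × β) × Bool) : (G × β) × Bool := ((g * e.1.1, e.1.2), e.2)

theorem tv_tv {β : Type} (g h : G) (v : G × β) : tv g (tv h v) = tv (g * h) v := by
  simp only [tv, mul_assoc]

theorem tv_one {β : Type} (v : G × β) : tv 1 v = v := by
  simp only [tv, one_mul]

theorem mv_nil (g : G) : X.mv g [] = [] := rfl

theorem mv_cons (g : G) (e : (G × X.B 1) × Bool) (p : List ((G × X.B 1) × Bool)) :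
    X.mv g (e :: p) = te g e :: X.mv g p := rfl

theorem mv_append (g : G) (p q : List ((G × X.B 1) × Bool)) :
    X.mv g (p ++ q) = X.mv g p ++ X.mv g q := by
  unfold Cel.mv
  rw [List.map_append]

theorem mv_mv (g h : G) (p : List ((G × X.B 1) × Bool)) :
    X.mv g (X.mv h p) = X.mv (g * h) p := by
  unfold Cel.mv
  rw [List.map_map]
  apply List.map_congr_left
  intro e _
  simp only [Function.comp, mul_assoc]

theorem mv_one (p : List ((G × X.B 1) × Bool)) : X.mv 1 p = p := by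
  unfold Cel.mv
  simp only [one_mul]
  exact List.map_id' p

theorem st_te (g : G) (e : (G × X.B 1) × Bool) : X.st (te g e) = tv g (X.st e) := by
  unfold Cel.st te tv
  split_ifs <;> simp only [mul_assoc]

theorem en_te (g : G) (e : (G × X.B 1) × Bool) : X.en (te g e) = tv g (X.en e) := by
  unfold Cel.en
  exact st_te g (e.1, !e.2)

theorem path_mv {P P' : G × X.B 1 → Prop} (g : G) (p : List ((G × X.B 1) × Bool)) :
    ∀ v w, X.IsPath P v p w → (∀ e ∈ p, P' (tv g e.1)) →
      X.IsPath P' (tv g v) (X.mv g p) (tv g w) := by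
  induction p with
  | nil =>
    intro v w h _
    have h' : v = w := h
    subst h'
    exact rfl
  | cons e p ih =>
    intro v w h hP
    obtain ⟨_, h2, h3⟩ := h
    refine ⟨hP e (List.mem_cons_self), ?_, ?_⟩
    · show X.st (te g e) = tv g v
      rw [st_te, h2]
    · show X.IsPath P' (X.en (te g e)) (X.mv g p) (tv g w)
      rw [en_te]
      exact ih _ _ h3 fun e' he' => hP e' (List.mem_cons_of_mem _ he')

theorem hty_mv {P1 P1' : G × X.B 1 → Prop} {P2 P2' : G × X.B 2 → Prop} (g : G)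
    (h1 : ∀ c, P1 c → P1' (tv g c)) (h2 : ∀ c, P2 c → P2' (tv g c)) {v : G × X.B 0}
    {p q : List ((G × X.B 1) × Bool)} (h : X.Hty P1 P2 v p q) :
    X.Hty P1' P2' (tv g v) (X.mv g p) (X.mv g q) := by
  induction h with
  | refl v p => exact Cel.Hty.refl _ _
  | symm _ ih => exact ih.symm
  | trans _ _ ih1 ih2 => exact ih1.trans ih2
  | cons e he _ ih =>
    rw [mv_cons, mv_cons, ← st_te]
    rw [← en_te] at ih
    exact Cel.Hty.cons (te g e) (h1 _ he) ih
  | back e p he =>
    rw [mv_cons, mv_cons, ← st_te]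
    exact Cel.Hty.back (te g e) (X.mv g p) (h1 _ he)
  | cell c p hc =>
    rw [mv_append, mv_mv]
    have h := Cel.Hty.cell (X := X) (P1 := P1') (P2 := P2') (tv g c) (X.mv g p) (h2 _ hc)
    have e : tv g (c.1 * (X.bas c.2).1, (X.bas c.2).2) =
        ((tv g c).1 * (X.bas (tv g c).2).1, (X.bas (tv g c).2).2) := by
      simp only [tv, mul_assoc]
    rw [e]
    exact h

/-- finitely many elements can be moved to the half space -/
theorem exists_mv {χ : Additive G →+ ℝ} (hχ : χ ≠ 0) (l : List G) :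
    ∃ g : G, ∀ h ∈ l, 0 ≤ χ (Additive.ofMul (g * h)) := by
  obtain ⟨q, hq⟩ : ∃ q : G, 0 < χ (Additive.ofMul q) := by
    by_contra hcon
    push Not at hcon
    apply hχ
    refine AddMonoidHom.ext fun x => ?_
    have h1 : χ x ≤ 0 := hcon (Additive.toMul x)
    have h2 : χ (-x) ≤ 0 := hcon (Additive.toMul x)⁻¹
    rw [map_neg] at h2
    show χ x = 0
    linarith
  induction l with
  | nil => exact ⟨1, fun h hh => absurd hh (List.not_mem_nil)⟩
  | cons a l ih =>
    obtain ⟨g, hg⟩ := ih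
    obtain ⟨k, hk⟩ := exists_nat_ge (-χ (Additive.ofMul (g * a)) / χ (Additive.ofMul q))
    have key : ∀ h, χ (Additive.ofMul (q ^ k * g * h)) =
        k * χ (Additive.ofMul q) + χ (Additive.ofMul (g * h)) := by
      intro h
      rw [mul_assoc, ofMul_mul, map_add, ofMul_pow, map_nsmul, nsmul_eq_mul]
    refine ⟨q ^ k * g, fun h hh => ?_⟩
    rw [key]
    rcases List.mem_cons.1 hh with rfl | hh
    · rw [div_le_iff₀ hq] at hk
      linarith
    · have := hg h hh
      have h2 : 0 ≤ (k : ℝ) * χ (Additive.ofMul q) := by positivity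
      linarith

theorem tv_inv {β : Type} (g : G) (v : G × β) : tv g⁻¹ (tv g v) = v := by
  rw [tv_tv, inv_mul_cancel, tv_one]

end MVP

open MVP in
theorem I_MVP : StMVP := by
  intro G _ χ hχ X hC
  obtain ⟨hC1, hC2, _⟩ := hC
  obtain ⟨⟨v0, _⟩, hC1⟩ := hC1 (by norm_num)
  have hC2 := hC2 le_rfl
  refine ⟨⟨v0, rfl⟩, ?_, ?_⟩
  · intro v w
    obtain ⟨g, hg⟩ := exists_mv hχ [v.1, w.1]
    have hv : X.Ge χ (fun _ _ => 0) 0 0 (tv g v) := by
      show (0 : ℝ) ≤ χ (Additive.ofMul (g * v.1)) + 0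
      rw [add_zero]
      exact hg _ (by simp)
    have hw : X.Ge χ (fun _ _ => 0) 0 0 (tv g w) := by
      show (0 : ℝ) ≤ χ (Additive.ofMul (g * w.1)) + 0
      rw [add_zero]
      exact hg _ (by simp)
    obtain ⟨p, hp⟩ := hC1 _ _ hv hw
    have h := path_mv (P' := fun _ => True) g⁻¹ p _ _ hp (fun _ _ => trivial)
    rw [tv_inv, tv_inv] at h
    exact ⟨_, h⟩
  · intro v p hp
    obtain ⟨g, hg⟩ := exists_mv hχ (v.1 :: p.map fun e => e.1.1)
    have hv : X.Ge χ (fun _ _ => 0) 0 0 (tv g v) := by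
      show (0 : ℝ) ≤ χ (Additive.ofMul (g * v.1)) + 0
      rw [add_zero]
      exact hg _ (by simp)
    have h1 : X.IsPath (X.Ge χ (fun _ _ => 0) 0 1) (tv g v) (X.mv g p) (tv g v) := by
      refine path_mv g p _ _ hp fun e he => ?_
      show (0 : ℝ) ≤ χ (Additive.ofMul (g * e.1.1)) + 0
      rw [add_zero]
      exact hg _ (List.mem_cons_of_mem _ (List.mem_map_of_mem he))
    have h2 := hC2 _ _ hv h1
    have h3 := hty_mv (P1' := fun _ => True) (P2' := fun _ => True) g⁻¹ (fun _ _ => trivial)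
      (fun _ _ => trivial) h2
    rw [tv_inv, mv_mv, inv_mul_cancel, mv_one, mv_nil] at h3
    exact h3

end Pool.Agent.Work.MP_e9e200_al.HT

end

section

/-!
# Project HT: item PRS
-/

set_option autoImplicit false

namespace Pool.Agent.Work.MP_e9e200_al.HT

open Finsupp Pool.Agent.Work.MP_e9e200_al.LC

theorem I_PRS (hGN : StGN) (hAD : StAD) : StPRS := by
  intro G _ χ hχ C m B _ deg db eb hC hess
  have key : ∀ j : ℕ, j ≤ m → ∃ (B' : Type) (_ : Finite B') (deg' : B' → ℕ)
      (db' : B' → (G × B' →₀ ℂ)) (eb' : B' → ℂ), PRes ℂ (hs χ 0) j B' deg' db' eb' := by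
    intro j
    induction j with
    | zero =>
      intro _
      exact ⟨Unit, inferInstance, fun _ => 0, fun _ => 0, fun _ => 1,
        OPEN.base _ (OPEN.one_mem_hs χ)⟩
    | succ j ih =>
      intro hj
      obtain ⟨BE, hfin, degE, dE, eE, hR⟩ := ih (by omega)
      obtain ⟨N, hN, z, hz1, hz2, hz3, hz4⟩ :=
        hGN G χ hχ C m j B deg db eb BE degE dE eE hC hess hR (by omega)
      exact hAD G (OPEN.Hm χ) j BE degE dE eE hR N z hz1 hz2 hz3 hz4
  exact key m le_rfl

end Pool.Agent.Work.MP_e9e200_al.HT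

end

section

/-!
# Project HT: item SEQ (continuation of a complex)
-/

set_option autoImplicit false

namespace Pool.Agent.Work.MP_e9e200_al.HT

open Finsupp Pool.Agent.Work.MP_e9e200_al.LC

namespace SEQ

variable {G : Type} [Group G]

/-- one step -/
theorem one (S : Set G) (h1 : 1 ∈ S) {A B : Type} (d : B → (G × A →₀ ℤ)) :
    ∃ (C : Type) (z : C → (G × B →₀ ℤ)), GenC S d z ∧
      ((∃ (N : Type) (_ : Finite N) (z : N → (G × B →₀ ℤ)), GenC S d z) → Finite C) := by
  by_cases h : ∃ (N : Type) (_ : Finite N) (z : N → (G × B →₀ ℤ)), GenC S d z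
  · obtain ⟨N, hN, z, hz⟩ := h
    exact ⟨N, z, hz, fun _ => hN⟩
  · refine ⟨{x : G × B →₀ ℤ // x ∈ Finsupp.supported ℤ ℤ {p : G × B | p.1 ∈ S} ∧ ext ℤ d x = 0},
      Subtype.val, ?_, fun h' => absurd h' h⟩
    refine ⟨fun c => c.2.1, fun c => c.2.2, fun x hx h0 =>
      ⟨single ((1 : G), ⟨x, hx, h0⟩) 1, ?_, ?_⟩⟩
    · rw [Finsupp.mem_supported]
      intro p hp
      have h2 := Finsupp.support_single_subset (Finset.mem_coe.1 hp)
      rw [Finset.mem_singleton] at h2
      rw [h2]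
      exact h1
    · unfold LC.ext
      rw [Finsupp.linearCombination_single, one_smul]
      unfold LC.tr
      rw [Finsupp.lmapDomain_apply]
      have e : (fun p : G × B => ((1 : G) * p.1, p.2)) = id := by
        funext p
        simp
      show Finsupp.mapDomain (fun p : G × B => ((1 : G) * p.1, p.2)) x = x
      rw [e, Finsupp.mapDomain_id]

/-- a boundary map -/
structure State (G : Type) where
  A : Type
  B : Type
  d : B → (G × A →₀ ℤ)

/-- the next boundary map -/
noncomputable def step (S : Set G) (h1 : 1 ∈ S) (s : State G) : State G :=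
  ⟨s.B, (one S h1 s.d).choose, (one S h1 s.d).choose_spec.choose⟩

theorem step_spec (S : Set G) (h1 : 1 ∈ S) (s : State G) : GenC S s.d (step S h1 s).d ∧
    ((∃ (N : Type) (_ : Finite N) (z : N → (G × s.B →₀ ℤ)), GenC S s.d z) →
      Finite (step S h1 s).B) :=
  (one S h1 s.d).choose_spec.choose_spec

/-- the sequence of boundary maps -/
noncomputable def sq (S : Set G) (h1 : 1 ∈ S) (s : State G) : ℕ → State G
  | 0 => s
  | n + 1 => step S h1 (sq S h1 s n)

end SEQ

open SEQ in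
/-- SEQ -/
theorem I_SEQ : StSEQ := by
  intro G _ S A B d h1
  exact ⟨fun i => (sq S h1 ⟨A, B, d⟩ (i + 1)).B, (sq S h1 ⟨A, B, d⟩ 1).d,
    fun i => (sq S h1 ⟨A, B, d⟩ (i + 2)).d,
    (step_spec S h1 (sq S h1 ⟨A, B, d⟩ 0)).1,
    (step_spec S h1 (sq S h1 ⟨A, B, d⟩ 1)).1,
    fun i => (step_spec S h1 (sq S h1 ⟨A, B, d⟩ (i + 2))).1,
    (step_spec S h1 (sq S h1 ⟨A, B, d⟩ 0)).2,
    (step_spec S h1 (sq S h1 ⟨A, B, d⟩ 1)).2,
    fun i => (step_spec S h1 (sq S h1 ⟨A, B, d⟩ (i + 2))).2⟩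

end Pool.Agent.Work.MP_e9e200_al.HT

end

section

/-!
# Project HT, item SUB: the lower inclusion for the homotopical invariants
-/

set_option autoImplicit false

namespace Pool.Agent.Work.MP_e9e200_al.HT

open Finsupp Pool.Agent.Work.MP_e9e200_al.LC

theorem I_SUB (hEZ : StEZ) (hEC : StEC) (hPRS : StPRS) (hLOW1 : StLOW1) : StSUB := by
  intro m G _ _ hm hG v hv
  have hv0 : v ≠ 0 := hv.1
  refine ⟨hv0, fun hS => ?_⟩
  obtain ⟨_, X, ht, hgood, hcon, hfin, hhgt, hconn⟩ := hS
  obtain ⟨C, hC⟩ := hEZ G X v ht hv0 hgood m hconn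
  have hne : Nonempty (X.B 0) := by
    obtain ⟨⟨w, _⟩, _⟩ := hconn.1 hm
    exact ⟨w.2⟩
  obtain ⟨B, hB, deg, db, eb, C', hcpx, hess⟩ := hEC G X v ht hgood hne m hfin C hC
  exact hLOW1 m G hm hG v hv (hPRS G v hv0 C' m B deg db eb hcpx hess)

end Pool.Agent.Work.MP_e9e200_al.HT

end

section

/-!
# Project HT: SUP, the upper inclusion for the homotopical invariants
-/

set_option autoImplicit false

namespace Pool.Agent.Work.MP_e9e200_al.HT

theorem I_SUP (hCON : StCON) (hSK1 : StSK1) (hSK2 : StSK2) (hASM : StASM) (u : UP.StU)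
    (g3 : UP.StG3) (hMono : StMono)
    (hSig : ∀ (G : Type) [Group G] [Group.FG G], Metab G → ∀ χ : Additive G →+ ℝ, UP.NFr χ →
      χ ∈ SigC G 1) (hS2 : HS.StS2) : StSUP := by
  intro m G _ _ hm hG hγ v hv
  by_contra hcon
  obtain ⟨hv0, hvF⟩ := hv
  have hrel : ∀ γ : Fin m → (Additive G →+ ℝ), (∀ j, UP.NFr (γ j)) →
      ∀ (a : Fin m → ℝ) (b : ℝ), (∀ j, 0 ≤ a j) → (∃ j, a j ≠ 0) → 0 ≤ b →
        ∑ j, a j • γ j ≠ b • v := by
    intro γ hγN a b ha haj hb heq
    have hγS : ∀ j, γ j ∈ SigC G 1 := fun j => hSig G hG (γ j) (hγN j)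
    rcases hb.eq_or_lt with h0 | h0
    · rw [← h0, zero_smul] at heq
      exact hγ γ hγS a ha haj heq
    · refine hcon (UP.UP.conv m hm (SigC G 1) (fun χ h => h.1) v hv0 γ hγS (fun j => b⁻¹ * a j)
        (fun j => mul_nonneg (inv_nonneg.2 hb) (ha j)) ?_)
      have h1 : v = b⁻¹ • (b • v) := by rw [smul_smul, inv_mul_cancel₀ h0.ne', one_smul]
      rw [h1, ← heq, Finset.smul_sum]
      exact Finset.sum_congr rfl fun j _ => smul_smul _ _ _
  obtain ⟨B, _, deg, db, eb, hP⟩ := u m G hG v hrel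
  have hFP : IsFP (MonoidAlgebra ℤ (Gmon v)) (Triv (Gmon v)) m := g3 G (Gmon v) m B deg db eb hP
  have hFP1 : IsFP (MonoidAlgebra ℤ (Gmon v)) (Triv (Gmon v)) 1 := hMono _ _ m 1 hm hFP
  obtain ⟨X, hXf, hXs, hX1, hXc⟩ := hCON G v hFP1
  apply hvF
  rcases Nat.lt_or_ge m 2 with hm2 | hm2
  · obtain rfl : m = 1 := by omega
    obtain ⟨Y, hY⟩ := hSK1 G v X hXf hXs hX1 hXc
    exact hASM G v hv0 1 le_rfl Y hY (fun h => absurd h (by norm_num)) hFP
  · have hFP2 : IsFP (MonoidAlgebra ℤ (Gmon v)) (Triv (Gmon v)) 2 := hMono _ _ m 2 hm2 hFP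
    obtain ⟨X', hXf', hXs', hX1', hXc', hXd⟩ := hS2 G hG v hv0 (by
      intro γ₁ γ₂ h1 h2 n1 n2 a₁ a₂ b ha1 ha2 hb hab heq
      obtain ⟨k, rfl⟩ : ∃ k, m = k + 2 := ⟨m - 2, by omega⟩
      refine hrel (Fin.cons γ₁ (fun _ => γ₂)) ?_ (Fin.cons a₁ (Fin.cons a₂ (fun _ => 0))) b ?_ ?_
        hb ?_
      · refine Fin.cases ?_ (fun j => ?_)
        · exact ⟨h1, n1⟩
        · exact ⟨h2, n2⟩
      · refine Fin.cases ha1 (fun j => ?_)
        rw [Fin.cons_succ]
        refine Fin.cases ha2 (fun j => ?_) j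
        rw [Fin.cons_succ]
      · by_contra hne
        push Not at hne
        have e1 := hne 0
        have e2 := hne (Fin.succ 0)
        rw [Fin.cons_zero] at e1
        rw [Fin.cons_succ, Fin.cons_zero] at e2
        rw [e1, e2] at hab
        simp at hab
      · rw [Fin.sum_univ_succ, Fin.sum_univ_succ]
        simp only [Fin.cons_zero, Fin.cons_succ, zero_smul, Finset.sum_const_zero, add_zero]
        exact heq) hFP2 ⟨X, hXf, hXc⟩
    obtain ⟨Y, hY, hYf⟩ := hSK2 G v X' hXf' hXs' hX1' hXc' hXd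
    exact hASM G v hv0 m hm Y hY (fun _ => hYf) hFP

end Pool.Agent.Work.MP_e9e200_al.HT

end

section

set_option autoImplicit false

namespace Pool.Agent.Work.MP_e9e200_al.HT

open Finsupp Pool.Agent.Work.MP_e9e200_al.LC

namespace TRW

variable {H B B' : Type} [Group H]

theorem tr_single (g : H) (p : H × B) (n : ℤ) :
    tr ℤ g (single p n) = single (g * p.1, p.2) n := by
  rw [tr, Finsupp.lmapDomain_apply, Finsupp.mapDomain_single]

theorem tr_tr (g h : H) (x : H × B →₀ ℤ) : tr ℤ g (tr ℤ h x) = tr ℤ (g * h) x := by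
  induction x using Finsupp.induction_linear with
  | zero => simp
  | add x y hx hy => simp only [map_add, hx, hy]
  | single p n => rw [tr_single, tr_single, tr_single, mul_assoc]

theorem tr_one (x : H × B →₀ ℤ) : tr ℤ (1 : H) x = x := by
  induction x using Finsupp.induction_linear with
  | zero => simp
  | add x y hx hy => simp only [map_add, hx, hy]
  | single p n => rw [tr_single, one_mul]

theorem ext_single (u : B → (H × B' →₀ ℤ)) (p : H × B) (n : ℤ) :
    ext ℤ u (single p n) = n • tr ℤ p.1 (u p.2) := by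
  simp [LC.ext]

theorem ext_tr (u : B → (H × B' →₀ ℤ)) (q : H) (x : H × B →₀ ℤ) :
    ext ℤ u (tr ℤ q x) = tr ℤ q (ext ℤ u x) := by
  induction x using Finsupp.induction_linear with
  | zero => simp
  | add x y hx hy => simp only [map_add, hx, hy]
  | single p n => rw [tr_single, ext_single, ext_single, map_smul, tr_tr]

theorem tr_supp (g : H) (x : H × B →₀ ℤ) (S : Set H) (h : ∀ p ∈ x.support, g * p.1 ∈ S) :
    tr ℤ g x ∈ Finsupp.supported ℤ ℤ {p : H × B | p.1 ∈ S} := by
  classical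
  rw [Finsupp.mem_supported]
  intro p hp
  have h1 : (tr ℤ g x).support ⊆ x.support.image (fun p => (g * p.1, p.2)) := by
    rw [tr, Finsupp.lmapDomain_apply]
    exact Finsupp.mapDomain_support
  have h2 := h1 hp
  rw [Finset.mem_image] at h2
  obtain ⟨q, hq, rfl⟩ := h2
  exact h q hq

end TRW

open TRW in
theorem I_TRW : StTRW := by
  classical
  intro G _ χ hχ A B C d e hgen x hx
  obtain ⟨-, -, hex⟩ := hgen
  obtain ⟨q, hq⟩ : ∃ q : G, 0 < χ (Additive.ofMul q) := by
    by_contra hcon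
    push Not at hcon
    apply hχ
    refine DFunLike.ext _ _ fun g => ?_
    have h1 : χ g ≤ 0 := hcon g.toMul
    have h2 : χ (-g) ≤ 0 := hcon (g.toMul)⁻¹
    rw [map_neg] at h2
    show χ g = 0
    linarith
  obtain ⟨M, hM⟩ : ∃ M : ℝ, ∀ p ∈ x.support, -M ≤ χ (Additive.ofMul p.1) := by
    refine ⟨∑ p ∈ x.support, |χ (Additive.ofMul p.1)|, fun p hp => ?_⟩
    have h1 : |χ (Additive.ofMul p.1)| ≤ ∑ p ∈ x.support, |χ (Additive.ofMul p.1)| :=
      Finset.single_le_sum (f := fun p : G × B => |χ (Additive.ofMul p.1)|)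
        (fun _ _ => abs_nonneg _) hp
    have h2 := neg_abs_le (χ (Additive.ofMul p.1))
    linarith
  obtain ⟨k, hk⟩ := exists_nat_ge (M / χ (Additive.ofMul q))
  rw [div_le_iff₀ hq] at hk
  have h1 : tr ℤ (q ^ k) x ∈ Finsupp.supported ℤ ℤ {p : G × B | p.1 ∈ hs χ 0} := by
    apply tr_supp
    intro p hp
    show 0 ≤ χ (Additive.ofMul (q ^ k * p.1))
    rw [ofMul_mul, map_add, ofMul_pow, map_nsmul, nsmul_eq_mul]
    have := hM p hp
    linarith
  have h2 : ext ℤ d (tr ℤ (q ^ k) x) = 0 := by rw [ext_tr, hx, map_zero]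
  obtain ⟨y, -, hy⟩ := hex _ h1 h2
  refine ⟨tr ℤ (q ^ k)⁻¹ y, ?_⟩
  rw [ext_tr, hy, tr_tr, inv_mul_cancel, tr_one]

end Pool.Agent.Work.MP_e9e200_al.HT

end
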