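import Pool.Agent.Work.MP_e9e200_al.Bd.B13
import Pool.Agent.Work.MP_e9e200_al.Bd.B05
import Pool.Agent.Work.MP_e9e200_al.Bd.B04
import Pool.Agent.Work.MP_e9e200_al.Bd.B08
import Pool.Agent.Work.MP_e9e200_al.Bd.B18
import Pool.Agent.Work.MP_e9e200_al.Bd.B22
import Pool.Agent.Work.MP_e9e200_al.Bd.B11
import Pool.Agent.Work.MP_e9e200_al.Bd.B10

/-! Bundle of small proof modules (one section per former module). -/

section

/-!
# Project UP: the two descriptions of the complement of `Σ^1`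
-/

set_option autoImplicit false

namespace Pool.Agent.Work.MP_e9e200_al.UP

/-- the complement of `Σ^1(G, ℤ)` consists of the characters `χ ≠ 0` such that the derived group
is not finitely generated over `G_χ` -/
theorem nfr_iff (G : Type) [Group G] [Group.FG G] (hmet : Metab G) (χ : Additive G →+ ℝ) :
    NFr χ ↔ χ ∈ SigC G 1 := by
  have hQ : StQuot3 := I_Quot3 I_NC
  have hS : StSumLoc := I_SumLoc (I_Core3 I_Unsh I_Twist I_Twist2 I_Kos) (I_Yg I_NC) hQ I_Phi
    I_Sign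
  have hSig : StSig1 := I_Sig1 I_Build
  have h1 := I_Sig1Loc hS (I_Prime hQ) hSig G hmet χ
  constructor
  · rintro ⟨h0, h⟩
    rw [h1]
    by_contra hc
    obtain ⟨V, hV, hgen⟩ := I_Prime hQ G hmet χ h0 (fun p hp => by
      by_contra hl
      exact hc ⟨p, hp, h0, hl⟩)
    obtain ⟨a, ha, hna⟩ := h V hV
    exact hna (hgen a ha)
  · rintro hχ
    refine ⟨hχ.1, fun V hV => ?_⟩
    by_contra hc
    push Not at hc
    exact hχ.2 (hSig G hmet χ hχ.1 V hV hc)

end Pool.Agent.Work.MP_e9e200_al.UP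

end

section

/-!
# Project UP: item A3
-/

set_option autoImplicit false

namespace Pool.Agent.Work.MP_e9e200_al.UP

open Finsupp Topology

namespace A3

theorem inner_rv {n : ℕ} (a b : Fin n → ℤ) : inner ℝ (rv a) (rv b) = ((dt a b : ℤ) : ℝ) := by
  unfold rv dt
  rw [PiLp.inner_apply]
  push_cast
  refine Finset.sum_congr rfl fun i _ => ?_
  simp [mul_comm]

theorem rv_add {n : ℕ} (a b : Fin n → ℤ) : rv (a + b) = rv a + rv b := by
  unfold rv
  ext i
  simp

/-- the cone -/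
def K {n : ℕ} {D : Type} (d : D → Fin n → ℤ) (τ : Finset D) : Set (EuclideanSpace ℝ (Fin n)) :=
  {x | ∀ i ∈ τ, 0 ≤ inner ℝ (rv (d i)) x}

theorem K_closed {n : ℕ} {D : Type} (d : D → Fin n → ℤ) (τ : Finset D) : IsClosed (K d τ) := by
  have : K d τ = ⋂ i ∈ τ, {x | 0 ≤ inner ℝ (rv (d i)) x} := by
    ext x
    simp [K]
  rw [this]
  refine isClosed_biInter fun i _ => ?_
  exact isClosed_le continuous_const (by fun_prop)

theorem K_add {n : ℕ} {D : Type} (d : D → Fin n → ℤ) (τ : Finset D)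
    (x y : EuclideanSpace ℝ (Fin n)) (hx : x ∈ K d τ) (hy : y ∈ K d τ) : x + y ∈ K d τ := by
  intro i hi
  rw [inner_add_right]
  exact add_nonneg (hx i hi) (hy i hi)

theorem K_zero {n : ℕ} {D : Type} (d : D → Fin n → ℤ) (τ : Finset D) :
    (0 : EuclideanSpace ℝ (Fin n)) ∈ K d τ := by
  intro i _
  rw [inner_zero_right]

theorem K_convex {n : ℕ} {D : Type} (d : D → Fin n → ℤ) (τ : Finset D) : Convex ℝ (K d τ) := by
  intro x hx y hy a b ha hb _ i hi
  rw [inner_add_right, inner_smul_right, inner_smul_right]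
  exact add_nonneg (mul_nonneg ha (hx i hi)) (mul_nonneg hb (hy i hi))

/-- the nearest point of the cone -/
theorem exists_proj {n : ℕ} {D : Type} (d : D → Fin n → ℤ) (τ : Finset D)
    (y : EuclideanSpace ℝ (Fin n)) : ∃ p ∈ K d τ, (∀ q ∈ K d τ, ‖y - p‖ ≤ ‖y - q‖) ∧
      ∀ x ∈ K d τ, 0 ≤ inner ℝ (p - y) x := by
  have hne : (K d τ).Nonempty := ⟨0, K_zero d τ⟩
  obtain ⟨p, hp, hmin⟩ := exists_norm_eq_iInf_of_complete_convex hne (K_closed d τ).isComplete
    (K_convex d τ) y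
  have hcr := (norm_eq_iInf_iff_real_inner_le_zero (K_convex d τ) hp).mp hmin
  refine ⟨p, hp, ?_, ?_⟩
  · intro q hq
    rw [hmin]
    exact ciInf_le ⟨0, by rintro _ ⟨w, rfl⟩; exact norm_nonneg _⟩ (⟨q, hq⟩ : K d τ)
  · intro x hx
    have h1 := hcr (p + x) (K_add d τ p x hp hx)
    rw [add_sub_cancel_left] at h1
    rw [← neg_sub, inner_neg_left]
    linarith

/-- local finiteness, uniform constants -/
theorem exists_unif {Q M : Type} [CommGroup Q] [AddCommGroup M] [Module (MonoidAlgebra ℤ Q) M]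
    {n : ℕ} (κ : Q → Fin n → ℤ) (T : Finset M) (C : Set (EuclideanSpace ℝ (Fin n)))
    (hC : IsCompact C)
    (h : ∀ v ∈ C, ∃ Φ : Finset Q,
      (∀ q ∈ Φ, 0 < inner ℝ v (rv (κ q))) ∧ ∀ t ∈ T, t ∈ AddSubgroup.closure
        {w | ∃ q ∈ Φ, ∃ t' ∈ T, w = MonoidAlgebra.of ℤ Q q • t'}) :
    ∃ ε : ℝ, 0 < ε ∧ ∃ R : ℝ, ∀ v ∈ C, ∃ Φ : Finset Q,
      (∀ q ∈ Φ, ε ≤ inner ℝ v (rv (κ q)) ∧ ‖rv (κ q)‖ ≤ R) ∧ ∀ t ∈ T, t ∈ AddSubgroup.closure
        {w | ∃ q ∈ Φ, ∃ t' ∈ T, w = MonoidAlgebra.of ℤ Q q • t'} := by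
  refine hC.induction_on (p := fun C => ∃ ε : ℝ, 0 < ε ∧ ∃ R : ℝ, ∀ v ∈ C, ∃ Φ : Finset Q,
      (∀ q ∈ Φ, ε ≤ inner ℝ v (rv (κ q)) ∧ ‖rv (κ q)‖ ≤ R) ∧ ∀ t ∈ T, t ∈ AddSubgroup.closure
        {w | ∃ q ∈ Φ, ∃ t' ∈ T, w = MonoidAlgebra.of ℤ Q q • t'}) ?_ ?_ ?_ ?_
  · exact ⟨1, one_pos, 0, fun v hv => absurd hv (Set.notMem_empty v)⟩
  · rintro s t hst ⟨ε, hε, R, hR⟩
    exact ⟨ε, hε, R, fun v hv => hR v (hst hv)⟩
  · rintro s t ⟨ε, hε, R, hR⟩ ⟨ε', hε', R', hR'⟩
    refine ⟨min ε ε', lt_min hε hε', max R R', ?_⟩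
    rintro v (hv | hv)
    · obtain ⟨Φ, h1, h2⟩ := hR v hv
      exact ⟨Φ, fun q hq => ⟨(min_le_left _ _).trans (h1 q hq).1,
        (h1 q hq).2.trans (le_max_left _ _)⟩, h2⟩
    · obtain ⟨Φ, h1, h2⟩ := hR' v hv
      exact ⟨Φ, fun q hq => ⟨(min_le_right _ _).trans (h1 q hq).1,
        (h1 q hq).2.trans (le_max_right _ _)⟩, h2⟩
  · intro v hv
    obtain ⟨Φ, h1, h2⟩ := h v hv
    -- a common lower bound
    obtain ⟨ε, hε, hε'⟩ : ∃ ε : ℝ, 0 < ε ∧ ∀ q ∈ Φ, ε < inner ℝ v (rv (κ q)) := by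
      have h3 : ∀ᶠ ε : ℝ in 𝓝[>] 0, ∀ q ∈ Φ, ε < inner ℝ v (rv (κ q)) := by
        rw [Filter.eventually_all_finset]
        intro q hq
        exact nhdsWithin_le_nhds (eventually_lt_nhds (h1 q hq))
      obtain ⟨ε, h4, h5⟩ := (h3.and self_mem_nhdsWithin).exists
      exact ⟨ε, h5, h4⟩
    obtain ⟨R, hR⟩ : ∃ R : ℝ, ∀ q ∈ Φ, ‖rv (κ q)‖ ≤ R := by
      refine ⟨∑ q ∈ Φ, ‖rv (κ q)‖, fun q hq => ?_⟩
      exact Finset.single_le_sum (f := fun q => ‖rv (κ q)‖) (fun _ _ => norm_nonneg _) hq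
    refine ⟨{w | ∀ q ∈ Φ, ε ≤ inner ℝ w (rv (κ q))}, ?_, ε, hε, R, ?_⟩
    · apply mem_nhdsWithin_of_mem_nhds
      have h3 : ∀ᶠ w in 𝓝 v, ∀ q ∈ Φ, ε ≤ inner ℝ w (rv (κ q)) := by
        rw [Filter.eventually_all_finset]
        intro q hq
        have hc : Continuous fun w : EuclideanSpace ℝ (Fin n) => inner ℝ w (rv (κ q)) := by
          fun_prop
        exact (hc.tendsto v).eventually_const_le (hε' q hq)
      exact h3
    · intro w hw
      exact ⟨Φ, fun q hq => ⟨hw q hq, hR q hq⟩, h2⟩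

/-- multiplication of the closure -/
theorem smul_mem {Q M : Type} [CommGroup Q] [AddCommGroup M] [Module (MonoidAlgebra ℤ Q) M]
    (S : Set M) (L : AddSubgroup M) (g : Q) (h : ∀ w ∈ S, MonoidAlgebra.of ℤ Q g • w ∈ L) (x : M)
    (hx : x ∈ AddSubgroup.closure S) : MonoidAlgebra.of ℤ Q g • x ∈ L := by
  induction hx using AddSubgroup.closure_induction with
  | mem x hx => exact h x hx
  | zero => rw [smul_zero]; exact zero_mem _
  | add x y _ _ hx hy => rw [smul_add]; exact add_mem hx hy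
  | neg x _ hx => rw [smul_neg]; exact neg_mem hx

theorem of_smul_smul {Q M : Type} [CommGroup Q] [AddCommGroup M] [Module (MonoidAlgebra ℤ Q) M]
    (g h : Q) (x : M) :
    MonoidAlgebra.of ℤ Q g • MonoidAlgebra.of ℤ Q h • x = MonoidAlgebra.of ℤ Q (g * h) • x := by
  rw [map_mul, mul_smul]

/-- one step -/
theorem step_est {n : ℕ} (ε R : ℝ) (hε : 0 < ε) (y p k : EuclideanSpace ℝ (Fin n))
    (hC : max (R ^ 2 / ε) (ε / 2) < ‖y - p‖)
    (h1 : ε * ‖y - p‖ ≤ inner ℝ (p - y) k) (h2 : ‖k‖ ≤ R) :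
    ‖y + k - p‖ ≤ ‖y - p‖ - ε / 2 := by
  have h3 : R ^ 2 / ε < ‖y - p‖ := (le_max_left _ _).trans_lt hC
  have h4 : ε / 2 < ‖y - p‖ := (le_max_right _ _).trans_lt hC
  rw [div_lt_iff₀ hε] at h3
  have h5 : y + k - p = (y - p) + k := by abel
  have h6 : ‖(y - p) + k‖ ^ 2 = ‖y - p‖ ^ 2 + 2 * inner ℝ (y - p) k + ‖k‖ ^ 2 :=
    norm_add_sq_real _ _
  have h7 : inner ℝ (y - p) k = - inner ℝ (p - y) k := by
    rw [← neg_sub, inner_neg_left]
  have h8 : ‖k‖ ^ 2 ≤ R ^ 2 := pow_le_pow_left₀ (norm_nonneg _) h2 2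
  have h9 : ‖(y - p) + k‖ ^ 2 ≤ (‖y - p‖ - ε / 2) ^ 2 := by
    rw [h6, h7]
    nlinarith
  rw [h5]
  exact le_of_sq_le_sq h9 (by linarith)
where
  le_of_sq_le_sq {a b : ℝ} (h : a ^ 2 ≤ b ^ 2) (hb : 0 ≤ b) : a ≤ b := by
    exact le_of_pow_le_pow_left₀ two_ne_zero hb h
  le_of_pow_le_pow_left₀ {a b : ℝ} {n : ℕ} (hn : n ≠ 0) (hb : 0 ≤ b) (h : a ^ n ≤ b ^ n) :
      a ≤ b := by
    by_contra hab
    push Not at hab
    exact absurd h (not_le.mpr (pow_lt_pow_left₀ hab hb hn))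

/-- the descent -/
theorem descent {Q M : Type} [CommGroup Q] [AddCommGroup M] [Module (MonoidAlgebra ℤ Q) M]
    {n : ℕ} (κ : Q → Fin n → ℤ) (hκ : ∀ a b, κ (a * b) = κ a + κ b) (T : Finset M)
    {D : Type} (d : D → Fin n → ℤ) (τ : Finset D) (ε R : ℝ) (hε : 0 < ε)
    (hu : ∀ v : EuclideanSpace ℝ (Fin n), ‖v‖ = 1 → (∀ x ∈ K d τ, 0 ≤ inner ℝ v x) →
      ∃ Φ : Finset Q, (∀ q ∈ Φ, ε ≤ inner ℝ v (rv (κ q)) ∧ ‖rv (κ q)‖ ≤ R) ∧
        ∀ t ∈ T, t ∈ AddSubgroup.closure
        {w | ∃ q ∈ Φ, ∃ t' ∈ T, w = MonoidAlgebra.of ℤ Q q • t'}) (N : ℕ) :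
    ∀ h : Q, (∃ p ∈ K d τ, ‖rv (κ h) - p‖ ≤ max (R ^ 2 / ε) (ε / 2) + N * (ε / 2)) → ∀ t ∈ T,
      MonoidAlgebra.of ℤ Q h • t ∈ AddSubgroup.closure {w : M | ∃ g : Q, ∃ t' ∈ T,
        (∃ p ∈ K d τ, ‖rv (κ g) - p‖ ≤ max (R ^ 2 / ε) (ε / 2)) ∧
          w = MonoidAlgebra.of ℤ Q g • t'} := by
  induction N with
  | zero =>
    rintro h ⟨p, hp, hp'⟩ t ht
    refine AddSubgroup.subset_closure ⟨h, t, ht, ⟨p, hp, ?_⟩, rfl⟩
    simpa using hp'
  | succ N ih =>
    rintro h ⟨p', hp', hp''⟩ t ht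
    obtain ⟨p, hp, hmin, hpos⟩ := exists_proj d τ (rv (κ h))
    by_cases hle : ‖rv (κ h) - p‖ ≤ max (R ^ 2 / ε) (ε / 2)
    · exact AddSubgroup.subset_closure ⟨h, t, ht, ⟨p, hp, hle⟩, rfl⟩
    · push Not at hle
      have hw : 0 < ‖rv (κ h) - p‖ :=
        lt_trans (lt_of_lt_of_le (half_pos hε) (le_max_right _ _)) hle
      have hw' : ‖p - rv (κ h)‖ = ‖rv (κ h) - p‖ := norm_sub_rev _ _
      obtain ⟨Φ, h1, h2⟩ := hu (‖rv (κ h) - p‖⁻¹ • (p - rv (κ h)))
        (by rw [norm_smul, norm_inv, norm_norm, hw', inv_mul_cancel₀ hw.ne'])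
        (by
          intro x hx
          rw [real_inner_smul_left]
          exact mul_nonneg (inv_nonneg.mpr hw.le) (hpos x hx))
      refine smul_mem _ _ h ?_ t (h2 t ht)
      rintro w ⟨q, hq, t', ht', rfl⟩
      rw [of_smul_smul]
      refine ih (h * q) ⟨p, hp, ?_⟩ t' ht'
      obtain ⟨h3, h4⟩ := h1 q hq
      rw [real_inner_smul_left, le_inv_mul_iff₀ hw] at h3
      have h5 := step_est ε R hε (rv (κ h)) p (rv (κ q)) hle (by linarith) h4
      rw [hκ, rv_add]
      have h6 := hmin p' hp'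
      push_cast at hp''
      linarith

/-- the integer vector -/
theorem exists_int {n : ℕ} {D : Type} (d : D → Fin n → ℤ) (τ : Finset D)
    (x0 : EuclideanSpace ℝ (Fin n)) (hx0 : ∀ i ∈ τ, 0 < inner ℝ (rv (d i)) x0) (c : ℝ) :
    ∃ k : Fin n → ℤ, ∀ i ∈ τ, c * ‖rv (d i)‖ ≤ inner ℝ (rv (d i)) (rv k) := by
  have h1 : ∀ᶠ N : ℕ in Filter.atTop, ∀ i ∈ τ,
      (c + √n) * ‖rv (d i)‖ ≤ N * inner ℝ (rv (d i)) x0 := by
    rw [Filter.eventually_all_finset]
    intro i hi
    have h2 : Filter.Tendsto (fun N : ℕ => (N : ℝ) * inner ℝ (rv (d i)) x0) Filter.atTop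
        Filter.atTop := tendsto_natCast_atTop_atTop.atTop_mul_const (hx0 i hi)
    exact h2.eventually_ge_atTop _
  obtain ⟨N, hN⟩ := h1.exists
  refine ⟨fun j => ⌊(N : ℝ) * x0 j⌋, fun i hi => ?_⟩
  set k : Fin n → ℤ := fun j => ⌊(N : ℝ) * x0 j⌋ with hk
  have h2 : ‖rv k - (N : ℝ) • x0‖ ≤ √n := by
    rw [EuclideanSpace.norm_eq]
    apply Real.sqrt_le_sqrt
    have h3 : ∑ j, ‖(rv k - (N : ℝ) • x0) j‖ ^ 2 ≤ ∑ _j : Fin n, (1 : ℝ) := by
      apply Finset.sum_le_sum
      intro j _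
      have h4 : (rv k - (N : ℝ) • x0) j = (⌊(N : ℝ) * x0 j⌋ : ℝ) - N * x0 j := by
        simp [rv, hk]
      rw [h4, Real.norm_eq_abs, sq_abs]
      have h5 := Int.floor_le ((N : ℝ) * x0 j)
      have h6 := (Int.lt_floor_add_one ((N : ℝ) * x0 j)).le
      nlinarith
    simpa using h3
  have h3 := hN i hi
  have h4 : inner ℝ (rv (d i)) (rv k) = N * inner ℝ (rv (d i)) x0 +
      inner ℝ (rv (d i)) (rv k - (N : ℝ) • x0) := by
    rw [inner_sub_right, real_inner_smul_right]
    ring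
  have h5 : -(‖rv (d i)‖ * ‖rv k - (N : ℝ) • x0‖) ≤
      inner ℝ (rv (d i)) (rv k - (N : ℝ) • x0) :=
    neg_le_of_abs_le (abs_real_inner_le_norm _ _)
  have h6 : ‖rv (d i)‖ * ‖rv k - (N : ℝ) • x0‖ ≤ ‖rv (d i)‖ * √n :=
    mul_le_mul_of_nonneg_left h2 (norm_nonneg _)
  rw [h4]
  nlinarith

end A3

open A3 in
theorem I_A3 (h2 : StA2) : StA3 := by
  intro Q _ M _ _ n κ hκ hsurj T hT D d τ x0 hx0 hbad x
  -- the compact set of directions
  set C : Set (EuclideanSpace ℝ (Fin n)) :=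
    Metric.sphere 0 1 ∩ {v | ∀ x ∈ K d τ, 0 ≤ inner ℝ v x} with hC
  have hCc : IsCompact C := by
    refine (isCompact_sphere 0 1).inter_right ?_
    have : {v : EuclideanSpace ℝ (Fin n) | ∀ x ∈ K d τ, 0 ≤ inner ℝ v x} =
        ⋂ x ∈ K d τ, {v | 0 ≤ inner ℝ v x} := by
      ext v
      simp
    rw [this]
    refine isClosed_biInter fun i _ => ?_
    exact isClosed_le continuous_const (by fun_prop)
  obtain ⟨ε, hε, R, hR⟩ := exists_unif κ T C hCc (by
    rintro v ⟨hv, hv'⟩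
    rw [mem_sphere_zero_iff_norm] at hv
    exact h2 Q M n κ hκ hsurj T hT v (by
      rintro rfl
      rw [norm_zero] at hv
      exact zero_ne_one hv) (hbad v hv (fun x hx => hv' x hx)))
  have hu : ∀ v : EuclideanSpace ℝ (Fin n), ‖v‖ = 1 → (∀ x ∈ K d τ, 0 ≤ inner ℝ v x) →
      ∃ Φ : Finset Q, (∀ q ∈ Φ, ε ≤ inner ℝ v (rv (κ q)) ∧ ‖rv (κ q)‖ ≤ R) ∧
        ∀ t ∈ T, t ∈ AddSubgroup.closure
        {w | ∃ q ∈ Φ, ∃ t' ∈ T, w = MonoidAlgebra.of ℤ Q q • t'} := fun v hv hv' =>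
    hR v ⟨mem_sphere_zero_iff_norm.mpr hv, hv'⟩
  -- everything is in `L0`
  have hall : ∀ y : M, y ∈ AddSubgroup.closure {w : M | ∃ g : Q, ∃ t' ∈ T,
        (∃ p ∈ K d τ, ‖rv (κ g) - p‖ ≤ max (R ^ 2 / ε) (ε / 2)) ∧
          w = MonoidAlgebra.of ℤ Q g • t'} := by
    intro y
    refine (AddSubgroup.closure_le _).mpr ?_ (hT y)
    rintro w ⟨h, t, ht, rfl⟩
    obtain ⟨N, hN⟩ := exists_nat_ge (‖rv (κ h)‖ / (ε / 2))
    rw [div_le_iff₀ (half_pos hε)] at hN
    refine descent κ hκ T d τ ε R hε hu N h ⟨0, K_zero d τ, ?_⟩ t ht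
    rw [sub_zero]
    have : 0 < max (R ^ 2 / ε) (ε / 2) := lt_of_lt_of_le (half_pos hε) (le_max_right _ _)
    linarith
  obtain ⟨k, hk⟩ := exists_int d τ x0 hx0 (max (R ^ 2 / ε) (ε / 2))
  obtain ⟨g0, hg0⟩ := hsurj k
  have hx : x = MonoidAlgebra.of ℤ Q g0 • MonoidAlgebra.of ℤ Q g0⁻¹ • x := by
    rw [of_smul_smul, mul_inv_cancel, map_one, one_smul]
  rw [hx]
  refine smul_mem _ _ g0 ?_ _ (hall _)
  rintro w ⟨g, t', ht', ⟨p, hp, hp'⟩, rfl⟩
  rw [of_smul_smul]
  refine AddSubgroup.subset_closure ⟨g0 * g, t', ht', ?_, rfl⟩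
  intro i hi
  have h3 : (0 : ℝ) ≤ ((dt (d i) (κ (g0 * g)) : ℤ) : ℝ) := by
    rw [← inner_rv, hκ, rv_add, inner_add_right, hg0]
    have h4 := hk i hi
    have h5 := hp i hi
    have h6 : inner ℝ (rv (d i)) (rv (κ g)) = inner ℝ (rv (d i)) p +
        inner ℝ (rv (d i)) (rv (κ g) - p) := by
      rw [inner_sub_right]
      ring
    have h7 : -(‖rv (d i)‖ * ‖rv (κ g) - p‖) ≤ inner ℝ (rv (d i)) (rv (κ g) - p) :=
      neg_le_of_abs_le (abs_real_inner_le_norm _ _)
    have h8 : ‖rv (d i)‖ * ‖rv (κ g) - p‖ ≤ ‖rv (d i)‖ * max (R ^ 2 / ε) (ε / 2) :=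
      mul_le_mul_of_nonneg_left hp' (norm_nonneg _)
    rw [h6]
    nlinarith
  exact_mod_cast h3

end Pool.Agent.Work.MP_e9e200_al.UP

end

section

/-!
# Item A5: the mesh
-/

set_option autoImplicit false

namespace Pool.Agent.Work.MP_e9e200_al.UP

namespace A5

lemma rv_apply {n : ℕ} (k : Fin n → ℤ) (i : Fin n) : rv k i = (k i : ℝ) := rfl

lemma inner_rv {n : ℕ} (a b : Fin n → ℤ) : inner ℝ (rv a) (rv b) = (dt a b : ℝ) := by
  rw [PiLp.inner_apply]
  unfold dt
  push_cast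
  refine Finset.sum_congr rfl (fun i _ => ?_)
  rw [rv_apply, rv_apply]
  simp [mul_comm]

lemma abs_le {n : ℕ} (k : Fin n → ℤ) (i : Fin n) : |(k i : ℝ)| ≤ ‖rv k‖ := by
  have h := PiLp.norm_apply_le (rv k) i
  rwa [rv_apply, Real.norm_eq_abs] at h

lemma finite_ball {n : ℕ} (B : ℝ) : {k : Fin n → ℤ | ‖rv k‖ ≤ B}.Finite := by
  refine (Set.finite_Icc (fun _ : Fin n => -⌈B⌉) (fun _ => ⌈B⌉)).subset (fun k hk => ?_)
  have hk' : ‖rv k‖ ≤ B := hk
  have h : ∀ i, |(k i : ℝ)| ≤ (⌈B⌉ : ℝ) := fun i =>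
    (abs_le k i).trans (hk'.trans (Int.le_ceil B))
  refine ⟨fun i => ?_, fun i => ?_⟩
  · have := (abs_le'.mp (h i)).2
    have h2 : (-(k i) : ℝ) ≤ (⌈B⌉ : ℝ) := this
    have h3 : -(k i) ≤ ⌈B⌉ := by exact_mod_cast h2
    show -⌈B⌉ ≤ k i
    linarith
  · have := (abs_le'.mp (h i)).1
    have h3 : k i ≤ ⌈B⌉ := by exact_mod_cast this
    exact h3

lemma rv_ne {n : ℕ} {k : Fin n → ℤ} (h : rv k ≠ 0) : k ≠ 0 := by
  rintro rfl
  apply h
  ext i
  simp [rv_apply]

/-- rounding -/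
lemma round_net {n : ℕ} (R : ℝ) (p : EuclideanSpace ℝ (Fin n)) :
    ∃ d : Fin n → ℤ, ‖rv d - R • p‖ ≤ Real.sqrt n := by
  refine ⟨fun i => round (R * p i), ?_⟩
  rw [EuclideanSpace.norm_eq]
  apply Real.sqrt_le_sqrt
  calc ∑ i, ‖(rv (fun i => round (R * p i)) - R • p) i‖ ^ 2 ≤ ∑ _i : Fin n, (1 : ℝ) := by
        refine Finset.sum_le_sum (fun i _ => ?_)
        have h1 : (rv (fun i => round (R * p i)) - R • p) i = (round (R * p i) : ℝ) - R * p i := rfl
        rw [h1, Real.norm_eq_abs]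
        have h2 := abs_sub_round (R * p i)
        have h3 : |(round (R * p i) : ℝ) - R * p i| ≤ 1 / 2 := by
          rw [abs_sub_comm]; exact h2
        have h4 := abs_nonneg ((round (R * p i) : ℝ) - R * p i)
        nlinarith
    _ = n := by simp

variable {E : Type} [NormedAddCommGroup E] [InnerProductSpace ℝ E]

lemma norm_un {x : E} (h : x ≠ 0) : ‖un x‖ = 1 := by
  unfold un
  rw [norm_smul, norm_inv, norm_norm]
  exact inv_mul_cancel₀ (norm_ne_zero_iff.mpr h)

lemma smul_un {x : E} (h : x ≠ 0) : ‖x‖ • un x = x := by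
  unfold un
  rw [smul_smul, mul_inv_cancel₀ (norm_ne_zero_iff.mpr h), one_smul]

/-- the net -/
lemma net {x p : E} {R s : ℝ} (hR : 0 < R) (hx : x ≠ 0) (hp : ‖p‖ = 1)
    (h : ‖x - R • p‖ ≤ s) : ‖un x - p‖ ≤ 2 * s / R := by
  have hr : |‖x‖ - R| ≤ s := by
    have h1 := abs_norm_sub_norm_le x (R • p)
    rw [norm_smul, hp, mul_one, Real.norm_eq_abs, abs_of_pos hR] at h1
    exact h1.trans h
  have h2 : R • (un x - p) = (x - R • p) + (R - ‖x‖) • un x := by
    rw [smul_sub, sub_smul, smul_un hx]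
    abel
  have h3 : R * ‖un x - p‖ ≤ s + s := by
    have h4 : ‖R • (un x - p)‖ = R * ‖un x - p‖ := by
      rw [norm_smul, Real.norm_eq_abs, abs_of_pos hR]
    rw [← h4, h2]
    refine (norm_add_le _ _).trans (add_le_add h ?_)
    rw [norm_smul, norm_un hx, mul_one, Real.norm_eq_abs, abs_sub_comm]
    exact hr
  rw [le_div_iff₀ hR]
  linarith

lemma inner_un_self {y : E} (hy : y ≠ 0) : inner ℝ (un y) y = ‖y‖ := by
  have h := norm_ne_zero_iff.mpr hy
  unfold un
  rw [inner_smul_left, real_inner_self_eq_norm_sq, RCLike.conj_to_real, pow_two, ← mul_assoc,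
    inv_mul_cancel₀ h, one_mul]

lemma inner_net {u p y : E} {ε : ℝ} (hy : y ≠ 0) (hp : p = -un y) (h : ‖u - p‖ ≤ ε) :
    inner ℝ u y ≤ -(‖y‖ * (1 - ε)) := by
  have h1 : inner ℝ u y = inner ℝ p y + inner ℝ (u - p) y := by
    rw [← inner_add_left]
    congr 1
    abel
  have h2 : inner ℝ p y = -‖y‖ := by
    rw [hp, inner_neg_left, inner_un_self hy]
  have h3 : inner ℝ (u - p) y ≤ ε * ‖y‖ :=
    (real_inner_le_norm _ _).trans (mul_le_mul_of_nonneg_right h (norm_nonneg _))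
  rw [h1, h2]
  linarith

lemma inner_un {x y : E} (hx : x ≠ 0) : ‖x‖ * inner ℝ (un x) y = inner ℝ x y := by
  conv_rhs => rw [← smul_un hx]
  rw [inner_smul_left, RCLike.conj_to_real]

/-- closeness -/
lemma close {u y : E} {ε t ρ : ℝ} (hu : ‖u‖ = 1) (hy : y ≠ 0) (ht : 0 < t) (hε : 0 < ε)
    (hε1 : ε ≤ 1 / 10) (hρ : 0 < ρ) (hε2 : 10 * ε ≤ ρ ^ 2) (h1 : ‖y‖ ≤ t * (1 + 4 * ε))
    (h2 : inner ℝ u y ≤ -(t * (1 - ε))) : ‖u - -un y‖ ≤ ρ := by
  have hN : 0 < ‖y‖ := norm_pos_iff.mpr hy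
  have e1 : ‖u - -un y‖ ^ 2 = 2 + 2 * inner ℝ u (un y) := by
    rw [sub_neg_eq_add, norm_add_sq_real, hu, norm_un hy]
    ring
  have e2 : ‖y‖ * inner ℝ u (un y) = inner ℝ u y := by
    rw [real_inner_comm, inner_un hy, real_inner_comm]
  have e3 : ‖y‖ * inner ℝ u (un y) ≤ -(t * (1 - ε)) := by rw [e2]; exact h2
  have e4 : inner ℝ u (un y) ≤ -1 + 5 * ε := by
    by_contra hc
    push Not at hc
    have h3 : ‖y‖ * (-1 + 5 * ε) < -(t * (1 - ε)) :=
      (mul_lt_mul_of_pos_left hc hN).trans_le e3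
    have h4 : ‖y‖ * (1 - 5 * ε) ≤ t * (1 + 4 * ε) * (1 - 5 * ε) :=
      mul_le_mul_of_nonneg_right h1 (by linarith)
    have h5 : t * (1 + 4 * ε) * (1 - 5 * ε) ≤ t * (1 - ε) := by
      have : t * (1 - ε) - t * (1 + 4 * ε) * (1 - 5 * ε) = t * (20 * ε ^ 2) := by ring
      have h6 : 0 ≤ t * (20 * ε ^ 2) := by positivity
      linarith
    linarith
  have e5 : ‖u - -un y‖ ^ 2 ≤ ρ ^ 2 := by rw [e1]; linarith
  exact le_of_sq_le_sq e5 hρ.le

end A5

open A5 in
theorem I_A5 : StA5 := by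
  intro n ρ hρ
  rcases Nat.eq_zero_or_pos n with hn | hn
  · subst hn
    refine ⟨Empty, inferInstance, inferInstance, fun i => i.elim, fun i => i.elim,
      fun i => i.elim, fun i => i.elim, ?_, ?_⟩
    · intro C s0
      exact ⟨0, fun t _ k c _ _ => Or.inl (fun i => i.elim)⟩
    · intro E
      exact Set.toFinite _
  set ε : ℝ := min (1 / 10) (ρ ^ 2 / 10) with hεd
  have hε : 0 < ε := lt_min (by norm_num) (by positivity)
  have hε1 : ε ≤ 1 / 10 := min_le_left _ _
  have hε2 : 10 * ε ≤ ρ ^ 2 := by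
    have := min_le_right (1 / 10 : ℝ) (ρ ^ 2 / 10)
    rw [← hεd] at this
    linarith
  set s : ℝ := Real.sqrt n with hs
  have hs1 : 1 ≤ s := by
    rw [hs]
    have : (1 : ℝ) ≤ n := by exact_mod_cast hn
    calc (1 : ℝ) = Real.sqrt 1 := Real.sqrt_one.symm
      _ ≤ _ := Real.sqrt_le_sqrt this
  set R : ℝ := 2 * s / ε + s with hR
  have hRε : 2 * s / R ≤ ε := by
    have h1 : 0 < 2 * s / ε := by positivity
    have h2 : 0 < R := by rw [hR]; linarith
    rw [div_le_iff₀ h2, hR, mul_add, mul_div_cancel₀ _ hε.ne']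
    nlinarith
  have hRs : 1 ≤ ε * (R - s) := by
    have : ε * (R - s) = 2 * s := by
      rw [hR, add_sub_cancel_right, mul_div_cancel₀ _ hε.ne']
    rw [this]; linarith
  have hRpos : 0 < R := by
    have h1 : 0 < 2 * s / ε := by positivity
    rw [hR]; linarith
  have hRs1 : 1 ≤ R - s := by
    by_contra hc
    push Not at hc
    have : ε * (R - s) < 1 := by nlinarith
    linarith
  set S : Set (Fin n → ℤ) := {d | ‖rv d‖ ≤ R + s ∧ R - s ≤ ‖rv d‖} with hS
  have hSf : S.Finite := (finite_ball (n := n) (R + s)).subset (fun d hd => hd.1)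
  have hSr : ∀ i : S, 1 ≤ ‖rv (i : Fin n → ℤ)‖ := fun i => hRs1.trans i.2.2
  have hS0 : ∀ i : S, rv (i : Fin n → ℤ) ≠ 0 := fun i h => by
    have := hSr i
    rw [h, norm_zero] at this
    linarith
  have hnet : ∀ p : EuclideanSpace ℝ (Fin n), ‖p‖ = 1 → ∃ i : S,
      ‖un (rv (i : Fin n → ℤ)) - p‖ ≤ ε := by
    intro p hp
    obtain ⟨d, hd⟩ := round_net R p
    rw [← hs] at hd
    have h1 := abs_norm_sub_norm_le (rv d) (R • p)
    rw [norm_smul, hp, mul_one, Real.norm_eq_abs, abs_of_pos hRpos] at h1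
    have h2 := abs_le.mp (h1.trans hd)
    have hmem : d ∈ S := ⟨by linarith [h2.2], by linarith [h2.1]⟩
    exact ⟨⟨d, hmem⟩, (net hRpos (hS0 ⟨d, hmem⟩) hp hd).trans hRε⟩
  have hce : ∀ i : S, ‖rv (i : Fin n → ℤ)‖ ≤ (⌈‖rv (i : Fin n → ℤ)‖⌉ : ℝ) ∧
      (⌈‖rv (i : Fin n → ℤ)‖⌉ : ℝ) ≤ ‖rv (i : Fin n → ℤ)‖ * (1 + ε) := by
    intro i
    refine ⟨Int.le_ceil _, ?_⟩
    have h1 := (Int.ceil_lt_add_one (‖rv (i : Fin n → ℤ)‖)).le
    have h2 : 1 ≤ ε * ‖rv (i : Fin n → ℤ)‖ :=
      hRs.trans (mul_le_mul_of_nonneg_left i.2.2 hε.le)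
    linarith
  haveI : Fintype S := hSf.fintype
  classical
  refine ⟨S, inferInstance, Classical.decEq _, fun i => (i : Fin n → ℤ),
    fun i => ⌈‖rv (i : Fin n → ℤ)‖⌉, fun i => rv_ne (hS0 i), fun i => ?_, ?_, ?_⟩
  · exact Int.ceil_pos.mpr (lt_of_lt_of_le one_pos (hSr i))
  · intro C s0
    refine ⟨⌈(|(C : ℝ)| + |(s0 : ℝ)| + 1) / ε⌉₊, fun t ht k c hc h0 => ?_⟩
    have ht1 : |(C : ℝ)| + |(s0 : ℝ)| + 1 ≤ ε * t := by
      have h1 : (|(C : ℝ)| + |(s0 : ℝ)| + 1) / ε ≤ t := (Nat.le_ceil _).trans (by exact_mod_cast ht)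
      rw [div_le_iff₀ hε] at h1
      linarith
    have htpos : (0 : ℝ) < t := by
      have h1 := abs_nonneg (C : ℝ)
      have h2 := abs_nonneg (s0 : ℝ)
      have h3 : 0 < ε * (t : ℝ) := by linarith
      exact (pos_iff_pos_of_mul_pos h3).mp hε
    have hcR : ∀ i, |(c i : ℝ)| ≤ |(C : ℝ)| := fun i => by
      have h1 : (|c i| : ℝ) ≤ (C : ℝ) := by exact_mod_cast hc i
      exact h1.trans (le_abs_self _)
    have hdt : ∀ i : S, (dt (i : Fin n → ℤ) k : ℝ) =
        ‖rv (i : Fin n → ℤ)‖ * inner ℝ (un (rv (i : Fin n → ℤ))) (rv k) := fun i => by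
      rw [inner_un (hS0 i), inner_rv]
    -- lower bound
    have hlow : ∀ i : S, -(t * (1 + 2 * ε)) ≤ inner ℝ (un (rv (i : Fin n → ℤ))) (rv k) := by
      intro i
      have h1 : (0 : ℝ) ≤ (t : ℝ) * (⌈‖rv (i : Fin n → ℤ)‖⌉ : ℝ) + (dt (i : Fin n → ℤ) k : ℝ)
          + (c i : ℝ) := by exact_mod_cast h0 i
      rw [hdt i] at h1
      have h2 := (hce i).2
      have h3 := hSr i
      have h4 := (abs_le.mp (hcR i)).2
      have h5 := abs_nonneg (s0 : ℝ)
      set r := ‖rv (i : Fin n → ℤ)‖ with hr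
      set u := inner ℝ (un (rv (i : Fin n → ℤ))) (rv k) with hu
      have h6 : (t : ℝ) * (⌈r⌉ : ℝ) ≤ t * (r * (1 + ε)) := mul_le_mul_of_nonneg_left h2 htpos.le
      have h7 : ε * t ≤ ε * t * r := by
        have : 0 ≤ ε * t := by positivity
        nlinarith
      have h8 : 0 ≤ r * (u + t * (1 + 2 * ε)) := by nlinarith
      have h9 : 0 ≤ u + t * (1 + 2 * ε) := by
        by_contra hneg
        push Not at hneg
        have : r * (u + t * (1 + 2 * ε)) < 0 := mul_neg_of_pos_of_neg (by linarith) hneg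
        linarith
      linarith
    by_cases hall : ∀ i : S, s0 ≤ (t : ℤ) * ⌈‖rv (i : Fin n → ℤ)‖⌉ + dt (i : Fin n → ℤ) k + c i
    · exact Or.inl hall
    right
    -- upper bound for the small ones
    have hup : ∀ i : S, (t : ℤ) * ⌈‖rv (i : Fin n → ℤ)‖⌉ + dt (i : Fin n → ℤ) k + c i < s0 →
        inner ℝ (un (rv (i : Fin n → ℤ))) (rv k) ≤ -(t * (1 - ε)) := by
      intro i hi
      have h1 : (t : ℝ) * (⌈‖rv (i : Fin n → ℤ)‖⌉ : ℝ) + (dt (i : Fin n → ℤ) k : ℝ)
          + (c i : ℝ) < (s0 : ℝ) := by exact_mod_cast hi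
      rw [hdt i] at h1
      have h2 := (hce i).1
      have h3 := hSr i
      have h4 := (abs_le.mp (hcR i)).1
      have h5 := le_abs_self (s0 : ℝ)
      set r := ‖rv (i : Fin n → ℤ)‖ with hr
      set u := inner ℝ (un (rv (i : Fin n → ℤ))) (rv k) with hu
      have h6 : t * r ≤ (t : ℝ) * (⌈r⌉ : ℝ) := mul_le_mul_of_nonneg_left h2 htpos.le
      have h7 : ε * t ≤ ε * t * r := by
        have : 0 ≤ ε * t := by positivity
        nlinarith
      have h8 : r * (u + t * (1 - ε)) ≤ 0 := by nlinarith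
      have h9 : u + t * (1 - ε) ≤ 0 := by
        by_contra hneg
        push Not at hneg
        have : 0 < r * (u + t * (1 - ε)) := mul_pos (by linarith) hneg
        linarith
      linarith
    push Not at hall
    obtain ⟨i0, hi0⟩ := hall
    have hy : rv k ≠ 0 := by
      intro h
      have h1 := hup i0 hi0
      rw [h, inner_zero_right] at h1
      have h2 : 0 < (t : ℝ) * (1 - ε) := mul_pos htpos (by linarith)
      linarith
    have hN : ‖rv k‖ ≤ t * (1 + 4 * ε) := by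
      obtain ⟨i, hi⟩ := hnet (-un (rv k)) (by rw [norm_neg, norm_un hy])
      have h1 := inner_net hy rfl hi
      have h2 := hlow i
      have h3 : ‖rv k‖ * (1 - ε) ≤ t * (1 + 2 * ε) := by linarith
      by_contra hc
      push Not at hc
      have h4 : t * (1 + 4 * ε) * (1 - ε) < ‖rv k‖ * (1 - ε) :=
        mul_lt_mul_of_pos_right hc (by linarith)
      have h5 : t * (1 + 2 * ε) ≤ t * (1 + 4 * ε) * (1 - ε) := by
        have h6 : t * (1 + 4 * ε) * (1 - ε) - t * (1 + 2 * ε) = t * (ε * (1 - 4 * ε)) := by ring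
        have h7 : 0 ≤ (t : ℝ) * (ε * (1 - 4 * ε)) :=
          mul_nonneg htpos.le (mul_nonneg hε.le (by linarith))
        linarith
      linarith
    refine ⟨-un (rv k), by rw [norm_neg, norm_un hy], fun i hi => ?_⟩
    exact close (norm_un (hS0 i)) hy htpos hε hε1 hρ hε2 hN (hup i hi)
  · intro E
    refine (finite_ball (n := n) (2 * ∑ i : S, |(E i : ℝ)|)).subset (fun k hk => ?_)
    have hk' : ∀ i : S, -E i ≤ dt (i : Fin n → ℤ) k := hk
    show ‖rv k‖ ≤ 2 * ∑ i : S, |(E i : ℝ)|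
    have hB0 : 0 ≤ ∑ i : S, |(E i : ℝ)| := Finset.sum_nonneg (fun i _ => abs_nonneg _)
    by_cases hy : rv k = 0
    · rw [hy, norm_zero]; linarith
    obtain ⟨i, hi⟩ := hnet (-un (rv k)) (by rw [norm_neg, norm_un hy])
    have h1 := inner_net hy rfl hi
    have h2 : (-(E i) : ℝ) ≤ (dt (i : Fin n → ℤ) k : ℝ) := by exact_mod_cast hk' i
    rw [← inner_rv, ← inner_un (hS0 i)] at h2
    have h3 : (E i : ℝ) ≤ ∑ i : S, |(E i : ℝ)| :=
      (le_abs_self _).trans (Finset.single_le_sum (f := fun i : S => |(E i : ℝ)|)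
        (fun i _ => abs_nonneg _) (Finset.mem_univ i))
    have h4 := hSr i
    have h5 := norm_nonneg (rv k)
    have h6 : ‖rv k‖ * (1 - ε) ≤ ‖rv (i : Fin n → ℤ)‖ * (‖rv k‖ * (1 - ε)) := by
      have : 0 ≤ ‖rv k‖ * (1 - ε) := mul_nonneg h5 (by linarith)
      nlinarith
    have h7 : ‖rv (i : Fin n → ℤ)‖ * inner ℝ (un (rv (i : Fin n → ℤ))) (rv k) ≤
        ‖rv (i : Fin n → ℤ)‖ * -(‖rv k‖ * (1 - ε)) :=
      mul_le_mul_of_nonneg_left h1 (by linarith)
    have h8 : ‖rv k‖ * (1 - ε) ≤ ∑ i : S, |(E i : ℝ)| := by linarith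
    nlinarith

end Pool.Agent.Work.MP_e9e200_al.UP

end

section

/-!
# Project UP: item A6, decomposition into integral vectors
-/

set_option autoImplicit false

namespace Pool.Agent.Work.MP_e9e200_al.UP


namespace A6

lemma un_sub {E : Type} [NormedAddCommGroup E] [NormedSpace ℝ E] (a b : E) (ha : a ≠ 0)
    (hb : b ≠ 0) : ‖un a - un b‖ ≤ 2 * ‖a - b‖ / ‖b‖ := by
  have ha' : 0 < ‖a‖ := norm_pos_iff.2 ha
  have hb' : 0 < ‖b‖ := norm_pos_iff.2 hb
  have h1 : un a - un b = ‖b‖⁻¹ • (a - b) + (‖a‖⁻¹ - ‖b‖⁻¹) • a := by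
    unfold un
    rw [smul_sub, sub_smul]
    abel
  have h2 : ‖(‖a‖⁻¹ - ‖b‖⁻¹) • a‖ ≤ ‖a - b‖ / ‖b‖ := by
    rw [norm_smul, Real.norm_eq_abs]
    have h3 : |‖a‖⁻¹ - ‖b‖⁻¹| * ‖a‖ = |‖b‖ - ‖a‖| / ‖b‖ := by
      have h4 : ‖a‖⁻¹ - ‖b‖⁻¹ = (‖b‖ - ‖a‖) / (‖a‖ * ‖b‖) := by
        field_simp
      rw [h4, abs_div, abs_of_pos (mul_pos ha' hb')]
      field_simp
    rw [h3]
    gcongr
    rw [norm_sub_rev]
    exact abs_norm_sub_norm_le b a
  have h5 : ‖‖b‖⁻¹ • (a - b)‖ = ‖a - b‖ / ‖b‖ := by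
    rw [norm_smul, norm_inv, norm_norm, div_eq_inv_mul]
  calc ‖un a - un b‖ ≤ ‖‖b‖⁻¹ • (a - b)‖ + ‖(‖a‖⁻¹ - ‖b‖⁻¹) • a‖ := by
        rw [h1]; exact norm_add_le _ _
    _ ≤ ‖a - b‖ / ‖b‖ + ‖a - b‖ / ‖b‖ := by rw [h5]; gcongr
    _ = 2 * ‖a - b‖ / ‖b‖ := by ring

lemma un_smul {E : Type} [NormedAddCommGroup E] [NormedSpace ℝ E] (a : E) (N : ℝ) (hN : 0 < N) :
    un (N • a) = un a := by
  unfold un
  rw [norm_smul, Real.norm_eq_abs, abs_of_pos hN, mul_inv, smul_smul]
  congr 1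
  field_simp

/-- the vectors -/
noncomputable def vec {n : ℕ} (y : Fin n → ℝ) : Option (Fin n) → Fin n → ℤ
  | none => fun j => ⌊y j⌋
  | some i => fun j => ⌊y j⌋ + (if j = i then (n : ℤ) else 0)

/-- the weights -/
noncomputable def wt {n : ℕ} (y : Fin n → ℝ) (N : ℝ) : Option (Fin n) → ℝ
  | none => (1 - (∑ i, Int.fract (y i)) / n) / N
  | some i => Int.fract (y i) / n / N

lemma rv_apply {n : ℕ} (k : Fin n → ℤ) (j : Fin n) : rv k j = (k j : ℝ) := rfl

lemma wt_nonneg {n : ℕ} (hn : 0 < n) (y : Fin n → ℝ) (N : ℝ) (hN : 0 < N)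
    (k : Option (Fin n)) : 0 ≤ wt y N k := by
  have hn' : (0 : ℝ) < n := by exact_mod_cast hn
  cases k with
  | none =>
    show 0 ≤ (1 - (∑ i, Int.fract (y i)) / n) / N
    refine div_nonneg ?_ hN.le
    rw [sub_nonneg, div_le_one hn']
    calc ∑ i, Int.fract (y i) ≤ ∑ _i : Fin n, (1 : ℝ) :=
          Finset.sum_le_sum (fun i _ => (Int.fract_lt_one _).le)
      _ = n := by simp
  | some i =>
    show 0 ≤ Int.fract (y i) / n / N
    exact div_nonneg (div_nonneg (Int.fract_nonneg _) hn'.le) hN.le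

lemma wt_sum {n : ℕ} (hn : 0 < n) (x : EuclideanSpace ℝ (Fin n)) (N : ℝ) (hN : 0 < N) :
    x = ∑ k, wt (fun j => N * x j) N k • rv (vec (fun j => N * x j) k) := by
  have hn' : (n : ℝ) ≠ 0 := by exact_mod_cast hn.ne'
  ext j
  rw [Fintype.sum_option]
  rw [PiLp.add_apply, PiLp.smul_apply, rv_apply, WithLp.ofLp_sum, Finset.sum_apply]
  simp only [PiLp.smul_apply, rv_apply, vec, wt, smul_eq_mul]
  have h1 : ∀ i : Fin n, Int.fract (N * x i) / n / N *
      ((⌊N * x j⌋ + (if j = i then (n : ℤ) else 0) : ℤ) : ℝ) =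
      Int.fract (N * x i) * (⌊N * x j⌋ / n / N) + (if j = i then Int.fract (N * x i) / N else 0) := by
    intro i
    push_cast
    split_ifs
    · field_simp
    · field_simp; ring
  simp only [h1]
  rw [Finset.sum_add_distrib, ← Finset.sum_mul, Finset.sum_ite_eq, if_pos (Finset.mem_univ _)]
  have h2 : Int.fract (N * x j) = N * x j - ⌊N * x j⌋ := rfl
  rw [h2]
  field_simp
  ring

lemma vec_bd {n : ℕ} (y : EuclideanSpace ℝ (Fin n)) (k : Option (Fin n)) :
    ‖rv (vec (fun j => y j) k) - y‖ ≤ Real.sqrt (n * (n + 1) ^ 2) := by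
  rw [EuclideanSpace.norm_eq]
  apply Real.sqrt_le_sqrt
  have h : ∀ j ∈ (Finset.univ : Finset (Fin n)),
      ‖(rv (vec (fun j => y j) k) - y) j‖ ^ 2 ≤ ((n : ℝ) + 1) ^ 2 := by
    intro j _
    have h0 : (rv (vec (fun j => y j) k) - y) j = (vec (fun j => y j) k j : ℝ) - y j := rfl
    rw [h0, Real.norm_eq_abs, sq_abs]
    have h1 := Int.floor_le (y j)
    have h2 := Int.lt_floor_add_one (y j)
    have hn : (0 : ℝ) ≤ n := Nat.cast_nonneg n
    rw [sq_le_sq, abs_of_nonneg (by positivity : (0 : ℝ) ≤ n + 1), abs_le]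
    cases k with
    | none =>
      have h3 : vec (fun j => y j) none j = ⌊y j⌋ := rfl
      rw [h3]
      constructor <;> linarith
    | some i =>
      have h3 : vec (fun j => y j) (some i) j = ⌊y j⌋ + (if j = i then (n : ℤ) else 0) := rfl
      rw [h3]
      split_ifs
      · push_cast; constructor <;> linarith
      · push_cast; constructor <;> linarith
  calc ∑ j, ‖(rv (vec (fun j => y j) k) - y) j‖ ^ 2 ≤ ∑ _j : Fin n, ((n : ℝ) + 1) ^ 2 :=
        Finset.sum_le_sum h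
    _ = n * (n + 1) ^ 2 := by simp

end A6

theorem I_A6 : StA6 := by
  intro n x hx η hη
  classical
  have hn : 0 < n := by
    rcases Nat.eq_zero_or_pos n with h | h
    · subst h
      exact absurd (Subsingleton.elim x 0) hx
    · exact h
  have hx' : 0 < ‖x‖ := norm_pos_iff.2 hx
  set C : ℝ := Real.sqrt (n * (n + 1) ^ 2) with hC
  have hC0 : 0 ≤ C := Real.sqrt_nonneg _
  set N : ℝ := (C + 1) * (1 + 2 / η) / ‖x‖ with hNdef
  have hN : 0 < N := by positivity
  have hNx : N * ‖x‖ = (C + 1) * (1 + 2 / η) := by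
    rw [hNdef]; field_simp
  have hη2 : 0 < 2 / η := by positivity
  have hCN : C < N * ‖x‖ := by
    rw [hNx]; nlinarith
  have hfin : 2 * C / (N * ‖x‖) ≤ η := by
    rw [div_le_iff₀ (by positivity), hNx]
    have h1 : η * ((C + 1) * (1 + 2 / η)) = (C + 1) * (η + 2) := by field_simp
    rw [h1]
    nlinarith
  have hbd : ∀ k, ‖rv (A6.vec (fun j => N * x j) k) - N • x‖ ≤ C := by
    intro k
    exact A6.vec_bd (N • x) k
  have hnorm : ‖N • x‖ = N * ‖x‖ := by
    rw [norm_smul, Real.norm_eq_abs, abs_of_pos hN]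
  have hNx0 : N • x ≠ 0 := smul_ne_zero hN.ne' hx
  have hne : ∀ k, A6.vec (fun j => N * x j) k ≠ 0 := by
    intro k hk
    have h1 := hbd k
    rw [hk] at h1
    have h2 : rv (0 : Fin n → ℤ) = 0 := by
      ext j
      rw [A6.rv_apply]
      simp
    rw [h2, zero_sub, norm_neg, hnorm] at h1
    linarith
  have hne' : ∀ k, rv (A6.vec (fun j => N * x j) k) ≠ 0 := by
    intro k hk
    have h1 := hbd k
    rw [hk, zero_sub, norm_neg, hnorm] at h1
    linarith
  refine ⟨{k : Option (Fin n) // 0 < A6.wt (fun j => N * x j) N k}, inferInstance,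
    fun k => A6.vec (fun j => N * x j) k.1, fun k => A6.wt (fun j => N * x j) N k.1,
    fun k => k.2, ?_, fun k => ⟨hne k.1, ?_⟩⟩
  · conv_lhs => rw [A6.wt_sum hn x N hN]
    rw [← Finset.sum_subtype (Finset.univ.filter
      (fun k : Option (Fin n) => 0 < A6.wt (fun j => N * x j) N k)) (by simp)
      (fun k => A6.wt (fun j => N * x j) N k • rv (A6.vec (fun j => N * x j) k))]
    symm
    apply Finset.sum_subset (Finset.subset_univ _)
    intro k _ hk
    have h1 : ¬ 0 < A6.wt (fun j => N * x j) N k := by simpa using hk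
    have h2 := A6.wt_nonneg hn (fun j => N * x j) N hN k
    have h3 : A6.wt (fun j => N * x j) N k = 0 := le_antisymm (not_lt.1 h1) h2
    rw [h3, zero_smul]
  · have h1 := A6.un_sub _ _ (hne' k.1) hNx0
    rw [A6.un_smul x N hN, hnorm] at h1
    refine h1.trans (le_trans ?_ hfin)
    have h2 := hbd k.1
    gcongr

end Pool.Agent.Work.MP_e9e200_al.UP

end

section

/-!
# Project UP, item C4: the Koszul condition at large levels
-/

set_option autoImplicit false

namespace Pool.Agent.Work.MP_e9e200_al.UP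

open Finsupp

namespace C4

section

variable {Q M D : Type} [CommGroup Q] [AddCommGroup M] [Module (MonoidAlgebra ℤ Q) M]
  {χ : D → Q → ℤ}

lemma NN_mono (χ : D → Q → ℤ) (T : Finset M) {E E' : D → ℤ} (h : ∀ i, E i ≤ E' i) :
    NN χ T E ≤ NN χ T E' := by
  refine AddSubgroup.closure_mono ?_
  rintro x ⟨q, t, ht, hq, rfl⟩
  exact ⟨q, t, ht, fun i => (neg_le_neg (h i)).trans (hq i), rfl⟩

/-- the action of `Q` on the subgroups `NN` -/
lemma NN_smul (hχ : ∀ i a b, χ i (a * b) = χ i a + χ i b) (T : Finset M) (E E' : D → ℤ) (q : Q)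
    (h : ∀ i, E i - χ i q ≤ E' i) {x : M} (hx : x ∈ NN χ T E) :
    MonoidAlgebra.of ℤ Q q • x ∈ NN χ T E' := by
  unfold NN at hx
  induction hx using AddSubgroup.closure_induction with
  | mem x hx =>
    obtain ⟨q', t, ht, hq, rfl⟩ := hx
    refine AddSubgroup.subset_closure ⟨q * q', t, ht, fun i => ?_, ?_⟩
    · rw [hχ]
      have h1 := hq i
      have h2 := h i
      omega
    · rw [map_mul, mul_smul]
  | zero => rw [smul_zero]; exact zero_mem _
  | add x y _ _ hx hy => rw [smul_add]; exact add_mem hx hy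
  | neg x _ hx => rw [smul_neg]; exact neg_mem hx

/-- the action commutes with the boundary -/
lemma del_smul (r : MonoidAlgebra ℤ Q) (c : List D →₀ M) : del M (r • c) = r • del M c := by
  have h : ∀ c : List D →₀ M, r • c =
      Finsupp.mapRange.addMonoidHom (DistribSMul.toAddMonoidHom M r) c := by
    intro c
    ext l
    simp
  rw [h c, del_mapRange, ← h]

variable [DecidableEq D]

lemma Ch_smul (hχ : ∀ i a b, χ i (a * b) = χ i a + χ i b) (T : Finset M) (I : Finset D) (k : ℕ)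
    (E E' : D → ℤ) (q : Q) (h : ∀ i, E i - χ i q ≤ E' i) {c : List D →₀ M}
    (hc : c ∈ Ch (fun J => NN χ T (E - ind J)) I k) :
    MonoidAlgebra.of ℤ Q q • c ∈ Ch (fun J => NN χ T (E' - ind J)) I k := by
  refine fun l => ⟨?_, fun h0 => (hc l).2 (fun h1 => h0 ?_)⟩
  · rw [Finsupp.smul_apply]
    refine NN_smul hχ T _ _ q (fun i => ?_) (hc l).1
    have h1 := h i
    simp only [Pi.sub_apply]
    omega
  · rw [Finsupp.smul_apply, h1, smul_zero]

lemma bot_zero {ι Z : Type} [DecidableEq ι] [AddCommGroup Z] {I : Finset ι} {k : ℕ}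
    {c : List ι →₀ Z} (hc : c ∈ Ch (fun _ => (⊥ : AddSubgroup Z)) I k) : c = 0 := by
  ext l
  exact AddSubgroup.mem_bot.1 (hc l).1

lemma ind_insert_le (i0 : D) (J : Finset D) (E E' : D → ℤ) (h : ∀ i, E i ≤ E' i)
    (h0 : E i0 + 1 ≤ E' i0) (i : D) : (E - ind J) i ≤ (E' - ind (insert i0 J)) i := by
  have h1 := h i
  simp only [Pi.sub_apply, ind, Finset.mem_insert]
  by_cases hi : i = i0
  · subst hi
    by_cases hJ : i ∈ J
    · simp only [hJ, or_true, if_true]
      linarith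
    · simp only [hJ, or_false, if_true, if_false]
      linarith
  · by_cases hJ : i ∈ J
    · simp only [hJ, or_true, if_true]
      linarith
    · simp only [hi, hJ, or_false, if_false]
      linarith

end

end C4

open C4 in
theorem I_C4 (h1 : StC1) (h3 : StC3) : StC4 := by
  intro Q _ _ M _ _ D _ _ χ hχ T e Sm Δ hΔ hgen hshift hmesh k F I hI
  have hIne : I.Nonempty := by
    rw [Finset.nonempty_iff_ne_empty]
    rintro rfl
    exact hI hΔ.1
  obtain ⟨n, E, z, hz, hcyc⟩ := h1 Q M D χ hχ T I k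
  have key : ∀ (τ : Finset D) (a : Fin n), ∃ s : ℤ, τ ∈ Sm → ∀ E'' : D → ℤ,
      (∀ i, E a i ≤ E'' i) → (∀ i ∉ τ, s ≤ E'' i) →
      ∃ w ∈ Ch (fun J => NN χ T (E'' - ind J)) I (k + 1), del M w = z a := by
    intro τ a
    by_cases hτ : τ ∈ Sm
    swap
    · exact ⟨0, fun h => absurd h hτ⟩
    by_cases hIτ : I ⊆ τ
    · obtain ⟨s0, hs0⟩ := h3 Q M D χ hχ T τ (hgen τ hτ I hIτ hI) (hshift τ hτ) I hIne k (E a)
        (z a) (hz a).1 (hz a).2
      exact ⟨s0, fun _ E'' h4 h5 => hs0 E'' (fun i _ => h4 i) h5⟩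
    · obtain ⟨i0, hi0, hi0τ⟩ := Finset.not_subset.1 hIτ
      refine ⟨E a i0 + 1, fun _ E'' h4 h5 => ⟨pre M i0 (z a), ?_, ?_⟩⟩
      · exact pre_mem (P := fun J => NN χ T (E a - ind J)) hi0
          (fun J => NN_mono χ T (ind_insert_le i0 J (E a) E'' h4 (h5 i0 hi0τ))) (hz a).1
      · rw [del_pre, (hz a).2, map_zero, sub_zero]
  choose s hs using key
  obtain ⟨t0, ht0⟩ := hmesh (∑ a, ∑ i, |F i - E a i|) (∑ τ, ∑ a, ∑ i, |s τ a - E a i|)
  have hC : ∀ a i, |F i - E a i| ≤ ∑ a, ∑ i, |F i - E a i| := by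
    intro a i
    refine le_trans ?_ (Finset.single_le_sum (f := fun a => ∑ i, |F i - E a i|)
      (fun a _ => Finset.sum_nonneg (fun i _ => abs_nonneg _)) (Finset.mem_univ a))
    exact Finset.single_le_sum (f := fun i => |F i - E a i|)
      (fun i _ => abs_nonneg _) (Finset.mem_univ i)
  have hS : ∀ τ a i, s τ a - E a i ≤ ∑ τ, ∑ a, ∑ i, |s τ a - E a i| := by
    intro τ a i
    refine le_trans ?_ (Finset.single_le_sum (f := fun τ => ∑ a, ∑ i, |s τ a - E a i|)
      (fun τ _ => Finset.sum_nonneg (fun a _ => Finset.sum_nonneg (fun i _ => abs_nonneg _)))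
      (Finset.mem_univ τ))
    refine le_trans ?_ (Finset.single_le_sum (f := fun a => ∑ i, |s τ a - E a i|)
      (fun a _ => Finset.sum_nonneg (fun i _ => abs_nonneg _)) (Finset.mem_univ a))
    refine le_trans (le_abs_self _) ?_
    exact Finset.single_le_sum (f := fun i => |s τ a - E a i|)
      (fun i _ => abs_nonneg _) (Finset.mem_univ i)
  refine ⟨t0, fun t ht c hc hdc => ?_⟩
  have hdc0 : del M c = 0 := bot_zero hdc
  suffices h : ∃ w ∈ Ch (fun J => NN χ T ((t : ℤ) • e + F - ind J)) I (k + 1), del M w = c by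
    obtain ⟨w, hw, hwc⟩ := h
    exact ⟨w, hw, by rw [hwc, sub_self]; exact zero_mem _⟩
  refine AddSubgroup.closure_induction (p := fun c _ => ∃ w ∈ Ch (fun J =>
    NN χ T ((t : ℤ) • e + F - ind J)) I (k + 1), del M w = c) ?_ ?_ ?_ ?_
    (hcyc ((t : ℤ) • e + F) c hc hdc0)
  · rintro c ⟨a, q, haq, rfl⟩
    have hnn : ∀ i, 0 ≤ (t : ℤ) * e i + χ i q + (F i - E a i) := by
      intro i
      have h4 := haq i
      simp only [Pi.add_apply, Pi.smul_apply, smul_eq_mul] at h4
      linarith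
    have hτ := ht0 t ht q (fun i => F i - E a i) (hC a) hnn
    obtain ⟨w, hw, hwz⟩ := hs _ a hτ (fun i => (t : ℤ) * e i + F i + χ i q)
      (fun i => by have h4 := hnn i; linarith)
      (fun i hi => by
        have h4 : ¬ ((t : ℤ) * e i + χ i q + (F i - E a i) <
            ∑ τ, ∑ a, ∑ i, |s τ a - E a i|) := by
          intro h5
          exact hi (Finset.mem_filter.2 ⟨Finset.mem_univ i, h5⟩)
        have h5 := hS (Finset.univ.filter fun i => (t : ℤ) * e i + χ i q + (F i - E a i) <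
            ∑ τ, ∑ a, ∑ i, |s τ a - E a i|) a i
        linarith [not_lt.1 h4])
    refine ⟨MonoidAlgebra.of ℤ Q q • w, ?_, by rw [del_smul, hwz]⟩
    refine Ch_smul hχ T I (k + 1) _ _ q (fun i => ?_) hw
    simp only [Pi.add_apply, Pi.smul_apply, smul_eq_mul]
    linarith
  · exact ⟨0, zero_mem _, map_zero _⟩
  · rintro a b _ _ ⟨w1, hw1, rfl⟩ ⟨w2, hw2, rfl⟩
    exact ⟨w1 + w2, add_mem hw1 hw2, map_add _ _ _⟩
  · rintro a _ ⟨w1, hw1, rfl⟩
    exact ⟨-w1, neg_mem hw1, map_neg _ _⟩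

end Pool.Agent.Work.MP_e9e200_al.UP

end

section

/-!
# Project UP, item D9: exactness of the Čech complex
-/

set_option autoImplicit false

namespace Pool.Agent.Work.MP_e9e200_al.UP

open Finsupp

namespace D9

/-- maps which respect the cosets -/
theorem kr_map {X X' : Type} [AddCommGroup X] [AddCommGroup X'] (φ : X → X')
    (N₁ : AddSubgroup X) (N₂ : AddSubgroup X') (h : ∀ x x', x - x' ∈ N₁ → φ x - φ x' ∈ N₂)
    (z : X →₀ ℤ) (hz : z ∈ Kr N₁) : Finsupp.mapDomain φ z ∈ Kr N₂ := by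
  rw [mem_Kr] at hz ⊢
  have h1 : (QuotientAddGroup.mk : X' → X' ⧸ N₂) ∘ φ =
      (fun y : X ⧸ N₁ => (QuotientAddGroup.mk (φ y.out) : X' ⧸ N₂)) ∘
        (QuotientAddGroup.mk : X → X ⧸ N₁) := by
    funext x
    show (QuotientAddGroup.mk (φ x) : X' ⧸ N₂) =
      QuotientAddGroup.mk (φ (QuotientAddGroup.mk x : X ⧸ N₁).out)
    rw [QuotientAddGroup.eq]
    have h2 : (QuotientAddGroup.mk (QuotientAddGroup.mk x : X ⧸ N₁).out : X ⧸ N₁) =
        QuotientAddGroup.mk x := Quotient.out_eq _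
    rw [QuotientAddGroup.eq] at h2
    have h3 : (QuotientAddGroup.mk x : X ⧸ N₁).out - x ∈ N₁ := by
      have h4 := neg_mem h2
      have h5 : -(-(QuotientAddGroup.mk x : X ⧸ N₁).out + x) =
          (QuotientAddGroup.mk x : X ⧸ N₁).out - x := by abel
      rw [h5] at h4
      exact h4
    have h6 := h _ _ h3
    have h7 : -φ x + φ (QuotientAddGroup.mk x : X ⧸ N₁).out =
        φ (QuotientAddGroup.mk x : X ⧸ N₁).out - φ x := by abel
    rw [h7]
    exact h6
  rw [← Finsupp.mapDomain_comp, h1, Finsupp.mapDomain_comp, hz, Finsupp.mapDomain_zero]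

/-! ### Unrestricted tuples -/

section tuples

variable {V : Type}

/-- deletion of an entry -/
def fa (s : ℕ) (a : Fin (s + 2)) (v : Fin (s + 2) → V) : Fin (s + 1) → V :=
  fun b => v (a.succAbove b)

/-- the differential -/
noncomputable def dD (V : Type) (s : ℕ) :
    ((Fin (s + 2) → V) →₀ ℤ) →+ ((Fin (s + 1) → V) →₀ ℤ) :=
  ∑ a : Fin (s + 2), (-1 : ℤ) ^ (a : ℕ) •
    (Finsupp.mapDomain.addMonoidHom (fa s a) :
      ((Fin (s + 2) → V) →₀ ℤ) →+ ((Fin (s + 1) → V) →₀ ℤ))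

theorem dD_single (s : ℕ) (v : Fin (s + 2) → V) (n : ℤ) :
    dD V s (single v n) = ∑ a : Fin (s + 2), (-1 : ℤ) ^ (a : ℕ) • single (fa s a v) n := by
  rw [dD, AddMonoidHom.finsetSum_apply]
  refine Finset.sum_congr rfl fun a _ => ?_
  show (-1 : ℤ) ^ (a : ℕ) • Finsupp.mapDomain (fa s a) (single v n) = _
  rw [Finsupp.mapDomain_single]

/-- the cone -/
noncomputable def cc (x : V) (s : ℕ) : ((Fin (s + 1) → V) →₀ ℤ) →+ ((Fin (s + 2) → V) →₀ ℤ) :=
  Finsupp.mapDomain.addMonoidHom (fun v => (Fin.cons x v : Fin (s + 2) → V))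

theorem cc_single (x : V) (s : ℕ) (v : Fin (s + 1) → V) (n : ℤ) :
    cc x s (single v n) = single (Fin.cons x v : Fin (s + 2) → V) n := by
  show Finsupp.mapDomain _ (single v n) = _
  rw [Finsupp.mapDomain_single]

theorem fa_zero (x : V) (s : ℕ) (v : Fin (s + 1) → V) :
    fa s 0 (Fin.cons x v : Fin (s + 2) → V) = v := by
  funext b
  show (Fin.cons x v : Fin (s + 2) → V) ((0 : Fin (s + 2)).succAbove b) = v b
  rw [Fin.zero_succAbove, Fin.cons_succ]

theorem fa_succ (x : V) (s : ℕ) (v : Fin (s + 2) → V) (b : Fin (s + 2)) :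
    fa (s + 1) b.succ (Fin.cons x v : Fin (s + 3) → V) =
      (Fin.cons x (fa s b v) : Fin (s + 2) → V) := by
  funext c
  show (Fin.cons x v : Fin (s + 3) → V) (b.succ.succAbove c) = _
  refine Fin.cases ?_ (fun c => ?_) c
  · rw [Fin.succ_succAbove_zero, Fin.cons_zero, Fin.cons_zero]
  · rw [Fin.succ_succAbove_succ, Fin.cons_succ, Fin.cons_succ]
    rfl

theorem dD_cc (x : V) (s : ℕ) (z : (Fin (s + 2) → V) →₀ ℤ) :
    dD V (s + 1) (cc x (s + 1) z) = z - cc x s (dD V s z) := by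
  induction z using Finsupp.induction_linear with
  | zero => simp
  | add f g hf hg => rw [map_add, map_add, hf, hg, map_add, map_add]; abel
  | single v n =>
    rw [cc_single, dD_single, Fin.sum_univ_succ, fa_zero, dD_single, map_sum, sub_eq_add_neg,
      ← Finset.sum_neg_distrib]
    congr 1
    · simp
    · refine Finset.sum_congr rfl fun b _ => ?_
      rw [fa_succ, map_zsmul, cc_single, Fin.val_succ, pow_succ, mul_neg_one, neg_smul]

theorem dD_cc0 (x : V) (z : (Fin 1 → V) →₀ ℤ) :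
    dD V 0 (cc x 0 z) = z - Finsupp.mapDomain (fun _ => fun _ => x) z := by
  induction z using Finsupp.induction_linear with
  | zero => simp
  | add f g hf hg => rw [map_add, map_add, hf, hg, Finsupp.mapDomain_add]; abel
  | single v n =>
    rw [cc_single, dD_single, Fin.sum_univ_succ, fa_zero, Finsupp.mapDomain_single,
      Fin.sum_univ_succ]
    have h1 : fa 0 (Fin.succ 0) (Fin.cons x v : Fin 2 → V) = fun _ => x := by
      funext b
      have hb : b = 0 := Fin.ext (by have := b.isLt; show (b : ℕ) = 0; omega)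
      subst hb
      show (Fin.cons x v : Fin 2 → V) ((Fin.succ 0).succAbove 0) = x
      rw [Fin.succ_succAbove_zero, Fin.cons_zero]
    rw [h1]
    simp [sub_eq_add_neg]

theorem dd_zero (s : ℕ) (z : (Fin (s + 3) → V) →₀ ℤ) : dD V s (dD V (s + 1) z) = 0 := by
  induction s with
  | zero =>
    induction z using Finsupp.induction_linear with
    | zero => simp
    | add f g hf hg => rw [map_add, map_add, hf, hg, add_zero]
    | single v n =>
      have h1 : single v n = cc (v 0) 1 (single (Fin.tail v) n) := by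
        rw [cc_single, Fin.cons_self_tail]
      rw [h1, dD_cc, map_sub, dD_cc0]
      have h2 : Finsupp.mapDomain (fun (_ : Fin 1 → V) => fun (_ : Fin 1) => v 0)
          (dD V 0 (single (Fin.tail v) n)) = 0 := by
        rw [dD_single, Fin.sum_univ_two]
        simp [Finsupp.mapDomain_add, Finsupp.mapDomain_single]
        rw [← Finsupp.single_neg, Finsupp.mapDomain_single, ← Finsupp.single_add]
        simp
      rw [h2]
      simp
  | succ s ih =>
    induction z using Finsupp.induction_linear with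
    | zero => simp
    | add f g hf hg => rw [map_add, map_add, hf, hg, add_zero]
    | single v n =>
      have h1 : single v n = cc (v 0) (s + 2) (single (Fin.tail v) n) := by
        rw [cc_single, Fin.cons_self_tail]
      rw [h1, dD_cc, map_sub, dD_cc, ih, map_zero, sub_zero, sub_self]

end tuples

/-! ### The Čech complex -/

section cech

variable {V M : Type} [AddCommGroup V] [AddCommGroup M] (π : V →+ M)

theorem cd_single (s : ℕ) (v : FP π (s + 1)) (n : ℤ) :
    cd π s (single v n) = ∑ a : Fin (s + 2), (-1 : ℤ) ^ (a : ℕ) • single (fc π s a v) n := by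
  rw [cd, AddMonoidHom.finsetSum_apply]
  refine Finset.sum_congr rfl fun a _ => ?_
  show (-1 : ℤ) ^ (a : ℕ) • Finsupp.mapDomain (fc π s a) (single v n) = _
  rw [Finsupp.mapDomain_single]

theorem ce_single (v : FP π 0) (n : ℤ) :
    ce π (single v n) = single (π ((v : Fin 1 → V) 0)) n := by
  show Finsupp.mapDomain _ (single v n) = _
  rw [Finsupp.mapDomain_single]

/-- forget the fibre condition -/
theorem val_cd (s : ℕ) (z : FP π (s + 1) →₀ ℤ) :
    Finsupp.mapDomain (fun v : FP π s => (v : Fin (s + 1) → V)) (cd π s z) =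
      dD V s (Finsupp.mapDomain (fun v : FP π (s + 1) => (v : Fin (s + 2) → V)) z) := by
  induction z using Finsupp.induction_linear with
  | zero => simp
  | add f g hf hg => rw [map_add, Finsupp.mapDomain_add, hf, hg, Finsupp.mapDomain_add, map_add]
  | single v n =>
    rw [cd_single, Finsupp.mapDomain_single, dD_single, Finsupp.mapDomain_finsetSum]
    refine Finset.sum_congr rfl fun a _ => ?_
    rw [Finsupp.mapDomain_smul, Finsupp.mapDomain_single]
    rfl

theorem cd_cd (s : ℕ) (z : FP π (s + 2) →₀ ℤ) : cd π s (cd π (s + 1) z) = 0 := by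
  have h1 : Function.Injective (fun v : FP π s => (v : Fin (s + 1) → V)) :=
    Subtype.val_injective
  apply Finsupp.mapDomain_injective h1
  rw [val_cd, val_cd, dd_zero, Finsupp.mapDomain_zero]

theorem ce_cd (z : FP π 1 →₀ ℤ) : ce π (cd π 0 z) = 0 := by
  induction z using Finsupp.induction_linear with
  | zero => simp
  | add f g hf hg => rw [map_add, map_add, hf, hg, add_zero]
  | single v n =>
    rw [cd_single, Fin.sum_univ_two, map_add, map_zsmul, map_zsmul, ce_single, ce_single]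
    have h1 : π ((fc π 0 0 v : Fin 1 → V) 0) = π ((fc π 0 1 v : Fin 1 → V) 0) := v.2 _ _
    rw [h1]
    simp

variable (sg : M → V) (hsg : ∀ x, π (sg x) = x)

/-- the cone on a tuple -/
def hc (s : ℕ) (v : FP π s) : FP π (s + 1) :=
  ⟨(Fin.cons (sg (π ((v : Fin (s + 1) → V) 0))) (v : Fin (s + 1) → V) : Fin (s + 2) → V), by
    have key : ∀ a, π ((Fin.cons (sg (π ((v : Fin (s + 1) → V) 0))) (v : Fin (s + 1) → V) :
        Fin (s + 2) → V) a) = π ((v : Fin (s + 1) → V) 0) := by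
      intro a
      refine Fin.cases ?_ (fun a => ?_) a
      · rw [Fin.cons_zero, hsg]
      · rw [Fin.cons_succ]
        exact v.2 _ _
    intro a b
    rw [key a, key b]⟩

theorem fc_hc0 (s : ℕ) (v : FP π s) : fc π s 0 (hc π sg hsg s v) = v :=
  Subtype.ext (fa_zero (sg (π ((v : Fin (s + 1) → V) 0))) s (v : Fin (s + 1) → V))

theorem fc_hcs (s : ℕ) (v : FP π (s + 1)) (b : Fin (s + 2)) :
    fc π (s + 1) b.succ (hc π sg hsg (s + 1) v) = hc π sg hsg s (fc π s b v) := by
  apply Subtype.ext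
  have h1 : π ((fc π s b v : Fin (s + 1) → V) 0) = π ((v : Fin (s + 2) → V) 0) := v.2 _ _
  show fa (s + 1) b.succ (Fin.cons (sg (π ((v : Fin (s + 2) → V) 0))) (v : Fin (s + 2) → V) :
    Fin (s + 3) → V) = (Fin.cons (sg (π ((fc π s b v : Fin (s + 1) → V) 0)))
      (fc π s b v : Fin (s + 1) → V) : Fin (s + 2) → V)
  rw [fa_succ, h1]
  rfl

theorem cd_hc (s : ℕ) (z : FP π (s + 1) →₀ ℤ) :
    cd π (s + 1) (Finsupp.mapDomain (hc π sg hsg (s + 1)) z) =
      z - Finsupp.mapDomain (hc π sg hsg s) (cd π s z) := by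
  induction z using Finsupp.induction_linear with
  | zero => simp
  | add f g hf hg =>
    rw [Finsupp.mapDomain_add, map_add, hf, hg, map_add, Finsupp.mapDomain_add]; abel
  | single v n =>
    rw [Finsupp.mapDomain_single, cd_single, Fin.sum_univ_succ, fc_hc0, cd_single,
      Finsupp.mapDomain_finsetSum, sub_eq_add_neg, ← Finset.sum_neg_distrib]
    congr 1
    · simp
    · refine Finset.sum_congr rfl fun b _ => ?_
      rw [fc_hcs, Finsupp.mapDomain_smul, Finsupp.mapDomain_single, Fin.val_succ, pow_succ,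
        mul_neg_one, neg_smul]

/-- the constant tuple -/
def hk (x : M) : FP π 0 := ⟨fun _ => sg x, fun _ _ => rfl⟩

theorem cd_hc0 (z : FP π 0 →₀ ℤ) :
    cd π 0 (Finsupp.mapDomain (hc π sg hsg 0) z) = z - Finsupp.mapDomain (hk π sg) (ce π z) := by
  induction z using Finsupp.induction_linear with
  | zero => simp
  | add f g hf hg =>
    rw [Finsupp.mapDomain_add, map_add, hf, hg, map_add, Finsupp.mapDomain_add]; abel
  | single v n =>
    rw [Finsupp.mapDomain_single, cd_single, Fin.sum_univ_succ, fc_hc0, ce_single,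
      Finsupp.mapDomain_single, Fin.sum_univ_succ]
    have h1 : fc π 0 (Fin.succ 0) (hc π sg hsg 0 v) = hk π sg (π ((v : Fin 1 → V) 0)) := by
      apply Subtype.ext
      funext b
      have hb : b = 0 := Fin.ext (by have := b.isLt; show (b : ℕ) = 0; omega)
      subst hb
      show (Fin.cons (sg (π ((v : Fin 1 → V) 0))) (v : Fin 1 → V) : Fin 2 → V)
        ((Fin.succ 0).succAbove 0) = sg (π ((v : Fin 1 → V) 0))
      rw [Fin.succ_succAbove_zero, Fin.cons_zero]
    rw [h1]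
    simp [sub_eq_add_neg]

end cech

/-- a section which respects the cosets -/
theorem sec {V M : Type} [AddCommGroup V] [AddCommGroup M] (π : V →+ M) (N : AddSubgroup V)
    (N' : AddSubgroup M) (hs : Function.Surjective π) (h : ∀ x ∈ N', ∃ v ∈ N, π v = x) :
    ∃ sg : M → V, (∀ x, π (sg x) = x) ∧ ∀ x x', x - x' ∈ N' → sg x - sg x' ∈ N := by
  classical
  choose s₀ hs₀ using hs
  choose! τ hτ hτ' using h
  have key : ∀ x : M, x - (QuotientAddGroup.mk x : M ⧸ N').out ∈ N' := by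
    intro x
    have h2 : (QuotientAddGroup.mk (QuotientAddGroup.mk x : M ⧸ N').out : M ⧸ N') =
        QuotientAddGroup.mk x := Quotient.out_eq _
    rw [QuotientAddGroup.eq] at h2
    have h3 : x - (QuotientAddGroup.mk x : M ⧸ N').out =
        -(QuotientAddGroup.mk x : M ⧸ N').out + x := by abel
    rw [h3]
    exact h2
  refine ⟨fun x => s₀ (QuotientAddGroup.mk x : M ⧸ N').out +
    τ (x - (QuotientAddGroup.mk x : M ⧸ N').out), fun x => ?_, fun x x' hx => ?_⟩
  · show π (s₀ (QuotientAddGroup.mk x : M ⧸ N').out +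
      τ (x - (QuotientAddGroup.mk x : M ⧸ N').out)) = x
    rw [map_add, hs₀, hτ' _ (key x)]
    abel
  · have h1 : (QuotientAddGroup.mk x : M ⧸ N') = QuotientAddGroup.mk x' := by
      rw [QuotientAddGroup.eq]
      have h3 : -x + x' = -(x - x') := by abel
      rw [h3]
      exact neg_mem hx
    have h2 := hτ _ (key x)
    have h3 := hτ _ (key x')
    show s₀ (QuotientAddGroup.mk x : M ⧸ N').out +
      τ (x - (QuotientAddGroup.mk x : M ⧸ N').out) -
      (s₀ (QuotientAddGroup.mk x' : M ⧸ N').out +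
      τ (x' - (QuotientAddGroup.mk x' : M ⧸ N').out)) ∈ N
    rw [← h1] at h3 ⊢
    rw [add_sub_add_left_eq_sub]
    exact sub_mem h2 h3

end D9

open D9 in
theorem I_D9 : StD9 := by
  intro V M _ _ π N N' hsur hN hN'
  obtain ⟨sg, hsg, hsgN⟩ := sec π N N' hsur hN'
  have hc_kr : ∀ s (z : FP π s →₀ ℤ), z ∈ Kr (FJ π s N) →
      Finsupp.mapDomain (hc π sg hsg s) z ∈ Kr (FJ π (s + 1) N) := by
    intro s z hz
    refine kr_map _ _ _ (fun v v' hv => ?_) z hz
    intro a
    refine Fin.cases ?_ (fun a => ?_) a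
    · show sg (π ((v : Fin (s + 1) → V) 0)) - sg (π ((v' : Fin (s + 1) → V) 0)) ∈ N
      refine hsgN _ _ ?_
      rw [← map_sub]
      exact hN _ (hv 0)
    · exact hv a
  refine ⟨fun s z hz => ?_, fun z hz => ?_, fun s z => cd_cd π s z, fun z => ce_cd π z, ?_,
    fun z hz => ?_, fun s z hz => ?_⟩
  · rw [cd, AddMonoidHom.finsetSum_apply]
    refine sum_mem fun a _ => ?_
    refine zsmul_mem ?_ _
    refine kr_map (fc π s a) _ _ (fun v v' hv => ?_) z hz
    intro b
    exact hv _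
  · refine kr_map _ _ _ (fun v v' hv => ?_) z hz
    rw [← map_sub]
    exact hN _ (hv 0)
  · intro y
    refine ⟨Finsupp.mapDomain (hk π sg) y, ?_⟩
    show Finsupp.mapDomain _ (Finsupp.mapDomain (hk π sg) y) = y
    rw [← Finsupp.mapDomain_comp]
    have h1 : (fun v : FP π 0 => π ((v : Fin 1 → V) 0)) ∘ hk π sg = id := by
      funext x
      exact hsg x
    rw [h1, Finsupp.mapDomain_id]
  · refine ⟨Finsupp.mapDomain (hc π sg hsg 0) z, ?_⟩
    rw [cd_hc0, sub_sub_cancel]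
    refine kr_map _ _ _ (fun x x' hx => ?_) _ hz
    intro a
    exact hsgN _ _ hx
  · refine ⟨Finsupp.mapDomain (hc π sg hsg (s + 1)) z, ?_⟩
    rw [cd_hc, sub_sub_cancel]
    exact hc_kr s _ hz

end Pool.Agent.Work.MP_e9e200_al.UP

end

section

/-!
# Project UP, item E1: decomposition into cosets
-/

set_option autoImplicit false

namespace Pool.Agent.Work.MP_e9e200_al.UP

open Finsupp

namespace E1

section

variable {G : Type} [Group G] {S : Submonoid G} {N0 : Subgroup G} (hN0 : ∀ n ∈ N0, n ∈ S)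
  {M : Type} [AddCommGroup M] (φ : N0 ≃ M)

/-- the cosets which meet `S` -/
abbrev K (S : Submonoid G) (N0 : Subgroup G) : Type :=
  {κ : G ⧸ N0 // ∃ s : S, ((s : G) : G ⧸ N0) = κ}

/-- a representative -/
noncomputable def r (κ : K S N0) : S := Classical.choose κ.2

lemma r_spec (κ : K S N0) : ((r κ : G) : G ⧸ N0) = κ.1 := Classical.choose_spec κ.2

/-- the parametrization of the coset -/
noncomputable def jj (κ : K S N0) (v : M) : S :=
  ⟨(r κ : G) * (φ.symm v : G), mul_mem (r κ).2 (hN0 _ (φ.symm v).2)⟩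

lemma jj_coe (κ : K S N0) (v : M) :
    ((jj hN0 φ κ v : S) : G) = (r κ : G) * (φ.symm v : G) := rfl

lemma jj_inj (κ : K S N0) : Function.Injective (jj hN0 φ κ) := by
  intro v v' h
  have h1 : ((jj hN0 φ κ v : S) : G) = (jj hN0 φ κ v' : S) := by rw [h]
  rw [jj_coe, jj_coe] at h1
  have h2 := mul_left_cancel h1
  exact φ.symm.injective (Subtype.ext h2)

lemma jj_coset (κ : K S N0) (v : M) : (((jj hN0 φ κ v : S) : G) : G ⧸ N0) = κ.1 := by
  rw [← r_spec κ, jj_coe]
  exact QuotientGroup.mk_mul_of_mem _ (φ.symm v).2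

lemma jj_surj (κ : K S N0) (s : S) (h : ((s : G) : G ⧸ N0) = κ.1) :
    ∃ v, jj hN0 φ κ v = s := by
  rw [← r_spec κ] at h
  have h1 : (r κ : G)⁻¹ * s ∈ N0 := QuotientGroup.eq.1 h.symm
  refine ⟨φ ⟨(r κ : G)⁻¹ * s, h1⟩, ?_⟩
  apply Subtype.ext
  rw [jj_coe, Equiv.symm_apply_apply]
  simp

/-- the projection -/
noncomputable def pp (κ : K S N0) : MonoidAlgebra ℤ S →+ (M →₀ ℤ) :=
  (Finsupp.comapDomain.addMonoidHom (jj_inj hN0 φ κ)).comp
    (MonoidAlgebra.coeffAddEquiv).toAddMonoidHom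

/-- the inclusion -/
noncomputable def qq (κ : K S N0) : (M →₀ ℤ) →+ MonoidAlgebra ℤ S :=
  (MonoidAlgebra.coeffAddEquiv).symm.toAddMonoidHom.comp
    (Finsupp.mapDomain.addMonoidHom (jj hN0 φ κ))

lemma pp_apply (κ : K S N0) (x : MonoidAlgebra ℤ S) (v : M) :
    pp hN0 φ κ x v = x.coeff (jj hN0 φ κ v) := rfl

lemma qq_coeff (κ : K S N0) (y : M →₀ ℤ) :
    (qq hN0 φ κ y).coeff = Finsupp.mapDomain (jj hN0 φ κ) y := rfl

lemma pq (κ : K S N0) (y : M →₀ ℤ) : pp hN0 φ κ (qq hN0 φ κ y) = y := by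
  ext v
  rw [pp_apply, qq_coeff, Finsupp.mapDomain_apply (jj_inj hN0 φ κ)]

lemma pq_ne (κ κ' : K S N0) (y : M →₀ ℤ) (h : κ ≠ κ') : pp hN0 φ κ (qq hN0 φ κ' y) = 0 := by
  ext v
  rw [pp_apply, qq_coeff, Finsupp.mapDomain_of_notMem_range, Finsupp.zero_apply]
  rintro ⟨v', hv'⟩
  apply h
  apply Subtype.ext
  rw [← jj_coset hN0 φ κ v, ← hv', jj_coset]

lemma pp_fin (x : MonoidAlgebra ℤ S) :
    ∃ s : Finset (K S N0), ∀ κ, κ ∉ s → pp hN0 φ κ x = 0 := by
  classical
  refine ⟨x.coeff.support.image (fun s : S => (⟨((s : G) : G ⧸ N0), s, rfl⟩ : K S N0)), fun κ hκ => ?_⟩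
  ext v
  rw [pp_apply, Finsupp.zero_apply]
  by_contra hne
  apply hκ
  rw [Finset.mem_image]
  exact ⟨jj hN0 φ κ v, Finsupp.mem_support_iff.2 hne, Subtype.ext (jj_coset hN0 φ κ v)⟩

variable (hφ : ∀ a b, φ (a * b) = φ a + φ b) {Ns : Subgroup G} {Ms : AddSubgroup M}
  (hNM : ∀ g, g ∈ Ns ↔ ∃ h : g ∈ N0, φ ⟨g, h⟩ ∈ Ms)

include hφ hNM

lemma jj_rel (κ : K S N0) (v v' : M) :
    (((jj hN0 φ κ v : S) : G) : G ⧸ Ns) = ((jj hN0 φ κ v' : S) : G) ↔
      (QuotientAddGroup.mk v : M ⧸ Ms) = QuotientAddGroup.mk v' := by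
  have hφ1 : φ 1 = 0 := by
    have := hφ 1 1
    rw [mul_one] at this
    simpa using this
  have hφi : ∀ a, φ a⁻¹ = - φ a := by
    intro a
    have h1 := hφ a⁻¹ a
    rw [inv_mul_cancel, hφ1] at h1
    exact eq_neg_of_add_eq_zero_left h1.symm
  rw [QuotientGroup.eq, QuotientAddGroup.eq, jj_coe, jj_coe, hNM]
  have h1 : ((r κ : G) * (φ.symm v : G))⁻¹ * ((r κ : G) * (φ.symm v' : G)) =
      (((φ.symm v)⁻¹ * φ.symm v' : N0) : G) := by
    simp [mul_assoc]
  rw [h1]
  have h2 : φ ((φ.symm v)⁻¹ * φ.symm v') = -v + v' := by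
    rw [hφ, hφi]; simp
  constructor
  · rintro ⟨h, hm⟩
    rw [← h2]; exact hm
  · intro hm
    refine ⟨((φ.symm v)⁻¹ * φ.symm v').2, ?_⟩
    have h3 : (⟨(((φ.symm v)⁻¹ * φ.symm v' : N0) : G), ((φ.symm v)⁻¹ * φ.symm v').2⟩ : N0) =
      (φ.symm v)⁻¹ * φ.symm v' := rfl
    rw [h3, h2]; exact hm

lemma key (κ : K S N0) (v0 : M) (x : S →₀ ℤ) :
    Finsupp.mapDomain (QuotientAddGroup.mk : M → M ⧸ Ms)
      (Finsupp.comapDomain.addMonoidHom (jj_inj hN0 φ κ) x) (QuotientAddGroup.mk v0) =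
    Finsupp.mapDomain (fun s : S => ((s : G) : G ⧸ Ns)) x ((jj hN0 φ κ v0 : S) : G) := by
  classical
  induction x using Finsupp.induction_linear with
  | zero => simp
  | add f g hf hg =>
    rw [map_add, Finsupp.mapDomain_add, Finsupp.mapDomain_add, Finsupp.add_apply,
      Finsupp.add_apply, hf, hg]
  | single s n =>
    rw [Finsupp.mapDomain_single]
    by_cases h : ∃ v, jj hN0 φ κ v = s
    · obtain ⟨v, rfl⟩ := h
      have h1 : Finsupp.comapDomain.addMonoidHom (jj_inj hN0 φ κ) (single (jj hN0 φ κ v) n) =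
          single v n := by
        ext v'
        show (single (jj hN0 φ κ v) n : S →₀ ℤ) (jj hN0 φ κ v') = _
        rw [Finsupp.single_apply, Finsupp.single_apply]
        simp only [(jj_inj hN0 φ κ).eq_iff]
      rw [h1, Finsupp.mapDomain_single, Finsupp.single_apply, Finsupp.single_apply]
      simp only [jj_rel hN0 φ hφ hNM κ v v0]
    · have h1 : Finsupp.comapDomain.addMonoidHom (jj_inj hN0 φ κ) (single s n : S →₀ ℤ) = 0 := by
        ext v'
        show (single s n : S →₀ ℤ) (jj hN0 φ κ v') = _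
        rw [Finsupp.single_apply, if_neg (fun h' => h ⟨v', h'.symm⟩), Finsupp.zero_apply]
      rw [h1, Finsupp.mapDomain_zero, Finsupp.zero_apply, Finsupp.single_apply, if_neg]
      intro h2
      apply h
      apply jj_surj hN0 φ κ s
      rw [← jj_coset hN0 φ κ v0]
      rw [QuotientGroup.eq] at h2 ⊢
      exact ((hNM _).1 h2).1

lemma iff_zero (x : MonoidAlgebra ℤ S) :
    Finsupp.mapDomain (fun s : S => ((s : G) : G ⧸ Ns)) x.coeff = 0 ↔
      ∀ κ : K S N0, pp hN0 φ κ x ∈ Kr Ms := by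
  constructor
  · intro h κ
    rw [mem_Kr]
    ext b
    obtain ⟨v0, rfl⟩ := QuotientAddGroup.mk_surjective b
    have := key hN0 φ hφ hNM κ v0 x.coeff
    rw [h] at this
    exact this
  · intro h
    ext b
    by_cases hb : b ∈ Set.range (fun s : S => ((s : G) : G ⧸ Ns))
    · obtain ⟨s, rfl⟩ := hb
      obtain ⟨v0, hv0⟩ := jj_surj hN0 φ (⟨((s : G) : G ⧸ N0), s, rfl⟩ : K S N0) s rfl
      have := key hN0 φ hφ hNM (⟨((s : G) : G ⧸ N0), s, rfl⟩ : K S N0) v0 x.coeff
      rw [hv0] at this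
      rw [← this]
      have h1 := h (⟨((s : G) : G ⧸ N0), s, rfl⟩ : K S N0)
      rw [mem_Kr] at h1
      exact DFunLike.congr_fun h1 _
    · rw [Finsupp.mapDomain_of_notMem_range _ _ hb, Finsupp.zero_apply]

end

end E1

theorem I_E1 (h3 : StD3) (hk : StKS1) : StE1 := by
  intro G _ S N0 hN0 M _ φ hφ hbij ι _ Ms Ns hNM I j hEx
  let φe : N0 ≃ M := Equiv.ofBijective φ hbij
  refine h3 ι (MonoidAlgebra ℤ S) (E1.K S N0) (M →₀ ℤ) (E1.pp hN0 φe) (E1.qq hN0 φe) _
    (fun _ J => Kr (Ms J)) ?_ (E1.pq hN0 φe) (fun κ κ' y h => E1.pq_ne hN0 φe κ κ' y h)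
    (E1.pp_fin hN0 φe) I j (fun _ => hEx)
  intro J z
  have h1 : ∀ n ∈ Ns J, n ∈ S := fun n hn => hN0 n ((hNM J n).1 hn).1
  rw [Submodule.mem_toAddSubgroup, hk G S (Ns J) h1 z]
  exact E1.iff_zero hN0 φe hφ (hNM J) z

end Pool.Agent.Work.MP_e9e200_al.UP

end

section

/-!
# Project UP: the operators `r` and `h` on germs
-/

set_option autoImplicit false

namespace Pool.Agent.Work.MP_e9e200_al.UP

open Finsupp

namespace E5

variable {G : Type} [Group G] {D : Type} {L : Lev G D}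

lemma of_sec (q : L.QS) : Abelianization.of ((L.sec q : L.S) : G) = (q : Abelianization G) :=
  Quotient.out_eq (q : Abelianization G)

/-- the lift as an additive map -/
noncomputable def lifH (L : Lev G D) : MonoidAlgebra ℤ L.QS →+ MonoidAlgebra ℤ L.S where
  toFun := L.lif
  map_zero' := by
    show MonoidAlgebra.ofCoeff (Finsupp.mapDomain L.sec (0 : MonoidAlgebra ℤ L.QS).coeff) = 0
    rw [MonoidAlgebra.coeff_zero, Finsupp.mapDomain_zero, MonoidAlgebra.ofCoeff_zero]
  map_add' := fun x y => by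
    show MonoidAlgebra.ofCoeff (Finsupp.mapDomain L.sec (x + y).coeff) = _
    rw [MonoidAlgebra.coeff_add, Finsupp.mapDomain_add, MonoidAlgebra.ofCoeff_add]
    rfl

lemma lifH_apply (x : MonoidAlgebra ℤ L.QS) : lifH L x = L.lif x := rfl

lemma lif_single (q : L.QS) (n : ℤ) :
    L.lif (MonoidAlgebra.single q n) = MonoidAlgebra.single (L.sec q) n := by
  show MonoidAlgebra.ofCoeff (Finsupp.mapDomain L.sec (MonoidAlgebra.single q n).coeff) = _
  rw [MonoidAlgebra.coeff_single, Finsupp.mapDomain_single, MonoidAlgebra.ofCoeff_single]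

lemma lif_sum (x : MonoidAlgebra ℤ L.QS) :
    L.lif x = ∑ q ∈ x.coeff.support, x.coeff q • MonoidAlgebra.of ℤ L.S (L.sec q) := by
  conv_lhs => rw [← MonoidAlgebra.sum_coeff_single x]
  rw [← lifH_apply, Finsupp.sum, map_sum]
  refine Finset.sum_congr rfl fun q _ => ?_
  rw [lifH_apply, lif_single, MonoidAlgebra.of_apply, MonoidAlgebra.smul_single]
  simp

lemma prj_single (s : L.S) (n : ℤ) (q : L.QS)
    (h : Abelianization.of (s : G) = (q : Abelianization G)) :
    L.prj (MonoidAlgebra.single s n) = MonoidAlgebra.single q n := by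
  show MonoidAlgebra.mapDomain _ (MonoidAlgebra.single s n) = _
  rw [MonoidAlgebra.mapDomain_single]
  congr 1
  exact Subtype.ext h

lemma prj_lif (x : MonoidAlgebra ℤ L.QS) : L.prj (L.lif x) = x := by
  rw [← lifH_apply]
  induction x using MonoidAlgebra.induction_linear with
  | zero => rw [map_zero, map_zero]
  | add f g hf hg => rw [map_add, map_add, hf, hg]
  | single q n =>
    rw [lifH_apply, lif_single]
    exact prj_single _ _ _ (of_sec q)

lemma prj_of_sec (q : L.QS) :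
    L.prj (MonoidAlgebra.of ℤ L.S (L.sec q)) = MonoidAlgebra.of ℤ L.QS q := by
  rw [MonoidAlgebra.of_apply, MonoidAlgebra.of_apply]
  exact prj_single _ _ _ (of_sec q)

lemma mem_S (hL : L.Good) {E : D → ℤ} {n : G} (hn : n ∈ L.N E) : n ∈ L.S := by
  have h1 : n ∈ commutator G := hL.N_le E hn
  have h2 : Abelianization.of n = 1 := by
    rw [← Abelianization.ker_of] at h1
    exact h1
  show Abelianization.of n ∈ L.QS
  rw [h2]
  exact L.QS.one_mem

/-- multiplication by a section -/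
lemma mul_sec (h2 : StKS2) (hL : L.Good) {E E' : D → ℤ} (q : L.QS)
    (hE : ∀ i, E i + L.χ i q ≤ E' i) {x : MonoidAlgebra ℤ L.S} (hx : x ∈ KS L.S (L.N E)) :
    x * MonoidAlgebra.of ℤ L.S (L.sec q) ∈ KS L.S (L.N E') := by
  refine h2 G L.S (L.N E) (L.N E') (L.sec q) ?_ (fun n hn => mem_S hL hn) x hx
  intro n hn
  have h3 := hL.N_conj E ((L.sec q : L.S) : G)⁻¹ n hn
  rw [inv_inv] at h3
  refine hL.N_mono _ _ ?_ h3
  intro i
  have h4 : L.ch ((L.sec q : L.S) : G)⁻¹ i = - L.χ i q := by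
    show L.χ i (Abelianization.of ((L.sec q : L.S) : G)⁻¹) = _
    rw [map_inv, of_sec]
    have h5 := hL.χ_mul i (q : Abelianization G) (q : Abelianization G)⁻¹
    have h6 := hL.χ_mul i 1 1
    rw [mul_one] at h6
    rw [mul_inv_cancel] at h5
    linarith
  rw [Pi.sub_apply, h4]
  have := hE i
  linarith

/-- elements with trivial projection -/
lemma triv_mem (h3 : StKS3) (hL : L.Good) {n : ℕ → ℕ} (δ : ∀ j, Fin (n j) → D → ℤ) (p : ℕ)
    (F : D → ℤ) {a : ℕ} (u : Fin a → Fin (n p) → MonoidAlgebra ℤ L.S)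
    (hu : ∀ i j, L.prj (u i j) = 0) (z : Fin a → ℕ → MonoidAlgebra ℤ L.S) :
    (fun j t => ∑ i, z i t * u i j : L.Zg n p) ∈ L.Rg δ p F := by
  intro b
  have h : ∀ i, ∃ t0 : ℕ, ∀ t : ℕ, t0 ≤ t → ∀ w : MonoidAlgebra ℤ L.S,
      w * u i b ∈ KS L.S (L.N ((t : ℤ) • L.e + (F - δ p b))) := fun i =>
    h3 G D L hL (u i b) (hu i b) (F - δ p b)
  choose t0 ht0 using h
  refine ⟨Finset.univ.sup t0, fun t ht => ?_⟩
  refine Submodule.sum_mem _ fun i _ => ?_
  have := ht0 i t (le_trans (Finset.le_sup (Finset.mem_univ i)) ht) (z i t)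
  rw [← add_sub_assoc] at this
  exact this

/-- the operator `r` -/
noncomputable def rr (L : Lev G D) (n : ℕ → ℕ) (s : MonoidAlgebra ℤ L.S) (p : ℕ) :
    L.Zg n p →+ L.Zg n p where
  toFun := fun z b t => z b t * s
  map_zero' := by
    funext b t
    simp
  map_add' := fun x y => by
    funext b t
    simp only [Pi.add_apply, add_mul]

/-- the operator `h` -/
noncomputable def hh (L : Lev G D) (n : ℕ → ℕ)
    (K : ∀ j, Fin (n j) → Fin (n (j + 1)) → MonoidAlgebra ℤ L.QS) (p : ℕ) :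
    L.Zg n p →+ L.Zg n (p + 1) where
  toFun := fun z b' t => ∑ b, z b t * L.lif (K p b b')
  map_zero' := by
    funext b t
    simp
  map_add' := fun x y => by
    funext b t
    simp only [Pi.add_apply, add_mul, Finset.sum_add_distrib]

/-- the main construction -/
lemma main (h2 : StKS2) (h3 : StKS3) (hL : L.Good) (n : ℕ → ℕ)
    (δ : ∀ j, Fin (n j) → D → ℤ) (M : ∀ j, Fin (n (j + 1)) → Fin (n j) → MonoidAlgebra ℤ L.QS)
    (H : D → ℤ) (g : L.QS) (hg : ∀ i, L.χ i g ≤ H i - L.e i)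
    (K : ∀ j, Fin (n j) → Fin (n (j + 1)) → MonoidAlgebra ℤ L.QS)
    (hK : FHom (fun i (q : L.QS) => L.χ i q) n δ M g H K) :
    Nul (L.dg M) (L.Rg δ) L.e H (rr L n (MonoidAlgebra.of ℤ L.S (L.sec g))) (hh L n K) := by
  classical
  set sg := MonoidAlgebra.of ℤ L.S (L.sec g) with hsg
  have hprj : L.prj sg = MonoidAlgebra.of ℤ L.QS g := prj_of_sec g
  refine ⟨?_, ?_, ?_, ?_, ?_⟩
  · intro p F z hz b
    obtain ⟨t0, ht0⟩ := hz b
    refine ⟨t0, fun t ht => ?_⟩
    refine mul_sec h2 hL g (fun i => ?_) (ht0 t ht)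
    simp only [Pi.add_apply, Pi.sub_apply, Pi.smul_apply]
    have := hg i
    linarith
  · intro p F z hz b'
    choose t0 ht0 using hz
    refine ⟨Finset.univ.sup t0, fun t ht => ?_⟩
    show ∑ b, z b t * L.lif (K p b b') ∈ _
    refine Submodule.sum_mem _ fun b _ => ?_
    rw [lif_sum, Finset.mul_sum]
    refine Submodule.sum_mem _ fun q hq => ?_
    rw [mul_smul_comm]
    have hmem : z b t * MonoidAlgebra.of ℤ L.S (L.sec q) ∈
        KS L.S (L.N ((t : ℤ) • L.e + (F + H) - δ (p + 1) b')) := by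
      refine mul_sec h2 hL q (fun i => ?_)
        (ht0 b t (le_trans (Finset.le_sup (Finset.mem_univ b)) ht))
      have h5 := hK.wt p b b' q (Finsupp.mem_support_iff.1 hq) i
      simp only [Pi.add_apply, Pi.sub_apply, Pi.smul_apply] at h5 ⊢
      linarith
    exact zsmul_mem hmem _
  · intro p F z
    have h := triv_mem h3 hL δ p F
      (fun a b => L.lif (M p a b) * sg - sg * L.lif (M p a b))
      (fun a b => by
        rw [map_sub, map_mul, map_mul, prj_lif, hprj, mul_comm, sub_self]) z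
    convert h using 1
    funext b t
    show (∑ a, z a t * L.lif (M p a b)) * sg - ∑ a, (z a t * sg) * L.lif (M p a b) = _
    rw [Finset.sum_mul, ← Finset.sum_sub_distrib]
    refine Finset.sum_congr rfl fun a _ => ?_
    rw [mul_sub, mul_assoc, mul_assoc]
  · intro F z
    have h := triv_mem h3 hL δ 0 F
      (fun a b => (if a = b then 1 - sg else 0) - ∑ c, L.lif (K 0 a c) * L.lif (M 0 c b))
      (fun a b => by
        have h5 := congrFun (hK.h0 (Pi.single a 1)) b
        have h6 : mu (M 0) (mu (K 0) (Pi.single a 1)) b = ∑ c, K 0 a c * M 0 c b := by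
          show ∑ c, (∑ i, (Pi.single a 1 : Fin (n 0) → MonoidAlgebra ℤ L.QS) i * K 0 i c) *
            M 0 c b = _
          refine Finset.sum_congr rfl fun c _ => ?_
          rw [Finset.sum_eq_single a]
          · rw [Pi.single_eq_same, one_mul]
          · intro i _ hi
            rw [Pi.single_eq_of_ne hi, zero_mul]
          · intro h
            exact absurd (Finset.mem_univ a) h
        rw [h6] at h5
        rw [map_sub, map_sum]
        simp only [map_mul, prj_lif]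
        rw [← h5]
        by_cases hab : a = b
        · subst hab
          rw [if_pos rfl, map_sub, map_one, hprj]
          simp
        · rw [if_neg hab, map_zero]
          simp [Pi.single_eq_of_ne (Ne.symm hab)]) z
    convert h using 1
    funext b t
    show z b t - z b t * sg - ∑ c, (∑ a, z a t * L.lif (K 0 a c)) * L.lif (M 0 c b) =
      ∑ a, z a t * ((if a = b then 1 - sg else 0) - ∑ c, L.lif (K 0 a c) * L.lif (M 0 c b))
    simp only [mul_sub, Finset.sum_sub_distrib]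
    congr 1
    · rw [Finset.sum_eq_single b]
      · rw [if_pos rfl, mul_sub, mul_one]
      · intro a _ ha
        rw [if_neg ha, mul_zero]
      · intro h
        exact absurd (Finset.mem_univ b) h
    · simp only [Finset.sum_mul, Finset.mul_sum]
      rw [Finset.sum_comm]
      simp only [mul_assoc]
  · intro p F z
    have h := triv_mem h3 hL δ (p + 1) F
      (fun a b => (if a = b then 1 - sg else 0) -
        ∑ c, L.lif (K (p + 1) a c) * L.lif (M (p + 1) c b) -
        ∑ c, L.lif (M p a c) * L.lif (K p c b))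
      (fun a b => by
        have h5 := congrFun (hK.hs p (Pi.single a 1)) b
        have h6 : mu (M (p + 1)) (mu (K (p + 1)) (Pi.single a 1)) b =
            ∑ c, K (p + 1) a c * M (p + 1) c b := by
          show ∑ c, (∑ i, (Pi.single a 1 : Fin (n (p + 1)) → MonoidAlgebra ℤ L.QS) i *
            K (p + 1) i c) * M (p + 1) c b = _
          refine Finset.sum_congr rfl fun c _ => ?_
          rw [Finset.sum_eq_single a]
          · rw [Pi.single_eq_same, one_mul]
          · intro i _ hi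
            rw [Pi.single_eq_of_ne hi, zero_mul]
          · intro h
            exact absurd (Finset.mem_univ a) h
        have h7 : mu (K p) (mu (M p) (Pi.single a 1)) b = ∑ c, M p a c * K p c b := by
          show ∑ c, (∑ i, (Pi.single a 1 : Fin (n (p + 1)) → MonoidAlgebra ℤ L.QS) i *
            M p i c) * K p c b = _
          refine Finset.sum_congr rfl fun c _ => ?_
          rw [Finset.sum_eq_single a]
          · rw [Pi.single_eq_same, one_mul]
          · intro i _ hi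
            rw [Pi.single_eq_of_ne hi, zero_mul]
          · intro h
            exact absurd (Finset.mem_univ a) h
        rw [Pi.add_apply, h6, h7] at h5
        rw [map_sub, map_sub, map_sum, map_sum]
        simp only [map_mul, prj_lif]
        rw [sub_sub, ← h5]
        by_cases hab : a = b
        · subst hab
          rw [if_pos rfl, map_sub, map_one, hprj]
          simp
        · rw [if_neg hab, map_zero]
          simp [Pi.single_eq_of_ne (Ne.symm hab)]) z
    convert h using 1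
    funext b t
    show z b t - z b t * sg -
      ∑ c, (∑ a, z a t * L.lif (K (p + 1) a c)) * L.lif (M (p + 1) c b) -
      ∑ c, (∑ a, z a t * L.lif (M p a c)) * L.lif (K p c b) =
      ∑ a, z a t * ((if a = b then 1 - sg else 0) -
        ∑ c, L.lif (K (p + 1) a c) * L.lif (M (p + 1) c b) -
        ∑ c, L.lif (M p a c) * L.lif (K p c b))
    simp only [mul_sub, Finset.sum_sub_distrib]
    congr 1
    · congr 1
      · rw [Finset.sum_eq_single b]
        · rw [if_pos rfl, mul_sub, mul_one]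
        · intro a _ ha
          rw [if_neg ha, mul_zero]
        · intro h
          exact absurd (Finset.mem_univ b) h
      · simp only [Finset.sum_mul, Finset.mul_sum]
        rw [Finset.sum_comm]
        simp only [mul_assoc]
    · simp only [Finset.sum_mul, Finset.mul_sum]
      rw [Finset.sum_comm]
      simp only [mul_assoc]

end E5

theorem I_E5 (hf : StFH) (h2 : StKS2) (h3 : StKS3) : StE5 := by
  intro G _ D _ L hL n δ M hM
  classical
  have hpow : ∀ (i : D) (q : Abelianization G) (m : ℕ), L.χ i (q ^ m) = m * L.χ i q := by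
    intro i q m
    induction m with
    | zero =>
      rw [pow_zero]
      have h6 := hL.χ_mul i 1 1
      rw [mul_one] at h6
      push_cast
      linarith
    | succ m ih =>
      rw [pow_succ, hL.χ_mul, ih]
      push_cast
      ring
  have hg : ∀ I : Finset D, ∃ g : L.QS, I ∉ L.Dep → ∀ i ∈ I, L.χ i g ≤ - L.e i := by
    intro I
    by_cases hI : I ∈ L.Dep
    · exact ⟨1, fun h => absurd hI h⟩
    · have hI' : ∃ q ∈ L.QS, ∀ i ∈ I, L.χ i q < 0 := by
        by_contra hc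
        exact hI hc
      obtain ⟨q, hq, hneg⟩ := hI'
      refine ⟨⟨q ^ (∑ i, (L.e i).toNat), L.QS.pow_mem hq _⟩, fun _ i hi => ?_⟩
      show L.χ i (q ^ (∑ i, (L.e i).toNat)) ≤ _
      rw [hpow]
      have h4 := hneg i hi
      have h5 : (L.e i).toNat ≤ ∑ i, (L.e i).toNat :=
        Finset.single_le_sum (f := fun i => (L.e i).toNat) (fun _ _ => Nat.zero_le _)
          (Finset.mem_univ i)
      have h6 : L.e i ≤ ((∑ i, (L.e i).toNat : ℕ) : ℤ) := by
        have h7 : ((L.e i).toNat : ℤ) = L.e i := Int.toNat_of_nonneg (hL.e_pos i).le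
        rw [← h7]
        exact_mod_cast h5
      have h8 : (0 : ℤ) ≤ ((∑ i, (L.e i).toNat : ℕ) : ℤ) := Int.natCast_nonneg _
      nlinarith
  choose g hg using hg
  refine ⟨∑ I : Finset D, ∑ i : D, |L.e i + L.χ i (g I)|, ?_⟩
  intro I hI H hH hH'
  have hgH : ∀ i, L.χ i (g I) ≤ H i - L.e i := by
    intro i
    by_cases hi : i ∈ I
    · have h4 := hg I hI i hi
      have h5 := hH i
      linarith
    · have h4 := hH' i hi
      have h5 : |L.e i + L.χ i (g I)| ≤ ∑ i : D, |L.e i + L.χ i (g I)| :=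
        Finset.single_le_sum (f := fun i => |L.e i + L.χ i (g I)|) (fun _ _ => abs_nonneg _)
          (Finset.mem_univ i)
      have h6 : ∑ i : D, |L.e i + L.χ i (g I)| ≤
          ∑ I : Finset D, ∑ i : D, |L.e i + L.χ i (g I)| :=
        Finset.single_le_sum (f := fun I : Finset D => ∑ i : D, |L.e i + L.χ i (g I)|)
          (fun _ _ => Finset.sum_nonneg fun _ _ => abs_nonneg _) (Finset.mem_univ I)
      have h7 := le_abs_self (L.e i + L.χ i (g I))
      linarith
  obtain ⟨K, hK⟩ := hf L.QS D (fun i (q : L.QS) => L.χ i q) (fun i a b => hL.χ_mul i a b) n δ M hM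
    (g I) H hH (fun i => by
      have h4 := hgH i
      have h5 := hL.e_pos i
      show L.χ i (g I) ≤ H i
      linarith)
  exact ⟨_, _, E5.main h2 h3 hL n δ M H (g I) hgH K hK⟩

end Pool.Agent.Work.MP_e9e200_al.UP

end

section

/-!
# Project UP, item F4: finite products
-/

set_option autoImplicit false

namespace Pool.Agent.Work.MP_e9e200_al.UP

open Finsupp

namespace F4

lemma zero (R : Type) [Ring R] (N : Type) [AddCommGroup N] [Module R N] [Subsingleton N]
    (j : ℕ) : IsFP R N j := by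
  refine ⟨fun _ => ModuleCat.of R PUnit, fun _ => 0, 0, fun i => ?_, fun i _ => ?_, ?_, ?_, ?_⟩
  · show Module.Projective R PUnit
    infer_instance
  · show Module.Finite R PUnit
    infer_instance
  · intro x
    exact ⟨PUnit.unit, Subsingleton.elim _ _⟩
  · intro x
    exact ⟨fun _ => ⟨PUnit.unit, rfl⟩, fun _ => Subsingleton.elim _ _⟩
  · intro i x
    exact ⟨fun _ => ⟨PUnit.unit, rfl⟩, fun _ => rfl⟩

end F4

theorem I_F4 (h0 : StF0) (h2 : StF2) : StF4 := by
  intro R _ n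
  induction n with
  | zero =>
    intro M _ _ j _
    exact F4.zero R _ j
  | succ n ih =>
    intro M _ _ j hM
    refine h2 R (M 0) (∀ b, M b) (∀ b : Fin n, M b.succ) (LinearMap.single R M 0)
      (LinearMap.pi fun b => LinearMap.proj b.succ) j ?_ ?_ ?_ (hM 0)
      (ih (fun b => M b.succ) j fun b => hM b.succ)
    · intro x y hxy
      have h := congrFun hxy 0
      simpa using h
    · intro x
      constructor
      · intro hx
        refine ⟨x 0, ?_⟩
        funext b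
        refine Fin.cases ?_ (fun c => ?_) b
        · simp
        · have h := congrFun hx c
          simp only [LinearMap.pi_apply, LinearMap.proj_apply, Pi.zero_apply] at h
          rw [h]
          simp
      · rintro ⟨y, rfl⟩
        funext c
        simp
    · intro y
      refine ⟨Fin.cons 0 y, ?_⟩
      funext c
      simp

end Pool.Agent.Work.MP_e9e200_al.UP

end

section

/-!
# Project UP: item F5 (partial resolutions by modules of type `FP`)
-/

set_option autoImplicit false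

namespace Pool.Agent.Work.MP_e9e200_al.UP

/-- F5: partial resolutions by modules of type `FP` -/
theorem I_F5 (hu : StUnshift) (h0 : StF0) (h3 : StF3) : StF5 := by
  intro R _ C _ _ d M _ _ ε m
  induction m generalizing C M with
  | zero =>
    intro hC hε _ _
    have h1 : IsFP R (C 0) 0 := hC 0 le_rfl
    have h2 : Module.Finite R (C 0) := (hu R (C 0) 0).1 h1
    exact h0 R M (Module.Finite.of_surjective ε hε)
  | succ m ih =>
    intro hC hε hd0 hd
    have hex : Function.Exact (d 0) ε := hd0 (Nat.succ_pos m)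
    have hmem : ∀ x : C 1, d 0 x ∈ LinearMap.ker ε := fun x =>
      LinearMap.mem_ker.2 ((hex _).2 ⟨x, rfl⟩)
    have hK : IsFP R (LinearMap.ker ε) m := by
      refine ih (fun i => C (i + 1)) (fun i => d (i + 1)) (LinearMap.ker ε)
        ((d 0).codRestrict (LinearMap.ker ε) hmem) ?_ ?_ ?_ ?_
      · intro i hi
        have h := hC (i + 1) (Nat.succ_le_succ hi)
        rw [Nat.succ_sub_succ] at h
        exact h
      · rintro ⟨x, hx⟩
        obtain ⟨y, hy⟩ := (hex x).1 (LinearMap.mem_ker.1 hx)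
        exact ⟨y, Subtype.ext hy⟩
      · intro hm x
        have h := hd 0 (Nat.succ_lt_succ hm) x
        constructor
        · intro hx
          exact h.1 (congrArg Subtype.val hx)
        · intro hx
          exact Subtype.ext (h.2 hx)
      · intro i hi
        exact hd (i + 1) (Nat.succ_lt_succ hi)
    refine h3 R (LinearMap.ker ε) (C 0) M (LinearMap.ker ε).subtype ε m
      (Submodule.injective_subtype _) ?_ hε hK (hC 0 (Nat.zero_le _))
    intro x
    constructor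
    · intro hx
      exact ⟨⟨x, LinearMap.mem_ker.2 hx⟩, rfl⟩
    · rintro ⟨y, rfl⟩
      exact LinearMap.mem_ker.1 y.2

end Pool.Agent.Work.MP_e9e200_al.UP

end

section

/-!
# Project UP: from the monoid `S` to the monoid `v ≥ 0`
-/

set_option autoImplicit false

namespace Pool.Agent.Work.MP_e9e200_al.UP

open Finsupp

namespace G2

open LC LC.PU

variable {G B : Type} [Group G]

lemma exists_N (S : Submonoid G) {h : G} (hh : h ∈ S) (hN : ∀ g, ∃ N : ℕ, h ^ N * g ∈ S)
    (F : Finset (G × B)) : ∃ N : ℕ, ∀ p ∈ F, h ^ N * p.1 ∈ S := by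
  classical
  induction F using Finset.induction_on with
  | empty => exact ⟨0, fun p hp => absurd hp (Finset.notMem_empty p)⟩
  | insert a F _ ih =>
    obtain ⟨N1, h1⟩ := ih
    obtain ⟨N2, h2⟩ := hN a.1
    refine ⟨N1 + N2, fun p hp => ?_⟩
    rcases Finset.mem_insert.1 hp with hp | hp
    · rw [hp, pow_add, mul_assoc]
      exact S.mul_mem (S.pow_mem hh N1) h2
    · rw [add_comm, pow_add, mul_assoc]
      exact S.mul_mem (S.pow_mem hh N2) (h1 p hp)

lemma exists_low (v : Additive G →+ ℝ) (x : G × B →₀ ℤ) :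
    ∃ L : ℝ, ∀ p ∈ x.support, -L ≤ v (Additive.ofMul p.1) := by
  refine ⟨∑ p ∈ x.support, |v (Additive.ofMul p.1)|, fun p hp => ?_⟩
  have h1 : |v (Additive.ofMul p.1)| ≤ ∑ p ∈ x.support, |v (Additive.ofMul p.1)| :=
    Finset.single_le_sum (f := fun p : G × B => |v (Additive.ofMul p.1)|)
      (fun _ _ => abs_nonneg _) hp
  have h2 := neg_abs_le (v (Additive.ofMul p.1))
  linarith

lemma main (S : Submonoid G) (v : Additive G →+ ℝ)
    (hv : ∀ s ∈ S, 0 ≤ v (Additive.ofMul s)) {h : G} (hS : h ∈ S)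
    (hvh : 0 < v (Additive.ofMul h)) (hN : ∀ g, ∃ N : ℕ, h ^ N * g ∈ S) {m : ℕ}
    {deg : B → ℕ} {db : B → (G × B →₀ ℤ)} {eb : B → ℤ}
    (hR : LC.PRes ℤ (S : Set G) m B deg db eb) {ph hh : B → (G × B →₀ ℤ)}
    (hp1 : ∀ b, ph b ∈ Finsupp.supported ℤ ℤ {p : G × B | h⁻¹ * p.1 ∈ S ∧ deg p.2 = deg b})
    (hh1 : ∀ b, hh b ∈ Finsupp.supported ℤ ℤ {p : G × B | p.1 ∈ S ∧ deg p.2 = deg b + 1})
    (hp2 : ∀ b, LC.ext ℤ db (ph b) = LC.ext ℤ ph (db b))
    (hh2 : ∀ b, deg b < m →
      LC.ext ℤ db (hh b) + LC.ext ℤ hh (db b) = single ((1 : G), b) (1 : ℤ) - ph b) {d : ℕ}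
    (hd : d < m) {x : G × B →₀ ℤ}
    (hx : x ∈ Finsupp.supported ℤ ℤ {p : G × B | p.1 ∈ hs v 0 ∧ deg p.2 = d})
    (hDx : LC.ext ℤ db x = 0) (hax : LC.aug ℤ eb x = 0) :
    ∃ y ∈ Finsupp.supported ℤ ℤ {p : G × B | p.1 ∈ hs v 0 ∧ deg p.2 = d + 1},
      LC.ext ℤ db y = x := by
  obtain ⟨N, hN⟩ := exists_N S hS hN x.support
  have hxd : x ∈ Finsupp.supported ℤ ℤ {p : G × B | deg p.2 = d} :=
    mono_supp (fun p hp => hp.2) hx
  have hx' : tr ℤ (h ^ N) x ∈ Finsupp.supported ℤ ℤ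
      {p : G × B | p.1 ∈ (S : Set G) ∧ deg p.2 = d} := by
    have h1 : x ∈ Finsupp.supported ℤ ℤ {p : G × B | h ^ N * p.1 ∈ S ∧ deg p.2 = d} := by
      rw [Finsupp.mem_supported] at hxd ⊢
      exact fun p hp => ⟨hN p hp, hxd hp⟩
    refine map_mem _ (fun p hp => ?_) h1
    rw [tr_single]
    exact Finsupp.single_mem_supported _ _ ⟨hp.1, hp.2⟩
  obtain ⟨y, hy, hyx⟩ := hR.exact d hd _ hx' (by rw [ext_tr, hDx, map_zero])
    (by rw [aug_tr, hax])
  obtain ⟨w0, hw0⟩ : ∃ w0, w0 = tr ℤ (h ^ N)⁻¹ y := ⟨_, rfl⟩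
  have hw0d : w0 ∈ Finsupp.supported ℤ ℤ {p : G × B | deg p.2 = d + 1} := by
    rw [hw0]
    refine map_mem _ (fun p hp => ?_) hy
    rw [tr_single]
    exact Finsupp.single_mem_supported _ _ hp.2
  have hw0x : LC.ext ℤ db w0 = x := by
    rw [hw0, ext_tr, hyx, ← tr_mul, inv_mul_cancel, tr_one]
  obtain ⟨c, hc⟩ := exists_low v w0
  have hph : ∀ b, ph b ∈ Finsupp.supported ℤ ℤ
      {p : G × B | p.1 ∈ hs v (v (Additive.ofMul h)) ∧ deg p.2 = deg b} := by
    intro b
    refine mono_supp ?_ (hp1 b)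
    rintro p ⟨h3, h4⟩
    refine ⟨?_, h4⟩
    show v (Additive.ofMul h) ≤ v (Additive.ofMul p.1)
    have h5 := hv _ h3
    rw [ofMul_mul, map_add, ofMul_inv, map_neg] at h5
    linarith
  have hhh : ∀ b, hh b ∈ Finsupp.supported ℤ ℤ
      {p : G × B | p.1 ∈ hs v 0 ∧ deg p.2 = deg b + 1} := by
    intro b
    refine mono_supp ?_ (hh1 b)
    rintro p ⟨h3, h4⟩
    exact ⟨hv _ h3, h4⟩
  have hHD : LC.ext ℤ db (LC.ext ℤ hh x) = x - LC.ext ℤ ph x := by
    have key : LC.ext ℤ db (LC.ext ℤ hh x) + LC.ext ℤ hh (LC.ext ℤ db x) =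
        x - LC.ext ℤ ph x :=
      eq_on ((LC.ext ℤ db) ∘ₗ (LC.ext ℤ hh) + (LC.ext ℤ hh) ∘ₗ (LC.ext ℤ db))
        (LinearMap.id - LC.ext ℤ ph) (fun p hp => by
          have hp' : deg p.2 = d := hp
          rw [LinearMap.add_apply, LinearMap.comp_apply, LinearMap.comp_apply,
            LinearMap.sub_apply, LinearMap.id_apply, ext_single_one, ext_single_one,
            ext_single_one, ext_tr, ext_tr, ← map_add, hh2 p.2 (by omega), map_sub, tr_single,
            mul_one]) hxd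
    rw [hDx, map_zero, add_zero] at key
    exact key
  have key : ∀ k : ℕ, ∃ w ∈ Finsupp.supported ℤ ℤ
      {p : G × B | p.1 ∈ hs v (min 0 (-c + k * v (Additive.ofMul h))) ∧ deg p.2 = d + 1},
      LC.ext ℤ db w = x := by
    intro k
    induction k with
    | zero =>
      refine ⟨w0, ?_, hw0x⟩
      rw [Finsupp.mem_supported] at hw0d ⊢
      intro p hp
      refine ⟨?_, hw0d hp⟩
      show min 0 (-c + ((0 : ℕ) : ℝ) * v (Additive.ofMul h)) ≤ v (Additive.ofMul p.1)
      refine (min_le_right _ _).trans ?_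
      have := hc p hp
      push_cast
      linarith
    | succ k ih =>
      obtain ⟨w, hw, hwx⟩ := ih
      refine ⟨LC.ext ℤ ph w + LC.ext ℤ hh x, Submodule.add_mem _ ?_ ?_, ?_⟩
      · refine mono_supp ?_ (ext_supp (P := fun b => deg b = d + 1)
          (Q := fun b => deg b = d + 1) (t := v (Additive.ofMul h)) (u := ph) (fun b hb => by
            have := hph b
            rwa [hb] at this) hw)
        rintro p ⟨h3, h4⟩
        refine ⟨?_, h4⟩
        have h5 : min 0 (-c + (k : ℝ) * v (Additive.ofMul h)) + v (Additive.ofMul h) ≤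
          v (Additive.ofMul p.1) := h3
        show min 0 (-c + ((k + 1 : ℕ) : ℝ) * v (Additive.ofMul h)) ≤ v (Additive.ofMul p.1)
        refine le_trans ?_ h5
        push_cast
        rcases min_choice 0 (-c + (k : ℝ) * v (Additive.ofMul h)) with h6 | h6
        · rw [h6]
          exact (min_le_left _ _).trans (by linarith)
        · rw [h6]
          exact (min_le_right _ _).trans (by linarith)
      · refine mono_supp ?_ (ext_supp (P := fun b => deg b = d)
          (Q := fun b => deg b = d + 1) (t := 0) (u := hh) (fun b hb => by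
            have := hhh b
            rwa [hb] at this) hx)
        rintro p ⟨h3, h4⟩
        refine ⟨?_, h4⟩
        have h5 : (0 : ℝ) + 0 ≤ v (Additive.ofMul p.1) := h3
        show min 0 (-c + ((k + 1 : ℕ) : ℝ) * v (Additive.ofMul h)) ≤ v (Additive.ofMul p.1)
        refine (min_le_left _ _).trans (by linarith)
      · rw [map_add, hHD, ext_ext (P := fun _ => True) (fun b _ => hp2 b)
          (mono_supp (fun p _ => trivial) hw), hwx]
        abel
  obtain ⟨k, hk⟩ := exists_nat_ge (c / v (Additive.ofMul h))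
  rw [div_le_iff₀ hvh] at hk
  obtain ⟨w, hw, hwx⟩ := key k
  rw [min_eq_left (by linarith)] at hw
  exact ⟨w, hw, hwx⟩

end G2

theorem I_G2 (h1 : StG1) : StG2 := by
  intro G _ S hconj v hv h hS hvh hN m B _ deg db eb hR
  obtain ⟨ph, hh, hp1, hh1, hp2, -, hh2⟩ := h1 G S hconj h hS m B deg db eb hR
  refine ⟨hR.le, fun b => ?_, hR.eb_deg, hR.dd, hR.ed, ?_, ?_⟩
  · refine LC.PU.mono_supp ?_ (hR.db_sup b)
    rintro p ⟨h3, h4⟩
    exact ⟨hv _ h3, h4⟩
  · obtain ⟨x, hx, hx1⟩ := hR.surj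
    refine ⟨x, LC.PU.mono_supp ?_ hx, hx1⟩
    rintro p ⟨h3, h4⟩
    exact ⟨hv _ h3, h4⟩
  · intro d hd x hx hDx hax
    exact G2.main S v hv hS hvh hN hR hp1 hh1 hp2 hh2 hd hx hDx hax

end Pool.Agent.Work.MP_e9e200_al.UP

end

section

/-!
# Project UP: item G3
-/

set_option autoImplicit false

namespace Pool.Agent.Work.MP_e9e200_al.UP

open Finsupp

namespace G3

section
variable {G : Type} [Group G] (S : Submonoid G) {B : Type} (deg : B → ℕ)

/-- the basis elements of degree `i` -/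
abbrev Bd (i : ℕ) : Type := {b : B // deg b = i}

/-- the free module of degree `i` -/
abbrev PP (i : ℕ) : Type := Bd deg i →₀ MonoidAlgebra ℤ S

/-- from the free module to the chains -/
noncomputable def Phi (i : ℕ) : PP S deg i →+ (G × B →₀ ℤ) :=
  Finsupp.liftAddHom (fun b : Bd deg i =>
    (Finsupp.mapDomain.addMonoidHom (fun s : S => ((s : G), (b : B)))).comp
      (MonoidAlgebra.coeffAddEquiv (R := ℤ) (M := S)).toAddMonoidHom)

lemma Phi_single (i : ℕ) (b : Bd deg i) (s : S) (n : ℤ) :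
    Phi S deg i (single b (MonoidAlgebra.single s n)) = single ((s : G), (b : B)) n := by
  rw [Phi, Finsupp.liftAddHom_apply_single]
  change Finsupp.mapDomain _ (single s n) = _
  rw [Finsupp.mapDomain_single]

open Classical in
/-- from the chains to the free module -/
noncomputable def Psi (i : ℕ) : (G × B →₀ ℤ) →+ PP S deg i :=
  Finsupp.liftAddHom (fun p : G × B => if h : p.1 ∈ S ∧ deg p.2 = i then
    (Finsupp.singleAddHom (⟨p.2, h.2⟩ : Bd deg i)).comp
      (MonoidAlgebra.singleAddHom (R := ℤ) (⟨p.1, h.1⟩ : S)) else 0)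

lemma Psi_single (i : ℕ) (b : Bd deg i) (s : S) (n : ℤ) :
    Psi S deg i (single ((s : G), (b : B)) n) = single b (MonoidAlgebra.single s n) := by
  rw [Psi, Finsupp.liftAddHom_apply_single, dif_pos ⟨s.2, b.2⟩]
  rfl

/-- induction principle -/
lemma PP_ind (i : ℕ) {p : PP S deg i → Prop} (h0 : p 0) (ha : ∀ x y, p x → p y → p (x + y))
    (hs : ∀ b s n, p (single b (MonoidAlgebra.single s n))) (x : PP S deg i) : p x := by
  induction x using Finsupp.induction_linear with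
  | zero => exact h0
  | add f g hf hg => exact ha f g hf hg
  | single b r =>
    induction r using MonoidAlgebra.induction_linear with
    | zero => rw [Finsupp.single_zero]; exact h0
    | add x y hx hy => rw [Finsupp.single_add]; exact ha _ _ hx hy
    | single s n => exact hs b s n

lemma Psi_Phi (i : ℕ) (x : PP S deg i) : Psi S deg i (Phi S deg i x) = x := by
  refine PP_ind S deg i (p := fun x => Psi S deg i (Phi S deg i x) = x) ?_ ?_ ?_ x
  · rw [map_zero, map_zero]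
  · intro x y hx hy
    rw [map_add, map_add, hx, hy]
  · intro b s n
    rw [Phi_single, Psi_single]

lemma Phi_mem (i : ℕ) (x : PP S deg i) :
    Phi S deg i x ∈ Finsupp.supported ℤ ℤ {p : G × B | p.1 ∈ S ∧ deg p.2 = i} := by
  refine PP_ind S deg i (p := fun x => Phi S deg i x ∈ Finsupp.supported ℤ ℤ
    {p : G × B | p.1 ∈ S ∧ deg p.2 = i}) ?_ ?_ ?_ x
  · rw [map_zero]; exact zero_mem _
  · intro x y hx hy
    rw [map_add]; exact add_mem hx hy
  · intro b s n
    rw [Phi_single]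
    exact Finsupp.single_mem_supported _ _ ⟨s.2, b.2⟩

lemma Phi_Psi (i : ℕ) (c : G × B →₀ ℤ)
    (hc : c ∈ Finsupp.supported ℤ ℤ {p : G × B | p.1 ∈ S ∧ deg p.2 = i}) :
    Phi S deg i (Psi S deg i c) = c := by
  have h1 : c = ∑ p ∈ c.support, single p (c p) := (Finsupp.sum_single c).symm
  rw [h1, map_sum, map_sum]
  refine Finset.sum_congr rfl fun p hp => ?_
  have hp' : p.1 ∈ S ∧ deg p.2 = i := (Finsupp.mem_supported _ _).1 hc hp
  have h2 : p = (((⟨p.1, hp'.1⟩ : S) : G), ((⟨p.2, hp'.2⟩ : Bd deg i) : B)) := rfl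
  rw [h2, Psi_single, Phi_single]

/-- the differential -/
noncomputable def dd (db : B → (G × B →₀ ℤ)) (i : ℕ) :
    PP S deg (i + 1) →ₗ[MonoidAlgebra ℤ S] PP S deg i :=
  Finsupp.linearCombination (MonoidAlgebra ℤ S) (fun b : Bd deg (i + 1) => Psi S deg i (db b))

/-- integers as elements of the trivial module -/
def tv (n : ℤ) : Triv S := n

lemma tv_add (a b : ℤ) : tv S (a + b) = tv S a + tv S b := rfl

lemma tv_zero : tv S 0 = 0 := rfl

/-- the augmentation -/
noncomputable def ee (eb : B → ℤ) : PP S deg 0 →ₗ[MonoidAlgebra ℤ S] Triv S :=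
  Finsupp.linearCombination (MonoidAlgebra ℤ S) (fun b : Bd deg 0 => tv S (eb b))

lemma Phi_smul (i : ℕ) (s : S) (n : ℤ) (x : PP S deg i) :
    Phi S deg i ((MonoidAlgebra.single s n : MonoidAlgebra ℤ S) • x) =
      n • LC.tr ℤ (s : G) (Phi S deg i x) := by
  refine PP_ind S deg i (p := fun x => Phi S deg i ((MonoidAlgebra.single s n :
    MonoidAlgebra ℤ S) • x) = n • LC.tr ℤ (s : G) (Phi S deg i x)) ?_ ?_ ?_ x
  · rw [smul_zero, map_zero, map_zero, smul_zero]
  · intro x y hx hy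
    rw [smul_add, map_add, hx, hy, map_add, map_add, smul_add]
  · intro b t k
    rw [Finsupp.smul_single, smul_eq_mul, MonoidAlgebra.single_mul_single, Phi_single,
      Phi_single, LC.tr, Finsupp.lmapDomain_apply, Finsupp.mapDomain_single,
      Finsupp.smul_single]
    rfl

lemma Phi_dd (db : B → (G × B →₀ ℤ)) (i : ℕ)
    (hdb : ∀ b, db b ∈ Finsupp.supported ℤ ℤ {p : G × B | p.1 ∈ S ∧ deg p.2 + 1 = deg b})
    (x : PP S deg (i + 1)) :
    Phi S deg i (dd S deg db i x) = LC.ext ℤ db (Phi S deg (i + 1) x) := by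
  refine PP_ind S deg (i + 1) (p := fun x => Phi S deg i (dd S deg db i x) =
    LC.ext ℤ db (Phi S deg (i + 1) x)) ?_ ?_ ?_ x
  · rw [map_zero, map_zero, map_zero, map_zero]
  · intro x y hx hy
    rw [map_add, map_add, hx, hy, map_add, map_add]
  · intro b s n
    rw [dd, Finsupp.linearCombination_single, Phi_smul, Phi_single, LC.ext,
      Finsupp.linearCombination_single, Phi_Psi]
    have h1 := hdb b
    refine Finsupp.supported_mono ?_ h1
    rintro p ⟨hp1, hp2⟩
    refine ⟨hp1, ?_⟩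
    have h3 := b.2
    omega

lemma ee_eq (eb : B → ℤ) (x : PP S deg 0) :
    ee S deg eb x = tv S (LC.aug ℤ eb (Phi S deg 0 x)) := by
  refine PP_ind S deg 0 (p := fun x => ee S deg eb x =
    tv S (LC.aug ℤ eb (Phi S deg 0 x))) ?_ ?_ ?_ x
  · rw [map_zero, map_zero, map_zero, tv_zero]
  · intro x y hx hy
    rw [map_add, map_add, map_add, tv_add, ← hx, ← hy]
  · intro b s n
    rw [ee, Finsupp.linearCombination_single, Phi_single, LC.aug,
      Finsupp.linearCombination_single]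
    have h1 : Pool.Agent.Work.MP_e9e200_al.aug S (MonoidAlgebra.single s n) = n := by
      simp [Pool.Agent.Work.MP_e9e200_al.aug]
    change tv S (Pool.Agent.Work.MP_e9e200_al.aug S (MonoidAlgebra.single s n) • eb b) = _
    rw [h1]

lemma aug_tr (eb : B → ℤ) (g : G) (c : G × B →₀ ℤ) :
    LC.aug ℤ eb (LC.tr ℤ g c) = LC.aug ℤ eb c := by
  induction c using Finsupp.induction_linear with
  | zero => rw [map_zero]
  | add a b ha hb => rw [map_add, map_add, ha, hb, map_add]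
  | single p n =>
    rw [LC.tr, Finsupp.lmapDomain_apply, Finsupp.mapDomain_single, LC.aug,
      Finsupp.linearCombination_single, Finsupp.linearCombination_single]

lemma ext_tr (db : B → (G × B →₀ ℤ)) (g : G) (c : G × B →₀ ℤ) :
    LC.ext ℤ db (LC.tr ℤ g c) = LC.tr ℤ g (LC.ext ℤ db c) := by
  induction c using Finsupp.induction_linear with
  | zero => rw [map_zero, map_zero, map_zero]
  | add a b ha hb => rw [map_add, map_add, ha, hb, map_add, map_add]
  | single p n =>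
    rw [LC.tr, Finsupp.lmapDomain_apply, Finsupp.mapDomain_single, LC.ext,
      Finsupp.linearCombination_single, Finsupp.linearCombination_single, map_smul]
    congr 1
    rw [LC.tr, LC.tr, Finsupp.lmapDomain_apply, Finsupp.lmapDomain_apply,
      Finsupp.lmapDomain_apply, ← Finsupp.mapDomain_comp]
    congr 1
    funext q
    simp [mul_assoc]

lemma aug_ext (db : B → (G × B →₀ ℤ)) (eb : B → ℤ) (h : ∀ b, LC.aug ℤ eb (db b) = 0)
    (c : G × B →₀ ℤ) : LC.aug ℤ eb (LC.ext ℤ db c) = 0 := by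
  induction c using Finsupp.induction_linear with
  | zero => rw [map_zero, map_zero]
  | add a b ha hb => rw [map_add, map_add, ha, hb, add_zero]
  | single p n =>
    rw [LC.ext, Finsupp.linearCombination_single, map_smul, aug_tr, h, smul_zero]

lemma ext_ext (db : B → (G × B →₀ ℤ)) (h : ∀ b, LC.ext ℤ db (db b) = 0)
    (c : G × B →₀ ℤ) : LC.ext ℤ db (LC.ext ℤ db c) = 0 := by
  induction c using Finsupp.induction_linear with
  | zero => rw [map_zero, map_zero]
  | add a b ha hb => rw [map_add, map_add, ha, hb, add_zero]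
  | single p n =>
    rw [LC.ext, Finsupp.linearCombination_single, map_smul]
    change n • LC.ext ℤ db (LC.tr ℤ p.1 (db p.2)) = 0
    rw [ext_tr, h, map_zero, smul_zero]

/-- the augmentation of chains of positive degree vanishes -/
lemma aug_zero (eb : B → ℤ) (i : ℕ) (hi : i ≠ 0) (he : ∀ b, deg b ≠ 0 → eb b = 0)
    (x : PP S deg i) : LC.aug ℤ eb (Phi S deg i x) = 0 := by
  refine PP_ind S deg i (p := fun x => LC.aug ℤ eb (Phi S deg i x) = 0) ?_ ?_ ?_ x
  · rw [map_zero, map_zero]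
  · intro x y hx hy
    rw [map_add, map_add, hx, hy, add_zero]
  · intro b s n
    rw [Phi_single, LC.aug, Finsupp.linearCombination_single]
    change n • eb b = 0
    rw [he b (by rw [b.2]; exact hi), smul_zero]

/-- the boundary of chains of degree zero vanishes -/
lemma ext_zero (db : B → (G × B →₀ ℤ))
    (hdb : ∀ b, db b ∈ Finsupp.supported ℤ ℤ {p : G × B | p.1 ∈ S ∧ deg p.2 + 1 = deg b})
    (x : PP S deg 0) : LC.ext ℤ db (Phi S deg 0 x) = 0 := by
  refine PP_ind S deg 0 (p := fun x => LC.ext ℤ db (Phi S deg 0 x) = 0) ?_ ?_ ?_ x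
  · rw [map_zero, map_zero]
  · intro x y hx hy
    rw [map_add, map_add, hx, hy, add_zero]
  · intro b s n
    rw [Phi_single, LC.ext, Finsupp.linearCombination_single]
    have h1 : db b = 0 := by
      have h2 := hdb b
      have h3 : {p : G × B | p.1 ∈ S ∧ deg p.2 + 1 = deg b} = ∅ := by
        ext p
        simp only [Set.mem_ofPred_eq, Set.mem_empty_iff_false, iff_false, not_and]
        intro _ h
        have h4 := b.2
        omega
      rw [h3, Finsupp.supported_empty, Submodule.mem_bot] at h2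
      exact h2
    change n • LC.tr ℤ (s : G) (db b) = 0
    rw [h1, map_zero, smul_zero]

variable {S deg}

lemma ee_surj {db : B → (G × B →₀ ℤ)} {eb : B → ℤ} {m : ℕ}
    (H : LC.PRes ℤ (S : Set G) m B deg db eb) : Function.Surjective (ee S deg eb) := by
  obtain ⟨c, hc, hc1⟩ := H.surj
  have key : ∀ n : ℤ, ee S deg eb (n • Psi S deg 0 c) = tv S n := by
    intro n
    rw [ee_eq, map_zsmul, map_zsmul, Phi_Psi S deg 0 c hc, hc1]
    simp
  exact fun y => ⟨_, key y⟩

lemma ex0 {db : B → (G × B →₀ ℤ)} {eb : B → ℤ} {m : ℕ} (hm : 0 < m)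
    (H : LC.PRes ℤ (S : Set G) m B deg db eb) :
    LinearMap.range (dd S deg db 0) = LinearMap.ker (ee S deg eb) := by
  apply le_antisymm
  · rintro _ ⟨x, rfl⟩
    rw [LinearMap.mem_ker]
    rw [ee_eq, Phi_dd S deg db 0 H.db_sup, aug_ext db eb H.ed, tv_zero]
  · intro x hx
    rw [LinearMap.mem_ker] at hx
    have h1 : LC.aug ℤ eb (Phi S deg 0 x) = 0 := by
      rw [ee_eq] at hx
      exact hx
    obtain ⟨y, hy, hy2⟩ := H.exact 0 hm (Phi S deg 0 x) (Phi_mem S deg 0 x)
      (ext_zero S deg db H.db_sup x) h1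
    refine ⟨Psi S deg 1 y, ?_⟩
    rw [← Psi_Phi S deg 0 (dd S deg db 0 (Psi S deg 1 y)), Phi_dd S deg db 0 H.db_sup,
      Phi_Psi S deg 1 y hy, hy2, Psi_Phi]

lemma exs {db : B → (G × B →₀ ℤ)} {eb : B → ℤ} {m : ℕ} (i : ℕ) (hm : i + 1 < m)
    (H : LC.PRes ℤ (S : Set G) m B deg db eb) :
    LinearMap.range (dd S deg db (i + 1)) = LinearMap.ker (dd S deg db i) := by
  apply le_antisymm
  · rintro _ ⟨x, rfl⟩
    rw [LinearMap.mem_ker, ← Psi_Phi S deg i (dd S deg db i _), Phi_dd S deg db i H.db_sup,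
      Phi_dd S deg db (i + 1) H.db_sup, ext_ext db H.dd, map_zero]
  · intro x hx
    rw [LinearMap.mem_ker] at hx
    have h1 : LC.ext ℤ db (Phi S deg (i + 1) x) = 0 := by
      rw [← Phi_dd S deg db i H.db_sup, hx, map_zero]
    obtain ⟨y, hy, hy2⟩ := H.exact (i + 1) hm (Phi S deg (i + 1) x) (Phi_mem S deg (i + 1) x)
      h1 (aug_zero S deg eb (i + 1) (Nat.succ_ne_zero i) H.eb_deg x)
    refine ⟨Psi S deg (i + 2) y, ?_⟩
    rw [← Psi_Phi S deg (i + 1) (dd S deg db (i + 1) (Psi S deg (i + 2) y)),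
      Phi_dd S deg db (i + 1) H.db_sup, Phi_Psi S deg (i + 2) y hy, hy2, Psi_Phi]

/-- the syzygies -/
noncomputable def KK' (S : Submonoid G) (deg : B → ℕ) (db : B → (G × B →₀ ℤ)) (eb : B → ℤ) :
    ∀ i, Submodule (MonoidAlgebra ℤ S) (PP S deg i)
  | 0 => LinearMap.ker (ee S deg eb)
  | i + 1 => LinearMap.ker (dd S deg db i)

lemma range_eq {db : B → (G × B →₀ ℤ)} {eb : B → ℤ} {m : ℕ}
    (H : LC.PRes ℤ (S : Set G) m B deg db eb) (i : ℕ) (hi : i < m) :
    LinearMap.range (dd S deg db i) = KK' S deg db eb i := by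
  cases i with
  | zero => exact ex0 hi H
  | succ i => exact exs i hi H

lemma KK_fp (h0 : StF0) (h1 : StF1) [Finite B] {db : B → (G × B →₀ ℤ)} {eb : B → ℤ} {m : ℕ}
    (H : LC.PRes ℤ (S : Set G) m B deg db eb) (j : ℕ) : ∀ i, i + j + 1 = m →
    IsFP (MonoidAlgebra ℤ S) (KK' S deg db eb i) j := by
  have hfin : ∀ i, Module.Finite (MonoidAlgebra ℤ S) (PP S deg i) := fun i => inferInstance
  induction j with
  | zero =>
    intro i hi
    apply h0
    rw [← range_eq H i (by omega)]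
    exact Module.Finite.range _
  | succ j ih =>
    intro i hi
    have hr := range_eq H i (by omega)
    have hmem : ∀ x, dd S deg db i x ∈ KK' S deg db eb i := by
      intro x
      rw [← hr]
      exact ⟨x, rfl⟩
    let f : PP S deg (i + 1) →ₗ[MonoidAlgebra ℤ S] KK' S deg db eb i :=
      (dd S deg db i).codRestrict _ hmem
    have hf : Function.Surjective f := by
      rintro ⟨y, hy⟩
      rw [← hr] at hy
      obtain ⟨x, rfl⟩ := hy
      exact ⟨x, rfl⟩
    have hk : LinearMap.ker f = KK' S deg db eb (i + 1) := LinearMap.ker_codRestrict _ _ _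
    refine h1 (MonoidAlgebra ℤ S) (PP S deg (i + 1)) _ f j inferInstance (hfin _) hf ?_
    rw [hk]
    exact ih (i + 1) (by omega)

end

end G3

theorem I_G3 (h0 : StF0) (h1 : StF1) : StG3 := by
  intro G _ S m B _ deg db eb H
  have hs := G3.ee_surj H
  cases m with
  | zero =>
    apply h0
    exact Module.Finite.of_surjective _ hs
  | succ m =>
    refine h1 (MonoidAlgebra ℤ S) (G3.PP S deg 0) (Triv S) (G3.ee S deg eb) m inferInstance
      inferInstance hs ?_
    exact G3.KK_fp h0 h1 H m 0 (by omega)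

end Pool.Agent.Work.MP_e9e200_al.UP

end

section

set_option autoImplicit false

namespace Pool.Agent.Work.MP_e9e200_al.UP

namespace H2

section

variable {G : Type} [Group G] {M : Type} [AddCommGroup M] {y : G → M}

theorem y_one (hy : ∀ a ∈ commutator G, ∀ b ∈ commutator G, y (a * b) = y a + y b) : y 1 = 0 := by
  have h := hy 1 (one_mem _) 1 (one_mem _)
  rw [mul_one] at h
  exact left_eq_add.1 h

theorem y_inv (hy : ∀ a ∈ commutator G, ∀ b ∈ commutator G, y (a * b) = y a + y b) {a : G}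
    (ha : a ∈ commutator G) : y a⁻¹ = -y a := by
  have h := hy a ha a⁻¹ (inv_mem ha)
  rw [mul_inv_cancel, y_one hy] at h
  exact (neg_eq_of_add_eq_zero_right h.symm).symm

variable {Q D : Type} [CommGroup Q] [Module (MonoidAlgebra ℤ Q) M]

/-- the subgroup of all elements of the commutator group with image in `N` -/
def SN (hy : ∀ a ∈ commutator G, ∀ b ∈ commutator G, y (a * b) = y a + y b)
    (N : AddSubgroup M) : Subgroup G where
  carrier := {g | g ∈ commutator G ∧ y g ∈ N}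
  one_mem' := ⟨one_mem _, by rw [y_one hy]; exact zero_mem _⟩
  mul_mem' := fun {a b} ha hb => ⟨mul_mem ha.1 hb.1, by
    rw [hy a ha.1 b hb.1]; exact add_mem ha.2 hb.2⟩
  inv_mem' := fun {a} ha => ⟨inv_mem ha.1, by
    rw [y_inv hy ha.1]; exact neg_mem ha.2⟩

theorem closure_SN (hy : ∀ a ∈ commutator G, ∀ b ∈ commutator G, y (a * b) = y a + y b)
    (N : AddSubgroup M) :
    Subgroup.closure {g | g ∈ commutator G ∧ y g ∈ N} = SN hy N :=
  Subgroup.closure_eq (SN hy N)

theorem NN_mono (χ : D → Q → ℤ) (T : Finset M) {E E' : D → ℤ} (h : E ≤ E') :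
    NN χ T E ≤ NN χ T E' := by
  apply AddSubgroup.closure_mono
  rintro x ⟨q, t, ht, hq, rfl⟩
  exact ⟨q, t, ht, fun i => (neg_le_neg (h i)).trans (hq i), rfl⟩

theorem NN_smul {χ : D → Q → ℤ} (hχ : ∀ i a b, χ i (a * b) = χ i a + χ i b) (T : Finset M)
    {E : D → ℤ} (q : Q) {x : M} (hx : x ∈ NN χ T E) :
    MonoidAlgebra.of ℤ Q q • x ∈ NN χ T (E - fun i => χ i q) := by
  unfold NN at hx
  induction hx using AddSubgroup.closure_induction with
  | mem x hx =>
    obtain ⟨q', t, ht, hq, rfl⟩ := hx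
    apply AddSubgroup.subset_closure
    refine ⟨q * q', t, ht, fun i => ?_, ?_⟩
    · rw [hχ, Pi.sub_apply]
      have := hq i
      linarith
    · rw [smul_smul, map_mul]
  | zero => rw [smul_zero]; exact zero_mem _
  | add x y _ _ h1 h2 => rw [smul_add]; exact add_mem h1 h2
  | neg x _ h1 => rw [smul_neg]; exact neg_mem h1

theorem NN_ex [Fintype D] {χ : D → Q → ℤ} (T : Finset M) {e : D → ℤ} (he : ∀ i, 0 < e i) {x : M}
    (hx : x ∈ AddSubgroup.closure {w | ∃ q : Q, ∃ t ∈ T, w = MonoidAlgebra.of ℤ Q q • t})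
    (F : D → ℤ) : ∃ t0 : ℕ, ∀ t : ℕ, t0 ≤ t → x ∈ NN χ T ((t : ℤ) • e + F) := by
  induction hx using AddSubgroup.closure_induction with
  | mem x hx =>
    obtain ⟨q, w, hw, rfl⟩ := hx
    refine ⟨∑ i, (|χ i q| + |F i|).toNat, fun t ht => ?_⟩
    apply AddSubgroup.subset_closure
    refine ⟨q, w, hw, fun i => ?_, rfl⟩
    have h1 : (|χ i q| + |F i|).toNat ≤ t := le_trans
      (Finset.single_le_sum (f := fun i => (|χ i q| + |F i|).toNat) (fun _ _ => Nat.zero_le _)
        (Finset.mem_univ i)) ht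
    have h2 : |χ i q| + |F i| ≤ (t : ℤ) := by
      have := Int.self_le_toNat (|χ i q| + |F i|)
      have h3 : (((|χ i q| + |F i|).toNat : ℕ) : ℤ) ≤ (t : ℤ) := by exact_mod_cast h1
      linarith
    have h3 : (t : ℤ) ≤ (t : ℤ) * e i := by
      have := he i
      have : (0 : ℤ) ≤ t := Int.natCast_nonneg t
      nlinarith
    rw [Pi.add_apply, Pi.smul_apply, smul_eq_mul]
    have h4 := neg_abs_le (χ i q)
    have h5 := neg_abs_le (F i)
    linarith
  | zero => exact ⟨0, fun t _ => zero_mem _⟩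
  | add x y _ _ h1 h2 =>
    obtain ⟨t1, h1⟩ := h1
    obtain ⟨t2, h2⟩ := h2
    exact ⟨max t1 t2, fun t ht => add_mem (h1 t ((le_max_left _ _).trans ht))
      (h2 t ((le_max_right _ _).trans ht))⟩
  | neg x _ h1 =>
    obtain ⟨t1, h1⟩ := h1
    exact ⟨t1, fun t ht => neg_mem (h1 t ht)⟩

/-- the submonoid -/
def QQ {K : Type} (u : K → Q → ℤ) (hu : ∀ k a b, u k (a * b) = u k a + u k b) : Submonoid Q where
  carrier := {q | ∀ k, 0 ≤ u k q}
  one_mem' := fun k => by
    have h := hu k 1 1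
    rw [mul_one] at h
    omega
  mul_mem' := fun {a b} ha hb k => by
    rw [hu]
    exact add_nonneg (ha k) (hb k)

theorem closure_QQ {K : Type} (u : K → Q → ℤ) (hu : ∀ k a b, u k (a * b) = u k a + u k b) :
    Submonoid.closure {q | ∀ k, 0 ≤ u k q} = QQ u hu :=
  Submonoid.closure_eq (QQ u hu)

end

end H2

open H2

theorem I_H2 : StH2 := by
  intro G _ _ M _ _ y hy hinj hsurj hconj T hT D _ χ e K u hχ hu he hfin
  have hN : ∀ E, (mkLev y T χ e u).N E = SN hy (NN χ T E) := fun E => closure_SN hy _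
  have hQ : (mkLev y T χ e u).QS = QQ u hu := closure_QQ u hu
  have hmem : ∀ E g, g ∈ (mkLev y T χ e u).N E ↔ g ∈ commutator G ∧ y g ∈ NN χ T E := by
    intro E g
    rw [hN]
    exact Iff.rfl
  refine ⟨?_, ?_, ?_, hmem⟩
  · constructor
    · exact hχ
    · exact he
    · intro E g hg
      exact ((hmem E g).1 hg).1
    · intro E E' hE g hg
      rw [hmem] at hg ⊢
      exact ⟨hg.1, NN_mono χ T hE hg.2⟩
    · intro E g x hx
      rw [hmem] at hx ⊢
      refine ⟨(inferInstance : (commutator G).Normal).conj_mem x hx.1 g, ?_⟩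
      rw [hconj g x hx.1]
      exact NN_smul hχ T _ hx.2
    · intro a ha F
      obtain ⟨t0, ht0⟩ := NN_ex (χ := χ) T he (hT (y a)) F
      refine ⟨t0, fun t ht => ?_⟩
      rw [hmem]
      exact ⟨ha, ht0 t ht⟩
  · intro E
    choose p hp1 hp2 using hsurj
    set S : Set M := {x | ∃ q : Abelianization G, ∃ t ∈ T, (∀ i, -E i ≤ χ i q) ∧
      x = MonoidAlgebra.of ℤ (Abelianization G) q • t} with hS
    have hSfin : S.Finite := by
      refine ((hfin E).image2 (fun q t => MonoidAlgebra.of ℤ (Abelianization G) q • t)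
        T.finite_toSet).subset ?_
      rintro x ⟨q, t, ht, hq, rfl⟩
      exact ⟨q, hq, t, ht, rfl⟩
    rw [Subgroup.fg_iff]
    refine ⟨p '' S, ?_, hSfin.image p⟩
    apply le_antisymm
    · rw [Subgroup.closure_le]
      rintro _ ⟨x, hx, rfl⟩
      show p x ∈ (mkLev y T χ e u).N E
      rw [hmem]
      refine ⟨hp1 x, ?_⟩
      rw [hp2]
      exact AddSubgroup.subset_closure hx
    · intro g hg
      rw [hmem] at hg
      have key : ∀ x ∈ AddSubgroup.closure S, ∃ g' ∈ Subgroup.closure (p '' S),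
          g' ∈ commutator G ∧ y g' = x := by
        intro x hx
        induction hx using AddSubgroup.closure_induction with
        | mem x hx => exact ⟨p x, Subgroup.subset_closure ⟨x, hx, rfl⟩, hp1 x, hp2 x⟩
        | zero => exact ⟨1, one_mem _, one_mem _, y_one hy⟩
        | add x x' _ _ h1 h2 =>
          obtain ⟨a, ha, ha', ha2⟩ := h1
          obtain ⟨b, hb, hb', hb2⟩ := h2
          exact ⟨a * b, mul_mem ha hb, mul_mem ha' hb', by rw [hy a ha' b hb', ha2, hb2]⟩
        | neg x _ h1 =>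
          obtain ⟨a, ha, ha', ha2⟩ := h1
          exact ⟨a⁻¹, inv_mem ha, inv_mem ha', by rw [y_inv hy ha', ha2]⟩
      obtain ⟨g', hg', hg'', hg2⟩ := key (y g) hg.2
      have h1 : g * g'⁻¹ = 1 := by
        apply hinj _ (mul_mem hg.1 (inv_mem hg''))
        rw [hy g hg.1 _ (inv_mem hg''), y_inv hy hg'', hg2, add_neg_cancel]
      rw [mul_inv_eq_one.1 h1]
      exact hg'
  · intro q
    rw [hQ]
    exact Iff.rfl

end Pool.Agent.Work.MP_e9e200_al.UP

end

section

set_option autoImplicit false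

namespace Pool.Agent.Work.MP_e9e200_al.UP

theorem I_KS3 (h : StKS1) : StKS3 := by
  intro G _ D L hG u hu F
  have h1 : u ∈ KS L.S (commutator G) := by
    rw [h G L.S (commutator G) (fun n hn => by
      show Abelianization.of n ∈ L.QS
      have : Abelianization.of n = 1 := (QuotientGroup.eq_one_iff n).2 hn
      rw [this]
      exact one_mem _)]
    have h2 : Finsupp.mapDomain (fun s : L.S => ((s : G) : G ⧸ commutator G)) u.coeff =
        Finsupp.mapDomain (fun q : L.QS => ((q : Abelianization G) : G ⧸ commutator G))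
          (L.prj u).coeff := by
      have h3 := Finsupp.mapDomain_comp (v := u.coeff)
        (f := fun s : L.S => (⟨Abelianization.of (s : G), s.2⟩ : L.QS))
        (g := fun q : L.QS => ((q : Abelianization G) : G ⧸ commutator G))
      exact h3
    rw [h2, hu, MonoidAlgebra.coeff_zero, Finsupp.mapDomain_zero]
    rfl
  unfold KS at h1
  clear hu
  induction h1 using Submodule.span_induction with
  | mem x hx =>
    obtain ⟨n, hn, rfl⟩ := hx
    obtain ⟨t0, ht0⟩ := hG.N_ex n hn F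
    refine ⟨t0, fun t ht z => ?_⟩
    exact Submodule.smul_mem _ z (Submodule.subset_span ⟨n, ht0 t ht, rfl⟩)
  | zero =>
    refine ⟨0, fun t _ z => ?_⟩
    rw [mul_zero]
    exact zero_mem _
  | add x y _ _ hx hy =>
    obtain ⟨t1, h1⟩ := hx
    obtain ⟨t2, h2⟩ := hy
    refine ⟨max t1 t2, fun t ht z => ?_⟩
    rw [mul_add]
    exact add_mem (h1 t ((le_max_left _ _).trans ht) z) (h2 t ((le_max_right _ _).trans ht) z)
  | smul r x _ hx =>
    obtain ⟨t1, h1⟩ := hx
    refine ⟨t1, fun t ht z => ?_⟩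
    rw [smul_eq_mul, ← mul_assoc]
    exact h1 t ht (z * r)

end Pool.Agent.Work.MP_e9e200_al.UP

end
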