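import Pool.Agent.Work.MP_e9e200_al.Bd.B12
import Pool.Agent.Work.MP_e9e200_al.Bd.B22

/-! Bundle of small proof modules (one section per former module). -/

section

/-!
# Project O3, item CLR: the degrees of the maps `rr`
-/

set_option autoImplicit false

namespace Pool.Agent.Work.MP_e9e200_al.O3

open Set Metric Topology OnePoint Filter

namespace XCLR

/-! ### General topology -/

theorem norm_succ {n : ℕ} (x : E (n + 1)) : ‖x‖ = max |x 0| ‖(fun i => x i.succ : E n)‖ := by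
  apply le_antisymm
  · refine (pi_norm_le_iff_of_nonneg (le_trans (abs_nonneg _) (le_max_left _ _))).2 fun i => ?_
    refine Fin.cases ?_ (fun j => ?_) i
    · exact le_max_left _ _
    · exact le_trans (norm_le_pi_norm (fun i => x i.succ : E n) j) (le_max_right _ _)
  · refine max_le (norm_le_pi_norm x 0) ?_
    exact (pi_norm_le_iff_of_nonneg (norm_nonneg _)).2 fun i => norm_le_pi_norm x i.succ

open scoped Classical in
/-- maps in polar coordinates -/
theorem polar {m : ℕ} {Z Y : Type} [TopologicalSpace Z] [TopologicalSpace Y] (z : Z)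
    (G : ℝ × E m → Z) (hG : ContinuousOn G (Icc 0 1 ×ˢ sphere 0 1))
    (h0 : ∀ y ∈ sphere (0 : E m) 1, G (0, y) = z) (τ : Y → ℝ) (hτ : Continuous τ)
    (x : Y → E m) (hx : Continuous x) (hr : ∀ p, τ p ∈ Icc (0 : ℝ) 1)
    (hz : ∀ p, x p = 0 → τ p = 0) :
    Continuous (fun p => if x p = 0 then z else G (τ p, ‖x p‖⁻¹ • x p)) := by
  have hsph : ∀ p, x p ≠ 0 → ‖x p‖⁻¹ • x p ∈ sphere (0 : E m) 1 := by
    intro p hp
    rw [mem_sphere_zero_iff_norm, norm_smul, norm_inv, norm_norm,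
      inv_mul_cancel₀ (norm_ne_zero_iff.2 hp)]
  rw [continuous_iff_continuousAt]
  intro p
  by_cases hp : x p = 0
  · have hval : (if x p = 0 then z else G (τ p, ‖x p‖⁻¹ • x p)) = z := if_pos hp
    change Tendsto _ _ (𝓝 (if x p = 0 then z else G (τ p, ‖x p‖⁻¹ • x p)))
    rw [hval]
    intro U hU
    have key : ∀ᶠ s in 𝓝 (0 : ℝ), ∀ y ∈ sphere (0 : E m) 1,
        (s, y) ∈ Icc (0 : ℝ) 1 ×ˢ sphere (0 : E m) 1 → G (s, y) ∈ U := by
      refine (isCompact_sphere (0 : E m) 1).eventually_forall_of_forall_eventually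
        (P := fun (s : ℝ) (y : E m) =>
          (s, y) ∈ Icc (0 : ℝ) 1 ×ˢ sphere (0 : E m) 1 → G (s, y) ∈ U) ?_
      intro y hy
      have hcw : ContinuousWithinAt G (Icc 0 1 ×ˢ sphere 0 1) (0, y) :=
        hG _ ⟨⟨le_rfl, zero_le_one⟩, hy⟩
      have hU' : U ∈ 𝓝 (G (0, y)) := by rwa [h0 y hy]
      exact eventually_nhdsWithin_iff.1 (hcw.eventually hU')
    have h2 : ∀ᶠ q in 𝓝 p, ∀ y ∈ sphere (0 : E m) 1,
        (τ q, y) ∈ Icc (0 : ℝ) 1 ×ˢ sphere (0 : E m) 1 → G (τ q, y) ∈ U := by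
      have := hτ.continuousAt (x := p)
      unfold ContinuousAt at this
      rw [hz p hp] at this
      exact this.eventually key
    change ∀ᶠ q in 𝓝 p, (if x q = 0 then z else G (τ q, ‖x q‖⁻¹ • x q)) ∈ U
    filter_upwards [h2] with q hq
    split_ifs with h
    · exact mem_of_mem_nhds hU
    · exact hq _ (hsph q h) ⟨hr q, hsph q h⟩
  · have hev : ∀ᶠ q in 𝓝 p, x q ≠ 0 := hx.continuousAt.eventually_ne hp
    have hc : ContinuousAt (fun q => G (τ q, ‖x q‖⁻¹ • x q)) p := by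
      have hcw : ContinuousWithinAt G (Icc 0 1 ×ˢ sphere 0 1) (τ p, ‖x p‖⁻¹ • x p) :=
        hG _ ⟨hr p, hsph p hp⟩
      have hin : ContinuousAt (fun q => (τ q, ‖x q‖⁻¹ • x q)) p := by
        have hn : ContinuousAt (fun q => ‖x q‖⁻¹) p :=
          (hx.norm.continuousAt).inv₀ (norm_ne_zero_iff.2 hp)
        have hs : ContinuousAt (fun q => ‖x q‖⁻¹ • x q) p := hn.smul hx.continuousAt
        exact hτ.continuousAt.prodMk hs
      refine ContinuousWithinAt.tendsto hcw |>.comp ?_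
      refine tendsto_nhdsWithin_iff.2 ⟨hin, ?_⟩
      filter_upwards [hev] with q hq
      exact ⟨hr q, hsph q hq⟩
    refine hc.congr ?_
    filter_upwards [hev] with q hq
    rw [if_neg hq]

/-- a map of the ball which is infinity on the sphere is large near the sphere -/
theorem far {m l p : ℕ} (F : E m → W l p) (hF : ContinuousOn F (closedBall 0 1))
    (hS : ∀ x ∈ sphere (0 : E m) 1, F x = ∞) (R : ℝ) :
    ∃ r < 1, ∀ x, ‖x‖ ≤ 1 → r < ‖x‖ → ∀ (a : Fin l) (y : E p),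
      F x = ((a, y) : Fin l × E p) → R ≤ ‖y‖ := by
  set T : Set (W l p) := (↑) '' ((univ : Set (Fin l)) ×ˢ closedBall (0 : E p) R) with hT
  have hTc : IsClosed T := by
    refine OnePoint.isClosed_image_coe.2 ⟨?_, ?_⟩
    · exact isClosed_univ.prod isClosed_closedBall
    · exact isCompact_univ.prod (isCompact_closedBall 0 R)
  have hK : IsClosed (closedBall (0 : E m) 1 ∩ F ⁻¹' T) :=
    hF.preimage_isClosed_of_isClosed isClosed_closedBall hTc
  have hKc : IsCompact (closedBall (0 : E m) 1 ∩ F ⁻¹' T) :=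
    (isCompact_closedBall (0 : E m) 1).of_isClosed_subset hK inter_subset_left
  rcases (closedBall (0 : E m) 1 ∩ F ⁻¹' T).eq_empty_or_nonempty with he | hne
  · refine ⟨0, one_pos, fun x hx _ a y hy => ?_⟩
    by_contra hcon
    have : x ∈ closedBall (0 : E m) 1 ∩ F ⁻¹' T := by
      refine ⟨by simpa using hx, ⟨(a, y), ⟨mem_univ _, ?_⟩, hy.symm⟩⟩
      simpa using (not_le.mp hcon).le
    rw [he] at this
    exact this
  · obtain ⟨x0, hx0, hmax⟩ := hKc.exists_isMaxOn hne continuous_norm.continuousOn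
    have h1 : ‖x0‖ ≤ 1 := by simpa using hx0.1
    have h2 : ‖x0‖ ≠ 1 := by
      intro h
      have h3 := hS x0 (by simpa using h)
      have h4 : F x0 ∈ T := hx0.2
      rw [h3] at h4
      obtain ⟨q, _, hq⟩ := h4
      exact OnePoint.coe_ne_infty _ hq
    refine ⟨‖x0‖, lt_of_le_of_ne h1 h2, fun x hx hlt a y hy => ?_⟩
    by_contra hcon
    have : x ∈ closedBall (0 : E m) 1 ∩ F ⁻¹' T := by
      refine ⟨by simpa using hx, ⟨(a, y), ⟨mem_univ _, ?_⟩, hy.symm⟩⟩
      simpa using (not_le.mp hcon).le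
    exact absurd (hmax this) (not_le.mpr hlt)

/-- maps of wedges given by maps of balls -/
theorem wedge_cont (hOPC : StOPC) {k m l p : ℕ} (F : Fin k → E m → W l p)
    (hF : ∀ i, ContinuousOn (F i) (closedBall 0 1))
    (hS : ∀ i, ∀ x ∈ sphere (0 : E m) 1, F i x = ∞) (κ : E m → E m) (hκ : Continuous κ)
    (h1 : ∀ y, ‖κ y‖ ≤ 1) (h2 : ∀ r < (1 : ℝ), ∃ ρ : ℝ, ∀ y, ρ ≤ ‖y‖ → r < ‖κ y‖) :
    Continuous (fun w : W k m => (w.elim ∞ (fun q => F q.1 (κ q.2)) : W l p)) := by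
  rw [continuous_iff_continuousAt]
  intro w
  rcases w with _ | q
  · refine ((hOPC (W k m) l p _ (∞ : W k m)).1 rfl).2 fun R => ?_
    have hid := ((hOPC (W k m) k m id (∞ : W k m)).1 rfl).1 continuousAt_id
    choose r hr1 hr2 using fun i => far (F i) (hF i) (hS i) R
    choose ρ hρ using fun i => h2 (r i) (hr1 i)
    have hall : ∀ᶠ z' in 𝓝 (∞ : W k m), ∀ i : Fin k, ∀ (a : Fin k) (y : E m),
        z' = (((a, y) : Fin k × E m) : W k m) → ρ i ≤ ‖y‖ :=
      eventually_all.2 fun i => hid (ρ i)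
    filter_upwards [hall] with z' hz' a y hy
    rcases z' with _ | ⟨i, y'⟩
    · exact absurd hy.symm (OnePoint.coe_ne_infty _)
    · exact hr2 i (κ y') (h1 y') (hρ i y' (hz' i i y' rfl)) a y hy
  · have hc : Continuous (fun q : Fin k × E m => F q.1 (κ q.2)) := by
      refine continuous_prod_of_discrete_left.2 fun i => ?_
      exact (hF i).comp_continuous hκ fun y => by simpa using h1 y
    exact (OnePoint.continuousAt_coe (x := q)).2 hc.continuousAt

/-! ### The coordinates -/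

/-- the inverse of the coordinates of the suspension -/
noncomputable def kp {n : ℕ} (y : E (n + 1)) : E (n + 1) :=
  Fin.cons (y 0 / (1 + |y 0|)) (phi (fun i => y i.succ))

theorem kp_zero {n : ℕ} (y : E (n + 1)) : kp y 0 = y 0 / (1 + |y 0|) := rfl

theorem kp_tail {n : ℕ} (y : E (n + 1)) :
    (fun i : Fin n => kp y i.succ) = phi (fun i => y i.succ) := by
  funext i
  simp [kp]

theorem kp_cont (hPHI : StPHI) {n : ℕ} : Continuous (kp : E (n + 1) → E (n + 1)) := by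
  refine continuous_pi fun i => ?_
  refine Fin.cases ?_ (fun j => ?_) i
  · change Continuous fun y : E (n + 1) => y 0 / (1 + |y 0|)
    refine Continuous.div (by fun_prop) (by fun_prop) fun y => ?_
    have := abs_nonneg (y 0)
    positivity
  · have h1 : Continuous fun y : E (n + 1) => (fun i : Fin n => y i.succ : E n) := by fun_prop
    have h2 : Continuous fun y : E (n + 1) => phi (fun i : Fin n => y i.succ : E n) :=
      (hPHI n).2.2.1.comp h1
    have h3 := (continuous_apply j).comp h2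
    refine h3.congr fun y => ?_
    simp [kp]

theorem frac_lt (t : ℝ) (h : 0 ≤ t) : t / (1 + t) < 1 := by
  rw [div_lt_one (by linarith)]
  linarith

theorem kp_abs {n : ℕ} (y : E (n + 1)) : |kp y 0| = |y 0| / (1 + |y 0|) := by
  rw [kp_zero, abs_div]
  congr 1
  exact abs_of_pos (by positivity)

theorem kp_norm (hPHI : StPHI) {n : ℕ} (y : E (n + 1)) : ‖kp y‖ =
    max (|y 0| / (1 + |y 0|)) (‖(fun i => y i.succ : E n)‖ / (1 + ‖(fun i => y i.succ : E n)‖)) := by
  rw [norm_succ, kp_abs, kp_tail, ((hPHI n).1 _).2.2]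

theorem kp_le (hPHI : StPHI) {n : ℕ} (y : E (n + 1)) : ‖kp y‖ ≤ 1 := by
  rw [kp_norm hPHI]
  exact max_le (frac_lt _ (abs_nonneg _)).le (frac_lt _ (norm_nonneg _)).le

theorem frac_gt (r t : ℝ) (hr : r < 1) (h : 1 / (1 - r) ≤ t) : r < t / (1 + t) := by
  have h1 : 0 < 1 - r := by linarith
  have h2 : 0 < 1 / (1 - r) := by positivity
  have h3 : 1 ≤ t * (1 - r) := by rwa [div_le_iff₀ h1] at h
  rw [lt_div_iff₀ (by linarith)]
  nlinarith

theorem kp_far (hPHI : StPHI) {n : ℕ} (r : ℝ) (hr : r < 1) :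
    ∃ ρ : ℝ, ∀ y : E (n + 1), ρ ≤ ‖y‖ → r < ‖kp y‖ := by
  refine ⟨1 / (1 - r), fun y hy => ?_⟩
  rw [kp_norm hPHI]
  rw [norm_succ] at hy
  rcases le_max_iff.1 hy with h | h
  · exact lt_of_lt_of_le (frac_gt r _ hr h) (le_max_left _ _)
  · exact lt_of_lt_of_le (frac_gt r _ hr h) (le_max_right _ _)

theorem kp_cons (hPHI : StPHI) {n : ℕ} (τ : ℝ) (hτ : |τ| < 1) (z : E n) (hz : ‖z‖ < 1) :
    kp (Fin.cons (τ / (1 - |τ|)) (psi z) : E (n + 1)) = Fin.cons τ z := by
  have h1 : 0 < 1 - |τ| := by linarith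
  unfold kp
  have e1 : (Fin.cons (τ / (1 - |τ|)) (psi z) : E (n + 1)) 0 = τ / (1 - |τ|) := rfl
  have e2 : (fun i : Fin n => (Fin.cons (τ / (1 - |τ|)) (psi z) : E (n + 1)) i.succ) = psi z := by
    funext i
    simp
  rw [e1, e2, ((hPHI n).2.1 z hz).1]
  congr 1
  rw [abs_div, abs_of_pos h1]
  field_simp
  ring

/-- the suspension of a projection -/
theorem pr_comb {k n : ℕ} (a : Fin k) (w : W k n) (τ : ℝ) :
    pr a (comb w τ) = comb (pr a w) τ := by
  rcases w with _ | ⟨b, y⟩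
  · rfl
  · change pr a (if |τ| < 1 then
      (((b, Fin.cons (τ / (1 - |τ|)) y) : Fin k × E (n + 1)) : W k (n + 1)) else ∞) =
      comb (if b = a then (((0, y) : Fin 1 × E n) : W 1 n) else ∞) τ
    by_cases hτ : |τ| < 1
    · by_cases hb : b = a
      · rw [if_pos hτ, if_pos hb]
        change (if b = a then (((0, Fin.cons (τ / (1 - |τ|)) y) : Fin 1 × E (n + 1)) :
          W 1 (n + 1)) else ∞) = if |τ| < 1 then
          (((0, Fin.cons (τ / (1 - |τ|)) y) : Fin 1 × E (n + 1)) : W 1 (n + 1)) else ∞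
        rw [if_pos hb, if_pos hτ]
      · rw [if_pos hτ, if_neg hb]
        change (if b = a then (((0, Fin.cons (τ / (1 - |τ|)) y) : Fin 1 × E (n + 1)) :
          W 1 (n + 1)) else ∞) = ∞
        rw [if_neg hb]
    · rw [if_neg hτ]
      by_cases hb : b = a
      · rw [if_pos hb]
        change ∞ = if |τ| < 1 then
          (((0, Fin.cons (τ / (1 - |τ|)) y) : Fin 1 × E (n + 1)) : W 1 (n + 1)) else ∞
        rw [if_neg hτ]
      · rw [if_neg hb]
        rfl

theorem comb_far {k n : ℕ} (w : W k n) (τ : ℝ) (hτ : 1 ≤ |τ|) : comb w τ = ∞ := by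
  rcases w with _ | ⟨b, y⟩
  · rfl
  · change (if |τ| < 1 then
      (((b, Fin.cons (τ / (1 - |τ|)) y) : Fin k × E (n + 1)) : W k (n + 1)) else ∞) = ∞
    rw [if_neg (not_lt.2 hτ)]

theorem comb_coe {k n : ℕ} (b : Fin k) (y : E n) (τ : ℝ) (hτ : |τ| < 1) :
    comb (((b, y) : Fin k × E n) : W k n) τ =
      (((b, Fin.cons (τ / (1 - |τ|)) y) : Fin k × E (n + 1)) : W k (n + 1)) := by
  change (if |τ| < 1 then
      (((b, Fin.cons (τ / (1 - |τ|)) y) : Fin k × E (n + 1)) : W k (n + 1)) else ∞) = _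
  rw [if_pos hτ]

theorem comb_inf {k n : ℕ} (τ : ℝ) : comb (∞ : W k n) τ = ∞ := rfl

/-! ### Splitting -/

/-- first time function -/
noncomputable def s0 (ρ : ℝ) : ℝ := min 1 (2 - (max ρ (1 / 2))⁻¹)

theorem s0_cont : Continuous s0 := by
  unfold s0
  refine continuous_const.min (continuous_const.sub (Continuous.inv₀ (by fun_prop) fun ρ => ?_))
  have : (1 / 2 : ℝ) ≤ max ρ (1 / 2) := le_max_right _ _
  positivity

theorem s0_mem (ρ : ℝ) : s0 ρ ∈ Icc (0 : ℝ) 1 := by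
  refine ⟨?_, min_le_left _ _⟩
  unfold s0
  refine le_min zero_le_one ?_
  have h : (1 / 2 : ℝ) ≤ max ρ (1 / 2) := le_max_right _ _
  have h2 : (max ρ (1 / 2))⁻¹ ≤ (1 / 2 : ℝ)⁻¹ := inv_anti₀ (by norm_num) h
  norm_num at h2 ⊢
  linarith

theorem s0_small (ρ : ℝ) (h : ρ ≤ 1 / 2) : s0 ρ = 0 := by
  unfold s0
  rw [max_eq_right h]
  norm_num

theorem s0_mid (ρ : ℝ) (h : 1 / 2 ≤ ρ) (h1 : ρ ≤ 1) : s0 ρ = 2 - ρ⁻¹ := by
  unfold s0
  rw [max_eq_left h, min_eq_right]
  have : 1 ≤ ρ⁻¹ := (one_le_inv₀ (by linarith)).2 h1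
  linarith

theorem s0_large (ρ : ℝ) (h : 1 ≤ ρ) : s0 ρ = 1 := by
  unfold s0
  rw [max_eq_left (by linarith), min_eq_left]
  have : ρ⁻¹ ≤ 1 := inv_le_one_of_one_le₀ h
  linarith

/-- the time of the homotopy -/
noncomputable def tau {m : ℕ} (p : ℝ × E m) : ℝ :=
  (1 - max 0 (min 1 p.1)) * s0 ‖p.2‖ + max 0 (min 1 p.1) * min 1 ‖p.2‖

theorem tau_cont {m : ℕ} : Continuous (tau : ℝ × E m → ℝ) := by
  unfold tau
  have := s0_cont
  fun_prop

theorem tau_mem {m : ℕ} (p : ℝ × E m) : tau p ∈ Icc (0 : ℝ) 1 := by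
  have h1 := s0_mem ‖p.2‖
  have h2 : min 1 ‖p.2‖ ∈ Icc (0 : ℝ) 1 := ⟨le_min zero_le_one (norm_nonneg _), min_le_left _ _⟩
  have h3 : max 0 (min 1 p.1) ∈ Icc (0 : ℝ) 1 :=
    ⟨le_max_left _ _, max_le zero_le_one (min_le_left _ _)⟩
  unfold tau
  obtain ⟨h1, h1'⟩ := h1
  obtain ⟨h2, h2'⟩ := h2
  obtain ⟨h3, h3'⟩ := h3
  constructor
  · have := mul_nonneg (sub_nonneg.2 h3') h1
    have := mul_nonneg h3 h2
    linarith
  · nlinarith

theorem tau_zero {m : ℕ} (x : E m) : tau (0, x) = s0 ‖x‖ := by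
  unfold tau
  norm_num

theorem tau_one {m : ℕ} (x : E m) : tau (1, x) = min 1 ‖x‖ := by
  unfold tau
  norm_num

theorem tau_large {m : ℕ} (t : ℝ) (x : E m) (h : 1 ≤ ‖x‖) : tau (t, x) = 1 := by
  unfold tau
  rw [s0_large _ h, min_eq_left h]
  ring

theorem tau_orig {m : ℕ} (t : ℝ) : tau (t, (0 : E m)) = 0 := by
  unfold tau
  simp only [norm_zero]
  rw [s0_small 0 (by norm_num), min_eq_right zero_le_one]
  ring

open scoped Classical in
theorem split (hDEG : StDEG) (hDADD : StDADD) {m : ℕ} (A : E m → W 1 m)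
    (hA : ContinuousOn A (closedBall 0 1)) (hAs : ∀ x ∈ sphere (0 : E m) 1, A x = ∞)
    (G : ℝ × E m → W 1 m) (hG : ContinuousOn G (Icc 0 1 ×ˢ sphere 0 1))
    (hG0 : ∀ y ∈ sphere (0 : E m) 1, G (0, y) = ∞) (hG1 : ∀ y ∈ sphere (0 : E m) 1, G (1, y) = ∞)
    (u : E m → W 1 m) (hu1 : ∀ x, ‖x‖ ≤ 1 / 2 → u x = A ((2 : ℝ) • x))
    (hu2 : ∀ x, 1 / 2 < ‖x‖ → ‖x‖ ≤ 1 → u x = G (2 - ‖x‖⁻¹, ‖x‖⁻¹ • x))
    (hu3 : ∀ x, 1 < ‖x‖ → u x = ∞) :
    CS ∞ (fun x : E m => if ‖x‖ ≤ 1 / 2 then A ((2 : ℝ) • x) else ∞) ∧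
    deg 0 u = deg 0 (fun x : E m => if ‖x‖ ≤ 1 / 2 then A ((2 : ℝ) • x) else ∞) +
      deg 0 (fun x : E m => if x = 0 then ∞ else G (min 1 ‖x‖, ‖x‖⁻¹ • x)) := by
  have hsph : ∀ x : E m, x ≠ 0 → ‖x‖⁻¹ • x ∈ sphere (0 : E m) 1 := by
    intro x hx
    rw [mem_sphere_zero_iff_norm, norm_smul, norm_inv, norm_norm,
      inv_mul_cancel₀ (norm_ne_zero_iff.2 hx)]
  have hn2 : ∀ x : E m, ‖(2 : ℝ) • x‖ = 2 * ‖x‖ := by
    intro x
    rw [norm_smul, Real.norm_two]
  set H : ℝ × E m → W 1 m := fun p => if p.2 = 0 then ∞ else G (tau p, ‖p.2‖⁻¹ • p.2) with hH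
  have hHc : Continuous H := polar ∞ G hG hG0 tau tau_cont (fun p => p.2) continuous_snd tau_mem
    (fun p hp => by
      obtain ⟨t, x⟩ := p
      change x = 0 at hp
      rw [hp]
      exact tau_orig t)
  have hHs : ∀ t x, 1 ≤ ‖x‖ → H (t, x) = ∞ := by
    intro t x hx
    have hx0 : x ≠ 0 := by
      rintro rfl
      rw [norm_zero] at hx
      linarith
    change (if x = 0 then ∞ else G (tau (t, x), ‖x‖⁻¹ • x)) = ∞
    rw [if_neg hx0, tau_large t x hx]
    exact hG1 _ (hsph x hx0)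
  have hc1 : CS ∞ (fun x : E m => if ‖x‖ ≤ 1 / 2 then A ((2 : ℝ) • x) else ∞) := by
    refine ⟨?_, 1, fun x hx => if_neg (by linarith)⟩
    refine continuous_if_le continuous_norm continuous_const ?_ continuousOn_const ?_
    · refine hA.comp (by fun_prop) fun x hx => ?_
      have hx' : ‖x‖ ≤ 1 / 2 := hx
      rw [mem_closedBall_zero_iff, hn2]
      linarith
    · intro x hx
      refine hAs _ ?_
      rw [mem_sphere_zero_iff_norm, hn2, hx]
      norm_num
  have hc2 : CS ∞ (fun x => H (0, x)) := ⟨by fun_prop, 1, fun x hx => hHs 0 x hx⟩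
  have hho : Ho ∞ (fun x => H (0, x)) (fun x => H (1, x)) :=
    ⟨H, hHc, ⟨1, hHs⟩, fun _ => rfl, fun _ => rfl⟩
  have hH1 : (fun x => H (1, x)) =
      fun x : E m => if x = 0 then ∞ else G (min 1 ‖x‖, ‖x‖⁻¹ • x) := by
    funext x
    change (if x = 0 then ∞ else G (tau (1, x), ‖x‖⁻¹ • x)) = _
    rw [tau_one]
  have hH0s : ∀ x : E m, ‖x‖ ≤ 1 / 2 → H (0, x) = ∞ := by
    intro x hx
    change (if x = 0 then ∞ else G (tau (0, x), ‖x‖⁻¹ • x)) = _
    split_ifs with h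
    · rfl
    · rw [tau_zero, s0_small _ hx]
      exact hG0 _ (hsph x h)
  have hH0l : ∀ x : E m, 1 / 2 < ‖x‖ → H (0, x) = u x := by
    intro x hx
    have hx0 : x ≠ 0 := by
      rintro rfl
      rw [norm_zero] at hx
      linarith
    rcases le_or_gt ‖x‖ 1 with h1 | h1
    · change (if x = 0 then ∞ else G (tau (0, x), ‖x‖⁻¹ • x)) = _
      rw [if_neg hx0, tau_zero, s0_mid _ hx.le h1, hu2 x hx h1]
    · rw [hHs 0 x h1.le, hu3 x h1]
  have hadd := hDADD 1 m 0 (fun x : E m => if ‖x‖ ≤ 1 / 2 then A ((2 : ℝ) • x) else ∞)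
    (fun x => H (0, x)) u hc1 hc2 (fun x => ?_) (fun x => ?_) (fun x => ?_) (fun x h1 h2 => ?_)
  · refine ⟨hc1, ?_⟩
    rw [hadd.2, (hDEG 1 m 0).2 _ _ hho, hH1]
  · rcases le_or_gt ‖x‖ (1 / 2) with h | h
    · exact Or.inr (hH0s x h)
    · exact Or.inl (if_neg (not_le.2 h))
  · rcases le_or_gt ‖x‖ (1 / 2) with h | h
    · left
      rw [if_pos h, hu1 x h]
    · exact Or.inr (if_neg (not_le.2 h))
  · rcases le_or_gt ‖x‖ (1 / 2) with h | h
    · exact Or.inr (hH0s x h)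
    · exact Or.inl (hH0l x h).symm
  · rcases le_or_gt ‖x‖ (1 / 2) with h | h
    · change (if ‖x‖ ≤ 1 / 2 then A ((2 : ℝ) • x) else ∞) = ∞ at h1
      rw [if_pos h] at h1
      rw [hu1 x h, h1]
    · rw [← hH0l x h]
      exact h2

/-! ### Cells -/

section
open Topology.RelCWComplex

variable {X : Type} [TopologicalSpace X] [T2Space X] {C : Set X} [CWComplex C]

theorem map_sphere (hSK : StSK) {n : ℕ} (a : cell C n) (x : E n) (hx : x ∈ sphere (0 : E n) 1) :
    map n a x ∈ sk C n :=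
  ((hSK X C).2.2.1 n a).1 ⟨x, hx, rfl⟩

omit [T2Space X] in
theorem map_ball {n : ℕ} (a : cell C n) (x : E n) (hx : ‖x‖ < 1) :
    map n a x ∈ openCell n a := ⟨x, by simpa using hx, rfl⟩

theorem map_closed (hSK : StSK) {n : ℕ} (a : cell C n) (x : E n) (hx : ‖x‖ ≤ 1) :
    map n a x ∈ sk C (n + 1) :=
  ((hSK X C).2.2.1 n a).2.2 ⟨x, by simpa using hx, rfl⟩

theorem sk_le (hSK : StSK) (n : ℕ) : sk C 1 ⊆ sk C (n + 1) := by
  induction n with
  | zero => exact Subset.rfl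
  | succ n ih => exact ih.trans ((hSK X C).1 (n + 1)).2.2

theorem Q_sk (hSK : StSK) (hQQ : StQQ) {n : ℕ} (b : cell C n) (x : X) (hx : x ∈ sk C n) :
    qq (fun _ : Fin 1 => map n b) x = ∞ := by
  refine (hQQ X C 1 n (fun _ => b) (Function.injective_of_subsingleton _)).2.2.1 x fun _ hxb => ?_
  exact Set.disjoint_left.1 ((hSK X C).2.2.1 n b).2.1 hxb hx

theorem Q_cont (hQQ : StQQ) {n : ℕ} (b : cell C n) :
    ContinuousOn (qq (fun _ : Fin 1 => map n b)) (sk C (n + 1)) :=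
  (hQQ X C 1 n (fun _ => b) (Function.injective_of_subsingleton _)).1

theorem Q_open (hQQ : StQQ) {n : ℕ} (b : cell C n) (y : E n) (hy : ‖y‖ < 1) :
    qq (fun _ : Fin 1 => map n b) (map n b y) = (((0, psi y) : Fin 1 × E n) : W 1 n) :=
  (hQQ X C 1 n (fun _ => b) (Function.injective_of_subsingleton _)).2.1 0 y (by simpa using hy)

open scoped Classical in
theorem deg_piece (hSK : StSK) (hQQ : StQQ) (hDNRM : StDNRM) (hDPR : StDPR) {n : ℕ}
    (a b : cell C n)
    (hCS : CS ∞ (fun x : E n => if ‖x‖ ≤ 1 / 2 then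
      qq (fun _ : Fin 1 => map n b) (map n a ((2 : ℝ) • x)) else ∞)) :
    deg (0 : Fin 1) (fun x : E n => if ‖x‖ ≤ 1 / 2 then
      qq (fun _ : Fin 1 => map n b) (map n a ((2 : ℝ) • x)) else ∞) = if a = b then 1 else 0 := by
  have hn2 : ∀ x : E n, ‖(2 : ℝ) • x‖ = 2 * ‖x‖ := by
    intro x
    rw [norm_smul, Real.norm_two]
  have hval : ∀ x : E n, ‖x‖ = 1 / 2 →
      qq (fun _ : Fin 1 => map n b) (map n a ((2 : ℝ) • x)) = ∞ := by
    intro x hx
    refine Q_sk hSK hQQ b _ (map_sphere hSK a _ ?_)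
    rw [mem_sphere_zero_iff_norm, hn2, hx]
    norm_num
  by_cases hab : a = b
  · subst hab
    rw [if_pos rfl]
    refine hDNRM 1 n 0 _ 0 hCS (fun x b' y hxy => ?_) ?_
    · refine ⟨Subsingleton.elim _ _, fun i => ?_⟩
      by_cases h1 : ‖x‖ ≤ 1 / 2
      · rw [if_pos h1] at hxy
        rcases lt_or_eq_of_le h1 with h2 | h2
        · have h3 : ‖(2 : ℝ) • x‖ < 1 := by
            rw [hn2]
            linarith
          rw [Q_open hQQ a _ h3] at hxy
          have h4 : psi ((2 : ℝ) • x) = y := congrArg Prod.snd (OnePoint.coe_injective hxy)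
          rw [← h4]
          unfold psi
          have h5 : 0 < (1 - ‖(2 : ℝ) • x‖)⁻¹ := inv_pos.2 (by linarith)
          simp only [Pi.smul_apply, smul_eq_mul, Pi.zero_apply]
          rw [mul_nonneg_iff_of_pos_left h5, mul_nonneg_iff_of_pos_left two_pos]
        · rw [hval x h2] at hxy
          exact absurd hxy.symm (OnePoint.coe_ne_infty _)
      · rw [if_neg h1] at hxy
        exact absurd hxy.symm (OnePoint.coe_ne_infty _)
    · change (if ‖(0 : E n)‖ ≤ 1 / 2 then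
        qq (fun _ : Fin 1 => map n a) (map n a ((2 : ℝ) • (0 : E n))) else ∞) ≠ ∞
      rw [if_pos (by rw [norm_zero]; norm_num), Q_open hQQ a _ (by
        rw [hn2, norm_zero]
        norm_num)]
      exact OnePoint.coe_ne_infty _
  · rw [if_neg hab]
    refine (hDPR 1 n 0).2.2.1 _ fun x b' y hxy => ?_
    exfalso
    by_cases h1 : ‖x‖ ≤ 1 / 2
    · rw [if_pos h1] at hxy
      rcases lt_or_eq_of_le h1 with h2 | h2
      · have h3 : ‖(2 : ℝ) • x‖ < 1 := by
          rw [hn2]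
          linarith
        have h4 : qq (fun _ : Fin 1 => map n b) (map n a ((2 : ℝ) • x)) = ∞ := by
          refine (hQQ X C 1 n (fun _ => b) (Function.injective_of_subsingleton _)).2.2.1 _
            fun _ hxb => ?_
          have hdis : Disjoint (openCell n a) (openCell n b) :=
            disjoint_openCell_of_ne (fun h => hab (by simpa using h))
          exact Set.disjoint_left.1 hdis (map_ball a _ h3) hxb
        rw [h4] at hxy
        exact absurd hxy.symm (OnePoint.coe_ne_infty _)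
      · rw [hval x h2] at hxy
        exact absurd hxy.symm (OnePoint.coe_ne_infty _)
    · rw [if_neg h1] at hxy
      exact absurd hxy.symm (OnePoint.coe_ne_infty _)

variable {n : ℕ} {y₀ : X} {D : ℝ × X → X}

theorem QD_cont (hQQ : StQQ) (hNH : NH C (n + 1) y₀ D) (b : cell C (n + 1)) {Y : Type}
    [TopologicalSpace Y] (S : Set Y) (τ : Y → ℝ) (g : Y → X) (hτ : ContinuousOn τ S)
    (hg : ContinuousOn g S) (hτm : ∀ p ∈ S, τ p ∈ Icc (0 : ℝ) 1)
    (hgm : ∀ p ∈ S, g p ∈ sk C (n + 1)) :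
    ContinuousOn (fun p => qq (fun _ : Fin 1 => map (n + 1) b) (D (τ p, g p))) S := by
  have h1 : ContinuousOn (fun p => D (τ p, g p)) S :=
    hNH.cont.comp (hτ.prodMk hg) fun p hp => ⟨hτm p hp, hgm p hp⟩
  exact (Q_cont hQQ b).comp h1 fun p hp =>
    hNH.sk n (Nat.lt_succ_self n) _ (hgm p hp) _ (hτm p hp)

theorem QD_zero (hSK : StSK) (hQQ : StQQ) (hNH : NH C (n + 1) y₀ D) (b : cell C (n + 1)) (x : X)
    (hx : x ∈ sk C (n + 1)) : qq (fun _ : Fin 1 => map (n + 1) b) (D (0, x)) = ∞ := by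
  rw [hNH.zero x hx]
  exact Q_sk hSK hQQ b x hx

theorem Q_base (hSK : StSK) (hQQ : StQQ) (hy : y₀ ∈ sk C 1) (b : cell C (n + 1)) :
    qq (fun _ : Fin 1 => map (n + 1) b) y₀ = ∞ :=
  Q_sk hSK hQQ b _ (sk_le hSK n hy)

theorem QD_one (hSK : StSK) (hQQ : StQQ) (hy : y₀ ∈ sk C 1) (hNH : NH C (n + 1) y₀ D)
    (b : cell C (n + 1)) (x : X)
    (hx : x ∈ sk C (n + 1)) : qq (fun _ : Fin 1 => map (n + 1) b) (D (1, x)) = ∞ := by
  rw [hNH.one x hx]
  exact Q_base hSK hQQ hy b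

/-- on the lower skeleton -/
theorem QD_low (hSK : StSK) (hQQ : StQQ) (hNH : NH C (n + 1) y₀ D) (b : cell C (n + 1)) (x : X)
    (hx : x ∈ sk C n) (t : ℝ) (ht : t ∈ Icc (0 : ℝ) 1) :
    qq (fun _ : Fin 1 => map (n + 1) b) (D (t, x)) = ∞ := by
  rcases n with _ | j
  · have h0 := (hSK X C).2.2.2.2.1
    rw [h0] at hx
    exact absurd hx (Set.notMem_empty x)
  · exact Q_sk hSK hQQ b _ (hNH.sk j (by omega) x hx t ht)

/-- the map of the ball given by a cell of dimension `n` -/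
noncomputable def Fb (D : ℝ × X → X) (b : cell C (n + 1)) (c : cell C n) (x : E (n + 1)) :
    W 1 (n + 1) :=
  qq (fun _ : Fin 1 => map (n + 1) b) (D ((x 0 + 1) / 2, map n c (fun i => x i.succ)))

theorem Fb_mem (x : E (n + 1)) (hx : ‖x‖ ≤ 1) : (x 0 + 1) / 2 ∈ Icc (0 : ℝ) 1 ∧
    ‖(fun i => x i.succ : E n)‖ ≤ 1 := by
  rw [norm_succ] at hx
  obtain ⟨h1, h2⟩ := abs_le.1 (le_trans (le_max_left _ _) hx)
  exact ⟨⟨by linarith, by linarith⟩, le_trans (le_max_right _ _) hx⟩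

theorem Fb_cont (hSK : StSK) (hQQ : StQQ) (hNH : NH C (n + 1) y₀ D) (b : cell C (n + 1))
    (c : cell C n) : ContinuousOn (Fb D b c) (closedBall 0 1) := by
  refine QD_cont hQQ hNH b (closedBall (0 : E (n + 1)) 1) (fun x => (x 0 + 1) / 2)
    (fun x => map n c (fun i => x i.succ)) (by fun_prop) ?_ ?_ ?_
  · refine (RelCWComplex.continuousOn n c).comp (by fun_prop) fun x hx => ?_
    rw [mem_closedBall_zero_iff] at hx ⊢
    exact (Fb_mem x hx).2
  · intro x hx
    exact (Fb_mem x (by simpa using hx)).1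
  · intro x hx
    exact map_closed hSK c _ (Fb_mem x (by simpa using hx)).2

theorem Fb_sphere (hSK : StSK) (hQQ : StQQ) (hy : y₀ ∈ sk C 1) (hNH : NH C (n + 1) y₀ D)
    (b : cell C (n + 1)) (c : cell C n) (x : E (n + 1)) (hx : x ∈ sphere (0 : E (n + 1)) 1) :
    Fb D b c x = ∞ := by
  rw [mem_sphere_zero_iff_norm] at hx
  obtain ⟨h1, h2⟩ := Fb_mem x hx.le
  have h3 := map_closed hSK c _ h2
  rw [norm_succ] at hx
  unfold Fb
  rcases le_total |x 0| ‖(fun i => x i.succ : E n)‖ with h | h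
  · rw [max_eq_right h] at hx
    exact QD_low hSK hQQ hNH b _ (map_sphere hSK c _ (by simpa using hx)) _ h1
  · rw [max_eq_left h] at hx
    rcases (abs_eq zero_le_one).1 hx with h4 | h4
    · rw [h4]
      norm_num
      exact QD_one hSK hQQ hy hNH b _ h3
    · rw [h4]
      norm_num
      exact QD_zero hSK hQQ hNH b _ h3

/-- the map of the wedge -/
noncomputable def Ps (D : ℝ × X → X) (b : cell C (n + 1)) {k : ℕ} (e : Fin k → cell C n)
    (w : W k (n + 1)) : W 1 (n + 1) :=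
  w.elim ∞ (fun q => Fb D b (e q.1) (kp q.2))

theorem Ps_cont (hSK : StSK) (hQQ : StQQ) (hPHI : StPHI) (hOPC : StOPC) (hy : y₀ ∈ sk C 1)
    (hNH : NH C (n + 1) y₀ D) (b : cell C (n + 1)) {k : ℕ} (e : Fin k → cell C n) :
    Continuous (Ps D b e) :=
  wedge_cont hOPC (fun i => Fb D b (e i)) (fun i => Fb_cont hSK hQQ hNH b (e i))
    (fun i => Fb_sphere hSK hQQ hy hNH b (e i)) kp (kp_cont hPHI) (kp_le hPHI)
    (fun r hr => kp_far hPHI r hr)

open scoped Classical in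
theorem Ps_eq (hSK : StSK) (hQQ : StQQ) (hPHI : StPHI) (hy : y₀ ∈ sk C 1)
    (hNH : NH C (n + 1) y₀ D) (a b : cell C (n + 1)) {k : ℕ} (e : Fin k → cell C n)
    (he : Function.Injective e) (hcov : ∀ x ∈ sphere (0 : E (n + 1)) 1, map (n + 1) a x ∈ sk C n ∨
      ∃ i, map (n + 1) a x ∈ openCell n (e i)) (x : E (n + 1)) :
    (if x = 0 then ∞ else qq (fun _ : Fin 1 => map (n + 1) b)
      (D (min 1 ‖x‖, map (n + 1) a (‖x‖⁻¹ • x)))) =
    Ps D b e (Sus (fun x => qq (fun i => map n (e i)) (map (n + 1) a x)) x) := by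
  have hsph : ∀ x : E (n + 1), x ≠ 0 → ‖x‖⁻¹ • x ∈ sphere (0 : E (n + 1)) 1 := by
    intro x hx
    rw [mem_sphere_zero_iff_norm, norm_smul, norm_inv, norm_norm,
      inv_mul_cancel₀ (norm_ne_zero_iff.2 hx)]
  unfold Sus
  by_cases hx0 : x = 0
  · rw [if_pos hx0, hx0, comb_far _ _ (by rw [norm_zero]; norm_num)]
    rfl
  · rw [if_neg hx0]
    have hs := hsph x hx0
    have hpos : 0 < ‖x‖ := norm_pos_iff.2 hx0
    rcases le_or_gt 1 ‖x‖ with h1 | h1
    · rw [min_eq_left h1, comb_far _ _ (by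
        rw [le_abs]
        left
        linarith), QD_one hSK hQQ hy hNH b _ (map_sphere hSK a _ hs)]
      rfl
    · rw [min_eq_right h1.le]
      have hτ : |2 * ‖x‖ - 1| < 1 := by
        rw [abs_lt]
        constructor <;> linarith
      change _ = Ps D b e (comb (qq (fun i => map n (e i)) (map (n + 1) a (‖x‖⁻¹ • x)))
        (2 * ‖x‖ - 1))
      rcases hcov _ hs with hlow | ⟨i, hi⟩
      · have hq : qq (fun i => map n (e i)) (map (n + 1) a (‖x‖⁻¹ • x)) = ∞ := by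
          refine (hQQ X C k n e he).2.2.1 _ fun j hj => ?_
          exact Set.disjoint_left.1 ((hSK X C).2.2.1 n (e j)).2.1 hj hlow
        rw [hq, comb_inf, QD_low hSK hQQ hNH b _ hlow _ ⟨hpos.le, h1.le⟩]
        rfl
      · obtain ⟨z, hz, hzw⟩ := hi
        have hz' : ‖z‖ < 1 := by simpa using hz
        have hq : qq (fun i => map n (e i)) (map (n + 1) a (‖x‖⁻¹ • x)) =
            (((i, psi z) : Fin k × E n) : W k n) := by
          rw [← hzw]
          exact (hQQ X C k n e he).2.1 i z hz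
        rw [hq, comb_coe _ _ _ hτ]
        change _ = Fb D b (e i) (kp (Fin.cons ((2 * ‖x‖ - 1) / (1 - |2 * ‖x‖ - 1|)) (psi z)))
        rw [kp_cons hPHI _ hτ z hz']
        unfold Fb
        have e1 : (Fin.cons (2 * ‖x‖ - 1) z : E (n + 1)) 0 = 2 * ‖x‖ - 1 := rfl
        have e2 : (fun i : Fin n => (Fin.cons (2 * ‖x‖ - 1) z : E (n + 1)) i.succ) = z := by
          funext i
          simp
        rw [e1, e2, hzw]
        congr 3
        ring

end

end XCLR

open scoped Classical in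
theorem I_CLR (hQQ : StQQ) (hU2 : StU2) (hDEG : StDEG) (hDADD : StDADD) (hDNRM : StDNRM)
    (hCOMB : StCOMB) (hSUSC : StSUSC) (hHO : StHO) (hDPR : StDPR) (hSK : StSK) (hPHI : StPHI)
    (hOPC : StOPC) (hIFN : StIFN) : StCLR := by
  have _ := hCOMB
  have _ := hHO
  have _ := hIFN
  intro X _ _ C _ n y₀ D hy hNH
  refine ⟨fun c b => deg (0 : Fin 1) (fun x : E (n + 1) =>
    if ‖x‖ < 1 then XCLR.Fb D b c (XCLR.kp (psi x)) else ∞), ?_⟩
  intro a b k e he hcov
  have hmap : ContinuousOn (Topology.RelCWComplex.map (n + 1) a) (closedBall 0 1) :=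
    Topology.RelCWComplex.continuousOn (n + 1) a
  have hmapS : ContinuousOn (Topology.RelCWComplex.map (n + 1) a) (sphere 0 1) :=
    hmap.mono sphere_subset_closedBall
  have hsp := XCLR.split hDEG hDADD
    (fun x => qq (fun _ : Fin 1 => Topology.RelCWComplex.map (n + 1) b)
      (Topology.RelCWComplex.map (n + 1) a x))
    ((XCLR.Q_cont hQQ b).comp hmap fun x hx => XCLR.map_closed hSK a x (by simpa using hx))
    (fun x hx => XCLR.Q_sk hSK hQQ b _ (XCLR.map_sphere hSK a x hx))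
    (fun p => qq (fun _ : Fin 1 => Topology.RelCWComplex.map (n + 1) b)
      (D (p.1, Topology.RelCWComplex.map (n + 1) a p.2)))
    (XCLR.QD_cont hQQ hNH b (Icc 0 1 ×ˢ sphere 0 1) (fun p => p.1)
      (fun p => Topology.RelCWComplex.map (n + 1) a p.2) continuousOn_fst
      (hmapS.comp continuousOn_snd fun p hp => hp.2) (fun p hp => hp.1)
      (fun p hp => XCLR.map_sphere hSK a _ hp.2))
    (fun y hy' => XCLR.QD_zero hSK hQQ hNH b _ (XCLR.map_sphere hSK a y hy'))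
    (fun y hy' => XCLR.QD_one hSK hQQ hy hNH b _ (XCLR.map_sphere hSK a y hy'))
    (fun x => qq (fun _ : Fin 1 => Topology.RelCWComplex.map (n + 1) b) (rr C n y₀ D a x))
    (fun x hx => by
      unfold rr
      rw [if_pos hx])
    (fun x hx hx1 => by
      unfold rr
      rw [if_neg (not_le.2 hx), if_pos hx1])
    (fun x hx => by
      unfold rr
      rw [if_neg (not_le.2 (by linarith)), if_neg (not_le.2 hx)]
      exact XCLR.Q_base hSK hQQ hy b)
  rw [hsp.2, XCLR.deg_piece hSK hQQ hDNRM hDPR a b hsp.1]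
  congr 1
  have heq := funext (XCLR.Ps_eq hSK hQQ hPHI hy hNH a b e he hcov)
  have hg : ContinuousOn (fun x => qq (fun i => Topology.RelCWComplex.map n (e i))
      (Topology.RelCWComplex.map (n + 1) a x)) (sphere 0 1) :=
    ((hQQ X C k n e he).1).comp hmapS fun x hx => XCLR.map_sphere hSK a x hx
  have hLo := (hSUSC k n).1 _ hg
  rw [heq, hU2 k 1 n 0 (XCLR.Ps D b e) (XCLR.Ps_cont hSK hQQ hPHI hOPC hy hNH b e) rfl _
    ⟨hLo.1, 1, hLo.2⟩]
  refine Finset.sum_congr rfl fun i _ => ?_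
  congr 1
  · rw [(hDPR k (n + 1) i).2.1]
    unfold inc
    congr 1
    funext x
    unfold Sus
    rw [XCLR.pr_comb, (hQQ X C k n e he).2.2.2]
  · congr 1
    funext x
    unfold io
    split_ifs
    · rfl
    · rfl

end Pool.Agent.Work.MP_e9e200_al.O3

end

section

/-!
# Project O3: FDG, incidence numbers of a map of a face
-/

set_option autoImplicit false

namespace Pool.Agent.Work.MP_e9e200_al.O3

open Set Metric Topology OnePoint
open Topology.RelCWComplex

namespace XFDG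

theorem qq_fac {X : Type} {n : ℕ} (z : X) (F : E (n + 1) → X) (c : PartialEquiv (E (n + 1)) X)
    (hz : qq (fun _ : Fin 1 => c) z = (∞ : W 1 (n + 1))) :
    (fun x => qq (fun _ : Fin 1 => c) (fac z F x)) =
      fac (∞ : W 1 (n + 1)) (fun x => qq (fun _ : Fin 1 => c) (F x)) := by
  funext x
  unfold fac
  split_ifs with h
  · rfl
  · exact hz

end XFDG

theorem I_FDG (hSUSP : StSUSP) (hQQ : StQQ) (hDEG : StDEG) : StFDG := by
  have _ := hDEG
  intro X _ _ C _ n z F hF hsk hz c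
  have h1 := hQQ X C 1 (n + 1) (fun _ : Fin 1 => c) (fun a b _ => Subsingleton.elim a b)
  obtain ⟨hcont, -, hinf, -⟩ := h1
  have hz' : qq (fun _ : Fin 1 => map (n + 1) c) z = (∞ : W 1 (n + 1)) := by
    apply hinf
    intro _ hmem
    have h2 := (I_SK X C).2.2.1 (n + 1) c
    exact (Set.disjoint_left.mp h2.2.1) hmem hz
  have hLo : Lo (∞ : W 1 (n + 1)) (fun x => qq (fun _ : Fin 1 => map (n + 1) c) (F x)) := by
    refine ⟨?_, ?_⟩
    · exact hcont.comp_continuous hF.1 hsk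
    · intro x hx
      simp only [hF.2 x hx]
      exact hz'
  unfold inc
  rw [XFDG.qq_fac z F (map (n + 1) c) hz']
  exact hSUSP 1 n 0 _ hLo

end Pool.Agent.Work.MP_e9e200_al.O3

end

section

set_option autoImplicit false

namespace Pool.Agent.Work.MP_e9e200_al.O3

open Set Metric Topology OnePoint
open Topology.RelCWComplex

namespace XHUR

theorem sk_mono (hSK : StSK) {X : Type} [TopologicalSpace X] [T2Space X] (C : Set X)
    [CWComplex C] : Monotone (fun n => sk C n) :=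
  monotone_nat_of_le_succ fun n => ((hSK X C).1 n).2.2

/-- lift of a function to a subset -/
theorem lift {X Y : Type} [TopologicalSpace X] [TopologicalSpace Y] (A : Set X) (y : A)
    (s : Set Y) (f : Y → X) (hf : ContinuousOn f s) (hA : MapsTo f s A) :
    ∃ g : Y → A, ContinuousOn g s ∧ ∀ x ∈ s, (g x : X) = f x := by
  classical
  refine ⟨fun x => if h : f x ∈ A then ⟨f x, h⟩ else y, ?_, fun x hx => by simp [hA hx]⟩
  rw [Topology.IsInducing.subtypeVal.continuousOn_iff]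
  refine hf.congr fun x hx => ?_
  simp [hA hx]

theorem inc_congr {X : Type} {n : ℕ} (b b' : E (n + 1) → X) (c : PartialEquiv (E n) X)
    (h : ∀ x ∈ sphere (0 : E (n + 1)) 1, b x = b' x) : inc b c = inc b' c := by
  unfold inc
  congr 1
  funext x
  unfold Sus
  by_cases hx : x = 0
  · subst hx
    have hc : ∀ w : W 1 n, comb w (2 * ‖(0 : E (n + 1))‖ - 1) = ∞ := by
      intro w
      unfold comb
      induction w using OnePoint.rec with
      | infty => rfl
      | coe p => simp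
    rw [hc, hc]
  · have hn : ‖x‖ ≠ 0 := norm_ne_zero_iff.mpr hx
    have hs : ‖x‖⁻¹ • x ∈ sphere (0 : E (n + 1)) 1 := by
      rw [mem_sphere_zero_iff_norm, norm_smul, norm_inv, norm_norm, inv_mul_cancel₀ hn]
    show comb (qq (fun _ => c) (b (‖x‖⁻¹ • x))) (2 * ‖x‖ - 1) =
      comb (qq (fun _ => c) (b' (‖x‖⁻¹ • x))) (2 * ‖x‖ - 1)
    rw [h _ hs]

theorem deg_inf (hHOMD : StHOMD) (hCL2 : StCL2) (n : ℕ) :
    deg (0 : Fin 1) (fun _ : E (n + 1) => (∞ : W 1 (n + 1))) = 0 := by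
  obtain ⟨Δ, hΔ⟩ := hHOMD 1 n 0
  have h := hΔ (fun _ => ∞) ⟨continuous_const, 0, fun _ _ => rfl⟩
  rw [(hCL2 n _ _).2, map_one] at h
  exact (Multiplicative.ofAdd.injective (h.symm.trans (ofAdd_zero).symm))

/-- cellular approximation inside of a skeleton -/
theorem capA (hCAP : StCAP) (hSK : StSK) {X : Type} [TopologicalSpace X] [T2Space X] (C : Set X)
    [CWComplex C] (k n : ℕ) (F : E k → X) (hk : k < n) (hF : ContinuousOn F (closedBall 0 1))
    (hFA : MapsTo F (closedBall 0 1) (sk C (n + 1))) (hFs : MapsTo F (sphere 0 1) (sk C n)) :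
    ∃ H : ℝ × E k → X, ContinuousOn H (Icc 0 1 ×ˢ closedBall 0 1) ∧
      (∀ t ∈ Icc (0 : ℝ) 1, ∀ x ∈ closedBall (0 : E k) 1, H (t, x) ∈ sk C (n + 1) ∧
        (F x ∈ sk C n → H (t, x) = F x)) ∧
      (∀ x ∈ closedBall (0 : E k) 1, H (0, x) = F x ∧ H (1, x) ∈ sk C n) := by
  obtain ⟨A, hA, hAI⟩ := (hSK X C).2.2.2.1 (n + 1)
  have hsk : sk (A : Set X) n = sk C n := by
    unfold sk
    ext x
    simp only [mem_iUnion]
    constructor
    · rintro ⟨m, hm, e, he⟩
      exact ⟨m, hm, e.1, he⟩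
    · rintro ⟨m, hm, e, he⟩
      have h1 : e ∈ A.I m := by rw [hAI]; exact Nat.lt_succ_of_lt hm
      exact ⟨m, hm, ⟨e, h1⟩, he⟩
  have h := hCAP X (A : Set X) k n F hk hF (by rw [hA]; exact hFA) (by rw [hsk]; exact hFs)
  rw [hsk, hA] at h
  exact h

/-- the clamp of the unit ball -/
noncomputable def cb {k : ℕ} (x : E k) : E k := (max 1 ‖x‖)⁻¹ • x

theorem cb_cont {k : ℕ} : Continuous (cb : E k → E k) := by
  unfold cb
  have h : Continuous fun x : E k => (max 1 ‖x‖)⁻¹ :=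
    (continuous_const.max continuous_norm).inv₀ fun x =>
      (lt_of_lt_of_le one_pos (le_max_left 1 ‖x‖)).ne'
  exact h.smul continuous_id

theorem cb_mem {k : ℕ} (x : E k) : cb x ∈ closedBall (0 : E k) 1 := by
  rw [mem_closedBall_zero_iff]
  have h0 : 0 < max 1 ‖x‖ := lt_of_lt_of_le one_pos (le_max_left 1 ‖x‖)
  rw [cb, norm_smul, norm_inv, Real.norm_of_nonneg h0.le, inv_mul_le_iff₀ h0, mul_one]
  exact le_max_right 1 ‖x‖

theorem cb_id {k : ℕ} (x : E k) (h : ‖x‖ ≤ 1) : cb x = x := by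
  rw [cb, max_eq_left h, inv_one, one_smul]

theorem cb_sph {k : ℕ} (x : E k) (h : 1 ≤ ‖x‖) : cb x ∈ sphere (0 : E k) 1 := by
  have h0 : 0 < ‖x‖ := lt_of_lt_of_le one_pos h
  rw [mem_sphere_zero_iff_norm, cb, max_eq_right h, norm_smul, norm_inv, norm_norm,
    inv_mul_cancel₀ h0.ne']

/-- cellular approximation of a map with compact support -/
theorem approx (hCAP : StCAP) (hSK : StSK) (hHO : StHO) {X : Type} [TopologicalSpace X]
    [T2Space X] (C : Set X) [CWComplex C] (k n : ℕ) (hk : k < n) (y : X) (hy : y ∈ sk C n)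
    (yA : sk C (n + 1)) (hyA : (yA : X) = y) (F : E k → sk C (n + 1)) (hF : Lo yA F) :
    ∃ F₁ : E k → X, Lo y F₁ ∧ (∀ x, F₁ x ∈ sk C n) ∧
      ∃ F₂ : E k → sk C (n + 1), (∀ x, (F₂ x : X) = F₁ x) ∧ Lo yA F₂ ∧ Ho yA F F₂ := by
  have hFX : Continuous fun x => (F x : X) := continuous_subtype_val.comp hF.1
  have hs : ∀ x : E k, 1 ≤ ‖x‖ → (F x : X) = y := fun x hx => by rw [hF.2 x hx, hyA]
  obtain ⟨H, hH, hHm, hH01⟩ := capA hCAP hSK C k n (fun x => (F x : X)) hk hFX.continuousOn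
    (fun x _ => (F x).2) (fun x hx => by
      show (F x : X) ∈ sk C n
      rw [hs x (mem_sphere_zero_iff_norm.mp hx).ge]; exact hy)
  have h0 : (0 : ℝ) ∈ Icc (0 : ℝ) 1 := ⟨le_refl 0, zero_le_one⟩
  have h1 : (1 : ℝ) ∈ Icc (0 : ℝ) 1 := ⟨zero_le_one, le_refl 1⟩
  have hcl : ∀ t ∈ Icc (0 : ℝ) 1, ∀ x : E k, 1 ≤ ‖x‖ → H (t, cb x) = y := by
    intro t ht x hx
    have h2 : (F (cb x) : X) = y :=
      hs _ (mem_sphere_zero_iff_norm.mp (cb_sph x hx)).ge
    have h3 := (hHm t ht (cb x) (cb_mem x)).2 (by rw [h2]; exact hy)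
    exact h3.trans h2
  have hc1 : Continuous fun x => H (1, cb x) :=
    hH.comp_continuous (by have := cb_cont (k := k); fun_prop) fun x => ⟨h1, cb_mem x⟩
  have hm1 : ∀ x : E k, H (1, cb x) ∈ sk C n := fun x => (hH01 _ (cb_mem x)).2
  have hmA : ∀ t ∈ Icc (0 : ℝ) 1, ∀ x : E k, H (t, cb x) ∈ sk C (n + 1) :=
    fun t ht x => (hHm t ht _ (cb_mem x)).1
  obtain ⟨G, hG, hGe⟩ := lift (sk C (n + 1)) yA (Icc (0 : ℝ) 1 ×ˢ (univ : Set (E k)))
    (fun p => H (p.1, cb p.2))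
    (hH.comp (by have := cb_cont (k := k); fun_prop) fun p hp => ⟨hp.1, cb_mem p.2⟩)
    fun p hp => hmA p.1 hp.1 p.2
  have hG2 : ∀ t ∈ Icc (0 : ℝ) 1, ∀ x : E k, (G (t, x) : X) = H (t, cb x) :=
    fun t ht x => hGe (t, x) ⟨ht, mem_univ x⟩
  refine ⟨fun x => H (1, cb x), ⟨hc1, fun x hx => hcl 1 h1 x hx⟩, hm1, fun x => G (1, x),
    fun x => hG2 1 h1 x, ⟨?_, ?_⟩, ?_⟩
  · exact hG.comp_continuous (by fun_prop) fun x => ⟨h1, mem_univ x⟩
  · intro x hx
    apply Subtype.ext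
    rw [hG2 1 h1 x, hcl 1 h1 x hx, hyA]
  · have h := (hHO k (sk C (n + 1)) yA).2.2.2.2 G 1 hG (by
      intro t ht x hx
      apply Subtype.ext
      rw [hG2 t ht x, hcl t ht x hx, hyA])
    have h4 : (fun x => G (0, x)) = F := by
      funext x
      apply Subtype.ext
      rw [hG2 0 h0 x, (hH01 _ (cb_mem x)).1]
      by_cases hx : ‖x‖ ≤ 1
      · rw [cb_id x hx]
      · have hx' : 1 ≤ ‖x‖ := (not_le.mp hx).le
        rw [hs x hx']
        exact hs _ (mem_sphere_zero_iff_norm.mp (cb_sph x hx')).ge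
    rw [h4] at h
    exact h

/-- a path from the extension property -/
theorem pathB (hEXT : StEXT) {X : Type} [TopologicalSpace X] (A : Set X) (h : Ext A 0)
    (z y : A) : ∃ γ : ℝ → A, ContinuousOn γ (Icc 0 1) ∧ γ 0 = z ∧ γ 1 = y := by
  obtain ⟨G, hG, hGe⟩ := (hEXT X A 0 ⟨z, z.2⟩).1.mp h
    (fun x : E 1 => if x 0 < 0 then z else y) (by
      intro x hx
      apply ContinuousAt.continuousWithinAt
      have hx1 : |x 0| = 1 := by
        have h1 := mem_sphere_zero_iff_norm.mp hx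
        have h2 : ‖x‖ = ‖x 0‖ := by
          rw [Pi.norm_def]
          simp
        rw [h2] at h1
        exact h1
      have hc : Continuous fun x : E 1 => x 0 := by fun_prop
      by_cases h0 : x 0 < 0
      · have hev : ∀ᶠ x' in 𝓝 x, x' 0 < 0 := hc.continuousAt.eventually_lt continuousAt_const h0
        refine (continuousAt_const (y := z)).congr ?_
        filter_upwards [hev] with x' hx'
        rw [if_pos hx']
      · have h3 : 0 < x 0 := by
          rcases abs_eq (zero_le_one' ℝ) |>.mp hx1 with h4 | h4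
          · rw [h4]; exact one_pos
          · exact absurd (by rw [h4]; norm_num) h0
        have hev : ∀ᶠ x' in 𝓝 x, 0 < x' 0 := continuousAt_const.eventually_lt hc.continuousAt h3
        refine (continuousAt_const (y := y)).congr ?_
        filter_upwards [hev] with x' hx'
        rw [if_neg (not_lt.mpr hx'.le)])
  have hn : ∀ t : ℝ, ‖(fun _ : Fin 1 => t)‖ = |t| := by
    intro t
    rw [pi_norm_const, Real.norm_eq_abs]
  refine ⟨fun t => G (fun _ => 2 * t - 1), hG.comp (by fun_prop) ?_, ?_, ?_⟩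
  · intro t ht
    rw [mem_closedBall_zero_iff, hn, abs_le]
    constructor <;> linarith [ht.1, ht.2]
  · show G (fun _ => 2 * 0 - 1) = z
    rw [hGe (by rw [mem_sphere_zero_iff_norm, hn]; norm_num)]
    norm_num
  · show G (fun _ => 2 * 1 - 1) = y
    rw [hGe (by rw [mem_sphere_zero_iff_norm, hn]; norm_num)]
    norm_num

theorem deg_hom (hCL5 : StCL5) (hHOMD : StHOMD) (hQQ : StQQ) (hSK : StSK) {X : Type}
    [TopologicalSpace X] [T2Space X] (C : Set X) [CWComplex C] (n : ℕ) (c : cell C (n + 2))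
    (y : sk C (n + 3)) (hy : (y : X) ∈ sk C (n + 2)) :
    ∃ d : HomotopyGroup (Fin (n + 1 + 1)) (sk C (n + 3)) y →* Multiplicative ℤ,
      ∀ f : E (n + 1 + 1) → sk C (n + 3), CS y f → d (cl y f) =
        Multiplicative.ofAdd (deg (0 : Fin 1) (fun x => qq (fun _ => map (n + 2) c) (f x : X))) := by
  obtain ⟨hq, -, hq3, -⟩ := hQQ X C 1 (n + 2) (fun _ => c) (Function.injective_of_subsingleton _)
  have hd := ((hSK X C).2.2.1 (n + 2) c).2.1
  have hyi : qq (fun _ : Fin 1 => map (n + 2) c) (y : X) = ∞ :=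
    hq3 _ fun _ hc => Set.disjoint_left.mp hd hc hy
  obtain ⟨Φ, hΦ⟩ := hCL5 (n + 1) (sk C (n + 3)) (W 1 (n + 2)) y ∞
    (fun x => qq (fun _ : Fin 1 => map (n + 2) c) (x : X))
    (continuousOn_iff_continuous_domRestrict.mp hq) hyi
  obtain ⟨Δ, hΔ⟩ := hHOMD 1 (n + 1) 0
  refine ⟨Δ.comp Φ, fun f hf => ?_⟩
  rw [MonoidHom.comp_apply, hΦ f hf]
  refine hΔ _ ⟨(continuousOn_iff_continuous_domRestrict.mp hq).comp hf.1, ?_⟩
  obtain ⟨r, hr⟩ := hf.2
  exact ⟨r, fun x hx => by beta_reduce; rw [hr x hx]; exact hyi⟩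

/-- the attaching map of a cell as a based map of a cube -/
theorem att (hINV : StINV) (hFDG : StFDG) (hSPH : StSPH) (hBAS : StBAS) (hEXT : StEXT)
    (hNUL : StNUL) (hEXH : StEXH) (hCL1 : StCL1) (hCL2 : StCL2) (hSK : StSK) {X : Type}
    [TopologicalSpace X] [T2Space X] (C : Set X) [CWComplex C] (n : ℕ) (b : cell C (n + 3))
    (yB : sk C (n + 3)) (yA : sk C (n + 4)) (hAB : (yA : X) = yB) (hy : (yB : X) ∈ sk C (n + 2))
    (hE : Ext (sk C (n + 3)) 0) :
    ∃ F : E (n + 2) → sk C (n + 3), Lo yB F ∧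
      (∀ c : cell C (n + 2), inc (map (n + 3) b) (map (n + 2) c) =
        deg (0 : Fin 1) (fun x => qq (fun _ => map (n + 2) c) (F x : X))) ∧
      ∀ FA : E (n + 1 + 1) → sk C (n + 4), (∀ x, (FA x : X) = F x) →
        cl yA FA = (1 : HomotopyGroup (Fin (n + 1 + 1)) (sk C (n + 4)) yA) := by
  obtain ⟨hfr, -, hcl⟩ := (hSK X C).2.2.1 (n + 3) b
  have hcont : ContinuousOn (map (n + 3) b) (closedBall 0 1) := RelCWComplex.continuousOn _ _
  have hmS : MapsTo (map (n + 3) b) (sphere 0 1) (sk C (n + 3)) :=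
    fun x hx => hfr ⟨x, hx, rfl⟩
  have hmB : MapsTo (map (n + 3) b) (closedBall 0 1) (sk C (n + 4)) :=
    fun x hx => hcl ⟨x, hx, rfl⟩
  have hmono : sk C (n + 3) ⊆ sk C (n + 4) := ((hSK X C).1 (n + 3)).2.2
  obtain ⟨g, hg, hge⟩ := lift (sk C (n + 3)) yB (sphere (0 : E (n + 3)) 1) (map (n + 3) b)
    (hcont.mono sphere_subset_closedBall) hmS
  obtain ⟨z, F, H, hF, -, -, hH, hH0, hH1, -⟩ := hSPH (n + 2) (sk C (n + 3)) g hg
  obtain ⟨γ, hγ, hγ0, hγ1⟩ := pathB hEXT (sk C (n + 3)) hE z yB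
  obtain ⟨F', H', hF', -, hH', hH'e, -⟩ := hBAS (n + 2) (sk C (n + 3)) z yB F γ hF hγ hγ0 hγ1
  have h0 : (0 : ℝ) ∈ Icc (0 : ℝ) 1 := ⟨le_refl 0, zero_le_one⟩
  have h1 : (1 : ℝ) ∈ Icc (0 : ℝ) 1 := ⟨zero_le_one, le_refl 1⟩
  refine ⟨F', hF', fun c => ?_, fun FA hFA => ?_⟩
  · have e1 : inc (map (n + 3) b) (map (n + 2) c) = inc (fun x => (H (0, x) : X)) (map (n + 2) c) :=
      inc_congr _ _ _ fun x hx => by rw [hH0 x hx, hge x hx]
    have e2 := hINV X C (n + 2) (fun p => (H p : X)) (continuous_subtype_val.comp_continuousOn hH)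
      (fun t _ x _ => (H (t, x)).2) c
    have e3 : inc (fun x => (H (1, x) : X)) (map (n + 2) c) =
        inc (fun x => (H' (0, x) : X)) (map (n + 2) c) :=
      inc_congr _ _ _ fun x hx => by rw [hH1 x hx, (hH'e x hx).1]
    have e4 := hINV X C (n + 2) (fun p => (H' p : X))
      (continuous_subtype_val.comp_continuousOn hH') (fun t _ x _ => (H' (t, x)).2) c
    have e5 : inc (fun x => (H' (1, x) : X)) (map (n + 2) c) =
        inc (fac (yB : X) (fun x => (F' x : X))) (map (n + 2) c) :=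
      inc_congr _ _ _ fun x hx => by
        rw [(hH'e x hx).2]
        unfold fac
        split_ifs <;> rfl
    have e6 := hFDG X C (n + 1) (yB : X) (fun x => (F' x : X))
      ⟨continuous_subtype_val.comp hF'.1, fun x hx => by beta_reduce; rw [hF'.2 x hx]⟩
      (fun x => (F' x).2) hy c
    exact e1.trans (e2.trans (e3.trans (e4.trans (e5.trans e6))))
  · have hlo : Lo yA FA := by
      refine ⟨?_, fun x hx => Subtype.ext ?_⟩
      · rw [Topology.IsInducing.subtypeVal.continuous_iff]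
        have : (Subtype.val ∘ FA) = fun x => (F' x : X) := funext hFA
        rw [this]
        exact continuous_subtype_val.comp hF'.1
      · rw [hFA, hF'.2 x hx, hAB]
    have hrev : ContinuousOn (fun p : ℝ × E (n + 3) => ((1 - p.1, p.2) : ℝ × E (n + 3)))
        (Icc 0 1 ×ˢ sphere 0 1) := by fun_prop
    have hrm : MapsTo (fun p : ℝ × E (n + 3) => ((1 - p.1, p.2) : ℝ × E (n + 3)))
        (Icc 0 1 ×ˢ sphere 0 1) (Icc 0 1 ×ˢ sphere 0 1) := fun p hp =>
      ⟨⟨by linarith [hp.1.2], by linarith [hp.1.1]⟩, hp.2⟩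
    obtain ⟨G1, hG1, hG1m, hG1e⟩ := hEXH (n + 2) X (sk C (n + 4))
      (fun p => (H (1 - p.1, p.2) : X)) (map (n + 3) b)
      (continuous_subtype_val.comp_continuousOn (hH.comp hrev hrm))
      (fun t _ x _ => hmono (H (1 - t, x)).2) hcont hmB (fun x hx => by
        show map (n + 3) b x = (H (1 - 1, x) : X)
        rw [sub_self, hH0 x hx, hge x hx])
    obtain ⟨G2, hG2, hG2m, hG2e⟩ := hEXH (n + 2) X (sk C (n + 4))
      (fun p => (H' (1 - p.1, p.2) : X)) G1
      (continuous_subtype_val.comp_continuousOn (hH'.comp hrev hrm))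
      (fun t _ x _ => hmono (H' (1 - t, x)).2) hG1 hG1m (fun x hx => by
        rw [hG1e x hx]
        show (H (1 - 0, x) : X) = (H' (1 - 1, x) : X)
        rw [sub_self, sub_zero, hH1 x hx, (hH'e x hx).1])
    obtain ⟨G, hG, hGe⟩ := lift (sk C (n + 4)) yA (closedBall (0 : E (n + 3)) 1) G2 hG2 hG2m
    have hho : Ho yA FA (fun _ => yA) := by
      refine (hNUL (n + 2) (sk C (n + 4)) yA FA hlo).mpr ⟨G, hG, fun x hx => Subtype.ext ?_⟩
      rw [hGe x (sphere_subset_closedBall hx), hG2e x hx]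
      show (H' (1 - 0, x) : X) = _
      rw [sub_zero, (hH'e x hx).2]
      unfold fac
      split_ifs
      · exact (hFA _).symm
      · exact hAB.symm
    have hcs : CS yA FA := ⟨hlo.1, 1, hlo.2⟩
    have hcs' : CS yA (fun _ : E (n + 1 + 1) => yA) := ⟨continuous_const, 0, fun _ _ => rfl⟩
    rw [(hCL1 (n + 1 + 1) (sk C (n + 4)) yA FA (fun _ => yA) hcs hcs').mpr hho]
    exact (hCL2 (n + 1) (sk C (n + 4)) yA).2

end XHUR

theorem I_HUR (hINJ : StINJ) (hBD : StBD) (hFDG : StFDG) (hINV : StINV) (hIFN : StIFN)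
    (hQQ : StQQ) (hSPH : StSPH) (hCAP : StCAP) (hBAS : StBAS) (hEXT : StEXT) (hNUL : StNUL)
    (hEXH : StEXH) (hCL1 : StCL1) (hCL2 : StCL2) (hCL5 : StCL5) (hHOMD : StHOMD) (hESK : StESK)
    (hSK : StSK) (hFIN : StFIN) (hDEG : StDEG) (hHO : StHO) : StHUR := by
  have _ := hDEG
  intro X _ _ C _ n v hE hex
  have mono := XHUR.sk_mono hSK C
  obtain ⟨y, hyd⟩ : ∃ y : X, y = map 0 v 0 := ⟨_, rfl⟩
  have hy1 : y ∈ sk C 1 :=
    ((hSK X C).2.2.1 0 v).2.2 ⟨0, by simp, hyd.symm⟩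
  have hyk : ∀ k, 1 ≤ k → y ∈ sk C k := fun k hk => mono hk hy1
  have hyo : ∀ k, 1 ≤ k → ∀ c : cell C k, y ∉ openCell k c := fun k hk c hc =>
    Set.disjoint_left.mp ((hSK X C).2.2.1 k c).2.1 hc (hyk k hk)
  have hC0 : Ext C 0 := (hESK X C 0 2 (by omega)).mp (hE 0 (by omega))
  have hB0 : Ext (sk C (n + 3)) 0 := (hESK X C 0 (n + 3) (by omega)).mpr hC0
  have hA0 : Ext (sk C (n + 4)) 0 := (hESK X C 0 (n + 4) (by omega)).mpr hC0
  obtain ⟨yB, hyB⟩ : ∃ yB : sk C (n + 3), (yB : X) = y := ⟨⟨y, hyk _ (by omega)⟩, rfl⟩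
  obtain ⟨yA, hyA⟩ : ∃ yA : sk C (n + 4), (yA : X) = y := ⟨⟨y, hyk _ (by omega)⟩, rfl⟩
  refine ((hEXT X (sk C (n + 4)) (n + 2) ⟨y, hyk _ (by omega)⟩).2.2 hA0 yA).mpr fun F hF => ?_
  obtain ⟨F₁, hF1, hF1m, F₂, hF2e, hF2, hHo⟩ := XHUR.approx hCAP hSK hHO C (n + 2) (n + 3)
    (by omega) y (hyk _ (by omega)) yA hyA F hF
  refine (hHO (n + 2) (sk C (n + 4)) yA).2.2.1 _ _ _ hHo ?_
  -- the cells which are hit
  have hK : IsCompact (F₁ '' closedBall 0 1) :=
    (isCompact_closedBall (0 : E (n + 2)) 1).image hF1.1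
  have hKC : F₁ '' closedBall 0 1 ⊆ C := by
    rintro _ ⟨x, -, rfl⟩
    exact ((hSK X C).1 (n + 3)).2.1 (hF1m x)
  have hfin := hFIN X C _ hK hKC
  obtain ⟨S, hSd⟩ : ∃ S : Set (cell C (n + 2)),
      S = {c | (openCell (n + 2) c ∩ F₁ '' closedBall 0 1).Nonempty} := ⟨_, rfl⟩
  have hSf : S.Finite := by
    rw [hSd]
    refine Set.Finite.preimage (f := fun c : cell C (n + 2) => (⟨n + 2, c⟩ : Σ m, cell C m)) ?_ hfin
    intro c _ c' _ h
    exact eq_of_heq (Sigma.mk.inj_iff.mp h).2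
  have hnot : ∀ c : cell C (n + 2), c ∉ S → ∀ x, F₁ x ∉ openCell (n + 2) c := by
    intro c hc x hx
    rcases le_total 1 ‖x‖ with h | h
    · rw [hF1.2 x h] at hx
      exact hyo _ (by omega) c hx
    · apply hc
      rw [hSd]
      exact ⟨F₁ x, hx, ⟨x, mem_closedBall_zero_iff.mpr h, rfl⟩⟩
  have := hSf.to_subtype
  obtain ⟨k, ⟨e⟩⟩ := Finite.exists_equiv_fin S
  obtain ⟨a, had⟩ : ∃ a : Fin k → cell C (n + 2), ∀ i, a i = (e.symm i : cell C (n + 2)) :=
    ⟨_, fun _ => rfl⟩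
  have ha : Function.Injective a := by
    intro i j h
    rw [had, had] at h
    exact e.symm.injective (Subtype.ext h)
  have haS : ∀ c, (∀ i, a i ≠ c) → c ∉ S := by
    intro c hc hcS
    apply hc (e ⟨c, hcS⟩)
    rw [had, e.symm_apply_apply]
  have hcov : ∀ x ∈ closedBall (0 : E (n + 2)) 1, F₁ x ∈ sk C (n + 2) ∨
      ∃ i, F₁ x ∈ openCell (n + 2) (a i) := by
    intro x _
    by_cases h : F₁ x ∈ sk C (n + 2)
    · exact Or.inl h
    · right
      have h1 := hF1m x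
      rw [(hSK X C).2.1 (n + 3)] at h1
      simp only [mem_iUnion] at h1
      obtain ⟨m, hm, c, hc⟩ := h1
      rcases Nat.lt_or_ge m (n + 2) with h2 | h2
      · exfalso
        apply h
        rw [(hSK X C).2.1 (n + 2)]
        simp only [mem_iUnion]
        exact ⟨m, h2, c, hc⟩
      · obtain rfl : m = n + 2 := by omega
        by_contra hno
        push Not at hno
        refine hnot c (haS c fun i hi => hno i ?_) x hc
        rw [hi]; exact hc
  obtain ⟨z, hzd⟩ : ∃ z : Fin k → ℤ, ∀ i, z i =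
    deg (0 : Fin 1) (fun x => qq (fun _ => map (n + 2) (a i)) (F₁ x)) := ⟨_, fun _ => rfl⟩
  have hqy : ∀ c : cell C (n + 2), qq (fun _ : Fin 1 => map (n + 2) c) y = ∞ := fun c =>
    (hQQ X C 1 (n + 2) (fun _ => c) (Function.injective_of_subsingleton _)).2.2.1 y
      fun _ => hyo _ (by omega) c
  have hcyc : ∀ c : cell C (n + 1),
      ∑ i, z i * inc (map (n + 2) (a i)) (map (n + 1) c) = 0 := by
    intro c
    have h1 := hBD X C (n + 1) F₁ hF1.1.continuousOn (fun x _ => hF1m x)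
      (fun x hx => by
        rw [hF1.2 x (mem_sphere_zero_iff_norm.mp hx).ge]
        exact hyk _ (by omega)) k a ha hcov c
    rw [hIFN X C (n + 1) F₁ c fun x hx => by
      rw [hF1.2 x (mem_sphere_zero_iff_norm.mp hx).ge]
      exact hyo _ (by omega) c] at h1
    rw [← h1]
    refine Finset.sum_congr rfl fun i _ => ?_
    rw [hzd i]
    congr 2
    funext x
    unfold cut
    split_ifs with hx
    · rfl
    · rw [hF1.2 x (not_lt.mp hx)]
      exact hqy (a i)
  obtain ⟨l, b, w, hw1, hw2⟩ := hex k a z ha hcyc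
  choose G hGlo hGinc hGA using fun j => XHUR.att hINV hFDG hSPH hBAS hEXT hNUL hEXH hCL1 hCL2
    hSK C n (b j) yB yA (hyA.trans hyB.symm) (by rw [hyB]; exact hyk _ (by omega)) hB0
  -- the class
  obtain ⟨FB, hFB⟩ : ∃ FB : E (n + 1 + 1) → sk C (n + 3), ∀ x, (FB x : X) = F₁ x :=
    ⟨fun x => ⟨F₁ x, hF1m x⟩, fun _ => rfl⟩
  have hFBlo : Lo yB FB := by
    refine ⟨?_, fun x hx => Subtype.ext ?_⟩
    · rw [Topology.IsInducing.subtypeVal.continuous_iff]
      have : (Subtype.val ∘ FB) = F₁ := funext hFB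
      rw [this]
      exact hF1.1
    · rw [hFB, hF1.2 x hx, hyB]
  have cs : ∀ {m : ℕ} {Z : Type} [TopologicalSpace Z] {z : Z} {f : E m → Z}, Lo z f → CS z f :=
    fun h => ⟨h.1, 1, h.2⟩
  obtain ⟨γ, hγ⟩ : ∃ γ : HomotopyGroup (Fin (n + 1 + 1)) (sk C (n + 3)) yB,
      γ = cl yB FB * (List.ofFn fun j => (cl yB (G j) :
        HomotopyGroup (Fin (n + 1 + 1)) (sk C (n + 3)) yB) ^ (-w j)).prod := ⟨_, rfl⟩
  have hdeg0 : ∀ c : cell C (n + 2), deg (0 : Fin 1) (fun x => qq (fun _ => map (n + 2) c) (F₁ x)) =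
      ∑ j, w j * inc (map (n + 3) (b j)) (map (n + 2) c) := by
    intro c
    by_cases h : ∃ i, a i = c
    · obtain ⟨i, rfl⟩ := h
      rw [hw1 i, hzd i]
    · push Not at h
      rw [hw2 c h]
      have h2 : (fun x => qq (fun _ : Fin 1 => map (n + 2) c) (F₁ x)) = fun _ => ∞ := by
        funext x
        exact (hQQ X C 1 (n + 2) (fun _ => c)
          (Function.injective_of_subsingleton _)).2.2.1 (F₁ x) fun _ => hnot c (haS c h) x
      rw [h2]
      exact XHUR.deg_inf hHOMD hCL2 (n + 1)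
  have hγ1 : γ = 1 := by
    obtain ⟨G', hG', hG'γ⟩ := (hCL2 (n + 1) (sk C (n + 3)) yB).1 γ
    have hz : ∀ c : cell C (n + 2),
        deg (0 : Fin 1) (fun x => qq (fun _ => map (n + 2) c) (G' x : X)) = 0 := by
      intro c
      obtain ⟨d, hd⟩ := XHUR.deg_hom hCL5 hHOMD hQQ hSK C n c yB
        (by rw [hyB]; exact hyk _ (by omega))
      have h1 : d γ = 1 := by
        rw [hγ, map_mul, map_list_prod, List.map_ofFn, List.prod_ofFn, hd _ (cs hFBlo)]
        apply Multiplicative.toAdd.injective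
        rw [toAdd_mul, toAdd_ofAdd, toAdd_prod, toAdd_one]
        have h3 : (fun x => qq (fun _ : Fin 1 => map (n + 2) c) (FB x : X)) =
            fun x => qq (fun _ : Fin 1 => map (n + 2) c) (F₁ x) := by
          funext x; rw [hFB]
        rw [h3, hdeg0 c, ← Finset.sum_add_distrib]
        refine Finset.sum_eq_zero fun j _ => ?_
        rw [Function.comp_apply, map_zpow, hd _ (cs (hGlo j)), toAdd_zpow, toAdd_ofAdd,
          hGinc j c, smul_eq_mul]
        ring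
      rw [← hG'γ, hd _ (cs hG')] at h1
      exact Multiplicative.ofAdd.injective (h1.trans (ofAdd_zero).symm)
    obtain ⟨H, hHc, hHm, ⟨ρ, hρ⟩, hH0, hH1⟩ := hINJ X C n v hE (fun x => (G' x : X))
      ⟨continuous_subtype_val.comp hG'.1, fun x hx => by
        beta_reduce; rw [hG'.2 x hx, hyB, hyd]⟩ (fun x => (G' x).2) hz
    have hho : Ho yB G' (fun _ => yB) := by
      refine ⟨fun p => ⟨H p, hHm p⟩, hHc.subtype_mk _, ⟨ρ, fun t x hx => Subtype.ext ?_⟩,
        fun x => Subtype.ext ?_, fun x => Subtype.ext ?_⟩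
      · exact (hρ t x hx).trans (hyd.symm.trans hyB.symm)
      · exact hH0 x
      · exact (hH1 x).trans (hyd.symm.trans hyB.symm)
    rw [← hG'γ, (hCL1 (n + 2) (sk C (n + 3)) yB G' (fun _ => yB) (cs hG')
      ⟨continuous_const, 0, fun _ _ => rfl⟩).mpr hho]
    exact (hCL2 (n + 1) (sk C (n + 3)) yB).2
  -- the inclusion
  have hBA : sk C (n + 3) ⊆ sk C (n + 4) := mono (by omega : n + 3 ≤ n + 4)
  obtain ⟨Ψ, hΨ⟩ := hCL5 (n + 1) (sk C (n + 3)) (sk C (n + 4)) yB yA (Set.inclusion hBA)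
    (continuous_inclusion hBA) (Subtype.ext (hyB.trans hyA.symm))
  have h1 : Ψ γ = 1 := by rw [hγ1, map_one]
  rw [hγ, map_mul, map_list_prod, List.map_ofFn, hΨ _ (cs hFBlo)] at h1
  have h2 : (fun x => Set.inclusion hBA (FB x)) = F₂ := by
    funext x
    apply Subtype.ext
    rw [Set.coe_inclusion, hFB]
    exact (hF2e x).symm
  have h3 : ((Ψ : HomotopyGroup (Fin (n + 1 + 1)) (sk C (n + 3)) yB →
      HomotopyGroup (Fin (n + 1 + 1)) (sk C (n + 4)) yA) ∘ fun j => (cl yB (G j) :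
        HomotopyGroup (Fin (n + 1 + 1)) (sk C (n + 3)) yB) ^ (-w j)) = fun _ => 1 := by
    funext j
    rw [Function.comp_apply, map_zpow, hΨ _ (cs (hGlo j)),
      hGA j (fun x => Set.inclusion hBA (G j x)) (fun x => rfl), one_zpow]
  rw [h2, h3] at h1
  have h4 : (List.ofFn fun _ : Fin l =>
      (1 : HomotopyGroup (Fin (n + 1 + 1)) (sk C (n + 4)) yA)).prod = 1 := by
    rw [List.ofFn_const, List.prod_replicate, one_pow]
  rw [h4, mul_one] at h1
  refine (hCL1 (n + 2) (sk C (n + 4)) yA F₂ (fun _ => yA) (cs hF2)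
    ⟨continuous_const, 0, fun _ _ => rfl⟩).mp (h1.trans ?_)
  exact ((hCL2 (n + 1) (sk C (n + 4)) yA).2).symm

end Pool.Agent.Work.MP_e9e200_al.O3

end

section

/-!
# Project O3, item IFN
-/

set_option autoImplicit false

namespace Pool.Agent.Work.MP_e9e200_al.O3

open Set Metric Topology OnePoint

namespace XIFN

open Topology.RelCWComplex

theorem comb_infty {k n : ℕ} (τ : ℝ) : comb (∞ : W k n) τ = ∞ := rfl

theorem comb_far {k n : ℕ} (w : W k n) {τ : ℝ} (h : 1 ≤ |τ|) : comb w τ = ∞ := by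
  induction w using OnePoint.rec with
  | infty => rfl
  | coe p =>
    change (if |τ| < 1 then (((p.1, Fin.cons (τ / (1 - |τ|)) p.2) : Fin k × E (n + 1)) :
      W k (n + 1)) else ∞) = ∞
    rw [if_neg (not_lt.2 h)]

theorem qq_infty {X : Type} {k n : ℕ} (c : Fin k → PartialEquiv (E n) X) (x : X)
    (h : ∀ a, x ∉ (c a).target) : qq c x = ∞ := by
  unfold qq
  rw [dif_neg]
  rintro ⟨a, ha⟩
  exact h a ha

theorem target_eq {X : Type} [TopologicalSpace X] {C : Set X} [CWComplex C] (n : ℕ)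
    (c : cell C n) : (map n c).target = openCell n c := by
  rw [← (map n c).image_source_eq_target, source_eq, openCell]

end XIFN

open XIFN Topology.RelCWComplex in
theorem I_IFN (hDPR : StDPR) : StIFN := by
  intro X _ _ C _ n b c h
  unfold inc
  refine (hDPR 1 (n + 1) 0).2.2.1 _ ?_
  intro x b' y hx
  exfalso
  have key : Sus (fun x => qq (fun _ : Fin 1 => map n c) (b x)) x = (∞ : W 1 (n + 1)) := by
    unfold Sus
    by_cases h0 : x = 0
    · refine comb_far _ ?_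
      rw [h0, norm_zero]
      norm_num
    · have : ‖x‖⁻¹ • x ∈ sphere (0 : E (n + 1)) 1 := by
        rw [mem_sphere_zero_iff_norm, norm_smul, norm_inv, norm_norm,
          inv_mul_cancel₀ (norm_ne_zero_iff.2 h0)]
      have e := qq_infty (fun _ : Fin 1 => map n c) (b (‖x‖⁻¹ • x)) (by
        intro a
        rw [target_eq]
        exact h _ this)
      change comb (qq (fun _ : Fin 1 => map n c) (b (‖x‖⁻¹ • x))) _ = _
      rw [e]
      rfl
  rw [key] at hx
  exact OnePoint.infty_ne_coe _ hx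

end Pool.Agent.Work.MP_e9e200_al.O3

end

section

/-!
# Project O3, item INJ: maps with zero degrees are null homotopic
-/

set_option autoImplicit false

namespace Pool.Agent.Work.MP_e9e200_al.O3

open Set Metric Topology OnePoint
open Topology.RelCWComplex

namespace XINJ

variable {X : Type} [TopologicalSpace X] [T2Space X] {C : Set X} [CWComplex C]

theorem sk_mono (hSK : StSK) {m n : ℕ} (h : m ≤ n) : sk C m ⊆ sk C n := by
  induction n, h using Nat.le_induction with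
  | base => exact subset_rfl
  | succ n _ ih => exact ih.trans ((hSK X C).1 n).2.2

theorem base_mem (hSK : StSK) (v : cell C 0) : map 0 v 0 ∈ sk C 1 := by
  refine ((hSK X C).2.2.1 0 v).2.2 ?_
  exact ⟨0, by simp, rfl⟩

/-- finitely many open cells are hit -/
theorem cells (hFIN : StFIN) (hSK : StSK) (n : ℕ) (y : X) (hy : y ∈ sk C (n + 2))
    (F : E (n + 2) → X) (hF : Lo y F) (hs : ∀ x, F x ∈ sk C (n + 3)) :
    ∃ (k : ℕ) (a : Fin k → cell C (n + 2)), Function.Injective a ∧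
      ∀ x, F x ∈ sk C (n + 2) ∨ ∃ i, F x ∈ openCell (n + 2) (a i) := by
  have hK : IsCompact (F '' closedBall 0 1) := (isCompact_closedBall 0 1).image hF.1
  have hKC : F '' closedBall 0 1 ⊆ C := by
    rintro _ ⟨x, _, rfl⟩
    exact ((hSK X C).1 (n + 3)).2.1 (hs x)
  have hfin := hFIN X C _ hK hKC
  have hfin2 : {c : cell C (n + 2) | (openCell (n + 2) c ∩ F '' closedBall 0 1).Nonempty}.Finite := by
    have hinj : Function.Injective (fun c : cell C (n + 2) => (⟨n + 2, c⟩ : Σ n, cell C n)) := by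
      intro c c' hcc
      simpa using hcc
    exact hfin.preimage (f := fun c : cell C (n + 2) => (⟨n + 2, c⟩ : Σ n, cell C n))
      hinj.injOn
  obtain ⟨k, a, ha, hr⟩ := hfin2.fin_param
  refine ⟨k, a, ha, fun x => ?_⟩
  by_cases hx : 1 ≤ ‖x‖
  · left
    rw [hF.2 x hx]
    exact hy
  · have h1 := hs x
    rw [(hSK X C).2.1 (n + 3)] at h1
    simp only [mem_iUnion] at h1
    obtain ⟨m, hm, e, he⟩ := h1
    by_cases hm2 : m < n + 2
    · left
      rw [(hSK X C).2.1 (n + 2)]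
      simp only [mem_iUnion]
      exact ⟨m, hm2, e, he⟩
    · right
      obtain rfl : m = n + 2 := by omega
      have h2 : e ∈ range a := by
        rw [hr]
        exact ⟨F x, he, x, by simpa using (not_le.mp hx).le, rfl⟩
      obtain ⟨i, rfl⟩ := h2
      exact ⟨i, he⟩

end XINJ

theorem I_INJ (hRR : StRR) (hNHX : StNHX) (hU1 : StU1) (hQQ : StQQ) (hFIN : StFIN) (hDPR : StDPR)
    (hSK : StSK) : StINJ := by
  intro X _ _ C _ n v hE F hF hs hd
  obtain ⟨D, hD⟩ := hNHX X C (n + 2) v hE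
  have hy1 : map 0 v 0 ∈ sk C 1 := XINJ.base_mem hSK v
  have hy2 : map 0 v 0 ∈ sk C (n + 2) := XINJ.sk_mono hSK (by omega) hy1
  obtain ⟨k, a, ha, hcov⟩ := XINJ.cells hFIN hSK n _ hy2 F hF hs
  obtain ⟨_, r, hr, hr0, hrs, _, hrF⟩ := hRR X C (n + 1) (map 0 v 0) D hy1 hD k a ha
  obtain ⟨H, hH, hHs, hH1, hH0, hHe⟩ := hrF F hF hcov
  obtain ⟨hq1, hq2, hq3, hq4⟩ := hQQ X C k (n + 2) a ha
  have hyq : qq (fun i => map (n + 2) (a i)) (map 0 v 0) = (∞ : W k (n + 2)) := by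
    refine hq3 _ fun i hi => ?_
    exact (Set.disjoint_left.mp ((hSK X C).2.2.1 (n + 2) (a i)).2.1) hi hy2
  have hcs : CS ∞ (fun x => qq (fun i => map (n + 2) (a i)) (F x)) := by
    refine ⟨?_, 1, fun x hx => ?_⟩
    · exact hq1.comp_continuous hF.1 hs
    · show qq (fun i => map (n + 2) (a i)) (F x) = ∞
      rw [hF.2 x hx, hyq]
  have hdeg : ∀ i, deg i (fun x => qq (fun i => map (n + 2) (a i)) (F x)) = 0 := by
    intro i
    rw [(hDPR k (n + 2) i).2.1]
    simp only [hq4]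
    exact hd (a i)
  obtain ⟨K, hK, ⟨s, hKs⟩, hK0, hK1⟩ := hU1 k n _ hcs hdeg
  refine ⟨fun p => if p.1 ≤ 1 / 2 then H (2 * p.1, p.2) else r (K (2 * p.1 - 1, p.2)), ?_, ?_,
    ⟨max 1 s, ?_⟩, ?_, ?_⟩
  · refine Continuous.if_le (hH.comp (by fun_prop)) (hr.comp (hK.comp (by fun_prop)))
      continuous_fst continuous_const ?_
    intro p hp
    have e1 : 2 * p.1 = 1 := by rw [hp]; norm_num
    have e2 : 2 * p.1 - 1 = 0 := by rw [e1]; norm_num
    rw [e1, sub_self, hHe, hK0]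
  · intro p
    show (if p.1 ≤ 1 / 2 then H (2 * p.1, p.2) else r (K (2 * p.1 - 1, p.2))) ∈ sk C (n + 3)
    split_ifs
    · exact hHs _
    · exact hrs _
  · intro t x hx
    show (if t ≤ 1 / 2 then H (2 * t, x) else r (K (2 * t - 1, x))) = map 0 v 0
    split_ifs
    · exact hH1 _ x (le_trans (le_max_left _ _) hx)
    · rw [hKs _ x (le_trans (le_max_right _ _) hx), hr0]
  · intro x
    show (if (0 : ℝ) ≤ 1 / 2 then H (2 * 0, x) else r (K (2 * 0 - 1, x))) = F x
    rw [if_pos (by norm_num), mul_zero]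
    exact hH0 x
  · intro x
    show (if (1 : ℝ) ≤ 1 / 2 then H (2 * 1, x) else r (K (2 * 1 - 1, x))) = map 0 v 0
    rw [if_neg (by norm_num), show (2 * 1 - 1 : ℝ) = 1 by norm_num, hK1, hr0]

end Pool.Agent.Work.MP_e9e200_al.O3

end

section

/-!
# Project O3, item INV: homotopy invariance of the incidence numbers
-/

set_option autoImplicit false

namespace Pool.Agent.Work.MP_e9e200_al.O3

open Set Metric Topology OnePoint
open Topology.RelCWComplex

theorem I_INV (hSUSC : StSUSC) (hDEG : StDEG) (hQQ : StQQ) : StINV := by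
  intro X _ _ C _ n H hH hm c
  have hq : ContinuousOn (qq fun _ : Fin 1 => map n c) (sk C (n + 1)) :=
    (hQQ X C 1 n (fun _ => c) (fun a b _ => Subsingleton.elim a b)).1
  have hg : ContinuousOn (fun p : ℝ × E (n + 1) => qq (fun _ : Fin 1 => map n c) (H p))
      (Icc 0 1 ×ˢ sphere 0 1) :=
    hq.comp hH (fun p hp => hm p.1 hp.1 p.2 hp.2)
  exact (hDEG 1 (n + 1) 0).2 _ _ ((hSUSC 1 n).2 _ hg)

end Pool.Agent.Work.MP_e9e200_al.O3

end

section

/-!
# O3, item RR: the map of a wedge given by the maps `rr`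
-/

set_option autoImplicit false

namespace Pool.Agent.Work.MP_e9e200_al.O3

open Set Metric Topology OnePoint

namespace XRR

open Topology.RelCWComplex

variable {X : Type} [TopologicalSpace X] [T2Space X] {C : Set X} [CWComplex C]

lemma skmono (hSK : StSK) {m n : ℕ} (h : m ≤ n) : sk C m ⊆ sk C n := by
  induction h with
  | refl => exact subset_rfl
  | step _ ih => exact ih.trans ((hSK X C).1 _).2.2

lemma mapcell (hSK : StSK) {n : ℕ} (e : cell C n) {x : E n} (hx : ‖x‖ ≤ 1) :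
    map n e x ∈ sk C (n + 1) := by
  refine ((hSK X C).2.2.1 n e).2.2 ?_
  exact ⟨x, by rwa [mem_closedBall, dist_zero_right], rfl⟩

lemma mapfront (hSK : StSK) {n : ℕ} (e : cell C n) {x : E n} (hx : ‖x‖ = 1) :
    map n e x ∈ sk C n := by
  refine ((hSK X C).2.2.1 n e).1 ?_
  exact ⟨x, by rwa [mem_sphere, dist_zero_right], rfl⟩

lemma nrm {n : ℕ} {x : E n} (hx : x ≠ 0) : ‖‖x‖⁻¹ • x‖ = 1 := by
  rw [norm_smul, norm_inv, norm_norm, inv_mul_cancel₀ (norm_ne_zero_iff.2 hx)]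

lemma tI {n : ℕ} {x : E n} (h1 : 1 / 2 ≤ ‖x‖) (h2 : ‖x‖ ≤ 1) :
    2 - ‖x‖⁻¹ ∈ Icc (0 : ℝ) 1 := by
  have h0 : 0 < ‖x‖ := by linarith
  constructor
  · have : ‖x‖⁻¹ ≤ (1 / 2 : ℝ)⁻¹ := inv_anti₀ (by norm_num) h1
    norm_num at this
    linarith
  · have : 1 ≤ ‖x‖⁻¹ := by
      rw [le_inv_comm₀ (by norm_num) h0]
      simpa using h2
    linarith

lemma rr1 {N : ℕ} {y₀ : X} {D : ℝ × X → X} (e : cell C (N + 1)) {x : E (N + 1)}
    (h : ‖x‖ ≤ 1 / 2) : rr C N y₀ D e x = map (N + 1) e ((2 : ℝ) • x) := by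
  rw [rr, if_pos h]

lemma rr2 (hSK : StSK) {N : ℕ} {y₀ : X} {D : ℝ × X → X} (hD : NH C (N + 1) y₀ D)
    (e : cell C (N + 1)) {x : E (N + 1)} (h : 1 / 2 ≤ ‖x‖) (h' : ‖x‖ ≤ 1) :
    rr C N y₀ D e x = D (2 - ‖x‖⁻¹, map (N + 1) e (‖x‖⁻¹ • x)) := by
  by_cases h1 : ‖x‖ ≤ 1 / 2
  · have h2 : ‖x‖ = 1 / 2 := le_antisymm h1 h
    have hx : x ≠ 0 := by
      intro h3
      rw [h3, norm_zero] at h2
      norm_num at h2
    have h3 : ‖(2 : ℝ) • x‖ = 1 := by
      rw [norm_smul, h2]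
      norm_num
    rw [rr1 e h1, h2]
    norm_num
    rw [hD.zero _ (mapfront hSK e h3)]
  · rw [rr, if_neg h1, if_pos h']

lemma rr3 (hSK : StSK) {N : ℕ} {y₀ : X} {D : ℝ × X → X} (hD : NH C (N + 1) y₀ D)
    (e : cell C (N + 1)) {x : E (N + 1)} (h : 1 ≤ ‖x‖) : rr C N y₀ D e x = y₀ := by
  by_cases h1 : ‖x‖ ≤ 1
  · have h2 : ‖x‖ = 1 := le_antisymm h1 h
    rw [rr2 hSK hD e (by linarith) h1, h2]
    norm_num
    exact hD.one _ (mapfront hSK e h2)
  · rw [rr, if_neg (by linarith), if_neg h1]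

lemma rrcont (hSK : StSK) {N : ℕ} {y₀ : X} {D : ℝ × X → X} (hD : NH C (N + 1) y₀ D)
    (e : cell C (N + 1)) : Continuous (rr C N y₀ D e) := by
  have hm : ContinuousOn (map (N + 1) e) (closedBall 0 1) := Topology.RelCWComplex.continuousOn (N + 1) e
  have c1 : ContinuousOn (rr C N y₀ D e) {x | ‖x‖ ≤ 1 / 2} := by
    have h : ContinuousOn (fun x : E (N + 1) => map (N + 1) e ((2 : ℝ) • x)) {x | ‖x‖ ≤ 1 / 2} := by
      refine hm.comp (by fun_prop) ?_
      intro x hx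
      rw [mem_closedBall, dist_zero_right, norm_smul]
      have hx' : ‖x‖ ≤ 1 / 2 := hx
      rw [Real.norm_eq_abs, abs_of_pos (by norm_num : (0 : ℝ) < 2)]
      linarith
    exact h.congr fun x hx => rr1 e hx
  have c2 : ContinuousOn (rr C N y₀ D e) {x | 1 / 2 ≤ ‖x‖ ∧ ‖x‖ ≤ 1} := by
    have hx0 : ∀ x : E (N + 1), 1 / 2 ≤ ‖x‖ ∧ ‖x‖ ≤ 1 → x ≠ 0 := by
      rintro x ⟨h1, _⟩ h3
      rw [h3, norm_zero] at h1
      norm_num at h1
    have hi : ContinuousOn (fun x : E (N + 1) => ‖x‖⁻¹) {x | 1 / 2 ≤ ‖x‖ ∧ ‖x‖ ≤ 1} :=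
      continuous_norm.continuousOn.inv₀ fun x hx => norm_ne_zero_iff.2 (hx0 x hx)
    have h : ContinuousOn (fun x : E (N + 1) => D (2 - ‖x‖⁻¹, map (N + 1) e (‖x‖⁻¹ • x)))
        {x | 1 / 2 ≤ ‖x‖ ∧ ‖x‖ ≤ 1} := by
      refine hD.cont.comp (ContinuousOn.prodMk (continuousOn_const.sub hi)
        (hm.comp (hi.smul continuousOn_id) ?_)) ?_
      · intro x hx
        rw [mem_closedBall, dist_zero_right]
        exact (nrm (hx0 x hx)).le
      · intro x hx
        exact ⟨tI hx.1 hx.2, mapfront hSK e (nrm (hx0 x hx))⟩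
    exact h.congr fun x hx => rr2 hSK hD e hx.1 hx.2
  have c3 : ContinuousOn (rr C N y₀ D e) {x | 1 ≤ ‖x‖} :=
    (continuousOn_const (c := y₀)).congr fun x hx => rr3 hSK hD e hx
  have hA1 : IsClosed {x : E (N + 1) | ‖x‖ ≤ 1 / 2} := isClosed_le continuous_norm continuous_const
  have hA3 : IsClosed {x : E (N + 1) | 1 ≤ ‖x‖} := isClosed_le continuous_const continuous_norm
  have hA2 : IsClosed {x : E (N + 1) | 1 / 2 ≤ ‖x‖ ∧ ‖x‖ ≤ 1} :=
    (isClosed_le continuous_const continuous_norm).inter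
      (isClosed_le continuous_norm continuous_const)
  have h12 := c1.union_of_isClosed c2 hA1 hA2
  have h123 := h12.union_of_isClosed c3 (hA1.union hA2) hA3
  rw [← continuousOn_univ]
  refine h123.mono ?_
  intro x _
  by_cases h1 : ‖x‖ ≤ 1 / 2
  · exact Or.inl (Or.inl h1)
  · by_cases h2 : ‖x‖ ≤ 1
    · exact Or.inl (Or.inr ⟨(not_le.1 h1).le, h2⟩)
    · exact Or.inr (not_le.1 h2).le

lemma rrsk (hSK : StSK) {N : ℕ} {y₀ : X} {D : ℝ × X → X} (hy : y₀ ∈ sk C 1)
    (hD : NH C (N + 1) y₀ D) (e : cell C (N + 1)) (x : E (N + 1)) :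
    rr C N y₀ D e x ∈ sk C (N + 2) := by
  by_cases h1 : ‖x‖ ≤ 1 / 2
  · rw [rr1 e h1]
    refine mapcell hSK e ?_
    rw [norm_smul, Real.norm_eq_abs, abs_of_pos (by norm_num : (0 : ℝ) < 2)]
    linarith
  · by_cases h2 : ‖x‖ ≤ 1
    · rw [rr2 hSK hD e (not_le.1 h1).le h2]
      have hx : x ≠ 0 := by
        intro h3
        rw [h3, norm_zero] at h1
        norm_num at h1
      exact hD.sk N (Nat.lt_succ_self N) _ (mapfront hSK e (nrm hx)) _ (tI (not_le.1 h1).le h2)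
    · rw [rr3 hSK hD e (not_le.1 h2).le]
      exact skmono hSK (by omega) hy

/-- the map of the wedge -/
noncomputable def rw' (C : Set X) [CWComplex C] (N : ℕ) (y₀ : X) (D : ℝ × X → X) {k : ℕ}
    (e : Fin k → cell C (N + 1)) (w : W k (N + 1)) : X :=
  w.elim y₀ (fun p => rr C N y₀ D (e p.1) (phi p.2))

lemma rwcont (hSK : StSK) (hPHI : StPHI) {N : ℕ} {y₀ : X} {D : ℝ × X → X}
    (hD : NH C (N + 1) y₀ D) {k : ℕ} (e : Fin k → cell C (N + 1)) :
    Continuous (rw' C N y₀ D e) := by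
  rw [OnePoint.continuous_iff]
  constructor
  · have key : ∀ a : Fin k, ∀ U : Set X, IsOpen U → y₀ ∈ U → ∃ R : ℝ, ∀ y : E (N + 1), R ≤ ‖y‖ →
        rr C N y₀ D (e a) (phi y) ∈ U := by
      intro a U hU hyU
      have hc : IsCompact ({x : E (N + 1) | rr C N y₀ D (e a) x ∉ U}) := by
        refine Metric.isCompact_of_isClosed_isBounded ?_ ?_
        · exact (hU.preimage (rrcont hSK hD (e a))).isClosed_compl
        · refine Bornology.IsBounded.subset (t := closedBall (0 : E (N + 1)) 1)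
            Metric.isBounded_closedBall ?_
          intro x hx
          rw [mem_closedBall, dist_zero_right]
          by_contra h
          exact hx (by rw [rr3 hSK hD (e a) (not_le.1 h).le]; exact hyU)
      rcases ({x : E (N + 1) | rr C N y₀ D (e a) x ∉ U}).eq_empty_or_nonempty with h0 | h0
      · refine ⟨0, fun y _ => ?_⟩
        by_contra h
        have : phi y ∈ ({x : E (N + 1) | rr C N y₀ D (e a) x ∉ U}) := h
        rw [h0] at this
        exact this
      · obtain ⟨x₁, hx₁, hmax⟩ := hc.exists_isMaxOn h0 continuous_norm.continuousOn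
        have h1 : ‖x₁‖ < 1 := by
          by_contra h
          exact hx₁ (by rw [rr3 hSK hD (e a) (not_lt.1 h)]; exact hyU)
        refine ⟨‖x₁‖ / (1 - ‖x₁‖) + 1, fun y hy => ?_⟩
        by_contra h
        have h2 : ‖phi y‖ ≤ ‖x₁‖ := hmax h
        rw [((hPHI (N + 1)).1 y).2.2, div_le_iff₀ (by positivity)] at h2
        have h3 : ‖y‖ ≤ ‖x₁‖ / (1 - ‖x₁‖) := by
          rw [le_div_iff₀ (by linarith)]
          linarith
        linarith
    rw [Filter.tendsto_def]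
    intro S hS
    obtain ⟨U, hUS, hU, hyU⟩ := mem_nhds_iff.1 hS
    choose R hR using fun a => key a U hU hyU
    have hK : (univ ×ˢ closedBall (0 : E (N + 1)) (∑ a, |R a|) : Set (Fin k × E (N + 1)))ᶜ ∈
        Filter.coclosedCompact (Fin k × E (N + 1)) := by
      rw [Filter.compl_mem_coclosedCompact,
        (isClosed_univ.prod isClosed_closedBall).closure_eq]
      exact isCompact_univ.prod (isCompact_closedBall _ _)
    refine Filter.mem_of_superset hK ?_
    rintro ⟨a, y⟩ hay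
    refine hUS (hR a y ?_)
    have h1 : ∑ a, |R a| < ‖y‖ := by
      by_contra h
      exact hay ⟨mem_univ _, by rw [mem_closedBall, dist_zero_right]; exact not_lt.1 h⟩
    have h2 : |R a| ≤ ∑ a, |R a| := Finset.single_le_sum (fun i _ => abs_nonneg (R i))
      (Finset.mem_univ a)
    linarith [le_abs_self (R a)]
  · rw [continuous_prod_of_discrete_left]
    intro a
    exact (rrcont hSK hD (e a)).comp (hPHI (N + 1)).2.2.1

end XRR

open Topology.RelCWComplex in
theorem I_RR (hHEP : StHEP) (hQQ : StQQ) (hSK : StSK) (hPHI : StPHI) (hOPC : StOPC) : StRR := by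
  intro X _ _ C _ N y₀ D hy hD k e he
  refine ⟨fun a => ⟨⟨XRR.rrcont hSK hD (e a), fun x hx => XRR.rr3 hSK hD (e a) hx⟩,
    XRR.rrsk hSK hy hD (e a)⟩, XRR.rw' C N y₀ D e, XRR.rwcont hSK hPHI hD e, rfl, ?_, ?_, ?_⟩
  · intro w
    induction w using OnePoint.rec with
    | infty => exact XRR.skmono hSK (by omega) hy
    | coe p => exact XRR.rrsk hSK hy hD (e p.1) (phi p.2)
  · intro a x
    by_cases hx : ‖x‖ < 1
    · rw [io, if_pos hx]
      change rr C N y₀ D (e a) (phi (psi x)) = _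
      rw [((hPHI (N + 1)).2.1 x hx).1]
    · rw [io, if_neg hx]
      exact (XRR.rr3 hSK hD (e a) (not_lt.1 hx)).symm
  · intro F hF hFc
    obtain ⟨D', h1, h2, h3, h4, h5⟩ := hHEP X C N y₀ D hD
    have hFs : ∀ x, F x ∈ sk C (N + 2) := by
      intro x
      rcases hFc x with h | ⟨a, h⟩
      · exact XRR.skmono hSK (by omega) h
      · exact ((hSK X C).2.2.1 (N + 1) (e a)).2.2 (openCell_subset_closedCell _ _ h)
    have hc0 : ∀ t : ℝ, max 0 (min 1 t) ∈ Icc (0 : ℝ) 1 := fun t =>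
      ⟨le_max_left _ _, max_le (by norm_num) (min_le_left _ _)⟩
    refine ⟨fun p => D' (max 0 (min 1 p.1), F p.2), ?_, ?_, ?_, ?_, ?_⟩
    · refine h1.comp_continuous ?_ fun p => ⟨hc0 p.1, hFs p.2⟩
      exact Continuous.prodMk (by fun_prop) (hF.1.comp continuous_snd)
    · exact fun p => h4 _ (hFs p.2) _ (hc0 p.1)
    · intro t x hx
      change D' (max 0 (min 1 t), F x) = y₀
      rw [hF.2 x hx, h3 y₀ (XRR.skmono hSK (by omega) hy) _ (hc0 t)]
      exact hD.base _ (hc0 t)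
    · intro x
      change D' (max 0 (min 1 0), F x) = F x
      have h0 : max (0 : ℝ) (min 1 0) = 0 := by simp
      rw [h0]
      exact h2 _ (hFs x)
    · intro x
      change D' (max 0 (min 1 1), F x) = _
      have h0 : max (0 : ℝ) (min 1 1) = 1 := by simp
      rw [h0]
      rcases hFc x with h | ⟨a, h⟩
      · rw [h3 _ h 1 ⟨by norm_num, le_rfl⟩, hD.one _ h, (hQQ X C k (N + 1) e he).2.2.1]
        · rfl
        · intro a ha
          exact (Set.disjoint_left.1 ((hSK X C).2.2.1 (N + 1) (e a)).2.1 ha) h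
      · obtain ⟨y, hy1, hy2⟩ := h
        rw [← hy2, (hQQ X C k (N + 1) e he).2.1 a y hy1]
        rw [mem_ball, dist_zero_right] at hy1
        change _ = rr C N y₀ D (e a) (phi (psi y))
        rw [((hPHI (N + 1)).2.1 y hy1).1]
        by_cases hy3 : ‖y‖ ≤ 1 / 2
        · rw [(h5 (e a) y).1 hy3, XRR.rr1 _ hy3]
        · rw [(h5 (e a) y).2 (not_le.1 hy3).le hy1.le,
            XRR.rr2 hSK hD (e a) (not_le.1 hy3).le hy1.le]

end Pool.Agent.Work.MP_e9e200_al.O3

end
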