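import Pool.Agent.Work.MP_e9e200_al.HT.Final
import Pool.Agent.Work.MP_e9e200_al.Bd.B08
import Pool.Agent.Work.MP_e9e200_al.Bd.B06
import Pool.Agent.Work.MP_e9e200_al.Bd.B07
import Pool.Agent.Work.MP_e9e200_al.Bd.B21
import Pool.Agent.Work.MP_e9e200_al.Bd.B22
import Pool.Agent.Work.MP_e9e200_al.Bd.B14
import Pool.Agent.Work.MP_e9e200_al.Bd.B19
import Pool.Agent.Work.MP_e9e200_al.Bd.B36
import Pool.Agent.Work.MP_e9e200_al.Bd.B27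
import Pool.Agent.Work.MP_e9e200_al.Bd.B26

/-! Bundle of small proof modules (one section per former module). -/

section

/-!
# Project HT: the complexes with heights zero

The complexes which are constructed in `HT` have the height zero on all cells `(1, b)`.
-/

set_option autoImplicit false

namespace Pool.Agent.Work.MP_e9e200_al.HT

open Finsupp Pool.Agent.Work.MP_e9e200_al.LC

/-- the characters `χ ≠ 0` for which there is a complex `X` as in the definition of `HSig` with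
`ht = 0`: all base cells `(1, b)` have their boundary in `G_χ`; moreover the half space is
`(n - 1)`-connected for all `n` -/
def HSig0 (G : Type) [Group G] (m : ℕ) : Set (Additive G →+ ℝ) :=
  {χ | χ ≠ 0 ∧ ∃ X : Cel G, X.Good ∧ (∀ n, X.Conn n (fun _ _ => True)) ∧
    (∀ i ≤ m, Finite (X.B i)) ∧ X.Hgt χ (fun _ _ => 0) ∧
    ∀ n, X.Conn n (X.Ge χ (fun _ _ => 0) 0)}

def StASM0 : Prop := ∀ (G : Type) [Group G] (χ : Additive G →+ ℝ), χ ≠ 0 → ∀ m, 1 ≤ m →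
  ∀ X : Cel G, Sk2 χ X → (2 ≤ m → Finite (X.B 2)) →
  IsFP (MonoidAlgebra ℤ (Gmon χ)) (Triv (Gmon χ)) m → χ ∈ HSig0 G m

def StSUP0 : Prop := ∀ (m : ℕ) (G : Type) [Group G] [Group.FG G], 1 ≤ m → Metab G →
  (∀ γ : Fin m → (Additive G →+ ℝ), (∀ j, γ j ∈ SigC G 1) → ∀ a : Fin m → ℝ, (∀ j, 0 ≤ a j) →
    (∃ j, a j ≠ 0) → ∑ j, a j • γ j ≠ 0) → ∀ v : Additive G →+ ℝ, v ≠ 0 →
    v ∉ ConvLE G m (SigC G 1) → v ∈ HSig0 G m

open ASM in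
theorem asm0 (hE0 : StE0) (hSEQ : StSEQ) (hGNZ : StGNZ) (hTRW : StTRW) (hMVP : StMVP) :
    StASM0 := by
  intro G _ χ hχ m hm X hX hB2 hFP
  obtain ⟨E, e, f, s1, s2, s3, s4, s5, s6⟩ := hSEQ G (hs χ 0) (X.B 1) (X.B 2) (X.d 1)
    (by show (0 : ℝ) ≤ χ (Additive.ofMul 1); simp)
  have hgood := hX.good
  have hhgt := hX.hgt
  have hconn := hX.conn
  -- generation
  have H : ∀ i, GenC (hs χ 0) ((XX X E e f).d i) ((XX X E e f).d (i + 1)) := by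
    intro i
    match i with
    | 0 =>
      refine ⟨fun b => sup_of (hhgt.d 1 b), fun b => hgood.dd 0 b, fun x hx hx0 => ?_⟩
      obtain ⟨y, hy, hyx⟩ := hconn.2.2 0 (by norm_num) x ((ge_sup X χ 1 x).2 hx) hx0
      exact ⟨y, (ge_sup X χ 2 y).1 hy, hyx⟩
    | 1 => exact s1
    | 2 => exact s2
    | n + 3 => exact s3 n
  have hd0 : ∀ b, X.d 0 b ∈ Finsupp.supported ℤ ℤ {p : G × X.B 0 | p.1 ∈ hs χ 0} :=
    fun b => sup_of (hhgt.d 0 b)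
  have haug : ∀ b, LC.aug ℤ (fun _ => (1 : ℤ)) (X.d 0 b) = 0 := by
    intro b
    rw [hgood.d0 b, map_sub, aug_single, aug_single, sub_self]
  have hex0 : ∀ x ∈ Finsupp.supported ℤ ℤ {p : G × X.B 0 | p.1 ∈ hs χ 0},
      LC.aug ℤ (fun _ => (1 : ℤ)) x = 0 →
      ∃ y ∈ Finsupp.supported ℤ ℤ {p : G × X.B 1 | p.1 ∈ hs χ 0}, ext ℤ (X.d 0) y = x := by
    intro x hx hx0
    obtain ⟨y, hy, hyx⟩ := hE0 G X hgood (X.Ge χ (fun _ _ => 0) 0 0) (X.Ge χ (fun _ _ => 0) 0 1)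
      (hconn.1 (by norm_num)).2 x ((ge_sup X χ 0 x).2 hx) hx0
    exact ⟨y, (ge_sup X χ 1 y).1 hy, hyx⟩
  have hne : Nonempty (X.B 0) := by
    obtain ⟨v, _⟩ := (hconn.1 (by norm_num)).1
    exact ⟨v.2⟩
  -- finiteness
  have hfin : ∀ i, i ≤ m → Finite ((XX X E e f).B i) := by
    intro i
    induction i using Nat.strong_induction_on with
    | _ i ih =>
      intro hi
      have key : ∀ n, n + 2 = i → 1 ≤ n → ∃ (N : Type) (_ : Finite N)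
          (z : N → (G × (XX X E e f).B (n + 1) →₀ ℤ)), GenC (hs χ 0) ((XX X E e f).d n) z := by
        intro n hn hn1
        exact hGNZ G (Gmon χ) m hFP (XX X E e f).B (XX X E e f).d hne hd0 haug hex0 n (by omega)
          (fun j hj => ih j (by omega) (by omega)) (fun j _ => H j)
      match i, hi, key with
      | 0, _, _ => exact hX.fin0
      | 1, _, _ => exact hX.fin1
      | 2, hi, _ => exact hB2 hi
      | 3, _, key => exact s4 (key 1 rfl (by norm_num))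
      | 4, _, key => exact s5 (key 2 rfl (by norm_num))
      | n + 5, _, key => exact s6 n (key (n + 3) rfl (by omega))
  -- the conditions
  have hG : (XX X E e f).Good := by
    refine ⟨fun b => path _ _ _ (hgood.clo b), hgood.d0, hgood.d1, fun i b => ?_⟩
    exact (H i).2.1 b
  have hH : (XX X E e f).Hgt χ (fun _ _ => 0) := by
    refine ⟨hhgt.src, hhgt.tgt, hhgt.bas, hhgt.att, fun i b => ?_⟩
    match i with
    | 0 => exact hhgt.d 0 b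
    | n + 1 => exact of_sup ((H n).1 b)
  obtain ⟨⟨v0, _⟩, m1, m2⟩ := hMVP G χ hχ X hconn
  refine ⟨hχ, XX X E e f, hG, fun n => ⟨fun _ => ⟨⟨v0, trivial⟩, ?_⟩, fun _ => ?_,
    fun i _ x _ hx => ?_⟩, hfin, hH, fun n => ⟨fun _ => ⟨?_, ?_⟩, fun _ => ?_, fun i _ x hx hx0 => ?_⟩⟩
  · intro v w _ _
    obtain ⟨p, hp⟩ := m1 v w
    exact ⟨p, path _ _ _ hp⟩
  · intro v p _ hp
    exact hty (m2 v p (path' _ _ _ hp))
  · obtain ⟨y, hy⟩ := hTRW G χ hχ _ _ _ _ _ (H i) x hx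
    refine ⟨y, ?_, hy⟩
    rw [Finsupp.mem_supported]
    exact fun c _ => trivial
  · obtain ⟨v, hv⟩ := (hconn.1 (by norm_num)).1
    exact ⟨v, hv⟩
  · intro v w hv hw
    obtain ⟨p, hp⟩ := (hconn.1 (by norm_num)).2 v w hv hw
    exact ⟨p, path _ _ _ hp⟩
  · intro v p hv hp
    exact hty (hconn.2.1 (by norm_num) v p hv (path' _ _ _ hp))
  · obtain ⟨y, hy, hyx⟩ := (H i).2.2 x ((ge_sup (XX X E e f) χ (i + 1) x).1 hx) hx0
    exact ⟨y, (ge_sup (XX X E e f) χ (i + 2) y).2 hy, hyx⟩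


theorem sup0 (hCON : StCON) (hSK1 : StSK1) (hSK2 : StSK2) (hASM : StASM0) (u : UP.StU)
    (g3 : UP.StG3) (hMono : StMono)
    (hSig : ∀ (G : Type) [Group G] [Group.FG G], Metab G → ∀ χ : Additive G →+ ℝ, UP.NFr χ →
      χ ∈ SigC G 1) (hS2 : HS.StS2) : StSUP0 := by
  intro m G _ _ hm hG hγ v hv0 hcon
  have hrel : ∀ γ : Fin m → (Additive G →+ ℝ), (∀ j, UP.NFr (γ j)) →
      ∀ (a : Fin m → ℝ) (b : ℝ), (∀ j, 0 ≤ a j) → (∃ j, a j ≠ 0) → 0 ≤ b →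
        ∑ j, a j • γ j ≠ b • v := by
    intro γ hγN a b ha haj hb heq
    have hγS : ∀ j, γ j ∈ SigC G 1 := fun j => hSig G hG (γ j) (hγN j)
    rcases hb.eq_or_lt with h0 | h0
    · rw [← h0, zero_smul] at heq
      exact hγ γ hγS a ha haj heq
    · refine hcon (UP.UP.conv m hm (SigC G 1) (fun χ h => h.1) v hv0 γ hγS (fun j => b⁻¹ * a j)
        (fun j => mul_nonneg (inv_nonneg.2 hb) (ha j)) ?_)
      have h1 : v = b⁻¹ • (b • v) := by rw [smul_smul, inv_mul_cancel₀ h0.ne', one_smul]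
      rw [h1, ← heq, Finset.smul_sum]
      exact Finset.sum_congr rfl fun j _ => smul_smul _ _ _
  obtain ⟨B, _, deg, db, eb, hP⟩ := u m G hG v hrel
  have hFP : IsFP (MonoidAlgebra ℤ (Gmon v)) (Triv (Gmon v)) m := g3 G (Gmon v) m B deg db eb hP
  have hFP1 : IsFP (MonoidAlgebra ℤ (Gmon v)) (Triv (Gmon v)) 1 := hMono _ _ m 1 hm hFP
  obtain ⟨X, hXf, hXs, hX1, hXc⟩ := hCON G v hFP1
  rcases Nat.lt_or_ge m 2 with hm2 | hm2
  · obtain rfl : m = 1 := by omega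
    obtain ⟨Y, hY⟩ := hSK1 G v X hXf hXs hX1 hXc
    exact hASM G v hv0 1 le_rfl Y hY (fun h => absurd h (by norm_num)) hFP
  · have hFP2 : IsFP (MonoidAlgebra ℤ (Gmon v)) (Triv (Gmon v)) 2 := hMono _ _ m 2 hm2 hFP
    obtain ⟨X', hXf', hXs', hX1', hXc', hXd⟩ := hS2 G hG v hv0 (by
      intro γ₁ γ₂ h1 h2 n1 n2 a₁ a₂ b ha1 ha2 hb hab heq
      obtain ⟨k, rfl⟩ : ∃ k, m = k + 2 := ⟨m - 2, by omega⟩
      refine hrel (Fin.cons γ₁ (fun _ => γ₂)) ?_ (Fin.cons a₁ (Fin.cons a₂ (fun _ => 0))) b ?_ ?_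
        hb ?_
      · refine Fin.cases ?_ (fun j => ?_)
        · exact ⟨h1, n1⟩
        · exact ⟨h2, n2⟩
      · refine Fin.cases ha1 (fun j => ?_)
        rw [Fin.cons_succ]
        refine Fin.cases ha2 (fun j => ?_) j
        rw [Fin.cons_succ]
      · by_contra hne
        push Not at hne
        have e1 := hne 0
        have e2 := hne (Fin.succ 0)
        rw [Fin.cons_zero] at e1
        rw [Fin.cons_succ, Fin.cons_zero] at e2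
        rw [e1, e2] at hab
        simp at hab
      · rw [Fin.sum_univ_succ, Fin.sum_univ_succ]
        simp only [Fin.cons_zero, Fin.cons_succ, zero_smul, Finset.sum_const_zero, add_zero]
        exact heq) hFP2 ⟨X, hXf, hXc⟩
    obtain ⟨Y, hY, hYf⟩ := hSK2 G v X' hXf' hXs' hX1' hXc' hXd
    exact hASM G v hv0 m hm Y hY (fun _ => hYf) hFP


/-- let `G` be a metabelian group of type `FP_m` and let `v` be a nonzero character which is not in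
`conv_{≤m} (Σ^1(G, ℤ)^c)`; then there is a complex with heights zero -/
theorem hsig0 (m : ℕ) (hm : 1 ≤ m) (G : Type) [Group G] [Group.FG G] (hG : Metab G)
    (hfp : GroupFP G m) (v : Additive G →+ ℝ) (hv : v ≠ 0) (h : v ∉ ConvLE G m (SigC G 1)) :
    v ∈ HSig0 G m :=
  sup0 I_CON A_SK1 A_SK2 (asm0 I_E0 I_SEQ A_GNZ I_TRW I_MVP) UP.A_U UP.A_G3 I_Mono
    (fun G _ _ hG χ h => (UP.nfr_iff G hG χ).1 h) HS.A_S2 m G hm hG (LZ.tame m G hG hfp) v hv h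

end Pool.Agent.Work.MP_e9e200_al.HT

end

section

/-!
# Project O3: assembly of the blocks T, C, F, A, R, L
-/

namespace Pool.Agent.Work.MP_e9e200_al.O3

theorem AA_CRT : O3A.StCRT :=
  O3A.I_CRT

theorem AA_PHB : O3A.StPHB :=
  O3A.I_PHB

theorem AA_ACT : O3A.StACT :=
  O3A.I_ACT AA_CRT AA_PHB

theorem AA_SKC : O3A.StSKC :=
  O3A.I_SKC AA_CRT AA_PHB AA_ACT

theorem AA_SKM : O3A.StSKM :=
  O3A.I_SKM AA_CRT AA_PHB AA_SKC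

theorem AA_EXF : O3A.StEXF :=
  O3A.I_EXF AA_CRT AA_PHB AA_ACT AA_SKM

theorem AA_T2 : O3A.StT2 :=
  O3A.I_T2 AA_CRT AA_PHB AA_EXF

theorem AA_FIN : O3A.StFIN :=
  O3A.I_FIN AA_CRT AA_PHB AA_SKC AA_ACT

theorem AA_SYM : O3A.StSYM :=
  O3A.I_SYM AA_CRT AA_PHB AA_T2

theorem AA_CWS : O3A.StCWS :=
  O3A.I_CWS AA_CRT AA_PHB AA_SKM AA_T2 AA_FIN AA_SYM AA_ACT

theorem AA_SBC : O3A.StSBC :=
  O3A.I_SBC AA_PHB AA_CRT AA_T2

theorem A_HCW : StHCW :=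
  I_HCW AA_CWS AA_SBC AA_T2

theorem A_SK : StSK :=
  I_SK

theorem A_SKH : StSKH :=
  I_SKH AA_T2 AA_PHB A_SK

theorem A_OPC : StOPC :=
  I_OPC

theorem A_DPR : StDPR :=
  I_DPR A_OPC

theorem A_QPB : StQPB :=
  I_QPB AA_PHB A_DPR

theorem A_ICN : StICN :=
  I_ICN AA_T2 AA_PHB A_QPB A_SKH

theorem A_CNT : StCNT :=
  I_CNT

theorem A_PHI : StPHI :=
  I_PHI

theorem A_QQ : StQQ :=
  I_QQ A_SK A_CNT A_OPC A_PHI

theorem A_SMO : StSMO :=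
  I_SMO

theorem A_REG : StREG :=
  I_REG

theorem A_LINZ : StLINZ :=
  I_LINZ

theorem A_EXPD : StEXPD :=
  I_EXPD

theorem A_CL1 : StCL1 :=
  I_CL1

theorem A_CL3 : StCL3 :=
  I_CL3 A_CL1

theorem A_HGLUE : StHGLUE :=
  I_HGLUE

theorem A_HO : StHO :=
  I_HO

theorem A_PSP : StPSP :=
  I_PSP A_CL1 A_CL3 A_HGLUE A_HO

theorem A_CL2 : StCL2 :=
  I_CL2 A_CL1

theorem A_CL4 : StCL4 :=
  I_CL4 A_CL1

theorem A_GLP : StGLP :=
  I_GLP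

theorem A_PIO : StPIO :=
  I_PIO A_CL1 A_CL2 A_CL4 A_GLP A_HO

theorem A_PT : StPT :=
  I_PT A_SMO A_REG A_LINZ A_EXPD A_PSP A_PIO A_CL1 A_HO

theorem A_STOK : StSTOK :=
  I_STOK

theorem A_CLOSE : StCLOSE :=
  I_CLOSE

theorem A_DSTB : StDSTB :=
  I_DSTB A_STOK A_CLOSE

theorem A_DEG : StDEG :=
  I_DEG A_DSTB A_HO

theorem A_GLUE : StGLUE :=
  I_GLUE

theorem A_DADD : StDADD :=
  I_DADD A_DEG A_GLUE A_CLOSE

theorem A_DNRM : StDNRM :=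
  I_DNRM A_DEG

theorem A_DIO : StDIO :=
  I_DIO A_DNRM A_DPR

theorem A_U2G : StU2G :=
  I_U2G A_PT A_CL1 A_CL2 A_CL3 A_DEG A_DADD A_DIO A_DPR A_GLUE A_HO

theorem A_U2 : StU2 :=
  I_U2 A_U2G A_DEG A_DADD A_HO A_GLUE

theorem A_COMB : StCOMB :=
  I_COMB A_OPC

theorem A_SUSC : StSUSC :=
  I_SUSC A_COMB A_HO

theorem A_IFN : StIFN :=
  I_IFN A_DPR

theorem A_CLR : StCLR :=
  I_CLR A_QQ A_U2 A_DEG A_DADD A_DNRM A_COMB A_SUSC A_HO A_DPR A_SK A_PHI A_OPC A_IFN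

theorem A_HEP : StHEP :=
  I_HEP A_SK A_CNT

theorem A_RR : StRR :=
  I_RR A_HEP A_QQ A_SK A_PHI A_OPC

theorem A_NHX : StNHX :=
  I_NHX A_SK A_CNT

theorem A_HOMD : StHOMD :=
  I_HOMD A_CL1 A_CL2 A_CL3 A_DEG A_DADD A_HO A_GLUE

theorem A_RLZ : StRLZ :=
  I_RLZ A_HOMD A_DIO A_CL2 A_DPR

theorem A_FIN : StFIN :=
  I_FIN

theorem A_RLC : StRLC :=
  I_RLC A_CLR A_RR A_NHX A_U2 A_RLZ A_QQ A_SK A_FIN A_DPR

theorem A_FACC : StFACC :=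
  I_FACC A_COMB A_HO A_SUSC

theorem A_SUSP : StSUSP :=
  I_SUSP A_U2G A_FACC A_DADD A_DEG A_DNRM A_DPR A_DIO A_COMB A_HO A_GLUE

theorem A_FDG : StFDG :=
  I_FDG A_SUSP A_QQ A_DEG

theorem A_ATC : StATC :=
  I_ATC A_HCW A_SKH A_ICN A_QPB A_RLC A_FDG AA_T2 AA_PHB A_SK A_DPR

theorem A_BAS : StBAS :=
  I_BAS

theorem A_RAD : StRAD :=
  I_RAD A_SK A_CNT

theorem A_BD : StBD :=
  I_BD A_QQ A_RAD A_U2 A_DEG A_DPR A_COMB A_HO A_PHI A_OPC A_SK A_IFN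

theorem A_PSH : StPSH :=
  I_PSH

theorem A_FSC : StFSC :=
  I_FSC A_SK

theorem A_CAP : StCAP :=
  I_CAP A_PSH A_FIN A_FSC A_SK

theorem A_CL5 : StCL5 :=
  I_CL5 A_CL1 A_CL2

theorem A_U1 : StU1 :=
  I_U1 A_PT A_CL1 A_CL2 A_HOMD A_DIO

theorem A_INJ : StINJ :=
  I_INJ A_RR A_NHX A_U1 A_QQ A_FIN A_DPR A_SK

theorem A_INV : StINV :=
  I_INV A_SUSC A_DEG A_QQ

theorem A_SPH : StSPH :=
  I_SPH

theorem A_NUL : StNUL :=
  I_NUL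

theorem A_EXH : StEXH :=
  I_EXH

theorem A_EXT : StEXT :=
  I_EXT A_SPH A_NUL A_EXH A_BAS

theorem A_SPC : StSPC :=
  I_SPC A_SPH A_CAP A_BAS A_SK

theorem A_ESK : StESK :=
  I_ESK A_CAP A_SPC A_EXH A_SK

theorem A_HUR : StHUR :=
  I_HUR A_INJ A_BD A_FDG A_INV A_IFN A_QQ A_SPH A_CAP A_BAS A_EXT A_NUL A_EXH A_CL1 A_CL2 A_CL5
    A_HOMD A_ESK A_SK A_FIN A_DEG A_HO

theorem A_CNX : StCNX :=
  I_CNX A_HCW A_SKH A_ICN A_QPB A_HUR AA_T2 AA_PHB A_SK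

theorem A_HMI : StHMI :=
  I_HMI

theorem AL_EDP : O3L.StEDP :=
  O3L.I_EDP AA_PHB AA_CRT

theorem AL_LOP : O3L.StLOP :=
  O3L.I_LOP AL_EDP

theorem AL_GDL : O3L.StGDL :=
  O3L.I_GDL AA_PHB AA_CRT AL_EDP AL_LOP

theorem AL_DGL : O3L.StDGL :=
  O3L.I_DGL AL_EDP AL_LOP A_QPB A_DADD A_DIO A_DPR A_DEG A_HO A_CL4 A_HOMD

theorem AL_ICL : O3L.StICL :=
  O3L.I_ICL AL_EDP AL_LOP AL_DGL A_QPB A_SUSP

theorem AL_IC0 : O3L.StIC0 :=
  O3L.I_IC0 A_QPB A_COMB A_DADD A_DNRM A_DIO A_DPR A_DEG A_HO A_CL4 A_HOMD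

theorem AL_EX0 : O3L.StEX0 :=
  O3L.I_EX0 AA_PHB AA_CRT AL_EDP AL_LOP

theorem AL_RCE : O3L.StRCE :=
  O3L.I_RCE AL_EDP AL_LOP

theorem AL_CNV : O3L.StCNV :=
  O3L.I_CNV

theorem AL_GRD : O3L.StGRD :=
  O3L.I_GRD AA_PHB AA_CRT AL_EDP AL_GDL AA_T2 AA_CWS A_CNT

theorem AL_OPE : O3L.StOPE :=
  O3L.I_OPE AA_PHB AA_CRT AL_EDP

theorem AL_APP : O3L.StAPP :=
  O3L.I_APP AL_EDP AL_LOP AL_RCE

theorem AL_SEG : O3L.StSEG :=
  O3L.I_SEG AA_PHB AA_CRT AL_EDP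

theorem AL_EDG : O3L.StEDG :=
  O3L.I_EDG AA_PHB AA_CRT AL_EDP AL_LOP AL_GRD AL_OPE AL_RCE AL_APP AL_SEG

theorem AL_DSC : O3L.StDSC :=
  O3L.I_DSC AA_PHB AA_CRT AL_EDP AL_LOP AL_GDL AL_CNV A_NUL

theorem AL_HTY : O3L.StHTY :=
  O3L.I_HTY AL_EDP AL_LOP AL_RCE AL_APP AL_SEG AL_DSC

theorem AL_EX1 : O3L.StEX1 :=
  O3L.I_EX1 AA_PHB AA_CRT AA_SKM AA_T2 AA_CWS AA_SBC AL_EDP AL_LOP AL_GDL AL_RCE AL_CNV AL_EX0
    AL_EDG AL_HTY A_SK A_CAP A_EXT A_ESK A_HO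

theorem A_LOW : StLOW :=
  O3L.I_LOW AA_PHB AA_SKM AL_GDL AL_ICL AL_IC0 AL_EX0 AL_EX1

theorem AA_STP : O3A.StSTP :=
  O3A.I_STP

theorem AA_CNG : O3A.StCNG :=
  O3A.I_CNG

theorem A_STEP : StSTEP :=
  I_STEP A_ATC A_CNX AA_STP AA_CNG AA_SKM

theorem AA_REC : O3A.StREC :=
  O3A.I_REC

theorem AA_LIM : O3A.StLIM :=
  O3A.I_LIM AA_PHB AA_SKM AA_FIN

theorem AA_HTF : O3A.StHTF :=
  O3A.I_HTF AA_CRT AA_PHB AA_ACT AA_SKM

theorem AA_HLF : O3A.StHLF :=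
  O3A.I_HLF AA_PHB AA_CRT AA_T2 AA_ACT

theorem AA_UNI : O3A.StUNI :=
  O3A.I_UNI AA_PHB AA_ACT AA_FIN

theorem AA_LIT : O3A.StLIT :=
  O3A.I_LIT AA_PHB AA_CRT AA_ACT AA_T2 AA_CWS AA_HTF AA_HLF AA_UNI

theorem A_RZN : StRZN :=
  I_RZN A_LOW A_STEP A_HCW A_SKH A_ESK AA_REC AA_CNG AA_STP AA_SKM AA_T2 AA_LIM AA_LIT

theorem A_SUS0 : StSUS0 :=
  I_SUS0 A_COMB A_HO

theorem A_UNI : StUNI :=
  I_UNI A_FIN

end Pool.Agent.Work.MP_e9e200_al.O3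

end
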